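import Mathlib

/-! Disjoint type guessing and the proper forcing principle. -/

namespace Pool.Agent.H84.DtDefs

open Set

/-- The set of countable ordinals. -/
abbrev W1 : Type := (Cardinal.aleph 1).ord.ToType

/-- `t`, read on `{0, …, 2n-1}`, is a disjoint type of width `n` (`false` is `0`). -/
def IsType (n : ℕ) (t : ℕ → Bool) : Prop :=
  1 ≤ n ∧ ((Finset.range (2 * n)).filter fun i => t i = false).card = n

/-- The depth of the type is at most `d`: for one of the two values `c`, the `k`-th position `i`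
with value `c`, for some `k ≤ d`, lies above all positions with the other value. -/
def DepthLe (n : ℕ) (t : ℕ → Bool) (d : ℕ) : Prop :=
  ∃ (c : Bool) (i : ℕ), i < 2 * n ∧ t i = c ∧
    ((Finset.range i).filter fun j => t j = c).card ≤ d ∧ ∀ x < 2 * n, t x ≠ c → x < i

/-- The sets `a` and `b` are disjoint and `type(a, b) = t`. -/
def HasType (a b : Set W1) (n : ℕ) (t : ℕ → Bool) : Prop :=
  ∃ e : ℕ → W1, StrictMonoOn e (Iio (2 * n)) ∧ a = e '' {i | i < 2 * n ∧ t i = false} ∧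
    b = e '' {i | i < 2 * n ∧ t i = true}

/-- `C α` enumerates increasingly a cofinal subset of `α`, for every limit `α`. -/
def CSeq (C : W1 → ℕ → W1) : Prop :=
  ∀ α, Order.IsSuccLimit α → StrictMono (C α) ∧ (∀ n, C α n < α) ∧ ∀ γ < α, ∃ n, γ < C α n

/-- `C` guesses the sequence of types `t k` of widths `w k`. -/
def Guessing (C : W1 → ℕ → W1) (w : ℕ → ℕ) (t : ℕ → ℕ → Bool) : Prop :=
  ∀ f : W1 → ℕ, ∃ α β k, Order.IsSuccLimit α ∧ Order.IsSuccLimit β ∧ α < β ∧ f α = k ∧ f β = k ∧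
    (HasType (C α '' Iio (w k)) (C β '' Iio (w k)) (w k) (t k) ∨
      HasType (C α '' Iio (w k)) (C β '' Iio (w k)) (w k) fun i => !t k i)

/-- Dense subsets of a forcing notion. -/
def IsDense {P : Type} [PartialOrder P] (D : Set P) : Prop := ∀ p, ∃ q ∈ D, q ≤ p

/-- Proper forcing: for club many countable sets `N` of conditions and subsets of `P`, every
condition in `N` has an `(N, P)`-generic extension. -/
def Proper (P : Type) [PartialOrder P] : Prop :=
  ∃ F : Finset (P ⊕ Set P) → ℕ → P ⊕ Set P, ∀ N : Set (P ⊕ Set P), N.Countable →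
    (∀ s : Finset (P ⊕ Set P), (s : Set (P ⊕ Set P)) ⊆ N → ∀ n, F s n ∈ N) →
    ∀ p, Sum.inl p ∈ N → ∃ q ≤ p, ∀ D, Sum.inr D ∈ N → IsDense D →
      ∀ r ≤ q, ∃ d ∈ D, Sum.inl d ∈ N ∧ ∃ t, t ≤ d ∧ t ≤ r

/-- PFA: any `ℵ₁` dense subsets of a proper forcing notion are met by a filter. -/
def PFA : Prop :=
  ∀ (P : Type) [PartialOrder P] [Nonempty P], Proper P → ∀ 𝒟 : Set (Set P),
    Cardinal.mk 𝒟 ≤ Cardinal.aleph 1 → (∀ D ∈ 𝒟, IsDense D) →
    ∃ G : Set P, (∀ p ∈ G, ∀ q, p ≤ q → q ∈ G) ∧ (∀ p ∈ G, ∀ q ∈ G, ∃ r ∈ G, r ≤ p ∧ r ≤ q) ∧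
      ∀ D ∈ 𝒟, (G ∩ D).Nonempty

end Pool.Agent.H84.DtDefs
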