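import Mathlib

/-! Finite graphs of large girth and large chromatic number, by a greedy construction. -/

namespace Pool.Agent.H84.GirCol

open Finset

variable {V : Type*}

/-- Walks of length at most `k` along the pairs in `E`, in either direction. -/
inductive Wk (E : Set (V × V)) : ℕ → V → V → Prop
  | refl (k : ℕ) (u : V) : Wk E k u u
  | step {k : ℕ} {u w v : V} : ((u, w) ∈ E ∨ (w, u) ∈ E) → Wk E k w v → Wk E (k + 1) u v

theorem Wk.mono {E : Set (V × V)} {k l : ℕ} {u v : V} (h : Wk E k u v) (hl : k ≤ l) :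
    Wk E l u v := by
  induction h generalizing l with
  | refl => exact .refl _ _
  | step a _ ih =>
    obtain ⟨l, rfl⟩ := Nat.exists_eq_succ_of_ne_zero (show l ≠ 0 by omega)
    exact .step a (ih (by omega))

theorem Wk.sub {E F : Set (V × V)} {k : ℕ} {u v : V} (h : Wk E k u v) (hF : E ⊆ F) :
    Wk F k u v := by
  induction h with
  | refl => exact .refl _ _
  | step a _ ih => exact .step (a.imp (@hF _) (@hF _)) ih

theorem Wk.trans {E : Set (V × V)} {k l : ℕ} {u v w : V} (h : Wk E k u v) (h' : Wk E l v w) :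
    Wk E (k + l) u w := by
  induction h with
  | refl => exact h'.mono (by omega)
  | step a _ ih => exact (Wk.step a (ih h')).mono (by omega)

theorem Wk.symm {E : Set (V × V)} {k : ℕ} {u v : V} (h : Wk E k u v) : Wk E k v u := by
  induction h with
  | refl => exact .refl _ _
  | step a _ ih => exact ih.trans (.step a.symm (.refl 0 _))

theorem Wk.zero {E : Set (V × V)} {u v : V} (h : Wk E 0 u v) : u = v := by
  cases h
  rfl

theorem Wk.ins {E : Set (V × V)} {x y : V} {k : ℕ} {u v : V} (h : Wk (insert (x, y) E) k u v) :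
    Wk E k u v ∨ ∃ i j, i + j + 1 ≤ k ∧
      ((Wk E i u x ∧ Wk E j y v) ∨ (Wk E i u y ∧ Wk E j x v)) := by
  induction h with
  | refl => exact Or.inl (.refl _ _)
  | @step k u w v a _ ih =>
    by_cases b : (u, w) ∈ E ∨ (w, u) ∈ E
    · rcases ih with c | ⟨i, j, c, d⟩
      · exact Or.inl (.step b c)
      · exact Or.inr ⟨i + 1, j, by omega, d.imp (fun d => ⟨.step b d.1, d.2⟩)
          fun d => ⟨.step b d.1, d.2⟩⟩
    · rw [not_or] at b
      rcases a with a | a
      · obtain ⟨rfl, rfl⟩ := Prod.mk.inj (a.resolve_right b.1)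
        rcases ih with c | ⟨i, j, c, d | d⟩
        · exact Or.inr ⟨0, k, by omega, Or.inl ⟨.refl _ _, c⟩⟩
        · exact Or.inr ⟨0, j, by omega, Or.inl ⟨.refl _ _, d.2⟩⟩
        · exact Or.inl (d.2.mono (by omega))
      · obtain ⟨rfl, rfl⟩ := Prod.mk.inj (a.resolve_right b.2)
        rcases ih with c | ⟨i, j, c, d | d⟩
        · exact Or.inr ⟨0, k, by omega, Or.inr ⟨.refl _ _, c⟩⟩
        · exact Or.inl (d.2.mono (by omega))
        · exact Or.inr ⟨0, j, by omega, Or.inr ⟨.refl _ _, d.2⟩⟩

/-- No edge lies on a short cycle. -/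
def Gir (E : Set (V × V)) (L : ℕ) : Prop := ∀ e ∈ E, ¬ Wk (E \ {e}) L e.1 e.2

theorem Gir.ins {E : Set (V × V)} {L : ℕ} (h : Gir E L) {x y : V} (hn : ¬ Wk E L x y) :
    Gir (insert (x, y) E) L := by
  rintro e he hw
  by_cases e1 : e = (x, y)
  · subst e1
    exact hn (hw.sub fun p hp => hp.1.resolve_left hp.2)
  · have he' : e ∈ E := he.resolve_left e1
    have s : E \ {e} ⊆ E := fun _ h => h.1
    have hw' : Wk (insert (x, y) (E \ {e})) L e.1 e.2 :=
      hw.sub fun p hp => hp.1.imp id fun h => ⟨h, hp.2⟩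
    have b : Wk E 1 e.1 e.2 := .step (Or.inl he') (.refl 0 _)
    rcases hw'.ins with c | ⟨i, j, c, d | d⟩
    · exact h e he' c
    · exact hn ((((d.1.sub s).symm.trans b).trans (d.2.sub s).symm).mono (by omega))
    · exact hn ((((d.1.sub s).symm.trans b).trans (d.2.sub s).symm).symm.mono (by omega))

section fin

variable [Fintype V] [DecidableEq V]

/-- The number of pairs at a vertex. -/
def dg (E : Finset (V × V)) (v : V) : ℕ := (E.filter fun e => e.1 = v ∨ e.2 = v).card

theorem sum_dg (E : Finset (V × V)) : ∑ v, dg E v ≤ 2 * E.card := by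
  have : ∀ v, dg E v ≤ (E.filter fun e => e.1 = v).card + (E.filter fun e => e.2 = v).card :=
    fun v => by rw [dg, filter_or]; exact card_union_le _ _
  refine (sum_le_sum fun v _ => this v).trans ?_
  rw [sum_add_distrib, ← card_eq_sum_card_fiberwise (f := Prod.fst) fun _ _ => mem_univ _,
    ← card_eq_sum_card_fiberwise (f := Prod.snd) fun _ _ => mem_univ _, two_mul]

open Classical in
theorem ball (E : Finset (V × V)) {D : ℕ} (hD : ∀ v, dg E v ≤ D) (k : ℕ) (u : V) :
    (univ.filter fun v => Wk (E : Set (V × V)) k u v).card ≤ (D + 1) ^ k := by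
  induction k generalizing u with
  | zero =>
    exact card_le_one.2 fun a ha b hb => (mem_filter.1 ha).2.zero.symm.trans (mem_filter.1 hb).2.zero
  | succ k ih =>
    set Nb := insert u ((E.filter fun e => e.1 = u ∨ e.2 = u).image
      fun e => if e.1 = u then e.2 else e.1) with hN
    have h1 : Nb.card ≤ D + 1 := (card_insert_le _ _).trans
      (Nat.add_le_add_right (card_image_le.trans (hD u)) 1)
    have h2 : (univ.filter fun v => Wk (E : Set (V × V)) (k + 1) u v) ⊆
        Nb.biUnion fun w => univ.filter fun v => Wk (E : Set (V × V)) k w v := by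
      intro v hv
      have := (mem_filter.1 hv).2
      cases this with
      | refl => exact mem_biUnion.2 ⟨u, mem_insert_self _ _, mem_filter.2 ⟨mem_univ _, .refl _ _⟩⟩
      | @step _ _ w _ a b =>
        refine mem_biUnion.2 ⟨w, ?_, mem_filter.2 ⟨mem_univ _, b⟩⟩
        rcases a with a | a
        · exact mem_insert_of_mem (mem_image.2 ⟨_, mem_filter.2 ⟨a, Or.inl rfl⟩, by simp⟩)
        · by_cases e : w = u
          · exact e ▸ mem_insert_self _ _
          · exact mem_insert_of_mem (mem_image.2 ⟨_, mem_filter.2 ⟨a, Or.inr rfl⟩, by simp [e]⟩)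
    refine (card_le_card h2).trans ((card_biUnion_le_card_mul _ _ _ fun w _ => ih w).trans ?_)
    rw [pow_succ']
    exact Nat.mul_le_mul_right _ h1

/-- The colourings with no monochromatic pair in `E`. -/
def sv (K : ℕ) (E : Finset (V × V)) : Finset (V → Fin K) :=
  univ.filter fun c => ∀ e ∈ E, c e.1 ≠ c e.2

theorem step {K L D q : ℕ} (hK : 0 < K) (hV : Fintype.card V = 2 * K * q) (hq : 2 * (D + 1) ^ L ≤ q)
    (E : Finset (V × V)) (hG : Gir (E : Set (V × V)) L) (hD : ∀ v, dg E v ≤ D)
    (hE : 2 * E.card ≤ D * (K * q)) (hD0 : 0 < D) :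
    ∃ E' : Finset (V × V), E'.card ≤ E.card + 1 ∧ Gir (E' : Set (V × V)) L ∧ (∀ v, dg E' v ≤ D) ∧
      8 * K ^ 2 * (sv K E').card ≤ (8 * K ^ 2 - 1) * (sv K E).card := by
  classical
  have q0 : 0 < q := lt_of_lt_of_le (by positivity) hq
  set Lo := univ.filter fun v => dg E v < D with hLo
  have h1 : K * q ≤ Lo.card := by
    have a := card_filter_add_card_filter_not (s := (univ : Finset V)) fun v => dg E v < D
    have b : (univ.filter fun v => ¬ dg E v < D).card * D ≤ ∑ v, dg E v :=
      (card_nsmul_le_sum _ _ _ fun v hv => not_lt.1 (mem_filter.1 hv).2).trans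
        (sum_le_sum_of_subset (filter_subset _ _))
    have c := Nat.le_of_mul_le_mul_right (b.trans ((sum_dg E).trans (hE.trans_eq (mul_comm _ _)))) hD0
    rw [card_univ, hV, mul_assoc, ← hLo] at a
    omega
  set A := (Lo ×ˢ Lo).filter fun p => ¬ Wk (E : Set (V × V)) L p.1 p.2 with hA
  have h2 : ∀ c : V → Fin K, q * q ≤ 2 * (A.filter fun p => c p.1 = c p.2).card := by
    intro c
    obtain ⟨j, -, hj⟩ := exists_le_card_fiber_of_mul_le_card_of_maps_to (s := Lo) (t := univ)
      (f := c) (n := q) (fun _ _ => mem_univ _) ⟨⟨0, hK⟩, mem_univ _⟩ (by simpa using h1)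
    obtain ⟨T, hT, hT'⟩ := exists_subset_card_eq hj
    have a : T ×ˢ T ⊆ (A.filter fun p => c p.1 = c p.2) ∪
        T.biUnion fun u => (univ.filter fun v => Wk (E : Set (V × V)) L u v).image (u, ·) := by
      rintro ⟨u, v⟩ hp
      obtain ⟨hu, hv⟩ := mem_product.1 hp
      have hu' := mem_filter.1 (hT hu)
      have hv' := mem_filter.1 (hT hv)
      by_cases e : Wk (E : Set (V × V)) L u v
      · exact mem_union_right _ (mem_biUnion.2 ⟨u, hu, mem_image.2
          ⟨v, mem_filter.2 ⟨mem_univ _, e⟩, rfl⟩⟩)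
      · exact mem_union_left _ (mem_filter.2 ⟨mem_filter.2 ⟨mem_product.2 ⟨hu'.1, hv'.1⟩, e⟩,
          hu'.2.trans hv'.2.symm⟩)
    have b := (card_le_card a).trans ((card_union_le _ _).trans (Nat.add_le_add_left
      (card_biUnion_le_card_mul _ _ _ fun u _ => card_image_le.trans (ball E hD L u)) _))
    rw [card_product, hT'] at b
    have := Nat.mul_le_mul_left q hq
    rw [← mul_assoc, mul_comm q 2, mul_assoc] at this
    omega
  have h3 : A.Nonempty := by
    have a := (h2 fun _ => ⟨0, hK⟩).trans (Nat.mul_le_mul_left 2 (card_filter_le _ _))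
    have := Nat.mul_pos q0 q0
    exact card_pos.1 (by omega)
  obtain ⟨p, hp, hm⟩ := exists_max_image A
    (fun p : V × V => ((sv K E).filter fun c : V → Fin K => c p.1 = c p.2).card) h3
  have h4 : (sv K E).card ≤ 8 * K ^ 2 * ((sv K E).filter fun c => c p.1 = c p.2).card := by
    have a : ∑ c ∈ sv K E, (A.filter fun p => c p.1 = c p.2).card =
        ∑ p ∈ A, ((sv K E).filter fun c => c p.1 = c p.2).card := by
      simp only [card_filter]
      exact sum_comm
    have b := card_nsmul_le_sum (sv K E) _ _ fun c _ => h2 c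
    rw [← mul_sum, a] at b
    have c := sum_le_card_nsmul A _ _ hm
    have d : A.card ≤ (2 * K * q) * (2 * K * q) := by
      rw [← hV, ← Fintype.card_prod]
      exact card_le_univ _
    simp only [smul_eq_mul] at b c
    refine Nat.le_of_mul_le_mul_right ?_ (Nat.mul_pos q0 q0)
    refine b.trans ((Nat.mul_le_mul_left 2 (c.trans (Nat.mul_le_mul_right _ d))).trans_eq ?_)
    ring
  obtain ⟨hp1, hp2⟩ := mem_filter.1 hp
  obtain ⟨p1, p2⟩ := mem_product.1 hp1
  refine ⟨insert p E, card_insert_le _ _, by rw [coe_insert]; exact hG.ins hp2, fun v => ?_, ?_⟩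
  · rw [dg, filter_insert]
    split_ifs with e
    · refine (card_insert_le _ _).trans ?_
      rcases e with rfl | rfl
      exacts [(mem_filter.1 p1).2, (mem_filter.1 p2).2]
    · exact hD v
  · have a := card_filter_add_card_filter_not (s := sv K E) fun c => c p.1 = c p.2
    have b : sv K (insert p E) = (sv K E).filter fun c => ¬ c p.1 = c p.2 := by
      ext c
      simp [sv, and_comm]
    rw [b, Nat.sub_mul, one_mul, ← a, mul_add]
    omega

end fin

theorem exists_graph (K L : ℕ) : ∃ (n : ℕ) (E : Set (Fin n × Fin n)), 0 < n ∧ Gir E L ∧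
    ∀ c : Fin n → Fin (K + 1), ∃ e ∈ E, c e.1 = c e.2 := by
  classical
  set k := K + 1 with hk
  have k0 : 0 < k := Nat.succ_pos K
  set D := 32 * k ^ 3 with hD
  set q := 2 * (D + 1) ^ L with hq
  set n := 2 * k * q with hn
  have h1 : ∀ t ≤ 8 * k ^ 2 * (k * n), ∃ E : Finset (Fin n × Fin n), E.card ≤ t ∧
      Gir (E : Set (Fin n × Fin n)) L ∧ (∀ v, dg E v ≤ D) ∧
      (8 * k ^ 2) ^ t * (sv k E).card ≤ (8 * k ^ 2 - 1) ^ t * k ^ n := by
    intro t
    induction t with
    | zero =>
      exact fun _ => ⟨∅, le_rfl, by simp [Gir], by simp [dg], by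
        simpa using (card_le_univ (sv k (∅ : Finset (Fin n × Fin n))))⟩
    | succ t ih =>
      intro ht
      obtain ⟨E, e1, e2, e3, e4⟩ := ih (by omega)
      obtain ⟨E', f1, f2, f3, f4⟩ := step (q := q) k0 (by simp [hn]) le_rfl E e2 e3
        ((Nat.mul_le_mul_left 2 (e1.trans ((Nat.le_succ t).trans ht))).trans_eq (by
          rw [hn, hD]; ring)) (by positivity)
      refine ⟨E', by omega, f2, f3, ?_⟩
      generalize 8 * k ^ 2 = a at *
      rw [pow_succ, mul_assoc, pow_succ', mul_assoc]
      refine (Nat.mul_le_mul_left _ f4).trans ?_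
      rw [mul_left_comm]
      exact Nat.mul_le_mul_left _ e4
  obtain ⟨E, -, e2, -, e4⟩ := h1 _ le_rfl
  refine ⟨n, E, by positivity, e2, fun c => ?_⟩
  by_contra hc
  push Not at hc
  have h2 : 1 ≤ (sv k E).card := card_pos.2 ⟨c, mem_filter.2 ⟨mem_univ _, hc⟩⟩
  obtain ⟨m, hm⟩ := Nat.exists_eq_succ_of_ne_zero (show 8 * k ^ 2 ≠ 0 by positivity)
  have h3 : 2 * m ^ (m + 1) ≤ (m + 1) ^ (m + 1) := by
    rcases Nat.eq_zero_or_pos m with rfl | m0
    · omega
    · have a := one_add_mul_le_pow (a := (1 / m : ℝ)) (by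
        have : (0 : ℝ) ≤ 1 / m := by positivity
        linarith) (m + 1)
      have m0' : (0 : ℝ) < m := by exact_mod_cast m0
      have b : (2 : ℝ) ≤ 1 + ((m + 1 : ℕ) : ℝ) * (1 / m) := by
        push_cast
        rw [add_mul, mul_one_div_cancel m0'.ne']
        have : (0 : ℝ) ≤ 1 * (1 / m) := by positivity
        linarith
      have c : (1 + 1 / m : ℝ) = (m + 1) / m := by field_simp
      have d := b.trans a
      rw [c, div_pow, le_div_iff₀ (by positivity)] at d
      exact_mod_cast d
  rw [hm, Nat.succ_sub_one, pow_mul, pow_mul m] at e4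
  have h4 := Nat.pow_le_pow_left h3 (k * n)
  have h5 : k ^ n < (2 ^ k) ^ n := Nat.pow_lt_pow_left Nat.lt_two_pow_self (by positivity)
  rw [mul_pow, pow_mul 2] at h4
  have h6 := h4.trans ((Nat.le_mul_of_pos_right _ h2).trans e4)
  rw [mul_comm] at h6
  have m0 : 0 < m := by
    have : 1 ≤ k ^ 2 := Nat.one_le_pow _ _ k0
    omega
  have := Nat.le_of_mul_le_mul_left h6 (by positivity)
  omega

end Pool.Agent.H84.GirCol
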