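import Mathlib

/-! n-cardinality of closed subsets of finite powers of the line and a jointly Bernstein family. -/

namespace Pool.Agent.H84.NCard

open Set Cardinal Topology Filter Metric

theorem exists_rec {T : Type} [LinearOrder T] [WellFoundedLT T] {α : Type} (a₀ : α)
    (Φ : T → (T → α) → α)
    (hΦ : ∀ δ f f', (∀ i < δ, f i = f' i) → Φ δ f = Φ δ f') :
    ∃ f : T → α, ∀ δ, f δ = Φ δ f := by
  classical
  let f : T → α := (wellFounded_lt (α := T)).fix
    (fun δ prev => Φ δ (fun i => if h : i < δ then prev i h else a₀))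
  refine ⟨f, fun δ => ?_⟩
  have : f δ = Φ δ (fun i => if h : i < δ then f i else a₀) := by
    show (wellFounded_lt (α := T)).fix _ δ = _
    rw [WellFounded.fix_eq]
  rw [this]
  apply hΦ
  intro i hi
  simp [hi]

/-- disjoint finite transversal -/
theorem exists_disjoint {I : Type} (hI : #I ≤ continuum) (G : I → Set (Set ℝ))
    (hfin : ∀ i, ∀ T ∈ G i, T.Finite)
    (hG : ∀ i (S : Set ℝ), #S < continuum → ∃ T ∈ G i, Disjoint T S) :
    ∃ T : I → Set ℝ, (∀ i, T i ∈ G i) ∧ ∀ i j, i ≠ j → Disjoint (T i) (T j) := by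
  classical
  obtain ⟨e⟩ : Nonempty (I ↪ continuum.ord.ToType) := by
    rw [← Cardinal.le_def, mk_ord_toType]; exact hI
  let _ : LinearOrder I := LinearOrder.lift' e e.injective
  have _ : WellFoundedLT I := ⟨InvImage.wf e wellFounded_lt⟩
  have hlt : ∀ i : I, #(Iio i) < continuum := fun i =>
    lt_of_le_of_lt (mk_le_of_injective (f := fun j : Iio i => (⟨e j.1, j.2⟩ : Iio (e i)))
      fun a b hab => Subtype.ext (e.injective (congrArg Subtype.val hab)))
      (mk_Iio_toType_ord_lt (e i))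
  have step' : ∀ (i : I) (S : Set ℝ), ∃ T ∈ G i, #S < continuum → Disjoint T S := by
    intro i S
    by_cases h : #S < continuum
    · obtain ⟨T, h1, h2⟩ := hG i S h; exact ⟨T, h1, fun _ => h2⟩
    · obtain ⟨T, h1, -⟩ := hG i ∅ (by simp [continuum_pos])
      exact ⟨T, h1, fun h' => absurd h' h⟩
  choose st hst1 hst2 using step'
  obtain ⟨f, hf⟩ := exists_rec (T := I) (∅ : Set ℝ) (fun i f => st i (⋃ j ∈ Iio i, f j))
    (fun i f f' h => congrArg (st i) (iUnion₂_congr fun j hj => h j hj))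
  have hfG : ∀ i, f i ∈ G i := fun i => hf i ▸ hst1 _ _
  have key : ∀ i j, j < i → Disjoint (f i) (f j) := by
    intro i j hj
    have hc : #(⋃ j ∈ Iio i, f j : Set ℝ) < continuum := by
      refine lt_of_le_of_lt (mk_biUnion_le f (Iio i)) ?_
      refine mul_lt_of_lt aleph0_le_continuum (hlt i) (lt_of_le_of_lt ?_ aleph0_lt_continuum)
      exact ciSup_le' fun x => le_aleph0_iff_set_countable.2 (hfin x.1 _ (hfG x.1)).countable
    have := hst2 i _ hc
    rw [← hf i] at this
    exact this.mono_right (subset_biUnion_of_mem (u := f) hj)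
  refine ⟨f, hfG, fun i j hij => ?_⟩
  rcases lt_trichotomy i j with h | h | h
  · exact (key j i h).symm
  · exact absurd h hij
  · exact key i j h

variable {ι : Type} [Fintype ι]

theorem kernel (F : Set (ι → ℝ)) :
    ∃ S₀ : Set ℝ, S₀.Countable ∧ ∀ y ∈ F, (∀ p, y p ∉ S₀) →
      ∀ U ∈ 𝓝 y, ∀ S : Set ℝ, S.Countable → ∃ z ∈ F ∩ U, ∀ p, z p ∉ S := by
  classical
  let Bad : Set (ι → ℝ) := {y | ∃ U ∈ 𝓝 y, ∃ S : Set ℝ, S.Countable ∧ ∀ z ∈ F ∩ U, ∃ p, z p ∈ S}
  have h1 : ∀ y : ι → ℝ, ∃ U : Set (ι → ℝ), ∃ S : Set ℝ, S.Countable ∧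
      (y ∈ Bad → U ∈ 𝓝 y ∧ ∀ z ∈ F ∩ U, ∃ p, z p ∈ S) := by
    intro y
    by_cases h : y ∈ Bad
    · obtain ⟨U, hU, S, hS, h'⟩ := h
      exact ⟨U, S, hS, fun _ => ⟨hU, h'⟩⟩
    · exact ⟨∅, ∅, countable_empty, fun h' => absurd h' h⟩
  choose U S hS hUS using h1
  obtain ⟨t, htB, htc, hcov⟩ := TopologicalSpace.countable_cover_nhdsWithin (s := Bad) (f := U)
    (fun y hy => mem_nhdsWithin_of_mem_nhds (hUS y hy).1)
  refine ⟨⋃ y ∈ t, S y, htc.biUnion fun y _ => hS y, fun y hy hyS V hV S' hS' => ?_⟩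
  by_contra hc
  push Not at hc
  have hyB : y ∈ Bad := ⟨V, hV, S', hS', hc⟩
  obtain ⟨w, hw, hyw⟩ := mem_iUnion₂.1 (hcov hyB)
  obtain ⟨p, hp⟩ := (hUS w (htB hw)).2 y ⟨hy, hyw⟩
  exact hyS p (mem_biUnion hw hp)

theorem perfect_family (F : Set (ι → ℝ)) (hF : IsClosed F)
    (h : ∀ S : Set ℝ, S.Countable → ∃ x ∈ F, ∀ p, x p ∉ S) :
    ∃ g : (ℕ → Bool) → (ι → ℝ), (∀ a, g a ∈ F) ∧ ∀ a b, a ≠ b → ∀ p q, g a p ≠ g b q := by
  classical
  obtain ⟨S₀, hS₀, hK⟩ := kernel F
  let St := {s : (ι → ℝ) × ℝ // s.1 ∈ F ∧ (∀ p, s.1 p ∉ S₀) ∧ 0 < s.2}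
  have hstep : ∀ s : St, ∃ c : Bool → St, (∀ i, dist (c i).1.1 s.1.1 + (c i).1.2 ≤ s.1.2 ∧
      (c i).1.2 ≤ s.1.2 / 2) ∧
      ∀ p q, (c false).1.2 + (c true).1.2 < dist ((c false).1.1 p) ((c true).1.1 q) := by
    rintro ⟨⟨x, r⟩, hx, hxS, hr⟩
    simp only at hx hxS hr
    obtain ⟨z, ⟨hzF, hzU⟩, hzS⟩ := hK x hx hxS (ball x (r / 2)) (ball_mem_nhds _ (by positivity))
      (S₀ ∪ range x) (hS₀.union (countable_range x))
    have hpos : ∀ pq : ι × ι, 0 < dist (x pq.1) (z pq.2) := fun pq =>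
      dist_pos.2 fun he => hzS pq.2 (Or.inr ⟨pq.1, he⟩)
    obtain ⟨δ, hδ, hδ'⟩ : ∃ δ > 0, ∀ pq : ι × ι, δ ≤ dist (x pq.1) (z pq.2) := by
      obtain ⟨δ, h1, h2⟩ := (Set.finite_range fun pq : ι × ι => dist (x pq.1) (z pq.2)).isCompact.exists_forall_le'
        (f := id) continuousOn_id (a := 0) (by rintro _ ⟨pq, rfl⟩; exact hpos pq)
      exact ⟨δ, h1, fun pq => h2 _ ⟨pq, rfl⟩⟩
    have hr' : 0 < min (r / 2) (δ / 3) := by positivity
    refine ⟨fun i => if i then ⟨(z, min (r / 2) (δ / 3)), hzF, fun p hp => hzS p (Or.inl hp), hr'⟩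
      else ⟨(x, min (r / 2) (δ / 3)), hx, hxS, hr'⟩, ?_, ?_⟩
    · have h1 := min_le_left (r / 2) (δ / 3)
      have h2 : dist z x < r / 2 := hzU
      intro i
      cases i
      · simp only [Bool.false_eq_true, if_false, dist_self]
        constructor <;> linarith
      · simp only [if_true]
        constructor <;> linarith
    · intro p q
      have h1 := min_le_right (r / 2) (δ / 3)
      have h2 := hδ' (p, q)
      simp only [Bool.false_eq_true, if_false, if_true]
      simp only at h2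
      linarith
  choose c hc1 hc2 using hstep
  obtain ⟨x₀, hx₀, hx₀S⟩ := h S₀ hS₀
  let s₀ : St := ⟨(x₀, 1), hx₀, hx₀S, one_pos⟩
  let sq : (ℕ → Bool) → ℕ → St := fun a n => Nat.rec s₀ (fun n s => c s (a n)) n
  have hsq : ∀ a n, sq a (n + 1) = c (sq a n) (a n) := fun a n => rfl
  have hmono : ∀ a n k, dist (sq a (n + k)).1.1 (sq a n).1.1 + (sq a (n + k)).1.2 ≤ (sq a n).1.2 := by
    intro a n k
    induction k with
    | zero => simp
    | succ k ih =>
      have h1 := (hc1 (sq a (n + k)) (a (n + k))).1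
      rw [← hsq] at h1
      have h2 := dist_triangle (sq a (n + k + 1)).1.1 (sq a (n + k)).1.1 (sq a n).1.1
      rw [← add_assoc]
      linarith
  have hr : ∀ a n, (sq a n).1.2 ≤ (1 / 2) ^ n := by
    intro a n
    induction n with
    | zero => simp [sq, s₀]
    | succ n ih =>
      have h1 := (hc1 (sq a n) (a n)).2
      rw [← hsq] at h1
      rw [pow_succ]
      linarith
  have hcau : ∀ a, CauchySeq fun n => (sq a n).1.1 := by
    intro a
    refine cauchySeq_of_le_geometric (1 / 2) 1 (by norm_num) fun n => ?_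
    have h1 := hmono a n 1
    have h2 := (sq a (n + 1)).2.2.2
    have h3 := hr a n
    rw [dist_comm]
    linarith
  choose g hg using fun a => cauchySeq_tendsto_of_complete (hcau a)
  have hgd : ∀ a n, dist (g a) (sq a n).1.1 ≤ (sq a n).1.2 := by
    intro a n
    have h1 : Tendsto (fun k => dist (sq a (n + k)).1.1 (sq a n).1.1) atTop
        (𝓝 (dist (g a) (sq a n).1.1)) := by
      refine Tendsto.dist ?_ tendsto_const_nhds
      have := (hg a).comp (tendsto_add_atTop_nat n)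
      simpa [Function.comp_def, add_comm] using this
    refine le_of_tendsto' h1 fun k => ?_
    have := hmono a n k
    have h2 := (sq a (n + k)).2.2.2
    linarith
  refine ⟨g, fun a => hF.mem_of_tendsto (hg a) (Eventually.of_forall fun n => (sq a n).2.1), ?_⟩
  have main : ∀ a b n, (∀ k < n, a k = b k) → a n = false → b n = true → ∀ p q, g a p ≠ g b q := by
    intro a b n hab ha hb p q he
    have hs : ∀ k ≤ n, sq a k = sq b k := by
      intro k hk
      induction k with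
      | zero => rfl
      | succ k ih => rw [hsq, hsq, ih (by omega), hab k (by omega)]
    have h1 := hgd a (n + 1)
    have h2 := hgd b (n + 1)
    rw [hsq, ha] at h1
    rw [hsq, hb, ← hs n le_rfl] at h2
    have h3 := hc2 (sq a n) p q
    have h4 := (dist_le_pi_dist (g a) _ p).trans h1
    have h5 := (dist_le_pi_dist (g b) _ q).trans h2
    have h6 := dist_triangle_left ((c (sq a n) false).1.1 p) ((c (sq a n) true).1.1 q) (g a p)
    rw [← he] at h5
    linarith
  intro a b hab p q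
  have hex : ∃ n, a n ≠ b n := Function.ne_iff.1 hab
  have h1 := Nat.find_spec hex
  have h2 : ∀ k < Nat.find hex, a k = b k := fun k hk => not_not.1 (Nat.find_min hex hk)
  cases ha : a (Nat.find hex) <;> cases hb : b (Nat.find hex)
  · exact absurd (ha.trans hb.symm) h1
  · exact main a b _ h2 ha hb p q
  · exact (main b a _ (fun k hk => (h2 k hk).symm) hb ha q p).symm
  · exact absurd (ha.trans hb.symm) h1

theorem avoid_lt_continuum (F : Set (ι → ℝ)) (hF : IsClosed F)
    (h : ∀ S : Set ℝ, S.Countable → ∃ x ∈ F, ∀ p, x p ∉ S) (S : Set ℝ) (hS : #S < continuum) :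
    ∃ x ∈ F, ∀ p, x p ∉ S := by
  obtain ⟨g, hgF, hg⟩ := perfect_family F hF h
  by_contra hc
  push Not at hc
  choose p hp using fun a => hc (g a) (hgF a)
  have : #(ℕ → Bool) ≤ #S := mk_le_of_injective (f := fun a => (⟨g a (p a), hp a⟩ : S))
    fun a b hab => by
      by_contra hne
      exact hg a b hne _ _ (congrArg Subtype.val hab)
  simp at this
  exact this.not_gt hS

theorem mk_closed_le (X : Type) [TopologicalSpace X] [SecondCountableTopology X] :
    #{F : Set X // IsClosed F} ≤ continuum := by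
  have : Countable (TopologicalSpace.countableBasis X) :=
    (TopologicalSpace.countable_countableBasis X).to_subtype
  have h1 : #{F : Set X // IsClosed F} ≤ #(Set (TopologicalSpace.countableBasis X)) := by
    refine mk_le_of_injective (f := fun F => {b | b.1 ⊆ F.1ᶜ}) fun F G h => ?_
    apply Subtype.ext
    apply compl_injective
    have hb := TopologicalSpace.isBasis_countableBasis X
    have key : ∀ F G : {F : Set X // IsClosed F},
        {b : TopologicalSpace.countableBasis X | b.1 ⊆ F.1ᶜ} = {b | b.1 ⊆ G.1ᶜ} → F.1ᶜ ⊆ G.1ᶜ := by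
      intro F G h x hx
      obtain ⟨b, hb1, hb2, hb3⟩ := hb.exists_subset_of_mem_open hx F.2.isOpen_compl
      have : (⟨b, hb1⟩ : TopologicalSpace.countableBasis X) ∈
        {b : TopologicalSpace.countableBasis X | b.1 ⊆ F.1ᶜ} := hb3
      rw [h] at this
      exact this hb2
    exact (key F G h).antisymm (key G F h.symm)
  refine h1.trans ?_
  rw [mk_set, ← two_power_aleph0]
  exact power_le_power_left two_ne_zero mk_le_aleph0

/-- `B` is a pairwise disjoint family such that closed sets missing a product of members of `B`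
are covered by countably many coordinate hyperplanes and the diagonals. -/
def Joint (B : ℕ → Set ℝ) : Prop :=
  (∀ c d, c ≠ d → Disjoint (B c) (B d)) ∧
  ∀ (n : ℕ) (σ : Fin n → ℕ) (G : Set (Fin n → ℝ)), IsClosed G → (∀ x ∈ G, ∃ p, x p ∉ B (σ p)) →
    ∃ S : Set ℝ, S.Countable ∧ ∀ x ∈ G, (∃ p, x p ∈ S) ∨ ∃ p q, p ≠ q ∧ x p = x q

theorem exists_joint : ∃ B, Joint B := by
  classical
  let I := Σ n : ℕ, (Fin n → ℕ) × {F : {F : Set (Fin n → ℝ) // IsClosed F} //
    (∀ x ∈ F.1, Function.Injective x) ∧ ∀ S : Set ℝ, S.Countable → ∃ x ∈ F.1, ∀ p, x p ∉ S}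
  have hI : #I ≤ continuum := by
    rw [mk_sigma]
    refine (sum_le_sum _ (fun _ => continuum) fun n => ?_).trans (by simp)
    rw [mk_prod, lift_id, lift_id]
    refine (mul_le_mul' (mk_le_aleph0 (α := Fin n → ℕ))
      ((mk_subtype_le _).trans (mk_closed_le _))).trans (by simp)
  obtain ⟨T, hT, hTd⟩ := exists_disjoint hI (fun i => {T | ∃ x ∈ i.2.2.1.1, T = range x})
    (by rintro i _ ⟨x, -, rfl⟩; exact finite_range x)
    (by
      intro i S hS
      obtain ⟨x, hx, hxS⟩ := avoid_lt_continuum _ i.2.2.1.2 i.2.2.2.2 S hS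
      exact ⟨_, ⟨x, hx, rfl⟩, disjoint_left.2 (by rintro _ ⟨p, rfl⟩; exact hxS p)⟩)
  choose x hx hxT using hT
  refine ⟨fun c => {t | ∃ i : I, ∃ p, i.2.1 p = c ∧ x i p = t}, ?_, ?_⟩
  · intro c d hcd
    refine disjoint_left.2 ?_
    rintro t ⟨i, p, hp, hpt⟩ ⟨j, q, hq, hqt⟩
    by_cases hij : i = j
    · subst hij
      have := i.2.2.2.1 _ (hx i) (hpt.trans hqt.symm)
      exact hcd (by rw [← hp, ← hq, this])
    · have h1 : t ∈ T i := by rw [hxT]; exact ⟨p, hpt⟩
      have h2 : t ∈ T j := by rw [hxT]; exact ⟨q, hqt⟩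
      exact disjoint_left.1 (hTd i j hij) h1 h2
  · intro n σ G hG hGB
    let Gk : ℕ → Set (Fin n → ℝ) := fun k =>
      G ∩ {y | ∀ p q, p ≠ q → 1 / ((k : ℝ) + 1) ≤ dist (y p) (y q)}
    have hGk : ∀ k, IsClosed (Gk k) := by
      intro k
      refine hG.inter ?_
      simp only [ofPred_forall]
      refine isClosed_iInter fun p => isClosed_iInter fun q => isClosed_iInter fun _ => ?_
      exact isClosed_le continuous_const (by fun_prop)
    have hinj : ∀ k, ∀ y ∈ Gk k, Function.Injective y := by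
      intro k y hy p q hpq
      by_contra hne
      have := hy.2 p q hne
      rw [hpq, dist_self] at this
      exact this.not_gt (by positivity)
    have hcount : ∀ k, ∃ S : Set ℝ, S.Countable ∧ ∀ y ∈ Gk k, ∃ p, y p ∈ S := by
      intro k
      by_contra hc
      push Not at hc
      let i : I := ⟨n, σ, ⟨Gk k, hGk k⟩, hinj k, hc⟩
      obtain ⟨p, hp⟩ := hGB (x i) (hx i).1
      exact hp ⟨i, p, rfl, rfl⟩
    choose S hS hSG using hcount
    refine ⟨⋃ k, S k, countable_iUnion hS, fun y hy => ?_⟩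
    by_cases hyi : Function.Injective y
    · left
      obtain ⟨δ, hδ, hδ'⟩ : ∃ δ > 0, ∀ p q, p ≠ q → δ ≤ dist (y p) (y q) := by
        have hfin : {t | ∃ p q, p ≠ q ∧ t = dist (y p) (y q)}.Finite :=
          (finite_range fun pq : Fin n × Fin n => dist (y pq.1) (y pq.2)).subset
            (by rintro _ ⟨p, q, -, rfl⟩; exact ⟨(p, q), rfl⟩)
        obtain ⟨δ, h1, h2⟩ := hfin.isCompact.exists_forall_le' (f := id) continuousOn_id (a := 0)
          (by rintro _ ⟨p, q, hpq, rfl⟩; exact dist_pos.2 (hyi.ne hpq))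
        exact ⟨δ, h1, fun p q hpq => h2 _ ⟨p, q, hpq, rfl⟩⟩
      obtain ⟨k, hk⟩ := exists_nat_one_div_lt hδ
      obtain ⟨p, hp⟩ := hSG k y ⟨hy, fun p q hpq => hk.le.trans (hδ' p q hpq)⟩
      exact ⟨p, mem_iUnion.2 ⟨k, hp⟩⟩
    · right
      simp only [Function.Injective] at hyi
      push Not at hyi
      obtain ⟨p, q, h1, h2⟩ := hyi
      exact ⟨p, q, h2, h1⟩

theorem Joint.meets {B : ℕ → Set ℝ} (hB : Joint B) (c : ℕ) {G : Set ℝ} (hG : IsClosed G)
    (hu : ¬ G.Countable) : ∃ x ∈ G, x ∈ B c := by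
  by_contra hc
  push Not at hc
  obtain ⟨S, hS, h⟩ := hB.2 1 (fun _ => c) {x | x 0 ∈ G} (hG.preimage (continuous_apply 0))
    (fun x hx => ⟨0, hc _ hx⟩)
  refine hu (hS.mono fun t ht => ?_)
  rcases h (fun _ => t) ht with ⟨p, hp⟩ | ⟨p, q, hpq, -⟩
  · exact hp
  · exact absurd (Subsingleton.elim p q) hpq

theorem Joint.unc {B : ℕ → Set ℝ} (hB : Joint B) (c : ℕ) : ¬ (B c).Countable := by
  intro h
  have h0 : MeasureTheory.volume (B c) < 1 := by rw [h.measure_zero]; exact one_pos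
  obtain ⟨U, hBU, hU, hU1⟩ := Set.exists_isOpen_lt_of_lt _ _ h0
  have hu : ¬ (Uᶜ).Countable := by
    intro hc
    have h1 := MeasureTheory.measure_union_le (μ := MeasureTheory.volume) U Uᶜ
    rw [union_compl_self, hc.measure_zero, add_zero, Real.volume_univ] at h1
    exact absurd (h1.trans_lt hU1) (by simp)
  obtain ⟨x, hx, hxB⟩ := hB.meets c hU.isClosed_compl hu
  exact hx (hBU hxB)

end Pool.Agent.H84.NCard
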