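import Mathlib

/-! Continuum theory basics: cut-wire, boundary bumping and the countable sum theorem. -/

namespace Pool.Agent.H84.SemiA

open Set Topology Filter

variable {X : Type*} [TopologicalSpace X] [CompactSpace X] [T2Space X]

omit [CompactSpace X] [T2Space X] in
theorem comp_closed {N : Set X} (hN : IsClosed N) (x : X) :
    IsClosed (connectedComponentIn N x) := by
  by_cases hx : x ∈ N
  · rw [connectedComponentIn_eq_image hx]
    exact hN.isClosedEmbedding_subtypeVal.isClosedMap _ isClosed_connectedComponent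
  · rw [connectedComponentIn_eq_empty hx]; exact isClosed_empty

theorem sep {N D : Set X} (hN : IsClosed N) (hD : IsClosed D) {x : X} (hx : x ∈ N)
    (h : Disjoint (connectedComponentIn N x) D) :
    ∃ Z Z' : Set X, IsClosed Z ∧ IsClosed Z' ∧ Disjoint Z Z' ∧ Z ∪ Z' = N ∧ x ∈ Z ∧
      Disjoint Z D := by
  have : CompactSpace N := isCompact_iff_compactSpace.mp hN.isCompact
  rw [connectedComponentIn_eq_image hx, connectedComponent_eq_iInter_isClopen] at h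
  have hD' : IsCompact ((↑) ⁻¹' D : Set N) := (hD.preimage continuous_subtype_val).isCompact
  have h2 : ((↑) ⁻¹' D : Set N) ∩
      ⋂ s : { s : Set N // IsClopen s ∧ (⟨x, hx⟩ : N) ∈ s }, (s : Set N) = ∅ := by
    rw [eq_empty_iff_forall_notMem]
    rintro z ⟨h1, h2⟩
    exact disjoint_left.mp h ⟨z, h2, rfl⟩ h1
  obtain ⟨t, ht⟩ := hD'.elim_finite_subfamily_closed _ (fun s => s.2.1.1) h2
  set W : Set N := ⋂ s ∈ t, (s : Set N) with hW
  have hWc : IsClopen W := isClopen_biInter_finset fun s _ => s.2.1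
  have hxW : (⟨x, hx⟩ : N) ∈ W := mem_iInter₂.mpr fun s _ => s.2.2
  refine ⟨(↑) '' W, (↑) '' Wᶜ, hN.isClosedEmbedding_subtypeVal.isClosedMap _ hWc.1,
    hN.isClosedEmbedding_subtypeVal.isClosedMap _ hWc.compl.1, ?_, ?_, ⟨_, hxW, rfl⟩, ?_⟩
  · exact (disjoint_image_iff Subtype.val_injective).mpr disjoint_compl_right
  · rw [← image_union, union_compl_self]; simp
  · rw [disjoint_left]
    rintro _ ⟨z, hz, rfl⟩ hzD
    have : z ∈ ((↑) ⁻¹' D : Set N) ∩ W := ⟨hzD, hz⟩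
    rw [ht] at this; exact this

theorem bump {K N O : Set X} (hK : IsClosed K) (hKc : IsPreconnected K) (hN : IsClosed N)
    (hO : IsOpen O) (hON : O ⊆ N) {x : X} (hxK : x ∈ K) (hxN : x ∈ N) {w : X} (hwK : w ∈ K)
    (hwO : w ∉ O) : ∃ z ∈ connectedComponentIn (K ∩ N) x, z ∉ O := by
  by_contra hc
  push Not at hc
  obtain ⟨Z, Z', hZ, hZ', hd, hu, hxZ, hZD⟩ := sep (D := Oᶜ) (hK.inter hN) hO.isClosed_compl
    ⟨hxK, hxN⟩ (disjoint_left.2 fun z hz hz' => hz' (hc z hz))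
  obtain ⟨v, -, h1, h2⟩ := (isPreconnected_closed_iff.1 hKc) Z (Z' ∪ Oᶜ) hZ
    (hZ'.union hO.isClosed_compl) (by
      intro z hz
      by_cases h1 : z ∈ O
      · have : z ∈ Z ∪ Z' := by rw [hu]; exact ⟨hz, hON h1⟩
        rcases this with h | h
        · exact Or.inl h
        · exact Or.inr (Or.inl h)
      · exact Or.inr (Or.inr h1)) ⟨x, hxK, hxZ⟩ ⟨w, hwK, Or.inr hwO⟩
  rcases h2 with h | h
  · exact disjoint_left.1 hd h1 h
  · exact disjoint_left.1 hZD h1 h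

theorem sierp0 (F : ℕ → Set X) (hF : ∀ n, IsClosed (F n))
    (hd : ∀ i j, i ≠ j → Disjoint (F i) (F j)) {K : Set X} (hK : IsClosed K)
    (hKc : IsPreconnected K) (hu : K ⊆ ⋃ n, F n) {i j : ℕ} (hij : i ≠ j)
    (hi : (K ∩ F i).Nonempty) (hj : (K ∩ F j).Nonempty) : False := by
  let P : Set X → Prop := fun C => IsClosed C ∧ IsPreconnected C ∧ C ⊆ ⋃ n, F n ∧
    ∃ i j, i ≠ j ∧ (C ∩ F i).Nonempty ∧ (C ∩ F j).Nonempty
  have step : ∀ C : {C // P C}, ∀ n, ∃ C' : {C // P C}, C'.1 ⊆ C.1 ∧ Disjoint C'.1 (F n) := by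
    rintro ⟨C, hC, hCc, hCu, i, j, hij, hi, hj⟩ n
    by_cases hn : Disjoint C (F n)
    · exact ⟨⟨C, hC, hCc, hCu, i, j, hij, hi, hj⟩, subset_rfl, hn⟩
    obtain ⟨w, hwC, hwn⟩ := not_disjoint_iff.1 hn
    obtain ⟨k, hkn, x, hxC, hxk⟩ : ∃ k, k ≠ n ∧ (C ∩ F k).Nonempty := by
      by_cases h : i = n
      · exact ⟨j, fun e => hij (h.trans e.symm), hj⟩
      · exact ⟨i, h, hi⟩
    obtain ⟨U, V, hU, hV, h1, h2, hUV⟩ := normal_separation (hF k) (hF n) (hd k n hkn)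
    have hUV' : U ⊆ Vᶜ := fun z hz => disjoint_left.1 hUV hz
    obtain ⟨z, hz, hzU⟩ := bump hC hCc hV.isClosed_compl hU hUV' hxC (hUV' (h1 hxk)) hwC
      (fun h => disjoint_left.1 hUV h (h2 hwn))
    have hsub := connectedComponentIn_subset (C ∩ Vᶜ) x
    obtain ⟨l, hl⟩ := mem_iUnion.1 (hCu (hsub hz).1)
    refine ⟨⟨connectedComponentIn (C ∩ Vᶜ) x, comp_closed (hC.inter hV.isClosed_compl) x,
      isPreconnected_connectedComponentIn, fun v hv => hCu (hsub hv).1, k, l, ?_,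
      ⟨x, mem_connectedComponentIn ⟨hxC, hUV' (h1 hxk)⟩, hxk⟩, ⟨z, hz, hl⟩⟩,
      fun v hv => (hsub hv).1, disjoint_left.2 fun v hv hv' => (hsub hv).2 (h2 hv')⟩
    rintro rfl
    exact hzU (h1 hl)
  choose f hf1 hf2 using step
  let C : ℕ → {C // P C} := fun n => Nat.rec ⟨K, hK, hKc, hu, i, j, hij, hi, hj⟩
    (fun n c => f c n) n
  obtain ⟨x, hx⟩ := IsCompact.nonempty_iInter_of_sequence_nonempty_isCompact_isClosed
    (fun n => (C n).1) (fun n => hf1 (C n) n) (fun n => by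
      obtain ⟨-, -, -, i, -, -, ⟨z, hz, -⟩, -⟩ := (C n).2
      exact ⟨z, hz⟩) hK.isCompact (fun n => (C n).2.1)
  rw [mem_iInter] at hx
  obtain ⟨n, hn⟩ := mem_iUnion.1 (hu (hx 0))
  exact disjoint_left.1 (hf2 (C n) n) (hx (n + 1)) hn

theorem sierp (F : ℕ → Set X) (hF : ∀ n, IsClosed (F n)) {K : Set X} (hK : IsClosed K)
    (hKc : IsPreconnected K) (hd : ∀ i j, ∀ x ∈ K, x ∈ F i → x ∈ F j → i = j)
    (hu : K ⊆ ⋃ n, F n) {i j : ℕ} {x y : X} (hx : x ∈ K) (hy : y ∈ K)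
    (hi : x ∈ F i) (hj : y ∈ F j) : i = j := by
  by_contra hij
  refine sierp0 (fun n => K ∩ F n) (fun n => hK.inter (hF n))
    (fun i j h => disjoint_left.2 fun z h1 h2 => h (hd i j z h1.1 h1.2 h2.2)) hK hKc
    (fun z hz => ?_) hij ⟨x, hx, hx, hi⟩ ⟨y, hy, hy, hj⟩
  obtain ⟨n, hn⟩ := mem_iUnion.1 (hu hz)
  exact mem_iUnion.2 ⟨n, hz, hn⟩

/-- continuumwise connected sets -/
def SC (S : Set X) : Prop :=
  ∀ x ∈ S, ∀ y ∈ S, ∃ K : Set X, K ⊆ S ∧ IsCompact K ∧ IsConnected K ∧ x ∈ K ∧ y ∈ K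

def Fs (A : Set X) : Prop := ∃ C : ℕ → Set X, (∀ n, IsClosed (C n)) ∧ A = ⋃ n, C n

def Hyp (X : Type*) [TopologicalSpace X] : Prop :=
  ∀ W : Set X, Fs W → SC W → ∀ a ∈ closure W, SC (insert a W)

theorem hyp_of (h : ∀ A : Set X, Fs A →
        (¬ ∃ F : ℕ → Set X,
            (∀ n, ∃ D : Set X, IsClosed D ∧ F n = D ∩ A) ∧
            (∀ i j, i ≠ j → Disjoint (F i) (F j)) ∧
            (⋃ n, F n) = A ∧
            (∃ i j, i ≠ j ∧ (F i).Nonempty ∧ (F j).Nonempty)) → SC A) : Hyp X := by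
  rintro W ⟨C, hC, rfl⟩ hW a ha
  refine h _ ⟨fun n => insert a (C n), fun n => ?_, ?_⟩ ?_
  · exact isClosed_singleton.union (hC n)
  · ext x; simp [exists_or]
  rintro ⟨F, hF, hd, hu, i, j, hij, ⟨x, hx⟩, ⟨y, hy⟩⟩
  choose D hD hFD using hF
  obtain ⟨w, hw⟩ := closure_nonempty_iff.1 ⟨a, ha⟩
  obtain ⟨k, hk⟩ := mem_iUnion.1 (hu.symm ▸ (Or.inr hw : w ∈ insert a (⋃ n, C n)) : w ∈ ⋃ n, F n)
  have h1 : (⋃ n, C n) ⊆ D k := by
    intro v hv
    obtain ⟨K, hKW, hK, hKc, hwK, hvK⟩ := hW w hw v hv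
    have hm : ∀ z ∈ K, ∃ l, z ∈ D l := fun z hz => by
      obtain ⟨l, hl⟩ := mem_iUnion.1
        (hu.symm ▸ (Or.inr (hKW hz) : z ∈ insert a (⋃ n, C n)) : z ∈ ⋃ n, F n)
      exact ⟨l, (hFD l ▸ hl).1⟩
    obtain ⟨l, hl⟩ := hm v hvK
    have : k = l := sierp D hD hK.isClosed hKc.isPreconnected (fun i j z hz h1 h2 => by
      by_contra hc
      exact disjoint_left.1 (hd i j hc) (show z ∈ F i by rw [hFD]; exact ⟨h1, Or.inr (hKW hz)⟩)
        (by rw [hFD]; exact ⟨h2, Or.inr (hKW hz)⟩)) (fun z hz => mem_iUnion.2 (hm z hz)) hwK hvK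
      (hFD k ▸ hk).1 hl
    exact this ▸ hl
  have h2 : insert a (⋃ n, C n) ⊆ D k := insert_subset (closure_minimal h1 (hD k) ha) h1
  have h3 : ∀ i, ∀ x ∈ F i, i = k := fun i x hx => by
    by_contra hc
    have hx' := (hFD i ▸ hx).2
    exact disjoint_left.1 (hd i k hc) hx (by rw [hFD]; exact ⟨h2 hx', hx'⟩)
  exact hij ((h3 i x hx).trans (h3 j y hy).symm)

theorem final (h : Hyp X) (H : ℕ → Set X) (hH : ∀ n, IsClosed (H n)) {z : X}
    (hz : ∀ n, z ∉ H n) {O : Set X} (hO : IsOpen O) (hzO : z ∈ O)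
    (hd : ∀ i j, ∀ x ∈ O, x ∈ H i → x ∈ H j → i = j) (hR : SC (⋃ n, H n))
    (hc : z ∈ closure (⋃ n, H n)) : False := by
  obtain ⟨w, hw⟩ := closure_nonempty_iff.1 ⟨z, hc⟩
  obtain ⟨M, hMs, hM, hMc, hzM, hwM⟩ := h _ ⟨H, hH, rfl⟩ hR z hc z (Or.inl rfl) w (Or.inr hw)
  have hwz : w ≠ z := by
    rintro rfl
    obtain ⟨n, hn⟩ := mem_iUnion.1 hw
    exact hz n hn
  obtain ⟨N, hN, hNc, hNO⟩ := exists_mem_nhds_isClosed_subset
    (inter_mem (hO.mem_nhds hzO) (compl_singleton_mem_nhds hwz.symm))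
  obtain ⟨v, hv, hvN⟩ := bump hM.isClosed hMc.isPreconnected hNc isOpen_interior interior_subset
    hzM (mem_of_mem_nhds hN) hwM (fun h => (hNO (interior_subset h)).2 rfl)
  have hsub := connectedComponentIn_subset (M ∩ N) z
  let F : ℕ → Set X := fun n => Nat.casesOn n {z} H
  have hvz : v ≠ z := by
    rintro rfl
    exact hvN (mem_interior_iff_mem_nhds.2 hN)
  obtain ⟨l, hl⟩ := mem_iUnion.1 ((hMs (hsub hv).1).resolve_left hvz)
  have : 0 = l + 1 := sierp F (fun n => by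
      cases n
      · exact isClosed_singleton
      · exact hH _) (comp_closed (hM.isClosed.inter hNc) z) isPreconnected_connectedComponentIn
    (fun i j x hx h1 h2 => by
      cases i <;> cases j
      · rfl
      · exact absurd (mem_singleton_iff.1 h1 ▸ h2) (hz _)
      · exact absurd (mem_singleton_iff.1 h2 ▸ h1) (hz _)
      · exact congrArg _ (hd _ _ x (hNO (hsub hx).2).1 h1 h2))
    (fun x hx => by
      rcases hMs (hsub hx).1 with h | h
      · exact mem_iUnion.2 ⟨0, h⟩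
      · obtain ⟨n, hn⟩ := mem_iUnion.1 h
        exact mem_iUnion.2 ⟨n + 1, hn⟩)
    (mem_connectedComponentIn ⟨hzM, mem_of_mem_nhds hN⟩) hv rfl hl
  omega

theorem final' (h : Hyp X) (T : ℕ → Set X) (hT : ∀ n, IsClosed (T n))
    (hTc : ∀ n, IsConnected (T n)) (hm : Monotone T) {z : X}
    (hz : ∀ n, z ∉ T n) {O : Set X} (hO : IsOpen O) (hzO : z ∈ O)
    (hd : ∀ n, ∃ H, IsClosed H ∧ T (n + 1) ⊆ T n ∪ H ∧ ∀ x ∈ O, x ∈ H → x ∉ T n)
    (hc : z ∈ closure (⋃ n, T n)) : False := by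
  choose H hH h1 h2 using hd
  let G : ℕ → Set X := fun n => Nat.casesOn n (T 0) fun n => H n ∩ T (n + 1)
  have hG : ∀ n, G n ⊆ T n := fun n => by
    cases n
    · exact subset_rfl
    · exact inter_subset_right
  have hu : ⋃ n, G n = ⋃ n, T n := by
    refine subset_antisymm (iUnion_mono hG) (iUnion_subset fun n => ?_)
    induction n with
    | zero => exact subset_iUnion G 0
    | succ n ih =>
      intro x hx
      rcases h1 n hx with h | h
      · exact ih h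
      · exact mem_iUnion.2 ⟨n + 1, h, hx⟩
  have key : ∀ i j, i < j → ∀ x ∈ O, x ∈ G i → x ∉ G j := fun i j hij x hx hi hj => by
    cases j with
    | zero => omega
    | succ j => exact h2 j x hx hj.1 (hm (by omega) (hG i hi))
  refine final h G (fun n => ?_) (fun n hn => hz n (hG n hn)) hO hzO (fun i j x hx hi hj => ?_)
    (hu ▸ ?_) (hu ▸ hc)
  · cases n
    · exact hT 0
    · exact (hH _).inter (hT _)
  · rcases lt_trichotomy i j with h | h | h
    · exact absurd hj (key i j h x hx hi)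
    · exact h
    · exact absurd hi (key j i h x hx hj)
  · intro x hx y hy
    obtain ⟨i, hi⟩ := mem_iUnion.1 hx
    obtain ⟨j, hj⟩ := mem_iUnion.1 hy
    exact ⟨T (max i j), subset_iUnion T _, (hT _).isCompact, hTc _, hm (le_max_left _ _) hi,
      hm (le_max_right _ _) hj⟩

end Pool.Agent.H84.SemiA
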