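import Mathlib

set_option autoImplicit false

namespace Pool.Agent.H84.AmDefs

universe u

/-- `ρ` is a metric on `Y` -/
def IsMetric {Y : Type u} (ρ : Y → Y → NNReal) : Prop :=
  (∀ x y, ρ x y = 0 ↔ x = y) ∧ (∀ x y, ρ x y = ρ y x) ∧ ∀ x y z, ρ x z ≤ ρ x y + ρ y z

/-- amenable functions -/
def Amenable (f : NNReal → NNReal) : Prop := ∀ t, f t = 0 ↔ t = 0

/-- the functions preserving the class `X` -/
def Pres (X : (Y : Type u) → (Y → Y → NNReal) → Prop) : Set (NNReal → NNReal) :=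
  {f | ∀ (Y : Type u) (ρ : Y → Y → NNReal), X Y ρ → X Y fun x y => f (ρ x y)}

end Pool.Agent.H84.AmDefs
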