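import Mathlib
import Pool.Agent.H84.AmDefs

set_option autoImplicit false

namespace Pool.Agent.H84.AmEx

open AmDefs

universe u

def A : Set (NNReal → NNReal) := {f | Function.Bijective f ∧ f 0 = 0}

theorem A_am {f : NNReal → NNReal} (hf : f ∈ A) : Amenable f := fun _ =>
  ⟨fun h => hf.1.1 (h.trans hf.2.symm), fun h => h ▸ hf.2⟩

theorem swap_mem {a b : NNReal} (ha : a ≠ 0) (hb : b ≠ 0) : (Equiv.swap a b : NNReal → NNReal) ∈ A :=
  ⟨(Equiv.swap a b).bijective, Equiv.swap_apply_of_ne_of_ne ha.symm hb.symm⟩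

theorem main (X : (Y : Type u) → (Y → Y → NNReal) → Prop)
    (hX : ∀ Y ρ, X Y ρ → Nonempty Y ∧ IsMetric ρ) : Pres X ≠ A := by
  classical
  intro h
  have key : ∀ Y ρ, X Y ρ → ∀ x y z : Y, x ≠ z → ρ x z = ρ x y ∨ ρ x z = ρ y z := by
    intro Y ρ hρ x y z hxz
    by_contra hc
    push Not at hc
    have h0 : ρ x z ≠ 0 := fun h' => hxz (((hX Y ρ hρ).2.1 x z).1 h')
    have h1 : ρ x y + ρ y z + 1 ≠ 0 := by positivity
    have h2 := swap_mem h0 h1
    rw [← h] at h2
    have h3 := (hX Y _ (h2 Y ρ hρ)).2.2.2 x y z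
    have h4 : ρ x y ≠ ρ x y + ρ y z + 1 := ne_of_lt (by
      rw [add_assoc]; exact lt_add_of_pos_right _ (by positivity))
    have h5 : ρ y z ≠ ρ x y + ρ y z + 1 := ne_of_lt (by
      rw [add_right_comm]; exact lt_add_of_pos_left _ (by positivity))
    simp only [Equiv.swap_apply_left] at h3
    rw [Equiv.swap_apply_of_ne_of_ne hc.1.symm h4, Equiv.swap_apply_of_ne_of_ne hc.2.symm h5] at h3
    exact absurd h3 (not_le.2 (lt_add_one _))
  have k2 : ∀ Y ρ, X Y ρ → ∀ x y z : Y, x ≠ y → x ≠ z → ρ x y = ρ x z := by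
    intro Y ρ hρ x y z hy hz
    have s := (hX Y ρ hρ).2.2.1
    have a1 := key Y ρ hρ x y z hz
    have a2 := key Y ρ hρ x z y hy
    rw [s z y] at a2
    rcases a1 with a1 | a1
    · exact a1.symm
    · rcases a2 with a2 | a2
      · exact a2
      · exact a2.trans a1.symm
  have k3 : ∀ Y ρ, X Y ρ → ∀ x y z w : Y, x ≠ y → z ≠ w → ρ x y = ρ z w := by
    intro Y ρ hρ x y z w hy hw
    have s := (hX Y ρ hρ).2.2.1
    by_cases hxz : x = z
    · subst hxz; exact k2 Y ρ hρ x y w hy hw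
    · rw [k2 Y ρ hρ x y z hy hxz, s x z, k2 Y ρ hρ z x w (Ne.symm hxz) hw]
  have hf : (fun t : NNReal => if t = 0 then (0 : NNReal) else 1) ∈ Pres X := by
    intro Y ρ hρ
    have m := (hX Y ρ hρ).2.1
    by_cases hs : ∃ a b : Y, a ≠ b
    · obtain ⟨a, b, hab⟩ := hs
      have h0 : ρ a b ≠ 0 := fun h' => hab ((m a b).1 h')
      have h2 := swap_mem h0 one_ne_zero
      rw [← h] at h2
      convert h2 Y ρ hρ using 3 with x y
      beta_reduce
      split_ifs with h'
      · rw [h', Equiv.swap_apply_of_ne_of_ne h0.symm one_ne_zero.symm]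
      · rw [k3 Y ρ hρ x y a b (fun e => h' ((m x y).2 e)) hab, Equiv.swap_apply_left]
    · push Not at hs
      convert hρ using 3 with x y
      simp [(m x y).2 (hs x y)]
  rw [h] at hf
  have := @hf.1.1 1 2 (by simp)
  norm_num at this

end Pool.Agent.H84.AmEx
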