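import Pool.Agent.H84.AreDefs

/-! The semigroup algebra of the integers under `max`. -/

namespace Pool.Agent.H84.Are

open Metric Finset Filter Topology Pool.Agent.H84.AreDefs

abbrev A : Type := lp (fun _ : ℕ => ℝ) 1

/-- Partial sums. -/
noncomputable def S (n : ℕ) : A →ₗ[ℝ] ℝ where
  toFun x := ∑ i ∈ range n, x i
  map_add' x y := by simp [sum_add_distrib]
  map_smul' c x := by simp [mul_sum]

theorem S_succ (x : A) (n : ℕ) : S (n + 1) x = S n x + x n := sum_range_succ _ _

theorem S_ext {x y : A} (h : ∀ n, S (n + 1) x = S (n + 1) y) : x = y := lp.ext (funext fun n => by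
  have := h n
  rw [S_succ, S_succ, show S n x = S n y from n.rec rfl fun n _ => h n] at this
  exact add_left_cancel this)

theorem sum_le (x : A) (s : Finset ℕ) : ∑ i ∈ s, |x i| ≤ ‖x‖ := by
  simpa using lp.sum_rpow_le_norm_rpow (p := 1) (by simp) x s

theorem bd (x y : A) (s : Finset ℕ) :
    ∑ n ∈ s, ‖S (n + 1) x * S (n + 1) y - S n x * S n y‖ ^ (1 : ENNReal).toReal ≤ ‖x‖ * ‖y‖ := by
  obtain ⟨N, hN⟩ := s.exists_nat_subset_range
  simp only [ENNReal.toReal_one, Real.rpow_one]
  refine (sum_le_sum_of_subset_of_nonneg hN fun _ _ _ => norm_nonneg _).trans (le_trans ?_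
    (mul_le_mul (sum_le x (range N)) (sum_le y (range N)) (by positivity) (norm_nonneg _)))
  clear hN
  induction N with
  | zero => simp
  | succ N ih =>
    have a : |S N x| ≤ ∑ i ∈ range N, |x i| := abs_sum_le_sum_abs (fun i => x i) (range N)
    have b : |S (N + 1) y| ≤ ∑ i ∈ range (N + 1), |y i| :=
      abs_sum_le_sum_abs (fun i => y i) (range (N + 1))
    have : S (N + 1) x * S (N + 1) y - S N x * S N y = x N * S (N + 1) y + S N x * y N := by
      simp only [S_succ]; ring
    rw [sum_range_succ, this, Real.norm_eq_abs]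
    have c := abs_add_le (x N * S (N + 1) y) (S N x * y N)
    rw [abs_mul, abs_mul] at c
    have d := mul_le_mul_of_nonneg_left b (abs_nonneg (x N))
    have e := mul_le_mul_of_nonneg_right a (abs_nonneg (y N))
    simp only [sum_range_succ] at d ⊢
    nlinarith

/-- The convolution product. -/
noncomputable def m : A →L[ℝ] A →L[ℝ] A :=
  (LinearMap.mk₂ ℝ (fun x y : A => (⟨fun n => S (n + 1) x * S (n + 1) y - S n x * S n y,
    memℓp_gen' (bd x y)⟩ : A))
    (fun _ _ _ => lp.ext (funext fun n => by simp; ring))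
    (fun _ _ _ => lp.ext (funext fun n => by simp; ring))
    (fun _ _ _ => lp.ext (funext fun n => by simp; ring))
    (fun _ _ _ => lp.ext (funext fun n => by simp; ring))).mkContinuous₂ 1 fun x y => by
      rw [one_mul]
      exact lp.norm_le_of_forall_sum_le (by simp) (by positivity) (by simpa using bd x y)

theorem norm_m (x y : A) : ‖m x y‖ ≤ ‖x‖ * ‖y‖ :=
  lp.norm_le_of_forall_sum_le (by simp) (by positivity) fun s => (bd x y s).trans_eq (by simp)

theorem S_m (x y : A) (n : ℕ) : S n (m x y) = S n x * S n y :=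
  (sum_range_sub (fun n => S n x * S n y) n).trans (by simp [S])

/-- The unit vectors. -/
noncomputable def δ (n : ℕ) : A := lp.single 1 n 1

theorem norm_δ (n : ℕ) : ‖δ n‖ = 1 := by simp [δ, lp.norm_single]

theorem S_δ (k n : ℕ) : S n (δ k) = if k < n then 1 else 0 := by
  simp [S, δ, lp.single_apply, Pi.single_apply]

theorem solve {c θ : ℝ} (hθ : 0 < θ) (hc : θ ≤ |c|) {r : A} (hr : ‖r‖ ≤ θ / 2) {z : A}
    (hz : ‖z‖ ≤ θ ^ 2 / 4) : ∃ b, ‖b‖ ≤ 4 * θ ∧ ∀ n, (c + S n r) * S n b = S n z := by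
  have c0 : c ≠ 0 := fun e => by simp [e] at hc; linarith
  have : ‖-c⁻¹ • m r‖ < 1 := by
    have := (m r).opNorm_le_bound (norm_nonneg r) (norm_m r)
    rw [norm_smul, norm_neg, norm_inv, inv_mul_lt_iff₀ (norm_pos_iff.2 c0), Real.norm_eq_abs]
    linarith
  obtain ⟨b, e⟩ : ∃ b, b - -c⁻¹ • m r b = c⁻¹ • z :=
    ⟨_, congrArg (fun T : A →L[ℝ] A => T (c⁻¹ • z)) (Units.oneSub _ this).val_inv⟩
  have e' : c • b = z - m r b := by
    have := congrArg (c • ·) e
    simp only [neg_smul, sub_neg_eq_add, smul_add, smul_inv_smul₀ c0] at this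
    exact eq_sub_of_add_eq this
  refine ⟨b, ?_, fun n => ?_⟩
  · have := (congrArg norm e').trans_le (norm_sub_le _ _)
    rw [norm_smul, Real.norm_eq_abs] at this
    nlinarith [norm_m r b, norm_nonneg b]
  · have := congrArg (S n) e'
    simp only [map_smul, map_sub, S_m, smul_eq_mul] at this
    linarith

theorem loc (c d : ℝ) {θ : ℝ} (hθ : 0 < θ) {r s : A} (hr : ‖r‖ ≤ θ / 2) (hs : ‖s‖ ≤ θ / 2) {z : A}
    (hz : ‖z‖ ≤ θ ^ 2 / 4) : ∃ a b, ‖a‖ ≤ 4 * θ ∧ ‖b‖ ≤ 4 * θ ∧ ∀ n, 0 < n →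
      (c + S n r + S n a) * (d + S n s + S n b) = (c + S n r) * (d + S n s) + S n z := by
  rcases le_or_gt θ |c| with hc | hc
  · obtain ⟨b, h1, h2⟩ := solve hθ hc hr hz
    exact ⟨0, b, by simp [hθ.le], h1, fun n _ => by rw [← h2]; simp; ring⟩
  rcases le_or_gt θ |d| with hd | hd
  · obtain ⟨b, h1, h2⟩ := solve hθ hd hs hz
    exact ⟨b, 0, h1, by simp [hθ.le], fun n _ => by rw [← h2]; simp; ring⟩
  have n1 : ∀ c : ℝ, ‖c • δ 0‖ = |c| := fun c => by simp [norm_smul, norm_δ]
  have hX : ‖c • δ 0 + r‖ ≤ 3 * θ / 2 := (norm_add_le _ _).trans (by rw [n1]; linarith)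
  have hY : ‖d • δ 0 + s‖ ≤ 3 * θ / 2 := (norm_add_le _ _).trans (by rw [n1]; linarith)
  refine ⟨θ • δ 0 - (c • δ 0 + r), θ⁻¹ • (m (c • δ 0 + r) (d • δ 0 + s) + z) - (d • δ 0 + s),
    (norm_sub_le _ _).trans (by rw [n1, abs_of_pos hθ]; linarith), (norm_sub_le _ _).trans ?_,
    fun n hn => ?_⟩
  · have := (norm_add_le _ z).trans (add_le_add ((norm_m _ _).trans
      (mul_le_mul hX hY (norm_nonneg _) (by positivity))) hz)
    rw [norm_smul, norm_inv, Real.norm_of_nonneg hθ.le, ← le_sub_iff_add_le, inv_mul_le_iff₀ hθ]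
    nlinarith
  · simp only [map_sub, map_add (S n), map_smul, S_m, S_δ, hn, if_true, smul_eq_mul]
    field_simp; ring

theorem isOpen : IsOpenMul fun x y : A => m x y := fun x y ε hε => by
  have t : ∀ x : A, ∀ᶠ N in atTop, ‖x - ∑ i ∈ range N, lp.single 1 i (x i)‖ < ε / 13 / 2 := fun x =>
    (tendsto_iff_norm_sub_tendsto_zero.1 (lp.hasSum_single (by simp) x).tendsto_sum_nat).eventually
      (gt_mem_nhds (a := ε / 13 / 2) (by positivity)) |>.mono fun N r => by rwa [norm_sub_rev]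
  obtain ⟨N, hx, hy⟩ := ((t x).and (t y)).exists
  have tl : ∀ x : A, ∀ n, N ≤ n → S N x + S n (x - ∑ i ∈ range N, lp.single 1 i (x i)) = S n x :=
    fun x n h => by
      have : ∀ i ∈ range N, S n (lp.single 1 i (x i)) = x i := fun i r => by
        simp [S, lp.single_apply, Pi.single_apply, (mem_range.1 r).trans_le h]
      rw [map_sub, map_sum, sum_congr rfl this]; simp [S]
  have hθ : 0 < ε / 13 / (N + 1) := by positivity
  have le : ε / 13 / (N + 1) ≤ ε / 13 := div_le_self (by positivity) (by simp)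
  refine ⟨(ε / 13 / (N + 1)) ^ 2 / 4, by positivity, fun w hw => ?_⟩
  have hz := (mem_ball_iff_norm.1 hw).le
  obtain ⟨a, b, h1, h2, h3⟩ := loc (S N x) (S N y) (by positivity) hx.le hy.le
    (hz.trans (by gcongr))
  choose a' b' h4 h5 h6 using fun k => loc (S (k + 1) x) (S (k + 1) y) hθ (r := 0) (s := 0)
    (by simp; positivity) (by simp; positivity) hz
  let G : A → (ℕ → A) → A := fun a a' => m (δ N) a + ∑ k ∈ range N, m (δ k - δ (k + 1)) (a' k)
  have g1 : ∀ a a', ‖a‖ ≤ 4 * (ε / 13) → (∀ k, ‖a' k‖ ≤ 4 * (ε / 13 / (N + 1))) → ‖G a a'‖ < ε :=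
    fun a a' u v => by
      have : ∀ k ∈ range N, ‖m (δ k - δ (k + 1)) (a' k)‖ ≤ 2 * (4 * (ε / 13 / (N + 1))) :=
        fun k _ => (norm_m _ _).trans (mul_le_mul ((norm_sub_le _ _).trans
          (by norm_num [norm_δ])) (v k) (norm_nonneg _) two_pos.le)
      have := (norm_sum_le _ _).trans (sum_le_card_nsmul _ _ _ this)
      have e : ε / 13 / (N + 1) * (N + 1) = ε / 13 := div_mul_cancel₀ _ (by positivity)
      have := (norm_add_le (m (δ N) a) _).trans (add_le_add (norm_m _ _) this)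
      simp only [norm_δ, card_range, nsmul_eq_mul] at this
      nlinarith
  have g2 : ∀ a a' n, S (n + 1) (G a a') = if n < N then S (n + 1) (a' n) else S (n + 1) a :=
    fun a a' n => by
      have : ∀ k ∈ range N, S (n + 1) (m (δ k - δ (k + 1)) (a' k)) =
          if k = n then S (n + 1) (a' n) else 0 := fun k _ => by
        rw [S_m, map_sub, S_δ, S_δ]
        split_ifs <;> first | omega | simp [*]
      simp only [G]
      rw [map_add (S _), map_sum, sum_congr rfl this, S_m, S_δ, sum_ite_eq']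
      simp only [mem_range]
      split_ifs <;> first | omega | simp
  refine ⟨x + G a a', by simpa using g1 a a' h1 h4, y + G b b', by simpa using g1 b b' h2 h5,
    S_ext fun n => ?_⟩
  rw [S_m, map_add (S _) x, map_add (S _) y, g2, g2]
  split_ifs with k
  · simpa [S_m] using h6 n (n + 1) n.succ_pos
  · have := h3 (n + 1) n.succ_pos
    rw [tl x _ (by omega), tl y _ (by omega)] at this
    simpa [S_m] using this

end Pool.Agent.H84.Are
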