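import Pool.Agent.H84.Are

/-! The Arens products on the bidual are not open. -/

namespace Pool.Agent.H84.Are

open Metric Finset Filter Topology Pool.Agent.H84.AreDefs

section

open ContinuousLinearMap

variable {A : Type} [NormedAddCommGroup A] [NormedSpace ℝ A]

/-- The functional `G · f`, sending `a` to `G (f · a)` where `(f · a) b = f (m a b)`, as a
continuous linear function of `f`. -/
noncomputable def dot (m : A →L[ℝ] A →L[ℝ] A) (G : StrongDual ℝ (StrongDual ℝ A)) :
    StrongDual ℝ A →L[ℝ] StrongDual ℝ A :=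
  compL ℝ A (StrongDual ℝ A) ℝ G ∘L
    (compL ℝ A (A →L[ℝ] A) (StrongDual ℝ A)).flip m ∘L compL ℝ A A ℝ

theorem dot_apply (m : A →L[ℝ] A →L[ℝ] A) (G : StrongDual ℝ (StrongDual ℝ A))
    (f : StrongDual ℝ A) (a : A) : dot m G f a = G (f ∘L m a) := rfl

/-- The first Arens product: `(F □ G) f = F (G · f)`. -/
noncomputable def arens₁ (m : A →L[ℝ] A →L[ℝ] A) (F G : StrongDual ℝ (StrongDual ℝ A)) :
    StrongDual ℝ (StrongDual ℝ A) := F ∘L dot m G

/-- The second Arens product: `(F ◇ G) f = G (f · F)`, where `f · F` sends `a` to `F (a · f)` and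
`(a · f) b = f (m b a)`. -/
noncomputable def arens₂ (m : A →L[ℝ] A →L[ℝ] A) (F G : StrongDual ℝ (StrongDual ℝ A)) :
    StrongDual ℝ (StrongDual ℝ A) := G ∘L dot m.flip F

end

theorem fn (h : ℕ → ℝ) (hh : ∀ i, |h i| ≤ 1) :
    ∃ f : StrongDual ℝ A, ‖f‖ ≤ 1 ∧ ∀ n, f (δ n) = h n := by
  have s0 : ∀ x : A, HasSum (fun i => |x i|) ‖x‖ := fun x => by
    simpa using lp.hasSum_norm (p := 1) (by simp) x
  have b : ∀ (x : A) i, ‖h i * x i‖ ≤ |x i| := fun x i => by
    rw [norm_mul]; exact mul_le_of_le_one_left (abs_nonneg _) (hh i)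
  have s : ∀ x : A, Summable fun i => h i * x i := fun x => .of_norm_bounded (s0 x).summable (b x)
  refine ⟨LinearMap.mkContinuous
    { toFun := fun x : A => ∑' i, h i * x i
      map_add' := fun x y => by simp [mul_add, (s x).tsum_add (s y)]
      map_smul' := fun c x => by simp [← tsum_mul_left, mul_left_comm] } 1 fun x => by
        simpa using tsum_of_norm_bounded (s0 x) (b x),
    LinearMap.mkContinuous_norm_le _ zero_le_one _, fun n => ?_⟩
  simp [δ, lp.single_apply, Pi.single_apply]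

theorem ul (g : ℕ → ℕ) : ∃ U : StrongDual ℝ (StrongDual ℝ A),
    ∀ f c, (∀ᶠ n in atTop, f (δ (g n)) = c) → U f = c := by
  have b : ∀ (f : StrongDual ℝ A) n, f (δ (g n)) ∈ closedBall (0 : ℝ) ‖f‖ := fun f n => by
    simpa [norm_δ] using f.le_opNorm (δ (g n))
  have : ∀ f : StrongDual ℝ A, ∃ c ∈ closedBall (0 : ℝ) ‖f‖,
      Tendsto (fun n => f (δ (g n))) (hyperfilter ℕ) (𝓝 c) := fun f =>
    (isCompact_closedBall (0 : ℝ) ‖f‖).ultrafilter_le_nhds ((hyperfilter ℕ).map _)
      (le_principal_iff.2 (mem_map.2 (univ_mem' (b f))))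
  choose u u1 u2 using this
  refine ⟨LinearMap.mkContinuous
    { toFun := u
      map_add' := fun x y => tendsto_nhds_unique (u2 _) ((u2 x).add (u2 y))
      map_smul' := fun c x => tendsto_nhds_unique (u2 _) ((u2 x).const_smul c) } 1 fun f => by
        simpa using u1 f, fun f c r => tendsto_nhds_unique (u2 f) (tendsto_const_nhds.congr' ?_)⟩
  exact (Nat.cofinite_eq_atTop ▸ hyperfilter_le_cofinite) (r.mono fun _ => Eq.symm)

theorem ext {f g : StrongDual ℝ A} (h : ∀ n, f (δ n) = g (δ n)) : f = g :=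
  lp.ext_continuousLinearMap (by simp) fun n => ContinuousLinearMap.ext_ring (h n)

theorem m_δ (i j : ℕ) : m (δ i) (δ j) = δ (max i j) := S_ext fun n => by
  simp only [S_m, S_δ, max_lt_iff]; split_ifs <;> simp_all

theorem comm : m.flip = m := by
  ext1 x; ext1 y
  exact S_ext fun n => by simp [S_m, mul_comm]

theorem chr {f : StrongDual ℝ A} (h : ∀ i j, f (δ (max i j)) = f (δ i) * f (δ j))
    (F G : StrongDual ℝ (StrongDual ℝ A)) : arens₁ m F G f = F f * G f := by
  have : dot m G f = G f • f := ext fun i => by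
    rw [dot_apply, show f ∘L m (δ i) = f (δ i) • f from ext fun j => by simp [m_δ, h]]
    simp [mul_comm]
  simp [arens₁, this, mul_comm]

theorem key : ∃ X Y : StrongDual ℝ (StrongDual ℝ A), ∀ η > 0, ∃ T ∈ ball (arens₁ m X Y) η,
    ∀ F ∈ ball X 1, ∀ G ∈ ball Y 1, arens₁ m F G ≠ T := by
  choose χ c1 c2 using fun k => fn (fun i => if i < k then 1 else 0) fun i => by
    split_ifs <;> simp
  obtain ⟨σ, s1, s2⟩ := fn (fun _ => 1) (by simp)
  obtain ⟨e, -, e2⟩ := fn (fun i => if i % 2 = 0 then 1 else 0) fun i => by split_ifs <;> simp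
  obtain ⟨U, hU⟩ := ul fun n => 2 * n + 1
  obtain ⟨V, hV⟩ := ul fun n => 2 * n
  have z : ∀ F G, (∀ k, G (χ k) = 0) → F σ = 0 → arens₁ m F G = 0 := fun F G a b => by
    ext f
    have : dot m G f = G f • σ := ext fun i => by
      have : f ∘L m (δ i) = f + ∑ j ∈ range i, (f (δ i) - f (δ j)) • (χ (j + 1) - χ j) :=
        ext fun l => by
          have : ∀ j ∈ range i, (f (δ i) - f (δ j)) * (χ (j + 1) (δ l) - χ j (δ l)) =
              if j = l then f (δ i) - f (δ l) else 0 := fun j _ => by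
            rw [c2, c2]; split_ifs <;> first | omega | simp [*]
          simp only [ContinuousLinearMap.comp_apply, m_δ, ContinuousLinearMap.add_apply,
            ContinuousLinearMap.sum_apply, ContinuousLinearMap.smul_apply,
            ContinuousLinearMap.sub_apply, smul_eq_mul, sum_congr rfl this, sum_ite_eq', mem_range]
          split_ifs with k
          · simp [k.le]
          · simp [not_lt.1 k]
      simp [dot_apply, this, a, s2]
    simp [arens₁, this, b]
  have u1 : ∀ k, U (χ k) = 0 := fun k => hU _ _ ((eventually_ge_atTop k).mono fun n r => by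
    rw [c2, if_neg (by omega)])
  have v1 : ∀ k, V (χ k) = 0 := fun k => hV _ _ ((eventually_ge_atTop k).mono fun n r => by
    rw [c2, if_neg (by omega)])
  have u2 : U σ = 1 := hU _ _ (.of_forall fun _ => s2 _)
  have v2 : V σ = 1 := hV _ _ (.of_forall fun _ => s2 _)
  have u3 : U e = 0 := hU _ _ (.of_forall fun n => by rw [e2, if_neg (by omega)])
  have v3 : V e = 1 := hV _ _ (.of_forall fun n => by rw [e2, if_pos (by omega)])
  have nz : ∀ F X : StrongDual ℝ (StrongDual ℝ A), F ∈ ball X 1 → ∀ f, ‖f‖ ≤ 1 → X f = 1 →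
      F f ≠ 0 := fun F X a f b c d => by
    have := ((F - X).le_opNorm f).trans_lt ((mul_le_of_le_one_right (norm_nonneg _) b).trans_lt
      (mem_ball_iff_norm.1 a))
    simp [c, d] at this
  refine ⟨NormedSpace.inclusionInDoubleDual ℝ A (δ 0) - U, U, fun η hη =>
    ⟨(η / (‖V - U‖ + 1)) • (V - U), ?_, fun F a G b r => ?_⟩⟩
  · have : ‖(η / (‖V - U‖ + 1)) • (V - U)‖ < η := by
      refine (ContinuousLinearMap.opNorm_smul_le _ _).trans_lt ?_
      rw [Real.norm_of_nonneg (by positivity), div_mul_eq_mul_div, div_lt_iff₀ (by positivity)]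
      linarith
    rw [z _ _ u1 (by simp [u2, s2])]
    exact (mem_ball_zero_iff (E := StrongDual ℝ (StrongDual ℝ A))).2 this
  have g : ∀ k, G (χ k) = 0 := fun k => by
    rcases k.eq_zero_or_pos with rfl | p
    · rw [show χ 0 = 0 from ext fun n => by simp [c2], map_zero]
    have := chr (f := χ k) (fun i j => by
      simp only [c2, max_lt_iff]; split_ifs <;> simp_all) F G
    rw [r] at this
    simpa [u1, v1, nz F _ a _ (c1 k) (by simp [u1, c2, p])] using this
  have := chr (f := σ) (by simp [s2]) F G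
  rw [r] at this
  have := congrArg (· e) (r.symm.trans (z F G g (by
    simpa [u2, v2, nz G _ b _ s1 u2] using this)))
  have p : 0 < η / (‖V - U‖ + 1) := by positivity
  simp [u3, v3, p.ne'] at this

theorem not₁ : ¬ IsOpenMul (arens₁ m) := fun h => by
  obtain ⟨X, Y, k⟩ := key
  obtain ⟨η, a, b⟩ := h X Y 1 one_pos
  obtain ⟨T, c, d⟩ := k η a
  obtain ⟨F, e, G, f, g⟩ := b c
  exact d F e G f g

theorem not₂ : ¬ IsOpenMul (arens₂ m) := fun h => by
  have q : ∀ F G, arens₂ m F G = arens₁ m G F := fun F G => by rw [arens₂, comm]; rfl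
  obtain ⟨X, Y, k⟩ := key
  obtain ⟨η, a, b⟩ := h Y X 1 one_pos
  obtain ⟨T, c, d⟩ := k η a
  obtain ⟨F, e, G, f, g⟩ := b (q _ _ ▸ c)
  exact d G f F e (q _ _ ▸ g)

end Pool.Agent.H84.Are
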