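import Mathlib

/-! Open multiplication and the Arens products. -/

namespace Pool.Agent.H84.AreDefs

open Metric

/-- The multiplication `m` is open. -/
def IsOpenMul {E : Type} [PseudoMetricSpace E] (m : E → E → E) : Prop :=
  ∀ x y : E, ∀ ε > 0, ∃ δ > 0, ball (m x y) δ ⊆ Set.image2 m (ball x ε) (ball y ε)

variable {A : Type} [NormedAddCommGroup A] [NormedSpace ℝ A]

/-- `m` makes the normed space `A` a normed algebra. -/
structure IsAlgMul (m : A → A → A) : Prop where
  add_left : ∀ a b c, m (a + b) c = m a c + m b c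
  add_right : ∀ a b c, m a (b + c) = m a b + m a c
  smul_left : ∀ (t : ℝ) a b, m (t • a) b = t • m a b
  smul_right : ∀ (t : ℝ) a b, m a (t • b) = t • m a b
  assoc : ∀ a b c, m (m a b) c = m a (m b c)
  norm_le : ∀ a b, ‖m a b‖ ≤ ‖a‖ * ‖b‖

/-- The dual space. -/
def D (A : Type) [NormedAddCommGroup A] [NormedSpace ℝ A] : Type := A →L[ℝ] ℝ

noncomputable instance : NormedAddCommGroup (D A) :=
  inferInstanceAs (NormedAddCommGroup (A →L[ℝ] ℝ))

noncomputable instance : NormedSpace ℝ (D A) := inferInstanceAs (NormedSpace ℝ (A →L[ℝ] ℝ))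

/-- The value of a functional. -/
def ev (f : D A) (a : A) : ℝ := (show A →L[ℝ] ℝ from f) a

/-- `P` is the first Arens product: `(P F G) f = F g` where `g = G · f` sends `a` to `G h`,
and `h = f · a` sends `b` to `f (m a b)`. -/
def IsArens₁ (m : A → A → A) (P : D (D A) → D (D A) → D (D A)) : Prop :=
  ∀ F G f, ∃ g, (∀ a, ∃ h, (∀ b, ev h b = ev f (m a b)) ∧ ev g a = ev G h) ∧ ev (P F G) f = ev F g

/-- `P` is the second Arens product: `(P F G) f = G g` where `g = f · F` sends `a` to `F h`,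
and `h = a · f` sends `b` to `f (m b a)`. -/
def IsArens₂ (m : A → A → A) (P : D (D A) → D (D A) → D (D A)) : Prop :=
  ∀ F G f, ∃ g, (∀ a, ∃ h, (∀ b, ev h b = ev f (m b a)) ∧ ev g a = ev F h) ∧ ev (P F G) f = ev G g

end Pool.Agent.H84.AreDefs
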