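import Mathlib

/-! Almost squareness of the space of Lipschitz functions vanishing at a base point. -/

namespace Pool.Agent.H84.AsqDefs

variable {M : Type*} [MetricSpace M]

/-- Membership in `Lip(M)`: Lipschitz and zero at the base point. -/
def InLip (x₀ : M) (f : M → ℝ) : Prop := (∃ K, LipschitzWith K f) ∧ f x₀ = 0

/-- The best Lipschitz constant. -/
noncomputable def lipNorm (f : M → ℝ) : ℝ :=
  ⨆ p : {p : M × M // p.1 ≠ p.2}, |f p.1.1 - f p.1.2| / dist p.1.1 p.1.2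

/-- `Lip(M)` is almost square. -/
def LipASQ (x₀ : M) : Prop :=
  ∀ (k : ℕ) (f : Fin k → M → ℝ), (∀ i, InLip x₀ (f i) ∧ lipNorm (f i) = 1) → ∀ ε > (0 : ℝ),
    ∃ g : M → ℝ, InLip x₀ g ∧ lipNorm g = 1 ∧
      ∀ i, lipNorm (f i + g) ≤ 1 + ε ∧ lipNorm (f i - g) ≤ 1 + ε

end Pool.Agent.H84.AsqDefs
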