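import Pool.Agent.H84.GirCol
import Pool.Agent.H84.AsqDefs

/-! An unbounded uniformly discrete space whose Lipschitz space is almost square. -/

namespace Pool.Agent.H84.Asq

open Set Pool.Agent.H84.GirCol Pool.Agent.H84.AsqDefs

section dist

variable {V : Type*} (l : V → ℕ) (E : Set (V × V))

/-- The truncated path distance. -/
noncomputable def DD (p q : V) : ℕ := sInf {k | max (l p) (l q) ≤ k ∨ Wk E k p q}

theorem DD_spec (p q : V) : max (l p) (l q) ≤ DD l E p q ∨ Wk E (DD l E p q) p q :=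
  Nat.sInf_mem (s := {k | max (l p) (l q) ≤ k ∨ Wk E k p q}) ⟨_, Or.inl le_rfl⟩

theorem DD_le_max (p q : V) : DD l E p q ≤ max (l p) (l q) := Nat.sInf_le (Or.inl le_rfl)

variable {E} in
theorem DD_le {k : ℕ} {p q : V} (h : Wk E k p q) : DD l E p q ≤ k := Nat.sInf_le (Or.inr h)

theorem DD_self (p : V) : DD l E p p = 0 := Nat.le_zero.1 (DD_le l (.refl 0 p))

theorem DD_comm (p q : V) : DD l E p q = DD l E q p := by
  unfold DD
  congr 1
  ext k
  simp only [mem_ofPred_eq, max_comm (l p)]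
  exact or_congr_right ⟨Wk.symm, Wk.symm⟩

variable {l E}

theorem lev (h : ∀ e ∈ E, l e.1 = l e.2) {k : ℕ} {p q : V} (w : Wk E k p q) : l p = l q := by
  induction w with
  | refl => rfl
  | step a _ ih => exact (a.elim (h _) fun a => (h _ a).symm).trans ih

theorem DD_tri (h : ∀ e ∈ E, l e.1 = l e.2) (p q r : V) :
    DD l E p r ≤ DD l E p q + DD l E q r := by
  have := DD_le_max l E p r
  rcases DD_spec l E p q with a | a <;> rcases DD_spec l E q r with b | b
  · omega
  · have := lev h b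
    omega
  · have := lev h a
    omega
  · exact DD_le l (a.trans b)

theorem DD_pos (h : ∀ p, 0 < l p) {p q : V} (hne : p ≠ q) : 1 ≤ DD l E p q := by
  by_contra hc
  have e : DD l E p q = 0 := by omega
  rcases DD_spec l E p q with a | a
  · have := h p
    omega
  · rw [e] at a
    exact hne a.zero

end dist

theorem lip_le {M : Type*} [MetricSpace M] {f : M → ℝ} {c : ℝ} (hc : 0 ≤ c)
    (h : ∀ x y, x ≠ y → |f x - f y| ≤ c * dist x y) : lipNorm f ≤ c :=
  Real.iSup_le (fun p => (div_le_iff₀ (dist_pos.2 p.2)).2 (h _ _ p.2)) hc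

theorem le_lip {M : Type*} [MetricSpace M] {f : M → ℝ} (h : ∃ K, LipschitzWith K f) (x y : M) :
    |f x - f y| ≤ lipNorm f * dist x y := by
  obtain ⟨K, hK⟩ := h
  by_cases e : x = y
  · simp [e]
  · rw [← div_le_iff₀ (dist_pos.2 e)]
    refine le_ciSup (f := fun p : {p : M × M // p.1 ≠ p.2} => |f p.1.1 - f p.1.2| / dist p.1.1 p.1.2)
      ⟨K, ?_⟩ ⟨(x, y), e⟩
    rintro _ ⟨p, rfl⟩
    exact (div_le_iff₀ (dist_pos.2 p.2)).2 (hK.dist_le_mul _ _)

/-- The number of vertices of a block. -/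
noncomputable def NN (b : ℕ × ℕ) : ℕ := (exists_graph b.1 (b.2 + 1)).choose

/-- The edges of a block. -/
noncomputable def EB (b : ℕ × ℕ) : Set (Fin (NN b) × Fin (NN b)) :=
  (exists_graph b.1 (b.2 + 1)).choose_spec.choose

theorem EB_spec (b : ℕ × ℕ) : 0 < NN b ∧ Gir (EB b) (b.2 + 1) ∧
    ∀ c : Fin (NN b) → Fin (b.1 + 1), ∃ e ∈ EB b, c e.1 = c e.2 :=
  (exists_graph b.1 (b.2 + 1)).choose_spec.choose_spec

/-- The space. -/
def MM : Type := Σ b : ℕ × ℕ, Fin (NN b)

/-- The level of a point. -/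
def lv (p : MM) : ℕ := p.1.2 + 1

/-- All edges. -/
def EE : Set (MM × MM) := {e | ∃ b, ∃ d ∈ EB b, e = (⟨b, d.1⟩, ⟨b, d.2⟩)}

theorem EE_lv : ∀ e ∈ EE, lv e.1 = lv e.2 := by
  rintro _ ⟨b, d, -, rfl⟩
  rfl

theorem lv_pos (p : MM) : 0 < lv p := Nat.succ_pos _

noncomputable instance : MetricSpace MM where
  dist p q := DD lv EE p q
  dist_self p := by simp [DD_self]
  dist_comm p q := by simp [DD_comm lv EE p q]
  dist_triangle p q r := by exact_mod_cast DD_tri EE_lv p q r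
  eq_of_dist_eq_zero {p q} h := by
    by_contra hne
    have := DD_pos (E := EE) lv_pos hne
    have h' : DD lv EE p q = 0 := by exact_mod_cast h
    omega

theorem dist_eq (p q : MM) : dist p q = DD lv EE p q := rfl

theorem walk_block {b : ℕ × ℕ} (d : Fin (NN b) × Fin (NN b)) {k : ℕ} {p q : MM}
    (h : Wk (EE \ {(⟨b, d.1⟩, ⟨b, d.2⟩)}) k p q) :
    ∀ u, p = ⟨b, u⟩ → ∃ v, q = ⟨b, v⟩ ∧ Wk (EB b \ {d}) k u v := by
  induction h with
  | refl => exact fun u hu => ⟨u, hu, .refl _ _⟩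
  | step a _ ih =>
    rintro u rfl
    rcases a with ⟨⟨b', d', h1, h2⟩, h3⟩ | ⟨⟨b', d', h1, h2⟩, h3⟩
    · cases h2
      obtain ⟨v, v1, v2⟩ := ih _ rfl
      exact ⟨v, v1, .step (Or.inl ⟨h1, fun e => h3 (by cases e; rfl)⟩) v2⟩
    · cases h2
      obtain ⟨v, v1, v2⟩ := ih _ rfl
      exact ⟨v, v1, .step (Or.inr ⟨h1, fun e => h3 (by cases e; rfl)⟩) v2⟩

/-- A point of a block. -/
noncomputable def pt (b : ℕ × ℕ) : MM := ⟨b, ⟨0, (EB_spec b).1⟩⟩

theorem unbounded : ¬ Bornology.IsBounded (univ : Set MM) := by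
  intro h
  obtain ⟨C, hC⟩ := Metric.isBounded_iff.1 h
  obtain ⟨n, hn⟩ := exists_nat_gt C
  have a := hC (mem_univ (pt (0, 0))) (mem_univ (pt (0, n + 1)))
  rw [dist_eq] at a
  rcases DD_spec lv EE (pt (0, 0)) (pt (0, n + 1)) with b | b
  · have c : n + 1 + 1 ≤ DD lv EE (pt (0, 0)) (pt (0, n + 1)) := (le_max_right _ _).trans b
    have c' : (n : ℝ) ≤ DD lv EE (pt (0, 0)) (pt (0, n + 1)) := by exact_mod_cast (by omega)
    linarith
  · have : 0 + 1 = n + 1 + 1 := lev EE_lv b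
    omega

theorem discrete (p q : MM) (h : p ≠ q) : 1 ≤ dist p q := by
  rw [dist_eq]
  exact_mod_cast DD_pos lv_pos h

theorem good_edge {k : ℕ} (f : Fin k → MM → ℝ) (hf : ∀ i p q, |f i p - f i q| ≤ dist p q)
    {ε : ℝ} (hε : 0 < ε) (L : ℕ) : ∃ x y, (x, y) ∈ EE ∧ lv x = L + 1 ∧
      ¬ Wk (EE \ {(x, y)}) (L + 1) x y ∧ ∀ i, |f i x - f i y| ≤ ε := by
  obtain ⟨T, -, t1, t2⟩ := finite_cover_balls_of_compact
    (isCompact_closedBall (0 : Fin k → ℝ) (L + 1)) (half_pos hε)
  obtain ⟨K, ⟨φ⟩⟩ := @Finite.exists_equiv_fin T t1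
  have h1 : ∀ u : Fin (NN (K, L)), ∃ t : T, ∀ i,
      dist (f i ⟨(K, L), u⟩ - f i (pt (K, L))) (t.1 i) < ε / 2 := by
    intro u
    have : (fun i => f i ⟨(K, L), u⟩ - f i (pt (K, L))) ∈
        Metric.closedBall (0 : Fin k → ℝ) (L + 1) := by
      rw [mem_closedBall_zero_iff, pi_norm_le_iff_of_nonneg (by positivity)]
      intro i
      refine (hf i _ _).trans ?_
      rw [dist_eq]
      exact_mod_cast (DD_le_max lv EE _ _).trans (max_self (L + 1)).le
    obtain ⟨t, a, b⟩ := mem_iUnion₂.1 (t2 this)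
    exact ⟨⟨t, a⟩, fun i => (dist_le_pi_dist _ t i).trans_lt b⟩
  choose c hc using h1
  obtain ⟨d, d1, d2⟩ := (EB_spec (K, L)).2.2 fun u => (φ (c u)).castSucc
  have e : c d.1 = c d.2 := φ.injective (Fin.castSucc_injective _ d2)
  refine ⟨_, _, ⟨(K, L), d, d1, rfl⟩, rfl, fun h => ?_, fun i => ?_⟩
  · obtain ⟨v, v1, v2⟩ := walk_block d h _ rfl
    cases v1
    exact (EB_spec (K, L)).2.1 d d1 v2
  · have a := hc d.1 i
    have b := hc d.2 i
    rw [e] at a
    rw [Real.dist_eq, abs_lt] at a b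
    rw [abs_le]
    constructor <;> linarith [a.1, a.2, b.1, b.2]

theorem asq (x₀ : MM) : LipASQ x₀ := by
  intro k f hf ε hε
  have h1 : ∀ i p q, |f i p - f i q| ≤ dist p q := fun i p q => by
    simpa [(hf i).2] using le_lip (hf i).1.1 p q
  obtain ⟨L, hL⟩ := exists_nat_gt (1 / ε)
  obtain ⟨x, y, e1, e2, e3, e4⟩ := good_edge f h1 hε L
  set E' := EE \ {(x, y)} with hE'
  have l' : ∀ e ∈ E', lv e.1 = lv e.2 := fun e he => EE_lv e he.1
  set φ : MM → MM → ℝ := fun a z => max 0 (1 / 2 - ε / 2 * DD lv E' z a) with hφ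
  have φ0 : ∀ a z, 0 ≤ φ a z := fun a z => le_max_left _ _
  have φ1 : ∀ a z, φ a z ≤ 1 / 2 := fun a z =>
    max_le (by norm_num) (sub_le_self _ (by positivity))
  have φ2 : ∀ a z w, |φ a z - φ a w| ≤ ε / 2 * DD lv E' z w := by
    intro a z w
    refine (abs_max_sub_max_le_max _ _ _ _).trans (max_le (by simp; positivity) ?_)
    have t1 : (DD lv E' z a : ℝ) ≤ DD lv E' z w + DD lv E' w a := by
      exact_mod_cast DD_tri l' z w a
    have t2 : (DD lv E' w a : ℝ) ≤ DD lv E' z w + DD lv E' z a := by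
      rw [DD_comm lv E' z w]
      exact_mod_cast DD_tri l' w z a
    have u1 := mul_le_mul_of_nonneg_left t1 (half_pos hε).le
    have u2 := mul_le_mul_of_nonneg_left t2 (half_pos hε).le
    rw [abs_le]
    constructor <;> linarith
  set g : MM → ℝ := fun z => φ x z - φ y z - (φ x x₀ - φ y x₀) with hg
  have g1 : ∀ z w, |g z - g w| ≤ 1 := fun z w => by
    rw [abs_le]
    constructor <;> simp only [hg] <;> linarith [φ0 x z, φ0 y z, φ0 x w, φ0 y w, φ1 x z, φ1 y z,
      φ1 x w, φ1 y w]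
  have g2 : ∀ z w, |g z - g w| ≤ ε * DD lv E' z w := fun z w => by
    have a := abs_le.1 (φ2 x z w)
    have b := abs_le.1 (φ2 y z w)
    rw [abs_le]
    constructor <;> simp only [hg] <;> linarith [a.1, a.2, b.1, b.2]
  have g3 : ∀ z w, z ≠ w → |g z - g w| ≤ 1 * dist z w := fun z w h => by
    linarith [g1 z w, discrete z w h]
  have gl : ∃ K, LipschitzWith K g := ⟨1, LipschitzWith.of_dist_le_mul fun z w => by
    by_cases h : z = w
    · simp [h]
    · exact g3 z w h⟩
  have far : L + 1 ≤ DD lv E' x y := by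
    rcases DD_spec lv E' x y with a | a
    · exact (e2.ge.trans (le_max_left _ _)).trans a
    · by_contra hc
      exact e3 (a.mono (by omega))
  have g4 : g x - g y = 1 := by
    have a : (L + 1 : ℝ) ≤ DD lv E' x y := by exact_mod_cast far
    rw [div_lt_iff₀ hε] at hL
    have b : 1 / 2 - ε / 2 * DD lv E' x y ≤ 0 := by nlinarith
    simp only [hg, hφ, DD_self, DD_comm lv E' y x, max_eq_left b]
    norm_num
  have key : ∀ i z w, z ≠ w → |f i z - f i w| + |g z - g w| ≤ (1 + ε) * dist z w := by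
    intro i z w h
    have d1 := discrete z w h
    have c1 : DD lv E' z w ≤ DD lv EE z w →
        |f i z - f i w| + |g z - g w| ≤ (1 + ε) * dist z w := fun c => by
      have c' : (DD lv E' z w : ℝ) ≤ dist z w := by rw [dist_eq]; exact_mod_cast c
      linarith [h1 i z w, g2 z w, mul_le_mul_of_nonneg_left c' hε.le]
    have c2 : ∀ a b, |f i a - f i b| ≤ ε → ∀ m n, m + n + 1 ≤ DD lv EE z w → Wk E' m z a →
        Wk E' n b w → |f i z - f i w| + |g z - g w| ≤ (1 + ε) * dist z w := by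
      intro a b ab m n c wa wb
      have s1 : DD lv EE z a + DD lv EE b w + 1 ≤ DD lv EE z w := by
        have := DD_le lv (wa.sub (F := EE) fun _ h => h.1)
        have := DD_le lv (wb.sub (F := EE) fun _ h => h.1)
        omega
      have s2 : dist z a + dist b w + 1 ≤ dist z w := by
        simp only [dist_eq]
        exact_mod_cast s1
      have s3 := abs_sub_le (f i z) (f i a) (f i w)
      have s4 := abs_sub_le (f i a) (f i b) (f i w)
      linarith [h1 i z a, h1 i b w, g1 z w, mul_le_mul_of_nonneg_left d1 hε.le]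
    rcases DD_spec lv EE z w with a | a
    · exact c1 ((DD_le_max _ _ _ _).trans a)
    · rcases (a.sub (F := insert (x, y) E') fun p hp => by
        by_cases e : p = (x, y)
        exacts [Or.inl e, Or.inr ⟨hp, e⟩]).ins with b | ⟨m, n, b, c | c⟩
      · exact c1 (DD_le lv b)
      · exact c2 x y (e4 i) m n b c.1 c.2
      · exact c2 y x (by rw [abs_sub_comm]; exact e4 i) m n b c.1 c.2
  refine ⟨g, ⟨gl, sub_self _⟩, le_antisymm (lip_le one_pos.le g3) ?_, fun i =>
    ⟨lip_le (by linarith) fun z w h => le_trans ?_ (key i z w h),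
      lip_le (by linarith) fun z w h => le_trans ?_ (key i z w h)⟩⟩
  · have a := le_lip gl x y
    have b : dist x y ≤ 1 := by
      rw [dist_eq]
      exact_mod_cast DD_le lv (.step (Or.inl e1) (.refl 0 y))
    rw [g4, abs_one] at a
    by_contra hc
    have d := discrete x y fun e => e3 (e ▸ .refl _ _)
    rw [le_antisymm b d, mul_one] at a
    exact hc a
  · rw [Pi.add_apply, Pi.add_apply, add_sub_add_comm]
    exact abs_add_le _ _
  · rw [Pi.sub_apply, Pi.sub_apply, sub_sub_sub_comm]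
    exact abs_sub _ _

end Pool.Agent.H84.Asq
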