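import Mathlib

/-! Barely independent families and the splitting number. -/

namespace Pool.Agent.H84.Bare

open Set Cardinal

/-- The Boolean combination `⋂ 𝓐^h`: the points lying in `A` when `h A` holds and outside `A`
when `h A` fails, for every `A ∈ 𝓐`. -/
def comb {X : Type} (𝓐 : Set (Set X)) (h : Set X → Prop) : Set X :=
  {x | ∀ A ∈ 𝓐, (x ∈ A ↔ h A)}

/-- `𝓘` is barely independent over (the cardinality of) `X`. -/
def BarelyIndep {X : Type} (𝓘 : Set (Set X)) : Prop :=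
  (∀ A ∈ 𝓘, #A = #X) ∧ 𝓘.Infinite ∧
  (∀ 𝓐 ⊆ 𝓘, 𝓐.Finite → ∀ h, #(comb 𝓐 h) = #X) ∧
  (∀ 𝓐 ⊆ 𝓘, 𝓐.Countable → 𝓐.Infinite → ∀ h, #(comb 𝓐 h) < #X)

/-- The splitting number. -/
noncomputable def splitNum : Cardinal.{0} :=
  sInf {c | ∃ F : Set (Set ℕ), #F = c ∧
    ∀ R : Set ℕ, R.Infinite → ∃ S ∈ F, (R ∩ S).Infinite ∧ (R \ S).Infinite}

end Pool.Agent.H84.Bare
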