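import Pool.Agent.H84.BeqDefs

/-! A random point meets a given point on almost all intervals. -/

namespace Pool.Agent.H84.Beq

open Set Filter MeasureTheory Pool.Agent.H84.BeqDefs
open Cardinal hiding univ

instance : IsProbabilityMeasure μ := by unfold μ; infer_instance

theorem cyl (m : ℕ) (y : ℕ → Bool) :
    μ (Set.pi (Finset.range m) fun j => {y j}) = ENNReal.ofReal (2⁻¹ ^ m) := by
  rw [μ, Measure.infinitePi_pi _ fun _ _ => measurableSet_singleton _]
  simp only [ProbabilityTheory.uniformOn_univ]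
  simp [ENNReal.ofReal_inv_of_pos, ENNReal.inv_pow]

theorem key {b : ℕ → ℕ} (h1 : ∀ k, 1 ≤ b k) (h2 : ¬ Summable fun k => 1 / (b k : ℝ)) :
    ∃ φ : (ℕ → Bool) → (ℕ → ℕ) × (ℕ → ℕ), (∀ x, φ x ∈ Pairs b) ∧
      ∀ f ∈ Pr b, μ {x | ¬ Sq f (φ x)} = 0 := by
  classical
  let p : ℕ → ℝ := fun k => 2⁻¹ ^ (b k).size
  have p0 : ∀ k, 0 ≤ p k := fun k => by positivity
  have p1 : ¬ Summable p := fun q => h2 ((q.mul_left 2).of_nonneg_of_le (fun k => by positivity)
    fun k => by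
      obtain ⟨m, e⟩ := Nat.exists_eq_add_one_of_ne_zero (Nat.size_pos.2 (h1 k)).ne'
      have : ((2 ^ m : ℕ) : ℝ) ≤ b k := Nat.cast_le.2 (Nat.lt_size.1 (e ▸ m.lt_succ_self))
      simp only [p, e, pow_succ]
      rw [one_div, mul_comm, inv_mul_cancel_right₀ two_ne_zero, inv_pow]
      exact inv_anti₀ (by positivity) (by simpa using this))
  have : ∀ a n : ℕ, ∃ c > a, (n : ℝ) ≤ ∑ k ∈ Finset.Ico a c, p k := fun a n =>
    ((eventually_gt_atTop a).and (((not_summable_iff_tendsto_nat_atTop_of_nonneg p0).1 p1).eventually_ge_atTop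
      (n + ∑ k ∈ Finset.range a, p k))).exists.imp fun c r =>
        ⟨r.1, by rw [Finset.sum_Ico_eq_sub _ r.1.le]; linarith [r.2]⟩
  choose c c1 c2 using this
  let I : ℕ → ℕ := fun n => n.rec 0 fun n a => c a n
  let ψ : (ℕ → Bool) → ℕ → ℕ → Bool := fun x k j => x (Nat.pair k j)
  have m1 : Measurable ψ := by fun_prop
  have m2 : μ.map ψ = Measure.infinitePi fun _ => μ := by
    rw [μ, ← Measure.infinitePi_map_curry fun _ _ => ProbabilityTheory.uniformOn univ,
      ← Measure.map_infinitePi_infinitePi_of_inj (P := fun _ : ℕ => ProbabilityTheory.uniformOn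
        (univ : Set Bool)) Nat.pairEquiv.injective, Measure.map_map (by fun_prop) (by fun_prop)]
    rfl
  refine ⟨fun x => (I, fun k => if h : ∃ v < b k, ∀ j < (b k).size, ψ x k j = v.testBit j then
    h.choose else 0), fun x => ⟨strictMono_nat_of_lt_succ fun n => c1 _ _, rfl, fun k => ?_⟩,
    fun f hf => ?_⟩
  · dsimp only
    split_ifs with h
    exacts [h.choose_spec.1, h1 k]
  let A : ℕ → Set (ℕ → Bool) := fun k => Set.pi (Finset.range (b k).size) fun j => {(f k).testBit j}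
  have mA : ∀ k, MeasurableSet (A k) := fun k =>
    .pi (Finset.countable_toSet _) fun _ _ => measurableSet_singleton _
  let B : ℕ → Set (ℕ → Bool) := fun n => ψ ⁻¹' Set.pi (Finset.Ico (I n) (I (n + 1))) fun k => (A k)ᶜ
  have hB : ∀ n, μ (B n) ≤ ENNReal.ofReal (Real.exp (-n)) := fun n => by
    rw [← Measure.map_apply m1 (.pi (Finset.countable_toSet _) fun k _ => (mA k).compl), m2,
      Measure.infinitePi_pi _ fun k _ => (mA k).compl]
    refine (Finset.prod_le_prod' fun k _ => (?_ : _ ≤ ENNReal.ofReal (Real.exp (-p k)))).trans ?_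
    · rw [prob_compl_eq_one_sub (mA k), cyl, ← ENNReal.ofReal_one, ← ENNReal.ofReal_sub _ (p0 k)]
      exact ENNReal.ofReal_le_ofReal (Real.one_sub_le_exp_neg _)
    · rw [← ENNReal.ofReal_prod_of_nonneg fun _ _ => (Real.exp_pos _).le, ← Real.exp_sum,
        Finset.sum_neg_distrib]
      exact ENNReal.ofReal_le_ofReal (Real.exp_le_exp.2 (neg_le_neg (c2 _ n)))
  refine measure_mono_null (fun x r => ?_) (measure_setOfPred_frequently_eq_zero
    (p := fun n x => x ∈ B n) (ne_top_of_le_ne_top ?_ (ENNReal.tsum_le_tsum hB)))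
  · refine (not_eventually.1 r).mono fun n s k hk t => s ⟨k, by simpa using hk, ?_⟩
    have e : ∃ v < b k, ∀ j < (b k).size, ψ x k j = v.testBit j :=
      ⟨f k, hf k, fun j u => t j (by simpa using u)⟩
    have g : ∀ v < b k, ∀ j, (b k).size ≤ j → v.testBit j = false := fun v u j w =>
      Nat.testBit_eq_false_of_lt (u.trans (Nat.size_le.1 w))
    refine (Nat.eq_of_testBit_eq fun j => ?_).trans (dif_pos e).symm
    rcases lt_or_ge j (b k).size with u | u
    · exact (t j (by simpa using u)).symm.trans (e.choose_spec.2 j u)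
    · exact (g _ (hf k) j u).trans (g _ e.choose_spec.1 j u).symm
  · rw [← ENNReal.ofReal_tsum_of_nonneg (fun _ => (Real.exp_pos _).le) Real.summable_exp_neg_nat]
    exact ENNReal.ofReal_ne_top

theorem sing (x : ℕ → Bool) : μ {x} = 0 :=
  nonpos_iff_eq_zero.1 (ge_of_tendsto' (ENNReal.ofReal_zero ▸ ENNReal.tendsto_ofReal
    (tendsto_pow_atTop_nhds_zero_of_lt_one (r := (2⁻¹ : ℝ)) (by norm_num) (by norm_num))) fun m =>
      cyl m x ▸ measure_mono (singleton_subset_iff.2 fun _ _ => rfl))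

theorem EN : E ⊆ N := fun _ ⟨_, a, b⟩ =>
  measure_mono_null b (measure_iUnion_null fun n => (a n).2)

theorem nonN : ∃ A, A ∉ N ∧ #A = non N :=
  csInf_mem (s := {c | ∃ A, A ∉ N ∧ #A = c}) ⟨_, univ, by simp [N], rfl⟩

theorem main {b : ℕ → ℕ} (h1 : ∀ k, 1 ≤ b k) (h2 : ∀ᶠ k in atTop, 2 ≤ b k)
    (h3 : ¬ Summable fun k => 1 / (b k : ℝ)) :
    cov N ≤ bEq b ∧ dEq b ≤ non N ∧ non E ≤ non N ∧ cov N ≤ cov E := by
  obtain ⟨φ, f1, f2⟩ := key h1 h3
  obtain ⟨A, a1, a2⟩ := nonN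
  refine ⟨le_csInf ⟨_, Pr b, subset_rfl, fun ⟨p, r, s⟩ => ?_, rfl⟩ ?_, ?_,
    csInf_le' ⟨A, fun r => a1 (EN r), a2⟩, le_csInf ⟨_, range singleton, ?_, by simp [iUnion_of_singleton], rfl⟩
      fun c ⟨S, r, s⟩ => csInf_le' ⟨S, r.trans EN, s⟩⟩
  · obtain ⟨n, ⟨k, u, v⟩, w⟩ := ((s (fun k => if p.2 k = 0 then b k - 1 else 0) fun k => by
      have := h1 k; beta_reduce; split_ifs <;> omega).and
        (r.1.tendsto_atTop.eventually (eventually_forall_ge_atTop.2 h2))).exists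
    have := w k u.1
    beta_reduce at v
    split_ifs at v <;> omega
  · rintro _ ⟨F, r, s, rfl⟩
    refine le_trans (csInf_le' ?_) (mk_image_le (f := fun f => {x | ¬ Sq f (φ x)}))
    refine ⟨_, ?_, eq_univ_of_forall fun x => ?_, rfl⟩
    · rintro _ ⟨f, t, rfl⟩; exact f2 f (r t)
    · exact by_contra fun c => s ⟨_, f1 x, fun f t => by_contra fun d => c ⟨_, ⟨f, t, rfl⟩, d⟩⟩
  · refine le_trans (csInf_le' ?_) (a2 ▸ mk_image_le (f := φ))
    exact ⟨_, image_subset_iff.2 fun x _ => f1 x, fun f r => by_contra fun c =>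
      a1 (measure_mono_null (fun x s t => c ⟨_, ⟨x, s, rfl⟩, t⟩) (f2 f r)), rfl⟩
  · rintro _ ⟨x, rfl⟩
    exact ⟨fun _ => {x}, fun _ => ⟨isClosed_singleton, sing x⟩, subset_iUnion (fun _ => {x}) 0⟩

end Pool.Agent.H84.Beq
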