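import Pool.Agent.H84.BeqDefs

/-! Bounding, splitting, and bounded localization. -/

namespace Pool.Agent.H84.BeqDefs

open Set Filter

/-- The bounding number. -/
noncomputable def bN : Cardinal.{0} :=
  sInf {c | ∃ F : Set (ℕ → ℕ), (∀ g : ℕ → ℕ, ∃ f ∈ F, ∃ᶠ n in atTop, g n < f n) ∧ Cardinal.mk F = c}

/-- The splitting number. -/
noncomputable def sN : Cardinal.{0} :=
  sInf {c | ∃ S : Set (Set ℕ), (∀ X : Set ℕ, X.Infinite → ∃ A ∈ S, (X ∩ A).Infinite ∧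
    (X \ A).Infinite) ∧ Cardinal.mk S = c}

/-- The meager ideal. -/
def M : Set (Set (ℕ → Bool)) := {A | IsMeagre A}

/-- For every bound `b`, at most `κ` slaloms of width `2 ^ k` localize all reals below `b`. -/
def Loc (κ : Cardinal.{0}) : Prop :=
  ∀ b : ℕ → ℕ, ∃ S : Set (ℕ → Finset ℕ), Cardinal.mk S ≤ κ ∧ (∀ s ∈ S, ∀ k, (s k).card ≤ 2 ^ k) ∧
    ∀ h ∈ Pr b, ∃ s ∈ S, ∀ᶠ k in atTop, h k ∈ s k

end Pool.Agent.H84.BeqDefs
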