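import Pool.Agent.H84.Beq
import Pool.Agent.H84.BeqDefs2
import Pool.Agent.H42.IMeag

/-! Upper bounds for `b^eq_b`. -/

namespace Pool.Agent.H84.Beq

open Set Filter MeasureTheory Pool.Agent.H84.BeqDefs
open Cardinal hiding univ

theorem null {X : Set ℕ} (h : X.Infinite) (c : Bool) : μ {a | ∀ n ∈ X, a n = c} = 0 :=
  nonpos_iff_eq_zero.1 (ge_of_tendsto' (ENNReal.ofReal_zero ▸ ENNReal.tendsto_ofReal
    (tendsto_pow_atTop_nhds_zero_of_lt_one (r := (2⁻¹ : ℝ)) (by norm_num) (by norm_num))) fun m => by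
      obtain ⟨t, a, rfl⟩ := h.exists_subset_card_eq m
      refine le_trans (measure_mono (t := Set.pi t fun _ => {c}) fun x r n s => r n (a s)) ?_
      rw [μ, Measure.infinitePi_pi _ fun _ _ => measurableSet_singleton _]
      simp only [ProbabilityTheory.uniformOn_univ]
      simp [ENNReal.ofReal_inv_of_pos, ENNReal.inv_pow])

theorem s_le : sN ≤ non E := by
  refine le_csInf ⟨_, univ, fun r => by simpa [N] using EN r, rfl⟩ ?_
  rintro _ ⟨A, a, rfl⟩
  refine le_trans (csInf_le' ?_) (mk_image_le (f := fun a : ℕ → Bool => {n | a n = true}))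
  refine ⟨_, fun X h => by_contra fun c => a ⟨fun m => ⋃ c, {a | ∀ n ∈ X \ Iic m, a n = c},
    fun m => ⟨isClosed_iUnion_of_finite fun c => ?_, measure_iUnion_null fun c =>
      null (h.sdiff (finite_Iic m)) c⟩, fun x r => ?_⟩, rfl⟩
  · simp only [ofPred_forall]
    exact isClosed_biInter fun n _ => isClosed_eq (continuous_apply n) continuous_const
  · rcases not_and_or.1 fun q => c ⟨_, ⟨x, r, rfl⟩, q⟩ with q | q
    all_goals obtain ⟨m, e⟩ := (not_infinite.1 q).bddAbove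
    · exact mem_iUnion₂.2 ⟨m, false, fun n s => Bool.eq_false_iff.2 fun t => s.2 (e ⟨s.1, t⟩)⟩
    · exact mem_iUnion₂.2 ⟨m, true, fun n s => by_contra fun t => s.2 (e ⟨s.1, t⟩)⟩

theorem Sq.freq {b f : ℕ → ℕ} {p : (ℕ → ℕ) × (ℕ → ℕ)} (hp : p ∈ Pairs b) (h : Sq f p) :
    ∃ᶠ k in atTop, f k = p.2 k := frequently_atTop.2 fun m =>
  (h.and (hp.1.tendsto_atTop.eventually_ge_atTop m)).exists.elim fun _ ⟨⟨k, r, s⟩, t⟩ =>
    ⟨k, t.trans r.1, s⟩

theorem idx {J : ℕ → ℕ} (h : StrictMono J) : ∃ n : ℕ → ℕ, (∀ k, k < J (n k + 1)) ∧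
    (∀ k, J 0 ≤ k → J (n k) ≤ k) ∧ ∀ j k, J j ≤ k → j ≤ n k := by
  classical
  have e : ∀ j k, J j ≤ k → j ≤ Nat.findGreatest (J · ≤ k) k := fun j k r =>
    Nat.le_findGreatest ((h.id_le j).trans r) r
  exact ⟨fun k => Nat.findGreatest (J · ≤ k) k, fun k => not_le.1 fun r =>
    (e _ _ r).not_gt (Nat.lt_succ_self _), fun k r =>
      Nat.findGreatest_spec (P := (J · ≤ k)) k.zero_le r, e⟩

theorem some_b (h : cov M < bN) : ∃ b : ℕ → ℕ, (∀ k, 1 ≤ b k) ∧
    (Summable fun k => 1 / (b k : ℝ)) ∧ bEq b ≤ cov M := by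
  obtain ⟨S, s1, s2, s3⟩ := csInf_mem (s := {c | ∃ S ⊆ M, ⋃₀ S = univ ∧ #S = c})
    ⟨_, range singleton, by
      rintro _ ⟨x, rfl⟩
      have : (nhdsWithin x {x}ᶜ).NeBot := mem_closure_iff_nhdsWithin_neBot.1
        (mem_closure_of_tendsto (f := fun n => Function.update x n (!x n)) (b := atTop)
          (tendsto_pi_nhds.2 fun i => tendsto_const_nhds.congr' ((eventually_gt_atTop i).mono
            fun n r => (Function.update_of_ne r.ne _ _).symm))
          (.of_forall fun n e => by simpa using congrFun e n))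
      exact residual_of_dense_open isOpen_compl_singleton (dense_compl_singleton x),
      by simp [iUnion_of_singleton], rfl⟩
  choose l s hs using fun A : S => Pool.Agent.H42.IMeag.meagre_sub (s1 A.2)
  obtain ⟨g, hg⟩ := Pool.Agent.H42.IMeag.bdd (s3.trans_lt h) l
  let J : ℕ → ℕ := fun n => n.rec 0 fun _ a => max (g a) (a + 1)
  have j1 : StrictMono J := strictMono_nat_of_lt_succ fun n => lt_max_of_lt_right (J n).lt_succ_self
  obtain ⟨n, n1, n2, n3⟩ := idx j1
  refine ⟨fun k => 2 ^ J (k + 1), fun k => Nat.one_le_two_pow, summable_geometric_two.of_nonneg_of_le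
    (fun k => by positivity) fun k => ?_, le_trans (csInf_le' ?_) (s3 ▸ mk_range_le (f := fun A k =>
      Nat.ofBits fun i : Fin (J (k + 1)) => s A (J k) i))⟩
  · rw [one_div_pow, Nat.cast_pow]
    exact one_div_le_one_div_of_le (by positivity) (pow_le_pow_right₀ one_le_two
      (k.le_succ.trans (j1.id_le _)))
  refine ⟨_, range_subset_iff.2 fun A k => Nat.ofBits_lt_two_pow _, fun ⟨p, r, t⟩ => ?_, rfl⟩
  obtain ⟨A, a, b⟩ := s2.ge (mem_univ fun i => (p.2 (n i)).testBit i)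
  refine hs ⟨A, a⟩ _ (j1.tendsto_atTop.frequently (((Sq.freq r (t _ ⟨⟨A, a⟩, rfl⟩)).and_eventually
    (j1.tendsto_atTop.eventually (hg ⟨A, a⟩))).mono fun k u i v w => ?_)) b
  have x : i < J (k + 1) := w.trans_le (u.2.trans (le_max_left _ _))
  rw [show n i = k from le_antisymm (Nat.lt_succ_iff.1 (j1.lt_iff_lt.1
    ((n2 i i.zero_le).trans_lt x))) (n3 _ _ v), ← u.1, Nat.testBit_ofBits_lt _ _ x]

theorem all_b {κ : Cardinal} (h : Loc κ) {b : ℕ → ℕ} (h1 : ∀ k, 1 ≤ b k)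
    (h2 : Summable fun k => 1 / (b k : ℝ)) : bEq b ≤ κ := by
  classical
  have : ∀ n, ∀ᶠ m in atTop, ∀ k, m ≤ k → 2 ^ n < b k := fun n => eventually_forall_ge_atTop.2
    ((h2.tendsto_atTop_zero.eventually_lt_const (show (0 : ℝ) < 1 / (2 ^ n : ℕ) by positivity)).mono
      fun k r => Nat.cast_lt.1 (lt_of_one_div_lt_one_div (Nat.cast_pos.2 (h1 k)) r))
  obtain ⟨J, j1, j2⟩ := extraction_forall_of_eventually this
  obtain ⟨n, n1, n2, n3⟩ := idx j1
  obtain ⟨S, s1, s2, s3⟩ := h fun m => (Fintype.piFinset fun i : Fin (J (m + 1)) =>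
    Finset.range (b i)).sup Encodable.encode + 1
  have : ∀ (s : S) k, ∃ v < b k, J 0 ≤ k → ∀ g : Fin (J (n k + 1)) → ℕ,
      Encodable.encode g ∈ s.1 (n k) → g ⟨k, n1 k⟩ ≠ v := fun s k => by
    by_cases r : J 0 ≤ k
    · obtain ⟨v, a, c⟩ := Finset.exists_mem_notMem_of_card_lt_card (s := ((s.1 (n k)).preimage
        Encodable.encode Encodable.encode_injective.injOn).image
          fun g : Fin (J (n k + 1)) → ℕ => g ⟨k, n1 k⟩) (t := Finset.range (b k))
        (Finset.card_image_le.trans_lt ((Finset.card_le_card_of_injOn _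
          (fun _ t => Finset.mem_preimage.1 t) Encodable.encode_injective.injOn).trans_lt
          ((s2 _ s.2 _).trans_lt ((j2 _ k (n2 k r)).trans_eq (Finset.card_range _).symm))))
      exact ⟨v, Finset.mem_range.1 a, fun _ g t e =>
        c (Finset.mem_image.2 ⟨g, Finset.mem_preimage.2 t, e⟩)⟩
    · exact ⟨0, h1 k, fun t => absurd t r⟩
  choose f f1 f2 using this
  refine le_trans (csInf_le' ?_) ((mk_range_le (f := f)).trans s1)
  refine ⟨_, range_subset_iff.2 f1, fun ⟨p, r, t⟩ => ?_, rfl⟩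
  obtain ⟨s, a, c⟩ := s3 (fun m => Encodable.encode fun i : Fin (J (m + 1)) => p.2 i) fun m =>
    Nat.lt_succ_of_le (Finset.le_sup (f := Encodable.encode)
      (Fintype.mem_piFinset.2 fun i => Finset.mem_range.2 (r.2.2 i)))
  obtain ⟨m, e⟩ := eventually_atTop.1 c
  obtain ⟨k, u, v⟩ := frequently_atTop.1 (Sq.freq r (t _ ⟨⟨s, a⟩, rfl⟩)) (J m)
  exact f2 ⟨s, a⟩ k ((j1.monotone m.zero_le).trans u) _ (e _ (n3 _ _ u)) v.symm

end Pool.Agent.H84.Beq
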