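import Mathlib

/-! The invariants `b^eq_b`, `d^eq_b` and the ideals `N` and `E`. -/

namespace Pool.Agent.H84.BeqDefs

open Set Filter MeasureTheory

/-- The fair coin measure on the Cantor space. -/
noncomputable def μ : Measure (ℕ → Bool) :=
  Measure.infinitePi fun _ => ProbabilityTheory.uniformOn univ

/-- The null ideal. -/
def N : Set (Set (ℕ → Bool)) := {A | μ A = 0}

/-- The σ-ideal generated by the closed null sets. -/
def E : Set (Set (ℕ → Bool)) :=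
  {A | ∃ K : ℕ → Set (ℕ → Bool), (∀ n, IsClosed (K n) ∧ μ (K n) = 0) ∧ A ⊆ ⋃ n, K n}

/-- Uniformity number. -/
noncomputable def non (I : Set (Set (ℕ → Bool))) : Cardinal :=
  sInf {c | ∃ A, A ∉ I ∧ Cardinal.mk A = c}

/-- Covering number. -/
noncomputable def cov (I : Set (Set (ℕ → Bool))) : Cardinal :=
  sInf {c | ∃ S ⊆ I, ⋃₀ S = univ ∧ Cardinal.mk S = c}

/-- The product of the finite sets `b k`. -/
def Pr (b : ℕ → ℕ) : Set (ℕ → ℕ) := {f | ∀ k, f k < b k}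

/-- Pairs of an interval partition, given by its left end points, and a point of the product. -/
def Pairs (b : ℕ → ℕ) : Set ((ℕ → ℕ) × (ℕ → ℕ)) := {p | StrictMono p.1 ∧ p.1 0 = 0 ∧ p.2 ∈ Pr b}

/-- `f` meets `p.2` on all but finitely many intervals of `p.1`. -/
def Sq (f : ℕ → ℕ) (p : (ℕ → ℕ) × (ℕ → ℕ)) : Prop :=
  ∀ᶠ n in atTop, ∃ k ∈ Ico (p.1 n) (p.1 (n + 1)), f k = p.2 k

/-- The invariant `b^eq_b`. -/
noncomputable def bEq (b : ℕ → ℕ) : Cardinal :=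
  sInf {c | ∃ F ⊆ Pr b, (¬ ∃ p ∈ Pairs b, ∀ f ∈ F, Sq f p) ∧ Cardinal.mk F = c}

/-- The invariant `d^eq_b`. -/
noncomputable def dEq (b : ℕ → ℕ) : Cardinal :=
  sInf {c | ∃ D ⊆ Pairs b, (∀ f ∈ Pr b, ∃ p ∈ D, Sq f p) ∧ Cardinal.mk D = c}

end Pool.Agent.H84.BeqDefs
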