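import Pool.Agent.H84.HullDefs

/-! Auxiliary facts: `ω₁`, Baire category under MA, small open sets. -/

namespace Pool.Agent.H84.MHull

open Set Cardinal Ordinal MeasureTheory

abbrev W := (ω₁ : Ordinal.{0}).ToType

theorem W_Iic (a : W) : (Iic a).Countable := by
  rw [← Iio_insert]
  refine Countable.insert _ ?_
  rw [← Cardinal.le_aleph0_iff_set_countable, ← Order.lt_succ_iff, succ_aleph0]
  have := Cardinal.mk_Iio_lt a (by simp)
  simpa using this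

theorem W_card : #W = ℵ₁ := by simp

theorem W_unc : ¬ (univ : Set W).Countable := by
  rw [← Cardinal.le_aleph0_iff_set_countable]; simp

instance : Nonempty W := by_contra fun h => W_unc (by
  rw [not_nonempty_iff] at h; exact Set.to_countable _)

theorem W_bdd {s : Set W} (hs : s.Countable) : ∃ b, ∀ a ∈ s, a < b := by
  by_contra h
  push Not at h
  refine W_unc ((hs.biUnion fun a _ => W_Iic a).mono fun b _ => ?_)
  simpa using h b

theorem exists_k : ∃ k : W → ℕ, ∀ n γ, ∃ α, γ < α ∧ k α = n := by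
  obtain ⟨e⟩ : Nonempty (W ≃ W × ℕ) := Cardinal.eq.1 (by simp)
  refine ⟨fun a => (e a).2, fun n γ => by_contra fun h => ?_⟩
  push Not at h
  refine W_unc (((W_Iic γ).preimage_of_injOn (f := fun a => e.symm (a, n))
    fun a _ b _ h => by simpa using h).mono fun a _ => not_lt.1 fun h' => h _ h' (by simp))

theorem ma_ix (hMA : MA) (P : Type) [PartialOrder P] [Nonempty P]
    (hc : ∀ A : Set P, (A.Pairwise fun p q => ¬ ∃ r, r ≤ p ∧ r ≤ q) → A.Countable)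
    {ι : Type} (hι : #ι < 𝔠) (D : ι → Set P) (hD : ∀ i p, ∃ q ∈ D i, q ≤ p) :
    ∃ G : Set P, DirectedOn (· ≥ ·) G ∧ ∀ i, ∃ p ∈ G, p ∈ D i := by
  obtain ⟨G, -, h1, h2⟩ := hMA P hc (range D) (mk_range_le.trans_lt hι) (by
    rintro _ ⟨i, rfl⟩; exact hD i)
  exact ⟨G, h1, fun i => h2 _ ⟨i, rfl⟩⟩

def cyl (s : Σ n, Fin n → ℕ) : Set (ℕ → ℕ) := {y | ∀ i : Fin s.1, y i = s.2 i}

theorem cover (hMA : MA) (h1 : ℵ₁ < (𝔠 : Cardinal.{0})) (T : Set W) (C : W → Set (ℕ → ℕ))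
    (hC : ∀ a, IsClosed (C a)) (hcov : ∀ y, ∃ a ∈ T, y ∈ C a) :
    ∃ γ, ∀ y, ∃ a ∈ T, a < γ ∧ y ∈ C a := by
  classical
  by_contra hn
  let Cov : Set (ℕ → ℕ) → Prop := fun U => ∃ γ, ∀ y ∈ U, ∃ a ∈ T, a < γ ∧ y ∈ C a
  let P := {U // U ∈ range cyl ∧ ¬ Cov U}
  have hP : Countable P := ((countable_range cyl).mono fun U (h : _ ∧ ¬ Cov U) => h.1).to_subtype
  have hne : Nonempty P := ⟨⟨_, ⟨⟨0, Fin.elim0⟩, rfl⟩, fun ⟨γ, h⟩ =>
    hn ⟨γ, fun y => h y fun i => i.elim0⟩⟩⟩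
  obtain ⟨G, hG, hD⟩ := ma_ix hMA P (fun A _ => A.to_countable) (ι := W × ℕ)
    (by simpa using h1) (fun i => {U | (i.1 ∈ T → Disjoint U.1 (C i.1)) ∧
      ∀ y ∈ U.1, ∀ z ∈ U.1, ∀ j < i.2, y j = z j}) (by
    rintro ⟨a, n⟩ ⟨U, ⟨s, rfl⟩, hU⟩
    by_contra h
    push Not at h
    let S := {t | cyl t ⊆ cyl s ∧ (a ∈ T → Disjoint (cyl t) (C a)) ∧ n ≤ t.1}
    have h2 : ∀ t : S, Cov (cyl t) := fun t => by_contra fun ht =>
      h ⟨_, ⟨t, rfl⟩, ht⟩ ⟨t.2.2.1, fun y hy z hz j hj =>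
        (hy ⟨j, hj.trans_le t.2.2.2⟩).trans (hz ⟨j, hj.trans_le t.2.2.2⟩).symm⟩ t.2.1
    choose g hg using h2
    obtain ⟨γ, hγ⟩ := W_bdd ((countable_range g).insert a)
    refine hU ⟨γ, fun y hy => ?_⟩
    by_cases hy' : a ∈ T ∧ y ∈ C a
    · exact ⟨a, hy'.1, hγ a (by simp), hy'.2⟩
    have : ∃ m, ∀ z : ℕ → ℕ, (∀ j < m, z j = y j) → a ∈ T → z ∉ C a := by
      by_cases ha : a ∈ T
      · obtain ⟨J, u, h3, h4⟩ := isOpen_pi_iff.1 (hC a).isOpen_compl y fun h => hy' ⟨ha, h⟩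
        exact ⟨J.sup id + 1, fun z hz _ => h4 fun j hj =>
          hz j (Nat.lt_succ_of_le (Finset.le_sup (f := id) hj)) ▸ (h3 j hj).2⟩
      · exact ⟨0, fun _ _ h => absurd h ha⟩
    obtain ⟨m, hm⟩ := this
    obtain ⟨b, hb, hb', hb''⟩ := hg ⟨⟨m + n + s.1, fun i => y i⟩, fun z hz i =>
      (hz ⟨i, by have := i.2; simp only; omega⟩).trans (hy i), fun ha => disjoint_left.2 fun z hz =>
        hm z (fun j hj => hz ⟨j, by simp only; omega⟩) ha, by simp only; omega⟩ y fun _ => rfl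
    exact ⟨b, hb, hb'.trans (hγ _ (by simp)), hb''⟩)
  have hN : ∀ U : P, U.1.Nonempty := fun U => by_contra fun h =>
    U.2.2 ⟨Classical.arbitrary W, fun y hy => absurd ⟨y, hy⟩ h⟩
  choose U hU hU' using fun n => hD (Classical.arbitrary W, n)
  let x : ℕ → ℕ := fun j => (hN (U (j + 1))).some j
  obtain ⟨a, ha, hx⟩ := hcov x
  obtain ⟨V, hV, hV'⟩ := hD (a, 0)
  refine disjoint_left.1 (hV'.1 ha) ?_ hx
  obtain ⟨s, hs⟩ := V.2.1
  rw [← hs]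
  intro i
  obtain ⟨R, -, h2, h3⟩ := hG _ hV _ (hU (i + 1))
  obtain ⟨z, hz⟩ := hN R
  have h4 : z ∈ cyl s := hs ▸ h2 hz
  exact ((hU' (i + 1)).2 _ (hN _).some_mem z (h3 hz) i (by simp)).trans (h4 i)

theorem exists_Icc {U E : Set ℝ} (hU : IsOpen U) (h : volume (E ∩ U) ≠ 0) :
    ∃ i : ℚ × ℚ, Icc (i.1 : ℝ) i.2 ⊆ U ∧ volume (E ∩ Icc (i.1 : ℝ) i.2) ≠ 0 := by
  by_contra hn
  push Not at hn
  refine h (measure_mono_null (t := ⋃ i : {i : ℚ × ℚ // Icc (i.1 : ℝ) i.2 ⊆ U},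
    E ∩ Icc (i.1.1 : ℝ) i.1.2) ?_ (measure_iUnion_null fun i => hn _ i.2))
  rintro x ⟨hx, hxU⟩
  obtain ⟨a, b, hab, h⟩ := mem_nhds_iff_exists_Ioo_subset.1 (hU.mem_nhds hxU)
  obtain ⟨q, hq, hq'⟩ := exists_rat_btwn hab.1
  obtain ⟨r, hr, hr'⟩ := exists_rat_btwn hab.2
  exact mem_iUnion.2 ⟨⟨(q, r), (Icc_subset_Ioo hq hr').trans h⟩, hx, hq'.le, hr.le⟩

theorem exists_small {ι : Type} [Countable ι] (E : ι → Set ℝ) {ε : ENNReal} (hε : ε ≠ 0) :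
    ∃ O, IsOpen O ∧ volume O < ε ∧ ∀ i, volume (E i) ≠ 0 → volume (E i ∩ O) ≠ 0 := by
  obtain ⟨δ, hδ, hs⟩ := ENNReal.exists_pos_sum_of_countable hε ι
  have : ∀ i, ∃ J, IsOpen J ∧ volume J ≤ δ i ∧ (volume (E i) ≠ 0 → volume (E i ∩ J) ≠ 0) := by
    intro i
    by_cases h : volume (E i) = 0
    · exact ⟨∅, isOpen_empty, by simp, fun h' => absurd h h'⟩
    by_contra hn
    push Not at hn
    have hp : (0 : ℝ) < δ i / 2 := by have := hδ i; positivity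
    refine h (measure_mono_null (t := ⋃ q : ℚ, E i ∩ Metric.ball (q : ℝ) (δ i / 2)) (fun x hx => ?_)
      (measure_iUnion_null fun q => (hn _ Metric.isOpen_ball ?_).2))
    · obtain ⟨q, hq⟩ := exists_rat_near x hp
      exact mem_iUnion.2 ⟨q, hx, by simpa [Real.dist_eq] using hq⟩
    · rw [Real.volume_ball, mul_div_cancel₀ _ two_ne_zero]; simp
  choose J h1 h2 h3 using this
  exact ⟨⋃ i, J i, isOpen_iUnion h1, (measure_iUnion_le _).trans_lt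
    ((ENNReal.tsum_le_tsum h2).trans_lt hs), fun i hi h => h3 i hi
      (measure_mono_null (inter_subset_inter_right _ (subset_iUnion J i)) h)⟩

end Pool.Agent.H84.MHull
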