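import Pool.Agent.H84.BlipDefs
import Pool.Agent.H84.HullA

/-! Finite modifications, and the two consequences of the Lipschitz Baumgartner principles. -/

namespace Pool.Agent.H84.Blip

open Set Cardinal MeasureTheory Filter Topology Pool.Agent.H84.MHull
open scoped ENNReal

variable {K : Type}

/-- Finite modifications of members of `Y`. -/
def Mod (Y : Set (ℕ → K)) : Set (ℕ → K) := {z | ∃ y ∈ Y, z =ᶠ[atTop] y}

theorem mod_one [Countable K] (y : ℕ → K) : {z | z =ᶠ[atTop] y}.Countable := by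
  refine (countable_iUnion fun n => countable_range fun σ : Fin n → K =>
    fun i => if h : i < n then σ ⟨i, h⟩ else y i).mono fun z hz => ?_
  obtain ⟨n, hn⟩ := eventually_atTop.1 hz
  refine mem_iUnion.2 ⟨n, fun i => z i, funext fun i => ?_⟩
  by_cases h : i < n
  · simp [h]
  · simp [h, hn i (not_lt.1 h)]

theorem mod_cnt [Countable K] {Y : Set (ℕ → K)} (h : Y.Countable) : (Mod Y).Countable :=
  (h.biUnion fun y _ => mod_one y).mono fun _ ⟨y, hy, hz⟩ => mem_iUnion₂.2 ⟨y, hy, hz⟩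

theorem unc_range {Z : Type} {g : W → Z} (hg : Function.Injective g) : ¬ (range g).Countable :=
  fun h => W_unc (by simpa using h.preimage_of_injOn (f := g) hg.injOn)

theorem mod_dense [Countable K] [TopologicalSpace K] {g : W → ℕ → K}
    (hg : Function.Injective g) : Dense1 (Mod (range g)) := by
  intro U hU ⟨u, hu⟩
  refine le_antisymm ?_ ?_
  · have h1 : Mod (range g) = ⋃ a, {z | z =ᶠ[atTop] g a} := by ext z; simp [Mod]
    refine (mk_le_mk_of_subset inter_subset_left).trans ?_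
    rw [h1]
    refine mk_iUnion_le_sum_mk.trans ((sum_le_sum _ (fun _ => ℵ₀) fun a =>
      le_aleph0_iff_set_countable.2 (mod_one (g a))).trans ?_)
    simp
  · rw [← succ_aleph0, Order.succ_le_iff, ← not_le, le_aleph0_iff_set_countable]
    intro hc
    obtain ⟨I, v, hv, hI⟩ := isOpen_pi_iff.1 hU u hu
    refine unc_range hg ((mod_cnt hc).mono ?_)
    rintro _ ⟨a, rfl⟩
    have h1 : g a =ᶠ[atTop] fun i => if i ∈ I then u i else g a i :=
      eventually_atTop.2 ⟨I.sup id + 1, fun i hi => (if_neg fun h =>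
        absurd (Finset.le_sup (f := id) h) (by simp only [id]; omega)).symm⟩
    refine ⟨_, ⟨⟨_, ⟨a, rfl⟩, h1.symm⟩, hI fun i hi => ?_⟩, h1⟩
    have hi' : i ∈ I := hi
    simpa [hi'] using (hv i hi).2

theorem mod_unc [Countable K] [TopologicalSpace K] [Nonempty K] {g : W → ℕ → K}
    (hg : Function.Injective g) : ¬ (Mod (range g)).Countable :=
  fun h => unc_range hg (h.mono fun y hy => Exists.intro y (And.intro hy EventuallyEq.rfl))

/-- Extension of a finite sequence. -/
def ext {k : ℕ} (σ : Fin (k + 1) → K) : ℕ → K := fun i => if h : i < k + 1 then σ ⟨i, h⟩ else σ 0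

theorem Lip.eq {f : (ℕ → K) → ℕ → K} (hf : Lip f) (x : ℕ → K) (k : ℕ) :
    f x k = f (ext fun i : Fin (k + 1) => x i) k :=
  hf (k + 1) _ _ (fun i hi => by simp [ext, hi]) k (Nat.lt_succ_self k)

theorem pow_eq [Countable K] [Nontrivial K] [TopologicalSpace K] (h : BALip K) :
    (2 : Cardinal.{0}) ^ (ℵ₀ : Cardinal.{0}) = 2 ^ (ℵ₁ : Cardinal.{0}) := by
  classical
  refine le_antisymm (power_le_power_left two_ne_zero aleph0_lt_aleph_one.le) ?_
  have hK : 𝔠 ≤ #(ℕ → K) := by
    rw [← two_power_aleph0]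
    simpa using power_le_power_right (c := ℵ₀) (two_le_iff.2 (exists_pair_ne K))
  have hT : #(Σ a : W, Set (Iic a)) ≤ 𝔠 := by
    rw [mk_sigma]
    refine (sum_le_sum _ (fun _ => 𝔠) fun a => ?_).trans ?_
    · rw [mk_set, ← two_power_aleph0]
      exact power_le_power_left two_ne_zero (le_aleph0_iff_set_countable.2 (W_Iic a))
    · simp only [sum_const', W_card]
      exact (mul_eq_right aleph0_le_continuum aleph_one_le_continuum (aleph_pos 1).ne').le
  obtain ⟨c⟩ := (Cardinal.le_def _ _).1 (hT.trans hK)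
  let y : Set W → W → ℕ → K := fun S a i => c ⟨a, Subtype.val ⁻¹' S⟩ i.unpair.1
  have hy : ∀ S S' a a', y S a =ᶠ[atTop] y S' a' → a = a' ∧ ∀ b ≤ a, (b ∈ S ↔ b ∈ S') := by
    intro S S' a a' he
    obtain ⟨N, hN⟩ := eventually_atTop.1 he
    have h1 : (⟨a, Subtype.val ⁻¹' S⟩ : Σ a : W, Set (Iic a)) = ⟨a', Subtype.val ⁻¹' S'⟩ :=
      c.injective (funext fun n => by
        simpa [y] using hN (Nat.pair n N) (Nat.right_le_pair n N))
    obtain ⟨rfl, h2⟩ := Sigma.mk.inj_iff.1 h1
    exact ⟨rfl, fun b hb => Set.ext_iff.1 (eq_of_heq h2) ⟨b, hb⟩⟩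
  have hyi : ∀ S, Function.Injective (y S) := fun S a a' he =>
    (hy S S a a' (EventuallyEq.of_eq he)).1
  choose f hf hfi hfm using fun S => h _ _ (mod_dense (hyi ∅)) (mod_dense (hyi S))
  let G : Set W → (Σ k : ℕ, Fin (k + 1) → K) → K := fun S p => f S (ext p.2) p.1
  have hG : Function.Injective G := by
    intro S S' hSS
    have h1 : f S = f S' := funext fun x => funext fun k => by
      rw [(hf S).eq x k, (hf S').eq x k]
      exact congrFun hSS ⟨k, fun i => x i⟩
    by_contra hne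
    obtain ⟨b, hb⟩ : ∃ b, ¬ (b ∈ S ↔ b ∈ S') := not_forall.1 fun h' => hne (Set.ext h')
    refine mod_unc (hyi ∅) (countable_of_injective_of_countable_image (hfi S)
      ((mod_cnt ((W_Iic b).image (y S))).mono ?_))
    rintro _ ⟨x, hx, rfl⟩
    obtain ⟨_, ⟨a, rfl⟩, ha⟩ := hfm S hx
    obtain ⟨_, ⟨a', rfl⟩, ha'⟩ := hfm S' hx
    rw [← h1] at ha'
    refine ⟨_, ⟨a, ?_, rfl⟩, ha⟩
    by_contra hab
    exact hb ((hy S S' a a' (ha.symm.trans ha')).2 b (not_le.1 hab).le)
  have h2 := mk_le_of_injective hG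
  rw [mk_set, W_card, ← power_def] at h2
  refine h2.trans ((power_le_power_right mk_le_aleph0).trans
    ((power_le_power_left aleph0_ne_zero mk_le_aleph0).trans ?_))
  simp

theorem null_code : ∃ D : ℕ → Set ℝ, ∀ δ : ℕ → ℝ≥0∞, (∀ k, 0 < δ k) → ∀ M : Set ℝ, volume M = 0 →
    ∃ g : ℕ → ℕ, (∀ k, volume (D (g k)) ≤ ((k + 1 : ℕ) : ℝ≥0∞) * δ k) ∧
      ∀ p ∈ M, ∃ᶠ k in atTop, p ∈ D (g k) := by
  classical
  obtain ⟨B, hBc, -, hB⟩ := TopologicalSpace.exists_countable_basis ℝ
  obtain ⟨B0, hB0, -⟩ := hB.exists_subset_of_mem_open (mem_univ (0 : ℝ)) isOpen_univ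
  obtain ⟨b, rfl⟩ := hBc.exists_eq_range ⟨B0, hB0⟩
  have hA := isSetAlgebra_generateSetAlgebra (𝒜 := range b)
  obtain ⟨D, hD⟩ := (countable_generateSetAlgebra hBc).exists_eq_range ⟨∅, hA.empty_mem⟩
  refine ⟨D, fun δ hδ M hM => ?_⟩
  choose U hMU hUo hU using fun j => M.exists_isOpen_lt_of_lt (μ := volume) (δ j)
    (hM.trans_lt (hδ j))
  let V : ℕ → ℕ → Set ℝ := fun j n => ⋃ i ∈ (Finset.range n).filter fun i => b i ⊆ U j, b i
  have hVA : ∀ j n, V j n ∈ generateSetAlgebra (range b) := fun j n =>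
    hA.biUnion_mem _ fun i _ => self_subset_generateSetAlgebra ⟨i, rfl⟩
  have hVU : ∀ j n, V j n ⊆ U j := fun j n =>
    iUnion₂_subset fun i hi => (Finset.mem_filter.1 hi).2
  have hVe : ∀ j, ∀ p ∈ U j, ∃ i, ∀ n, i < n → p ∈ V j n := fun j p hp => by
    obtain ⟨_, ⟨i, rfl⟩, h1, h2⟩ := hB.exists_subset_of_mem_open hp (hUo j)
    exact ⟨i, fun n hn => mem_iUnion₂.2 ⟨i, Finset.mem_filter.2 ⟨Finset.mem_range.2 hn, h2⟩, h1⟩⟩
  have ht : ∀ j, Tendsto (fun n => volume (U j \ V j n)) atTop (𝓝 0) := fun j => by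
    have h1 := tendsto_measure_iInter_atTop (μ := volume) (s := fun n => U j \ V j n)
      (fun n => ((hUo j).measurableSet.diff (isOpen_biUnion fun i _ =>
        hB.isOpen ⟨i, rfl⟩).measurableSet).nullMeasurableSet)
      (fun m n hmn => diff_subset_diff_right (biUnion_subset_biUnion_left
        (Finset.filter_subset_filter _ (Finset.range_mono hmn))))
      ⟨0, ((measure_mono diff_subset).trans_lt ((hU j).trans_le le_top)).ne⟩
    have h2 : ⋂ n, U j \ V j n = ∅ := eq_empty_of_forall_notMem fun p hp => by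
      obtain ⟨i, hi⟩ := hVe j p (mem_iInter.1 hp 0).1
      exact (mem_iInter.1 hp (i + 1)).2 (hi _ (Nat.lt_succ_self i))
    rw [h2, measure_empty] at h1
    exact h1
  have h3 : ∀ k, ∃ n, k ≤ n ∧ ∀ j ∈ Finset.range k, volume (U j \ V j n) ≤ δ k := fun k =>
    ((eventually_ge_atTop k).and ((eventually_all_finset _).2 fun j _ =>
      (ht j).eventually_le_const (hδ k))).exists
  choose n hn hnδ using h3
  have h4 : ∀ k, ∃ m, D m = V k (n (k + 1)) ∪
      ⋃ j ∈ Finset.range k, V j (n (k + 1)) \ V j (n k) := fun k => by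
    have := hA.union_mem (hVA k (n (k + 1))) (hA.biUnion_mem (Finset.range k)
      fun j _ => hA.sdiff_mem (hVA j (n (k + 1))) (hVA j (n k)))
    rwa [hD] at this
  choose g hg using h4
  refine ⟨g, fun k => ?_, fun p hp => frequently_atTop.2 fun j => ?_⟩
  · rw [hg]
    refine (measure_union_le _ _).trans ?_
    rw [Nat.cast_succ, add_mul, one_mul, add_comm]
    refine add_le_add ((measure_biUnion_finset_le _ _).trans ?_)
      ((measure_mono (hVU _ _)).trans (hU k).le)
    refine (Finset.sum_le_card_nsmul _ _ (δ k) fun j hj =>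
      (measure_mono (diff_subset_diff_left (hVU _ _))).trans (hnδ k j hj)).trans ?_
    simp
  · obtain ⟨i, hi⟩ := hVe j p (hMU j hp)
    have hex : ∃ t, p ∈ V j (n (j + t + 1)) := ⟨i, hi _ (by have := hn (j + i + 1); omega)⟩
    refine ⟨j + Nat.find hex, Nat.le_add_right _ _, ?_⟩
    rw [hg]
    have h5 := Nat.find_spec hex
    rcases Nat.eq_zero_or_pos (Nat.find hex) with h0 | h0
    · rw [h0] at h5 ⊢
      exact Or.inl h5
    · refine Or.inr (mem_iUnion₂.2 ⟨j, Finset.mem_range.2 (by omega), h5, ?_⟩)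
      have := Nat.find_min hex (show Nat.find hex - 1 < Nat.find hex by omega)
      rwa [show j + (Nat.find hex - 1) + 1 = j + Nat.find hex by omega] at this

end Pool.Agent.H84.Blip
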