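import Mathlib

/-! Lipschitz Baumgartner principles and the additivity of the null ideal. -/

namespace Pool.Agent.H84.Blip

open Set Cardinal MeasureTheory

/-- `f` is Lipschitz with constant one for the first-difference metric on `K^ω`. -/
def Lip {K : Type} (f : (ℕ → K) → ℕ → K) : Prop :=
  ∀ (k : ℕ) (x y : ℕ → K), (∀ i < k, x i = y i) → ∀ i < k, f x i = f y i

/-- `A` is `ℵ₁`-dense. -/
def Dense1 {Z : Type} [TopologicalSpace Z] (A : Set Z) : Prop :=
  ∀ U : Set Z, IsOpen U → U.Nonempty → #(A ∩ U : Set Z) = ℵ₁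

/-- The principle `BA_Lip(K^ω)`. -/
def BALip (K : Type) [TopologicalSpace K] : Prop :=
  ∀ A B : Set (ℕ → K), Dense1 A → Dense1 B → ∃ f, Lip f ∧ InjOn f A ∧ MapsTo f A B

/-- `add(N)`: the least number of Lebesgue null sets of reals with non-null union. -/
noncomputable def addN : Cardinal.{0} :=
  sInf {c | ∃ 𝓕 : Set (Set ℝ), #𝓕 = c ∧ (∀ N ∈ 𝓕, volume N = 0) ∧ volume (⋃₀ 𝓕) ≠ 0}

end Pool.Agent.H84.Blip
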