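import Mathlib

set_option autoImplicit false

namespace Pool.Agent.H84.Boch

open MeasureTheory Filter Topology Set Real
open scoped FourierTransform RealInnerProductSpace

variable {V : Type} [NormedAddCommGroup V] [InnerProductSpace ℝ V] [FiniteDimensional ℝ V]
  [MeasurableSpace V] [BorelSpace V]

/-- positive semidefinite kernels -/
def PSD {V : Type} (K : V → V → ℝ) : Prop :=
  ∀ (A : Finset V) (w : V → ℝ), 0 ≤ ∑ a ∈ A, ∑ b ∈ A, w a * w b * K a b

theorem psd_int {K : V → V → ℝ} (hK : Continuous fun p : V × V => K p.1 p.2) {C : ℝ}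
    (hb : ∀ x y, |K x y| ≤ C) (h : PSD K) {φ : V → ℝ} (hφ : Integrable φ) :
    0 ≤ ∫ p : V × V, φ p.1 * φ p.2 * K p.1 p.2 := by
  classical
  let s : ℕ → SimpleFunc V V := SimpleFunc.approxOn id measurable_id univ 0 (mem_univ _)
  have hs : ∀ x, Tendsto (fun k => s k x) atTop (𝓝 x) := fun x =>
    SimpleFunc.tendsto_approxOn measurable_id (mem_univ _) (by simp)
  have h1 : Integrable fun p : V × V => φ p.1 * φ p.2 := hφ.mul_prod hφ
  have h2 : Tendsto (fun k => ∫ p : V × V, φ p.1 * φ p.2 * K (s k p.1) (s k p.2)) atTop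
      (𝓝 (∫ p : V × V, φ p.1 * φ p.2 * K p.1 p.2)) := by
    refine tendsto_integral_of_dominated_convergence _ (fun k => h1.1.mul ?_) (h1.norm.mul_const C)
      (fun k => .of_forall fun p => ?_) (.of_forall fun p => ?_)
    · exact (hK.measurable.comp (((s k).measurable.comp measurable_fst).prodMk
        ((s k).measurable.comp measurable_snd))).aestronglyMeasurable
    · rw [norm_mul]; exact mul_le_mul_of_nonneg_left (hb _ _) (norm_nonneg _)
    · exact ((hK.tendsto p).comp ((hs p.1).prodMk_nhds (hs p.2))).const_mul _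
  refine ge_of_tendsto' h2 fun k => ?_
  let ψ : V → V → ℝ := fun a => (s k ⁻¹' {a}).indicator φ
  have hψ : ∀ a, Integrable (ψ a) := fun a => hφ.indicator ((s k).measurableSet_fiber a)
  have h3 : ∀ p : V × V, φ p.1 * φ p.2 * K (s k p.1) (s k p.2) =
      ∑ a ∈ (s k).range, ∑ b ∈ (s k).range, ψ a p.1 * ψ b p.2 * K a b := fun p => by
    rw [Finset.sum_eq_single (s k p.1), Finset.sum_eq_single (s k p.2)]
    · simp [ψ]
    · intro b _ hb; simp [ψ, hb.symm]
    · simp
    · intro a _ ha; simp [ψ, ha.symm]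
    · simp
  have h4 : ∀ a b, Integrable fun p : V × V => ψ a p.1 * ψ b p.2 * K a b := fun a b =>
    ((hψ a).mul_prod (hψ b)).mul_const _
  simp only [h3]
  rw [integral_finsetSum _ fun a _ => integrable_finsetSum _ fun b _ => h4 a b]
  refine (h (s k).range fun a => ∫ x, ψ a x).trans_eq (Finset.sum_congr rfl fun a _ => ?_)
  rw [integral_finsetSum _ fun b _ => h4 a b]
  refine Finset.sum_congr rfl fun b _ => ?_
  rw [integral_mul_const, Measure.volume_eq_prod, integral_prod_mul]

theorem gauss_int {b : ℝ} (hb : 0 < b) : Integrable fun v : V => rexp (-b * ‖v‖ ^ 2) :=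
  Integrable.of_integral_ne_zero (by
    rw [GaussianFourier.integral_rexp_neg_mul_sq_norm hb]; positivity)

theorem int_nonneg {H : V → ℝ} (hc : Continuous H) (hi : Integrable H) {C : ℝ}
    (hb : ∀ x, |H x| ≤ C) (h : PSD fun x y => H (x - y)) : 0 ≤ ∫ x, H x := by
  have key : ∀ ε : ℝ, 0 < ε → 0 ≤ ∫ z, rexp (-(ε / 2) * ‖z‖ ^ 2) * H z := by
    intro ε hε
    let φ : V → ℝ := fun v => rexp (-ε * ‖v‖ ^ 2)
    have hφ : Integrable φ := gauss_int hε
    have hφ1 : ∀ v, |φ v| ≤ 1 := fun v => by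
      rw [abs_of_pos (exp_pos _), exp_le_one_iff]; nlinarith [sq_nonneg ‖v‖]
    have h1 := psd_int (K := fun x y => H (x - y)) (by fun_prop) (fun x y => hb _) h hφ
    have h2 : Integrable fun p : V × V => φ p.1 * φ p.2 * H (p.1 - p.2) :=
      (hφ.mul_prod hφ).mul_bdd (by fun_prop) (.of_forall fun p => hb _)
    have h3 : Integrable (Function.uncurry fun x z : V => φ (x - z) * (φ x * H z))
        (volume.prod volume) :=
      (hφ.mul_prod hi).bdd_mul (by fun_prop) (.of_forall fun p => hφ1 _)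
    rw [Measure.volume_eq_prod, integral_prod _ h2] at h1
    have h4 : ∀ x, ∫ y, φ x * φ y * H (x - y) = ∫ z, φ (x - z) * (φ x * H z) := fun x => by
      rw [← integral_sub_left_eq_self _ volume x]
      congr with z; rw [sub_sub_cancel]; ring
    simp only [h4] at h1
    rw [integral_integral_swap h3] at h1
    have h5 : ∀ z, ∫ x, φ (x - z) * (φ x * H z) =
        (∫ x : V, rexp (-(2 * ε) * ‖x‖ ^ 2)) * (rexp (-(ε / 2) * ‖z‖ ^ 2) * H z) := fun z => by
      rw [← integral_mul_const, ← integral_add_right_eq_self _ ((1 / 2 : ℝ) • z)]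
      congr with x
      have e1 : x + (1 / 2 : ℝ) • z - z = x - (1 / 2 : ℝ) • z := by module
      have e2 := parallelogram_law_with_norm ℝ x ((1 / 2 : ℝ) • z)
      rw [norm_smul, Real.norm_of_nonneg (by norm_num)] at e2
      simp only [φ, e1]
      rw [← mul_assoc, ← mul_assoc, ← exp_add, ← exp_add]
      congr 2
      linear_combination (-ε) * e2
    simp only [h5] at h1
    rw [integral_const_mul, GaussianFourier.integral_rexp_neg_mul_sq_norm (by positivity)] at h1
    exact (mul_nonneg_iff_of_pos_left (by positivity)).1 h1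
  have h2 : Tendsto (fun k : ℕ => ∫ z, rexp (-(1 / ((k : ℝ) + 1) / 2) * ‖z‖ ^ 2) * H z) atTop
      (𝓝 (∫ z, H z)) := by
    refine tendsto_integral_of_dominated_convergence _ (fun k => by fun_prop) hi.norm
      (fun k => .of_forall fun z => ?_) (.of_forall fun z => ?_)
    · rw [norm_mul, Real.norm_of_nonneg (exp_pos _).le]
      refine mul_le_of_le_one_left (norm_nonneg _) (exp_le_one_iff.2 ?_)
      rw [neg_mul, neg_nonpos]; positivity
    · have := (((tendsto_one_div_add_atTop_nhds_zero_nat (𝕜 := ℝ)).div_const 2).neg.mul_const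
        (‖z‖ ^ 2)).rexp.mul_const (H z)
      simpa using this
  exact ge_of_tendsto' h2 fun k => key _ (by positivity)

omit [FiniteDimensional ℝ V] [MeasurableSpace V] [BorelSpace V] in
theorem psd_cos {F : V → ℝ} (h : PSD fun x y => F (x - y)) (ξ : V) :
    PSD fun x y => cos (2 * π * ⟪x - y, ξ⟫) * F (x - y) := by
  intro A w
  have h1 := h A fun a => w a * cos (2 * π * ⟪a, ξ⟫)
  have h2 := h A fun a => w a * sin (2 * π * ⟪a, ξ⟫)
  refine (add_nonneg h1 h2).trans_eq ?_
  simp only [← Finset.sum_add_distrib]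
  refine Finset.sum_congr rfl fun a _ => Finset.sum_congr rfl fun b _ => ?_
  rw [inner_sub_left, mul_sub, cos_sub]; ring

theorem bochner {F : V → ℝ} (hc : Continuous F) (hi : Integrable F) {C : ℝ} (hb : ∀ x, |F x| ≤ C)
    (he : ∀ x, F (-x) = F x) (h : PSD fun x y => F (x - y)) :
    ∃ P : Measure V, IsFiniteMeasure P ∧ ∀ x, charFun P ((2 * π) • x) = F x := by
  let G : V → ℝ := fun ξ => ∫ x, cos (2 * π * ⟪x, ξ⟫) * F x
  have i1 : ∀ ξ, Integrable fun x => cos (2 * π * ⟪x, ξ⟫) * F x := fun ξ =>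
    hi.bdd_mul (c := 1) (by fun_prop) (.of_forall fun x => abs_cos_le_one _)
  have i2 : ∀ ξ, Integrable fun x => sin (2 * π * ⟪x, ξ⟫) * F x := fun ξ =>
    hi.bdd_mul (c := 1) (by fun_prop) (.of_forall fun x => abs_sin_le_one _)
  have G0 : ∀ ξ, 0 ≤ G ξ := fun ξ => int_nonneg (C := C) (by fun_prop) (i1 ξ) (fun x => by
    rw [abs_mul]
    exact (mul_le_of_le_one_left (abs_nonneg _) (abs_cos_le_one _)).trans (hb x)) (psd_cos h ξ)
  let f : V → ℂ := fun x => F x
  have hf : Integrable f := hi.ofReal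
  have hG : 𝓕 f = fun ξ => (G ξ : ℂ) := funext fun ξ => by
    have s0 : ∫ x, sin (2 * π * ⟪x, ξ⟫) * F x = 0 := by
      have := integral_neg_eq_self (fun x => sin (2 * π * ⟪x, ξ⟫) * F x) volume
      simp only [inner_neg_left, mul_neg, sin_neg, he, neg_mul, integral_neg] at this
      linarith
    have e : ∀ x, Complex.exp (((-2 * π * ⟪x, ξ⟫ : ℝ) : ℂ) * Complex.I) • f x =
        ((cos (2 * π * ⟪x, ξ⟫) * F x : ℝ) : ℂ) -
          ((sin (2 * π * ⟪x, ξ⟫) * F x : ℝ) : ℂ) * Complex.I := fun x => by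
      rw [Complex.exp_mul_I, ← Complex.ofReal_cos, ← Complex.ofReal_sin, neg_mul, neg_mul, cos_neg,
        sin_neg]
      simp only [f, smul_eq_mul]; push_cast; ring
    rw [fourier_eq']
    simp only [e]
    rw [integral_sub (i1 ξ).ofReal ((i2 ξ).ofReal.mul_const _), integral_mul_const,
      integral_complex_ofReal, integral_complex_ofReal, s0]
    simp [G]
  have Gc : Continuous G := by
    have : Continuous (𝓕 f) := VectorFourier.fourierIntegral_continuous Real.continuous_fourierChar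
      (innerSL ℝ).continuous₂ hf
    rw [hG] at this
    exact Complex.continuous_re.comp this
  have Gb : ∀ ξ, ‖G ξ‖ ≤ ∫ x, ‖F x‖ := fun ξ =>
    norm_integral_le_of_norm_le hi.norm (.of_forall fun x => by
      rw [norm_mul]; exact mul_le_of_le_one_left (norm_nonneg _) (abs_cos_le_one _))
  have T : Tendsto (fun c : ℝ => ∫ w, rexp (-c⁻¹ * ‖w‖ ^ 2) * G w) atTop (𝓝 (F 0)) := by
    have := Real.tendsto_integral_gaussian_smul' hf (v := 0) (by fun_prop)
    refine (Complex.continuous_re.tendsto _ |>.comp this).congr' ?_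
    filter_upwards [Ioi_mem_atTop 0] with c (hc : 0 < c)
    have J : Integrable (fun w : V =>
        Complex.exp (-(c : ℂ)⁻¹ * ‖w‖ ^ 2 + 2 * π * Complex.I * ⟪(0 : V), w⟫)) :=
      GaussianFourier.integrable_cexp_neg_mul_sq_norm_add (by simpa) _ _
    have K : ∫ w, 𝓕 (fun w : V =>
        Complex.exp (-(c : ℂ)⁻¹ * ‖w‖ ^ 2 + 2 * π * Complex.I * ⟪(0 : V), w⟫)) w • f w =
        ∫ w, Complex.exp (-(c : ℂ)⁻¹ * ‖w‖ ^ 2 + 2 * π * Complex.I * ⟪(0 : V), w⟫) • 𝓕 f w := by
      simpa using! (VectorFourier.integral_fourierIntegral_smul_eq_flip (L := innerₗ V)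
        Real.continuous_fourierChar continuous_inner J hf)
    rw [Function.comp_apply, ← Complex.ofReal_re (∫ w, rexp (-c⁻¹ * ‖w‖ ^ 2) * G w),
      ← integral_complex_ofReal]
    congr 1
    refine Eq.trans ?_ (K.trans ?_)
    · congr with w
      rw [fourier_gaussian_innerProductSpace' (by simpa)]
      congr 2
      · simp
      · congr 1; rw [div_inv_eq_mul]; ring
    · congr with w
      simp [hG]
  have Gi : Integrable G := by
    refine ⟨Gc.aestronglyMeasurable, ?_⟩
    have T' := T.comp tendsto_natCast_atTop_atTop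
    have l1 : ∫⁻ w, ‖G w‖ₑ ≤
        liminf (fun k : ℕ => ∫⁻ w, ‖rexp (-(k : ℝ)⁻¹ * ‖w‖ ^ 2) * G w‖ₑ) atTop := by
      refine le_trans (le_of_eq (lintegral_congr fun w => ?_))
        (lintegral_liminf_le fun k => by fun_prop)
      have := ((tendsto_inv_atTop_nhds_zero_nat (𝕜 := ℝ)).neg.mul_const (‖w‖ ^ 2)).rexp.mul_const
        (G w)
      simp only [neg_zero, zero_mul, exp_zero, one_mul] at this
      exact this.enorm.liminf_eq.symm
    refine l1.trans_lt (lt_of_le_of_lt (liminf_le_of_frequently_le' (x := ENNReal.ofReal (F 0 + 1))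
      (Eventually.frequently ?_)) ENNReal.ofReal_lt_top)
    filter_upwards [T'.eventually (gt_mem_nhds (lt_add_one _)), eventually_gt_atTop 0] with k hk hk0
    have i3 : Integrable fun w => rexp (-(k : ℝ)⁻¹ * ‖w‖ ^ 2) * G w :=
      (gauss_int (by positivity)).mul_bdd Gc.aestronglyMeasurable (.of_forall Gb)
    rw [← ofReal_integral_norm_eq_lintegral_enorm i3]
    refine ENNReal.ofReal_le_ofReal (le_trans (le_of_eq ?_) hk.le)
    congr with w
    exact Real.norm_of_nonneg (mul_nonneg (exp_pos _).le (G0 w))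
  have inv := Continuous.fourierInv_fourier_eq (f := f) (by fun_prop) hf (by
    rw [hG]; exact Gi.ofReal)
  refine ⟨volume.withDensity fun ξ => ENNReal.ofReal (G ξ),
    isFiniteMeasure_withDensity_ofReal Gi.2, fun x => ?_⟩
  have := congrFun inv x
  rw [fourierInv_eq', hG] at this
  rw [charFun_apply, integral_withDensity_eq_integral_toReal_smul (by fun_prop) (by simp)]
  refine Eq.trans ?_ this
  congr with ξ
  rw [ENNReal.toReal_ofReal (G0 ξ), inner_smul_right]
  simp [mul_comm]

end Pool.Agent.H84.Boch
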