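import Mathlib

/-! Baire property of analytic sets, Kuratowski–Ulam and Mycielski. -/

namespace Pool.Agent.H84.Bp

open Set Filter Topology TopologicalSpace MeasureTheory

variable {X : Type} [MetricSpace X] [SecondCountableTopology X]

/-- Points at which `A` is locally non-meagre. -/
def ker (A : Set X) : Set X := {x | ∀ U, IsOpen U → x ∈ U → ¬ IsMeagre (A ∩ U)}

theorem ker_meagre (A : Set X) : IsMeagre (A \ ker A) := by
  refine (isMeagre_biUnion (I := {U ∈ countableBasis X | IsMeagre (A ∩ U)}) (f := fun U => A ∩ U)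
    ((countable_countableBasis X).mono fun _ h => h.1) fun U hU => hU.2).mono fun x hx => ?_
  have := hx.2
  simp only [ker, mem_setOf_eq, not_forall, not_not] at this
  obtain ⟨U, hU, hxU, hm⟩ := this
  obtain ⟨V, hV, hxV, hVU⟩ := (isBasis_countableBasis X).exists_subset_of_mem_open hxU hU
  exact mem_iUnion₂.2 ⟨V, ⟨hV, hm.mono (inter_subset_inter_right _ hVU)⟩, hx.1, hxV⟩

omit [SecondCountableTopology X] in
theorem ker_closed (A : Set X) : IsClosed (ker A) :=
  isClosed_of_closure_subset fun _ hx U hU hxU =>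
    let ⟨_, hy⟩ := mem_closure_iff.1 hx U hU hxU
    hy.2 U hU hy.1

omit [SecondCountableTopology X] in
theorem ker_sub (A : Set X) : ker A ⊆ closure A := fun _ hx => mem_closure_iff.2 fun U hU hxU =>
  inter_comm A U ▸ nonempty_of_not_isMeagre (hx U hU hxU)

omit [SecondCountableTopology X] in
theorem diff_meagre {A B : Set X} (h : A =ᶠ[residual X] B) : IsMeagre (A \ B) :=
  mem_of_superset h fun _ hx hx' => hx'.2 (Eq.mp hx hx'.1)

theorem ker_iUnion (A : ℕ → Set X) : IsMeagre (ker (⋃ n, A n) \ ⋃ n, ker (A n)) := by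
  borelize X
  obtain ⟨U, hU, h⟩ := ((ker_closed (⋃ n, A n)).measurableSet.diff
    (MeasurableSet.iUnion fun n => (ker_closed (A n)).measurableSet)).residualEq_isOpen
  have h1 : IsMeagre ((⋃ n, A n) ∩ U) := by
    refine ((isMeagre_iUnion fun n => ker_meagre (A n)).union (diff_meagre h.symm)).mono
      fun x hx => ?_
    by_cases hx' : x ∈ ker (⋃ n, A n) \ ⋃ n, ker (A n)
    · obtain ⟨n, hn⟩ := mem_iUnion.1 hx.1
      exact Or.inl (mem_iUnion.2 ⟨n, hn, fun h' => hx'.2 (mem_iUnion.2 ⟨n, h'⟩)⟩)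
    · exact Or.inr ⟨hx.2, hx'⟩
  exact (diff_meagre h).mono fun x hx => And.intro hx fun hxU => hx.1 U hU hxU h1

theorem bp {A : Set X} (hA : AnalyticSet A) : ∃ U, IsOpen U ∧ A =ᶠ[residual X] U := by
  borelize X
  rw [AnalyticSet] at hA
  rcases hA with rfl | ⟨f, hf, rfl⟩
  · exact ⟨∅, isOpen_empty, EventuallyEq.rfl⟩
  let C : List ℕ → Set X := fun l => f '' {α | PiNat.res α l.length = l}
  have hC : ∀ l, C l = ⋃ k, C (k :: l) := by
    intro l
    simp only [C]
    rw [← image_iUnion]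
    congr 1
    ext α
    simp only [mem_setOf_eq, mem_iUnion, List.length_cons, PiNat.res_succ, List.cons.injEq]
    exact ⟨fun h => ⟨_, rfl, h⟩, fun ⟨_, h⟩ => h.2⟩
  have hM : IsMeagre (⋃ l, ker (C l) \ ⋃ k, ker (C (k :: l))) :=
    isMeagre_iUnion fun l => by rw [hC l]; exact ker_iUnion _
  have h0 : C [] = range f := by simp [C]
  obtain ⟨U, hU, h⟩ := (ker_closed (range f)).measurableSet.residualEq_isOpen
  refine ⟨U, hU, EventuallyEq.trans ?_ h⟩
  filter_upwards [hM, ker_meagre (range f)] with y hy hy'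
  refine propext ⟨fun h1 => by_contra fun h2 => hy' ⟨h1, h2⟩, fun h1 => ?_⟩
  have st : ∀ l, y ∈ ker (C l) → ∃ k, y ∈ ker (C (k :: l)) := fun l hl => by_contra fun hn =>
    hy (mem_iUnion.2 ⟨l, hl, fun h' => hn (mem_iUnion.1 h')⟩)
  choose! g hg using st
  let L : ℕ → List ℕ := fun n => n.rec [] fun _ l => g l :: l
  have hL : ∀ n, y ∈ ker (C (L n)) ∧ PiNat.res (fun n => g (L n)) n = L n := by
    intro n
    induction n with
    | zero => exact ⟨h0 ▸ h1, rfl⟩
    | succ n ih => exact ⟨hg _ ih.1, by rw [PiNat.res_succ, ih.2]⟩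
  have hx : ∀ n : ℕ, ∃ x, PiNat.res x n = PiNat.res (fun n => g (L n)) n ∧
      dist y (f x) < 1 / ((n : ℝ) + 1) := by
    intro n
    obtain ⟨_, ⟨x, hx, rfl⟩, h⟩ := Metric.mem_closure_iff.1 (ker_sub _ (hL n).1) _
      (Nat.one_div_pos_of_nat (n := n))
    rw [mem_setOf_eq, ← (hL n).2, PiNat.res_length] at hx
    exact ⟨x, hx, h⟩
  choose x hx hxd using hx
  have h2 : Tendsto x atTop (𝓝 fun n => g (L n)) := tendsto_pi_nhds.2 fun i =>
    tendsto_const_nhds.congr' ((eventually_gt_atTop i).mono fun n hn =>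
      (PiNat.res_eq_res.1 (hx n) hn).symm)
  have h3 : Tendsto (fun n => f (x n)) atTop (𝓝 y) := by
    rw [tendsto_iff_dist_tendsto_zero]
    refine squeeze_zero (fun _ => dist_nonneg) (fun n => ?_)
      tendsto_one_div_add_atTop_nhds_zero_nat
    rw [dist_comm]; exact (hxd _).le
  exact ⟨_, tendsto_nhds_unique ((hf.tendsto _).comp h2) h3⟩

theorem ku {R : Set (X × X)} (hR : R ∈ residual (X × X)) :
    {x | {y | (x, y) ∈ R} ∈ residual X} ∈ residual X := by
  obtain ⟨S, ho, hd, hc, hS⟩ := mem_residual_iff.1 hR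
  have h1 : ∀ G ∈ S, ∀ᶠ x in residual X, {y | (x, y) ∈ G} ∈ residual X := by
    intro G hG
    have h2 : ∀ V ∈ countableBasis X, ∀ᶠ x in residual X, x ∈ Prod.fst '' (G ∩ univ ×ˢ V) := by
      intro V hV
      have hVo := isOpen_of_mem_countableBasis hV
      refine residual_of_dense_open (isOpenMap_fst _ ((ho G hG).inter (isOpen_univ.prod hVo)))
        (dense_iff_inter_open.2 fun U hU hne => ?_)
      obtain ⟨p, hp, hpG⟩ := (hd G hG).inter_open_nonempty _ (hU.prod hVo)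
        (hne.prod (nonempty_of_mem_countableBasis hV))
      exact ⟨p.1, hp.1, p, ⟨hpG, trivial, hp.2⟩, rfl⟩
    filter_upwards [(eventually_countable_ball (countable_countableBasis X)).2 h2] with x hx
    refine residual_of_dense_open ((ho G hG).preimage (Continuous.prodMk_right x))
      ((isBasis_countableBasis X).dense_iff.2 fun V hV _ => ?_)
    obtain ⟨p, hp, rfl⟩ := hx V hV
    exact ⟨p.2, hp.2.2, hp.1⟩
  filter_upwards [(eventually_countable_ball hc).2 h1] with x hx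
  filter_upwards [(eventually_countable_ball hc).2 hx] with y hy
  exact hS hy

theorem ku' [CompleteSpace X] {E : Set (X × X)} (hE : AnalyticSet E)
    (h : ∀ x, IsMeagre {y | (x, y) ∈ E}) : IsMeagre E := by
  obtain ⟨W, hW, hEW⟩ := bp hE
  rcases W.eq_empty_or_nonempty with rfl | ⟨p, hp⟩
  · simpa using diff_meagre hEW
  obtain ⟨U, V, hU, hV, h1, h2, hUV⟩ := isOpen_prod_iff.1 hW p.1 p.2 hp
  obtain ⟨x, hxU, hx⟩ := (dense_of_mem_residual (ku hEW)).inter_open_nonempty U hU ⟨_, h1⟩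
  obtain ⟨y, hyV, hy, hy'⟩ := (dense_of_mem_residual (inter_mem hx (h x))).inter_open_nonempty V hV
    ⟨_, h2⟩
  exact (hy' (Eq.mpr hy (hUV (mk_mem_prod hxU hyV)))).elim

omit [SecondCountableTopology X] in
theorem shrink {ι : Type} {G : ℕ → Set (X × X)} (ho : ∀ k, IsOpen (G k)) (hd : ∀ k, Dense (G k))
    {U : ι → Set X} (hU : ∀ s, IsOpen (U s) ∧ (U s).Nonempty) {F : Set (ι × ι × ℕ)}
    (hF : F.Finite) : ∃ V : ι → Set X, (∀ s, (IsOpen (V s) ∧ (V s).Nonempty) ∧ V s ⊆ U s) ∧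
      ∀ q ∈ F, q.1 ≠ q.2.1 → V q.1 ×ˢ V q.2.1 ⊆ G q.2.2 := by
  classical
  induction F, hF using Finite.induction_on with
  | empty => exact ⟨U, fun s => ⟨hU s, Subset.rfl⟩, by simp⟩
  | @insert q F _ _ ih =>
    obtain ⟨V, h1, h2⟩ := ih
    obtain ⟨s, t, k⟩ := q
    by_cases hst : s = t
    · exact ⟨V, h1, forall_mem_insert.2 ⟨fun h => absurd hst h, h2⟩⟩
    have ho' := ((h1 s).1.1.prod (h1 t).1.1)
    obtain ⟨p, hp⟩ := (hd k).inter_open_nonempty _ ho' ((h1 s).1.2.prod (h1 t).1.2)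
    obtain ⟨a, b, ha, hb, hpa, hpb, hab⟩ := isOpen_prod_iff.1 (ho'.inter (ho k)) p.1 p.2 hp
    let V' : ι → Set X := fun u => if u = s then a else if u = t then b else V u
    have hV' : ∀ u, (IsOpen (V' u) ∧ (V' u).Nonempty) ∧ V' u ⊆ V u := by
      intro u
      simp only [V']
      split_ifs with h h'
      · exact ⟨⟨ha, _, hpa⟩, fun x hx => h ▸ (hab (mk_mem_prod hx hpb)).1.1⟩
      · exact ⟨⟨hb, _, hpb⟩, fun x hx => h' ▸ (hab (mk_mem_prod hpa hx)).1.2⟩
      · exact ⟨(h1 u).1, Subset.rfl⟩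
    refine ⟨V', fun u => ⟨(hV' u).1, (hV' u).2.trans (h1 u).2⟩, forall_mem_insert.2
      ⟨fun _ => ?_, fun q hq hne => (prod_mono (hV' _).2 (hV' _).2).trans (h2 q hq hne)⟩⟩
    simp only [V', if_true, if_neg (Ne.symm hst)]
    exact hab.trans inter_subset_right

omit [SecondCountableTopology X] in
theorem myc_step {G : ℕ → Set (X × X)} (ho : ∀ k, IsOpen (G k)) (hd : ∀ k, Dense (G k)) (n : ℕ)
    (U : List Bool → Set X) (hU : ∀ s, IsOpen (U s) ∧ (U s).Nonempty) :
    ∃ U' : List Bool → Set X, (∀ s, IsOpen (U' s) ∧ (U' s).Nonempty) ∧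
      ∀ s : List Bool, s.length = n + 1 → closure (U' s) ⊆ U s.tail ∧
        (∀ x ∈ U' s, ∀ y ∈ U' s, dist x y ≤ 1 / (n + 1)) ∧ ∀ t : List Bool, t.length = n + 1 →
          s ≠ t → ∀ k ≤ n, ∀ x ∈ U' s, ∀ y ∈ U' t, (x, y) ∈ G k := by
  have hF := List.finite_length_eq Bool (n + 1)
  obtain ⟨V, h1, h2⟩ := shrink ho hd (fun s : List Bool => hU s.tail)
    (hF.prod (hF.prod (finite_Iic n)))
  have h3 : ∀ s, ∃ p ε, 0 < ε ∧ ε < 1 / (n + 1 : ℝ) / 2 ∧ Metric.closedBall p ε ⊆ V s := by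
    intro s
    obtain ⟨p, hp⟩ := (h1 s).1.2
    obtain ⟨ε, h, h'⟩ := (Eventually.and (Ioo_mem_nhdsGT (by positivity : (0 : ℝ) < 1 / (n + 1) / 2))
      (eventually_nhdsWithin_of_eventually_nhds
        (eventually_closedBall_subset ((h1 s).1.1.mem_nhds hp)))).exists
    exact ⟨p, ε, h.1, h.2, h'⟩
  choose p ε h4 h5 h6 using h3
  have h7 : ∀ s, Metric.ball (p s) (ε s) ⊆ V s := fun s =>
    Metric.ball_subset_closedBall.trans (h6 s)
  refine ⟨fun s => Metric.ball (p s) (ε s), fun s => ⟨Metric.isOpen_ball, _,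
    Metric.mem_ball_self (h4 s)⟩, fun s hs => ⟨Metric.closure_ball_subset_closedBall.trans
      ((h6 s).trans (h1 s).2), fun x hx y hy => ?_, fun t ht hst k hk x hx y hy =>
        h2 (s, t, k) ⟨hs, ht, hk⟩ hst (mk_mem_prod (h7 s hx) (h7 t hy))⟩⟩
  linarith [dist_triangle_right x y (p s), Metric.mem_ball.1 hx, Metric.mem_ball.1 hy, h5 s]

omit [SecondCountableTopology X] in
theorem mycielski [CompleteSpace X] [Nonempty X] {E : Set (X × X)} (hE : IsMeagre E) :
    ∃ θ : (ℕ → Bool) → X, ∀ α β, (θ α, θ β) ∈ E → α = β := by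
  obtain ⟨S0, ho, hd, hc, hS⟩ := mem_residual_iff.1 hE
  obtain ⟨G, hG⟩ := (hc.insert univ).exists_eq_range (insert_nonempty _ _)
  have hG' : ∀ k, G k ∈ insert univ S0 := fun k => hG ▸ mem_range_self k
  choose! S h1 h2 h3 h4 using myc_step (G := G)
    (fun k => (hG' k).elim (fun h => h ▸ isOpen_univ) (ho _))
    fun k => (hG' k).elim (fun h => h ▸ dense_univ) (hd _)
  let T : ℕ → List Bool → Set X := fun n => n.rec (fun _ => univ) S
  have hT : ∀ n s, IsOpen (T n s) ∧ (T n s).Nonempty := fun n => by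
    induction n with
    | zero => exact fun _ => ⟨isOpen_univ, univ_nonempty⟩
    | succ n ih => exact h1 _ _ ih
  let A : List Bool → Set X := fun l => T l.length l
  have h5 : CantorScheme.VanishingDiam A := fun α => by
    rw [← tendsto_add_atTop_iff_nat 1]
    refine tendsto_of_tendsto_of_tendsto_of_le_of_le tendsto_const_nhds
      (by simpa using ENNReal.tendsto_ofReal tendsto_one_div_add_atTop_nhds_zero_nat)
      (fun _ => zero_le) fun n => Metric.ediam_le fun x hx y hy => ?_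
    simp only [A, PiNat.res_length] at hx hy
    rw [edist_dist, ← one_div]
    exact ENNReal.ofReal_le_ofReal (h3 n _ (hT n) _ (PiNat.res_length _ _) x hx y hy)
  have h6 : (CantorScheme.inducedMap A).1 = univ :=
    CantorScheme.ClosureAntitone.map_of_vanishingDiam h5
      (fun l b => h2 l.length _ (hT _) (b :: l) rfl) fun l => (hT l.length l).2
  refine ⟨fun α => (CantorScheme.inducedMap A).2 ⟨α, h6 ▸ mem_univ α⟩,
    fun α β h => funext fun i => by_contra fun h7 => hS (fun g hg => ?_) h⟩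
  obtain ⟨k, rfl⟩ : g ∈ range G := hG ▸ mem_insert_of_mem _ hg
  have h8 := fun γ => CantorScheme.map_mem (A := A) ⟨γ, h6 ▸ mem_univ γ⟩ (max i k + 1)
  simp only [A, PiNat.res_length] at h8
  exact h4 (max i k) _ (hT _) _ (PiNat.res_length _ _) _ (PiNat.res_length _ _)
    (fun h => h7 (PiNat.res_eq_res.1 h (by omega))) k (le_max_right _ _) _ (h8 α) _ (h8 β)

end Pool.Agent.H84.Bp
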