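import Pool.Agent.H84.DimC

/-! A game on the binary tree and a lemma on sequences of ultrafilters. -/

namespace Pool.Agent.H84.CcA

open Set Topology Filter PiNat Pool.Agent.H84.DimA Pool.Agent.H84.DimC

abbrev N := Finset ℕ

def ι (s : N) : C := fun i => decide (i ∈ s)

theorem ι_inj : Function.Injective ι := fun s t h => Finset.ext fun i => by
  simpa [ι] using congrFun h i

theorem ι_ne {x : C} (hx : ∀ n, ∃ k, n ≤ k ∧ x k = true) (s : N) : x ≠ ι s := by
  intro h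
  obtain ⟨k, h1, h2⟩ := hx (s.sup id + 1)
  rw [h] at h2
  have : k ≤ s.sup id := Finset.le_sup (f := id) (by simpa [ι] using h2)
  omega

noncomputable def F (r : ℕ → ℝ) (z : N × N) : ℝ := sn r (ι z.1) (firstDiff (ι z.1) (ι z.2))

theorem sn_nonneg (r : ℕ → ℝ) (x : C) (n : ℕ) : 0 ≤ sn r x n := sn_mono r x (Nat.zero_le n)

theorem sn_le {r : ℕ → ℝ} (hr1 : ∀ n, r n ≤ 1) (x : C) (n : ℕ) : sn r x n ≤ 1 := by
  induction n with
  | zero => exact zero_le_one
  | succ n ih =>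
    simp only [sn]
    split_ifs
    · exact max_le ih (hr1 n)
    · exact ih

theorem fd_min {x u v : C} (hu : x ≠ u) (hv : x ≠ v) (h : firstDiff x u ≠ firstDiff x v) :
    firstDiff u v = min (firstDiff x u) (firstDiff x v) := by
  have h0 : u ≠ v := fun e => h (by rw [e])
  refine le_antisymm ?_ ((mem_cylinder_iff_le_firstDiff h0 _).1 fun i hi => ?_)
  · rcases lt_or_gt_of_ne h with h | h
    · rw [min_eq_left h.le]
      refine fd_le ?_
      rw [← apply_eq_of_lt_firstDiff h]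
      exact (apply_firstDiff_ne hu).symm
    · rw [min_eq_right h.le]
      refine fd_le ?_
      rw [← apply_eq_of_lt_firstDiff h]
      exact apply_firstDiff_ne hv
  · rw [← apply_eq_of_lt_firstDiff (hi.trans_le (min_le_left _ _)),
      ← apply_eq_of_lt_firstDiff (hi.trans_le (min_le_right _ _))]

theorem F_min (r : ℕ → ℝ) {x : C} {s t : N} (hu : x ≠ ι s) (hv : x ≠ ι t)
    (h : firstDiff x (ι s) ≠ firstDiff x (ι t)) :
    F r (s, t) = sn r x (min (firstDiff x (ι s)) (firstDiff x (ι t))) := by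
  simp only [F]
  rw [fd_min hu hv h]
  exact sn_congr r _ fun i hi => (apply_eq_of_lt_firstDiff (hi.trans_le (min_le_left _ _))).symm

theorem game {r : ℕ → ℝ} (hr1 : ∀ n, r n ≤ 1) (hr0 : ∀ n, r (2 * n + 1) = 0)
    (hrd : ∀ a b : ℝ, a < b → 0 ≤ b → b ≤ 1 → ∀ N, ∃ n, N ≤ n ∧ a < r (2 * n) ∧ r (2 * n) ≤ b)
    (W : Set (N × N)) (hW1 : ∀ z ∈ W, F r z < 2 / 3) (hW2 : ∀ z ∉ W, 1 / 3 < F r z) (y : C)
    (hy : ∀ n, ∃ k, n ≤ k ∧ y k = true) :
    ∃ (x : C) (s t : ℕ → N) (l : ℕ → ℕ), (∀ n, x (2 * n + 1) = y n) ∧ StrictMono l ∧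
      (∀ k, firstDiff x (ι (s k)) = l k) ∧ (∀ k, firstDiff x (ι (t k)) = l k) ∧
      (∀ k, (s k, t k) ∉ W) ∧ (∀ j k, j ≠ k → (s j, t k) ∈ W) ∧
      Tendsto (fun k => F r (s k, t k)) atTop (𝓝 (⨆ n, sn r x n)) := by
  classical
  let S : C → ℕ → Set ℝ := fun x n =>
    F r '' {z | z.1 ≠ z.2 ∧ ι z.1 ∈ cylinder x n ∧ ι z.2 ∈ cylinder x n ∧ z ∉ W}
  have hSne : ∀ x n, (S x n).Nonempty := by
    intro x n
    obtain ⟨k, h1, h2, -⟩ := hrd (2 / 3) 1 (by norm_num) zero_le_one le_rfl n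
    let t : N := insert (2 * k) ((Finset.range n).filter fun i => x i = true)
    have ht : 2 * k + 1 ∉ t := by simp [t]; omega
    have hc : ∀ i < n, ι t i = x i := by
      intro i hi
      have : i ≠ 2 * k := by omega
      simp [ι, t, this, hi]
    have hc' : ∀ i, i ≠ 2 * k + 1 → ι (insert (2 * k + 1) t) i = ι t i := by
      intro i hi; simp [ι, hi]
    have hne : insert (2 * k + 1) t ≠ t := fun e => ht (e ▸ Finset.mem_insert_self _ _)
    refine ⟨_, (insert (2 * k + 1) t, t), ⟨hne, fun i hi => ?_, hc, fun h => ?_⟩, rfl⟩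
    · rw [← hc i hi]; exact hc' i (by omega)
    · have h3 := hW1 _ h
      have h4 : 2 * k + 1 ≤ firstDiff (ι (insert (2 * k + 1) t)) (ι t) :=
        (mem_cylinder_iff_le_firstDiff (ι_inj.ne hne) _).1 fun i hi => hc' i (by omega)
      have h5 := sn_mono r (ι (insert (2 * k + 1) t)) h4
      have h6 : ι (insert (2 * k + 1) t) (2 * k) = true := by simp [ι, t]
      simp only [sn, h6, if_true] at h5
      have := le_max_right (sn r (ι (insert (2 * k + 1) t)) (2 * k)) (r (2 * k))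
      simp only [F] at h3
      linarith
  have hS3 : ∀ x n, ∀ z ∈ S x n, 1 / 3 ≤ z := by
    rintro x n _ ⟨z, hz, rfl⟩; exact (hW2 z hz.2.2.2).le
  have hSb : ∀ x n, BddBelow (S x n) := fun x n => ⟨_, hS3 x n⟩
  let m : C → ℕ → ℝ := fun x n => sInf (S x n)
  have hm0 : ∀ x n, 1 / 3 ≤ m x n := fun x n => le_csInf (hSne x n) (hS3 x n)
  have hm1 : ∀ x n, m x n ≤ 1 := fun x n => by
    obtain ⟨_, z, hz, rfl⟩ := hSne x n
    exact (csInf_le (hSb x n) ⟨z, hz, rfl⟩).trans (sn_le hr1 _ _)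
  have hmm : ∀ x, Monotone (m x) := fun x a b hab =>
    csInf_le_csInf (hSb x a) (hSne x b) (image_mono fun z hz =>
      ⟨hz.1, cylinder_anti _ hab hz.2.1, cylinder_anti _ hab hz.2.2.1, hz.2.2.2⟩)
  have hcong : ∀ n (f f' : C), (∀ i < n, f i = f' i) → m f n = m f' n := by
    intro n f f' h
    simp only [m, S, mem_cylinder_iff_eq.1 (mem_cylinder_iff.2 h)]
  let Φ : ℕ → C → Bool := fun n f => if n % 2 = 0 then decide (r n < m f n) else y (n / 2)
  obtain ⟨x, hx⟩ : ∃ x : C, ∀ n, x n = Φ n x := by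
    refine NCard.exists_rec false Φ fun n f f' h => ?_
    simp only [Φ]
    rw [hcong n f f' h]
  have hodd : ∀ n, x (2 * n + 1) = y n := by
    intro n
    have h1 : (2 * n + 1) % 2 ≠ 0 := by omega
    have h2 : (2 * n + 1) / 2 = n := by omega
    rw [hx]; simp only [Φ, h1, h2, if_false]
  have hxne : ∀ s, x ≠ ι s := ι_ne fun n => by
    obtain ⟨k, h1, h2⟩ := hy n
    exact ⟨2 * k + 1, by omega, by rw [hodd, h2]⟩
  have hlt : ∀ n, sn r x n < m x n := by
    intro n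
    induction n with
    | zero => have := hm0 x 0; simp only [sn]; linarith
    | succ n ih =>
      have h1 := hmm x (Nat.le_succ n)
      simp only [sn]
      split_ifs with h
      · refine max_lt (ih.trans_le h1) ?_
        rcases Nat.even_or_odd' n with ⟨k, rfl | rfl⟩
        · have h2 : (2 * k) % 2 = 0 := by omega
          rw [hx] at h
          simp only [Φ, h2, if_true, decide_eq_true_eq] at h
          exact h.trans_le h1
        · rw [hr0]; linarith [hm0 x (2 * k + 1 + 1)]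
      · exact ih.trans_le h1
  have hbdd : BddAbove (range (sn r x)) := ⟨1, by rintro _ ⟨n, rfl⟩; exact sn_le hr1 x n⟩
  have hmb : BddAbove (range (m x)) := ⟨1, by rintro _ ⟨n, rfl⟩; exact hm1 x n⟩
  have hmlim : Tendsto (m x) atTop (𝓝 (⨆ n, m x n)) := tendsto_atTop_ciSup (hmm x) hmb
  have heq : (⨆ n, sn r x n) = ⨆ n, m x n := by
    refine le_antisymm (ciSup_mono hmb fun n => (hlt n).le)
      (le_of_forall_lt_imp_le_of_dense fun a ha => ?_)
    obtain ⟨N, hN⟩ := exists_lt_of_lt_ciSup ha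
    have h0 : max a 0 < m x N := max_lt hN (by linarith [hm0 x N])
    have h0' := le_max_right a 0
    obtain ⟨n, h1, h2, h3⟩ := hrd (max a 0) ((max a 0 + m x N) / 2) (by linarith) (by linarith)
      (by linarith [hm1 x N]) N
    have h4 : x (2 * n) = true := by
      have h2 : (2 * n) % 2 = 0 := by omega
      rw [hx]
      simp only [Φ, h2, if_true, decide_eq_true_eq]
      linarith [hmm x (show N ≤ 2 * n by omega)]
    refine le_trans ?_ (le_ciSup hbdd (2 * n + 1))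
    simp only [sn, h4, if_true]
    exact le_max_of_le_right ((le_max_left _ _).trans h2.le)
  have hA : ∀ s t : N, s ≠ t → ι s ∈ cylinder x (firstDiff (ι s) (ι t)) → (s, t) ∈ W := by
    intro s t hst hs
    by_contra hc
    have h1 : F r (s, t) = sn r x (firstDiff (ι s) (ι t)) := sn_congr r _ hs
    have h2 := csInf_le (hSb x (firstDiff (ι s) (ι t))) ⟨(s, t), ⟨hst, hs, fun i hi => by
      rw [← hs i hi]; exact (apply_eq_of_lt_firstDiff hi).symm, hc⟩, rfl⟩
    exact (h2.trans_lt (h1 ▸ hlt _)).false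
  have hB : ∀ n : ℕ, ∃ s t : N, (s, t) ∉ W ∧ n ≤ firstDiff x (ι s) ∧
      firstDiff x (ι t) = firstDiff x (ι s) ∧ m x n ≤ F r (s, t) ∧
      F r (s, t) < m x n + 1 / ((n : ℝ) + 1) := by
    intro n
    obtain ⟨_, ⟨⟨s, t⟩, hz, rfl⟩, h⟩ := exists_lt_of_csInf_lt (hSne x n)
      (lt_add_of_pos_right _ (show (0 : ℝ) < 1 / ((n : ℝ) + 1) by positivity))
    refine ⟨s, t, hz.2.2.2, (mem_cylinder_iff_le_firstDiff (hxne s) _).1
      ((mem_cylinder_comm _ _ _).1 hz.2.1), ?_, csInf_le (hSb x n) ⟨_, hz, rfl⟩, h⟩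
    have h1 : firstDiff x (ι s) < firstDiff (ι s) (ι t) := by
      by_contra hc
      exact hz.2.2.2 (hA s t hz.1 ((mem_cylinder_comm _ _ _).1
        ((mem_cylinder_iff_le_firstDiff (hxne s) _).2 (not_lt.1 hc))))
    exact (fd_eq (hxne s) (self_mem_cylinder _ _) fun i hi =>
      (apply_eq_of_lt_firstDiff (by omega)).symm).2
  choose s t h1 h2 h3 h4 h5 using hB
  let b : ℕ → ℕ := fun k => Nat.rec 0 (fun _ b => firstDiff x (ι (s b)) + 1) k
  have hb : ∀ k, b (k + 1) = firstDiff x (ι (s (b k))) + 1 := fun _ => rfl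
  have hl : StrictMono fun k => firstDiff x (ι (s (b k))) := strictMono_nat_of_lt_succ fun k => by
    have := h2 (b (k + 1)); rw [hb] at this ⊢; omega
  have hbt : Tendsto b atTop atTop :=
    (strictMono_nat_of_lt_succ fun k => by have := h2 (b k); rw [hb]; omega).tendsto_atTop
  refine ⟨x, fun k => s (b k), fun k => t (b k), _, hodd, hl, fun _ => rfl, fun k => h3 _,
    fun k => h1 _, fun j k hjk => ?_, ?_⟩
  · have hne : firstDiff x (ι (s (b j))) ≠ firstDiff x (ι (t (b k))) := by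
      rw [h3]; exact hl.injective.ne hjk
    refine hA (s (b j)) (t (b k)) (fun e => hne (by rw [e])) ?_
    rw [fd_min (hxne _) (hxne _) hne]
    exact fun i hi => (apply_eq_of_lt_firstDiff (hi.trans_le (min_le_left _ _))).symm
  · rw [heq]
    have := hmlim.add tendsto_one_div_add_atTop_nhds_zero_nat
    rw [add_zero] at this
    exact (tendsto_of_tendsto_of_tendsto_of_le_of_le hmlim this h4 fun n => (h5 n).le).comp hbt

theorem ultra_seq (𝓕 : Ultrafilter ℕ) (u : ℕ → Ultrafilter ℕ) (hu : ∀ j, u j ≠ 𝓕) :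
    ∃ B, B ∉ 𝓕 ∧ ∃ᶠ j in atTop, B ∈ u j := by
  classical
  by_contra hc
  push Not at hc
  have h1 : ∀ j, ∃ B, B ∈ u j ∧ B ∉ 𝓕 := by
    intro j
    by_contra h
    push Not at h
    exact hu j (Ultrafilter.eq_of_le h).symm
  choose B hB1 hB2 using h1
  have h2 : ∀ (D : {D : Set ℕ // D ∉ 𝓕}) (n : ℕ), ∃ j, n ≤ j ∧ D.1 ∉ u j := fun D n => by
    obtain ⟨j, hj⟩ := ((hc D.1 D.2).and (eventually_ge_atTop n)).exists
    exact ⟨j, hj.2, hj.1⟩
  choose J hJ1 hJ2 using h2
  let D : ℕ → {D : Set ℕ // D ∉ 𝓕} := fun k => Nat.rec ⟨∅, Ultrafilter.empty_notMem⟩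
    (fun k D => ⟨D.1 ∪ B (J D k), fun h => (Ultrafilter.union_mem_iff.1 h).elim D.2 (hB2 _)⟩) k
  have hD : ∀ k, (D (k + 1)).1 = (D k).1 ∪ B (J (D k) k) := fun _ => rfl
  have hmono : Monotone fun k => (D k).1 :=
    monotone_nat_of_le_succ fun k => by rw [hD]; exact subset_union_left
  have hE : ∀ k, (D (k + 1)).1 \ (D k).1 ∈ u (J (D k) k) := fun k =>
    mem_of_superset (inter_mem (hB1 _) (Ultrafilter.compl_mem_iff_notMem.2 (hJ2 (D k) k)))
      fun a ha => ⟨Or.inr ha.1, ha.2⟩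
  have key : ∀ c : ℕ, (⋃ k, (D (2 * k + c + 1)).1 \ (D (2 * k + c)).1) ∈ 𝓕 := by
    intro c
    by_contra h
    obtain ⟨n, hn⟩ := eventually_atTop.1 (hc _ h)
    exact hn _ ((show n ≤ 2 * n + c by omega).trans (hJ1 (D (2 * n + c)) (2 * n + c)))
      (mem_of_superset (hE (2 * n + c)) (subset_iUnion
        (fun k => (D (2 * k + c + 1)).1 \ (D (2 * k + c)).1) n))
  obtain ⟨a, h3, h4⟩ := Ultrafilter.nonempty_of_mem (inter_mem (key 0) (key 1))
  obtain ⟨j, hj⟩ := mem_iUnion.1 h3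
  obtain ⟨k, hk⟩ := mem_iUnion.1 h4
  by_cases h : j ≤ k
  · exact hk.2 (hmono (show 2 * j + 0 + 1 ≤ 2 * k + 1 by omega) hj.1)
  · exact hj.2 (hmono (show 2 * k + 1 + 1 ≤ 2 * j + 0 by omega) hk.1)

end Pool.Agent.H84.CcA
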