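import Mathlib

/-! Covering dimension through finite cozero covers. -/

namespace Pool.Agent.H84.CcDefs

/-- `U` is a cozero set of `X`. -/
def Cozero {X : Type} [TopologicalSpace X] (U : Set X) : Prop :=
  ∃ f : X → ℝ, Continuous f ∧ U = {x | f x ≠ 0}

/-- `dim X ≤ n`: every finite cozero cover has a finite cozero refinement in which each point lies
in at most `n + 1` members. -/
def DimLE (X : Type) [TopologicalSpace X] (n : ℕ) : Prop :=
  ∀ (m : ℕ) (U : Fin m → Set X), (∀ i, Cozero (U i)) → (⋃ i, U i) = Set.univ →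
    ∃ (k : ℕ) (V : Fin k → Set X), (∀ j, Cozero (V j)) ∧ (⋃ j, V j) = Set.univ ∧
      (∀ j, ∃ i, V j ⊆ U i) ∧ ∀ x, {j | x ∈ V j}.ncard ≤ n + 1

end Pool.Agent.H84.CcDefs
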