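import Pool.Agent.H84.CcA
import Pool.Agent.H84.CcDefs

/-! Two dense subspaces of the space of ultrafilters on a countable set, one countably compact,
whose product has positive dimension. -/

namespace Pool.Agent.H84.CcB

open Set Topology Filter PiNat Pool.Agent.H84.DimA Pool.Agent.H84.DimC Pool.Agent.H84.CcA
  Pool.Agent.H84.CcDefs

theorem tendsto_pure_sub {α : Type} {S : Set (Ultrafilter α)} (hS : ∀ a, pure a ∈ S) (p : S) :
    Tendsto (fun a => (⟨pure a, hS a⟩ : S)) p.1 (𝓝 p) :=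
  tendsto_subtype_rng.2 (Ultrafilter.tendsto_pure_self p.1)

theorem clopen_basic {α : Type} (S : Set (Ultrafilter α)) (A : Set α) :
    IsClopen {p : S | A ∈ p.1} :=
  ⟨(ultrafilter_isClosed_basic A).preimage continuous_subtype_val,
    (ultrafilter_isOpen_basic A).preimage continuous_subtype_val⟩

theorem dim0 {α : Type} {S : Set (Ultrafilter α)} (hS : ∀ a, pure a ∈ S) : DimLE S 0 := by
  classical
  intro m U hU hc
  choose f hf hUf using hU
  have hne : ∀ p : S, ∃ i, f i p ≠ 0 := fun p => by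
    obtain ⟨i, hi⟩ := mem_iUnion.1 (hc ▸ mem_univ p : p ∈ ⋃ i, U i)
    exact ⟨i, by rwa [hUf] at hi⟩
  have h1 : ∀ a, ∃ i, ∀ j, |f j ⟨pure a, hS a⟩| ≤ |f i ⟨pure a, hS a⟩| := by
    intro a
    have : Nonempty (Fin m) := ⟨(hne ⟨pure a, hS a⟩).choose⟩
    exact Finite.exists_max _
  choose κ hκ using h1
  have h2 : ∀ p : S, ∃ i, κ ⁻¹' {i} ∈ p.1 := by
    intro p
    obtain ⟨i, -, hi⟩ := Ultrafilter.eq_pure_of_finite_mem (f := p.1.map κ) finite_univ univ_mem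
    exact ⟨i, Ultrafilter.mem_map.1 (by rw [hi]; rfl)⟩
  refine ⟨m, fun i => {p | κ ⁻¹' {i} ∈ p.1}, fun i =>
    ⟨indicator {p : S | κ ⁻¹' {i} ∈ p.1} fun _ => 1,
      (clopen_basic S _).continuous_indicator continuous_const, by ext p; simp [indicator]⟩,
    eq_univ_of_forall fun p => mem_iUnion.2 (h2 p), fun i => ⟨i, fun p hp => ?_⟩, fun p => ?_⟩
  · obtain ⟨j, hj⟩ := hne p
    have h3 : |f j p| ≤ |f i p| :=
      le_of_tendsto_of_tendsto (b := p.1) (((hf j).abs.tendsto p).comp (tendsto_pure_sub hS p))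
        (((hf i).abs.tendsto p).comp (tendsto_pure_sub hS p))
        (mem_of_superset hp fun a ha => by
          have := hκ a j
          rwa [show κ a = i from ha] at this)
    rw [hUf]
    exact abs_pos.1 ((abs_pos.2 hj).trans_le h3)
  · refine (ncard_le_one (toFinite _)).2 fun i hi j hj => ?_
    obtain ⟨a, h3, h4⟩ := Ultrafilter.nonempty_of_mem (inter_mem hi hj)
    exact (show κ a = i from h3).symm.trans h4

theorem exists_ext {α : Type} {X Y : Set (Ultrafilter α)} (f : α × α → ℝ)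
    (h : ∀ p ∈ X, ∀ q ∈ Y, ∃ c, Tendsto f ((p : Filter α) ×ˢ (q : Filter α)) (𝓝 c)) :
    ∃ g : X × Y → ℝ, Continuous g ∧
      ∀ z, Tendsto f ((z.1.1 : Filter α) ×ˢ (z.2.1 : Filter α)) (𝓝 (g z)) := by
  choose g hg using h
  refine ⟨fun z => g z.1 z.1.2 z.2 z.2.2, continuous_iff_continuousAt.2 fun z => ?_,
    fun z => hg _ _ _ _⟩
  refine ((closed_nhds_basis _).tendsto_right_iff).2 fun B ⟨hB1, hB2⟩ => ?_
  obtain ⟨U, hU, V, hV, hUV⟩ := mem_prod_iff.1 (hg _ z.1.2 _ z.2.2 hB1)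
  filter_upwards [((clopen_basic X U).2.prod (clopen_basic Y V).2).mem_nhds ⟨hU, hV⟩] with w hw
  exact hB2.mem_of_tendsto (hg _ w.1.2 _ w.2.2) (mem_prod_iff.2 ⟨U, hw.1, V, hw.2, hUV⟩)

noncomputable def lev (x : C) (s : N) : ℕ := firstDiff x (ι s)

theorem lev_pure {x x' : C} (hx : ∀ s, x ≠ ι s) (h : x' ≠ x) {p : Ultrafilter N}
    (hp : Tendsto (lev x) p atTop) : p.map (lev x') = pure (firstDiff x' x) := by
  refine Ultrafilter.eq_of_le (Tendsto.mono_left (tendsto_pure.2 ?_) le_rfl)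
  filter_upwards [hp.eventually (eventually_gt_atTop (firstDiff x' x))] with s hs
  exact (fd_eq h (self_mem_cylinder _ _) ((mem_cylinder_comm _ _ _).1
    ((mem_cylinder_iff_le_firstDiff (hx s) _).2 hs))).2

theorem not_pure {𝓕 : Ultrafilter ℕ} (h : (𝓕 : Filter ℕ) ≤ atTop) (a : ℕ) : pure a ≠ 𝓕 := by
  rintro rfl
  exact (lt_irrefl a) (h (Ioi_mem_atTop a))

theorem cc {T : Type} (x : T → C) (hx : Function.Injective x) (hxι : ∀ τ s, x τ ≠ ι s)
    (𝓕 : T → Ultrafilter ℕ) (h𝓕 : ∀ τ, (𝓕 τ : Filter ℕ) ≤ atTop) (P : T → Ultrafilter N) :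
    IsCountablyCompact {p : Ultrafilter N | ∀ τ, p.map (lev (x τ)) = 𝓕 τ → p = P τ} := by
  refine isCountablyCompact_iff_seq_clusterPt.2 fun p hp => ?_
  have lim : ∀ (q : ℕ → Ultrafilter N) (𝓥 : Ultrafilter ℕ), Tendsto q 𝓥 (𝓝 (𝓥.bind q)) := by
    intro q 𝓥
    refine (ultrafilterBasis_is_basis.nhds_hasBasis.tendsto_right_iff).2 ?_
    rintro _ ⟨⟨A, rfl⟩, hA⟩
    exact mem_bind'.1 hA
  have clus : ∀ (g : ℕ → ℕ) (𝓥 : Ultrafilter ℕ), Tendsto g 𝓥 atTop →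
      MapClusterPt (𝓥.bind (p ∘ g)) atTop p := fun g 𝓥 hg =>
    (lim (p ∘ g) 𝓥).mapClusterPt.of_comp hg
  by_contra hc
  push Not at hc
  let 𝓥 := hyperfilter ℕ
  have h0 : (𝓥 : Filter ℕ) ≤ atTop := Nat.hyperfilter_le_atTop
  have h1 : ¬ _ := fun h => hc _ h (clus id 𝓥 h0)
  simp only [mem_ofPred_eq] at h1
  push Not at h1
  obtain ⟨τ, h1, h2⟩ := h1
  have h3 : ∀ᶠ n in 𝓥, p n ≠ P τ := by
    by_contra h
    rw [← Ultrafilter.eventually_not] at h
    exact h2 (tendsto_nhds_unique (lim (p ∘ id) 𝓥)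
      (tendsto_const_nhds.congr' (h.mono fun n hn => (not_not.1 hn).symm)))
  have h4 : ∀ j, ∃ n, j ≤ n ∧ (p n).map (lev (x τ)) ≠ 𝓕 τ ∧ lev (x τ) ⁻¹' Ici j ∈ p n := by
    intro j
    have a1 : Ici j ∈ (𝓥.bind (p ∘ id)).map (lev (x τ)) := by
      rw [h1]; exact h𝓕 τ (Ici_mem_atTop j)
    have a2 : ∀ᶠ n in 𝓥, lev (x τ) ⁻¹' Ici j ∈ p n := mem_bind'.1 (Ultrafilter.mem_map.1 a1)
    obtain ⟨n, ⟨⟨b1, b2⟩, b3⟩, b4⟩ :=
      (((a2.and h3).and (h0 hp)).and (h0 (eventually_ge_atTop j))).exists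
    exact ⟨n, b4, fun e => b2 (b3 τ e), b1⟩
  choose g hg1 hg2 hg3 using h4
  obtain ⟨B, hB1, hB2⟩ := ultra_seq (𝓕 τ) _ hg2
  have : NeBot (atTop ⊓ 𝓟 {j | B ∈ (p (g j)).map (lev (x τ))}) := frequently_iff_neBot.1 hB2
  obtain ⟨𝓦, h𝓦⟩ := Ultrafilter.exists_le (atTop ⊓ 𝓟 {j | B ∈ (p (g j)).map (lev (x τ))})
  have h5 : (𝓦 : Filter ℕ) ≤ atTop := h𝓦.trans inf_le_left
  refine hc _ (fun τ' h => ?_) (clus g 𝓦 ((tendsto_atTop_mono hg1 tendsto_id).mono_left h5))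
  exfalso
  by_cases he : τ' = τ
  · subst he
    refine hB1 ?_
    rw [← h]
    exact Ultrafilter.mem_map.2 (mem_bind'.2 (le_principal_iff.1 (h𝓦.trans inf_le_right)))
  · refine not_pure (h𝓕 τ') _ ((lev_pure (hxι τ) (hx.ne he) ?_).symm.trans h)
    refine tendsto_atTop.2 fun j => mem_bind'.2 ?_
    filter_upwards [h5 (eventually_ge_atTop j)] with k hk
    exact mem_of_superset (hg3 k) fun s hs => hk.trans hs

theorem lim_ultra {α : Type} (p : Ultrafilter α) (f : α → ℝ) (hf : ∀ a, f a ∈ Icc (0 : ℝ) 1) :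
    ∃ c, Tendsto f p (𝓝 c) := by
  obtain ⟨c, -, hc⟩ := isCompact_Icc.ultrafilter_le_nhds (p.map f)
    (le_principal_iff.2 (Ultrafilter.mem_map.2 (univ_mem' hf)))
  exact ⟨c, hc⟩

theorem main : ∃ X Y : Set (Ultrafilter N), (∀ a, pure a ∈ X) ∧ (∀ a, pure a ∈ Y) ∧
    IsCountablyCompact X ∧ ¬ DimLE (X × Y) 0 := by
  classical
  obtain ⟨r, hr1, hr0, hrd⟩ := exists_r
  let T := {W : Set (N × N) // (∀ z ∈ W, F r z < 2 / 3) ∧ ∀ z ∉ W, 1 / 3 < F r z}
  obtain ⟨en, hen⟩ := exists_surjective_nat (N × N)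
  let y : T → C := fun W n => if n % 2 = 0 then true else decide (en (n / 2) ∈ W.1)
  have hy : ∀ W n, ∃ k, n ≤ k ∧ y W k = true := fun W n =>
    ⟨2 * n, by omega, by simp [y]⟩
  choose x s t l hx hl hs ht hW1 hW2 hlim using
    fun W : T => game hr1 hr0 hrd W.1 W.2.1 W.2.2 (y W) (hy W)
  have hxi : Function.Injective x := by
    intro W W' h
    refine Subtype.ext (Set.ext fun z => ?_)
    obtain ⟨n, rfl⟩ := hen z
    have h1 := (hx W (2 * n + 1)).symm.trans (h ▸ hx W' (2 * n + 1))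
    have h2 : (2 * n + 1) % 2 ≠ 0 := by omega
    have h3 : (2 * n + 1) / 2 = n := by omega
    simpa only [y, h2, h3, if_false, decide_eq_decide] using h1
  have hxι : ∀ W s, x W ≠ ι s := fun W => ι_ne fun n => by
    obtain ⟨k, h1, h2⟩ := hy W n
    exact ⟨2 * k + 1, by omega, by rw [hx, h2]⟩
  let 𝓤 := hyperfilter ℕ
  have h0 : (𝓤 : Filter ℕ) ≤ atTop := Nat.hyperfilter_le_atTop
  have h𝓕 : ∀ W, ((𝓤.map (l W) : Ultrafilter ℕ) : Filter ℕ) ≤ atTop := fun W =>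
    (hl W).tendsto_atTop.mono_left h0
  have hP : ∀ W, (𝓤.map (s W)).map (lev (x W)) = 𝓤.map (l W) := fun W => by
    rw [Ultrafilter.map_map]; exact congrArg (fun f => 𝓤.map f) (funext (hs W))
  have hQ : ∀ W, (𝓤.map (t W)).map (lev (x W)) = 𝓤.map (l W) := fun W => by
    rw [Ultrafilter.map_map]; exact congrArg (fun f => 𝓤.map f) (funext (ht W))
  let X := {p : Ultrafilter N | ∀ τ, p.map (lev (x τ)) = 𝓤.map (l τ) → p = 𝓤.map (s τ)}
  let Y := range (pure : N → Ultrafilter N) ∪ range fun W => 𝓤.map (t W)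
  have hX : ∀ a, pure a ∈ X := fun a τ h => absurd h (not_pure (h𝓕 τ) _)
  have hY : ∀ a, pure a ∈ Y := fun a => Or.inl ⟨a, rfl⟩
  have hPX : ∀ W, 𝓤.map (s W) ∈ X := by
    intro W τ h
    by_contra hc
    have he : τ ≠ W := fun e => hc (by rw [e])
    refine not_pure (h𝓕 τ) _ ((lev_pure (hxι W) (hxi.ne he) ?_).symm.trans h)
    have := h𝓕 W
    rwa [← hP] at this
  have hF : ∀ z, F r z ∈ Icc (0 : ℝ) 1 := fun z => ⟨sn_nonneg _ _ _, sn_le hr1 _ _⟩
  have hsn : ∀ x, Tendsto (sn r x) atTop (𝓝 (⨆ n, sn r x n)) := fun x =>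
    tendsto_atTop_ciSup (sn_mono r x) ⟨1, by rintro _ ⟨n, rfl⟩; exact sn_le hr1 x n⟩
  have hmin : ∀ {α : Type} {f : Filter α} {a b : α → ℕ}, Tendsto a f atTop → Tendsto b f atTop →
      Tendsto (fun z => min (a z) (b z)) f atTop := fun ha hb => tendsto_atTop.2 fun n =>
    ((tendsto_atTop.1 ha n).and (tendsto_atTop.1 hb n)).mono fun z hz => le_min hz.1 hz.2
  obtain ⟨g, hg, hgl⟩ := exists_ext (X := X) (Y := Y) (F r) (by
    rintro p hp _ (⟨b, rfl⟩ | ⟨W, rfl⟩)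
    · rw [Ultrafilter.coe_pure, prod_pure]
      exact lim_ultra p _ fun a => hF _
    by_cases h : p.map (lev (x W)) = 𝓤.map (l W)
    · rw [hp W h, Ultrafilter.coe_map, Ultrafilter.coe_map, prod_map_map_eq]
      refine ⟨⨆ n, sn r (x W) n, tendsto_map'_iff.2 (Tendsto.mono_left ?_ (prod_mono h0 h0))⟩
      refine tendsto_nhds.2 fun O hO hO' => ?_
      have a1 := (hsn (x W)).comp (hmin ((hl W).tendsto_atTop.comp tendsto_fst)
        ((hl W).tendsto_atTop.comp (tendsto_snd (f := atTop (α := ℕ)))))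
      filter_upwards [a1 (hO.mem_nhds hO'), ((hlim W).comp tendsto_fst) (hO.mem_nhds hO')]
        with z h1 h2
      by_cases he : z.1 = z.2
      · simp only [mem_preimage, Function.comp] at h2 ⊢
        rwa [← he]
      · simp only [mem_preimage, Function.comp] at h1 ⊢
        rwa [F_min r (hxι W _) (hxι W _) (by rw [hs, ht]; exact (hl W).injective.ne he), hs, ht]
    obtain ⟨B, hB1, hB2⟩ : ∃ B, B ∈ p.map (lev (x W)) ∧ B ∉ 𝓤.map (l W) := by
      by_contra hc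
      push Not at hc
      exact h (Ultrafilter.eq_of_le hc).symm
    rw [← hQ, ← Ultrafilter.compl_mem_iff_notMem] at hB2
    have a1 : ∀ᶠ z in (p : Filter N) ×ˢ (𝓤.map (t W) : Ultrafilter N),
        sn r (x W) (min (lev (x W) z.1) (lev (x W) z.2)) = F r z :=
      mem_prod_iff.2 ⟨_, Ultrafilter.mem_map.1 hB1, _, Ultrafilter.mem_map.1 hB2, fun z hz =>
        (F_min r (hxι W _) (hxι W _) fun e => hz.2 (by
          have := hz.1
          simp only [mem_preimage, lev] at this ⊢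
          rwa [← e])).symm⟩
    have a2 : Tendsto (lev (x W)) (𝓤.map (t W) : Ultrafilter N) atTop := by
      have := h𝓕 W
      rwa [← hQ] at this
    rcases (p.map (lev (x W))).le_cofinite_or_eq_pure with h' | ⟨a, h'⟩
    · rw [Nat.cofinite_eq_atTop] at h'
      exact ⟨_, ((hsn (x W)).comp (hmin (Tendsto.comp h' tendsto_fst)
        (a2.comp tendsto_snd))).congr' a1⟩
    · refine ⟨sn r (x W) a, Tendsto.congr' a1 (tendsto_const_nhds.congr' ?_)⟩
      have a3 : ∀ᶠ u in p, lev (x W) u = a := (Ultrafilter.mem_map (s := {a})).1 (by rw [h']; rfl)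
      filter_upwards [tendsto_fst.eventually a3,
        tendsto_snd.eventually (a2.eventually (eventually_ge_atTop a))] with z h1 h2
      rw [h1, min_eq_left h2])
  refine ⟨X, Y, hX, hY, cc x hxi hxι _ h𝓕 _, fun hd => ?_⟩
  let e : N × N → X × Y := fun z => (⟨pure z.1, hX _⟩, ⟨pure z.2, hY _⟩)
  have hge : ∀ z, g (e z) = F r z := fun z => tendsto_nhds_unique (hgl (e z)) (by
    simp only [e, Ultrafilter.coe_pure, prod_pure_pure]
    exact tendsto_pure_nhds _ _)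
  have het : ∀ z : X × Y, Tendsto e ((z.1.1 : Filter N) ×ˢ (z.2.1 : Filter N)) (𝓝 z) := fun z =>
    ((tendsto_pure_sub hX z.1).comp tendsto_fst).prodMk_nhds
      ((tendsto_pure_sub hY z.2).comp tendsto_snd)
  obtain ⟨k, V, hV1, hV2, hV3, hV4⟩ := hd 2 ![{z | g z < 2 / 3}, {z | 1 / 3 < g z}]
    (by
      intro i
      fin_cases i
      · exact ⟨fun z => max 0 (2 / 3 - g z), by fun_prop, by ext z; simp⟩
      · exact ⟨fun z => max 0 (g z - 1 / 3), by fun_prop, by ext z; simp⟩)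
    (eq_univ_of_forall fun z => by
      by_cases h : g z < 2 / 3
      · exact mem_iUnion.2 ⟨0, h⟩
      · exact mem_iUnion.2 ⟨1, show 1 / 3 < g z by linarith⟩)
  have hVo : ∀ j, IsOpen (V j) := fun j => by
    obtain ⟨f, hf, h⟩ := hV1 j
    rw [h]; exact isOpen_ne_fun hf continuous_const
  have hVc : ∀ z, ∃ j, z ∈ V j := fun z => mem_iUnion.1 (hV2 ▸ mem_univ z)
  let W : T := ⟨{z | ∃ j, e z ∈ V j ∧ V j ⊆ {z | g z < 2 / 3}}, by
    rintro z ⟨j, h1, h2⟩; rw [← hge]; exact h2 h1, by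
    intro z hz
    obtain ⟨j, hj⟩ := hVc (e z)
    obtain ⟨i, hi⟩ := hV3 j
    fin_cases i
    · exact absurd ⟨j, hj, hi⟩ hz
    · rw [← hge]; exact hi hj⟩
  obtain ⟨j, hj⟩ := hVc (⟨_, hPX W⟩, ⟨_, Or.inr ⟨W, rfl⟩⟩)
  obtain ⟨A, hA, B, hB, hAB⟩ := mem_prod_iff.1 (het _ ((hVo j).mem_nhds hj))
  obtain ⟨a, ha1, ha2⟩ := Ultrafilter.nonempty_of_mem
    (inter_mem (Ultrafilter.mem_map.1 hA) (Ultrafilter.mem_map.1 hB))
  obtain ⟨b, hb1, hb2⟩ := Ultrafilter.nonempty_of_mem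
    (inter_mem (Ultrafilter.mem_map.1 hB) (h0 (Ioi_mem_atTop a)))
  obtain ⟨j', h1, h2⟩ := hW2 W a b (ne_of_lt hb2)
  have h3 : j' = j := (ncard_le_one (toFinite _)).1 (hV4 (e (s W a, t W b))) j' h1 j
    (hAB (mk_mem_prod ha1 hb1))
  exact hW1 W a ⟨j, hAB (mk_mem_prod ha1 ha2), h3 ▸ h2⟩

end Pool.Agent.H84.CcB
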