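import Mathlib

/-! The Comfort, Comfort-Frolik and Rudin-Frolik preorders. -/

namespace Pool.Agent.H84.CfDefs

open Filter Topology

/-- `u`-compact: every sequence has a `u`-limit. -/
def UCompact (u : Ultrafilter ℕ) (X : Type) [TopologicalSpace X] : Prop :=
  ∀ f : ℕ → X, ∃ p, Tendsto f u (𝓝 p)

/-- Discretely `u`-compact: every injective sequence with discrete range has a `u`-limit. -/
def DCompact (u : Ultrafilter ℕ) (X : Type) [TopologicalSpace X] : Prop :=
  ∀ f : ℕ → X, f.Injective → IsDiscrete (Set.range f) → ∃ p, Tendsto f u (𝓝 p)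

/-- The Comfort preorder. -/
def C (u v : Ultrafilter ℕ) : Prop :=
  ∀ (X : Type) [TopologicalSpace X] [T35Space X], UCompact v X → UCompact u X

/-- The Comfort-Frolik preorder. -/
def CF (u v : Ultrafilter ℕ) : Prop :=
  ∀ (X : Type) [TopologicalSpace X] [T35Space X], DCompact v X → DCompact u X

/-- The Rudin-Frolik preorder. -/
def RF (u v : Ultrafilter ℕ) : Prop :=
  ∃ f : ℕ → Ultrafilter ℕ, f.Injective ∧ IsDiscrete (Set.range f) ∧ Tendsto f u (𝓝 v)

/-- The Rudin-Keisler preorder. -/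
def RK (u v : Ultrafilter ℕ) : Prop := ∃ f : ℕ → ℕ, u = v.map f

/-- Every lower cone is linearly preordered. -/
def TreeLike (r : Ultrafilter ℕ → Ultrafilter ℕ → Prop) : Prop :=
  ∀ v a b, r a v → r b v → r a b ∨ r b a

/-- Selective: nonprincipal, and every map is constant or injective on a member. -/
def Selective (v : Ultrafilter ℕ) : Prop :=
  (∀ n, v ≠ pure n) ∧ ∀ f : ℕ → ℕ, ∃ A ∈ v, (∃ k, ∀ n ∈ A, f n = k) ∨ Set.InjOn f A

end Pool.Agent.H84.CfDefs
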