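import Pool.Agent.H34.RF
import Pool.Agent.H84.CfDefs

/-! The closure of the integers under discrete limits along an ultrafilter. -/

namespace Pool.Agent.H84.Cf

open Set Filter Topology Pool.Agent.H84.CfDefs
open Pool.Agent.H34.WeakP hiding RK RF UCompact

abbrev UF := Ultrafilter ℕ

theorem tb {v p : UF} {x : ℕ → UF} : Tendsto x v (𝓝 p) ↔ p = v.bind x :=
  ultrafilter_converges_iff (u := v.map x)

/-- The closure of the principal ultrafilters under discrete `v`-limits. -/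
inductive X (v : UF) : UF → Prop
  | base (n : ℕ) : X v (pure n)
  | lim (x : ℕ → UF) (π : ℕ → ℕ) (G : Set ℕ) : G ∈ v → (∀ j ∈ G, (x j).map π = pure j) →
      (∀ j ∈ G, X v (x j)) → X v (v.bind x)

theorem clos {u v : UF} (h : CF u v) {Y : Type} [TopologicalSpace Y] [T35Space Y] (P : Y → Prop)
    (hP : ∀ y : ℕ → Y, y.Injective → IsDiscrete (range y) → (∀ n, P (y n)) →
      ∃ c, P c ∧ Tendsto y v (𝓝 c)) (g : ℕ → Y) (g1 : g.Injective) (g2 : IsDiscrete (range g))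
    (g3 : ∀ n, P (g n)) : ∃ c, P c ∧ Tendsto g u (𝓝 c) := by
  obtain ⟨c, hc⟩ := h {c // P c} (fun f a b => by
      obtain ⟨c, p, q⟩ := hP (Subtype.val ∘ f) (Subtype.val_injective.comp a)
        (range_comp _ _ ▸ b.image IsInducing.subtypeVal) fun n => (f n).2
      exact ⟨⟨c, p⟩, tendsto_subtype_rng.2 q⟩) (fun n => ⟨g n, g3 n⟩)
    (fun _ _ e => g1 (congrArg Subtype.val e)) ((g2.preimage continuous_subtype_val.continuousOn
      Subtype.val_injective).mono (range_subset_iff.2 fun n => ⟨n, rfl⟩))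
  exact ⟨c, c.2, tendsto_subtype_rng.1 hc⟩

theorem disc_of {Y : Type} [TopologicalSpace Y] {Φ : UF → Y} (hΦ : Continuous Φ) {y : ℕ → Y}
    (a : y.Injective) (b : IsDiscrete (range y)) {k : ℕ → UF} {H : Set ℕ}
    (e : ∀ n ∈ H, Φ (k n) = y n) : ∃ π : ℕ → ℕ, ∀ n ∈ H, (k n).map π = pure n := by
  have : ∀ i, ∃ A, (i ∈ H → A ∈ k i) ∧ ∀ j ∈ H, A ∈ k j → j = i := fun i => by
    by_cases hi : i ∈ H
    · obtain ⟨O, o1, o2⟩ := isDiscrete_iff_forall_mem_exists_isOpen.1 b _ ⟨i, rfl⟩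
      obtain ⟨_, ⟨A, rfl⟩, a1, a2⟩ := ultrafilterBasis_is_basis.exists_subset_of_mem_open
        (show k i ∈ Φ ⁻¹' O by rw [mem_preimage, e i hi]; exact (o2.ge rfl).1) (o1.preimage hΦ)
      exact ⟨A, fun _ => a1, fun j hj r => a (o2.le ⟨e j hj ▸ a2 r, j, rfl⟩)⟩
    · exact ⟨∅, fun r => absurd r hi, fun j _ r => absurd r Ultrafilter.empty_notMem⟩
  choose A A1 A2 using this
  exact ⟨fun n => sInf {i | n ∈ A i}, fun i hi => Ultrafilter.coe_le_coe.1 (le_pure_iff.2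
    (mem_of_superset (f := (k i : Filter ℕ)) (inter_mem (A1 i hi) ((biInter_mem (finite_lt_nat i)).2
      fun j (r : j < i) => Ultrafilter.compl_mem_iff_notMem.2 fun s => r.ne' (A2 j i hi s)))
      fun n r => le_antisymm (Nat.sInf_le r.1) (not_lt.1 fun c =>
        mem_iInter₂.1 r.2 _ c (Nat.sInf_mem (s := {i | n ∈ A i}) ⟨i, r.1⟩))))⟩

theorem mem_X {u v : UF} (h : CF u v) : X v u := by
  have d := disc_iff.2 (⟨id, fun _ => rfl⟩ : ∃ π : ℕ → ℕ, ∀ i, (pure i : UF).map π = pure i)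
  obtain ⟨c, p, q⟩ := clos h (X v) (fun y a b c => by
    obtain ⟨π, e⟩ := disc_iff.1 ⟨a, b⟩
    exact ⟨_, .lim y π univ univ_mem (fun j _ => e j) fun j _ => c j, tb.2 rfl⟩) pure d.1 d.2 .base
  exact tendsto_nhds_unique q u.tendsto_pure_self ▸ p

theorem X.comfort {v a : UF} (h : X v a) : C a v := fun Y _ _ q f => by
  induction h with
  | base n => exact ⟨f n, tendsto_pure_nhds f n⟩
  | lim x π G a b c ih =>
    have : ∀ j, ∃ p, j ∈ G → Tendsto f (x j) (𝓝 p) := fun j => by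
      by_cases r : j ∈ G
      exacts [(ih j r).imp fun _ s _ => s, ⟨f 0, fun s => absurd s r⟩]
    choose y hy using this
    obtain ⟨p, hp⟩ := q y
    exact ⟨p, tendsto_nhds.2 fun O o m => mem_bind.2 (mem_of_superset
      (inter_mem a (hp (o.mem_nhds m))) fun j r => hy j r.1 (o.mem_nhds r.2))⟩

theorem X.dec {v a : UF} (h : X v a) (f : Free a) : ∃ (x : ℕ → UF) (π : ℕ → ℕ) (G : Set ℕ),
    G ∈ v ∧ (∀ j ∈ G, (x j).map π = pure j) ∧ (∀ j ∈ G, X v (x j)) ∧ a = v.bind x := by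
  cases h with
  | base n => exact absurd rfl (f n)
  | lim x π G a b c => exact ⟨x, π, G, a, b, c, rfl⟩

theorem fro0 {s v : UF} {z x : ℕ → UF} {π π' : ℕ → ℕ} {G : Set ℕ}
    (e : s.bind z = v.bind x) (hz : ∀ᶠ m in s, (z m).map π = pure m) (hG : G ∈ v)
    (hx : ∀ j ∈ G, (x j).map π' = pure j) (c : ∀ᶠ m in s, z m ∈ closure (x '' G)) :
    v = (s.bind fun m => (z m).map π') ∧ ∃ ρ : ℕ → ℕ, v.map ρ = s ∧
      ∀ᶠ m in s, ∀ᶠ j in (z m).map π', ρ j = m := by
  have b : v = s.bind fun m => (z m).map π' :=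
    (map_bind (mem_of_superset hG hx)).symm.trans (congrArg (Ultrafilter.map π') e.symm)
  have d : ∀ᶠ m in s, ∀ᶠ j in (z m).map π', val ((x j).map π) = m := (c.and hz).mono fun m r => by
    have : ∀ᶠ j in (z m).map π', {m} ∈ (x j).map π :=
      (((congrArg (Ultrafilter.map π) (cl_bind hx r.1).2).trans r.2).symm ▸ rfl :
        {m} ∈ (((z m).map π').bind x).map π)
    exact this.mono fun i t =>
      (congrArg val (Ultrafilter.coe_le_coe.1 (le_pure_iff.2 t))).trans (val_pure m)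
  refine ⟨b, _, ?_, d⟩
  rw [b]
  exact map_bind (d.mono fun m t => Ultrafilter.coe_le_coe.1 (le_pure_iff.2 t))

theorem fro {s v : UF} {z x : ℕ → UF} {π π' : ℕ → ℕ} {G : Set ℕ} (fs : Free s)
    (e : s.bind z = v.bind x) (hz : ∀ᶠ m in s, (z m).map π = pure m) (hG : G ∈ v)
    (hx : ∀ j ∈ G, (x j).map π' = pure j) (c : ∀ᶠ m in s, z m ∈ closure (x '' G)) :
    ∀ᶠ m in s, G ∈ (z m).map π' ∧ z m = ((z m).map π').bind x ∧ ¬ RK v ((z m).map π') := by
  refine (c.mono fun m r => cl_bind hx r).mp ((Ultrafilter.eventually_not.2 fun q => ?_).mono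
    fun m (r : ¬ RK v ((z m).map π')) t => ⟨t.1, t.2.symm, r⟩)
  obtain ⟨b, ρ, b', d⟩ := fro0 e hz hG hx c
  have : ∀ m, ∃ σ : ℕ → ℕ, RK v ((z m).map π') → v = ((z m).map π').map σ := fun m => by
    by_cases r : RK v ((z m).map π')
    exacts [r.imp fun _ s _ => s, ⟨id, fun s => absurd s r⟩]
  choose σ hσ using this
  have k : ∀ᶠ m in s, ((z m).map π').map (fun j => σ (ρ j) j) = v := (q.and d).mono fun m r =>
    (Ultrafilter.coe_injective (Filter.map_congr (m₁ := fun j => σ (ρ j) j) (m₂ := σ m)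
      (r.2.mono fun j t => by simp only [t]))).trans (hσ m r.1).symm
  have k' : ∀ᶠ j in v, σ (ρ j) j = j := katetov (Ultrafilter.ext fun Z => by
    conv_lhs => rw [b]
    exact (eventually_congr (q := fun _ => Z ∈ v) (k.mono fun m r => by
      rw [← r]; rfl)).trans eventually_const)
  have k'' : ∀ᶠ m in s, ∀ᶠ j in (z m).map π', σ (ρ j) j = j := by rw [b] at k'; exact k'
  obtain ⟨m, ⟨r, r'⟩, r''⟩ := ((k.and k'').and d).exists
  rw [map_id' r'] at r
  rw [r] at r''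
  exact fs m (b'.symm.trans (Ultrafilter.coe_le_coe.1 (le_pure_iff.2 r'')))

/-- `p` is a limit of a discrete sequence of `X v` along a free ultrafilter not above `v`. -/
def Inst (v p s : UF) (z : ℕ → UF) : Prop := Free s ∧ ¬ RK v s ∧ p = s.bind z ∧
  ∃ π : ℕ → ℕ, ∀ᶠ m in s, (z m).map π = pure m ∧ X v (z m)

theorem Inst.free {v p s : UF} {z : ℕ → UF} (h : Inst v p s z) : Free p := by
  obtain ⟨a, -, rfl, π, b⟩ := h
  exact Pool.Agent.H34.WeakP.RK.free ⟨π, (map_bind (b.mono fun _ r => r.1)).symm⟩ a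

theorem step {v s : UF} {z x : ℕ → UF} {π' : ℕ → ℕ} {G : Set ℕ} (h : Inst v (v.bind x) s z)
    (hG : G ∈ v) (hx : ∀ j ∈ G, (x j).map π' = pure j) (hX : ∀ j ∈ G, X v (x j)) :
    ∀ᶠ m in s, X v (z m) ∧ ∃ t, G ∈ t ∧ Inst v (z m) t x := by
  obtain ⟨fs, a, e, π, b⟩ := h
  have b1 := b.mono fun _ r => r.1
  have e1 : (s.bind z).map π' = v := by rw [← e]; exact map_bind (mem_of_superset hG hx)
  rcases frolik e.symm b1 hG with c | c
  · have d := fro fs e.symm b1 hG hx c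
    have f : ∀ᶠ m in s, Free ((z m).map π') := by_contra fun q => a ⟨_, e1.symm.trans
      (bind_pure' (t := fun m => (z m).map π') ((Ultrafilter.eventually_not.2 q).mono
        fun _ => val_spec))⟩
    exact ((d.and f).and b).mono fun m r => ⟨r.2.2, _, r.1.1.1, r.1.2, r.1.1.2.2, r.1.1.2.1, π',
      mem_of_superset r.1.1.1 fun j t => ⟨hx j t, hX j t⟩⟩
  · obtain ⟨-, ρ, q, -⟩ := fro0 e (mem_of_superset hG hx) b1 (fun _ r => r) c
    exact absurd ⟨ρ, q.symm⟩ a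

theorem no_inst {v p : UF} (h : X v p) : ∀ s z, ¬ Inst v p s z := by
  induction h with
  | base n => exact fun s z q => q.free n rfl
  | lim x π G a b c ih =>
    intro s z q
    obtain ⟨m, r, t, t1, t2⟩ := (step q a b c).exists
    obtain ⟨x', π', G', a', b', c', e⟩ := r.dec t2.free
    obtain ⟨j, ⟨-, t', -, k⟩, hj⟩ := ((step (e ▸ t2) a' b' c').and t1).exists
    exact ih j hj _ _ k

end Pool.Agent.H84.Cf
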