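import Pool.Agent.H84.CfA

/-! A description of the Comfort-Frolik preorder. -/

namespace Pool.Agent.H84.Cf

open Set Filter Topology Pool.Agent.H84.CfDefs
open Pool.Agent.H34.WeakP hiding RK RF UCompact

/-- The trace of an ultrafilter on a family of sets. -/
noncomputable def Q {B : Type} (φ : B → Set ℕ) (a : UF) (Z : B) : Bool :=
  {b : UF | φ Z ∈ b}.boolIndicator a

theorem Q_cont {B : Type} (φ : B → Set ℕ) : Continuous (Q φ) :=
  continuous_pi fun _ => (continuous_boolIndicator_iff_isClopen _).2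
    ⟨ultrafilter_isClosed_basic _, ultrafilter_isOpen_basic _⟩

theorem Q_true {B : Type} {φ : B → Set ℕ} {a : UF} {Z : B} : Q φ a Z = true ↔ φ Z ∈ a :=
  (mem_iff_boolIndicator _ _).symm

theorem Q_eq {B : Type} {φ ψ : B → Set ℕ} {a b : UF} :
    Q φ a = Q ψ b ↔ ∀ Z, φ Z ∈ a ↔ ψ Z ∈ b := by
  exact funext_iff.trans (forall_congr' fun Z => Bool.eq_iff_iff.trans (by rw [Q_true, Q_true]))

theorem collapse {v : UF} {p : ℕ → UF} {π h : ℕ → ℕ} {G : Set ℕ} (hG : G ∈ v)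
    (p1 : ∀ j ∈ G, (p j).map π = pure j) (p2 : ∀ j ∈ G, X v (p j)) (p3 : ∀ j ∈ G, Free (p j))
    (h1 : Free (v.map h)) (h2 : ∀ A ∈ v, ¬ InjOn h A) : ¬ CF (v.bind p) v := fun H => by
  let B := {Z : Set ℕ // ∀ n ∈ G, ∀ n' ∈ G, h n = h n' → Z ∈ p n → Z ∈ p n'}
  let q := Q (B := B) Subtype.val
  let S : ℕ → B := fun n => ⟨{n}, fun i hi _ _ _ r =>
    absurd (Ultrafilter.coe_le_coe.1 (le_pure_iff.2 r)) (p3 i hi n)⟩
  have g0 : ∀ m n, q (pure m) (S n) = true ↔ m = n := fun m n => Q_true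
  have u0 : (v.bind p).map π = v := map_bind (mem_of_superset hG p1)
  refine (clos H (fun c => c ≠ q (v.bind p) ∧ ∃ a, q a = c ∧
    (a ∈ closure (p '' G) ∨ X v a)) (fun y y1 y2 y3 => ?_) (fun n => q (pure n))
    (fun m n e => (g0 m n).1 ((congrFun e _).trans ((g0 n n).2 rfl)))
    (isDiscrete_iff_forall_mem_exists_isOpen.2 ?_) fun n => ⟨fun e => ?_, _, rfl, .inr (.base n)⟩).elim
    fun c r => r.1.1 (tendsto_nhds_unique r.2 (((Q_cont _).tendsto _).comp
      (v.bind p).tendsto_pure_self))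
  · choose a a1 a2 using fun n => (y3 n).2
    obtain ⟨σ, hσ⟩ := disc_of (Q_cont _) y1 y2 (H := univ) fun n _ => a1 n
    have t : Tendsto a v (𝓝 (v.bind a)) := tb.2 rfl
    refine ⟨q (v.bind a), ⟨fun e => ?_, _, rfl, ?_⟩, (((Q_cont _).tendsto _).comp t).congr a1⟩
    swap
    · exact (Ultrafilter.eventually_or.1 (Eventually.of_forall a2)).imp
        (isClosed_closure.mem_of_tendsto t) fun r => .lim a σ _ r (fun j _ => hσ j trivial) fun _ s => s
    have e := Q_eq.1 e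
    have w : ((v.bind a).map π).map h = v.map h := Ultrafilter.ext fun T => by
      conv_rhs => rw [← u0]
      refine e ⟨π ⁻¹' (h ⁻¹' T), fun n r n' r' s => ?_⟩
      change h ⁻¹' T ∈ (p n).map π → h ⁻¹' T ∈ (p n').map π
      rw [p1 n r, p1 n' r']
      exact fun k => show h n' ∈ T from s ▸ k
    by_cases k : ∀ᶠ n in v, a n ∈ closure (p '' G)
    · obtain ⟨τ, hτ⟩ := disc_of (Q_cont fun Z : B => {i | ∃ n ∈ G, h n = i ∧ Z.1 ∈ p n}) y1 y2
        (k := fun n => ((a n).map π).map h) (H := {n | a n ∈ closure (p '' G)}) fun n r => by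
          refine (Q_eq.2 fun Z => ?_).trans (a1 n)
          conv_rhs => rw [← (cl_bind p1 r).2]
          exact eventually_congr (f := ((a n).map π : UF)) (p := fun j => ∃ n ∈ G, h n = h j ∧ Z.1 ∈ p n)
            (q := fun j => Z.1 ∈ p j) (mem_of_superset (cl_bind p1 r).1 fun j s =>
              ⟨fun ⟨i, b, c, d⟩ => Z.2 i b j s c d, fun d => ⟨j, s, rfl, d⟩⟩)
      have : ∀ᶠ n in v, τ (h n) = n := katetov (f := τ ∘ h)
        ((congrArg (Ultrafilter.map τ) w).symm.trans (map_bind (D := fun n => ((a n).map π).map h)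
          (k.mono hτ)))
      exact h2 _ this fun m r n s e => r.symm.trans (e ▸ s)
    rw [← Ultrafilter.eventually_not] at k
    have m : v.bind a ∈ closure (p '' G) := cl_iff.2 fun Z r => by_contra fun s => by
      obtain ⟨n, b, c⟩ := ((show ∀ᶠ i in v, Z ∈ p i from (e ⟨Z, fun n b _ _ _ c =>
        absurd ⟨_, ⟨n, b, rfl⟩, c⟩ s⟩).1 r).and hG).exists
      exact s ⟨_, ⟨n, c, rfl⟩, b⟩
    obtain ⟨m1, m2⟩ := cl_bind p1 m
    rcases frolik m2 m1 k with c | c
    · obtain ⟨n, ⟨b1, b2, b3⟩, b4⟩ := ((fro (Pool.Agent.H34.WeakP.RK.free ⟨h, w.symm⟩ h1) m2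
        (mem_of_superset m1 p1) k (fun j _ => hσ j trivial) c).and m1).exists
      refine no_inst (p2 n b4) _ a ⟨fun i r => ?_, b3, b2, σ, mem_of_superset b1 fun j r =>
        ⟨hσ j trivial, (a2 j).resolve_left r⟩⟩
      rw [r] at b1 b2
      exact b1 (subset_closure ⟨n, b4, b2⟩)
    · exact (c.and k).exists.elim fun _ r => r.2 r.1
  · rintro _ ⟨n, rfl⟩
    refine ⟨(fun c => c (S n)) ⁻¹' {true}, (isOpen_discrete _).preimage (continuous_apply _),
      Subset.antisymm ?_ (singleton_subset_iff.2 ⟨(g0 n n).2 rfl, n, rfl⟩)⟩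
    rintro _ ⟨r, m, rfl⟩
    exact congrArg (fun n => q (pure n)) ((g0 m n).1 r)
  · obtain ⟨i, r, s⟩ := ((show ∀ᶠ i in v, {n} ∈ p i from (Q_eq.1 e (S n)).1 rfl).and hG).exists
    exact p3 i s n (Ultrafilter.coe_le_coe.1 (le_pure_iff.2 r))

theorem X.pure {k : ℕ} {v a : UF} (h : X v a) (e : v = pure k) : ¬ Free a := by
  subst e
  induction h with
  | base n => exact fun f => f n rfl
  | lim x π G a b c ih => exact ih k a

theorem iso_of_cf {u v : UF} (h : CF u v) (fu : Free u) (hv : ¬ Selective v) :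
    RK u v ∧ RK v u := by
  obtain ⟨p, π, G, a, b, c, rfl⟩ := (mem_X h).dec fu
  refine ⟨by_contra fun q => hv ⟨fun k e => (mem_X h).pure e fu, fun f => by_contra fun r => ?_⟩,
    π, (map_bind (mem_of_superset a b)).symm⟩
  refine collapse (h := f) (π := π) (inter_mem a (by_contra fun s => q ⟨_, bind_pure'
    ((Ultrafilter.eventually_not (p := fun j => Free (p j))).2 s |>.mono fun _ => val_spec)⟩ :
    {j | Free (p j)} ∈ v)) (fun j s => b j s.1) (fun j s => c j s.1) (fun j s => s.2)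
    (fun k e => r ⟨f ⁻¹' {k}, (e ▸ rfl : {k} ∈ v.map f), .inl ⟨k, fun _ s => s⟩⟩)
    (fun A s t => r ⟨A, s, .inr t⟩) h

theorem DC.ext {v : UF} (fv : Free v) {Y : Type} [TopologicalSpace Y] (h : DCompact v Y)
    {y : ℕ → Y} {S : Set ℕ} (hS : S ∈ v) (a : InjOn y S) (b : IsDiscrete (y '' S)) :
    ∃ p, Tendsto y v (𝓝 p) := by
  classical
  have inf : S.Infinite := fun q => (Ultrafilter.eq_pure_of_finite_mem q hS).elim fun n a => fv n a.2
  have i := Nat.nth_injective inf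
  obtain ⟨e, e1, e2⟩ : ∃ e < 2, S \ range (fun k => Nat.nth S (2 * k + e)) ∈ v := by
    rcases v.mem_or_compl_mem (range fun k => Nat.nth S (2 * k + 0)) with q | q
    · refine ⟨1, one_lt_two, mem_of_superset (inter_mem hS q) ?_⟩
      rintro _ ⟨r, k, rfl⟩
      exact ⟨r, fun ⟨j, s⟩ => by have := i s; omega⟩
    · exact ⟨0, two_pos, inter_mem hS q⟩
  let τ : ℕ → ℕ := fun n => if n ∈ S \ range (fun k => Nat.nth S (2 * k + e)) then n
    else Nat.nth S (2 * n + e)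
  have t1 : ∀ n, τ n ∈ S := fun n => by
    simp only [τ]; split_ifs with r
    exacts [r.1, Nat.nth_mem_of_infinite inf _]
  obtain ⟨p, hp⟩ := h (y ∘ τ) (fun m n r => by
    have r := a (t1 m) (t1 n) r
    simp only [τ] at r
    split_ifs at r with c d d
    exacts [r, absurd ⟨_, r.symm⟩ c.2, absurd ⟨_, r⟩ d.2, by have := i r; omega])
    (b.mono (range_subset_iff.2 fun n => ⟨_, t1 n, rfl⟩))
  exact ⟨p, hp.congr' (mem_of_superset e2 fun n r => congrArg y (if_pos r))⟩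

theorem sel_compact {v : UF} (hv : Selective v) {Y : Type} [TopologicalSpace Y] [T1Space Y]
    (h : DCompact v Y) : UCompact v Y := fun y => by_contra fun c => by
  have : ∀ n, ∃ U, IsOpen U ∧ y n ∈ U ∧ y ⁻¹' Uᶜ ∈ v := fun n => by_contra fun r =>
    c ⟨y n, tendsto_nhds.2 fun U o m => by_contra fun s =>
      r ⟨U, o, m, Ultrafilter.compl_mem_iff_notMem.2 s⟩⟩
  choose U U1 U2 U3 using this
  obtain ⟨A, A1, A2⟩ : ∃ A ∈ v, ∀ n, (A ∩ y ⁻¹' U n).Finite := by
    obtain ⟨A, a, ⟨k, b⟩ | b⟩ := hv.2 fun m => sInf {n | y m ∈ U n}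
    · obtain ⟨m, r, s⟩ := Ultrafilter.nonempty_of_mem (inter_mem a (U3 k))
      exact absurd (b m r ▸ Nat.sInf_mem (s := {n | y m ∈ U n}) ⟨m, U2 m⟩) s
    · exact ⟨A, a, fun n => Finite.of_finite_image ((finite_le_nat n).subset (by
        rintro _ ⟨m, r, rfl⟩; exact Nat.sInf_le r.2)) (b.mono inter_subset_left)⟩
  obtain ⟨B, a, ⟨k, b⟩ | b⟩ := hv.2 fun m => sInf {n | y n = y m}
  · exact c ⟨y k, tendsto_const_nhds.congr' (mem_of_superset a fun m r =>
      b m r ▸ Nat.sInf_mem (s := {n | y n = y m}) ⟨m, rfl⟩)⟩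
  refine c (DC.ext hv.1 h (inter_mem A1 a) (fun m r n s e => b r.2 s.2 (by simp only [e]))
    (isDiscrete_iff_forall_mem_exists_isOpen.2 ?_))
  rintro _ ⟨n, r, rfl⟩
  refine ⟨U n \ (y '' (A ∩ y ⁻¹' U n) \ {y n}), (U1 n).sdiff ((A2 n).image _).sdiff.isClosed,
    Subset.antisymm ?_ (singleton_subset_iff.2 ⟨⟨U2 n, fun s => s.2 rfl⟩, n, r, rfl⟩)⟩
  rintro _ ⟨s, m, t, rfl⟩
  exact by_contra fun e => s.2 ⟨⟨m, ⟨t.1, s.1⟩, rfl⟩, e⟩

theorem cf_pure (n : ℕ) (v : UF) : CF (pure n) v := fun _ _ _ _ f _ _ => ⟨_, tendsto_pure_nhds f n⟩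

theorem cf_iso {u v : UF} (a : RK u v) (b : RK v u) : CF u v := by
  obtain ⟨f, rfl⟩ := a
  obtain ⟨g, e⟩ := b
  by_cases fv : Free v
  · have k : ∀ᶠ n in v, g (f n) = n := katetov (f := g ∘ f) e.symm
    exact fun Y _ _ h y y1 y2 => DC.ext (y := y ∘ f) fv h k
      (fun m r n s t => r.symm.trans (y1 t ▸ s)) (y2.mono (by rintro _ ⟨n, -, rfl⟩; exact ⟨_, rfl⟩))
  · rw [val_spec fv]; exact cf_pure _ _

theorem cf_sel {u v : UF} (hv : Selective v) : CF u v ↔ C u v :=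
  ⟨fun h => (mem_X h).comfort, fun h Y _ _ q f _ _ => h Y (sel_compact hv q) f⟩

theorem cf_not {u v : UF} (hv : ¬ Selective v) : CF u v ↔ (∃ n, u = pure n) ∨ RK u v ∧ RK v u :=
  ⟨fun h => or_iff_not_imp_left.2 fun r => iso_of_cf h (not_exists.1 r) hv,
    fun h => h.elim (fun ⟨n, e⟩ => e ▸ cf_pure n v) fun r => cf_iso r.1 r.2⟩

theorem tens_gt {u w : UF} (fw : Free w) : ¬ RK (tens u w) u := fun ⟨g, e⟩ => by
  have : ∀ᶠ i in u, ∀ᶠ j in w, g (Nat.pair i j).unpair.1 = Nat.pair i j :=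
    katetov (u := tens u w) (f := fun n => g n.unpair.1)
      ((congrArg (Ultrafilter.map g) (fst_tens u w)).trans e.symm)
  obtain ⟨i, r⟩ := this.exists
  exact fw (g i).unpair.2 (Ultrafilter.coe_le_coe.1 (le_pure_iff.2 (r.mono fun j s =>
    show j = _ by rw [Nat.unpair_pair] at s; rw [s, Nat.unpair_pair])))

theorem tens_free {u w : UF} (fu : Free u) : Free (tens u w) :=
  Pool.Agent.H34.WeakP.RK.free ⟨_, (fst_tens u w).symm⟩ fu

theorem tens_not {u w : UF} (fu : Free u) (fw : Free w) : ¬ Selective (tens u w) := fun h => by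
  obtain ⟨A, a, ⟨k, b⟩ | b⟩ := h.2 fun n => n.unpair.1
  · exact fu k ((fst_tens u w).symm.trans (Ultrafilter.coe_le_coe.1 (le_pure_iff.2
      (mem_of_superset (f := (tens u w : Filter ℕ)) a b))))
  · obtain ⟨i, r⟩ := (Pool.Agent.H34.WeakP.mem_bind.1 a).exists
    obtain ⟨j, s⟩ := Ultrafilter.nonempty_of_mem (show Nat.pair i ⁻¹' A ∈ w from r)
    exact fw j (Ultrafilter.coe_le_coe.1 (le_pure_iff.2 (mem_of_superset r fun m t =>
      (Nat.pair_eq_pair.1 (b t s (by simp))).2)))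

theorem ex : ∃ u v, RF u v ∧ C u v ∧ ¬ CF u v := by
  let u := hyperfilter ℕ
  have f : Free u := fun n e => Ultrafilter.compl_mem_iff_notMem.1
    (compl_mem_hyperfilter_of_finite (finite_singleton n)) (e.symm ▸ rfl : {n} ∈ u)
  have d := disc_iff.2 ⟨_, fun i => map_pure (w := u) (g := Nat.pair i)
    (π := fun n => n.unpair.1) (by simp)⟩
  exact ⟨u, tens u u, ⟨_, d.1, d.2, tb.2 rfl⟩, RK.comfort ⟨_, (fst_tens u u).symm⟩,
    fun h => tens_gt f (iso_of_cf h f (tens_not f f)).2⟩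

theorem tree : TreeLike CF ↔ ¬ ∃ v, Selective v := by
  refine ⟨fun h ⟨v, hv⟩ => ?_, fun h v a b p q => ?_⟩
  · have c : C v v := fun _ _ _ r => r
    have f := tens_free (w := v) hv.1
    exact (h v (tens v v) (tens (tens v v) v) ((cf_sel hv).2 (comfort_tens c c))
      ((cf_sel hv).2 (comfort_tens (comfort_tens c c) c))).elim
      (fun r => tens_gt hv.1 (iso_of_cf r f (tens_not f hv.1)).2)
      fun r => tens_gt hv.1 (iso_of_cf r (tens_free f) (tens_not hv.1 hv.1)).1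
  · rcases (cf_not fun r => h ⟨v, r⟩).1 p with ⟨n, rfl⟩ | p
    · exact .inl (cf_pure n b)
    rcases (cf_not fun r => h ⟨v, r⟩).1 q with ⟨n, rfl⟩ | q
    · exact .inr (cf_pure n a)
    exact .inl (cf_iso (RK.trans p.1 q.2) (RK.trans q.1 p.2))

end Pool.Agent.H84.Cf
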