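import Mathlib

set_option autoImplicit false

open Set Topology Filter Metric TopologicalSpace

namespace Pool.Agent.H84.Choquet

universe u v

/-- A relational winning strategy for the nonempty player in the strong Choquet game. -/
def Sieve {X : Type u} [TopologicalSpace X] {S : Type v} (V : S → Set X) (R : S → S → Prop)
    (s0 : S) : Prop :=
  (∀ s, IsOpen (V s)) ∧
  (∀ s, ∀ x ∈ V s, ∀ U ∈ 𝓝 x, ∃ s', R s s' ∧ x ∈ V s' ∧ V s' ⊆ U) ∧
  (∀ s : ℕ → S, s 0 = s0 → (∀ n, R (s n) (s (n + 1))) → (⋂ n, V (s n)).Nonempty)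

theorem pf_refine {Z : Type u} [MetricSpace Z] {ι : Type v} (O : ι → Set Z)
    (hO : ∀ i, IsOpen (O i)) :
    ∃ W : ι → Set Z, (∀ i, IsOpen (W i)) ∧ (∀ i, W i ⊆ O i) ∧ (⋃ i, O i) ⊆ (⋃ i, W i) ∧
      ∀ z, {i | z ∈ W i}.Finite := by
  set G : Set Z := ⋃ i, O i with hG
  have hGo : IsOpen G := isOpen_iUnion hO
  obtain ⟨v, vo, vc, vf, vu⟩ := precise_refinement (X := G) (fun i => Subtype.val ⁻¹' O i)
    (fun i => (hO i).preimage continuous_subtype_val) (by
      ext z
      simp only [mem_iUnion, mem_preimage, mem_univ, iff_true]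
      exact mem_iUnion.1 z.2)
  refine ⟨fun i => Subtype.val '' v i, fun i => hGo.isOpenMap_subtype_val _ (vo i), ?_, ?_, ?_⟩
  · rintro i _ ⟨z, hz, rfl⟩
    exact vu i hz
  · intro z hz
    have : (⟨z, hz⟩ : G) ∈ ⋃ i, v i := by rw [vc]; trivial
    obtain ⟨i, hi⟩ := mem_iUnion.1 this
    exact mem_iUnion.2 ⟨i, ⟨z, hz⟩, hi, rfl⟩
  · intro z
    by_cases hz : z ∈ G
    · refine (vf.point_finite ⟨z, hz⟩).subset ?_
      rintro i ⟨w, hw, rfl⟩
      exact hw
    · convert finite_empty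
      ext i
      simp only [mem_ofPred_eq, mem_empty_iff_false, iff_false]
      rintro ⟨w, -, rfl⟩
      exact hz w.2

theorem konig {α : Type u} (T : List α → Prop) (htail : ∀ a l, T (a :: l) → T l)
    (hfin : ∀ l, {a | T (a :: l)}.Finite) (hlen : ∀ n, ∃ l, l.length = n ∧ T l) :
    ∃ l : ℕ → List α, l 0 = [] ∧ (∀ n, ∃ a, l (n + 1) = a :: l n) ∧ ∀ n, T (l n) := by
  have hdrop : ∀ (m l : List α), T (m ++ l) → T l := by
    intro m
    induction m with
    | nil => intro l h; exact h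
    | cons a m ih => intro l h; exact ih l (htail a _ h)
  let G : List α → Prop := fun l => ∀ n, ∃ m : List α, m.length = n ∧ T (m ++ l)
  have h0 : G [] := fun n => by
    obtain ⟨l, hl, hT⟩ := hlen n
    exact ⟨l, hl, by simpa using hT⟩
  have hstep : ∀ l, G l → ∃ a, G (a :: l) := by
    intro l hl
    by_contra hc
    push Not at hc
    have hc' : ∀ a, ∃ n, ∀ m : List α, m.length = n → ¬ T (m ++ a :: l) := by
      intro a
      have := hc a
      simp only [G, not_forall, not_exists, not_and] at this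
      exact this
    choose N hN using hc'
    obtain ⟨B, hB⟩ := ((hfin l).image N).bddAbove
    obtain ⟨m, hm, hT⟩ := hl (B + 1)
    rcases List.eq_nil_or_concat m with rfl | ⟨m', a, rfl⟩
    · simp at hm
    · have hT' : T (m' ++ a :: l) := by simpa using hT
      have hm' : m'.length = B := by simpa using hm
      have ha : N a ≤ B := hB ⟨a, hdrop m' _ hT', rfl⟩
      apply hN a (m'.drop (B - N a)) (by simp [hm']; omega)
      apply hdrop (m'.take (B - N a))
      rwa [← List.append_assoc, List.take_append_drop]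
  have hne : Nonempty α := by
    obtain ⟨a, -⟩ := hstep [] h0
    exact ⟨a⟩
  choose! f hf using hstep
  let l : ℕ → List α := fun n => Nat.rec [] (fun _ l => f l :: l) n
  have hG : ∀ n, G (l n) := by
    intro n
    induction n with
    | zero => exact h0
    | succ n ih => exact hf _ ih
  refine ⟨l, rfl, fun n => ⟨f (l n), rfl⟩, fun n => ?_⟩
  obtain ⟨m, hm, hT⟩ := hG n 0
  exact hdrop m _ hT

theorem gdelta_of_sieve {X : Type u} {Z : Type u} [TopologicalSpace X] [MetricSpace Z]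
    (e : X → Z) (he : IsInducing e) {S : Type v} {V : S → Set X} {R : S → S → Prop} {s0 : S}
    (h : Sieve V R s0) (h0 : V s0 = univ) :
    ∃ G : ℕ → Set Z, (∀ n, IsOpen (G n)) ∧ range e = ⋂ n, G n := by
  obtain ⟨hVo, hstep, hchain⟩ := h
  have key : ∀ (N : S × Set Z) (n : ℕ), ∃ c : X → S × Set Z,
      (IsOpen N.2 → e ⁻¹' N.2 ⊆ V N.1 →
        (∀ x, IsOpen (c x).2 ∧ e ⁻¹' (c x).2 ⊆ V (c x).1) ∧ e ⁻¹' N.2 ⊆ ⋃ x, e ⁻¹' (c x).2) ∧
      (∀ x, (c x).2 ⊆ N.2) ∧ (∀ z, {x | z ∈ (c x).2}.Finite) ∧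
      ∀ x, (c x).2.Nonempty → R N.1 (c x).1 ∧ (c x).2 ⊆ ball (e x) (1 / (n + 1)) ∧
        V (c x).1 ⊆ e ⁻¹' ball (e x) (1 / (n + 1)) := by
    rintro ⟨s, W⟩ n
    by_cases hW : IsOpen W ∧ e ⁻¹' W ⊆ V s
    · obtain ⟨hWo, hWV⟩ := hW
      have h1 : ∀ x, ∃ (s' : S) (O : Set Z), IsOpen O ∧ e ⁻¹' O ⊆ V s' ∧ O ⊆ W ∧
          (e x ∈ W → e x ∈ O) ∧ (O.Nonempty → R s s' ∧ O ⊆ ball (e x) (1 / (n + 1)) ∧
            V s' ⊆ e ⁻¹' ball (e x) (1 / (n + 1))) := by
        intro x
        by_cases hx : e x ∈ W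
        · have hpos : (0 : ℝ) < 1 / (n + 1) := by positivity
          obtain ⟨s', hR, hxs, hsU⟩ := hstep s x (hWV hx) (e ⁻¹' ball (e x) (1 / (n + 1)))
            (he.continuous.continuousAt.preimage_mem_nhds (ball_mem_nhds _ hpos))
          obtain ⟨O, hO, hOe⟩ := he.isOpen_iff.1 (hVo s')
          refine ⟨s', O ∩ W ∩ ball (e x) (1 / (n + 1)), (hO.inter hWo).inter isOpen_ball, ?_,
            fun z hz => hz.1.2, fun _ => ⟨⟨?_, hx⟩, mem_ball_self hpos⟩,
            fun _ => ⟨hR, fun z hz => hz.2, hsU⟩⟩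
          · intro y hy
            rw [← hOe]; exact hy.1.1
          · have : x ∈ e ⁻¹' O := by rw [hOe]; exact hxs
            exact this
        · exact ⟨s, ∅, isOpen_empty, by simp, by simp, fun h => (hx h).elim, by simp⟩
      choose s' O hOo hOV hOW hOx hOR using h1
      obtain ⟨W', hW'o, hW'O, hcov, hpf⟩ := pf_refine O hOo
      refine ⟨fun x => (s' x, W' x), fun _ _ => ⟨fun x => ⟨hW'o x, ?_⟩, ?_⟩,
        fun x => (hW'O x).trans (hOW x), hpf, ?_⟩
      · exact (preimage_mono (hW'O x)).trans (hOV x)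
      · intro x hx
        obtain ⟨y, hy⟩ := mem_iUnion.1 (hcov (mem_iUnion.2 ⟨x, hOx x hx⟩))
        exact mem_iUnion.2 ⟨y, hy⟩
      · intro x hx
        obtain ⟨a, b, c⟩ := hOR x (hx.mono (hW'O x))
        exact ⟨a, (hW'O x).trans b, c⟩
    · refine ⟨fun _ => (s, ∅), fun a b => (hW ⟨a, b⟩).elim, by simp, by simp, by simp⟩
  choose c hc1 hc2 hc3 hc4 using key
  let node : List X → S × Set Z := fun l =>
    List.rec (s0, univ) (fun x l N => c N l.length x) l
  have node_cons : ∀ x l, node (x :: l) = c (node l) l.length x := fun _ _ => rfl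
  have hgood : ∀ l, IsOpen (node l).2 ∧ e ⁻¹' (node l).2 ⊆ V (node l).1 := by
    intro l
    induction l with
    | nil => exact ⟨isOpen_univ, by show _ ⊆ V s0; rw [h0]; exact subset_univ _⟩
    | cons x l ih => exact (hc1 _ _ ih.1 ih.2).1 x
  refine ⟨fun n => ⋃ l : {l : List X // l.length = n}, (node l.1).2,
    fun n => isOpen_iUnion fun l => (hgood l.1).1, ?_⟩
  apply Subset.antisymm
  · rintro _ ⟨x, rfl⟩
    refine mem_iInter.2 fun n => ?_
    induction n with
    | zero => exact mem_iUnion.2 ⟨⟨[], rfl⟩, trivial⟩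
    | succ n ih =>
      obtain ⟨⟨l, hl⟩, hx⟩ := mem_iUnion.1 ih
      obtain ⟨y, hy⟩ := mem_iUnion.1 ((hc1 _ l.length (hgood l).1 (hgood l).2).2 hx)
      exact mem_iUnion.2 ⟨⟨y :: l, by simp [hl]⟩, hy⟩
  · intro z hz
    obtain ⟨l, hl0, hls, hlT⟩ := konig (fun l => z ∈ (node l).2)
      (fun a l h => hc2 _ _ _ h) (fun l => hc3 _ _ z) (fun n => by
        obtain ⟨⟨l, hl⟩, hx⟩ := mem_iUnion.1 (mem_iInter.1 hz n)
        exact ⟨l, hl, hx⟩)
    have hlen : ∀ n, (l n).length = n := by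
      intro n
      induction n with
      | zero => simp [hl0]
      | succ n ih => obtain ⟨a, ha⟩ := hls n; simp [ha, ih]
    obtain ⟨x, hx⟩ := hchain (fun n => (node (l n)).1) (by simp only [hl0]; rfl) (by
      intro n
      obtain ⟨a, ha⟩ := hls n
      have := hlT (n + 1)
      simp only [ha, node_cons] at this ⊢
      exact (hc4 _ _ _ ⟨z, this⟩).1)
    refine ⟨x, ?_⟩
    apply eq_of_forall_dist_le
    intro ε hε
    obtain ⟨n, hn⟩ := exists_nat_one_div_lt (half_pos hε)
    obtain ⟨a, ha⟩ := hls n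
    have h1 := hlT (n + 1)
    have h2 := mem_iInter.1 hx (n + 1)
    simp only [ha, node_cons] at h1 h2
    obtain ⟨-, b1, b2⟩ := hc4 _ _ _ ⟨z, h1⟩
    have c1 := mem_ball.1 (b1 h1)
    have c2 := mem_ball.1 (b2 h2)
    rw [hlen] at c1 c2
    have := dist_triangle_right (e x) z (e a)
    linarith

theorem complete_of_gdelta {X : Type u} {Z : Type u} [TopologicalSpace X] [MetricSpace Z]
    [CompleteSpace Z] (e : X → Z) (he : IsEmbedding e) (G : ℕ → Set Z) (hG : ∀ n, IsOpen (G n))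
    (hr : range e = ⋂ n, G n) : IsCompletelyMetrizableSpace X := by
  have hmem : ∀ x n, e x ∈ G n := fun x n => mem_iInter.1 (hr ▸ mem_range_self x) n
  let O : ℕ → Opens Z := fun n => ⟨G n, hG n⟩
  let f : X → (∀ n, (O n).CompleteCopy) := fun x n => (⟨e x, hmem x n⟩ : O n)
  have hval : ∀ n, Continuous (fun w : (∀ n, (O n).CompleteCopy) => (w n).1) :=
    fun n => continuous_subtype_val.comp (continuous_apply n)
  have hf : Continuous f := continuous_pi fun n => he.continuous.subtype_mk _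
  have hemb : IsEmbedding f := IsEmbedding.of_comp hf (hval 0) he
  have hcl : IsClosed (range f) := by
    have : range f = ⋂ n, {w | (w n).1 = (w 0).1} := by
      ext w
      simp only [mem_range, mem_iInter, mem_ofPred_eq]
      constructor
      · rintro ⟨x, rfl⟩ n; rfl
      · intro hw
        have : (w 0).1 ∈ range e := by
          rw [hr]
          exact mem_iInter.2 fun n => hw n ▸ (w n).2
        obtain ⟨x, hx⟩ := this
        refine ⟨x, funext fun n => Subtype.ext ?_⟩
        rw [hw n]; exact hx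
    rw [this]
    exact isClosed_iInter fun n => isClosed_eq (hval n) (hval 0)
  exact (IsClosedEmbedding.mk hemb hcl).IsCompletelyMetrizableSpace

/-- Choquet's theorem. -/
theorem complete_of_sieve {X : Type u} [MetricSpace X] {S : Type v} {V : S → Set X}
    {R : S → S → Prop} {s0 : S} (h : Sieve V R s0) (h0 : V s0 = univ) :
    IsCompletelyMetrizableSpace X := by
  have he : IsEmbedding ((↑) : X → UniformSpace.Completion X) :=
    (UniformSpace.Completion.isUniformEmbedding_coe X).isEmbedding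
  obtain ⟨G, hG, hr⟩ := gdelta_of_sieve _ he.isInducing h h0
  exact complete_of_gdelta _ he G hG hr

theorem glue {X : Type u} [TopologicalSpace X] {S : Type v} (p : X)
    (h : ∀ x, x ≠ p → ∃ (V : S → Set X) (R : S → S → Prop) (s0 : S), Sieve V R s0 ∧ x ∈ V s0) :
    ∃ (V : Set X ⊕ (X × S) → Set X) (R : Set X ⊕ (X × S) → Set X ⊕ (X × S) → Prop)
      (s0 : Set X ⊕ (X × S)), Sieve V R s0 ∧ V s0 = univ := by
  classical
  by_cases hS : Nonempty S
  swap
  · refine ⟨fun s => Sum.elim interior (fun _ => ∅) s, fun _ s' => ∃ U, s' = Sum.inl U ∧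
      p ∈ interior U, Sum.inl univ, ⟨?_, ?_, ?_⟩, by simp⟩
    · rintro (U | s) <;> simp
    · intro s x hx U hU
      by_cases hxp : x = p
      · subst hxp
        exact ⟨Sum.inl U, ⟨U, rfl, mem_interior_iff_mem_nhds.2 hU⟩,
          mem_interior_iff_mem_nhds.2 hU, interior_subset⟩
      · obtain ⟨_, _, s0, -⟩ := h x hxp
        exact (hS ⟨s0⟩).elim
    · intro s hs hR
      refine ⟨p, mem_iInter.2 fun n => ?_⟩
      cases n with
      | zero => simp [hs]
      | succ n => obtain ⟨U, hU, hp⟩ := hR n; simpa [hU] using hp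
  obtain ⟨d⟩ := hS
  have h' : ∀ x, ∃ (V : S → Set X) (R : S → S → Prop) (s0 : S), (∀ s, IsOpen (V s)) ∧
      (x ≠ p → Sieve V R s0 ∧ x ∈ V s0) := by
    intro x
    by_cases hx : x = p
    · exact ⟨fun _ => ∅, fun _ _ => False, d, by simp, fun h => (h hx).elim⟩
    · obtain ⟨V, R, s0, h1, h2⟩ := h x hx
      exact ⟨V, R, s0, h1.1, fun _ => ⟨h1, h2⟩⟩
  choose V R s0 hVo hV using h'
  let VV : Set X ⊕ (X × S) → Set X := Sum.elim interior (fun q => V q.1 q.2)
  let R0 : Set X ⊕ (X × S) → Set X ⊕ (X × S) → Prop := fun a b =>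
    match a, b with
    | Sum.inl _, Sum.inl U => p ∈ interior U
    | Sum.inl _, Sum.inr q => q.1 ≠ p ∧ R q.1 (s0 q.1) q.2
    | Sum.inr _, Sum.inl _ => False
    | Sum.inr q, Sum.inr q' => q'.1 = q.1 ∧ R q.1 q.2 q'.2
  let I : Set X ⊕ (X × S) → Prop := Sum.elim (fun _ => True) (fun q => q.1 ≠ p)
  refine ⟨fun s => {x | I s ∧ x ∈ VV s}, fun a b => R0 a b ∧ I b ∧ VV b ⊆ VV a, Sum.inl univ,
    ⟨?_, ?_, ?_⟩, by simp [I, VV]⟩
  · intro s
    by_cases hs : I s
    · simp only [hs, true_and, ofPred_mem_eq]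
      rcases s with U | q
      · exact isOpen_interior
      · exact hVo _ _
    · simp [hs]
  · rintro (W | ⟨y, s⟩) x ⟨hI, hx⟩ U hU
    · have hW : interior W ∈ 𝓝 x := isOpen_interior.mem_nhds hx
      by_cases hxp : x = p
      · subst hxp
        have hm : x ∈ interior (U ∩ interior W) :=
          mem_interior_iff_mem_nhds.2 (inter_mem hU hW)
        refine ⟨Sum.inl (U ∩ interior W), ⟨hm, trivial, ?_⟩, ⟨trivial, hm⟩, ?_⟩
        · exact interior_subset.trans inter_subset_right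
        · exact fun z hz => (interior_subset hz.2).1
      · obtain ⟨h1, h2⟩ := hV x hxp
        obtain ⟨s', hR, hxs, hsU⟩ := h1.2.1 _ x h2 _ (inter_mem hU hW)
        exact ⟨Sum.inr (x, s'), ⟨⟨hxp, hR⟩, hxp, fun z hz => (hsU hz).2⟩, ⟨hxp, hxs⟩,
          fun z hz => (hsU hz.2).1⟩
    · obtain ⟨h1, -⟩ := hV y hI
      obtain ⟨s', hR, hxs, hsU⟩ := h1.2.1 s x hx _ (inter_mem hU ((hVo y s).mem_nhds hx))
      exact ⟨Sum.inr (y, s'), ⟨⟨rfl, hR⟩, hI, fun z hz => (hsU hz).2⟩, ⟨hI, hxs⟩,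
        fun z hz => (hsU hz.2).1⟩
  · intro s hs hR
    have hI : ∀ n, I (s n) := by
      intro n
      cases n with
      | zero => rw [hs]; trivial
      | succ n => exact (hR n).2.1
    have hanti : Antitone (fun n => VV (s n)) := antitone_nat_of_succ_le fun n => (hR n).2.2
    suffices ∃ x, ∀ n, ∃ m, n ≤ m ∧ x ∈ VV (s m) by
      obtain ⟨x, hx⟩ := this
      refine ⟨x, mem_iInter.2 fun n => ⟨hI n, ?_⟩⟩
      obtain ⟨m, hm, hxm⟩ := hx n
      exact hanti hm hxm
    by_cases hall : ∀ n, ∃ U, s n = Sum.inl U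
    · refine ⟨p, fun n => ⟨n + 1, by omega, ?_⟩⟩
      obtain ⟨U, hU⟩ := hall n
      obtain ⟨U', hU'⟩ := hall (n + 1)
      have := (hR n).1
      rw [hU, hU'] at this
      rw [hU']
      exact this
    · have hex : ∃ n, ¬ ∃ U, s n = Sum.inl U := by simpa using hall
      have hk := Nat.find_spec hex
      have hk0 : Nat.find hex ≠ 0 := by
        intro h0
        rw [h0] at hk
        exact hk ⟨univ, hs⟩
      obtain ⟨k, hk'⟩ := Nat.exists_eq_succ_of_ne_zero hk0
      have hkl : ∃ U, s k = Sum.inl U := by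
        have := Nat.find_min hex (show k < Nat.find hex by omega)
        simpa using this
      rw [hk'] at hk
      obtain ⟨U, hU⟩ := hkl
      obtain ⟨⟨y, t0⟩, hy⟩ : ∃ q, s (k + 1) = Sum.inr q := by
        rcases hsk : s (k + 1) with W | q
        · exact (hk ⟨W, hsk⟩).elim
        · exact ⟨q, rfl⟩
      have hfirst := (hR k).1
      rw [hU, hy] at hfirst
      have hall2 : ∀ j, ∃ t, s (k + 1 + j) = Sum.inr (y, t) := by
        intro j
        induction j with
        | zero => exact ⟨t0, hy⟩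
        | succ j ih =>
          obtain ⟨t, ht⟩ := ih
          have := (hR (k + 1 + j)).1
          rw [ht] at this
          show ∃ t, s (k + 1 + j + 1) = Sum.inr (y, t)
          rcases hsk : s (k + 1 + j + 1) with W | ⟨y', t'⟩
          · rw [hsk] at this; exact this.elim
          · rw [hsk] at this
            obtain ⟨rfl, -⟩ := this
            exact ⟨t', rfl⟩
      choose t ht using hall2
      have ht0 : t 0 = t0 := by
        have := (ht 0).symm.trans hy
        simpa using this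
      obtain ⟨x, hx⟩ := (hV y hfirst.1).1.2.2 (fun n => Nat.casesOn n (s0 y) t) rfl (by
        intro n
        cases n with
        | zero => show R y (s0 y) (t 0); rw [ht0]; exact hfirst.2
        | succ n =>
          have := (hR (k + 1 + n)).1
          rw [ht n, show k + 1 + n + 1 = k + 1 + (n + 1) from rfl, ht (n + 1)] at this
          exact this.2)
      refine ⟨x, fun n => ⟨k + 1 + n, by omega, ?_⟩⟩
      rw [ht n]
      exact mem_iInter.1 hx (n + 1)

end Pool.Agent.H84.Choquet
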