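import Pool.Agent.H84.LuzDefs

/-! Under CH every Luzin set has a non-Menger product with a set whose powers are Rothberger. -/

namespace Pool.Agent.H84.Luz

open Set Filter Topology Pool.Agent.H84.LuzDefs
open scoped Cardinal

/-- The number of `true` values below `m`. -/
def cnt (q : ℕ → Bool) (m : ℕ) : ℕ := ∑ i ∈ Finset.range m, cond (q i) 1 0

theorem cnt_cont (m : ℕ) : Continuous fun q => cnt q m :=
  continuous_finsetSum _ fun i _ =>
    (continuous_of_discreteTopology (f := fun b : Bool => cond b 1 0)).comp (continuous_apply i)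

theorem cnt_mono (q : ℕ → Bool) {m n : ℕ} (h : m ≤ n) : cnt q m ≤ cnt q n :=
  Finset.sum_le_sum_of_subset (Finset.range_mono h)

theorem cnt_unb {q : ℕ → Bool} (h : ∃ᶠ i in atTop, q i = true) (n : ℕ) : ∃ m, n < cnt q m := by
  have : ∀ n, ∃ m, n ≤ cnt q m := by
    intro n
    induction n with
    | zero => exact ⟨0, Nat.zero_le _⟩
    | succ n ih =>
      obtain ⟨m, hm⟩ := ih
      obtain ⟨i, hi, hi'⟩ := frequently_atTop.1 h m
      refine ⟨i + 1, ?_⟩
      have := cnt_mono q hi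
      rw [cnt, Finset.sum_range_succ, hi']
      exact Nat.succ_le_succ (hm.trans this)
  exact this (n + 1)

theorem cnt_le_card {q : ℕ → Bool} {m : ℕ} (T : Finset ℕ) (h : ∀ i < m, q i = true → i ∈ T) :
    cnt q m ≤ T.card := by
  have : cnt q m = ((Finset.range m).filter fun i => q i = true).card := by
    rw [Finset.card_filter]
    exact Finset.sum_congr rfl fun i _ => by cases q i <;> simp
  rw [this]
  exact Finset.card_le_card fun i hi =>
    h i (Finset.mem_range.1 (Finset.mem_filter.1 hi).1) (Finset.mem_filter.1 hi).2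

theorem cnt_le_add {q a b : ℕ → Bool} (h : ∀ i, q i = true → a i = true ∨ b i = true) (m : ℕ) :
    cnt q m ≤ cnt a m + cnt b m := by
  rw [cnt, cnt, cnt, ← Finset.sum_add_distrib]
  refine Finset.sum_le_sum fun i _ => ?_
  have := h i
  revert this
  cases q i <;> cases a i <;> cases b i <;> simp

theorem generic (P : ℕ → (ℕ → Bool) → Prop) (ho : ∀ n, IsOpen {z | P n z})
    (h : ∀ (z : ℕ → Bool) (l N : ℕ), ∃ z' n, N ≤ n ∧ P n z' ∧ ∀ i < l, z' i = z i) :
    IsMeagre {z | ¬ ∃ᶠ n in atTop, P n z} := by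
  have : ∀ N, (⋃ n ∈ Ici N, {z | P n z}) ∈ residual (ℕ → Bool) := fun N => by
    refine residual_of_dense_open (isOpen_biUnion fun n _ => ho n) (dense_iff_inter_open.2 ?_)
    rintro U hU ⟨z, hz⟩
    obtain ⟨s, v, h1, h2⟩ := isOpen_pi_iff.1 hU z hz
    obtain ⟨l, hl⟩ := s.bddAbove
    obtain ⟨z', n, a, b, c⟩ := h z (l + 1) N
    refine ⟨z', h2 fun i hi => ?_, mem_biUnion a b⟩
    rw [c i (Nat.lt_succ_of_le (hl hi))]
    exact (h1 i hi).2
  refine mem_of_superset (countable_iInter_mem.2 this) fun z hz hn => hn ?_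
  refine frequently_atTop.2 fun N => ?_
  obtain ⟨n, a, b⟩ := mem_iUnion₂.1 (mem_iInter.1 hz N)
  exact ⟨n, a, b⟩

theorem countable_ev (z : ℕ → Bool) : {q : ℕ → Bool | ∀ᶠ i in atTop, q i = z i}.Countable := by
  have : ∀ N, {q : ℕ → Bool | ∀ i, N ≤ i → q i = z i}.Finite := fun N =>
    Finite.of_finite_image (f := fun q (i : Fin N) => q i) (toFinite _) fun q hq q' hq' e => by
      ext i
      rcases lt_or_ge i N with h | h
      · exact congrFun e ⟨i, h⟩
      · rw [hq i h, hq' i h]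
  refine (countable_iUnion fun N => (this N).countable).mono fun q hq => ?_
  obtain ⟨N, hN⟩ := eventually_atTop.1 hq
  exact mem_iUnion.2 ⟨N, hN⟩

/-- Countable intersection with every meager set. -/
def Lz (X : Set (ℕ → Bool)) : Prop := ∀ M, IsMeagre M → (X ∩ M).Countable

theorem unc : ¬ (univ : Set (ℕ → Bool)).Countable := by
  rw [← Cardinal.le_aleph0_iff_set_countable, Cardinal.mk_univ]
  simpa using Cardinal.aleph0_lt_continuum

theorem avoid {X : Set (ℕ → Bool)} (hX : Lz X) {e : ℕ → ℕ} (he : StrictMono e)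
    (h : ∃ᶠ i in atTop, i ∉ range e) (x : ℕ → Bool) :
    ∃ z : ℕ → Bool, (∀ i ∉ range e, z i = x i) ∧ ∀ x' ∈ X, ¬ ∀ᶠ i in atTop, x' i = z i := by
  have h1 := hX _ (generic (fun n z => n ∉ range e ∧ z n ≠ x n) (fun n => by
    by_cases a : n ∈ range e
    · simp [a]
    · simpa [a] using (isOpen_discrete {b | b ≠ x n}).preimage
        (continuous_apply (A := fun _ : ℕ => Bool) n)) fun z l N => by
    obtain ⟨n, a, b⟩ := frequently_atTop.1 h (max l N)
    exact ⟨Function.update z n (!x n), n, le_of_max_le_right a, ⟨b, by simp⟩, fun i hi =>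
      Function.update_of_ne (by have := le_of_max_le_left a; omega) _ _⟩)
  have h2 := h1.biUnion fun x' _ => countable_ev fun j => x' (e j)
  obtain ⟨t, ht⟩ : ∃ t : ℕ → Bool, t ∉ _ := not_forall.1 fun hc =>
    unc (h2.mono fun t _ => hc t)
  refine ⟨Function.extend e t x, fun i hi => Function.extend_apply' _ _ _ hi, fun x' hx' hc =>
    ht (mem_biUnion (x := x') ⟨hx', ?_⟩ ?_)⟩
  · refine not_frequently.2 (hc.mono fun i hi hn => hn.2 ?_)
    rw [hi, Function.extend_apply' _ _ _ hn.1]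
  · refine (he.tendsto_atTop.eventually hc).mono fun j hj => ?_
    rw [hj, he.injective.extend_apply]

theorem step {X : Set (ℕ → Bool)} (hX : Lz X) (hu : ¬ X.Countable)
    (hc : ∀ x ∈ X, ∃ᶠ i in atTop, x i = false) {s : ℕ → ℕ} (hs : StrictMono s) (b g : ℕ → ℕ) :
    ∃ y : ℕ → Bool, (∃ᶠ j in atTop, cnt y (b (s j)) ≤ s j) ∧
      (∀ x ∈ X, (∀ i, x i = true ∨ y i = true) → ∃ᶠ i in atTop, (x i && y i) = true) ∧
      ∃ x ∈ X, (∀ i, x i = true ∨ y i = true) ∧ ∀ n, cnt (fun i => x i && y i) (g n) ≤ n := by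
  have m1 := generic (fun j x => 2 * cnt (fun i => !x i) (b (s j)) ≤ s j) (fun j =>
    (isOpen_discrete {c | 2 * c ≤ s j}).preimage ((cnt_cont _).comp (by fun_prop)))
    fun z l N => ⟨fun i => if i < l then z i else true, max N (2 * l), le_max_left _ _, by
      refine le_trans ?_ ((le_max_right N _).trans (hs.id_le _))
      refine Nat.mul_le_mul_left 2 ((cnt_le_card (Finset.range l) fun i _ hi => ?_).trans_eq
        (Finset.card_range l))
      by_contra hn
      simp only [Finset.mem_range] at hn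
      simp [hn] at hi, fun i hi => by simp [hi]⟩
  have m2 := generic (fun n x => x n = true) (fun n =>
    (isOpen_discrete {true}).preimage (continuous_apply (A := fun _ : ℕ => Bool) n))
    fun z l N => ⟨Function.update z (max l N) true, max l N, le_max_right _ _, by simp,
      fun i hi => Function.update_of_ne (by have := le_max_left l N; omega) _ _⟩
  obtain ⟨x, hx, hx'⟩ := not_subset.1 fun h =>
    hu ((hX _ (m1.union m2)).mono (subset_inter subset_rfl h))
  simp only [mem_union, mem_ofPred_eq, not_or, not_not] at hx'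
  obtain ⟨e, he, he'⟩ := extraction_forall_of_frequently
    (P := fun j k => x k = true ∧ ∀ n ∈ Iic (2 * j + 1), max (b n) (g n) ≤ k) fun j =>
      hx'.2.and_eventually ((eventually_all_finite (finite_Iic _)).2 fun n _ =>
        eventually_ge_atTop _)
  have h1 : ∀ (d : ℕ → Bool) (n m : ℕ), (∀ i, d i = true → i ∈ range e) → m ≤ max (b n) (g n) →
      2 * cnt d m ≤ n := by
    intro d n m hd hm
    have := (cnt_le_card (q := d) (m := m) ((Finset.range (n / 2)).image e) fun i hi hi' => by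
      obtain ⟨j, rfl⟩ := hd i hi'
      refine Finset.mem_image_of_mem _ (Finset.mem_range.2 ?_)
      by_contra hn
      have := (he' j).2 n (show n ≤ 2 * j + 1 by omega)
      omega).trans Finset.card_image_le
    rw [Finset.card_range] at this
    omega
  obtain ⟨z, z1, z2⟩ := avoid hX he ((hc x hx).mono fun i hi ⟨j, hj⟩ => by
    have := (he' j).1
    rw [hj, hi] at this
    cases this) x
  have h2 : ∀ i, (x i && !z i) = true → i ∈ range e := fun i hi => by
    by_contra hn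
    rw [z1 i hn] at hi
    simp at hi
  refine ⟨fun i => !z i, hx'.1.mono fun j hj => ?_, fun x' hx' h => ?_, x, hx, fun i => ?_,
    fun n => ?_⟩
  · have a := cnt_le_add (q := fun i => !z i) (a := fun i => !x i) (b := fun i => x i && !z i)
      (fun i => by cases x i <;> cases z i <;> simp) (b (s j))
    have := h1 _ (s j) _ h2 (le_max_left _ _)
    omega
  · by_contra hn
    refine z2 x' hx' ((not_frequently.1 hn).mono fun i hi => ?_)
    have := h i
    beta_reduce at this hi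
    revert this hi
    cases x' i <;> cases z i <;> simp
  · by_cases a : i ∈ range e
    · obtain ⟨j, rfl⟩ := a
      exact Or.inl (he' j).1
    · beta_reduce
      rw [z1 i a]
      cases x i <;> simp
  · have := h1 _ n _ h2 (le_max_right _ _)
    beta_reduce
    omega

theorem wf_rec {I α : Type*} [LinearOrder I] [WellFoundedLT I] [Nonempty α]
    (P : I → (I → α) → α → Prop)
    (hP : ∀ g f f' a, (∀ h < g, f h = f' h) → P g f a → P g f' a) (h : ∀ g f, ∃ a, P g f a) :
    ∃ f, ∀ g, P g f (f g) := by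
  classical
  choose c hc using h
  let F : (g : I) → ((h : I) → h < g → α) → α := fun g prev =>
    c g fun h => if hh : h < g then prev h hh else Classical.arbitrary α
  refine ⟨wellFounded_lt.fix F, fun g => ?_⟩
  rw [wellFounded_lt.fix_eq F g]
  exact hP g _ _ _ (fun h hh => dif_pos hh) (hc _ _)

theorem pseudo {J : Type*} {S : Set J} (hS : S.Countable) (A : J → ℕ → Prop)
    (h : ∀ T : Set J, T.Finite → T ⊆ S → ∃ᶠ n in atTop, ∀ p ∈ T, A p n) :
    ∃ s : ℕ → ℕ, StrictMono s ∧ ∀ p ∈ S, ∀ᶠ j in atTop, A p (s j) := by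
  rcases S.eq_empty_or_nonempty with rfl | hne
  · exact ⟨id, strictMono_id, by simp⟩
  · obtain ⟨c, rfl⟩ := hS.exists_eq_range hne
    obtain ⟨s, hs, hs'⟩ := extraction_forall_of_frequently fun j =>
      h (c '' Iic j) ((finite_Iic j).image c) (image_subset_range _ _)
    refine ⟨s, hs, ?_⟩
    rintro _ ⟨k, rfl⟩
    exact (eventually_ge_atTop k).mono fun j hj => hs' j _ ⟨k, hj, rfl⟩

theorem dom {H : Set (ℕ → ℕ)} (hH : H.Countable) :
    ∃ b : ℕ → ℕ, ∀ h ∈ H, ∀ᶠ n in atTop, h n ≤ b n := by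
  obtain ⟨c, hc⟩ := (hH.insert id).exists_eq_range (insert_nonempty _ _)
  refine ⟨fun n => (Finset.range (n + 1)).sup fun j => c j n, fun h hh => ?_⟩
  obtain ⟨k, rfl⟩ : h ∈ range c := hc ▸ Or.inr hh
  exact (eventually_ge_atTop k).mono fun n hn =>
    Finset.le_sup (f := fun j => c j n) (Finset.mem_range.2 (Nat.lt_succ_of_le hn))

theorem family (ch : Cardinal.continuum.{0} = Cardinal.aleph 1) {X : Set (ℕ → Bool)} (hX : Lz X)
    (hu : ¬ X.Countable) (hc : ∀ x ∈ X, ∃ᶠ i in atTop, x i = false) :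
    ∃ y : (ℕ → ℕ) → ℕ → Bool,
      (∀ b : ℕ → ℕ, ∃ C : Set (ℕ → ℕ), C.Countable ∧ ∀ T : Set (ℕ → ℕ), T.Finite →
        (∀ h ∈ T, h ∉ C) → ∃ n, ∀ h ∈ T, cnt (y h) (b n) ≤ n) ∧
      ∀ g, (∀ x ∈ X, (∀ i, x i = true ∨ y g i = true) → ∃ᶠ i in atTop, (x i && y g i) = true) ∧
        ∃ x ∈ X, (∀ i, x i = true ∨ y g i = true) ∧
          ∀ n, cnt (fun i => x i && y g i) (g n) ≤ n := by
  classical
  obtain ⟨e⟩ : Nonempty ((ℕ → ℕ) ≃ (Cardinal.aleph.{0} 1).ord.ToType) := by
    rw [← Cardinal.eq, Cardinal.mk_ord_toType, ← ch]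
    simp
  set I := (Cardinal.aleph.{0} 1).ord.ToType
  have hlt : ∀ i : I, (Iio i).Countable := fun i =>
    Cardinal.le_aleph0_iff_set_countable.1 (Cardinal.lt_aleph_one_iff.1
      ((Cardinal.mk_Iio_lt i (by simp [I])).trans_eq (Cardinal.mk_ord_toType _)))
  have hle : ∀ i : I, (Iic i).Countable := fun i => by
    rw [← Iio_insert]
    exact (hlt i).insert i
  let Inv : (I → Prop) → (I → ℕ → Bool) → Prop := fun R f => ∀ T : Set (I × I), T.Finite →
    T ⊆ {p | R p.1 ∧ p.2 ≤ p.1} → ∃ᶠ n in atTop, ∀ p ∈ T, cnt (f p.1) (e.symm p.2 n) ≤ n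
  obtain ⟨y, hy⟩ := wf_rec (I := I) (α := ℕ → Bool) (fun g f a => Inv (· < g) f →
      ((∀ x ∈ X, (∀ i, x i = true ∨ a i = true) → ∃ᶠ i in atTop, (x i && a i) = true) ∧
        ∃ x ∈ X, (∀ i, x i = true ∨ a i = true) ∧
          ∀ n, cnt (fun i => x i && a i) (e.symm g n) ≤ n) ∧
      ∃ s b : ℕ → ℕ, StrictMono s ∧ (∀ p : I × I, p.1 < g ∧ p.2 ≤ p.1 →
        ∀ᶠ j in atTop, cnt (f p.1) (e.symm p.2 (s j)) ≤ s j) ∧
        (∀ h ≤ g, ∀ᶠ n in atTop, e.symm h n ≤ b n) ∧ ∃ᶠ j in atTop, cnt a (b (s j)) ≤ s j)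
    (fun g f f' a hf h hi => by
      obtain ⟨h1, s, b, h2, h3, h4⟩ := h fun T t1 t2 =>
        (hi T t1 t2).mono fun n hn p hp => by rw [hf _ (t2 hp).1]; exact hn p hp
      exact ⟨h1, s, b, h2, fun p hp => by rw [← hf _ hp.1]; exact h3 p hp, h4⟩)
    (fun g f => by
      by_cases hi : Inv (· < g) f
      · obtain ⟨s, s1, s2⟩ := pseudo (S := {p : I × I | p.1 < g ∧ p.2 ≤ p.1})
          (((hlt g).prod (hlt g)).mono fun p hp => mem_prod.2 ⟨hp.1, hp.2.trans_lt hp.1⟩)
          (fun p n => cnt (f p.1) (e.symm p.2 n) ≤ n) hi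
        obtain ⟨b, hb⟩ := dom ((hle g).image e.symm)
        obtain ⟨a, a1, a2⟩ := step hX hu hc s1 b (e.symm g)
        exact ⟨a, fun _ => ⟨a2, s, b, s1, s2, fun h hh => hb _ ⟨h, hh, rfl⟩, a1⟩⟩
      · exact ⟨fun _ => true, fun h => absurd h hi⟩)
  have h1 : ∀ g, Inv (· < g) y → Inv (· ≤ g) y := by
    intro g hi T t1 t2
    obtain ⟨-, s, b, h2, h3, h4, h5⟩ := hy g hi
    refine h2.tendsto_atTop.frequently ((h5.and_eventually (q := fun j => ∀ p ∈ T,
      (p.1 < g → cnt (y p.1) (e.symm p.2 (s j)) ≤ s j) ∧ e.symm p.2 (s j) ≤ b (s j))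
      ((eventually_all_finite t1).2 fun p hp => Eventually.and ?_ (h2.tendsto_atTop.eventually
        (h4 _ ((t2 hp).2.trans (t2 hp).1))))).mono fun j hj p hp => ?_)
    · by_cases a : p.1 < g
      · exact (h3 p ⟨a, (t2 hp).2⟩).mono fun _ h _ => h
      · exact Eventually.of_forall fun _ h => absurd h a
    · rcases (t2 hp).1.eq_or_lt with a | a
      · rw [a]
        exact (cnt_mono _ (hj.2 p hp).2).trans hj.1
      · exact (hj.2 p hp).1 a
  have h2 : ∀ R : I → Prop, (∀ g, R g → Inv (· < g) y) → Inv R y := by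
    intro R hR T t1 t2
    rcases T.eq_empty_or_nonempty with rfl | hne
    · simpa using frequently_atTop.2 fun n => ⟨n, le_rfl, trivial⟩
    · obtain ⟨p, hp, hm⟩ := exists_max_image T Prod.fst t1 hne
      exact h1 p.1 (hR _ (t2 hp).1) T t1 fun q hq => ⟨hm q hq, (t2 hq).2⟩
  have h3 : ∀ g, Inv (· < g) y := fun g => by
    induction g using WellFoundedLT.induction with
    | ind g ih => exact h2 _ ih
  refine ⟨fun g => y (e g), fun b => ⟨e.symm '' Iio (e b), (hlt _).image _, fun T t1 t2 => ?_⟩,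
    fun g => by simpa using (hy (e g) (h3 _)).1⟩
  obtain ⟨n, hn⟩ := (h2 (fun _ => True) (fun g _ => h3 g) ((fun h => (e h, e b)) '' T)
    (t1.image _) (by
      rintro _ ⟨h, hh, rfl⟩
      exact ⟨trivial, not_lt.1 fun a => t2 h hh ⟨e h, a, by simp⟩⟩)).exists
  exact ⟨n, fun h hh => by simpa using hn _ ⟨h, hh, rfl⟩⟩

/-- The Rothberger property of a subset, with covers open in the ambient space. -/
def RS {Z : Type} [TopologicalSpace Z] (S : Set Z) : Prop :=
  ∀ 𝒰 : ℕ → Set (Set Z), (∀ n, (∀ U ∈ 𝒰 n, IsOpen U) ∧ (𝒰 n).Nonempty ∧ S ⊆ ⋃₀ 𝒰 n) →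
    ∃ U : ℕ → Set Z, (∀ n, U n ∈ 𝒰 n) ∧ S ⊆ ⋃ n, U n

section RS

variable {Z : Type} [TopologicalSpace Z]

theorem RS_single (z : Z) : RS {z} := fun 𝒰 h => by
  choose U h1 h2 using fun n => mem_sUnion.1 ((h n).2.2 rfl)
  exact ⟨U, h1, singleton_subset_iff.2 (mem_iUnion.2 ⟨0, h2 0⟩)⟩

theorem RS_empty : RS (∅ : Set Z) := fun _ h =>
  ⟨fun n => (h n).2.1.some, fun n => (h n).2.1.some_mem, empty_subset _⟩

theorem RS_seq {S : ℕ → Set Z} (hS : ∀ k, RS (S k)) : RS (⋃ k, S k) := fun 𝒰 h => by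
  choose U h1 h2 using fun k => hS k (fun n => 𝒰 (Nat.pair k n)) fun n =>
    ⟨(h _).1, (h _).2.1, (subset_iUnion S k).trans (h _).2.2⟩
  refine ⟨fun n => U n.unpair.1 n.unpair.2, fun n => by simpa using h1 n.unpair.1 n.unpair.2,
    iUnion_subset fun k => (h2 k).trans (iUnion_subset fun n => ?_)⟩
  simpa using subset_iUnion (fun n => U n.unpair.1 n.unpair.2) (Nat.pair k n)

theorem RS_union {J : Type*} {T : Set J} (hT : T.Countable) {S : J → Set Z}
    (hS : ∀ k ∈ T, RS (S k)) : RS (⋃ k ∈ T, S k) := by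
  rcases T.eq_empty_or_nonempty with rfl | hne
  · simpa using RS_empty
  · obtain ⟨c, rfl⟩ := hT.exists_eq_range hne
    rw [biUnion_range]
    exact RS_seq fun k => hS _ ⟨k, rfl⟩

theorem RS_count {T : Set Z} (hT : T.Countable) : RS T := by
  simpa using RS_union hT fun z _ => RS_single z

theorem RS_range {W : Type} [TopologicalSpace W] {f : W → Z} (hf : Continuous f)
    (h : RS (univ : Set W)) : RS (range f) := fun 𝒰 hU => by
  obtain ⟨V, v1, v2⟩ := h (fun n => (f ⁻¹' ·) '' 𝒰 n) fun n => ⟨by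
    rintro _ ⟨U, a, rfl⟩
    exact ((hU n).1 U a).preimage hf, (hU n).2.1.image _, fun w _ => by
      obtain ⟨U, a, b⟩ := mem_sUnion.1 ((hU n).2.2 ⟨w, rfl⟩)
      exact ⟨_, ⟨U, a, rfl⟩, b⟩⟩
  choose U u1 u2 using v1
  refine ⟨U, u1, ?_⟩
  rintro _ ⟨w, rfl⟩
  obtain ⟨n, hn⟩ := mem_iUnion.1 (v2 (mem_univ w))
  exact mem_iUnion.2 ⟨n, by rw [← u2 n] at hn; exact hn⟩

theorem RS_conc {S : Set Z} (hS : RS S) (h : ∀ W, IsOpen W → S ⊆ W → ∃ T, RS T ∧ Wᶜ ⊆ T) :
    RS (univ : Set Z) := fun 𝒰 hU => by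
  have h0 : ∀ (S : Set Z) n, (∀ U ∈ 𝒰 n, IsOpen U) ∧ (𝒰 n).Nonempty ∧ S ⊆ ⋃₀ 𝒰 n := fun S n =>
    ⟨(hU n).1, (hU n).2.1, (subset_univ S).trans (hU n).2.2⟩
  obtain ⟨U, u1, u2⟩ := hS (fun n => 𝒰 (2 * n)) fun n => h0 _ _
  obtain ⟨T, t1, t2⟩ := h _ (isOpen_iUnion fun n => (hU _).1 _ (u1 n)) u2
  obtain ⟨V, v1, v2⟩ := t1 (fun n => 𝒰 (2 * n + 1)) fun n => h0 _ _
  refine ⟨fun n => if n % 2 = 0 then U (n / 2) else V (n / 2), fun n => ?_, fun z _ => ?_⟩
  · beta_reduce
    split_ifs with a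
    · convert u1 (n / 2) using 2
      omega
    · convert v1 (n / 2) using 2
      omega
  · by_cases a : z ∈ ⋃ n, U n
    · obtain ⟨n, hn⟩ := mem_iUnion.1 a
      exact mem_iUnion.2 ⟨2 * n, by simpa using hn⟩
    · obtain ⟨n, hn⟩ := mem_iUnion.1 (v2 (t2 a))
      refine mem_iUnion.2 ⟨2 * n + 1, ?_⟩
      rw [if_neg (by omega), show (2 * n + 1) / 2 = n by omega]
      exact hn

end RS

theorem powers {Y : Set (ℕ → Bool)} (h0 : ∀ q : ℕ → Bool, (∀ᶠ i in atTop, q i = false) → q ∈ Y)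
    (h : ∀ b : ℕ → ℕ, ∃ C : Set (ℕ → Bool), C.Countable ∧ ∀ T ⊆ Y, T.Finite →
      (∀ q ∈ T, q ∉ C) → ∃ n, ∀ q ∈ T, cnt q (b n) ≤ n) (k : ℕ) :
    RS (univ : Set (Fin k → Y)) := by
  induction k with
  | zero => exact RS_count (toFinite _).countable
  | succ k ih =>
    refine RS_conc (S := {p | ∀ i, ∀ᶠ j in atTop, (p i).1 j = false})
      (RS_count (countable_pi fun _ => (countable_ev fun _ => false).preimage
        Subtype.val_injective)) fun W hW hS => ?_
    have hv : IsInducing fun (p : Fin (k + 1) → Y) i => (p i).1 :=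
      IsInducing.piMap fun _ => IsInducing.subtypeVal
    obtain ⟨W', w1, rfl⟩ := hv.isOpen_iff.1 hW
    have h1 : ∀ n, ∃ m, ∀ q : Fin (k + 1) → ℕ → Bool, (∀ i, cnt (q i) m ≤ n) → q ∈ W' := by
      intro n
      by_contra hc
      push Not at hc
      have hcl : ∀ m, IsClosed ({q : Fin (k + 1) → ℕ → Bool | ∀ i, cnt (q i) m ≤ n} ∩ W'ᶜ) :=
        fun m => IsClosed.inter (by
          rw [ofPred_forall]
          exact isClosed_iInter fun i => (isClosed_discrete {c | c ≤ n}).preimage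
            ((cnt_cont m).comp (continuous_apply i))) w1.isClosed_compl
      obtain ⟨q, hq⟩ := IsCompact.nonempty_iInter_of_sequence_nonempty_isCompact_isClosed
        (fun m => {q : Fin (k + 1) → ℕ → Bool | ∀ i, cnt (q i) m ≤ n} ∩ W'ᶜ)
        (fun m q hq => ⟨fun i => (cnt_mono _ (Nat.le_succ m)).trans (hq.1 i), hq.2⟩) hc
        (hcl 0).isCompact hcl
      rw [mem_iInter] at hq
      have a : ∀ i, ∀ᶠ j in atTop, q i j = false := fun i => by
        by_contra hn
        obtain ⟨m, hm⟩ := cnt_unb ((not_eventually.1 hn).mono fun j hj => by simpa using hj) n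
        exact hm.not_ge ((hq m).1 i)
      exact (hq 0).2 (hS (a := fun i => ⟨q i, h0 _ (a i)⟩) a)
    choose b hb using h1
    obtain ⟨C, c1, c2⟩ := h b
    refine ⟨⋃ p ∈ (univ : Set (Fin (k + 1))) ×ˢ (Subtype.val ⁻¹' C : Set Y),
      range fun r : Fin k → Y => (Fin.insertNth p.1 p.2 r : Fin (k + 1) → Y),
      RS_union (countable_univ.prod (c1.preimage Subtype.val_injective)) fun p _ =>
        RS_range (Continuous.finInsertNth (A := fun _ => Y) p.1 continuous_const continuous_id) ih,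
      fun p hp => ?_⟩
    by_contra hn
    obtain ⟨n, hn'⟩ := c2 (range fun i => (p i).1) (by rintro _ ⟨i, rfl⟩; exact (p i).2)
      (finite_range _) (by
        rintro _ ⟨i, rfl⟩ hi
        exact hn (mem_biUnion (x := (i, p i)) ⟨trivial, hi⟩
          ⟨_, Fin.insertNth_self_removeNth (α := fun _ => Y) i p⟩))
    exact hp (hb n _ fun i => hn' _ ⟨i, rfl⟩)

theorem cov_eq (ch : Cardinal.continuum.{0} = Cardinal.aleph 1) : covM = Cardinal.aleph 1 := by
  have h1 : Cardinal.continuum ∈ {κ | ∃ F : Set (Set (ℕ → Bool)), (∀ M ∈ F, IsMeagre M) ∧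
      ⋃₀ F = univ ∧ #F = κ} := by
    refine ⟨range singleton, ?_, by simp [iUnion_of_singleton], ?_⟩
    · rintro _ ⟨z, rfl⟩
      refine (generic (fun n x => x n ≠ z n) (fun n => (isOpen_discrete {b | b ≠ z n}).preimage
        (continuous_apply (A := fun _ : ℕ => Bool) n)) fun x l N =>
          ⟨Function.update x (max l N) (!z (max l N)), max l N, le_max_right _ _, by simp,
          fun i hi => Function.update_of_ne (by have := le_max_left l N; omega) _ _⟩).mono ?_
      rintro _ rfl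
      simp
    · rw [Cardinal.mk_range_eq _ singleton_injective]
      simp
  refine le_antisymm (ch ▸ csInf_le' h1) (le_csInf ⟨_, h1⟩ ?_)
  rintro _ ⟨F, f1, f2, rfl⟩
  by_contra hc
  have := isMeagre_biUnion (Cardinal.le_aleph0_iff_set_countable.1
    (Cardinal.lt_aleph_one_iff.1 (not_le.1 hc))) (f := id) f1
  refine not_isMeagre_of_isOpen isOpen_univ univ_nonempty (this.mono ?_)
  rw [← f2, sUnion_eq_biUnion]
  rfl

theorem main (ch : Cardinal.continuum.{0} = Cardinal.aleph 1) (X : Set (ℕ → Bool))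
    (h : Luzin covM X) : ∃ Y : Set (ℕ → Bool), (∀ k, Rothberger (Fin k → Y) ∧ Menger (Fin k → Y)) ∧
      ¬ Menger (X × Y) := by
  rw [cov_eq ch] at h
  have hX : Lz X := fun M hM =>
    Cardinal.le_aleph0_iff_set_countable.1 (Cardinal.lt_aleph_one_iff.1 (h.2 M hM))
  have hu : ¬ X.Countable := fun hc => (Cardinal.lt_aleph_one_iff.2
    (Cardinal.le_aleph0_iff_set_countable.2 hc)).not_ge h.1
  obtain ⟨z, -, hz⟩ := avoid hX (e := fun i => 2 * i) (fun a b h => by simpa using h)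
    (frequently_atTop.2 fun n => ⟨2 * n + 1, by omega, fun ⟨j, hj⟩ => by simp at hj; omega⟩)
    fun _ => true
  set φ : (ℕ → Bool) → ℕ → Bool := fun x i => x i == z i with hφ
  have φ1 : Continuous φ := continuous_pi fun i =>
    (continuous_of_discreteTopology (f := fun b : Bool => b == z i)).comp (continuous_apply i)
  have φ2 : ∀ x, φ (φ x) = x := fun x => funext fun i => by
    simp only [hφ]
    cases x i <;> cases z i <;> rfl
  have φ3 : IsOpenMap φ := (Homeomorph.mk ⟨φ, φ, φ2, φ2⟩ φ1 φ1).isOpenMap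
  obtain ⟨y, y1, y2⟩ := family ch (X := φ '' X) (fun M hM =>
    ((hX _ (hM.preimage_of_isOpenMap φ1 φ3)).image φ).mono (by
      rintro _ ⟨⟨x, a, rfl⟩, b⟩
      exact ⟨x, ⟨a, b⟩, rfl⟩))
    (fun hc => hu ((hc.image φ).mono fun x hx => φ2 x ▸ mem_image_of_mem φ (mem_image_of_mem φ hx))) (by
      rintro _ ⟨x, a, rfl⟩
      exact (not_eventually.1 (hz x a)).mono fun i hi => by simpa [hφ] using hi)
  set Y := {q : ℕ → Bool | ∀ᶠ i in atTop, q i = false} ∪ range y with hY
  refine ⟨Y, fun k => ?_, fun hM => ?_⟩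
  · have h1 := powers (Y := Y) (fun q hq => Or.inl hq) (fun b => by
      obtain ⟨C, c1, c2⟩ := y1 b
      refine ⟨_, (countable_ev fun _ => false).union (c1.image y), fun T t1 t2 t3 => ?_⟩
      have : ∀ q : T, ∃ g, y g = q := fun q => (t1 q.2).resolve_left fun a => t3 _ q.2 (Or.inl a)
      choose g hg using this
      have := t2.to_subtype
      obtain ⟨n, hn⟩ := c2 (range g) (finite_range g) (by
        rintro _ ⟨q, rfl⟩ a
        exact t3 _ q.2 (Or.inr ⟨_, a, hg q⟩))
      exact ⟨n, fun q hq => by have := hn _ ⟨⟨q, hq⟩, rfl⟩; rwa [hg] at this⟩) k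
    have h2 : Rothberger (Fin k → Y) := fun 𝒰 hU => by
      obtain ⟨U, u1, u2⟩ := h1 𝒰 fun n => ⟨(hU n).1, by
        obtain ⟨U, a, -⟩ := mem_sUnion.1 ((hU n).2.ge
          (mem_univ (fun _ => ⟨y id, Or.inr ⟨_, rfl⟩⟩ : Fin k → Y)))
        exact ⟨U, a⟩, (hU n).2.ge⟩
      exact ⟨U, u1, univ_subset_iff.1 u2⟩
    refine ⟨h2, fun 𝒰 hU => ?_⟩
    obtain ⟨U, u1, u2⟩ := h2 𝒰 hU
    exact ⟨fun n => {U n}, fun n => ⟨finite_singleton _, singleton_subset_iff.2 (u1 n)⟩,
      by simpa using u2⟩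
  · set O : ℕ → ℕ → Set (X × Y) := fun n m => {p | n < cnt (fun i => φ p.1 i && p.2.1 i) m} ∪
      ⋃ i, {p | φ p.1 i = false ∧ p.2.1 i = false} with hO
    have c1 : ∀ i, Continuous fun p : X × Y => φ p.1 i := fun i =>
      (continuous_apply i).comp (φ1.comp (continuous_subtype_val.comp continuous_fst))
    have c2 : ∀ i, Continuous fun p : X × Y => p.2.1 i := fun i =>
      (continuous_apply i).comp (continuous_subtype_val.comp continuous_snd)
    obtain ⟨F, f1, f2⟩ := hM (fun n => range (O n)) fun n => ⟨by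
      rintro _ ⟨m, rfl⟩
      refine IsOpen.union ((isOpen_discrete {c | n < c}).preimage ((cnt_cont m).comp
        (continuous_pi fun i => (continuous_of_discreteTopology
          (f := fun b : Bool × Bool => b.1 && b.2)).comp ((c1 i).prodMk (c2 i)))))
        (isOpen_iUnion fun i => ((isOpen_discrete {false}).preimage (c1 i)).inter
          ((isOpen_discrete {false}).preimage (c2 i))), by
      rw [sUnion_range]
      refine eq_univ_of_forall fun p => ?_
      by_cases a : ∀ i, φ p.1 i = true ∨ p.2.1 i = true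
      · have b : ∃ᶠ i in atTop, (φ p.1 i && p.2.1 i) = true := by
          rcases p.2.2 with c | ⟨g, c⟩
          · refine absurd (c.mono fun i hi => ?_) (hz _ p.1.2)
            have := (a i).resolve_right (by simp [hi])
            simpa [hφ] using this
          · rw [← c] at a ⊢
            exact (y2 g).1 _ ⟨_, p.1.2, rfl⟩ a
        obtain ⟨m, hm⟩ := cnt_unb b n
        exact mem_iUnion.2 ⟨m, Or.inl hm⟩
      · push Not at a
        obtain ⟨i, hi⟩ := a
        exact mem_iUnion.2 ⟨0, Or.inr (mem_iUnion.2 ⟨i, by simpa using hi⟩)⟩⟩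
    have h1 : ∀ n, ∃ m, ∀ U ∈ F n, U ⊆ O n m := fun n => by
      choose! c hc using (f1 n).2
      obtain ⟨m, hm⟩ := ((f1 n).1.image c).bddAbove
      refine ⟨m, fun U hU => hc hU ▸ union_subset_union_left _ fun p hp => ?_⟩
      exact lt_of_lt_of_le hp (cnt_mono _ (hm ⟨U, hU, rfl⟩))
    choose g hg using h1
    obtain ⟨_, ⟨x, x1, rfl⟩, x2, x3⟩ := (y2 g).2
    obtain ⟨n, hn⟩ := mem_iUnion.1
      (f2.ge (mem_univ ((⟨x, x1⟩, ⟨y g, Or.inr ⟨g, rfl⟩⟩) : X × Y)))
    obtain ⟨U, u1, u2⟩ := mem_sUnion.1 hn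
    rcases hg n U u1 u2 with a | a
    · exact (x3 n).not_gt a
    · obtain ⟨i, a1, a2⟩ := mem_iUnion.1 a
      rcases x2 i with b | b
      · exact Bool.false_ne_true (a1.symm.trans b)
      · exact Bool.false_ne_true (a2.symm.trans b)

end Pool.Agent.H84.Luz
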