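import Pool.Agent.H84.CkwDefs
import Pool.Agent.H84.Luz

/-! Self-maps of the Stone-Čech remainder. -/

namespace Pool.Agent.H84.Ckw

open Set Filter Topology Pool.Agent.H84.CkwDefs

theorem clopen_basic (s : Set ℕ) : IsClopen {u : Rem | s ∈ u.1} :=
  ⟨(ultrafilter_isClosed_basic s).preimage continuous_subtype_val,
    (ultrafilter_isOpen_basic s).preimage continuous_subtype_val⟩

theorem clopen_iff (s : Set ℕ) (P : Prop) : IsClopen {u : Rem | s ∈ u.1 ↔ P} := by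
  by_cases h : P
  · simpa [h] using clopen_basic s
  · simp only [h, iff_false]
    exact (clopen_basic s).compl

instance : CompactSpace Rem := by
  have : {u : Ultrafilter ℕ | (u : Filter ℕ) ≤ cofinite} = ⋂ s ∈ cofinite, {u | s ∈ u} := by
    ext u
    simp only [mem_iInter]
    rfl
  have h : IsClosed {u : Ultrafilter ℕ | (u : Filter ℕ) ≤ cofinite} :=
    this ▸ isClosed_biInter fun s _ => ultrafilter_isClosed_basic s
  exact isCompact_iff_compactSpace.1 h.isCompact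

theorem exists_basic {u : Rem} {U : Set Rem} (h : U ∈ 𝓝 u) :
    ∃ s ∈ u.1, {v : Rem | s ∈ v.1} ⊆ U := by
  obtain ⟨W, hW, e⟩ := (mem_nhds_subtype _ _ _).1 h
  obtain ⟨_, ⟨s, rfl⟩, a, b⟩ := ultrafilterBasis_is_basis.mem_nhds_iff.1 hW
  exact ⟨s, a, fun v hv => e (b hv)⟩

/-- Basic neighbourhoods in the function space. -/
def nb (f : C(Rem, Rem)) (E : Set (Set ℕ)) : Set C(Rem, Rem) :=
  {g | ∀ s ∈ E, ∀ t, s ∈ (g t).1 ↔ s ∈ (f t).1}

theorem nb_mem (f : C(Rem, Rem)) (s : Set ℕ) :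
    ∀ᶠ g : C(Rem, Rem) in 𝓝 f, ∀ t, s ∈ (g t).1 ↔ s ∈ (f t).1 := by
  have h := (clopen_basic s).preimage f.continuous
  filter_upwards [ContinuousMap.eventually_mapsTo h.1.isCompact (clopen_basic s).2
    (mapsTo_preimage _ _), ContinuousMap.eventually_mapsTo h.compl.1.isCompact
    (clopen_basic s).compl.2 fun _ h => h] with g g1 g2 t
  exact ⟨fun a => by_contra fun c => g2 c a, fun a => g1 a⟩

theorem exists_nb {f : C(Rem, Rem)} {U : Set C(Rem, Rem)} (h : U ∈ 𝓝 f) :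
    ∃ E : Set (Set ℕ), E.Finite ∧ nb f E ⊆ U := by
  have : ⨅ s : Set ℕ, 𝓟 {g : C(Rem, Rem) | ∀ t, s ∈ (g t).1 ↔ s ∈ (f t).1} ≤ 𝓝 f := by
    refine tendsto_id'.1 (ContinuousMap.tendsto_nhds_compactOpen.2 fun K hK O hO hf => ?_)
    · have : ∀ t : K, ∃ s ∈ (f t).1, {v : Rem | s ∈ v.1} ⊆ O := fun t =>
        exists_basic (hO.mem_nhds (hf t.2))
      choose s s1 s2 using this
      obtain ⟨T, hT⟩ := hK.elim_nhds_subcover' (fun t ht => f ⁻¹' {v | s ⟨t, ht⟩ ∈ v.1})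
        fun t ht => ((clopen_basic _).2.preimage f.continuous).mem_nhds (s1 ⟨t, ht⟩)
      refine ((eventually_all_finset T (p := fun t (g : C(Rem, Rem)) =>
        ∀ x, s t ∈ (g x).1 ↔ s t ∈ (f x).1)).2 fun t _ => mem_iInf_of_mem (s t)
        (mem_principal_self _)).mono fun g hg x hx => ?_
      obtain ⟨t, t1, t2⟩ := mem_iUnion₂.1 (hT hx)
      exact s2 t ((hg t t1 x).2 t2)
  obtain ⟨E, hE, V, hV, rfl⟩ := mem_iInf.1 (this h)
  exact ⟨E, hE, fun g hg => mem_iInter.2 fun s => hV s (hg s s.2)⟩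

/-- The map induced by a sequence of points. -/
noncomputable def ext (x : ℕ → Rem) : C(Rem, Rem) :=
  ⟨fun t => ⟨t.1.bind fun k => (x k.unpair.1).1, fun s hs => mem_bind'.2
    (univ_mem' fun k => (x _).2 hs)⟩, Continuous.subtype_mk
      (ultrafilterBasis_is_basis.continuous_iff.2 (by
        rintro _ ⟨s, rfl⟩
        exact (clopen_basic {k | s ∈ (x k.unpair.1).1}).2)) _⟩

theorem mem_ext (x : ℕ → Rem) (s : Set ℕ) (t : Rem) :
    s ∈ (ext x t).1 ↔ {k | s ∈ (x k.unpair.1).1} ∈ t.1 := Iff.rfl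

theorem ext_nb {x y : ℕ → Rem} {E : Set (Set ℕ)} (h : ∀ j, ∀ s ∈ E, s ∈ (x j).1 ↔ s ∈ (y j).1) :
    ext x ∈ nb (ext y) E := fun s hs t => by simp only [mem_ext, h _ s hs]

/-- The push-forward of a fixed free ultrafilter along an injection. -/
noncomputable def push (g : ℕ → ℕ) (hg : Function.Injective g) : Rem :=
  ⟨(hyperfilter ℕ).map g, hg.tendsto_cofinite.mono_left hyperfilter_le_cofinite⟩

/-- Test points. -/
noncomputable def tp (j : ℕ) : Rem :=
  push (Nat.pair j) fun _ _ h => (Nat.pair_eq_pair.1 h).2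

theorem mem_ext_tp (x : ℕ → Rem) (s : Set ℕ) (j : ℕ) : s ∈ (ext x (tp j)).1 ↔ s ∈ (x j).1 := by
  rw [mem_ext]
  show (∀ᶠ k in (hyperfilter ℕ : Filter ℕ), s ∈ (x (Nat.pair j k).unpair.1).1) ↔ _
  simp

theorem indep : ∃ b : (ℕ → Bool) → Set ℕ, ∀ ξ : (ℕ → Bool) → Prop, ∃ u : Rem,
    ∀ α, b α ∈ u.1 ↔ ξ α := by
  classical
  let r : ℕ → (ℕ → Bool) → List Bool := fun n α => List.ofFn fun i : Fin n => α i
  let e : ℕ × Finset (List Bool) → ℕ := Encodable.encode
  refine ⟨fun α => e '' {c | r c.1 α ∈ c.2}, fun ξ => ?_⟩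
  refine (CompactSpace.iInter_nonempty (fun α => (clopen_iff (e '' {c | r c.1 α ∈ c.2}) (ξ α)).1)
    fun F => ?_).imp fun u hu => mem_iInter.1 hu
  refine ⟨push (fun n => e (n, (F.filter ξ).image (r n))) fun a c h =>
    congrArg Prod.fst (Encodable.encode_injective h), mem_iInter₂.2 fun α hα => ?_⟩
  have : ∀ᶠ n in (hyperfilter ℕ : Filter ℕ), ∀ β ∈ F, r n β = r n α → β = α := by
    refine hyperfilter_le_cofinite ((eventually_all_finset F).2 fun β _ => ?_)
    by_cases h : β = α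
    · simp [h]
    obtain ⟨i, hi⟩ := Function.ne_iff.1 h
    rw [Nat.cofinite_eq_atTop]
    exact (eventually_gt_atTop i).mono fun n hn c =>
      absurd (congrFun (List.ofFn_injective c) ⟨i, hn⟩) hi
  show (∀ᶠ n in (hyperfilter ℕ : Filter ℕ), e (n, (F.filter ξ).image (r n)) ∈ e '' _) ↔ _
  rw [← eventually_const (f := (hyperfilter ℕ : Filter ℕ)) (p := ξ α)]
  refine eventually_congr (this.mono fun n hn => ?_)
  rw [Encodable.encode_injective.mem_set_image]
  simp only [mem_ofPred_eq, Finset.mem_image, Finset.mem_filter]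
  exact ⟨fun ⟨β, h1, h2⟩ => hn β h1.1 h2 ▸ h1.2, fun h => ⟨α, ⟨hα, h⟩, rfl⟩⟩

theorem irr : ∃ (b : (ℕ → Bool) → Set ℕ) (K : Set Rem), (∀ ξ : (ℕ → Bool) → Prop, ∃ u ∈ K,
    ∀ α, b α ∈ u.1 ↔ ξ α) ∧ ∀ p ∈ K, ∀ E : Set (Set ℕ), E.Finite → ∀ F : Set (ℕ → Bool),
      F.Finite → ∃ (F' : Set (ℕ → Bool)) (σ : (ℕ → Bool) → Prop), F'.Finite ∧
        (∀ α ∈ F, σ α ↔ b α ∈ p.1) ∧
          ∀ u ∈ K, (∀ α ∈ F', b α ∈ u.1 ↔ σ α) → ∀ s ∈ E, s ∈ u.1 ↔ s ∈ p.1 := by
  obtain ⟨b, hb⟩ := indep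
  have hc : ∀ ξ : (ℕ → Bool) → Prop, IsClosed {u : Rem | ∀ α, b α ∈ u.1 ↔ ξ α} := fun ξ => by
    rw [ofPred_forall]
    exact isClosed_iInter fun α => (clopen_iff _ _).1
  obtain ⟨K, hK⟩ := zorn_superset {K : Set Rem | IsClosed K ∧ ∀ ξ : (ℕ → Bool) → Prop, ∃ u ∈ K,
      ∀ α, b α ∈ u.1 ↔ ξ α} fun c c1 c2 => by
    refine ⟨⋂₀ c, ⟨isClosed_sInter fun K h => (c1 h).1, fun ξ => ?_⟩, fun _ => sInter_subset_of_mem⟩
    rcases c.eq_empty_or_nonempty with rfl | hne
    · simpa using hb ξ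
    have := hne.to_subtype
    obtain ⟨u, hu⟩ := IsCompact.nonempty_iInter_of_directed_nonempty_isCompact_isClosed
      (fun K : c => K.1 ∩ {u | ∀ α, b α ∈ u.1 ↔ ξ α}) (fun K L => by
        rcases c2.total K.2 L.2 with h | h
        exacts [⟨K, le_rfl, inter_subset_inter_left _ h⟩, ⟨L, inter_subset_inter_left _ h, le_rfl⟩])
      (fun K => (c1 K.2).2 ξ) (fun K => ((c1 K.2).1.inter (hc ξ)).isCompact)
      fun K => (c1 K.2).1.inter (hc ξ)
    rw [mem_iInter] at hu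
    exact ⟨u, fun K h => (hu ⟨K, h⟩).1, (hu (Classical.arbitrary _)).2⟩
  refine ⟨b, K, hK.1.2, fun p hp E hE F hF => ?_⟩
  set e := {u : Rem | (∀ s ∈ E, s ∈ u.1 ↔ s ∈ p.1) ∧ ∀ α ∈ F, b α ∈ u.1 ↔ b α ∈ p.1}
  have he : IsOpen e := by
    simp only [e, ofPred_and, ofPred_forall]
    exact (hE.isOpen_biInter fun _ _ => (clopen_iff _ _).2).inter
      (hF.isOpen_biInter fun _ _ => (clopen_iff _ _).2)
  have h1 := hK.1.1.sdiff he
  obtain ⟨ξ, hξ⟩ : ∃ ξ : (ℕ → Bool) → Prop, ∀ u ∈ K \ e, ∃ α, ¬(b α ∈ u.1 ↔ ξ α) := by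
    by_contra h
    push Not at h
    exact (hK.2 (y := K \ e) ⟨h1, h⟩ sdiff_subset hp).2 ⟨fun _ _ => Iff.rfl, fun _ _ => Iff.rfl⟩
  obtain ⟨T, hT⟩ := h1.isCompact.elim_finite_subcover (fun α => {u : Rem | b α ∈ u.1 ↔ ξ α}ᶜ)
    (fun α => (clopen_iff _ _).compl.2) fun u hu => mem_iUnion.2 (hξ u hu)
  have h2 : ∀ u ∈ K, (∀ α ∈ (T : Set (ℕ → Bool)), b α ∈ u.1 ↔ ξ α) → u ∈ e := fun u u1 u2 => by
    by_contra c
    obtain ⟨α, a1, a2⟩ := mem_iUnion₂.1 (hT ⟨u1, c⟩)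
    exact a2 (u2 α a1)
  obtain ⟨u, u1, u2⟩ := hK.1.2 ξ
  exact ⟨T, ξ, T.finite_toSet, fun α hα => (u2 α).symm.trans ((h2 u u1 fun α _ => u2 α).2 α hα),
    fun u u1 u2 => (h2 u u1 u2).1⟩

theorem not_cech : ¬ CechComplete C(Rem, Rem) := by
  classical
  rintro ⟨T, t1, t2, t3⟩
  set p := push id Function.injective_id
  have h0 : ∀ O : T, ∃ W ∈ 𝓝 (stoneCechUnit (ext fun _ => p)), IsClosed W ∧ W ⊆ O := fun O =>
    exists_mem_nhds_isClosed_subset ((t1 O O.2).mem_nhds (mem_sInter.1 (t3 ▸ mem_range_self _) O O.2))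
  choose W w1 w2 w3 using h0
  choose E e1 e2 using fun O => exists_nb (continuous_stoneCechUnit.continuousAt.preimage_mem_nhds
    (w1 O))
  have := t2.to_subtype
  obtain ⟨s, s1, s2⟩ := Luz.pseudo (countable_iUnion fun O => (e1 O).countable)
    (fun (a : Set ℕ) n => n ∈ a ↔ a ∈ p.1) fun A a1 _ =>
      Frequently.filter_mono (f := p.1) (Eventually.frequently
        ((eventually_all_finite a1).2 fun a _ => by
          by_cases h : a ∈ p.1
          · exact mem_of_superset h fun n hn => iff_of_true hn h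
          · exact mem_of_superset (Ultrafilter.compl_mem_iff_notMem.2 h) fun n hn =>
              iff_of_false hn h)) (Nat.cofinite_eq_atTop ▸ p.2)
  have hq : ∀ (g : ℕ → ℕ) (hg : Function.Injective g), ∀ a ∈ ⋃ O, E O,
      a ∈ (push (s ∘ g) (s1.injective.comp hg)).1 ↔ a ∈ p.1 := fun g hg a ha => by
    show (∀ᶠ n in (hyperfilter ℕ : Filter ℕ), s (g n) ∈ a) ↔ _
    rw [← eventually_const (f := (hyperfilter ℕ : Filter ℕ)) (p := a ∈ p.1)]
    have := s2 a ha
    rw [← Nat.cofinite_eq_atTop] at this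
    exact eventually_congr (hyperfilter_le_cofinite (hg.tendsto_cofinite.eventually this))
  have i0 : Function.Injective fun n : ℕ => 2 * n := fun _ _ h => by simpa using h
  have i1 : Function.Injective fun n : ℕ => 2 * n + 1 := fun _ _ h => by simpa using h
  set q := push _ (s1.injective.comp i0)
  set r := push _ (s1.injective.comp i1)
  set B := range (s ∘ fun n => 2 * n)
  have b1 : B ∈ q.1 := univ_mem' (f := (hyperfilter ℕ : Filter ℕ)) fun n => ⟨n, rfl⟩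
  have b2 : B ∉ r.1 := Ultrafilter.compl_mem_iff_notMem.1
    (univ_mem' (f := (hyperfilter ℕ : Filter ℕ)) fun n ⟨m, hm⟩ => by
      have : 2 * m = 2 * n + 1 := s1.injective hm
      omega)
  set f : ℕ → C(Rem, Rem) := fun k => ext fun j => if j = k then q else r with hf
  obtain ⟨w, hw⟩ := exists_clusterPt_of_compactSpace (map (fun k => stoneCechUnit (f k)) atTop)
  obtain ⟨g, rfl⟩ : w ∈ range stoneCechUnit := t3 ▸ fun O hO => w3 ⟨O, hO⟩
    (isClosed_iff_clusterPt.1 (w2 _) _ (hw.mono (le_principal_iff.2 (mem_map.2 (univ_mem' fun k =>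
      e2 _ (ext_nb fun j a ha => by
        split_ifs
        exacts [hq _ i0 a (mem_iUnion_of_mem _ ha), hq _ i1 a (mem_iUnion_of_mem _ ha)]))))))
  have hψ : Continuous fun h : C(Rem, Rem) => decide (∀ t, B ∈ (h t).1 ↔ B ∈ (g t).1) :=
    ((IsLocallyConstant.iff_eventually_eq _).2 fun h => (nb_mem h B).mono fun h' e => by
      simp only [e]).continuous
  have h2 : ∃ᶠ k in atTop, ∀ t, B ∈ (f k t).1 ↔ B ∈ (g t).1 := by
    have := (MapClusterPt.frequently hw) ((continuous_stoneCechExtend hψ).continuousAt.eventually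
      (show ∀ᶠ x in 𝓝 _, x = true by simp [stoneCechExtend_stoneCechUnit]))
    simpa [stoneCechExtend_stoneCechUnit] using this
  obtain ⟨k, hk⟩ := h2.exists
  obtain ⟨l, l1, l2⟩ := (h2.and_eventually (eventually_gt_atTop k)).exists
  have := (hk (tp k)).trans (l1 (tp k)).symm
  simp only [hf, mem_ext_tp, if_pos, if_neg l2.ne] at this
  exact b2 (this.1 b1)

/-- The last change of the set is at `j`. -/
def Last (j : ℕ) (c : Set ℕ) : Prop := ∀ k > j, k ∈ c ↔ j ∉ c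

theorem Last.unique {i j : ℕ} {c : Set ℕ} (h1 : Last i c) (h2 : Last j c) : i = j := by
  by_contra h
  wlog a : i < j generalizing i j
  · exact this h2 h1 (Ne.symm h) (by omega)
  have := h1 j a
  have := h1 (j + 1) (by omega)
  have := h2 (j + 1) (by omega)
  tauto

/-- States of the construction. -/
structure St where
  F : Set (ℕ → Bool)
  N : ℕ
  c : (ℕ → Bool) → Set ℕ
  l : (ℕ → Bool) → ℕ
  fin : F.Finite
  last : ∀ α ∈ F, Last (l α) (c α) ∧ l α < N
  inj : InjOn l F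
  emp : ∀ α ∉ F, c α = ∅

theorem St.tail (S : St) {j : ℕ} (h : S.N ≤ j) : (fun α => j ∈ S.c α) = fun α => S.N ∈ S.c α := by
  ext α
  by_cases a : α ∈ S.F
  · exact ((S.last α a).1 j ((S.last α a).2.trans_le h)).trans
      ((S.last α a).1 _ (S.last α a).2).symm
  · simp [S.emp α a]

theorem step (S : St) (Q : ℕ → Set (ℕ → Bool) → ((ℕ → Bool) → Prop) → Prop)
    (h1 : ∀ j, ∃ (F : Set (ℕ → Bool)) (σ : (ℕ → Bool) → Prop), F.Finite ∧
      (∀ α ∈ S.F, σ α ↔ j ∈ S.c α) ∧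
      ∀ F' σ', F ⊆ F' → (∀ α ∈ F', σ' α ↔ σ α) → Q j F' σ') :
    ∃ S' : St, S.F ⊆ S'.F ∧ S.N ≤ S'.N ∧ (∀ α ∈ S.F, S'.c α = S.c α) ∧
      ∀ j, j < S.N ∨ S'.N ≤ j → Q (min j S.N) S'.F fun α => j ∈ S'.c α := by
  classical
  choose F σ f1 f2 f3 using h1
  have hF : (S.F ∪ ⋃ j ∈ Iic S.N, F j).Finite := S.fin.union ((finite_Iic _).biUnion fun j _ => f1 j)
  obtain ⟨ι, hι⟩ := countable_iff_exists_injOn.1 hF.countable
  obtain ⟨M, hM⟩ := (hF.image ι).bddAbove
  have e : ∀ α ∈ S.F, {j | α ∈ S.F ∪ ⋃ j ∈ Iic S.N, F j ∧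
      (σ (min j S.N) α ↔ ¬(α ∉ S.F ∧ j = S.N + ι α))} = S.c α := fun α hα => by
    ext j
    simp only [mem_ofPred_eq, mem_union, hα, true_or, true_and, not_true, false_and, not_false_iff,
      iff_true, f2 _ α hα]
    rcases le_total j S.N with h | h
    · rw [min_eq_left h]
    · rw [min_eq_right h, congrFun (S.tail h) α]
  refine ⟨⟨_, S.N + M + 1, fun α => {j | α ∈ S.F ∪ ⋃ j ∈ Iic S.N, F j ∧
    (σ (min j S.N) α ↔ ¬(α ∉ S.F ∧ j = S.N + ι α))}, fun α => if α ∈ S.F then S.l α else S.N + ι α,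
    hF, fun α hα => ?_, fun α hα β hβ h => ?_, fun α hα => by simp only [hα, false_and]; rfl⟩,
    subset_union_left, by simp only; omega, e, fun j hj => f3 _ _ _ (fun α hα => Or.inr
      (mem_biUnion (mem_Iic.2 (min_le_right j S.N)) hα)) fun α hα => ?_⟩
  · have := hM (mem_image_of_mem _ hα)
    split_ifs with a
    · rw [e α a]
      exact ⟨(S.last α a).1, by have := (S.last α a).2; omega⟩
    · refine ⟨fun k hk => ?_, by omega⟩
      simp only [mem_ofPred_eq, hα, true_and, a, not_false_iff, hk.ne', not_true, iff_true,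
        iff_false, not_not, min_eq_right (show S.N ≤ k by omega),
        min_eq_right (Nat.le_add_right S.N _)]
  · by_cases a : α ∈ S.F <;> by_cases c : β ∈ S.F <;> simp only [a, c, if_true, if_false] at h
    · exact S.inj a c h
    · have := (S.last α a).2
      omega
    · have := (S.last β c).2
      omega
    · exact hι hα hβ (by omega)
  · have := hM (mem_image_of_mem _ hα)
    have : j ≠ S.N + ι α := by
      simp only at hj
      omega
    simp only [mem_ofPred_eq, hα, true_and, this, and_false, not_false_iff, iff_true]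

theorem not_normal : ¬ NormalSpace C(Rem, Rem) := by
  classical
  intro hn
  obtain ⟨b, K, k1, k2⟩ := irr
  choose pt p1 p2 using k1
  set cc : C(Rem, Rem) → (ℕ → Bool) → Set ℕ := fun f α => {j | b α ∈ (f (tp j)).1} with hcc
  set X : ((ℕ → Bool) → Set ℕ) → C(Rem, Rem) := fun c => ext fun j => pt fun α => j ∈ c α with hX
  have cX : ∀ c, cc (X c) = c := fun c => by
    ext α j
    simp only [hcc, hX, mem_ofPred_eq, mem_ext_tp, p2]
  have lc : ∀ α, IsLocallyConstant fun f => cc f α := fun α =>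
    (IsLocallyConstant.iff_eventually_eq _).2 fun f => (nb_mem f (b α)).mono fun g hg =>
      Set.ext fun j => hg _
  set H : Set ℕ → Set C(Rem, Rem) := fun d => {f | (∀ α, cc f α = d ∨ ∃ j, Last j (cc f α)) ∧
    ∀ α β, (∃ j, Last j (cc f α) ∧ Last j (cc f β)) → α = β} with hH
  have hc : ∀ d, IsClosed (H d) := fun d => by
    have a : IsClosed (⋂ α, (fun f => cc f α) ⁻¹' {c | c = d ∨ ∃ j, Last j c}) :=
      isClosed_iInter fun α => ⟨lc α _ᶜ⟩
    have c : IsClosed (⋂ α, ⋂ β, (fun f => (cc f α, cc f β)) ⁻¹'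
        {c | (∃ j, Last j c.1 ∧ Last j c.2) → α = β}) :=
      isClosed_iInter fun α => isClosed_iInter fun β => ⟨((lc α).prodMk (lc β)) _ᶜ⟩
    convert a.inter c using 1
    ext f
    simp only [hH, mem_inter_iff, mem_iInter, mem_preimage, mem_ofPred_eq]
  obtain ⟨U, V, hU, hV, u1, v1, uv⟩ := normal_separation (hc ∅) (hc univ)
    (disjoint_left.2 fun f f0 f1 => by
      have : ∀ α, ∃ j, Last j (cc f α) := fun α => (f0.1 α).elim
        (fun a => (f1.1 α).resolve_left fun c => empty_ne_univ (a.symm.trans c)) id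
      choose l hl using this
      have := Cardinal.mk_le_aleph0_iff.2 (Function.Injective.countable (f := l)
        fun α β e => f0.2 α β ⟨l α, hl α, e ▸ hl β⟩)
      simpa using this.trans_lt Cardinal.aleph0_lt_continuum)
  have hS : ∀ S : St, X S.c ∈ U := fun S => u1 (by
    have a : ∀ α j, Last j (S.c α) → α ∈ S.F := fun α j h => by_contra fun c => by
      simpa [S.emp α c] using h (j + 1) (by omega)
    simp only [hH, mem_ofPred_eq, cX]
    refine ⟨fun α => by_cases (fun h => Or.inr ⟨_, (S.last α h).1⟩) fun h => Or.inl (S.emp α h),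
      fun α β ⟨j, h1, h2⟩ => S.inj (a _ _ h1) (a _ _ h2)
        (((S.last α (a _ _ h1)).1.unique h1).trans (h2.unique (S.last β (a _ _ h2)).1))⟩)
  choose E e1 e2 using fun S => exists_nb (hU.mem_nhds (hS S))
  choose nx n1 n2 n3 n4 using fun S => step S (fun j F σ => ∀ u ∈ K, (∀ α ∈ F, b α ∈ u.1 ↔ σ α) →
      ∀ s ∈ E S, s ∈ u.1 ↔ s ∈ (pt fun α => j ∈ S.c α).1) fun j => by
    obtain ⟨F, σ, a1, a2, a3⟩ := k2 _ (p1 fun α => j ∈ S.c α) _ (e1 S) _ S.fin
    exact ⟨F, σ, a1, fun α hα => (a2 α hα).trans (p2 _ _), fun F' σ' h1 h2 u hu h =>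
      a3 u hu fun α hα => (h α (h1 hα)).trans (h2 α (h1 hα))⟩
  let S : ℕ → St := fun n => nx^[n] ⟨∅, 0, fun _ => ∅, fun _ => 0, finite_empty, by simp, by simp,
    by simp⟩
  have s1 : ∀ n, S (n + 1) = nx (S n) := fun n => Function.iterate_succ_apply' _ _ _
  have s2 : ∀ n m, n ≤ m → (S n).F ⊆ (S m).F ∧ (S n).N ≤ (S m).N ∧
      ∀ α ∈ (S n).F, (S m).c α = (S n).c α := by
    intro n m h
    induction m, h using Nat.le_induction with
    | base => exact ⟨le_rfl, le_rfl, fun _ _ => rfl⟩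
    | succ m _ ih =>
      rw [s1]
      exact ⟨ih.1.trans (n1 _), ih.2.1.trans (n2 _), fun α hα =>
        (n3 _ α (ih.1 hα)).trans (ih.2.2 α hα)⟩
  set c : (ℕ → Bool) → Set ℕ := fun α => {j | ∀ n, α ∈ (S n).F → j ∈ (S n).c α} with hc'
  have c1 : ∀ n, ∀ α ∈ (S n).F, c α = (S n).c α := fun n α hα => Set.ext fun j =>
    ⟨fun h => h n hα, fun h m hm => by
      rcases le_total n m with a | a
      · rwa [(s2 n m a).2.2 α hα]
      · rwa [← (s2 m n a).2.2 α hm]⟩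
  have c2 : ∀ α, (∃ n, α ∈ (S n).F) ∨ c α = univ := fun α => or_iff_not_imp_left.2 fun h =>
    eq_univ_of_forall fun j n hn => absurd ⟨n, hn⟩ h
  obtain ⟨G, g1, g2⟩ := exists_nb (hV.mem_nhds (v1 (show X c ∈ H univ by
    have a : ∀ α j, Last j (c α) → ∃ n, α ∈ (S n).F := fun α j h => (c2 α).resolve_right fun e => by
      simpa [e] using h (j + 1) (by omega)
    simp only [hH, mem_ofPred_eq, cX]
    refine ⟨fun α => (c2 α).symm.imp id fun ⟨n, h⟩ => ⟨_, c1 n α h ▸ ((S n).last α h).1⟩,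
      fun α β ⟨j, h1, h2⟩ => ?_⟩
    obtain ⟨n, hn⟩ := a _ _ h1
    obtain ⟨m, hm⟩ := a _ _ h2
    have hn := (s2 n _ (le_max_left n m)).1 hn
    have hm := (s2 m _ (le_max_right n m)).1 hm
    rw [c1 _ _ hn] at h1
    rw [c1 _ _ hm] at h2
    exact (S _).inj hn hm ((((S _).last α hn).1.unique h1).trans (h2.unique ((S _).last β hm).1)))))
  have key : ∀ n j, j < (S n).N ∨ (S (n + 1)).N ≤ j → ∀ s ∈ E (S n), s ∈ (pt fun α => j ∈ c α).1 ↔
      s ∈ (pt fun α => min j (S n).N ∈ (S n).c α).1 := fun n j hj =>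
    n4 (S n) j (s1 n ▸ hj) _ (p1 _) fun α hα => by rw [p2, ← s1, c1 (n + 1) α (s1 n ▸ hα)]
  have : ∃ n, ∀ j, ∃ u : Rem, (∀ s ∈ E (S n), s ∈ u.1 ↔ s ∈ (pt fun α => j ∈ (S n).c α).1) ∧
      ∀ s ∈ G, s ∈ u.1 ↔ s ∈ (pt fun α => j ∈ c α).1 := by
    by_contra h
    simp only [not_exists, not_forall] at h
    choose J hJ using h
    have a : ∀ n, ¬(J n < (S n).N ∨ (S (n + 1)).N ≤ J n) := fun n h => hJ n _ ⟨fun s hs => by
      rw [key n _ h s hs]
      rcases le_total (J n) (S n).N with e | e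
      · rw [min_eq_left e]
      · rw [min_eq_right e, (S n).tail e], fun _ _ => Iff.rfl⟩
    obtain ⟨n, m, h1, h2⟩ := g1.finite_subsets.exists_lt_map_eq_of_forall_mem
      (f := fun n => {s ∈ G | s ∈ (pt fun α => J n ∈ c α).1}) fun n => sep_subset _ _
    have a1 := a n
    have a2 := a m
    have a3 := (s2 (n + 1) m h1).2.1
    have a4 := (s2 n m h1.le).2.1
    refine hJ n (pt fun α => J m ∈ c α) ⟨fun s hs => ?_, fun s hs => ?_⟩
    · rw [key n _ (Or.inr (by omega)) s hs, min_eq_right (by omega), (S n).tail (j := J n) (by omega)]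
    · simpa [hs] using (Set.ext_iff.1 h2 s).symm
  obtain ⟨n, hn⟩ := this
  choose u u2 u3 using hn
  exact disjoint_left.1 uv (e2 (S n) (ext_nb u2)) (g2 (ext_nb u3))

end Pool.Agent.H84.Ckw
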