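import Mathlib

/-! The Stone-Čech remainder of the integers and Čech-completeness. -/

namespace Pool.Agent.H84.CkwDefs

/-- The space of free ultrafilters on `ℕ`, as a subspace of the space of all ultrafilters. -/
abbrev Rem : Type := {u : Ultrafilter ℕ // (u : Filter ℕ) ≤ Filter.cofinite}

/-- `Z` is a `G_δ` set in its Stone-Čech compactification. -/
def CechComplete (Z : Type) [TopologicalSpace Z] : Prop :=
  IsGδ (Set.range (stoneCechUnit : Z → StoneCech Z))

end Pool.Agent.H84.CkwDefs
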