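import Pool.Agent.H84.Stat

/-! The spaces `XX`, `Z`, `YY` and the closed map. -/

namespace Pool.Agent.H84.Clos

open Set Cardinal Topology Filter Pool.Agent.H84.Stat

abbrev A := La → Om

def agree (μ : La) (a b : A) : Prop := ∀ ν < μ, a ν = b ν

theorem agree.refl (μ : La) (a : A) : agree μ a a := fun _ _ => rfl
theorem agree.symm {μ : La} {a b : A} (h : agree μ a b) : agree μ b a := fun ν hν => (h ν hν).symm
theorem agree.trans {μ : La} {a b c : A} (h : agree μ a b) (h' : agree μ b c) : agree μ a c :=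
  fun ν hν => (h ν hν).trans (h' ν hν)
theorem agree.mono {μ μ' : La} {a b : A} (h : agree μ a b) (h' : μ' ≤ μ) : agree μ' a b :=
  fun ν hν => h ν (hν.trans_le h')

open Classical in
noncomputable def trunc (μ : La) (a : A) : A := fun ν => if ν < μ then a ν else ⊥

theorem trunc_agree (μ : La) (a : A) : agree μ (trunc μ a) a := fun ν hν => by simp [trunc, hν]

theorem trunc_ge {μ ν : La} (a : A) (h : μ ≤ ν) : trunc μ a ν = ⊥ := by simp [trunc, h.not_gt]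

theorem trunc_eq_iff {μ : La} {a b : A} : trunc μ a = trunc μ b ↔ agree μ a b := by
  constructor
  · intro h
    exact (trunc_agree μ a).symm.trans (h ▸ trunc_agree μ b)
  · intro h
    funext ν
    by_cases hν : ν < μ
    · simp [trunc, hν, h ν hν]
    · simp [trunc, hν]

theorem exists_split {μ : La} {a b : A} (h : ¬ agree μ a b) :
    ∃ ν < μ, agree ν a b ∧ a ν ≠ b ν := by
  have hne : {ν | ν < μ ∧ a ν ≠ b ν}.Nonempty := by
    simp only [agree] at h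
    push Not at h
    exact h
  have h1 := wellFounded_lt.min_mem _ hne
  refine ⟨_, h1.1, fun ν hν => ?_, h1.2⟩
  by_contra hc
  exact wellFounded_lt.not_lt_min _ (show ν ∈ {ν | ν < μ ∧ a ν ≠ b ν} from ⟨hν.trans h1.1, hc⟩) hν

def supp (p : A) : Set La := {ν | p ν ≠ ⊥}

abbrev V := Option A

def LC := {φ : A → V // ∀ a, ∃ μ, ∀ b, agree μ b a → φ b = φ a}

abbrev J := La × LC

noncomputable def lev (γ : La) : J :=
  (γ, ⟨fun a => some (trunc γ a), fun _ => ⟨γ, fun _ h => congrArg some (trunc_eq_iff.2 h)⟩⟩)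

def D := {d : J → V // {j | d j ≠ none}.Countable}

inductive Z
  | pt (a : A)
  | iso (d : D) (n : ℕ)

open Z

def ev : Z → J → V
  | pt a, j => j.2.1 a
  | iso d _, j => d.1 j

theorem ev_lev (a : A) (γ : La) : ev (pt a) (lev γ) = some (trunc γ a) := rfl

def sheet (n : ℕ) : Set Z := {z | ∀ d k, z = iso d k → k = n}

theorem pt_sheet (a : A) (n : ℕ) : pt a ∈ sheet n := fun _ _ h => by cases h

theorem iso_sheet {d : D} {k n : ℕ} : iso d k ∈ sheet n ↔ k = n :=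
  ⟨fun h => h d k rfl, fun h _ _ h' => by cases h'; exact h⟩

def kill (γ : La) (s : A) (ν : La) : Prop :=
  (∀ η < γ, ∃ ν', η ≤ ν' ∧ ν' < γ ∧ s ν' ≠ ⊥) ∨ ∀ ν', ν ≤ ν' → ν' < γ → s ν' = ⊥

def kap (n : ℕ) (z : Z) (μ : La) (b : A) : Prop :=
  ∀ γ, Ucof γ → cls γ ≠ n → ∀ s, ev z (lev γ) = some s → ∀ ν, ν < γ → ν < μ → agree ν s b →
    s ν ≠ b ν → ¬ kill γ s ν

theorem kap.mono {n : ℕ} {z : Z} {μ μ' : La} {b : A} (h : kap n z μ b) (h' : μ' ≤ μ) :
    kap n z μ' b := fun γ h1 h2 s h3 ν h4 h5 => h γ h1 h2 s h3 ν h4 (h5.trans_le h')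

theorem kap.congr {n : ℕ} {z : Z} {μ : La} {b b' : A} (h : kap n z μ b) (h' : agree μ b b') :
    kap n z μ b' := fun γ h1 h2 s h3 ν h4 h5 h6 h7 =>
  h γ h1 h2 s h3 ν h4 h5 (h6.trans (h'.mono h5.le).symm) (by rwa [h' ν h5])

theorem kap_pt (n : ℕ) {μ : La} {a b : A} (h : agree μ a b) : kap n (pt a) μ b := by
  intro γ _ _ s h3 ν h4 h5 _ h7
  rw [ev_lev] at h3
  cases h3
  exact absurd ((trunc_agree γ a ν h4).trans (h ν h5)) h7

def UU (a : A) (C : Set J) (μ : La) : Set Z :=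
  {z | (∀ j ∈ C, ev z j = ev (pt a) j) ∧ (∀ b, z = pt b → agree μ b a) ∧
    ∀ n, z ∈ sheet n → kap n z μ a}

theorem UU_mono (a : A) {C C' : Set J} {μ μ' : La} (h1 : C ⊆ C') (h2 : μ ≤ μ') :
    UU a C' μ' ⊆ UU a C μ := fun _ hz =>
  ⟨fun j hj => hz.1 j (h1 hj), fun b hb => (hz.2.1 b hb).mono h2, fun n hn => (hz.2.2 n hn).mono h2⟩

theorem pt_mem_UU {a b : A} {C : Set J} {μ : La} (h1 : ∀ j ∈ C, ev (pt b) j = ev (pt a) j)
    (h2 : agree μ b a) : pt b ∈ UU a C μ :=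
  ⟨h1, fun _ h => by cases h; exact h2, fun n _ => kap_pt n h2⟩

theorem self_mem_UU (a : A) (C : Set J) (μ : La) : pt a ∈ UU a C μ :=
  pt_mem_UU (fun _ _ => rfl) (agree.refl _ _)

theorem exists_depth (a : A) {C : Set J} (hC : C.Countable) :
    ∃ τ, ∀ b, agree τ b a → ∀ j ∈ C, ev (pt b) j = ev (pt a) j := by
  choose μ hμ using fun j : J => j.2.2 a
  obtain ⟨τ, hτ⟩ := La_bound_ctbl (hC.image μ)
  exact ⟨τ, fun b hb j hj => hμ j b (hb.mono (hτ _ ⟨j, hj, rfl⟩).le)⟩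

instance : TopologicalSpace Z where
  IsOpen O := ∀ a, pt a ∈ O → ∃ C μ, C.Countable ∧ UU a C μ ⊆ O
  isOpen_univ := fun _ _ => ⟨∅, ⊥, countable_empty, subset_univ _⟩
  isOpen_inter := fun U V hU hV a ha => by
    obtain ⟨C, μ, h1, h2⟩ := hU a ha.1
    obtain ⟨C', μ', h3, h4⟩ := hV a ha.2
    exact ⟨C ∪ C', max μ μ', h1.union h3, subset_inter
      ((UU_mono a subset_union_left (le_max_left _ _)).trans h2)
      ((UU_mono a subset_union_right (le_max_right _ _)).trans h4)⟩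
  isOpen_sUnion := fun S hS a ⟨U, hU, ha⟩ => by
    obtain ⟨C, μ, h1, h2⟩ := hS U hU a ha
    exact ⟨C, μ, h1, h2.trans (subset_sUnion_of_mem hU)⟩

theorem isOpen_Z {O : Set Z} : IsOpen O ↔ ∀ a, pt a ∈ O → ∃ C μ, C.Countable ∧ UU a C μ ⊆ O :=
  Iff.rfl

theorem isOpen_UU (a : A) {C : Set J} (hC : C.Countable) (μ : La) : IsOpen (UU a C μ) := by
  intro b hb
  have h := hb.2.1 b rfl
  exact ⟨C, μ, hC, fun z hz => ⟨fun j hj => (hz.1 j hj).trans (hb.1 j hj),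
    fun c hc => (hz.2.1 c hc).trans h, fun n hn => (hz.2.2 n hn).congr h⟩⟩

theorem UU_nhds (a : A) {C : Set J} (hC : C.Countable) (μ : La) : UU a C μ ∈ 𝓝 (pt a) :=
  (isOpen_UU a hC μ).mem_nhds (self_mem_UU a C μ)

theorem mem_nhds_pt {a : A} {O : Set Z} :
    O ∈ 𝓝 (pt a) ↔ ∃ C μ, C.Countable ∧ UU a C μ ⊆ O := by
  constructor
  · intro h
    obtain ⟨O', h1, h2, h3⟩ := mem_nhds_iff.1 h
    obtain ⟨C, μ, h4, h5⟩ := h2 a h3
    exact ⟨C, μ, h4, h5.trans h1⟩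
  · rintro ⟨C, μ, h1, h2⟩
    exact mem_of_superset (UU_nhds a h1 μ) h2

theorem isOpen_of_no_pt {O : Set Z} (h : ∀ a, pt a ∉ O) : IsOpen O := fun a ha => absurd ha (h a)

theorem nhds_iso (d : D) (n : ℕ) : 𝓝 (iso d n) = pure (iso d n) :=
  (isOpen_singleton_iff_nhds_eq_pure _).1 (isOpen_of_no_pt fun _ h => by cases h)

instance (z : Z) : CountableInterFilter (𝓝 z) := by
  cases z with
  | iso d n => rw [nhds_iso, ← principal_singleton]; infer_instance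
  | pt a =>
    refine ⟨fun S hS h => ?_⟩
    choose! C μ h1 h2 using fun O hO => mem_nhds_pt.1 (h O hO)
    obtain ⟨τ, hτ⟩ := La_bound_ctbl (hS.image μ)
    refine mem_nhds_pt.2 ⟨⋃ O ∈ S, C O, τ, hS.biUnion h1, subset_sInter fun O hO => ?_⟩
    exact (UU_mono a (subset_biUnion_of_mem (u := C) hO) (hτ _ ⟨O, hO, rfl⟩).le).trans (h2 O hO)

theorem ev_eventually (z : Z) (j : J) : ∀ᶠ z' in 𝓝 z, ev z' j = ev z j := by
  cases z with
  | iso d n => rw [nhds_iso]; rfl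
  | pt a => exact mem_of_superset (UU_nhds a (countable_singleton j) ⊥) fun z hz => hz.1 j rfl

theorem isClosed_UU (a : A) {C : Set J} {μ : La} (h : lev μ ∈ C) : IsClosed (UU a C μ) := by
  refine ⟨fun b hb => ?_⟩
  have : ∃ j ∈ C, ev (pt b) j ≠ ev (pt a) j := by
    by_contra hc
    push Not at hc
    refine hb (pt_mem_UU hc ?_)
    have := hc _ h
    rw [ev_lev, ev_lev] at this
    exact trunc_eq_iff.1 (Option.some_injective _ this)
  obtain ⟨j, hj, hne⟩ := this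
  exact ⟨{j}, ⊥, countable_singleton j, fun z hz hz' => hne ((hz.1 j rfl).symm.trans (hz'.1 j hj))⟩

theorem exists_clopen_Z {z : Z} {O : Set Z} (h : O ∈ 𝓝 z) : ∃ K, IsClopen K ∧ z ∈ K ∧ K ⊆ O := by
  cases z with
  | pt a =>
    obtain ⟨C, μ, h1, h2⟩ := mem_nhds_pt.1 h
    exact ⟨UU a (insert (lev μ) C) μ, ⟨isClosed_UU a (mem_insert _ _), isOpen_UU a (h1.insert _) μ⟩,
      self_mem_UU _ _ _, (UU_mono a (subset_insert _ _) le_rfl).trans h2⟩
  | iso d n =>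
    refine ⟨{iso d n}, ⟨⟨fun b _ => ?_⟩, isOpen_of_no_pt fun _ h => by cases h⟩, rfl,
      singleton_subset_iff.2 (mem_of_mem_nhds h)⟩
    obtain ⟨γ, hγ⟩ := La_bound_ctbl (d.2.image Prod.fst)
    refine ⟨{lev γ}, ⊥, countable_singleton _, fun z hz hz' => ?_⟩
    cases hz'
    have h1 := hz.1 _ rfl
    refine (hγ γ ⟨lev γ, ?_, rfl⟩).false
    intro h2
    rw [ev_lev] at h1
    exact Option.some_ne_none _ (h1.symm.trans h2)

instance : T1Space Z := by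
  refine ⟨fun z => ?_⟩
  cases z with
  | iso d n =>
    obtain ⟨K, h1, h2, h3⟩ := exists_clopen_Z (z := iso d n) (O := {iso d n})
      (by rw [nhds_iso]; rfl)
    rw [← (h3.antisymm (singleton_subset_iff.2 h2))]
    exact h1.1
  | pt a =>
    refine ⟨fun b hb => ?_⟩
    have : ∃ ν, b ν ≠ a ν := Function.ne_iff.1 fun h => hb (by rw [h]; rfl)
    obtain ⟨ν, hν⟩ := this
    obtain ⟨μ, hμ⟩ := exists_gt ν
    refine ⟨∅, μ, countable_empty, fun z hz hz' => ?_⟩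
    exact hν (hz.2.1 a hz' ν hμ).symm

theorem creg_of_clopen {X : Type} [TopologicalSpace X]
    (h : ∀ (z : X) (O : Set X), O ∈ 𝓝 z → ∃ K, IsClopen K ∧ z ∈ K ∧ K ⊆ O) :
    CompletelyRegularSpace X :=
  CompletelyRegularSpace.of_isTopologicalBasis_clopens
    (TopologicalSpace.isTopologicalBasis_of_isOpen_of_nhds (fun _ hK => hK.2)
      fun z O hz hO => by
        obtain ⟨K, h1, h2, h3⟩ := h z O (hO.mem_nhds hz)
        exact ⟨K, h1, h2, h3⟩)

instance : CompletelyRegularSpace Z := creg_of_clopen fun _ _ => exists_clopen_Z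

instance : T35Space Z where

theorem isClosed_sheet (n : ℕ) : IsClosed (sheet n) :=
  ⟨isOpen_of_no_pt fun a h => h (pt_sheet a n)⟩

theorem isClosed_pts : IsClosed (range pt) :=
  ⟨isOpen_of_no_pt fun a h => h ⟨a, rfl⟩⟩

def YY := {w : ℕ × Z // w.2 ∈ sheet w.1}

instance : TopologicalSpace YY := instTopologicalSpaceSubtype

instance : T35Space YY := inferInstanceAs (T35Space {w : ℕ × Z // w.2 ∈ sheet w.1})

def ff (w : YY) : Z := w.1.2

theorem ff_cont : Continuous ff := continuous_snd.comp continuous_subtype_val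

theorem ff_surj : Function.Surjective ff := by
  intro z
  cases z with
  | pt a => exact ⟨⟨(0, pt a), pt_sheet a 0⟩, rfl⟩
  | iso d n => exact ⟨⟨(n, iso d n), iso_sheet.2 rfl⟩, rfl⟩

theorem mem_nhds_YY {w : YY} {O : Set YY} :
    O ∈ 𝓝 w ↔ ∃ G ∈ 𝓝 w.1.2, ∀ w' : YY, w'.1.1 = w.1.1 → w'.1.2 ∈ G → w' ∈ O := by
  constructor
  · intro h
    obtain ⟨P, hP, hPO⟩ := (mem_nhds_subtype _ _ _).1 h
    obtain ⟨s, hs, G, hG, hsG⟩ := mem_nhds_prod_iff.1 hP
    exact ⟨G, hG, fun w' h1 h2 => hPO (hsG ⟨by rw [h1]; exact mem_of_mem_nhds hs, h2⟩)⟩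
  · rintro ⟨G, hG, h⟩
    refine (mem_nhds_subtype _ _ _).2 ⟨{w.1.1} ×ˢ G, prod_mem_nhds ?_ hG, fun w' hw' =>
      h w' hw'.1 hw'.2⟩
    exact (isOpen_discrete _).mem_nhds rfl

theorem ff_closed : IsClosedMap ff := by
  intro F hF
  rw [← isOpen_compl_iff, isOpen_iff_mem_nhds]
  intro z hz
  have : ∀ n : ℕ, ∀ᶠ z' in 𝓝 z, ∀ w ∈ F, w.1.1 = n → ff w ≠ z' := by
    intro n
    by_cases hn : z ∈ sheet n
    · have h1 : (⟨(n, z), hn⟩ : YY) ∈ Fᶜ := fun h => hz ⟨_, h, rfl⟩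
      obtain ⟨G, hG, h⟩ := mem_nhds_YY.1 (hF.isOpen_compl.mem_nhds h1)
      exact mem_of_superset hG fun z' hz' w hw h2 h3 => h w h2 (by rw [← h3] at hz'; exact hz') hw
    · refine mem_of_superset ((isClosed_sheet n).isOpen_compl.mem_nhds hn) fun z' hz' w _ h2 h3 => ?_
      exact hz' (by rw [← h3, ← h2]; exact w.2)
  refine (eventually_countable_forall.2 this).mono ?_
  rintro z' hz' ⟨w, hw, h⟩
  exact hz' _ w hw rfl h

structure XX where
  p : A
  top : La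
  h1 : ∀ ν, top ≤ ν → p ν = ⊥
  h2 : ∀ β < top, (supp p ∩ Iio β).Countable

theorem XX.ext' {x u : XX} (h1 : x.top = u.top) (h2 : agree x.top x.p u.p) : x = u := by
  have : x.p = u.p := funext fun ν => by
    by_cases h : ν < x.top
    · exact h2 ν h
    · rw [x.h1 ν (not_lt.1 h), u.h1 ν (h1 ▸ not_lt.1 h)]
  cases x; cases u
  simp only at h1 this
  subst h1; subst this; rfl

def isN (u : XX) : Prop := (supp u.p).Countable

def VV (x : XX) (ε : Om) (m : ℕ) : Set XX :=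
  {u | u = x ∨ (isN x ∧ x.top < u.top ∧ agree x.top u.p x.p ∧ ε < u.p x.top ∧
    (¬ isN u → m ≤ cls u.top))}

theorem VV_mono (x : XX) {ε ε' : Om} {m m' : ℕ} (h1 : ε ≤ ε') (h2 : m ≤ m') :
    VV x ε' m' ⊆ VV x ε m := fun _ hu => hu.imp id fun h =>
  ⟨h.1, h.2.1, h.2.2.1, h1.trans_lt h.2.2.2.1, fun h' => h2.trans (h.2.2.2.2 h')⟩

theorem self_mem_VV (x : XX) (ε : Om) (m : ℕ) : x ∈ VV x ε m := Or.inl rfl

instance : TopologicalSpace XX where
  IsOpen O := ∀ x ∈ O, ∃ ε m, VV x ε m ⊆ O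
  isOpen_univ := fun _ _ => ⟨⊥, 0, subset_univ _⟩
  isOpen_inter := fun U V hU hV x hx => by
    obtain ⟨ε, m, h1⟩ := hU x hx.1
    obtain ⟨ε', m', h2⟩ := hV x hx.2
    exact ⟨max ε ε', max m m', subset_inter
      ((VV_mono x (le_max_left _ _) (le_max_left _ _)).trans h1)
      ((VV_mono x (le_max_right _ _) (le_max_right _ _)).trans h2)⟩
  isOpen_sUnion := fun S hS x ⟨U, hU, hx⟩ => by
    obtain ⟨ε, m, h⟩ := hS U hU x hx
    exact ⟨ε, m, h.trans (subset_sUnion_of_mem hU)⟩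

theorem isOpen_VV (x : XX) (ε : Om) (m : ℕ) : IsOpen (VV x ε m) := by
  rintro u (rfl | hu)
  · exact ⟨ε, m, Subset.rfl⟩
  · refine ⟨⊥, m, ?_⟩
    rintro w (rfl | hw)
    · exact Or.inr hu
    · refine Or.inr ⟨hu.1, hu.2.1.trans hw.2.1, (hw.2.2.1.mono hu.2.1.le).trans hu.2.2.1, ?_,
        hw.2.2.2.2⟩
      rw [hw.2.2.1 _ hu.2.1]
      exact hu.2.2.2.1

theorem mem_nhds_XX {x : XX} {O : Set XX} : O ∈ 𝓝 x ↔ ∃ ε m, VV x ε m ⊆ O := by
  constructor
  · intro h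
    obtain ⟨O', h1, h2, h3⟩ := mem_nhds_iff.1 h
    obtain ⟨ε, m, h4⟩ := h2 x h3
    exact ⟨ε, m, h4.trans h1⟩
  · rintro ⟨ε, m, h⟩
    exact mem_of_superset ((isOpen_VV x ε m).mem_nhds (self_mem_VV x ε m)) h

theorem VV_nhds (x : XX) (ε : Om) (m : ℕ) : VV x ε m ∈ 𝓝 x := mem_nhds_XX.2 ⟨ε, m, Subset.rfl⟩

theorem VV_agree {x u : XX} {ε : Om} {m : ℕ} (h : u ∈ VV x ε m) :
    x.top ≤ u.top ∧ agree x.top u.p x.p := by
  rcases h with rfl | h
  · exact ⟨le_rfl, agree.refl _ _⟩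
  · exact ⟨h.2.1.le, h.2.2.1⟩

theorem VV_of_not_isN {x : XX} (h : ¬ isN x) (ε : Om) (m : ℕ) : VV x ε m = {x} := by
  ext u
  exact ⟨fun hu => hu.resolve_right fun h' => h h'.1, Or.inl⟩

theorem isClosed_VV (x : XX) (ε : Om) (m : ℕ) : IsClosed (VV x ε m) := by
  refine ⟨fun u hu => ?_⟩
  by_cases huN : isN u
  swap
  · exact ⟨⊥, 0, by rw [VV_of_not_isN huN]; exact singleton_subset_iff.2 hu⟩
  refine ⟨x.p u.top, 0, fun w hw hw' => ?_⟩
  have h1 := VV_agree hw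
  have h2 := VV_agree hw'
  rcases lt_trichotomy u.top x.top with h | h | h
  · rcases hw with rfl | hw
    · exact hu hw'
    · exact (h2.2 _ h).not_gt hw.2.2.2.1
  · exact hu (Or.inl (XX.ext' h (h1.2.symm.trans (h ▸ h2.2))))
  · rcases hw' with rfl | hw'
    · exact h.not_ge h1.1
    · refine hu (Or.inr ⟨hw'.1, h, (h1.2.mono h.le).symm.trans h2.2, ?_, fun h' => absurd huN h'⟩)
      rw [← h1.2 _ h]
      exact hw'.2.2.2.1

instance : T1Space XX := by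
  refine ⟨fun x => ⟨fun u hu => ⟨x.p u.top, 0, ?_⟩⟩⟩
  rintro w (rfl | hw) rfl
  · exact hu rfl
  · exact hw.2.2.2.1.false

instance : CompletelyRegularSpace XX := creg_of_clopen fun x _ h => by
  obtain ⟨ε, m, h⟩ := mem_nhds_XX.1 h
  exact ⟨_, ⟨isClosed_VV x ε m, isOpen_VV x ε m⟩, self_mem_VV x ε m, h⟩

instance : T35Space XX where

theorem isClosed_isN : IsClosed {u | isN u} :=
  ⟨fun u hu => ⟨⊥, 0, by rw [VV_of_not_isN hu]; exact singleton_subset_iff.2 hu⟩⟩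

theorem supp_lt (u : XX) {ν : La} (h : ν ∈ supp u.p) : ν < u.top := by
  by_contra hc
  exact h (u.h1 ν (not_lt.1 hc))

theorem cof_of_not_isN {u : XX} (h : ¬ isN u) {η : La} (hη : η < u.top) :
    ∃ β ∈ supp u.p, η ≤ β := by
  by_contra hc
  push Not at hc
  exact h ((u.h2 η hη).mono fun β hβ => mem_inter hβ (hc β hβ))

theorem ucof_of_not_isN {u : XX} (h : ¬ isN u) : Ucof u.top := by
  intro E hE hEu
  by_contra hc
  push Not at hc
  refine h ((hE.biUnion fun e he => (u.h2 e (hEu e he)).insert e).mono fun β hβ => ?_)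
  obtain ⟨e, he, hβe⟩ := hc β (supp_lt u hβ)
  refine mem_biUnion he ?_
  rcases hβe.eq_or_lt with h | h
  · exact Or.inl h
  · exact Or.inr ⟨hβ, h⟩

theorem mk_N_le (μ : La) : #{x : XX // isN x ∧ x.top < μ} ≤ 𝔠 := by
  let s : Set (La × Om) := Iio μ ×ˢ Set.univ
  have hs : #s ≤ 𝔠 := by
    rw [mk_setProd, mk_univ]
    exact (mul_le_mul' (mk_Iio_La μ) Om_le).trans (by simp)
  let F : {x : XX // isN x ∧ x.top < μ} → Iio μ × {t : Set (La × Om) // t ⊆ s ∧ #t ≤ ℵ₀} :=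
    fun x => (⟨x.1.top, x.2.2⟩, ⟨(fun ν => (ν, x.1.p ν)) '' supp x.1.p, by
      rintro _ ⟨ν, hν, rfl⟩
      exact ⟨(supp_lt _ hν).trans x.2.2, trivial⟩,
      le_aleph0_iff_set_countable.2 (x.2.1.image _)⟩)
  have hF : F.Injective := by
    intro x y h
    have h1 : x.1.top = y.1.top := congrArg (fun t => t.1.1) h
    have h2 : (fun ν => (ν, x.1.p ν)) '' supp x.1.p = (fun ν => (ν, y.1.p ν)) '' supp y.1.p :=
      congrArg (fun t => t.2.1) h
    refine Subtype.ext (XX.ext' h1 fun ν _ => ?_)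
    by_cases hx : ν ∈ supp x.1.p
    · obtain ⟨ν', -, h3⟩ := h2.subset ⟨ν, hx, rfl⟩
      cases (Prod.ext_iff.1 h3).1
      exact (Prod.ext_iff.1 h3).2.symm
    · by_cases hy : ν ∈ supp y.1.p
      · obtain ⟨ν', -, h3⟩ := h2.symm.subset ⟨ν, hy, rfl⟩
        cases (Prod.ext_iff.1 h3).1
        exact (Prod.ext_iff.1 h3).2
      · exact (not_not.1 hx).trans (not_not.1 hy).symm
  refine (mk_le_of_injective hF).trans ?_
  rw [mk_prod, lift_id, lift_id]
  refine (mul_le_mul' (mk_Iio_La μ) ((mk_bounded_subset_le s ℵ₀).trans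
    (power_le_power_right (max_le hs aleph0_le_continuum)))).trans (by simp)

theorem N_bound (F : XX → La) (μ : La) : ∃ b, ∀ x, isN x → x.top < μ → F x < b := by
  obtain ⟨b, hb⟩ := La_bound_fun (mk_N_le μ) fun x => F x.1
  exact ⟨b, fun x h1 h2 => hb ⟨x, h1, h2⟩⟩

end Pool.Agent.H84.Clos
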