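import Pool.Agent.H84.ClosA

/-! `XX × Z` is not normal. -/

namespace Pool.Agent.H84.Clos

open Set Cardinal Topology Filter Pool.Agent.H84.Stat Pool.Agent.H84.NCard Z

def ext (x x' : XX) : Prop := x.top ≤ x'.top ∧ agree x.top x'.p x.p

theorem ext.refl (x : XX) : ext x x := ⟨le_rfl, agree.refl _ _⟩
theorem ext.trans {x y z : XX} (h : ext x y) (h' : ext y z) : ext x z :=
  ⟨h.1.trans h'.1, (h'.2.mono h.1).trans h.2⟩

theorem exists_lim (S : Set XX) (hS : ∀ x ∈ S, ∀ y ∈ S, ext x y ∨ ext y x) :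
    ∃ q : A, (∀ x ∈ S, agree x.top q x.p) ∧ ∀ ν ∈ supp q, ∃ x ∈ S, ν ∈ supp x.p := by
  classical
  let q : A := fun ν => if h : ∃ x ∈ S, ν < x.top then h.choose.p ν else ⊥
  have h1 : ∀ x ∈ S, agree x.top q x.p := by
    intro x hx ν hν
    have h : ∃ x ∈ S, ν < x.top := ⟨x, hx, hν⟩
    simp only [q, dif_pos h]
    rcases hS x hx _ h.choose_spec.1 with h' | h'
    · exact h'.2 ν hν
    · exact (h'.2 ν h.choose_spec.2).symm
  refine ⟨q, h1, fun ν hν => ?_⟩
  by_cases h : ∃ x ∈ S, ν < x.top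
  · obtain ⟨x, hx, h⟩ := h
    exact ⟨x, hx, fun h' => hν ((h1 x hx ν h).trans h')⟩
  · exact absurd (by simp only [q, dif_neg h]) hν

theorem exists_ub (S : Set XX) (hc : S.Countable) (hN : ∀ x ∈ S, isN x)
    (hS : ∀ x ∈ S, ∀ y ∈ S, ext x y ∨ ext y x) (τ : La) (hτ : ∀ x ∈ S, x.top ≤ τ) :
    ∃ x', isN x' ∧ x'.top = τ ∧ ∀ x ∈ S, ext x x' := by
  obtain ⟨q, h1, h2⟩ := exists_lim S hS
  have hq : (supp q).Countable := (hc.biUnion hN).mono fun ν hν => by
    obtain ⟨x, hx, h⟩ := h2 ν hν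
    exact mem_biUnion hx h
  refine ⟨⟨q, τ, fun ν hν => ?_, fun β _ => hq.mono inter_subset_left⟩, hq, rfl,
    fun x hx => ⟨hτ x hx, h1 x hx⟩⟩
  by_contra h
  obtain ⟨x, hx, h⟩ := h2 ν h
  exact ((supp_lt x h).trans_le ((hτ x hx).trans hν)).false

theorem dense_bound (M : XX → ℕ) : ∃ m x₀, isN x₀ ∧ ∀ x, isN x → ext x₀ x →
    ∃ x', isN x' ∧ ext x x' ∧ M x' ≤ m := by
  by_contra hc
  push Not at hc
  choose! F h1 h2 h3 using hc
  obtain ⟨x₀, hx₀, -⟩ := exists_ub ∅ countable_empty (by simp) (by simp) ⊥ (by simp)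
  let s : ℕ → XX := fun n => Nat.rec x₀ (fun n x => F n x) n
  have hs : ∀ n, isN (s n) := fun n => by
    induction n with
    | zero => exact hx₀
    | succ n ih => exact h1 n _ ih
  have hs2 : ∀ n k, n ≤ k → ext (s n) (s k) := by
    intro n k h
    induction h with
    | refl => exact ext.refl _
    | step _ ih => exact ih.trans (h2 _ _ (hs _))
  obtain ⟨τ, hτ⟩ := La_bound_ctbl (countable_range fun n => (s n).top)
  obtain ⟨x', h4, -, h5⟩ := exists_ub (range s) (countable_range s)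
    (by rintro _ ⟨n, rfl⟩; exact hs n)
    (by rintro _ ⟨n, rfl⟩ _ ⟨k, rfl⟩; exact (le_total n k).imp (hs2 n k) (hs2 k n)) τ
    (by rintro _ ⟨n, rfl⟩; exact (hτ _ ⟨n, rfl⟩).le)
  exact (h3 (M x') _ (hs _) x' h4 (h5 _ ⟨M x' + 1, rfl⟩)).false

theorem supp_update {p : A} (hp : (supp p).Countable) (β : La) (δ : Om) :
    (supp (Function.update p β δ)).Countable := by
  refine (hp.insert β).mono fun ν hν => ?_
  by_cases h : ν = β
  · exact Or.inl h
  · right
    simpa [supp, Function.update_of_ne h] using hν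

theorem agree_update (p : A) (β : La) (δ : Om) : agree β (Function.update p β δ) p :=
  fun _ hν => Function.update_of_ne hν.ne _ _

theorem not_kill_of_ctbl {γ ν : La} {s : A} (hγ : Ucof γ) (hs : (supp s).Countable) (hν : ν < γ)
    (h : s ν ≠ ⊥) : ¬ kill γ s ν := by
  rintro (h1 | h1)
  · obtain ⟨η, h2, h3⟩ := hγ (supp s ∩ Iio γ) (hs.mono inter_subset_left) fun e he => he.2
    obtain ⟨ν', h4, h5, h6⟩ := h1 η h2
    exact (h3 ν' ⟨h6, h5⟩).not_ge h4
  · exact h (h1 ν le_rfl hν)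

theorem split_eq {a b : A} {ν β : La} (h1 : agree ν a b) (h2 : a ν ≠ b ν) (h3 : agree β a b)
    (h4 : a β ≠ b β) : ν = β := by
  rcases lt_trichotomy ν β with h | h | h
  · exact absurd (h3 ν h) h2
  · exact h
  · exact absurd (h1 β h) h4

theorem not_normal : ¬ NormalSpace (XX × Z) := by
  classical
  intro hN
  let H : Set (XX × Z) := {w | ¬ isN w.1 ∧ w.2 = pt w.1.p}
  have hH : IsClosed H := by
    rw [← isOpen_compl_iff, isOpen_iff_mem_nhds]
    rintro ⟨u, z⟩ hw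
    by_cases hu : isN u
    · cases z with
      | iso d n =>
        refine mem_of_superset (prod_mem_nhds univ_mem (isClosed_pts.isOpen_compl.mem_nhds
          (show iso d n ∉ range pt from fun ⟨_, h⟩ => by cases h))) fun w hw hw' => ?_
        exact hw.2 ⟨_, hw'.2.symm⟩
      | pt a =>
        obtain ⟨μ, hμ⟩ := exists_gt u.top
        refine mem_of_superset (prod_mem_nhds (VV_nhds u (a u.top) 0)
          (UU_nhds a countable_empty μ)) ?_
        rintro ⟨u', z'⟩ ⟨h1 | h1, h2⟩ h3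
        · exact h3.1 (h1 ▸ hu)
        · exact h1.2.2.2.1.ne' (h2.2.1 _ h3.2 _ hμ)
    · refine mem_of_superset (prod_mem_nhds (VV_nhds u ⊥ 0)
        (isOpen_compl_singleton.mem_nhds (show z ∈ ({pt u.p}ᶜ : Set Z) from
          fun h => hw ⟨hu, h⟩))) ?_
      rintro ⟨u', z'⟩ ⟨h1, h2⟩ h3
      rw [VV_of_not_isN hu] at h1
      cases h1
      exact h2 h3.2
  obtain ⟨U, G, hU, hG, hKU, hHG, hd⟩ := hN.normal ({u | isN u} ×ˢ range pt) H
    (isClosed_isN.prod isClosed_pts) hH (disjoint_left.2 fun w hw hw' => hw'.1 hw.1)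
  obtain ⟨o, ho⟩ := Om_bound (countable_singleton (⊥ : Om))
  have ho' : o ≠ ⊥ := (ho ⊥ rfl).ne'
  let a' : XX → A := fun x => Function.update x.p x.top o
  have h1 : ∀ x, isN x → ∃ ε m C μ, C.Countable ∧ VV x ε m ×ˢ UU (a' x) C μ ⊆ U := by
    intro x hx
    obtain ⟨s, hs, t, ht, h⟩ := mem_nhds_prod_iff.1
      (hU.mem_nhds (hKU (show (x, pt (a' x)) ∈ {u | isN u} ×ˢ range pt from ⟨hx, _, rfl⟩)))
    obtain ⟨ε, m, h1⟩ := mem_nhds_XX.1 hs
    obtain ⟨C, μ, h2, h3⟩ := mem_nhds_pt.1 ht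
    exact ⟨ε, m, C, μ, h2, (prod_mono h1 h3).trans h⟩
  choose! ε M C μ hC hbox using h1
  have h2 : ∀ x, isN x → ∃ x', isN x' ∧ x.top < x'.top ∧ agree x.top x'.p x.p ∧
      ε x < x'.p x.top ∧ o < x'.p x.top ∧
      ∀ b, agree x'.top b x'.p → ∀ j ∈ C x, ev (pt b) j = ev (pt x'.p) j := by
    intro x hx
    obtain ⟨δ, hδ⟩ := Om_bound ((countable_singleton (ε x)).insert o)
    obtain ⟨τ, hτ⟩ := exists_depth (Function.update x.p x.top δ) (hC x hx)
    obtain ⟨τ', hτ'⟩ := exists_gt (max τ x.top)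
    have h3 := supp_update hx x.top δ
    refine ⟨⟨Function.update x.p x.top δ, τ', fun ν hν => ?_, fun _ _ =>
      h3.mono inter_subset_left⟩, h3, (le_max_right _ _).trans_lt hτ', agree_update _ _ _, ?_, ?_,
      fun b hb => hτ b (hb.mono ((le_max_left _ _).trans hτ'.le))⟩
    · have : x.top < ν := ((le_max_right _ _).trans_lt hτ').trans_le hν
      rw [Function.update_of_ne this.ne']
      exact x.h1 ν this.le
    · simpa using hδ _ (Or.inr rfl)
    · simpa using hδ _ (Or.inl rfl)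
  choose! nx n1 n2 n3 n4 n5 n6 using h2
  obtain ⟨m, x₀, hx₀, h3⟩ := dense_bound M
  choose! e e1 e2 e3 using h3
  choose g hg using fun β : La => N_bound (fun x => (nx (e x)).top) β
  choose sc hsc using fun β : La => exists_gt β
  obtain ⟨γ, ⟨hW, hcls⟩, hγ⟩ := cls_st m fun β => max x₀.top (g (sc β))
  have hu := hW.ucof
  obtain ⟨c, -, hc1, hc2⟩ := hW
  have hx₀γ : x₀.top < γ := (le_max_left _ _).trans_lt (hγ _ (hc1 ⊥))
  have hnxγ : ∀ x, isN x → x.top < γ → (nx (e x)).top < γ := fun x h1 h2 =>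
    (hg _ x h1 (hsc _)).trans ((le_max_right _ _).trans_lt (hγ _ h2))
  have step : ∀ (S : Set XX) (i : Om), ∃ x', S.Countable → (∀ x ∈ S, isN x ∧ x.top < γ) →
      (∀ x ∈ S, ∀ y ∈ S, ext x y ∨ ext y x) →
      isN x' ∧ x'.top < γ ∧ c i ≤ x'.top ∧ ∀ x ∈ S, ext x x' := by
    intro S i
    by_cases h : S.Countable ∧ (∀ x ∈ S, isN x ∧ x.top < γ) ∧
      (∀ x ∈ S, ∀ y ∈ S, ext x y ∨ ext y x)
    · obtain ⟨η, h4, h5⟩ := hu (insert (c i) (XX.top '' S)) ((h.1.image _).insert _) (by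
        rintro _ (rfl | ⟨x, hx, rfl⟩)
        · exact hc1 i
        · exact (h.2.1 x hx).2)
      obtain ⟨x', h6, h7, h8⟩ := exists_ub S h.1 (fun x hx => (h.2.1 x hx).1) h.2.2 η
        fun x hx => (h5 _ (Or.inr ⟨x, hx, rfl⟩)).le
      exact ⟨x', fun _ _ _ => ⟨h6, h7 ▸ h4, h7 ▸ (h5 _ (Or.inl rfl)).le, h8⟩⟩
    · exact ⟨x₀, fun h1 h2 h3 => absurd ⟨h1, h2, h3⟩ h⟩
  choose st hst using step
  obtain ⟨x, hx⟩ := exists_rec (T := Om) x₀
    (fun i x => st (insert x₀ ((fun j => nx (e (x j))) '' Iio i)) i)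
    (fun i f f' h => by rw [image_congr fun j hj => by rw [h j hj]])
  have hup : ∀ y, isN y → ext x₀ y → ext y (nx (e y)) := fun y h1 h2 =>
    (e2 y h1 h2).trans ⟨(n2 _ (e1 y h1 h2)).le, n3 _ (e1 y h1 h2)⟩
  have inv : ∀ i, isN (x i) ∧ (x i).top < γ ∧ c i ≤ (x i).top ∧ ext x₀ (x i) ∧
      ∀ j < i, ext (nx (e (x j))) (x i) := by
    intro i
    induction i using WellFoundedLT.induction with
    | ind i ih =>
      have hch : ∀ j < i, ∀ j' < j, ext (nx (e (x j'))) (nx (e (x j))) := fun j hj j' hj' =>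
        ((ih j hj).2.2.2.2 j' hj').trans (hup _ (ih j hj).1 (ih j hj).2.2.2.1)
      have := hst (insert x₀ ((fun j => nx (e (x j))) '' Iio i)) i
        (((countable_Iio i).image _).insert _) (by
          rintro _ (rfl | ⟨j, hj, rfl⟩)
          · exact ⟨hx₀, hx₀γ⟩
          · exact ⟨n1 _ (e1 _ (ih j hj).1 (ih j hj).2.2.2.1), hnxγ _ (ih j hj).1 (ih j hj).2.1⟩)
        (by
          rintro _ (rfl | ⟨j, hj, rfl⟩) _ (rfl | ⟨j', hj', rfl⟩)
          · exact Or.inl (ext.refl _)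
          · exact Or.inl ((ih j' hj').2.2.2.1.trans (hup _ (ih j' hj').1 (ih j' hj').2.2.2.1))
          · exact Or.inr ((ih j hj).2.2.2.1.trans (hup _ (ih j hj).1 (ih j hj).2.2.2.1))
          · rcases lt_trichotomy j j' with h | rfl | h
            · exact Or.inl (hch j' hj' j h)
            · exact Or.inl (ext.refl _)
            · exact Or.inr (hch j hj j' h))
      rw [← hx i] at this
      exact ⟨this.1, this.2.1, this.2.2.1, this.2.2.2 _ (Or.inl rfl),
        fun j hj => this.2.2.2 _ (Or.inr ⟨j, hj, rfl⟩)⟩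
  let w : Om → XX := fun i => e (x i)
  have hwN : ∀ i, isN (w i) := fun i => e1 _ (inv i).1 (inv i).2.2.2.1
  have hxw : ∀ i, ext (x i) (w i) := fun i => e2 _ (inv i).1 (inv i).2.2.2.1
  have hww : ∀ j i, j < i → ext (nx (w j)) (w i) := fun j i h => ((inv i).2.2.2.2 j h).trans (hxw i)
  have hwn : ∀ i, ext (w i) (nx (w i)) := fun i => ⟨(n2 _ (hwN i)).le, n3 _ (hwN i)⟩
  have hnγ : ∀ i, (nx (w i)).top < γ := fun i => hnxγ _ (inv i).1 (inv i).2.1
  obtain ⟨y, hy1, hy2⟩ := exists_lim (range fun i => nx (w i)) (by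
    rintro _ ⟨j, rfl⟩ _ ⟨i, rfl⟩
    rcases lt_trichotomy j i with h | rfl | h
    · exact Or.inl ((hww j i h).trans (hwn i))
    · exact Or.inl (ext.refl _)
    · exact Or.inr ((hww i j h).trans (hwn j)))
  have hy1' : ∀ i, agree (nx (w i)).top y (nx (w i)).p := fun i => hy1 _ ⟨i, rfl⟩
  have hyv : ∀ i, y (w i).top = (nx (w i)).p (w i).top := fun i => hy1' i _ (n2 _ (hwN i))
  have hy0 : ∀ ν, γ ≤ ν → y ν = ⊥ := by
    intro ν hν
    by_contra h
    obtain ⟨_, ⟨i, rfl⟩, h⟩ := hy2 ν h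
    exact ((supp_lt _ h).trans (hnγ i)).not_ge hν
  have hcw : ∀ i, c i ≤ (w i).top := fun i => (inv i).2.2.1.trans (hxw i).1
  let u : XX := ⟨y, γ, hy0, fun β hβ => by
    obtain ⟨i, hi⟩ := hc2 β hβ
    refine (n1 _ (hwN i)).mono fun ν hν => ?_
    have : ν < (nx (w i)).top := (hν.2.trans_le (hi.trans (hcw i))).trans (n2 _ (hwN i))
    exact fun h => hν.1 ((hy1' i ν this).trans h)⟩
  have hyo : ∀ i, o < y (w i).top := fun i => by rw [hyv]; exact n5 _ (hwN i)
  have hmono : StrictMono fun i => (w i).top := fun j i h => (n2 _ (hwN j)).trans_le (hww j i h).1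
  have huN : ¬ isN u := by
    intro h
    have : (range fun i => (w i).top).Countable := h.mono (by
      rintro _ ⟨i, rfl⟩
      exact ((bot_le).trans_lt (hyo i)).ne')
    exact not_countable_univ ((countable_of_injective_of_countable_image
      (s := Set.univ) hmono.injective.injOn (by rwa [image_univ])))
  have hyw : ∀ i, agree (w i).top y (w i).p := fun i =>
    ((hy1' i).mono (n2 _ (hwN i)).le).trans (n3 _ (hwN i))
  have huV : ∀ i, u ∈ VV (w i) (ε (w i)) (M (w i)) := fun i =>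
    Or.inr ⟨hwN i, (n2 _ (hwN i)).trans (hnγ i), hyw i, by
      show _ < y _
      rw [hyv]; exact n4 _ (hwN i), fun _ => by
      show _ ≤ cls γ
      rw [hcls]; exact e3 _ (inv i).1 (inv i).2.2.2.1⟩
  obtain ⟨s, hs, t, ht, hst'⟩ := mem_nhds_prod_iff.1
    (hG.mem_nhds (hHG (show (u, pt y) ∈ H from ⟨huN, rfl⟩)))
  obtain ⟨C', μ', hC', hCt⟩ := mem_nhds_pt.1 ht
  have hbad : {i | ∃ j ∈ C', j ∈ C (w i) ∧ ev (pt y) j ≠ ev (pt (a' (w i))) j}.Countable := by
    have : ∀ j : J, {i | j ∈ C (w i) ∧ ev (pt y) j ≠ ev (pt (a' (w i))) j}.Countable := by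
      intro j
      rcases eq_empty_or_nonempty {i | j ∈ C (w i) ∧ ev (pt y) j ≠ ev (pt (a' (w i))) j} with
        h | ⟨i, hi⟩
      · rw [h]; exact countable_empty
      · refine (countable_Iic i).mono fun i' hi' => ?_
        by_contra hlt
        have hlt' : i < i' := not_le.1 hlt
        refine hi'.2 ((n6 _ (hwN i) y (hy1' i) j hi.1).trans (n6 _ (hwN i) _ ?_ j hi.1).symm)
        exact ((agree_update _ _ _).mono (hww i i' hlt').1).trans (hww i i' hlt').2
    refine (hC'.biUnion fun j _ => this j).mono ?_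
    rintro i ⟨j, h1, h2⟩
    exact mem_biUnion h1 h2
  obtain ⟨η, hηγ, hη⟩ := hu (Prod.fst '' C' ∩ Iio γ) ((hC'.image _).mono inter_subset_left)
    fun e he => he.2
  obtain ⟨i₀, hi₀⟩ := hc2 η hηγ
  obtain ⟨i, hi⟩ := Om_bound (hbad.insert i₀)
  have hi1 : η < (w i).top := (hi₀.trans (hcw i₀)).trans_lt (hmono (hi i₀ (Or.inl rfl)))
  have hi2 : ∀ j ∈ C', j ∈ C (w i) → ev (pt y) j = ev (pt (a' (w i))) j := by
    intro j h1 h2
    by_contra h3
    exact (hi i (Or.inr ⟨j, h1, h2, h3⟩)).false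
  let d : D := ⟨fun j => if j ∈ C' then ev (pt y) j else if j ∈ C (w i) then
    ev (pt (a' (w i))) j else none, (hC'.union (hC _ (hwN i))).mono fun j hj => by
      by_contra h
      rw [mem_union, not_or] at h
      exact hj (by simp [h.1, h.2])⟩
  have hsp1 : agree (w i).top (a' (w i)) y := (agree_update _ _ _).trans (hyw i).symm
  have ha'v : a' (w i) (w i).top = o := by simp [a']
  have hsp2 : a' (w i) (w i).top ≠ y (w i).top := by rw [ha'v]; exact (hyo i).ne
  have hz1 : iso d m ∈ UU y C' μ' := by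
    refine ⟨fun j hj => by simp [ev, d, hj], fun b h => (by cases h), fun n hn => ?_⟩
    cases iso_sheet.1 hn
    intro γ₁ k1 k2 s k3 ν k4 k5 k6 k7
    by_cases h : lev γ₁ ∈ C'
    · have : s = trunc γ₁ y := by
        simp only [ev, d, if_pos h] at k3
        exact (Option.some_injective _ k3).symm
      exact absurd (this ▸ trunc_agree γ₁ y ν k4) k7
    by_cases h' : lev γ₁ ∈ C (w i)
    · have : s = trunc γ₁ (a' (w i)) := by
        simp only [ev, d, if_neg h, if_pos h'] at k3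
        exact (Option.some_injective _ k3).symm
      subst this
      have k8 := trunc_agree γ₁ (a' (w i))
      have : ν = (w i).top := split_eq ((k8.mono k4.le).symm.trans k6) (by rwa [← k8 ν k4])
        hsp1 hsp2
      refine not_kill_of_ctbl k1 ((supp_update (hwN i) (w i).top o).mono fun ν' hν' => ?_) k4 ?_
      · by_cases k9 : ν' < γ₁
        · exact fun h => hν' ((k8 ν' k9).trans h)
        · exact absurd (trunc_ge _ (not_lt.1 k9)) hν'
      · rw [k8 ν k4, this, ha'v]; exact ho'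
    · simp [ev, d, h, h'] at k3
  have hz2 : iso d m ∈ UU (a' (w i)) (C (w i)) (μ (w i)) := by
    refine ⟨fun j hj => ?_, fun b h => (by cases h), fun n hn => ?_⟩
    · by_cases h : j ∈ C'
      · rw [← hi2 j h hj]; simp [ev, d, h]
      · simp [ev, d, h, hj]
    cases iso_sheet.1 hn
    intro γ₁ k1 k2 s k3 ν k4 k5 k6 k7
    by_cases h : lev γ₁ ∈ C'
    · have : s = trunc γ₁ y := by
        simp only [ev, d, if_pos h] at k3
        exact (Option.some_injective _ k3).symm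
      subst this
      have k8 := trunc_agree γ₁ y
      have hν : ν = (w i).top := split_eq ((k8.mono k4.le).symm.trans k6) (by rwa [← k8 ν k4])
        hsp1.symm hsp2.symm
      have hγ₁ : γ < γ₁ := by
        rcases lt_trichotomy γ γ₁ with h1 | h1 | h1
        · exact h1
        · exact absurd (h1 ▸ hcls) k2
        · exact absurd ((hη γ₁ ⟨⟨_, h, rfl⟩, h1⟩).trans hi1) (hν ▸ k4).not_gt
      rintro (h1 | h1)
      · obtain ⟨ν', h2, h3, h4⟩ := h1 γ hγ₁
        exact h4 ((k8 ν' h3).trans (hy0 ν' h2))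
      · have := h1 ν le_rfl k4
        rw [k8 ν k4, hν] at this
        exact ((bot_le).trans_lt (hyo i)).ne' this
    by_cases h' : lev γ₁ ∈ C (w i)
    · have : s = trunc γ₁ (a' (w i)) := by
        simp only [ev, d, if_neg h, if_pos h'] at k3
        exact (Option.some_injective _ k3).symm
      exact absurd (this ▸ trunc_agree γ₁ _ ν k4) k7
    · simp [ev, d, h, h'] at k3
  exact disjoint_left.1 hd (hbox _ (hwN i) (show (u, iso d m) ∈ _ from ⟨huV i, hz2⟩))
    (hst' ⟨mem_of_mem_nhds hs, hCt hz1⟩)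

end Pool.Agent.H84.Clos
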