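import Pool.Agent.H84.ClosB

/-! `XX × YY` is paracompact. -/

namespace Pool.Agent.H84.Clos

open Set Cardinal Topology Filter Pool.Agent.H84.Stat Z

theorem paracompact_of_labels {P : Type} [TopologicalSpace P]
    (h : ∀ (α : Type) (s : α → Set P), (∀ a, IsOpen (s a)) → (⋃ a, s a = Set.univ) →
      ∃ (L : Type) (f : P → L), (∀ x, ∀ᶠ y in 𝓝 x, f y = f x) ∧ ∀ x, ∃ a, ∀ y, f y = f x → y ∈ s a) :
    ParacompactSpace P := by
  refine ⟨fun α s h1 h2 => ?_⟩
  obtain ⟨L, f, h3, h4⟩ := h α s h1 h2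
  refine ⟨range f, fun l => f ⁻¹' {l.1}, fun l => ?_, ?_, fun x => ⟨_, h3 x, ?_⟩, ?_⟩
  · exact isOpen_iff_mem_nhds.2 fun x hx => (h3 x).mono fun y hy => hy.trans hx
  · exact eq_univ_of_forall fun x => mem_iUnion.2 ⟨⟨f x, x, rfl⟩, rfl⟩
  · refine (finite_singleton (⟨f x, x, rfl⟩ : range f)).subset ?_
    rintro l ⟨y, hy1, hy2⟩
    exact Subtype.ext ((show f y = l.1 from hy1).symm.trans hy2)
  · rintro ⟨_, x, rfl⟩
    exact h4 x

structure Lv where
  P : La → A → Prop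
  h1 : ∀ μ a b, agree μ b a → P μ a → P μ b
  h2 : ∀ a, ∃ μ, P μ a

namespace Lv

variable (L : Lv)

noncomputable def mn (a : A) : La := wellFounded_lt.min {μ | L.P μ a} (L.h2 a)

theorem mn_spec (a : A) : L.P (L.mn a) a := wellFounded_lt.min_mem {μ | L.P μ a} (L.h2 a)

theorem mn_le {a : A} {μ : La} (h : L.P μ a) : L.mn a ≤ μ :=
  not_lt.1 (wellFounded_lt.not_lt_min {μ | L.P μ a} h)

theorem mn_congr {a b : A} (h : agree (L.mn a) b a) : L.mn b = L.mn a := by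
  have h1 : L.mn b ≤ L.mn a := L.mn_le (L.h1 _ _ _ h (L.mn_spec a))
  exact h1.antisymm (L.mn_le (L.h1 _ _ _ (h.mono h1).symm (L.mn_spec b)))

noncomputable def φ (a : A) : V := some (trunc (L.mn a) a)

theorem φ_congr {a b : A} (h : agree (L.mn a) b a) : L.φ b = L.φ a := by
  rw [φ, φ, L.mn_congr h, trunc_eq_iff.2 h]

theorem agree_of_φ {a b : A} (h : L.φ b = L.φ a) : agree (L.mn a) b a := by
  have h1 : trunc (L.mn b) b = trunc (L.mn a) a := Option.some_injective _ h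
  have key : ∀ a b : A, trunc (L.mn b) b = trunc (L.mn a) a → L.mn a ≤ L.mn b →
      agree (L.mn a) b a := fun a b h1 h2 =>
    ((trunc_agree _ b).mono h2).symm.trans (h1 ▸ trunc_agree _ a)
  rcases le_total (L.mn a) (L.mn b) with h2 | h2
  · exact key a b h1 h2
  · have := key b a h1.symm h2
    rw [L.mn_congr this]
    exact this.symm

noncomputable def j : J := (⊥, ⟨L.φ, fun a => ⟨L.mn a, fun _ h => L.φ_congr h⟩⟩)

theorem ev_j (a : A) : ev (pt a) L.j = L.φ a := rfl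

end Lv

theorem agree_of_kap {n : ℕ} {z : Z} {μ γ β₀ : La} {a b : A} (h1 : kap n z μ b)
    (h2 : ev z (lev γ) = some (trunc γ a)) (h3 : Ucof γ) (h4 : cls γ ≠ n)
    (h5 : ∀ ν, β₀ ≤ ν → ν < γ → kill γ (trunc γ a) ν) {ρ : La} (h6 : β₀ < ρ) (h7 : agree ρ a b) :
    agree (min γ μ) a b := by
  by_contra hc
  obtain ⟨ν, k1, k2, k3⟩ := exists_split hc
  have k4 : ν < γ := k1.trans_le (min_le_left _ _)
  refine h1 γ h3 h4 _ h2 ν k4 (k1.trans_le (min_le_right _ _))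
    (((trunc_agree γ a).mono k4.le).trans k2) (by rwa [trunc_agree γ a ν k4]) (h5 ν ?_ k4)
  by_contra k5
  exact k3 (h7 ν ((not_le.1 k5).trans h6))

noncomputable def cp (u : XX) (β : La) : XX where
  p := trunc (min β u.top) u.p
  top := min β u.top
  h1 := fun _ h => trunc_ge _ h
  h2 := fun β' h => (u.h2 β' (h.trans_le (min_le_right _ _))).mono fun ν hν =>
    mem_inter (fun h' => hν.1 ((trunc_agree _ _ ν (lt_trans hν.2 h)).trans h')) hν.2

theorem cp_top {u : XX} {β : La} (h : β ≤ u.top) : (cp u β).top = β := min_eq_left h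

theorem cp_agree {u : XX} {β : La} (h : β ≤ u.top) : agree β (cp u β).p u.p := by
  exact (trunc_agree (min β u.top) u.p).mono (min_eq_left h).ge

theorem cp_self (u : XX) : cp u u.top = u :=
  XX.ext' (cp_top le_rfl) (by rw [cp_top le_rfl]; exact cp_agree le_rfl)

theorem cp_congr {u u' : XX} {β : La} (h : β ≤ u.top) (h' : β ≤ u'.top) (h2 : agree β u'.p u.p) :
    cp u' β = cp u β :=
  XX.ext' ((cp_top h').trans (cp_top h).symm) (by
    rw [cp_top h']
    exact (cp_agree h').trans (h2.trans (cp_agree h).symm))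

theorem mem_supp_cp {u : XX} {β ν : La} (h : β ≤ u.top) :
    ν ∈ supp (cp u β).p ↔ ν ∈ supp u.p ∧ ν < β := by
  constructor
  · intro h1
    have h2 : ν < β := (cp_top h) ▸ supp_lt _ h1
    exact ⟨fun h3 => h1 ((cp_agree h ν h2).trans h3), h2⟩
  · rintro ⟨h1, h2⟩ h3
    exact h1 ((cp_agree h ν h2).symm.trans h3)

theorem cp_isN {u : XX} {β : La} (h : β < u.top) : isN (cp u β) :=
  (u.h2 β h).mono fun _ hν => (mem_supp_cp h.le).1 hν

section Cover

variable {α : Type} (s : α → Set (XX × YY))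

def Box (n : ℕ) (u : XX) (ε : Om) (m : ℕ) (W : Set Z) : Prop :=
  n < m ∧ ∃ i, ∀ u' ∈ VV u ε m, ∀ w : YY, w.1.1 = n → w.1.2 ∈ W → (u', w) ∈ s i

def Fit (n : ℕ) (u : XX) (μ : La) (a : A) : Prop :=
  ∃ ε m W, (∀ b, agree μ b a → W ∈ 𝓝 (pt b)) ∧ Box s n u ε m W

variable {s}

theorem Box.mono {n : ℕ} {u : XX} {ε ε' : Om} {m : ℕ} {W W' : Set Z} (h : Box s n u ε m W)
    (h1 : ε ≤ ε') (h2 : W' ⊆ W) : Box s n u ε' m W' :=
  ⟨h.1, h.2.imp fun _ hi u' hu' w h3 h4 => hi u' (VV_mono u h1 le_rfl hu') w h3 (h2 h4)⟩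

theorem Fit.mono {n : ℕ} {u : XX} {μ μ' : La} {a : A} (h : Fit s n u μ a) (h' : μ ≤ μ') :
    Fit s n u μ' a := by
  obtain ⟨ε, m, W, h1, h2⟩ := h
  exact ⟨ε, m, W, fun b hb => h1 b (hb.mono h'), h2⟩

theorem Fit.congr {n : ℕ} {u : XX} {μ : La} {a b : A} (h' : agree μ b a) (h : Fit s n u μ a) :
    Fit s n u μ b := by
  obtain ⟨ε, m, W, h1, h2⟩ := h
  exact ⟨ε, m, W, fun c hc => h1 c (hc.trans h'), h2⟩

variable (ho : ∀ a, IsOpen (s a)) (hc : ⋃ a, s a = Set.univ)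
include ho hc

theorem exists_box (n : ℕ) (u : XX) (z : Z) : ∃ ε m, ∃ G ∈ 𝓝 z, Box s n u ε m G := by
  by_cases hz : z ∈ sheet n
  · obtain ⟨i, hi⟩ := iUnion_eq_univ_iff.1 hc (u, ⟨(n, z), hz⟩)
    obtain ⟨t, ht, t', ht', h⟩ := mem_nhds_prod_iff.1 ((ho i).mem_nhds hi)
    obtain ⟨ε, m, h1⟩ := mem_nhds_XX.1 ht
    obtain ⟨G, hG, h2⟩ := mem_nhds_YY.1 ht'
    exact ⟨ε, max m (n + 1), G, hG, lt_max_of_lt_right (Nat.lt_succ_self n), i,
      fun u' hu' w h3 h4 => h ⟨h1 (VV_mono u le_rfl (le_max_left _ _) hu'), h2 w h3 h4⟩⟩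
  · obtain ⟨i, -⟩ := iUnion_eq_univ_iff.1 hc (u, ⟨(n, pt ⊥), pt_sheet _ _⟩)
    exact ⟨⊥, n + 1, _, (isClosed_sheet n).isOpen_compl.mem_nhds hz, Nat.lt_succ_self n, i,
      fun u' _ w h3 h4 => absurd (h3 ▸ w.2) h4⟩

theorem exists_fit (n : ℕ) (u : XX) (a : A) : ∃ μ, Fit s n u μ a := by
  obtain ⟨ε, m, G, hG, h⟩ := exists_box ho hc n u (pt a)
  obtain ⟨C, μ, h1, h2⟩ := mem_nhds_pt.1 hG
  obtain ⟨τ, hτ⟩ := exists_depth a h1
  refine ⟨max τ μ, ε, m, UU a C μ, fun b hb => (isOpen_UU a h1 μ).mem_nhds ?_, h.mono le_rfl h2⟩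
  exact pt_mem_UU (hτ b (hb.mono (le_max_left _ _))) (hb.mono (le_max_right _ _))

def PN (n : ℕ) (β : La) : Lv where
  P μ a := β < μ ∧ ∀ x, isN x → x.top < μ → Fit s n x μ a
  h1 := fun _ _ _ h h' => ⟨h'.1, fun x h1 h2 => (h'.2 x h1 h2).congr h⟩
  h2 := fun a => by
    choose F hF using fun x => exists_fit ho hc n x a
    choose g hg using N_bound F
    choose sc hsc using fun β : La => exists_gt β
    obtain ⟨γ, ⟨⟨c, -, hc1, -⟩, -⟩, hγ⟩ := cls_st 0 fun η => max β (g (sc η))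
    exact ⟨γ, (le_max_left _ _).trans_lt (hγ _ (hc1 ⊥)), fun x h1 h2 => (hF x).mono
      ((hg _ x h1 (hsc _)).trans ((le_max_right _ _).trans_lt (hγ _ h2))).le⟩

def PY (n : ℕ) (u : XX) : Lv where
  P μ a := Fit s n u μ a
  h1 := fun _ _ _ h h' => h'.congr h
  h2 := exists_fit ho hc n u

open Classical in
noncomputable def LL (n : ℕ) (u : XX) : Lv := if isN u then PN ho hc n u.top else PY ho hc n u

theorem LL_N (n : ℕ) {u : XX} (h : isN u) : LL ho hc n u = PN ho hc n u.top := if_pos h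

theorem LL_fit (n : ℕ) (u : XX) (a : A) : Fit s n u ((LL ho hc n u).mn a) a := by
  by_cases h : isN u
  · rw [LL_N ho hc n h]
    have := (PN ho hc n u.top).mn_spec a
    exact this.2 u h this.1
  · have : LL ho hc n u = PY ho hc n u := if_neg h
    rw [this]
    exact (PY ho hc n u).mn_spec a

theorem PN_lt (n : ℕ) (β : La) (a : A) : β < (PN ho hc n β).mn a := ((PN ho hc n β).mn_spec a).1

theorem PN_mn_eq (n : ℕ) {β β₀ : La} (a : A) (h1 : β₀ ≤ β) (h2 : β < (PN ho hc n β₀).mn a) :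
    (PN ho hc n β).mn a = (PN ho hc n β₀).mn a :=
  le_antisymm ((PN ho hc n β).mn_le ⟨h2, ((PN ho hc n β₀).mn_spec a).2⟩)
    ((PN ho hc n β₀).mn_le ⟨h1.trans_lt (PN_lt ho hc n β a), ((PN ho hc n β).mn_spec a).2⟩)

theorem exists_data (n : ℕ) (u : XX) (v : V) : ∃ ε m W,
    (∀ a, (LL ho hc n u).φ a = v → W ∈ 𝓝 (pt a)) ∧ Box s n u ε m W := by
  by_cases h : ∃ a, (LL ho hc n u).φ a = v
  · obtain ⟨a, rfl⟩ := h
    obtain ⟨ε, m, W, h1, h2⟩ := LL_fit ho hc n u a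
    exact ⟨ε, m, W, fun b hb => h1 b ((LL ho hc n u).agree_of_φ hb), h2⟩
  · obtain ⟨ε, m, G, -, h2⟩ := exists_box ho hc n u (pt ⊥)
    exact ⟨ε, m, G, fun a ha => absurd ⟨a, ha⟩ h, h2⟩

def TT (n : ℕ) (x : XX) (z : Z) : Set V :=
  {v | ∃ γ a β₀, Ucof γ ∧ cls γ ≠ n ∧ β₀ ∈ supp x.p ∧ ev z (lev γ) = some (trunc γ a) ∧
    kap n z γ a ∧ (PN ho hc n x.top).mn a < γ ∧ (∀ ν, β₀ ≤ ν → ν < γ → kill γ (trunc γ a) ν) ∧
    (∀ β' ∈ supp x.p, β' ≤ β₀ → ev z (PN ho hc n β').j = (PN ho hc n β').φ a) ∧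
    v = (PN ho hc n x.top).φ a}

theorem TT_subsingleton (n : ℕ) (x : XX) (z : Z) : (TT ho hc n x z).Subsingleton := by
  have key : ∀ γ a β₀ γ' a' β₀', β₀ ≤ β₀' → Ucof γ → cls γ ≠ n → β₀ ∈ supp x.p →
      ev z (lev γ) = some (trunc γ a) → (PN ho hc n x.top).mn a < γ →
      (∀ ν, β₀ ≤ ν → ν < γ → kill γ (trunc γ a) ν) →
      (∀ β' ∈ supp x.p, β' ≤ β₀ → ev z (PN ho hc n β').j = (PN ho hc n β').φ a) →
      kap n z γ' a' → (PN ho hc n x.top).mn a' < γ' →
      (∀ β' ∈ supp x.p, β' ≤ β₀' → ev z (PN ho hc n β').j = (PN ho hc n β').φ a') →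
      (PN ho hc n x.top).φ a = (PN ho hc n x.top).φ a' := by
    intro γ a β₀ γ' a' β₀' h0 h1 h2 h3 h4 h6 h7 h8 h5' h6' h8'
    have k1 := (PN ho hc n β₀).agree_of_φ ((h8' β₀ h3 h0).symm.trans (h8 β₀ h3 le_rfl))
    have k2 := agree_of_kap h5' h4 h1 h2 h7 (PN_lt ho hc n β₀ a) k1.symm
    rcases le_total γ γ' with h | h
    · rw [min_eq_left h] at k2
      exact ((PN ho hc n x.top).φ_congr (k2.mono h6.le).symm).symm
    · rw [min_eq_right h] at k2
      exact (PN ho hc n x.top).φ_congr (k2.mono h6'.le)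
  rintro _ ⟨γ, a, β₀, h1, h2, h3, h4, h5, h6, h7, h8, rfl⟩
    _ ⟨γ', a', β₀', h1', h2', h3', h4', h5', h6', h7', h8', rfl⟩
  rcases le_total β₀ β₀' with h | h
  · exact key γ a β₀ γ' a' β₀' h h1 h2 h3 h4 h6 h7 h8 h5' h6' h8'
  · exact (key γ' a' β₀' γ a β₀ h h1' h2' h3' h4' h6' h7' h8' h5 h6 h8).symm

theorem exists_lab : ∃ (lab : ℕ → XX → Z → V ⊕ Z) (E : ℕ → XX → V ⊕ Z → Om)
    (M : ℕ → XX → V ⊕ Z → ℕ),
    (∀ n u z, ∀ᶠ z' in 𝓝 z, lab n u z' = lab n u z) ∧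
    (∀ n u l, Box s n u (E n u l) (M n u l) {z | lab n u z = l}) ∧
    (∀ n y a, ¬ isN y → cls y.top ≠ n → ∀ᶠ z in 𝓝 (pt a), z ∈ sheet n → ∀ β ∈ supp y.p,
      E n (cp y β) (lab n (cp y β) (pt a)) ≤ E n (cp y β) (lab n (cp y β) z)) := by
  classical
  choose ε m W hW hbox using exists_data ho hc
  choose ε₀ m₀ G₀ hG₀ hbox₀ using exists_box ho hc
  let Gs : ℕ → XX → Z → Set V := fun n x z => insert (ev z (PN ho hc n x.top).j)
    ((fun β' => ev z (PN ho hc n β').j) '' supp x.p) ∪ TT ho hc n x z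
  have h1 : ∀ n x z, ∃ e, ε₀ n x z ≤ e ∧ (isN x → ∀ v ∈ Gs n x z, ε n x v ≤ e) := by
    intro n x z
    by_cases hx : isN x
    · have : (Gs n x z).Countable :=
        ((hx.image _).insert _).union (TT_subsingleton ho hc n x z).countable
      obtain ⟨e, he⟩ := Om_bound ((this.image (ε n x)).insert (ε₀ n x z))
      exact ⟨e, (he _ (Or.inl rfl)).le, fun _ v hv => (he _ (Or.inr ⟨v, hv, rfl⟩)).le⟩
    · exact ⟨_, le_rfl, fun h => absurd h hx⟩
  choose ε' hε1 hε2 using h1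
  let In : ℕ → XX → Z → Prop := fun n u z => ∃ b, ev z (LL ho hc n u).j = (LL ho hc n u).φ b ∧
    z ∈ W n u ((LL ho hc n u).φ b) ∧
    (isN u → ∀ β' ∈ supp u.p, ev z (PN ho hc n β').j = (PN ho hc n β').φ b) ∧
    (z ∈ sheet n → kap n z ((LL ho hc n u).mn b) b)
  have hIn : ∀ n u a, ∀ᶠ z in 𝓝 (pt a), In n u z ∧
      ev z (LL ho hc n u).j = (LL ho hc n u).φ a := by
    intro n u a
    have k1 : ∀ᶠ z in 𝓝 (pt a), isN u → ∀ β' ∈ supp u.p,
        ev z (PN ho hc n β').j = (PN ho hc n β').φ a := by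
      by_cases hu : isN u
      · exact ((eventually_countable_ball hu).2 fun β' _ =>
          ev_eventually (pt a) (PN ho hc n β').j).mono fun z hz _ => hz
      · exact Eventually.of_forall fun z h => absurd h hu
    filter_upwards [k1, hW n u _ a rfl, ev_eventually (pt a) (LL ho hc n u).j,
      UU_nhds a countable_empty ((LL ho hc n u).mn a)] with z k1 k2 k3 k4
    exact ⟨⟨a, k3, k2, k1, k4.2.2 n⟩, k3⟩
  let lab : ℕ → XX → Z → V ⊕ Z := fun n u z =>
    if In n u z then .inl (ev z (LL ho hc n u).j) else .inr z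
  have hlab : ∀ n u a, lab n u (pt a) = .inl ((LL ho hc n u).φ a) := fun n u a =>
    if_pos (hIn n u a).self_of_nhds.1
  refine ⟨lab, fun n u l => l.elim (ε n u) (ε' n u), fun n u l => l.elim (m n u) (m₀ n u),
    fun n u z => ?_, fun n u l => ?_, fun n y a hy hcl => ?_⟩
  · cases z with
    | iso d k => rw [nhds_iso]; rfl
    | pt a =>
      refine (hIn n u a).mono fun z hz => ?_
      rw [hlab]
      simp only [lab, if_pos hz.1, hz.2]
  · cases l with
    | inl v =>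
      refine (hbox n u v).mono le_rfl fun z hz => ?_
      by_cases h : In n u z
      · simp only [lab, mem_ofPred_eq, if_pos h, Sum.inl.injEq] at hz
        obtain ⟨b, k1, k2, -⟩ := h
        rwa [← hz, k1]
      · simp [lab, h] at hz
    | inr z₀ =>
      refine (hbox₀ n u z₀).mono (hε1 n u z₀) fun z hz => ?_
      by_cases h : In n u z
      · simp [lab, h] at hz
      · simp only [lab, mem_ofPred_eq, if_neg h, Sum.inr.injEq] at hz
        rw [hz]
        exact mem_of_mem_nhds (hG₀ n u z₀)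
  · -- reduction
    have red : ∀ z, ∀ β ∈ supp y.p, (PN ho hc n β).φ a ∈ Gs n (cp y β) z →
        (∀ b, ev z (PN ho hc n β).j = (PN ho hc n β).φ b →
          (∀ β' ∈ supp y.p, β' < β → ev z (PN ho hc n β').j = (PN ho hc n β').φ b) →
          (z ∈ sheet n → kap n z ((PN ho hc n β).mn b) b) →
          (PN ho hc n β).φ b = (PN ho hc n β).φ a) →
        (lab n (cp y β) (pt a)).elim (ε n (cp y β)) (ε' n (cp y β)) ≤
          (lab n (cp y β) z).elim (ε n (cp y β)) (ε' n (cp y β)) := by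
      intro z β hβ k1 k2
      have hβ' := supp_lt y hβ
      have hN := cp_isN hβ'
      have hL : LL ho hc n (cp y β) = PN ho hc n β := by rw [LL_N ho hc n hN, cp_top hβ'.le]
      rw [hlab, hL]
      by_cases h : In n (cp y β) z
      · simp only [lab, if_pos h, Sum.elim_inl]
        obtain ⟨b, k3, -, k4, k5⟩ := h
        rw [hL] at k3 k5 ⊢
        rw [k3, k2 b k3 (fun β' h1 h2 => k4 hN β' ((mem_supp_cp hβ'.le).2 ⟨h1, h2⟩)) k5]
      · simp only [lab, if_neg h, Sum.elim_inl, Sum.elim_inr]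
        exact hε2 n _ z hN _ k1
    have hev : ∀ β₀ ∈ supp y.p, ∀ᶠ z in 𝓝 (pt a), ∀ β' ∈ supp y.p ∩ Iic β₀,
        ev z (PN ho hc n β').j = (PN ho hc n β').φ a := by
      intro β₀ hβ₀
      refine (eventually_countable_ball ?_).2 fun β' _ => ev_eventually (pt a) (PN ho hc n β').j
      refine ((y.h2 β₀ (supp_lt y hβ₀)).insert β₀).mono fun ν hν => ?_
      rcases (mem_Iic.1 hν.2).eq_or_lt with h | h
      · exact Or.inl h
      · exact Or.inr ⟨hν.1, h⟩
    have low : ∀ z, ∀ β ∈ supp y.p, ev z (PN ho hc n β).j = (PN ho hc n β).φ a →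
        (lab n (cp y β) (pt a)).elim (ε n (cp y β)) (ε' n (cp y β)) ≤
          (lab n (cp y β) z).elim (ε n (cp y β)) (ε' n (cp y β)) := by
      intro z β hβ h
      refine red z β hβ (Or.inl (Or.inl ?_)) fun b k1 _ _ => k1.symm.trans h
      rw [cp_top (supp_lt y hβ).le, h]
    by_cases hA : ∃ β₀ ∈ supp y.p, y.top ≤ (PN ho hc n β₀).mn a
    · obtain ⟨β₀, hβ₀, hA⟩ := hA
      refine (hev β₀ hβ₀).mono fun z hz _ β hβ => ?_
      rcases le_or_gt β β₀ with h | h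
      · exact low z β hβ (hz β ⟨hβ, h⟩)
      · have k1 := PN_mn_eq ho hc n a h.le ((supp_lt y hβ).trans_le hA)
        have k2 := hz β₀ ⟨hβ₀, le_refl β₀⟩
        refine red z β hβ (Or.inl (Or.inr ⟨β₀, (mem_supp_cp (supp_lt y hβ).le).2 ⟨hβ₀, h⟩, ?_⟩))
          fun b _ k3 _ => ?_
        · simp only [k2, Lv.φ, k1]
        · refine (PN ho hc n β).φ_congr ?_
          rw [k1]
          exact (PN ho hc n β₀).agree_of_φ ((k3 β₀ hβ₀ h).symm.trans k2)
    · push Not at hA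
      obtain ⟨β₀, hβ₀, hk⟩ : ∃ β₀ ∈ supp y.p, ∀ ν, β₀ ≤ ν → ν < y.top →
          kill y.top (trunc y.top a) ν := by
        by_cases h : ∀ η < y.top, ∃ ν', η ≤ ν' ∧ ν' < y.top ∧ trunc y.top a ν' ≠ ⊥
        · obtain ⟨η, hη, -⟩ := ucof_of_not_isN hy ∅ countable_empty (by simp)
          obtain ⟨β₀, h1, -⟩ := cof_of_not_isN hy hη
          exact ⟨β₀, h1, fun _ _ _ => Or.inl h⟩
        · push Not at h
          obtain ⟨η, hη, h⟩ := h
          obtain ⟨β₀, h1, h2⟩ := cof_of_not_isN hy hη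
          exact ⟨β₀, h1, fun ν h3 _ => Or.inr fun ν' h4 h5 => h ν' (h2.trans (h3.trans h4)) h5⟩
      have hu := ucof_of_not_isN hy
      filter_upwards [hev β₀ hβ₀, ev_eventually (pt a) (lev y.top),
        UU_nhds a countable_empty y.top] with z hz hz1 hz2 hzn β hβ
      rcases le_or_gt β β₀ with h | h
      · exact low z β hβ (hz β ⟨hβ, h⟩)
      · have hβ' := supp_lt y hβ
        refine red z β hβ (Or.inr ⟨y.top, a, β₀, hu, hcl, (mem_supp_cp hβ'.le).2 ⟨hβ₀, h⟩, hz1,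
          hz2.2.2 n hzn, by rw [cp_top hβ'.le]; exact hA β hβ, hk,
          fun β' k1 k2 => hz β' ⟨((mem_supp_cp hβ'.le).1 k1).1, k2⟩, by rw [cp_top hβ'.le]⟩)
          fun b _ k3 k4 => ?_
        have k1 := (PN ho hc n β₀).agree_of_φ ((k3 β₀ hβ₀ h).symm.trans (hz β₀ ⟨hβ₀, le_refl β₀⟩))
        have k2 := agree_of_kap (k4 hzn) hz1 hu hcl hk (PN_lt ho hc n β₀ a) k1.symm
        rcases le_total y.top ((PN ho hc n β).mn b) with k | k
        · rw [min_eq_left k] at k2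
          exact (PN ho hc n β).φ_congr (k2.mono (hA β hβ).le).symm
        · rw [min_eq_right k] at k2
          exact ((PN ho hc n β).φ_congr k2).symm

end Cover

theorem para : ParacompactSpace (XX × YY) := by
  classical
  refine paracompact_of_labels fun α s ho hc => ?_
  obtain ⟨lab, E, M, hloc, hbox, hkey⟩ := exists_lab ho hc
  let Cap : ℕ → XX → Z → La → Prop := fun n u z β =>
    (β = u.top ∧ isN u) ∨ (β < u.top ∧ E n (cp u β) (lab n (cp u β) z) < u.p β)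
  let Good : ℕ → XX → Z → La → Prop := fun n u z β => Cap n u z β ∧ (∀ β' < β, ¬ Cap n u z β') ∧
    (¬ isN u → M n (cp u β) (lab n (cp u β) z) ≤ cls u.top)
  have huniq : ∀ n u z β β', Good n u z β → Good n u z β' → β = β' := by
    intro n u z β β' h h'
    rcases lt_trichotomy β β' with k | k | k
    · exact absurd h.1 (h'.2.1 β k)
    · exact k
    · exact absurd h'.1 (h.2.1 β' k)
  have hfirst : ∀ n u z, (∃ β, Cap n u z β) → ∃ β, Cap n u z β ∧ ∀ β' < β, ¬ Cap n u z β' := by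
    intro n u z h
    exact ⟨_, wellFounded_lt.min_mem {β | Cap n u z β} h,
      fun β' h1 h2 => wellFounded_lt.not_lt_min {β | Cap n u z β} h2 h1⟩
  have hcaple : ∀ n u z β, Cap n u z β → β ≤ u.top := fun n u z β h =>
    h.elim (fun h => h.1.le) fun h => h.1.le
  let pk : ℕ → XX → Z → XX := fun n u z => if h : ∃ β, Good n u z β then cp u h.choose else u
  have hpk1 : ∀ n u z β, Good n u z β → pk n u z = cp u β := by
    intro n u z β h
    have h' : ∃ β, Good n u z β := ⟨β, h⟩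
    simp only [pk, dif_pos h']
    rw [huniq _ _ _ _ _ h'.choose_spec h]
  have hpk2 : ∀ n u z, (¬ ∃ β, Good n u z β) → pk n u z = u := fun n u z h => dif_neg h
  have hlow : ∀ n u u' z z' β, β < u.top → u.top ≤ u'.top → agree u.top u'.p u.p →
      (β ∈ supp u.p → lab n (cp u β) z' = lab n (cp u β) z) → (Cap n u' z' β ↔ Cap n u z β) := by
    intro n u u' z z' β h1 h2 h3 h4
    have h5 : cp u' β = cp u β := cp_congr h1.le (h1.le.trans h2) (h3.mono h1.le)
    simp only [Cap, h1.ne, (h1.trans_le h2).ne, false_and, false_or, h1, h1.trans_le h2, true_and,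
      h5, h3 β h1]
    by_cases h : β ∈ supp u.p
    · rw [h4 h]
    · rw [not_not.1 h]
      simp
  refine ⟨ℕ × XX × (V ⊕ Z), fun w => (w.2.1.1, pk w.2.1.1 w.1 w.2.1.2,
    lab w.2.1.1 (pk w.2.1.1 w.1 w.2.1.2) w.2.1.2), ?_, ?_⟩
  · rintro ⟨u, ⟨n, z⟩, hz⟩
    suffices h : ∃ ε m, ∀ᶠ z' in 𝓝 z, z' ∈ sheet n → ∀ u' ∈ VV u ε m,
        pk n u' z' = pk n u z ∧ lab n (pk n u z) z' = lab n (pk n u z) z by
      obtain ⟨ε, m, h⟩ := h
      refine mem_of_superset (prod_mem_nhds (VV_nhds u ε m) (mem_nhds_YY.2 ⟨_, h,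
        fun w' h1 h2 => (show w'.1.1 = n ∧ w'.1.2 ∈ _ from ⟨h1, h2⟩)⟩)) ?_
      rintro ⟨u', ⟨n', z'⟩, hz'⟩ ⟨h1, rfl, h2⟩
      obtain ⟨h3, h4⟩ := h2 hz' u' h1
      simp only [mem_ofPred_eq, h3, h4]
    by_cases hu : isN u
    · obtain ⟨β, hβ1, hβ2⟩ := hfirst n u z ⟨u.top, Or.inl ⟨rfl, hu⟩⟩
      have hg : Good n u z β := ⟨hβ1, hβ2, fun h => absurd hu h⟩
      have hβ := hcaple _ _ _ _ hβ1
      refine ⟨E n u (lab n u z), M n (cp u β) (lab n (cp u β) z), ?_⟩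
      filter_upwards [(eventually_countable_ball hu).2 fun β' _ => hloc n (cp u β') z,
        hloc n u z, hloc n (cp u β) z] with z' k1 k2 k3 _ u' hu'
      rw [hpk1 _ _ _ _ hg]
      refine ⟨?_, k3⟩
      obtain ⟨k4, k5⟩ := VV_agree hu'
      have k6 : cp u' β = cp u β := cp_congr hβ (hβ.trans k4) (k5.mono hβ)
      rw [← k6]
      refine hpk1 _ _ _ _ ⟨?_, fun β' h => ?_, fun h => ?_⟩
      · rcases hβ.eq_or_lt with rfl | h
        · rcases hu' with rfl | hu'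
          · exact Or.inl ⟨rfl, hu⟩
          · refine Or.inr ⟨hu'.2.1, ?_⟩
            rw [k6, cp_self, k2]
            exact hu'.2.2.2.1
        · exact (hlow n u u' z z' β h k4 k5 (k1 β)).2 hβ1
      · rw [hlow n u u' z z' β' (h.trans_le hβ) k4 k5 (k1 β')]
        exact hβ2 β' h
      · rw [k6, k3]
        rcases hu' with rfl | hu'
        · exact absurd hu h
        · exact hu'.2.2.2.2 h
    refine ⟨⊥, 0, ?_⟩
    simp only [VV_of_not_isN hu, mem_singleton_iff, forall_eq]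
    by_cases hcap : ∃ β, Cap n u z β
    · obtain ⟨β, hβ1, hβ2⟩ := hfirst n u z hcap
      have hβ : β < u.top := (hβ1.resolve_left fun h => hu h.2).1
      filter_upwards [(eventually_countable_ball (u.h2 β hβ)).2 fun β' _ => hloc n (cp u β') z,
        hloc n (pk n u z) z, hloc n (cp u β) z] with z' k1 k2 k3 _
      refine ⟨?_, k2⟩
      have k4 : Cap n u z' β := (hlow n u u z z' β hβ le_rfl (agree.refl _ _) fun _ => k3).2 hβ1
      have k5 : ∀ β' < β, ¬ Cap n u z' β' := fun β' h => by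
        rw [hlow n u u z z' β' (h.trans hβ) le_rfl (agree.refl _ _) fun h' => k1 β' ⟨h', h⟩]
        exact hβ2 β' h
      by_cases hM : M n (cp u β) (lab n (cp u β) z) ≤ cls u.top
      · rw [hpk1 n u z β ⟨hβ1, hβ2, fun _ => hM⟩, hpk1 n u z' β ⟨k4, k5, fun _ => k3 ▸ hM⟩]
      · have key : ∀ z'', Cap n u z'' β → (∀ β' < β, ¬ Cap n u z'' β') →
            lab n (cp u β) z'' = lab n (cp u β) z → pk n u z'' = u := by
          intro z'' j1 j2 j3
          refine hpk2 _ _ _ ?_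
          rintro ⟨β', j4⟩
          have : β' = β := by
            rcases lt_trichotomy β' β with k | k | k
            · exact absurd j4.1 (j2 β' k)
            · exact k
            · exact absurd j1 (j4.2.1 β k)
          subst this
          exact hM (j3 ▸ j4.2.2 hu)
        rw [key z hβ1 hβ2 rfl, key z' k4 k5 k3]
    have hpz : pk n u z = u := hpk2 _ _ _ fun ⟨β, h⟩ => hcap ⟨β, h.1⟩
    rw [hpz]
    by_cases hcl : cls u.top = n
    · refine (hloc n u z).mono fun z' h _ => ⟨hpk2 _ _ _ ?_, h⟩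
      rintro ⟨β, hβ⟩
      exact (hcl ▸ hβ.2.2 hu).not_gt (hbox n _ _).1
    cases z with
    | iso d k =>
      rw [nhds_iso]
      exact fun _ => ⟨hpz, rfl⟩
    | pt a =>
      filter_upwards [hkey n u a hu hcl, hloc n u (pt a)] with z' k1 k2 k3
      refine ⟨hpk2 _ _ _ ?_, k2⟩
      rintro ⟨β, hβ, -⟩
      have k4 := hβ.resolve_left fun h => hu h.2
      exact hcap ⟨β, Or.inr ⟨k4.1, (k1 k3 β ((bot_le).trans_lt k4.2).ne').trans_lt k4.2⟩⟩
  · rintro ⟨u, ⟨n, z⟩, hz⟩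
    obtain ⟨i, hi⟩ := (hbox n (pk n u z) (lab n (pk n u z) z)).2
    refine ⟨i, ?_⟩
    rintro ⟨u', ⟨n', z'⟩, hz'⟩ h
    simp only [Prod.mk.injEq] at h
    obtain ⟨rfl, h1, h2⟩ := h
    refine hi u' ?_ _ rfl (by rw [← h2, h1]; rfl)
    rw [← h2, ← h1]
    by_cases hg : ∃ β, Good n' u' z' β
    · obtain ⟨β, hg⟩ := hg
      rw [hpk1 _ _ _ _ hg]
      rcases hg.1 with ⟨rfl, -⟩ | ⟨k1, k2⟩
      · rw [cp_self]; exact self_mem_VV _ _ _
      · refine Or.inr ⟨cp_isN k1, ?_, ?_, ?_, hg.2.2⟩ <;> rw [cp_top k1.le]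
        · exact k1
        · exact (cp_agree k1.le).symm
        · exact k2
    · rw [hpk2 _ _ _ hg]
      exact self_mem_VV _ _ _

theorem para_XX : ParacompactSpace XX :=
  haveI := para
  (IsClosedEmbedding.of_continuous_injective_isClosedMap
    (f := fun x : XX => ((x, ⟨(0, pt ⊥), pt_sheet _ _⟩) : XX × YY)) (by fun_prop)
    (fun _ _ h => congrArg Prod.fst h) (isClosedMap_prodMk_right _)).paracompactSpace

theorem not_para : ¬ ParacompactSpace (XX × Z) := fun _ => not_normal inferInstance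

end Pool.Agent.H84.Clos
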