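import Mathlib

set_option autoImplicit false

namespace Pool.Agent.H84.CoSobDefs

/-- compact saturated sets (saturated: containing every point that lies in all open supersets) -/
def CompactSat {X : Type} [TopologicalSpace X] (K : Set X) : Prop :=
  IsCompact K ∧ ∀ y : X, (∀ U : Set X, IsOpen U → K ⊆ U → y ∈ U) → y ∈ K

/-- co-sober spaces: every k-irreducible compact saturated set is the upper set of a point in the
specialization order `x ≤ y ↔ x ∈ closure {y}`. -/
def CoSober (X : Type) [TopologicalSpace X] : Prop :=
  T0Space X ∧ ∀ G : Set X, G.Nonempty → CompactSat G →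
    (∀ K₁ K₂ : Set X, CompactSat K₁ → CompactSat K₂ → K₁ ∪ K₂ = G → K₁ = G ∨ K₂ = G) →
    ∃ x : X, G = {y | x ∈ closure {y}}

end Pool.Agent.H84.CoSobDefs
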