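import Mathlib
import Pool.Agent.H84.CoSobDefs

set_option autoImplicit false

namespace Pool.Agent.H84.CoSob

open Set Topology Filter Pool.Agent.H84.CoSobDefs

/-- finite sequences -/
def Y : Type := List ℕ

/-- an enumeration of finite sequences -/
def φ (n : ℕ) : Y := Denumerable.ofNat (List ℕ) n

theorem φ_surj (s : Y) : ∃ n, φ n = s := ⟨Encodable.encode (α := List ℕ) s, Denumerable.ofNat_encode (α := List ℕ) s⟩

/-- chains with label `n` -/
def Ch (n : ℕ) (u : ℕ → List ℕ) : Prop := ∀ k, u k ++ [n] <+: u (k + 1)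

theorem Ch.lt {n : ℕ} {u : ℕ → List ℕ} (h : Ch n u) {k l : ℕ} (hkl : k < l) :
    u k ++ [n] <+: u l := by
  induction hkl with
  | refl => exact h k
  | step _ ih => exact ih.trans ((List.prefix_append _ _).trans (h _))

theorem Ch.len_lt {n : ℕ} {u : ℕ → List ℕ} (h : Ch n u) {k l : ℕ} (hkl : k < l) :
    (u k).length < (u l).length := by
  have := (h.lt hkl).length_le
  simp only [List.length_append, List.length_singleton] at this
  omega

theorem Ch.le_len {n : ℕ} {u : ℕ → List ℕ} (h : Ch n u) (k : ℕ) : k ≤ (u k).length := by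
  induction k with
  | zero => exact Nat.zero_le _
  | succ k ih => exact Nat.succ_le_of_lt (ih.trans_lt (h.len_lt (Nat.lt_succ_self k)))

instance : TopologicalSpace Y where
  IsOpen U := ∀ n u, Ch n u → φ n ∈ U → ∀ᶠ k in atTop, u k ∈ U
  isOpen_univ := fun _ _ _ _ => Eventually.of_forall fun _ => trivial
  isOpen_inter := fun _ _ hs ht n u hu h => (hs n u hu h.1).and (ht n u hu h.2)
  isOpen_sUnion := fun _ hS n u hu ⟨t, ht, h⟩ =>
    (hS t ht n u hu h).mono fun _ hk => ⟨t, ht, hk⟩

theorem isOpen_of_long {U : Set Y} (N : ℕ) (h : ∀ s : List ℕ, N ≤ s.length → s ∈ U) : IsOpen U :=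
  fun _ _ hu _ => (eventually_ge_atTop N).mono fun k hk => h _ (hk.trans (hu.le_len k))

instance : T1Space Y := ⟨fun a => by
  rw [← isOpen_compl_iff]
  refine isOpen_of_long (List.length a + 1) fun s hs h => ?_
  rw [show s = a from h] at hs
  omega⟩

theorem Ch.tendsto {n : ℕ} {u : ℕ → List ℕ} (h : Ch n u) :
    Tendsto (β := Y) u atTop (𝓝 (φ n)) := tendsto_nhds.2 fun U hU hn => hU n u h hn

theorem Ch.isClosed {n : ℕ} {u : ℕ → List ℕ} (h : Ch n u) :
    IsClosed (X := Y) (insert (φ n) (range u)) := by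
  rw [← isOpen_compl_iff]
  intro m v hv hm
  have hmn : m ≠ n := by rintro rfl; exact hm (Or.inl rfl)
  have h1 : ∀ᶠ k in atTop, v k ∉ range u := by
    by_cases h2 : ∃ k, v k ∈ range u
    · obtain ⟨k, j, hj⟩ := h2
      filter_upwards [eventually_gt_atTop k] with l hl
      rintro ⟨i, hi⟩
      have h3 := hv.len_lt hl
      have h4 : j < i := by
        by_contra h5
        rcases (not_lt.1 h5).lt_or_eq with h6 | h6
        · have := h.len_lt h6
          rw [hi, hj] at this; omega
        · rw [← hi, ← hj, h6] at h3; exact lt_irrefl _ h3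
      have h5 := h.lt h4
      have h6 := hv.lt hl
      rw [hj, hi] at h5
      have h7 := (List.prefix_of_prefix_length_le h5 h6 (by simp)).eq_of_length (by simp)
      exact hmn (by simpa using h7.symm)
    · exact Eventually.of_forall fun k hk => h2 ⟨k, hk⟩
  filter_upwards [h1, eventually_gt_atTop (List.length (φ n))] with k h2 h3
  rintro (h4 | h4)
  · have := hv.le_len k
    rw [h4] at this
    omega
  · exact h2 h4

theorem cone {U : Set Y} (hU : IsOpen U) (hne : U.Nonempty) (s : List ℕ) :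
    ∃ t : List ℕ, s <+: t ∧ ∀ r : List ℕ, t <+: r → r ∈ U := by
  by_contra hc
  push Not at hc
  obtain ⟨a, ha⟩ := hne
  obtain ⟨n, rfl⟩ := φ_surj a
  choose! f hf1 hf2 using hc
  let u : ℕ → List ℕ := fun k => Nat.rec (f s) (fun _ t => f (t ++ [n])) k
  have h1 : ∀ k, s <+: u k ∧ u k ∉ U := by
    intro k
    induction k with
    | zero => exact ⟨hf1 s List.prefix_rfl, hf2 s List.prefix_rfl⟩
    | succ k ih =>
      have h2 : s <+: u k ++ [n] := ih.1.trans (List.prefix_append _ _)
      exact ⟨h2.trans (hf1 _ h2), hf2 _ h2⟩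
  have h2 : Ch n u := fun k => hf1 _ ((h1 k).1.trans (List.prefix_append _ _))
  obtain ⟨k, hk⟩ := (hU n u h2 ha).exists
  exact (h1 k).2 hk

theorem preirr : IsPreirreducible (univ : Set Y) := by
  intro u v hu hv h1 h2
  rw [univ_inter] at h1 h2 ⊢
  obtain ⟨s, -, hs⟩ := cone hu h1 []
  obtain ⟨t, h3, ht⟩ := cone hv h2 s
  exact ⟨t, hs t h3, ht t List.prefix_rfl⟩

theorem not_compact : ¬ IsCompact (univ : Set Y) := by
  intro h
  obtain ⟨m, hm⟩ := h.elim_directed_cover (fun m : ℕ => {s : Y | ∀ k ≥ m, s ≠ ([k] : List ℕ)})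
    (fun m => isOpen_of_long 2 fun s hs k _ h => by rw [h] at hs; simp at hs)
    (fun s _ => by
      refine mem_iUnion.2 ⟨List.sum (α := ℕ) s + 1, fun k hk h => ?_⟩
      rw [h] at hk
      simp at hk)
    (Monotone.directed_le fun m n hmn s hs k hk => hs k (hmn.trans hk))
  exact hm (mem_univ ([m] : List ℕ)) m le_rfl rfl

/-- the compact T1 space -/
abbrev Z : Type := OnePoint Y

theorem closed_of_compact {K : Set Z} (hK : IsCompact K) :
    IsClosed (((↑) : Y → Z) ⁻¹' K) := by
  rw [← isOpen_compl_iff]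
  intro n u hu hn
  have h1 : ∀ m, Ch n fun k => u (k + m) := fun m k => by
    have := hu (k + m)
    rwa [show k + m + 1 = k + 1 + m by ring] at this
  obtain ⟨m, hm⟩ := hK.elim_directed_family_closed
    (fun m : ℕ => ((↑) : Y → Z) '' insert (φ n) (range fun k => u (k + m)))
    (fun m => OnePoint.isClosed_image_coe.2
      ⟨(h1 m).isClosed, (h1 m).tendsto.isCompact_insert_range⟩)
    (by
      refine eq_empty_of_forall_notMem fun z hz => ?_
      obtain ⟨y, -, rfl⟩ := mem_iInter.1 hz.2 0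
      obtain ⟨y', h2, h3⟩ := mem_iInter.1 hz.2 (List.length y + 1)
      rw [OnePoint.coe_injective h3] at h2
      rcases h2 with h2 | ⟨k, h2⟩
      · exact hn (h2 ▸ hz.1)
      · have := hu.le_len (k + (List.length y + 1))
        rw [show u (k + (List.length y + 1)) = y from h2] at this
        omega)
    (Antitone.directed_ge fun m m' hmm' => image_mono (insert_subset_insert (by
      rintro _ ⟨k, rfl⟩
      exact ⟨k + (m' - m), by simp only []; congr 1; omega⟩)))
  filter_upwards [eventually_ge_atTop m] with k hk h2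
  refine (eq_empty_iff_forall_notMem.1 hm) _ ⟨h2, u k, Or.inr ⟨k - m, ?_⟩, rfl⟩
  simp only []; congr 1; omega

theorem kirr {K₁ K₂ : Set Z} (h1 : IsCompact K₁) (h2 : IsCompact K₂) (h : K₁ ∪ K₂ = univ) :
    K₁ = univ ∨ K₂ = univ := by
  have key : ∀ K : Set Z, IsCompact K → univ ⊆ ((↑) : Y → Z) ⁻¹' K → K = univ := by
    intro K hK hY
    by_cases hi : OnePoint.infty ∈ K
    · refine eq_univ_of_forall fun z => ?_
      induction z using OnePoint.rec with
      | infty => exact hi
      | coe y => exact hY (mem_univ y)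
    · refine absurd ?_ not_compact
      rw [← eq_univ_of_univ_subset hY]
      refine OnePoint.isOpenEmbedding_coe.isInducing.isCompact_preimage' hK fun z hz => ?_
      induction z using OnePoint.rec with
      | infty => exact absurd hz hi
      | coe y => exact ⟨y, rfl⟩
  refine (isPreirreducible_iff_isClosed_union_isClosed.1 preirr _ _ (closed_of_compact h1)
    (closed_of_compact h2) ?_).imp (key _ h1) (key _ h2)
  rw [← preimage_union, h]; exact Subset.rfl

theorem sat_t1 {W : Type} [TopologicalSpace W] [T1Space W] (M : Set W) (x : W)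
    (h : ∀ U : Set W, IsOpen U → M ⊆ U → x ∈ U) : x ∈ M := by
  by_contra hc
  exact h {x}ᶜ isOpen_compl_singleton (subset_compl_singleton_iff.2 hc) rfl

theorem not_coSober {W : Type} [TopologicalSpace W] [T1Space W] {δ : Z → W} (h : IsInducing δ) :
    ¬ CoSober W := by
  intro hW
  obtain ⟨x, hx⟩ := hW.2 (range δ) (range_nonempty _) ⟨isCompact_range h.continuous, sat_t1 _⟩
    fun K₁ K₂ h1 h2 h3 => by
      have key : ∀ K, K ⊆ range δ → δ ⁻¹' K = univ → K = range δ := fun K h4 h5 =>
        Subset.antisymm h4 (range_subset_iff.2 fun z => (eq_univ_iff_forall.1 h5) z)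
      have h4 : K₁ ⊆ range δ := h3 ▸ subset_union_left
      have h5 : K₂ ⊆ range δ := h3 ▸ subset_union_right
      refine (kirr (h.isCompact_preimage' h1.1 h4) (h.isCompact_preimage' h2.1 h5) ?_).imp
        (key _ h4) (key _ h5)
      rw [← preimage_union, h3, preimage_range]
  have h1 : ∀ z, δ z = x := fun z => by
    have : δ z ∈ {y | x ∈ closure {y}} := hx ▸ mem_range_self z
    simp only [closure_singleton, mem_singleton_iff, mem_ofPred_eq] at this
    exact this.symm
  exact OnePoint.coe_ne_infty (φ 0) (h.injective ((h1 _).trans (h1 _).symm))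

/-- the factors of the product -/
def ZU (_ : {U : Set Z // IsOpen U}) : Type := Z

instance (U : {U : Set Z // IsOpen U}) : TopologicalSpace (ZU U) :=
  TopologicalSpace.generateFrom (α := Z) (insert U.1 (range fun a : Z => {a}ᶜ))

instance (U : {U : Set Z // IsOpen U}) : T1Space (ZU U) := ⟨fun a => by
  rw [← isOpen_compl_iff]
  exact TopologicalSpace.isOpen_generateFrom_of_mem (Or.inr ⟨a, rfl⟩)⟩

theorem all_compact (U : {U : Set Z // IsOpen U}) (s : Set (ZU U)) : IsCompact s := by
  refine isCompact_generateFrom rfl fun P hP hs => ?_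
  by_cases h : ∃ a : Z, {a}ᶜ ∈ P
  · obtain ⟨a, ha⟩ := h
    by_cases has : a ∈ s
    · obtain ⟨t, ht, hat⟩ := hs has
      refine ⟨{{a}ᶜ, t}, insert_subset ha (singleton_subset_iff.2 ht), toFinite _, fun z _ => ?_⟩
      by_cases hz : z = a
      · exact ⟨t, Or.inr rfl, hz ▸ hat⟩
      · exact ⟨_, Or.inl rfl, hz⟩
    · refine ⟨{{a}ᶜ}, singleton_subset_iff.2 ha, toFinite _, fun z hz => ⟨_, rfl, ?_⟩⟩
      rintro rfl; exact has hz
  · refine ⟨P, Subset.rfl, (finite_singleton U.1).subset fun t ht => ?_, hs⟩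
    rcases hP ht with h1 | ⟨a, rfl⟩
    · exact h1
    · exact absurd ⟨a, ht⟩ h

theorem coSober_ZU (U : {U : Set Z // IsOpen U}) : CoSober (ZU U) := by
  refine ⟨inferInstance, fun G ⟨x, hx⟩ _ h => ⟨x, ?_⟩⟩
  rcases h {x} (G \ {x}) ⟨all_compact U _, sat_t1 _⟩ ⟨all_compact U _, sat_t1 _⟩
    (union_sdiff_cancel (singleton_subset_iff.2 hx)) with h1 | h1
  · rw [← h1]; ext y
    simp only [closure_singleton, mem_singleton_iff, mem_ofPred_eq, eq_comm]
  · rw [← h1] at hx; exact absurd rfl hx.2

/-- the identity onto a factor -/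
def toZU (U : {U : Set Z // IsOpen U}) (z : Z) : ZU U := z

theorem continuous_toZU (U : {U : Set Z // IsOpen U}) : Continuous (toZU U) :=
  continuous_generateFrom_iff.2 (by
    rintro s (rfl | ⟨a, rfl⟩)
    · exact U.2
    · exact isOpen_compl_singleton (x := a))

theorem not_coSober_pi : ¬ CoSober (∀ U, ZU U) := by
  have hc : Continuous fun (z : Z) (U : {U : Set Z // IsOpen U}) => toZU U z :=
    continuous_pi continuous_toZU
  refine not_coSober (δ := fun (z : Z) (U : {U : Set Z // IsOpen U}) => toZU U z)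
    ⟨le_antisymm hc.le_induced fun V hV => isOpen_induced_iff.2 ?_⟩
  exact ⟨(fun f => f ⟨V, hV⟩) ⁻¹' (toZU ⟨V, hV⟩ '' V), (continuous_apply _).isOpen_preimage _
    (TopologicalSpace.isOpen_generateFrom_of_mem (Or.inl (image_id' V))), by
      ext z; exact ⟨fun ⟨w, hw, h⟩ => (show w = z from h) ▸ hw, fun h => ⟨z, h, rfl⟩⟩⟩

/-- the space carrying the kernel operator -/
def X : Type := Z × ℕ

/-- first projection -/
def fstX (p : X) : Z := p.1

/-- bottom layer -/
def zeroX (z : Z) : X := (z, 0)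

/-- complements of point closures -/
def C (z : Z) (i : ℕ) : Set X := {p | p.1 ≠ z ∨ i < p.2}

instance : TopologicalSpace X :=
  TopologicalSpace.generateFrom
    ({S | ∃ U : Set Z, IsOpen U ∧ S = fstX ⁻¹' U} ∪ {S | ∃ z i, S = C z i})

theorem isOpen_C (z : Z) (i : ℕ) : IsOpen (C z i) :=
  TopologicalSpace.isOpen_generateFrom_of_mem (Or.inr ⟨z, i, rfl⟩)

theorem continuous_fstX : Continuous fstX :=
  ⟨fun U hU => TopologicalSpace.isOpen_generateFrom_of_mem (Or.inl ⟨U, hU, rfl⟩)⟩

theorem specX {p q : X} : p ∈ closure {q} ↔ p.1 = q.1 ∧ p.2 ≤ q.2 := by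
  rw [← specializes_iff_mem_closure]
  constructor
  · intro h
    by_contra hc
    refine (h.mem_open (isOpen_C q.1 q.2) ?_).elim (fun h => h rfl) (lt_irrefl _)
    by_cases h1 : p.1 = q.1
    · exact Or.inr (not_le.1 fun h2 => hc ⟨h1, h2⟩)
    · exact Or.inl h1
  · intro h
    rw [Specializes, TopologicalSpace.nhds_generateFrom (a := p)]
    simp only [le_iInf_iff, le_principal_iff]
    rintro s ⟨hp, hs⟩
    refine (TopologicalSpace.isOpen_generateFrom_of_mem hs).mem_nhds ?_
    rcases hs with ⟨U, _, rfl⟩ | ⟨z, i, rfl⟩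
    · show q.1 ∈ U
      rw [← h.1]; exact hp
    · exact hp.imp (fun h1 => h.1 ▸ h1) fun h1 => h1.trans_le h.2

instance : T0Space X := ⟨fun p q h => by
  have h1 := specX.1 (specializes_iff_mem_closure.1 h.specializes)
  have h2 := specX.1 (specializes_iff_mem_closure.1 h.specializes')
  exact Prod.ext h2.1 (le_antisymm h2.2 h1.2)⟩

theorem compactX {s : Set X} (h : IsCompact (fstX '' s)) : IsCompact s := by
  refine isCompact_generateFrom rfl fun P hP hs => ?_
  by_cases h1 : ∃ z i, C z i ∈ P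
  · obtain ⟨z, i, hz⟩ := h1
    have h2 : (s ∩ (fun j => ((z, j) : X)) '' Iic i).Finite :=
      ((finite_Iic i).image _).inter_of_right _
    have h3 : ∀ p : X, ∃ t, p ∈ s → t ∈ P ∧ p ∈ t := fun p => by
      by_cases hp : p ∈ s
      · obtain ⟨t, ht, h4⟩ := hs hp; exact ⟨t, fun _ => ⟨ht, h4⟩⟩
      · exact ⟨∅, fun h => absurd h hp⟩
    choose t ht using h3
    refine ⟨insert (C z i) (t '' (s ∩ (fun j => ((z, j) : X)) '' Iic i)), insert_subset hz ?_,
      (h2.image t).insert _, fun p hp => ?_⟩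
    · rintro _ ⟨p, hp, rfl⟩; exact (ht p hp.1).1
    · by_cases h4 : p ∈ C z i
      · exact ⟨_, Or.inl rfl, h4⟩
      · simp only [C, mem_ofPred_eq, not_or, not_not, not_lt] at h4
        exact ⟨t p, Or.inr ⟨p, ⟨hp, p.2, h4.2, Prod.ext h4.1.symm rfl⟩, rfl⟩, (ht p hp).2⟩
  · have h2 : ∀ t : P, ∃ U : Set Z, IsOpen U ∧ t.1 = fstX ⁻¹' U := fun t => by
      rcases hP t.2 with h3 | ⟨z, i, h3⟩
      · exact h3
      · exact absurd ⟨z, i, h3 ▸ t.2⟩ h1
    choose U hU hUt using h2
    obtain ⟨F, hF⟩ := h.elim_finite_subcover U hU (by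
      rintro _ ⟨p, hp, rfl⟩
      obtain ⟨t, ht, h4⟩ := hs hp
      exact mem_iUnion.2 ⟨⟨t, ht⟩, (hUt ⟨t, ht⟩).subset h4⟩)
    refine ⟨Subtype.val '' (F : Set P), by rintro _ ⟨t, _, rfl⟩; exact t.2,
      F.finite_toSet.image _, fun p hp => ?_⟩
    obtain ⟨t, ht, h4⟩ := mem_iUnion₂.1 (hF ⟨p, hp, rfl⟩)
    exact ⟨t.1, ⟨t, ht, rfl⟩, (hUt t).symm.subset h4⟩

theorem coSober_X : CoSober X := by
  classical
  refine ⟨inferInstance, fun G ⟨p, hp⟩ hG h => ?_⟩
  have hup : ∀ q ∈ G, ∀ r : X, q ∈ closure {r} → r ∈ G := fun q hq r hr =>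
    hG.2 r fun U hU hGU => (specializes_iff_mem_closure.2 hr).mem_open hU (hGU hq)
  have h1 : ∃ i, ((p.1, i) : X) ∈ G := ⟨p.2, hp⟩
  let x : X := (p.1, Nat.find h1)
  have hx : x ∈ G := Nat.find_spec h1
  refine ⟨x, ?_⟩
  have h2 : CompactSat {y : X | x ∈ closure {y}} := by
    refine ⟨compactX ((finite_singleton x.1).subset (by
      rintro _ ⟨y, hy, rfl⟩; exact (specX.1 hy).1.symm)).isCompact, fun y hy => ?_⟩
    by_contra hc
    exact hy (closure {y})ᶜ isClosed_closure.isOpen_compl
      (fun z hz h3 => hc (closure_minimal (singleton_subset_iff.2 h3) isClosed_closure hz))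
      (subset_closure rfl)
  have h3 : CompactSat (G \ {x}) := by
    refine ⟨compactX ?_, fun y hy => ⟨hG.2 y fun U hU h4 => hy U hU (sdiff_subset.trans h4), ?_⟩⟩
    · convert hG.1.image continuous_fstX using 1
      refine Subset.antisymm (image_mono sdiff_subset) ?_
      rintro _ ⟨q, hq, rfl⟩
      refine ⟨(q.1, q.2 + Nat.find h1 + 1), ⟨hup q hq _ (specX.2 ⟨rfl, by simp only []; omega⟩), ?_⟩, rfl⟩
      intro h4
      have := congrArg Prod.snd (mem_singleton_iff.1 h4)
      simp only [x] at this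
      omega
    · rintro rfl
      refine (hy (C x.1 x.2) (isOpen_C _ _) fun q hq => ?_).elim (fun h => h rfl) (lt_irrefl _)
      by_cases h4 : q.1 = x.1
      · refine Or.inr (lt_of_le_of_ne (Nat.find_min' h1 ?_) fun h5 => hq.2 (Prod.ext h4 h5.symm))
        have : ((p.1, q.2) : X) = q := Prod.ext h4.symm rfl
        rw [this]; exact hq.1
      · exact Or.inl h4
  rcases h _ _ h2 h3 (Subset.antisymm (union_subset (fun y hy => hup x hx y hy) sdiff_subset)
    fun y hy => by
      by_cases h4 : y = x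
      · left; rw [h4]; exact subset_closure rfl
      · exact Or.inr ⟨hy, h4⟩) with h4 | h4
  · exact h4.symm
  · rw [← h4] at hx; exact absurd rfl hx.2

/-- the kernel operator -/
def k (p : X) : X := zeroX (fstX p)

theorem continuous_zero : Continuous zeroX :=
  continuous_generateFrom_iff.2 (by
    rintro s (⟨U, hU, rfl⟩ | ⟨z, i, rfl⟩)
    · exact hU
    · convert isOpen_compl_singleton (x := z) using 1
      ext w; simp [C, zeroX])

theorem continuous_k : Continuous k := continuous_zero.comp continuous_fstX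

theorem not_coSober_range : ¬ CoSober (range k) := by
  have : T1Space (range k) := by
    refine t1Space_iff_specializes_imp_eq.2 ?_
    rintro ⟨_, p, rfl⟩ ⟨_, q, rfl⟩ h
    have := specX.1 (specializes_iff_mem_closure.1 (h.map continuous_subtype_val))
    exact Subtype.ext (Prod.ext this.1.symm rfl)
  refine not_coSober (δ := fun z : Z => (⟨zeroX z, zeroX z, rfl⟩ : range k)) ?_
  exact IsInducing.of_comp (continuous_zero.subtype_mk _)
    (continuous_fstX.comp continuous_subtype_val) IsInducing.id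

end Pool.Agent.H84.CoSob
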