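import Mathlib

set_option autoImplicit false

namespace Pool.Agent.H84.Cons

open Set Topology Filter TopologicalSpace

variable {Y : Type*} [TopologicalSpace Y]

/-- Scott-open families of open sets -/
def ScottOpen (F : Set (Set Y)) : Prop :=
  (∀ U ∈ F, IsOpen U) ∧ (∀ U ∈ F, ∀ V : Set Y, IsOpen V → U ⊆ V → V ∈ F) ∧
    ∀ D : Set (Set Y), D.Nonempty → DirectedOn (· ⊆ ·) D → (∀ U ∈ D, IsOpen U) → ⋃₀ D ∈ F →
      ∃ U ∈ D, U ∈ F

/-- consonance -/
def Consonant (Y : Type*) [TopologicalSpace Y] : Prop :=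
  ∀ F : Set (Set Y), ScottOpen F → ∀ U ∈ F, ∃ K : Set Y, IsCompact K ∧ K ⊆ U ∧
    ∀ V : Set Y, IsOpen V → K ⊆ V → V ∈ F

/-- consonance with finite sets -/
def FinCons (Y : Type*) [TopologicalSpace Y] : Prop :=
  ∀ F : Set (Set Y), ScottOpen F → ∀ U ∈ F, ∃ K : Set Y, K.Finite ∧ K ⊆ U ∧
    ∀ V : Set Y, IsOpen V → K ⊆ V → V ∈ F

theorem FinCons.consonant (h : FinCons Y) : Consonant Y := fun F hF U hU => by
  obtain ⟨K, h1, h2, h3⟩ := h F hF U hU
  exact ⟨K, h1.isCompact, h2, h3⟩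

theorem ScottOpen.iUnion {F : Set (Set Y)} (hF : ScottOpen F) {ι : Type*} [Nonempty ι]
    {W : ι → Set Y} (hd : Directed (· ⊆ ·) W) (ho : ∀ i, IsOpen (W i)) (hU : (⋃ i, W i) ∈ F) :
    ∃ i, W i ∈ F := by
  obtain ⟨_, ⟨i, rfl⟩, h⟩ := hF.2.2 (range W) (range_nonempty W) hd.directedOn_range
    (by rintro _ ⟨i, rfl⟩; exact ho i) (by rwa [sUnion_range])
  exact ⟨i, h⟩

theorem scott_open_iff {P : Type*} [Preorder P] (s : Set P) :
    IsOpen[Topology.scott P univ] s ↔ IsUpperSet s ∧ DirSupInacc s := by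
  letI := Topology.scott P univ
  haveI : IsScott P univ := ⟨rfl⟩
  rw [IsScott.isOpen_iff_isUpperSet_and_dirSupInaccOn (D := univ), dirSupInaccOn_univ]

theorem finCons_iff :
    Topology.upper (Opens Y) = Topology.scott (Opens Y) univ ↔ FinCons Y := by
  constructor
  · intro h F hF U hU
    have h1 : IsOpen[Topology.scott (Opens Y) univ] {V : Opens Y | (V : Set Y) ∈ F} := by
      rw [scott_open_iff]
      refine ⟨fun a b hab ha => hF.2.1 _ ha _ b.isOpen hab, ?_⟩
      intro d hne hd a ha haF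
      have h2 : (a : Set Y) = ⋃₀ ((fun V : Opens Y => (V : Set Y)) '' d) := by
        rw [← ha.sSup_eq, Opens.coe_sSup, sUnion_image]
      obtain ⟨_, ⟨V, hV, rfl⟩, h3⟩ := hF.2.2 ((fun V : Opens Y => (V : Set Y)) '' d)
        (hne.image _) (by
          rintro _ ⟨V, hV, rfl⟩ _ ⟨W, hW, rfl⟩
          obtain ⟨Z, hZ, h4, h5⟩ := hd V hV W hW
          exact ⟨Z, ⟨Z, hZ, rfl⟩, h4, h5⟩)
        (by rintro _ ⟨V, _, rfl⟩; exact V.isOpen) (by rw [← h2]; exact haF)
      exact ⟨V, hV, h3⟩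
    rw [← h] at h1
    have key : ∀ G : Set (Opens Y), GenerateOpen {s | ∃ a, (Iic a)ᶜ = s} G → ∀ W ∈ G,
        ∃ K : Set Y, K.Finite ∧ K ⊆ W ∧ ∀ V : Opens Y, K ⊆ V → V ∈ G := by
      intro G hG
      induction hG with
      | basic s hs =>
        obtain ⟨a, rfl⟩ := hs
        intro W hW
        obtain ⟨x, hx, hxa⟩ := not_subset.1 (show ¬ (W : Set Y) ⊆ a from hW)
        exact ⟨{x}, finite_singleton x, singleton_subset_iff.2 hx, fun V hV hc =>
          hxa (hc (hV rfl))⟩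
      | univ => intro W _; exact ⟨∅, finite_empty, empty_subset _, fun _ _ => trivial⟩
      | inter s t _ _ ihs iht =>
        intro W hW
        obtain ⟨K, h1, h2, h3⟩ := ihs W hW.1
        obtain ⟨L, h4, h5, h6⟩ := iht W hW.2
        exact ⟨K ∪ L, h1.union h4, union_subset h2 h5, fun V hV =>
          ⟨h3 V (subset_union_left.trans hV), h6 V (subset_union_right.trans hV)⟩⟩
      | sUnion S _ ih =>
        rintro W ⟨s, hs, hW⟩
        obtain ⟨K, h1, h2, h3⟩ := ih s hs W hW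
        exact ⟨K, h1, h2, fun V hV => ⟨s, hs, h3 V hV⟩⟩
    obtain ⟨K, h2, h3, h4⟩ := key _ h1 ⟨U, hF.1 U hU⟩ hU
    exact ⟨K, h2, h3, fun V hV hKV => h4 ⟨V, hV⟩ hKV⟩
  · intro h
    apply le_antisymm
    · intro G hG
      rw [scott_open_iff] at hG
      letI := Topology.upper (Opens Y)
      refine isOpen_iff_forall_mem_open.2 fun U hU => ?_
      have hF : ScottOpen ((fun V : Opens Y => (V : Set Y)) '' G) := by
        refine ⟨by rintro _ ⟨V, _, rfl⟩; exact V.isOpen, ?_, ?_⟩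
        · rintro _ ⟨V, hV, rfl⟩ W hW hVW
          exact ⟨⟨W, hW⟩, hG.1 (show V ≤ ⟨W, hW⟩ from hVW) hV, rfl⟩
        · rintro D hne hd ho ⟨V, hV, hVD⟩
          have h2 : IsLUB {W : Opens Y | (W : Set Y) ∈ D} V := by
            constructor
            · intro W hW
              show (W : Set Y) ⊆ V
              rw [show (V : Set Y) = ⋃₀ D from hVD]; exact subset_sUnion_of_mem hW
            · intro W hW
              show (V : Set Y) ⊆ W
              rw [show (V : Set Y) = ⋃₀ D from hVD]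
              exact sUnion_subset fun t ht => hW (show (⟨t, ho t ht⟩ : Opens Y) ∈ _ from ht)
          obtain ⟨W, hW, hWG⟩ := hG.2 (by
            obtain ⟨t, ht⟩ := hne; exact ⟨⟨t, ho t ht⟩, ht⟩) (by
            intro a ha b hb
            obtain ⟨c, hc, h4, h5⟩ := hd _ ha _ hb
            exact ⟨⟨c, ho c hc⟩, hc, h4, h5⟩) h2 hV
          exact ⟨W, hW, W, hWG, rfl⟩
      obtain ⟨K, h1, h2, h3⟩ := h _ hF U ⟨U, hU, rfl⟩
      refine ⟨⋂ e ∈ K, (Iic (⟨(closure {e})ᶜ, isClosed_closure.isOpen_compl⟩ : Opens Y))ᶜ, ?_,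
        h1.isOpen_biInter fun e _ => isOpen_generateFrom_of_mem ⟨_, rfl⟩, ?_⟩
      · intro V hV
        have h4 : K ⊆ V := by
          intro e he
          have h5 := mem_iInter₂.1 hV e he
          obtain ⟨z, hz, hz'⟩ := not_subset.1 (show ¬ (V : Set Y) ⊆ (closure {e})ᶜ from h5)
          exact (specializes_iff_mem_closure.2 (not_not.1 hz')).mem_open V.isOpen hz
        obtain ⟨W, hW, hWV⟩ := h3 V V.isOpen h4
        rwa [← show W = V from Opens.ext hWV]
      · refine mem_iInter₂.2 fun e he hc => ?_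
        exact (show (U : Set Y) ⊆ (closure {e})ᶜ from hc) (h2 he) (subset_closure rfl)
    · refine le_generateFrom ?_
      rintro _ ⟨a, rfl⟩
      rw [scott_open_iff]
      refine ⟨(isLowerSet_Iic a).compl, ?_⟩
      intro d _ _ b hb hba
      by_contra hc
      exact hba (hb.2 fun c hc' => not_not.1 fun h5 => hc ⟨c, hc', h5⟩)

end Pool.Agent.H84.Cons
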