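import Mathlib
import Pool.Agent.H84.Cons

set_option autoImplicit false

namespace Pool.Agent.H84.ConsEx

open Set Topology Filter TopologicalSpace Pool.Agent.H84.Cons

/-- The points of the example. -/
inductive X : Type
  | x : X
  | d : ℕ → ℕ → X
  | b : (ℕ → ℕ) → X

open X

instance topX : TopologicalSpace X where
  IsOpen U := (∀ n m m', m ≤ m' → d n m ∈ U → d n m' ∈ U) ∧ (x ∈ U → ∀ n, ∃ m, d n m ∈ U) ∧
    ∀ f, b f ∈ U → (∀ n m, d n m ∈ U) ∧ ∃ N, ∀ g : ℕ → ℕ, (∀ i < N, g i ≤ f i) → b g ∈ U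
  isOpen_univ := ⟨fun _ _ _ _ _ => trivial, fun _ _ => ⟨0, trivial⟩,
    fun _ _ => ⟨fun _ _ => trivial, 0, fun _ _ => trivial⟩⟩
  isOpen_inter := by
    rintro s t ⟨s1, s2, s3⟩ ⟨t1, t2, t3⟩
    refine ⟨fun n m m' h hm => ⟨s1 n m m' h hm.1, t1 n m m' h hm.2⟩, fun h n => ?_, fun f hf => ?_⟩
    · obtain ⟨m, hm⟩ := s2 h.1 n
      obtain ⟨m', hm'⟩ := t2 h.2 n
      exact ⟨max m m', s1 n m _ (le_max_left _ _) hm, t1 n m' _ (le_max_right _ _) hm'⟩
    · obtain ⟨h1, N, hN⟩ := s3 f hf.1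
      obtain ⟨h2, M, hM⟩ := t3 f hf.2
      exact ⟨fun n m => ⟨h1 n m, h2 n m⟩, max N M, fun g hg =>
        ⟨hN g fun i hi => hg i (hi.trans_le (le_max_left _ _)),
         hM g fun i hi => hg i (hi.trans_le (le_max_right _ _))⟩⟩
  isOpen_sUnion := by
    intro S hS
    refine ⟨?_, ?_, ?_⟩
    · rintro n m m' h ⟨t, ht, hm⟩; exact ⟨t, ht, (hS t ht).1 n m m' h hm⟩
    · rintro ⟨t, ht, hx⟩ n
      obtain ⟨m, hm⟩ := (hS t ht).2.1 hx n
      exact ⟨m, t, ht, hm⟩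
    · rintro f ⟨t, ht, hf⟩
      obtain ⟨h1, N, hN⟩ := (hS t ht).2.2 f hf
      exact ⟨fun n m => ⟨t, ht, h1 n m⟩, N, fun g hg => ⟨t, ht, hN g hg⟩⟩

theorem isOpenX {U : Set X} : IsOpen U ↔
    (∀ n m m', m ≤ m' → d n m ∈ U → d n m' ∈ U) ∧ (x ∈ U → ∀ n, ∃ m, d n m ∈ U) ∧
    ∀ f, b f ∈ U → (∀ n m, d n m ∈ U) ∧ ∃ N, ∀ g : ℕ → ℕ, (∀ i < N, g i ≤ f i) → b g ∈ U :=
  Iff.rfl

/-- the set described by three pieces of data -/
def mk (p : Prop) (D : ℕ → ℕ → Prop) (B : (ℕ → ℕ) → Prop) : Set X := fun z =>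
  match z with
  | x => p
  | d n m => D n m
  | b f => B f

@[simp] theorem x_mem {p : Prop} {D : ℕ → ℕ → Prop} {B : (ℕ → ℕ) → Prop} :
    x ∈ mk p D B ↔ p := Iff.rfl
@[simp] theorem d_mem {p : Prop} {D : ℕ → ℕ → Prop} {B : (ℕ → ℕ) → Prop} {n m : ℕ} :
    d n m ∈ mk p D B ↔ D n m := Iff.rfl
@[simp] theorem b_mem {p : Prop} {D : ℕ → ℕ → Prop} {B : (ℕ → ℕ) → Prop} {f : ℕ → ℕ} :
    b f ∈ mk p D B ↔ B f := Iff.rfl

/-- open sets of the lower part -/
def BOpen (B : (ℕ → ℕ) → Prop) : Prop :=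
  ∀ f, B f → ∃ N, ∀ g : ℕ → ℕ, (∀ i < N, g i ≤ f i) → B g

theorem isOpen_lift (p : Prop) {B : (ℕ → ℕ) → Prop} (h : BOpen B) :
    IsOpen (mk p (fun _ _ => True) B) :=
  ⟨fun _ _ _ _ _ => trivial, fun _ _ => ⟨0, trivial⟩, fun f hf => ⟨fun _ _ => trivial, h f hf⟩⟩

theorem isOpen_top (p : Prop) {D : ℕ → ℕ → Prop} (h1 : ∀ n m m', m ≤ m' → D n m → D n m')
    (h2 : p → ∀ n, ∃ m, D n m) : IsOpen (mk p D (fun _ => False)) :=
  ⟨h1, h2, fun _ hf => hf.elim⟩

theorem BOpen.and_le {B : (ℕ → ℕ) → Prop} (h : BOpen B) (k c : ℕ) :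
    BOpen fun g => B g ∧ g k ≤ c := by
  rintro f ⟨hf, hk⟩
  obtain ⟨N, hN⟩ := h f hf
  exact ⟨max N (k + 1), fun g hg => ⟨hN g fun i hi => hg i (hi.trans_le (le_max_left _ _)),
    (hg k ((Nat.lt_succ_self k).trans_le (le_max_right _ _))).trans hk⟩⟩

theorem bOpen_le (k c : ℕ) : BOpen fun g => g k ≤ c := fun _ hf =>
  ⟨k + 1, fun _ hg => (hg k (Nat.lt_succ_self k)).trans hf⟩

instance : T0Space X := by
  refine t0Space_iff_inseparable X |>.2 fun p q h => ?_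
  rw [inseparable_iff_forall_isOpen] at h
  have hx := h _ (isOpen_lift False (B := fun _ => True) fun _ _ => ⟨0, fun _ _ => trivial⟩)
  have hb := h _ (isOpen_top True (D := fun _ _ => True) (fun _ _ _ _ _ => trivial)
    fun _ _ => ⟨0, trivial⟩)
  have hd := fun n m => h _ (isOpen_top False (D := fun n' m' => n' = n ∧ m ≤ m')
    (fun _ _ _ h1 h2 => ⟨h2.1, h2.2.trans h1⟩) fun h => h.elim)
  have hf := fun k c => h _ (isOpen_lift False (bOpen_le k c))
  rcases p with _ | ⟨n, m⟩ | f <;> rcases q with _ | ⟨n', m'⟩ | g <;>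
    simp only [x_mem, d_mem, b_mem, iff_true, iff_false, true_iff, false_iff, not_true,
      not_false_iff] at hx hb hd hf ⊢
  · have h1 := (hd n m).1 ⟨rfl, le_rfl⟩
    have h2 := (hd n' m').2 ⟨rfl, le_rfl⟩
    rw [h1.1, le_antisymm h1.2 h2.2]
  · congr 1
    funext k
    exact le_antisymm ((hf k (g k)).2 le_rfl) ((hf k (f k)).1 le_rfl)

theorem caseA {F : Set (Set X)} (hF : ScottOpen F) {U : Set X} (hU : U ∈ F) {f0 : ℕ → ℕ}
    (hf0 : b f0 ∈ U) : ∃ K : Set X, K.Finite ∧ K ⊆ U ∧ ∀ V : Set X, IsOpen V → K ⊆ V → V ∈ F := by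
  classical
  have hUo := hF.1 U hU
  have hD := (hUo.2.2 f0 hf0).1
  have h1 : ∀ f : {f // b f ∈ U}, ∃ N, ∀ g : ℕ → ℕ, (∀ i < N, g i ≤ f.1 i) → b g ∈ U :=
    fun f => (hUo.2.2 f.1 f.2).2
  choose N hN using h1
  let W : Finset {f // b f ∈ U} → (ℕ → ℕ) → Prop := fun s g => ∃ f ∈ s, ∀ i < N f, g i ≤ f.1 i
  have hW : ∀ s, BOpen (W s) := by
    rintro s g ⟨f, hf, hg⟩
    exact ⟨N f, fun g' hg' => ⟨f, hf, fun i hi => (hg' i hi).trans (hg i hi)⟩⟩
  obtain ⟨s, hs⟩ := hF.iUnion (W := fun s => mk (x ∈ U) (fun _ _ => True) (W s))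
    (by
      intro s t
      refine ⟨s ∪ t, ?_, ?_⟩
      · rintro (_ | _ | g) hz
        · exact hz
        · trivial
        · obtain ⟨f, hf, hg⟩ := hz; exact ⟨f, Finset.mem_union_left _ hf, hg⟩
      · rintro (_ | _ | g) hz
        · exact hz
        · trivial
        · obtain ⟨f, hf, hg⟩ := hz; exact ⟨f, Finset.mem_union_right _ hf, hg⟩)
    (fun s => isOpen_lift _ (hW s))
    (by
      convert hU using 1
      ext z
      rw [mem_iUnion]
      rcases z with _ | ⟨n, m⟩ | g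
      · simp
      · simp [hD]
      · constructor
        · rintro ⟨s, f, _, hg⟩; exact hN f g hg
        · intro hg; exact ⟨{⟨g, hg⟩}, ⟨g, hg⟩, Finset.mem_singleton_self _, fun _ _ => le_rfl⟩)
  have step : ∀ (k : ℕ) (B : {B : (ℕ → ℕ) → Prop // BOpen B ∧ mk (x ∈ U) (fun _ _ => True) B ∈ F}),
      ∃ c, mk (x ∈ U) (fun _ _ => True) (fun g => B.1 g ∧ g k ≤ c) ∈ F := by
    intro k B
    refine hF.iUnion (W := fun c => mk (x ∈ U) (fun _ _ => True) (fun g => B.1 g ∧ g k ≤ c))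
      ?_ (fun c => isOpen_lift _ (B.2.1.and_le k c)) ?_
    · intro c c'
      refine ⟨max c c', ?_, ?_⟩
      · rintro (_ | _ | g) hz
        · exact hz
        · trivial
        · exact ⟨hz.1, hz.2.trans (le_max_left _ _)⟩
      · rintro (_ | _ | g) hz
        · exact hz
        · trivial
        · exact ⟨hz.1, hz.2.trans (le_max_right _ _)⟩
    · convert B.2.2 using 1
      ext z
      rw [mem_iUnion]
      rcases z with _ | ⟨n, m⟩ | g
      · simp
      · simp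
      · constructor
        · rintro ⟨c, hc⟩; exact hc.1
        · intro hg; exact ⟨g k, hg, le_rfl⟩
  choose c hc using step
  let B : ℕ → {B : (ℕ → ℕ) → Prop // BOpen B ∧ mk (x ∈ U) (fun _ _ => True) B ∈ F} := fun k =>
    Nat.rec ⟨W s, hW s, hs⟩
      (fun k B => ⟨fun g => B.1 g ∧ g k ≤ c k B, B.2.1.and_le _ _, hc k B⟩) k
  let h : ℕ → ℕ := fun k => c k (B k)
  have hB : ∀ k g, (B k).1 g → W s g ∧ ∀ i < k, g i ≤ h i := by
    intro k
    induction k with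
    | zero => intro g hg; exact ⟨hg, fun i hi => absurd hi (Nat.not_lt_zero i)⟩
    | succ k ih =>
      intro g hg
      obtain ⟨h2, h3⟩ := ih g hg.1
      refine ⟨h2, fun i hi => ?_⟩
      rcases Nat.lt_succ_iff_lt_or_eq.1 hi with h4 | rfl
      · exact h3 i h4
      · exact hg.2
  let fs : {f // b f ∈ U} → ℕ → ℕ := fun f i => if i < N f then min (f.1 i) (h i) else h i
  refine ⟨({x} ∩ U) ∪ {b f0} ∪ (fun f => b (fs f)) '' (s : Set {f // b f ∈ U}), ?_, ?_, ?_⟩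
  · exact (((finite_singleton _).inter_of_left _).union (finite_singleton _)).union
      (s.finite_toSet.image _)
  · rintro z ((hz | hz) | ⟨f, _, rfl⟩)
    · exact hz.2
    · rw [mem_singleton_iff.1 hz]; exact hf0
    · refine hN f _ fun i hi => ?_
      simp only [fs, if_pos hi]; exact min_le_left _ _
  · intro V hV hKV
    have hDV := (hV.2.2 f0 (hKV (Or.inl (Or.inr rfl)))).1
    have h2 : ∀ f : {f // b f ∈ U}, ∃ M, f ∈ s → ∀ g : ℕ → ℕ, (∀ i < M, g i ≤ fs f i) → b g ∈ V := by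
      intro f
      by_cases hf : f ∈ s
      · obtain ⟨M, hM⟩ := (hV.2.2 (fs f) (hKV (Or.inr ⟨f, hf, rfl⟩))).2
        exact ⟨M, fun _ => hM⟩
      · exact ⟨0, fun h => absurd h hf⟩
    choose M hM using h2
    refine hF.2.1 _ (B (s.sup M)).2.2 V hV ?_
    rintro (_ | ⟨n, m⟩ | g) hz
    · exact hKV (Or.inl (Or.inl ⟨rfl, hz⟩))
    · exact hDV n m
    · obtain ⟨⟨f, hf, hg⟩, h3⟩ := hB _ g hz
      refine hM f hf g fun i hi => ?_
      have h4 : g i ≤ h i := h3 i (hi.trans_le (Finset.le_sup hf))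
      by_cases hi' : i < N f
      · simp only [fs, if_pos hi']; exact le_min (hg i hi') h4
      · simp only [fs, if_neg hi']; exact h4

theorem caseB {F : Set (Set X)} (hF : ScottOpen F) {U : Set X} (hU : U ∈ F)
    (hb : ∀ f, b f ∉ U) (hx : x ∈ U) :
    ∃ K : Set X, K.Finite ∧ K ⊆ U ∧ ∀ V : Set X, IsOpen V → K ⊆ V → V ∈ F := by
  classical
  have hUo := hF.1 U hU
  have h1 : ∀ n, ∃ m, d n m ∈ U := hUo.2.1 hx
  let t : ℕ → ℕ := fun n => Nat.find (h1 n)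
  by_contra hc
  push Not at hc
  have h2 : ∀ n, ∃ V, IsOpen V ∧ insert x ((fun j => d j (t j)) '' Iio n) ⊆ V ∧ V ∉ F := by
    intro n
    refine hc _ (((finite_Iio n).image _).insert x) ?_
    rintro z (rfl | ⟨j, _, rfl⟩)
    · exact hx
    · exact Nat.find_spec (h1 j)
  choose V hVo hVK hVF using h2
  obtain ⟨n, hn⟩ := hF.iUnion
    (W := fun n => mk True (fun j m => d j m ∈ U ∧ (j < n ∨ ∀ k ≤ j, d j m ∈ V k)) fun _ => False)
    (Monotone.directed_le fun n n' hnn' => by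
      rintro (_ | ⟨j, m⟩ | g) hz
      · trivial
      · exact ⟨hz.1, hz.2.imp (fun h => h.trans_le hnn') id⟩
      · exact hz)
    (fun n => isOpen_top _
      (fun j m m' hm h => ⟨hUo.1 j m m' hm h.1,
        h.2.imp id fun h3 k hk => (hVo k).1 j m m' hm (h3 k hk)⟩)
      (fun _ j => by
        have h3 : ∀ k, ∃ m, d j m ∈ V k := fun k => (hVo k).2.1 (hVK k (Or.inl rfl)) j
        choose mm hmm using h3
        refine ⟨max (t j) ((Finset.range (j + 1)).sup mm),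
          hUo.1 j _ _ (le_max_left _ _) (Nat.find_spec (h1 j)), Or.inr fun k hk => ?_⟩
        exact (hVo k).1 j _ _ ((Finset.le_sup (f := mm)
          (Finset.mem_range.2 (Nat.lt_succ_of_le hk))).trans (le_max_right _ _)) (hmm k)))
    (by
      convert hU using 1
      ext z
      rw [mem_iUnion]
      rcases z with _ | ⟨j, m⟩ | g
      · simp [hx]
      · constructor
        · rintro ⟨n, hn⟩; exact hn.1
        · intro h; exact ⟨j + 1, h, Or.inl (Nat.lt_succ_self j)⟩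
      · simp [hb])
  refine hVF n (hF.2.1 _ hn _ (hVo n) ?_)
  rintro (_ | ⟨j, m⟩ | g) hz
  · exact hVK n (Or.inl rfl)
  · by_cases hj : j < n
    · exact (hVo n).1 j _ _ (Nat.find_min' (h1 j) hz.1) (hVK n (Or.inr ⟨j, hj, rfl⟩))
    · exact (hz.2.resolve_left hj) n (not_lt.1 hj)
  · exact hz.elim

theorem caseC {F : Set (Set X)} (hF : ScottOpen F) {U : Set X} (hU : U ∈ F)
    (hb : ∀ f, b f ∉ U) (hx : x ∉ U) :
    ∃ K : Set X, K.Finite ∧ K ⊆ U ∧ ∀ V : Set X, IsOpen V → K ⊆ V → V ∈ F := by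
  classical
  have hUo := hF.1 U hU
  obtain ⟨s, hs⟩ := hF.iUnion
    (W := fun s : Finset U =>
      mk False (fun j m => ∃ z ∈ s, ∃ m' ≤ m, z.1 = d j m') fun _ => False)
    (Monotone.directed_le fun s s' hss' => by
      rintro (_ | ⟨j, m⟩ | g) hz
      · exact hz
      · obtain ⟨z, hz, h⟩ := hz; exact ⟨z, hss' hz, h⟩
      · exact hz)
    (fun s => isOpen_top _
      (fun j m m' hm ⟨z, hz, k, hk, h⟩ => ⟨z, hz, k, hk.trans hm, h⟩) fun h => h.elim)
    (by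
      convert hU using 1
      ext z
      rw [mem_iUnion]
      rcases z with _ | ⟨j, m⟩ | g
      · simp [hx]
      · constructor
        · rintro ⟨s, z, _, k, hk, h⟩
          exact hUo.1 j k m hk (h ▸ z.2)
        · intro h; exact ⟨{⟨_, h⟩}, ⟨_, h⟩, Finset.mem_singleton_self _, m, le_rfl, rfl⟩
      · simp [hb])
  refine ⟨Subtype.val '' (s : Set U), s.finite_toSet.image _, ?_, fun V hV hKV => ?_⟩
  · rintro _ ⟨z, _, rfl⟩; exact z.2
  · refine hF.2.1 _ hs V hV ?_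
    rintro (_ | ⟨j, m⟩ | g) hz
    · exact hz.elim
    · obtain ⟨z, hz, k, hk, h⟩ := hz
      exact hV.1 j k m hk (h ▸ hKV ⟨z, hz, rfl⟩)
    · exact hz.elim

theorem finCons_X : FinCons X := by
  intro F hF U hU
  by_cases hb : ∃ f, b f ∈ U
  · obtain ⟨f, hf⟩ := hb; exact caseA hF hU hf
  · push Not at hb
    by_cases hx : x ∈ U
    · exact caseB hF hU hb hx
    · exact caseC hF hU hb hx

/-- the Scott-open family attached to two continuous maps -/
def fam {P : Type*} [TopologicalSpace P] (α β : X → P) : Set (Set P) :=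
  {O | IsOpen O ∧ α x ∈ O ∧ ∃ t : ℕ → ℕ, β (b t) ∈ O ∧ ∀ j, α (d j (t j)) ∈ O}

theorem scottOpen_fam {P : Type*} [TopologicalSpace P] {α β : X → P} (hα : Continuous α)
    (hβ : Continuous β) : ScottOpen (fam α β) := by
  classical
  refine ⟨fun _ h => h.1, ?_, ?_⟩
  · rintro U ⟨_, h1, t, h2, h3⟩ V hV hUV
    exact ⟨hV, hUV h1, t, hUV h2, fun j => hUV (h3 j)⟩
  · rintro D hne hd ho ⟨_, h1, t, ⟨O, hO, h2⟩, h3⟩
    obtain ⟨-, N, hN⟩ := ((ho O hO).preimage hβ).2.2 t h2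
    have h4 : ∀ n : ℕ, ∃ O' ∈ D, O ⊆ O' ∧ α x ∈ O' ∧ ∀ j < n, α (d j (t j)) ∈ O' := by
      intro n
      induction n with
      | zero =>
        obtain ⟨O1, hO1, h5⟩ := h1
        obtain ⟨O2, hO2, h6, h7⟩ := hd O hO O1 hO1
        exact ⟨O2, hO2, h6, h7 h5, fun j hj => absurd hj (Nat.not_lt_zero j)⟩
      | succ n ih =>
        obtain ⟨O1, hO1, h5, h6, h7⟩ := ih
        obtain ⟨O2, hO2, h8⟩ := h3 n
        obtain ⟨O3, hO3, h9, h10⟩ := hd O1 hO1 O2 hO2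
        refine ⟨O3, hO3, h5.trans h9, h9 h6, fun j hj => ?_⟩
        rcases Nat.lt_succ_iff_lt_or_eq.1 hj with h | rfl
        · exact h9 (h7 j h)
        · exact h10 h8
    obtain ⟨O', hO', h5, h6, h7⟩ := h4 N
    have h8 : ∀ j, ∃ m, α (d j m) ∈ O' := ((ho O' hO').preimage hα).2.1 h6
    choose m hm using h8
    refine ⟨O', hO', ho O' hO', h6, fun j => if j < N then t j else m j, h5 (hN _ fun i hi => ?_),
      fun j => ?_⟩
    · simp only [if_pos hi]; exact le_rfl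
    · by_cases hj : j < N
      · simp only [if_pos hj]; exact h7 j hj
      · simp only [if_neg hj]; exact hm j

/-- the upper part -/
def A : Set X := mk True (fun _ _ => True) fun _ => False
/-- the complement of the point `x` -/
def C : Set X := mk False (fun _ _ => True) fun _ => True
/-- the lower part -/
def Bs : Set X := mk False (fun _ _ => False) fun _ => True
/-- test sets in the upper part -/
def Uk (n k : ℕ) : Set X := mk True (fun j m => j ≠ n ∨ k < m) fun _ => False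
/-- test sets in the lower part -/
def Wk (n k : ℕ) : Set X := mk False (fun _ _ => True) fun g => g n ≤ k
/-- exhausting sets of the upper part -/
def AN (κ : ℕ → ℕ) (N : ℕ) : Set X := mk True (fun j m => j < N ∨ κ j < m) fun _ => False

theorem isOpen_A : IsOpen A :=
  isOpen_top _ (fun _ _ _ _ _ => trivial) fun _ _ => ⟨0, trivial⟩
theorem isOpen_C : IsOpen C := isOpen_lift _ fun _ _ => ⟨0, fun _ _ => trivial⟩
theorem isOpen_Uk (n k : ℕ) : IsOpen (Uk n k) :=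
  isOpen_top _ (fun _ _ _ h h' => h'.imp id fun h2 => h2.trans_le h)
    fun _ _ => ⟨k + 1, Or.inr (Nat.lt_succ_self k)⟩
theorem isOpen_Wk (n k : ℕ) : IsOpen (Wk n k) := isOpen_lift _ (bOpen_le n k)
theorem isOpen_AN (κ : ℕ → ℕ) (N : ℕ) : IsOpen (AN κ N) :=
  isOpen_top _ (fun _ _ _ h h' => h'.imp id fun h2 => h2.trans_le h)
    fun _ j => ⟨κ j + 1, Or.inr (Nat.lt_succ_self _)⟩

theorem mono_AN (κ : ℕ → ℕ) : Monotone (AN κ) := fun n n' h => by
  rintro (_ | ⟨j, m⟩ | g) hz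
  · trivial
  · exact Or.imp (fun h2 => lt_of_lt_of_le h2 h) id hz
  · exact hz

theorem mono_Wk (n : ℕ) : Monotone (Wk n) := fun k k' h => by
  rintro (_ | ⟨j, m⟩ | g) hz
  · exact hz
  · trivial
  · exact le_trans hz h

theorem A_sub (κ : ℕ → ℕ) : A ⊆ ⋃ N, AN κ N := by
  rintro (_ | ⟨j, m⟩ | g) hz
  · exact mem_iUnion.2 ⟨0, trivial⟩
  · exact mem_iUnion.2 ⟨j + 1, Or.inl (Nat.lt_succ_self j)⟩
  · exact hz.elim

theorem C_sub (n : ℕ) : C ⊆ ⋃ k, Wk n k := by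
  rintro (_ | ⟨j, m⟩ | g) hz
  · exact hz.elim
  · exact mem_iUnion.2 ⟨0, trivial⟩
  · exact mem_iUnion.2 ⟨g n, le_refl (g n)⟩

end Pool.Agent.H84.ConsEx
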