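import Mathlib

set_option autoImplicit false

namespace Pool.Agent.H84.PowDefs

/-- The Smyth power space: nonempty compact saturated subsets
(saturated: equal to the intersection of its open supersets). -/
def Smyth (Y : Type) [TopologicalSpace Y] : Type :=
  {K : Set Y // K.Nonempty ∧ IsCompact K ∧
    ∀ x : Y, (∀ U : Set Y, IsOpen U → K ⊆ U → x ∈ U) → x ∈ K}

/-- The upper Vietoris topology, generated by the sets `{K | K ⊆ U}` for `U` open. -/
instance smythTop (Y : Type) [TopologicalSpace Y] : TopologicalSpace (Smyth Y) :=
  TopologicalSpace.generateFrom {S | ∃ U : Set Y, IsOpen U ∧ S = {K | K.1 ⊆ U}}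

/-- The lower power space: all closed subsets. -/
def LowerPow (Y : Type) [TopologicalSpace Y] : Type := {C : Set Y // IsClosed C}

/-- The lower Vietoris topology, generated by the sets `{C | C ∩ U ≠ ∅}` for `U` open. -/
instance lowerTop (Y : Type) [TopologicalSpace Y] : TopologicalSpace (LowerPow Y) :=
  TopologicalSpace.generateFrom {S | ∃ U : Set Y, IsOpen U ∧ S = {C | (C.1 ∩ U).Nonempty}}

/-- Co-consonance: on the lattice of open sets, the upper topology equals the Scott topology. -/
def CoConsonant (Y : Type) [TopologicalSpace Y] : Prop :=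
  Topology.upper (TopologicalSpace.Opens Y) = Topology.scott (TopologicalSpace.Opens Y) Set.univ

end Pool.Agent.H84.PowDefs
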