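import Mathlib
import Pool.Agent.H84.PowDefs

set_option autoImplicit false

namespace Pool.Agent.H84.Smyth

open Set Topology Filter TopologicalSpace Pool.Agent.H84.PowDefs

variable {Y : Type} [TopologicalSpace Y]

/-- the box of an open set -/
def box (U : Set Y) : Set (Smyth Y) := {K | K.1 ⊆ U}

theorem isOpen_box {U : Set Y} (hU : IsOpen U) : IsOpen (box U) :=
  isOpen_generateFrom_of_mem ⟨U, hU, rfl⟩

theorem exists_box {O : Set (Smyth Y)} (hO : IsOpen O) {K : Smyth Y} (hK : K ∈ O) :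
    ∃ U, IsOpen U ∧ K.1 ⊆ U ∧ box U ⊆ O := by
  have hO' : GenerateOpen {S | ∃ U : Set Y, IsOpen U ∧ S = {K : Smyth Y | K.1 ⊆ U}} O := hO
  clear hO
  induction hO' with
  | basic s hs => obtain ⟨U, hU, rfl⟩ := hs; exact ⟨U, hU, hK, Subset.rfl⟩
  | univ => exact ⟨univ, isOpen_univ, subset_univ _, subset_univ _⟩
  | inter s t _ _ ihs iht =>
    obtain ⟨U, hU, h1, h2⟩ := ihs hK.1
    obtain ⟨V, hV, h3, h4⟩ := iht hK.2
    exact ⟨U ∩ V, hU.inter hV, subset_inter h1 h3, fun L hL =>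
      ⟨h2 (Subset.trans hL inter_subset_left), h4 (Subset.trans hL inter_subset_right)⟩⟩
  | sUnion S _ ih =>
    obtain ⟨s, hs, hK⟩ := hK
    obtain ⟨U, hU, h1, h2⟩ := ih s hs hK
    exact ⟨U, hU, h1, h2.trans (subset_sUnion_of_mem hs)⟩

/-- saturation -/
def sat (S : Set Y) : Set Y := {y | ∀ U : Set Y, IsOpen U → S ⊆ U → y ∈ U}

theorem subset_sat (S : Set Y) : S ⊆ sat S := fun _ hx _ _ h => h hx

theorem sat_subset_iff {S U : Set Y} (hU : IsOpen U) : sat S ⊆ U ↔ S ⊆ U :=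
  ⟨fun h => (subset_sat S).trans h, fun h _ hy => hy U hU h⟩

theorem mem_sat_iff {S : Set Y} {y : Y} : y ∈ sat S ↔ ∃ s ∈ S, y ⤳ s := by
  constructor
  · intro h
    by_contra hc
    push Not at hc
    exact h (closure {y})ᶜ isClosed_closure.isOpen_compl
      (fun s hs h2 => hc s hs (specializes_iff_mem_closure.2 h2)) (subset_closure rfl)
  · rintro ⟨s, hs, h⟩ U hU hSU
    exact h.mem_open hU (hSU hs)

theorem isCompact_sat {S : Set Y} (h : IsCompact S) : IsCompact (sat S) := by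
  refine isCompact_of_finite_subcover fun U hU hc => ?_
  obtain ⟨t, ht⟩ := h.elim_finite_subcover U hU ((subset_sat S).trans hc)
  exact ⟨t, (sat_subset_iff (isOpen_biUnion fun i _ => hU i)).2 ht⟩

theorem sat_sat (S : Set Y) (x : Y) (h : ∀ U : Set Y, IsOpen U → sat S ⊆ U → x ∈ U) :
    x ∈ sat S := fun U hU hS => h U hU ((sat_subset_iff hU).2 hS)

/-- the saturation of a nonempty compact set as a point of the Smyth power space -/
def toSmyth (S : Set Y) (h1 : S.Nonempty) (h2 : IsCompact S) : Smyth Y :=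
  ⟨sat S, h1.mono (subset_sat S), isCompact_sat h2, sat_sat S⟩

theorem toSmyth_mem_box {S : Set Y} {h1 : S.Nonempty} {h2 : IsCompact S} {U : Set Y}
    (hU : IsOpen U) : toSmyth S h1 h2 ∈ box U ↔ S ⊆ U := sat_subset_iff hU

theorem continuous_to {Z : Type*} [TopologicalSpace Z] {f : Z → Smyth Y}
    (h : ∀ U, IsOpen U → IsOpen (f ⁻¹' box U)) : Continuous f :=
  continuous_generateFrom_iff.2 (by rintro s ⟨U, hU, rfl⟩; exact h U hU)

theorem mem_of_spec {K : Smyth Y} {x y : Y} (hx : x ∈ K.1) (h : y ⤳ x) : y ∈ K.1 :=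
  K.2.2.2 y fun _ hU hK => h.mem_open hU (hK hx)

theorem spec_iff {K L : Smyth Y} : K ⤳ L ↔ K.1 ⊆ L.1 := by
  constructor
  · intro h x hx
    exact L.2.2.2 x fun U hU hL => h.mem_open (isOpen_box hU) hL hx
  · intro h
    rw [specializes_iff_forall_open]
    intro O hO hL
    obtain ⟨U, -, h1, h2⟩ := exists_box hO hL
    exact h2 (h.trans h1)

instance : T0Space (Smyth Y) :=
  ⟨fun _ _ h => Subtype.ext
    (Subset.antisymm (spec_iff.1 h.specializes) (spec_iff.1 h.specializes'))⟩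

theorem isCompact_sUnion {𝒦 : Set (Smyth Y)} (h : IsCompact 𝒦) :
    IsCompact (⋃ K ∈ 𝒦, K.1) := by
  classical
  refine isCompact_of_finite_subcover fun {ι} U hU hc => ?_
  obtain ⟨t, ht⟩ := h.elim_directed_cover (fun s : Finset ι => box (⋃ i ∈ s, U i))
    (fun s => isOpen_box (isOpen_biUnion fun i _ => hU i))
    (fun K hK => by
      obtain ⟨s, hs⟩ := K.2.2.1.elim_finite_subcover U hU
        ((subset_biUnion_of_mem (u := fun K : Smyth Y => K.1) hK).trans hc)
      exact mem_iUnion.2 ⟨s, hs⟩)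
    (Monotone.directed_le fun s s' hss' K hK =>
      Subset.trans hK (biUnion_subset_biUnion_left (s := (s : Set ι)) (s' := (s' : Set ι)) hss'))
  exact ⟨t, iUnion₂_subset fun K hK => ht hK⟩

end Pool.Agent.H84.Smyth
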