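import Mathlib
import Pool.Agent.H84.ConsEx
import Pool.Agent.H84.Smyth

set_option autoImplicit false

namespace Pool.Agent.H84.ConsEx

open Set Topology Filter TopologicalSpace Pool.Agent.H84.Cons Pool.Agent.H84.PowDefs
open Pool.Agent.H84.Smyth

open X

/-- first map into the Smyth power space -/
def αS (p : X) : Smyth X := toSmyth {x, p} (insert_nonempty _ _) (toFinite _).isCompact
/-- second map into the Smyth power space -/
def βS (p : X) : Smyth X := toSmyth {p} (singleton_nonempty _) isCompact_singleton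

theorem αS_mem {p : X} {U : Set X} (hU : IsOpen U) : αS p ∈ box U ↔ x ∈ U ∧ p ∈ U := by
  rw [αS, toSmyth_mem_box hU, insert_subset_iff, singleton_subset_iff]

theorem βS_mem {p : X} {U : Set X} (hU : IsOpen U) : βS p ∈ box U ↔ p ∈ U := by
  rw [βS, toSmyth_mem_box hU, singleton_subset_iff]

theorem continuous_αS : Continuous αS := continuous_to fun U hU => by
  by_cases hx : x ∈ U
  · convert hU using 1; ext p; simp [αS_mem hU, hx]
  · convert isOpen_empty; ext p; simp [αS_mem hU, hx]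

theorem continuous_βS : Continuous βS := continuous_to fun U hU => by
  convert hU using 1; ext p; simp [βS_mem hU]

theorem not_consonant_smyth : ¬ Consonant (Smyth X) := by
  intro h
  have h0 : box A ∪ box C ∈ fam αS βS :=
    ⟨(isOpen_box isOpen_A).union (isOpen_box isOpen_C), Or.inl ((αS_mem isOpen_A).2 ⟨trivial, trivial⟩),
      fun _ => 0, Or.inr ((βS_mem isOpen_C).2 trivial),
      fun _ => Or.inl ((αS_mem isOpen_A).2 ⟨trivial, trivial⟩)⟩
  obtain ⟨𝒦, hc, hsub, hall⟩ := h _ (scottOpen_fam continuous_αS continuous_βS) _ h0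
  have step1 : ∃ n, ∀ K ∈ 𝒦, x ∈ K.1 → ∀ m, d n m ∉ K.1 := by
    by_contra hcon
    push Not at hcon
    choose K hK hxK κ hκ using hcon
    obtain ⟨N, hN⟩ := hc.elim_directed_cover (fun N => box (AN κ N) ∪ box C)
      (fun N => (isOpen_box (isOpen_AN κ N)).union (isOpen_box isOpen_C))
      (fun L hL => by
        rcases hsub hL with h1 | h1
        · obtain ⟨N, hN⟩ := L.2.2.1.elim_directed_cover (AN κ) (isOpen_AN κ)
            (Subset.trans h1 (A_sub κ)) (mono_AN κ).directed_le
          exact mem_iUnion.2 ⟨N, Or.inl hN⟩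
        · exact mem_iUnion.2 ⟨0, Or.inr h1⟩)
      (Monotone.directed_le fun N N' hNN' L hL =>
        hL.imp (fun h1 => Subset.trans h1 (mono_AN κ hNN')) id)
    rcases hN (hK N) with h1 | h1
    · rcases h1 (hκ N) with h2 | h2
      · exact lt_irrefl _ h2
      · exact lt_irrefl _ h2
    · exact h1 (hxK N)
  obtain ⟨n, hn⟩ := step1
  obtain ⟨k, hk⟩ := hc.elim_directed_cover (fun k => box A ∪ box (Wk n k))
    (fun k => (isOpen_box isOpen_A).union (isOpen_box (isOpen_Wk n k)))
    (fun L hL => by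
      rcases hsub hL with h1 | h1
      · exact mem_iUnion.2 ⟨0, Or.inl h1⟩
      · obtain ⟨k, hk⟩ := L.2.2.1.elim_directed_cover (Wk n) (isOpen_Wk n)
          (Subset.trans h1 (C_sub n)) (mono_Wk n).directed_le
        exact mem_iUnion.2 ⟨k, Or.inr hk⟩)
    (Monotone.directed_le fun N N' hNN' L hL =>
      hL.imp id fun h1 => Subset.trans h1 (mono_Wk n hNN'))
  have h2 : 𝒦 ⊆ box (Uk n k) ∪ box (Wk n k) := by
    intro L hL
    rcases hk hL with h1 | h1
    · by_cases hx : x ∈ L.1
      · left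
        rintro (_ | ⟨j, m⟩ | g) hz
        · trivial
        · left; rintro rfl; exact hn L hL hx m hz
        · exact h1 hz
      · right
        rintro (_ | ⟨j, m⟩ | g) hz
        · exact hx hz
        · trivial
        · exact (h1 hz).elim
    · exact Or.inr h1
  obtain ⟨-, -, t, h3, h4⟩ :=
    hall _ ((isOpen_box (isOpen_Uk n k)).union (isOpen_box (isOpen_Wk n k))) h2
  have h5 : t n ≤ k := by
    rcases h3 with h3 | h3
    · exact ((βS_mem (isOpen_Uk n k)).1 h3).elim
    · exact (βS_mem (isOpen_Wk n k)).1 h3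
  rcases h4 n with h6 | h6
  · rcases ((αS_mem (isOpen_Uk n k)).1 h6).2 with h7 | h7
    · exact h7 rfl
    · exact absurd h5 (not_le.2 h7)
  · exact ((αS_mem (isOpen_Wk n k)).1 h6).1

theorem isClosed_Bs : IsClosed Bs := by
  rw [← isOpen_compl_iff]
  convert isOpen_A using 1
  ext (_ | _ | _) <;> simp [A, Bs]

theorem isClosed_x : IsClosed ({x} : Set X) := by
  rw [← isOpen_compl_iff]
  convert isOpen_C using 1
  ext (_ | _ | _) <;> simp [C]

theorem closure_inter_iff {p : X} {U : Set X} (hU : IsOpen U) :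
    (closure {p} ∩ U).Nonempty ↔ p ∈ U := by
  constructor
  · rintro ⟨z, hz, hzU⟩; exact (specializes_iff_mem_closure.2 hz).mem_open hU hzU
  · intro h; exact ⟨p, subset_closure rfl, h⟩

theorem not_consonant_lower (q : Set X → Prop) (hq : ∀ F, IsClosed F → F.Nonempty → q F) :
    ¬ @Consonant {F : Set X // q F} (generateFrom
      {S | ∃ U : Set X, IsOpen U ∧ S = {F : {F : Set X // q F} | (F.1 ∩ U).Nonempty}}) := by
  let _ : TopologicalSpace {F : Set X // q F} := generateFrom
      {S | ∃ U : Set X, IsOpen U ∧ S = {F : {F : Set X // q F} | (F.1 ∩ U).Nonempty}}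
  let dia : Set X → Set {F : Set X // q F} := fun U => {F | (F.1 ∩ U).Nonempty}
  have hdia : ∀ {U}, IsOpen U → IsOpen (dia U) := fun hU => isOpen_generateFrom_of_mem ⟨_, hU, rfl⟩
  let α : X → {F : Set X // q F} := fun p => ⟨closure {p} ∪ Bs,
    hq _ (isClosed_closure.union isClosed_Bs) ⟨p, Or.inl (subset_closure rfl)⟩⟩
  let β : X → {F : Set X // q F} := fun p => ⟨closure {p} ∪ {x},
    hq _ (isClosed_closure.union isClosed_x) ⟨p, Or.inl (subset_closure rfl)⟩⟩
  have hα : ∀ {p U}, IsOpen U → (α p ∈ dia U ↔ p ∈ U ∨ (Bs ∩ U).Nonempty) := fun hU => by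
    simp only [α, dia, mem_ofPred_eq, union_inter_distrib_right, union_nonempty,
      closure_inter_iff hU]
  have hβ : ∀ {p U}, IsOpen U → (β p ∈ dia U ↔ p ∈ U ∨ x ∈ U) := fun hU => by
    simp only [β, dia, mem_ofPred_eq, union_inter_distrib_right, union_nonempty,
      closure_inter_iff hU, singleton_inter_nonempty]
  have hαc : Continuous α := continuous_generateFrom_iff.2 (by
    rintro s ⟨U, hU, rfl⟩
    by_cases h1 : (Bs ∩ U).Nonempty
    · convert isOpen_univ; ext p; exact iff_of_true ((hα (p := p) hU).2 (Or.inr h1)) trivial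
    · convert hU using 1; ext p; exact (hα (p := p) hU).trans (or_iff_left h1))
  have hβc : Continuous β := continuous_generateFrom_iff.2 (by
    rintro s ⟨U, hU, rfl⟩
    by_cases h1 : x ∈ U
    · convert isOpen_univ; ext p; exact iff_of_true ((hβ (p := p) hU).2 (Or.inr h1)) trivial
    · convert hU using 1; ext p; exact (hβ (p := p) hU).trans (or_iff_left h1))
  intro h
  have h0 : dia A ∩ dia C ∈ fam α β :=
    ⟨(hdia isOpen_A).inter (hdia isOpen_C),
      ⟨(hα isOpen_A).2 (Or.inl trivial), (hα isOpen_C).2 (Or.inr ⟨b fun _ => 0, trivial, trivial⟩)⟩,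
      fun _ => 0, ⟨(hβ isOpen_A).2 (Or.inr trivial), (hβ isOpen_C).2 (Or.inl trivial)⟩,
      fun _ => ⟨(hα isOpen_A).2 (Or.inl trivial), (hα isOpen_C).2 (Or.inl trivial)⟩⟩
  obtain ⟨𝒦, hc, hsub, hall⟩ := h _ (scottOpen_fam hαc hβc) _ h0
  have step1 : ∃ n, ∀ k, 𝒦 ⊆ dia (Uk n k) := by
    by_contra hcon
    push Not at hcon
    choose κ hκ using hcon
    obtain ⟨N, hN⟩ := hc.elim_directed_cover (fun N => dia (AN κ N))
      (fun N => hdia (isOpen_AN κ N))
      (fun L hL => by
        obtain ⟨z, hz, hzA⟩ := (hsub hL).1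
        obtain ⟨N, hN⟩ := mem_iUnion.1 (A_sub κ hzA)
        exact mem_iUnion.2 ⟨N, z, hz, hN⟩)
      (Monotone.directed_le fun N N' hNN' L ⟨z, hz, h1⟩ => ⟨z, hz, mono_AN κ hNN' h1⟩)
    refine hκ N fun L hL => ?_
    obtain ⟨z, hz, h1⟩ := hN hL
    refine ⟨z, hz, ?_⟩
    rcases z with _ | ⟨j, m⟩ | g
    · trivial
    · by_cases hj : j = N
      · subst hj
        exact Or.inr (Or.resolve_left h1 (lt_irrefl _))
      · exact Or.inl hj
    · exact h1
  obtain ⟨n, hn⟩ := step1
  obtain ⟨k, hk⟩ := hc.elim_directed_cover (fun k => dia (Wk n k))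
    (fun k => hdia (isOpen_Wk n k))
    (fun L hL => by
      obtain ⟨z, hz, hzC⟩ := (hsub hL).2
      obtain ⟨k, hk⟩ := mem_iUnion.1 (C_sub n hzC)
      exact mem_iUnion.2 ⟨k, z, hz, hk⟩)
    (Monotone.directed_le fun N N' hNN' L ⟨z, hz, h1⟩ => ⟨z, hz, mono_Wk n hNN' h1⟩)
  obtain ⟨-, -, t, h3, h4⟩ := hall _ ((hdia (isOpen_Uk n k)).inter (hdia (isOpen_Wk n k)))
    (subset_inter (hn k) hk)
  have h5 : t n ≤ k := by
    rcases (hβ (isOpen_Wk n k)).1 h3.2 with h6 | h6
    · exact h6
    · exact h6.elim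
  rcases (hα (isOpen_Uk n k)).1 (h4 n).1 with h6 | ⟨z, hz, h6⟩
  · rcases h6 with h7 | h7
    · exact h7 rfl
    · exact absurd h5 (not_le.2 h7)
  · rcases z with _ | _ | _
    · exact hz
    · exact hz
    · exact h6

end Pool.Agent.H84.ConsEx
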