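import Mathlib

/-! Point-countable pi-bases of `C_p(X)` for scattered compacta of size at most `aleph 1`. -/

namespace Pool.Agent.H84.CpPi

open Set Cardinal Topology

variable {X : Type} [TopologicalSpace X]

def box (p : Finset (X × ℚ × ℚ)) : Set C(X, ℝ) :=
  {g | ∀ t ∈ p, (t.2.1 : ℝ) < g t.1 ∧ g t.1 < t.2.2}

theorem box_open (p : Finset (X × ℚ × ℚ)) : @IsOpen C(X, ℝ)
    (TopologicalSpace.induced (fun f : C(X, ℝ) => (f : X → ℝ)) inferInstance) (box p) := by
  refine isOpen_induced_iff.2 ⟨⋂ t ∈ p, {h : X → ℝ | (t.2.1 : ℝ) < h t.1 ∧ h t.1 < t.2.2},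
    isOpen_biInter_finset fun t _ => (isOpen_lt continuous_const (continuous_apply _)).inter
      (isOpen_lt (continuous_apply _) continuous_const), ?_⟩
  ext g
  simp [box]

theorem box_sub {U : Set C(X, ℝ)} (hU : @IsOpen C(X, ℝ)
    (TopologicalSpace.induced (fun f : C(X, ℝ) => (f : X → ℝ)) inferInstance) U) {g : C(X, ℝ)}
    (hg : g ∈ U) : ∃ p, g ∈ box p ∧ box p ⊆ U := by
  classical
  obtain ⟨V, hV, rfl⟩ := isOpen_induced_iff.1 hU
  obtain ⟨s, u, h1, h2⟩ := isOpen_pi_iff.1 hV g hg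
  have : ∀ a, ∃ q : ℚ × ℚ, a ∈ s → (q.1 : ℝ) < g a ∧ g a < q.2 ∧ Ioo (q.1 : ℝ) q.2 ⊆ u a := by
    intro a
    by_cases ha : a ∈ s
    · obtain ⟨l, r, hlr, hs⟩ := mem_nhds_iff_exists_Ioo_subset.1 ((h1 a ha).1.mem_nhds (h1 a ha).2)
      obtain ⟨q1, hq1, hq1'⟩ := exists_rat_btwn hlr.1
      obtain ⟨q2, hq2, hq2'⟩ := exists_rat_btwn hlr.2
      exact ⟨(q1, q2), fun _ => ⟨hq1', hq2, (Ioo_subset_Ioo hq1.le hq2'.le).trans hs⟩⟩
    · exact ⟨(0, 0), fun h => absurd h ha⟩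
  choose q hq using this
  refine ⟨s.image fun a => (a, q a), fun t ht => ?_, fun f hf => h2 fun a ha => ?_⟩
  · obtain ⟨a, ha, rfl⟩ := Finset.mem_image.1 ht
    exact ⟨(hq a ha).1, (hq a ha).2.1⟩
  · exact (hq a ha).2.2 (hf (a, q a) (Finset.mem_image_of_mem _ ha))

theorem countable_of_sep [T2Space X] [CompactSpace X]
    (hs : ∀ s : Set X, s.Nonempty → ∃ x ∈ s, ∃ U : Set X, IsOpen U ∧ U ∩ s = {x})
    {T : Set C(X, ℝ)} (hT : T.Countable) (h : ∀ x y, (∀ f ∈ T, f x = f y) → x = y) :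
    Countable X := by
  have := hT.to_subtype
  have hc : Continuous fun (x : X) (f : T) => f.1 x := continuous_pi fun f => f.1.continuous
  have hi : Function.Injective fun (x : X) (f : T) => f.1 x := fun x y e =>
    h x y fun f hf => congrFun e ⟨f, hf⟩
  have := (hc.isClosedEmbedding hi).isEmbedding.secondCountableTopology
  obtain ⟨V, D, hV, hD, hu⟩ := exists_countable_union_perfect_of_isClosed (isClosed_univ (X := X))
  rcases D.eq_empty_or_nonempty with rfl | hne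
  · rw [union_empty] at hu
    exact countable_univ_iff.1 (hu ▸ hV)
  · obtain ⟨x, hx, U, hU, hUD⟩ := hs D hne
    have hxU : x ∈ U := (show x ∈ U ∩ D from hUD ▸ mem_singleton x).1
    obtain ⟨y, hy, hyx⟩ := preperfect_iff_nhds.1 hD.acc x hx U (hU.mem_nhds hxU)
    exact absurd (hUD ▸ hy : y ∈ ({x} : Set X)) hyx

theorem pair [T2Space X] [CompactSpace X]
    (hs : ∀ s : Set X, s.Nonempty → ∃ x ∈ s, ∃ U : Set X, IsOpen U ∧ U ∩ s = {x})
    (hu : ¬ Countable X) (k : X × X → C(X, ℝ)) (hk : ∀ x y, x ≠ y → k (x, y) x ≠ k (x, y) y)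
    {T : Set C(X, ℝ)} (hT : T.Countable) (F : Finset X) :
    ∃ x y, x ∉ F ∧ y ∉ F ∧ x ≠ y ∧ ∀ f ∈ T, f x = f y := by
  by_contra hn
  push Not at hn
  let Φ : X → T → ℝ := fun x f => f.1 x
  let S : Set X := {y | ∃ a ∈ F, Φ y = Φ a}
  have hinj : InjOn Φ (S \ F) := fun x hx y hy e => by
    by_contra hxy
    obtain ⟨f, hf, hne⟩ := hn x y hx.2 hy.2 hxy
    exact hne (congrFun e ⟨f, hf⟩)
  have h1 : (S \ F).Countable := countable_of_injective_of_countable_image hinj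
    ((F.countable_toSet.image Φ).mono (by
      rintro _ ⟨y, ⟨⟨a, ha, e⟩, -⟩, rfl⟩
      exact ⟨a, ha, e.symm⟩))
  have hS : S.Countable := (h1.union F.countable_toSet).mono fun y hy => by
    by_cases h : y ∈ F
    · exact Or.inr h
    · exact Or.inl ⟨hy, h⟩
  refine hu (countable_of_sep hs (hT.union ((hS.prod hS).image k)) fun x y h => ?_)
  by_contra hxy
  have e : Φ x = Φ y := funext fun f => h f.1 (Or.inl f.2)
  have hxyS : x ∈ S ∧ y ∈ S := by
    by_cases hx : x ∈ F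
    · exact ⟨⟨x, hx, rfl⟩, ⟨x, hx, e.symm⟩⟩
    by_cases hy : y ∈ F
    · exact ⟨⟨y, hy, e⟩, ⟨y, hy, rfl⟩⟩
    obtain ⟨f, hf, hne⟩ := hn x y hx hy hxy
    exact absurd (h f (Or.inl hf)) hne
  exact hk x y hxy (h _ (Or.inr ⟨(x, y), hxyS, rfl⟩))

theorem extend [T2Space X] [CompactSpace X] (h : X → ℝ) (s : Finset X) :
    ∃ g : C(X, ℝ), ∀ a ∈ s, g a = h a := by
  obtain ⟨g, hg⟩ := ContinuousMap.exists_restrict_eq (Y := ℝ) s.finite_toSet.isClosed
    ⟨fun a => h a.1, continuous_of_discreteTopology⟩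
  exact ⟨g, fun a ha => DFunLike.congr_fun hg ⟨a, ha⟩⟩

theorem main [T2Space X] [CompactSpace X]
    (hs : ∀ s : Set X, s.Nonempty → ∃ x ∈ s, ∃ U : Set X, IsOpen U ∧ U ∩ s = {x})
    (hX : #X ≤ aleph 1) :
    ∃ 𝓑 : Set (Set C(X, ℝ)),
      (∀ B ∈ 𝓑, @IsOpen C(X, ℝ)
        (TopologicalSpace.induced (fun f : C(X, ℝ) => (f : X → ℝ)) inferInstance) B ∧ B.Nonempty) ∧
      (∀ U : Set C(X, ℝ), @IsOpen C(X, ℝ)
        (TopologicalSpace.induced (fun f : C(X, ℝ) => (f : X → ℝ)) inferInstance) U →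
          U.Nonempty → ∃ B ∈ 𝓑, B ⊆ U) ∧
      (∀ f : C(X, ℝ), {B ∈ 𝓑 | f ∈ B}.Countable) := by
  classical
  by_cases hu : Countable X
  · refine ⟨{B | B ∈ range box ∧ B.Nonempty}, ?_, fun U hU ⟨g, hg⟩ => ?_,
      fun f => (countable_range box).mono fun B hB => hB.1.1⟩
    · rintro _ ⟨⟨p, rfl⟩, hne⟩
      exact ⟨box_open p, hne⟩
    · obtain ⟨p, h1, h2⟩ := box_sub hU hg
      exact ⟨_, ⟨⟨p, rfl⟩, g, h1⟩, h2⟩
  have hXi : Infinite X := not_finite_iff_infinite.1 fun _ => hu inferInstance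
  have hk : ∀ z : X × X, ∃ f : C(X, ℝ), z.1 ≠ z.2 → f z.1 ≠ f z.2 := by
    rintro ⟨x, y⟩
    obtain ⟨g, hg⟩ := extend (fun a => if a = x then 0 else 1) {x, y}
    refine ⟨g, fun hxy => ?_⟩
    have hyx : y ≠ x := fun e => hxy e.symm
    rw [hg x (by simp), hg y (by simp)]
    simp [hyx]
  choose k hk using hk
  set I := (aleph.{0} 1).ord.ToType
  have hlt : ∀ i : I, (Iio i).Countable := fun i =>
    Cardinal.le_aleph0_iff_set_countable.1 (Cardinal.lt_aleph_one_iff.1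
      ((Cardinal.mk_Iio_lt i (by simp [I])).trans_eq (Cardinal.mk_ord_toType _)))
  have hle : ∀ i : I, (Iic i).Countable := fun i => by
    rw [← Iio_insert]
    exact (hlt i).insert i
  obtain ⟨j⟩ : Nonempty (Finset (X × ℚ × ℚ) × (X × X) ↪ I) := by
    rw [← Cardinal.le_def, Cardinal.mk_ord_toType]
    have h0 : ℵ₀ ≤ #X := aleph0_le_mk X
    simp only [mk_prod, lift_id, mk_finset_of_infinite, mk_eq_aleph0,
      mul_eq_self h0, mul_aleph0_eq h0]
    exact hX
  let e : I → Finset (X × ℚ × ℚ) × (X × X) := Function.invFun j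
  have he : Function.Surjective e := Function.invFun_surjective j.injective
  choose x y hx hy hxy hT using fun i : I => pair hs hu k (fun x y h => hk (x, y) h)
    ((hle i).image fun l => k (e l).2) ((e i).1.image Prod.fst)
  let B : I → Set C(X, ℝ) := fun i => box (insert (x i, -2, 0) (insert (y i, 1, 3) (e i).1))
  refine ⟨{b | b ∈ range B ∧ b.Nonempty}, ?_, fun U hU ⟨g, hg⟩ => ?_, fun f => ?_⟩
  · rintro _ ⟨⟨i, rfl⟩, hne⟩
    exact ⟨box_open _, hne⟩
  · obtain ⟨p, h1, h2⟩ := box_sub hU hg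
    obtain ⟨i, hi⟩ := he (p, Classical.arbitrary _)
    have hp : (e i).1 = p := by rw [hi]
    obtain ⟨g', hg'⟩ := extend (fun a => if a = x i then -1 else if a = y i then 2 else g a)
      (insert (x i) (insert (y i) ((e i).1.image Prod.fst)))
    refine ⟨B i, ⟨⟨i, rfl⟩, g', fun t ht => ?_⟩, fun f hf => h2 fun t ht => hf t ?_⟩
    · simp only [Finset.mem_insert] at ht
      rcases ht with rfl | rfl | ht
      · rw [hg' _ (by simp)]
        norm_num
      · rw [hg' _ (by simp)]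
        simp only [(hxy i).symm, if_false, if_true]
        norm_num
      · have hm : t.1 ∈ (e i).1.image Prod.fst := Finset.mem_image_of_mem _ ht
        have n1 : t.1 ≠ x i := fun h => hx i (h ▸ hm)
        have n2 : t.1 ≠ y i := fun h => hy i (h ▸ hm)
        rw [hg' _ (Finset.mem_insert_of_mem (Finset.mem_insert_of_mem hm)), if_neg n1, if_neg n2]
        exact h1 t (hp ▸ ht)
    · exact Finset.mem_insert_of_mem (Finset.mem_insert_of_mem (hp ▸ ht))
  · have hK : IsCompact {z : X × X | f z.1 ≤ 0 ∧ 1 ≤ f z.2} :=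
      IsClosed.isCompact (IsClosed.and
        (isClosed_le (f.continuous.comp continuous_fst) continuous_const)
        (isClosed_le continuous_const (f.continuous.comp continuous_snd)))
    obtain ⟨t, ht⟩ := hK.elim_finite_subcover (fun l : I => {z | k (e l).2 z.1 ≠ k (e l).2 z.2})
      (fun l => isOpen_ne_fun (by fun_prop) (by fun_prop)) (by
        intro z hz
        obtain ⟨l, hl⟩ := he (∅, z)
        refine mem_iUnion.2 ⟨l, ?_⟩
        show k (e l).2 z.1 ≠ k (e l).2 z.2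
        rw [hl]
        refine hk z fun e => ?_
        have h1 := hz.1
        have h2 := hz.2
        rw [e] at h1
        linarith)
    refine ((t.countable_toSet.biUnion fun l _ => hle l).image B).mono ?_
    rintro _ ⟨⟨⟨i, rfl⟩, -⟩, hf⟩
    refine ⟨i, ?_, rfl⟩
    have h1 := (hf _ (Finset.mem_insert_self _ _)).2
    have h2 := (hf _ (Finset.mem_insert_of_mem (Finset.mem_insert_self _ _))).1
    have hz : (x i, y i) ∈ {z : X × X | f z.1 ≤ 0 ∧ 1 ≤ f z.2} :=
      ⟨by simpa using h1.le, by simpa using h2.le⟩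
    obtain ⟨l, hl, hne⟩ := mem_iUnion₂.1 (ht hz)
    refine mem_biUnion hl ?_
    by_contra hil
    exact hne (hT i _ ⟨l, show l ≤ i from (not_le.1 hil).le, rfl⟩)

end Pool.Agent.H84.CpPi
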