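import Pool.Agent.H84.CutDefs

/-! Choose has no winning strategy: the tree of plays. -/

namespace Pool.Agent.H84.Cut

open Set Cardinal CutDefs

universe u

variable {K G : Type u} [LinearOrder G] [WellFoundedLT G]

/-- One round, from the earlier answers. -/
noncomputable def rnd (σ : Strat K G) (S C : G → Set K) (a : G) : Set K :=
  if σ a (fun b => (Dset C b ∩ S b, Dset C b \ S b)) = true then Dset C a ∩ S a
  else Dset C a \ S a

omit [WellFoundedLT G] in
theorem Dset_congr {C C' : G → Set K} {a : G} (h : ∀ b < a, C b = C' b) :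
    Dset C a = Dset C' a := by
  unfold Dset
  exact iInter₂_congr fun b hb => h b hb

omit [WellFoundedLT G] in
theorem rnd_congr (σ : Strat K G) {S S' C C' : G → Set K} {a : G} (hS : ∀ b ≤ a, S b = S' b)
    (h : ∀ b < a, C b = C' b) : rnd σ S C a = rnd σ S' C' a := by
  have hD : ∀ b ≤ a, Dset C b = Dset C' b := fun b hb =>
    Dset_congr fun c hc => h c (hc.trans_le hb)
  have : (fun b : Iic a => (Dset C b ∩ S b, Dset C b \ S b)) =
      fun b : Iic a => (Dset C' b ∩ S' b, Dset C' b \ S' b) := by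
    funext b
    rw [hD b b.2, hS b b.2]
  unfold rnd
  rw [this, hD a le_rfl, hS a le_rfl]

open Classical in
/-- The answers of `σ` when Cut cuts along the sets `S a`. -/
noncomputable def ans (σ : Strat K G) (S : G → Set K) : G → Set K :=
  (wellFounded_lt (α := G)).fix fun a f =>
    rnd σ S (fun b => if h : b < a then f b h else univ) a

theorem ans_eq (σ : Strat K G) (S : G → Set K) (a : G) : ans σ S a = rnd σ S (ans σ S) a := by
  unfold ans
  rw [WellFounded.fix_eq]
  exact rnd_congr σ (fun _ _ => rfl) fun b hb => dif_pos hb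

theorem ans_congr (σ : Strat K G) {S S' : G → Set K} (a : G) (hS : ∀ b ≤ a, S b = S' b) :
    ans σ S a = ans σ S' a := by
  induction a using WellFoundedLT.induction with
  | ind a ih =>
    rw [ans_eq, ans_eq σ S']
    exact rnd_congr σ hS fun b hb => ih b hb fun c hc => hS c (hc.trans hb.le)

theorem ans_play (σ : Strat K G) (S : G → Set K) :
    Play σ (fun a => Dset (ans σ S) a ∩ S a) (fun a => Dset (ans σ S) a \ S a) (ans σ S) :=
  fun a => ⟨disjoint_left.2 fun _ h h' => h'.2 h.2, inter_union_diff _ _, ans_eq σ S a⟩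

theorem ans_or (σ : Strat K G) (S : G → Set K) (a : G) :
    ans σ S a = Dset (ans σ S) a ∩ S a ∨ ans σ S a = Dset (ans σ S) a \ S a := by
  rw [ans_eq]
  unfold rnd
  split_ifs
  exacts [Or.inl rfl, Or.inr rfl]

theorem ans_dec (σ : Strat K G) (S : G → Set K) (a : G) {x y : K} (hx : x ∈ ans σ S a)
    (hy : y ∈ ans σ S a) : x ∈ S a ↔ y ∈ S a := by
  rcases ans_or σ S a with h | h <;> rw [h] at hx hy
  · exact iff_of_true hx.2 hy.2
  · exact iff_of_false hx.2 hy.2

/-- The winning condition for cuts along sets. -/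
def Win (σ : Strat K G) : Prop :=
  ∀ S : G → Set K, (∀ a x, ans σ S a ≠ {x}) ∧ (⋂ a, ans σ S a).Nonempty

theorem win_of (h : ChooseWins K G) : ∃ σ : Strat K G, Win σ :=
  h.elim fun σ hσ => ⟨σ, fun S => hσ _ _ _ (ans_play σ S)⟩

/-- Positions. -/
abbrev Pos (K G : Type u) := G × (G → Set K)

def Ext (p q : Pos K G) : Prop := p.1 ≤ q.1 ∧ ∀ b < p.1, q.2 b = p.2 b

omit [WellFoundedLT G] in
theorem Ext.trans {p q r : Pos K G} (h : Ext p q) (h' : Ext q r) : Ext p r :=
  ⟨h.1.trans h'.1, fun b hb => (h'.2 b (hb.trans_le h.1)).trans (h.2 b hb)⟩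

def DP (σ : Strat K G) (p : Pos K G) : Set K := Dset (ans σ p.2) p.1

theorem mem_DP (σ : Strat K G) {p : Pos K G} {S : G → Set K} (h : ∀ b < p.1, S b = p.2 b) {x : K}
    (hx : x ∈ ⋂ a, ans σ S a) : x ∈ DP σ p := by
  refine mem_iInter₂.2 fun b hb => ?_
  rw [← ans_congr σ b fun c hc => h c (hc.trans_lt hb)]
  exact mem_iInter.1 hx b

theorem split {σ : Strat K G} (hσ : Win σ) [NoMaxOrder G] (π : G → G)
    (hπ : ∀ c a, ∃ b, a < b ∧ π b = c) (e : K → G → Bool) (he : Function.Injective e)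
    (p : Pos K G) (c : G) : ∃ q : Bool → Pos K G, (∀ i, Ext p (q i) ∧ c < (q i).1 ∧
      ∀ x ∈ DP σ (q i), ∀ y ∈ DP σ (q i), e x c = e y c) ∧
      Disjoint (DP σ (q true)) (DP σ (q false)) := by
  classical
  obtain ⟨a, S⟩ := p
  let S1 : G → Set K := fun b => if b < a then S b else {k | e k (π b) = true}
  obtain ⟨x, hx⟩ := (hσ S1).2
  let S2 : G → Set K := fun b => if b = a then {x} else S1 b
  obtain ⟨y, hy⟩ := (hσ S2).2
  have h1 : ∀ b, a < b → S1 b = {k | e k (π b) = true} := fun b hb => if_neg hb.not_gt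
  have h2 : ∀ b, b ≠ a → S2 b = S1 b := fun b hb => if_neg hb
  have hxy : x ≠ y := by
    rintro rfl
    have hxa := mem_iInter.1 hy a
    refine (hσ S2).1 a x (eq_singleton_iff_unique_mem.2 ⟨hxa, fun z hz => ?_⟩)
    have := ans_dec σ S2 a hxa hz
    simpa [S2] using this
  obtain ⟨d, hd⟩ := Function.ne_iff.1 (he.ne hxy)
  obtain ⟨b1, hb1, rfl⟩ := hπ d a
  obtain ⟨b2, hb2, rfl⟩ := hπ c a
  obtain ⟨a', ha'⟩ := exists_gt (max (max b1 b2) (π b2))
  simp only [max_lt_iff] at ha'
  have key : ∀ T : G → Set K, (∀ b, a < b → T b = S1 b) → ∀ b, a < b → b < a' →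
      ∀ z ∈ DP σ (a', T), ∀ w ∈ DP σ (a', T), e z (π b) = e w (π b) := by
    intro T hT b hb hb' z hz w hw
    have := ans_dec σ T b (mem_iInter₂.1 hz b hb') (mem_iInter₂.1 hw b hb')
    rw [hT b hb, h1 b hb] at this
    exact Bool.eq_iff_iff.2 this
  have hT2 : ∀ b, a < b → S2 b = S1 b := fun b hb => h2 b hb.ne'
  refine ⟨fun i => (a', if i then S1 else S2), fun i => ⟨⟨(hb1.trans ha'.1.1).le, ?_⟩, ha'.2, ?_⟩,
    disjoint_left.2 fun z hz hz' => hd ?_⟩
  · intro b hb
    cases i
    · exact (h2 b hb.ne).trans (if_pos hb)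
    · exact if_pos hb
  · cases i
    · exact key S2 hT2 b2 hb2 ha'.1.2
    · exact key S1 (fun _ _ => rfl) b2 hb2 ha'.1.2
  · exact (key S1 (fun _ _ => rfl) b1 hb1 ha'.1.1 x (mem_DP σ (fun _ _ => rfl) hx) z hz).trans
      (key S2 hT2 b1 hb1 ha'.1.1 z hz' y (mem_DP σ (fun _ _ => rfl) hy))

open Classical in
/-- Union of the positions `f b`, `b < c`. -/
noncomputable def lim (ub : Set G → G) (f : G → Pos K G) (c : G) : Pos K G :=
  (ub ((fun b => (f b).1) '' Iio c),
    fun d => if h : ∃ b, b < c ∧ d < (f b).1 then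
      (f ((wellFounded_lt (α := G)).min {b | b < c ∧ d < (f b).1} h)).2 d else univ)

theorem lim_congr (ub : Set G → G) {f g : G → Pos K G} {c : G} (h : ∀ b < c, f b = g b) :
    lim ub f c = lim ub g c := by
  have h1 : (fun b => (f b).1) '' Iio c = (fun b => (g b).1) '' Iio c :=
    image_congr fun b hb => by rw [h b hb]
  have h2 : ∀ d, {b | b < c ∧ d < (f b).1} = {b | b < c ∧ d < (g b).1} := fun d =>
    Set.ext fun b => and_congr_right fun hb => by rw [h b hb]
  unfold lim
  rw [h1]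
  congr 1
  funext d
  by_cases hd : ∃ b, b < c ∧ d < (f b).1
  · have hd' : ∃ b, b < c ∧ d < (g b).1 := by
      obtain ⟨b, hb, hb'⟩ := hd
      exact ⟨b, hb, by rwa [← h b hb]⟩
    rw [dif_pos hd, dif_pos hd', h _ (WellFounded.min_mem _ {b | b < c ∧ d < (f b).1} hd).1]
    simp only [h2]
  · rw [dif_neg hd, dif_neg]
    rintro ⟨b, hb, hb'⟩
    exact hd ⟨b, hb, by rwa [h b hb]⟩

theorem lim_ext {ub : Set G → G} {f : G → Pos K G} {c : G}
    (hub : ∀ b < c, (f b).1 ≤ ub ((fun b => (f b).1) '' Iio c))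
    (h : ∀ b' < c, ∀ b < b', Ext (f b) (f b')) (b : G) (hb : b < c) : Ext (f b) (lim ub f c) := by
  refine ⟨hub b hb, fun d hd => ?_⟩
  have hd' : ∃ b, b < c ∧ d < (f b).1 := ⟨b, hb, hd⟩
  have hm := WellFounded.min_mem wellFounded_lt {b | b < c ∧ d < (f b).1} hd'
  simp only [lim]
  rw [dif_pos hd']
  rcases lt_trichotomy b (wellFounded_lt.min {b | b < c ∧ d < (f b).1} hd') with h' | h' | h'
  · exact (h _ hm.1 b h').2 d hd
  · rw [← h']
  · exact ((h b hb _ h').2 d hm.2).symm

theorem tree {σ : Strat K G} (hσ : Win σ) [NoMaxOrder G] (π : G → G)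
    (hπ : ∀ c a, ∃ b, a < b ∧ π b = c) (ub : Set G → G)
    (hub : ∀ (f : G → G) c b, b < c → f b ≤ ub (f '' Iio c))
    (e : K → G → Bool) (he : Function.Injective e) :
    ∃ x : (G → Bool) → K, Function.Injective x ∧
      ∀ s t c, (∀ b ≤ c, s b = t b) → e (x s) c = e (x t) c := by
  classical
  choose st hst hdis using split hσ π hπ e he
  let q : (G → Bool) → G → Pos K G := fun s => (wellFounded_lt (α := G)).fix fun c f =>
    st (lim ub (fun b => if h : b < c then f b h else (c, fun _ => univ)) c) c (s c)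
  have hq : ∀ s c, q s c = st (lim ub (q s) c) c (s c) := by
    intro s c
    simp only [q]
    rw [WellFounded.fix_eq]
    congr 1
    exact lim_congr ub fun b hb => dif_pos hb
  have loc : ∀ s t c, (∀ b ≤ c, s b = t b) → q s c = q t c := by
    intro s t c
    induction c using WellFoundedLT.induction with
    | ind c ih =>
      intro h
      rw [hq, hq t, h c le_rfl, lim_congr ub fun b hb => ih b hb fun d hd => h d (hd.trans hb.le)]
  have ch : ∀ s c, ∀ b < c, Ext (q s b) (q s c) := by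
    intro s c
    induction c using WellFoundedLT.induction with
    | ind c ih =>
      intro b hb
      rw [hq s c]
      exact (lim_ext (fun b hb => hub (fun b => (q s b).1) c b hb) ih b hb).trans (hst _ _ _).1
  have lt : ∀ s c, c < (q s c).1 := fun s c => by rw [hq]; exact (hst _ _ _).2.1
  choose x hx using fun s : G → Bool => (hσ fun b => (q s b).2 b).2
  have hxD : ∀ s c, x s ∈ DP σ (q s c) := by
    intro s c
    refine mem_DP σ (fun b hb => ?_) (hx s)
    rcases lt_trichotomy b c with h | rfl | h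
    · exact ((ch s c b h).2 b (lt s b)).symm
    · rfl
    · exact (ch s b c h).2 b hb
  refine ⟨x, fun s t hst' => by_contra fun hne => ?_, fun s t c h => ?_⟩
  · have hne' : {b | s b ≠ t b}.Nonempty := Function.ne_iff.1 hne
    set c := wellFounded_lt.min _ hne'
    have hc : s c ≠ t c := wellFounded_lt.min_mem _ hne'
    have hl : lim ub (q s) c = lim ub (q t) c := lim_congr ub fun b hb => loc s t b fun d hd =>
      by_contra fun hd' => wellFounded_lt.not_lt_min {b | s b ≠ t b} hd' (hd.trans_lt hb)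
    have h1 := hxD s c
    have h2 := hxD t c
    rw [hq, hl] at h1
    rw [hq, ← hst'] at h2
    have := hdis (lim ub (q t) c) c
    cases hs : s c <;> cases ht : t c <;> rw [hs] at h1 hc <;> rw [ht] at h2 hc
    · exact hc rfl
    · exact disjoint_left.1 this h2 h1
    · exact disjoint_left.1 this h1 h2
    · exact hc rfl
  · have h1 := hxD s c
    have h2 := hxD t c
    rw [← loc s t c h] at h2
    rw [hq] at h1 h2
    exact (hst _ _ _).2.2 _ h1 _ h2

end Pool.Agent.H84.Cut
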