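import Pool.Agent.H84.CutA

/-! Choose has no winning strategy: cardinal arithmetic. -/

namespace Pool.Agent.H84.Cut

open Set Cardinal CutDefs Ordinal

universe u

theorem sel {I U : Type u} {κ : Cardinal.{u}} (hI : #I ≤ κ) (A : I → Set U)
    (hA : ∀ i, κ ≤ #(A i)) : ∃ t : I → U, Function.Injective t ∧ ∀ i, t i ∈ A i := by
  classical
  obtain ⟨r, wo, hr⟩ := Cardinal.exists_ord_eq I
  have hex : ∀ (i : I) (f : ∀ j, r j i → U), ∃ u ∈ A i, ∀ j h, f j h ≠ u := by
    intro i f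
    by_contra hn
    push Not at hn
    choose g h hg using hn
    have h1 : #(A i) ≤ #{j // r j i} := mk_le_of_injective (f := fun u => ⟨g u.1 u.2, h u.1 u.2⟩)
      fun u v huv => Subtype.ext (by
        have := congrArg (fun z : {j // r j i} => f z.1 z.2) huv
        simpa [hg] using this)
    have h2 : #{j // r j i} < #I := card_typein_lt i hr
    exact absurd (h2.trans_le (hI.trans ((hA i).trans h1))) (lt_irrefl _)
  choose F hF hF' using hex
  let t : I → U := wo.wf.fix F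
  have ht : ∀ i, t i = F i fun j _ => t j := fun i => wo.wf.fix_eq F i
  refine ⟨t, fun i j hij => ?_, fun i => ht i ▸ hF _ _⟩
  rcases trichotomous_of r i j with h | h | h
  · exact absurd (hij.trans (ht j)) (hF' j (fun j _ => t j) i h)
  · exact h
  · exact absurd (hij.symm.trans (ht i)) (hF' i (fun j _ => t j) j h)

variable {γ : Cardinal.{u}}

theorem mk_Iio_lt' (a : γ.ord.ToType) : #(Iio a) < γ := by
  simpa using Cardinal.mk_Iio_lt a

theorem bdd (hγ : γ.IsRegular) (s : Set γ.ord.ToType) (hs : #s < γ) : ∃ b, ∀ a ∈ s, a ≤ b := by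
  by_contra hn
  push Not at hn
  have : IsCofinal s := fun b => (hn b).imp fun a ha => ⟨ha.1, ha.2.le⟩
  have h := Order.cof_le this
  rw [Ordinal.cof_toType, hγ.cof_ord] at h
  exact absurd hs h.not_gt

theorem mk_Iic_lt (hγ : γ.IsRegular) (a : γ.ord.ToType) : #(Iic a) < γ := by
  have := Cardinal.noMaxOrder hγ.aleph0_le
  obtain ⟨b, hb⟩ := exists_gt a
  exact (mk_le_mk_of_subset (Iic_subset_Iio.2 hb)).trans_lt (mk_Iio_lt' b)

theorem tree' (hγ : γ.IsRegular) {K : Type u} (h : ChooseWins K γ.ord.ToType)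
    (e : K → γ.ord.ToType → Bool) (he : Function.Injective e) :
    ∃ x : (γ.ord.ToType → Bool) → K, Function.Injective x ∧
      ∀ s t c, (∀ b ≤ c, s b = t b) → e (x s) c = e (x t) c := by
  classical
  have := Cardinal.noMaxOrder hγ.aleph0_le
  obtain ⟨σ, hσ⟩ := win_of h
  obtain ⟨φ⟩ : Nonempty (γ.ord.ToType ≃ γ.ord.ToType × γ.ord.ToType) := by
    rw [← Cardinal.eq]
    simp [mul_eq_self hγ.aleph0_le]
  have hb : ∀ s : Set γ.ord.ToType, ∃ b, #s < γ → ∀ a ∈ s, a ≤ b := by
    intro s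
    by_cases hs : #s < γ
    · exact (bdd hγ s hs).imp fun b hb _ => hb
    · obtain ⟨b, -⟩ := bdd hγ ∅ (by simpa using hγ.pos)
      exact ⟨b, fun h => absurd h hs⟩
  choose ub hub using hb
  refine tree hσ (fun b => (φ b).1) (fun c a => ?_) ub
    (fun f c b hb => hub _ (mk_image_le.trans_lt (mk_Iio_lt' c)) _ ⟨b, hb, rfl⟩) e he
  by_contra hn
  push Not at hn
  have : #γ.ord.ToType ≤ #(Iic a) := mk_le_of_injective
    (f := fun d => ⟨φ.symm (c, d), not_lt.1 fun hlt => hn _ hlt (by simp)⟩)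
    fun d d' hd => by simpa using hd
  rw [mk_toType, card_ord] at this
  exact absurd (mk_Iic_lt hγ a) this.not_gt

theorem no_lt (hγ : γ.IsRegular) {K : Type u} (hK : #K < 2 ^ γ) :
    ¬ ChooseWins K γ.ord.ToType := by
  intro h
  have hc : #(γ.ord.ToType → Bool) = 2 ^ γ := by simp
  obtain ⟨e⟩ : Nonempty (K ↪ (γ.ord.ToType → Bool)) := by
    rw [← Cardinal.lift_mk_le', Cardinal.lift_id, Cardinal.lift_id, hc]
    exact hK.le
  obtain ⟨x, hx, -⟩ := tree' hγ h e e.injective
  exact absurd (hc ▸ mk_le_of_injective hx) hK.not_ge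

theorem no_eq (hγ : γ.IsRegular) {K : Type u} (hK : #K = 2 ^ γ) (hp : ∀ δ < γ, 2 ^ δ ≤ γ) :
    ¬ ChooseWins K γ.ord.ToType := by
  classical
  intro h
  have hc : #(γ.ord.ToType → Bool) = 2 ^ γ := by simp
  let N := Σ c : γ.ord.ToType, (Iic c → Bool)
  have hN : #N ≤ γ := by
    rw [mk_sigma]
    refine (sum_le_sum _ (fun _ => γ) fun c => ?_).trans (by simp [mul_eq_self hγ.aleph0_le])
    simpa using hp _ (mk_Iic_lt hγ c)
  let F : (N → Bool) → (γ.ord.ToType → Bool) → γ.ord.ToType → Bool :=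
    fun w s c => w ⟨c, fun b => s b⟩
  have h2 : ℵ₀ ≤ 2 ^ γ := hγ.aleph0_le.trans (cantor γ).le
  obtain ⟨t, ht, htA⟩ := sel (I := (N → Bool) ⊕ K) (κ := 2 ^ γ) (by
      rw [mk_sum, Cardinal.lift_id, Cardinal.lift_id, hK]
      refine (add_le_add (b := 2 ^ γ) ?_ le_rfl).trans (add_eq_self h2).le
      simpa using power_le_power_left two_ne_zero hN)
    (Sum.elim (fun w => if Function.Injective (F w) then range (F w) else univ) fun _ => univ)
    (by
      rintro (w | k)
      · simp only [Sum.elim_inl]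
        split_ifs with hw
        · rw [mk_range_eq _ hw, hc]
        · rw [mk_univ, hc]
      · simp only [Sum.elim_inr]
        rw [mk_univ, hc])
  have he : Function.Injective fun k => t (Sum.inr k) := ht.comp Sum.inr_injective
  obtain ⟨x, hx, hl⟩ := tree' hγ h _ he
  let w : N → Bool := fun n =>
    t (Sum.inr (x fun b => if h : b ≤ n.1 then n.2 ⟨b, h⟩ else true)) n.1
  have hw : ∀ s, F w s = t (Sum.inr (x s)) := fun s => funext fun c =>
    hl _ _ c fun b hb => dif_pos hb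
  have hwi : Function.Injective (F w) := fun s s' hs => hx (he (by simpa only [hw] using hs))
  have := htA (Sum.inl w)
  simp only [Sum.elim_inl, if_pos hwi] at this
  obtain ⟨s, hs⟩ := this
  exact Sum.inr_ne_inl (ht ((hw s).symm.trans hs))

theorem no_small {K : Type u} {δ : Cardinal.{u}} (hδ : δ < γ) (hK : #K ≤ 2 ^ δ) :
    ¬ ChooseWins K γ.ord.ToType := by
  classical
  intro h
  obtain ⟨σ, hσ⟩ := win_of h
  let a : γ.ord.ToType := Ordinal.ToType.mk ⟨δ.ord, ord_lt_ord.2 hδ⟩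
  have ha : #(Iio a) = δ := by
    have : typein (α := γ.ord.ToType) (· < ·) a = δ.ord := typein_enum _ _
    rw [← card_ord δ, ← this]
    rfl
  obtain ⟨e⟩ : Nonempty (K ↪ (Iio a → Bool)) := by
    rw [← Cardinal.lift_mk_le', Cardinal.lift_id, Cardinal.lift_id]
    simpa [ha] using hK
  let S : γ.ord.ToType → Set K := fun b => if h : b < a then {k | e k ⟨b, h⟩ = true} else univ
  obtain ⟨x, hx⟩ := (hσ S).2
  have hxa := mem_iInter.1 hx a
  refine (hσ S).1 a x (eq_singleton_iff_unique_mem.2 ⟨hxa, fun z hz => e.injective ?_⟩)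
  funext b
  have hz' : z ∈ Dset (ans σ S) a := by
    rcases ans_or σ S a with h | h <;> rw [h] at hz <;> exact hz.1
  have := ans_dec σ S b (mem_iInter₂.1 hz' b b.2) (mem_iInter.1 hx b)
  simp only [S, dif_pos (show b.1 < a from b.2)] at this
  exact Bool.eq_iff_iff.2 this

theorem main {κ : Cardinal.{u}} (hγ : γ.IsRegular)
    (h : κ = Order.succ γ ∨ κ < 2 ^ γ ∨ (κ = 2 ^ γ ∧ ∀ δ < γ, 2 ^ δ ≤ γ)) :
    ¬ ChooseWins κ.ord.ToType γ.ord.ToType := by
  have hK : #κ.ord.ToType = κ := by simp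
  rcases h with h | h | h
  · rcases (h ▸ Order.succ_le_of_lt (cantor γ) : κ ≤ 2 ^ γ).lt_or_eq with h' | h'
    · exact no_lt hγ (hK.symm ▸ h')
    · by_cases hp : ∀ δ < γ, 2 ^ δ ≤ γ
      · exact no_eq hγ (hK.trans h') hp
      · push Not at hp
        obtain ⟨δ, hδ, hδ'⟩ := hp
        exact no_small hδ (by rw [hK, h]; exact Order.succ_le_of_lt hδ')
  · exact no_lt hγ (hK.symm ▸ h)
  · exact no_eq hγ (hK.trans h.1) h.2

end Pool.Agent.H84.Cut
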