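import Mathlib

/-! The weak cut-and-choose game: points in `K`, rounds indexed by the well-order `G`. -/

namespace Pool.Agent.H84.CutDefs

open Set

universe u

variable {K G : Type u} [LinearOrder G]

/-- The set that Cut has to split in round `a`, given the answers `C` of Choose. -/
def Dset (C : G → Set K) (a : G) : Set K := ⋂ b ∈ Iio a, C b

/-- A strategy of Choose: in round `a` it sees the moves of Cut in the rounds `b ≤ a` and picks
the first (`true`) or the second (`false`) of the two sets just offered. -/
def Strat (K G : Type u) [LinearOrder G] : Type u :=
  (a : G) → (Iic a → Set K × Set K) → Bool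

/-- `(A a, B a)` are legal moves of Cut and `C a` are the answers given by the strategy. -/
def Play (σ : Strat K G) (A B C : G → Set K) : Prop :=
  ∀ a, Disjoint (A a) (B a) ∧ A a ∪ B a = Dset C a ∧
    C a = if σ a (fun b => (A b, B b)) = true then A a else B a

/-- Choose has a strategy such that in every play no answer is a singleton and the answers have
a common point. -/
def ChooseWins (K G : Type u) [LinearOrder G] : Prop :=
  ∃ σ : Strat K G, ∀ A B C : G → Set K, Play σ A B C →
    (∀ a x, C a ≠ {x}) ∧ (⋂ a, C a).Nonempty

end Pool.Agent.H84.CutDefs
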