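import Mathlib

set_option autoImplicit false

namespace Pool.Agent.H84.DDefs

universe u

/-- `d`-spaces (monotone convergence spaces); the specialization order is
`a ≤ b ↔ a ∈ closure {b}`. -/
def DSpace (Y : Type u) [TopologicalSpace Y] : Prop :=
  T0Space Y ∧ ∀ D : Set Y, D.Nonempty → DirectedOn (fun a b => a ∈ closure {b}) D →
    ∃ s : Y, (∀ d ∈ D, d ∈ closure {s}) ∧ (∀ t : Y, (∀ d ∈ D, d ∈ closure {t}) → s ∈ closure {t}) ∧
      ∀ U : Set Y, IsOpen U → s ∈ U → (D ∩ U).Nonempty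

/-- `μ : X → R` is a `d`-reflection of `X`. -/
def IsDReflection {X R : Type u} [TopologicalSpace X] [TopologicalSpace R] (μ : X → R) : Prop :=
  DSpace R ∧ Continuous μ ∧ ∀ (Y : Type u) [TopologicalSpace Y], DSpace Y →
    ∀ f : X → Y, Continuous f → ∃! g : R → Y, Continuous g ∧ g ∘ μ = f

end Pool.Agent.H84.DDefs
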