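import Mathlib

set_option autoImplicit false

namespace Pool.Agent.H84.Gen

open Set Topology Filter

variable {Y Z : Type*} [TopologicalSpace Y] [TopologicalSpace Z]

/-- `y` is a generic point of the closure of `A`. -/
def Gen (A : Set Y) (y : Y) : Prop := (∀ a ∈ A, y ⤳ a) ∧ y ∈ closure A

theorem gen_iff {A : Set Y} {y : Y} : Gen A y ↔ closure A = closure {y} := by
  constructor
  · rintro ⟨h1, h2⟩
    apply Subset.antisymm
    · exact closure_minimal (fun a ha => specializes_iff_mem_closure.1 (h1 a ha)) isClosed_closure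
    · exact closure_minimal (singleton_subset_iff.2 h2) isClosed_closure
  · intro h
    refine ⟨fun a ha => specializes_iff_mem_closure.2 (h ▸ subset_closure ha), ?_⟩
    rw [h]; exact subset_closure rfl

theorem Gen.spec {A : Set Y} {y z : Y} (h : Gen A y) (hz : z ∈ closure A) : y ⤳ z := by
  rw [gen_iff.1 h] at hz; exact specializes_iff_mem_closure.2 hz

theorem Gen.unique [T0Space Y] {A : Set Y} {y z : Y} (h : Gen A y) (h' : Gen A z) : y = z :=
  ((h.spec h'.2).antisymm (h'.spec h.2)).eq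

theorem Gen.image {A : Set Y} {y : Y} (h : Gen A y) {f : Y → Z} (hf : Continuous f) :
    Gen (f '' A) (f y) := by
  refine ⟨?_, image_closure_subset_closure_image hf ⟨y, h.2, rfl⟩⟩
  rintro _ ⟨a, ha, rfl⟩
  exact (h.1 a ha).map hf

theorem gen_of_inducing {A : Set Y} {y : Y} {f : Y → Z} (hf : IsInducing f)
    (h : Gen (f '' A) (f y)) : Gen A y := by
  refine ⟨fun a ha => hf.specializes_iff.1 (h.1 _ ⟨a, ha, rfl⟩), ?_⟩
  rw [hf.closure_eq_preimage_closure_image]; exact h.2

theorem Gen.mem_open {A : Set Y} {y : Y} (h : Gen A y) {U : Set Y} (hU : IsOpen U) :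
    y ∈ U ↔ (A ∩ U).Nonempty := by
  constructor
  · intro hy
    obtain ⟨a, ha, hb⟩ := mem_closure_iff.1 h.2 U hU hy
    exact ⟨a, hb, ha⟩
  · rintro ⟨a, ha, hb⟩
    exact (h.1 a ha).mem_open hU hb

theorem exists_unique_of_gen [T0Space Y] {A : Set Y} (h : ∃ y, Gen A y) :
    ∃! y, closure A = closure {y} := by
  obtain ⟨y, hy⟩ := h
  exact ⟨y, gen_iff.1 hy, fun z hz => (gen_iff.2 hz).unique hy⟩

theorem gen_of_sober [QuasiSober Y] {A : Set Y} (h : IsIrreducible A) : ∃ y, Gen A y :=
  ⟨h.genericPoint, gen_iff.2 (h.genericPoint_closure_eq).symm⟩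

theorem gen_singleton (y : Y) : Gen {y} y :=
  ⟨fun a ha => by rw [mem_singleton_iff.1 ha], subset_closure rfl⟩

theorem gen_closure {A : Set Y} {y : Y} : Gen (closure A) y ↔ Gen A y := by
  rw [gen_iff, gen_iff, closure_closure]

end Pool.Agent.H84.Gen
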