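import Mathlib
import Pool.Agent.H84.DDefs
import Pool.Agent.H84.Gen

set_option autoImplicit false

namespace Pool.Agent.H84.DProd

open Set Topology Filter Pool.Agent.H84.Gen Pool.Agent.H84.DDefs

universe u

theorem dspace_iff {Y : Type u} [TopologicalSpace Y] : DSpace Y ↔
    T0Space Y ∧ ∀ D : Set Y, D.Nonempty → DirectedOn (fun a b => b ⤳ a) D → ∃ s, Gen D s := by
  refine and_congr_right fun _ => forall_congr' fun D => forall_congr' fun _ => ?_
  simp only [← specializes_iff_mem_closure]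
  refine forall_congr' fun _ => exists_congr fun s => ⟨fun h => ⟨h.1, mem_closure_iff.2 fun U hU hs => ?_⟩,
    fun h => ⟨h.1, fun t ht => ?_, fun U hU hs => (h.mem_open hU).1 hs⟩⟩
  · rw [inter_comm]; exact h.2.2 U hU hs
  · exact specializes_iff_mem_closure.2 (closure_minimal
      (fun d hd => specializes_iff_mem_closure.1 (ht d hd)) isClosed_closure h.2)

theorem dspace_sub {Y : Type u} [TopologicalSpace Y] (hY : DSpace Y) {S : Set Y}
    (h : ∀ D ⊆ S, D.Nonempty → DirectedOn (fun a b => b ⤳ a) D → ∀ s, Gen D s → s ∈ S) :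
    DSpace S := by
  rw [dspace_iff] at hY ⊢
  have := hY.1
  refine ⟨inferInstance, fun D hne hd => ?_⟩
  have hd' : DirectedOn (fun a b : Y => b ⤳ a) (Subtype.val '' D) := by
    rintro _ ⟨a, ha, rfl⟩ _ ⟨b, hb, rfl⟩
    obtain ⟨c, hc, h1, h2⟩ := hd a ha b hb
    exact ⟨c, ⟨c, hc, rfl⟩, h1.map continuous_subtype_val, h2.map continuous_subtype_val⟩
  obtain ⟨s, hs⟩ := hY.2 _ (hne.image _) hd'
  exact ⟨⟨s, h _ (by rintro _ ⟨a, _, rfl⟩; exact a.2) (hne.image _) hd' s hs⟩,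
    gen_of_inducing (f := (Subtype.val : S → Y)) IsInducing.subtypeVal hs⟩

theorem dspace_sober {Y : Type u} [TopologicalSpace Y] [T0Space Y] [QuasiSober Y] : DSpace Y := by
  rw [dspace_iff]
  refine ⟨inferInstance, fun D hne hd => gen_of_sober ⟨hne, ?_⟩⟩
  rintro u v hu hv ⟨a, ha, hau⟩ ⟨b, hb, hbv⟩
  obtain ⟨c, hc, h1, h2⟩ := hd a ha b hb
  exact ⟨c, hc, h1.mem_open hu hau, h2.mem_open hv hbv⟩

theorem dspace_prop : DSpace (ULift.{u} Prop) := by
  rw [dspace_iff]
  refine ⟨inferInstance, fun D hne _ => ?_⟩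
  have key : ∀ a b : ULift.{u} Prop, (b.down → a.down) → a ⤳ b := fun a b h =>
    (Homeomorph.ulift.isInducing.specializes_iff).1 (by
      rw [specializes_iff_forall_open]
      intro s hs hb
      by_cases ha : a.down
      · by_cases hb' : b.down
        · have : a = b := ULift.ext _ _ (propext ⟨fun _ => hb', fun _ => ha⟩)
          rwa [this]
        · have h1 : Homeomorph.ulift b = False := eq_false hb'
          have h2 : Homeomorph.ulift a = True := eq_true ha
          rw [h1] at hb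
          rw [h2]
          have h3 : ∀ t : Set Prop, TopologicalSpace.GenerateOpen {{True}} t → False ∈ t → True ∈ t := by
            intro t ht
            induction ht with
            | basic t ht => rw [mem_singleton_iff.1 ht]; intro _; rfl
            | univ => intro _; trivial
            | inter s t _ _ h1 h2 => intro h; exact ⟨h1 h.1, h2 h.2⟩
            | sUnion S _ ih => rintro ⟨t, ht, h⟩; exact ⟨t, ht, ih t ht h⟩
          exact h3 s hs hb
      · have : a = b := ULift.ext _ _ (propext ⟨fun h' => absurd h' ha, h⟩)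
        rwa [this])
  by_cases h : ∃ a ∈ D, a.down
  · obtain ⟨a, ha, h⟩ := h
    exact ⟨a, fun b _ => key a b fun _ => h, subset_closure ha⟩
  · obtain ⟨a, ha⟩ := hne
    exact ⟨a, fun b hb => key a b fun h' => absurd ⟨b, hb, h'⟩ h, subset_closure ha⟩

section one

variable {X R : Type u} [TopologicalSpace X] [TopologicalSpace R] {η : X → R}

theorem refl_ind (h : IsDReflection η) {S : Set R} (h1 : ∀ x, η x ∈ S)
    (h2 : ∀ D ⊆ S, D.Nonempty → DirectedOn (fun a b => b ⤳ a) D → ∀ s, Gen D s → s ∈ S) (r : R) :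
    r ∈ S := by
  obtain ⟨g, ⟨hg, hge⟩, -⟩ := h.2.2 S (dspace_sub h.1 h2) (fun x => ⟨η x, h1 x⟩)
    (h.2.1.subtype_mk _)
  obtain ⟨k, -, hk⟩ := h.2.2 R h.1 η h.2.1
  have h3 : Subtype.val ∘ g = k := hk _ ⟨continuous_subtype_val.comp hg, by
    rw [Function.comp_assoc, hge]; rfl⟩
  have h4 : id = k := hk _ ⟨continuous_id, rfl⟩
  have h5 : (g r).1 = r := congrFun (h3.trans h4.symm) r
  rw [← h5]; exact (g r).2

theorem refl_dense (h : IsDReflection η) (r : R) (U : Set R) (hU : IsOpen U) (hr : r ∈ U) :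
    ∃ x, η x ∈ U ∧ r ⤳ η x := by
  refine refl_ind h (S := {r | ∀ U, IsOpen U → r ∈ U → ∃ x, η x ∈ U ∧ r ⤳ η x})
    (fun x U _ hx => ⟨x, hx, specializes_rfl⟩) (fun D hD _ _ s hs U hU hsU => ?_) r U hU hr
  obtain ⟨d, hd, hdU⟩ := (hs.mem_open hU).1 hsU
  obtain ⟨x, h1, h2⟩ := hD hd U hU hdU
  exact ⟨x, h1, (hs.1 d hd).trans h2⟩

theorem refl_open (h : IsDReflection η) {V : Set X} (hV : IsOpen V) :
    ∃ U : Set R, IsOpen U ∧ η ⁻¹' U = V := by
  obtain ⟨g, ⟨hg, hge⟩, -⟩ := h.2.2 (ULift.{u} Prop) dspace_prop (fun x => ⟨x ∈ V⟩)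
    (continuous_uliftUp.comp (isOpen_iff_continuous_mem.1 hV))
  refine ⟨{r | (g r).down}, isOpen_iff_continuous_mem.2 (continuous_uliftDown.comp hg), ?_⟩
  ext x
  show (g (η x)).down ↔ x ∈ V
  rw [show g (η x) = ⟨x ∈ V⟩ from congrFun hge x]

end one

variable {I : Type u} {X R : I → Type u} [∀ i, TopologicalSpace (X i)]
  [∀ i, TopologicalSpace (R i)] {η : ∀ i, X i → R i}

theorem gen_pi_directed {D : Set (∀ i, R i)} (hne : D.Nonempty)
    (hd : DirectedOn (fun a b => b ⤳ a) D) {s : ∀ i, R i}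
    (h : ∀ i, Gen ((fun r => r i) '' D) (s i)) : Gen D s := by
  classical
  refine ⟨fun d hd => specializes_pi.2 fun i => (h i).1 _ ⟨d, hd, rfl⟩,
    mem_closure_iff.2 fun U hU hs => ?_⟩
  obtain ⟨F, V, h1, h2⟩ := isOpen_pi_iff.1 hU s hs
  have key : ∀ G : Finset I, G ⊆ F → ∃ d ∈ D, ∀ i ∈ G, d i ∈ V i := by
    intro G
    induction G using Finset.induction_on with
    | empty => intro _; obtain ⟨d, hd⟩ := hne; exact ⟨d, hd, by simp⟩
    | insert j G _ ih =>
      intro hG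
      obtain ⟨d, hd1, hd2⟩ := ih ((Finset.subset_insert _ _).trans hG)
      have hj := h1 j (hG (Finset.mem_insert_self _ _))
      obtain ⟨_, ⟨e, he, rfl⟩, he2⟩ := ((h j).mem_open hj.1).1 hj.2
      obtain ⟨c, hc, h3, h4⟩ := hd d hd1 e he
      refine ⟨c, hc, fun i hi => ?_⟩
      rcases Finset.mem_insert.1 hi with rfl | hi'
      · exact (specializes_pi.1 h4 i).mem_open hj.1 he2
      · exact (specializes_pi.1 h3 i).mem_open (h1 i (hG hi)).1 (hd2 i hi')
  obtain ⟨d, hd1, hd2⟩ := key F (Finset.Subset.refl _)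
  exact ⟨d, h2 fun i hi => hd2 i hi, hd1⟩

theorem dspace_pi (h : ∀ i, DSpace (R i)) : DSpace (∀ i, R i) := by
  have := fun i => (h i).1
  rw [dspace_iff]
  refine ⟨inferInstance, fun D hne hd => ?_⟩
  have h1 : ∀ i, ∃ s, Gen ((fun r => r i) '' D) s := fun i =>
    (dspace_iff.1 (h i)).2 _ (hne.image _) (by
      rintro _ ⟨a, ha, rfl⟩ _ ⟨b, hb, rfl⟩
      obtain ⟨c, hc, h1, h2⟩ := hd a ha b hb
      exact ⟨c i, ⟨c, hc, rfl⟩, specializes_pi.1 h1 i, specializes_pi.1 h2 i⟩)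
  choose s hs using h1
  exact ⟨s, gen_pi_directed hne hd hs⟩

/-- points of the product below a point of the product of the reflections -/
def A (η : ∀ i, X i → R i) (r : ∀ i, R i) : Set (∀ i, X i) := {x | ∀ i, r i ⤳ η i (x i)}

theorem open_A (h : ∀ i, IsDReflection (η i)) {V : Set (∀ i, X i)} (hV : IsOpen V) :
    IsOpen {r | (A η r ∩ V).Nonempty} := by
  classical
  rw [isOpen_pi_iff]
  rintro r ⟨x, hx, hxV⟩
  obtain ⟨F, W, h1, h2⟩ := isOpen_pi_iff.1 hV x hxV
  have h3 : ∀ i, ∃ U : Set (R i), IsOpen U ∧ (i ∈ F → η i ⁻¹' U = W i) := by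
    intro i
    by_cases hi : i ∈ F
    · obtain ⟨U, hU, h4⟩ := refl_open (h i) (h1 i hi).1
      exact ⟨U, hU, fun _ => h4⟩
    · exact ⟨univ, isOpen_univ, fun h => absurd h hi⟩
  choose U hU hUW using h3
  refine ⟨F, U, fun i hi => ⟨hU i, (hx i).mem_open (hU i) ?_⟩, fun r' hr' => ?_⟩
  · have := (h1 i hi).2
    rw [← hUW i hi] at this
    exact this
  · have h4 : ∀ i, ∃ y : X i, (i ∈ F → y ∈ W i) ∧ r' i ⤳ η i y := by
      intro i
      by_cases hi : i ∈ F
      · obtain ⟨y, h5, h6⟩ := refl_dense (h i) (r' i) (U i) (hU i) (hr' i hi)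
        exact ⟨y, fun _ => by rw [← hUW i hi]; exact h5, h6⟩
      · obtain ⟨y, -, h6⟩ := refl_dense (h i) (r' i) univ isOpen_univ trivial
        exact ⟨y, fun h => absurd h hi, h6⟩
    choose y hy1 hy2 using h4
    exact ⟨y, hy2, h2 fun i hi => hy1 i hi⟩

theorem gen_eta (h : ∀ i, IsDReflection (η i)) (x : ∀ i, X i) :
    Gen (A η fun i => η i (x i)) x := by
  refine ⟨fun y hy => specializes_pi.2 fun i => specializes_iff_forall_open.2 fun V hV hyV => ?_,
    subset_closure fun i => specializes_rfl⟩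
  obtain ⟨U, hU, rfl⟩ := refl_open (h i) hV
  exact (hy i).mem_open hU hyV

theorem gen_A (h : ∀ i, IsDReflection (η i)) (r : ∀ i, R i) :
    Gen ((fun (x : ∀ i, X i) i => η i (x i)) '' A η r) r := by
  classical
  refine ⟨?_, mem_closure_iff.2 fun U hU hr => ?_⟩
  · rintro _ ⟨x, hx, rfl⟩; exact specializes_pi.2 hx
  · obtain ⟨F, W, h1, h2⟩ := isOpen_pi_iff.1 hU r hr
    have h4 : ∀ i, ∃ y : X i, (i ∈ F → η i y ∈ W i) ∧ r i ⤳ η i y := by
      intro i
      by_cases hi : i ∈ F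
      · obtain ⟨y, h5, h6⟩ := refl_dense (h i) (r i) (W i) (h1 i hi).1 (h1 i hi).2
        exact ⟨y, fun _ => h5, h6⟩
      · obtain ⟨y, -, h6⟩ := refl_dense (h i) (r i) univ isOpen_univ trivial
        exact ⟨y, fun h => absurd h hi, h6⟩
    choose y hy1 hy2 using h4
    exact ⟨_, h2 fun i hi => hy1 i hi, y, hy2, rfl⟩

theorem exists_gen (h : ∀ i, IsDReflection (η i)) {Y : Type u} [TopologicalSpace Y]
    (hY : DSpace Y) {f : (∀ i, X i) → Y} (hf : Continuous f) (r : ∀ i, R i) :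
    ∃ y, Gen (f '' A η r) y := by
  classical
  let S : Set (∀ i, R i) := {r | ∃ y, Gen (f '' A η r) y}
  have hmono : ∀ {r r' : ∀ i, R i}, r' ⤳ r → A η r ⊆ A η r' := fun hr x hx i =>
    (specializes_pi.1 hr i).trans (hx i)
  have hS : ∀ D ⊆ S, D.Nonempty → DirectedOn (fun a b => b ⤳ a) D → ∀ s, Gen D s → s ∈ S := by
    intro D hD hne hd s hs
    obtain ⟨y, hy⟩ := (dspace_iff.1 hY).2 {y | ∃ d ∈ D, Gen (f '' A η d) y}
      (by obtain ⟨d, hd⟩ := hne; obtain ⟨y, hy⟩ := hD hd; exact ⟨y, d, hd, hy⟩)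
      (by
        rintro a ⟨d, hd1, ha⟩ b ⟨e, he1, hb⟩
        obtain ⟨c, hc, h1, h2⟩ := hd d hd1 e he1
        obtain ⟨z, hz⟩ := hD hc
        exact ⟨z, ⟨c, hc, hz⟩, hz.spec (closure_mono (image_mono (hmono h1)) ha.2),
          hz.spec (closure_mono (image_mono (hmono h2)) hb.2)⟩)
    refine ⟨y, ?_, closure_minimal ?_ isClosed_closure hy.2⟩
    · rintro _ ⟨x, hx, rfl⟩
      refine specializes_iff_forall_open.2 fun U hU hxU => ?_
      obtain ⟨d, hd1, w, hw, hwU⟩ := (hs.mem_open (open_A h (hU.preimage hf))).1 ⟨x, hx, hxU⟩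
      obtain ⟨z, hz⟩ := hD hd1
      exact (hy.1 z ⟨d, hd1, hz⟩).mem_open hU ((hz.mem_open hU).2 ⟨f w, ⟨w, hw, rfl⟩, hwU⟩)
    · rintro z ⟨d, hd1, hz⟩
      exact closure_mono (image_mono (hmono (hs.1 d hd1))) hz.2
  have h1 : ∀ F : Finset I, ∀ a : ∀ i, X i, F.piecewise r (fun i => η i (a i)) ∈ S := by
    intro F
    induction F using Finset.induction_on with
    | empty => intro a; rw [Finset.piecewise_empty]; exact ⟨f a, (gen_eta h a).image hf⟩
    | insert j F hj ih =>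
      intro a
      rw [Finset.piecewise_insert]
      have hc : Continuous (Function.update (F.piecewise r fun i => η i (a i)) j) :=
        continuous_const.update j continuous_id
      refine refl_ind (h j) (S := Function.update (F.piecewise r fun i => η i (a i)) j ⁻¹' S)
        (fun x => ?_) (fun D hD hne hd s hs => hS _ (image_subset_iff.2 hD) (hne.image _) ?_ _
          (hs.image hc)) (r j)
      · have h2 := ih (Function.update a j x)
        show Function.update (F.piecewise r fun i => η i (a i)) j (η j x) ∈ S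
        convert h2 using 1
        funext i
        by_cases hi : i = j
        · subst hi
          rw [Function.update_self, Finset.piecewise_eq_of_notMem _ _ _ hj, Function.update_self]
        · rw [Function.update_of_ne hi]
          by_cases hiF : i ∈ F
          · rw [Finset.piecewise_eq_of_mem _ _ _ hiF, Finset.piecewise_eq_of_mem _ _ _ hiF]
          · rw [Finset.piecewise_eq_of_notMem _ _ _ hiF, Finset.piecewise_eq_of_notMem _ _ _ hiF,
              Function.update_of_ne hi]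
      · rintro _ ⟨p, hp, rfl⟩ _ ⟨q, hq, rfl⟩
        obtain ⟨c, hc', h3, h4⟩ := hd p hp q hq
        exact ⟨_, ⟨c, hc', rfl⟩, h3.map hc, h4.map hc⟩
  have h2 : ∀ i, ∃ y : X i, r i ⤳ η i y := fun i => by
    obtain ⟨y, -, h6⟩ := refl_dense (h i) (r i) univ isOpen_univ trivial
    exact ⟨y, h6⟩
  choose a ha using h2
  have h3 : ∀ F G : Finset I, F ⊆ G →
      G.piecewise r (fun i => η i (a i)) ⤳ F.piecewise r (fun i => η i (a i)) := by
    intro F G hFG
    refine specializes_pi.2 fun i => ?_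
    by_cases hi : i ∈ F
    · rw [Finset.piecewise_eq_of_mem _ _ _ hi, Finset.piecewise_eq_of_mem _ _ _ (hFG hi)]
    · rw [Finset.piecewise_eq_of_notMem _ _ _ hi]
      by_cases hi' : i ∈ G
      · rw [Finset.piecewise_eq_of_mem _ _ _ hi']; exact ha i
      · rw [Finset.piecewise_eq_of_notMem _ _ _ hi']
  have h4 : DirectedOn (fun a b => b ⤳ a)
      (range fun F : Finset I => F.piecewise r fun i => η i (a i)) := by
    rintro _ ⟨F, rfl⟩ _ ⟨G, rfl⟩
    exact ⟨_, ⟨F ∪ G, rfl⟩, h3 _ _ Finset.subset_union_left, h3 _ _ Finset.subset_union_right⟩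
  refine hS _ (by rintro _ ⟨F, rfl⟩; exact h1 F a) (range_nonempty _) h4 r
    (gen_pi_directed (range_nonempty _) h4 fun i => ⟨?_, subset_closure ⟨_, ⟨{i}, rfl⟩, ?_⟩⟩)
  · rintro _ ⟨_, ⟨F, rfl⟩, rfl⟩
    by_cases hi : i ∈ F
    · simp only [Finset.piecewise_eq_of_mem _ _ _ hi]; exact specializes_rfl
    · simp only [Finset.piecewise_eq_of_notMem _ _ _ hi]; exact ha i
  · exact Finset.piecewise_eq_of_mem _ _ _ (Finset.mem_singleton_self i)

theorem prod_refl (h : ∀ i, IsDReflection (η i)) :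
    IsDReflection (fun (x : ∀ i, X i) i => η i (x i)) := by
  refine ⟨dspace_pi fun i => (h i).1,
    continuous_pi fun i => (h i).2.1.comp (continuous_apply i), fun Y _ hY f hf => ?_⟩
  have := hY.1
  choose g hg using exists_gen h hY hf
  refine ⟨g, ⟨⟨fun U hU => ?_⟩, funext fun x => (hg _).unique ((gen_eta h x).image hf)⟩, ?_⟩
  · convert open_A h (hU.preimage hf) using 1
    ext r
    rw [mem_preimage, (hg r).mem_open hU]
    constructor
    · rintro ⟨_, ⟨x, hx, rfl⟩, h2⟩; exact ⟨x, hx, h2⟩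
    · rintro ⟨x, hx, h2⟩; exact ⟨f x, ⟨x, hx, rfl⟩, h2⟩
  · rintro k ⟨hk, he⟩
    funext r
    have h2 := (gen_A h r).image hk
    rw [← image_comp, he] at h2
    exact h2.unique (hg r)

theorem refl_unique {W Z Z' : Type u} [TopologicalSpace W] [TopologicalSpace Z]
    [TopologicalSpace Z'] {μ : W → Z} {ν : W → Z'} (h : IsDReflection μ) (h' : IsDReflection ν) :
    ∃ e : Z ≃ₜ Z', ∀ x, e (μ x) = ν x := by
  obtain ⟨a, ⟨ha, hae⟩, -⟩ := h.2.2 Z' h'.1 ν h'.2.1
  obtain ⟨b, ⟨hb, hbe⟩, -⟩ := h'.2.2 Z h.1 μ h.2.1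
  obtain ⟨c, -, hc⟩ := h.2.2 Z h.1 μ h.2.1
  obtain ⟨c', -, hc'⟩ := h'.2.2 Z' h'.1 ν h'.2.1
  have h1 : b ∘ a = id := (hc _ ⟨hb.comp ha, by rw [Function.comp_assoc, hae, hbe]⟩).trans
    (hc _ ⟨continuous_id, rfl⟩).symm
  have h2 : a ∘ b = id := (hc' _ ⟨ha.comp hb, by rw [Function.comp_assoc, hbe, hae]⟩).trans
    (hc' _ ⟨continuous_id, rfl⟩).symm
  exact ⟨⟨⟨a, b, congrFun h1, congrFun h2⟩, ha, hb⟩, congrFun hae⟩

end Pool.Agent.H84.DProd
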