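import Pool.Agent.H51.LebN
import Pool.Agent.H84.NCard

/-! Essential families of the Hilbert cube and a Baire-one function whose graph meets every
closed set projecting onto the Cantor set. -/

namespace Pool.Agent.H84.DimA

open Set Topology Filter unitInterval

abbrev C := ℕ → Bool
abbrev Q := ℕ × ℕ → I

instance : Uncountable C := by
  rw [← Cardinal.aleph0_lt_mk_iff]
  simp [Cardinal.aleph0_lt_continuum]

theorem mirandaInf (h : Q → ℕ × ℕ → ℝ) (hc : ∀ j, Continuous fun x => h x j)
    (h0 : ∀ x j, x j = 0 → h x j ≤ 0) (h1 : ∀ x j, x j = 1 → 0 ≤ h x j) :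
    ∃ x, ∀ j, h x j = 0 := by
  classical
  have key : ∀ s : Finset (ℕ × ℕ), ∃ x : Q, ∀ j ∈ s, h x j = 0 := by
    intro s
    let e := s.equivFin
    let ext : (Fin s.card → ℝ) → Q := fun y j =>
      if hj : j ∈ s then projIcc 0 1 zero_le_one (y (e ⟨j, hj⟩)) else 0
    have hext : Continuous ext := by
      refine continuous_pi fun j => ?_
      by_cases hj : j ∈ s
      · simp only [ext, hj, dif_pos]
        exact continuous_projIcc.comp (continuous_apply _)
      · simp only [ext, hj, dif_neg, not_false_eq_true]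
        exact continuous_const
    have hval : ∀ y i, ext y (e.symm i).1 = projIcc 0 1 zero_le_one (y i) := by
      intro y i
      simp [ext, (e.symm i).2]
    obtain ⟨y, -, hy⟩ := Pool.Agent.H51.LebN.miranda s.card 1 one_pos
      (fun y i => h (ext y) (e.symm i).1)
      (continuous_pi fun i => (hc _).comp hext)
      (fun y i hy => h0 _ _ (by rw [hval, hy]; simp))
      (fun y i hy => h1 _ _ (by rw [hval, hy]; simp))
    refine ⟨ext y, fun j hj => ?_⟩
    have := congrFun hy (e ⟨j, hj⟩)
    simpa using this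
  by_contra hne
  push Not at hne
  obtain ⟨t, ht⟩ := isCompact_univ.elim_finite_subcover (fun j => {x : Q | h x j ≠ 0})
    (fun j => isOpen_ne_fun (hc j) continuous_const) (fun x _ => mem_iUnion.2 (hne x))
  obtain ⟨x, hx⟩ := key t
  obtain ⟨j, hj, hxj⟩ := mem_iUnion₂.1 (ht (mem_univ x))
  exact hxj (hx j hj)

theorem exists_emb : ∃ e : C → ℝ, IsClosedEmbedding e ∧ ∀ x, e x ∈ Icc (0 : ℝ) 1 := by
  refine ⟨fun x => (cantorSetHomeomorphNatToBool.symm x : ℝ), ?_, fun x =>
    cantorSet_subset_unitInterval (cantorSetHomeomorphNatToBool.symm x).2⟩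
  exact isClosed_cantorSet.isClosedEmbedding_subtypeVal.comp
    cantorSetHomeomorphNatToBool.symm.isClosedEmbedding

theorem exists_curve : ∃ g : ℝ → Q, Continuous g ∧ ∀ q, ∃ z ∈ Icc (0 : ℝ) 1, g z = q := by
  obtain ⟨e, he, he1⟩ := exists_emb
  obtain ⟨f, hf, hs⟩ : ∃ f : C → Q, Continuous f ∧ Function.Surjective f := by
    let := TopologicalSpace.metrizableSpaceMetric Q
    exact exists_nat_bool_continuous_surjective_of_compact Q
  let f' : C(C, ℕ × ℕ → ℝ) := ⟨fun x j => (f x j : ℝ), by fun_prop⟩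
  obtain ⟨g, hg⟩ := f'.exists_extension' he
  refine ⟨fun z j => projIcc 0 1 zero_le_one (g z j), ?_, fun q => ?_⟩
  · exact continuous_pi fun j => continuous_projIcc.comp ((continuous_apply j).comp g.continuous)
  · obtain ⟨x, rfl⟩ := hs q
    refine ⟨e x, he1 x, funext fun j => ?_⟩
    have : g (e x) = f' x := congrFun hg x
    dsimp only
    rw [this]
    exact projIcc_val zero_le_one _

/-- running maximum -/
noncomputable def sn (r : ℕ → ℝ) (x : C) : ℕ → ℝ
  | 0 => 0
  | n + 1 => if x n then max (sn r x n) (r n) else sn r x n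

theorem sn_mono (r : ℕ → ℝ) (x : C) : Monotone (sn r x) := by
  refine monotone_nat_of_le_succ fun n => ?_
  simp only [sn]
  split_ifs
  · exact le_max_left _ _
  · exact le_rfl

theorem sn_congr (r : ℕ → ℝ) {x y : C} (n : ℕ) (h : ∀ i < n, x i = y i) : sn r x n = sn r y n := by
  induction n with
  | zero => rfl
  | succ n ih =>
    simp only [sn]
    rw [ih fun i hi => h i (by omega), h n (by omega)]

theorem exists_r : ∃ r : ℕ → ℝ, (∀ n, r n ≤ 1) ∧ (∀ n, r (2 * n + 1) = 0) ∧
    ∀ a b : ℝ, a < b → 0 ≤ b → b ≤ 1 → ∀ N, ∃ n, N ≤ n ∧ a < r (2 * n) ∧ r (2 * n) ≤ b := by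
  obtain ⟨q, hq⟩ := exists_surjective_nat ℚ
  refine ⟨fun n => if n % 2 = 0 then max 0 (min 1 (q (n / 2).unpair.1)) else 0, fun n => ?_,
    fun n => ?_, fun a b hab hb0 hb1 N => ?_⟩
  · dsimp only
    split_ifs
    · exact max_le zero_le_one (min_le_left _ _)
    · exact zero_le_one
  · have : (2 * n + 1) % 2 ≠ 0 := by omega
    simp only [this, if_false]
  · obtain ⟨t, ht1, ht2⟩ := exists_rat_btwn hab
    obtain ⟨k, rfl⟩ := hq t
    refine ⟨Nat.pair k N, Nat.right_le_pair _ _, ?_, ?_⟩
    all_goals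
      have h1 : (2 * Nat.pair k N) % 2 = 0 := by omega
      have h2 : (2 * Nat.pair k N) / 2 = Nat.pair k N := by omega
      simp only [h1, h2, if_true, Nat.unpair_pair]
    · exact lt_max_of_lt_right (lt_min (hab.trans_le hb1) ht1)
    · exact max_le hb0 ((min_le_right _ _).trans ht2.le)

theorem exists_rich : ∃ (ψ : C → ℕ → Q) (φ : C → Q),
    (∀ x y n, (∀ i < n, x i = y i) → ψ x n = ψ y n) ∧
    (∀ x, Tendsto (ψ x) atTop (𝓝 (φ x))) ∧
    ∀ L : Set (C × Q), IsClosed L → (∀ x, ∃ q, (x, q) ∈ L) → ¬ {x | (x, φ x) ∈ L}.Countable := by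
  classical
  obtain ⟨g, hg, hgs⟩ := exists_curve
  obtain ⟨r, hr1, hr0, hrd⟩ := exists_r
  have hb : ∀ x n, sn r x n ≤ 1 := by
    intro x n
    induction n with
    | zero => exact zero_le_one
    | succ n ih =>
      simp only [sn]
      split_ifs
      · exact max_le ih (hr1 n)
      · exact ih
  have hbdd : ∀ x, BddAbove (range (sn r x)) := fun x => ⟨1, by rintro _ ⟨n, rfl⟩; exact hb x n⟩
  have hlim : ∀ x, Tendsto (sn r x) atTop (𝓝 (⨆ n, sn r x n)) := fun x =>
    tendsto_atTop_ciSup (sn_mono r x) (hbdd x)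
  refine ⟨fun x n => g (sn r x n), fun x => g (⨆ n, sn r x n), fun x y n h => by
    simp only [sn_congr r n h], fun x => (hg.tendsto _).comp (hlim x), fun L hL hLs => ?_⟩
  let S : C → ℕ → Set ℝ := fun x n =>
    {z | z ∈ Icc (0 : ℝ) 1 ∧ ∃ x' : C, (∀ i < n, x' i = x i) ∧ (x', g z) ∈ L}
  have hSne : ∀ x n, (S x n).Nonempty := by
    intro x n
    obtain ⟨q, hq⟩ := hLs x
    obtain ⟨z, hz, rfl⟩ := hgs q
    exact ⟨z, hz, x, fun _ _ => rfl, hq⟩
  have hSb : ∀ x n, BddBelow (S x n) := fun x n => ⟨0, fun z hz => hz.1.1⟩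
  let m : C → ℕ → ℝ := fun x n => sInf (S x n)
  have hm0 : ∀ x n, 0 ≤ m x n := fun x n => le_csInf (hSne x n) fun z hz => hz.1.1
  have hm1 : ∀ x n, m x n ≤ 1 := fun x n => by
    obtain ⟨z, hz⟩ := hSne x n
    exact (csInf_le (hSb x n) hz).trans hz.1.2
  have hmm : ∀ x, Monotone (m x) := fun x a b hab =>
    csInf_le_csInf (hSb x a) (hSne x b) fun z ⟨h1, x', h2, h3⟩ =>
      ⟨h1, x', fun i hi => h2 i (hi.trans_le hab), h3⟩
  have key : ∀ y : C, ∃ x : C, (∀ n, x (2 * n + 1) = y n) ∧ (x, g (⨆ n, sn r x n)) ∈ L := by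
    intro y
    have hcong : ∀ n (f f' : C), (∀ i < n, f i = f' i) → m f n = m f' n := by
      intro n f f' h
      have : S f n = S f' n := by
        ext z
        refine and_congr_right fun _ => exists_congr fun x' => and_congr_left fun _ => ?_
        exact forall₂_congr fun i hi => by rw [h i hi]
      simp only [m, this]
    let Φ : ℕ → C → Bool := fun n f => if n % 2 = 0 then decide (r n ≤ m f n) else y (n / 2)
    obtain ⟨x, hx⟩ : ∃ x : C, ∀ n, x n = Φ n x := by
      refine NCard.exists_rec false Φ fun n f f' h => ?_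
      simp only [Φ]
      rw [hcong n f f' h]
    have hodd : ∀ n, x (2 * n + 1) = y n := by
      intro n
      have h1 : (2 * n + 1) % 2 ≠ 0 := by omega
      have h2 : (2 * n + 1) / 2 = n := by omega
      rw [hx]; simp only [Φ, h1, h2, if_false]
    have hle : ∀ n, sn r x n ≤ m x n := by
      intro n
      induction n with
      | zero => exact hm0 x 0
      | succ n ih =>
        have h1 := hmm x (Nat.le_succ n)
        simp only [sn]
        split_ifs with h
        · refine max_le (ih.trans h1) ?_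
          rcases Nat.even_or_odd' n with ⟨k, rfl | rfl⟩
          · have h2 : (2 * k) % 2 = 0 := by omega
            rw [hx] at h
            simp only [Φ, h2, if_true, decide_eq_true_eq] at h
            exact h.trans h1
          · rw [hr0]; exact hm0 _ _
        · exact ih.trans h1
    have hmb : BddAbove (range (m x)) := ⟨1, by rintro _ ⟨n, rfl⟩; exact hm1 x n⟩
    have hmlim : Tendsto (m x) atTop (𝓝 (⨆ n, m x n)) := tendsto_atTop_ciSup (hmm x) hmb
    have heq : (⨆ n, sn r x n) = ⨆ n, m x n := by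
      refine le_antisymm (ciSup_mono hmb hle) (le_of_forall_lt_imp_le_of_dense fun a ha => ?_)
      obtain ⟨N, hN⟩ := exists_lt_of_lt_ciSup ha
      obtain ⟨n, h1, h2, h3⟩ := hrd a (m x N) hN (hm0 _ _) (hm1 _ _) N
      have h4 : x (2 * n) = true := by
        have h2 : (2 * n) % 2 = 0 := by omega
        rw [hx]
        simp only [Φ, h2, if_true, decide_eq_true_eq]
        exact h3.trans (hmm x (by omega))
      refine le_trans ?_ (le_ciSup (hbdd x) (2 * n + 1))
      simp only [sn, h4, if_true]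
      exact le_max_of_le_right h2.le
    refine ⟨x, hodd, ?_⟩
    rw [heq]
    have hz : ∀ n : ℕ, ∃ z ∈ S x n, z < m x n + 1 / ((n : ℝ) + 1) := fun n =>
      exists_lt_of_csInf_lt (hSne x n) (lt_add_of_pos_right _ (by positivity))
    choose z hzS hzl using hz
    choose x' hx'1 hx'2 using fun n => (hzS n).2
    have t1 : Tendsto z atTop (𝓝 (⨆ n, m x n)) := by
      have := hmlim.add tendsto_one_div_add_atTop_nhds_zero_nat
      rw [add_zero] at this
      exact tendsto_of_tendsto_of_tendsto_of_le_of_le hmlim this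
        (fun n => csInf_le (hSb x n) (hzS n)) (fun n => (hzl n).le)
    have t2 : Tendsto x' atTop (𝓝 x) := by
      refine tendsto_pi_nhds.2 fun i => tendsto_const_nhds.congr' ?_
      filter_upwards [eventually_gt_atTop i] with n hn using (hx'1 n i hn).symm
    exact hL.mem_of_tendsto (t2.prodMk_nhds ((hg.tendsto _).comp t1))
      (Eventually.of_forall hx'2)
  intro hc
  choose X hX1 hX2 using key
  have hinj : Function.Injective X := fun a b hab => funext fun n => by
    rw [← hX1 a n, ← hX1 b n, hab]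
  have : (univ : Set C).Countable :=
    (hc.preimage_of_injOn (f := X) hinj.injOn).mono fun y _ => hX2 y
  exact not_countable_univ this

end Pool.Agent.H84.DimA
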