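import Pool.Agent.H84.DimA

/-! Bernstein sets in the Cantor set and converging sequences handling countably many tasks. -/

namespace Pool.Agent.H84.DimB

open Set Topology Filter Cardinal PiNat Pool.Agent.H84.DimA

instance : PolishSpace C := {}

theorem exists_A : ∃ A : ℕ → Set C, (∀ c d, c ≠ d → Disjoint (A c) (A d)) ∧
    (∀ c d (G : Set (C × C)), IsClosed G → (∀ z ∈ G, ¬ (z.1 ∈ A c ∧ z.2 ∈ A d)) →
      ∃ S : Set C, S.Countable ∧ ∀ z ∈ G, z.1 ∈ S ∨ z.2 ∈ S ∨ z.1 = z.2) ∧
    ∀ c (K : Set C), IsClosed K → ¬ K.Countable → ∃ x ∈ K, x ∈ A c := by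
  obtain ⟨e, he, -⟩ := exists_emb
  obtain ⟨B, hB⟩ := NCard.exists_joint
  refine ⟨fun c => e ⁻¹' B c, fun c d h => (hB.1 c d h).preimage e, fun c d G hG h => ?_,
    fun c K hK hu => ?_⟩
  · let E : C × C → Fin 2 → ℝ := fun z => ![e z.1, e z.2]
    have hE : Continuous E := by
      have := he.continuous
      refine continuous_pi fun i => ?_
      fin_cases i
      · exact this.comp continuous_fst
      · exact this.comp continuous_snd
    obtain ⟨S, hS, hSG⟩ := hB.2 2 ![c, d] (E '' G) (hG.isCompact.image hE).isClosed (by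
      rintro _ ⟨z, hz, rfl⟩
      by_contra hc
      push Not at hc
      exact h z hz ⟨hc 0, hc 1⟩)
    refine ⟨e ⁻¹' S, hS.preimage he.injective, fun z hz => ?_⟩
    rcases hSG _ ⟨z, hz, rfl⟩ with ⟨p, hp⟩ | ⟨p, q, hpq, h⟩
    · fin_cases p
      · exact Or.inl hp
      · exact Or.inr (Or.inl hp)
    · refine Or.inr (Or.inr (he.injective ?_))
      fin_cases p <;> fin_cases q
      · exact absurd rfl hpq
      · exact h
      · exact h.symm
      · exact absurd rfl hpq
  · obtain ⟨_, ⟨x, hx, rfl⟩, h⟩ := hB.meets c (he.isClosedMap K hK)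
      (fun h => hu (countable_of_injective_of_countable_image he.injective.injOn h))
    exact ⟨x, hx, h⟩

theorem big {A : Set C} (hA : ∀ K : Set C, IsClosed K → ¬ K.Countable → ∃ x ∈ K, x ∈ A)
    {K : Set C} (hK : IsClosed K) (hu : ¬ K.Countable) : continuum ≤ #(K ∩ A : Set C) := by
  obtain ⟨f, hfK, hf, hfi⟩ := hK.exists_nat_bool_injection_of_not_countable hu
  let pr : C → C → C := fun a b n => Sum.elim a b (Equiv.natSumNatEquivNat.symm n)
  have h1 : ∀ a b a' b', pr a b = pr a' b' → a = a' ∧ b = b' := by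
    intro a b a' b' h
    refine ⟨funext fun n => ?_, funext fun n => ?_⟩
    · simpa [pr] using congrFun h (Equiv.natSumNatEquivNat (.inl n))
    · simpa [pr] using congrFun h (Equiv.natSumNatEquivNat (.inr n))
  have h2 : ∀ a, Continuous (pr a) := by
    intro a
    refine continuous_pi fun n => ?_
    simp only [pr]
    rcases Equiv.natSumNatEquivNat.symm n with k | k
    · exact continuous_const
    · exact continuous_apply k
  have h3 : ∀ a, ∃ x ∈ range (f ∘ pr a), x ∈ A := by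
    intro a
    refine hA _ (isCompact_range (hf.comp (h2 a))).isClosed fun h => ?_
    rw [← image_univ] at h
    exact not_countable_univ (countable_of_injective_of_countable_image
      (fun b _ b' _ hb => (h1 _ _ _ _ (hfi hb)).2) h)
  choose y hy hyA using h3
  choose b hb using hy
  have : #C ≤ #(K ∩ A : Set C) := mk_le_of_injective
    (f := fun a => (⟨y a, hfK ⟨_, hb a⟩, hyA a⟩ : (K ∩ A : Set C))) fun a a' h => by
      have h' : y a = y a' := congrArg Subtype.val h
      rw [← hb a, ← hb a'] at h'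
      exact (h1 _ _ _ _ (hfi h')).1
  simpa using this

theorem exists_assign {I : Type} (hI : #I ≤ continuum) (G P : I → Set C)
    (hP : ∀ i, (P i).Countable) (hG : ∀ i, continuum ≤ #(G i)) :
    ∃ x : I → C, Function.Injective x ∧ (∀ i, x i ∈ G i) ∧
      WellFounded fun y z : C => ∃ i, z = x i ∧ y ∈ P i := by
  classical
  obtain ⟨e⟩ : Nonempty (I ↪ continuum.ord.ToType) := by
    rw [← Cardinal.le_def, mk_ord_toType]; exact hI
  let _ : LinearOrder I := LinearOrder.lift' e e.injective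
  have hwf : WellFoundedLT I := ⟨InvImage.wf e wellFounded_lt⟩
  have hlt : ∀ i : I, #(Iio i) < continuum := fun i =>
    lt_of_le_of_lt (mk_le_of_injective (f := fun j : Iio i => (⟨e j.1, j.2⟩ : Iio (e i)))
      fun a b hab => Subtype.ext (e.injective (congrArg Subtype.val hab)))
      (mk_Iio_toType_ord_lt (e i))
  have step : ∀ (i : I) (f : I → C), ∃ x ∈ G i,
      x ∉ (⋃ j ∈ Iio i, insert (f j) (P j)) ∪ P i := by
    intro i f
    by_contra hc
    push Not at hc
    have h1 : #(G i) ≤ #((⋃ j ∈ Iio i, insert (f j) (P j)) ∪ P i : Set C) :=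
      mk_le_mk_of_subset hc
    have h2 : #((⋃ j ∈ Iio i, insert (f j) (P j)) ∪ P i : Set C) < continuum := by
      refine lt_of_le_of_lt (mk_union_le _ _) (add_lt_of_lt aleph0_le_continuum ?_
        ((le_aleph0_iff_set_countable.2 (hP i)).trans_lt aleph0_lt_continuum))
      refine lt_of_le_of_lt (mk_biUnion_le (fun j => insert (f j) (P j)) (Iio i)) ?_
      refine mul_lt_of_lt aleph0_le_continuum (hlt i) (lt_of_le_of_lt ?_ aleph0_lt_continuum)
      exact ciSup_le' fun x => le_aleph0_iff_set_countable.2 ((hP _).insert _)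
    exact (((hG i).trans h1).trans_lt h2).false
  have step' : ∀ (i : I) (S : Set C), ∃ x ∈ G i, (∃ x ∈ G i, x ∉ S) → x ∉ S := by
    intro i S
    by_cases h : ∃ x ∈ G i, x ∉ S
    · obtain ⟨x, h1, h2⟩ := h; exact ⟨x, h1, fun _ => h2⟩
    · obtain ⟨x, h1, -⟩ := step i fun _ _ => false
      exact ⟨x, h1, fun h' => absurd h' h⟩
  choose st hst1 hst2 using step'
  obtain ⟨x, hx⟩ := NCard.exists_rec (T := I) (fun _ => false)
    (fun i f => st i ((⋃ j ∈ Iio i, insert (f j) (P j)) ∪ P i))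
    (fun i f f' h => by
      have : (⋃ j ∈ Iio i, insert (f j) (P j)) = ⋃ j ∈ Iio i, insert (f' j) (P j) :=
        iUnion₂_congr fun j hj => by rw [h j hj]
      simp only [this])
  have hn : ∀ i, x i ∉ (⋃ j ∈ Iio i, insert (x j) (P j)) ∪ P i := by
    intro i
    have := hst2 i _ (step i x)
    rwa [← hx i] at this
  have hne : ∀ i j, j < i → x i ≠ x j := fun i j hj h =>
    hn i (Or.inl (mem_iUnion₂.2 ⟨j, hj, Or.inl h⟩))
  have hinj : Function.Injective x := by
    intro i j h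
    rcases lt_trichotomy i j with h' | h' | h'
    · exact absurd h.symm (hne j i h')
    · exact h'
    · exact absurd h (hne i j h')
  refine ⟨x, hinj, fun i => hx i ▸ hst1 _ _, ?_⟩
  have hacc0 : ∀ z, (∀ i, z ≠ x i) → Acc (fun y z : C => ∃ i, z = x i ∧ y ∈ P i) z :=
    fun z hz => ⟨_, fun y ⟨i, h, _⟩ => absurd h (hz i)⟩
  have hacc : ∀ i, Acc (fun y z : C => ∃ i, z = x i ∧ y ∈ P i) (x i) := by
    intro i
    induction i using hwf.induction with
    | _ i ih =>
      refine ⟨_, fun y ⟨j, h, hy⟩ => ?_⟩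
      obtain rfl := hinj h
      by_cases hy' : ∃ k, y = x k
      · obtain ⟨k, rfl⟩ := hy'
        refine ih k ?_
        rcases lt_trichotomy k i with h' | h' | h'
        · exact h'
        · subst h'; exact absurd (Or.inr hy) (hn k)
        · exact absurd (Or.inl (mem_iUnion₂.2 ⟨i, h', Or.inr hy⟩)) (hn k)
      · push Not at hy'
        exact hacc0 y hy'
  refine ⟨fun z => ?_⟩
  by_cases hz : ∃ k, z = x k
  · obtain ⟨k, rfl⟩ := hz; exact hacc k
  · push Not at hz; exact hacc0 z hz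

theorem exists_seq (J : C × C → (C × C) × Q) (hJ : ∀ z, (J z).1 = z) (x : C)
    (a : ℕ → ℕ → C × C) (ha : ∀ m n, (a m n).1 ≠ x ∧ (a m n).2 ≠ x)
    (h0 : ∃ m, J (x, x) ∈ closure (J '' range (a m))) :
    ∃ p : ℕ → C × C, (∀ k, ∃ m n, p k = a m n) ∧ Tendsto (fun k => J (p k)) atTop (𝓝 (J (x, x))) ∧
      (∀ k l, k ≠ l → firstDiff x (p k).1 ≠ firstDiff x (p l).2) ∧
      ∀ m, J (x, x) ∈ closure (J '' range (a m)) → ∃ᶠ k in atTop, p k ∈ range (a m) := by
  classical
  obtain ⟨m₀, hm₀⟩ := h0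
  let μ : ℕ → ℕ := fun k =>
    if J (x, x) ∈ closure (J '' range (a k.unpair.1)) then k.unpair.1 else m₀
  have hμ : ∀ k, J (x, x) ∈ closure (J '' range (a (μ k))) := by
    intro k
    simp only [μ]
    split_ifs with h
    · exact h
    · exact hm₀
  obtain ⟨V, hV⟩ := (𝓝 (J (x, x))).exists_antitone_basis
  have step : ∀ k b : ℕ, ∃ z ∈ range (a (μ k)), z.1 ∈ cylinder x b ∧ z.2 ∈ cylinder x b ∧
      J z ∈ V k := by
    intro k b
    have h1 : {w : (C × C) × Q | w.1.1 ∈ cylinder x b ∧ w.1.2 ∈ cylinder x b} ∈ 𝓝 (J (x, x)) := by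
      refine IsOpen.mem_nhds (((isOpen_cylinder (fun _ => Bool) x b).preimage (by fun_prop)).inter
        ((isOpen_cylinder (fun _ => Bool) x b).preimage (by fun_prop))) ?_
      simp only [mem_ofPred_eq, hJ]
      exact ⟨self_mem_cylinder _ _, self_mem_cylinder _ _⟩
    obtain ⟨_, ⟨h2, h3⟩, z, hz, rfl⟩ := mem_closure_iff_nhds.1 (hμ k) _ (inter_mem h1 (hV.mem k))
    simp only [mem_ofPred_eq, hJ] at h2
    exact ⟨z, hz, h2.1, h2.2, h3⟩
  choose st h1 h2 h3 h4 using step
  let b : ℕ → ℕ := fun k => Nat.rec 0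
    (fun k b => max (firstDiff x (st k b).1) (firstDiff x (st k b).2) + 1) k
  have hb : ∀ k, b (k + 1) =
      max (firstDiff x (st k (b k)).1) (firstDiff x (st k (b k)).2) + 1 := fun _ => rfl
  have hne : ∀ k b, (st k b).1 ≠ x ∧ (st k b).2 ≠ x := by
    intro k b
    obtain ⟨n, hn⟩ := h1 k b
    exact hn ▸ ha _ n
  have l1 : ∀ k, b k ≤ firstDiff x (st k (b k)).1 := fun k =>
    (mem_cylinder_iff_le_firstDiff (hne k _).1.symm _).1 ((mem_cylinder_comm _ _ _).1 (h2 k _))
  have l2 : ∀ k, b k ≤ firstDiff x (st k (b k)).2 := fun k =>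
    (mem_cylinder_iff_le_firstDiff (hne k _).2.symm _).1 ((mem_cylinder_comm _ _ _).1 (h3 k _))
  have hmono : Monotone b := monotone_nat_of_le_succ fun k => by
    have := l1 k; rw [hb]; omega
  refine ⟨fun k => st k (b k), fun k => ?_, hV.tendsto fun k => h4 k _, fun k l hkl => ?_,
    fun m hm => ?_⟩
  · obtain ⟨n, hn⟩ := h1 k (b k); exact ⟨_, n, hn.symm⟩
  · rcases lt_or_gt_of_ne hkl with h | h
    · have := hmono (Nat.succ_le_of_lt h); have := l2 l; have := hb k
      simp only [Nat.succ_eq_add_one] at *; omega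
    · have := hmono (Nat.succ_le_of_lt h); have := l1 k; have := hb l
      simp only [Nat.succ_eq_add_one] at *; omega
  · refine frequently_atTop.2 fun N => ⟨Nat.pair m N, Nat.right_le_pair _ _, ?_⟩
    have := h1 (Nat.pair m N) (b (Nat.pair m N))
    simpa only [μ, Nat.unpair_pair, hm, if_true] using this

theorem exists_data (J : C × C → (C × C) × Q) (hJ : ∀ z, (J z).1 = z) {A : Set C}
    (hA : ∀ K : Set C, IsClosed K → ¬ K.Countable → ∃ x ∈ K, x ∈ A) :
    ∃ (act : C → Prop) (p : C → ℕ → C × C) (r : C → C → Prop), WellFounded r ∧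
      (∀ x, act x → x ∈ A ∧ (∀ k, r (p x k).1 x ∧ r (p x k).2 x) ∧
        Tendsto (fun k => J (p x k)) atTop (𝓝 (J (x, x))) ∧
        ∀ k l, k ≠ l → firstDiff x (p x k).1 ≠ firstDiff x (p x l).2) ∧
      ∀ G : Set C, MeasurableSet G → ¬ G.Countable → ∀ T : ℕ → Set (C × C), ∃ x ∈ G, ∀ m,
        J (x, x) ∈ closure (J '' T m) → act x ∧ ∃ᶠ k in atTop, p x k ∈ T m := by
  classical
  let I := {K : {K : Set C // IsClosed K} // ¬ K.1.Countable} × (ℕ → ℕ → C × C)
  have hI : #I ≤ continuum := by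
    rw [mk_prod, lift_id, lift_id]
    refine (mul_le_mul' ((mk_subtype_le _).trans (NCard.mk_closed_le _))
      (le_of_eq (b := continuum) (by simp))).trans (by simp)
  let P : I → Set C := fun i => ⋃ m, ⋃ n, {(i.2 m n).1, (i.2 m n).2}
  obtain ⟨x, hxi, hxG, hwf⟩ := exists_assign hI (fun i => i.1.1.1 ∩ A) P
    (fun i => countable_iUnion fun m => countable_iUnion fun n => (toFinite _).countable)
    (fun i => big hA i.1.1.2 i.1.2)
  have hirr : ∀ i m n, (i.2 m n).1 ≠ x i ∧ (i.2 m n).2 ≠ x i := by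
    intro i m n
    refine ⟨fun h => hwf.irrefl.irrefl (x i) ⟨i, rfl, ?_⟩,
      fun h => hwf.irrefl.irrefl (x i) ⟨i, rfl, ?_⟩⟩
    · exact mem_iUnion₂.2 ⟨m, n, Or.inl h.symm⟩
    · exact mem_iUnion₂.2 ⟨m, n, Or.inr h.symm⟩
  let act : C → Prop := fun y => ∃ i, y = x i ∧ ∃ m, J (y, y) ∈ closure (J '' range (i.2 m))
  have hseq : ∀ y, ∃ p : ℕ → C × C, ∀ i, y = x i → (∃ m, J (y, y) ∈ closure (J '' range (i.2 m))) →
      (∀ k, ∃ m n, p k = i.2 m n) ∧ Tendsto (fun k => J (p k)) atTop (𝓝 (J (y, y))) ∧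
      (∀ k l, k ≠ l → firstDiff y (p k).1 ≠ firstDiff y (p l).2) ∧
      ∀ m, J (y, y) ∈ closure (J '' range (i.2 m)) → ∃ᶠ k in atTop, p k ∈ range (i.2 m) := by
    intro y
    by_cases h : act y
    · obtain ⟨i, rfl, h⟩ := h
      obtain ⟨p, hp⟩ := exists_seq J hJ (x i) i.2 (hirr i) h
      refine ⟨p, fun j hj _ => ?_⟩
      obtain rfl := hxi hj
      exact hp
    · exact ⟨fun _ => (y, y), fun i h1 h2 => absurd ⟨i, h1, h2⟩ h⟩
  choose p hp using hseq
  refine ⟨act, p, _, hwf, ?_, fun G hG hu T => ?_⟩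
  · rintro y ⟨i, rfl, h⟩
    obtain ⟨h1, h2, h3, -⟩ := hp _ i rfl h
    refine ⟨(hxG i).2, fun k => ?_, h2, h3⟩
    obtain ⟨m, n, hmn⟩ := h1 k
    exact ⟨⟨i, rfl, mem_iUnion₂.2 ⟨m, n, Or.inl (by rw [hmn])⟩⟩,
      ⟨i, rfl, mem_iUnion₂.2 ⟨m, n, Or.inr (by rw [hmn]; rfl)⟩⟩⟩
  · obtain ⟨K, hK, hKu, hKG⟩ : ∃ K : Set C, IsClosed K ∧ ¬ K.Countable ∧ K ⊆ G := by
      obtain ⟨t, ht, hpol, hcl, -⟩ := hG.isClopenable
      obtain ⟨f, hfG, hf', hfi⟩ : ∃ f : C → C, range f ⊆ G ∧
          @Continuous C C Pi.topologicalSpace Pi.topologicalSpace f ∧ Function.Injective f := by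
        obtain ⟨f, hfG, hf, hfi⟩ :=
          @IsClosed.exists_nat_bool_injection_of_not_countable C t hpol G hcl hu
        exact ⟨f, hfG, continuous_le_rng ht hf, hfi⟩
      clear hcl hpol ht
      clear t
      refine ⟨range f, (isCompact_range hf').isClosed, fun h => ?_, hfG⟩
      rw [← image_univ] at h
      exact not_countable_univ (countable_of_injective_of_countable_image hfi.injOn h)
    have hd : ∀ m, ∃ a : ℕ → C × C, (T m).Nonempty →
        range a ⊆ T m ∧ J '' T m ⊆ closure (J '' range a) := by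
      intro m
      by_cases hT : (T m).Nonempty
      · obtain ⟨t, ht1, ht2, ht3⟩ :=
          (TopologicalSpace.IsSeparable.of_separableSpace (J '' T m)).exists_countable_dense_subset
        have htn : t.Nonempty := by
          obtain ⟨z, hz⟩ := hT
          exact closure_nonempty_iff.1 ⟨_, ht3 ⟨z, hz, rfl⟩⟩
        obtain ⟨c, rfl⟩ := ht2.exists_eq_range htn
        choose a ha1 ha2 using fun n => ht1 (mem_range_self n)
        refine ⟨a, fun _ => ⟨range_subset_iff.2 ha1, ht3.trans (closure_mono ?_)⟩⟩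
        rintro _ ⟨n, rfl⟩
        exact ⟨a n, mem_range_self n, ha2 n⟩
      · exact ⟨fun _ => (fun _ => false, fun _ => false), fun h => absurd h hT⟩
    choose a ha using hd
    let i : I := (⟨⟨K, hK⟩, hKu⟩, a)
    refine ⟨x i, hKG (hxG i).1, fun m hm => ?_⟩
    have hT : (T m).Nonempty := (closure_nonempty_iff.1 ⟨_, hm⟩).of_image
    have h1 : J (x i, x i) ∈ closure (J '' range (a m)) :=
      closure_minimal (ha m hT).2 isClosed_closure hm
    exact ⟨⟨i, rfl, m, h1⟩,
      ((hp _ i rfl ⟨m, h1⟩).2.2.2 m h1).mono fun k hk => (ha m hT).1 hk⟩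

end Pool.Agent.H84.DimB
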