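import Pool.Agent.H84.DimB

/-! The space: two refinements of the Cantor set. -/

namespace Pool.Agent.H84.DimC

open Set Topology Filter PiNat Pool.Agent.H84.DimA

open Classical in
noncomputable def FF (ψ : C → ℕ → Q) (φ : C → Q) (z : C × C) : Q :=
  if z.1 = z.2 then φ z.1 else ψ z.1 (firstDiff z.1 z.2)

structure Data where
  ψ : C → ℕ → Q
  φ : C → Q
  hψ : ∀ x y n, (∀ i < n, x i = y i) → ψ x n = ψ y n
  hlim : ∀ x, Tendsto (ψ x) atTop (𝓝 (φ x))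
  rich : ∀ L : Set (C × Q), IsClosed L → (∀ x, ∃ q, (x, q) ∈ L) → ¬ {x | (x, φ x) ∈ L}.Countable
  A : Bool → Set C
  hdisj : ∀ x, x ∈ A false → x ∉ A true
  joint : ∀ c d (G : Set (C × C)), IsClosed G → (∀ z ∈ G, ¬ (z.1 ∈ A c ∧ z.2 ∈ A d)) →
    ∃ S : Set C, S.Countable ∧ ∀ z ∈ G, z.1 ∈ S ∨ z.2 ∈ S ∨ z.1 = z.2
  bern : ∀ c (K : Set C), IsClosed K → ¬ K.Countable → ∃ x ∈ K, x ∈ A c
  act : C → Prop
  p : C → ℕ → C × C
  r : C → C → Prop
  wf : WellFounded r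
  hA : ∀ x, act x → ∀ c, x ∉ A c
  hr : ∀ x, act x → ∀ k, r (p x k).1 x ∧ r (p x k).2 x
  ht : ∀ x, act x → Tendsto (fun k => (p x k, FF ψ φ (p x k))) atTop (𝓝 ((x, x), FF ψ φ (x, x)))
  hl : ∀ x, act x → ∀ k l, k ≠ l → firstDiff x (p x k).1 ≠ firstDiff x (p x l).2
  key : ∀ G : Set C, MeasurableSet G → ¬ G.Countable → ∀ T : ℕ → Set (C × C), ∃ x ∈ G, ∀ m,
    ((x, x), FF ψ φ (x, x)) ∈ closure ((fun z => (z, FF ψ φ z)) '' T m) →
      act x ∧ ∃ᶠ k in atTop, p x k ∈ T m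

theorem exists_data : Nonempty Data := by
  obtain ⟨ψ, φ, h1, h2, h3⟩ := exists_rich
  obtain ⟨A, hA1, hA2, hA3⟩ := DimB.exists_A
  obtain ⟨act, p, r, hwf, h4, h5⟩ :=
    DimB.exists_data (fun z => (z, FF ψ φ z)) (fun _ => rfl) (hA3 2)
  refine ⟨⟨ψ, φ, h1, h2, h3, fun b => A b.toNat, fun x hx hx' =>
    disjoint_left.1 (hA1 0 1 (by decide)) hx hx', fun c d => hA2 _ _, fun c => hA3 _, act, p, r,
    hwf, fun x hx c hc => ?_, fun x hx => (h4 x hx).2.1, fun x hx => (h4 x hx).2.2.1,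
    fun x hx => (h4 x hx).2.2.2, h5⟩⟩
  exact disjoint_left.1 (hA1 c.toNat 2 (by cases c <;> decide)) hc (h4 x hx).1

theorem fd_le {u v : C} {i : ℕ} (h : u i ≠ v i) : firstDiff u v ≤ i := by
  by_contra hc
  exact h (apply_eq_of_lt_firstDiff (not_le.1 hc))

theorem fd_eq {s t u v : C} (h : s ≠ t) (hu : u ∈ cylinder s (firstDiff s t + 1))
    (hv : v ∈ cylinder t (firstDiff s t + 1)) : u ≠ v ∧ firstDiff u v = firstDiff s t := by
  have h1 : u (firstDiff s t) ≠ v (firstDiff s t) := by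
    rw [hu _ (Nat.lt_succ_self _), hv _ (Nat.lt_succ_self _)]
    exact apply_firstDiff_ne h
  have h2 : u ≠ v := fun e => h1 (by rw [e])
  refine ⟨h2, le_antisymm (fd_le h1) ((mem_cylinder_iff_le_firstDiff h2 _).1 fun i hi => ?_)⟩
  rw [hu i (by omega), hv i (by omega)]
  exact apply_eq_of_lt_firstDiff hi

variable {D : Data}

noncomputable abbrev Data.F (D : Data) : C × C → Q := FF D.ψ D.φ

theorem F_diag (x : C) : D.F (x, x) = D.φ x := by simp [FF]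

theorem F_ne {s t : C} (h : s ≠ t) : D.F (s, t) = D.ψ s (firstDiff s t) := by simp [FF, h]

theorem F_const {s t u v : C} (h : s ≠ t) (hu : u ∈ cylinder s (firstDiff s t + 1))
    (hv : v ∈ cylinder t (firstDiff s t + 1)) : D.F (u, v) = D.F (s, t) := by
  obtain ⟨h1, h2⟩ := fd_eq h hu hv
  rw [F_ne h1, F_ne h, h2]
  exact D.hψ _ _ _ fun i hi => hu i (by omega)

theorem F_mem {x u v : C} {N : ℕ} {O : Set Q} (h0 : D.φ x ∈ O) (h1 : ∀ n, N ≤ n → D.ψ x n ∈ O)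
    (hu : u ∈ cylinder x N) (hv : v ∈ cylinder x N)
    (h : u = x ∨ v = x ∨ (u ≠ x ∧ v ≠ x ∧ firstDiff x u ≠ firstDiff x v)) : D.F (u, v) ∈ O := by
  by_cases huv : u = v
  · subst huv
    rcases h with rfl | rfl | ⟨-, -, h⟩
    · rwa [F_diag]
    · rwa [F_diag]
    · exact absurd rfl h
  have hN : N ≤ firstDiff u v := (mem_cylinder_iff_le_firstDiff huv _).1 fun i hi => by
    rw [hu i hi, hv i hi]
  rw [F_ne huv, D.hψ u x]
  · exact h1 _ hN
  intro i hi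
  rcases h with rfl | rfl | ⟨h2, h3, h⟩
  · rfl
  · exact apply_eq_of_lt_firstDiff hi
  · have : firstDiff u v ≤ firstDiff x u := by
      rcases lt_or_gt_of_ne h with h | h
      · refine fd_le ?_
        rw [← apply_eq_of_lt_firstDiff h]
        exact (apply_firstDiff_ne h2.symm).symm
      · refine le_trans (fd_le ?_) h.le
        rw [← apply_eq_of_lt_firstDiff h]
        exact apply_firstDiff_ne h3.symm
    exact (apply_eq_of_lt_firstDiff (by omega)).symm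

@[ext] structure Y (D : Data) where
  b : Bool
  v : C

def cyl (y : Y D) (n : ℕ) : Set (Y D) := {z | z.b = y.b ∧ z.v ∈ cylinder y.v n}

def pk (y : Y D) (k : ℕ) : Y D := ⟨y.b, cond y.b (D.p y.v k).2 (D.p y.v k).1⟩

theorem cyl_anti (y : Y D) {m n : ℕ} (h : m ≤ n) : cyl y n ⊆ cyl y m :=
  fun _ hz => ⟨hz.1, cylinder_anti _ h hz.2⟩

theorem mem_cyl (y : Y D) (n : ℕ) : y ∈ cyl y n := ⟨rfl, self_mem_cylinder _ _⟩

theorem cyl_eq {y z : Y D} {n : ℕ} (h : z ∈ cyl y n) : cyl z n = cyl y n := by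
  simp only [cyl, h.1, mem_cylinder_iff_eq.1 h.2]

instance : TopologicalSpace (Y D) where
  IsOpen U := ∀ y ∈ U, (y.v ∈ D.A y.b → ∃ n, cyl y n ⊆ U) ∧ (D.act y.v → ∀ᶠ k in atTop, pk y k ∈ U)
  isOpen_univ := fun _ _ => ⟨fun _ => ⟨0, subset_univ _⟩, fun _ => Eventually.of_forall fun _ => trivial⟩
  isOpen_inter := fun U V hU hV y hy => ⟨fun h => by
      obtain ⟨m, hm⟩ := (hU y hy.1).1 h
      obtain ⟨n, hn⟩ := (hV y hy.2).1 h
      exact ⟨max m n, subset_inter ((cyl_anti y (le_max_left _ _)).trans hm)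
        ((cyl_anti y (le_max_right _ _)).trans hn)⟩,
    fun h => ((hU y hy.1).2 h).and ((hV y hy.2).2 h)⟩
  isOpen_sUnion := fun S hS y ⟨U, hU, hy⟩ => ⟨fun h => by
      obtain ⟨m, hm⟩ := (hS U hU y hy).1 h
      exact ⟨m, hm.trans (subset_sUnion_of_mem hU)⟩,
    fun h => ((hS U hU y hy).2 h).mono fun k hk => ⟨U, hU, hk⟩⟩

theorem isOpen_def {U : Set (Y D)} : IsOpen U ↔ ∀ y ∈ U,
    (y.v ∈ D.A y.b → ∃ n, cyl y n ⊆ U) ∧ (D.act y.v → ∀ᶠ k in atTop, pk y k ∈ U) := Iff.rfl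

theorem pk_cyl {y : Y D} (h : D.act y.v) (n : ℕ) : ∀ᶠ k in atTop, pk y k ∈ cyl y n := by
  have h0 := (continuous_fst.tendsto _).comp (D.ht _ h)
  have ho := (isOpen_cylinder (fun _ => Bool) y.v n).mem_nhds (self_mem_cylinder _ _)
  have h1 := ((continuous_fst.tendsto _).comp h0).eventually ho
  have h2 := ((continuous_snd.tendsto _).comp h0).eventually ho
  filter_upwards [h1, h2] with k h1 h2
  refine ⟨rfl, ?_⟩
  simp only [pk]
  cases y.b
  · exact h1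
  · exact h2

theorem isOpen_cyl (y : Y D) (n : ℕ) : IsOpen (cyl y n) := fun z hz =>
  ⟨fun _ => ⟨n, (cyl_eq hz).subset⟩, fun h => cyl_eq hz ▸ pk_cyl h n⟩

theorem isClopen_cyl (y : Y D) (n : ℕ) : IsClopen (cyl y n) := by
  refine ⟨⟨isOpen_iff_forall_mem_open.2 fun z hz => ⟨cyl z n, fun w hw hw' => hz ?_, isOpen_cyl _ _,
    mem_cyl _ _⟩⟩, isOpen_cyl _ _⟩
  rw [← cyl_eq hw', cyl_eq hw]
  exact mem_cyl _ _

theorem cont_b : Continuous (Y.b : Y D → Bool) := by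
  refine continuous_iff_continuousAt.2 fun y => tendsto_const_nhds.congr' ?_
  filter_upwards [(isOpen_cyl y 0).mem_nhds (mem_cyl y 0)] with z hz using hz.1.symm

theorem cont_v : Continuous (Y.v : Y D → C) := by
  refine continuous_pi fun i => continuous_iff_continuousAt.2 fun y => tendsto_const_nhds.congr' ?_
  filter_upwards [(isOpen_cyl y (i + 1)).mem_nhds (mem_cyl y _)] with z hz using
    (hz.2 i (Nat.lt_succ_self i)).symm

instance : T2Space (Y D) :=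
  T2Space.of_injective_continuous (f := fun y : Y D => (y.b, y.v))
    (fun _ _ h => Y.ext (congrArg Prod.fst h) (congrArg Prod.snd h)) (cont_b.prodMk cont_v)

theorem pk_tendsto {y : Y D} (h : D.act y.v) : Tendsto (pk y) atTop (𝓝 y) :=
  tendsto_nhds.2 fun _ hU hy => (hU y hy).2 h

theorem isOpen_single {y : Y D} (h1 : y.v ∉ D.A y.b) (h2 : ¬ D.act y.v) :
    IsOpen ({y} : Set (Y D)) := by
  rintro _ rfl
  exact ⟨fun h => absurd h h1, fun h => absurd h h2⟩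

theorem isOpen_star {y : Y D} (h : D.act y.v) (N : ℕ) (W : ℕ → Set (Y D))
    (hW : ∀ k, N ≤ k → IsOpen (W k) ∧ pk y k ∈ W k) :
    IsOpen (insert y (⋃ k, ⋃ (_ : N ≤ k), W k)) := by
  have ho : IsOpen (⋃ k, ⋃ (_ : N ≤ k), W k) :=
    isOpen_iUnion fun k => isOpen_iUnion fun hk => (hW k hk).1
  rintro z (rfl | hz)
  · refine ⟨fun h' => absurd h' (D.hA _ h _), fun _ => ?_⟩
    filter_upwards [eventually_ge_atTop N] with k hk using
      Or.inr (mem_iUnion₂.2 ⟨k, hk, (hW k hk).2⟩)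
  · refine ⟨fun h' => ?_, fun h' => ((ho z hz).2 h').mono fun k hk => Or.inr hk⟩
    obtain ⟨n, hn⟩ := (ho z hz).1 h'
    exact ⟨n, hn.trans (subset_insert _ _)⟩

theorem r_pk {y : Y D} (h : D.act y.v) (k : ℕ) : D.r (pk y k).v y.v := by
  simp only [pk]
  cases y.b
  · exact (D.hr _ h k).1
  · exact (D.hr _ h k).2

theorem exists_clopen (y : Y D) (U : Set (Y D)) (hU : IsOpen U) (hy : y ∈ U) :
    ∃ W, IsClopen W ∧ y ∈ W ∧ W ⊆ U := by
  obtain ⟨b, x⟩ := y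
  induction x using D.wf.induction generalizing U with
  | _ x ih =>
    by_cases h1 : x ∈ D.A b
    · obtain ⟨n, hn⟩ := (hU _ hy).1 h1
      exact ⟨_, isClopen_cyl _ n, mem_cyl _ _, hn⟩
    by_cases h2 : D.act x
    swap
    · exact ⟨{⟨b, x⟩}, ⟨isClosed_singleton, isOpen_single h1 h2⟩, rfl, singleton_subset_iff.2 hy⟩
    obtain ⟨N, hN⟩ := eventually_atTop.1 ((hU _ hy).2 h2)
    have hW : ∀ k, ∃ W, N ≤ k → IsClopen W ∧ pk ⟨b, x⟩ k ∈ W ∧ W ⊆ U ∩ cyl (pk ⟨b, x⟩ k) k := by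
      intro k
      by_cases hk : N ≤ k
      · obtain ⟨W, hW⟩ := ih _ (r_pk (y := ⟨b, x⟩) h2 k) (U ∩ cyl (pk ⟨b, x⟩ k) k)
          (hU.inter (isOpen_cyl _ _)) ⟨hN k hk, mem_cyl _ _⟩
        exact ⟨W, fun _ => hW⟩
      · exact ⟨∅, fun h => absurd h hk⟩
    choose W hW using hW
    refine ⟨insert ⟨b, x⟩ (⋃ k, ⋃ (_ : N ≤ k), W k), ⟨⟨?_⟩, isOpen_star (y := ⟨b, x⟩) h2 N W
      fun k hk => ⟨(hW k hk).1.2, (hW k hk).2.1⟩⟩, Or.inl rfl, insert_subset hy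
      (iUnion₂_subset fun k hk => (hW k hk).2.2.trans inter_subset_left)⟩
    refine isOpen_iff_forall_mem_open.2 fun z hz => ?_
    have hzx : z ≠ ⟨b, x⟩ := fun e => hz (Or.inl e)
    obtain ⟨n, hn⟩ : ∃ n, z ∉ cyl (⟨b, x⟩ : Y D) n := by
      by_contra hc
      push Not at hc
      exact hzx (Y.ext (hc 0).1 (funext fun i => (hc (i + 1)).2 i (Nat.lt_succ_self i)))
    obtain ⟨K, hK⟩ := eventually_atTop.1 ((pk_cyl (y := ⟨b, x⟩) h2 n).and (eventually_ge_atTop n))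
    refine ⟨(cyl ⟨b, x⟩ n)ᶜ ∩ ⋂ k ∈ Iio K, ⋂ (_ : N ≤ k), (W k)ᶜ, ?_, ?_, hn, ?_⟩
    · rintro w ⟨hw1, hw2⟩ (rfl | hw)
      · exact hw1 (mem_cyl _ _)
      · obtain ⟨k, hk, hw⟩ := mem_iUnion₂.1 hw
        by_cases hkK : k < K
        · exact mem_iInter.1 (mem_iInter₂.1 hw2 k hkK) hk hw
        · obtain ⟨h3, h4⟩ := hK k (not_lt.1 hkK)
          exact hw1 (cyl_eq h3 ▸ cyl_anti _ h4 ((hW k hk).2.2 hw).2)
    · exact (isClopen_cyl _ _).compl.2.inter ((finite_lt_nat K).isOpen_biInter fun k _ =>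
        isOpen_iInter_of_finite fun hk => (hW k hk).1.compl.2)
    · exact mem_iInter₂.2 fun k _ => mem_iInter.2 fun hk hw =>
        hz (Or.inr (mem_iUnion₂.2 ⟨k, hk, hw⟩))

theorem basis_clopen : TopologicalSpace.IsTopologicalBasis {W : Set (Y D) | IsClopen W} :=
  TopologicalSpace.isTopologicalBasis_of_isOpen_of_nhds (fun _ h => h.2) fun y U hy hU => by
    obtain ⟨W, h1, h2, h3⟩ := exists_clopen y U hU hy
    exact ⟨W, h1, h2, h3⟩

instance : CompletelyRegularSpace (Y D) :=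
  CompletelyRegularSpace.of_isTopologicalBasis_clopens basis_clopen

theorem F_cont_diag (x : C) (O : Set Q) (hO : IsOpen O) (hx : D.φ x ∈ O) :
    ∃ U V : Set (Y D), IsOpen U ∧ IsOpen V ∧ ⟨false, x⟩ ∈ U ∧ ⟨true, x⟩ ∈ V ∧
      ∀ u ∈ U, ∀ v ∈ V, D.F (u.v, v.v) ∈ O := by
  induction x using D.wf.induction generalizing O with
  | _ x ih =>
    obtain ⟨N₀, hN₀⟩ := eventually_atTop.1 ((D.hlim x).eventually (hO.mem_nhds hx))
    by_cases h2 : D.act x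
    swap
    · by_cases h1 : x ∈ D.A false
      · refine ⟨cyl ⟨false, x⟩ N₀, {⟨true, x⟩}, isOpen_cyl _ _, isOpen_single (D.hdisj x h1) h2,
          mem_cyl _ _, rfl, ?_⟩
        rintro u hu _ rfl
        exact F_mem hx hN₀ hu.2 (self_mem_cylinder _ _) (Or.inr (Or.inl rfl))
      · refine ⟨{⟨false, x⟩}, cyl ⟨true, x⟩ N₀, isOpen_single h1 h2, isOpen_cyl _ _, rfl,
          mem_cyl _ _, ?_⟩
        rintro _ rfl v hv
        exact F_mem hx hN₀ (self_mem_cylinder _ _) hv.2 (Or.inl rfl)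
    have ht := (continuous_snd.tendsto _).comp (D.ht x h2)
    obtain ⟨N, hN⟩ := eventually_atTop.1 (ht.eventually (hO.mem_nhds (by
      show D.F (x, x) ∈ O
      rwa [F_diag])))
    have hne1 : ∀ k, x ≠ (D.p x k).1 := fun k e => D.wf.irrefl.irrefl x (by
      have := (D.hr x h2 k).1
      rwa [← e] at this)
    have hne2 : ∀ k, x ≠ (D.p x k).2 := fun k e => D.wf.irrefl.irrefl x (by
      have := (D.hr x h2 k).2
      rwa [← e] at this)
    have hW : ∀ k, ∃ U V : Set (Y D), N ≤ k → IsOpen U ∧ IsOpen V ∧ pk ⟨false, x⟩ k ∈ U ∧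
        pk ⟨true, x⟩ k ∈ V ∧ ∀ u ∈ U, ∀ v ∈ V, D.F (u.v, v.v) ∈ O := by
      intro k
      by_cases hk : N ≤ k
      swap
      · exact ⟨∅, ∅, fun h => absurd h hk⟩
      have h3 : D.F ((D.p x k).1, (D.p x k).2) ∈ O := hN k hk
      by_cases he : (D.p x k).1 = (D.p x k).2
      · rw [← he, F_diag] at h3
        obtain ⟨U, V, h4, h5, h6, h7, h8⟩ := ih _ (D.hr x h2 k).1 O hO h3
        refine ⟨U, V, fun _ => ⟨h4, h5, h6, ?_, h8⟩⟩
        rw [he] at h7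
        exact h7
      · refine ⟨cyl (pk ⟨false, x⟩ k) (firstDiff (D.p x k).1 (D.p x k).2 + 1),
          cyl (pk ⟨true, x⟩ k) (firstDiff (D.p x k).1 (D.p x k).2 + 1), fun _ =>
          ⟨isOpen_cyl _ _, isOpen_cyl _ _, mem_cyl _ _, mem_cyl _ _, fun u hu v hv => ?_⟩⟩
        rw [F_const he hu.2 hv.2]
        exact h3
    choose U V hW using hW
    refine ⟨insert ⟨false, x⟩ (⋃ k, ⋃ (_ : N ≤ k),
        U k ∩ cyl (pk ⟨false, x⟩ k) (firstDiff x (D.p x k).1 + 1)) ∩ cyl ⟨false, x⟩ N₀,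
      insert ⟨true, x⟩ (⋃ k, ⋃ (_ : N ≤ k),
        V k ∩ cyl (pk ⟨true, x⟩ k) (firstDiff x (D.p x k).2 + 1)) ∩ cyl ⟨true, x⟩ N₀,
      (isOpen_star (y := ⟨false, x⟩) h2 N _ fun k hk => ⟨(hW k hk).1.inter (isOpen_cyl _ _),
        (hW k hk).2.2.1, mem_cyl _ _⟩).inter (isOpen_cyl _ _),
      (isOpen_star (y := ⟨true, x⟩) h2 N _ fun k hk => ⟨(hW k hk).2.1.inter (isOpen_cyl _ _),
        (hW k hk).2.2.2.1, mem_cyl _ _⟩).inter (isOpen_cyl _ _),
      ⟨Or.inl rfl, mem_cyl _ _⟩, ⟨Or.inl rfl, mem_cyl _ _⟩, ?_⟩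
    rintro u ⟨hu, hu'⟩ v ⟨hv, hv'⟩
    rcases hu with rfl | hu
    · exact F_mem hx hN₀ hu'.2 hv'.2 (Or.inl rfl)
    rcases hv with rfl | hv
    · exact F_mem hx hN₀ hu'.2 hv'.2 (Or.inr (Or.inl rfl))
    obtain ⟨k, hk, hu1, hu2⟩ := mem_iUnion₂.1 hu
    obtain ⟨l, hl, hv1, hv2⟩ := mem_iUnion₂.1 hv
    by_cases hkl : k = l
    · subst hkl
      exact (hW k hk).2.2.2.2 u hu1 v hv1
    obtain ⟨a1, a2⟩ := fd_eq (hne1 k) (self_mem_cylinder _ _) hu2.2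
    obtain ⟨a3, a4⟩ := fd_eq (hne2 l) (self_mem_cylinder _ _) hv2.2
    refine F_mem hx hN₀ hu'.2 hv'.2 (Or.inr (Or.inr ⟨a1.symm, a3.symm, ?_⟩))
    rw [a2, a4]
    exact D.hl x h2 k l hkl

def P01 (D : Data) : Set (Y D × Y D) := {z | z.1.b = false ∧ z.2.b = true}

theorem isClopen_P01 : IsClopen (P01 D) :=
  ((isClopen_discrete {false}).preimage (cont_b.comp continuous_fst)).inter
    ((isClopen_discrete {true}).preimage (cont_b.comp continuous_snd))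

open Classical in
noncomputable def GG (z : Y D × Y D) : Q := if z ∈ P01 D then D.F (z.1.v, z.2.v) else 0

theorem cont_GG : Continuous (GG : Y D × Y D → Q) := by
  refine continuous_iff_continuousAt.2 fun z => ?_
  by_cases hz : z ∈ P01 D
  swap
  · refine (tendsto_const_nhds (x := GG z)).congr' ?_
    filter_upwards [isClopen_P01.compl.2.mem_nhds hz] with w hw
    simp only [GG, if_neg hz, if_neg hw]
  refine tendsto_nhds.2 fun O hO hzO => ?_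
  obtain ⟨⟨b, s⟩, ⟨c, t⟩⟩ := z
  obtain ⟨rfl, rfl⟩ : b = false ∧ c = true := id hz
  simp only [GG, if_pos hz] at hzO
  obtain ⟨U, V, h1, h2, h3, h4, h5⟩ : ∃ U V : Set (Y D), IsOpen U ∧ IsOpen V ∧ ⟨false, s⟩ ∈ U ∧
      ⟨true, t⟩ ∈ V ∧ ∀ u ∈ U, ∀ v ∈ V, D.F (u.v, v.v) ∈ O := by
    by_cases he : s = t
    · subst he
      exact F_cont_diag s O hO (by rwa [F_diag] at hzO)
    · refine ⟨cyl ⟨false, s⟩ (firstDiff s t + 1), cyl ⟨true, t⟩ (firstDiff s t + 1),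
        isOpen_cyl _ _, isOpen_cyl _ _, mem_cyl _ _, mem_cyl _ _, fun u hu v hv => ?_⟩
      rw [F_const he hu.2 hv.2]
      exact hzO
  filter_upwards [((h1.prod h2).inter isClopen_P01.2).mem_nhds ⟨⟨h3, h4⟩, hz⟩] with w hw
  simp only [mem_preimage, GG, if_pos hw.2]
  exact h5 _ hw.1.1 _ hw.1.2

end Pool.Agent.H84.DimC
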