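import Pool.Agent.H84.DimC

/-! Lindelöf pieces, normality of the square, dimension. -/

namespace Pool.Agent.H84.DimD

open Set Topology Filter PiNat Pool.Agent.H84.DimA Pool.Agent.H84.DimC

theorem concentrated {Z M : Type} [TopologicalSpace Z] [TopologicalSpace M]
    [SecondCountableTopology M] (f : Z → M) (R N : Set Z) (hN : N ⊆ R)
    (h1 : ∀ z ∈ N, ∀ U ∈ 𝓝 z, ∃ O, IsOpen O ∧ f z ∈ O ∧ f ⁻¹' O ⊆ U)
    (h2 : ∀ O, IsOpen O → (∀ z ∈ N, f z ∈ O) → ∃ T, IsLindelof T ∧ T ⊆ R ∧ R \ f ⁻¹' O ⊆ T) :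
    IsLindelof R := by
  refine isLindelof_of_countable_subcover fun {ι} U hU hR => ?_
  have h3 : ∀ z : N, ∃ i O, IsOpen O ∧ f z ∈ O ∧ f ⁻¹' O ⊆ U i := by
    intro z
    obtain ⟨i, hi⟩ := mem_iUnion.1 (hR (hN z.2))
    exact ⟨i, h1 z z.2 _ ((hU i).mem_nhds hi)⟩
  choose i O hO1 hO2 hO3 using h3
  obtain ⟨S, hS, hSe⟩ := TopologicalSpace.isOpen_iUnion_countable O hO1
  obtain ⟨T, hT1, hT2, hT3⟩ := h2 (⋃ z, O z) (isOpen_iUnion hO1)
    fun z hz => mem_iUnion.2 ⟨⟨z, hz⟩, hO2 _⟩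
  obtain ⟨t, ht1, ht2⟩ := hT1.elim_countable_subcover U hU (hT2.trans hR)
  refine ⟨i '' S ∪ t, (hS.image i).union ht1, fun z hz => ?_⟩
  by_cases h : f z ∈ ⋃ z, O z
  · rw [← hSe] at h
    obtain ⟨w, hw, h⟩ := mem_iUnion₂.1 h
    exact mem_iUnion₂.2 ⟨i w, Or.inl ⟨w, hw, rfl⟩, hO3 w h⟩
  · obtain ⟨j, hj, h⟩ := mem_iUnion₂.1 (ht2 (hT3 ⟨hz, h⟩))
    exact mem_iUnion₂.2 ⟨j, Or.inr hj, h⟩

variable {D : Data}

def toP (y : Y D) : Bool × C := (y.b, y.v)

theorem cont_toP : Continuous (toP : Y D → Bool × C) := cont_b.prodMk cont_v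

theorem nhds_A {y : Y D} (h : y.v ∈ D.A y.b) (U : Set (Y D)) (hU : U ∈ 𝓝 y) :
    ∃ O, IsOpen O ∧ toP y ∈ O ∧ toP ⁻¹' O ⊆ U := by
  obtain ⟨V, h1, h2, h3⟩ := mem_nhds_iff.1 hU
  obtain ⟨n, hn⟩ := (h2 y h3).1 h
  exact ⟨({y.b} : Set Bool) ×ˢ cylinder y.v n,
    (isOpen_discrete _).prod (isOpen_cylinder (fun _ => Bool) _ _),
    ⟨rfl, self_mem_cylinder _ _⟩, fun z hz => h1 (hn ⟨hz.1, hz.2⟩)⟩

theorem countable_v {S : Set C} (hS : S.Countable) : {y : Y D | y.v ∈ S}.Countable := by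
  have := ((countable_univ (α := Bool)).prod hS).preimage_of_injOn (f := toP (D := D))
    (fun _ _ _ _ h => Y.ext (congrArg Prod.fst h) (congrArg Prod.snd h))
  refine this.mono fun _ hy => ?_
  exact mem_prod.2 ⟨trivial, hy⟩

instance : LindelofSpace (Y D) := by
  refine ⟨concentrated toP univ {y | y.v ∈ D.A y.b} (subset_univ _) (fun z hz => nhds_A hz)
    fun O hO hN => ⟨univ \ toP ⁻¹' O, Countable.isLindelof ?_, subset_univ _, Subset.rfl⟩⟩
  have h : ∀ b : Bool, {x : C | (b, x) ∉ O}.Countable := by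
    intro b
    by_contra hc
    obtain ⟨x, h1, h2⟩ := D.bern b _ (hO.isClosed_compl.preimage (Continuous.prodMk_right b)) hc
    exact h1 (hN ⟨b, x⟩ h2)
  refine (countable_v (countable_iUnion h)).mono fun y hy => ?_
  exact mem_iUnion.2 ⟨y.b, hy.2⟩

def RR (D : Data) (n : ℕ) : Set (Y D × Y D) :=
  {z | z.1.b = z.2.b ∨ ∃ i < n, z.1.v i ≠ z.2.v i}

theorem closed_aux (b c : Bool) (n : ℕ) :
    IsClosed {z : C × C | b = c ∨ ∃ i < n, z.1 i ≠ z.2 i} := by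
  have : {z : C × C | b = c ∨ ∃ i < n, z.1 i ≠ z.2 i} =
      {_z | b = c} ∪ ⋃ i ∈ Iio n, (fun z : C × C => (z.1 i, z.2 i)) ⁻¹' {w | w.1 ≠ w.2} := by
    ext z; simp
  rw [this]
  exact isClosed_const.union ((finite_lt_nat n).isClosed_biUnion fun i _ =>
    (isClosed_discrete _).preimage (by fun_prop))

theorem closed_RR (n : ℕ) : IsClosed (RR D n) := by
  have : RR D n = {z | z.1.b = z.2.b} ∪
      ⋃ i ∈ Iio n, (fun z : Y D × Y D => (z.1.v i, z.2.v i)) ⁻¹' {w | w.1 ≠ w.2} := by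
    ext z; simp [RR]
  rw [this]
  have := cont_v (D := D)
  exact (isClosed_eq (cont_b.comp continuous_fst) (cont_b.comp continuous_snd)).union
    ((finite_lt_nat n).isClosed_biUnion fun i _ => (isClosed_discrete _).preimage (by fun_prop))

theorem lind_RR (n : ℕ) : IsLindelof (RR D n) := by
  refine concentrated (Prod.map toP toP) _
    (RR D n ∩ {z | z.1.v ∈ D.A z.1.b ∧ z.2.v ∈ D.A z.2.b}) inter_subset_left ?_ fun O hO hN => ?_
  · intro z hz U hU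
    obtain ⟨U₁, h1, U₂, h2, h3⟩ := mem_nhds_prod_iff.1 hU
    obtain ⟨O₁, a1, a2, a3⟩ := nhds_A hz.2.1 _ h1
    obtain ⟨O₂, b1, b2, b3⟩ := nhds_A hz.2.2 _ h2
    exact ⟨O₁ ×ˢ O₂, a1.prod b1, ⟨a2, b2⟩, fun w hw => h3 ⟨a3 hw.1, b3 hw.2⟩⟩
  have h : ∀ b c : Bool, ∃ S : Set C, S.Countable ∧ ∀ s t : C,
      (b = c ∨ ∃ i < n, s i ≠ t i) → ((b, s), (c, t)) ∉ O → s ∈ S ∨ t ∈ S := by
    intro b c
    obtain ⟨S, hS, h⟩ := D.joint b c
      ({z : C × C | b = c ∨ ∃ i < n, z.1 i ≠ z.2 i} ∩ {z | ((b, z.1), (c, z.2)) ∉ O})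
      ((closed_aux b c n).inter (hO.isClosed_compl.preimage (by fun_prop)))
      fun z hz hA => hz.2 (hN (⟨b, z.1⟩, ⟨c, z.2⟩) ⟨hz.1, hA⟩)
    have h' : {x : C | ((b, x), (b, x)) ∉ O}.Countable := by
      by_contra hc
      obtain ⟨x, h1, h2⟩ := D.bern b _ (hO.isClosed_compl.preimage (by fun_prop)) hc
      exact h1 (hN (⟨b, x⟩, ⟨b, x⟩) ⟨Or.inl rfl, h2, h2⟩)
    refine ⟨S ∪ _, hS.union h', fun s t h1 h2 => ?_⟩
    rcases h (s, t) ⟨h1, h2⟩ with h | h | h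
    · exact Or.inl (Or.inl h)
    · exact Or.inr (Or.inl h)
    · obtain rfl : s = t := h
      rcases h1 with rfl | ⟨i, -, hi⟩
      · exact Or.inl (Or.inr h2)
      · exact absurd rfl hi
  choose S hS hS' using h
  have hc := countable_v (D := D) (countable_iUnion fun b => countable_iUnion fun c => hS b c)
  refine ⟨(⋃ y ∈ {y : Y D | y.v ∈ ⋃ b, ⋃ c, S b c}, range (fun w => (y, w)) ∪
    range (fun w => (w, y))) ∩ RR D n, IsLindelof.inter_right (hc.isLindelof_biUnion fun y _ =>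
      (isLindelof_range (by fun_prop)).union (isLindelof_range (by fun_prop))) (closed_RR n),
    inter_subset_right, fun z hz => ⟨?_, hz.1⟩⟩
  rcases hS' _ _ _ _ hz.1 hz.2 with h | h
  · exact mem_iUnion₂.2 ⟨z.1, mem_iUnion₂.2 ⟨_, _, h⟩, Or.inl ⟨z.2, rfl⟩⟩
  · exact mem_iUnion₂.2 ⟨z.2, mem_iUnion₂.2 ⟨_, _, h⟩, Or.inr ⟨z.1, rfl⟩⟩

def Sep {Z : Type} [TopologicalSpace Z] (H K : Set Z) : Prop :=
  ∃ 𝒰 : Set (Set Z), 𝒰.Countable ∧ H ⊆ ⋃₀ 𝒰 ∧ ∀ U ∈ 𝒰, IsOpen U ∧ Disjoint (closure U) K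

theorem Sep.union {Z : Type} [TopologicalSpace Z] {H H' K : Set Z} (h : Sep H K) (h' : Sep H' K) :
    Sep (H ∪ H') K := by
  obtain ⟨U, a1, a2, a3⟩ := h
  obtain ⟨V, b1, b2, b3⟩ := h'
  refine ⟨U ∪ V, a1.union b1, by rw [sUnion_union]; exact union_subset_union a2 b2, ?_⟩
  rintro W (h | h)
  · exact a3 W h
  · exact b3 W h

theorem Sep.mono {Z : Type} [TopologicalSpace Z] {H H' K : Set Z} (h : Sep H K) (h' : H' ⊆ H) :
    Sep H' K := by
  obtain ⟨U, a1, a2, a3⟩ := h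
  exact ⟨U, a1, h'.trans a2, a3⟩

theorem Sep.cover {Z : Type} [TopologicalSpace Z] {H K : Set Z} (h : Sep H K) :
    HasSeparatingCover H K := by
  obtain ⟨U, a1, a2, a3⟩ := h
  obtain ⟨u, hu⟩ := (a1.insert ∅).exists_eq_range (insert_nonempty _ _)
  refine ⟨u, fun z hz => ?_, fun n => ?_⟩
  · obtain ⟨V, h1, h2⟩ := a2 hz
    obtain ⟨n, rfl⟩ : V ∈ range u := hu ▸ Or.inr h1
    exact mem_iUnion.2 ⟨n, h2⟩
  · rcases (hu ▸ mem_range_self n : u n ∈ insert ∅ U) with h | h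
    · simp [h]
    · exact a3 _ h

theorem sep_lind {Z : Type} [TopologicalSpace Z] [RegularSpace Z] {H K : Set Z}
    (hH : IsLindelof H) (hK : IsClosed K) (hd : Disjoint H K) : Sep H K := by
  have h : ∀ z ∈ H, ∃ U, IsOpen U ∧ z ∈ U ∧ Disjoint (closure U) K := by
    intro z hz
    obtain ⟨t, h1, h2, h3⟩ := exists_mem_nhds_isClosed_subset
      (hK.isOpen_compl.mem_nhds (disjoint_left.1 hd hz))
    exact ⟨interior t, isOpen_interior, mem_interior_iff_mem_nhds.2 h1,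
      disjoint_left.2 fun w hw => h3 (closure_minimal interior_subset h2 hw)⟩
  choose! U h1 h2 h3 using h
  obtain ⟨t, a1, a2, a3⟩ := hH.elim_nhds_subcover U fun z hz => (h1 z hz).mem_nhds (h2 z hz)
  refine ⟨U '' t, a1.image U, by rwa [sUnion_image], ?_⟩
  rintro _ ⟨z, hz, rfl⟩
  exact ⟨h1 z (a2 z hz), h3 z (a2 z hz)⟩

noncomputable def JJ (D : Data) (z : C × C) : (C × C) × Q := (z, D.F z)

noncomputable def JY (z : Y D × Y D) : (C × C) × Q := ((z.1.v, z.2.v), GG z)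

theorem cont_JY : Continuous (JY : Y D × Y D → _) :=
  ((cont_v.comp continuous_fst).prodMk (cont_v.comp continuous_snd)).prodMk cont_GG

def up (D : Data) (z : C × C) : Y D × Y D := (⟨false, z.1⟩, ⟨true, z.2⟩)

theorem JY_up (z : C × C) : JY (up D z) = JJ D z := by
  have : up D z ∈ P01 D := ⟨rfl, rfl⟩
  simp only [JY, GG, if_pos this]
  rfl

theorem meas_φ : Measurable D.φ := by
  refine measurable_of_tendsto_metrizable (f := fun n x => D.ψ x n) (fun n => ?_)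
    (tendsto_pi_nhds.2 D.hlim)
  refine Continuous.measurable (continuous_iff_continuousAt.2 fun x => tendsto_const_nhds.congr' ?_)
  filter_upwards [(isOpen_cylinder (fun _ => Bool) x n).mem_nhds (self_mem_cylinder _ _)] with y hy
  exact D.hψ _ _ _ fun i hi => (hy i hi).symm

theorem key (G : Set C) (hG : MeasurableSet G) (hu : ¬ G.Countable) (T : ℕ → Set (C × C)) :
    ∃ x ∈ G, ∀ m, JJ D (x, x) ∈ closure (JJ D '' T m) → up D (x, x) ∈ closure (up D '' T m) := by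
  obtain ⟨x, hx, h⟩ := D.key G hG hu T
  refine ⟨x, hx, fun m hm => ?_⟩
  obtain ⟨h1, h2⟩ := h m hm
  refine mem_closure_of_frequently_of_tendsto (f := fun k => up D (D.p x k))
    (h2.mono fun k hk => ⟨_, hk, rfl⟩) ?_
  exact (pk_tendsto (y := ⟨false, x⟩) h1).prodMk_nhds (pk_tendsto (y := ⟨true, x⟩) h1)

theorem meas_diag {L : Set ((C × C) × Q)} (hL : IsClosed L) :
    MeasurableSet {x | JJ D (x, x) ∈ L} := by
  have : Measurable fun x : C => JJ D (x, x) := by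
    simp only [JJ, F_diag]
    exact (measurable_id.prodMk measurable_id).prodMk meas_φ
  exact this hL.measurableSet

theorem sep_diag {H K : Set (Y D × Y D)} (hH : IsClosed H) (hK : IsClosed K) (hd : Disjoint H K) :
    Sep (H ∩ range fun x => up D (x, x)) K := by
  have hc : {x | JJ D (x, x) ∈ closure (JJ D '' (up D ⁻¹' H)) ∩
      closure (JJ D '' (up D ⁻¹' K))}.Countable := by
    by_contra hc
    obtain ⟨x, hx, h⟩ := key _ (meas_diag (isClosed_closure.inter isClosed_closure)) hc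
      (fun m => if m = 0 then up D ⁻¹' H else up D ⁻¹' K)
    exact disjoint_left.1 hd (closure_minimal (image_preimage_subset _ _) hH (h 0 hx.1))
      (closure_minimal (image_preimage_subset _ _) hK (h 1 hx.2))
  have s1 := sep_lind ((hc.image fun x => up D (x, x)).mono (inter_subset_right (s := H))).isLindelof
    hK (hd.mono_left inter_subset_left)
  have s2 : Sep {z | z ∈ P01 D ∧ JY z ∉ closure (JJ D '' (up D ⁻¹' K))} K := by
    refine ⟨(fun b => P01 D ∩ JY ⁻¹' b) '' {b ∈ TopologicalSpace.countableBasis ((C × C) × Q) |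
      Disjoint (closure b) (closure (JJ D '' (up D ⁻¹' K)))}, (
      (TopologicalSpace.countable_countableBasis _).mono (sep_subset _ _)).image _, ?_, ?_⟩
    · rintro z ⟨h1, h2⟩
      obtain ⟨t, a1, a2, a3⟩ := exists_mem_nhds_isClosed_subset
        (isClosed_closure.isOpen_compl.mem_nhds h2)
      obtain ⟨b, b1, b2, b3⟩ := (TopologicalSpace.isBasis_countableBasis _).mem_nhds_iff.1 a1
      exact ⟨_, ⟨b, ⟨b1, disjoint_left.2 fun w hw => a3 (closure_minimal b3 a2 hw)⟩, rfl⟩, h1, b2⟩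
    · rintro _ ⟨b, ⟨b1, b2⟩, rfl⟩
      refine ⟨isClopen_P01.2.inter
        ((TopologicalSpace.isOpen_of_mem_countableBasis b1).preimage cont_JY), disjoint_left.2 ?_⟩
      intro w hw hwK
      have : w ∈ P01 D ∩ JY ⁻¹' closure b := closure_minimal
        (inter_subset_inter_right _ (preimage_mono subset_closure))
        (isClopen_P01.1.inter (isClosed_closure.preimage cont_JY)) hw
      obtain ⟨⟨b, s⟩, ⟨c, t⟩⟩ := w
      obtain ⟨rfl, rfl⟩ : b = false ∧ c = true := this.1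
      exact disjoint_left.1 b2 this.2 (subset_closure ⟨(s, t), hwK, (JY_up (s, t)).symm⟩)
  refine (s1.union s2).mono ?_
  rintro _ ⟨hz, x, rfl⟩
  by_cases h : JJ D (x, x) ∈ closure (JJ D '' (up D ⁻¹' K))
  · exact Or.inl ⟨hz, x, ⟨subset_closure ⟨_, hz, rfl⟩, h⟩, rfl⟩
  · exact Or.inr ⟨⟨rfl, rfl⟩, by rwa [JY_up]⟩

theorem sep_all {H K : Set (Y D × Y D)} (hH : IsClosed H) (hK : IsClosed K) (hd : Disjoint H K) :
    Sep H K := by
  have s1 := sep_diag hH hK hd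
  have s2 : Sep (H ∩ range fun x => (up D (x, x)).swap) K := by
    obtain ⟨U, a1, a2, a3⟩ := sep_diag (hH.preimage continuous_swap) (hK.preimage continuous_swap)
      (hd.preimage _)
    refine ⟨(fun V => Prod.swap ⁻¹' V) '' U, a1.image _, ?_, ?_⟩
    · rintro _ ⟨hz, x, rfl⟩
      obtain ⟨V, h1, h2⟩ := a2 (a := up D (x, x)) ⟨hz, x, rfl⟩
      exact ⟨_, ⟨V, h1, rfl⟩, h2⟩
    · rintro _ ⟨V, hV, rfl⟩
      refine ⟨(a3 V hV).1.preimage continuous_swap, disjoint_left.2 fun w hw hwK => ?_⟩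
      exact disjoint_left.1 (a3 V hV).2 (continuous_swap.closure_preimage_subset V hw) hwK
  have s3 := sep_lind ((isLindelof_iUnion (lind_RR (D := D))).inter_left hH) hK
    (hd.mono_left inter_subset_left)
  refine ((s1.union s2).union s3).mono fun z hz => ?_
  obtain ⟨⟨b, s⟩, ⟨c, t⟩⟩ := z
  by_cases h : s = t
  · subst h
    cases b <;> cases c
    · exact Or.inr ⟨hz, mem_iUnion.2 ⟨0, Or.inl rfl⟩⟩
    · exact Or.inl (Or.inl ⟨hz, s, rfl⟩)
    · exact Or.inl (Or.inr ⟨hz, s, rfl⟩)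
    · exact Or.inr ⟨hz, mem_iUnion.2 ⟨0, Or.inl rfl⟩⟩
  · exact Or.inr ⟨hz, mem_iUnion.2 ⟨firstDiff s t + 1, Or.inr ⟨_, Nat.lt_succ_self _,
      apply_firstDiff_ne h⟩⟩⟩

theorem normal_sq : NormalSpace (Y D × Y D) :=
  ⟨fun _ _ hH hK hd => hasSeparatingCovers_iff_separatedNhds.1
    ⟨(sep_all hH hK hd).cover, (sep_all hK hH hd.symm).cover⟩⟩

end Pool.Agent.H84.DimD
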