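import Pool.Agent.H84.DimD

/-! The space has dimension zero and its square is not countable-dimensional. -/

namespace Pool.Agent.H84.DimE

open Set Topology Filter Pool.Agent.H84.DimA Pool.Agent.H84.DimC Pool.Agent.H84.DimD

variable {D : Data}

theorem dim0 (m : ℕ) (U : Fin m → Set (Y D)) (hU : ∀ i, IsOpen (U i)) (hc : (⋃ i, U i) = univ) :
    ∃ κ : Y D → Fin m, Continuous κ ∧ ∀ y, y ∈ U (κ y) := by
  classical
  have h : ∀ y : Y D, ∃ i W, IsClopen W ∧ y ∈ W ∧ W ⊆ U i := by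
    intro y
    obtain ⟨i, hi⟩ := mem_iUnion.1 (hc ▸ mem_univ y : y ∈ ⋃ i, U i)
    exact ⟨i, exists_clopen y _ (hU i) hi⟩
  choose i W h1 h2 h3 using h
  obtain ⟨t, ht1, ht2⟩ := LindelofSpace.elim_nhds_subcover W fun y => (h1 y).2.mem_nhds (h2 y)
  obtain ⟨c, hc⟩ := (ht1.insert ⟨false, fun _ => false⟩).exists_eq_range (insert_nonempty _ _)
  have hex : ∀ y, ∃ n, y ∈ W (c n) := by
    intro y
    obtain ⟨z, hz, hy⟩ := mem_iUnion₂.1 (ht2 ▸ mem_univ y : y ∈ ⋃ x ∈ t, W x)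
    obtain ⟨n, rfl⟩ : z ∈ range c := hc ▸ Or.inr hz
    exact ⟨n, hy⟩
  refine ⟨fun y => i (c (Nat.find (hex y))), continuous_iff_continuousAt.2 fun y =>
    tendsto_const_nhds.congr' ?_, fun y => h3 _ (Nat.find_spec (hex y))⟩
  have ho : IsOpen (W (c (Nat.find (hex y))) ∩ ⋂ k ∈ Iio (Nat.find (hex y)), (W (c k))ᶜ) :=
    (h1 _).2.inter ((finite_lt_nat _).isOpen_biInter fun k _ => (h1 _).compl.2)
  filter_upwards [ho.mem_nhds ⟨Nat.find_spec (hex y),
    mem_iInter₂.2 fun k hk => Nat.find_min (hex y) hk⟩] with z hz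
  rw [(Nat.find_eq_iff (hex z)).2 ⟨hz.1, fun k hk => mem_iInter₂.1 hz.2 k hk⟩]

noncomputable def fk (n k : ℕ) : ℕ → Q → ℝ
  | 0 => fun q => ∏ i ∈ Finset.range (n + 1), (1 - (q (k, i) : ℝ))
  | i + 1 => fun q => q (k, i)

theorem cont_fk (n k i : ℕ) : Continuous (fk n k i) := by
  cases i
  · simp only [fk]; fun_prop
  · simp only [fk]; fun_prop

theorem fk_nonneg (n k i : ℕ) (q : Q) : 0 ≤ fk n k i q := by
  cases i
  · exact Finset.prod_nonneg fun i _ => sub_nonneg.2 (q (k, i)).2.2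
  · exact (q _).2.1

theorem fk_cover (n k : ℕ) (q : Q) : ∃ i : Fin (n + 2), fk n k i q ≠ 0 := by
  by_contra hc
  push Not at hc
  have h0 := hc 0
  simp only [Fin.val_zero, fk] at h0
  obtain ⟨i, hi, h⟩ := Finset.prod_eq_zero_iff.1 h0
  have := hc ⟨i + 1, by simp at hi; omega⟩
  simp only [fk] at this
  rw [this] at h
  simp at h

theorem not_cd (A : ℕ → Set (Y D × Y D)) (hA : (⋃ k, A k) = univ) (n : ℕ → ℕ)
    (h : ∀ k (m : ℕ) (U : Fin m → Set (A k)),
      (∀ i, ∃ f : A k → ℝ, Continuous f ∧ U i = {x | f x ≠ 0}) → (⋃ i, U i) = univ →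
      ∃ (l : ℕ) (V : Fin l → Set (A k)), (∀ j, IsOpen (V j)) ∧ (⋃ j, V j) = univ ∧
        (∀ j, ∃ i, V j ⊆ U i) ∧ ∀ x, {j : Fin l | x ∈ V j}.ncard ≤ n k + 1) : False := by
  classical
  have h1 := fun k => h k (n k + 2) (fun i => {z | fk (n k) k i (GG z.1) ≠ 0})
    (fun i => ⟨_, (cont_fk _ _ _).comp (cont_GG.comp continuous_subtype_val), rfl⟩)
    (eq_univ_of_forall fun z => mem_iUnion.2 (fk_cover _ _ _))
  choose l V hV1 hV2 hV3 hV4 using h1
  choose σ hσ using hV3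
  let W : ℕ → ℕ → Set (Y D × Y D) := fun k i =>
    {z | ∃ hz : z ∈ A k, ∃ j, (σ k j : ℕ) = i ∧ (⟨z, hz⟩ : A k) ∈ V k j}
  let T : ℕ → ℕ → Set (C × C) := fun k i => {z | up D z ∈ A k ∧ up D z ∉ W k i}
  have hu : ∀ k i, ∃ u : C((C × C) × Q, ℝ), closure (JJ D '' T k i) = u ⁻¹' {1} ∧
      ∀ w, u w ≤ 1 := by
    intro k i
    obtain ⟨u, h1, -, -, h2⟩ := exists_continuous_one_zero_of_isCompact_of_isGδ
      (isClosed_closure (s := JJ D '' T k i)).isCompact isClosed_closure.isGδ isClosed_empty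
      (disjoint_empty _)
    exact ⟨u, h1, fun w => (h2 w).2⟩
  choose u hu1 hu2 using hu
  let v : ℕ → ℕ → C × Q → ℝ := fun k i w => fk (n k) k i w.2 * (1 - u k i ((w.1, w.1), w.2))
  have hv : ∀ k i, Continuous (v k i) := fun k i =>
    ((cont_fk _ _ _).comp continuous_snd).mul (by fun_prop)
  have hv0 : ∀ k i w, 0 ≤ v k i w := fun k i w =>
    mul_nonneg (fk_nonneg _ _ _ _) (sub_nonneg.2 (hu2 _ _ _))
  let H : C × Q → ℕ × ℕ → ℝ := fun w j =>
    if j.2 ≤ n j.1 then v j.1 (j.2 + 1) w - v j.1 0 w else 0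
  have hH : ∀ j, Continuous fun w => H w j := by
    intro j
    simp only [H]
    split_ifs
    · exact (hv _ _).sub (hv _ _)
    · exact continuous_const
  have hL : IsClosed {w | ∀ j, H w j = 0} := by
    simp only [ofPred_forall]
    exact isClosed_iInter fun j => isClosed_eq (hH j) continuous_const
  have hunc := D.rich _ hL fun x => mirandaInf (fun q => H (x, q))
    (fun j => (hH j).comp (by fun_prop))
    (fun q j hj => by
      simp only [H]
      split_ifs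
      · have : v j.1 (j.2 + 1) (x, q) = 0 := by simp [v, fk, hj]
        linarith [hv0 j.1 0 (x, q)]
      · exact le_rfl)
    (fun q j hj => by
      simp only [H]
      split_ifs with h'
      · have : v j.1 0 (x, q) = 0 := by
          simp only [v, fk]
          rw [Finset.prod_eq_zero (i := j.2) (by simp; omega) (by simp [hj]), zero_mul]
        linarith [hv0 j.1 (j.2 + 1) (x, q)]
      · exact le_rfl)
  obtain ⟨x, hx, hkey⟩ := key (D := D) _
    ((measurable_id.prodMk meas_φ) hL.measurableSet) hunc fun m => T m.unpair.1 m.unpair.2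
  obtain ⟨k, hk⟩ := mem_iUnion.1 (hA ▸ mem_univ _ : up D (x, x) ∈ ⋃ k, A k)
  have hG : GG (up D (x, x)) = D.φ x := (congrArg Prod.snd (JY_up (x, x))).trans (F_diag x)
  have hJ : JJ D (x, x) = ((x, x), D.φ x) := by simp only [JJ, F_diag]
  have e1 : ∀ i, v k i (x, D.φ x) ≠ 0 → up D (x, x) ∈ W k i := by
    intro i hi
    by_contra hc
    have : JJ D (x, x) ∈ closure (JJ D '' T k i) := subset_closure ⟨_, ⟨hk, hc⟩, rfl⟩
    rw [hu1, hJ] at this
    exact hi (by simp only [v]; rw [show u k i _ = 1 from this, sub_self, mul_zero])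
  have e2 : ∀ i, up D (x, x) ∈ W k i → v k i (x, D.φ x) ≠ 0 := by
    rintro _ ⟨hz, j, rfl, hj⟩
    refine mul_ne_zero (hG ▸ hσ k j hj) fun h0 => ?_
    have h2 : JJ D (x, x) ∈ closure (JJ D '' T k (σ k j)) := by
      rw [hu1, hJ]; exact (sub_eq_zero.1 h0).symm
    have h3 := hkey (Nat.pair k (σ k j)) (by simpa only [Nat.unpair_pair] using h2)
    simp only [Nat.unpair_pair] at h3
    obtain ⟨O, hO, hOV⟩ := isOpen_induced_iff.1 (hV1 k j)
    obtain ⟨_, h4, z, hz', rfl⟩ := mem_closure_iff.1 h3 O hO (by rw [← hOV] at hj; exact hj)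
    exact hz'.2 ⟨hz'.1, j, rfl, by rw [← hOV]; exact h4⟩
  have e3 : ∀ i, i < n k + 2 → v k i (x, D.φ x) = v k 0 (x, D.φ x) := by
    intro i hi
    cases i with
    | zero => rfl
    | succ i =>
      have := hx (k, i)
      simp only [H, id, if_pos (show i ≤ n k by omega)] at this
      linarith
  obtain ⟨j₀, hj₀⟩ := mem_iUnion.1 (hV2 k ▸ mem_univ _ : (⟨_, hk⟩ : A k) ∈ ⋃ j, V k j)
  have e4 : v k 0 (x, D.φ x) ≠ 0 := e3 _ (σ k j₀).2 ▸ e2 _ ⟨hk, j₀, rfl, hj₀⟩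
  have e5 : ∀ i : Fin (n k + 2), ∃ j, σ k j = i ∧ (⟨_, hk⟩ : A k) ∈ V k j := by
    intro i
    obtain ⟨_, j, h1, h2⟩ := e1 i (by rw [e3 i i.2]; exact e4)
    exact ⟨j, Fin.ext h1, h2⟩
  choose τ hτ1 hτ2 using e5
  have := ncard_le_ncard_of_injOn (s := univ) (t := {j | (⟨_, hk⟩ : A k) ∈ V k j}) τ
    (fun i _ => hτ2 i) (fun a _ b _ hab => by rw [← hτ1 a, ← hτ1 b, hab])
  have h5 := hV4 k ⟨_, hk⟩
  simp only [ncard_univ, Nat.card_eq_fintype_card, Fintype.card_fin] at this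
  omega

end Pool.Agent.H84.DimE
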