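import Mathlib

set_option autoImplicit false

namespace Pool.Agent.H84.DivDefs

open Classical

variable {X : Type}

/-- diversities -/
def IsDiv (δ : Finset X → ℝ) : Prop :=
  (∀ A, 0 ≤ δ A) ∧ (∀ A, δ A = 0 ↔ A.card ≤ 1) ∧
    ∀ A B C : Finset X, C.Nonempty → δ (A ∪ B) ≤ δ (A ∪ C) + δ (B ∪ C)

/-- the induced metric -/
noncomputable def ind (δ : Finset X → ℝ) (x y : X) : ℝ := δ {x, y}

/-- the `ℓ₁` diversity -/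
noncomputable def l1 {k : ℕ} (A : Finset (Fin k → ℝ)) : ℝ :=
  ∑ i, sSup {r | ∃ a ∈ A, ∃ b ∈ A, r = |a i - b i|}

/-- `φ` has distortion `c` -/
def HasDist (δ : Finset X → ℝ) {k : ℕ} (φ : X → Fin k → ℝ) (c : ℝ) : Prop :=
  ∃ c₁ c₂ : ℝ, 0 < c₁ ∧ 0 < c₂ ∧ c = c₁ * c₂ ∧
    ∀ A : Finset X, 1 / c₁ * δ A ≤ l1 (A.image φ) ∧ l1 (A.image φ) ≤ c₂ * δ A

end Pool.Agent.H84.DivDefs
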