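import Mathlib
import Pool.Agent.H84.DivDefs

set_option autoImplicit false

namespace Pool.Agent.H84.DivEx

open Classical DivDefs Finset

variable {X : Type}

noncomputable def dv (B S : Finset X) : ℝ :=
  if S.card ≤ 1 then 0 else max 1 (((S ∩ B).card : ℝ) / 2)

theorem dv_nonneg (B S : Finset X) : 0 ≤ dv B S := by
  unfold dv; split_ifs
  · rfl
  · exact le_max_of_le_left zero_le_one

theorem dv_mono (B : Finset X) {S T : Finset X} (h : S ⊆ T) : dv B S ≤ dv B T := by
  have h1 := card_le_card h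
  unfold dv; split_ifs with h2 h3
  · rfl
  · exact le_max_of_le_left zero_le_one
  · omega
  · gcongr

theorem dv_div (B : Finset X) : IsDiv (dv B) := by
  refine ⟨dv_nonneg B, fun A => ⟨fun h => ?_, fun h => if_pos h⟩, fun A A' C hC => ?_⟩
  · by_contra h'
    rw [dv, if_neg h'] at h
    linarith [le_max_left 1 (((A ∩ B).card : ℝ) / 2)]
  · have k : ∀ A : Finset X, (A ∪ C).card ≤ 1 → A ⊆ C := fun A h a ha => by
      obtain ⟨c, hc⟩ := hC
      rwa [card_le_one.1 h a (mem_union_left _ ha) c (mem_union_right _ hc)]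
    by_cases h1 : (A ∪ C).card ≤ 1
    · have := dv_mono B (show A ∪ A' ⊆ A' ∪ C from
        union_subset ((k A h1).trans subset_union_right) subset_union_left)
      linarith [dv_nonneg B (A ∪ C)]
    by_cases h2 : (A' ∪ C).card ≤ 1
    · have := dv_mono B (show A ∪ A' ⊆ A ∪ C from
        union_subset subset_union_left ((k A' h2).trans subset_union_right))
      linarith [dv_nonneg B (A' ∪ C)]
    have h3 : ((A ∪ A') ∩ B).card ≤ ((A ∪ C) ∩ B).card + ((A' ∪ C) ∩ B).card := by
      refine le_trans (card_le_card ?_) (card_union_le _ _)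
      intro a; simp only [mem_inter, mem_union]; tauto
    have h4 : (((A ∪ A') ∩ B).card : ℝ) ≤ ((A ∪ C) ∩ B).card + ((A' ∪ C) ∩ B).card := by
      exact_mod_cast h3
    have a1 := le_max_left 1 ((((A ∪ C) ∩ B).card : ℝ) / 2)
    have a2 := le_max_right 1 ((((A ∪ C) ∩ B).card : ℝ) / 2)
    have a3 := le_max_left 1 ((((A' ∪ C) ∩ B).card : ℝ) / 2)
    have a4 := le_max_right 1 ((((A' ∪ C) ∩ B).card : ℝ) / 2)
    unfold dv
    rw [if_neg h1, if_neg h2]
    split_ifs
    · linarith
    · exact max_le (by linarith) (by linarith)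

theorem ind_dv (B : Finset X) : ind (dv B) = fun x y => if x = y then 0 else 1 := by
  funext x y
  unfold ind dv
  by_cases h : x = y
  · simp [h]
  · rw [if_neg h, if_neg (by rw [card_pair h]; norm_num)]
    refine max_eq_left ?_
    have : (({x, y} ∩ B).card : ℝ) ≤ 2 := by
      exact_mod_cast (card_le_card inter_subset_left).trans (card_pair h).le
    linarith

theorem lower {k : ℕ} (φ : X → Fin k → ℝ) {B B' : Finset X} (hd : Disjoint B B') (h : 2 ≤ B.card)
    (h' : 2 ≤ B'.card) (hl : l1 (B.image φ) ≤ l1 (B'.image φ)) {c : ℝ} (hc : HasDist (dv B) φ c) :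
    (B.card : ℝ) / 2 ≤ c := by
  obtain ⟨c₁, c₂, h1, h2, rfl, h3⟩ := hc
  have a1 := (h3 B).1
  have a2 := (h3 B').2
  have e1 : (B.card : ℝ) / 2 ≤ dv B B := by
    rw [dv, if_neg (by omega), inter_self]; exact le_max_right _ _
  have e2 : dv B B' = 1 := by
    rw [dv, if_neg (by omega), disjoint_iff_inter_eq_empty.1 hd.symm]; simp
  rw [e2, mul_one] at a2
  have : 1 / c₁ * dv B B ≤ c₂ := a1.trans (hl.trans a2)
  rw [one_div, inv_mul_le_iff₀ h1] at this
  linarith

theorem main [Fintype X] (hX : 4 ≤ Fintype.card X) (k : (X → X → ℝ) → ℕ)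
    (φ : ∀ d : X → X → ℝ, X → Fin (k d) → ℝ) :
    ∃ δ : Finset X → ℝ, IsDiv δ ∧
      ∀ c : ℝ, HasDist δ (φ (ind δ)) c → ((Fintype.card X : ℝ) - 1) / 4 ≤ c := by
  obtain ⟨B, -, hB⟩ := exists_subset_card_eq (s := (univ : Finset X)) (n := Fintype.card X / 2)
    (by rw [card_univ]; omega)
  have hB' : Fintype.card X / 2 ≤ Bᶜ.card := by rw [card_compl, hB]; omega
  have e1 : (Fintype.card X : ℝ) - 1 ≤ 2 * (Fintype.card X / 2 : ℕ) := by
    have : Fintype.card X ≤ 2 * (Fintype.card X / 2) + 1 := by omega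
    have : (Fintype.card X : ℝ) ≤ 2 * (Fintype.card X / 2 : ℕ) + 1 := by exact_mod_cast this
    linarith
  rcases le_total (l1 (B.image (φ fun x y => if x = y then 0 else 1)))
    (l1 (Bᶜ.image (φ fun x y => if x = y then 0 else 1))) with h | h
  · refine ⟨dv B, dv_div B, fun c hc => ?_⟩
    rw [ind_dv] at hc
    have := lower _ disjoint_compl_right (by omega) (by omega) h hc
    rw [hB] at this
    linarith
  · refine ⟨dv Bᶜ, dv_div _, fun c hc => ?_⟩
    rw [ind_dv] at hc
    have := lower _ disjoint_compl_left (by omega) (by omega) h hc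
    have h2 : ((Fintype.card X / 2 : ℕ) : ℝ) ≤ Bᶜ.card := by exact_mod_cast hB'
    linarith

end Pool.Agent.H84.DivEx
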