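import Pool.Agent.H84.DtDefs
import Pool.Agent.H42.Reg

/-! Under PFA a sequence of disjoint types of depth one has no guessing sequence. -/

namespace Pool.Agent.H84.Dt

open Set Order Pool.Agent.H84.DtDefs
open scoped Cardinal

instance : NoMaxOrder W1 := Cardinal.noMaxOrder (Cardinal.aleph0_le_aleph 1)

theorem bdd {s : Set W1} (hs : s.Countable) : ∃ b, ∀ a ∈ s, a ≤ b := by
  by_contra c
  push Not at c
  have hlt : ∀ i : W1, (Iio i).Countable := fun i =>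
    Cardinal.le_aleph0_iff_set_countable.1 (Cardinal.lt_aleph_one_iff.1
      ((Cardinal.mk_Iio_lt i (by simp)).trans_eq (Cardinal.mk_ord_toType _)))
  have := Cardinal.le_aleph0_iff_set_countable.2 ((hs.biUnion fun a _ => hlt a).mono
    (fun b _ => mem_iUnion₂.2 (by simpa using c b) : univ ⊆ _))
  simp at this

/-- Conditions of the forcing notion. -/
@[ext] structure Cond (C : W1 → ℕ → W1) where
  /-- the height -/
  ht : W1
  /-- the approximation -/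
  K : W1 → Set ℕ
  inf : ∀ ξ < ht, (K ξ).Infinite
  emp : ∀ ξ, ht ≤ ξ → K ξ = ∅
  gap : ∀ β ≤ ht, IsSuccLimit β → ∃ k ∈ K (C β 0), ∀ ζ, C β k < ζ → ζ < C β (k + 1) → k ∉ K ζ

variable {C : W1 → ℕ → W1}

instance : PartialOrder (Cond C) where
  le q p := p.ht ≤ q.ht ∧ ∀ ξ < p.ht, q.K ξ = p.K ξ
  le_refl _ := ⟨le_rfl, fun _ _ => rfl⟩
  le_trans _ _ _ a b := ⟨b.1.trans a.1, fun ξ h => (a.2 ξ (h.trans_le b.1)).trans (b.2 ξ h)⟩
  le_antisymm p q a b := Cond.ext (b.1.antisymm a.1) (funext fun ξ => by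
    rcases lt_or_ge ξ q.ht with h | h
    · exact a.2 ξ h
    · rw [q.emp ξ h, p.emp ξ (b.1.trans h)])

theorem gap_of (hC : CSeq C) (p : Cond C) {K : W1 → Set ℕ} (h : ∀ ξ < p.ht, K ξ = p.K ξ) {β : W1}
    (h1 : β ≤ p.ht) (h2 : IsSuccLimit β) :
    ∃ k ∈ K (C β 0), ∀ ζ, C β k < ζ → ζ < C β (k + 1) → k ∉ K ζ := by
  obtain ⟨k, a, b⟩ := p.gap β h1 h2
  have c := fun n => ((hC β h2).2.1 n).trans_le h1
  exact ⟨k, h _ (c 0) ▸ a, fun ζ d e => h ζ (e.trans (c _)) ▸ b ζ d e⟩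

/-- Extensions that omit the values in `E`. -/
def Om (E : Set ℕ) (q p : Cond C) : Prop := q ≤ p ∧ ∀ ζ, p.ht ≤ ζ → ∀ k ∈ E, k ∉ q.K ζ

theorem Om.trans {E : Set ℕ} {r q p : Cond C} (a : Om E r q) (b : Om E q p) : Om E r p :=
  ⟨a.1.trans b.1, fun ζ h => by
    rcases lt_or_ge ζ q.ht with c | c
    · rw [a.1.2 ζ c]
      exact b.2 ζ h
    · exact a.2 ζ c⟩

theorem run (hC : CSeq C) {γ : W1} (hγ : IsSuccLimit γ) {N : Set (Cond C)}
    (h1 : ∀ p ∈ N, p.ht < γ) (h2 : ∀ p ∈ N, ∀ ξ < γ, ∀ E : Set ℕ, E.Finite →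
      ∃ q ∈ N, Om E q p ∧ ξ < q.ht) {E : Set ℕ} (hE : E.Finite) (T : ℕ → Set (Cond C))
    (h3 : ∀ n, ∀ p ∈ N, ∃ q ∈ N, Om E q p ∧ q ∈ T n) {p : Cond C} (hp : p ∈ N) :
    ∃ q, q.ht = γ ∧ Om E q p ∧ ∀ n, ∃ d ∈ N, d ∈ T n ∧ q ≤ d := by
  classical
  obtain ⟨c1, c2, c3⟩ := hC γ hγ
  obtain ⟨p1, a1, a2, a3⟩ := h2 p hp _ (c2 0) E hE
  obtain ⟨m, hm⟩ := c3 _ (h1 _ a1)
  obtain ⟨k, k1, k2⟩ := (p1.inf _ a3).exists_gt m
  obtain ⟨p2, b1, b2, b3⟩ := h2 p1 a1 _ (c2 (k + 1)) _ (hE.insert k)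
  have h4 : ∀ n, ∀ p : N, ∃ q : N, Om E q.1 p.1 ∧ q.1 ∈ T n ∧ C γ n < q.1.ht := fun n p => by
    obtain ⟨q, d1, d2, d3⟩ := h2 p p.2 _ (c2 n) E hE
    obtain ⟨r, e1, e2, e3⟩ := h3 n q d1
    exact ⟨⟨r, e1⟩, e2.trans d2, e3, d3.trans_le e2.1.1⟩
  choose g g1 g2 g3 using h4
  let s : ℕ → N := fun n => Nat.rec ⟨p2, b1⟩ g n
  have s1 : ∀ n, Om E (s n).1 p := fun n => by
    induction n with
    | zero => exact Om.trans ⟨b2.1, fun ζ h k hk => b2.2 ζ h k (.inr hk)⟩ a2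
    | succ n ih => exact (g1 n _).trans ih
  have s2 : Antitone fun n => (s n).1 := antitone_nat_of_succ_le fun n => (g1 n _).1
  have s3 : ∀ ξ < γ, ∃ n, ξ < (s n).1.ht := fun ξ h =>
    let ⟨n, hn⟩ := c3 ξ h
    ⟨n + 1, hn.trans (g3 n _)⟩
  choose! i hi using s3
  let K : W1 → Set ℕ := fun ξ => if ξ < γ then (s (i ξ)).1.K ξ else ∅
  have s4 : ∀ n, ∀ ξ < (s n).1.ht, K ξ = (s n).1.K ξ := fun n ξ h => by
    have d := h.trans (h1 _ (s n).2)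
    simp only [K, if_pos d]
    rcases le_total n (i ξ) with e | e
    · exact (s2 e).2 ξ h
    · exact ((s2 e).2 ξ (hi ξ d)).symm
  let q : Cond C := ⟨γ, K, fun ξ h => s4 _ ξ (hi ξ h) ▸ (s _).1.inf ξ (hi ξ h),
    fun ξ h => if_neg h.not_gt, fun β h hβ => by
      rcases h.eq_or_lt with rfl | h
      · refine ⟨k, ?_, fun ζ d e => ?_⟩
        · rw [s4 0 _ (a3.trans_le b2.1.1)]
          exact (b2.1.2 _ a3).ge k1
        · rw [s4 0 _ (e.trans b3)]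
          exact b2.2 ζ (hm.trans ((c1 k2).trans d)).le k (.inl rfl)
      · exact gap_of hC _ (s4 _) (hi β h).le hβ⟩
  have s5 : ∀ n, q ≤ (s n).1 := fun n => ⟨(h1 _ (s n).2).le, s4 n⟩
  refine ⟨q, rfl, ⟨(s5 0).trans (s1 0).1, fun ζ h => ?_⟩,
    fun n => ⟨_, (s (n + 1)).2, g2 n _, s5 (n + 1)⟩⟩
  rcases lt_or_ge ζ γ with d | d
  · rw [(s5 _).2 ζ (hi ζ d)]
    exact (s1 _).2 ζ h
  · simp [q.emp ζ d]

theorem extend (hC : CSeq C) (γ : W1) : ∀ p : Cond C, p.ht ≤ γ → ∀ E : Set ℕ, E.Finite →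
    ∃ q, q.ht = γ ∧ Om E q p := by
  classical
  induction γ using WellFoundedLT.induction with
  | ind γ ih =>
    intro p hp E hE
    rcases hp.eq_or_lt with h | h
    · exact ⟨p, h, le_rfl, fun ζ c => by simp [p.emp ζ c]⟩
    by_cases c : IsSuccPrelimit γ
    · obtain ⟨q, a, b, -⟩ := run hC ⟨h.not_isMin, c⟩ (N := {p | p.ht < γ}) (fun _ h => h)
        (fun p hp ξ hξ E hE => by
          obtain ⟨δ, d1, d2⟩ := c.lt_iff_exists_lt.1 (max_lt hp hξ)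
          obtain ⟨q, a, b⟩ := ih δ d1 p (le_of_max_le_left d2.le) E hE
          exact ⟨q, a.trans_lt d1, b, ((le_max_right _ _).trans_lt d2).trans_eq a.symm⟩)
        hE (fun _ => univ) (fun _ p hp => ⟨p, hp, ⟨le_rfl, fun ζ c => by simp [p.emp ζ c]⟩,
          trivial⟩) h
      exact ⟨q, a, b⟩
    · obtain ⟨δ, d⟩ : ∃ δ, δ ⋖ γ := by simpa [IsSuccPrelimit] using c
      obtain ⟨q, rfl, b⟩ := ih δ d.lt p (d.le_of_lt h) E hE
      have e : ∀ ξ < q.ht, Function.update q.K q.ht Eᶜ ξ = q.K ξ := fun ξ h =>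
        Function.update_of_ne h.ne _ _
      refine ⟨⟨γ, Function.update q.K q.ht Eᶜ, fun ξ h => ?_, fun ξ h => ?_, fun β h hβ => ?_⟩,
        rfl, Om.trans ⟨⟨d.le, e⟩, fun ζ h k hk => ?_⟩ b⟩
      · rcases (d.le_of_lt h).eq_or_lt with rfl | h
        · simpa using hE.infinite_compl
        · exact e ξ h ▸ q.inf ξ h
      · rw [Function.update_of_ne (d.lt.trans_le h).ne', q.emp ξ (d.le.trans h)]
      · exact gap_of hC q e (d.le_of_lt (h.lt_of_ne fun f => c (f ▸ hβ.isSuccPrelimit))) hβ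
      · rcases h.eq_or_lt with rfl | h
        · simpa
        · simp [Function.update_of_ne h.ne', q.emp ζ h.le]

theorem above (hC : CSeq C) (p : Cond C) (ξ : W1) {E : Set ℕ} (hE : E.Finite) :
    ∃ q, Om E q p ∧ ξ < q.ht := by
  obtain ⟨γ, h⟩ := exists_gt (max p.ht ξ)
  obtain ⟨q, rfl, b⟩ := extend hC γ p (le_of_max_le_left h.le) E hE
  exact ⟨q, b, (le_max_right _ _).trans_lt h⟩

theorem closure {X : Type} [Nonempty X] (g : X → X → ℕ → X) : ∃ F : Finset X → ℕ → X,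
    ∀ N : Set X, (∀ s : Finset X, (s : Set X) ⊆ N → ∀ n, F s n ∈ N) →
      ∀ x ∈ N, ∀ y ∈ N, ∀ n, g x y n ∈ N := by
  classical
  choose F hF using fun s : Finset X => ((s.countable_toSet.biUnion fun x _ =>
    s.countable_toSet.biUnion fun y _ => countable_range (g x y)).insert
      (Classical.arbitrary X)).exists_eq_range (insert_nonempty _ _)
  refine ⟨F, fun N h x hx y hy n => ?_⟩
  obtain ⟨m, hm⟩ : g x y n ∈ range (F {x, y}) := hF _ ▸ .inr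
    (mem_biUnion (x := x) (by simp) (mem_biUnion (x := y) (by simp) ⟨n, rfl⟩))
  exact hm ▸ h _ (by simp [insert_subset_iff, hx, hy]) m

theorem proper (hC : CSeq C) : Proper (Cond C) := by
  classical
  obtain ⟨e, he⟩ := exists_surjective_nat (Finset ℕ)
  choose u u1 u2 using fun (p r : Cond C) n => above hC p r.ht (e n).finite_toSet
  choose! d d1 d2 using fun (p : Cond C) (D : Set (Cond C)) (h : IsDense D) => h p
  obtain ⟨F, hF⟩ := closure (X := Cond C ⊕ Set (Cond C)) fun x y n =>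
    x.elim (fun p => y.elim (fun r => .inl (u p r n)) fun D => .inl (d p D)) fun _ => x
  refine ⟨F, fun N hN h p hp => ?_⟩
  have h1 : ∀ p r n, .inl p ∈ N → .inl r ∈ N → .inl (u p r n) ∈ N := fun p r n a b =>
    hF N h _ a _ b n
  obtain ⟨b, hb⟩ := bdd ((hN.preimage Sum.inl_injective).image Cond.ht)
  obtain ⟨γ, c1, -, c2⟩ := H42.Reg.exists_lub _ b hb
  have c3 : ∀ r, .inl r ∈ N → r.ht < γ := fun r a =>
    (u2 r r 0).trans_le (c1 _ ⟨_, h1 r r 0 a a, rfl⟩)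
  obtain ⟨T, hT⟩ := (((hN.preimage Sum.inr_injective).mono (inter_subset_left (t := {D | IsDense D}))
    ).insert univ).exists_eq_range (insert_nonempty _ _)
  obtain ⟨q, -, a, c⟩ := run hC (γ := γ) ⟨(c3 p hp).not_isMin, fun δ c => by
      obtain ⟨_, ⟨r, a, rfl⟩, f⟩ := c2 δ c.lt
      exact c.2 f (c3 r a)⟩ (N := Sum.inl ⁻¹' N) c3
    (fun p hp ξ hξ E hE => by
      obtain ⟨_, ⟨r, a, rfl⟩, f⟩ := c2 ξ hξ
      obtain ⟨n, hn⟩ := he hE.toFinset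
      exact ⟨u p r n, h1 p r n hp a, by simpa [hn] using u1 p r n, f.trans (u2 p r n)⟩)
    finite_empty T (fun n p hp => by
      rcases (hT ▸ mem_range_self n : T n ∈ insert univ _) with f | f
      · exact ⟨p, hp, ⟨le_rfl, by simp⟩, f ▸ trivial⟩
      · exact ⟨d p (T n), hF N h _ hp _ f.1 0, ⟨d2 p _ f.2, by simp⟩, d1 p _ f.2⟩) hp
  refine ⟨q, a.1, fun D f g r hr => ?_⟩
  obtain ⟨n, rfl⟩ : D ∈ range T := hT ▸ .inr ⟨f, g⟩
  obtain ⟨x, x1, x2, x3⟩ := c n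
  exact ⟨x, x2, x1, r, hr.trans x3, le_rfl⟩

theorem between {a b : ℕ → W1} (ha : StrictMono a) (hb : StrictMono b) {k : ℕ} {e : ℕ → W1}
    (he : StrictMonoOn e (Iio (2 * (k + 2))))
    (h1 : a '' Iio (k + 2) = e '' {i | i < 2 * (k + 2) ∧ ¬ (i = k + 1 ∨ k + 3 ≤ i)})
    (h2 : b '' Iio (k + 2) = e '' {i | i < 2 * (k + 2) ∧ (i = k + 1 ∨ k + 3 ≤ i)}) :
    a k < b 0 ∧ b 0 < a (k + 1) := by
  obtain ⟨i, ⟨i1, i2⟩, i3⟩ := h2.le ⟨0, by simp, rfl⟩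
  obtain ⟨j, ⟨j1, j2⟩, j3⟩ := h1.le ⟨k, by simp, rfl⟩
  obtain ⟨l, ⟨l1, l2⟩, l3⟩ := h1.le ⟨k + 1, by simp, rfl⟩
  obtain ⟨m, -, m2⟩ := h2.ge ⟨k + 1, ⟨by omega, by omega⟩, rfl⟩
  obtain ⟨n, n1, n2⟩ := h1.ge ⟨k + 2, ⟨by omega, by omega⟩, rfl⟩
  have p1 := (he.le_iff_le i1 (show k + 1 < _ by omega)).1 (by
    rw [i3, ← m2]; exact hb.monotone (Nat.zero_le _))
  have p2 := (he.lt_iff_lt j1 l1).1 (by rw [j3, l3]; exact ha (by omega))
  have p3 := (he.le_iff_le (show k + 2 < _ by omega) l1).1 (by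
    rw [l3, ← n2]; exact ha.monotone (Nat.le_of_lt_succ n1))
  rw [← i3, ← j3, ← l3]
  exact ⟨he j1 i1 (by omega), he i1 l1 (by omega)⟩

theorem main (pfa : PFA) : ∃ (w : ℕ → ℕ) (t : ℕ → ℕ → Bool),
    (∀ k, IsType (w k) (t k) ∧ DepthLe (w k) (t k) 1) ∧ ∀ C, CSeq C → ¬ Guessing C w t := by
  classical
  refine ⟨fun k => k + 2, fun k i => decide (i = k + 1 ∨ k + 3 ≤ i), fun k => ⟨⟨by simp, ?_⟩,
    true, k + 3, by beta_reduce; omega, by simp, ?_, fun x _ h => by simp at h; omega⟩, fun C hC hG => ?_⟩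
  · rw [show Finset.filter _ _ = insert (k + 2) (Finset.range (k + 1)) by ext; simp; omega]
    simp
  · rw [show Finset.filter _ _ = {k + 1} by ext; simp; omega]
    simp
  obtain ⟨o, ho⟩ := wellFounded_lt.has_min (univ : Set W1) (by
    rw [← nonempty_coe_sort, ← Cardinal.mk_ne_zero_iff]
    simpa using (Cardinal.aleph_pos 1).ne')
  have : Nonempty (Cond C) := ⟨⟨o, fun _ => ∅, fun ξ h => absurd h (ho.2 ξ trivial),
    fun _ _ => rfl, fun β h c => absurd (fun x _ => h.trans (not_lt.1 (ho.2 x trivial)))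
      c.not_isMin⟩⟩
  obtain ⟨G, -, g1, g2⟩ := pfa (Cond C) (proper hC) (range fun γ => {p | γ < p.ht})
    (Cardinal.mk_range_le.trans (by simp)) (by
      rintro _ ⟨γ, rfl⟩ p
      obtain ⟨q, a, b⟩ := above hC p γ finite_empty
      exact ⟨q, b, a.1⟩)
  choose g g3 g4 using fun γ => g2 _ ⟨γ, rfl⟩
  choose! f f1 f2 using fun β => gap_of hC (g β) (K := fun ξ => (g ξ).K ξ) (fun ξ h => by
    obtain ⟨r, -, a, b⟩ := g1 _ (g3 ξ) _ (g3 β)
    exact (a.2 ξ (g4 ξ)).symm.trans (b.2 ξ h)) (le_of_lt (g4 β))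
  obtain ⟨α, β, k, a, b, -, rfl, c, ⟨e, e1, e2, e3⟩ | ⟨e, e1, e2, e3⟩⟩ := hG f
  · have := between (hC α a).1 (hC β b).1 e1 (by simpa using e2) (by simpa using e3)
    exact f2 α a _ this.1 this.2 (c ▸ f1 β b)
  · have := between (hC β b).1 (hC α a).1 e1 (by simpa using e3) (by simpa [← or_iff_not_imp_left] using e2)
    rw [← c] at this
    exact f2 β b _ this.1 this.2 (c ▸ f1 α a)

end Pool.Agent.H84.Dt
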