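import Pool.Agent.H84.ElDefs

/-! Finite patchworks of branches of a Kurepa tree. -/

namespace Pool.Agent.H84.El

open Set Cardinal Topology Filter Pool.Agent.H84.ElDefs

theorem lt12 : (aleph 1 : Cardinal.{0}) < aleph 2 := aleph_lt_aleph.2 one_lt_two

theorem mkW : #W = aleph 2 := mk_ord_toType _

theorem mkIic (a : W) : #(Iic a) ≤ aleph 1 := by
  have : #(Iio a) ≤ aleph 1 := Order.lt_succ_iff.1 ((mk_Iio_lt a (by simp)).trans_eq (by
    rw [mkW, succ_aleph, one_add_one_eq_two]))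
  rw [← Iio_insert]
  exact mk_insert_le.trans (add_le_of_le (aleph0_le_aleph 1) this
    (one_le_aleph0.trans (aleph0_le_aleph 1)))

theorem bound {I : Type} (h : #I ≤ aleph 1) (c : I → W) : ∃ γ, ∀ i, c i < γ := by
  by_contra! q
  exact lt12.not_ge (mkW.ge.trans (mk_univ.ge.trans ((mk_le_mk_of_subset (t := ⋃ i, Iic (c i))
    fun γ _ => mem_iUnion.2 (q γ)).trans ((mk_iUnion_le _).trans (mul_le_of_le (aleph0_le_aleph 1) h
      (ciSup_le' fun i => mkIic _))))))

instance : Nonempty W := mk_ne_zero_iff.1 (mkW ▸ (aleph_pos _).ne')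

/-- Restriction. -/
abbrev res (α : W) (x : W → W) : Iio α → W := fun β => x β.1

theorem res_iff {α : W} {x y : W → W} : res α x = res α y ↔ ∀ β < α, x β = y β :=
  ⟨fun h β r => congrFun h ⟨β, r⟩, fun h => funext fun β => h _ β.2⟩

theorem opn {U : Set (W → W)} : IsOpen[bdd] U ↔ ∀ x ∈ U, ∃ α, ∀ y, res α y = res α x → y ∈ U := by
  let := bdd
  refine ⟨fun h => ?_, fun h => isOpen_iff_forall_mem_open.2 fun x r => (h x r).elim fun α s =>
    ⟨_, s, TopologicalSpace.isOpen_generateFrom_of_mem ⟨α, _, rfl⟩, rfl⟩⟩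
  induction h with
  | basic _ h => obtain ⟨α, σ, rfl⟩ := h; exact fun x r => ⟨α, fun y s => s.trans r⟩
  | univ => exact fun x _ => ⟨Classical.arbitrary W, fun _ _ => trivial⟩
  | inter _ _ _ _ a b => exact fun x r => (a x r.1).elim fun α s => (b x r.2).elim fun β t =>
      ⟨max α β, fun y e => ⟨s y (res_iff.2 fun γ c => res_iff.1 e γ (lt_max_of_lt_left c)),
        t y (res_iff.2 fun γ c => res_iff.1 e γ (lt_max_of_lt_right c))⟩⟩
  | sUnion _ _ a => exact fun x ⟨V, r, s⟩ => (a V r x s).imp fun _ t y e => ⟨V, r, t y e⟩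

theorem cont {f : (W → W) → W → W} : Continuous[bdd, bdd] f ↔
    ∀ x α, ∃ β, ∀ y, res β y = res β x → res α (f y) = res α (f x) := by
  let := bdd
  refine continuous_generateFrom_iff.trans ⟨fun h x α => opn.1 (h _ ⟨α, _, rfl⟩) x rfl, ?_⟩
  rintro h _ ⟨α, σ, rfl⟩
  exact opn.2 fun x r => (h x α).imp fun _ s y e => (s y e).trans r

open Classical in
/-- Patchworks. -/
noncomputable def pw (x₀ : W → W) : List ((W → W) × W) → W → W
  | [] => x₀
  | p :: l => fun β => if β < p.2 then pw x₀ l β else p.1 β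

theorem main {T : ∀ α : W, Set (Iio α → W)} (hT : Kurepa T) (hI : Image (Body T)) :
    ∃ S, Kurepa S ∧ Large S ∧ Image (Body S) := by
  classical
  obtain ⟨-, t2, t3⟩ := hT
  obtain ⟨f, f1, f2⟩ := hI
  obtain ⟨⟨x₀, h₀⟩⟩ : Nonempty (Body T) := mk_ne_zero_iff.1 (zero_le.trans_lt t3).ne'
  let Y : Set (W → W) := pw x₀ '' {l | ∀ p ∈ l, p.1 ∈ Body T}
  have y0 : x₀ ∈ Y := ⟨[], by simp, rfl⟩
  have y1 : ∀ y ∈ Y, ∀ x ∈ Body T, ∀ α, (fun β => if β < α then y β else x β) ∈ Y := by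
    rintro _ ⟨l, r, rfl⟩ x s α
    exact ⟨(x, α) :: l, List.forall_mem_cons.2 ⟨s, r⟩, rfl⟩
  have y2 : ∀ α, #(res α '' Y) ≤ aleph 1 := fun α => by
    let G : List (T α × Iic α) → Iio α → W := fun m =>
      m.rec (res α x₀) fun p _ g β => if β.1 < p.2.1 then g β else p.1.1 β
    have := (t2 α).1.to_subtype
    refine (mk_le_mk_of_subset (t := range G) ?_).trans (mk_range_le.trans ?_)
    · rintro _ ⟨_, ⟨l, r, rfl⟩, rfl⟩
      induction l with
      | nil => exact ⟨[], rfl⟩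
      | cons p l ih =>
        obtain ⟨m, e⟩ := ih (List.forall_mem_cons.1 r).2
        exact ⟨(⟨_, r p (by simp) α⟩, ⟨min p.2 α, mem_Iic.2 (min_le_right _ _)⟩) :: m, funext fun β =>
          if_congr (lt_min_iff.trans (and_iff_left β.2)) (congrFun e β) rfl⟩
    · rw [mk_list_eq_max, mk_prod, lift_id, lift_id]
      exact max_le (aleph0_le_aleph 1) (mul_le_of_le (aleph0_le_aleph 1) (t2 α).2 (mkIic α))
  have y3 : ∀ y ∈ Y, ∀ a : ℕ → W, Monotone a → ∀ᶠ n in atTop, ∃ x ∈ Body T,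
      ∀ γ, a n ≤ γ → γ < a (n + 1) → x γ = y γ := by
    rintro _ ⟨l, r, rfl⟩ a h
    induction l with
    | nil => exact .of_forall fun _ => ⟨x₀, h₀, fun _ _ _ => rfl⟩
    | cons p l ih =>
      by_cases c : ∃ n, p.2 ≤ a n
      · exact c.elim fun n s => (eventually_ge_atTop n).mono fun m t => ⟨p.1, r p (by simp),
          fun γ u _ => (if_neg (s.trans ((h t).trans u)).not_gt).symm⟩
      · exact (ih (List.forall_mem_cons.1 r).2).mono fun m t => t.imp fun x s => ⟨s.1, fun γ u v =>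
          (s.2 γ u v).trans (if_pos (v.trans (not_le.1 fun w => c ⟨_, w⟩))).symm⟩
  have y4 : Body (fun α => res α '' Y) = Y := Subset.antisymm (fun y hy => by
    obtain ⟨α, hα⟩ : ∃ α, ∀ β, ∃ x ∈ Body T, ∀ γ, α ≤ γ → γ < β → x γ = y γ := by
      by_contra! c
      choose b hb using c
      let a : ℕ → W := fun n => n.rec (Classical.arbitrary W) fun _ α => max α (b α)
      obtain ⟨δ, hδ⟩ := bound (mk_nat.le.trans (aleph0_le_aleph 1)) a
      obtain ⟨z, r, s⟩ := hy δ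
      obtain ⟨n, x, u, v⟩ := (y3 z r a (monotone_nat_of_le_succ fun _ => le_max_left _ _)).exists
      obtain ⟨γ, c1, c2, c3⟩ := hb (a n) x u
      have := lt_max_of_lt_right (b := a n) c2
      exact c3 ((v γ c1 this).trans (res_iff.1 s γ (this.trans (hδ (n + 1)))))
    obtain ⟨σ, hσ⟩ : ∃ σ : T α, ∀ β, ∃ x ∈ Body T, res α x = σ ∧
        ∀ γ, α ≤ γ → γ < β → x γ = y γ := by
      by_contra c
      choose b hb using fun σ => not_forall.1 (not_exists.1 c σ)
      obtain ⟨δ, hδ⟩ := bound (t2 α).2 b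
      obtain ⟨x, r, s⟩ := hα δ
      exact hb ⟨_, r α⟩ ⟨x, r, rfl, fun γ u v => s γ u (v.trans (hδ _))⟩
    obtain ⟨z, r, s⟩ := hy α
    convert y1 z r (fun γ => if h : γ < α then σ.1 ⟨γ, h⟩ else y γ) (fun β => ?_) α using 2 with γ
    · split_ifs with h
      exacts [(res_iff.1 s γ h).symm, rfl]
    · obtain ⟨x, u, v, w⟩ := hσ β
      convert u β using 2 with γ
      beta_reduce
      split_ifs with h
      exacts [(congrFun v ⟨γ, h⟩).symm, (w γ (not_lt.1 h) γ.2).symm]) fun y r α => ⟨y, r, rfl⟩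
  have y5 : Large fun α => res α '' Y := by
    rintro α _ ⟨y, r, rfl⟩
    rw [y4]
    refine not_le.1 fun c => t3.not_ge ((mk_le_of_injective (f := fun x : Body T =>
      ((⟨_, y1 y r x x.2 α, res_iff.2 fun β s => if_pos s⟩, ⟨_, x.2 α⟩) :
        ↥(Y ∩ {x | res α x = res α y}) × T α)) fun x x' e => Subtype.ext (funext fun β => ?_)).trans ?_)
    · simp only [Prod.mk.injEq, Subtype.mk.injEq] at e
      by_cases h : β < α
      exacts [congrFun e.2 ⟨β, h⟩, by simpa [h] using congrFun e.1 β]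
    · rw [mk_prod]
      simpa using mul_le_of_le (aleph0_le_aleph 2) c ((t2 α).2.trans lt12.le)
  let b : W := Classical.arbitrary W
  refine ⟨fun α => res α '' Y, ⟨?_, fun α => ⟨⟨_, x₀, y0, rfl⟩, y2 α⟩, (y5 b _ ⟨x₀, y0, rfl⟩).trans_le
    (mk_le_mk_of_subset inter_subset_left)⟩, y5, ?_⟩
  · rintro α β h _ ⟨y, r, rfl⟩
    exact ⟨y, r, rfl⟩
  obtain ⟨e⟩ : Nonempty (W ≃ W × W) := Cardinal.eq.1 (by simp)
  obtain ⟨j⟩ : Nonempty ((Σ α, res α '' Y) ↪ W) := (Cardinal.le_def _ _).1 (by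
    rw [mk_sigma, mkW]
    exact (sum_le_mk_mul_iSup _).trans (mul_le_of_le (aleph0_le_aleph 2) mkW.le
      (ciSup_le' fun α => (y2 α).trans lt12.le)))
  have : Nonempty (Σ α, res α '' Y) := ⟨⟨b, _, x₀, y0, rfl⟩⟩
  let F : (Σ α, res α '' Y) → (W → W) → W → W := fun i x β =>
    if h : β < i.1 then i.2.1 ⟨β, h⟩ else x β
  rw [y4]
  refine ⟨fun z => F (Function.invFun j (e (z b)).1) (f fun β => (e (z β)).2), cont.2 fun x α => ?_,
    Subset.antisymm ?_ ?_⟩
  · obtain ⟨β, h⟩ := cont.1 f1 (fun β => (e (x β)).2) α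
    obtain ⟨γ, c⟩ := bound (I := Bool) (mk_le_aleph0.trans (aleph0_le_aleph 1)) fun i => if i then b else β
    refine ⟨γ, fun y r => res_iff.2 fun δ s => ?_⟩
    have := res_iff.1 (h (fun β => (e (y β)).2) (res_iff.2 fun ε t =>
      congrArg (fun k => (e k).2) (res_iff.1 r ε (t.trans (c false))))) δ s
    simp only [F, res_iff.1 r b (c true), this]
  · rintro _ ⟨z, rfl⟩
    beta_reduce
    generalize Function.invFun j (e (z b)).1 = i
    obtain ⟨α, _, y, r, rfl⟩ := i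
    exact y1 y r _ (f2.le ⟨_, rfl⟩) α
  · have : ∀ y ∈ Y, ∀ x ∈ Body T, ∀ α, (fun β => if β < α then y β else x β) ∈ range fun z : W → W =>
        F (Function.invFun j (e (z b)).1) (f fun β => (e (z β)).2) := fun y r x s α => by
      obtain ⟨z, rfl⟩ := f2.ge s
      refine ⟨fun β => e.symm (j ⟨α, _, y, r, rfl⟩, z β), ?_⟩
      simp only [Equiv.apply_symm_apply, Function.leftInverse_invFun j.injective _]
      rfl
    rintro _ ⟨l, r, rfl⟩
    cases l with
    | nil => simpa [pw] using this x₀ y0 x₀ h₀ b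
    | cons p l => exact this _ ⟨l, (List.forall_mem_cons.1 r).2, rfl⟩ _ (r p (by simp)) _

end Pool.Agent.H84.El
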