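import Mathlib

/-! Kurepa subtrees of the tree of bounded sequences in `ω₂`. -/

namespace Pool.Agent.H84.ElDefs

open Set

/-- The set of ordinals below `ω₂`. -/
abbrev W : Type := (Cardinal.aleph 2).ord.ToType

/-- The bounded topology on the functions from `ω₂` to `ω₂`. -/
@[reducible] def bdd : TopologicalSpace (W → W) :=
  .generateFrom {N | ∃ (α : W) (σ : Iio α → W), N = {x | (fun β : Iio α => x β.1) = σ}}

/-- A subtree, given by its levels: a family of sequences closed under initial segments. -/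
def IsTree (T : ∀ α : W, Set (Iio α → W)) : Prop :=
  ∀ α β (h : β ≤ α), ∀ σ ∈ T α, (fun γ : Iio β => σ ⟨γ.1, lt_of_lt_of_le γ.2 h⟩) ∈ T β

/-- The set of branches. -/
def Body (T : ∀ α : W, Set (Iio α → W)) : Set (W → W) :=
  {x | ∀ α, (fun β : Iio α => x β.1) ∈ T α}

/-- `ω₂`-Kurepa trees. -/
def Kurepa (T : ∀ α : W, Set (Iio α → W)) : Prop :=
  IsTree T ∧ (∀ α, (T α).Nonempty ∧ Cardinal.mk (T α) ≤ Cardinal.aleph 1) ∧
    Cardinal.aleph 2 < Cardinal.mk (Body T)

/-- Every node lies on more than `ℵ₂` branches. -/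
def Large (T : ∀ α : W, Set (Iio α → W)) : Prop :=
  ∀ α, ∀ σ ∈ T α, Cardinal.aleph 2 <
    Cardinal.mk ↥(Body T ∩ {x | (fun β : Iio α => x β.1) = σ})

/-- Continuous images of the whole space. -/
def Image (A : Set (W → W)) : Prop :=
  ∃ f : (W → W) → W → W, @Continuous _ _ bdd bdd f ∧ range f = A

end Pool.Agent.H84.ElDefs
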