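import Pool.Agent.H84.FanDefs

open Set Filter Topology unitInterval

namespace Pool.Agent.H84.Fan

abbrev Γ := ℕ →₀ ℤ

/-- weights bounded below -/
def Wt := {c : ℕ → ℝ // ∀ k, 1 / 3 ≤ c k}

variable (c : Wt)

noncomputable def wt : Γ →+ ℝ :=
  Finsupp.liftAddHom fun k => (AddMonoidHom.mulLeft (c.1 k)).comp (Int.castAddHom ℝ)

@[simp] lemma wt_single (k : ℕ) (n : ℤ) : wt c (Finsupp.single k n) = c.1 k * n := by simp [wt]

lemma wt_nonneg {d : Γ} (h : 0 ≤ d) : 0 ≤ wt c d := by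
  simp only [wt, Finsupp.liftAddHom_apply, Finsupp.sum]
  refine Finset.sum_nonneg fun k _ => mul_nonneg (by linarith [c.2 k]) ?_
  have : (0 : ℤ) ≤ d k := h k
  exact Int.cast_nonneg this

lemma single_le {d : Γ} {k : ℕ} (h : 0 ≤ d) (hk : d k ≠ 0) : Finsupp.single k 1 ≤ d := fun j => by
  have h1 : (0 : ℤ) ≤ d j := h j
  have h2 : (0 : ℤ) ≤ d k := h k
  rw [Finsupp.single_apply]
  split_ifs with e
  · subst e; omega
  · exact h1

lemma wt_dec {d : Γ} (h : 0 ≤ d) (h0 : d ≠ 0) : ∃ k d', 0 ≤ d' ∧ wt c d = c.1 k + wt c d' := by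
  obtain ⟨k, hk⟩ := DFunLike.ne_iff.1 h0
  exact ⟨k, d - Finsupp.single k 1, sub_nonneg.2 (single_le h hk), by simp⟩

open Classical in
noncomputable def ph (b : Γ) (u : ℝ) : Γ → ℝ :=
  fun a => if a ≤ b then max 0 (u - wt c (b - a)) else 0

def S : Set (Γ → ℝ) := {z | ∃ b, ∃ u ≤ 1, z = ph c b u}

variable {c}

lemma ph_self (b : Γ) {u : ℝ} (h : 0 ≤ u) : ph c b u b = u := by simp [ph, h]

lemma ph_pos {b a : Γ} {u : ℝ} (h : ph c b u a ≠ 0) :
    a ≤ b ∧ ph c b u a = u - wt c (b - a) ∧ 0 < u - wt c (b - a) := by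
  unfold ph at h ⊢
  split_ifs at h ⊢ with e
  · have : 0 < u - wt c (b - a) := by
      by_contra hc
      exact h (max_eq_left (not_lt.1 hc))
    exact ⟨e, max_eq_right this.le, this⟩
  · exact (h rfl).elim

lemma ph_nonneg (b a : Γ) (u : ℝ) : 0 ≤ ph c b u a := by
  unfold ph
  split_ifs
  · exact le_max_left _ _
  · exact le_rfl

lemma ph_nonpos (b : Γ) {u : ℝ} (h : u ≤ 0) : ph c b u = 0 := funext fun a => by
  by_contra h0
  obtain ⟨h1, -, h2⟩ := ph_pos h0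
  linarith [wt_nonneg c (sub_nonneg.2 h1)]

lemma S_eq : S c = {z | (∀ a, z a ∈ Icc (0 : ℝ) 1) ∧
    (∀ a a', a ≤ a' → z a' = 0 ∨ z a = max 0 (z a' - wt c (a' - a))) ∧
    ∀ a a', z a = 0 ∨ z a' = 0 ∨ z a ≤ z (a ⊔ a')} := by
  ext z
  constructor
  · rintro ⟨b, u, hu, rfl⟩
    refine ⟨fun a => ⟨ph_nonneg _ _ _, ?_⟩, fun a a' h => ?_, fun a a' => ?_⟩
    · by_cases h : ph c b u a = 0
      · rw [h]; exact zero_le_one
      · obtain ⟨h1, h2, -⟩ := ph_pos h
        linarith [wt_nonneg c (sub_nonneg.2 h1)]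
    · refine or_iff_not_imp_left.2 fun h0 => ?_
      obtain ⟨h1, h2, -⟩ := ph_pos h0
      rw [h2, ph, if_pos (h.trans h1)]
      simp only [map_sub]
      congr 1
      ring
    · refine or_iff_not_imp_left.2 fun h0 => or_iff_not_imp_left.2 fun h0' => ?_
      obtain ⟨h1, h2, -⟩ := ph_pos h0
      rw [h2, ph, if_pos (sup_le h1 (ph_pos h0').1)]
      refine le_max_of_le_right ?_
      have := wt_nonneg c (sub_nonneg.2 (le_sup_left (a := a) (b := a')))
      simp only [map_sub] at this ⊢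
      linarith
  · rintro ⟨h1, h2, h3⟩
    by_cases hz : ∀ a, z a = 0
    · exact ⟨0, 0, zero_le_one, (funext hz).trans (ph_nonpos 0 le_rfl).symm⟩
    push Not at hz
    obtain ⟨a₀, ha₀⟩ := hz
    have bd : BddAbove (range z) := ⟨1, forall_mem_range.2 fun a => (h1 a).2⟩
    obtain ⟨b, hb⟩ : ∃ b, z b ≠ 0 ∧ ∀ a, z a < z b + 1 / 3 := by
      obtain ⟨_, ⟨b, rfl⟩, hb⟩ := exists_lt_of_lt_csSup (range_nonempty z)
        (show max 0 (sSup (range z) - 1 / 3) < sSup (range z) from max_lt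
          (((h1 a₀).1.lt_of_ne' ha₀).trans_le (le_csSup bd ⟨a₀, rfl⟩)) (by linarith))
      rw [max_lt_iff] at hb
      exact ⟨b, hb.1.ne', fun a => by linarith [le_csSup bd ⟨a, rfl⟩, hb.2]⟩
    refine ⟨b, z b, (h1 b).2, funext fun a => ?_⟩
    unfold ph
    split_ifs with e
    · exact (h2 a b e).resolve_left hb.1
    · by_contra ha
      have p1 := ((h3 b a).resolve_left hb.1).resolve_left ha
      have p0 := (h1 b).1.lt_of_ne' hb.1
      have p2 := (h2 b (b ⊔ a) le_sup_left).resolve_left (p0.trans_le p1).ne'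
      obtain ⟨k, d, h4, h5⟩ := wt_dec c (sub_nonneg.2 (le_sup_left (a := b) (b := a)))
        (fun h => e (sup_eq_left.1 (sub_eq_zero.1 h)))
      rcases max_choice 0 (z (b ⊔ a) - wt c (b ⊔ a - b)) with h | h <;>
      linarith [hb.2 (b ⊔ a), c.2 k, wt_nonneg c h4]

lemma S_cpt : IsCompact (S c) := by
  refine (isCompact_univ_pi fun _ : Γ => isCompact_Icc (a := (0 : ℝ)) (b := 1)).of_isClosed_subset
    ?_ fun z hz a _ => (S_eq ▸ hz).1 a
  rw [S_eq]
  simp only [ofPred_and, ofPred_forall, ofPred_or]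
  refine (isClosed_iInter fun a => isClosed_Icc.preimage (continuous_apply a)).inter
    ((isClosed_iInter fun a => isClosed_iInter fun a' => isClosed_iInter fun _ =>
      (isClosed_eq (by fun_prop) (by fun_prop)).union (isClosed_eq (by fun_prop) (by fun_prop))).inter
    (isClosed_iInter fun a => isClosed_iInter fun a' =>
      (isClosed_eq (by fun_prop) (by fun_prop)).union
        ((isClosed_eq (by fun_prop) (by fun_prop)).union (isClosed_le (by fun_prop) (by fun_prop)))))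

variable (c) in
def FF : Type := S c

noncomputable instance : MetricSpace (FF c) := TopologicalSpace.metrizableSpaceMetric (S c)

def val (z : FF c) : Γ → ℝ := z.1

lemma emb : IsEmbedding (val : FF c → Γ → ℝ) := IsEmbedding.subtypeVal

instance : CompactSpace (FF c) := isCompact_iff_compactSpace.1 S_cpt

lemma cv (a : Γ) : Continuous fun z : FF c => val z a := (continuous_apply a).comp emb.continuous

variable (c) in
noncomputable def pt (b : Γ) (u : ℝ) : FF c := ⟨ph c b (min u 1), b, _, min_le_right _ _, rfl⟩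

lemma val_pt (b : Γ) {u : ℝ} (h : u ≤ 1) : val (pt c b u) = ph c b u := by
  simp [val, pt, h]

lemma pt_cont (b : Γ) : Continuous (pt c b) := by
  refine emb.continuous_iff.2 (continuous_pi fun a => ?_)
  simp only [Function.comp, val, pt, ph]
  split_ifs <;> fun_prop

variable (c) in
noncomputable def top : FF c := pt c 0 0

lemma val_top : val (top c) = 0 := (val_pt 0 zero_le_one).trans (ph_nonpos 0 le_rfl)

lemma pt_top (b : Γ) {u : ℝ} (h : u ≤ 0) : pt c b u = top c :=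
  emb.injective (by rw [val_pt b (h.trans zero_le_one), ph_nonpos b h, val_top])

lemma val_self (b : Γ) {u : ℝ} (h : u ∈ Icc (0 : ℝ) 1) : val (pt c b u) b = u := by
  rw [val_pt b h.2, ph_self b h.1]

lemma pt_inj {b : Γ} {u v : ℝ} (hu : u ∈ Icc (0 : ℝ) 1) (hv : v ∈ Icc (0 : ℝ) 1)
    (h : pt c b u = pt c b v) : u = v := by
  rw [← val_self (c := c) b hu, h, val_self b hv]

lemma pt_bl {b b' : Γ} {u v : ℝ} (hu : u ∈ Ioc (0 : ℝ) 1) (hv : v ≤ 1)
    (h : pt c b u = pt c b' v) : b = b' := by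
  have e : ph c b u = ph c b' v := by rw [← val_pt b hu.2, h, val_pt b' hv]
  obtain ⟨h1, -, h2⟩ := ph_pos (c := c) (b := b') (a := b) (u := v)
    (by rw [← e, ph_self b hu.1.le]; exact hu.1.ne')
  have h3 : 0 < v := by linarith [wt_nonneg c (sub_nonneg.2 h1)]
  exact h1.antisymm (ph_pos (c := c) (b := b) (a := b') (u := u)
    (by rw [e, ph_self b' h3.le]; exact h3.ne')).1

lemma pt_ne {b : Γ} {u : ℝ} (hu : u ∈ Ioc (0 : ℝ) 1) : pt c b u ≠ top c := fun h =>
  hu.1.ne' (pt_inj ⟨hu.1.le, hu.2⟩ ⟨le_rfl, zero_le_one⟩ (h.trans (pt_top b le_rfl).symm))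

lemma ex_pt (z : FF c) : ∃ b, ∃ u ∈ Icc (0 : ℝ) 1, z = pt c b u := by
  obtain ⟨_, b, u, hu, rfl⟩ := z
  by_cases h : 0 ≤ u
  · exact ⟨b, u, ⟨h, hu⟩, emb.injective (val_pt b hu).symm⟩
  · refine ⟨b, 0, ⟨le_rfl, zero_le_one⟩, emb.injective ?_⟩
    rw [pt_top b le_rfl, val_top]
    exact ph_nonpos b (not_le.1 h).le

noncomputable def β (z : FF c) : Γ := (ex_pt z).choose

lemma β_spec (z : FF c) : val z (β z) ∈ Icc (0 : ℝ) 1 ∧ z = pt c (β z) (val z (β z)) := by
  obtain ⟨u, hu, h⟩ := (ex_pt z).choose_spec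
  have : val z (β z) = u := (congrArg (fun w => val w (β z)) h).trans (val_self _ hu)
  rw [this]
  exact ⟨hu, h⟩

lemma β_pt {b : Γ} {u : ℝ} (hu : u ∈ Ioc (0 : ℝ) 1) : β (pt c b u) = b :=
  (pt_bl hu (β_spec _).1.2 (β_spec _).2).symm

lemma ne_top {z : FF c} {a : Γ} (h : val z a ≠ 0) : z ≠ top c := by
  rintro rfl
  exact h (congrFun val_top a)

lemma loc {z : FF c} (hz : z ≠ top c) (k : ℕ) : ∀ᶠ w in 𝓝 z, β w k = β z k := by
  obtain ⟨h1, h2⟩ := β_spec z
  set b := β z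
  have h0 : 0 < val z b := h1.1.lt_of_ne fun h => hz (h2.trans (pt_top b h.ge))
  have h3 : val z (b + Finsupp.single k 1) = 0 := by
    rw [h2, val_pt b h1.2, ph, if_neg]
    intro h
    have := h k
    simp at this
  filter_upwards [(isOpen_lt continuous_const (cv b)).mem_nhds h0,
    (isOpen_lt (cv (b + Finsupp.single k 1)) ((cv b).add continuous_const)).mem_nhds
      (show val z (b + Finsupp.single k 1) < val z b + 1 / 3 by linarith)] with w p q
  by_contra hne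
  obtain ⟨g1, g2⟩ := β_spec w
  have e : val w = ph c (β w) (val w (β w)) := by
    conv_lhs => rw [g2]
    exact val_pt _ g1.2
  replace p : 0 < val w b := p
  replace q : val w (b + Finsupp.single k 1) < val w b + 1 / 3 := q
  rw [e] at p q
  obtain ⟨r1, r2, -⟩ := ph_pos p.ne'
  have r3 := single_le (k := k) (sub_nonneg.2 r1) (by simpa [sub_eq_zero] using hne)
  rw [r2, ph, if_pos (le_sub_iff_add_le'.1 r3), max_lt_iff] at q
  have := q.2
  simp only [map_sub, map_add, wt_single] at this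
  have := c.2 k
  push_cast at *
  linarith

lemma oc {K : Set (FF c)} (hK : SubCont K) {b : Γ} {s₁ s s₂ : ℝ} (h0 : 0 ≤ s₁) (h1 : s₁ ≤ s)
    (h2 : s ≤ s₂) (h3 : s₂ ≤ 1) (m1 : pt c b s₁ ∈ K) (m2 : pt c b s₂ ∈ K) : pt c b s ∈ K := by
  by_contra hn
  have l1 : s₁ < s := h1.lt_of_ne fun h => hn (h ▸ m1)
  have l2 : s < s₂ := h2.lt_of_ne fun h => hn (h ▸ m2)
  have oO : ∀ N, IsOpen {w : FF c | w ≠ top c ∧ ∃ k < N, β w k ≠ b k} := fun N =>
    isOpen_iff_mem_nhds.2 fun w ⟨p, k, hk, q⟩ => by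
      filter_upwards [isOpen_ne.mem_nhds p, loc p k] with y hy hy' using ⟨hy, k, hk, hy' ▸ q⟩
  have oU : ∀ N, IsOpen {w : FF c | w ≠ top c ∧ ∀ k < N, β w k = b k} := fun N =>
    isOpen_iff_mem_nhds.2 fun w ⟨p, q⟩ => by
      filter_upwards [isOpen_ne.mem_nhds p, (eventually_all_finite (finite_lt_nat N)).2
        fun k _ => loc p k] with y hy hy' using ⟨hy, fun k hk => (hy' k hk).trans (q k hk)⟩
  obtain ⟨N, hN⟩ := (hK.1.inter_right (isClosed_eq (cv b) (continuous_const (y := s)))).elim_directed_cover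
    _ oO (by
      rintro w ⟨p, q⟩
      replace q : val w b = s := q
      by_contra hc
      simp only [mem_iUnion, mem_ofPred_eq, not_exists, not_and, not_not] at hc
      have : β w = b := Finsupp.ext fun k => hc (k + 1) (ne_top (a := b) (by linarith)) k k.lt_succ_self
      refine hn ?_
      rw [← q, ← this, ← (β_spec w).2]
      exact p)
    (Monotone.directed_le fun N M h w ⟨p, k, hk, q⟩ => ⟨p, k, hk.trans_le h, q⟩)
  obtain ⟨w, -, ⟨p1, p2⟩, p3⟩ := hK.2.2 _ _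
    ((isOpen_lt (continuous_const (y := s)) (cv b)).inter (oU N))
    ((isOpen_lt (cv b) (continuous_const (y := s))).union (oO N)) (fun w hw => by
      rcases lt_trichotomy (val w b) s with h | h | h
      · exact Or.inr (Or.inl h)
      · exact Or.inr (Or.inr (hN ⟨hw, h⟩))
      · have := ne_top (z := w) (a := b) (by linarith)
        by_cases hk : ∀ k < N, β w k = b k
        · exact Or.inl ⟨h, this, hk⟩
        · push Not at hk
          exact Or.inr (Or.inr ⟨this, hk⟩))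
    ⟨_, m2, by simpa [val_self b ⟨by linarith, h3⟩] using l2, pt_ne ⟨by linarith, h3⟩,
      fun k _ => by rw [β_pt ⟨by linarith, h3⟩]⟩
    ⟨_, m1, Or.inl (by simpa [val_self b ⟨h0, by linarith⟩] using l1)⟩
  rcases p3 with p3 | ⟨-, k, hk, p3⟩
  · exact lt_asymm (show s < val w b from p1) p3
  · exact p3 (p2.2 k hk)

lemma bl {K : Set (FF c)} (hK : IsPreconnected K) (ht : top c ∉ K) {z w : FF c} (hz : z ∈ K)
    (hw : w ∈ K) : β z = β w := Finsupp.ext fun k =>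
  hK.constant (f := fun w => β w k) (fun _ hy => ContinuousAt.continuousWithinAt
    (tendsto_const_nhds.congr' ((loc (fun h => ht (h ▸ hy)) k).mono fun _ h => h.symm))) hz hw

lemma near {K : Set (FF c)} (hK : IsPreconnected K) {b : Γ} {u : ℝ} (hu : u ∈ Ioc (0 : ℝ) 1)
    (hp : pt c b u ∈ K) {q : FF c} (hq : q ∈ K) (hne : q ≠ pt c b u) :
    ∃ s ∈ Icc (0 : ℝ) 1, s ≠ u ∧ pt c b s ∈ K := by
  by_cases ht : top c ∈ K
  · exact ⟨0, ⟨le_rfl, zero_le_one⟩, hu.1.ne, by rwa [pt_top b le_rfl]⟩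
  · have := (bl hK ht hq hp).trans (β_pt hu)
    obtain ⟨h1, h2⟩ := β_spec q
    rw [this] at h1 h2
    exact ⟨_, h1, fun h => hne (h ▸ h2), h2 ▸ hq⟩

lemma unic {K L : Set (FF c)} (hK : SubCont K) (hL : SubCont L) : IsPreconnected (K ∩ L) := by
  have key : ∀ b, IsPreconnected (pt c b '' {s ∈ Icc (0 : ℝ) 1 | pt c b s ∈ K ∩ L}) := fun b => by
    refine IsPreconnected.image (OrdConnected.isPreconnected ⟨fun x hx y hy s hs => ?_⟩) _
      (pt_cont b).continuousOn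
    exact ⟨⟨hx.1.1.trans hs.1, hs.2.trans hy.1.2⟩,
      oc hK hx.1.1 hs.1 hs.2 hy.1.2 hx.2.1 hy.2.1, oc hL hx.1.1 hs.1 hs.2 hy.1.2 hx.2.2 hy.2.2⟩
  refine isPreconnected_of_forall_pair fun x hx y hy => ?_
  obtain ⟨x1, x2⟩ := β_spec x
  obtain ⟨y1, y2⟩ := β_spec y
  have sub : ∀ b, pt c b '' {s ∈ Icc (0 : ℝ) 1 | pt c b s ∈ K ∩ L} ⊆ K ∩ L := by
    rintro b _ ⟨s, hs, rfl⟩
    exact hs.2
  by_cases ht : top c ∈ K ∩ L
  · have m : ∀ b, top c ∈ pt c b '' {s ∈ Icc (0 : ℝ) 1 | pt c b s ∈ K ∩ L} := fun b =>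
      ⟨0, ⟨⟨le_rfl, zero_le_one⟩, by rwa [pt_top b le_rfl]⟩, pt_top b le_rfl⟩
    exact ⟨_, union_subset (sub _) (sub _), Or.inl ⟨_, ⟨x1, x2 ▸ hx⟩, x2.symm⟩,
      Or.inr ⟨_, ⟨y1, y2 ▸ hy⟩, y2.symm⟩, (key _).union _ (m _) (m _) (key _)⟩
  · have : β y = β x := by
      rcases not_and_or.1 ht with h | h
      · exact bl hK.2.2 h hy.1 hx.1
      · exact bl hL.2.2 h hy.2 hx.2
    rw [this] at y1 y2
    exact ⟨_, sub _, ⟨_, ⟨x1, x2 ▸ hx⟩, x2.symm⟩, ⟨_, ⟨y1, y2 ▸ hy⟩, y2.symm⟩, key _⟩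

end Pool.Agent.H84.Fan
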