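import Pool.Agent.H84.FanA

open Set Filter Topology unitInterval

namespace Pool.Agent.H84.Fan

section gen
variable {F : Type} [MetricSpace F]

lemma mkParam {φ : I → F} (hc : Continuous φ) (hi : Function.Injective φ) :
    Param φ (φ 0) (φ 1) (range φ) := ⟨(hc.isClosedEmbedding hi).isEmbedding, rfl, rfl, rfl⟩

lemma IsArc.sub {x y : F} {A : Set F} (h : IsArc x y A) : SubCont A ∧ x ∈ A ∧ y ∈ A ∧ y ≠ x := by
  obtain ⟨φ, h, rfl, rfl, rfl⟩ := h
  exact ⟨⟨isCompact_range h.continuous, isConnected_range h.continuous⟩, mem_range_self _,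
    mem_range_self _, fun e => one_ne_zero (h.injective e)⟩

lemma IsArc.min {x y : F} {A T : Set F} (h : IsArc x y A) (hT : IsPreconnected T) (hs : T ⊆ A)
    (hx : x ∈ T) (hy : y ∈ T) : A ⊆ T := by
  obtain ⟨φ, h, rfl, rfl, rfl⟩ := h
  have : IsPreconnected (φ ⁻¹' T) :=
    h.isInducing.isPreconnected_image.1 (by rwa [image_preimage_eq_of_subset hs])
  rintro _ ⟨r, rfl⟩
  exact this.ordConnected.out hx hy ⟨r.2.1, r.2.2⟩

lemma ends_map {G : Type} [MetricSpace G] (h : F ≃ₜ G) {e : F} (he : e ∈ Ends F) :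
    h e ∈ Ends G := by
  rintro x y A ⟨φ, h1, rfl, rfl, rfl⟩ ⟨r, hr⟩
  have := he _ _ _ ⟨h.symm ∘ φ, h.symm.isEmbedding.comp h1, rfl, rfl, rfl⟩ ⟨r, by simp [hr]⟩
  rcases this with e1 | e1
  · exact Or.inl (by simp [e1])
  · exact Or.inr (by simp [e1])

variable (F) in
/-- limit points of the set of non-endpoint limits of endpoints -/
def Inv : Set F := {y | y ∈ closure ((closure (Ends F) \ Ends F) \ {y})}

lemma inv_map {G : Type} [MetricSpace G] (h : F ≃ₜ G) {y : F} (hy : y ∈ Inv F) : h y ∈ Inv G := by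
  refine map_mem_closure h.continuous hy fun z hz => ⟨⟨map_mem_closure h.continuous hz.1.1
    fun _ => ends_map h, fun e => hz.1.2 ?_⟩, fun e => hz.2 (h.injective e)⟩
  simpa using ends_map h.symm e

end gen

variable {c : Wt}

lemma arc_uniq {x y : FF c} {A B : Set (FF c)} (hA : IsArc x y A) (hB : IsArc x y B) : A = B := by
  have := unic hA.sub.1 hB.sub.1
  have hx : x ∈ A ∩ B := ⟨hA.sub.2.1, hB.sub.2.1⟩
  have hy : y ∈ A ∩ B := ⟨hA.sub.2.2.1, hB.sub.2.2.1⟩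
  exact ((hA.min this inter_subset_left hx hy).trans inter_subset_right).antisymm
    ((hB.min this inter_subset_right hx hy).trans inter_subset_left)

lemma par (b : Γ) {g : I → ℝ} (hc : Continuous g) (hi : Function.Injective g)
    (hr : range g ⊆ Icc 0 1) : Param (pt c b ∘ g) (pt c b (g 0)) (pt c b (g 1)) (pt c b '' range g) := by
  rw [← range_comp]
  exact mkParam ((pt_cont b).comp hc) fun r s h => hi (pt_inj (hr ⟨r, rfl⟩) (hr ⟨s, rfl⟩) h)

lemma arcs (b : Γ) {u v : ℝ} (hu : u ∈ Icc (0 : ℝ) 1) (hv : v ∈ Icc (0 : ℝ) 1) (h : u ≠ v) :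
    IsArc (pt c b u) (pt c b v) (pt c b '' uIcc u v) := by
  have e : range (fun r : I => AffineMap.lineMap u v (r : ℝ)) = uIcc u v := by
    rw [← segment_eq_uIcc, segment_eq_image_lineMap, image_eq_range]
  have := par (c := c) b (g := fun r : I => AffineMap.lineMap u v (r : ℝ))
    (AffineMap.lineMap_continuous.comp continuous_subtype_val)
    ((AffineMap.lineMap_injective ℝ h).comp Subtype.val_injective)
    (e ▸ ordConnected_Icc.uIcc_subset hu hv)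
  rw [e] at this
  exact ⟨_, by simpa using this⟩

lemma arc0 (b : Γ) {u : ℝ} (hu : u ∈ Ioc (0 : ℝ) 1) :
    IsArc (top c) (pt c b u) (pt c b '' Icc 0 u) := by
  have := arcs (c := c) b ⟨le_rfl, zero_le_one⟩ ⟨hu.1.le, hu.2⟩ hu.1.ne
  rwa [pt_top b le_rfl, uIcc_of_le hu.1.le] at this

lemma arcJ {b b' : Γ} (h : b ≠ b') {u v : ℝ} (hu : u ∈ Ioc (0 : ℝ) 1) (hv : v ∈ Ioc (0 : ℝ) 1) :
    ∃ A, IsArc (pt c b u) (pt c b' v) A ∧ top c ∈ A := by
  let φ : I → FF c := fun r =>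
    if (r : ℝ) ≤ 1 / 2 then pt c b (u * (1 - 2 * r)) else pt c b' (v * (2 * r - 1))
  have hc : Continuous φ := Continuous.if_le ((pt_cont b).comp (by fun_prop))
    ((pt_cont b').comp (by fun_prop)) (by fun_prop) (by fun_prop) fun r hr => by
      rw [pt_top b (by simp [hr]), pt_top b' (by simp [hr])]
  have a1 : ∀ r : I, (r : ℝ) ≤ 1 / 2 → u * (1 - 2 * r) ∈ Icc (0 : ℝ) 1 := fun r hr =>
    ⟨by nlinarith [hu.1], by nlinarith [hu.1, hu.2, r.2.1]⟩
  have a2 : ∀ r : I, ¬ (r : ℝ) ≤ 1 / 2 → v * (2 * r - 1) ∈ Ioc (0 : ℝ) 1 := fun r hr =>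
    ⟨by nlinarith [hv.1, not_le.1 hr], by nlinarith [hv.1, hv.2, r.2.2]⟩
  have hi : Function.Injective φ := fun r s e => by
    simp only [φ] at e
    split_ifs at e with p q q
    · exact Subtype.ext (by linarith [mul_left_cancel₀ hu.1.ne' (pt_inj (a1 r p) (a1 s q) e)])
    · exact (h (pt_bl (a2 s q) (a1 r p).2 e.symm).symm).elim
    · exact (h (pt_bl (a2 r p) (a1 s q).2 e).symm).elim
    · exact Subtype.ext (by
        linarith [mul_left_cancel₀ hv.1.ne'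
          (pt_inj (Ioc_subset_Icc_self (a2 r p)) (Ioc_subset_Icc_self (a2 s q)) e)])
  have := mkParam hc hi
  refine ⟨range φ, ⟨φ, ?_⟩, ⟨⟨1 / 2, by norm_num, by norm_num⟩, ?_⟩⟩
  · convert this <;> norm_num [φ]
  · simp only [φ, le_refl, if_true]
    exact pt_top b (by norm_num)

lemma ex_pt' {z : FF c} (h : z ≠ top c) : ∃ b, ∃ u ∈ Ioc (0 : ℝ) 1, z = pt c b u := by
  obtain ⟨b, u, hu, rfl⟩ := ex_pt z
  exact ⟨b, u, ⟨hu.1.lt_of_ne fun e => h (pt_top b e.ge), hu.2⟩, rfl⟩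

lemma dend : Dendroid (FF c) := by
  refine ⟨⟨isCompact_univ, ⟨top c, trivial⟩, isPreconnected_of_forall (top c) fun y _ => ?_⟩,
    fun x y h => ?_, fun K L => unic⟩
  · obtain ⟨b, u, hu, rfl⟩ := ex_pt y
    exact ⟨range (pt c b), subset_univ _, ⟨0, pt_top b le_rfl⟩, mem_range_self _,
      isPreconnected_range (pt_cont b)⟩
  · obtain ⟨b, u, hu, rfl⟩ := ex_pt x
    obtain ⟨b', v, hv, rfl⟩ := ex_pt y
    by_cases e : ∃ w ∈ Icc (0 : ℝ) 1, pt c b' v = pt c b w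
    · obtain ⟨w, hw, e⟩ := e
      rw [e] at h ⊢
      exact ⟨_, arcs b hu hw fun e => h (e ▸ rfl)⟩
    by_cases e' : pt c b u = top c
    · rw [e'] at h ⊢
      exact ⟨_, arc0 b' ⟨hv.1.lt_of_ne fun e => h (pt_top b' e.ge).symm, hv.2⟩⟩
    obtain ⟨A, hA, -⟩ := arcJ (c := c) (b := b) (b' := b') (fun h => e ⟨v, hv, h ▸ rfl⟩)
      ⟨hu.1.lt_of_ne fun e => e' (pt_top b e.ge), hu.2⟩
      ⟨hv.1.lt_of_ne fun h => e ⟨0, ⟨le_rfl, zero_le_one⟩, by
        rw [pt_top b' h.ge, pt_top b le_rfl]⟩, hv.2⟩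
    exact ⟨A, hA⟩

lemma two {K L : Set (FF c)} (hK : SubCont K) (hL : SubCont L) {b : Γ} {u s s' : ℝ}
    (hu : u ∈ Icc (0 : ℝ) 1) (e : K ∩ L = {pt c b u}) (hs : s ∈ Icc (0 : ℝ) 1)
    (hs' : s' ∈ Icc (0 : ℝ) 1) (n : s ≠ u) (n' : s' ≠ u) (m : pt c b s ∈ K) (m' : pt c b s' ∈ L) :
    ¬ (s < u ↔ s' < u) := fun h => by
  have p : pt c b u ∈ K ∩ L := e ▸ rfl
  by_cases l : s < u
  · have l' := h.1 l
    have : pt c b (max s s') ∈ K ∩ L :=
      ⟨oc hK hs.1 (le_max_left _ _) (max_lt l l').le hu.2 m p.1,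
        oc hL hs'.1 (le_max_right _ _) (max_lt l l').le hu.2 m' p.2⟩
    rw [e] at this
    exact (max_lt l l').ne (pt_inj ⟨le_max_of_le_left hs.1, max_le hs.2 hs'.2⟩ hu this)
  · have l1 := (not_lt.1 l).lt_of_ne' n
    have l2 := (not_lt.1 (mt h.2 l)).lt_of_ne' n'
    have : pt c b (min s s') ∈ K ∩ L :=
      ⟨oc hK hu.1 (lt_min l1 l2).le (min_le_left _ _) hs.2 p.1 m,
        oc hL hu.1 (lt_min l1 l2).le (min_le_right _ _) hs'.2 p.2 m'⟩
    rw [e] at this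
    exact (lt_min l1 l2).ne' (pt_inj ⟨le_min hs.1 hs'.1, min_le_of_left_le hs.2⟩ hu this)

lemma blades {b b' : Γ} (h : b ≠ b') : pt c b '' Icc 0 1 ∩ pt c b' '' Icc 0 1 = {top c} := by
  refine eq_singleton_iff_unique_mem.2 ⟨⟨⟨0, ⟨le_rfl, zero_le_one⟩, pt_top b le_rfl⟩,
    ⟨0, ⟨le_rfl, zero_le_one⟩, pt_top b' le_rfl⟩⟩, ?_⟩
  rintro _ ⟨⟨u, hu, rfl⟩, v, hv, e⟩
  by_contra hn
  exact h (pt_bl ⟨hu.1.lt_of_ne fun e => hn (pt_top b e.ge), hu.2⟩ hv.2 e.symm)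

lemma isFan : IsFan (top c) := by
  refine ⟨dend, fun p => ⟨fun ⟨e, A, h1, h2⟩ => ?_, ?_⟩⟩
  · by_contra hn
    obtain ⟨b, u, hu, rfl⟩ := ex_pt' hn
    choose s hs hs' hs'' using fun i =>
      near (h1 i).sub.1.2.2 hu (h1 i).sub.2.1 (h1 i).sub.2.2.1 (h1 i).sub.2.2.2
    have := fun i j h => two (h1 i).sub.1 (h1 j).sub.1 (Ioc_subset_Icc_self hu) (h2 i j h) (hs i)
      (hs j) (hs' i) (hs' j) (hs'' i) (hs'' j)
    have a := this 0 1 (by decide)
    have b := this 0 2 (by decide)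
    have c := this 1 2 (by decide)
    tauto
  · rintro rfl
    refine ⟨fun i => pt c (Finsupp.single 0 (i : ℕ)) 1, fun i => pt c (Finsupp.single 0 (i : ℕ)) '' Icc 0 1,
      fun i => arc0 _ ⟨one_pos, le_rfl⟩, fun i j h => blades fun e => h ?_⟩
    exact Fin.ext (by exact_mod_cast Finsupp.single_injective 0 e)

lemma ends : Ends (FF c) = range fun b => pt c b 1 := by
  have o : (1 : ℝ) ∈ Ioc (0 : ℝ) 1 := ⟨one_pos, le_rfl⟩
  ext z
  constructor
  · intro hz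
    by_cases h : z = top c
    · obtain ⟨A, h1, h2⟩ := arcJ (c := c) (b := 0) (b' := Finsupp.single 0 1)
        (Finsupp.single_ne_zero.2 one_ne_zero).symm o o
      rcases hz _ _ _ h1 (h ▸ h2) with e | e
      · exact (pt_ne o (e.symm.trans h)).elim
      · exact (pt_ne o (e.symm.trans h)).elim
    · obtain ⟨b, u, hu, rfl⟩ := ex_pt' h
      exact ⟨b, ((hz _ _ _ (arc0 b o) ⟨u, Ioc_subset_Icc_self hu, rfl⟩).resolve_left h).symm⟩
  · rintro ⟨b, rfl⟩ _ _ _ ⟨φ, h, rfl, rfl, rfl⟩ ⟨r, hr⟩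
    by_contra hn
    push Not at hn
    have sc : ∀ p q : I, p ≤ q → SubCont (φ '' Icc p q) := fun p q hpq =>
      ⟨isCompact_Icc.image h.continuous, (isConnected_Icc hpq).image _ h.continuous.continuousOn⟩
    have k1 := sc 0 r r.2.1
    have k2 := sc r 1 r.2.2
    obtain ⟨s, p1, p2, p3⟩ := near k1.2.2 o ⟨r, ⟨r.2.1, le_rfl⟩, hr⟩ ⟨0, ⟨le_rfl, r.2.1⟩, rfl⟩ hn.1.symm
    obtain ⟨s', q1, q2, q3⟩ := near k2.2.2 o ⟨r, ⟨le_rfl, r.2.2⟩, hr⟩ ⟨1, ⟨r.2.2, le_rfl⟩, rfl⟩ hn.2.symm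
    refine two k1 k2 ⟨zero_le_one, le_rfl⟩ ?_ p1 q1 p2 q2 p3 q3
      (iff_of_true (p1.2.lt_of_ne p2) (q1.2.lt_of_ne q2))
    rw [← image_inter h.injective, Icc_inter_Icc_eq_singleton (show (0 : I) ≤ r from r.2.1) (show r ≤ 1 from r.2.2), image_singleton, hr]

noncomputable def fl (p : FF c × I) : FF c := pt c (β p.1) (val p.1 (β p.1) - p.2)

lemma val_eq (z : FF c) : val z = ph c (β z) (val z (β z)) := by
  conv_lhs => rw [(β_spec z).2]
  exact val_pt _ (β_spec z).1.2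

lemma fl_cont : Continuous (fl : FF c × I → FF c) := by
  refine emb.continuous_iff.2 (continuous_pi fun a => ?_)
  have : ∀ p : FF c × I, val (fl p) a = max 0 (val p.1 a - p.2) := fun p => by
    rw [fl, val_pt _ (by linarith [(β_spec p.1).1.2, p.2.2.1]), congrFun (val_eq p.1) a]
    unfold ph
    have := p.2.2.1
    split_ifs
    · simp only [max_def]
      split_ifs <;> linarith
    · exact (max_eq_left (by linarith)).symm
  simp only [Function.comp, this]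
  exact continuous_const.max (((cv a).comp continuous_fst).sub (by fun_prop))

lemma seg {x : FF c} {A : Set (FF c)} (h : Seg (top c) x A) : A = range fun r => fl (x, r) := by
  obtain ⟨h1, h2⟩ := β_spec x
  have : A = pt c (β x) '' Icc 0 (val x (β x)) := by
    rcases h with ⟨rfl, rfl⟩ | h
    · simp [val_top, pt_top]
    · have := arc0 (c := c) (β x) ⟨h1.1.lt_of_ne fun e => h.sub.2.2.2 (h2.trans (pt_top _ e.ge)), h1.2⟩
      rw [← h2] at this
      exact arc_uniq h this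
  rw [this]
  ext z
  constructor
  · rintro ⟨s, hs, rfl⟩
    exact ⟨⟨val x (β x) - s, by linarith [hs.2], by linarith [hs.1, h1.2]⟩, by simp [fl]⟩
  · rintro ⟨r, rfl⟩
    by_cases e : 0 ≤ val x (β x) - r
    · exact ⟨_, ⟨e, by linarith [r.2.1]⟩, rfl⟩
    · exact ⟨0, ⟨le_rfl, h1.1⟩, (pt_top _ le_rfl).trans (pt_top _ (not_le.1 e).le).symm⟩

lemma smooth : Smooth (top c) := fun x y A B hx hA hB => by
  rw [Metric.tendsto_nhds] at hx ⊢
  intro ε hε
  obtain ⟨δ, hδ, h⟩ := Metric.uniformContinuous_iff.1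
    (CompactSpace.uniformContinuous_of_continuous (fl_cont (c := c))) (ε / 2) (by positivity)
  filter_upwards [hx δ hδ] with n hn
  rw [Real.dist_0_eq_abs, abs_of_nonneg Metric.hausdorffDist_nonneg, seg (hA n), seg hB]
  refine (Metric.hausdorffDist_le_of_mem_dist (r := ε / 2) (by positivity) ?_ ?_).trans_lt (by linarith)
  · rintro _ ⟨r, rfl⟩
    exact ⟨_, ⟨r, rfl⟩, (h (by simpa [Prod.dist_eq, hδ] using hn)).le⟩
  · rintro _ ⟨r, rfl⟩
    exact ⟨_, ⟨r, rfl⟩, (h (by simpa [Prod.dist_eq, hδ, dist_comm] using hn)).le⟩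

noncomputable def sh (g : Γ) (z : FF c) : FF c := pt c (β z + g) (val z (β z))

lemma val_sh (g : Γ) (z : FF c) (a : Γ) : val (sh g z) a = val z (a - g) := by
  rw [sh, val_pt _ (β_spec z).1.2, congrFun (val_eq z) (a - g)]
  simp only [ph, show β z + g - a = β z - (a - g) by abel]
  by_cases h : a ≤ β z + g
  · rw [if_pos h, if_pos (sub_le_iff_le_add.2 h)]
  · rw [if_neg h, if_neg (mt sub_le_iff_le_add.1 h)]

lemma sh_cont (g : Γ) : Continuous (sh g : FF c → FF c) :=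
  emb.continuous_iff.2 (continuous_pi fun a => by simpa only [Function.comp, val_sh] using cv _)

lemma endHom : EndHom (FF c) := by
  rw [EndHom, ends]
  rintro _ ⟨b, rfl⟩ _ ⟨b', rfl⟩
  refine ⟨⟨⟨sh (b' - b), sh (b - b'), fun z => emb.injective (funext fun a => ?_),
    fun z => emb.injective (funext fun a => ?_)⟩, sh_cont _, sh_cont _⟩, ?_⟩
  · rw [val_sh, val_sh]; congr 1; abel
  · rw [val_sh, val_sh]; congr 1; abel
  · change sh (b' - b) (pt c b 1) = pt c b' 1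
    rw [sh, β_pt ⟨one_pos, le_rfl⟩, val_self b ⟨zero_le_one, le_rfl⟩, add_sub_cancel]

end Pool.Agent.H84.Fan
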