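import Pool.Agent.H84.FanB

open Set Filter Topology unitInterval

namespace Pool.Agent.H84.Fan

variable {c : Wt}

variable (c) in
def Att (w : ℝ) : Prop := ∀ k, ∃ j ≥ k, ∃ n : ℕ, 0 < n ∧ c.1 j * n = w

lemma lim (b : Γ) {u w : ℝ} (hu : u ≤ 1) (h : Att c w) {T : Set (FF c)}
    (hT : ∀ b' ≠ b, pt c b' u ∈ T) : pt c b (u - w) ∈ closure T := by
  choose j hj n hn e using h
  have hw : 0 ≤ w := e 0 ▸ mul_nonneg (by linarith [c.2 (j 0)]) (Nat.cast_nonneg _)
  refine mem_closure_of_tendsto (f := fun k => pt c (b + Finsupp.single (j k) (n k : ℤ)) u)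
    (b := atTop) ?_ (Eventually.of_forall fun k => hT _ (by simpa using (hn k).ne'))
  rw [emb.tendsto_nhds_iff, tendsto_pi_nhds]
  intro a
  refine tendsto_const_nhds.congr' ?_
  obtain ⟨N, hN⟩ := (a - b).support.bddAbove
  filter_upwards [eventually_gt_atTop N] with k hk
  simp only [Function.comp]
  rw [val_pt _ hu, val_pt _ (by linarith), ph, ph]
  have : a ≤ b + Finsupp.single (j k) (n k : ℤ) ↔ a ≤ b := by
    refine ⟨fun h i => ?_, fun h => h.trans (le_add_of_nonneg_right (by simp))⟩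
    by_cases q : i = j k
    · have : (a - b) i = 0 := by
        by_contra h0
        have := hN (Finsupp.mem_support_iff.2 h0)
        have := hj k
        omega
      exact (sub_eq_zero.1 this).le
    · simpa [Finsupp.single_eq_of_ne q] using h i
  by_cases q : a ≤ b
  · rw [if_pos q, if_pos (this.2 q)]
    simp only [map_sub, map_add, wt_single, Int.cast_natCast, e k]
    congr 1
    ring
  · rw [if_neg q, if_neg (mt this.1 q)]

lemma mem_ends (b : Γ) : pt c b 1 ∈ Ends (FF c) := ends ▸ ⟨b, rfl⟩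

lemma val_mem {Z : Set ℝ} (h0 : 0 ∈ Z) {v : ℝ} (hv : v ≤ 1)
    (hA : ∀ d, 0 ≤ d → d ≠ 0 → max 0 (v - wt c d) ∈ Z) {b b' : Γ} (h : b' ≠ b) :
    val (pt c b' v) b ∈ Z := by
  rw [val_pt _ hv, ph]
  split_ifs with e
  · exact hA _ (sub_nonneg.2 e) (sub_ne_zero.2 h)
  · exact h0

lemma cl_mem {Z : Set ℝ} (hZ : IsClosed Z) (h0 : 0 ∈ Z)
    (hA : ∀ d, 0 ≤ d → d ≠ 0 → max 0 (1 - wt c d) ∈ Z) {b : Γ} {T : Set (FF c)}
    (hT : pt c b 1 ∈ T) {s : ℝ} (hs : s ∈ Icc (0 : ℝ) 1)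
    (h : pt c b s ∈ closure (Ends (FF c) \ T)) : s ∈ Z := by
  rw [← val_self (c := c) b hs]
  refine hZ.closure_subset (map_mem_closure (f := fun z => val z b) (cv b) h ?_)
  rw [ends]
  rintro _ ⟨⟨b', rfl⟩, h⟩
  exact val_mem h0 le_rfl hA fun e => h (e ▸ hT)

lemma epg {Z : Set ℝ} (hZ : IsClosed Z) (h0 : 0 ∈ Z)
    (hA : ∀ d, 0 ≤ d → d ≠ 0 → max 0 (1 - wt c d) ∈ Z)
    (hB : ∀ s ∈ Z, s ∈ Icc (0 : ℝ) 1 ∧ ∃ w, Att c w ∧ s = max 0 (1 - w))
    {g : I → ℝ} (hc : Continuous g) (hi : Function.Injective g) (hr : range g = Icc 0 1)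
    (g0 : g 0 = 0) (g1 : g 1 = 1) {X : Set I} (hX : g '' X = Z) : EPG (top c) X := by
  intro e he B hB'
  rw [ends] at he
  obtain ⟨b, rfl⟩ := he
  obtain rfl := arc_uniq hB' (arc0 b ⟨one_pos, le_rfl⟩)
  have := par (c := c) b hc hi hr.subset
  rw [g0, g1, hr, pt_top b le_rfl] at this
  refine ⟨_, this, ?_⟩
  rw [image_comp, hX]
  ext z
  constructor
  · rintro ⟨s, hs, rfl⟩
    obtain ⟨h1, w, h2, h3⟩ := hB s hs
    refine ⟨⟨s, h1, rfl⟩, ?_⟩
    have e : pt c b s = pt c b (1 - w) := by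
      rcases le_total 0 (1 - w) with h | h
      · rw [h3, max_eq_right h]
      · rw [h3, max_eq_left h, pt_top b h, pt_top b le_rfl]
    rw [e]
    exact lim b le_rfl h2 fun b' hb => ⟨mem_ends b', fun ⟨v, hv, e⟩ =>
      hb (pt_bl ⟨one_pos, le_rfl⟩ hv.2 e.symm)⟩
  · rintro ⟨⟨s, hs, rfl⟩, h⟩
    exact ⟨s, cl_mem hZ h0 hA (mem_image_of_mem _ (right_mem_Icc.2 zero_le_one)) hs h, rfl⟩

noncomputable def cG : Wt := Subtype.mk (fun _ => 1 / 3) fun _ => le_rfl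

noncomputable def cF : Wt :=
  ⟨fun k => if Even k then 5 / 9 else 8 / 9, fun k => by dsimp only; split_ifs <;> norm_num⟩

lemma attG (n : ℕ) (hn : 0 < n) : Att cG (n / 3) := fun k =>
  ⟨k, le_rfl, n, hn, by simp only [cG]; ring⟩

lemma cF_cases (k : ℕ) : cF.1 k = 5 / 9 ∨ cF.1 k = 8 / 9 := by
  simp only [cF]
  split_ifs <;> simp

lemma wtF {d : Γ} (h : 0 ≤ d) (h0 : d ≠ 0) : 5 / 9 ≤ wt cF d := by
  obtain ⟨k, d', h1, h2⟩ := wt_dec cF h h0
  rcases cF_cases k with e | e <;> linarith [wt_nonneg cF h1]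

lemma hAF (d : Γ) (h : 0 ≤ d) (h0 : d ≠ 0) : max 0 (1 - wt cF d) ∈ ({0, 1 / 9, 4 / 9} : Set ℝ) := by
  obtain ⟨k, d', h1, h2⟩ := wt_dec cF h h0
  by_cases e : d' = 0
  · rcases cF_cases k with e' | e' <;> rw [h2, e, e'] <;> norm_num
  · refine Or.inl (max_eq_left ?_)
    rcases cF_cases k with e' | e' <;> linarith [wtF h1 e]

lemma hAG (d : Γ) (h : 0 ≤ d) (h0 : d ≠ 0) : max 0 (1 - wt cG d) ∈ ({0, 1 / 3, 2 / 3} : Set ℝ) := by
  obtain ⟨k, d', h1, h2⟩ := wt_dec cG h h0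
  by_cases e : d' = 0
  · rw [h2, e]; norm_num [cG]
  obtain ⟨k', d'', h3, h4⟩ := wt_dec cG h1 e
  by_cases e' : d'' = 0
  · rw [h2, h4, e']; norm_num [cG]
  obtain ⟨k'', d''', h5, h6⟩ := wt_dec cG h3 e'
  refine Or.inl (max_eq_left ?_)
  have := wt_nonneg cG h5
  simp only [cG] at *
  linarith

def X3 : Set I := {r | (r : ℝ) ∈ ({0, 1 / 3, 2 / 3} : Set ℝ)}

lemma epgG : EPG (top cG) X3 := by
  refine epg (Z := {0, 1 / 3, 2 / 3}) (toFinite _).isClosed (by simp) hAG ?_ continuous_subtype_val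
    Subtype.val_injective Subtype.range_coe rfl rfl ?_
  · rintro s (rfl | rfl | rfl)
    · exact ⟨by norm_num, _, attG 3 (by norm_num), by norm_num⟩
    · exact ⟨by norm_num, _, attG 2 (by norm_num), by norm_num⟩
    · exact ⟨by norm_num, _, attG 1 (by norm_num), by norm_num⟩
  · refine image_preimage_eq_of_subset ?_
    rw [Subtype.range_coe]
    rintro s (rfl | rfl | rfl) <;> norm_num

lemma epgF : EPG (top cF) X3 := by
  refine epg (Z := {0, 1 / 9, 4 / 9}) (g := fun r => (r : ℝ) ^ 2) (toFinite _).isClosed (by simp) hAF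
    ?_ (by fun_prop) (fun r s h => Subtype.ext ((pow_left_inj₀ r.2.1 s.2.1 two_ne_zero).1 h)) ?_
    (by simp) (by simp) ?_
  · have ev : ∀ n : ℕ, 0 < n → Att cF (5 / 9 * n) := fun n hn k =>
      ⟨2 * k, by omega, n, hn, by simp [cF]⟩
    rintro s (rfl | rfl | rfl)
    · exact ⟨by norm_num, _, ev 2 (by norm_num), by norm_num⟩
    · exact ⟨by norm_num, 8 / 9, fun k => ⟨2 * k + 1, by omega, 1, one_pos, by simp [cF]⟩, by norm_num⟩
    · exact ⟨by norm_num, _, ev 1 (by norm_num), by norm_num⟩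
  · ext s
    constructor
    · rintro ⟨r, rfl⟩
      exact ⟨sq_nonneg _, pow_le_one₀ r.2.1 r.2.2⟩
    · intro hs
      exact ⟨⟨√s, Real.sqrt_nonneg _, Real.sqrt_le_one.2 hs.2⟩, Real.sq_sqrt hs.1⟩
  · ext s
    constructor
    · rintro ⟨r, (h | h | (h : _ = _)), rfl⟩ <;> simp only [h] <;> norm_num
    · rintro (rfl | rfl | rfl)
      · exact ⟨0, by simp [X3], by simp⟩
      · exact ⟨⟨1 / 3, by norm_num⟩, by simp [X3], by norm_num⟩
      · exact ⟨⟨2 / 3, by norm_num⟩, by simp [X3], by norm_num⟩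

lemma invF {y : FF cF} (hy : y ∈ Inv (FF cF)) : y = top cF := by
  by_contra hn
  obtain ⟨b, s, hs, rfl⟩ := ex_pt' hn
  have hf : (({0, 1 / 9, 4 / 9} : Set ℝ) \ {s}).Finite := (toFinite _).sdiff
  have h0 : (0 : ℝ) ∈ ({0, 1 / 9, 4 / 9} : Set ℝ) \ {s} := ⟨by simp, hs.1.ne⟩
  have := hf.isClosed.closure_subset (map_mem_closure (cv b) hy fun z hz => ?_)
  · exact this.2 (val_self b (Ioc_subset_Icc_self hs))
  obtain ⟨b', v, hv, rfl⟩ := ex_pt z
  have m : v ∈ ({0, 1 / 9, 4 / 9} : Set ℝ) := by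
    refine cl_mem (T := {pt cF b' 1}) (toFinite _).isClosed (by simp) hAF rfl hv ?_
    have := hz.1.1
    rw [← sdiff_union_of_subset (singleton_subset_iff.2 (mem_ends (c := cF) b')), closure_union,
      closure_singleton] at this
    exact this.resolve_right fun e => hz.1.2 (e ▸ mem_ends b')
  by_cases e : b' = b
  · subst e
    rw [val_self b' hv]
    exact ⟨m, fun e => hz.2 (e ▸ rfl)⟩
  · refine val_mem h0 hv.2 (fun d h1 h2 => ?_) e
    rw [max_eq_left]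
    · exact h0
    · rcases m with m | m | (m : _ = _) <;> linarith [wtF h1 h2]

lemma invG (b : Γ) : pt cG b (1 / 3) ∈ Inv (FF cG) := by
  have := lim (c := cG) b (u := 2 / 3) (by norm_num) (attG 1 one_pos)
    (T := (closure (Ends _) \ Ends _) \ {pt cG b (1 / 3)}) fun b' hb => ⟨⟨?_, ?_⟩, fun e => ?_⟩
  · rw [show (2 / 3 - ((1 : ℕ) : ℝ) / 3 : ℝ) = 1 / 3 by norm_num] at this
    exact this
  · convert lim (c := cG) b' le_rfl (attG 1 one_pos) fun b'' _ => mem_ends b'' using 2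
    norm_num
  · rw [ends]
    rintro ⟨b'', e⟩
    obtain rfl := pt_bl ⟨one_pos, le_rfl⟩ (by norm_num) e
    have := pt_inj ⟨zero_le_one, le_rfl⟩ (by norm_num) e
    norm_num at this
  · exact hb (pt_bl (by norm_num) (by norm_num) e)

lemma nonhomeo : IsEmpty (FF cF ≃ₜ FF cG) := ⟨fun h => by
  have e := (invF (inv_map h.symm (invG 0))).trans
    (invF (inv_map h.symm (invG (Finsupp.single 0 1)))).symm
  exact Finsupp.single_ne_zero.2 one_ne_zero (pt_bl (by norm_num) (by norm_num) (h.symm.injective e)).symm⟩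

end Pool.Agent.H84.Fan
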