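import Mathlib

open Set Filter Topology unitInterval

namespace Pool.Agent.H84.Fan

variable {F : Type} [MetricSpace F]

/-- `φ` is a homeomorphism of `[0,1]` onto `A` with `φ 0 = x` and `φ 1 = y`. -/
def Param (φ : I → F) (x y : F) (A : Set F) : Prop :=
  IsEmbedding φ ∧ φ 0 = x ∧ φ 1 = y ∧ range φ = A

/-- `A` is an arc with endpoints `x` and `y`. -/
def IsArc (x y : F) (A : Set F) : Prop := ∃ φ, Param φ x y A

/-- A subcontinuum. -/
def SubCont (K : Set F) : Prop := IsCompact K ∧ IsConnected K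

variable (F) in
/-- A dendroid: an arcwise connected, hereditarily unicoherent continuum. -/
def Dendroid : Prop :=
  SubCont (univ : Set F) ∧ (∀ x y : F, x ≠ y → ∃ A, IsArc x y A) ∧
    ∀ K L : Set F, SubCont K → SubCont L → IsPreconnected (K ∩ L)

/-- `p` is the vertex of a simple triod. -/
def Ram (p : F) : Prop :=
  ∃ (e : Fin 3 → F) (A : Fin 3 → Set F), (∀ i, IsArc p (e i) (A i)) ∧
    ∀ i j, i ≠ j → A i ∩ A j = {p}

/-- `F` is a fan with top `t`. -/
def IsFan (t : F) : Prop := Dendroid F ∧ ∀ p : F, Ram p ↔ p = t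

variable (F) in
/-- The set of endpoints: points that are an endpoint of every arc containing them. -/
def Ends : Set F := {e | ∀ x y A, IsArc x y A → e ∈ A → e = x ∨ e = y}

/-- `A` is the (possibly degenerate) arc `[t,x]`. -/
def Seg (t x : F) (A : Set F) : Prop := (x = t ∧ A = {t}) ∨ IsArc t x A

/-- Smoothness at the top `t`. -/
def Smooth (t : F) : Prop :=
  ∀ (x : ℕ → F) (y : F) (A : ℕ → Set F) (B : Set F), Tendsto x atTop (𝓝 y) →
    (∀ n, Seg t (x n) (A n)) → Seg t y B →
      Tendsto (fun n => Metric.hausdorffDist (A n) B) atTop (𝓝 0)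

variable (F) in
/-- Endpoint-homogeneity. -/
def EndHom : Prop := ∀ e ∈ Ends F, ∀ e' ∈ Ends F, ∃ h : F ≃ₜ F, h e = e'

/-- The fan with top `t` is `X`-EPG. -/
def EPG (t : F) (X : Set I) : Prop :=
  ∀ e ∈ Ends F, ∀ B, IsArc t e B → ∃ φ, Param φ t e B ∧ φ '' X = B ∩ closure (Ends F \ B)

end Pool.Agent.H84.Fan
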