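import Pool.Agent.H84.FanC

open Set Filter Topology unitInterval

namespace Pool.Agent.H84.Fan

variable {F : Type} [MetricSpace F]

lemma arc_map {G : Type} [MetricSpace G] (h : F ≃ₜ G) {x y : F} {A : Set F} (hA : IsArc x y A) :
    IsArc (h x) (h y) (h '' A) := by
  obtain ⟨φ, h1, rfl, rfl, rfl⟩ := hA
  exact ⟨h ∘ φ, h.isEmbedding.comp h1, rfl, rfl, range_comp _ _⟩

lemma ram_map {G : Type} [MetricSpace G] (h : F ≃ₜ G) {p : F} (hp : Ram p) : Ram (h p) := by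
  obtain ⟨e, A, h1, h2⟩ := hp
  exact ⟨fun i => h (e i), fun i => h '' A i, fun i => arc_map h (h1 i), fun i j hij => by
    rw [← image_inter h.injective, h2 i j hij, image_singleton]⟩

/-- Data presenting `F` as a smooth fan with blades indexed by `B`. -/
structure Pre (F B K V : Type) [MetricSpace F] where
  t : F
  pt : B → ℝ → F
  ht : B → F → ℝ
  κ : K → B → V
  fl : F × I → F
  cpt : IsCompact (univ : Set F)
  pt_cont : ∀ b, Continuous (pt b)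
  ht_cont : ∀ b, Continuous (ht b)
  pt_top : ∀ b {u}, u ≤ 0 → pt b u = t
  ht_pt : ∀ b {u}, u ∈ Icc (0 : ℝ) 1 → ht b (pt b u) = u
  pt_bl : ∀ {b b' u v}, u ∈ Ioc (0 : ℝ) 1 → v ∈ Icc (0 : ℝ) 1 → pt b u = pt b' v → b = b'
  ex_pt : ∀ z, ∃ b, ∃ u ∈ Icc (0 : ℝ) 1, z = pt b u
  sep : ∀ {b b'}, (∀ k, κ k b = κ k b') → b = b'
  loc' : ∀ b, ∀ u ∈ Ioc (0 : ℝ) 1, ∀ k, ∀ᶠ w in 𝓝 (pt b u),
    ∀ b', ∀ v ∈ Ioc (0 : ℝ) 1, w = pt b' v → κ k b' = κ k b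
  three : ∃ e : Fin 3 → B, Function.Injective e
  fl_cont : Continuous fl
  fl_pt : ∀ b, ∀ u ∈ Icc (0 : ℝ) 1, (range fun r => fl (pt b u, r)) = pt b '' Icc 0 u

namespace Pre

variable {B K V : Type} (P : Pre F B K V)

lemma pt_inj {b : B} {u v : ℝ} (hu : u ∈ Icc (0 : ℝ) 1) (hv : v ∈ Icc (0 : ℝ) 1)
    (h : P.pt b u = P.pt b v) : u = v := by
  rw [← P.ht_pt b hu, h, P.ht_pt b hv]

lemma pt_ne {b : B} {u : ℝ} (hu : u ∈ Ioc (0 : ℝ) 1) : P.pt b u ≠ P.t := fun h =>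
  hu.1.ne' (P.pt_inj ⟨hu.1.le, hu.2⟩ ⟨le_rfl, zero_le_one⟩ (h.trans (P.pt_top b le_rfl).symm))

noncomputable def β (z : F) : B := (P.ex_pt z).choose

lemma β_spec (z : F) : P.ht (P.β z) z ∈ Icc (0 : ℝ) 1 ∧ z = P.pt (P.β z) (P.ht (P.β z) z) := by
  obtain ⟨u, hu, h⟩ := (P.ex_pt z).choose_spec
  have : P.ht (P.β z) z = u := (congrArg (P.ht (P.β z)) h).trans (P.ht_pt _ hu)
  rw [this]
  exact ⟨hu, h⟩

lemma β_pt {b : B} {u : ℝ} (hu : u ∈ Ioc (0 : ℝ) 1) : P.β (P.pt b u) = b :=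
  (P.pt_bl hu (P.β_spec _).1 (P.β_spec _).2).symm

lemma ne_top {z : F} {a : B} (h : P.ht a z ≠ 0) : z ≠ P.t := by
  rintro rfl
  exact h (by rw [← P.pt_top a le_rfl, P.ht_pt a ⟨le_rfl, zero_le_one⟩])

lemma ex_pt' {z : F} (h : z ≠ P.t) : ∃ b, ∃ u ∈ Ioc (0 : ℝ) 1, z = P.pt b u := by
  obtain ⟨b, u, hu, rfl⟩ := P.ex_pt z
  exact ⟨b, u, ⟨hu.1.lt_of_ne fun e => h (P.pt_top b e.ge), hu.2⟩, rfl⟩

lemma loc {z : F} (hz : z ≠ P.t) (k : K) : ∀ᶠ w in 𝓝 z, P.κ k (P.β w) = P.κ k (P.β z) := by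
  obtain ⟨b, u, hu, rfl⟩ := P.ex_pt' hz
  filter_upwards [P.loc' b u hu k, isOpen_ne.mem_nhds hz] with w h1 h2
  obtain ⟨b', v, hv, rfl⟩ := P.ex_pt' h2
  rw [P.β_pt hu, P.β_pt hv]
  exact h1 b' v hv rfl

lemma oc {A : Set F} (hK : SubCont A) {b : B} {s₁ s s₂ : ℝ} (h0 : 0 ≤ s₁) (h1 : s₁ ≤ s)
    (h2 : s ≤ s₂) (h3 : s₂ ≤ 1) (m1 : P.pt b s₁ ∈ A) (m2 : P.pt b s₂ ∈ A) : P.pt b s ∈ A := by
  classical
  by_contra hn
  have l1 : s₁ < s := h1.lt_of_ne fun h => hn (h ▸ m1)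
  have l2 : s < s₂ := h2.lt_of_ne fun h => hn (h ▸ m2)
  have oO : ∀ N : Finset K, IsOpen {w : F | w ≠ P.t ∧ ∃ k ∈ N, P.κ k (P.β w) ≠ P.κ k b} := fun N =>
    isOpen_iff_mem_nhds.2 fun w ⟨p, k, hk, q⟩ => by
      filter_upwards [isOpen_ne.mem_nhds p, P.loc p k] with y hy hy' using ⟨hy, k, hk, hy' ▸ q⟩
  have oU : ∀ N : Finset K, IsOpen {w : F | w ≠ P.t ∧ ∀ k ∈ N, P.κ k (P.β w) = P.κ k b} := fun N =>
    isOpen_iff_mem_nhds.2 fun w ⟨p, q⟩ => by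
      filter_upwards [isOpen_ne.mem_nhds p, (eventually_all_finset N).2
        fun k _ => P.loc p k] with y hy hy' using ⟨hy, fun k hk => (hy' k hk).trans (q k hk)⟩
  obtain ⟨N, hN⟩ := (hK.1.inter_right
    (isClosed_eq (P.ht_cont b) (continuous_const (y := s)))).elim_directed_cover
    _ oO (by
      rintro w ⟨p, q⟩
      replace q : P.ht b w = s := q
      by_contra hc
      simp only [mem_iUnion, mem_ofPred_eq, not_exists, not_and, not_not] at hc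
      have : P.β w = b := P.sep fun k => hc {k} (P.ne_top (a := b) (by linarith)) k
        (Finset.mem_singleton_self k)
      refine hn ?_
      rw [← q, ← this, ← (P.β_spec w).2]
      exact p)
    (Monotone.directed_le fun N M h w ⟨p, k, hk, q⟩ => ⟨p, k, Finset.mem_of_subset h hk, q⟩)
  obtain ⟨w, -, ⟨p1, p2⟩, p3⟩ := hK.2.2 _ _
    ((isOpen_lt (continuous_const (y := s)) (P.ht_cont b)).inter (oU N))
    ((isOpen_lt (P.ht_cont b) (continuous_const (y := s))).union (oO N)) (fun w hw => by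
      rcases lt_trichotomy (P.ht b w) s with h | h | h
      · exact Or.inr (Or.inl h)
      · exact Or.inr (Or.inr (hN ⟨hw, h⟩))
      · have := P.ne_top (z := w) (a := b) (by linarith)
        by_cases hk : ∀ k ∈ N, P.κ k (P.β w) = P.κ k b
        · exact Or.inl ⟨h, this, hk⟩
        · push Not at hk
          exact Or.inr (Or.inr ⟨this, hk⟩))
    ⟨_, m2, by simpa [P.ht_pt b ⟨by linarith, h3⟩] using l2, P.pt_ne ⟨by linarith, h3⟩,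
      fun k _ => by rw [P.β_pt ⟨by linarith, h3⟩]⟩
    ⟨_, m1, Or.inl (by simpa [P.ht_pt b ⟨h0, by linarith⟩] using l1)⟩
  rcases p3 with p3 | ⟨-, k, hk, p3⟩
  · exact lt_asymm (show s < P.ht b w from p1) p3
  · exact p3 (p2.2 k hk)

lemma bl {A : Set F} (hK : IsPreconnected A) (ht : P.t ∉ A) {z w : F} (hz : z ∈ A)
    (hw : w ∈ A) : P.β z = P.β w := P.sep fun k => by
  let _ : TopologicalSpace V := ⊥
  have : DiscreteTopology V := ⟨rfl⟩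
  exact hK.constant (f := fun w => P.κ k (P.β w)) (fun _ hy => ContinuousAt.continuousWithinAt
    (tendsto_const_nhds.congr' ((P.loc (fun h => ht (h ▸ hy)) k).mono fun _ h => h.symm))) hz hw

lemma near {A : Set F} (hK : IsPreconnected A) {b : B} {u : ℝ} (hu : u ∈ Ioc (0 : ℝ) 1)
    (hp : P.pt b u ∈ A) {q : F} (hq : q ∈ A) (hne : q ≠ P.pt b u) :
    ∃ s ∈ Icc (0 : ℝ) 1, s ≠ u ∧ P.pt b s ∈ A := by
  by_cases ht : P.t ∈ A
  · exact ⟨0, ⟨le_rfl, zero_le_one⟩, hu.1.ne, by rwa [P.pt_top b le_rfl]⟩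
  · have := (P.bl hK ht hq hp).trans (P.β_pt hu)
    obtain ⟨h1, h2⟩ := P.β_spec q
    rw [this] at h1 h2
    exact ⟨_, h1, fun h => hne (h ▸ h2), h2 ▸ hq⟩

include P in
lemma unic {A L : Set F} (hK : SubCont A) (hL : SubCont L) : IsPreconnected (A ∩ L) := by
  have key : ∀ b, IsPreconnected (P.pt b '' {s ∈ Icc (0 : ℝ) 1 | P.pt b s ∈ A ∩ L}) := fun b => by
    refine IsPreconnected.image (OrdConnected.isPreconnected ⟨fun x hx y hy s hs => ?_⟩) _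
      (P.pt_cont b).continuousOn
    exact ⟨⟨hx.1.1.trans hs.1, hs.2.trans hy.1.2⟩, P.oc hK hx.1.1 hs.1 hs.2 hy.1.2 hx.2.1 hy.2.1,
      P.oc hL hx.1.1 hs.1 hs.2 hy.1.2 hx.2.2 hy.2.2⟩
  refine isPreconnected_of_forall_pair fun x hx y hy => ?_
  obtain ⟨x1, x2⟩ := P.β_spec x
  obtain ⟨y1, y2⟩ := P.β_spec y
  have sub : ∀ b, P.pt b '' {s ∈ Icc (0 : ℝ) 1 | P.pt b s ∈ A ∩ L} ⊆ A ∩ L := by
    rintro b _ ⟨s, hs, rfl⟩
    exact hs.2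
  by_cases ht : P.t ∈ A ∩ L
  · have m : ∀ b, P.t ∈ P.pt b '' {s ∈ Icc (0 : ℝ) 1 | P.pt b s ∈ A ∩ L} := fun b =>
      ⟨0, ⟨⟨le_rfl, zero_le_one⟩, by rwa [P.pt_top b le_rfl]⟩, P.pt_top b le_rfl⟩
    exact ⟨_, union_subset (sub _) (sub _), Or.inl ⟨_, ⟨x1, x2 ▸ hx⟩, x2.symm⟩,
      Or.inr ⟨_, ⟨y1, y2 ▸ hy⟩, y2.symm⟩, (key _).union _ (m _) (m _) (key _)⟩
  · have : P.β y = P.β x := by
      rcases not_and_or.1 ht with h | h
      · exact P.bl hK.2.2 h hy.1 hx.1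
      · exact P.bl hL.2.2 h hy.2 hx.2
    rw [this] at y1 y2
    exact ⟨_, sub _, ⟨_, ⟨x1, x2 ▸ hx⟩, x2.symm⟩, ⟨_, ⟨y1, y2 ▸ hy⟩, y2.symm⟩, key _⟩

include P in
lemma arc_uniq {x y : F} {A C : Set F} (hA : IsArc x y A) (hB : IsArc x y C) : A = C := by
  have := P.unic hA.sub.1 hB.sub.1
  have hx : x ∈ A ∩ C := ⟨hA.sub.2.1, hB.sub.2.1⟩
  have hy : y ∈ A ∩ C := ⟨hA.sub.2.2.1, hB.sub.2.2.1⟩
  exact ((hA.min this inter_subset_left hx hy).trans inter_subset_right).antisymm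
    ((hB.min this inter_subset_right hx hy).trans inter_subset_left)

lemma par (b : B) {g : I → ℝ} (hc : Continuous g) (hi : Function.Injective g)
    (hr : range g ⊆ Icc 0 1) :
    Param (P.pt b ∘ g) (P.pt b (g 0)) (P.pt b (g 1)) (P.pt b '' range g) := by
  rw [← range_comp]
  exact mkParam ((P.pt_cont b).comp hc) fun r s h => hi (P.pt_inj (hr ⟨r, rfl⟩) (hr ⟨s, rfl⟩) h)

lemma arcs (b : B) {u v : ℝ} (hu : u ∈ Icc (0 : ℝ) 1) (hv : v ∈ Icc (0 : ℝ) 1) (h : u ≠ v) :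
    IsArc (P.pt b u) (P.pt b v) (P.pt b '' uIcc u v) := by
  have e : range (fun r : I => AffineMap.lineMap u v (r : ℝ)) = uIcc u v := by
    rw [← segment_eq_uIcc, segment_eq_image_lineMap, image_eq_range]
  have := P.par b (g := fun r : I => AffineMap.lineMap u v (r : ℝ))
    (AffineMap.lineMap_continuous.comp continuous_subtype_val)
    ((AffineMap.lineMap_injective ℝ h).comp Subtype.val_injective)
    (e ▸ ordConnected_Icc.uIcc_subset hu hv)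
  rw [e] at this
  exact ⟨_, by simpa using this⟩

lemma arc0 (b : B) {u : ℝ} (hu : u ∈ Ioc (0 : ℝ) 1) :
    IsArc P.t (P.pt b u) (P.pt b '' Icc 0 u) := by
  have := P.arcs b ⟨le_rfl, zero_le_one⟩ ⟨hu.1.le, hu.2⟩ hu.1.ne
  rwa [P.pt_top b le_rfl, uIcc_of_le hu.1.le] at this

lemma arcJ {b b' : B} (h : b ≠ b') {u v : ℝ} (hu : u ∈ Ioc (0 : ℝ) 1) (hv : v ∈ Ioc (0 : ℝ) 1) :
    ∃ A, IsArc (P.pt b u) (P.pt b' v) A ∧ P.t ∈ A := by
  let φ : I → F := fun r =>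
    if (r : ℝ) ≤ 1 / 2 then P.pt b (u * (1 - 2 * r)) else P.pt b' (v * (2 * r - 1))
  have hc : Continuous φ := Continuous.if_le ((P.pt_cont b).comp (by fun_prop))
    ((P.pt_cont b').comp (by fun_prop)) (by fun_prop) (by fun_prop) fun r hr => by
      rw [P.pt_top b (by simp [hr]), P.pt_top b' (by simp [hr])]
  have a1 : ∀ r : I, (r : ℝ) ≤ 1 / 2 → u * (1 - 2 * r) ∈ Icc (0 : ℝ) 1 := fun r hr =>
    ⟨by nlinarith [hu.1], by nlinarith [hu.1, hu.2, r.2.1]⟩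
  have a2 : ∀ r : I, ¬ (r : ℝ) ≤ 1 / 2 → v * (2 * r - 1) ∈ Ioc (0 : ℝ) 1 := fun r hr =>
    ⟨by nlinarith [hv.1, not_le.1 hr], by nlinarith [hv.1, hv.2, r.2.2]⟩
  have hi : Function.Injective φ := fun r s e => by
    simp only [φ] at e
    split_ifs at e with p q q
    · exact Subtype.ext (by linarith [mul_left_cancel₀ hu.1.ne' (P.pt_inj (a1 r p) (a1 s q) e)])
    · exact (h (P.pt_bl (a2 s q) (a1 r p) e.symm).symm).elim
    · exact (h (P.pt_bl (a2 r p) (a1 s q) e).symm).elim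
    · exact Subtype.ext (by
        linarith [mul_left_cancel₀ hv.1.ne'
          (P.pt_inj (Ioc_subset_Icc_self (a2 r p)) (Ioc_subset_Icc_self (a2 s q)) e)])
  have := mkParam hc hi
  refine ⟨range φ, ⟨φ, ?_⟩, ⟨⟨1 / 2, by norm_num, by norm_num⟩, ?_⟩⟩
  · convert this <;> norm_num [φ]
  · simp only [φ, le_refl, if_true]
    exact P.pt_top b (by norm_num)

include P in
lemma dend : Dendroid F := by
  refine ⟨⟨P.cpt, ⟨P.t, trivial⟩, isPreconnected_of_forall P.t fun y _ => ?_⟩,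
    fun x y h => ?_, fun K L => P.unic⟩
  · obtain ⟨b, u, hu, rfl⟩ := P.ex_pt y
    exact ⟨range (P.pt b), subset_univ _, ⟨0, P.pt_top b le_rfl⟩, mem_range_self _,
      isPreconnected_range (P.pt_cont b)⟩
  · obtain ⟨b, u, hu, rfl⟩ := P.ex_pt x
    obtain ⟨b', v, hv, rfl⟩ := P.ex_pt y
    by_cases e : ∃ w ∈ Icc (0 : ℝ) 1, P.pt b' v = P.pt b w
    · obtain ⟨w, hw, e⟩ := e
      rw [e] at h ⊢
      exact ⟨_, P.arcs b hu hw fun e => h (e ▸ rfl)⟩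
    by_cases e' : P.pt b u = P.t
    · rw [e'] at h ⊢
      exact ⟨_, P.arc0 b' ⟨hv.1.lt_of_ne fun e => h (P.pt_top b' e.ge).symm, hv.2⟩⟩
    obtain ⟨A, hA, -⟩ := P.arcJ (b := b) (b' := b') (fun h => e ⟨v, hv, h ▸ rfl⟩)
      ⟨hu.1.lt_of_ne fun e => e' (P.pt_top b e.ge), hu.2⟩
      ⟨hv.1.lt_of_ne fun h => e ⟨0, ⟨le_rfl, zero_le_one⟩, by
        rw [P.pt_top b' h.ge, P.pt_top b le_rfl]⟩, hv.2⟩
    exact ⟨A, hA⟩

lemma two {A L : Set F} (hK : SubCont A) (hL : SubCont L) {b : B} {u s s' : ℝ}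
    (hu : u ∈ Icc (0 : ℝ) 1) (e : A ∩ L = {P.pt b u}) (hs : s ∈ Icc (0 : ℝ) 1)
    (hs' : s' ∈ Icc (0 : ℝ) 1) (n : s ≠ u) (n' : s' ≠ u) (m : P.pt b s ∈ A) (m' : P.pt b s' ∈ L) :
    ¬ (s < u ↔ s' < u) := fun h => by
  have p : P.pt b u ∈ A ∩ L := e ▸ rfl
  by_cases l : s < u
  · have l' := h.1 l
    have : P.pt b (max s s') ∈ A ∩ L :=
      ⟨P.oc hK hs.1 (le_max_left _ _) (max_lt l l').le hu.2 m p.1,
        P.oc hL hs'.1 (le_max_right _ _) (max_lt l l').le hu.2 m' p.2⟩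
    rw [e] at this
    exact (max_lt l l').ne (P.pt_inj ⟨le_max_of_le_left hs.1, max_le hs.2 hs'.2⟩ hu this)
  · have l1 := (not_lt.1 l).lt_of_ne' n
    have l2 := (not_lt.1 (mt h.2 l)).lt_of_ne' n'
    have : P.pt b (min s s') ∈ A ∩ L :=
      ⟨P.oc hK hu.1 (lt_min l1 l2).le (min_le_left _ _) hs.2 p.1 m,
        P.oc hL hu.1 (lt_min l1 l2).le (min_le_right _ _) hs'.2 p.2 m'⟩
    rw [e] at this
    exact (lt_min l1 l2).ne' (P.pt_inj ⟨le_min hs.1 hs'.1, min_le_of_left_le hs.2⟩ hu this)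

lemma blades {b b' : B} (h : b ≠ b') : P.pt b '' Icc 0 1 ∩ P.pt b' '' Icc 0 1 = {P.t} := by
  refine eq_singleton_iff_unique_mem.2 ⟨⟨⟨0, ⟨le_rfl, zero_le_one⟩, P.pt_top b le_rfl⟩,
    ⟨0, ⟨le_rfl, zero_le_one⟩, P.pt_top b' le_rfl⟩⟩, ?_⟩
  rintro _ ⟨⟨u, hu, rfl⟩, v, hv, e⟩
  by_contra hn
  exact h (P.pt_bl ⟨hu.1.lt_of_ne fun e => hn (P.pt_top b e.ge), hu.2⟩ hv e.symm)

lemma isFan : IsFan P.t := by
  refine ⟨P.dend, fun p => ⟨fun ⟨e, A, h1, h2⟩ => ?_, ?_⟩⟩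
  · by_contra hn
    obtain ⟨b, u, hu, rfl⟩ := P.ex_pt' hn
    choose s hs hs' hs'' using fun i =>
      P.near (h1 i).sub.1.2.2 hu (h1 i).sub.2.1 (h1 i).sub.2.2.1 (h1 i).sub.2.2.2
    have := fun i j h => P.two (h1 i).sub.1 (h1 j).sub.1 (Ioc_subset_Icc_self hu) (h2 i j h) (hs i)
      (hs j) (hs' i) (hs' j) (hs'' i) (hs'' j)
    have a := this 0 1 (by decide)
    have b := this 0 2 (by decide)
    have c := this 1 2 (by decide)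
    tauto
  · rintro rfl
    obtain ⟨e, he⟩ := P.three
    exact ⟨fun i => P.pt (e i) 1, fun i => P.pt (e i) '' Icc 0 1,
      fun i => P.arc0 _ ⟨one_pos, le_rfl⟩, fun i j h => P.blades fun e => h (he e)⟩

lemma ends : Ends F = range fun b => P.pt b 1 := by
  have o : (1 : ℝ) ∈ Ioc (0 : ℝ) 1 := ⟨one_pos, le_rfl⟩
  ext z
  constructor
  · intro hz
    by_cases h : z = P.t
    · obtain ⟨e, he⟩ := P.three
      obtain ⟨A, h1, h2⟩ := P.arcJ (he.ne (show (0 : Fin 3) ≠ 1 by decide)) o o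
      rcases hz _ _ _ h1 (h ▸ h2) with e | e
      · exact (P.pt_ne o (e.symm.trans h)).elim
      · exact (P.pt_ne o (e.symm.trans h)).elim
    · obtain ⟨b, u, hu, rfl⟩ := P.ex_pt' h
      exact ⟨b, ((hz _ _ _ (P.arc0 b o) ⟨u, Ioc_subset_Icc_self hu, rfl⟩).resolve_left h).symm⟩
  · rintro ⟨b, rfl⟩ _ _ _ ⟨φ, h, rfl, rfl, rfl⟩ ⟨r, hr⟩
    by_contra hn
    push Not at hn
    have sc : ∀ p q : I, p ≤ q → SubCont (φ '' Icc p q) := fun p q hpq =>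
      ⟨isCompact_Icc.image h.continuous, (isConnected_Icc hpq).image _ h.continuous.continuousOn⟩
    have k1 := sc 0 r r.2.1
    have k2 := sc r 1 r.2.2
    obtain ⟨s, p1, p2, p3⟩ := P.near k1.2.2 o ⟨r, ⟨r.2.1, le_rfl⟩, hr⟩ ⟨0, ⟨le_rfl, r.2.1⟩, rfl⟩ hn.1.symm
    obtain ⟨s', q1, q2, q3⟩ := P.near k2.2.2 o ⟨r, ⟨le_rfl, r.2.2⟩, hr⟩ ⟨1, ⟨r.2.2, le_rfl⟩, rfl⟩ hn.2.symm
    refine P.two k1 k2 ⟨zero_le_one, le_rfl⟩ ?_ p1 q1 p2 q2 p3 q3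
      (iff_of_true (p1.2.lt_of_ne p2) (q1.2.lt_of_ne q2))
    rw [← image_inter h.injective, Icc_inter_Icc_eq_singleton (show (0 : I) ≤ r from r.2.1)
      (show r ≤ 1 from r.2.2), image_singleton, hr]

lemma mem_ends {b : B} {u : ℝ} (hu : u ∈ Icc (0 : ℝ) 1) : P.pt b u ∈ Ends F ↔ u = 1 := by
  rw [P.ends]
  refine ⟨fun ⟨b', e⟩ => ?_, fun e => ⟨b, e ▸ rfl⟩⟩
  obtain rfl := P.pt_bl ⟨one_pos, le_rfl⟩ hu e
  exact (P.pt_inj ⟨zero_le_one, le_rfl⟩ hu e).symm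

lemma seg {x : F} {A : Set F} (h : Seg P.t x A) : A = range fun r => P.fl (x, r) := by
  obtain ⟨b, u, hu, rfl⟩ := P.ex_pt x
  rw [P.fl_pt b u hu]
  rcases h with ⟨h, rfl⟩ | h
  · obtain rfl := P.pt_inj hu ⟨le_rfl, zero_le_one⟩ (h.trans (P.pt_top b le_rfl).symm)
    simp [P.pt_top]
  · exact P.arc_uniq h (P.arc0 b ⟨hu.1.lt_of_ne fun e => h.sub.2.2.2 (P.pt_top _ e.ge), hu.2⟩)

lemma smooth : Smooth P.t := fun x y A B hx hA hB => by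
  have : CompactSpace F := ⟨P.cpt⟩
  rw [Metric.tendsto_nhds] at hx ⊢
  intro ε hε
  obtain ⟨δ, hδ, h⟩ := Metric.uniformContinuous_iff.1
    (CompactSpace.uniformContinuous_of_continuous P.fl_cont) (ε / 2) (by positivity)
  filter_upwards [hx δ hδ] with n hn
  rw [Real.dist_0_eq_abs, abs_of_nonneg Metric.hausdorffDist_nonneg, P.seg (hA n), P.seg hB]
  refine (Metric.hausdorffDist_le_of_mem_dist (r := ε / 2) (by positivity) ?_ ?_).trans_lt (by linarith)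
  · rintro _ ⟨r, rfl⟩
    exact ⟨_, ⟨r, rfl⟩, (h (by simpa [Prod.dist_eq, hδ] using hn)).le⟩
  · rintro _ ⟨r, rfl⟩
    exact ⟨_, ⟨r, rfl⟩, (h (by simpa [Prod.dist_eq, hδ, dist_comm] using hn)).le⟩

lemma cl_mem {Z : Set ℝ} (hZ : IsClosed Z) {b : B} (hA : ∀ b' ≠ b, P.ht b (P.pt b' 1) ∈ Z)
    {T : Set F} (hT : P.pt b 1 ∈ T) {s : ℝ} (hs : s ∈ Icc (0 : ℝ) 1)
    (h : P.pt b s ∈ closure (Ends F \ T)) : s ∈ Z := by
  rw [← P.ht_pt b hs]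
  refine hZ.closure_subset (map_mem_closure (P.ht_cont b) h ?_)
  rw [P.ends]
  rintro _ ⟨⟨b', rfl⟩, h⟩
  exact hA b' fun e => h (e ▸ hT)

lemma epg {X : Set I} (H : ∀ b, ∃ g : I → ℝ, Continuous g ∧ Function.Injective g ∧
    range g = Icc 0 1 ∧ g 0 = 0 ∧ g 1 = 1 ∧ IsClosed (g '' X) ∧
    (∀ b' ≠ b, P.ht b (P.pt b' 1) ∈ g '' X) ∧
    ∀ s ∈ g '' X, P.pt b s ∈ closure {z | ∃ b' ≠ b, z = P.pt b' 1}) : EPG P.t X := by
  intro e he A hB'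
  rw [P.ends] at he
  obtain ⟨b, rfl⟩ := he
  obtain rfl := P.arc_uniq hB' (P.arc0 b ⟨one_pos, le_rfl⟩)
  obtain ⟨g, hc, hi, hr, g0, g1, hZ, hA, hB⟩ := H b
  have := P.par b hc hi hr.subset
  rw [g0, g1, hr, P.pt_top b le_rfl] at this
  refine ⟨_, this, ?_⟩
  rw [image_comp]
  ext z
  constructor
  · rintro ⟨s, hs, rfl⟩
    refine ⟨⟨s, hr ▸ image_subset_range _ _ hs, rfl⟩, closure_mono ?_ (hB s hs)⟩
    rintro _ ⟨b', hb, rfl⟩
    exact ⟨(P.mem_ends ⟨zero_le_one, le_rfl⟩).2 rfl, fun ⟨v, hv, e⟩ =>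
      hb (P.pt_bl ⟨one_pos, le_rfl⟩ hv e.symm)⟩
  · rintro ⟨⟨s, hs, rfl⟩, h⟩
    exact ⟨s, P.cl_mem hZ hA (mem_image_of_mem _ (right_mem_Icc.2 zero_le_one)) hs h, rfl⟩

end Pre

end Pool.Agent.H84.Fan
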