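import Pool.Agent.H84.FanP

open Set Filter Topology unitInterval

namespace Pool.Agent.H84.Fan

lemma lim' {c : Wt} (b : Γ) {u w : ℝ} (hu : u ≤ 1) {T : Set (FF c)}
    (h : ∀ k, ∃ j ≥ k, ∃ n : ℕ, c.1 j * n = w ∧ pt c (b + Finsupp.single j (n : ℤ)) u ∈ T) :
    pt c b (u - w) ∈ closure T := by
  choose j hj n e hT using h
  have hw : 0 ≤ w := e 0 ▸ mul_nonneg (by linarith [c.2 (j 0)]) (Nat.cast_nonneg _)
  refine mem_closure_of_tendsto (f := fun k => pt c (b + Finsupp.single (j k) (n k : ℤ)) u)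
    (b := atTop) ?_ (Eventually.of_forall hT)
  rw [emb.tendsto_nhds_iff, tendsto_pi_nhds]
  intro a
  refine tendsto_const_nhds.congr' ?_
  obtain ⟨N, hN⟩ := (a - b).support.bddAbove
  filter_upwards [eventually_gt_atTop N] with k hk
  simp only [Function.comp]
  rw [val_pt _ hu, val_pt _ (by linarith), ph, ph]
  have : a ≤ b + Finsupp.single (j k) (n k : ℤ) ↔ a ≤ b := by
    refine ⟨fun h i => ?_, fun h => h.trans (le_add_of_nonneg_right (by simp))⟩
    by_cases q : i = j k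
    · have : (a - b) i = 0 := by
        by_contra h0
        have := hN (Finsupp.mem_support_iff.2 h0)
        have := hj k
        omega
      exact (sub_eq_zero.1 this).le
    · simpa [Finsupp.single_eq_of_ne q] using h i
  by_cases q : a ≤ b
  · rw [if_pos q, if_pos (this.2 q)]
    simp only [map_sub, map_add, wt_single, Int.cast_natCast, e k]
    congr 1
    ring
  · rw [if_neg q, if_neg (mt this.1 q)]

lemma wt_congr {c c' : Wt} {d : Γ} (h : ∀ k, d k ≠ 0 → c.1 k = c'.1 k) : wt c d = wt c' d := by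
  simp only [wt, Finsupp.liftAddHom_apply, Finsupp.sum]
  exact Finset.sum_congr rfl fun k hk => by rw [h k (Finsupp.mem_support_iff.1 hk)]

noncomputable def cW : Wt :=
  ⟨fun k => if k % 3 = 0 then 1 / 3 else cF.1 k, fun k => by
    dsimp only
    split_ifs
    · exact le_rfl
    · exact cF.2 k⟩

def LG (b : Γ) : Prop := b 0 = 1 ∧ ∀ k, k % 3 ≠ 0 → b k = 0

def LF (b : Γ) : Prop := b 1 = 1 ∧ ∀ k, k % 3 = 0 → b k = 0

def Λ := {b : Γ // LG b ∨ LF b}

def KS : Set (FF cW) := {z | z = top cW ∨ LG (β z) ∨ LF (β z)}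

lemma KS_closed : IsClosed KS := by
  refine isOpen_compl_iff.1 (isOpen_iff_mem_nhds.2 fun z hz => ?_)
  simp only [KS, mem_compl_iff, mem_ofPred_eq, not_or] at hz
  obtain ⟨j, hj⟩ : ∃ j, ∀ b : Γ, b j = β z j → ¬ LG b := by
    rcases not_and_or.1 hz.2.1 with h | h
    · exact ⟨0, fun b e hb => h (e ▸ hb.1)⟩
    · push Not at h
      obtain ⟨k, h1, h2⟩ := h
      exact ⟨k, fun b e hb => h2 (e ▸ hb.2 k h1)⟩
  obtain ⟨k, hk⟩ : ∃ j, ∀ b : Γ, b j = β z j → ¬ LF b := by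
    rcases not_and_or.1 hz.2.2 with h | h
    · exact ⟨1, fun b e hb => h (e ▸ hb.1)⟩
    · push Not at h
      obtain ⟨k, h1, h2⟩ := h
      exact ⟨k, fun b e hb => h2 (e ▸ hb.2 k h1)⟩
  filter_upwards [isOpen_ne.mem_nhds hz.1, loc hz.1 j, loc hz.1 k] with w h1 h2 h3
  rintro (h | h | h)
  · exact h1 h
  · exact hj _ h2 h
  · exact hk _ h3 h

lemma pt_mem (b : Λ) (u : ℝ) : pt cW b.1 u ∈ KS := by
  rcases le_or_gt u 0 with h | h
  · exact Or.inl (pt_top _ h)
  · have : pt cW b.1 u = pt cW b.1 (min u 1) := by simp [pt]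
    refine Or.inr ?_
    rw [this, β_pt ⟨lt_min h one_pos, min_le_right _ _⟩]
    exact b.2

lemma top_fl (r : I) : fl (top cW, r) = top cW := pt_top _ (by simp [val_top, r.2.1])

noncomputable def bG : Λ := ⟨Finsupp.single 0 1, Or.inl ⟨by simp, fun k hk => by
  rw [Finsupp.single_eq_of_ne]; rintro rfl; exact hk rfl⟩⟩

lemma addG {b : Γ} (h : LG b) (j : ℕ) (n : ℤ) : LG (b + Finsupp.single (3 * j + 3) n) :=
  ⟨by simpa using h.1, fun k hk => by
    rw [Finsupp.add_apply, h.2 k hk, Finsupp.single_eq_of_ne (by omega), add_zero]⟩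

lemma addF {b : Γ} (h : LF b) {j : ℕ} (h1 : j ≠ 1) (h2 : j % 3 ≠ 0) (n : ℤ) :
    LF (b + Finsupp.single j n) :=
  ⟨by rw [Finsupp.add_apply, h.1, Finsupp.single_eq_of_ne h1.symm, add_zero], fun k hk => by
    rw [Finsupp.add_apply, h.2 k hk, Finsupp.single_eq_of_ne (by rintro rfl; exact h2 hk), add_zero]⟩

lemma fl_mem (p : KS × I) : fl (p.1.1, p.2) ∈ KS := by
  rcases p.1.2 with h | h
  · exact Or.inl (h ▸ top_fl p.2)
  · exact pt_mem ⟨_, h⟩ _

noncomputable def PK : Pre KS Λ ℕ ℤ where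
  t := ⟨top cW, Or.inl rfl⟩
  pt b u := ⟨pt cW b.1 u, pt_mem b u⟩
  ht b z := val z.1 b.1
  κ k b := b.1 k
  fl p := ⟨fl (p.1.1, p.2), fl_mem p⟩
  cpt := (isCompact_iff_compactSpace.1 KS_closed.isCompact).isCompact_univ
  pt_cont b := (pt_cont b.1).subtype_mk _
  ht_cont b := (cv b.1).comp continuous_subtype_val
  pt_top b _ h := Subtype.ext (pt_top b.1 h)
  ht_pt b _ h := val_self b.1 h
  pt_bl hu hv h := Subtype.ext (pt_bl hu hv.2 (congrArg Subtype.val h))
  ex_pt z := by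
    rcases z.2 with h | h
    · exact ⟨bG, 0, ⟨le_rfl, zero_le_one⟩, Subtype.ext (h.trans (pt_top _ le_rfl).symm)⟩
    · exact ⟨⟨_, h⟩, _, (β_spec z.1).1, Subtype.ext (β_spec z.1).2⟩
  sep h := Subtype.ext (Finsupp.ext h)
  loc' b u hu k := by
    filter_upwards [continuous_subtype_val.continuousAt.eventually (loc (pt_ne (b := b.1) hu) k)]
      with w hw b' v hv e
    rwa [e, β_pt hu, β_pt hv] at hw
  three := ⟨fun i => ⟨_, Or.inl (addG (show LG bG.1 from ⟨by simp [bG], fun k hk => by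
      rw [bG, Finsupp.single_eq_of_ne]; rintro rfl; exact hk rfl⟩) 0 (i : ℕ))⟩, fun i j h => by
    have := congrArg (fun b : Λ => b.1 3) h
    exact Fin.ext (by simpa using this)⟩
  fl_cont := Continuous.subtype_mk (f := fun p : KS × I => fl (p.1.1, p.2))
    (fl_cont.comp (by fun_prop)) fl_mem
  fl_pt b u hu := by
    have : Seg (top cW) (pt cW b.1 u) (pt cW b.1 '' Icc 0 u) := by
      rcases hu.1.eq_or_lt with rfl | h
      · exact Or.inl ⟨pt_top _ le_rfl, by simp [pt_top]⟩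
      · exact Or.inr (arc0 _ ⟨h, hu.2⟩)
    have := seg this
    refine Subtype.val_injective.image_injective ?_
    rw [← range_comp, image_image]
    exact this.symm

lemma clK {x : KS} {T : Set KS} (h : x.1 ∈ closure (Subtype.val '' T)) : x ∈ closure T :=
  closure_subtype.2 h

lemma limK (b : Λ) {u w : ℝ} (hu : u ≤ 1) {T : Set KS} (hT : ∀ b' ≠ b, PK.pt b' u ∈ T)
    (h : ∀ k, ∃ j ≥ k, ∃ n : ℕ, 0 < n ∧ cW.1 j * n = w ∧
      (LG (b.1 + Finsupp.single j (n : ℤ)) ∨ LF (b.1 + Finsupp.single j (n : ℤ)))) :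
    PK.pt b (u - w) ∈ closure T := clK <| lim' b.1 hu fun k => by
  obtain ⟨j, hj, n, hn, e, m⟩ := h k
  exact ⟨j, hj, n, e, _, hT ⟨_, m⟩ fun e => by simpa [hn.ne'] using congrArg Subtype.val e, rfl⟩

lemma limG {b : Λ} (hb : LG b.1) {u : ℝ} (hu : u ≤ 1) {T : Set KS} (hT : ∀ b' ≠ b, PK.pt b' u ∈ T)
    (n : ℕ) (hn : 0 < n) : PK.pt b (u - n / 3) ∈ closure T :=
  limK b hu hT fun k => ⟨3 * k + 3, by omega, n, hn, by
    simp only [cW, show (3 * k + 3) % 3 = 0 by omega, if_true]; ring, Or.inl (addG hb k n)⟩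

lemma htK {b b' : Λ} (h : b' ≠ b) {v : ℝ} (hv : v ≤ 1) : PK.ht b (PK.pt b' v) = 0 ∨
    ∃ d, 0 ≤ d ∧ d ≠ 0 ∧ (LG b.1 → PK.ht b (PK.pt b' v) = max 0 (v - wt cG d)) ∧
      (LF b.1 → LF b'.1 ∧ PK.ht b (PK.pt b' v) = max 0 (v - wt cF d)) := by
  rw [show PK.ht b (PK.pt b' v) = val (pt cW b'.1 v) b.1 from rfl]
  rw [val_pt _ hv, ph]
  split_ifs with e
  · refine Or.inr ⟨b'.1 - b.1, sub_nonneg.2 e, sub_ne_zero.2 (Subtype.val_injective.ne h),
      fun hb => ?_, fun hb => ?_⟩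
    · have hb' : LG b'.1 := b'.2.resolve_right fun h => by
        have := e 0
        rw [hb.1, h.2 0 rfl] at this
        omega
      rw [wt_congr (c' := cG) fun k hk => ?_]
      have : k % 3 = 0 := by
        by_contra hn
        exact hk (by simp [hb.2 k hn, hb'.2 k hn])
      simp [cW, cG, this]
    · have hb' : LF b'.1 := b'.2.resolve_left fun h => by
        have := e 1
        rw [hb.1, h.2 1 (by norm_num)] at this
        omega
      refine ⟨hb', ?_⟩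
      rw [wt_congr (c' := cF) fun k hk => ?_]
      have : k % 3 ≠ 0 := fun hn => hk (by simp [hb.2 k hn, hb'.2 k hn])
      simp [cW, this]
  · exact Or.inl rfl

lemma hZF {b : Λ} (hb : LF b.1) (b' : Λ) (h : b' ≠ b) :
    PK.ht b (PK.pt b' 1) ∈ ({0, 1 / 9, 4 / 9} : Set ℝ) := by
  rcases htK h le_rfl with e | ⟨d, h1, h2, -, e⟩
  · exact Or.inl e
  · exact (e hb).2 ▸ hAF d h1 h2

lemma epgK : EPG PK.t X3 := PK.epg fun b => by
  have hT : ∀ b' ≠ b, PK.pt b' 1 ∈ {z | ∃ b' ≠ b, z = PK.pt b' 1} := fun b' h => ⟨b', h, rfl⟩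
  rcases b.2 with hb | hb
  · have e : ((↑) : I → ℝ) '' X3 = {0, 1 / 3, 2 / 3} := by
      refine image_preimage_eq_of_subset ?_
      rw [Subtype.range_coe]
      rintro s (rfl | rfl | rfl) <;> norm_num
    refine ⟨(↑), continuous_subtype_val, Subtype.val_injective, Subtype.range_coe, rfl, rfl, ?_⟩
    rw [e]
    refine ⟨(toFinite _).isClosed, fun b' h => ?_, ?_⟩
    · rcases htK h le_rfl with e | ⟨d, h1, h2, e, -⟩
      · exact Or.inl e
      · exact e hb ▸ hAG d h1 h2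
    · rintro s (rfl | rfl | rfl)
      · convert limG hb le_rfl hT 3 (by norm_num) using 2; norm_num
      · convert limG hb le_rfl hT 2 (by norm_num) using 2; norm_num
      · convert limG hb le_rfl hT 1 (by norm_num) using 2; norm_num
  · have e : (fun r : I => (r : ℝ) ^ 2) '' X3 = {0, 1 / 9, 4 / 9} := by
      ext s
      constructor
      · rintro ⟨r, (h | h | (h : _ = _)), rfl⟩ <;> simp only [h] <;> norm_num
      · rintro (rfl | rfl | rfl)
        · exact ⟨0, by simp [X3], by simp⟩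
        · exact ⟨⟨1 / 3, by norm_num⟩, by simp [X3], by norm_num⟩
        · exact ⟨⟨2 / 3, by norm_num⟩, by simp [X3], by norm_num⟩
    refine ⟨fun r => (r : ℝ) ^ 2, by fun_prop,
      fun r s h => Subtype.ext ((pow_left_inj₀ r.2.1 s.2.1 two_ne_zero).1 h), ?_, by simp, by simp, ?_⟩
    · ext s
      constructor
      · rintro ⟨r, rfl⟩
        exact ⟨sq_nonneg _, pow_le_one₀ r.2.1 r.2.2⟩
      · intro hs
        exact ⟨⟨√s, Real.sqrt_nonneg _, Real.sqrt_le_one.2 hs.2⟩, Real.sq_sqrt hs.1⟩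
    rw [e]
    refine ⟨(toFinite _).isClosed, hZF hb, ?_⟩
    have ev : ∀ n : ℕ, 0 < n → PK.pt b (1 - 5 / 9 * n) ∈ closure _ := fun n hn =>
      limK b le_rfl hT fun k => ⟨6 * k + 2, by omega, n, hn, by
        simp [cW, cF, show (6 * k + 2) % 3 ≠ 0 by omega, show Even (6 * k + 2) from ⟨3 * k + 1, by ring⟩],
        Or.inr (addF hb (by omega) (by omega) n)⟩
    rintro s (rfl | rfl | rfl)
    · rw [PK.pt_top b le_rfl, ← PK.pt_top b (u := 1 - 5 / 9 * (2 : ℕ)) (by norm_num)]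
      exact ev 2 two_pos
    · rw [show (1 / 9 : ℝ) = 1 - 8 / 9 by norm_num]
      exact limK b le_rfl hT fun k => ⟨6 * k + 5, by omega, 1, one_pos, by
        simp [cW, cF, show (6 * k + 5) % 3 ≠ 0 by omega,
          show ¬ Even (6 * k + 5) from Nat.not_even_iff.2 (by omega)],
        Or.inr (addF hb (by omega) (by omega) _)⟩
    · convert ev 1 one_pos using 2; norm_num

lemma invKG {b : Λ} (hb : LG b.1) : PK.pt b (1 / 3) ∈ Inv KS := by
  have o : (1 : ℝ) ∈ Icc (0 : ℝ) 1 := ⟨zero_le_one, le_rfl⟩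
  have hG : ∀ b' : Λ, LG b'.1 → PK.pt b' (2 / 3) ∈ closure (Ends KS) \ Ends KS := fun b' h =>
    ⟨by convert limG h le_rfl (fun b'' _ => (PK.mem_ends o).2 rfl) 1 one_pos using 2; norm_num,
      fun e => by norm_num [PK.mem_ends (b := b') (u := 2 / 3) (by norm_num)] at e⟩
  rw [show (1 / 3 : ℝ) = 2 / 3 - 1 / 3 by norm_num]
  refine clK (lim' b.1 (by norm_num) fun k => ⟨3 * k + 3, by omega, 1, by
    simp [cW, show (3 * k + 3) % 3 = 0 by omega], _,
    ⟨hG ⟨_, Or.inl (addG hb k _)⟩ (addG hb k _), fun e => ?_⟩, rfl⟩)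
  simpa using congrArg Subtype.val (PK.pt_bl (by norm_num) (by norm_num) e)

lemma invKF {b : Λ} (hb : LF b.1) {s : ℝ} (hs : s ∈ Ioc (0 : ℝ) 1) : PK.pt b s ∉ Inv KS := fun hy => by
  have hf : (({0, 1 / 9, 4 / 9} : Set ℝ) \ {s}).Finite := (toFinite _).sdiff
  have h0 : (0 : ℝ) ∈ ({0, 1 / 9, 4 / 9} : Set ℝ) \ {s} := ⟨by simp, hs.1.ne⟩
  have := hf.isClosed.closure_subset (map_mem_closure (PK.ht_cont b) hy fun z hz => ?_)
  · exact this.2 (PK.ht_pt b (Ioc_subset_Icc_self hs))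
  obtain ⟨b', v, hv, rfl⟩ := PK.ex_pt z
  have m : LF b'.1 → v ∈ ({0, 1 / 9, 4 / 9} : Set ℝ) := fun hb' => by
    refine PK.cl_mem (T := {PK.pt b' 1}) (toFinite _).isClosed (hZF hb') rfl hv ?_
    have me := (PK.mem_ends (b := b') ⟨zero_le_one, le_rfl⟩).2 rfl
    have := hz.1.1
    rw [← sdiff_union_of_subset (singleton_subset_iff.2 me), closure_union,
      closure_singleton] at this
    exact this.resolve_right fun e => hz.1.2 (e ▸ me)
  by_cases e : b' = b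
  · subst e
    rw [PK.ht_pt b' hv]
    exact ⟨m hb, fun e => hz.2 (e ▸ rfl)⟩
  · rcases htK e hv.2 with e | ⟨d, h1, h2, -, e⟩
    · exact e ▸ h0
    · rw [(e hb).2, max_eq_left]
      · exact h0
      · rcases m (e hb).1 with m | m | (m : _ = _) <;> linarith [wtF h1 h2]

lemma notHom : ¬ EndHom KS := fun H => by
  have o : (1 : ℝ) ∈ Icc (0 : ℝ) 1 := ⟨zero_le_one, le_rfl⟩
  have hb : LF (Finsupp.single 1 1) := ⟨by simp, fun k hk => by
    rw [Finsupp.single_eq_of_ne]; rintro rfl; norm_num at hk⟩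
  obtain ⟨h, e⟩ := H _ ((PK.mem_ends (b := bG) o).2 rfl) _ ((PK.mem_ends (b := ⟨_, Or.inr hb⟩) o).2 rfl)
  have ht : h PK.t = PK.t := (PK.isFan.2 _).1 (ram_map h ((PK.isFan.2 _).2 rfl))
  have := arc_map h (PK.arc0 bG ⟨one_pos, le_rfl⟩)
  rw [ht, e] at this
  obtain ⟨s, hs, e'⟩ := (PK.arc_uniq this (PK.arc0 _ ⟨one_pos, le_rfl⟩)).subset
    (mem_image_of_mem _ (mem_image_of_mem _ (show (1 / 3 : ℝ) ∈ Icc 0 1 by norm_num)))
  refine invKF (b := ⟨_, Or.inr hb⟩) hb (s := s) ⟨hs.1.lt_of_ne fun e0 => ?_, hs.2⟩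
    (e' ▸ inv_map h (invKG ⟨by simp [bG], fun k hk => by
      rw [bG, Finsupp.single_eq_of_ne]; rintro rfl; exact hk rfl⟩))
  rw [PK.pt_top _ e0.ge, ← ht] at e'
  exact PK.pt_ne (by norm_num) (h.injective e').symm

end Pool.Agent.H84.Fan
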