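import Pool.Agent.H84.FanP

open Set Filter Topology unitInterval

namespace Pool.Agent.H84.Fan.Six

lemma pl {a b x x' : ℝ} (hx : x ∈ Ioo a b) (hx' : x' ∈ Ioo a b) :
    ∃ γ : ℝ ≃o ℝ, γ x = x' ∧ ∀ y ∉ Ioo a b, γ y = y := by
  have p1 : 0 < (x' - a) / (x - a) := div_pos (sub_pos.2 hx'.1) (sub_pos.2 hx.1)
  have p2 : 0 < (b - x') / (b - x) := div_pos (sub_pos.2 hx'.2) (sub_pos.2 hx.2)
  have e1 := div_mul_cancel₀ (x' - a) (sub_pos.2 hx.1).ne'
  have e2 := div_mul_cancel₀ (b - x') (sub_pos.2 hx.2).ne'
  set l₁ := (x' - a) / (x - a)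
  set l₂ := (b - x') / (b - x)
  let f : ℝ → ℝ := fun y =>
    min y a + l₁ * (max a (min y x) - a) + l₂ * (max x (min y b) - x) + (max y b - b)
  have hc : Continuous f := by fun_prop
  obtain ⟨h1, h2⟩ := hx
  have ho : ∀ y ∉ Ioo a b, f y = y := fun y hy => by
    rcases not_and_or.1 hy with h | h <;> replace h := not_lt.1 h
    · simp only [f]
      rw [min_eq_left h, min_eq_left (by linarith), max_eq_left h, min_eq_left (by linarith),
        max_eq_left (by linarith), max_eq_right (by linarith)]
      ring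
    · simp only [f]
      rw [min_eq_right (by linarith), min_eq_right (by linarith), max_eq_right h1.le, min_eq_right h,
        max_eq_right h2.le, max_eq_left h]
      linarith
  have hm : StrictMono f := fun y z h => by
    have id : ∀ y, min y a + (max a (min y x) - a) + (max x (min y b) - x) + (max y b - b) = y :=
      fun y => by
        simp only [min_def, max_def]
        split_ifs <;> linarith
    have hA := min_le_min_right a h.le
    have hB := sub_nonneg.2 (max_le_max_left a (min_le_min_right x h.le))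
    have hC := sub_nonneg.2 (max_le_max_left x (min_le_min_right b h.le))
    have hD := max_le_max_right b h.le
    have b1 := mul_nonneg p1.le hB
    have c1 := mul_nonneg p2.le hC
    have i1 := id y
    have i2 := id z
    simp only [f]
    rcases hB.eq_or_lt with hB | hB
    · rcases hC.eq_or_lt with hC | hC
      · linarith
      · linarith [mul_pos p2 hC]
    · linarith [mul_pos p1 hB]
  have hs : Function.Surjective f := fun y => by
    by_cases hy : y ∈ Ioo a b
    · obtain ⟨z, -, hz⟩ := intermediate_value_Icc (h1.trans h2).le hc.continuousOn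
        (show y ∈ Icc (f a) (f b) by
          rw [ho a (by simp), ho b (by simp)]; exact Ioo_subset_Icc_self hy)
      exact ⟨z, hz⟩
    · exact ⟨y, ho y hy⟩
  refine ⟨hm.orderIsoOfSurjective f hs, ?_, ho⟩
  simp only [StrictMono.coe_orderIsoOfSurjective, f]
  rw [min_eq_right h1.le, min_self, max_eq_right h1.le, min_eq_left h2.le, max_self, max_eq_right h2.le]
  linarith

noncomputable def p (k : ℤ) : ℝ := (1 / 2) ^ ((2 : ℝ) ^ (-k))

lemma p_mem (k : ℤ) : p k ∈ Ioo (0 : ℝ) 1 :=
  ⟨by unfold p; positivity, Real.rpow_lt_one (by norm_num) (by norm_num) (by positivity)⟩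

lemma p_mono : StrictMono p := fun j k h =>
  Real.rpow_lt_rpow_of_exponent_gt (by norm_num) (by norm_num)
    (zpow_lt_zpow_right₀ (by norm_num) (by omega))

lemma p_shift (k s : ℤ) : p k ^ ((2 : ℝ) ^ (-s)) = p (k + s) := by
  rw [p, ← Real.rpow_mul (by norm_num), ← zpow_add₀ two_ne_zero, p, neg_add]

lemma p_gap {y : ℝ} (hy : y ∈ Ioo (0 : ℝ) 1) : ∃ k, y ∈ Ico (p k) (p (k + 1)) := by
  obtain ⟨n, h1, h2⟩ := exists_mem_Ioc_zpow
    (Real.logb_pos_of_base_lt_one (b := 1 / 2) (by norm_num) (by norm_num) hy.1 hy.2) (one_lt_two (α := ℝ))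
  have e := Real.rpow_logb (b := 1 / 2) (by norm_num) (by norm_num) hy.1
  refine ⟨-(n + 1), ?_, ?_⟩
  · rw [← e, p, neg_neg]
    exact Real.rpow_le_rpow_of_exponent_ge (by norm_num) (by norm_num) h2
  · rw [← e, p, show -(-(n + 1) + 1) = n by ring]
    exact Real.rpow_lt_rpow_of_exponent_gt (by norm_num) (by norm_num) h1

lemma p_lim : Tendsto (fun n : ℕ => p n) atTop (𝓝 1) := by
  have : Tendsto (fun n : ℕ => (2 : ℝ) ^ (-(n : ℤ))) atTop (𝓝 0) := by
    simpa [← inv_pow] using tendsto_pow_atTop_nhds_zero_of_lt_one (r := (2 : ℝ)⁻¹) (by norm_num) (by norm_num)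
  simpa [p, Function.comp_def] using ((Real.continuous_const_rpow (a := 1 / 2) (by norm_num)).tendsto 0).comp this

abbrev J (R : Type) := R × Option (ℤ × ℕ)

variable {R : Type}

noncomputable def l (b : J R) : ℝ := b.2.elim 1 fun m => p m.1

lemma l_mem (b : J R) : l b ∈ Ioc (0 : ℝ) 1 := by
  obtain ⟨r, _ | m⟩ := b
  · exact ⟨one_pos, le_rfl⟩
  · exact Ioo_subset_Ioc_self (p_mem _)

def sub (a b : J R) : Prop := a = b ∨ a = (b.1, none)

open Classical in
noncomputable def bl (b : J R) (s : ℝ) : J R → ℝ := fun a => if sub a b then s else 0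

lemma bl_self (b : J R) (s : ℝ) : bl b s b = s := if_pos (Or.inl rfl)

lemma bl_root (b : J R) (s : ℝ) : bl b s (b.1, none) = s := if_pos (Or.inr rfl)

lemma bl_zero (b : J R) : bl b 0 = 0 := funext fun _ => ite_self _

lemma bl_ne {a b : J R} {s : ℝ} (h : bl b s a ≠ 0) : sub a b := by
  by_contra hn
  exact h (if_neg hn)

variable (R) in
def S : Set (J R → ℝ) := {z | ∃ b, ∃ s ∈ Icc 0 (l b), z = bl b s}

lemma S_eq [Nonempty R] : S R = {z | (∀ a, z a ∈ Icc 0 (l a)) ∧ (∀ a, z a = 0 ∨ z a = z (a.1, none)) ∧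
    ∀ a a', ¬ sub a a' → ¬ sub a' a → z a = 0 ∨ z a' = 0} := by
  ext z
  constructor
  · rintro ⟨b, s, hs, rfl⟩
    refine ⟨fun a => ?_, fun a => or_iff_not_imp_left.2 fun h => ?_, fun a a' h h' => ?_⟩
    · by_cases h : bl b s a = 0
      · rw [h]; exact ⟨le_rfl, (l_mem a).1.le⟩
      · rcases bl_ne h with rfl | rfl
        · rwa [bl_self]
        · rw [bl_root]
          exact ⟨hs.1, hs.2.trans (l_mem b).2⟩
    · rcases bl_ne h with rfl | rfl
      · rw [bl_self, bl_root]
      · rfl
    · by_contra hn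
      push Not at hn
      rcases bl_ne hn.1 with rfl | rfl <;> rcases bl_ne hn.2 with rfl | rfl <;> simp [sub] at h h'
  · rintro ⟨h1, h2, h3⟩
    have key : ∀ b, z b ≠ 0 → (∀ a, z a ≠ 0 → sub a b) → z ∈ S R := fun b hb h =>
      ⟨b, z b, h1 b, funext fun a => by
        unfold bl
        split_ifs with e
        · rcases e with rfl | rfl
          · rfl
          · exact ((h2 b).resolve_left hb).symm
        · exact not_not.1 (mt (h a) e)⟩
    by_cases h : ∃ r m, z (r, some m) ≠ 0
    · obtain ⟨r, m, h⟩ := h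
      refine key _ h fun a ha => ?_
      by_contra hn
      have : ¬ sub (r, some m) a := by
        rintro (rfl | e)
        · exact hn (Or.inl rfl)
        · simp at e
      exact (h3 _ _ hn this).elim ha h
    · push Not at h
      by_cases h' : ∃ r, z (r, none) ≠ 0
      · obtain ⟨r, h'⟩ := h'
        refine key _ h' ?_
        rintro ⟨r', _ | m⟩ ha
        · by_contra hn
          refine (h3 _ _ hn ?_).elim ha h'
          simp only [sub, or_self] at hn ⊢
          exact Ne.symm hn
        · exact (ha (h _ _)).elim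
      · push Not at h'
        refine ⟨(Classical.arbitrary R, none), 0, ⟨le_rfl, zero_le_one⟩, ?_⟩
        rw [bl_zero]
        funext a
        obtain ⟨r, _ | m⟩ := a
        · exact h' r
        · exact h r m

lemma S_cpt [Nonempty R] : IsCompact (S R) := by
  refine (isCompact_univ_pi fun a : J R => isCompact_Icc (a := (0 : ℝ)) (b := l a)).of_isClosed_subset
    ?_ fun z hz a _ => (S_eq (R := R) ▸ hz).1 a
  rw [S_eq]
  simp only [ofPred_and, ofPred_forall, ofPred_or]
  exact (isClosed_iInter fun a => isClosed_Icc.preimage (continuous_apply a)).inter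
    ((isClosed_iInter fun a =>
      (isClosed_eq (by fun_prop) (by fun_prop)).union (isClosed_eq (by fun_prop) (by fun_prop))).inter
    (isClosed_iInter fun a => isClosed_iInter fun a' => isClosed_iInter fun _ => isClosed_iInter fun _ =>
      (isClosed_eq (by fun_prop) (by fun_prop)).union (isClosed_eq (by fun_prop) (by fun_prop))))

variable (R) in
def FF : Type := S R

variable [Countable R]

noncomputable instance : MetricSpace (FF R) := TopologicalSpace.metrizableSpaceMetric (S R)

def val (z : FF R) : J R → ℝ := z.1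

lemma emb : IsEmbedding (val : FF R → J R → ℝ) := IsEmbedding.subtypeVal

lemma cv (a : J R) : Continuous fun z : FF R => val z a := (continuous_apply a).comp emb.continuous

noncomputable def bp (b : J R) (s : ℝ) : FF R :=
  ⟨bl b (max 0 (min s (l b))), b, _, ⟨le_max_left _ _, max_le (l_mem b).1.le (min_le_right _ _)⟩, rfl⟩

omit [Countable R] in
lemma val_bp {b : J R} {s : ℝ} (h : s ∈ Icc 0 (l b)) : val (bp b s) = bl b s := by
  simp [val, bp, h.1, h.2]

omit [Countable R] in
lemma mul_mem (b : J R) {u : ℝ} (h : u ∈ Icc (0 : ℝ) 1) : l b * u ∈ Icc 0 (l b) :=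
  ⟨mul_nonneg (l_mem b).1.le h.1, mul_le_of_le_one_right (l_mem b).1.le h.2⟩

omit [Countable R] in
lemma smul_bl (b : J R) (r s : ℝ) : r • bl b s = bl b (s * r) := funext fun a => by
  simp [bl, mul_comm]

omit [Countable R] in
lemma smul_mem (p : FF R × I) : (p.2 : ℝ) • val p.1 ∈ S R := by
  obtain ⟨⟨_, b, s, hs, rfl⟩, r⟩ := p
  exact ⟨b, s * r, ⟨mul_nonneg hs.1 r.2.1, (mul_le_of_le_one_right hs.1 r.2.2).trans hs.2⟩, smul_bl _ _ _⟩

variable [Inhabited R]

variable (R) in
noncomputable def PF : Pre (FF R) (J R) (J R) Prop where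
  t := ⟨0, (default, none), 0, ⟨le_rfl, zero_le_one⟩, (bl_zero _).symm⟩
  pt b u := bp b (l b * u)
  ht b z := val z b / l b
  κ a b := sub a b
  fl p := ⟨_, smul_mem p⟩
  cpt := (isCompact_iff_compactSpace.1 S_cpt).isCompact_univ
  pt_cont b := emb.continuous_iff.2 (continuous_pi fun a => by
    simp only [Function.comp, val, bp, bl]
    split_ifs <;> fun_prop)
  ht_cont b := (cv b).div_const _
  pt_top b u h := Subtype.ext <| by
    simp only [bp]
    rw [max_eq_left (min_le_of_left_le (mul_nonpos_of_nonneg_of_nonpos (l_mem b).1.le h)), bl_zero]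
  ht_pt b u h := by rw [val_bp (mul_mem b h), bl_self, mul_div_cancel_left₀ _ (l_mem b).1.ne']
  pt_bl {b b' u v} hu hv h := by
    have e := congrArg val h
    rw [val_bp (mul_mem b (Ioc_subset_Icc_self hu)), val_bp (mul_mem b' hv)] at e
    have p := (mul_pos (l_mem b).1 hu.1).ne'
    have s1 : sub b b' := bl_ne (by rwa [← e, bl_self])
    have q : l b' * v ≠ 0 := fun h => p (by rw [← bl_self b (l b * u), e, h, bl_zero]; rfl)
    have s2 : sub b' b := bl_ne (by rwa [e, bl_self])
    rcases s1 with h | rfl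
    · exact h
    · rcases s2 with h | h <;> exact h.symm
  ex_pt := by
    rintro ⟨_, b, s, hs, rfl⟩
    refine ⟨b, s / l b, ⟨div_nonneg hs.1 (l_mem b).1.le, (div_le_one (l_mem b).1).2 hs.2⟩, ?_⟩
    rw [mul_div_cancel₀ _ (l_mem b).1.ne']
    exact Subtype.ext (val_bp hs).symm
  sep {b b'} h := by
    rcases (h b).mp (Or.inl rfl) with e | rfl
    · exact e
    · rcases (h b').mpr (Or.inl rfl) with h | h <;> exact h.symm
  loc' b u hu a := by
    have e := val_bp (mul_mem b (Ioc_subset_Icc_self hu))
    have p := mul_pos (l_mem b).1 hu.1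
    by_cases h : sub a b
    · filter_upwards [(isOpen_lt continuous_const (cv a)).mem_nhds
        (show 0 < val (bp b (l b * u)) a by rwa [e, bl, if_pos h])] with w hw b' v hv e'
      replace hw : 0 < val w a := hw
      rw [e', val_bp (mul_mem b' (Ioc_subset_Icc_self hv))] at hw
      exact propext (iff_of_true (bl_ne hw.ne') h)
    · filter_upwards [(isOpen_lt (cv a) (cv (b.1, none))).mem_nhds
        (show val (bp b (l b * u)) a < val (bp b (l b * u)) (b.1, none) by
          rwa [e, bl, if_neg h, bl_root])] with w hw b' v hv e'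
      replace hw : val w a < val w (b.1, none) := hw
      rw [e', val_bp (mul_mem b' (Ioc_subset_Icc_self hv))] at hw
      refine propext (iff_of_false (fun h' => ?_) h)
      simp only [bl, if_pos h'] at hw
      split_ifs at hw
      · exact lt_irrefl _ hw
      · exact lt_asymm hw (mul_pos (l_mem b').1 hv.1)
  three := ⟨fun i => (default, some (0, i)), fun i j h => Fin.ext (by simpa using h)⟩
  fl_cont := emb.continuous_iff.2 ((continuous_subtype_val.comp continuous_snd).smul
    (emb.continuous.comp continuous_fst))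
  fl_pt b u hu := by
    have : ∀ r : I, (⟨_, smul_mem (bp b (l b * u), r)⟩ : FF R) = bp b (l b * (u * r)) := fun r =>
      emb.injective <| by
        rw [val_bp (mul_mem b ⟨mul_nonneg hu.1 r.2.1, mul_le_one₀ hu.2 r.2.1 r.2.2⟩), ← mul_assoc,
          ← smul_bl, ← val_bp (mul_mem b hu)]
        rfl
    simp only [this]
    ext z
    constructor
    · rintro ⟨r, rfl⟩
      exact ⟨u * r, ⟨mul_nonneg hu.1 r.2.1, mul_le_of_le_one_right hu.1 r.2.2⟩, rfl⟩
    · rintro ⟨s, hs, rfl⟩
      refine ⟨⟨s / u, div_nonneg hs.1 hu.1, div_le_one_of_le₀ hs.2 hu.1⟩, ?_⟩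
      rcases hu.1.eq_or_lt with rfl | h
      · simp [hs.2.antisymm hs.1]
      · simp [mul_div_cancel₀ _ h.ne']

end Pool.Agent.H84.Fan.Six
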