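import Pool.Agent.H84.FanR

open Set Filter Topology unitInterval

namespace Pool.Agent.H84.Fan.Six

section gen
variable {F G : Type} [MetricSpace F] [MetricSpace G]

def Rel (x y : F) : Prop := ∃ h : F ≃ₜ F, h x = y

lemma Rel.trans {x y z : F} (a : Rel x y) (b : Rel y z) : Rel x z := by
  obtain ⟨h, rfl⟩ := a
  obtain ⟨g, rfl⟩ := b
  exact ⟨h.trans g, rfl⟩

lemma Rel.symm {x y : F} (a : Rel x y) : Rel y x := by
  obtain ⟨h, rfl⟩ := a
  exact ⟨h.symm, by simp⟩

def Acc (x : F) : Prop := x ∈ closure (Ends F \ {x})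

def Q (x : F) : Prop := ∃ t e A, Ram t ∧ e ∈ Ends F ∧ Acc e ∧ IsArc t e A ∧ x ∈ A

lemma acc_map (h : F ≃ₜ G) {x : F} (hx : Acc x) : Acc (h x) :=
  map_mem_closure h.continuous hx fun _ hz => ⟨ends_map h hz.1, fun e => hz.2 (h.injective e)⟩

lemma Rel.inv {x y : F} (a : Rel x y) :
    (Ram x → Ram y) ∧ (x ∈ Ends F → y ∈ Ends F) ∧ (Acc x → Acc y) ∧ (Q x → Q y) := by
  obtain ⟨h, rfl⟩ := a
  exact ⟨ram_map h, ends_map h, acc_map h, fun ⟨t, e, A, h1, h2, h3, h4, h5⟩ =>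
    ⟨_, _, _, ram_map h h1, ends_map h h2, acc_map h h3, arc_map h h4, mem_image_of_mem _ h5⟩⟩

end gen

variable {R : Type} [Countable R]

lemma mk {f f' : (J R → ℝ) → J R → ℝ} (hf : Continuous f) (hf' : Continuous f') (e : J R ≃ J R)
    {g g' : J R → ℝ → ℝ}
    (h : ∀ b, ∀ s ∈ Icc 0 (l b), f (bl b s) = bl (e b) (g b s) ∧ g b s ∈ Icc 0 (l (e b)) ∧
      g' b (g b s) = s)
    (h' : ∀ b, ∀ s ∈ Icc 0 (l (e b)), f' (bl (e b) s) = bl b (g' b s) ∧ g' b s ∈ Icc 0 (l b) ∧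
      g b (g' b s) = s) (b : J R) {s : ℝ} (hs : s ∈ Icc 0 (l b)) :
    Rel (bp b s) (bp (e b) (g b s)) := by
  have m : ∀ z : FF R, f (val z) ∈ S R := by
    rintro ⟨_, b, s, hs, rfl⟩
    exact ⟨_, _, (h b s hs).2.1, (h b s hs).1⟩
  have m' : ∀ z : FF R, f' (val z) ∈ S R := by
    rintro ⟨_, b, s, hs, rfl⟩
    obtain ⟨b, rfl⟩ := e.surjective b
    exact ⟨_, _, (h' b s hs).2.1, (h' b s hs).1⟩
  refine ⟨⟨⟨fun z => ⟨_, m z⟩, fun z => ⟨_, m' z⟩, ?_, ?_⟩,
    emb.continuous_iff.2 (hf.comp emb.continuous), emb.continuous_iff.2 (hf'.comp emb.continuous)⟩,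
    emb.injective ?_⟩
  · rintro ⟨_, b, s, hs, rfl⟩
    refine Subtype.ext ?_
    change f' (f (bl b s)) = bl b s
    rw [(h b s hs).1, (h' b _ (h b s hs).2.1).1, (h b s hs).2.2]
  · rintro ⟨_, b, s, hs, rfl⟩
    obtain ⟨b, rfl⟩ := e.surjective b
    refine Subtype.ext ?_
    change f (f' (bl (e b) s)) = bl (e b) s
    rw [(h' b s hs).1, (h b _ (h' b s hs).2.1).1, (h' b s hs).2.2]
  · change f (val (bp b s)) = _
    rw [val_bp hs, val_bp (h b s hs).2.1, (h b s hs).1]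

lemma mv (e : J R ≃ J R) (he : ∀ a b, sub (e a) (e b) ↔ sub a b) {G G' : ℝ → ℝ} (hc : Continuous G)
    (hc' : Continuous G') (m : MonotoneOn G (Ici 0)) (m' : MonotoneOn G' (Ici 0)) (h0 : G 0 = 0)
    (i : ∀ s, 0 ≤ s → G' (G s) = s) (i' : ∀ s, 0 ≤ s → G (G' s) = s)
    (hl : ∀ b, G (l b) = l (e b)) (b : J R) {s : ℝ} (hs : s ∈ Icc 0 (l b)) :
    Rel (bp b s) (bp (e b) (G s)) := by
  have h0' : G' 0 = 0 := by rw [← h0, i 0 le_rfl, h0]
  refine mk (f := fun z a => G (z (e.symm a))) (f' := fun z a => G' (z (e a))) (by fun_prop)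
    (by fun_prop) e (g := fun _ => G) (g' := fun _ => G') (fun b s hs => ⟨funext fun a => ?_,
      ⟨h0 ▸ m self_mem_Ici hs.1 hs.1, hl b ▸ m hs.1 (l_mem b).1.le hs.2⟩, i s hs.1⟩)
    (fun b s hs => ⟨funext fun a => ?_, ⟨h0' ▸ m' self_mem_Ici hs.1 hs.1, ?_⟩, i' s hs.1⟩) b hs
  · obtain ⟨a, rfl⟩ := e.surjective a
    rw [Equiv.symm_apply_apply]
    by_cases h : sub a b
    · rw [bl, bl, if_pos h, if_pos ((he _ _).2 h)]
    · rw [bl, bl, if_neg h, if_neg (mt (he _ _).1 h), h0]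
  · by_cases h : sub a b
    · rw [bl, bl, if_pos h, if_pos ((he _ _).2 h)]
    · rw [bl, bl, if_neg h, if_neg (mt (he _ _).1 h), h0']
  · rw [← i _ (l_mem b).1.le, hl]
    exact m' hs.1 (l_mem _).1.le hs.2

lemma shift (τ : R ≃ R) (d : ℤ) (ρ : ℕ ≃ ℕ) (r : R) (o : Option (ℤ × ℕ)) {s : ℝ}
    (hs : s ∈ Icc 0 (l (r, o))) :
    Rel (bp (r, o) s) (bp (τ r, o.map fun m => (m.1 + d, ρ m.2)) (s ^ ((2 : ℝ) ^ (-d)))) := by
  have hp : ∀ d : ℤ, 0 < (2 : ℝ) ^ d := fun d => by positivity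
  have hi : ∀ (d : ℤ) (s : ℝ), 0 ≤ s → (s ^ ((2 : ℝ) ^ (-d))) ^ ((2 : ℝ) ^ d) = s := fun d s hs => by
    rw [← Real.rpow_mul hs, ← zpow_add₀ two_ne_zero, neg_add_cancel, zpow_zero, Real.rpow_one]
  refine mv (τ.prodCongr ((Equiv.addRight d).prodCongr ρ).optionCongr) ?_
    (G := fun s => s ^ ((2 : ℝ) ^ (-d))) (G' := fun s => s ^ ((2 : ℝ) ^ d))
    (Real.continuous_rpow_const (hp _).le) (Real.continuous_rpow_const (hp _).le)
    (fun _ h _ _ h' => Real.rpow_le_rpow h h' (hp _).le)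
    (fun _ h _ _ h' => Real.rpow_le_rpow h h' (hp _).le) (Real.zero_rpow (hp _).ne') (hi d)
    (by simpa only [neg_neg] using hi (-d)) ?_ (r, o) hs
  · rintro ⟨r, o⟩ ⟨r', o'⟩
    simp only [sub, EmbeddingLike.apply_eq_iff_eq]
    simp
  · rintro ⟨r, _ | m⟩
    · exact Real.one_rpow _
    · exact p_shift _ _

lemma gap (r : R) {k : ℤ} {x x' : ℝ} (hx : x ∈ Ioo (p k) (p (k + 1)))
    (hx' : x' ∈ Ioo (p k) (p (k + 1))) : Rel (bp (r, none) x) (bp (r, none) x') := by
  obtain ⟨γ, rfl, h⟩ := pl hx hx'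
  refine mv (Equiv.refl _) (fun _ _ => Iff.rfl) γ.continuous γ.symm.continuous
    (γ.monotone.monotoneOn _) (γ.symm.monotone.monotoneOn _)
    (h 0 fun h => lt_asymm h.1 (p_mem k).1) (fun _ _ => by simp) (fun _ _ => by simp) ?_ (r, none)
    ⟨((p_mem k).1.trans hx.1).le, (hx.2.trans (p_mem _).2).le⟩
  rintro ⟨r, _ | m⟩
  · exact h 1 fun h => lt_asymm h.2 (p_mem _).2
  · refine h (p m.1) fun h => ?_
    have := p_mono.lt_iff_lt.1 h.1
    have := p_mono.lt_iff_lt.1 h.2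
    omega

lemma free (r : R) (m : ℤ × ℕ) {x x' : ℝ} (hx : x ∈ Ioo 0 (p m.1)) (hx' : x' ∈ Ioo 0 (p m.1)) :
    Rel (bp (r, some m) x) (bp (r, some m) x') := by
  classical
  obtain ⟨γ, rfl, h⟩ := pl hx hx'
  set a : J R := (r, some m) with ha
  have key : ∀ γ : ℝ ≃o ℝ, γ 0 = 0 → γ (l a) = l a → ∀ b, ∀ s ∈ Icc 0 (l b),
      (fun c => if sub c a then bl b s c - bl b s a + γ (bl b s a) else bl b s c) =
        bl b (if b = a then γ s else s) ∧ (if b = a then γ s else s) ∈ Icc 0 (l b) ∧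
        (if b = a then γ.symm (if b = a then γ s else s) else if b = a then γ s else s) = s := by
    intro γ h0 h1 b s hs
    by_cases e : b = a
    · subst e
      simp only [if_true, bl_self, OrderIso.symm_apply_apply, and_true]
      refine ⟨funext fun c => ?_, h0 ▸ γ.monotone hs.1, h1 ▸ γ.monotone hs.2⟩
      simp only [bl]
      split_ifs <;> simp
    · have : bl b s a = 0 := if_neg (by
        rintro (h | h)
        · exact e h.symm
        · simp [ha] at h)
      simp [e, this, h0, hs.1, hs.2]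
  have h0 : γ 0 = 0 := h 0 (by simp)
  have h1 : γ (l a) = l a := h _ fun h => lt_irrefl _ h.2
  have hc : ∀ γ : ℝ ≃o ℝ, Continuous fun (z : J R → ℝ) c =>
      if sub c a then z c - z a + γ (z a) else z c := fun γ => continuous_pi fun c => by
    have := γ.continuous
    split_ifs <;> fun_prop
  have := mk (hc γ) (hc γ.symm) (Equiv.refl _) (g := fun b s => if b = a then γ s else s)
    (g' := fun b s => if b = a then γ.symm s else s) (key γ h0 h1)
    (key γ.symm (γ.symm_apply_eq.2 h0.symm) (γ.symm_apply_eq.2 h1.symm)) a (Ioo_subset_Icc_self hx)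
  simpa using this

variable [Inhabited R]

lemma bp_eq (b : J R) (s : ℝ) : bp b s = (PF R).pt b (s / l b) := by
  simp only [PF, mul_div_cancel₀ _ (l_mem b).1.ne']

lemma val_end (b : J R) : val ((PF R).pt b 1) = bl b (l b) := by
  simp only [PF, mul_one]
  exact val_bp ⟨(l_mem b).1.le, le_rfl⟩

lemma acc (r : R) {m : ℕ → ℤ × ℕ} (hm : Function.Injective m) {u : ℝ} (hu : u ∈ Ioc (0 : ℝ) 1)
    (h : Tendsto (fun n => p (m n).1) atTop (𝓝 u)) : Acc ((PF R).pt (r, none) u) := by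
  refine mem_closure_of_tendsto (f := fun n => (PF R).pt (r, some (m n)) 1) (b := atTop) ?_
    (Eventually.of_forall fun n => ⟨((PF R).mem_ends ⟨zero_le_one, le_rfl⟩).2 rfl, fun e => ?_⟩)
  · rw [emb.tendsto_nhds_iff, tendsto_pi_nhds]
    have : val ((PF R).pt (r, none) u) = bl (r, none) u := by
      rw [← val_bp (Ioc_subset_Icc_self hu), bp_eq]
      simp [l]
    rintro ⟨r', _ | a⟩
    · simp only [Function.comp, val_end, this, bl, sub]
      by_cases e : r' = r
      · simpa [e, l] using h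
      · simp [e]
    · simp only [Function.comp, val_end, this, bl, sub]
      refine tendsto_const_nhds.congr' ?_
      filter_upwards [Nat.cofinite_eq_atTop ▸ hm.tendsto_cofinite.eventually (eventually_cofinite_ne a)]
        with n hn
      simp [hn.symm]
  · simpa using (PF R).pt_bl ⟨one_pos, le_rfl⟩ (Ioc_subset_Icc_self hu) e

lemma acc1 (r : R) : Acc ((PF R).pt (r, none) 1) :=
  acc r (m := fun n => (n, 0)) (fun _ _ h => by simpa using h) ⟨one_pos, le_rfl⟩ p_lim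

lemma nacc (r : R) (m : ℤ × ℕ) {u : ℝ} (hu : u ∈ Ioc (0 : ℝ) 1) : ¬ Acc ((PF R).pt (r, some m) u) := by
  intro h
  have key : ∀ b' ≠ (r, some m), (PF R).ht (r, some m) ((PF R).pt b' 1) = 0 := fun b' hb => by
    change val _ _ / _ = 0
    rw [val_end, bl, if_neg, zero_div]
    rintro (h | h)
    · exact hb h.symm
    · simp at h
  have := map_mem_closure ((PF R).ht_cont (r, some m)) h (t := {0, 1} \ {u}) (by
    rw [(PF R).ends]
    rintro _ ⟨⟨b, rfl⟩, hb⟩
    by_cases e : b = (r, some m)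
    · subst e
      rw [(PF R).ht_pt _ ⟨zero_le_one, le_rfl⟩]
      exact ⟨by simp, fun e => hb (e ▸ rfl)⟩
    · rw [key b e]
      exact ⟨by simp, hu.1.ne⟩)
  rw [(toFinite _).sdiff.isClosed.closure_eq, (PF R).ht_pt _ (Ioc_subset_Icc_self hu)] at this
  exact this.2 rfl

lemma naccg (r : R) {u : ℝ} (hu : u ∈ Ioo (p 0) (p (0 + 1))) : ¬ Acc ((PF R).pt (r, none) u) := by
  intro h
  have := map_mem_closure ((PF R).ht_cont (r, none)) h (t := (Ioo (p 0) (p (0 + 1)))ᶜ) (by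
    rw [(PF R).ends]
    rintro _ ⟨⟨b, rfl⟩, -⟩ h
    change val _ _ / 1 ∈ _ at h
    rw [val_end, bl, div_one] at h
    split_ifs at h
    · obtain ⟨r', _ | m⟩ := b
      · exact lt_asymm h.2 (p_mem _).2
      · have := p_mono.lt_iff_lt.1 h.1
        have := p_mono.lt_iff_lt.1 h.2
        omega
    · exact lt_asymm h.1 (p_mem _).1)
  rw [isOpen_Ioo.isClosed_compl.closure_eq, (PF R).ht_pt _
    ⟨((p_mem _).1.trans hu.1).le, (hu.2.trans (p_mem _).2).le⟩] at this
  exact this hu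

theorem six : ∃ a : Fin 6 → FF R, (∀ i j, (∃ h : FF R ≃ₜ FF R, h (a i) = a j) → i = j) ∧
    ∀ x, ∃ i, ∃ h : FF R ≃ₜ FF R, h (a i) = x := by
  classical
  obtain ⟨y, hy⟩ : (Ioo (p 0) (p (0 + 1))).Nonempty := nonempty_Ioo.2 (p_mono (by norm_num))
  have o : (1 : ℝ) ∈ Ioc (0 : ℝ) 1 := ⟨one_pos, le_rfl⟩
  have o2 : (1 / 2 : ℝ) ∈ Ioc (0 : ℝ) 1 := by norm_num
  have y1 : y ∈ Ioo (0 : ℝ) 1 := ⟨(p_mem _).1.trans hy.1, hy.2.trans (p_mem _).2⟩
  have p0 := Ioo_subset_Ioc_self (p_mem 0)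
  set P := PF R
  refine ⟨![P.t, P.pt (default, none) 1, P.pt (default, none) (p 0), P.pt (default, none) y,
    P.pt (default, some (0, 0)) 1, P.pt (default, some (0, 0)) (1 / 2)], fun i j h => ?_, fun x => ?_⟩
  · have r : ∀ b, ∀ u ∈ Ioc (0 : ℝ) 1, ¬ Ram (P.pt b u) := fun b u hu h => P.pt_ne hu ((P.isFan.2 _).1 h)
    have r0 : Ram P.t := (P.isFan.2 _).2 rfl
    have r1 := r (default, none) _ o
    have r2 := r (default, none) _ p0
    have r3 := r (default, none) _ (Ioo_subset_Ioc_self y1)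
    have r4 := r (default, some (0, 0)) _ o
    have r5 := r (default, some (0, 0)) _ o2
    have e1 := (P.mem_ends (b := (default, none)) (Ioc_subset_Icc_self o)).2 rfl
    have e2 := (P.mem_ends (b := (default, none)) (Ioc_subset_Icc_self p0)).not.2 (p_mem 0).2.ne
    have e3 := (P.mem_ends (b := (default, none)) (Ioo_subset_Icc_self y1)).not.2 y1.2.ne
    have e4 := (P.mem_ends (b := (default, some (0, 0))) (Ioc_subset_Icc_self o)).2 rfl
    have e5 := (P.mem_ends (b := (default, some (0, 0))) (Ioc_subset_Icc_self o2)).not.2 (by norm_num)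
    have a1 := acc1 (default : R)
    have a2 := acc (default : R) (m := fun n => (0, n)) (fun _ _ h => by simpa using h) p0
      tendsto_const_nhds
    have a3 := naccg (default : R) hy
    have a4 := nacc (default : R) (0, 0) o
    have a5 := nacc (default : R) (0, 0) o2
    have q3 : Q (P.pt (default, none) y) :=
      ⟨_, _, _, r0, e1, a1, P.arc0 _ o, mem_image_of_mem _ (Ioo_subset_Icc_self y1)⟩
    have q5 : ¬ Q (P.pt (default, some (0, 0)) (1 / 2)) := by
      rintro ⟨t, e, A, h1, h2, h3, h4, h5⟩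
      obtain rfl := (P.isFan.2 _).1 h1
      rw [P.ends] at h2
      obtain ⟨b, rfl⟩ := h2
      obtain ⟨v, hv, e⟩ := (P.arc_uniq h4 (P.arc0 b o)).subset h5
      obtain rfl := P.pt_bl o2 hv e.symm
      exact a4 h3
    have i1 := Rel.inv h
    have i2 := (Rel.symm h).inv
    fin_cases i <;> fin_cases j <;> first
      | rfl
      | exact absurd (i1.1 r0) (by assumption)
      | exact absurd (i2.1 r0) (by assumption)
      | exact absurd (i1.2.1 (by assumption)) (by assumption)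
      | exact absurd (i2.2.1 (by assumption)) (by assumption)
      | exact absurd (i1.2.2.1 (by assumption)) (by assumption)
      | exact absurd (i2.2.2.1 (by assumption)) (by assumption)
      | exact (q5 (i1.2.2.2 q3)).elim
      | exact (q5 (i2.2.2.2 q3)).elim
  · by_cases hx : x = P.t
    · exact ⟨0, Homeomorph.refl _, hx.symm⟩
    obtain ⟨⟨r, o⟩, u, hu, rfl⟩ := P.ex_pt' hx
    have sw : Equiv.swap default r default = r := Equiv.swap_apply_left _ _
    rcases o with _ | ⟨k, n⟩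
    · have e : ∀ (r : R) u, P.pt (r, none) u = bp (r, none) u := fun r u => by simp [P, bp_eq, l]
      have sh : ∀ d : ℤ, ∀ s ∈ Icc (0 : ℝ) 1,
          Rel (P.pt (default, none) s) (P.pt (r, none) (s ^ ((2 : ℝ) ^ (-d)))) := fun d s hs => by
        simpa only [e, sw, Option.map_none] using
          shift (Equiv.swap default r) d (Equiv.refl _) default none hs
      rcases hu.2.eq_or_lt with rfl | h
      · exact ⟨1, by simpa [Rel] using sh 0 1 ⟨zero_le_one, le_rfl⟩⟩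
      obtain ⟨k, h1, h2⟩ := p_gap ⟨hu.1, h⟩
      rcases h1.eq_or_lt with rfl | h1
      · exact ⟨2, by
          have := sh k _ (Ioc_subset_Icc_self p0)
          rwa [p_shift, zero_add] at this⟩
      · refine ⟨3, (sh k y (Ioo_subset_Icc_self y1)).trans ?_⟩
        rw [e, e]
        refine gap r ⟨?_, ?_⟩ ⟨h1, h2⟩
        · rw [← zero_add k, ← p_shift, zero_add]
          exact Real.rpow_lt_rpow (p_mem _).1.le hy.1 (by positivity)
        · rw [show k + 1 = 0 + 1 + k by ring, ← p_shift]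
          exact Real.rpow_lt_rpow y1.1.le hy.2 (by positivity)
    · have sh : ∀ s ∈ Icc 0 (p 0), Rel (bp (default, some (0, 0)) s)
          (bp (r, some (k, n)) (s ^ ((2 : ℝ) ^ (-k)))) := fun s hs => by
        simpa only [sw, Option.map_some, zero_add, Equiv.swap_apply_left] using
          shift (Equiv.swap default r) k (Equiv.swap 0 n) default (some (0, 0)) hs
      rcases hu.2.eq_or_lt with rfl | h
      · refine ⟨4, ?_⟩
        have := sh _ ⟨p0.1.le, le_rfl⟩
        rw [p_shift, zero_add] at this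
        simpa [Rel, P, PF, l] using this
      · have h2 : p 0 * (1 / 2) ∈ Ioo 0 (p 0) := ⟨by linarith [p0.1], by linarith [p0.1]⟩
        refine ⟨5, (sh _ (Ioo_subset_Icc_self h2)).trans (free r (k, n) ⟨Real.rpow_pos_of_pos h2.1 _, ?_⟩
          ⟨mul_pos (p_mem k).1 hu.1, mul_lt_of_lt_one_right (p_mem k).1 h⟩)⟩
        rw [← zero_add k, ← p_shift, zero_add]
        exact Real.rpow_lt_rpow h2.1.le h2.2 (by positivity)

theorem nonhomeo : IsEmpty (FF Unit ≃ₜ FF Bool) := ⟨fun h => by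
  have key : ∀ r : Bool, h.symm ((PF Bool).pt (r, none) 1) = (PF Unit).pt ((), none) 1 := fun r => by
    have h1 := ends_map h.symm (((PF Bool).mem_ends (b := (r, none)) ⟨zero_le_one, le_rfl⟩).2 rfl)
    have h2 := acc_map h.symm (acc1 r)
    rw [(PF Unit).ends] at h1
    obtain ⟨⟨_, _ | m⟩, e⟩ := h1
    · exact e.symm
    · exact (nacc _ m ⟨one_pos, le_rfl⟩ (e ▸ h2)).elim
  simpa using (PF Bool).pt_bl ⟨one_pos, le_rfl⟩ ⟨zero_le_one, le_rfl⟩
    (h.symm.injective ((key true).trans (key false).symm))⟩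

end Pool.Agent.H84.Fan.Six
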