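import Pool.Agent.H84.FeDefs

/-! A decreasing chain without a greatest lower bound. -/

namespace Pool.Agent.H84.Fe

open Set Filter Pool.Agent.H84.FeDefs

theorem trans {U V W : Ultrafilter ℕ+} (h1 : FeU U V) (h2 : FeU V W) : FeU U W := fun C hC => by
  classical
  obtain ⟨B, b1, b2⟩ := h2 C hC
  obtain ⟨A, a1, a2⟩ := h1 B b1
  refine ⟨A, a1, fun F hF => ?_⟩
  obtain ⟨k, hk⟩ := a2 F hF
  obtain ⟨l, hl⟩ := b2 (F.image (k * ·)) (by rw [Finset.coe_image, image_subset_iff]; exact hk)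
  exact ⟨l * k, fun x hx => mul_assoc l k x ▸ hl _ (Finset.mem_image_of_mem _ hx)⟩

/-- The product of three ultrafilters. -/
def tri (U s r : Ultrafilter ℕ+) : Ultrafilter ℕ+ :=
  U.bind fun a => s.bind fun x => r.map fun z => a * x * z

theorem mem_tri {U s r : Ultrafilter ℕ+} {B : Set ℕ+} : B ∈ tri U s r ↔
    ∀ᶠ a in (U : Filter ℕ+), ∀ᶠ x in (s : Filter ℕ+), ∀ᶠ z in (r : Filter ℕ+), a * x * z ∈ B :=
  Iff.rfl

theorem le_tri1 (U s r : Ultrafilter ℕ+) : FeU U (tri U s r) := fun B hB =>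
  ⟨_, mem_tri.1 hB, fun F hF => by
    obtain ⟨x, hx⟩ := ((eventually_all_finset F).2 fun a ha => hF ha).exists
    obtain ⟨z, hz⟩ := ((eventually_all_finset F).2 hx).exists
    exact ⟨x * z, fun a ha => by rw [mul_comm, ← mul_assoc]; exact hz a ha⟩⟩

theorem le_tri2 (U s r : Ultrafilter ℕ+) : FeU s (tri U s r) := fun B hB => by
  obtain ⟨a, ha⟩ := (mem_tri.1 hB).exists
  refine ⟨_, ha, fun F hF => ?_⟩
  obtain ⟨z, hz⟩ := ((eventually_all_finset F).2 fun a ha => hF ha).exists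
  exact ⟨a * z, fun x hx => by rw [mul_right_comm]; exact hz x hx⟩

/-- The type of a prime. -/
def ty (u : ℕ) : ℕ := (Nat.count Nat.Prime u).unpair.1

/-- The multiset of prime factors. -/
def pf (a : ℕ+) : Multiset ℕ := (a : ℕ).primeFactorsList

theorem pf_mul (a b : ℕ+) : pf (a * b) = pf a + pf b :=
  Multiset.coe_eq_coe.2 (Nat.perm_primeFactorsList_mul a.ne_zero b.ne_zero)

theorem ex_uf (i : ℕ) : ∃ r : Ultrafilter ℕ+, ∀ N : ℕ,
    ∀ᶠ x : ℕ+ in (r : Filter ℕ+), pf x = {(x : ℕ)} ∧ ty x = i ∧ N < x := by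
  refine ⟨(hyperfilter ℕ).map fun j => ⟨_, (Nat.prime_nth_prime (Nat.pair i j)).pos⟩, fun N => ?_⟩
  have hU : (hyperfilter ℕ : Filter ℕ) ≤ atTop := Nat.cofinite_eq_atTop ▸ hyperfilter_le_cofinite
  refine eventually_map.2 (((eventually_gt_atTop N).filter_mono hU).mono fun j hj => ⟨?_, ?_, ?_⟩)
  · exact congrArg _ (Nat.primeFactorsList_prime (Nat.prime_nth_prime _))
  · simp [ty, Nat.count_nth_of_infinite Nat.infinite_setOfPred_prime]
  · exact hj.trans_le ((Nat.right_le_pair i j).trans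
      (Nat.nth_strictMono Nat.infinite_setOfPred_prime).le_apply)

/-- The number of separating primes above `u`. -/
def ct (M : Multiset ℕ) (u : ℕ) : ℕ := M.countP fun z => 2 ≤ ty z ∧ u < z

/-- The invariants of the words. -/
structure Inv (n : ℕ) (M : Multiset ℕ) : Prop where
  one : ∃ m, n + 2 ≤ m ∧ ∀ i, 2 ≤ i →
    M.countP (fun z => ty z = i) = if n + 2 ≤ i ∧ i < m then 1 else 0
  par : ∀ u ∈ M, ty u < 2 → (ct M u + n + 1) % 2 = ty u
  num : (M.filter fun z => ty z < 2).card = M.countP fun z => 2 ≤ ty z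
  chk : 2 * ((M.filter fun z => ty z < 2).map (ct M)).sum =
    (M.countP fun z => 2 ≤ ty z) * ((M.countP fun z => 2 ≤ ty z) + 1)

theorem inv_zero (n : ℕ) : Inv n 0 :=
  ⟨⟨_, le_rfl, fun i _ => by simp⟩, by simp, by simp, by simp⟩

theorem Inv.step {n x z : ℕ} {M : Multiset ℕ} (h : Inv (n + 1) M) (h1 : ∀ u ∈ M, u < x)
    (h2 : x < z) (h3 : ty x = n % 2) (h4 : ty z = n + 2) : Inv n (M + {x} + {z}) := by
  have a1 : ty x < 2 := by omega
  have a2 : 2 ≤ ty z := by omega
  have a3 : ∀ u ≤ x, ct (M + {x} + {z}) u = ct M u + 1 := fun u hu => by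
    simp [ct, ← Multiset.cons_zero, a1.not_ge, a2, hu.trans_lt h2]
  have a4 : ct M x = 0 := Multiset.countP_eq_zero.2 fun u hu c => (h1 u hu).not_gt c.2
  have a5 : (M + {x} + {z}).filter (fun z => ty z < 2) = (M.filter fun z => ty z < 2) + {x} := by
    simp only [Multiset.filter_add, Multiset.filter_singleton, a1, a2.not_gt, if_true, if_false]
    simp
  have a6 : (M + {x} + {z}).countP (fun z => 2 ≤ ty z) = (M.countP fun z => 2 ≤ ty z) + 1 := by
    simp [← Multiset.cons_zero, a1.not_ge, a2]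
  refine ⟨?_, fun u hu c => ?_, by rw [a5, a6, ← h.num]; simp, ?_⟩
  · obtain ⟨m, m1, m2⟩ := h.one
    refine ⟨m, by omega, fun i hi => ?_⟩
    simp only [Multiset.countP_add, ← Multiset.cons_zero, Multiset.countP_cons,
      Multiset.countP_zero, m2 i hi]
    split_ifs <;> omega
  · simp only [Multiset.mem_add, Multiset.mem_singleton] at hu
    rcases hu with (hu | rfl) | rfl
    · have := h.par u hu c
      rw [a3 u (h1 u hu).le]
      omega
    · rw [a3 u le_rfl]
      omega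
    · omega
  · rw [a5, a6, Multiset.map_add, Multiset.map_congr rfl fun u hu =>
      a3 u (h1 u (Multiset.mem_of_mem_filter hu)).le]
    simp only [Multiset.sum_add, Multiset.sum_map_add, Multiset.map_singleton,
      Multiset.sum_singleton, a3 x le_rfl, a4, Multiset.map_const', Multiset.sum_replicate,
      h.num, smul_eq_mul]
    linarith [h.chk]

theorem ct_add {K A : Multiset ℕ} (h : ∀ u ∈ A, ty u < 2) : ct (K + A) = ct K := funext fun u => by
  rw [ct, Multiset.countP_add, Multiset.countP_eq_zero.2 fun z hz c => (h z hz).not_ge c.1]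
  rfl

theorem ct_anti (K : Multiset ℕ) {x y : ℕ} (h : x < y) : ct K y ≤ ct K x := by
  simp only [ct, Multiset.countP_eq_card_filter]
  exact Multiset.card_le_card (Multiset.monotone_filter_right _ fun z hz => ⟨hz.1, h.trans hz.2⟩)

theorem slot {K A : Multiset ℕ} {x y : ℕ} (h1 : ∀ u ∈ A + {x}, ty u < 2) (h2 : ty y < 2)
    (a : Inv 0 (K + (A + {x}))) (b : Inv 0 (K + (A + {y}))) : ct K x = ct K y := by
  have h3 : ty x < 2 := h1 x (by simp)
  have c1 := a.chk
  have c2 := b.chk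
  rw [ct_add h1] at c1
  rw [ct_add (A := A + {y}) fun u hu => (Multiset.mem_add.1 hu).elim
    (fun c => h1 u (by simp [c])) fun c => Multiset.mem_singleton.1 c ▸ h2] at c2
  simp only [← add_assoc, Multiset.filter_add, Multiset.filter_singleton, h2, h3, if_true,
    Multiset.map_add, Multiset.sum_add, Multiset.map_singleton, Multiset.sum_singleton,
    Multiset.countP_add] at c1 c2
  simp only [← Multiset.cons_zero, Multiset.countP_cons, h2.not_ge, h3.not_ge, if_false] at c1 c2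
  omega

theorem main : ∃ F : ℕ → Ultrafilter ℕ+, (∀ i j, i ≤ j → FeU (F j) (F i)) ∧
    ¬ ∃ G, (∀ i, FeU G (F i)) ∧ ∀ H, (∀ i, FeU H (F i)) → FeU H G := by
  classical
  choose r hr using ex_uf
  let W : ℕ → ℕ → Ultrafilter ℕ+ := fun l => Nat.rec (fun _ => pure 1)
    (fun _ w n => tri (w (n + 1)) (r (n % 2)) (r (n + 2))) l
  let F : ℕ → Ultrafilter ℕ+ := fun n => (hyperfilter ℕ).bind fun m => W (m - n) n
  have hU : (hyperfilter ℕ : Filter ℕ) ≤ atTop := Nat.cofinite_eq_atTop ▸ hyperfilter_le_cofinite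
  have e : ∀ n, F n = tri (F (n + 1)) (r (n % 2)) (r (n + 2)) := fun n => by
    ext B
    refine eventually_congr (((eventually_gt_atTop n).filter_mono hU).mono fun m hm => ?_)
    show B ∈ W (m - n) n ↔ B ∈ W (m - (n + 1) + 1) n
    rw [show m - n = m - (n + 1) + 1 by omega]
  have w : ∀ l n, {b | Inv n (pf b)} ∈ W l n := fun l => by
    induction l with
    | zero => exact fun n => Ultrafilter.mem_pure.2 (by simpa [pf] using inv_zero n)
    | succ l ih =>
      refine fun n => mem_tri.2 (mem_of_superset (ih (n + 1)) fun a ha =>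
        (hr _ a).mono fun x hx => (hr _ x).mono fun z hz => ?_)
      rw [mem_ofPred_eq, pf_mul, pf_mul, hx.1, hz.1]
      exact Inv.step ha (fun u hu => (Nat.le_of_mem_primeFactorsList hu).trans_lt hx.2.2) hz.2.2
        hx.2.1 hz.2.1
  have w' : ∀ n, {b | Inv n (pf b)} ∈ F n := fun n =>
    mem_bind'.2 (univ_mem' fun m => w _ n)
  have mono : ∀ i j, i ≤ j → FeU (F j) (F i) := fun i j h => by
    induction j, h using Nat.le_induction with
    | base => exact fun B hB => ⟨B, hB, fun F hF => ⟨1, fun x hx => by simpa using hF hx⟩⟩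
    | succ j _ ih => exact trans (e j ▸ le_tri1 _ _ _) ih
  have low : ∀ i < 2, ∀ n, FeU (r i) (F n) := fun i hi n => by
    have := le_tri2 (F (2 * n + i + 1)) (r ((2 * n + i) % 2)) (r (2 * n + i + 2))
    rw [← e, show (2 * n + i) % 2 = i by omega] at this
    exact trans this (mono _ _ (by omega))
  refine ⟨F, mono, fun ⟨G, g1, g2⟩ => ?_⟩
  choose A a1 a2 using fun n => g1 n _ (w' n)
  have key : {a | ∀ u ∈ pf a, ty u < 2} ∈ G := by
    by_contra c
    rw [← Ultrafilter.compl_mem_iff_notMem] at c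
    obtain ⟨a, b1, b2⟩ := G.nonempty_of_mem (inter_mem (a1 0) c)
    simp only [mem_compl_iff, mem_ofPred_eq, not_forall, not_lt] at b2
    obtain ⟨u, u1, u2⟩ := b2
    obtain ⟨a', ⟨d1, d2⟩, d3⟩ := G.nonempty_of_mem (inter_mem (inter_mem (a1 0) (a1 (ty u))) c)
    simp only [mem_compl_iff, mem_ofPred_eq, not_forall, not_lt] at d3
    obtain ⟨v, v1, v2⟩ := d3
    obtain ⟨k, hk⟩ := a2 0 {a, a'} (by simp [insert_subset_iff, b1, d1])
    obtain ⟨l, hl⟩ := a2 (ty u) {a'} (by simpa)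
    obtain ⟨m, -, m1⟩ := Inv.one (hk a (by simp))
    obtain ⟨m', -, m2⟩ := Inv.one (hk a' (by simp))
    obtain ⟨m'', -, m3⟩ := Inv.one (hl a' (by simp))
    have p1 := m1 _ u2
    have p2 := m2 _ u2
    have p3 := m2 _ v2
    have p4 := m3 _ u2
    have p5 := m3 _ v2
    have p6 := Multiset.countP_pos_of_mem (p := fun z => ty z = ty u) u1 rfl
    have p7 := Multiset.countP_pos_of_mem (p := fun z => ty z = ty v) v1 rfl
    rw [pf_mul, Multiset.countP_add] at p1 p2 p3 p4 p5
    split_ifs at p1 p2 p3 p4 p5 <;> omega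
  obtain ⟨X, x1, x2⟩ := g2 _ (low 0 (by omega)) _ (inter_mem (a1 0) key)
  obtain ⟨Y, y1, y2⟩ := g2 _ (low 1 (by omega)) _ (inter_mem (a1 0) key)
  obtain ⟨x, p1, p2, p3, -⟩ := (Eventually.and x1 (hr 0 0)).exists
  obtain ⟨y, q1, q2, q3, q4⟩ := (Eventually.and y1 (hr 1 x)).exists
  obtain ⟨x', s1, s2, s3, s4⟩ := (Eventually.and x1 (hr 0 y)).exists
  obtain ⟨j, hj⟩ := x2 {x, x'} (by simpa [insert_subset_iff] using ⟨p1, s1⟩)
  obtain ⟨j', hj'⟩ := y2 {y} (by simpa)
  have t1 := hj x (by simp)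
  have t2 := hj x' (by simp)
  have t3 := hj' y (by simp)
  obtain ⟨k, hk⟩ := a2 0 {j * x, j * x', j' * y} (by simp [insert_subset_iff, t1.1, t2.1, t3.1])
  have i1 := hk (j * x) (by simp)
  have i2 := hk (j * x') (by simp)
  have i3 := hk (j' * y) (by simp)
  have t4 := t1.2
  have t5 := t3.2
  simp only [mem_ofPred_eq, pf_mul, p2, q2, s2] at i1 i2 i3 t4 t5
  have := slot t4 (by omega) i1 i2
  have := i1.par x (by simp) (by omega)
  have := i3.par y (by simp) (by omega)
  have := ct_anti (pf k) q4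
  have := ct_anti (pf k) s4
  rw [ct_add t4] at *
  rw [ct_add t5] at *
  omega

end Pool.Agent.H84.Fe
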