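import Mathlib

/-! Multiplicative finite embeddability. -/

namespace Pool.Agent.H84.FeDefs

/-- `A` is finitely embeddable in `B`. -/
def Fe (A B : Set ℕ+) : Prop := ∀ F : Finset ℕ+, ↑F ⊆ A → ∃ k : ℕ+, ∀ x ∈ F, k * x ∈ B

/-- Finite embeddability of ultrafilters. -/
def FeU (U V : Ultrafilter ℕ+) : Prop := ∀ B ∈ V, ∃ A ∈ U, Fe A B

end Pool.Agent.H84.FeDefs
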