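import Pool.Agent.H42.IMeag

/-! A non-meager family of sets with a Menger-like bounding property. -/

namespace Pool.Agent.H84.FpA

open Set Filter Pool.Agent.H42.IMeag

theorem mono_bd (φ : ℕ → ℕ → ℕ) :
    ∃ h : ℕ → ℕ, Monotone h ∧ (∀ n, n < h n) ∧ ∀ a b n, a ≤ n → b ≤ n → φ a b < h n := by
  refine ⟨fun n => (Finset.range (n + 1) ×ˢ Finset.range (n + 1)).sup (fun p => φ p.1 p.2) + n + 1,
    fun a b h => ?_, fun n => by beta_reduce; omega, fun a b n h1 h2 => ?_⟩
  · have := Finset.sup_mono (f := fun p : ℕ × ℕ => φ p.1 p.2) (Finset.product_subset_product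
      (Finset.range_mono (Nat.succ_le_succ h)) (Finset.range_mono (Nat.succ_le_succ h)))
    simp only [Nat.succ_eq_add_one] at this
    beta_reduce
    omega
  · have : φ a b ≤ _ := Finset.le_sup (f := fun p : ℕ × ℕ => φ p.1 p.2) (b := (a, b))
      (s := Finset.range (n + 1) ×ˢ Finset.range (n + 1)) (by simp; omega)
    beta_reduce
    omega

theorem mod3 (U : Ultrafilter ℕ) {h : ℕ → ℕ} (h1 : ∀ n, n < h n) :
    ∃ a : ℕ → ℕ, (∀ k, a (k + 1) = h (h (h (a k)))) ∧
      ∀ᶠ n in (U : Filter ℕ), ∃ k, a k ≤ n ∧ n < h (a k) := by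
  have e1 : ∀ n, ∃ i, h^[i] 0 ≤ n ∧ n < h (h^[i] 0) := fun n => by
    induction n with
    | zero => exact ⟨0, le_rfl, h1 _⟩
    | succ n ih =>
      obtain ⟨i, a, b⟩ := ih
      rcases (Nat.succ_le_of_lt b).eq_or_lt with c | c
      · refine ⟨i + 1, ?_, ?_⟩ <;> rw [Function.iterate_succ_apply', ← c]
        exact h1 _
      · exact ⟨i, by omega, c⟩
  obtain ⟨r, hr⟩ := (U.eventually_exists_iff (P := fun (r : Fin 3) n =>
      ∃ k, h^[3 * k + r] 0 ≤ n ∧ n < h (h^[3 * k + r] 0))).1 (.of_forall fun n => by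
    obtain ⟨i, hi⟩ := e1 n
    exact ⟨⟨i % 3, Nat.mod_lt _ (by norm_num)⟩, i / 3, by rwa [Nat.div_add_mod]⟩)
  refine ⟨fun k => h^[3 * k + r] 0, fun k => ?_, hr⟩
  beta_reduce
  rw [show 3 * (k + 1) + r = 3 * k + r + 1 + 1 + 1 by omega]
  simp only [Function.iterate_succ_apply']

/-- Every `q j` with `j ≤ n` has a point in `[n, b)` outside the sets `A x`, `x ∈ s`. -/
def Hit {ι : Type} (A : ι → Set ℕ) (q : ℕ → Set ℕ) (s : Finset ι) (n b : ℕ) : Prop :=
  ∀ j ≤ n, ∃ m ∈ q j, n ≤ m ∧ m < b ∧ ∀ x ∈ s, m ∉ A x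

theorem Hit.mono {ι : Type} {A : ι → Set ℕ} {q : ℕ → Set ℕ} {s t : Finset ι} {n b c : ℕ}
    (h : Hit A q s n b) (h1 : t ⊆ s) (h2 : b ≤ c) : Hit A q t n c := fun j hj =>
  let ⟨m, a, d, e, f⟩ := h j hj
  ⟨m, a, d, e.trans_le h2, fun x hx => f x (h1 hx)⟩

theorem ex_hit {ι : Type} {A : ι → Set ℕ} {q : ℕ → Set ℕ}
    (hq : ∀ j (s : Finset ι) n, ∃ m ∈ q j, n ≤ m ∧ ∀ x ∈ s, m ∉ A x) :
    ∃ Φ : Finset ι → ℕ → ℕ, ∀ s n, Hit A q s n (Φ s n) := by
  choose c c1 c2 c3 using hq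
  choose Φ _ _ hΦ using fun s => mono_bd fun j n => c j s n
  exact ⟨Φ, fun s n j hj => ⟨_, c1 j s n, c2 j s n, hΦ s j n n hj le_rfl, c3 j s n⟩⟩

theorem good (e : ℕ → ℕ) : ∃ (ι : Type) (A : ι → Set ℕ),
    (∀ s : Finset ι, ∃ᶠ n in atTop, ∀ m, n ≤ m → m < e n → ∀ x ∈ s, m ∉ A x) ∧
    (∀ l : ℕ → ℕ, ∃ x, ∃ᶠ n in atTop, ∀ m, n ≤ m → m < l n → m ∈ A x) ∧
    ∀ q : ℕ → Set ℕ, (∀ j (s : Finset ι) n, ∃ m ∈ q j, n ≤ m ∧ ∀ x ∈ s, m ∉ A x) →
      ∃ (U : Ultrafilter ℕ) (g : ℕ → ℕ), (U : Filter ℕ) ≤ atTop ∧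
        ∀ s, ∀ᶠ n in (U : Filter ℕ), Hit A q s n (g n) := by
  classical
  obtain ⟨F, hF, hb⟩ := ex_unb
  have : Infinite F := by rw [Cardinal.infinite_iff, hb]; exact aleph0_lt_b.le
  by_cases H : ∀ Φ : Finset F → ℕ → ℕ, ∃ g : ℕ → ℕ, ∀ s, ∃ᶠ n in atTop, Φ s n < g n
  · choose f f1 _ f2 using fun x : F => mono_bd fun _ n => x.1 n
    obtain ⟨g0, hg⟩ := H fun s n => s.sup (f · (e n))
    obtain ⟨g, g1, -, g2⟩ := mono_bd fun _ n => g0 n
    refine ⟨F, fun x => {m | g m ≤ f x m}, fun s => (hg s).mono fun n hn m a b x hx c => ?_,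
      fun l => ?_, fun q hq => ?_⟩
    · have := Finset.le_sup (f := (f · (e n))) hx
      have := f1 x b.le
      have := g2 0 n m (Nat.zero_le _) a
      rw [mem_ofPred_eq] at c
      beta_reduce at *
      omega
    · obtain ⟨x, h1, h2⟩ := hF fun n => g (l n)
      refine ⟨⟨x, h1⟩, h2.mono fun n hn m a b => ?_⟩
      exact (g1 b.le).trans (hn.le.trans (f2 ⟨x, h1⟩ 0 n m (Nat.zero_le _) a).le)
    · obtain ⟨Φ, hΦ⟩ := ex_hit hq
      obtain ⟨G, hG⟩ := H Φ
      have := iInf_neBot_of_directed (f := fun s : Finset F =>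
          atTop ⊓ 𝓟 {n | Hit (fun x => {m | g m ≤ f x m}) q s n (G n)})
        (fun s t => ⟨s ∪ t,
          inf_le_inf_left _ (principal_mono.2 fun n hn => Hit.mono hn (by simp) le_rfl),
          inf_le_inf_left _ (principal_mono.2 fun n hn => Hit.mono hn (by simp) le_rfl)⟩)
        fun s => frequently_iff_neBot.1 ((hG s).mono fun n hn => (hΦ s n).mono (by simp) hn.le)
      obtain ⟨U, hU⟩ := @Ultrafilter.exists_le _ _ this
      exact ⟨U, G, (le_iInf_iff.1 hU ∅).trans inf_le_left,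
        fun s => le_principal_iff.1 ((le_iInf_iff.1 hU s).trans inf_le_right)⟩
  · push Not at H
    obtain ⟨D, hD⟩ := H
    obtain ⟨ε⟩ : Nonempty (bN.ord.ToType ≃ Finset F) := Cardinal.eq.1 (by simp [hb])
    have sm : ∀ a : bN.ord.ToType, Cardinal.mk (Iio a) < bN := fun a =>
      (Cardinal.mk_Iio_lt a (by simp)).trans_eq (by simp)
    choose f0 hf0 using fun a => bdd (sm a) fun b => D (ε b)
    choose f f1 f3 f2 using fun a => mono_bd fun _ n => f0 a n + D (ε a) n + e n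
    have key : ∀ g : ℕ → ℕ, ∃ b, ∀ a, b ≤ a → ∀ᶠ n in atTop, g n ≤ f a n := fun g => by
      obtain ⟨s, hs⟩ := hD g
      obtain ⟨b, rfl⟩ := ε.surjective s
      refine ⟨b, fun a h => ?_⟩
      rcases h.eq_or_lt with rfl | h
      · refine hs.mono fun n hn => ?_
        have := f2 b n n n le_rfl le_rfl
        omega
      · refine (hs.and (hf0 a ⟨b, h⟩)).mono fun n hn => ?_
        have := f2 a n n n le_rfl le_rfl
        have : D (ε b) n ≤ _ := hn.2
        have := hn.1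
        omega
    have hU : (hyperfilter ℕ : Filter ℕ) ≤ atTop := Nat.cofinite_eq_atTop ▸ hyperfilter_le_cofinite
    choose u u1 u2 using fun a => mod3 (hyperfilter ℕ) (f3 a)
    have um : ∀ a, StrictMono (u a) := fun a => strictMono_nat_of_lt_succ fun k => by
      rw [u1]
      exact (f3 a _).trans ((f3 a _).trans (f3 a _))
    let A : bN.ord.ToType → Set ℕ := fun a => {m | ∃ k, f a (f a (u a k)) ≤ m ∧ m < u a (k + 1)}
    have sp : ∀ a, ∀ᶠ n in (hyperfilter ℕ : Filter ℕ), ∀ m, n ≤ m → m < f a n → m ∉ A a :=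
      fun a => (u2 a).mono fun n ⟨k, k1, k2⟩ m m1 m2 ⟨i, i1, i2⟩ => by
        rcases lt_or_ge i k with c | c
        · have := (um a).monotone (Nat.succ_le_of_lt c)
          rw [Nat.succ_eq_add_one] at this
          omega
        · have := f1 a (f1 a ((um a).monotone c))
          have := f1 a k2.le
          omega
    refine ⟨_, A, fun s => ?_, fun l => ?_, fun q hq => ?_⟩
    · refine Frequently.filter_mono (Eventually.frequently ?_) hU
      refine ((eventually_all_finset s).2 fun a _ => sp a).mono fun n hn m a b x hx =>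
        hn x hx m a ?_
      have := f2 x n n n le_rfl le_rfl
      omega
    · obtain ⟨b, h⟩ := key l
      obtain ⟨N, hN⟩ := eventually_atTop.1 (h b le_rfl)
      refine ⟨b, frequently_atTop.2 fun M => ?_⟩
      have h1 : max M N ≤ f b (f b (u b (max M N))) :=
        (um b).le_apply.trans ((f3 b _).trans (f3 b _)).le
      refine ⟨_, le_of_max_le_left h1, fun m c d => ⟨_, c, ?_⟩⟩
      rw [u1]
      exact d.trans_le (hN _ (le_of_max_le_right h1))
    · obtain ⟨Φ, hΦ⟩ := ex_hit hq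
      have ind : ∀ k, ∃ g : ℕ → ℕ, ∀ s : Finset _, s.card ≤ k →
          ∀ᶠ n in (hyperfilter ℕ : Filter ℕ), Hit A q s n (g n) := fun k => by
        induction k with
        | zero => exact ⟨Φ ∅, fun s hs => .of_forall fun n => (hΦ ∅ n).mono
            (by rw [Finset.card_eq_zero.1 (Nat.le_zero.1 hs)]) le_rfl⟩
        | succ k ih =>
          obtain ⟨g, hg⟩ := ih
          obtain ⟨b, h⟩ := key g
          obtain ⟨g', hg'⟩ := bdd (mk_finset_lt aleph0_lt_b (sm b)) fun s =>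
            Φ (s.map (.subtype _))
          refine ⟨fun n => g n + g' n, fun s hs => ?_⟩
          by_cases c : ∃ a ∈ s, b ≤ a
          · obtain ⟨a, a1, a2⟩ := c
            filter_upwards [hg (s.erase a) (by rw [Finset.card_erase_of_mem a1]; omega), sp a,
              hU (h a a2)] with n n1 n2 n3 j hj
            obtain ⟨m, m1, m2, m3, m4⟩ := n1 j hj
            refine ⟨m, m1, m2, by omega, fun x hx => ?_⟩
            rcases eq_or_ne x a with rfl | d
            · exact n2 m m2 (m3.trans_le n3)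
            · exact m4 x (Finset.mem_erase.2 ⟨d, hx⟩)
          · push Not at c
            refine ((hg' (s.subtype _)).filter_mono hU).mono fun n hn => ?_
            rw [Finset.subtype_map_of_mem (p := (· ∈ Iio b)) (fun x hx => c x hx)] at hn
            exact (hΦ s n).mono le_rfl (hn.trans (Nat.le_add_left _ _))
      choose g hg using ind
      obtain ⟨G, hG⟩ := bdd (ι := ℕ) (by simpa using aleph0_lt_b) g
      refine ⟨_, G, hU, fun s => ?_⟩
      filter_upwards [hg _ s le_rfl, hU (hG s.card)] with n n1 n2 using n1.mono le_rfl n2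

end Pool.Agent.H84.FpA
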