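import Pool.Agent.H84.FpDefs
import Pool.Agent.H84.FpA
import Pool.Agent.H84.Luz

/-! A non-meager filter `F` such that `F × F⁺` is not homeomorphic to `F⁺`. -/

namespace Pool.Agent.H84.FpB

open Set Filter Topology Pool.Agent.H42.IMeag Pool.Agent.H84.FpA Pool.Agent.H84.FpDefs

/-- The filter generated by the complements of the sets `A x` and the tails of columns. -/
def fil {ι : Type} (A : ι → Set ℕ) : Filter ℕ where
  sets := {X | ∃ (s : Finset ι) (k : ℕ), ∀ m, k ≤ m.unpair.1 → (∀ x ∈ s, m ∉ A x) → m ∈ X}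
  univ_sets := ⟨∅, 0, fun _ _ _ => trivial⟩
  sets_of_superset := fun ⟨s, k, h⟩ c => ⟨s, k, fun m a b => c (h m a b)⟩
  inter_sets := fun ⟨s, k, h⟩ ⟨t, l, g⟩ => by
    classical
    exact ⟨s ∪ t, max k l, fun m a b => ⟨h m (le_of_max_le_left a) fun x c => b x (by simp [c]),
      g m (le_of_max_le_right a) fun x c => b x (by simp [c])⟩⟩

theorem hb {ι : Type} {A : ι → Set ℕ}
    (hA : ∀ q : ℕ → Set ℕ, (∀ j (s : Finset ι) n, ∃ m ∈ q j, n ≤ m ∧ ∀ x ∈ s, m ∉ A x) →
      ∃ (U : Ultrafilter ℕ) (g : ℕ → ℕ), (U : Filter ℕ) ≤ atTop ∧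
        ∀ s, ∀ᶠ n in (U : Filter ℕ), Hit A q s n (g n))
    (q : ℕ → ℕ → Bool) (h1 : ∀ j, q j ∈ Pos (fil A))
    (h2 : ∀ j M, ∃ J, (∀ i < M, q J i = q j i) ∧ ∀ k ≤ M, q J ≠ q k) :
    ∃ x ∈ Pos (fil A), (∀ N, ∃ j, ∀ i < N, q j i = x i) ∧ ∀ k, x ≠ q k := by
  obtain ⟨U, g, hU, hg⟩ := hA (fun j => {m | q j m = true ∧ j ≤ m.unpair.1}) fun j s n => by
    obtain ⟨m, a, b, c⟩ := h1 j {m | max j n ≤ m.unpair.1 ∧ ∀ x ∈ s, m ∉ A x}
      ⟨s, max j n, fun m a b => ⟨a, b⟩⟩
    exact ⟨m, ⟨a, le_of_max_le_left b⟩, (le_of_max_le_right b).trans m.unpair_left_le, c⟩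
  choose J J1 J2 using h2
  choose d hd using fun j M k (h : k ≤ M) => Function.ne_iff.1 (J2 j M k h)
  choose D _ _ hD using fun j M => mono_bd fun k _ => if h : k ≤ M then d j M k h else 0
  obtain ⟨h, m1, m2, m3⟩ := mono_bd fun j M => J j M + D j M M + g M
  obtain ⟨a, a1, a2⟩ := mod3 U m2
  have am : StrictMono a := strictMono_nat_of_lt_succ fun k => by
    rw [a1]
    exact (m2 _).trans ((m2 _).trans (m2 _))
  let j : ℕ → ℕ := fun k => Nat.rec 0 (fun k p => J p (h (h (a k)))) k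
  have j1 : ∀ k, j (k + 1) = J (j k) (h (h (a k))) := fun _ => rfl
  have c1 : ∀ k, a k < h (h (a k)) := fun k => (m2 _).trans (m2 _)
  have c2 : ∀ k, k < h (h (a k)) := fun k => am.le_apply.trans_lt (c1 k)
  have j2 : ∀ k, j k ≤ a k := fun k => by
    induction k with
    | zero => exact Nat.zero_le _
    | succ k ih =>
      have := m3 (j k) _ _ (ih.trans (c1 k).le) le_rfl
      rw [j1, a1]
      omega
  have j3 : ∀ k l, k ≤ l → ∀ i < h (h (a k)), q (j l) i = q (j k) i := fun k l c i hi => by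
    induction l, c using Nat.le_induction with
    | base => rfl
    | succ l c ih => rw [j1, J1 _ _ i (hi.trans_le (m1 (m1 (am.monotone c)))), ih]
  have j4 : ∀ k, ∀ i < h (h (a k)), q (j k) i = q (j i) i := fun k i hi => by
    rcases le_total k i with c | c
    · exact (j3 k i c i hi).symm
    · exact j3 i k c i (c2 i)
  refine ⟨fun i => q (j i) i, fun X ⟨s, l, hX⟩ => ?_,
    fun N => ⟨j N, fun i hi => j4 N i (hi.trans (c2 N))⟩, fun k e => ?_⟩
  · obtain ⟨n, n1, ⟨k, k1, k2⟩, n3⟩ :=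
      ((hg s).and (a2.and ((eventually_ge_atTop (h (a l))).filter_mono hU))).exists
    obtain ⟨m, ⟨p1, p2⟩, -, p4, p5⟩ := n1 (j k) ((j2 k).trans k1)
    have := m3 n n n le_rfl le_rfl
    have := m1 k2.le
    refine ⟨m, (j4 k m (by omega)).symm.trans p1, hX m (le_trans ?_ p2) p5⟩
    have h3 : l < k := lt_of_not_ge fun c => by
      have := m1 (am.monotone c)
      omega
    obtain ⟨k, rfl⟩ := Nat.exists_eq_add_one_of_ne_zero (Nat.ne_zero_of_lt h3)
    by_contra c
    have := c2 k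
    exact J2 (j k) (h (h (a k))) (j (k + 1)) (by omega) (by rw [j1])
  · have h3 := hD (j k) (h (h (a k))) k 0 _ (c2 k).le (Nat.zero_le _)
    rw [dif_pos (c2 k).le] at h3
    have := m3 (j k) _ _ ((j2 k).trans (c1 k).le) le_rfl
    have h4 := c1 (k + 1)
    rw [a1] at h4
    refine hd (j k) _ k (c2 k).le ?_
    rw [← j1, j4 (k + 1) _ (by rw [a1]; omega)]
    exact congrFun e _

/-- An embedding of the Cantor space into itself. -/
def G (z : ℕ → Bool) (m : ℕ) : Bool := decide (∀ i : Fin m.unpair.2, z (m.unpair.1 + i) = true)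

theorem G_cont : Continuous G := continuous_pi fun m =>
  (continuous_of_discreteTopology (f := fun w : Fin m.unpair.2 → Bool =>
    decide (∀ i, w i = true))).comp (continuous_pi fun i => continuous_apply (m.unpair.1 + i))

theorem G_inj : Function.Injective G := fun z w h => funext fun k => by
  have := congrFun h (Nat.pair k 1)
  simp only [G, decide_eq_decide] at this
  rw [Nat.unpair_pair] at this
  simpa using this

theorem main : ∃ F : Filter ℕ, F.NeBot ∧ F ≤ cofinite ∧ ¬ IsMeagre (Sp F) ∧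
    IsEmpty (Sp F × Pos F ≃ₜ Pos F) := by
  classical
  obtain ⟨ι, A, h1, h2, h3⟩ := good fun n => (n + 1) ^ 2
  have h4 : ∀ (s : Finset ι) k, ∃ n, ∀ x ∈ s, Nat.pair k (n + 1) ∉ A x := fun s k => by
    obtain ⟨n, a, b⟩ := frequently_atTop.1 (h1 s) (k + 1)
    obtain ⟨n, rfl⟩ := Nat.exists_eq_add_one_of_ne_zero (Nat.ne_zero_of_lt a)
    refine ⟨n, b _ (Nat.right_le_pair _ _) ?_⟩
    simpa [max_eq_right (show k ≤ n + 1 by omega)] using Nat.pair_lt_max_add_one_sq k (n + 1)
  have ne : ∀ X ∈ fil A, X.Nonempty := fun X ⟨s, k, h⟩ =>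
    let ⟨_, a⟩ := h4 s k
    ⟨_, h _ (by simp) a⟩
  refine ⟨fil A, forall_mem_nonempty_iff_neBot.1 ne, fun X hX => ?_, fun hm => ?_, ⟨fun φ => ?_⟩⟩
  · obtain ⟨k, hk⟩ := eventually_atTop.1 (Nat.cofinite_eq_atTop ▸ hX : X ∈ atTop)
    exact ⟨∅, k, fun m a _ => hk m (a.trans m.unpair_left_le)⟩
  · obtain ⟨l, t, h⟩ := meagre_sub hm
    obtain ⟨x, hx⟩ := h2 l
    obtain ⟨y, hy⟩ := (dense_of_mem_residual (match_res hx l t)).nonempty
    refine h (fun m => if m ∈ A x then y m else true) (Frequently.mono hy fun n hn i a b => ?_)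
      ⟨{x}, 0, fun m _ c => by simp [c x (by simp)]⟩
    rw [if_pos (hn.1 i a b), hn.2 i a b]
  · let E : Set (ℕ → Bool) := {z | ∀ᶠ i in atTop, z i = true}
    have e1 : ∀ z, G z ∈ Sp (fil A) ↔ z ∈ E := fun z => by
      refine ⟨fun ⟨s, k, h⟩ => eventually_atTop.2 ⟨k, fun i hi => ?_⟩, fun h => ?_⟩
      · obtain ⟨n, a⟩ := h4 s i
        have := h _ (by simpa using hi) a
        simp only [G, mem_ofPred_eq, decide_eq_true_eq] at this
        rw [Nat.unpair_pair] at this
        exact this ⟨0, by simp⟩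
      · obtain ⟨k, hk⟩ := eventually_atTop.1 h
        exact ⟨∅, k, fun m a _ => decide_eq_true fun i => hk _ (by omega)⟩
    have e2 : (fun _ => true) ∈ Pos (fil A) := fun X hX => by simpa using ne X hX
    let ψ : E → Sp (fil A) × Pos (fil A) := fun z => (⟨G z, (e1 z).2 z.2⟩, ⟨_, e2⟩)
    have p1 : Continuous fun z => (φ (ψ z)).1 := continuous_subtype_val.comp (φ.continuous.comp
      (((G_cont.comp continuous_subtype_val).subtype_mk _).prodMk continuous_const))
    have p2 : Function.Injective fun z => (φ (ψ z)).1 := fun z w h =>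
      Subtype.ext (G_inj (congrArg (fun t => t.1.1) (φ.injective (Subtype.ext h))))
    have := (Luz.countable_ev fun _ => true).to_subtype
    have : Nonempty E := ⟨⟨fun _ => true, .of_forall fun _ => rfl⟩⟩
    obtain ⟨en, hen⟩ := exists_surjective_nat E
    obtain ⟨x, x1, x2, x3⟩ := hb h3 (fun j => (φ (ψ (en j))).1) (fun j => (φ _).2) fun j M => by
      let u : ℕ → E := fun t => ⟨Function.update (en j).1 t (!(en j).1 t),
        ((en j).2.and (eventually_gt_atTop t)).mono fun i hi => by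
          rw [Function.update_of_ne hi.2.ne', hi.1]⟩
      have u1 : Function.Injective u := fun t t' e => by
        by_contra c
        have := congrFun (congrArg Subtype.val e) t
        simp [u, Function.update_of_ne c] at this
      have u2 : Tendsto u atTop (𝓝 (en j)) := tendsto_subtype_rng.2 (tendsto_pi_nhds.2 fun i =>
        tendsto_const_nhds.congr' ((eventually_gt_atTop i).mono fun t ht =>
          (Function.update_of_ne ht.ne _ _).symm))
      have u3 := tendsto_pi_nhds.1 ((p1.tendsto _).comp u2)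
      have u4 := ((finite_Iic M).image fun k => (φ (ψ (en k))).1).preimage
        (p2.comp u1).injOn |>.eventually_cofinite_notMem
      rw [Nat.cofinite_eq_atTop] at u4
      obtain ⟨t, t1, t2⟩ := (((eventually_all_finite (finite_Iio M)).2 fun i _ =>
        tendsto_pure.1 (nhds_discrete Bool ▸ u3 i)).and u4).exists
      obtain ⟨J, hJ⟩ := hen (u t)
      exact ⟨J, fun i hi => hJ ▸ t1 i hi, fun k hk e => t2 ⟨k, hk, e.symm.trans (by rw [hJ]; rfl)⟩⟩
    choose j hj using x2
    have p3 : Tendsto (fun N => ψ (en (j N))) atTop (𝓝 (φ.symm ⟨x, x1⟩)) := by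
      have : Tendsto (fun N => φ (ψ (en (j N)))) atTop (𝓝 ⟨x, x1⟩) :=
        tendsto_subtype_rng.2 (tendsto_pi_nhds.2 fun i => tendsto_const_nhds.congr'
          ((eventually_gt_atTop i).mono fun N hN => (hj N i hN).symm))
      simpa [Function.comp_def] using (φ.symm.continuous.tendsto _).comp this
    obtain ⟨z, hz⟩ := (isCompact_range G_cont).isClosed.mem_of_tendsto
      ((continuous_subtype_val.tendsto _).comp ((continuous_fst.tendsto _).comp p3))
      (.of_forall fun N => ⟨_, rfl⟩)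
    have p4 := tendsto_nhds_unique ((continuous_snd.tendsto _).comp p3) tendsto_const_nhds
    obtain ⟨k, hk⟩ := hen ⟨z, (e1 z).1 (hz ▸ (φ.symm ⟨x, x1⟩).1.2)⟩
    refine x3 k ?_
    rw [hk, show ψ ⟨z, _⟩ = φ.symm ⟨x, x1⟩ from Prod.ext (Subtype.ext hz) p4.symm]
    simp

end Pool.Agent.H84.FpB
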