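import Pool.Agent.H84.FpDefs
import Pool.Agent.H84.FpA
import Pool.Agent.H84.Ckw

/-! A non-meager filter whose coideal is not homeomorphic to its square. -/

namespace Pool.Agent.H84.FpC

open Set Filter Topology TopologicalSpace Pool.Agent.H42.IMeag Pool.Agent.H84.FpA
  Pool.Agent.H84.FpDefs Pool.Agent.H84.CkwDefs Pool.Agent.H84.Ckw
open scoped Cardinal

theorem nonmeager {F : Filter ℕ} (hF : ∀ l : ℕ → ℕ, ∃ A : Set ℕ, Aᶜ ∈ F ∧
    ∃ᶠ n in atTop, ∀ m, n ≤ m → m < l n → m ∈ A) : ¬ IsMeagre (Sp F) := fun hm => by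
  classical
  obtain ⟨l, t, h⟩ := meagre_sub hm
  obtain ⟨A, hA, hx⟩ := hF l
  obtain ⟨y, hy⟩ := (dense_of_mem_residual (match_res hx l t)).nonempty
  refine h (fun m => if m ∈ A then y m else true) (Frequently.mono hy fun n hn i a b => ?_)
    (mem_of_superset hA fun m c => if_neg c)
  rw [if_pos (hn.1 i a b), hn.2 i a b]

theorem nonmeager_sup (u v : Ultrafilter ℕ) : ¬ IsMeagre (Sp ((u : Filter ℕ) ⊔ v)) := by
  refine nonmeager fun l => ?_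
  obtain ⟨h, m1, m2, m3⟩ := mono_bd fun _ n => l n
  obtain ⟨a, a1, a2⟩ := mod3 u m2
  have a3 : ∀ k, h (h (a k)) < a (k + 1) := fun k => a1 k ▸ m2 _
  have am : StrictMono a := strictMono_nat_of_lt_succ fun k => (m2 _).trans ((m2 _).trans (a3 k))
  have a4 : ∀ j k, j < k → h (h (a j)) < a k := fun j k c => (a3 j).trans_le (am.monotone c)
  let A : ℕ → Set ℕ := fun r => {m | ∃ k, h (a (2 * k + r)) ≤ m ∧ m < h (h (a (2 * k + r)))}
  obtain ⟨r, hr⟩ : ∃ r, A r ∉ v := by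
    by_contra c
    push Not at c
    obtain ⟨m, ⟨j, j1, j2⟩, k, k1, k2⟩ := v.nonempty_of_mem (inter_mem (c 0) (c 1))
    rcases lt_or_ge (2 * j + 0) (2 * k + 1) with d | d
    · have := a4 _ _ d
      have := m2 (a (2 * k + 1))
      omega
    · have := a4 (2 * k + 1) (2 * j + 0) (by omega)
      have := m2 (a (2 * j + 0))
      omega
  refine ⟨A r, ⟨mem_of_superset a2 fun n ⟨k, k1, k2⟩ ⟨j, j1, j2⟩ => ?_,
    Ultrafilter.compl_mem_iff_notMem.2 hr⟩, frequently_atTop.2 fun N =>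
      ⟨h (a (2 * N + r)), ?_, fun m c d => ⟨N, c, d.trans (m3 0 _ _ (Nat.zero_le _) le_rfl)⟩⟩⟩
  · rcases lt_or_ge (2 * j + r) k with d | d
    · have := a4 _ _ d
      omega
    · have := m1 (am.monotone d)
      omega
  · have : 2 * N + r ≤ a _ := am.le_apply
    have := m2 (a (2 * N + r))
    omega

theorem ext_family (Y : Type) [TopologicalSpace Y] [SecondCountableTopology Y] :
    ∃ H : Set (Y → ℕ → Bool), Cardinal.mk H ≤ 𝔠 ∧ H.Nonempty ∧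
      ∀ (Z : Type) [TopologicalSpace Z] (j : Z → Y) (e : Z → ℕ → Bool), IsInducing j →
        Continuous e → ∃ h ∈ H, ∀ z, h (j z) = e z := by
  classical
  refine ⟨range fun (c : ℕ → Set (countableBasis Y)) y n => decide (∃ t ∈ c n, y ∈ t.1),
    Cardinal.mk_range_le.trans ?_, range_nonempty _, fun Z _ j e hj he => ?_⟩
  · have : Cardinal.mk (Set (countableBasis Y)) ≤ 𝔠 := by
      rw [Cardinal.mk_set, ← Cardinal.two_power_aleph0]
      exact Cardinal.power_le_power_left two_ne_zero Cardinal.mk_le_aleph0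
    simpa using Cardinal.power_le_power_right (c := ℵ₀) this
  · choose O O1 O2 using fun n => hj.isOpen_iff.1
      ((isOpen_discrete {true}).preimage ((continuous_apply n).comp he))
    refine ⟨_, ⟨fun n => {t | t.1 ⊆ O n}, rfl⟩, fun z => funext fun n => ?_⟩
    rw [Bool.eq_iff_iff, decide_eq_true_eq]
    refine Iff.trans ⟨fun ⟨t, a, b⟩ => a b, fun a => ?_⟩ (Set.ext_iff.1 (O2 n) z)
    obtain ⟨t, a, b, c⟩ := (isBasis_countableBasis Y).exists_subset_of_mem_open a (O1 n)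
    exact ⟨⟨t, a⟩, c, b⟩

variable {b : (ℕ → Bool) → Set ℕ}

/-- `L` realises every pattern of the family `b` outside `S`. -/
def Proj (b : (ℕ → Bool) → Set ℕ) (L : Set Rem) (S : Set (ℕ → Bool)) : Prop :=
  ∀ ξ : (ℕ → Bool) → Prop, ∃ u ∈ L, ∀ i ∉ S, b i ∈ u.1 ↔ ξ i

/-- The ultrafilters with a prescribed pattern on `T`. -/
def Pat (b : (ℕ → Bool) → Set ℕ) (T : Set (ℕ → Bool)) (σ : (ℕ → Bool) → Prop) : Set Rem :=
  {u | ∀ i ∈ T, b i ∈ u.1 ↔ σ i}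

theorem pat_closed (T : Set (ℕ → Bool)) (σ : (ℕ → Bool) → Prop) : IsClosed (Pat b T σ) := by
  simp only [Pat, ofPred_forall]
  exact isClosed_biInter fun _ _ => (clopen_iff _ _).1

theorem Proj.mono {L : Set Rem} {S T : Set (ℕ → Bool)} (h : Proj b L S) (c : S ⊆ T) :
    Proj b L T := fun ξ =>
  let ⟨u, a, d⟩ := h ξ
  ⟨u, a, fun i hi => d i fun e => hi (c e)⟩

theorem Proj.fix {L : Set Rem} {S T : Set (ℕ → Bool)} (h : Proj b L S) (c : ∀ i ∈ T, i ∉ S)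
    (σ : (ℕ → Bool) → Prop) : Proj b (L ∩ Pat b T σ) (S ∪ T) := fun ξ => by
  classical
  obtain ⟨u, a, d⟩ := h fun i => if i ∈ T then σ i else ξ i
  exact ⟨u, ⟨a, fun i hi => by rw [d i (c i hi), if_pos hi]⟩, fun i hi => by
    rw [d i fun e => hi (.inl e), if_neg fun e => hi (.inr e)]⟩

theorem dich {L : Set Rem} (S : Set (ℕ → Bool)) (hL : IsClosed L) (c : Set ℕ) :
    Proj b (L ∩ {u | c ∈ u.1}ᶜ) S ∨ ∃ (T : Set (ℕ → Bool)) (σ : (ℕ → Bool) → Prop), T.Finite ∧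
      (∀ i ∈ T, i ∉ S) ∧ ∀ u ∈ L ∩ Pat b T σ, c ∈ u.1 := by
  refine or_iff_not_imp_left.2 fun h => ?_
  simp only [Proj] at h
  push Not at h
  obtain ⟨ξ, hξ⟩ := h
  obtain ⟨T, T1, T2, T3⟩ := (hL.inter (clopen_basic c).compl.1).isCompact.elim_finite_subcover_image
    (b := Sᶜ) (c := fun α => {u : Rem | b α ∈ u.1 ↔ ξ α}ᶜ)
    (fun α _ => (clopen_iff _ _).compl.2) fun u hu => by
      obtain ⟨i, a, d⟩ := hξ u hu
      exact mem_iUnion₂.2 ⟨i, a, fun e => by rw [mem_ofPred_eq] at e; tauto⟩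
  refine ⟨T, ξ, T2, T1, fun u hu => by_contra fun d => ?_⟩
  obtain ⟨i, a, e⟩ := mem_iUnion₂.1 (T3 ⟨hu.1, d⟩)
  exact e (hu.2 i a)

/-- The function `h` does not reduce the square of `u ∪ v` to `u ∪ v`. -/
def Kill (h : Set ℕ → Set ℕ → Set ℕ) (u v : Rem) : Prop :=
  ∃ x y, ¬ ((x ∈ u.1 ∨ x ∈ v.1) ∧ (y ∈ u.1 ∨ y ∈ v.1) ↔ h x y ∈ u.1 ∨ h x y ∈ v.1)

theorem step (h : Set ℕ → Set ℕ → Set ℕ) {L M : Set Rem} {S : Set (ℕ → Bool)}
    (hS : Cardinal.mk S < 𝔠) (l1 : IsClosed L) (m1 : IsClosed M) (l2 : Proj b L S)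
    (m2 : Proj b M S) : ∃ t : Set Rem × Set Rem × Set (ℕ → Bool), t.2.2.Finite ∧
      IsClosed t.1 ∧ IsClosed t.2.1 ∧ Proj b (L ∩ t.1) (S ∪ t.2.2) ∧
        Proj b (M ∩ t.2.1) (S ∪ t.2.2) ∧ ∀ u ∈ L ∩ t.1, ∀ v ∈ M ∩ t.2.1, Kill h u v := by
  obtain ⟨x, hx, y, hy, ne⟩ : (Sᶜ).Nontrivial := by
    refine Set.Infinite.nontrivial ?_
    rw [← infinite_coe_iff, Cardinal.infinite_iff, Cardinal.mk_compl_of_infinite S (by simpa)]
    simpa using Cardinal.aleph0_le_continuum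
  have d : ∀ i ∈ ({x, y} : Set _), i ∉ S := by
    rintro _ (rfl | rfl)
    exacts [hx, hy]
  have f : ({x, y} : Set _).Finite := toFinite _
  rcases dich (b := b) (S ∪ {x, y}) (l1.inter (pat_closed (b := b) {x, y} (· = x))) (h (b x) (b y)) with
    p | ⟨T, σ, t1, t2, t3⟩
  · rcases dich (b := b) (S ∪ {x, y}) (m1.inter (pat_closed (b := b) {x, y} (· = y))) (h (b x) (b y)) with
      q | ⟨T, σ, t1, t2, t3⟩
    · refine ⟨⟨_, _, _⟩, f, (pat_closed _ _).inter (clopen_basic _).compl.1,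
        (pat_closed _ _).inter (clopen_basic _).compl.1, inter_assoc _ _ _ ▸ p,
        inter_assoc _ _ _ ▸ q, fun u hu v hv => ⟨b x, b y, fun e => ?_⟩⟩
      exact (e.1 ⟨.inl ((hu.2.1 x (by simp)).2 rfl), .inr ((hv.2.1 y (by simp)).2 rfl)⟩).elim
        hu.2.2 hv.2.2
    · refine ⟨⟨_, _, _⟩, f.union t1, pat_closed _ _, (pat_closed _ _).inter (pat_closed _ _),
        (l2.fix d fun _ => False).mono (union_subset_union_right _ subset_union_left),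
        union_assoc _ _ _ ▸ inter_assoc _ _ _ ▸ (m2.fix d (· = y)).fix t2 σ,
        fun u hu v hv => ⟨b x, b y, fun e => ?_⟩⟩
      exact (e.2 (.inr (t3 v ⟨⟨hv.1, hv.2.1⟩, hv.2.2⟩))).1.elim (hu.2 x (by simp)).1
        fun c => ne ((hv.2.1 x (by simp)).1 c)
  · refine ⟨⟨_, _, _⟩, f.union t1, (pat_closed _ _).inter (pat_closed _ _), pat_closed _ _,
      union_assoc _ _ _ ▸ inter_assoc _ _ _ ▸ (l2.fix d (· = x)).fix t2 σ,
      (m2.fix d fun _ => False).mono (union_subset_union_right _ subset_union_left),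
      fun u hu v hv => ⟨b x, b y, fun e => ?_⟩⟩
    exact (e.2 (.inl (t3 u ⟨⟨hu.1, hu.2.1⟩, hu.2.2⟩))).2.elim
      (fun c => ne ((hu.2.1 y (by simp)).1 c).symm) (hv.2 y (by simp)).1

theorem limit {I : Type} [LinearOrder I] (hb : Proj b univ ∅) {C : I → Set Rem}
    {T : I → Set (ℕ → Bool)} {A : Set I} (h1 : ∀ a ∈ A, ∀ c ≤ a, IsClosed (C c))
    (h2 : ∀ a ∈ A, Proj b (⋂ c ∈ Iic a, C c) (⋃ c ∈ Iic a, T c))
    (h3 : ∀ a ∈ A, ∀ c ≤ a, c ∈ A) : Proj b (⋂ c ∈ A, C c) (⋃ c ∈ A, T c) := fun ξ => by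
  rcases A.eq_empty_or_nonempty with rfl | hne
  · simpa using hb ξ
  have := hne.to_subtype
  have c : ∀ a : A, IsClosed ((⋂ c ∈ Iic a.1, C c) ∩ Pat b (⋃ c ∈ A, T c)ᶜ ξ) := fun a =>
    (isClosed_biInter (h1 a a.2)).inter (pat_closed _ _)
  obtain ⟨u, hu⟩ := IsCompact.nonempty_iInter_of_directed_nonempty_isCompact_isClosed
    (fun a : A => (⋂ c ∈ Iic a.1, C c) ∩ Pat b (⋃ c ∈ A, T c)ᶜ ξ)
    (directed_of_isDirected_le fun _ _ h => inter_subset_inter_left _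
      (biInter_subset_biInter_left (Iic_subset_Iic.2 h)))
    (fun a => (h2 a a.2).mono (biUnion_subset_biUnion_left (h3 a a.2)) ξ)
    (fun a => (c a).isCompact) c
  rw [mem_iInter] at hu
  exact ⟨u, mem_iInter₂.2 fun a ha => mem_iInter₂.1 (hu ⟨a, ha⟩).1 a le_rfl,
    (hu (Classical.arbitrary _)).2⟩

theorem exists_kill {Q : Type} [Nonempty Q] (hQ : Cardinal.mk Q ≤ 𝔠)
    (h : Q → Set ℕ → Set ℕ → Set ℕ) : ∃ u v : Rem, ∀ q, Kill (h q) u v := by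
  obtain ⟨b, hb⟩ := indep
  have hb' : Proj b univ ∅ := fun ξ => let ⟨u, a⟩ := hb ξ; ⟨u, trivial, fun i _ => a i⟩
  obtain ⟨e⟩ : Nonempty (Q ↪ (𝔠 : Cardinal.{0}).ord.ToType) := (Cardinal.le_def _ _).1 (by simpa)
  let P := fun (a : (𝔠 : Cardinal.{0}).ord.ToType) (f : _ → Set Rem × Set Rem × Set (ℕ → Bool))
    (t : Set Rem × Set Rem × Set (ℕ → Bool)) => t.2.2.Finite ∧ IsClosed t.1 ∧ IsClosed t.2.1 ∧
      Proj b ((⋂ c ∈ Iio a, (f c).1) ∩ t.1) ((⋃ c ∈ Iio a, (f c).2.2) ∪ t.2.2) ∧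
      Proj b ((⋂ c ∈ Iio a, (f c).2.1) ∩ t.2.1) ((⋃ c ∈ Iio a, (f c).2.2) ∪ t.2.2) ∧
      ∀ u ∈ (⋂ c ∈ Iio a, (f c).1) ∩ t.1, ∀ v ∈ (⋂ c ∈ Iio a, (f c).2.1) ∩ t.2.1,
        Kill (h (Function.invFun e a)) u v
  have cong : ∀ a f f', (∀ c < a, f c = f' c) → ∀ t, P a f t → P a f' t := fun a f f' c t ht => by
    have e1 : ⋂ c ∈ Iio a, (f c).1 = ⋂ c ∈ Iio a, (f' c).1 :=
      iInter₂_congr fun i hi => by rw [c i hi]
    have e2 : ⋂ c ∈ Iio a, (f c).2.1 = ⋂ c ∈ Iio a, (f' c).2.1 :=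
      iInter₂_congr fun i hi => by rw [c i hi]
    have e3 : ⋃ c ∈ Iio a, (f c).2.2 = ⋃ c ∈ Iio a, (f' c).2.2 :=
      iUnion₂_congr fun i hi => by rw [c i hi]
    simp only [P] at ht ⊢
    rwa [← e1, ← e2, ← e3]
  have lim : ∀ A f, (∀ a ∈ A, P a f (f a)) → (∀ a ∈ A, ∀ c ≤ a, c ∈ A) →
      Proj b (⋂ c ∈ A, (f c).1) (⋃ c ∈ A, (f c).2.2) ∧
        Proj b (⋂ c ∈ A, (f c).2.1) (⋃ c ∈ A, (f c).2.2) := fun A f h1 h2 => by
    refine ⟨limit hb' (fun a ha c hc => (h1 c (h2 a ha c hc)).2.1) (fun a ha => ?_) h2,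
      limit hb' (fun a ha c hc => (h1 c (h2 a ha c hc)).2.2.1) (fun a ha => ?_) h2⟩ <;>
      rw [← Iio_insert, biInter_insert, biUnion_insert, inter_comm, union_comm]
    exacts [(h1 a ha).2.2.2.1, (h1 a ha).2.2.2.2.1]
  obtain ⟨f, hf⟩ := Luz.wf_rec (fun a f t => (∀ c < a, P c f (f c)) → P a f t)
    (fun a f f' t c h1 h2 => cong a f f' c t (h1 fun d hd => c d hd ▸
      cong d f' f (fun i hi => (c i (hi.trans hd)).symm) _ (h2 d hd))) fun a f => by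
      refine Classical.skolem.1 (fun (H : ∀ c < a, P c f (f c)) => ?_) |>.elim fun g hg => by
        by_cases H : ∀ c < a, P c f (f c)
        exacts [⟨g H, fun _ => hg H⟩, ⟨f a, fun c => absurd c H⟩]
      have := lim (Iio a) f H fun _ ha _ hc => hc.trans_lt ha
      refine step _ ?_ (isClosed_biInter fun c hc => (H c hc).2.1)
        (isClosed_biInter fun c hc => (H c hc).2.2.1) this.1 this.2
      refine (Cardinal.mk_biUnion_le _ _).trans_lt (Cardinal.mul_lt_of_lt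
        Cardinal.aleph0_le_continuum ((Cardinal.mk_Iio_lt a (by simp)).trans_eq (by simp))
        ((ciSup_le' fun c : Iio a => (H c c.2).1.lt_aleph0.le).trans_lt Cardinal.aleph0_lt_continuum))
  have all : ∀ a, P a f (f a) := fun a => by
    induction a using WellFoundedLT.induction with
    | ind a ih => exact hf a ih
  obtain ⟨l1, l2⟩ := lim univ f (fun a _ => all a) fun _ _ _ _ => trivial
  obtain ⟨u, hu, -⟩ := l1 fun _ => True
  obtain ⟨v, hv, -⟩ := l2 fun _ => True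
  rw [mem_iInter₂] at hu hv
  refine ⟨u, v, fun q => ?_⟩
  have := (all (e q)).2.2.2.2.2 u ⟨mem_iInter₂.2 fun c _ => hu c trivial, hu _ trivial⟩ v
    ⟨mem_iInter₂.2 fun c _ => hv c trivial, hv _ trivial⟩
  rwa [Function.leftInverse_invFun e.injective q] at this

theorem main : ∃ F : Filter ℕ, F.NeBot ∧ F ≤ cofinite ∧ ¬ IsMeagre (Sp F) ∧
    IsEmpty (Pos F ≃ₜ Pos F × Pos F) := by
  classical
  obtain ⟨H, h1, h2, h3⟩ := ext_family ((ℕ → Bool) × (ℕ → Bool))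
  obtain ⟨K, k1, k2, k3⟩ := ext_family (ℕ → Bool)
  have := h2.to_subtype
  have := k2.to_subtype
  let χ : Set ℕ → ℕ → Bool := fun x n => decide (n ∈ x)
  obtain ⟨u, v, h⟩ := exists_kill (Q := H × K × K) (by
      simpa using mul_le_mul' h1 (mul_le_mul' k1 k1)) fun q x y =>
    {n | q.1.1 (χ x, χ y) n = true ∧
      (q.2.1.1 (q.1.1 (χ x, χ y)), q.2.2.1 (q.1.1 (χ x, χ y))) = (χ x, χ y)}
  have pos : ∀ x, x ∈ Pos ((u.1 : Filter ℕ) ⊔ v.1) ↔
      {n | x n = true} ∈ u.1 ∨ {n | x n = true} ∈ v.1 := fun x => by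
    refine ⟨fun c => by_contra fun d => ?_, fun c s hs => c.elim
      (fun c => u.1.nonempty_of_mem (inter_mem c hs.1)) fun c => v.1.nonempty_of_mem
        (inter_mem c hs.2)⟩
    simp only [not_or, ← Ultrafilter.compl_mem_iff_notMem] at d
    simpa using c _ d
  have pos' : ∀ x, χ x ∈ Pos ((u.1 : Filter ℕ) ⊔ v.1) ↔ x ∈ u.1 ∨ x ∈ v.1 := fun x => by
    simp [pos, χ]
  refine ⟨u.1 ⊔ v.1, inferInstance, sup_le u.2 v.2, nonmeager_sup _ _, ⟨fun φ => ?_⟩⟩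
  obtain ⟨f, f1, f2⟩ := h3 _ _ (fun p => (φ.symm p).1)
    (IsInducing.subtypeVal.prodMap IsInducing.subtypeVal) (by fun_prop)
  obtain ⟨g, g1, g2⟩ := k3 _ _ (fun p => (φ p).1.1) IsInducing.subtypeVal (by fun_prop)
  obtain ⟨g', g3, g4⟩ := k3 _ _ (fun p => (φ p).2.1) IsInducing.subtypeVal (by fun_prop)
  obtain ⟨x, y, c⟩ := h (⟨f, f1⟩, ⟨g, g1⟩, ⟨g', g3⟩)
  refine c ⟨fun ⟨a, d⟩ => ?_, fun a => ?_⟩
  · have e : f (χ x, χ y) = _ := f2 (⟨_, (pos' x).2 a⟩, ⟨_, (pos' y).2 d⟩)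
    simpa [e, g2, g4] using (pos _).1 (φ.symm (⟨_, (pos' x).2 a⟩, ⟨_, (pos' y).2 d⟩)).2
  · by_cases e : (g (f (χ x, χ y)), g' (f (χ x, χ y))) = (χ x, χ y)
    · have d := (pos (f (χ x, χ y))).2 (by simpa [e] using a)
      have e1 := g2 ⟨_, d⟩
      have e2 := g4 ⟨_, d⟩
      rw [Prod.mk.injEq] at e
      exact ⟨(pos' x).1 (e.1.symm.trans e1 ▸ (φ _).1.2), (pos' y).1 (e.2.symm.trans e2 ▸ (φ _).2.2)⟩
    · simp [e] at a

end Pool.Agent.H84.FpC
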