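import Mathlib

/-! A filter on `ℕ` and its positive sets as subspaces of the Cantor space. -/

namespace Pool.Agent.H84.FpDefs

/-- The characteristic functions of the members of `F`. -/
def Sp (F : Filter ℕ) : Set (ℕ → Bool) := {x | {n | x n = true} ∈ F}

/-- The characteristic functions of the `F`-positive sets. -/
def Pos (F : Filter ℕ) : Set (ℕ → Bool) := {x | ∀ s ∈ F, ({n | x n = true} ∩ s).Nonempty}

end Pool.Agent.H84.FpDefs
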