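import Mathlib

set_option autoImplicit false

namespace Pool.Agent.H84.Lab

open Set FreeGroup

variable {M I X : Type}

def inv (s : M × Bool) : M × Bool := (s.1, !s.2)

@[simp] theorem inv_inv (s : M × Bool) : inv (inv s) = s := by simp [inv]

theorem inv_ne (s : M × Bool) : inv s ≠ s := by
  obtain ⟨a, b⟩ := s; cases b <;> simp [inv]

theorem inv_inj {s t : M × Bool} (h : inv s = inv t) : s = t := by
  rw [← inv_inv s, h, inv_inv]

theorem rel_iff {s t : M × Bool} : (s.1 = t.1 → s.2 = t.2) ↔ t ≠ inv s := by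
  obtain ⟨a, b⟩ := s; obtain ⟨c, d⟩ := t
  cases b <;> cases d <;> simp [inv, eq_comm]

theorem red_cons {s t : M × Bool} {l : List (M × Bool)} :
    IsReduced (s :: t :: l) ↔ t ≠ inv s ∧ IsReduced (t :: l) := by
  rw [isReduced_cons_cons, rel_iff]

theorem red_app {l l' : List (M × Bool)} {s t : M × Bool} :
    IsReduced (l ++ [s] ++ t :: l') ↔ IsReduced (l ++ [s]) ∧ t ≠ inv s ∧ IsReduced (t :: l') := by
  rw [List.append_assoc, List.singleton_append, FreeGroup.IsReduced, List.isChain_append_cons_cons, rel_iff]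
  rfl

theorem red_left {l l' : List (M × Bool)} (h : IsReduced (l ++ l')) : IsReduced l :=
  List.IsChain.left_of_append h

def run (σ : M × Bool → X → X) (x : X) (l : List (M × Bool)) : X := l.foldl (fun y s => σ s y) x

variable {σ : M × Bool → X → X}

@[simp] theorem run_nil (x : X) : run σ x [] = x := rfl
@[simp] theorem run_cons (x : X) (s : M × Bool) (l : List (M × Bool)) :
    run σ x (s :: l) = run σ (σ s x) l := rfl
@[simp] theorem run_app (x : X) (l l' : List (M × Bool)) :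
    run σ x (l ++ l') = run σ (run σ x l) l' := List.foldl_append

def seg (s : ℕ → M × Bool) (a m : ℕ) : List (M × Bool) := (List.range' a m).map s

theorem seg_succ (s : ℕ → M × Bool) (a m : ℕ) : seg s a (m + 1) = s a :: seg s (a + 1) m := by
  simp [seg, List.range'_succ]

theorem seg_succ' (s : ℕ → M × Bool) (a m : ℕ) : seg s a (m + 1) = seg s a m ++ [s (a + m)] := by
  simp [seg, List.range'_concat]

theorem seg_add (s : ℕ → M × Bool) (a m k : ℕ) :
    seg s a (m + k) = seg s a m ++ seg s (a + m) k := by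
  rw [seg, ← List.range'_append_1, List.map_append]; rfl

theorem seg_red {s : ℕ → M × Bool} (h : ∀ k, s (k + 1) ≠ inv (s k)) (a m : ℕ) :
    IsReduced (seg s a m) := by
  induction m generalizing a with
  | zero => exact IsReduced.nil
  | succ m ih =>
    cases m with
    | zero => exact IsReduced.singleton
    | succ m =>
      have := ih (a + 1)
      rw [seg_succ] at this
      rw [seg_succ, seg_succ, red_cons]
      exact ⟨h a, this⟩

theorem seg_run {s : ℕ → M × Bool} {x : ℕ → X} (h : ∀ k, x (k + 1) = σ (s k) (x k)) (a m : ℕ) :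
    run σ (x a) (seg s a m) = x (a + m) := by
  induction m with
  | zero => rfl
  | succ m ih => rw [seg_succ', run_app, ih, run_cons, run_nil, ← h, add_assoc]

/-- a shortest cycle -/
structure Cyc (σ : M × Bool → X → X) (U : Set X) where
  n : ℕ
  s : ℕ → M × Bool
  x : ℕ → X
  pos : 0 < n
  mem : ∀ k, x k ∈ U
  step : ∀ k, x (k + 1) = σ (s k) (x k)
  red : ∀ k, s (k + 1) ≠ inv (s k)
  ps : ∀ k, s (k + n) = s k
  px : ∀ k, x (k + n) = x k
  inj : ∀ j k, x j = x k → j % n = k % n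

theorem per {α : Type} {f : ℕ → α} {n : ℕ} (h : ∀ k, f (k + n) = f k) {j k : ℕ}
    (hjk : j % n = k % n) : f j = f k := by
  have := Function.Periodic.map_mod_nat (f := f) h
  rw [← this j, hjk, this k]

theorem run_mem {U : Set X} (hU : ∀ s, ∀ x ∈ U, σ s x ∈ U) (l : List (M × Bool)) :
    ∀ x ∈ U, run σ x l ∈ U := by
  induction l with
  | nil => exact fun x hx => hx
  | cons s l ih => exact fun x hx => ih _ (hU s x hx)

theorem exists_cyc (hσ : ∀ s x, σ (inv s) (σ s x) = x) {U : Set X} (hU : ∀ s, ∀ x ∈ U, σ s x ∈ U)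
    (h : ∃ n, ∃ y ∈ U, ∃ l, l ≠ [] ∧ IsReduced l ∧ run σ y l = y ∧ l.length = n) :
    Nonempty (Cyc σ U) := by
  classical
  obtain ⟨y, hy, l, h0, h1, h2, h3⟩ := Nat.find_spec h
  have hmin : ∀ z ∈ U, ∀ l', l' ≠ [] → IsReduced l' → run σ z l' = z → l.length ≤ l'.length :=
    fun z hz l' a b c => h3 ▸ Nat.find_min' h ⟨z, hz, l', a, b, c, rfl⟩
  clear h3 h
  have hn : 0 < l.length := List.length_pos_iff.2 h0
  let s : ℕ → M × Bool := fun k => l[k % l.length]'(Nat.mod_lt _ hn)
  let x : ℕ → X := fun k => run σ y (l.take (k % l.length))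
  have hmod : ∀ k, (k + 1) % l.length = k % l.length + 1 ∨
      ((k + 1) % l.length = 0 ∧ k % l.length + 1 = l.length) := fun k => by
    have := Nat.mod_lt k hn
    rw [← Nat.mod_add_mod]
    by_cases h : k % l.length + 1 = l.length
    · right; rw [h]; simp
    · left; exact Nat.mod_eq_of_lt (by omega)
  have step : ∀ k, x (k + 1) = σ (s k) (x k) := fun k => by
    have e : run σ y (l.take (k % l.length + 1)) = σ (s k) (x k) := by
      rw [List.take_succ_eq_append_getElem (Nat.mod_lt _ hn), run_app]; rfl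
    rcases hmod k with h | h
    · rw [← e, ← h]
    · rw [← e, h.2, List.take_length, h2]
      simp only [x, h.1]; rfl
  have red : ∀ k, s (k + 1) ≠ inv (s k) := fun k => by
    rcases hmod k with h | h
    · have := List.isChain_iff_getElem.1 h1 (k % l.length) (h ▸ Nat.mod_lt _ hn)
      rw [rel_iff] at this
      simpa only [s, h] using this
    · have e1 : s (k + 1) = l.head h0 := by simp only [s, h.1]; exact (List.head_eq_getElem h0).symm
      have e2 : s k = l.getLast h0 := by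
        have : k % l.length = l.length - 1 := by omega
        simp only [s, this]; exact (List.getLast_eq_getElem h0).symm
      rw [e1, e2]
      clear e1 e2 step h hmod
      clear_value s x
      clear s x
      obtain ⟨a, m, rfl⟩ := List.exists_cons_of_ne_nil h0
      rcases List.eq_nil_or_concat' m with rfl | ⟨m, b, rfl⟩
      · exact (inv_ne a).symm
      · simp only [List.head_cons, ne_eq, List.append_eq_nil_iff, List.cons_ne_self, and_false,
          not_false_eq_true, List.getLast_cons, List.getLast_append_of_ne_nil,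
          List.getLast_singleton]
        rintro rfl
        have hm : m ≠ [] := by
          rintro rfl
          exact (red_cons.1 h1).1 (inv_inv b).symm
        have h4 : run σ (σ (inv b) y) m = σ (inv b) y := by
          have := congrArg (σ (inv b)) h2
          rwa [run_cons, run_app, run_cons, run_nil, hσ] at this
        have := hmin _ (hU _ _ hy) m hm (red_left (List.IsChain.tail h1)) h4
        simp at this
  have mem : ∀ k, x k ∈ U := fun k => run_mem hU _ _ hy
  have key : ∀ j k, j < k → k < l.length → x j ≠ x k := fun j k hjk hk h => by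
    obtain ⟨m, rfl⟩ := Nat.exists_eq_add_of_lt hjk
    have := hmin _ (mem j) (seg s j (m + 1)) (by simp [seg_succ]) (seg_red red _ _)
      (by rw [seg_run step, h, add_assoc])
    simp [seg] at this
    omega
  have px : ∀ k, x (k + l.length) = x k := fun k => by simp only [x, Nat.add_mod_right]
  refine ⟨⟨l.length, s, x, hn, mem, step, red, fun k => by simp only [s, Nat.add_mod_right], px,
    fun j k h => ?_⟩⟩
  have h' : x (j % l.length) = x (k % l.length) := by
    rw [per px (Nat.mod_mod _ _), per px (Nat.mod_mod k _), h]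
  rcases lt_trichotomy (j % l.length) (k % l.length) with a | a | a
  · exact (key _ _ a (Nat.mod_lt _ hn) h').elim
  · exact a
  · exact (key _ _ a (Nat.mod_lt _ hn) h'.symm).elim

theorem cyc_key (hσ : ∀ s x, σ (inv s) (σ s x) = x)
    (hc : ∀ x a b, run σ x a = x → run σ x b = x → IsReduced (a ++ b) → IsReduced (b ++ a) →
      a ++ b = b ++ a) {U : Set X} (C : Cyc σ U) (j : ℕ) (t : M × Bool) (h1 : t ≠ C.s (j + 1))
    (h2 : t ≠ inv (C.s j)) (l : List (M × Bool)) :
    IsReduced (t :: l) → ∀ k, run σ (C.x (j + 1)) (t :: l) ≠ C.x k := by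
  have main : ∀ l p u, t :: l = p ++ [u] → IsReduced (t :: l) → ∀ k, u ≠ inv (C.s k) →
      run σ (C.x (j + 1)) (t :: l) ≠ C.x k := by
    intro l p u hp hr k hu h
    obtain ⟨m, hm⟩ : ∃ m, k + m = j + C.n * (k + 1) := ⟨j + C.n * (k + 1) - k, by
      have := C.pos
      have : k + 1 ≤ C.n * (k + 1) := Nat.le_mul_of_pos_left _ this
      omega⟩
    have e0 : (k + m) % C.n = j % C.n := by rw [hm, Nat.add_mul_mod_self_left]
    have e1 : (k + (m + 1)) % C.n = (j + 1) % C.n := by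
      rw [← add_assoc, Nat.add_mod, e0, ← Nat.add_mod]
    have r1 : ∀ m', IsReduced ((t :: l) ++ seg C.s k (m' + 1)) := fun m' => by
      rw [hp, seg_succ, red_app, ← hp, ← seg_succ]
      exact ⟨hr, fun h => hu (by rw [h, inv_inv]), seg_red C.red _ _⟩
    obtain ⟨n, hn⟩ : ∃ n, C.n = n + 1 := ⟨C.n - 1, by have := C.pos; omega⟩
    have := hc (C.x (j + 1)) ((t :: l) ++ seg C.s k (m + 1)) (seg C.s (k + (m + 1)) (n + 1))
      (by rw [run_app, h, seg_run C.step, per C.px e1])
      (by rw [← per C.px e1, seg_run C.step, ← hn, C.px])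
      (by rw [List.append_assoc, ← seg_add, ← add_assoc]; exact r1 _)
      (by
        rw [seg_succ' _ (k + (m + 1)), List.cons_append, red_app, ← seg_succ']
        refine ⟨seg_red C.red _ _, ?_, r1 m⟩
        rw [show k + (m + 1) + n = k + m + C.n by omega, C.ps, per C.ps e0]
        exact h2)
    rw [seg_succ _ (k + (m + 1)), per C.ps e1] at this
    exact h1 (List.cons.inj this).1
  induction l using List.reverseRecOn with
  | nil =>
    intro hr k
    by_cases hu : t = inv (C.s k)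
    · intro h
      have h3 : C.x (j + 1) = C.x (k + 1) := by
        rw [C.step k, ← h, run_cons, run_nil, hu]
        conv_rhs => rw [← inv_inv (C.s k)]
        rw [inv_inv (inv _), hσ]
      have h4 : (j + C.n) % C.n = (k + C.n) % C.n := by
        obtain ⟨n, hn⟩ : ∃ n, C.n = n + 1 := ⟨C.n - 1, by have := C.pos; omega⟩
        rw [show j + C.n = j + 1 + n by omega, show k + C.n = k + 1 + n by omega, Nat.add_mod,
          C.inj _ _ h3, ← Nat.add_mod]
      exact h2 (by rw [hu, ← C.ps j, per C.ps h4, C.ps])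
    · exact main [] [] t rfl hr k hu
  | append_singleton l u ih =>
    intro hr k
    by_cases hu : u = inv (C.s k)
    · intro h
      refine ih (red_left (l := t :: l) hr) (k + 1) ?_
      rw [C.step k, ← h, ← List.cons_append, run_app, hu]
      conv_rhs => rw [← inv_inv (C.s k)]
      rw [inv_inv (inv _)]
      exact (hσ _ _).symm
    · exact main _ (t :: l) u rfl hr k hu

open Classical in
noncomputable def β (S : Set I) (a : I) : ZMod 2 := if a ∈ S then 1 else 0

theorem β_eq {S T : Set I} {a b : I} : β S a = β T b ↔ (a ∈ S ↔ b ∈ T) := by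
  unfold β; split_ifs with h1 h2 h2 <;> simp [h1, h2]

theorem β_surj {S : Set I} (h : S.Nonempty ∧ S ≠ univ) (i : I) (c : ZMod 2) :
    ∃ a, β S a = c ∧ (β S i = c → a = i) := by
  by_cases hi : β S i = c
  · exact ⟨i, hi, fun _ => rfl⟩
  obtain ⟨a, ha⟩ := h.1
  obtain ⟨b, hb⟩ := (ne_univ_iff_exists_notMem S).1 h.2
  have : c = 1 ∨ c = 0 := by clear hi; revert c; decide
  rcases this with rfl | rfl
  · exact ⟨a, if_pos ha, fun h => (hi h).elim⟩
  · exact ⟨b, if_neg hb, fun h => (hi h).elim⟩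

theorem cyc_lab {P : M × Bool → Set I} (hP : ∀ s, (P s).Nonempty ∧ P s ≠ univ) (i : I)
    {s : ℕ → M × Bool} {n : ℕ} (ps : ∀ k, s (k + n) = s k)
    (he : ∑ k ∈ Finset.range n, (β (P (s k)) i + β (P (inv (s k))) i) = 0) :
    ∃ lab : ℕ → I, (∀ k, lab (k + n) = lab k) ∧
      ∀ k, lab k ∈ P (s (k + 1)) ↔ lab (k + 1) ∈ P (inv (s (k + 1))) := by
  choose f hf hf' using fun t => β_surj (hP t) i
  let D : ZMod 2 → ℕ → ZMod 2 := fun c k =>
    Nat.rec c (fun k d => β (P (s (k + 1))) (f (inv (s k)) d)) k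
  have D1 : ∀ c k, D c (k + 1) = β (P (s (k + 1))) (f (inv (s k)) (D c k)) := fun _ _ => rfl
  have key : ∀ k, D 0 k = D 1 k ∨ ∀ c, D c k = c + β (P (s 0)) i + β (P (s k)) i +
      ∑ j ∈ Finset.range k, (β (P (s j)) i + β (P (inv (s j))) i) := by
    intro k
    induction k with
    | zero =>
      right; intro c
      have : ∀ c b : ZMod 2, c = c + b + b + 0 := by decide
      exact this _ _
    | succ k ih =>
      rcases ih with ih | ih
      · left; rw [D1, D1, ih]
      · simp only [D1, ih, Finset.sum_range_succ]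
        have h1 : β (P (s (k + 1))) (f (inv (s k)) (β (P (inv (s k))) i)) = β (P (s (k + 1))) i := by
          rw [hf' _ _ rfl]
        generalize ∑ j ∈ Finset.range k, (β (P (s j)) i + β (P (inv (s j))) i) = A at *
        generalize β (P (inv (s k))) i = b at *
        generalize β (P (s k)) i = b' at *
        generalize β (P (s 0)) i = b0 at *
        generalize β (P (s (k + 1))) i = b1 at *
        have : ∀ (τ : ZMod 2 → ZMod 2) (A b b' b0 b1 : ZMod 2), τ b = b1 →
            τ (0 + b0 + b' + A) = τ (1 + b0 + b' + A) ∨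
              ∀ c, τ (c + b0 + b' + A) = c + b0 + b1 + (A + (b' + b)) := by decide
        exact this (fun d => β (P (s (k + 1))) (f (inv (s k)) d)) A b b' b0 b1 h1
  obtain ⟨c, hc⟩ : ∃ c, D c n = c := by
    rcases key n with h | h
    · have : D 0 n = 0 ∨ D 0 n = 1 := by generalize D 0 n = d; revert d; decide
      rcases this with h' | h'
      · exact ⟨0, h'⟩
      · exact ⟨1, h ▸ h'⟩
    · refine ⟨0, ?_⟩
      have e : s n = s 0 := by rw [← ps 0, zero_add]
      rw [h, he, e]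
      generalize β (P (s 0)) i = b; revert b; decide
  have pd : ∀ k, D c (k + n) = D c k := fun k => by
    induction k with
    | zero => rw [zero_add, hc]; rfl
    | succ k ih => rw [add_right_comm, D1, D1, ih, ps, add_right_comm, ps]
  refine ⟨fun k => f (inv (s k)) (D c k), fun k => by simp only [ps, pd], fun k => ?_⟩
  rw [← β_eq, hf, D1]

def dom (G : Set (X × I)) : Set X := {x | ∃ a, (x, a) ∈ G}

structure Good (σ : M × Bool → X → X) (P : M × Bool → Set I) (G : Set (X × I)) : Prop where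
  fn : ∀ x a b, (x, a) ∈ G → (x, b) ∈ G → a = b
  con : ∀ x s a b, (x, a) ∈ G → (σ s x, b) ∈ G → (a ∈ P s ↔ b ∈ P (inv s))
  cvx : ∀ x ∈ dom G, ∀ s l, IsReduced (s :: l) → σ s x ∉ dom G → run σ x (s :: l) ∉ dom G

variable {P : M × Bool → Set I}

theorem init (hσ : ∀ s x, σ (inv s) (σ s x) = x)
    (hc : ∀ x a b, run σ x a = x → run σ x b = x → IsReduced (a ++ b) → IsReduced (b ++ a) →
      a ++ b = b ++ a) (hP : ∀ s, (P s).Nonempty ∧ P s ≠ univ) (i : I)
    (hp : ∀ x a, IsReduced a → run σ x a = x →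
      (a.map fun s => β (P s) i + β (P (inv s)) i).sum = 0)
    {U : Set X} (hU : ∀ s, ∀ x ∈ U, σ s x ∈ U) (hne : U.Nonempty) :
    ∃ G, Good σ P G ∧ G.Nonempty ∧ dom G ⊆ U := by
  by_cases h : ∃ n, ∃ y ∈ U, ∃ l, l ≠ [] ∧ IsReduced l ∧ run σ y l = y ∧ l.length = n
  · obtain ⟨C⟩ := exists_cyc hσ hU h
    obtain ⟨lab, pl, hl⟩ := cyc_lab hP i C.ps (by
      have := hp (C.x 0) (seg C.s 0 C.n) (seg_red C.red _ _) (by rw [seg_run C.step, C.px])
      rwa [seg, List.map_map, ← List.range_eq_range'] at this)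
    have e : ∀ j k, C.x (j + 1) = C.x (k + 1) → lab j = lab k := fun j k h3 => by
      have h4 : (j + C.n) % C.n = (k + C.n) % C.n := by
        obtain ⟨n, hn⟩ : ∃ n, C.n = n + 1 := ⟨C.n - 1, by have := C.pos; omega⟩
        rw [show j + C.n = j + 1 + n by omega, show k + C.n = k + 1 + n by omega, Nat.add_mod,
          C.inj _ _ h3, ← Nat.add_mod]
      rw [← pl j, per pl h4, pl]
    obtain ⟨n, hn⟩ : ∃ n, C.n = n + 1 := ⟨C.n - 1, by have := C.pos; omega⟩
    have md : ∀ k, C.x k ∈ dom (range fun k => (C.x (k + 1), lab k)) := fun k =>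
      ⟨lab (k + n), k + n, by rw [← C.px k, hn]; rfl⟩
    refine ⟨range fun k => (C.x (k + 1), lab k), ⟨?_, ?_, ?_⟩, range_nonempty _, ?_⟩
    · rintro _ _ _ ⟨j, h1⟩ ⟨k, h2⟩
      obtain ⟨rfl, rfl⟩ := Prod.mk.inj h1
      obtain ⟨h3, rfl⟩ := Prod.mk.inj h2
      exact e _ _ h3.symm
    · rintro _ t _ _ ⟨j, h1⟩ ⟨k, h2⟩
      obtain ⟨rfl, rfl⟩ := Prod.mk.inj h1
      obtain ⟨h3, rfl⟩ := Prod.mk.inj h2
      by_cases a1 : t = C.s (j + 1)
      · rw [a1, ← C.step] at h3
        rw [a1, e _ _ h3]; exact hl j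
      by_cases a2 : t = inv (C.s j)
      · rw [a2, C.step j, hσ, ← C.px j, hn, ← add_assoc] at h3
        have := hl (j + n)
        rw [add_assoc, ← hn, C.ps, pl] at this
        rw [a2, inv_inv, e _ _ h3]; exact this.symm
      · exact (cyc_key hσ hc C j t a1 a2 [] IsReduced.singleton _ h3.symm).elim
    · rintro _ ⟨_, j, h1⟩ t l hr ht ⟨_, k, h2⟩
      obtain ⟨rfl, rfl⟩ := Prod.mk.inj h1
      refine cyc_key hσ hc C j t ?_ ?_ l hr _ (Prod.mk.inj h2).1.symm
      · rintro rfl; rw [← C.step] at ht; exact ht (md _)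
      · rintro rfl; rw [C.step j, hσ] at ht; exact ht (md _)
    · rintro _ ⟨_, j, h1⟩
      obtain ⟨rfl, rfl⟩ := Prod.mk.inj h1
      exact C.mem _
  · obtain ⟨y, hy⟩ := hne
    have h' : ∀ s l, IsReduced (s :: l) → run σ y (s :: l) ≠ y := fun s l hr h2 =>
      h ⟨_, y, hy, s :: l, by simp, hr, h2, rfl⟩
    refine ⟨{(y, i)}, ⟨?_, ?_, ?_⟩, singleton_nonempty _, ?_⟩
    · rintro _ _ _ h1 h2
      rw [(Prod.mk.inj h1).2, (Prod.mk.inj h2).2]
    · rintro _ t _ _ h1 h2
      obtain ⟨rfl, rfl⟩ := Prod.mk.inj h1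
      exact (h' t [] IsReduced.singleton (Prod.mk.inj h2).1).elim
    · rintro _ ⟨_, h1⟩ t l hr - ⟨_, h2⟩
      obtain ⟨rfl, rfl⟩ := Prod.mk.inj h1
      exact h' t l hr (Prod.mk.inj h2).1
    · rintro _ ⟨_, h1⟩
      obtain ⟨rfl, rfl⟩ := Prod.mk.inj h1
      exact hy

theorem ext1 (hσ : ∀ s x, σ (inv s) (σ s x) = x) {G : Set (X × I)} (hG : Good σ P G) {x : X}
    {a b : I} {s : M × Bool} (hx : (x, a) ∈ G) (hy : σ s x ∉ dom G)
    (hb : a ∈ P s ↔ b ∈ P (inv s)) : Good σ P (insert (σ s x, b) G) := by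
  have inj : ∀ t z w, σ t z = σ t w → z = w := fun t z w h => by rw [← hσ t z, h, hσ]
  have hd : ∀ z, z ∈ dom (insert (σ s x, b) G) ↔ z = σ s x ∨ z ∈ dom G := fun z => by
    constructor
    · rintro ⟨c, h | h⟩
      · exact Or.inl (Prod.mk.inj h).1
      · exact Or.inr ⟨c, h⟩
    · rintro (rfl | ⟨c, h⟩)
      · exact ⟨b, Or.inl rfl⟩
      · exact ⟨c, Or.inr h⟩
  have hxd : x ∈ dom G := ⟨a, hx⟩
  have u1 : ∀ z ∈ dom G, ∀ t, σ t z = σ s x → t = s ∧ z = x := fun z hz t h => by
    by_cases ht : t = s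
    · exact ⟨ht, inj _ _ _ (ht ▸ h)⟩
    · refine (hG.cvx x hxd s [inv t] (red_cons.2 ⟨fun h => ht (inv_inj h), .singleton⟩) hy ?_).elim
      rw [run_cons, run_cons, run_nil, ← h, hσ]; exact hz
  have u2 : ∀ z ∈ dom G, ∀ t l u, IsReduced (t :: (l ++ [u])) → σ t z ∉ dom G →
      run σ z (t :: (l ++ [u])) ≠ σ s x := fun z hz t l u hr ht h => by
    by_cases hu : u = s
    · subst hu
      refine hG.cvx z hz t l (red_left (l := t :: l) hr) ht ?_
      rw [← List.cons_append, run_app] at h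
      rw [inj _ _ _ h]; exact hxd
    · refine hG.cvx z hz t (l ++ [u] ++ [inv s]) ?_ ht ?_
      · rw [← List.cons_append, ← List.cons_append, red_app]
        exact ⟨hr, fun h => hu (inv_inj h).symm, .singleton⟩
      · rw [← List.cons_append, run_app, h, run_cons, run_nil, hσ]; exact hxd
  refine ⟨?_, ?_, ?_⟩
  · rintro z c d (h1 | h1) (h2 | h2)
    · rw [(Prod.mk.inj h1).2, (Prod.mk.inj h2).2]
    · exact (hy ⟨d, (Prod.mk.inj h1).1 ▸ h2⟩).elim
    · exact (hy ⟨c, (Prod.mk.inj h2).1 ▸ h1⟩).elim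
    · exact hG.fn z c d h1 h2
  · rintro z t c d (h1 | h1) (h2 | h2)
    · obtain ⟨rfl, rfl⟩ := Prod.mk.inj h1
      have h3 := (Prod.mk.inj h2).1
      refine (u2 x hxd s [] t (red_cons.2 ⟨?_, .singleton⟩) hy h3).elim
      rintro rfl
      rw [hσ] at h3
      exact hy (h3 ▸ hxd)
    · obtain ⟨rfl, rfl⟩ := Prod.mk.inj h1
      obtain ⟨h3, h4⟩ := u1 _ ⟨d, h2⟩ (inv t) (hσ _ _)
      rw [h4] at h2
      rw [hG.fn _ _ _ h2 hx, h3, hb, ← h3, inv_inv]
    · obtain ⟨h3, rfl⟩ := Prod.mk.inj h2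
      obtain ⟨rfl, rfl⟩ := u1 _ ⟨c, h1⟩ t h3
      rw [hG.fn _ _ _ h1 hx, hb]
    · exact hG.con z t c d h1 h2
  · intro z hz t l hr ht he
    rw [hd, not_or] at ht
    rw [hd] at hz he
    rcases hz with rfl | hz
    · have hr' : IsReduced (s :: t :: l) := red_cons.2 ⟨by
        rintro rfl
        rw [hσ] at ht
        exact ht.2 hxd, hr⟩
      rcases he with he | he
      · obtain ⟨p, u, hp⟩ : ∃ p u, t :: l = p ++ [u] := by
          rcases List.eq_nil_or_concat' (t :: l) with h | h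
          · simp at h
          · exact h
        rw [hp] at hr' he
        exact u2 x hxd s p u hr' hy he
      · exact hG.cvx x hxd s _ hr' hy he
    · rcases he with he | he
      · rcases List.eq_nil_or_concat' l with rfl | ⟨p, u, rfl⟩
        · exact ht.1 he
        · exact u2 z hz t p u hr ht.2 he
      · exact hG.cvx z hz t l hr ht.2 he

theorem ext2 {G H : Set (X × I)} (hG : Good σ P G) (hH : Good σ P H)
    (h1 : ∀ s, ∀ x ∈ dom G, σ s x ∈ dom G) (h2 : ∀ s, ∀ x ∈ (dom G)ᶜ, σ s x ∈ (dom G)ᶜ)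
    (h3 : dom H ⊆ (dom G)ᶜ) : Good σ P (G ∪ H) := by
  refine ⟨?_, ?_, ?_⟩
  · rintro z c d (a1 | a1) (a2 | a2)
    · exact hG.fn z c d a1 a2
    · exact (h3 ⟨d, a2⟩ ⟨c, a1⟩).elim
    · exact (h3 ⟨c, a1⟩ ⟨d, a2⟩).elim
    · exact hH.fn z c d a1 a2
  · rintro z t c d (a1 | a1) (a2 | a2)
    · exact hG.con z t c d a1 a2
    · exact (h3 ⟨d, a2⟩ (h1 t z ⟨c, a1⟩)).elim
    · exact (h2 t z (h3 ⟨c, a1⟩) ⟨d, a2⟩).elim
    · exact hH.con z t c d a1 a2
  · rintro z ⟨c, a1 | a1⟩ t l hr ht ⟨d, a2⟩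
    · obtain ⟨e, he⟩ := h1 t z ⟨c, a1⟩
      exact ht ⟨e, Or.inl he⟩
    · rcases a2 with a2 | a2
      · exact run_mem h2 _ z (h3 ⟨c, a1⟩) ⟨d, a2⟩
      · exact hH.cvx z ⟨c, a1⟩ t l hr (fun ⟨e, he⟩ => ht ⟨e, Or.inr he⟩) ⟨d, a2⟩

theorem exists_lab (hσ : ∀ s x, σ (inv s) (σ s x) = x)
    (hc : ∀ x a b, run σ x a = x → run σ x b = x → IsReduced (a ++ b) → IsReduced (b ++ a) →
      a ++ b = b ++ a) (hP : ∀ s, (P s).Nonempty ∧ P s ≠ univ) (i : I)
    (hp : ∀ x a, IsReduced a → run σ x a = x →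
      (a.map fun s => β (P s) i + β (P (inv s)) i).sum = 0) :
    ∃ lab : X → I, ∀ x s, lab x ∈ P s ↔ lab (σ s x) ∈ P (inv s) := by
  obtain ⟨G, hG⟩ := zorn_subset {G : Set (X × I) | Good σ P G} fun c hc hch => by
    refine ⟨⋃₀ c, ⟨?_, ?_, ?_⟩, fun s hs => subset_sUnion_of_mem hs⟩
    · rintro z a b ⟨A, hA, a1⟩ ⟨B, hB, a2⟩
      rcases hch.total hA hB with h | h
      · exact (hc hB).fn z a b (h a1) a2
      · exact (hc hA).fn z a b a1 (h a2)
    · rintro z t a b ⟨A, hA, a1⟩ ⟨B, hB, a2⟩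
      rcases hch.total hA hB with h | h
      · exact (hc hB).con z t a b (h a1) a2
      · exact (hc hA).con z t a b a1 (h a2)
    · rintro z ⟨a, A, hA, a1⟩ t l hr ht ⟨b, B, hB, a2⟩
      rcases hch.total hA hB with h | h
      · exact (hc hB).cvx z ⟨a, h a1⟩ t l hr (fun ⟨e, he⟩ => ht ⟨e, B, hB, he⟩) ⟨b, a2⟩
      · exact (hc hA).cvx z ⟨a, a1⟩ t l hr (fun ⟨e, he⟩ => ht ⟨e, A, hA, he⟩) ⟨b, h a2⟩
  have h1 : ∀ s, ∀ x ∈ dom G, σ s x ∈ dom G := by
    rintro s x ⟨a, ha⟩
    by_contra hy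
    obtain ⟨b, hb, -⟩ := β_surj (hP (inv s)) i (β (P s) a)
    exact hy ⟨b, hG.2 (ext1 hσ hG.1 ha hy (β_eq.1 hb.symm)) (subset_insert _ _) (mem_insert _ _)⟩
  have h2 : ∀ s, ∀ x ∈ (dom G)ᶜ, σ s x ∈ (dom G)ᶜ := fun s x hx h =>
    hx (hσ s x ▸ h1 (inv s) _ h)
  have h3 : ∀ x, x ∈ dom G := fun x => by
    by_contra hx
    obtain ⟨H, hH, ⟨⟨y, b⟩, hy⟩, hH'⟩ := init hσ hc hP i hp h2 ⟨x, hx⟩
    exact hH' ⟨b, hy⟩ ⟨b, hG.2 (ext2 hG.1 hH h1 h2 hH') subset_union_left (Or.inr hy)⟩
  choose lab hl using h3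
  exact ⟨lab, fun x s => hG.1.con x s _ _ (hl x) (hl _)⟩

end Pool.Agent.H84.Lab
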