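import Mathlib
import Pool.Agent.H84.Lab

set_option autoImplicit false

namespace Pool.Agent.H84.FreeGL

open Set Polynomial Cardinal Lab Matrix

theorem exists_params (N : Type) (hN : #N ≤ 𝔠) :
    ∃ (K : Subalgebra ℚ ℝ) (t : ℝ) (c : N → K), Transcendental K t ∧ Function.Injective c := by
  obtain ⟨s, hs⟩ := exists_isTranscendenceBasis ℚ ℝ
  have hne : Nonempty s := by
    by_contra h
    rw [not_nonempty_iff] at h
    have h1 := hs.isEmpty_iff_isAlgebraic.1 h
    have h2 := Algebra.IsAlgebraic.cardinalMk_le_max ℚ ℝ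
    rw [mk_real, Cardinal.mkRat, max_self] at h2
    exact aleph0_lt_continuum.not_ge h2
  have h1 := hs.lift_cardinalMk_eq_max_lift
  simp only [lift_id, mk_real, Cardinal.mkRat] at h1
  have h2 : #s = 𝔠 := by
    rcases max_choice (max ℵ₀ #s) ℵ₀ with h | h <;> rw [h] at h1
    · rcases max_choice ℵ₀ #s with h' | h' <;> rw [h'] at h1
      · exact (aleph0_lt_continuum.ne' h1).elim
      · exact h1.symm
    · exact (aleph0_lt_continuum.ne' h1).elim
  have h3 : #(Option N) ≤ #s := by
    rw [h2, mk_option]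
    exact (add_le_add hN (one_le_aleph0.trans aleph0_le_continuum)).trans continuum_add_self.le
  obtain ⟨f⟩ := (Cardinal.le_def _ _).1 h3
  refine ⟨Algebra.adjoin ℚ ((fun x : s => (x : ℝ)) '' {f none}ᶜ), f none, fun n =>
    ⟨f (some n), Algebra.subset_adjoin ⟨_, fun h => by simpa using f.injective h, rfl⟩⟩,
    hs.1.transcendental_adjoin (by simp), fun a b h => ?_⟩
  have h4 : (f (some a) : ℝ) = f (some b) := congrArg (fun k : Algebra.adjoin ℚ _ => (k : ℝ)) h
  simpa using f.injective (Subtype.ext h4)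

variable {M : Type} {K : Subalgebra ℚ ℝ} (t : ℝ) (c : M × Bool → K) (e : M → ℤˣ)

def η (s : M × Bool) : ℤˣ := cond s.2 1 (-e s.1)

def m (s : M × Bool) : Matrix (Fin 2) (Fin 2) ℝ :=
  !![1 - ((η e s : ℤ) : ℝ) * t * c (Lab.inv s), ((η e s : ℤ) : ℝ) * t;
    c s * (1 - ((η e s : ℤ) : ℝ) * t * c (Lab.inv s)) - ((e s.1 : ℤ) : ℝ) * c (Lab.inv s),
    c s * (((η e s : ℤ) : ℝ) * t) + ((e s.1 : ℤ) : ℝ)]

theorem det_m (s : M × Bool) : (m t c e s).det = ((e s.1 : ℤ) : ℝ) := by
  rw [det_fin_two]; simp [m]; ring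

theorem m_mul (s : M × Bool) : m t c e s * m t c e (Lab.inv s) = 1 := by
  have h1 : ((e s.1 : ℤ) : ℝ) * ((e s.1 : ℤ) : ℝ) = 1 := by
    rcases Int.units_eq_one_or (e s.1) with h | h <;> simp [h]
  have h2 : ((η e (Lab.inv s) : ℤ) : ℝ) = -((e s.1 : ℤ) : ℝ) * ((η e s : ℤ) : ℝ) := by
    obtain ⟨i, b⟩ := s
    cases b
    · simpa [η, Lab.inv] using h1.symm
    · simp [η, Lab.inv]
  have h3 : (Lab.inv s).1 = s.1 := rfl
  rw [m, m, Lab.inv_inv, h2, h3, Matrix.mul_fin_two, Matrix.one_fin_two]
  generalize ((e s.1 : ℤ) : ℝ) = ε at *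
  generalize ((η e s : ℤ) : ℝ) = n at *
  generalize (c s : ℝ) = a
  generalize (c (Lab.inv s) : ℝ) = b
  congrm !![?_, ?_; ?_, ?_]
  · ring
  · ring
  · linear_combination (-a) * h1
  · linear_combination h1

def g (i : M) : GL (Fin 2) ℝ :=
  ⟨m t c e (i, true), m t c e (i, false), m_mul t c e (i, true), m_mul t c e (i, false)⟩

noncomputable def φ : FreeGroup M →* GL (Fin 2) ℝ := FreeGroup.lift (g t c e)

theorem φ_single (s : M × Bool) : (φ t c e (FreeGroup.mk [s])).val = m t c e s := by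
  obtain ⟨i, b⟩ := s
  cases b <;> simp only [φ, FreeGroup.lift_mk, List.map_cons, List.map_nil, List.prod_cons,
    List.prod_nil, mul_one] <;> rfl

theorem mk_cons (s : M × Bool) (l : List (M × Bool)) :
    FreeGroup.mk (s :: l) = FreeGroup.mk [s] * FreeGroup.mk l := rfl

theorem deg_unit (u : ℤˣ) : (C ((u : ℤ) : K)).degree = 0 := by
  rcases Int.units_eq_one_or u with h | h <;> simp [h]

theorem poly (hc : Function.Injective c) (l : List (M × Bool)) : ∀ s, FreeGroup.IsReduced (s :: l) →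
    ∃ p q : K[X], aeval t p = (φ t c e (FreeGroup.mk (s :: l))).val 0 1 ∧
      aeval t q = (φ t c e (FreeGroup.mk (s :: l))).val 1 1 ∧
      (q - C (c s) * p).degree < p.degree := by
  have key : ∀ (s : M × Bool) (p q : K[X]) (A : GL (Fin 2) ℝ), aeval t p = A.val 0 1 →
      aeval t q = A.val 1 1 → q - C (c (Lab.inv s)) * p ≠ 0 → p.degree ≤ (q - C (c (Lab.inv s)) * p).degree →
      ∃ p' q' : K[X], aeval t p' = (φ t c e (FreeGroup.mk [s]) * A).val 0 1 ∧
      aeval t q' = (φ t c e (FreeGroup.mk [s]) * A).val 1 1 ∧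
      (q' - C (c s) * p').degree < p'.degree := by
    intro s p q A hp hq h0 h1
    set r := q - C (c (Lab.inv s)) * p with hr
    refine ⟨p + C ((η e s : ℤ) : K) * r * X,
      C (c s) * (p + C ((η e s : ℤ) : K) * r * X) + C ((e s.1 : ℤ) : K) * r, ?_, ?_, ?_⟩
    · rw [Units.val_mul, φ_single]
      simp [m, hr, Matrix.mul_apply, Fin.sum_univ_two, hp, hq]
      ring
    · rw [Units.val_mul, φ_single]
      simp [m, hr, Matrix.mul_apply, Fin.sum_univ_two, hp, hq]
      ring
    · have d1 : r.degree < (C ((η e s : ℤ) : K) * r * X).degree := by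
        rw [degree_mul_X, degree_mul, deg_unit, zero_add, degree_eq_natDegree h0]
        exact_mod_cast lt_add_one _
      rw [add_sub_cancel_left, degree_mul, deg_unit, zero_add,
        degree_add_eq_right_of_degree_lt (h1.trans_lt d1)]
      exact d1
  induction l with
  | nil =>
    intro s _
    simpa using key s 0 1 1 (by simp) (by simp) (by simp) (by simp)
  | cons s' l ih =>
    intro s hr
    obtain ⟨h1, h2⟩ := red_cons.1 hr
    obtain ⟨p, q, hp, hq, hd⟩ := ih s' h2
    have h3 : (C (c s' - c (Lab.inv s)) * p).degree = p.degree :=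
      degree_C_mul (sub_ne_zero.2 (hc.ne h1))
    have h4 : (q - C (c (Lab.inv s)) * p).degree = p.degree := by
      have : q - C (c (Lab.inv s)) * p = (q - C (c s') * p) + C (c s' - c (Lab.inv s)) * p := by
        rw [C_sub]; ring
      rw [this, degree_add_eq_right_of_degree_lt (h3.symm ▸ hd), h3]
    rw [mk_cons, map_mul]
    refine key s p q _ hp hq (fun h => ?_) h4.ge
    rw [h, degree_zero] at h4
    exact not_lt_bot (h4 ▸ hd)

theorem φ_inj (ht : Transcendental K t) (hc : Function.Injective c) :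
    Function.Injective (φ t c e) := by
  classical
  rw [injective_iff_map_eq_one]
  intro w hw
  rw [← FreeGroup.toWord_eq_nil_iff]
  by_contra h
  obtain ⟨s, l, hl⟩ := List.exists_cons_of_ne_nil h
  obtain ⟨p, q, hp, -, hd⟩ := poly t c e hc l s (hl ▸ FreeGroup.isReduced_toWord)
  rw [← hl, FreeGroup.mk_toWord, hw] at hp
  have : p = 0 := transcendental_iff.1 ht p (by simpa using hp)
  rw [this, degree_zero] at hd
  exact not_lt_bot hd

theorem det_φ (l : List (M × Bool)) :
    (φ t c e (FreeGroup.mk l)).val.det = (((l.map fun s => e s.1).prod : ℤˣ) : ℤ) := by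
  induction l with
  | nil => rw [← FreeGroup.one_eq_mk]; simp
  | cons s l ih => rw [mk_cons, map_mul, Units.val_mul, det_mul, φ_single, det_m, ih]; simp

open UpperHalfPlane

theorem comm {A B : GL (Fin 2) ℝ} (hA : 0 < A.val.det) (hB : 0 < B.val.det) {z : ℍ}
    (h1 : A • z = z) (h2 : B • z = z) : A * B = B * A := by
  rw [gl_smul_eq_self_iff_quadratic hA, Complex.ext_iff] at h1
  rw [gl_smul_eq_self_iff_quadratic hB, Complex.ext_iff] at h2
  simp at h1 h2
  have h0 := z.im_ne_zero
  have a1 : A.val 1 1 = A.val 0 0 - 2 * A.val 1 0 * z.re := by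
    apply mul_right_cancel₀ h0; linear_combination h1.2
  have b1 : B.val 1 1 = B.val 0 0 - 2 * B.val 1 0 * z.re := by
    apply mul_right_cancel₀ h0; linear_combination h2.2
  have a2 : A.val 0 1 = -A.val 1 0 * (z.re ^ 2 + z.im ^ 2) := by
    linear_combination -h1.1 + z.re * a1
  have b2 : B.val 0 1 = -B.val 1 0 * (z.re ^ 2 + z.im ^ 2) := by
    linear_combination -h2.1 + z.re * b1
  ext i j
  fin_cases i <;> fin_cases j <;>
    simp [Matrix.mul_apply, Fin.sum_univ_two, a1, a2, b1, b2] <;> ring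

theorem sq_one {A : GL (Fin 2) ℝ} (hA : A.val.det = -1) {z : ℍ} (h1 : A • z = z) : A * A = 1 := by
  have h := (exists_gl_smul_eq_self_iff_trace_eq_zero (by rw [hA]; norm_num)).1 ⟨z, h1⟩
  rw [trace_fin_two] at h
  rw [det_fin_two] at hA
  ext i j
  fin_cases i <;> fin_cases j <;> simp [Matrix.mul_apply, Fin.sum_univ_two]
  · linear_combination -hA + A.val 0 0 * h
  · linear_combination A.val 0 1 * h
  · linear_combination A.val 1 0 * h
  · linear_combination -hA + A.val 1 1 * h

theorem isom1 {A : GL (Fin 2) ℝ} (hA : A.val.det = 1) : Isometry fun z : ℍ => A • z := by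
  have : A = SpecialLinearGroup.mapGL ℝ (⟨A.val, hA⟩ : SpecialLinearGroup (Fin 2) ℝ) := by
    ext i j; simp
  rw [this]
  let B : SpecialLinearGroup (Fin 2) ℝ := ⟨A.val, hA⟩
  exact isometry_smul ℍ B

theorem isomJ : Isometry fun z : ℍ => UpperHalfPlane.J • z := by
  refine Isometry.of_dist_eq fun z w => ?_
  have h : ∀ z : ℍ, (UpperHalfPlane.J • z).im = z.im := fun z => by rw [← coe_im, coe_J_smul]; simp
  rw [UpperHalfPlane.dist_eq, UpperHalfPlane.dist_eq, h, h, coe_J_smul, coe_J_smul, dist_neg_neg,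
    Complex.dist_conj_conj]

theorem isom {A : GL (Fin 2) ℝ} (u : ℤˣ) (hA : A.val.det = (u : ℤ)) :
    Isometry fun z : ℍ => A • z := by
  rcases Int.units_eq_one_or u with rfl | rfl
  · exact isom1 (by simpa using hA)
  · have h1 : (UpperHalfPlane.J * A).val.det = 1 := by
      rw [Units.val_mul, det_mul, hA]; simp [det_fin_two]
    have : (fun z : ℍ => A • z) = (fun z : ℍ => UpperHalfPlane.J • z) ∘ fun z => (UpperHalfPlane.J * A) • z := by
      funext z
      rw [Function.comp_apply, ← mul_smul, ← mul_assoc, ← sq, J_sq, one_mul]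
    rw [this]
    exact isomJ.comp (isom1 h1)

theorem solve {I : Type} (hM : #M ≤ 𝔠) (i : I) (P : M × Bool → Set I)
    (hP : ∀ s, (P s).Nonempty ∧ P s ≠ Set.univ) :
    ∃ (lab : ℍ → I) (γ : M → ℍ ≃ᵢ ℍ), ∀ j x, lab x ∈ P (j, true) ↔ lab (γ j x) ∈ P (j, false) := by
  classical
  obtain ⟨K, t, c, ht, hc⟩ := exists_params (M × Bool) (by
    rw [mk_prod, lift_id, lift_id, mk_bool]
    exact (mul_le_mul' hM ((natCast_lt_aleph0 (n := 2)).le.trans aleph0_le_continuum)).trans
      continuum_mul_self.le)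
  let δ : M × Bool → ZMod 2 := fun s => β (P s) i + β (P (Lab.inv s)) i
  let e : M → ℤˣ := fun j => if δ (j, true) = 0 then 1 else -1
  have hinj := φ_inj t c e ht hc
  let σ : M × Bool → ℍ → ℍ := fun s z => (φ t c e (FreeGroup.mk [s]))⁻¹ • z
  have hrun : ∀ l z, run σ z l = (φ t c e (FreeGroup.mk l))⁻¹ • z := fun l => by
    induction l with
    | nil => intro z; rw [← FreeGroup.one_eq_mk]; simp
    | cons s l ih => intro z; rw [run_cons, ih, mk_cons s l, map_mul, _root_.mul_inv_rev, mul_smul]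
  have hσ : ∀ s x, σ (Lab.inv s) (σ s x) = x := fun s x => by
    have : φ t c e (FreeGroup.mk [s]) * φ t c e (FreeGroup.mk [inv s]) = 1 := by
      ext : 1; rw [Units.val_mul, φ_single, φ_single, m_mul]; rfl
    simp only [σ]
    rw [← mul_smul, ← _root_.mul_inv_rev, this]; simp
  have hpos : ∀ x l, run σ x l = x → (l.map fun s => e s.1).prod = 1 := fun x l h => by
    rw [hrun, inv_smul_eq_iff] at h
    refine (Int.units_eq_one_or _).resolve_right fun h1 => ?_
    have h2 := det_φ t c e l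
    rw [h1] at h2
    have h3 := sq_one (by simpa using h2) h.symm
    rw [← map_mul, ← sq, ← map_one (φ t c e)] at h3
    have h4 : FreeGroup.mk l = 1 := (pow_eq_one_iff_left two_ne_zero).1 (hinj h3)
    rw [h4] at h2
    norm_num at h2
  have hpar : ∀ l : List (M × Bool), (l.map fun s => e s.1).prod =
      if (l.map δ).sum = 0 then 1 else -1 := fun l => by
    induction l with
    | nil => simp
    | cons s l ih =>
      have h1 : e s.1 = if δ s = 0 then 1 else -1 := by
        obtain ⟨j, b⟩ := s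
        cases b
        · have : δ (j, false) = δ (j, true) := add_comm _ _
          rw [this]
        · rfl
      rw [List.map_cons, List.prod_cons, ih, h1, List.map_cons, List.sum_cons]
      generalize δ s = a
      generalize (l.map δ).sum = b
      revert a b; decide
  obtain ⟨lab, hl⟩ := exists_lab (P := P) hσ (fun x a b h1 h2 r1 r2 => by
      have d1 := det_φ t c e a
      have d2 := det_φ t c e b
      rw [hpos x a h1] at d1
      rw [hpos x b h2] at d2
      rw [hrun, inv_smul_eq_iff] at h1 h2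
      have := comm (by simp [d1]) (by simp [d2]) h1.symm h2.symm
      rw [← map_mul, ← map_mul] at this
      have h3 := congrArg FreeGroup.toWord (hinj this)
      rwa [FreeGroup.mul_mk, FreeGroup.mul_mk, FreeGroup.toWord_mk, FreeGroup.toWord_mk,
        r1.reduce_eq, r2.reduce_eq] at h3) hP i
    (fun x a _ h => by
      have := hpos x a h
      rw [hpar] at this
      by_contra h'
      rw [if_neg h'] at this
      exact absurd this (by decide))
  have hi : ∀ s, Isometry (σ s) := fun s => by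
    have : (φ t c e (FreeGroup.mk [s]))⁻¹.val = m t c e (Lab.inv s) := by
      rw [← φ_single, ← map_inv]; rfl
    exact isom (e s.1) (by rw [this, det_m]; rfl)
  exact ⟨lab, fun j => ⟨⟨σ (j, true), σ (j, false), hσ (j, true), hσ (j, false)⟩, hi _⟩,
    fun j x => hl x (j, true)⟩

theorem solve' {I : Type} (hM : #M ≤ 𝔠) (i : I) (L R : M → Set I)
    (h : ∀ j, (L j).Nonempty ∧ L j ≠ Set.univ ∧ (R j).Nonempty ∧ R j ≠ Set.univ) :
    ∃ (lab : ℍ → I) (γ : M → ℍ ≃ᵢ ℍ), ∀ j, γ j '' (lab ⁻¹' L j) = lab ⁻¹' R j := by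
  obtain ⟨lab, γ, hl⟩ := solve hM i (fun s => cond s.2 (L s.1) (R s.1)) fun ⟨j, b⟩ => by
    cases b
    · exact (h j).2.2
    · exact ⟨(h j).1, (h j).2.1⟩
  refine ⟨lab, γ, fun j => ?_⟩
  ext y
  obtain ⟨x, rfl⟩ := (γ j).surjective y
  rw [(γ j).injective.mem_set_image]
  exact hl j x

end Pool.Agent.H84.FreeGL
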