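import Mathlib

set_option autoImplicit false

namespace Pool.Agent.H84.GHDefs

section
variable {X Y : Type}

/-- correspondences -/
def IsCorr (S : Set (X × Y)) : Prop := (∀ x, ∃ y, (x, y) ∈ S) ∧ ∀ y, ∃ x, (x, y) ∈ S

variable [MetricSpace X] [MetricSpace Y]

/-- distortion -/
noncomputable def dis (S : Set (X × Y)) : ℝ :=
  sSup {r | ∃ p ∈ S, ∃ q ∈ S, r = |dist p.1 q.1 - dist p.2 q.2|}

variable (X Y) in
/-- Gromov-Hausdorff distance as half the infimum of distortions -/
noncomputable def gh : ℝ := 1 / 2 * sInf {r | ∃ S : Set (X × Y), IsCorr S ∧ r = dis S}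

/-- optimal correspondences -/
def Optimal (S : Set (X × Y)) : Prop := IsCorr S ∧ dis S = 2 * gh X Y

end

/-- projection of a ternary relation to the coordinates `i`, `j` -/
def e {X : Fin 3 → Type} (R : Set (∀ i, X i)) (i j : Fin 3) : Set (X i × X j) :=
  (fun x => (x i, x j)) '' R

/-- the conclusion of (C) for one triple -/
def CTriple (X : Fin 3 → Type) [∀ i, MetricSpace (X i)] : Prop :=
  ∃ R : Set (∀ i, X i), ∀ i j, Optimal (e R i j)

/-- the conclusion of (H) for one triple -/
def HTriple (X : Fin 3 → Type) [∀ i, MetricSpace (X i)] : Prop :=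
  ∃ (Z : Type) (_ : MetricSpace Z) (_ : CompactSpace Z) (φ : ∀ i, X i → Z),
    (∀ i, Isometry (φ i)) ∧
      ∀ i j, Metric.hausdorffDist (Set.range (φ i)) (Set.range (φ j)) = gh (X i) (X j)

/-- statement (C) -/
def StC : Prop := ∀ (X : Fin 3 → Type) [∀ i, MetricSpace (X i)] [∀ i, CompactSpace (X i)]
  [∀ i, Nonempty (X i)], CTriple X

/-- statement (H) -/
def StH : Prop := ∀ (X : Fin 3 → Type) [∀ i, MetricSpace (X i)] [∀ i, CompactSpace (X i)]
  [∀ i, Nonempty (X i)], HTriple X

end Pool.Agent.H84.GHDefs
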