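import Mathlib
import Pool.Agent.H84.GHDefs

set_option autoImplicit false
set_option synthInstance.maxSize 4096

namespace Pool.Agent.H84.GHEx

open GHDefs Set

def Good {n : ℕ} (D : Fin n → Fin n → ℕ) : Prop :=
  (∀ a, D a a = 0) ∧ (∀ a b, D a b = D b a) ∧ (∀ a b c, D a c ≤ D a b + D b c) ∧
    ∀ a b, D a b = 0 → a = b

instance {n : ℕ} (D : Fin n → Fin n → ℕ) : Decidable (Good D) := by unfold Good; infer_instance

@[reducible] noncomputable def fm {n : ℕ} (D : Fin n → Fin n → ℕ) (h : Good D) :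
    MetricSpace (Fin n) where
  dist a b := D a b
  dist_self a := by simp [h.1]
  dist_comm a b := by rw [h.2.1]
  dist_triangle a b c := by exact_mod_cast h.2.2.1 a b c
  eq_of_dist_eq_zero {a b} hab := h.2.2.2 a b (by exact_mod_cast hab)

section
variable {X Y : Type} [MetricSpace X] [MetricSpace Y]

theorem dis_le {S : Set (X × Y)} {k : ℝ} (hk : 0 ≤ k)
    (h : ∀ p ∈ S, ∀ q ∈ S, |dist p.1 q.1 - dist p.2 q.2| ≤ k) : dis S ≤ k :=
  Real.sSup_le (by rintro _ ⟨p, hp, q, hq, rfl⟩; exact h p hp q hq) hk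

theorem dis_nonneg (S : Set (X × Y)) : 0 ≤ dis S :=
  Real.sSup_nonneg (by rintro _ ⟨p, -, q, -, rfl⟩; exact abs_nonneg _)

theorem le_dis [Finite X] [Finite Y] {S : Set (X × Y)} {p q : X × Y} (hp : p ∈ S) (hq : q ∈ S) :
    |dist p.1 q.1 - dist p.2 q.2| ≤ dis S := by
  refine le_csSup (Set.Finite.bddAbove ?_) ⟨p, hp, q, hq, rfl⟩
  refine (finite_range fun z : (X × Y) × (X × Y) =>
    |dist z.1.1 z.2.1 - dist z.1.2 z.2.2|).subset ?_
  rintro _ ⟨p, -, q, -, rfl⟩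
  exact ⟨(p, q), rfl⟩

theorem gh_le {S : Set (X × Y)} (hS : IsCorr S) : 2 * gh X Y ≤ dis S := by
  have : sInf {r | ∃ S : Set (X × Y), IsCorr S ∧ r = dis S} ≤ dis S :=
    csInf_le ⟨0, by rintro _ ⟨S, -, rfl⟩; exact dis_nonneg S⟩ ⟨S, hS, rfl⟩
  unfold gh; linarith

theorem le_gh [Nonempty X] [Nonempty Y] {k : ℝ} (h : ∀ S : Set (X × Y), IsCorr S → k ≤ dis S) :
    k ≤ 2 * gh X Y := by
  have : k ≤ sInf {r | ∃ S : Set (X × Y), IsCorr S ∧ r = dis S} :=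
    le_csInf ⟨_, univ, ⟨fun _ => ⟨Classical.arbitrary _, trivial⟩,
      fun _ => ⟨Classical.arbitrary _, trivial⟩⟩, rfl⟩ (by rintro _ ⟨S, hS, rfl⟩; exact h S hS)
  unfold gh; linarith

theorem gh_le_fun (σ : X → Y) (hσ : Function.Surjective σ) {k : ℝ} (hk : 0 ≤ k)
    (h : ∀ a b, |dist a b - dist (σ a) (σ b)| ≤ k) : 2 * gh X Y ≤ k := by
  refine (gh_le (S := range fun a => (a, σ a)) ⟨fun a => ⟨_, a, rfl⟩, fun y => ?_⟩).trans
    (dis_le hk ?_)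
  · obtain ⟨a, rfl⟩ := hσ y; exact ⟨a, a, rfl⟩
  · rintro _ ⟨a, rfl⟩ _ ⟨b, rfl⟩; exact h a b

end

theorem abs_cast {a b k : ℕ} : |(a : ℝ) - b| ≤ k ↔ a ≤ b + k ∧ b ≤ a + k := by
  rw [abs_le]
  constructor
  · rintro ⟨h1, h2⟩
    exact ⟨by exact_mod_cast (by linarith : (a : ℝ) ≤ b + k),
      by exact_mod_cast (by linarith : (b : ℝ) ≤ a + k)⟩
  · rintro ⟨h1, h2⟩
    have h1' : (a : ℝ) ≤ b + k := by exact_mod_cast h1
    have h2' : (b : ℝ) ≤ a + k := by exact_mod_cast h2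
    constructor <;> linarith

/-! first example: four-point spaces -/

def D : Fin 3 → Fin 4 → Fin 4 → ℕ :=
  ![![![0, 5, 3, 6], ![5, 0, 5, 6], ![3, 5, 0, 3], ![6, 6, 3, 0]],
    ![![0, 4, 4, 6], ![4, 0, 3, 5], ![4, 3, 0, 4], ![6, 5, 4, 0]],
    ![![0, 5, 5, 3], ![5, 0, 4, 3], ![5, 4, 0, 6], ![3, 3, 6, 0]]]

theorem D_good : ∀ i, Good (D i) := by decide

def P (_ : Fin 3) : Type := Fin 4

noncomputable instance (i : Fin 3) : MetricSpace (P i) := fm (D i) (D_good i)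
instance (i : Fin 3) : Finite (P i) := inferInstanceAs (Finite (Fin 4))
instance (i : Fin 3) : Nonempty (P i) := inferInstanceAs (Nonempty (Fin 4))

def Cl (i j : Fin 3) (a b a' b' : Fin 4) : Prop :=
  D i a b ≤ D j a' b' + 1 ∧ D j a' b' ≤ D i a b + 1

instance (i j : Fin 3) (a b a' b' : Fin 4) : Decidable (Cl i j a b a' b') := by
  unfold Cl; infer_instance

theorem cl_iff (i j : Fin 3) (a b : P i) (a' b' : P j) :
    |dist a b - dist a' b'| ≤ 1 ↔ Cl i j a b a' b' := by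
  have := @abs_cast (D i a b) (D j a' b') 1
  rw [Nat.cast_one] at this
  exact this

theorem ghP (i j : Fin 3) (σ : Fin 4 → Fin 4) (hσ : Function.Surjective σ)
    (h : ∀ a b, Cl i j a b (σ a) (σ b)) : 2 * gh (P i) (P j) ≤ 1 :=
  gh_le_fun (X := P i) (Y := P j) σ hσ zero_le_one fun a b => (cl_iff i j _ _ _ _).2 (h a b)

theorem u1 : ∀ a b c d : Fin 4, Cl 0 1 0 1 a b → Cl 0 1 0 2 a c → Cl 0 1 0 3 a d →
    Cl 0 1 1 2 b c → Cl 0 1 1 3 b d → Cl 0 1 2 3 c d → a = 1 ∧ b = 0 ∧ c = 2 ∧ d = 3 := by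
  decide +kernel

theorem u2 : ∀ a b c d : Fin 4, Cl 0 2 0 1 a b → Cl 0 2 0 2 a c → Cl 0 2 0 3 a d →
    Cl 0 2 1 2 b c → Cl 0 2 1 3 b d → Cl 0 2 2 3 c d → a = 1 ∧ b = 2 ∧ c = 3 ∧ d = 0 := by
  decide +kernel

theorem noR (R : Set (∀ i, P i)) : ¬ ∀ i j, i ≠ j → Optimal (e R i j) := by
  intro h
  have key : ∀ i j, i ≠ j → 2 * gh (P i) (P j) ≤ 1 → ∀ x ∈ R, ∀ y ∈ R,
      Cl i j (x i) (y i) (x j) (y j) := fun i j hij hg x hx y hy =>
    (cl_iff i j _ _ _ _).1 ((le_dis (S := e R i j) (p := (x i, x j)) (q := (y i, y j))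
      ⟨x, hx, rfl⟩ ⟨y, hy, rfl⟩).trans ((h i j hij).2.trans_le hg))
  have k1 := key 0 1 (by decide) (ghP 0 1 ![1, 0, 2, 3] (by decide) (by decide))
  have k2 := key 0 2 (by decide) (ghP 0 2 ![1, 2, 3, 0] (by decide) (by decide))
  have k3 := key 1 2 (by decide) (ghP 1 2 ![0, 3, 1, 2] (by decide) (by decide))
  have hx : ∀ a : Fin 4, ∃ x ∈ R, x 0 = a := fun a => by
    obtain ⟨y, x, hx, hxy⟩ := (h 0 1 (by decide)).1.1 a
    exact ⟨x, hx, congrArg Prod.fst hxy⟩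
  choose x hx hx0 using hx
  have l1 : ∀ a b, Cl 0 1 a b (x a 1) (x b 1) := fun a b => by
    have := k1 _ (hx a) _ (hx b); rwa [hx0, hx0] at this
  have l2 : ∀ a b, Cl 0 2 a b (x a 2) (x b 2) := fun a b => by
    have := k2 _ (hx a) _ (hx b); rwa [hx0, hx0] at this
  obtain ⟨a0, a1, a2, a3⟩ := u1 _ _ _ _ (l1 0 1) (l1 0 2) (l1 0 3) (l1 1 2) (l1 1 3) (l1 2 3)
  obtain ⟨b0, b1, b2, b3⟩ := u2 _ _ _ _ (l2 0 1) (l2 0 2) (l2 0 3) (l2 1 2) (l2 1 3) (l2 2 3)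
  have m1 := k3 _ (hx 0) _ (hx 1)
  have m2 := k3 _ (hx 0) _ (hx 2)
  have m3 := k3 _ (hx 0) _ (hx 3)
  have m4 := k3 _ (hx 1) _ (hx 2)
  have m5 := k3 _ (hx 1) _ (hx 3)
  have m6 := k3 _ (hx 2) _ (hx 3)
  simp only [a0, a1, a2, a3, b0, b1, b2, b3] at m1 m2 m3 m4 m5 m6
  revert m1 m2 m3 m4 m5 m6
  decide

theorem notC : ¬ StC := fun h => by
  obtain ⟨R, hR⟩ := h P
  exact noR R fun i j _ => hR i j

/-! second example: three-point spaces -/

def E : Fin 3 → Fin 3 → Fin 3 → ℕ :=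
  ![![![0, 10, 30], ![10, 0, 20], ![30, 20, 0]],
    ![![0, 8, 28], ![8, 0, 20], ![28, 20, 0]],
    ![![0, 10, 28], ![10, 0, 18], ![28, 18, 0]]]

theorem E_good : ∀ i, Good (E i) := by decide

def W (_ : Fin 3) : Type := Fin 3

noncomputable instance (i : Fin 3) : MetricSpace (W i) := fm (E i) (E_good i)
instance (i : Fin 3) : Finite (W i) := inferInstanceAs (Finite (Fin 3))
instance (i : Fin 3) : Nonempty (W i) := inferInstanceAs (Nonempty (Fin 3))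

def Cm (k : ℕ) (i j : Fin 3) (a b a' b' : Fin 3) : Prop :=
  E i a b ≤ E j a' b' + k ∧ E j a' b' ≤ E i a b + k

instance (k : ℕ) (i j : Fin 3) (a b a' b' : Fin 3) : Decidable (Cm k i j a b a' b') := by
  unfold Cm; infer_instance

theorem cm_iff (k : ℕ) (i j : Fin 3) (a b : W i) (a' b' : W j) :
    |dist a b - dist a' b'| ≤ k ↔ Cm k i j a b a' b' := abs_cast

theorem v1 : ∀ i j a b c : Fin 3, Cm 2 i j 0 1 a b → Cm 2 i j 0 2 a c → Cm 2 i j 1 2 b c →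
    a = 0 ∧ b = 1 ∧ c = 2 := by
  decide +kernel

theorem noZ {Z : Type} [MetricSpace Z] (φ : ∀ i, W i → Z) (hφ : ∀ i, Isometry (φ i)) :
    ¬ ∀ i j, i ≠ j → Metric.hausdorffDist (range (φ i)) (range (φ j)) ≤ 1 := by
  intro h
  have key : ∀ i j, i ≠ j → ∀ a : Fin 3, dist (φ i a) (φ j a) ≤ 1 := by
    intro i j hij
    have h1 : ∀ a : W i, ∃ b : W j, dist (φ i a) (φ j b) ≤ 1 := fun a => by
      obtain ⟨_, ⟨b, rfl⟩, hb⟩ := (finite_range (φ j)).isCompact.exists_infDist_eq_dist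
        (range_nonempty _) (φ i a)
      refine ⟨b, hb ▸ (Metric.infDist_le_hausdorffDist_of_mem (mem_range_self a) ?_).trans
        (h i j hij)⟩
      exact Metric.hausdorffEDist_ne_top_of_nonempty_of_bounded (range_nonempty _)
        (range_nonempty _) (finite_range _).isBounded (finite_range _).isBounded
    choose f hf using h1
    have h2 : ∀ a b, Cm 2 i j a b (f a) (f b) := fun a b => by
      rw [← cm_iff, ← (hφ i).dist_eq, ← (hφ j).dist_eq]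
      have := dist_dist_dist_le (φ i a) (φ i b) (φ j (f a)) (φ j (f b))
      rw [Real.dist_eq] at this
      push_cast; linarith [hf a, hf b]
    obtain ⟨e0, e1, e2⟩ := v1 i j _ _ _ (h2 (0 : Fin 3) (1 : Fin 3)) (h2 (0 : Fin 3) (2 : Fin 3))
      (h2 (1 : Fin 3) (2 : Fin 3))
    intro a
    have : f a = a := by fin_cases a <;> assumption
    have h3 := hf a
    rwa [this] at h3
  have d1 : dist (φ 0 (0 : Fin 3)) (φ 0 (2 : Fin 3)) = 30 := by
    rw [(hφ 0).dist_eq]; exact (rfl : ((30 : ℕ) : ℝ) = _)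
  have d2 : dist (φ 1 (0 : Fin 3)) (φ 1 (1 : Fin 3)) = 8 := by
    rw [(hφ 1).dist_eq]; exact (rfl : ((8 : ℕ) : ℝ) = _)
  have d3 : dist (φ 2 (1 : Fin 3)) (φ 2 (2 : Fin 3)) = 18 := by
    rw [(hφ 2).dist_eq]; exact (rfl : ((18 : ℕ) : ℝ) = _)
  have k1 := key 0 1 (by decide) 0
  have k2 := key 1 2 (by decide) 1
  have k3 := key 2 0 (by decide) 2
  have t1 := dist_triangle4 (φ 0 (0 : Fin 3)) (φ 1 (0 : Fin 3)) (φ 1 (1 : Fin 3)) (φ 2 (1 : Fin 3))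
  have t2 := dist_triangle4 (φ 0 (0 : Fin 3)) (φ 2 (1 : Fin 3)) (φ 2 (2 : Fin 3)) (φ 0 (2 : Fin 3))
  have t3 := dist_triangle (φ 0 (0 : Fin 3)) (φ 2 (1 : Fin 3)) (φ 2 (2 : Fin 3))
  have t4 := dist_triangle (φ 0 (0 : Fin 3)) (φ 2 (2 : Fin 3)) (φ 0 (2 : Fin 3))
  linarith

theorem v2 : ∀ i j a b : Fin 3, Cm 2 i j a b a b := by decide +kernel

theorem ghDistW (i j : Fin 3) : GromovHausdorff.ghDist (W i) (W j) ≤ 1 := by
  have := GromovHausdorff.ghDist_le_of_approx_subsets (X := W i) (Y := W j) (s := univ)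
    (fun a => (a : W i)) (ε₁ := 0) (ε₂ := 2) (ε₃ := 0) (fun x => ⟨x, trivial, by simp⟩)
    (fun y => ⟨⟨y, trivial⟩, (dist_self y).le⟩) fun a b => by
      have := (cm_iff 2 i j a.1 b.1 a.1 b.1).2 (v2 i j _ _)
      exact_mod_cast this
  linarith

theorem ghW (i j : Fin 3) : 2 * gh (W i) (W j) ≤ 2 :=
  gh_le_fun (X := W i) (Y := W j) (fun a => a) (fun a => ⟨a, rfl⟩) zero_le_two fun a b => by
    have := (cm_iff 2 i j a b a b).2 (v2 i j _ _)
    exact_mod_cast this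

theorem notHW : ¬ HTriple W := by
  rintro ⟨Z, _, _, φ, hφ, h⟩
  exact noZ φ hφ fun i j _ => by rw [h]; linarith [ghW i j]

theorem v3 : ∀ i j : Fin 3, i ≠ j → ∀ a b c : Fin 3, Cm 1 i j 0 1 a b → Cm 1 i j 0 2 a c →
    Cm 1 i j 1 2 b c → False := by
  decide +kernel

theorem CW : CTriple W := by
  refine ⟨range fun (a : Fin 3) (i : Fin 3) => (a : W i), fun i j => ?_⟩
  have hc : IsCorr (e (range fun (a : Fin 3) (i : Fin 3) => (a : W i)) i j) :=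
    ⟨fun a => ⟨a, _, ⟨a, rfl⟩, rfl⟩, fun a => ⟨a, _, ⟨a, rfl⟩, rfl⟩⟩
  refine ⟨hc, le_antisymm ?_ (gh_le hc)⟩
  by_cases hij : i = j
  · subst hij
    refine (dis_le le_rfl ?_).trans (le_gh fun S _ => dis_nonneg S)
    rintro _ ⟨_, ⟨a, rfl⟩, rfl⟩ _ ⟨_, ⟨b, rfl⟩, rfl⟩
    simp
  · refine (dis_le zero_le_two ?_).trans (le_gh fun S hS => ?_)
    · rintro _ ⟨_, ⟨a, rfl⟩, rfl⟩ _ ⟨_, ⟨b, rfl⟩, rfl⟩
      have := (cm_iff 2 i j a b a b).2 (v2 i j _ _)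
      exact_mod_cast this
    · by_contra hlt
      push Not at hlt
      choose f hf using hS.1
      have h2 : ∀ a b, Cm 1 i j a b (f a) (f b) := fun a b => by
        have h3 : |((E i a b : ℕ) : ℝ) - (E j (f a) (f b) : ℕ)| < 2 :=
          (le_dis (hf a) (hf b)).trans_lt hlt
        rw [abs_lt] at h3
        have h4 : E i a b < E j (f a) (f b) + 2 := by
          exact_mod_cast (by linarith [h3.2] : ((E i a b : ℕ) : ℝ) < (E j (f a) (f b) : ℕ) + 2)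
        have h5 : E j (f a) (f b) < E i a b + 2 := by
          exact_mod_cast (by linarith [h3.1] : ((E j (f a) (f b) : ℕ) : ℝ) < (E i a b : ℕ) + 2)
        exact ⟨by omega, by omega⟩
      exact v3 i j hij _ _ _ (h2 (0 : Fin 3) (1 : Fin 3)) (h2 (0 : Fin 3) (2 : Fin 3))
        (h2 (1 : Fin 3) (2 : Fin 3))

end Pool.Agent.H84.GHEx
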