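import Pool.Agent.H84.HullC

/-! Under MA: `add(N) = cof(N) = 𝔠` and a monotone Borel hull operation on the null sets. -/

namespace Pool.Agent.H84.MHull

open Set Cardinal MeasureTheory

theorem union_null (hMA : MA) {𝓕 : Set (Set ℝ)} (h : 𝓕 ⊆ Null) (hc : #𝓕 < 𝔠) : ⋃₀ 𝓕 ∈ Null := by
  classical
  by_contra h0
  obtain ⟨m, hm⟩ := ENNReal.exists_inv_nat_lt h0
  set ε := ((m + 1 : ℕ) : ENNReal)⁻¹
  have hε : ε < volume (⋃₀ 𝓕) :=
    (ENNReal.inv_le_inv.2 (by exact_mod_cast Nat.le_succ m)).trans_lt hm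
  let P := {U : (Set ℝ)ᵒᵈ // IsOpen (OrderDual.ofDual U) ∧ volume (OrderDual.ofDual U) < ε}
  have hne : Nonempty P := ⟨⟨OrderDual.toDual ∅, isOpen_empty, by simp [ε]⟩⟩
  have hap : ∀ U : P, ∃ c : ℕ × Finset (ℚ × ℚ), volume (OrderDual.ofDual U.1) + (c.1 : ENNReal)⁻¹ < ε ∧
      (⋃ i ∈ c.2, Ioo (i.1 : ℝ) i.2) ⊆ OrderDual.ofDual U.1 ∧
      volume (OrderDual.ofDual U.1 \ ⋃ i ∈ c.2, Ioo (i.1 : ℝ) i.2) < (c.1 : ENNReal)⁻¹ := by
    rintro ⟨U, h1, h2⟩
    obtain ⟨n, hn⟩ := ENNReal.exists_inv_nat_lt (tsub_pos_of_lt h2).ne'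
    obtain ⟨K, h3, h4, h5⟩ := h1.measurableSet.exists_isCompact_sdiff_lt (μ := volume) h2.ne_top
      (ε := (n : ENNReal)⁻¹) (by simp)
    obtain ⟨t, ht⟩ := h4.elim_finite_subcover
      (fun i : {i : ℚ × ℚ // Ioo (i.1 : ℝ) i.2 ⊆ OrderDual.ofDual U} => Ioo (i.1.1 : ℝ) i.1.2)
      (fun _ => isOpen_Ioo) fun x hx => by
        obtain ⟨a, b, hab, h⟩ := mem_nhds_iff_exists_Ioo_subset.1 (h1.mem_nhds (h3 hx))
        obtain ⟨q, hq, hq'⟩ := exists_rat_btwn hab.1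
        obtain ⟨r, hr, hr'⟩ := exists_rat_btwn hab.2
        exact mem_iUnion.2 ⟨⟨(q, r), (Ioo_subset_Ioo hq.le hr'.le).trans h⟩, hq', hr⟩
    refine ⟨(n, t.image Subtype.val), by rw [add_comm]; exact lt_tsub_iff_right.1 hn, ?_,
      (measure_mono (diff_subset_diff_right ?_)).trans_lt h5⟩ <;>
      simp only [Finset.set_biUnion_finset_image]
    exacts [iUnion₂_subset fun i _ => i.2, ht]
  choose c h1 h2 h3 using hap
  obtain ⟨G, hG, hD⟩ := ma_ix hMA P (fun A hA => by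
      refine countable_of_injective_of_countable_image (f := c) (fun U hU V hV he => ?_)
        (to_countable _)
      by_contra hn
      refine hA hU hV hn ⟨⟨OrderDual.toDual (OrderDual.ofDual U.1 ∪ OrderDual.ofDual V.1),
        U.2.1.union V.2.1, lt_of_le_of_lt ?_ (h1 U)⟩, subset_union_left, subset_union_right⟩
      refine (measure_mono ?_).trans ((measure_union_le _ _).trans
        (add_le_add_right (he ▸ h3 V).le _))
      rintro x (hx | hx)
      · exact Or.inl hx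
      · by_cases hx' : x ∈ ⋃ i ∈ (c U).2, Ioo (i.1 : ℝ) i.2
        exacts [Or.inl (h2 U hx'), Or.inr ⟨hx, he ▸ hx'⟩])
    hc (fun N : 𝓕 => {U | N.1 ⊆ OrderDual.ofDual U.1}) (by
      rintro N ⟨U, h4, h5⟩
      obtain ⟨V, h6, h7, h8⟩ := (OrderDual.ofDual U ∪ N).exists_isOpen_lt_of_lt (μ := volume) ε
        ((measure_union_le _ _).trans_lt (by rwa [h N.2, add_zero]))
      exact ⟨⟨OrderDual.toDual V, h7, h8⟩, subset_union_right.trans h6, subset_union_left.trans h6⟩)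
  have h4 : ⋃₀ 𝓕 ⊆ ⋃ U : G, OrderDual.ofDual U.1.1 := by
    rintro x ⟨N, hN, hx⟩
    obtain ⟨U, hU, h⟩ := hD ⟨N, hN⟩
    exact mem_iUnion.2 ⟨⟨U, hU⟩, h hx⟩
  obtain ⟨K, h5, h6, h7⟩ := (isOpen_iUnion fun U : G => U.1.2.1).exists_lt_isCompact
    (hε.trans_le (measure_mono (μ := volume) h4))
  have : Nonempty G := by
    obtain ⟨x, hx⟩ := nonempty_of_measure_ne_zero h0
    exact (mem_iUnion.1 (h4 hx)).elim fun U _ => ⟨U⟩
  obtain ⟨U, hU⟩ := h6.elim_directed_cover _ (fun U : G => U.1.2.1) h5 fun U V => by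
    obtain ⟨R, hR, h8, h9⟩ := hG _ U.2 _ V.2
    exact ⟨⟨R, hR⟩, h8, h9⟩
  exact (h7.trans_le (measure_mono hU)).not_gt U.1.2.2

theorem card_BN : #{B : Set ℝ | MeasurableSet B ∧ volume B = 0} ≤ 𝔠 := by
  refine le_trans (mk_le_mk_of_subset fun B hB => ?_)
    (MeasurableSpace.cardinal_measurableSet_le_continuum
      (s := ⋃ (a : ℚ) (b : ℚ) (_ : a < b), {Ioo (a : ℝ) (b : ℝ)})
      ((le_aleph0_iff_set_countable.2 (countable_iUnion fun _ => countable_iUnion fun _ =>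
        countable_iUnion fun _ => countable_singleton _)).trans aleph0_le_continuum))
  rw [← Real.borel_eq_generateFrom_Ioo_rat]
  exact hB.1

theorem univ_not : Set.univ ∉ Null := by simp [Null]

theorem add_cof (hMA : MA) : addN = 𝔠 ∧ cofN = 𝔠 := by
  have hcof : ∀ M ∈ Null, ∃ B ∈ {B : Set ℝ | MeasurableSet B ∧ volume B = 0}, M ⊆ B :=
    fun M hM => ⟨toMeasurable volume M, ⟨measurableSet_toMeasurable _ _,
      (measure_toMeasurable M).trans hM⟩, subset_toMeasurable _ _⟩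
  have h1 : (𝔠 : Cardinal.{0}) ∈ {κ | ∃ 𝓕 ⊆ Null, ⋃₀ 𝓕 ∉ Null ∧ Cardinal.mk 𝓕 = κ} :=
    ⟨range singleton, by rintro _ ⟨x, rfl⟩; exact Real.volume_singleton, by
      rw [sUnion_range, iUnion_singleton_eq_range, range_id']; exact univ_not,
      by rw [mk_range_eq _ singleton_injective, mk_real]⟩
  have h0 : #{B : Set ℝ | MeasurableSet B ∧ volume B = 0} ∈
      {κ | ∃ 𝓑 ⊆ Null, (∀ M ∈ Null, ∃ B ∈ 𝓑, M ⊆ B) ∧ Cardinal.mk 𝓑 = κ} :=
    ⟨_, fun B hB => hB.2, hcof, rfl⟩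
  refine ⟨le_antisymm (csInf_le' h1) (le_csInf ⟨_, h1⟩ ?_), le_antisymm
    ((csInf_le' h0).trans card_BN) (le_csInf ⟨_, h0⟩ ?_)⟩
  · rintro _ ⟨𝓕, h2, h3, rfl⟩
    exact not_lt.1 fun h => h3 (union_null hMA h2 h)
  · rintro _ ⟨𝓑, h2, h3, rfl⟩
    refine not_lt.1 fun h => univ_not (measure_mono_null (fun x _ => ?_) (union_null hMA h2 h))
    obtain ⟨B, hB, h4⟩ := h3 {x} Real.volume_singleton
    exact ⟨B, hB, h4 rfl⟩

theorem null_hull (hMA : MA) : ∃ ψ, MonoHull Null ψ := by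
  classical
  let T := (𝔠 : Cardinal.{0}).ord.ToType
  let 𝓑 := {B : Set ℝ | MeasurableSet B ∧ volume B = 0}
  have : Nonempty 𝓑 := ⟨⟨∅, by simp [𝓑]⟩⟩
  obtain ⟨e⟩ : Nonempty (𝓑 ↪ T) := (Cardinal.le_def _ _).1 (by simpa [T] using card_BN)
  have hg := Function.invFun_surjective e.injective
  obtain ⟨f, hf⟩ := wf_rec (fun (α : T) (f : T → Set ℝ) a => MeasurableSet a ∧ volume a = 0 ∧
      (Function.invFun e α).1 ⊆ a ∧ ∀ β < α, volume (f β) = 0 → f β ⊆ a) (by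
    rintro α f f' a h ⟨h1, h2, h3, h4⟩
    exact ⟨h1, h2, h3, fun β hβ => h β hβ ▸ h4 β hβ⟩) (by
    intro α f
    have h1 := union_null hMA (𝓕 := f '' {β | β < α ∧ volume (f β) = 0})
      (by rintro _ ⟨β, h, rfl⟩; exact h.2) (mk_image_le.trans_lt
        ((mk_le_mk_of_subset fun β h => h.1).trans_lt (mk_Iio_toType_ord_lt α)))
    refine ⟨toMeasurable volume (_ ∪ _), measurableSet_toMeasurable _ _,
      (measure_toMeasurable _).trans (measure_union_null (Function.invFun e α).2.2 h1),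
      subset_union_left.trans (subset_toMeasurable _ _), fun β h2 h3 =>
        ((subset_sUnion_of_mem (mem_image_of_mem f (show β ∈ {β | β < α ∧ volume (f β) = 0} from
          ⟨h2, h3⟩))).trans subset_union_right).trans
          (subset_toMeasurable _ _)⟩)
  have hne : ∀ M ∈ Null, {α | M ⊆ f α}.Nonempty := fun M hM => by
    obtain ⟨α, hα⟩ := hg ⟨toMeasurable volume M, measurableSet_toMeasurable _ _,
      (measure_toMeasurable M).trans hM⟩
    exact ⟨α, (subset_toMeasurable volume M).trans (by simpa [hα] using (hf α).2.2.1)⟩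
  refine ⟨fun M => if h : M ∈ Null then f (wellFounded_lt.min _ (hne M h)) else ∅,
    fun M hM => ?_, fun M hM M' hM' h => ?_⟩
  · simp only [dif_pos hM]
    exact ⟨(hf _).1, wellFounded_lt.min_mem _ (hne M hM), measure_mono_null diff_subset (hf _).2.1⟩
  · simp only [dif_pos hM, dif_pos hM']
    have h1 : wellFounded_lt.min _ (hne M' hM') ∈ {α | M ⊆ f α} :=
      h.trans (wellFounded_lt.min_mem _ (hne M' hM'))
    rcases (not_lt.1 (wellFounded_lt.not_lt_min _ h1) : wellFounded_lt.min _ (hne M hM) ≤ _).eq_or_lt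
      with h' | h'
    · rw [h']
    · exact (hf _).2.2.2 _ h' (hf _).2.1

end Pool.Agent.H84.MHull
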