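import Pool.Agent.H84.GHullDefs
import Pool.Agent.H84.HullD

/-! Monotone `G_δ` hulls: existence under CH, non-existence under WFN and `non(N) > ℵ₁`. -/

namespace Pool.Agent.H84.GHull

open Set Cardinal MeasureTheory Pool.Agent.H84.MHull

theorem exists_gd (A : Set ℝ) (h : volume A ≠ ⊤) : ∃ V, IsGδ V ∧ A ⊆ V ∧ volume V = volume A := by
  have : ∀ n : ℕ, ∃ U, A ⊆ U ∧ IsOpen U ∧ volume U < volume A + (n : ENNReal)⁻¹ := fun n =>
    A.exists_isOpen_lt_add h (by simp)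
  choose U h1 h2 h3 using this
  refine ⟨⋂ n, U n, IsGδ.iInter fun n => (h2 n).isGδ, subset_iInter h1, le_antisymm
    (ENNReal.le_of_forall_pos_le_add fun ε hε _ => ?_) (measure_mono (subset_iInter h1))⟩
  obtain ⟨n, hn⟩ := ENNReal.exists_inv_nat_lt (a := ε) (by simpa using hε.ne')
  exact ((measure_mono (iInter_subset U n)).trans (h3 n).le).trans (add_le_add_right hn.le _)

theorem ch_hull (hCH : (𝔠 : Cardinal.{0}) = ℵ₁) : ∃ φ, GHull {D | D ⊆ Icc 0 1} φ := by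
  classical
  let 𝓑 := {B : Set ℝ | IsGδ B}
  have : Nonempty 𝓑 := ⟨⟨∅, IsGδ.empty⟩⟩
  have hc : #𝓑 ≤ 𝔠 := by
    refine le_trans (mk_le_mk_of_subset fun B hB => ?_)
      (MeasurableSpace.cardinal_measurableSet_le_continuum
        (s := ⋃ (a : ℚ) (b : ℚ) (_ : a < b), {Ioo (a : ℝ) (b : ℝ)})
        ((le_aleph0_iff_set_countable.2 (countable_iUnion fun _ => countable_iUnion fun _ =>
          countable_iUnion fun _ => countable_singleton _)).trans aleph0_le_continuum))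
    rw [← Real.borel_eq_generateFrom_Ioo_rat]
    exact IsGδ.measurableSet hB
  obtain ⟨e⟩ : Nonempty (𝓑 ↪ W) := (Cardinal.le_def _ _).1 (by rwa [W_card, ← hCH])
  have hg := Function.invFun_surjective e.injective
  set V : W → 𝓑 := Function.invFun e
  obtain ⟨N, hN⟩ := wf_rec (fun (α : W) (f : W → Set ℝ) a => IsGδ a ∧ volume a = 0 ∧
      ∀ β < α, (volume (f β) = 0 → f β ⊆ a) ∧
        (volume ((V β).1 \ V α) = 0 → (V β).1 \ V α ⊆ a)) (by
    rintro α f f' a h ⟨h1, h2, h4⟩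
    exact ⟨h1, h2, fun β hβ => h β hβ ▸ h4 β hβ⟩) (by
    intro α f
    have h0 := (W_Iic α).mono Iio_subset_Iic_self
    have h1 : volume ((⋃ β ∈ {β | β < α ∧ volume (f β) = 0}, f β) ∪
        ⋃ β ∈ {β | β < α ∧ volume ((V β).1 \ V α) = 0}, (V β).1 \ V α) = 0 := measure_union_null
      ((measure_biUnion_null_iff (h0.mono fun _ h => h.1)).2 fun _ h => h.2)
      ((measure_biUnion_null_iff (h0.mono fun _ h => h.1)).2 fun _ h => h.2)
    obtain ⟨a, h2, h3, h4⟩ := exists_gd _ (h1 ▸ ENNReal.zero_ne_top)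
    exact ⟨a, h2, h4.trans h1, fun β hβ => ⟨fun h x hx => h3 (Or.inl (mem_biUnion ⟨hβ, h⟩ hx)),
      fun h x hx => h3 (Or.inr (mem_biUnion ⟨hβ, h⟩ hx))⟩⟩)
  refine ⟨fun D => Icc 0 1 ∩ ⋂ α ∈ {α | D ⊆ V α ∪ N α}, (V α).1 ∪ N α, fun D hD => ?_,
    fun D _ D' _ h => inter_subset_inter_right _ (biInter_subset_biInter_left
      fun α hα => h.trans hα)⟩
  have hfin : volume D ≠ ⊤ := ((measure_mono hD).trans_lt measure_Icc_lt_top).ne
  obtain ⟨U, h1, h2, h3⟩ := exists_gd D hfin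
  obtain ⟨γ, hγ⟩ := hg ⟨U, h1⟩
  have hU : (V γ).1 = U := congrArg Subtype.val hγ
  have h4 : D ⊆ V γ ∪ N γ := by rw [hU]; exact h2.trans subset_union_left
  have h5 : D ⊆ Icc 0 1 ∩ ⋂ α ∈ {α | D ⊆ V α ∪ N α}, (V α).1 ∪ N α :=
    subset_inter hD (subset_iInter₂ fun α hα => hα)
  refine ⟨isClosed_Icc.isGδ.inter ?_, inter_subset_left, h5, le_antisymm ?_ (measure_mono h5)⟩
  · have : ⋂ α ∈ {α | D ⊆ V α ∪ N α}, (V α).1 ∪ N α =
        ⋂ α ∈ {α | D ⊆ V α ∪ N α} ∩ Iic γ, (V α).1 ∪ N α := by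
      refine (biInter_subset_biInter_left inter_subset_left).antisymm fun x hx =>
        mem_iInter₂.2 fun α hα => ?_
      rcases le_or_gt α γ with h | h
      · exact mem_iInter₂.1 hx α ⟨hα, h⟩
      have hm : MeasurableSet ((V α).1 ∪ N α) :=
        (IsGδ.measurableSet (V α).2).union (hN α).1.measurableSet
      have h6 : volume (U \ ((V α).1 ∪ N α)) = 0 := by
        have h7 := measure_inter_add_diff (μ := volume) U hm
        have h8 : volume D ≤ volume (U ∩ ((V α).1 ∪ N α)) := measure_mono (subset_inter h2 hα)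
        rw [h3] at h7
        refine le_zero_iff.1 ((ENNReal.add_le_add_iff_left hfin).1 ?_)
        rw [add_zero]
        exact (add_le_add_left h8 _).trans h7.le
      have h9 : volume ((V γ).1 \ V α) = 0 := by
        rw [hU]
        refine measure_mono_null (fun y hy => ?_) (measure_union_null h6 (hN α).2.1)
        by_cases hy' : y ∈ N α
        exacts [Or.inr hy', Or.inl ⟨hy.1, fun h => h.elim hy.2 hy'⟩]
      rcases mem_iInter₂.1 hx γ ⟨h4, mem_Iic.2 le_rfl⟩ with h' | h'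
      · by_cases hx' : x ∈ (V α).1
        exacts [Or.inl hx', Or.inr (((hN α).2.2 γ h).2 h9 ⟨h', hx'⟩)]
      · exact Or.inr (((hN α).2.2 γ h).1 (hN γ).2.1 h')
    rw [this]
    exact IsGδ.biInter ((W_Iic γ).mono inter_subset_right) fun α _ =>
      IsGδ.union (V α).2 (hN α).1
  · refine (measure_mono (inter_subset_right.trans (biInter_subset_of_mem h4))).trans
      ((measure_union_le _ _).trans ?_)
    rw [hU, h3, (hN γ).2.1, add_zero]

theorem no_ghull (hw : WFN) (hn : ∀ X : Set ℝ, #X ≤ ℵ₁ → volume X = 0) :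
    ¬ ∃ φ, GHull FSigma φ := by
  classical
  rintro ⟨φ, h1, h2⟩
  obtain ⟨f, hf, hf'⟩ := hw
  obtain ⟨e, he⟩ := exists_surjective_nat (ℚ × ℚ)
  let I : ℕ → Set ℝ := fun i => Ioo ((e i).1 : ℝ) (e i).2
  have hc : ∀ A : Set ℝ, A.Countable → A ⊆ Icc 0 1 → A ∈ FSigma := by
    intro A hA hA'
    rcases A.eq_empty_or_nonempty with rfl | hne
    · exact ⟨hA', fun _ => ∅, fun _ => isClosed_empty, by simp⟩
    · obtain ⟨g, rfl⟩ := hA.exists_eq_range hne
      exact ⟨hA', fun n => {g n}, fun _ => isClosed_singleton, (iUnion_singleton_eq_range g).symm⟩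
  have hU : ∀ A : Set ℝ, ∃ U : ℕ → Set ℝ, A ∈ FSigma → (∀ n, IsOpen (U n)) ∧ φ A = ⋂ n, U n := by
    intro A
    by_cases h : A ∈ FSigma
    · exact (h1 A h).1.eq_iInter_nat.imp fun U hU _ => hU
    · exact ⟨fun _ => ∅, fun h' => absurd h' h⟩
  have hp : ∀ c : Set ℕ, ∃ a ∈ Icc (0 : ℝ) 1, (∃ x ∈ Icc (0 : ℝ) 1, ∀ i ∈ c, x ∉ I i) →
      ∀ i ∈ c, a ∉ I i := by
    intro c
    by_cases h : ∃ x ∈ Icc (0 : ℝ) 1, ∀ i ∈ c, x ∉ I i
    · exact h.imp fun a ha => ⟨ha.1, fun _ => ha.2⟩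
    · exact ⟨0, by simp, fun h' => absurd h' h⟩
  choose U hU using hU
  choose pt hpt hpt' using hp
  obtain ⟨A, hA⟩ := wf_rec (fun (ξ : W) (F : W → Set ℝ) a => a.Countable ∧ a ⊆ Icc 0 1 ∧
      ∀ η < ξ, ∀ n, ∀ c ∈ f {i | I i ⊆ U (F η) n}, pt c ∈ a) (by
    rintro α F F' a h ⟨h3, h4, h5⟩
    exact ⟨h3, h4, fun β hβ => h β hβ ▸ h5 β hβ⟩) fun ξ F =>
    ⟨pt '' ⋃ η ∈ Iio ξ, ⋃ n, f {i | I i ⊆ U (F η) n}, (((W_Iic ξ).mono Iio_subset_Iic_self).biUnion
      fun η _ => countable_iUnion fun n => hf _).image _, by rintro _ ⟨c, -, rfl⟩; exact hpt c,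
      fun η hη n c hc => ⟨c, mem_biUnion hη (mem_iUnion.2 ⟨n, hc⟩), rfl⟩⟩
  have hAF := fun ξ => hc _ (hA ξ).1 (hA ξ).2.1
  have h3 : volume (⋃ ξ, A ξ) = 0 := hn _ ((mk_iUnion_le _).trans ((mul_le_mul' W_card.le
    (ciSup_le fun ξ => (le_aleph0_iff_set_countable.2 (hA ξ).1).trans (aleph0_le_aleph 1))).trans
      (mul_eq_self (aleph0_le_aleph 1)).le))
  obtain ⟨O, h4, h5, h6⟩ := (⋃ ξ, A ξ).exists_isOpen_lt_of_lt (μ := volume) 1 (by simp [h3])
  have hO : O ∩ Icc 0 1 ∈ FSigma := by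
    obtain ⟨C, h7, -, h8, -⟩ := h5.exists_iUnion_isClosed
    exact ⟨inter_subset_right, fun n => C n ∩ Icc 0 1, fun n => (h7 n).inter isClosed_Icc,
      by rw [← iUnion_inter, h8]⟩
  have h7 : Icc 0 1 ⊆ φ (O ∩ Icc 0 1) := by
    intro x hx
    let S := {c | c ∈ f {i | x ∉ I i} ∧ ∃ η n, c ∈ f {i | I i ⊆ U (A η) n}}
    have : Countable S := ((hf _).mono fun c h => h.1).to_subtype
    choose η n hη using fun c : S => c.2.2
    obtain ⟨γ, hγ⟩ := W_bdd (countable_range η)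
    refine h2 _ (hAF γ) _ hO (subset_inter ((subset_iUnion A γ).trans h4) (hA γ).2.1) ?_
    obtain ⟨h8, h9⟩ := hU _ (hAF γ)
    rw [h9, mem_iInter]
    intro m
    by_contra hm
    obtain ⟨c, hc, h10, h11⟩ := hf' {i | I i ⊆ U (A γ) m} {i | x ∉ I i} fun i hi h => hm (hi h)
    have h12 := (hA γ).2.2 _ (hγ _ ⟨⟨c, hc.2, γ, m, hc.1⟩, rfl⟩) _ c (hη _)
    have h13 : pt c ∈ U (A γ) m := mem_iInter.1 (h9 ▸ (h1 _ (hAF γ)).2.2.1 h12) m
    obtain ⟨a, b, hab, h⟩ := mem_nhds_iff_exists_Ioo_subset.1 ((h8 m).mem_nhds h13)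
    obtain ⟨q, hq, hq'⟩ := exists_rat_btwn hab.1
    obtain ⟨r, hr, hr'⟩ := exists_rat_btwn hab.2
    obtain ⟨i, hi⟩ := he (q, r)
    refine hpt' c ⟨x, hx, fun i hi => h11 hi⟩ i (h10 ?_) ?_ <;> simp only [I, hi, mem_setOf_eq]
    exacts [(Ioo_subset_Ioo hq.le hr'.le).trans h, ⟨hq', hr⟩]
  have := (measure_mono (μ := volume) h7).trans_lt
    ((h1 _ hO).2.2.2.trans_lt ((measure_mono inter_subset_left).trans_lt h6))
  simp at this

end Pool.Agent.H84.GHull
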