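import Mathlib

/-! Monotone `G_δ` hull operations on classes of subsets of `[0,1]`. -/

namespace Pool.Agent.H84.GHull

open Set MeasureTheory

/-- `φ` is a monotone `G_δ` hull operation on the class `𝓓` (`volume` of an arbitrary set is its
Lebesgue outer measure). -/
def GHull (𝓓 : Set (Set ℝ)) (φ : Set ℝ → Set ℝ) : Prop :=
  (∀ D ∈ 𝓓, IsGδ (φ D) ∧ φ D ⊆ Icc 0 1 ∧ D ⊆ φ D ∧ volume (φ D) = volume D) ∧
    ∀ D ∈ 𝓓, ∀ D' ∈ 𝓓, D ⊆ D' → φ D ⊆ φ D'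

/-- The `F_σ` subsets of `[0,1]`. -/
def FSigma : Set (Set ℝ) :=
  {D | D ⊆ Icc 0 1 ∧ ∃ C : ℕ → Set ℝ, (∀ n, IsClosed (C n)) ∧ D = ⋃ n, C n}

/-- The weak Freese-Nation property of `P(ω)`. -/
def WFN : Prop :=
  ∃ f : Set ℕ → Set (Set ℕ), (∀ a, (f a).Countable) ∧
    ∀ a b, a ⊆ b → ∃ c ∈ f a ∩ f b, a ⊆ c ∧ c ⊆ b

end Pool.Agent.H84.GHull
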