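import Pool.Agent.H84.GamDefs

/-! Closed subsets of the Cantor space have subsets of every smaller Hausdorff dimension. -/

namespace Pool.Agent.H84.Gam

open Set Filter Topology PiNat MeasureTheory OuterMeasure Metric Function
open scoped ENNReal NNReal

noncomputable local instance : MetricSpace (ℕ → Bool) := PiNat.metricSpace

theorem diam_cyl (x : ℕ → Bool) (n : ℕ) : ediam (cylinder x n) ≤ 2⁻¹ ^ n :=
  ediam_le fun y a z b => by
    have : dist y z ≤ (1 / 2) ^ n := mem_cylinder_iff_dist_le.1 fun i r => (a i r).trans (b i r).symm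
    rw [edist_dist]
    refine (ENNReal.ofReal_le_ofReal this).trans_eq ?_
    rw [ENNReal.ofReal_pow (by norm_num), one_div, ENNReal.ofReal_inv_of_pos (by norm_num)]
    simp

theorem far {x y : ℕ → Bool} {n : ℕ} (h : x n ≠ y n) : 2⁻¹ ^ n ≤ edist x y := by
  have : (1 / 2) ^ n ≤ dist x y := not_lt.1 fun r => h (apply_eq_of_dist_lt r le_rfl)
  rw [edist_dist]
  refine le_of_eq_of_le ?_ (ENNReal.ofReal_le_ofReal this)
  rw [ENNReal.ofReal_pow (by norm_num), one_div, ENNReal.ofReal_inv_of_pos (by norm_num)]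
  simp

/-- Flip one coordinate. -/
def fl (x : ℕ → Bool) (n : ℕ) : ℕ → Bool := update x n (!x n)

theorem cyl_split (E : Set (ℕ → Bool)) (x : ℕ → Bool) (n : ℕ) :
    E ∩ cylinder x n ⊆ E ∩ cylinder x (n + 1) ∪ E ∩ cylinder (fl x n) (n + 1) := fun y ⟨a, b⟩ => by
  by_cases h : y n = x n
  · exact Or.inl ⟨a, mem_cylinder_iff.2 fun i r => (Nat.lt_succ_iff_lt_or_eq.1 r).elim
      (mem_cylinder_iff.1 b i) fun e => e ▸ h⟩
  · refine Or.inr ⟨a, mem_cylinder_iff.2 fun i r => (Nat.lt_succ_iff_lt_or_eq.1 r).elim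
      (fun s => ?_) fun e => ?_⟩
    · rw [fl, update_of_ne s.ne]; exact mem_cylinder_iff.1 b i s
    · subst e; rw [fl, update_self]; revert h; cases y i <;> cases x i <;> simp

theorem fl_sub (x : ℕ → Bool) (n : ℕ) : cylinder (fl x n) (n + 1) ⊆ cylinder x n := fun y a =>
  mem_cylinder_iff.2 fun i r => (mem_cylinder_iff.1 a i (by omega)).trans (update_of_ne r.ne _ _)

theorem fl_ne {x y z : ℕ → Bool} {n : ℕ} (a : y ∈ cylinder x (n + 1))
    (b : z ∈ cylinder (fl x n) (n + 1)) : y n ≠ z n := by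
  rw [mem_cylinder_iff.1 a n (by omega), mem_cylinder_iff.1 b n (by omega), fl, update_self]
  cases x n <;> simp

variable {δ : ℝ≥0} (hδ : 0 < δ)

/-- Hausdorff content computed with open covers. -/
noncomputable def ct : OuterMeasure (ℕ → Bool) :=
  OuterMeasure.ofFunction (fun A => ⨅ _ : IsOpen A, ediam A ^ (δ : ℝ)) (by simp [hδ])

theorem ct_le (A : Set (ℕ → Bool)) : ct hδ A ≤ ediam A ^ (δ : ℝ) := by
  have : Tendsto (fun ε : ℝ≥0 => (ediam A + 2 * ε) ^ (δ : ℝ)) (𝓝[>] 0) (𝓝 (ediam A ^ (δ : ℝ))) := by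
    have : Continuous fun ε : ℝ≥0 => (ediam A + 2 * ε) ^ (δ : ℝ) :=
      ENNReal.continuous_rpow_const.comp (continuous_const.add
        ((ENNReal.continuous_const_mul (by simp)).comp ENNReal.continuous_coe))
    simpa using (this.tendsto 0).mono_left nhdsWithin_le_nhds
  refine ge_of_tendsto this (eventually_nhdsWithin_of_forall fun ε r => ?_)
  exact (measure_mono (self_subset_thickening (by exact_mod_cast r) A)).trans
    ((ofFunction_le _).trans ((iInf_le _ isOpen_thickening).trans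
      (ENNReal.rpow_le_rpow (ediam_thickening_le ε) δ.2)))

theorem ct_cyl (E : Set (ℕ → Bool)) (x : ℕ → Bool) (n : ℕ) :
    ct hδ (E ∩ cylinder x n) ≤ (2⁻¹ ^ n) ^ (δ : ℝ) :=
  (ct_le hδ _).trans (ENNReal.rpow_le_rpow ((ediam_mono inter_subset_right).trans (diam_cyl x n)) δ.2)

theorem cover {E : Set (ℕ → Bool)} {a : ℝ≥0∞} (h : ct hδ E < a) : ∃ A : ℕ → Set (ℕ → Bool),
    E ⊆ ⋃ i, A i ∧ (∀ i, IsOpen (A i)) ∧ ∑' i, ediam (A i) ^ (δ : ℝ) < a := by
  simp only [ct, ofFunction_apply, iInf_lt_iff] at h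
  obtain ⟨A, h1, h2⟩ := h
  have o : ∀ i, IsOpen (A i) := fun i => by_contra fun r =>
    not_top_lt ((le_of_eq_of_le (by simp [r]) (ENNReal.le_tsum i)).trans_lt h2)
  exact ⟨A, h1, o, by simpa [o] using h2⟩

theorem ct_min (E : Set (ℕ → Bool)) (x : ℕ → Bool) (n : ℕ) :
    min ((2⁻¹ ^ n) ^ (δ : ℝ)) (ct hδ (E ∩ cylinder x (n + 1)) +
      ct hδ (E ∩ cylinder (fl x n) (n + 1))) ≤ ct hδ (E ∩ cylinder x n) := by
  by_contra! h
  obtain ⟨A, h1, -, h2⟩ := cover hδ h
  refine (lt_min_iff.1 h2).2.not_ge ?_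
  have s : ∀ U ⊆ cylinder x n, ct hδ (E ∩ U) ≤ ∑' i, ct hδ (A i ∩ U) := fun U r =>
    (measure_mono fun y a => by simpa [a.2] using h1 ⟨a.1, r a.2⟩).trans (measure_iUnion_le _)
  refine (add_le_add (s _ (cylinder_anti x n.le_succ)) (s _ (fl_sub x n))).trans ?_
  rw [← ENNReal.tsum_add]
  refine ENNReal.tsum_le_tsum fun i => ?_
  have m : ∀ U, ct hδ (A i ∩ U) ≤ ediam (A i) ^ (δ : ℝ) := fun U =>
    (measure_mono inter_subset_left).trans (ct_le hδ _)
  rcases (A i ∩ cylinder x (n + 1)).eq_empty_or_nonempty with e | ⟨y, a⟩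
  · simpa [e] using m _
  rcases (A i ∩ cylinder (fl x n) (n + 1)).eq_empty_or_nonempty with e | ⟨z, b⟩
  · simpa [e] using m _
  exact absurd (((ENNReal.rpow_le_rpow ((far (fl_ne a.2 b.2)).trans (edist_le_ediam_of_mem a.1 b.1))
    δ.2).trans (ENNReal.le_tsum i)).trans_lt (lt_min_iff.1 h2).1) (lt_irrefl _)

theorem hle {E : Set (ℕ → Bool)} (h : ∀ x n, ct hδ (E ∩ cylinder x (n + 1)) +
    ct hδ (E ∩ cylinder (fl x n) (n + 1)) ≤ ct hδ (E ∩ cylinder x n)) :
    mkMetric (fun r => r ^ (δ : ℝ)) E ≤ ct hδ E := by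
  simp only [mkMetric, mkMetric', iSup_apply, iSup_le_iff]
  intro r hr
  obtain ⟨N, hN⟩ := ENNReal.exists_inv_two_pow_lt hr.ne'
  have : ∀ k j x, N ≤ j + k → mkMetric'.pre (fun s => ediam s ^ (δ : ℝ)) r (E ∩ cylinder x j) ≤
      ct hδ (E ∩ cylinder x j) := fun k => by
    induction k with
    | zero =>
      intro j x s
      have : OuterMeasure.restrict (cylinder x j) (mkMetric'.pre (fun s => ediam s ^ (δ : ℝ)) r) ≤ ct hδ :=
        le_ofFunction.2 fun A => le_iInf fun _ => (OuterMeasure.restrict_apply _ _ _).trans_le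
          ((mkMetric'.pre_le ((ediam_mono inter_subset_right).trans ((diam_cyl x j).trans
            ((pow_le_pow_right_of_le_one' (by simp) s).trans hN.le)))).trans
              (ENNReal.rpow_le_rpow (ediam_mono inter_subset_left) δ.2))
      simpa [inter_assoc] using this (E ∩ cylinder x j)
    | succ k ih =>
      exact fun j x s => ((measure_mono (cyl_split E x j)).trans (measure_union_le _ _)).trans
        ((add_le_add (ih _ _ (by omega)) (ih _ _ (by omega))).trans (h x j))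
  simpa using this N 0 (fun _ => false) (by simp)

theorem minimal {K : Set (ℕ → Bool)} (hK : IsClosed K) (h0 : ct hδ K ≠ 0) :
    ∃ E ⊆ K, ct hδ E ≠ 0 ∧ ∀ x n, ct hδ (E ∩ cylinder x (n + 1)) +
      ct hδ (E ∩ cylinder (fl x n) (n + 1)) ≤ ct hδ (E ∩ cylinder x n) := by
  obtain ⟨E, hE, ⟨c1, c2⟩, mn⟩ := zorn_superset_nonempty {E | IsClosed E ∧ ct hδ K ≤ ct hδ E}
    (fun c hc ch ne => ⟨⋂₀ c, ⟨isClosed_sInter fun E r => (hc r).1, not_lt.1 fun r => by
      obtain ⟨A, h1, o, h2⟩ := cover hδ r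
      have := ne.to_subtype
      obtain ⟨E, e⟩ := exists_subset_nhds_of_isCompact' (V := fun E : c => E.1)
        (fun p q => (ch.total p.2 q.2).elim (fun r => ⟨p, Subset.rfl, r⟩) fun r => ⟨q, r, Subset.rfl⟩)
        (fun E => (hc E.2).1.isCompact) (fun E => (hc E.2).1) (U := ⋃ i, A i) fun y s =>
          (isOpen_iUnion o).mem_nhds (h1 (sInter_eq_iInter (s := c) ▸ s))
      exact ((hc E.2).2.trans ((measure_mono e).trans ((measure_iUnion_le _).trans
        (ENNReal.tsum_le_tsum fun i => ct_le hδ _)))).not_gt (h2.trans_le' le_rfl)⟩,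
      fun _ => sInter_subset_of_mem⟩) K ⟨hK, le_rfl⟩
  refine ⟨E, hE, fun r => h0 (le_zero_iff.1 (r ▸ c2)), fun x n => not_lt.1 fun h => ?_⟩
  have h1 := ((min_le_iff.1 (ct_min hδ E x n)).resolve_right h.not_ge).trans_lt h
  obtain ⟨z, hz⟩ : (E ∩ cylinder x n).Nonempty := nonempty_iff_ne_empty.2 fun e => by
    have := (min_le_iff.1 (ct_min hδ E x n)).resolve_right h.not_ge
    simp [e, hδ] at this
  have t : Tendsto (fun N : ℕ => ((2⁻¹ : ℝ≥0∞) ^ N) ^ (δ : ℝ)) atTop (𝓝 0) := by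
    simpa [hδ, Function.comp_def] using (ENNReal.continuous_rpow_const (y := δ)).continuousAt.tendsto.comp
      (ENNReal.tendsto_pow_atTop_nhds_zero_of_lt_one (r := 2⁻¹) (by simp))
  obtain ⟨N, hN, hn⟩ := (((((t.add t).const_add ((2⁻¹ ^ n) ^ (δ : ℝ))).eventually_lt_const
    (by simpa using h1))).and (eventually_ge_atTop n)).exists
  set D := cylinder z N
  have d : ∀ U, ct hδ (E ∩ U) ≤ ct hδ ((E \ D) ∩ U) + (2⁻¹ ^ N) ^ (δ : ℝ) := fun U =>
    (measure_mono fun y a => (em (y ∈ D)).elim (fun r => Or.inr ⟨a.1, r⟩) fun r =>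
      Or.inl ⟨⟨a.1, r⟩, a.2⟩).trans ((measure_union_le _ (E ∩ D)).trans
        (add_le_add le_rfl (ct_cyl hδ E z N)))
  have fin : (2⁻¹ ^ N : ℝ≥0∞) ^ (δ : ℝ) ≠ ∞ :=
    ENNReal.rpow_ne_top_of_nonneg δ.2 (ENNReal.pow_ne_top (by simp))
  have key : ∀ k j, j + k = n → ct hδ (E ∩ cylinder x j) ≤ ct hδ ((E \ D) ∩ cylinder x j) :=
    fun k => by
    induction k with
    | zero =>
      rintro j rfl
      refine (ct_cyl hδ E x _).trans ((le_min le_rfl ?_).trans (ct_min hδ _ x _))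
      have := hN.trans_le (add_le_add (d _) (d _))
      rw [add_add_add_comm] at this
      exact ((ENNReal.add_lt_add_iff_right (by simp [fin])).1 this).le
    | succ k ih =>
      intro j s
      refine (le_min (ct_cyl hδ E x _) ?_).trans (ct_min hδ _ x _)
      refine ((measure_mono (cyl_split E x j)).trans (measure_union_le _ _)).trans
        (add_le_add (ih _ (by omega)) (measure_mono fun y a => ⟨⟨a.1, fun r => ?_⟩, a.2⟩))
      exact fl_ne (x := x) (mem_cylinder_iff.2 fun i u => (mem_cylinder_iff.1 r i (by omega)).trans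
        (mem_cylinder_iff.1 hz.2 i (by omega))) a.2 rfl
  have := mn (y := E \ D) ⟨c1.sdiff (isOpen_cylinder _ z N), c2.trans (by simpa using key n 0)⟩
    sdiff_subset hz.1
  exact this.2 (self_mem_cylinder z N)

theorem exact {K : Set (ℕ → Bool)} (hK : IsClosed K) {d : ℝ≥0∞} (h0 : 0 < d) (h : d ≤ dimH K) :
    ∃ E ⊆ K, dimH E = d := by
  rcases h.eq_or_lt with e | h
  · exact ⟨K, Subset.rfl, e.symm⟩
  lift d to ℝ≥0 using h.ne_top
  have hδ : 0 < d := by exact_mod_cast h0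
  borelize (ℕ → Bool)
  have e : ∀ E : Set (ℕ → Bool), μH[d] E = mkMetric (fun r => r ^ (d : ℝ)) E := fun E => by
    rw [coe_mkMetric]; rfl
  obtain ⟨E, a, b, c⟩ := minimal hδ hK fun r => by
    have z : ∀ U, ct hδ (K ∩ U) = 0 := fun U => measure_mono_null inter_subset_left r
    have := hle hδ (E := K) fun x n => by simp [z]
    rw [← e, hausdorffMeasure_of_lt_dimH h, r] at this
    simp at this
  refine ⟨E, a, dimH_of_hausdorffMeasure_ne_zero_ne_top (fun r => b ?_) ?_⟩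
  · exact le_zero_iff.1 ((le_mkMetric _ (ct hδ) 1 one_pos (fun s _ => ct_le hδ s) E).trans_eq
      ((e E).symm.trans r))
  · refine ne_top_of_le_ne_top ENNReal.one_ne_top (((e E).trans_le (hle hδ c)).trans ?_)
    simpa using ct_cyl hδ E (fun _ => false) 0

end Pool.Agent.H84.Gam
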