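import Pool.Agent.H84.GamA
import Pool.Agent.H84.DimB

/-! Sets of dimension at most one half, and splitting nodes. -/

namespace Pool.Agent.H84.Gam

open Set Filter Topology PiNat MeasureTheory Metric Function Pool.Agent.H84.GamDefs
open scoped ENNReal NNReal

noncomputable local instance : MetricSpace (ℕ → Bool) := PiNat.metricSpace

theorem half {E : Set (ℕ → Bool)} (code : (ℕ → Bool) → ℕ → Bool)
    (h : ∀ x ∈ E, ∀ y ∈ E, ∀ i, res x (2 * i) = res y (2 * i) → code x i = code y i →
      res x (2 * i + 2) = res y (2 * i + 2)) : dimH E ≤ 2⁻¹ := by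
  borelize (ℕ → Bool)
  have g : ∀ x ∈ E, ∀ y ∈ E, ∀ k, (∀ i < k, code x i = code y i) → res x (2 * k) = res y (2 * k) :=
    fun x a y b k => k.rec (fun _ => rfl) fun k ih r =>
      h x a y b k (ih fun i s => r i (by omega)) (r k (by omega))
  let t : ∀ k : ℕ, (Fin k → Bool) → Set (ℕ → Bool) := fun k σ => {x ∈ E | ∀ i, code x i.1 = σ i}
  have d : ∀ k σ, ediam (t k σ) ≤ 2⁻¹ ^ (2 * k) := fun k σ => ediam_le fun x a y b =>
    (edist_le_ediam_of_mem (self_mem_cylinder x _) (mem_cylinder_iff.2 fun i r => res_eq_res.1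
      (g y b.1 x a.1 k fun i s => (b.2 ⟨i, s⟩).trans (a.2 ⟨i, s⟩).symm) r)).trans (diam_cyl x _)
  have := Measure.hausdorffMeasure_le_liminf_sum ((2⁻¹ : ℝ≥0) : ℝ) E (l := atTop)
    (fun k => 2⁻¹ ^ k) (ENNReal.tendsto_pow_atTop_nhds_zero_of_lt_one (by simp)) t
    (.of_forall fun k σ => (d k σ).trans (pow_le_pow_right_of_le_one' (by simp) (by omega)))
    (.of_forall fun k x a => mem_iUnion.2 ⟨fun i => code x i, a, fun _ => rfl⟩)
  refine (dimH_le_of_hausdorffMeasure_ne_top (ne_top_of_le_ne_top ENNReal.one_ne_top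
    (this.trans (liminf_le_of_frequently_le' (.of_forall fun k => ?_))))).trans_eq (by simp)
  refine (Finset.sum_le_card_nsmul _ _ (2⁻¹ ^ k) fun σ _ =>
    (ENNReal.rpow_le_rpow (d k σ) (by simp)).trans_eq ?_).trans_eq ?_
  · rw [mul_comm, pow_mul, ← ENNReal.rpow_natCast _ 2, ← ENNReal.rpow_mul]; simp
  · simp [← mul_pow, ENNReal.mul_inv_cancel]

theorem det {E : Set (ℕ → Bool)} {p : ℕ} (hp : p < 2)
    (h : ∀ x ∈ E, ∀ y ∈ E, ∀ j, j % 2 = p → res x j = res y j → x j = y j) : dimH E ≤ 2⁻¹ := by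
  refine half (fun x i => x (2 * i + 1 - p)) fun x a y b i r c => ?_
  have : p = 0 ∨ p = 1 := by omega
  rcases this with rfl | rfl
  · simp only [res_succ, r, h x a y b (2 * i) (by omega) r, show x (2 * i + 1) = _ from c]
    rfl
  · have e : res x (2 * i + 1) = res y (2 * i + 1) := by
      simp only [res_succ, r, show x (2 * i) = y (2 * i) from c]
    rw [res_succ, res_succ y, e, h x a y b _ (by omega) e]

theorem follow (σ : List Bool → Bool) {p : ℕ} (hp : p < 2) :
    dimH {x | ∃ n, ∀ j, n ≤ j → j % 2 = p → x j = σ (res x j)} ≤ 2⁻¹ := by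
  refine (dimH_mono (t := ⋃ l : List Bool, {x | res x l.length = l ∧ ∀ j, l.length ≤ j →
    j % 2 = p → x j = σ (res x j)}) fun x h => h.elim fun n r =>
      mem_iUnion.2 ⟨res x n, by simpa⟩).trans ?_
  rw [dimH_iUnion]
  refine iSup_le fun l => det hp fun x a y b j r s => ?_
  rcases lt_or_ge j l.length with u | u
  · exact res_eq_res.1 (a.1.trans b.1.symm) u
  · rw [a.2 j u r, b.2 j u r, s]

theorem cl (Q : ℕ → Bool → List Bool → Prop) : IsClosed {x | ∀ n, Q n (x n) (res x n)} :=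
  isOpen_compl_iff.1 (isOpen_iff_mem_nhds.2 fun x r => by
    obtain ⟨n, r⟩ := not_forall.1 r
    refine mem_of_superset ((isOpen_cylinder _ x (n + 1)).mem_nhds (self_mem_cylinder _ _))
      fun y a b => r ?_
    rw [← mem_cylinder_iff.1 a n (by omega),
      ← res_eq_res.2 fun i (u : i < n) => mem_cylinder_iff.1 a i (by omega)]
    exact b n)

variable {T : Set (List Bool)}

theorem down (hT : Subtree T) {x : ℕ → Bool} {n : ℕ} (h : res x n ∈ T) : ∀ j ≤ n, res x j ∈ T :=
  fun _ r => Nat.decreasingInduction (fun _ _ a => hT.1 _ _ a) h r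

theorem extend (hT : Subtree T) {μ : List Bool → Bool} (hμ : ∀ l ∈ T, μ l :: l ∈ T)
    {x : ℕ → Bool} {n : ℕ} (h : res x n ∈ T) :
    ∃ y ∈ canopy T, res y n = res x n ∧ ∀ j, n ≤ j → y j = μ (res y j) := by
  let ν : List Bool → Bool := fun l => if l.length < n then x l.length else μ l
  let L : ℕ → List Bool := fun j => j.rec [] fun _ l => ν l :: l
  have e : ∀ j, res (fun j => ν (L j)) j = L j := fun j =>
    j.rec rfl fun j r => congrArg (ν (L j) :: ·) r
  have len : ∀ j, (L j).length = j := fun j => e j ▸ res_length _ _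
  have a : ∀ j ≤ n, res (fun j => ν (L j)) j = res x j := fun j r =>
    res_eq_res.2 fun i s => by simp [ν, len, s.trans_le r]
  have b : ∀ j, n ≤ j → ν (L j) = μ (res (fun j => ν (L j)) j) := fun j r => by
    rw [e]; simp [ν, len, r.not_gt]
  refine ⟨_, fun j => ?_, a n le_rfl, b⟩
  induction j with
  | zero => exact down hT h 0 n.zero_le
  | succ j ih =>
    rcases lt_or_ge j n with r | r
    · exact a _ r ▸ down hT h _ r
    · rw [res_succ, b j r]; exact hμ _ ih

/-- Points all of whose cones have dimension more than one half. -/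
def core (T : Set (List Bool)) : Set (ℕ → Bool) :=
  {x ∈ canopy T | ∀ n, 2⁻¹ < dimH (canopy T ∩ cylinder x n)}

theorem core_big {U : Set (ℕ → Bool)} (h : 2⁻¹ < dimH (canopy T ∩ U)) :
    2⁻¹ < dimH (core T ∩ U) := by
  have : canopy T ∩ U ⊆ core T ∩ U ∪ ⋃ l : {l : List Bool //
      dimH (canopy T ∩ {y | res y l.length = l}) ≤ 2⁻¹}, canopy T ∩ {y | res y l.1.length = l} :=
    fun x a => (em (x ∈ core T)).imp (fun r => ⟨r, a.2⟩) fun r => by
      obtain ⟨n, r⟩ := not_forall.1 fun s => r ⟨a.1, s⟩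
      exact mem_iUnion.2 ⟨⟨res x n, by simpa [cylinder_eq_res] using r⟩, a.1, by simp⟩
  have := h.trans_le (dimH_mono this)
  rw [dimH_union, dimH_iUnion] at this
  exact (lt_max_iff.1 this).resolve_right (not_lt.2 (iSup_le fun l => l.2))

/-- Nodes below a point of the core. -/
def G (T : Set (List Bool)) (l : List Bool) : Prop := ∃ y ∈ core T, res y l.length = l

theorem split (l : List Bool) : ∃ q : (ℕ → Bool) × ℕ, G T l → q.1 ∈ canopy T ∧
    res q.1 l.length = l ∧ l.length < q.2 ∧ q.2 % 2 = l.length % 2 ∧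
      ∀ b, G T (b :: res q.1 q.2) := by
  by_cases h : G T l
  swap
  · exact ⟨(fun _ => false, 0), fun r => absurd r h⟩
  obtain ⟨z, a, b⟩ := h
  have := mt (det (p := l.length % 2) (by omega)) (core_big (a.2 (l.length + 1))).not_ge
  push Not at this
  obtain ⟨x, c, y, d, j, e, f, g⟩ := this
  refine ⟨(x, j), fun _ => ⟨c.1.1, (res_eq_res.2 fun i r =>
    mem_cylinder_iff.1 c.2 i (by omega)).trans b, not_le.1 fun r => g ?_, e, fun u => ?_⟩⟩
  · exact (mem_cylinder_iff.1 c.2 j (by omega)).trans (mem_cylinder_iff.1 d.2 j (by omega)).symm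
  · by_cases k : u = x j
    · exact ⟨x, c.1, by simp [k]⟩
    · refine ⟨y, d.1, ?_⟩
      have : u = y j := by revert k g; cases u <;> cases x j <;> cases y j <;> simp
      simp [this, f]

end Pool.Agent.H84.Gam
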