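import Pool.Agent.H84.GamB

/-! Non-determined and winning sets of prescribed dimension. -/

namespace Pool.Agent.H84.Gam

open Set Filter Topology PiNat Function Pool.Agent.H84.GamDefs
open scoped ENNReal NNReal

noncomputable local instance : MetricSpace (ℕ → Bool) := PiNat.metricSpace

variable {T : Set (List Bool)}

theorem frame (hT : Subtree T) (h : 2⁻¹ < dimH (canopy T)) :
    ∃ (σ : List Bool → Bool) (M : List Bool → ℕ), (∀ l ∈ T, σ l :: l ∈ T) ∧
      (∀ l ∈ T, M l = l.length → ∀ b, b :: l ∈ T ∧ l.length + 1 < M (b :: l) ∧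
        M (b :: l) % 2 = (l.length + 1) % 2) ∧
      (∀ l, M l ≠ l.length → M (σ l :: l) = M l) ∧
      ∀ b l, M l ≠ l.length → b ≠ σ l → M (b :: l) = 0 := by
  classical
  choose nx hnx using split (T := T)
  choose μ hμ using fun l => (em (l ∈ T)).elim (fun r => (hT.2 l r).imp fun _ s _ => s)
    fun r => (⟨false, fun s => absurd s r⟩ : ∃ b, l ∈ T → b :: l ∈ T)
  have : ∀ l : List Bool, ∃ y, l ∈ T → y ∈ canopy T ∧ res y l.length = l := fun l => by
    obtain ⟨x, e⟩ : ∃ x, res x l.length = l := by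
      induction l with
      | nil => exact ⟨fun _ => false, rfl⟩
      | cons b l ih =>
        obtain ⟨x, e⟩ := ih
        refine ⟨update x l.length b, ?_⟩
        rw [List.length_cons, res_succ, update_self, ← e]
        simpa using res_eq_res.2 fun i r => update_of_ne r.ne _ _
    by_cases k : l ∈ T
    · obtain ⟨y, a, b, -⟩ := extend hT hμ (e.symm ▸ k : res x l.length ∈ T)
      exact ⟨y, fun _ => ⟨a, b.trans e⟩⟩
    · exact ⟨x, fun r => absurd r k⟩
  choose off hoff using this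
  let st : List Bool → (ℕ → Bool) × ℕ := fun l => l.rec (nx []) fun b l q =>
    if q.2 = l.length then nx (b :: l) else if b = q.1 l.length then q else (off (b :: l), 0)
  have e : ∀ b l, st (b :: l) = if (st l).2 = l.length then nx (b :: l) else
    if b = (st l).1 l.length then st l else (off (b :: l), 0) := fun _ _ => rfl
  have inv : ∀ l ∈ T, (st l).1 ∈ canopy T ∧ res (st l).1 l.length = l ∧
      (l.length ≤ (st l).2 → ∀ b, G T (b :: res (st l).1 (st l).2)) := fun l => by
    induction l with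
    | nil =>
      obtain ⟨y, a⟩ : (core T ∩ univ).Nonempty := nonempty_iff_ne_empty.2 fun r => by
        simpa [r] using core_big (T := T) (U := univ) (by simpa)
      have := hnx [] ⟨y, a.1, rfl⟩
      exact fun _ => ⟨this.1, rfl, fun _ => this.2.2.2.2⟩
    | cons b l ih =>
      intro r
      obtain ⟨i1, i2, i3⟩ := ih (hT.1 _ _ r)
      rw [e]
      split_ifs with k k'
      · have := hnx (b :: l) (by simpa [k, i2] using i3 k.ge b)
        exact ⟨this.1, this.2.1, fun _ => this.2.2.2.2⟩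
      · exact ⟨i1, by simp [i2, k'], fun s => i3 (by simp at s; omega)⟩
      · exact ⟨(hoff _ r).1, (hoff _ r).2, fun s => by simp at s⟩
  refine ⟨fun l => (st l).1 l.length, fun l => (st l).2, fun l r => ?_, fun l r k b => ?_,
    fun l k => ?_, fun b l k k' => ?_⟩
  · simpa [(inv l r).2.1] using (inv l r).1 (l.length + 1)
  · have g : G T (b :: l) := by simpa [k, (inv l r).2.1] using (inv l r).2.2 k.ge b
    have := hnx _ g
    simp only [e, k, if_true]
    exact ⟨g.elim fun y s => s.2 ▸ s.1.1 _, this.2.2.1, this.2.2.2.1⟩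
  · simp [e, k]
  · simp [e, k, k']

theorem pair (hT : Subtree T) (h : 2⁻¹ < dimH (canopy T)) : ∃ P : ℕ → Set (ℕ → Bool),
    (∀ p, IsClosed (P p) ∧ P p ⊆ canopy T ∧ Forces T p (P p)) ∧ (∀ p < 2, dimH (P p) ≤ 2⁻¹) ∧
    ∀ p q, p + q = 1 → ∀ W, Forces T p W → ∃ F ⊆ P q ∩ W, IsClosed F ∧ (F ⊆ P p → ¬ F.Countable) := by
  classical
  obtain ⟨σ, M, h1, h2, h3, h4⟩ := frame hT h
  let P : ℕ → Set (ℕ → Bool) := fun p =>
    {x | ∀ n, res x n ∈ T ∧ (n % 2 = p → M (res x n) = n ∨ x n = σ (res x n))}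
  let B : Set (ℕ → Bool) := {x ∈ canopy T | ∀ n, M (res x n) = n ∨ x n = σ (res x n)}
  have b1 : ∀ x ∈ B, ∀ n, M (res x n) ≠ n → M (res x (n + 1)) = M (res x n) := fun x a n r => by
    rw [res_succ, (a.2 n).resolve_left r]; exact h3 _ (by simpa)
  have b2 : ∀ x ∈ B, ∀ n, M (res x n) = n → n + 1 < M (res x (n + 1)) ∧
      M (res x (n + 1)) % 2 = (n + 1) % 2 := fun x a n r => by
    simpa using (h2 _ (a.1 n) (by simpa) (x n)).2
  have b3 : ∀ x ∈ B, ∀ n, n ≤ M (res x n) := fun x a n => n.rec (Nat.zero_le _) fun n ih => by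
    by_cases k : M (res x n) = n
    · exact (b2 x a n k).1.le
    · rw [b1 x a n k]; omega
  have b4 : ∀ x ∈ B, ∀ k n, M (res x n) = n + k → M (res x (n + k)) = n + k := fun x a k =>
    k.rec (fun _ => id) fun k ih n r => by
      have := ih (n + 1) (by rw [b1 x a n (by omega)]; omega)
      rwa [show n + 1 + k = n + (k + 1) by omega] at this
  have b5 : ∀ x ∈ B, ∀ n, M (res x (M (res x n))) = M (res x n) := fun x a n => by
    obtain ⟨k, r⟩ := Nat.exists_eq_add_of_le (b3 x a n)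
    rw [r, b4 x a k n r]
  have dB : dimH B ≤ 2⁻¹ := half (fun x i => if M (res x (2 * i)) = 2 * i then x (2 * i) else
      x (2 * i + 1)) fun x a y b i r c => by
    by_cases k : M (res x (2 * i)) = 2 * i
    · have e : res x (2 * i + 1) = res y (2 * i + 1) := by
        rw [res_succ, res_succ, r]; simpa [k, ← r] using c
      rw [res_succ, res_succ y, (a.2 _).resolve_left (b2 x a _ k).1.ne',
        (b.2 _).resolve_left (b2 y b _ (r ▸ k)).1.ne', e]
    · have e : x (2 * i) = y (2 * i) := by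
        rw [(a.2 _).resolve_left k, (b.2 (2 * i)).resolve_left (r ▸ k), r]
      simp only [res_succ, e, r]
      simpa [k, ← r] using c
  refine ⟨P, fun p => ⟨cl fun n b l => l ∈ T ∧ (n % 2 = p → M l = n ∨ b = σ l),
    fun x a n => (a n).1, σ, fun l r _ => h1 l r, fun x a b n => ⟨a n, fun r => Or.inr (b n r)⟩⟩,
    fun p hp => ?_, fun p q e W ⟨s, s1, s2⟩ => ?_⟩
  · refine (dimH_mono fun x a => ?_).trans ((dimH_union _ _).trans_le (max_le dB (follow σ hp)))
    refine (em (x ∈ B)).imp_right fun r => ?_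
    obtain ⟨n, r⟩ := not_forall.1 fun s => r ⟨fun n => (a n).1, s⟩
    have : ∀ j, n + 1 ≤ j → M (res x j) < j := fun j u => by
      induction j, u using Nat.le_induction with
      | base => rw [res_succ, h4 _ _ (by simpa using (not_or.1 r).1) (not_or.1 r).2]; omega
      | succ j u ih =>
        by_cases k : x j = σ (res x j)
        · rw [res_succ, k, h3 _ (by simpa using ih.ne)]; omega
        · rw [res_succ, h4 _ _ (by simpa using ih.ne) k]; omega
    exact ⟨n + 1, fun j u v => ((a j).2 v).resolve_left (this j u).ne⟩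
  · let F := P q ∩ {x | ∀ n, n % 2 = p → x n = s (res x n)}
    have cF : IsClosed F := (cl fun n b l => l ∈ T ∧ (n % 2 = q → M l = n ∨ b = σ l)).inter
      (cl fun n b l => n % 2 = p → b = s l)
    have ex : ∀ x n, res x n ∈ T → ∃ y ∈ canopy T, res y n = res x n ∧ ∀ j, n ≤ j →
        (j % 2 = p → y j = s (res y j)) ∧ (j % 2 = q → y j = σ (res y j)) := fun x n r => by
      obtain ⟨y, a, b, c⟩ := extend hT (μ := fun l => if l.length % 2 = p then s l else σ l)
        (fun l u => by split_ifs with k; exacts [s1 l u k, h1 l u]) r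
      refine ⟨y, a, b, fun j u => ⟨fun v => by simpa [v] using c j u, fun v => ?_⟩⟩
      simpa [show ¬ j % 2 = p by omega] using c j u
    refine ⟨F, fun x a => ⟨a.1, s2 x (fun n => (a.1 n).1) a.2⟩, cF, fun sub => ?_⟩
    obtain ⟨z, hz⟩ : (canopy T).Nonempty := nonempty_iff_ne_empty.2 fun r => by simp [r] at h
    obtain ⟨y, a, -, c⟩ := ex z 0 (hz 0)
    have := PiNat.completeSpace (E := fun _ => Bool)
    obtain ⟨f, f1, -, f2⟩ := Perfect.exists_nat_bool_injection (C := F) ⟨cF, fun x hx =>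
      accPt_iff_nhds.2 fun U hU => by
        have xB : x ∈ B := ⟨fun n => (hx.1 n).1, fun n => (em (n % 2 = p)).elim (sub hx n).2
          fun r => (hx.1 n).2 (by omega)⟩
        obtain ⟨_, ⟨w, n, rfl⟩, u1, u2⟩ := (isTopologicalBasis_cylinders _).mem_nhds_iff.1 hU
        obtain ⟨m, m1, m2, m3⟩ : ∃ m, n ≤ m ∧ m % 2 = q ∧ M (res x m) = m := by
          have r1 := b3 x xB n
          have r2 := b2 x xB _ (b5 x xB n)
          by_cases k : M (res x n) % 2 = q
          · exact ⟨_, r1, k, b5 x xB n⟩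
          · exact ⟨_, by omega, by omega, b5 x xB (M (res x n) + 1)⟩
        have ef : res (fl x m) m = res x m := res_eq_res.2 fun i r => update_of_ne r.ne _ _
        obtain ⟨y, a, b, c⟩ := ex (fl x m) (m + 1) (by
          rw [res_succ, ef]; exact (h2 _ (xB.1 m) (by simpa) _).1)
        have g1 : ∀ j < m, y j = x j := fun j r =>
          (res_eq_res.1 b (by omega)).trans (update_of_ne r.ne _ _)
        have g2 : ∀ j ≤ m, res y j = res x j := fun j r => res_eq_res.2 fun i u => g1 i (by omega)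
        refine ⟨y, ⟨u2 (mem_cylinder_iff.2 fun i r => (g1 i (by omega)).trans
          (mem_cylinder_iff.1 u1 i r)), fun j => ⟨a j, fun v => ?_⟩, fun j v => ?_⟩, fun r => ?_⟩
        · rcases lt_trichotomy j m with k | rfl | k
          · rw [g1 j k, g2 j k.le]; exact (hx.1 j).2 v
          · exact Or.inl (by rw [g2 j le_rfl, m3])
          · exact Or.inr ((c j k).2 v)
        · rcases lt_trichotomy j m with k | rfl | k
          · rw [g1 j k, g2 j k.le]; exact hx.2 j v
          · omega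
          · exact (c j k).1 v
        · have := res_eq_res.1 b m.lt_succ_self
          simp [r, fl] at this⟩
      ⟨y, fun j => ⟨a j, fun v => Or.inr ((c j j.zero_le).2 v)⟩, fun j => (c j j.zero_le).1⟩
    exact fun r => not_countable_univ (Countable.mono (s₂ := f ⁻¹' F)
      (fun x _ => f1 (mem_range_self x)) (r.preimage_of_injOn f2.injOn))

theorem main (hT : Subtree T) (h : 2⁻¹ < dimH (canopy T)) {δ : ℝ≥0∞} (h1 : 2⁻¹ ≤ δ)
    (h2 : δ ≤ dimH (canopy T)) : ∃ W W₁ W₂, W ⊆ canopy T ∧ W₁ ⊆ canopy T ∧ W₂ ⊆ canopy T ∧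
      dimH W = δ ∧ dimH W₁ = δ ∧ dimH W₂ = δ ∧ ¬ WinI T W ∧ ¬ WinII T W ∧ WinI T W₁ ∧
        WinII T W₂ := by
  obtain ⟨P, p1, p2, p3⟩ := pair hT h
  obtain ⟨A, a1, -, a2⟩ := DimB.exists_A
  obtain ⟨F, f1, f2, f3, -⟩ := (p1 1).1.isOpen_compl.exists_iUnion_isClosed
  have : ∀ n, ∃ E ⊆ canopy T ∩ F n, dimH E = min δ (dimH (canopy T ∩ F n)) := fun n => by
    rcases (zero_le (a := min δ (dimH (canopy T ∩ F n)))).eq_or_lt with e | e
    · exact ⟨∅, empty_subset _, dimH_empty.trans e⟩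
    · exact exact ((cl fun _ _ l => l ∈ T).inter (f1 n)) e (min_le_right _ _)
  choose E e1 e2 using this
  have d : dimH (canopy T) ≤ ⨆ n, dimH (canopy T ∩ F n) := by
    have : dimH (canopy T) ≤ _ := (dimH_mono fun x r => (em (x ∈ P 1)).imp_right fun s => by
      rw [← inter_iUnion, f3]; exact ⟨r, s⟩).trans_eq (dimH_union (P 1) (⋃ n, canopy T ∩ F n))
    rw [dimH_iUnion] at this
    exact (le_max_iff.1 this).resolve_left ((p2 1 one_lt_two).trans_lt h).not_ge
  have dX : dimH (⋃ n, E n) = δ := by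
    simp only [dimH_iUnion, e2]
    rw [← inf_iSup_eq]; exact inf_eq_left.2 (h2.trans d)
  have x1 : (⋃ n, E n) ⊆ canopy T := iUnion_subset fun n _ r => (e1 n r).1
  have x2 : (⋃ n, E n) ⊆ (P 1)ᶜ := iUnion_subset fun n _ r => f2 n (e1 n r).2
  have dU : ∀ Z ⊆ P 0, dimH (Z ∪ ⋃ n, E n) = δ := fun Z r => by
    rw [dimH_union, dX]; exact max_eq_right (((dimH_mono r).trans (p2 0 two_pos)).trans h1)
  refine ⟨P 0 \ (P 1 ∩ A 1) ∪ ⋃ n, E n, P 0 ∪ ⋃ n, E n, _,
    union_subset (sdiff_subset.trans (p1 0).2.1) x1, union_subset (p1 0).2.1 x1, x1,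
    dU _ sdiff_subset, dU _ Subset.rfl, dX, fun w => ?_, fun w => ?_,
    (p1 0).2.2.imp fun s r => ⟨r.1, fun x a b => Or.inl (r.2 x a b)⟩,
    (p1 1).2.2.imp fun s r => ⟨r.1, fun x a b c => x2 c (r.2 x a b)⟩⟩
  · obtain ⟨D, d1, d2, d3⟩ := p3 0 1 rfl _ w
    have : ∀ x ∈ D, x ∈ P 0 \ (P 1 ∩ A 1) := fun x r =>
      (d1 r).2.resolve_right fun s => x2 s (d1 r).1
    obtain ⟨x, r, s⟩ := a2 1 D d2 (d3 fun x r => (this x r).1)
    exact (this x r).2 ⟨(d1 r).1, s⟩
  · obtain ⟨D, d1, d2, d3⟩ := p3 1 0 rfl _ w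
    have : ∀ x ∈ D, x ∈ P 1 ∩ A 1 := fun x r =>
      by_contra fun s => (d1 r).2 (Or.inl ⟨(d1 r).1, s⟩)
    obtain ⟨x, r, s⟩ := a2 0 D d2 (d3 fun x r => (this x r).1)
    exact disjoint_left.1 (a1 0 1 zero_ne_one) s (this x r).2

end Pool.Agent.H84.Gam
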