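import Mathlib

/-! Games on binary subtrees and Hausdorff dimension. A finite sequence is stored as a list whose
head is its last entry; `PiNat.res x n` is the list of the first `n` entries of `x`. -/

namespace Pool.Agent.H84.GamDefs

open PiNat

/-- Hausdorff dimension for the metric `2 ^ (-min {n | x n ≠ y n})`. -/
noncomputable def dim (W : Set (ℕ → Bool)) : ENNReal :=
  @dimH _ (PiNat.metricSpace (E := fun _ => Bool)).toEMetricSpace W

/-- A subtree: closed under removing the last entry, and without terminal nodes. -/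
def Subtree (T : Set (List Bool)) : Prop :=
  (∀ b l, b :: l ∈ T → l ∈ T) ∧ ∀ l ∈ T, ∃ b, b :: l ∈ T

/-- The canopy of `T`. -/
def canopy (T : Set (List Bool)) : Set (ℕ → Bool) := {x | ∀ n, res x n ∈ T}

/-- The player moving at the stages `n` with `n % 2 = p` has a strategy in `T` all of whose
plays lie in `W`. -/
def Forces (T : Set (List Bool)) (p : ℕ) (W : Set (ℕ → Bool)) : Prop :=
  ∃ s : List Bool → Bool, (∀ l ∈ T, l.length % 2 = p → s l :: l ∈ T) ∧
    ∀ x ∈ canopy T, (∀ n, n % 2 = p → x n = s (res x n)) → x ∈ W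

/-- Player I wins `(T, W)`. -/
def WinI (T : Set (List Bool)) (W : Set (ℕ → Bool)) : Prop := Forces T 0 W

/-- Player II wins `(T, W)`. -/
def WinII (T : Set (List Bool)) (W : Set (ℕ → Bool)) : Prop := Forces T 1 Wᶜ

end Pool.Agent.H84.GamDefs
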