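import Mathlib

set_option autoImplicit false

namespace Pool.Agent.H84.HilbDefs

/-- the plane -/
abbrev Pl := EuclideanSpace ℝ (Fin 2)

/-- `d` is the Hilbert metric of `M`: if the chord of `M` through `X ≠ Y` has endpoints `A, B`,
then `d X Y = |log (X,Y;A,B)| / 2`, with `(X,Y;A,B) = l / m`, `l • YA = XA`, `m • YB = XB`. -/
def IsHilbertMetric (M : Set Pl) (d : Pl → Pl → ℝ) : Prop :=
  (∀ X ∈ M, d X X = 0) ∧
  ∀ X ∈ M, ∀ Y ∈ M, X ≠ Y → ∀ A B : Pl,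
    M ∩ (affineSpan ℝ {X, Y} : Set Pl) = openSegment ℝ A B →
    ∀ l m : ℝ, l • (A - Y) = A - X → m • (B - Y) = B - X → d X Y = |Real.log (l / m)| / 2

/-- `F` is a foot of `O` on the line `M ∩ BC`. -/
def IsFoot (M : Set Pl) (d : Pl → Pl → ℝ) (O B C F : Pl) : Prop :=
  F ∈ M ∩ (affineSpan ℝ {B, C} : Set Pl) ∧
    ∀ X ∈ M ∩ (affineSpan ℝ {B, C} : Set Pl), d O F ≤ d O X

/-- the set of all values of the ratio over triangles `ABC` in `M` and points `O` inside -/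
def ratios (M : Set Pl) (d : Pl → Pl → ℝ) : Set ℝ :=
  {r | ∃ A ∈ M, ∃ B ∈ M, ∃ C ∈ M, ∃ O P Q R : Pl, ¬ Collinear ℝ {A, B, C} ∧
    (∃ a b c : ℝ, 0 < a ∧ 0 < b ∧ 0 < c ∧ a + b + c = 1 ∧ O = a • A + b • B + c • C) ∧
    IsFoot M d O B C P ∧ IsFoot M d O C A Q ∧ IsFoot M d O A B R ∧
    r = (Real.tanh (d O A) + Real.tanh (d O B) + Real.tanh (d O C)) /
      (Real.tanh (d O P) + Real.tanh (d O Q) + Real.tanh (d O R))}

end Pool.Agent.H84.HilbDefs
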