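import Mathlib
import Pool.Agent.H84.HilbDefs

set_option autoImplicit false

namespace Pool.Agent.H84.Hilb

open Set Filter Topology Pool.Agent.H84.HilbDefs

variable {M : Set Pl} {d : Pl → Pl → ℝ} {O : Pl}

/-- gauge centred at `O` -/
noncomputable def g (M : Set Pl) (O v : Pl) : ℝ := gauge ((fun w => O + w) ⁻¹' M) v

/-- `tanh` of the distance from `O` -/
noncomputable def h (M : Set Pl) (O X : Pl) : ℝ :=
  (g M O (O - X) + g M O (X - O)) / (2 + g M O (O - X) - g M O (X - O))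

structure Ctx (M : Set Pl) (O : Pl) : Prop where
  op : IsOpen M
  cv : Convex ℝ M
  bd : Bornology.IsBounded M
  mem : O ∈ M

theorem Ctx.cv' (c : Ctx M O) : Convex ℝ ((fun w => O + w) ⁻¹' M) := c.cv.translate_preimage_right O

theorem Ctx.op' (c : Ctx M O) : IsOpen ((fun w => O + w) ⁻¹' M) :=
  c.op.preimage (by fun_prop)

theorem Ctx.nhds' (c : Ctx M O) : ((fun w => O + w) ⁻¹' M) ∈ 𝓝 (0 : Pl) :=
  c.op'.mem_nhds (by simpa using c.mem)

theorem Ctx.bd' (c : Ctx M O) : Bornology.IsBounded ((fun w => O + w) ⁻¹' M) := by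
  obtain ⟨R, hR⟩ := c.bd.exists_norm_le
  refine isBounded_iff_forall_norm_le.2 ⟨R + ‖O‖, fun w hw => ?_⟩
  have := norm_sub_le (O + w) O
  rw [add_sub_cancel_left] at this
  linarith [hR _ hw]

theorem Ctx.cont (c : Ctx M O) : Continuous (g M O) := continuous_gauge c.cv' c.nhds'

theorem g_nonneg (v : Pl) : 0 ≤ g M O v := gauge_nonneg v

theorem Ctx.lt_one (c : Ctx M O) {v : Pl} : g M O v < 1 ↔ O + v ∈ M := by
  rw [g, gauge_lt_one_iff_mem_interior c.cv' c.nhds', c.op'.interior_eq]; rfl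

theorem Ctx.pos (c : Ctx M O) {v : Pl} (hv : v ≠ 0) : 0 < g M O v :=
  (gauge_pos (absorbent_nhds_zero c.nhds') ((NormedSpace.isVonNBounded_iff ℝ).2 c.bd')).2 hv

theorem g_smul {t : ℝ} (ht : 0 ≤ t) (v : Pl) : g M O (t • v) = t * g M O v :=
  gauge_smul_of_nonneg ht v

theorem Ctx.tanh_eq (c : Ctx M O) (hd : IsHilbertMetric M d) {X : Pl} (hX : X ∈ M) :
    Real.tanh (d O X) = h M O X := by
  by_cases hOX : O = X
  · subst hOX; simp [hd.1 O hX, h, g, gauge_zero]
  have ha := c.pos (sub_ne_zero.2 hOX)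
  have hb := c.pos (sub_ne_zero.2 (Ne.symm hOX))
  have hb1 : g M O (X - O) < 1 := c.lt_one.2 (by simpa using hX)
  rw [h]
  set a := g M O (O - X) with ha'
  set b := g M O (X - O) with hb'
  have key : ∀ t : ℝ, O + t • (X - O) ∈ M ↔ -a⁻¹ < t ∧ t < b⁻¹ := by
    intro t
    rw [← c.lt_one]
    rcases le_total 0 t with ht | ht
    · rw [g_smul ht, ← hb', ← lt_div_iff₀ hb, one_div]
      exact ⟨fun h => ⟨lt_of_lt_of_le (by simpa using ha) ht, h⟩, fun h => h.2⟩
    · rw [show t • (X - O) = (-t) • (O - X) by module, g_smul (by linarith), ← ha',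
        ← lt_div_iff₀ ha, one_div]
      exact ⟨fun h => ⟨by linarith, lt_of_le_of_lt ht (by simpa using hb)⟩, fun h => by linarith⟩
  have hab : 0 < a⁻¹ + b⁻¹ := by positivity
  have h1 := hd.2 O c.mem X hX hOX (O + (-a⁻¹) • (X - O)) (O + b⁻¹ • (X - O)) (by
    ext Y
    constructor
    · rintro ⟨hY, h2⟩
      obtain ⟨t, rfl⟩ := (mem_affineSpan_pair_iff_exists_lineMap_eq).1 h2
      rw [AffineMap.lineMap_apply, vsub_eq_sub, vadd_eq_add, add_comm] at hY ⊢
      obtain ⟨h3, h4⟩ := (key t).1 hY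
      refine ⟨(b⁻¹ - t) / (a⁻¹ + b⁻¹), (t + a⁻¹) / (a⁻¹ + b⁻¹), div_pos (by linarith) hab,
        div_pos (by linarith) hab, by field_simp; ring, ?_⟩
      match_scalars <;> field_simp <;> ring
    · rintro ⟨p, q, hp, hq, hpq, rfl⟩
      have h2 : p • (O + (-a⁻¹) • (X - O)) + q • (O + b⁻¹ • (X - O)) =
          O + (q * b⁻¹ - p * a⁻¹) • (X - O) := by
        rw [show p = 1 - q by linarith]; module
      rw [h2]
      refine ⟨(key _).2 ⟨?_, ?_⟩, (mem_affineSpan_pair_iff_exists_lineMap_eq).2 ⟨q * b⁻¹ - p * a⁻¹, ?_⟩⟩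
      · rw [show p = 1 - q by linarith]; nlinarith [mul_pos hq hab]
      · rw [show q = 1 - p by linarith]; nlinarith [mul_pos hp hab]
      · rw [AffineMap.lineMap_apply, vsub_eq_sub, vadd_eq_add]; exact add_comm _ _) (1 + a)⁻¹ (1 - b)⁻¹
    (by match_scalars <;> (field_simp; try ring))
    (by have : 1 - b ≠ 0 := by linarith
        match_scalars <;> field_simp <;> ring)
  have h2 : (1 + a)⁻¹ / (1 - b)⁻¹ = ((1 + a) / (1 - b))⁻¹ := by
    have : 1 - b ≠ 0 := by linarith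
    field_simp
  have h3 : 1 ≤ (1 + a) / (1 - b) := (one_le_div (by linarith)).2 (by linarith)
  rw [h1, h2, Real.log_inv, abs_neg, abs_of_nonneg (Real.log_nonneg h3), Real.tanh_eq]
  have h4 : Real.exp (Real.log ((1 + a) / (1 - b)) / 2) ^ 2 = (1 + a) / (1 - b) := by
    rw [← Real.exp_nat_mul]; push_cast
    rw [mul_div_cancel₀ _ two_ne_zero, Real.exp_log (by linarith)]
  have h5 := Real.exp_pos (Real.log ((1 + a) / (1 - b)) / 2)
  rw [Real.exp_neg]
  set e := Real.exp (Real.log ((1 + a) / (1 - b)) / 2)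
  have h6 : 1 - b ≠ 0 := by linarith
  have h7 : 2 + a - b ≠ 0 := by linarith
  rw [eq_div_iff h6] at h4
  field_simp
  linear_combination 2 * h4

theorem Ctx.contAt (c : Ctx M O) {X : Pl} (hX : g M O (X - O) ≤ 1) : ContinuousAt (h M O) X := by
  have := c.cont
  have h1 := g_nonneg (M := M) (O := O) (O - X)
  exact ContinuousAt.div (by fun_prop) (by fun_prop) (by linarith)

theorem h_nonneg {X : Pl} (hX : g M O (X - O) ≤ 1) : 0 ≤ h M O X := by
  have h1 := g_nonneg (M := M) (O := O) (O - X)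
  have h2 := g_nonneg (M := M) (O := O) (X - O)
  exact div_nonneg (by linarith) (by linarith)

theorem Ctx.le_one (c : Ctx M O) {X : Pl} (hX : X ∈ M) : g M O (X - O) ≤ 1 :=
  (c.lt_one.2 (by simpa using hX)).le

theorem Ctx.foot (c : Ctx M O) (hd : IsHilbertMetric M d) {B : Pl} (hB : B ∈ M) (C : Pl) :
    ∃ F, IsFoot M d O B C F := by
  have hc := c.cont
  let K : Set Pl := {X | g M O (X - O) ≤ 1} ∩ (affineSpan ℝ {B, C} : Set Pl)
  have hK : IsCompact K := by
    refine Metric.isCompact_of_isClosed_isBounded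
      ((isClosed_le (by fun_prop) continuous_const).inter
        (affineSpan ℝ {B, C}).closed_of_finiteDimensional) ?_
    obtain ⟨R, hR⟩ := c.bd'.closure.exists_norm_le
    refine isBounded_iff_forall_norm_le.2 ⟨R + ‖O‖, fun X hX => ?_⟩
    have h1 := hR _ ((gauge_le_one_iff_mem_closure c.cv' c.nhds').1 hX.1)
    have := norm_add_le (X - O) O
    rw [sub_add_cancel] at this
    linarith
  have hBK : B ∈ K := ⟨c.le_one hB, left_mem_affineSpan_pair _ _ _⟩
  obtain ⟨F, hF, hmin⟩ := hK.exists_isMinOn ⟨B, hBK⟩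
    (fun X hX => (c.contAt hX.1).continuousWithinAt)
  have hFM : F ∈ M := by
    have h1 : h M O F < 1 := lt_of_le_of_lt (hmin hBK) (by
      rw [← c.tanh_eq hd hB]; exact Real.tanh_lt_one _)
    have h2 := g_nonneg (M := M) (O := O) (O - F)
    have h3 : g M O (F - O) ≤ 1 := hF.1
    rw [h, div_lt_one (by linarith)] at h1
    simpa using c.lt_one.1 (show g M O (F - O) < 1 by linarith)
  refine ⟨F, ⟨hFM, hF.2⟩, fun X hX => ?_⟩
  have h1 : h M O F ≤ h M O X := hmin ⟨c.le_one hX.1, hX.2⟩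
  rw [← c.tanh_eq hd hFM, ← c.tanh_eq hd hX.1] at h1
  simpa only [Real.artanh_tanh] using
    Real.artanh_le_artanh (Real.neg_one_lt_tanh _) (Real.tanh_lt_one _) h1

theorem Ctx.main (c : Ctx M O) (hd : IsHilbertMetric M d) {ε : ℝ} (hε : 0 < ε) :
    ∃ r ∈ ratios M d, r < 2 + ε := by
  obtain ⟨ρ, hρ, hball⟩ := Metric.isOpen_iff.1 c.op O c.mem
  let e0 : Pl := EuclideanSpace.single 0 (ρ / 2)
  let e1 : Pl := EuclideanSpace.single 1 1
  have hB0 : O + e0 ∈ M := hball (by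
    rw [Metric.mem_ball, dist_self_add_left]; simp [e0, abs_of_pos hρ]; linarith)
  obtain ⟨P, hP, hPmin⟩ := c.foot hd hB0 (O + e0 + e1)
  obtain ⟨s, hs⟩ := (mem_affineSpan_pair_iff_exists_lineMap_eq).1 hP.2
  rw [AffineMap.lineMap_apply, vsub_eq_sub, vadd_eq_add, add_sub_cancel_left] at hs
  have hP0 : P 0 = O 0 + ρ / 2 := by rw [← hs]; simp [e0, e1]
  have hPO : P ≠ O := fun h => by rw [h] at hP0; linarith
  have hhP : 0 < h M O P := by
    have h1 := g_nonneg (M := M) (O := O) (O - P)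
    have h2 := c.pos (sub_ne_zero.2 hPO)
    have h3 := c.le_one hP.1
    exact div_pos (by linarith) (by linarith)
  have hA : Tendsto (fun δ : ℝ => O - δ • (P - O)) (𝓝 0) (𝓝 O) := by
    have : Continuous fun δ : ℝ => O - δ • (P - O) := by fun_prop
    simpa using this.tendsto 0
  have hB : Tendsto (fun δ : ℝ => P + δ • e1) (𝓝 0) (𝓝 P) := by
    have : Continuous fun δ : ℝ => P + δ • e1 := by fun_prop
    simpa using this.tendsto 0
  have hC : Tendsto (fun δ : ℝ => P - δ • e1) (𝓝 0) (𝓝 P) := by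
    have : Continuous fun δ : ℝ => P - δ • e1 := by fun_prop
    simpa using this.tendsto 0
  have h0 : h M O O = 0 := by simp [h, g, gauge_zero]
  have h1 := (((c.contAt (c.le_one c.mem)).tendsto.comp hA).add
    ((c.contAt (c.le_one hP.1)).tendsto.comp hB)).add ((c.contAt (c.le_one hP.1)).tendsto.comp hC)
  have h2 := h1.eventually (gt_mem_nhds (show h M O O + h M O P + h M O P < (2 + ε) * h M O P by
    rw [h0]; nlinarith [mul_pos hε hhP]))
  obtain ⟨δ, ⟨⟨⟨h3, h4⟩, h5⟩, h6⟩, hδ⟩ := ((((h2.and (hA.eventually (c.op.mem_nhds c.mem))).and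
    (hB.eventually (c.op.mem_nhds hP.1))).and (hC.eventually (c.op.mem_nhds hP.1))).filter_mono
    (nhdsWithin_le_nhds (s := Ioi 0))).and self_mem_nhdsWithin |>.exists
  have hδ' : 0 < δ := hδ
  obtain ⟨Q, hQ⟩ := c.foot hd h6 (O - δ • (P - O))
  obtain ⟨R, hR⟩ := c.foot hd h4 (P + δ • e1)
  refine ⟨_, ⟨_, h4, _, h5, _, h6, O, P, Q, R, ?_, ⟨(1 + δ)⁻¹, δ / (1 + δ) / 2, δ / (1 + δ) / 2,
    by positivity, by positivity, by positivity, by field_simp; ring, ?_⟩, ⟨⟨hP.1, ?_⟩, ?_⟩, hQ, hR,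
    rfl⟩, ?_⟩
  · intro hcol
    obtain ⟨v, hv⟩ := (collinear_iff_of_mem (p₀ := P + δ • e1) (by simp)).1 hcol
    obtain ⟨r1, hr1⟩ := hv (O - δ • (P - O)) (by simp)
    obtain ⟨r2, hr2⟩ := hv (P - δ • e1) (by simp)
    have a0 := congrArg (fun x : Pl => x 0) hr1
    have b0 := congrArg (fun x : Pl => x 0) hr2
    have b1 := congrArg (fun x : Pl => x 1) hr2
    simp [e1, hP0] at a0 b0 b1
    rcases b0 with b0 | b0
    · rw [b0] at b1; linarith
    · rw [b0] at a0; nlinarith [mul_pos hδ' hρ]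
  · match_scalars <;> field_simp <;> ring
  · refine (mem_affineSpan_pair_iff_exists_lineMap_eq).2 ⟨1 / 2, ?_⟩
    rw [AffineMap.lineMap_apply, vsub_eq_sub, vadd_eq_add]; module
  · rintro X ⟨hX, h7⟩
    refine hPmin X ⟨hX, ?_⟩
    obtain ⟨t, rfl⟩ := (mem_affineSpan_pair_iff_exists_lineMap_eq).1 h7
    refine (mem_affineSpan_pair_iff_exists_lineMap_eq).2 ⟨s + δ - 2 * t * δ, ?_⟩
    rw [AffineMap.lineMap_apply, AffineMap.lineMap_apply, vsub_eq_sub, vadd_eq_add, vsub_eq_sub,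
      vadd_eq_add, ← hs]
    module
  · rw [c.tanh_eq hd h4, c.tanh_eq hd h5, c.tanh_eq hd h6, c.tanh_eq hd hP.1, c.tanh_eq hd hQ.1.1,
      c.tanh_eq hd hR.1.1]
    have q0 := h_nonneg (c.le_one hQ.1.1)
    have r0 := h_nonneg (c.le_one hR.1.1)
    rw [div_lt_iff₀ (by linarith)]
    simp only [Function.comp] at h3
    nlinarith [mul_nonneg hε.le q0, mul_nonneg hε.le r0]

theorem bddBelow (op : IsOpen M) (cv : Convex ℝ M) (bd : Bornology.IsBounded M)
    (hd : IsHilbertMetric M d) : BddBelow (ratios M d) := by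
  refine ⟨0, ?_⟩
  rintro _ ⟨A, hA, B, hB, C, hC, O, P, Q, R, -, ⟨a, b, c, ha, hb, hc, habc, hO⟩, hP, hQ, hR, rfl⟩
  have hOM : O ∈ M := by
    have := cv.sum_mem (t := Finset.univ) (w := ![a, b, c]) (z := ![A, B, C])
      (fun i _ => by fin_cases i <;> simp [ha.le, hb.le, hc.le])
      (by simpa [Fin.sum_univ_three] using habc) (fun i _ => by fin_cases i <;> simpa)
    rw [hO]; simpa [Fin.sum_univ_three] using this
  have c : Ctx M O := ⟨op, cv, bd, hOM⟩
  have k : ∀ X ∈ M, 0 ≤ Real.tanh (d O X) := fun X hX => by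
    rw [c.tanh_eq hd hX]; exact h_nonneg (c.le_one hX)
  have := k A hA; have := k B hB; have := k C hC
  have := k P hP.1.1; have := k Q hQ.1.1; have := k R hR.1.1
  positivity

end Pool.Agent.H84.Hilb
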