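import Mathlib

set_option autoImplicit false

namespace Pool.Agent.H84.Hull

open Set Metric GromovHausdorff unitInterval

def c : Fin 3 → ℝ := ![-1, 0, 1]

def G (_ : I) : Type := Fin 3

theorem inj (t : I) : Function.Injective fun a : Fin 3 => c a * (1 + (t : ℝ)) := by
  intro a b h
  have h0 : (1 + (t : ℝ)) ≠ 0 := by linarith [t.2.1]
  have := mul_right_cancel₀ h0 h
  fin_cases a <;> fin_cases b <;> simp [c] at this ⊢ <;> norm_num at this

noncomputable instance (t : I) : MetricSpace (G t) :=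
  MetricSpace.induced (fun a : Fin 3 => c a * (1 + (t : ℝ))) (inj t) inferInstance
instance (t : I) : Finite (G t) := inferInstanceAs (Finite (Fin 3))
instance (t : I) : Nonempty (G t) := inferInstanceAs (Nonempty (Fin 3))

theorem dG (t : I) (a b : G t) : dist a b = |c a * (1 + t) - c b * (1 + t)| := rfl

def F (l : ℝ) (p : I × Fin 3) : ℝ × ℝ := (c p.2 * (1 + p.1), if p.2 = 1 then l * p.1 else 0)

def X (l : ℝ) : Set (ℝ × ℝ) := range (F l)

instance (l : ℝ) : CompactSpace (X l) := by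
  refine isCompact_iff_compactSpace.1 (isCompact_range ?_)
  refine continuous_prod_of_discrete_right.2 fun a => ?_
  unfold F
  by_cases h : a = 1 <;> simp only [h, if_true, if_false] <;> fun_prop

def φ (l : ℝ) (t : I) (a : G t) : X l := ⟨F l (t, a), mem_range_self _⟩

theorem φ_iso {l : ℝ} (h0 : 0 ≤ l) (h1 : l ≤ 1) (t : I) : Isometry (φ l t) := by
  refine Isometry.of_dist_eq fun a b => ?_
  change dist (F l (t, a)) (F l (t, b)) = _
  rw [dG, Prod.dist_eq, Real.dist_eq, Real.dist_eq]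
  refine max_eq_left ?_
  have h2 := t.2.1
  have h3 : |l * t| ≤ |1 + (t : ℝ)| := by
    rw [abs_of_nonneg (by positivity), abs_of_nonneg (by positivity)]; nlinarith
  have h4 : |-(t : ℝ) + -1| = |1 + (t : ℝ)| := by rw [← abs_neg]; congr 1; ring
  change Fin 3 at a b
  fin_cases a <;> fin_cases b <;> simp [F, c, h4] <;> simpa using h3

theorem d_same {l : ℝ} (h0 : 0 ≤ l) (h1 : l ≤ 1) (s t : I) (a : Fin 3) :
    dist (φ l s a) (φ l t a) ≤ |(s : ℝ) - t| := by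
  change dist (F l (s, a)) (F l (t, a)) ≤ _
  rw [Prod.dist_eq, Real.dist_eq, Real.dist_eq]
  have h2 : |l * s - l * t| ≤ |(s : ℝ) - t| := by
    rw [← mul_sub, abs_mul, abs_of_nonneg h0]; nlinarith [abs_nonneg ((s : ℝ) - t)]
  fin_cases a <;> simp [F, c, h2]
  rw [← abs_neg]; apply le_of_eq; congr 1; ring

theorem hd_le {l : ℝ} (h0 : 0 ≤ l) (h1 : l ≤ 1) (s t : I) :
    hausdorffDist (range (φ l s)) (range (φ l t)) ≤ |(s : ℝ) - t| := by
  refine hausdorffDist_le_of_mem_dist (abs_nonneg _) ?_ ?_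
  · rintro _ ⟨a, rfl⟩; exact ⟨_, ⟨a, rfl⟩, d_same h0 h1 s t a⟩
  · rintro _ ⟨a, rfl⟩; exact ⟨_, ⟨a, rfl⟩, by rw [abs_sub_comm]; exact d_same h0 h1 t s a⟩

theorem gh_ge' (s t : I) : (s : ℝ) - t ≤ ghDist (G s) (G t) := by
  obtain ⟨Φ, Ψ, hΦ, hΨ, h⟩ := ghDist_eq_hausdorffDist (G s) (G t)
  rw [h]
  have h1 : ∀ a : G s, ∃ b : G t, dist (Φ a) (Ψ b) ≤ hausdorffDist (range Φ) (range Ψ) := fun a => by
    obtain ⟨_, ⟨b, rfl⟩, hb⟩ := (finite_range Ψ).isCompact.exists_infDist_eq_dist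
      (range_nonempty _) (Φ a)
    refine ⟨b, hb ▸ Metric.infDist_le_hausdorffDist_of_mem (mem_range_self a) ?_⟩
    exact Metric.hausdorffEDist_ne_top_of_nonempty_of_bounded (range_nonempty _)
      (range_nonempty _) (finite_range _).isBounded (finite_range _).isBounded
  obtain ⟨a, ha⟩ := h1 (0 : Fin 3)
  obtain ⟨b, hb⟩ := h1 (2 : Fin 3)
  have h2 := dist_triangle4 (Φ (0 : Fin 3)) (Ψ a) (Ψ b) (Φ (2 : Fin 3))
  have hs := s.2.1
  have ht := t.2.1
  have h3 : dist (Φ (0 : Fin 3)) (Φ (2 : Fin 3)) = 2 + 2 * s := by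
    rw [hΦ.dist_eq, dG, abs_sub_comm, abs_of_nonneg] <;> simp [c] <;> linarith
  have h4 : dist (Ψ a) (Ψ b) ≤ 2 + 2 * t := by
    rw [hΨ.dist_eq, dG, abs_le]
    change Fin 3 at a b
    fin_cases a <;> fin_cases b <;> simp [c] <;> (try constructor) <;> linarith
  rw [dist_comm (Ψ b)] at h2
  linarith

theorem gh_comm (s t : I) : ghDist (G s) (G t) = ghDist (G t) (G s) := dist_comm _ _

theorem gh_ge (s t : I) : |(s : ℝ) - t| ≤ ghDist (G s) (G t) :=
  abs_le.2 ⟨by linarith [gh_ge' t s, gh_comm s t], gh_ge' s t⟩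

theorem gh_eq (s t : I) : ghDist (G s) (G t) = |(s : ℝ) - t| :=
  le_antisymm ((ghDist_le_hausdorffDist (φ_iso le_rfl zero_le_one s)
    (φ_iso le_rfl zero_le_one t)).trans (hd_le le_rfl zero_le_one s t)) (gh_ge s t)

theorem hd_eq {l : ℝ} (h0 : 0 ≤ l) (h1 : l ≤ 1) (s t : I) :
    hausdorffDist (range (φ l s)) (range (φ l t)) = ghDist (G s) (G t) :=
  le_antisymm ((hd_le h0 h1 s t).trans (gh_ge s t))
    (ghDist_le_hausdorffDist (φ_iso h0 h1 s) (φ_iso h0 h1 t))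

theorem un (l : ℝ) : ⋃ t, range (φ l t) = univ := by
  refine eq_univ_of_forall ?_
  rintro ⟨_, ⟨t, a⟩, rfl⟩
  exact mem_iUnion.2 ⟨t, a, rfl⟩

theorem iso0 (x : X 0) : x = φ 0 0 (1 : Fin 3) ∨ 1 ≤ dist x (φ 0 0 (1 : Fin 3)) := by
  obtain ⟨_, ⟨t, a⟩, rfl⟩ := x
  have ht := t.2.1
  by_cases h : a = 1
  · left; subst h; apply Subtype.ext; simp [φ, F, c]
  · right
    change 1 ≤ dist (F 0 (t, a)) (F 0 (0, 1))
    rw [Prod.dist_eq, Real.dist_eq]
    refine le_max_of_le_left ?_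
    fin_cases a <;> simp [F, c] at h ⊢
    · rw [abs_of_nonpos] <;> linarith
    · rw [abs_of_nonneg] <;> linarith

theorem near1 (y : X 1) : ∃ z, z ≠ y ∧ dist z y < 1 := by
  obtain ⟨_, ⟨t, a⟩, rfl⟩ := y
  obtain ⟨s, hs, hs'⟩ : ∃ s : I, s ≠ t ∧ |(s : ℝ) - t| < 1 := by
    by_cases h : (t : ℝ) = 1 / 2
    · refine ⟨0, fun h' => ?_, ?_⟩
      · rw [← h'] at h; norm_num at h
      · rw [h]; norm_num [abs_of_nonneg]
    · refine ⟨⟨1 / 2, by norm_num, by norm_num⟩, fun h' => h (by rw [← h']), ?_⟩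
      rw [abs_lt]; constructor <;> linarith [t.2.1, t.2.2]
  refine ⟨φ 1 s a, fun h => hs (Subtype.ext ?_), (d_same zero_le_one le_rfl s t a).trans_lt hs'⟩
  have := congrArg Subtype.val h
  fin_cases a <;> simpa [φ, F, c] using this

theorem noIso : IsEmpty (X 0 ≃ᵢ X 1) := by
  refine ⟨fun e => ?_⟩
  obtain ⟨z, hz, hz'⟩ := near1 (e (φ 0 0 (1 : Fin 3)))
  obtain ⟨x, rfl⟩ := e.surjective z
  rw [e.dist_eq] at hz'
  rcases iso0 x with h | h
  · exact hz (by rw [h])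
  · linarith

theorem noIso' : IsEmpty ((⋃ t, range (φ 0 t)) ≃ᵢ (⋃ t, range (φ 1 t))) := by
  rw [un, un]
  refine ⟨fun e => noIso.false ⟨(Equiv.Set.univ _).symm.trans (e.toEquiv.trans (Equiv.Set.univ _)),
    Isometry.of_dist_eq fun a b => ?_⟩⟩
  exact e.dist_eq ⟨a, trivial⟩ ⟨b, trivial⟩

end Pool.Agent.H84.Hull
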