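import Pool.Agent.H84.HullA

/-! The sequence of open sets and the ccc poset. -/

namespace Pool.Agent.H84.MHull

open Set Cardinal MeasureTheory

theorem wf_rec {I α : Type} [LinearOrder I] [WellFoundedLT I] [Nonempty α]
    (P : I → (I → α) → α → Prop)
    (hP : ∀ g f f' a, (∀ h < g, f h = f' h) → P g f a → P g f' a) (h : ∀ g f, ∃ a, P g f a) :
    ∃ f, ∀ g, P g f (f g) := by
  classical
  choose c hc using h
  let F : (g : I) → ((h : I) → h < g → α) → α := fun g prev =>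
    c g fun h => if hh : h < g then prev h hh else Classical.arbitrary α
  refine ⟨wellFounded_lt.fix F, fun g => ?_⟩
  rw [WellFounded.fix_eq]
  exact hP _ _ _ _ (fun h hh => dif_pos hh) (hc g _)

theorem cnt {X : Type} {S : Set X} (hS : S.Countable) : {w : Finset X | ∀ x ∈ w, x ∈ S}.Countable :=
  Countable.mono (by intro w hw; exact ⟨w.finite_toSet, hw⟩)
    ((countable_setOf_finite_subset hS).preimage_of_injOn Finset.coe_injective.injOn)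

abbrev J := ℚ × ℚ

def iv (i : J) : Set ℝ := Icc (i.1 : ℝ) i.2

def EE (f : W → Set ℝ × Set ℝ) (v : Finset J) (w u : Finset W) : Set ℝ :=
  {x | (∀ i ∈ v, x ∈ iv i) ∧ (∀ β ∈ w, x ∉ (f β).2) ∧ ∀ β ∈ u, x ∈ (f β).1}

theorem exists_seq (ψ : Set ℝ → Set ℝ) (hψ : ∀ O, IsOpen O → volume (ψ O \ O) = 0) (k : W → ℕ) :
    ∃ f : W → Set ℝ × Set ℝ, (∀ α, IsOpen (f α).1 ∧ IsOpen (f α).2 ∧ ψ (f α).1 ⊆ (f α).2 ∧
      volume (f α).2 < (k α : ENNReal)⁻¹) ∧ ∀ v w u, (∀ β ∈ w, ∀ α ∈ u, β < α) →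
        volume (EE f v w ∅) ≠ 0 → volume (EE f v w u) ≠ 0 := by
  classical
  obtain ⟨f, hf⟩ := wf_rec (fun (α : W) (f : W → Set ℝ × Set ℝ) a => (IsOpen a.1 ∧ IsOpen a.2 ∧
      ψ a.1 ⊆ a.2 ∧ volume a.2 < (k α : ENNReal)⁻¹) ∧ ∀ v w u, (∀ β ∈ w, β ∈ Iio α) →
      (∀ β ∈ u, β ∈ Iio α) → volume (EE f v w u) ≠ 0 → volume (EE f v w u ∩ a.1) ≠ 0) (by
    rintro α f f' a h ⟨h1, h2⟩
    refine ⟨h1, fun v w u hw hu => ?_⟩
    have : EE f' v w u = EE f v w u := by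
      ext x
      exact and_congr_right' (and_congr (forall₂_congr fun β hβ => by rw [h β (hw β hβ)])
        (forall₂_congr fun β hβ => by rw [h β (hu β hβ)]))
    rw [this]
    exact h2 v w u hw hu) (by
    intro α f
    have := (cnt ((W_Iic α).mono Iio_subset_Iic_self)).to_subtype
    obtain ⟨O, h1, h2, h3⟩ := exists_small (fun i : Finset J × {w : Finset W | ∀ x ∈ w, x ∈ Iio α} ×
      {w : Finset W | ∀ x ∈ w, x ∈ Iio α} => EE f i.1 i.2.1 i.2.2) (ε := (k α : ENNReal)⁻¹) (by simp)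
    obtain ⟨V, h4, h5, h6⟩ := (ψ O).exists_isOpen_lt_of_lt (μ := volume) _
      (((measure_le_inter_add_diff volume (ψ O) O).trans (by
        rw [hψ O h1, add_zero]; exact measure_mono inter_subset_right)).trans_lt h2)
    exact ⟨(O, V), ⟨h1, h5, h4, h6⟩, fun v w u hw hu => h3 (v, ⟨w, hw⟩, ⟨u, hu⟩)⟩)
  refine ⟨f, fun α => (hf α).1, fun v w u => ?_⟩
  induction u using Finset.induction_on_max with
  | empty => exact fun _ h => h
  | insert a s ha ih =>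
    intro h h0 h1
    refine (hf a).2 v w s (fun β hβ => h β hβ a (by simp)) ha
      (ih (fun β hβ α hα => h β hβ α (by simp [hα])) h0) (measure_mono_null ?_ h1)
    rintro x ⟨⟨h2, h3, h4⟩, h5⟩
    exact ⟨h2, h3, by simpa [h5] using h4⟩

theorem closing {X : Type} [Countable X] (g : Finset (W × X) → Set W) (hg : ∀ r, (g r).Countable) :
    ∃ S : Set W, S.Countable ∧ (∀ a ∈ S, ∀ b, b ≤ a → b ∈ S) ∧
      ∀ r, (∀ x ∈ r, x.1 ∈ S) → g r ⊆ S := by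
  have : ∀ a : W, ∃ b, a ≤ b ∧ ∀ r : Finset (W × X), (∀ x ∈ r, x.1 ≤ a) → g r ⊆ Iic b := by
    intro a
    obtain ⟨b, hb⟩ := W_bdd (((cnt ((W_Iic a).prod (countable_univ (α := X)))).biUnion
      fun r _ => hg r).insert a)
    exact ⟨b, (hb a (by simp)).le, fun r hr c hc => (hb c (Or.inr (mem_biUnion
      (fun x hx => ⟨hr x hx, trivial⟩) hc))).le⟩
  choose n h1 h2 using this
  let d : ℕ → W := fun m => n^[m] (Classical.arbitrary W)
  have hd : ∀ m, d (m + 1) = n (d m) := fun m => Function.iterate_succ_apply' _ _ _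
  have hm : Monotone d := monotone_nat_of_le_succ fun m => hd m ▸ h1 _
  refine ⟨⋃ m, Iic (d m), countable_iUnion fun m => W_Iic _, fun a ha b hb => ?_, fun r hr => ?_⟩
  · exact mem_iUnion.2 ((mem_iUnion.1 ha).imp fun m h => hb.trans h)
  · choose! t ht using fun x hx => mem_iUnion.1 (hr x hx)
    exact (h2 (d (r.sup t)) r fun x hx => (ht x hx).trans (hm (Finset.le_sup hx))).trans
      (hd _ ▸ subset_iUnion (fun m => Iic (d m)) _)

variable (f : W → Set ℝ × Set ℝ)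

def KK (p : Finset (W × J)) (β : W) : Set ℝ := {x | ∀ i, (β, i) ∈ p → x ∈ iv i}

def Good (p : Finset (W × J)) : Prop :=
  ∀ y ∈ p, volume (KK p y.1 \ (f y.1).2) ≠ 0 ∧ ∀ z ∈ p, z.1 < y.1 → KK p y.1 ⊆ (f z.1).1

variable {f}

theorem ccc (ho : ∀ α, IsOpen (f α).1) (hf : ∀ v w u, (∀ β ∈ w, ∀ α ∈ u, β < α) →
    volume (EE f v w ∅) ≠ 0 → volume (EE f v w u) ≠ 0) (A : Set (Finset (W × J)))
    (hA : ∀ p ∈ A, Good f p) (hu : ¬ A.Countable) :
    ∃ p ∈ A, ∃ q ∈ A, p ≠ q ∧ ∃ r, Good f r ∧ p ⊆ r ∧ q ⊆ r := by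
  classical
  have h1 : ∀ r : Finset (W × J), ∃ γ, (∃ γ', ∀ q ∈ A, r ⊆ q → ∃ x ∈ q, x ∉ r ∧ x.1 ≤ γ') →
      ∀ q ∈ A, r ⊆ q → ∃ x ∈ q, x ∉ r ∧ x.1 ≤ γ := fun r => by
    by_cases h : ∃ γ', ∀ q ∈ A, r ⊆ q → ∃ x ∈ q, x ∉ r ∧ x.1 ≤ γ'
    exacts [h.imp fun γ h _ => h, ⟨Classical.arbitrary W, fun h' => absurd h' h⟩]
  have h2 : ∀ (r : Finset (W × J)) (v : Finset J), ∃ q : Finset (W × J),
      (∃ q' ∈ A, r ⊆ q' ∧ ∀ x ∈ q', x ∉ r → ∀ i ∈ v, iv i ⊆ (f x.1).1) →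
      q ∈ A ∧ r ⊆ q ∧ ∀ x ∈ q, x ∉ r → ∀ i ∈ v, iv i ⊆ (f x.1).1 := fun r v => by
    by_cases h : ∃ q' ∈ A, r ⊆ q' ∧ ∀ x ∈ q', x ∉ r → ∀ i ∈ v, iv i ⊆ (f x.1).1
    exacts [h.imp fun γ h _ => h, ⟨∅, fun h' => absurd h' h⟩]
  choose γ hγ using h1
  choose D hD using h2
  obtain ⟨S, hS, hl, hc⟩ := closing (fun r => insert (γ r) (⋃ v, Prod.fst '' (D r v : Set (W × J))))
    fun r => (countable_iUnion fun v => (D r v).countable_toSet.image _).insert _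
  obtain ⟨p, hp, hpS⟩ : ∃ p ∈ A, ¬ ∀ x ∈ p, x.1 ∈ S := by
    by_contra h
    push Not at h
    refine hu ((cnt (hS.prod (countable_univ (α := J)))).mono ?_)
    intro p hp x hx
    exact ⟨h p hp x hx, trivial⟩
  let r := p.filter fun x => x.1 ∈ S
  have hr := hc r fun x hx => (Finset.mem_filter.1 hx).2
  have hlt : ∀ a ∈ S, ∀ b, b ∉ S → a < b := fun a ha b hb => not_le.1 fun h => hb (hl a ha b h)
  obtain ⟨m, hm⟩ := W_bdd (p.countable_toSet.image Prod.fst)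
  obtain ⟨q, hq, hrq, hq'⟩ : ∃ q ∈ A, r ⊆ q ∧ ∀ x ∈ q, x ∉ r → m < x.1 := by
    by_contra h
    push Not at h
    obtain ⟨x, hx, hx', hx''⟩ := hγ r ⟨m, h⟩ p hp (Finset.filter_subset _ _)
    exact hx' (Finset.mem_filter.2 ⟨hx, hl _ (hr (Or.inl rfl)) _ hx''⟩)
  have h3 : ∀ y ∈ p, ∃ i, (∀ x ∈ q, x ∉ r → iv i ⊆ (f x.1).1) ∧
      volume ((KK p y.1 \ (f y.1).2) ∩ iv i) ≠ 0 := by
    intro y hy
    have h4 := hf ((p.filter fun x => x.1 = y.1).image Prod.snd) {y.1} ((q \ r).image Prod.fst)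
      (by
        simp only [Finset.mem_singleton, Finset.mem_image, Finset.mem_sdiff]
        rintro _ rfl _ ⟨x, hx, rfl⟩
        exact (hm _ ⟨y, hy, rfl⟩).trans (hq' x hx.1 hx.2))
      fun h => (hA p hp y hy).1 (measure_mono_null (by
        intro x hx
        refine ⟨?_, by simpa using hx.2, by simp⟩
        simp only [Finset.mem_image, Finset.mem_filter]
        rintro _ ⟨⟨b, i⟩, ⟨h5, rfl⟩, rfl⟩
        exact hx.1 i h5) h)
    obtain ⟨i, h5, h6⟩ := exists_Icc (E := KK p y.1 \ (f y.1).2)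
      (isOpen_biInter_finset (s := q \ r) fun x _ => ho x.1) fun h => h4 (measure_mono_null
        (by
          intro x hx
          exact ⟨⟨fun i hi => hx.1 i (Finset.mem_image.2
          ⟨_, Finset.mem_filter.2 ⟨hi, rfl⟩, rfl⟩), hx.2.1 _ (by simp)⟩,
          mem_iInter₂.2 fun z hz => hx.2.2 _ (Finset.mem_image_of_mem _ hz)⟩) h)
    exact ⟨i, fun x hx hx' => h5.trans (biInter_subset_of_mem (t := fun x : W × J => (f x.1).1)
      (Finset.mem_coe.2 (Finset.mem_sdiff.2 ⟨hx, hx'⟩))), h6⟩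
  choose! j hj hj' using h3
  -- make the interval depend only on the ordinal
  have h4 : ∀ β : W, ∃ i, ∀ y ∈ p, y.1 = β → ∃ y' ∈ p, y'.1 = β ∧ i = j y' := fun β => by
    by_cases h : ∃ y ∈ p, y.1 = β
    · obtain ⟨y, hy, h⟩ := h
      exact ⟨j y, fun _ _ _ => ⟨y, hy, h, rfl⟩⟩
    · exact ⟨(0, 0), fun y hy h' => absurd ⟨y, hy, h'⟩ h⟩
  choose l hl' using h4
  obtain ⟨h5, h6, h7⟩ := hD r (p.image j) ⟨q, hq, hrq, fun x hx hx' i hi => by
    obtain ⟨y, hy, rfl⟩ := Finset.mem_image.1 hi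
    exact hj y hy x hx hx'⟩
  set d := D r (p.image j)
  have hdS : ∀ x ∈ d, x.1 ∈ S := fun x hx => hr (Or.inr (mem_iUnion.2 ⟨_, x, hx, rfl⟩))
  let t := d ∪ p ∪ (p.filter fun x => x.1 ∉ S).image fun x => (x.1, l x.1)
  have ht : ∀ x, x ∈ t ↔ x ∈ d ∨ (x.1 ∉ S ∧ (x ∈ p ∨ (∃ y ∈ p, y.1 = x.1) ∧ x.2 = l x.1)) := by
    rintro ⟨b, i⟩
    simp only [t, Finset.mem_union, Finset.mem_image, Finset.mem_filter, Prod.mk.injEq]
    constructor
    · rintro ((h | h) | ⟨y, ⟨h, h'⟩, rfl, rfl⟩)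
      · exact Or.inl h
      · by_cases hb : b ∈ S
        exacts [Or.inl (h6 (Finset.mem_filter.2 ⟨h, hb⟩)), Or.inr ⟨hb, Or.inl h⟩]
      · exact Or.inr ⟨h', Or.inr ⟨⟨y, h, rfl⟩, rfl⟩⟩
    · rintro (h | ⟨h, h' | ⟨⟨y, hy, rfl⟩, rfl⟩⟩)
      exacts [Or.inl (Or.inl h), Or.inl (Or.inr h'), Or.inr ⟨y, ⟨hy, h⟩, rfl, rfl⟩]
  refine ⟨p, hp, d, h5, fun h => hpS (h ▸ hdS), t, fun y hy => ?_,
    Finset.subset_union_right.trans Finset.subset_union_left,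
    Finset.subset_union_left.trans Finset.subset_union_left⟩
  by_cases hyS : y.1 ∈ S
  · have hyd : y ∈ d := ((ht y).1 hy).resolve_right fun h => h.1 hyS
    have : KK t y.1 = KK d y.1 := by
      ext x
      exact forall_congr' fun i => by simp [ht, hyS]
    rw [this]
    exact ⟨(hA d h5 y hyd).1, fun z hz h => (hA d h5 y hyd).2 z
      (((ht z).1 hz).resolve_right fun h' => h'.1 (hl _ hyS _ h.le)) h⟩
  · obtain ⟨y0, hy0, he⟩ : ∃ y0 ∈ p, y0.1 = y.1 := by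
      rcases (ht y).1 hy with h | ⟨-, h | h⟩
      exacts [absurd (hdS y h) hyS, ⟨y, h, rfl⟩, h.1]
    obtain ⟨y', hy', he', hl''⟩ := hl' y.1 y0 hy0 he
    have : KK t y.1 = KK p y'.1 ∩ iv (j y') := by
      ext x
      rw [he', ← hl'']
      refine ⟨fun h => ⟨fun i hi => h i ((ht _).2 (Or.inr ⟨hyS, Or.inl hi⟩)),
        h _ ((ht _).2 (Or.inr ⟨hyS, Or.inr ⟨⟨y0, hy0, he⟩, rfl⟩⟩))⟩, fun h i hi => ?_⟩
      rcases (ht _).1 hi with h' | ⟨-, h' | h'⟩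
      exacts [absurd (hdS _ h') hyS, h.1 i h', (show i = _ from h'.2) ▸ h.2]
    rw [this, ← he']
    refine ⟨fun h => hj' y' hy' (measure_mono_null (by intro x hx; exact ⟨⟨hx.1.1, hx.2⟩, hx.1.2⟩) h),
      fun z hz h => ?_⟩
    by_cases hzp : ∃ z0 ∈ p, z0.1 = z.1
    · obtain ⟨z0, hz0, hz'⟩ := hzp
      exact inter_subset_left.trans (hz' ▸ (hA p hp y' hy').2 z0 hz0 (hz' ▸ h))
    · rcases (ht z).1 hz with h' | ⟨-, h' | h'⟩
      · exact inter_subset_right.trans (h7 z h' (fun hr => hzp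
          ⟨z, (Finset.mem_filter.1 hr).1, rfl⟩) _ (Finset.mem_image_of_mem _ hy'))
      · exact absurd ⟨z, h', rfl⟩ hzp
      · exact absurd h'.1 hzp

end Pool.Agent.H84.MHull
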