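import Pool.Agent.H84.HullB

/-! Under MA and not CH there is no monotone Borel hull operation on the measurable sets. -/

namespace Pool.Agent.H84.MHull

open Set Cardinal MeasureTheory

theorem generic (hMA : MA) (h1 : ℵ₁ < (𝔠 : Cardinal.{0})) {f : W → Set ℝ × Set ℝ} {k : W → ℕ}
    (hk : ∀ n γ, ∃ α, γ < α ∧ k α = n) (ho : ∀ α, IsOpen (f α).1) (ho' : ∀ α, IsOpen (f α).2)
    (hv : ∀ α, volume (f α).2 < (k α : ENNReal)⁻¹)
    (hf : ∀ v w u, (∀ β ∈ w, ∀ α ∈ u, β < α) →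
      volume (EE f v w ∅) ≠ 0 → volume (EE f v w u) ≠ 0) :
    ∃ T : Set W, (∀ n γ, ∃ α ∈ T, γ < α ∧ n ≤ k α) ∧
      ∀ β ∈ T, ∃ x, x ∉ (f β).2 ∧ ∀ α ∈ T, α < β → x ∈ (f α).1 := by
  classical
  let P := {p : (Finset (W × J))ᵒᵈ // Good f (OrderDual.ofDual p)}
  have hne : Nonempty P := ⟨⟨OrderDual.toDual ∅, by simp [Good]⟩⟩
  obtain ⟨G, hG, hD⟩ := ma_ix hMA P (fun A hA => by
      by_contra hu
      obtain ⟨_, ⟨p, hp, rfl⟩, _, ⟨q, hq, rfl⟩, hne, r, hr, h2, h3⟩ := ccc ho hf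
        ((fun p : P => OrderDual.ofDual p.1) '' A) (by rintro _ ⟨p, -, rfl⟩; exact p.2)
        fun h => hu (countable_of_injective_of_countable_image (fun p _ q _ h => Subtype.ext h) h)
      exact hA hp hq (fun h => hne (by rw [h])) ⟨⟨OrderDual.toDual r, hr⟩, h2, h3⟩)
    (ι := W × ℕ) (by simpa using h1)
    (fun i => {p | ∃ y ∈ OrderDual.ofDual p.1, i.1 < y.1 ∧ i.2 ≤ k y.1}) (by
      rintro ⟨γ, n⟩ ⟨p, hp⟩
      set s := OrderDual.ofDual p
      have h2 := hf ∅ ∅ (s.image Prod.fst) (by simp) (by simp [EE])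
      obtain ⟨m, hm⟩ := ENNReal.exists_inv_nat_lt h2
      obtain ⟨b, hb⟩ := W_bdd ((s.countable_toSet.image Prod.fst).insert γ)
      obtain ⟨α, hα, hα'⟩ := hk (max m n) b
      have h3 : ∀ y ∈ s, y.1 < α := fun y hy => (hb _ (Or.inr ⟨y, hy, rfl⟩)).trans hα
      obtain ⟨i, h4, h5⟩ := exists_Icc (E := (f α).2ᶜ)
        (isOpen_biInter_finset (s := s) fun x _ => ho x.1) fun h => by
          have h6 : EE f ∅ ∅ (s.image Prod.fst) ⊆ (f α).2 ∪ ((f α).2ᶜ ∩ ⋂ x ∈ s, (f x.1).1) := by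
            intro x hx
            by_cases h7 : x ∈ (f α).2
            exacts [Or.inl h7, Or.inr ⟨h7, mem_iInter₂.2 fun z hz =>
              hx.2.2 _ (Finset.mem_image_of_mem _ hz)⟩]
          have h7 := (measure_mono (μ := volume) h6).trans (measure_union_le _ _)
          rw [h, add_zero] at h7
          refine ((hm.trans_le h7).trans (hv α)).not_ge (ENNReal.inv_le_inv.2 ?_)
          rw [hα']
          exact_mod_cast le_max_left m n
      refine ⟨⟨OrderDual.toDual (insert (α, i) s), fun y hy => ?_⟩, ⟨(α, i), Finset.mem_insert_self _ _,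
        (hb _ (Or.inl rfl)).trans hα, hα' ▸ le_max_right m n⟩, Finset.subset_insert _ _⟩
      simp only [OrderDual.ofDual_toDual, Finset.mem_insert] at hy ⊢
      rcases hy with rfl | hy
      · have : KK (insert (α, i) s) α = iv i := by
          ext x
          refine ⟨fun h => h i (by simp), fun h j hj => ?_⟩
          rcases Finset.mem_insert.1 hj with h' | h'
          exacts [(Prod.mk.inj h').2 ▸ h, absurd (h3 _ h') (lt_irrefl _)]
        rw [this]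
        refine ⟨by rwa [diff_eq, inter_comm], ?_⟩
        rintro z (rfl | hz) h
        exacts [absurd h (lt_irrefl _), h4.trans (biInter_subset_of_mem
          (t := fun x : W × J => (f x.1).1) (Finset.mem_coe.2 hz))]
      · have : KK (insert (α, i) s) y.1 = KK s y.1 := by
          ext x
          exact forall_congr' fun j => by simp [(h3 y hy).ne]
        rw [this]
        refine ⟨(hp y hy).1, ?_⟩
        rintro z (rfl | hz) h
        exacts [absurd (h.trans (h3 y hy)) (lt_irrefl _), (hp y hy).2 z hz h])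
  refine ⟨{α | ∃ p ∈ G, ∃ i, (α, i) ∈ OrderDual.ofDual p.1}, fun n γ => ?_, ?_⟩
  · obtain ⟨p, hp, y, hy, h⟩ := hD (γ, n)
    exact ⟨y.1, ⟨p, hp, y.2, hy⟩, h⟩
  · rintro β ⟨p0, hp0, i, hi⟩
    have hmono : ∀ p q : P, p ≤ q → KK (OrderDual.ofDual p.1) β ⊆ KK (OrderDual.ofDual q.1) β :=
      fun p q h x hx j hj => hx j (h hj)
    have hcl : ∀ p : P, IsClosed (KK (OrderDual.ofDual p.1) β \ (f β).2) := fun p => by
      refine IsClosed.sdiff ?_ (ho' β)
      simp only [KK, setOf_forall]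
      exact isClosed_iInter fun j => isClosed_iInter fun _ => isClosed_Icc
    have : Nonempty {p // p ∈ G ∧ p ≤ p0} := ⟨⟨p0, hp0, le_rfl⟩⟩
    obtain ⟨x, hx⟩ := IsCompact.nonempty_iInter_of_directed_nonempty_isCompact_isClosed
      (fun p : {p // p ∈ G ∧ p ≤ p0} => KK (OrderDual.ofDual p.1.1) β \ (f β).2)
      (fun p q => by
        obtain ⟨r, hr, h2, h3⟩ := hG _ p.2.1 _ q.2.1
        exact ⟨⟨r, hr, le_trans h2 p.2.2⟩, diff_subset_diff_left (hmono _ _ h2),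
          diff_subset_diff_left (hmono _ _ h3)⟩)
      (fun p => nonempty_of_measure_ne_zero (p.1.2 (β, i) (p.2.2 hi)).1)
      (fun p => isCompact_Icc.of_isClosed_subset (hcl _) fun x hx => hx.1 i (p.2.2 hi))
      fun p => hcl _
    refine ⟨x, (mem_iInter.1 hx ⟨p0, hp0, le_rfl⟩).2, ?_⟩
    rintro α ⟨q, hq, j, hj⟩ h
    obtain ⟨r, hr, h2, h3⟩ := hG _ hp0 _ hq
    exact (r.2 (β, i) (h2 hi)).2 (α, j) (h3 hj) h (mem_iInter.1 hx ⟨r, hr, h2⟩).1

theorem no_hull (hMA : MA) (h1 : ℵ₁ < (𝔠 : Cardinal.{0})) : ¬ ∃ ψ, MonoHull Leb ψ := by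
  rintro ⟨ψ, h2, h3⟩
  have hL : ∀ O : Set ℝ, IsOpen O → O ∈ Leb := fun O h => h.measurableSet.nullMeasurableSet
  obtain ⟨k, hk⟩ := exists_k
  obtain ⟨f, hf, hf'⟩ := exists_seq ψ (fun O h => (h2 O (hL O h)).2.2) k
  obtain ⟨T, hT, hT'⟩ := generic hMA h1 hk (fun α => (hf α).1) (fun α => (hf α).2.1)
    (fun α => (hf α).2.2.2) hf'
  let A := ⋂ α ∈ T, (f α).1
  have hA : A ∈ Leb := by
    refine NullMeasurableSet.of_null (by_contra fun h => ?_)
    obtain ⟨m, hm⟩ := ENNReal.exists_inv_nat_lt h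
    obtain ⟨α, hα, -, h4⟩ := hT m (Classical.arbitrary W)
    refine ((hm.trans_le (measure_mono ((biInter_subset_of_mem hα).trans
      ((h2 _ (hL _ (hf α).1)).2.1.trans (hf α).2.2.1)))).trans (hf α).2.2.2).not_ge
      (ENNReal.inv_le_inv.2 ?_)
    exact_mod_cast h4
  have hx : ∀ γ, ∃ x ∈ (ψ A)ᶜ, ∀ α ∈ T, α < γ → x ∈ (f α).1 := fun γ => by
    obtain ⟨β, hβ, h4, -⟩ := hT 0 γ
    obtain ⟨x, h5, h6⟩ := hT' β hβ
    exact ⟨x, fun h => h5 ((hf β).2.2.1 (h3 A hA _ (hL _ (hf β).1) (biInter_subset_of_mem hβ) h)),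
      fun α hα h => h6 α hα (h.trans h4)⟩
  have han := (h2 A hA).1.compl.analyticSet
  rw [AnalyticSet] at han
  rcases han with h | ⟨g, hg, h⟩
  · obtain ⟨x, h4, -⟩ := hx (Classical.arbitrary W)
    exact (h ▸ h4 : x ∈ (∅ : Set ℝ))
  obtain ⟨γ, hγ⟩ := cover hMA h1 T (fun α => g ⁻¹' (f α).1ᶜ)
    (fun α => (hf α).1.isClosed_compl.preimage hg) fun y => by
      have : g y ∉ A := fun h' => (h ▸ mem_range_self y : g y ∈ (ψ A)ᶜ) ((h2 A hA).2.1 h')
      simpa [A] using this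
  obtain ⟨x, h4, h5⟩ := hx γ
  obtain ⟨y, rfl⟩ : x ∈ range g := h ▸ h4
  obtain ⟨α, hα, h6, h7⟩ := hγ y
  exact h7 (h5 α hα h6)

end Pool.Agent.H84.MHull
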