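import Mathlib

/-! Martin's Axiom and monotone Borel hull operations. -/

namespace Pool.Agent.H84.MHull

open MeasureTheory

/-- MA: for every ccc partial order and every family of fewer than continuum many dense sets
there is a filter meeting all of them. -/
def MA : Prop :=
  ∀ (P : Type) [PartialOrder P] [Nonempty P],
    (∀ A : Set P, (A.Pairwise fun p q => ¬ ∃ r, r ≤ p ∧ r ≤ q) → A.Countable) →
    ∀ 𝒟 : Set (Set P), Cardinal.mk 𝒟 < Cardinal.continuum → (∀ D ∈ 𝒟, ∀ p, ∃ q ∈ D, q ≤ p) →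
    ∃ G : Set P, (∀ p ∈ G, ∀ q, p ≤ q → q ∈ G) ∧ (∀ p ∈ G, ∀ q ∈ G, ∃ r ∈ G, r ≤ p ∧ r ≤ q) ∧
      ∀ D ∈ 𝒟, (G ∩ D).Nonempty

/-- `ψ` is a monotone Borel hull operation on the family `𝓕`. -/
def MonoHull (𝓕 : Set (Set ℝ)) (ψ : Set ℝ → Set ℝ) : Prop :=
  (∀ M ∈ 𝓕, MeasurableSet (ψ M) ∧ M ⊆ ψ M ∧ volume (ψ M \ M) = 0) ∧
    ∀ M ∈ 𝓕, ∀ M' ∈ 𝓕, M ⊆ M' → ψ M ⊆ ψ M'

/-- Lebesgue measurable sets. -/
def Leb : Set (Set ℝ) := {M | NullMeasurableSet M volume}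

/-- Lebesgue null sets. -/
def Null : Set (Set ℝ) := {M | volume M = 0}

/-- The additivity of the null ideal. -/
noncomputable def addN : Cardinal :=
  sInf {κ | ∃ 𝓕 ⊆ Null, ⋃₀ 𝓕 ∉ Null ∧ Cardinal.mk 𝓕 = κ}

/-- The cofinality of the null ideal. -/
noncomputable def cofN : Cardinal :=
  sInf {κ | ∃ 𝓑 ⊆ Null, (∀ M ∈ Null, ∃ B ∈ 𝓑, M ⊆ B) ∧ Cardinal.mk 𝓑 = κ}

end Pool.Agent.H84.MHull
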