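import Mathlib

set_option autoImplicit false

namespace Pool.Agent.H84.Jia

open Set

@[ext] structure J where
  i : ℕ
  j : ℕ
  k : ℕ∞

instance : PartialOrder J where
  le a b := (a.i = b.i ∧ a.j = b.j ∧ a.k ≤ b.k) ∨ (b.i = a.i + 1 ∧ a.k ≤ b.j ∧ b.k = ⊤)
  le_refl a := Or.inl ⟨rfl, rfl, le_rfl⟩
  le_trans := by
    rintro a b c (⟨h1, h2, h3⟩ | ⟨h1, h2, h3⟩) (⟨h4, h5, h6⟩ | ⟨h4, h5, h6⟩)
    · exact Or.inl ⟨h1.trans h4, h2.trans h5, h3.trans h6⟩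
    · exact Or.inr ⟨h1 ▸ h4, h3.trans h5, h6⟩
    · exact Or.inr ⟨h4 ▸ h1, h5 ▸ h2, top_le_iff.1 (h3 ▸ h6)⟩
    · rw [h3] at h5; simp at h5
  le_antisymm := by
    rintro a b (⟨h1, h2, h3⟩ | ⟨h1, h2, h3⟩) (⟨h4, h5, h6⟩ | ⟨h4, h5, h6⟩)
    · exact J.ext h1 h2 (le_antisymm h3 h6)
    all_goals omega

theorem le_def {a b : J} : a ≤ b ↔
    (a.i = b.i ∧ a.j = b.j ∧ a.k ≤ b.k) ∨ (b.i = a.i + 1 ∧ a.k ≤ b.j ∧ b.k = ⊤) := Iff.rfl

theorem dcpo (d : Set J) (hne : d.Nonempty) (hd : DirectedOn (· ≤ ·) d) : ∃ x, IsLUB d x := by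
  by_cases h : ∃ m ∈ d, m.k = ⊤
  · obtain ⟨m, hm, hk⟩ := h
    refine ⟨m, IsGreatest.isLUB ⟨hm, fun a ha => ?_⟩⟩
    obtain ⟨c, -, h1, h2⟩ := hd a ha m hm
    rcases h2 with ⟨h3, h4, h5⟩ | ⟨-, h4, -⟩
    · rwa [show m = c from J.ext h3 h4 (le_antisymm h5 (hk ▸ le_top))]
    · rw [hk] at h4; simp at h4
  push Not at h
  obtain ⟨a, ha⟩ := hne
  have col : ∀ b ∈ d, b.i = a.i ∧ b.j = a.j := fun b hb => by
    obtain ⟨c, hc, h1 | h1, h2 | h2⟩ := hd a ha b hb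
    · exact ⟨h2.1.trans h1.1.symm, h2.2.1.trans h1.2.1.symm⟩
    · exact (h c hc h2.2.2).elim
    · exact (h c hc h1.2.2).elim
    · exact (h c hc h1.2.2).elim
  refine ⟨⟨a.i, a.j, ⨆ b ∈ d, b.k⟩, fun b hb => Or.inl ⟨(col b hb).1, (col b hb).2,
    le_iSup₂ (f := fun b (_ : b ∈ d) => b.k) b hb⟩, fun u hu => ?_⟩
  rcases hu ha with h1 | h1
  · refine Or.inl ⟨h1.1, h1.2.1, iSup₂_le fun b hb => ?_⟩
    rcases hu hb with h2 | h2
    · exact h2.2.2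
    · have := (col b hb).1; omega
  · refine Or.inr ⟨h1.1, iSup₂_le fun b hb => ?_, h1.2.2⟩
    rcases hu hb with h2 | h2
    · have := (col b hb).1; omega
    · exact h2.2.1

def Op (U : Set J) : Prop := IsUpperSet U ∧ ∀ i j, ⟨i, j, ⊤⟩ ∈ U → ∃ k : ℕ, ⟨i, j, k⟩ ∈ U

theorem col_le (i j : ℕ) {k l : ℕ∞} (h : k ≤ l) : (⟨i, j, k⟩ : J) ≤ ⟨i, j, l⟩ :=
  Or.inl ⟨rfl, rfl, h⟩

instance τ : TopologicalSpace J where
  IsOpen := Op
  isOpen_univ := ⟨isUpperSet_univ, fun _ _ _ => ⟨0, trivial⟩⟩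
  isOpen_inter U V hU hV := ⟨hU.1.inter hV.1, fun i j h => by
    obtain ⟨k, hk⟩ := hU.2 i j h.1
    obtain ⟨l, hl⟩ := hV.2 i j h.2
    exact ⟨max k l, hU.1 (col_le i j (by simp)) hk, hV.1 (col_le i j (by simp)) hl⟩⟩
  isOpen_sUnion S hS := ⟨isUpperSet_sUnion fun U hU => (hS U hU).1, fun i j ⟨U, hU, h⟩ => by
    obtain ⟨k, hk⟩ := (hS U hU).2 i j h
    exact ⟨k, U, hU, hk⟩⟩

theorem top_le {i j : ℕ} {x : J} (h : ∀ k : ℕ, (⟨i, j, k⟩ : J) ≤ x) : (⟨i, j, ⊤⟩ : J) ≤ x := by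
  by_cases hi : i = x.i
  · have h1 : ∀ k : ℕ, j = x.j ∧ (k : ℕ∞) ≤ x.k := fun k => by
      rcases h k with h | h
      · exact h.2
      · have := h.1; simp only at this; omega
    exact Or.inl ⟨hi, (h1 0).1, (ENat.eq_top_iff_forall_ge.2 fun k => (h1 k).2).ge⟩
  · rcases h (x.j + 1) with h | h
    · exact (hi h.1).elim
    · have : x.j + 1 ≤ x.j := Nat.cast_le.1 (show ((x.j + 1 : ℕ) : ℕ∞) ≤ x.j from h.2.1)
      omega

theorem cl (x : J) : closure {x} = Iic x := by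
  refine subset_antisymm (closure_minimal (singleton_subset_iff.2 self_mem_Iic)
    ⟨⟨(isLowerSet_Iic x).compl, fun i j h => ?_⟩⟩) fun y hy => ?_
  · by_contra hc
    push Not at hc
    exact h (top_le fun k => not_not.1 (hc k))
  · exact mem_closure_iff.2 fun U hU h => ⟨x, hU.1 hy h, rfl⟩

theorem t0 : T0Space J := by
  refine (t0Space_iff_inseparable J).2 fun x y h => ?_
  have := inseparable_iff_closure_eq.1 h
  rw [cl, cl] at this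
  exact Iic_injective this

theorem bdd {K : Set J} (hK : IsCompact K) : ∃ N, ∀ x ∈ K, x.i ≤ N := by
  by_contra h
  push Not at h
  choose x hx hx' using h
  let U : ℕ → Set J := fun r => {y | ∀ N, r ≤ N → ¬ y ≤ ⟨(x N).i, (x N).j, ⊤⟩}
  have h1 : ∀ {y : J} {N}, y ≤ ⟨(x N).i, (x N).j, ⊤⟩ → N ≤ y.i := fun {y N} h => by
    have := hx' N
    rcases h with h | h <;> have := h.1 <;> simp only at this <;> omega
  obtain ⟨r, hr⟩ := hK.elim_directed_cover U (fun r => ⟨fun a b hab ha N hN h => ha N hN (hab.trans h),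
    fun i j h => by
      refine ⟨(Finset.range (i + 1)).sup (fun N => (x N).j) + 1, fun N hN h' => ?_⟩
      have h2 := h1 h'
      rcases h' with h' | h'
      · exact h N hN (Or.inl ⟨h'.1, h'.2.1, le_rfl⟩)
      · have h3 : (Finset.range (i + 1)).sup (fun N => (x N).j) + 1 ≤ (x N).j :=
          (Nat.cast_le (α := ℕ∞)).1 h'.2.1
        have h4 : (x N).j ≤ (Finset.range (i + 1)).sup (fun N => (x N).j) :=
          Finset.le_sup (f := fun N => (x N).j) (Finset.mem_range.2 (Nat.lt_succ_of_le h2))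
        omega⟩)
    (fun y _ => mem_iUnion.2 ⟨y.i + 1, fun N hN h => by have := h1 h; omega⟩)
    (Monotone.directed_le fun a b hab y hy N hN => hy N (hab.trans hN))
  exact hr (hx r) r le_rfl (col_le _ _ le_top)

theorem fin {K : Set J} (hK : IsCompact K) {i : ℕ} (h : ∀ y ∈ K, i ≤ y.i) :
    ∃ r, ∀ y ∈ K, y.i = i → y.j < r := by
  obtain ⟨r, hr⟩ := hK.elim_directed_cover (fun r => {y | i < y.i ∨ (y.i = i ∧ y.j < r)})
    (fun r => ⟨fun a b hab ha => by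
      rcases hab with hab | hab <;> rcases ha with ha | ha <;> simp only [mem_ofPred_eq] <;> omega,
      fun i j h => ⟨0, h⟩⟩)
    (fun y hy => mem_iUnion.2 ⟨y.j + 1, by have := h y hy; simp only [mem_ofPred_eq]; omega⟩)
    (Monotone.directed_le fun a b hab y hy => by simp only [mem_ofPred_eq] at hy ⊢; omega)
  exact ⟨r, fun y hy hi => by have := hr hy; simp only [mem_ofPred_eq] at this; omega⟩

theorem pig {𝒦 : Set (Set J)} (hne : 𝒦.Nonempty) (hd : DirectedOn (· ⊇ ·) 𝒦)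
    {p : ℕ → Set J → Prop} (hp : ∀ n A B, A ⊆ B → p n A → p n B) (r : ℕ)
    (h : ∀ K ∈ 𝒦, ∃ n < r, p n K) : ∃ n, ∀ K ∈ 𝒦, p n K := by
  induction r with
  | zero => obtain ⟨K, hK⟩ := hne; simpa using h K hK
  | succ r ih =>
    by_cases h1 : ∀ K ∈ 𝒦, p r K
    · exact ⟨r, h1⟩
    push Not at h1
    obtain ⟨A, hA, h1⟩ := h1
    refine ih fun K hK => ?_
    obtain ⟨B, hB, h2, h3⟩ := hd A hA K hK
    obtain ⟨n, hn, h4⟩ := h B hB
    refine ⟨n, lt_of_le_of_ne (Nat.lt_succ_iff.1 hn) ?_, hp n _ _ h3 h4⟩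
    rintro rfl
    exact h1 (hp n _ _ h2 h4)

theorem wf (𝒦 : Set (Set J)) (hne : 𝒦.Nonempty) (hd : DirectedOn (· ⊇ ·) 𝒦)
    (hK : ∀ K ∈ 𝒦, IsCompact K ∧ IsUpperSet K) (U : Set J) (hU : IsOpen U) (h : ⋂₀ 𝒦 ⊆ U) :
    ∃ K ∈ 𝒦, K ⊆ U := by
  classical
  by_contra hc
  push Not at hc
  obtain ⟨K0, hK0⟩ := hne
  obtain ⟨N, hN⟩ := bdd (hK K0 hK0).1
  have h1 : ∃ i, ∀ K ∈ 𝒦, ∃ y ∈ K \ U, y.i ≤ i := ⟨N, fun K hK' => by
    obtain ⟨B, hB, h2, h3⟩ := hd K0 hK0 K hK'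
    obtain ⟨y, hy, hy'⟩ := not_subset.1 (hc B hB)
    exact ⟨y, ⟨h3 hy, hy'⟩, hN y (h2 hy)⟩⟩
  have h2 := Nat.find_spec h1
  obtain ⟨K1, hK1, h3⟩ : ∃ K ∈ 𝒦, ∀ y ∈ K \ U, Nat.find h1 ≤ y.i := by
    rcases Nat.eq_zero_or_pos (Nat.find h1) with h0 | h0
    · exact ⟨K0, hK0, fun y _ => by omega⟩
    · have := Nat.find_min h1 (m := Nat.find h1 - 1) (by omega)
      push Not at this
      obtain ⟨K, hK', h4⟩ := this
      exact ⟨K, hK', fun y hy => by have := h4 y hy; omega⟩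
  generalize Nat.find h1 = i at *
  obtain ⟨r, hr⟩ := fin ((hK K1 hK1).1.diff hU) h3
  obtain ⟨j, hj⟩ := pig ⟨K0, hK0⟩ hd (p := fun j K => ∃ k, (⟨i, j, k⟩ : J) ∈ K \ U)
    (fun n A B hAB ⟨k, hk⟩ => ⟨k, hAB hk.1, hk.2⟩) r fun K hK' => by
      obtain ⟨B, hB, h4, h5⟩ := hd K1 hK1 K hK'
      obtain ⟨y, hy, hy'⟩ := h2 B hB
      have h6 : y.i = i := le_antisymm hy' (h3 y ⟨h4 hy.1, hy.2⟩)
      exact ⟨y.j, hr y ⟨h4 hy.1, hy.2⟩ h6, y.k, h6 ▸ ⟨h5 hy.1, hy.2⟩⟩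
  obtain ⟨k0, hk0⟩ := hU.2 i j (h fun K hK' => by
    obtain ⟨k, hk⟩ := hj K hK'
    exact (hK K hK').2 (col_le i j le_top) hk.1)
  obtain ⟨k, hk⟩ := pig ⟨K0, hK0⟩ hd (p := fun k K => (⟨i, j, k⟩ : J) ∈ K \ U)
    (fun n A B hAB hk => ⟨hAB hk.1, hk.2⟩) k0 fun K hK' => by
      obtain ⟨k, hk⟩ := hj K hK'
      have h4 : k < k0 := not_le.1 fun h4 => hk.2 (hU.1 (col_le i j h4) hk0)
      obtain ⟨n, rfl⟩ := ENat.ne_top_iff_exists.1 h4.ne_top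
      exact ⟨n, by exact_mod_cast h4, hk⟩
  exact (hk K0 hK0).2 (h fun K hK' => (hk K hK').1)

theorem up {U : Set J} (hU : Op U) {x : J} (hx : x ∈ U) :
    ∃ r, ∀ j, r ≤ j → (⟨x.i + 1, j, ⊤⟩ : J) ∈ U := by
  obtain ⟨k, hk⟩ := hU.2 x.i x.j (hU.1 (col_le _ _ le_top) hx)
  exact ⟨k, fun j hj => hU.1 (show (⟨x.i, x.j, k⟩ : J) ≤ _ from
    Or.inr ⟨rfl, (Nat.cast_le (α := ℕ∞)).2 hj, rfl⟩) hk⟩

theorem up' {U : Set J} (hU : Op U) {x : J} (hx : x ∈ U) (n : ℕ) : ∃ y ∈ U, y.i = x.i + n := by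
  induction n with
  | zero => exact ⟨x, hx, rfl⟩
  | succ n ih =>
    obtain ⟨y, hy, h⟩ := ih
    obtain ⟨r, hr⟩ := up hU hy
    exact ⟨_, hr r le_rfl, by simp only [h, add_assoc]⟩

theorem irr {U V : Set J} (hU : Op U) (hV : Op V) {x y : J} (hx : x ∈ U) (hy : y ∈ V) :
    (U ∩ V).Nonempty := by
  obtain ⟨a, ha, h1⟩ := up' hU hx y.i
  obtain ⟨b, hb, h2⟩ := up' hV hy x.i
  obtain ⟨r, hr⟩ := up hU ha
  obtain ⟨s, hs⟩ := up hV hb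
  rw [h2, add_comm y.i, ← h1] at hs
  exact ⟨_, hr _ (le_max_left r s), hs _ (le_max_right r s)⟩

theorem nosob : ¬ ∃ t : TopologicalSpace J,
    (∀ x : J, @closure J t {x} = Iic x) ∧ @T0Space J t ∧ @QuasiSober J t := by
  rintro ⟨t, h1, -, h2⟩
  have hup : ∀ U, @IsOpen J t U → IsUpperSet U := fun U hU a b hab ha => by
    have : a ∈ @closure J t {b} := by rw [h1]; exact hab
    obtain ⟨_, h, rfl⟩ := (@mem_closure_iff J t _ _).1 this U hU ha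
    exact h
  have key : ∀ S, @IsIrreducible J t S → ∃ x, @closure J t S = Iic x := fun S hS => by
    obtain ⟨x, hx⟩ := @QuasiSober.sober J t h2 _ (@IsIrreducible.closure J t S hS)
      (@isClosed_closure J t S)
    exact ⟨x, by rw [← h1]; exact hx.symm⟩
  have hop : ∀ U, @IsOpen J t U → Op U := fun U hU => ⟨hup U hU, fun i j h => by
    obtain ⟨x, hx⟩ := key (range fun k : ℕ => (⟨i, j, k⟩ : J)) ⟨range_nonempty _, by
      rintro A B hA hB ⟨_, ⟨k, rfl⟩, hk⟩ ⟨_, ⟨l, rfl⟩, hl⟩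
      exact ⟨_, ⟨max k l, rfl⟩, hup A hA (col_le i j (by simp)) hk,
        hup B hB (col_le i j (by simp)) hl⟩⟩
    have h3 : (⟨i, j, ⊤⟩ : J) ∈ @closure J t (range fun k : ℕ => (⟨i, j, k⟩ : J)) := by
      rw [hx]
      refine top_le fun k => ?_
      rw [← mem_Iic, ← hx]
      exact @subset_closure J t _ _ ⟨k, rfl⟩
    obtain ⟨_, h4, k, rfl⟩ := (@mem_closure_iff J t _ _).1 h3 U hU h
    exact ⟨k, h4⟩⟩
  obtain ⟨x, hx⟩ := key univ ⟨⟨⟨0, 0, 0⟩, trivial⟩, fun A B hA hB ⟨a, ha⟩ ⟨b, hb⟩ => by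
    obtain ⟨c, hc⟩ := irr (hop A hA) (hop B hB) ha.2 hb.2
    exact ⟨c, trivial, hc⟩⟩
  have : (⟨x.i + 1, 0, 0⟩ : J) ≤ x := by
    rw [← mem_Iic, ← hx]
    exact @subset_closure J t _ _ trivial
  rcases this with h | h <;> have := h.1 <;> simp only at this <;> omega

end Pool.Agent.H84.Jia
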