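import Mathlib

open Set Filter Topology

namespace Pool.Agent.H84.KLike

universe u v

/-- A continuum: a (nonempty) connected compact Hausdorff space. -/
def Continuum (X : Type*) [TopologicalSpace X] : Prop :=
  CompactSpace X ∧ T2Space X ∧ ConnectedSpace X

/-- An open cover. -/
def IsCover {X : Type*} [TopologicalSpace X] (𝒰 : Set (Set X)) : Prop :=
  (∀ U ∈ 𝒰, IsOpen U) ∧ ⋃₀ 𝒰 = univ

/-- `𝒱` refines `𝒰`. -/
def Refines {X : Type*} (𝒱 𝒰 : Set (Set X)) : Prop := ∀ V ∈ 𝒱, ∃ U ∈ 𝒰, V ⊆ U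

/-- `f` is a `𝒰`-map. -/
def UMap {X Y : Type*} [TopologicalSpace X] [TopologicalSpace Y] (𝒰 : Set (Set X)) (f : X → Y) :
    Prop :=
  Continuous f ∧ ∃ 𝒱 : Set (Set Y), IsCover 𝒱 ∧ Refines ((fun V => f ⁻¹' V) '' 𝒱) 𝒰

/-- The order of `𝒰` is at most `m`. -/
def OrderLE {X : Type*} (𝒰 : Set (Set X)) (m : ℕ) : Prop :=
  ∀ 𝓕 ⊆ 𝒰, (⋂₀ 𝓕).Nonempty → 𝓕.encard ≤ m

/-- Covering dimension at most `m`. -/
def DimLE (X : Type*) [TopologicalSpace X] (m : ℕ) : Prop :=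
  ∀ 𝒰 : Set (Set X), IsCover 𝒰 → ∃ 𝒱, IsCover 𝒱 ∧ Refines 𝒱 𝒰 ∧ OrderLE 𝒱 (m + 1)

/-- There is a `𝒰`-map of `X` onto a member of the class `K`. -/
def LikeFor (K : Set TopCat.{v}) {X : Type u} [TopologicalSpace X] (𝒰 : Set (Set X)) : Prop :=
  ∃ Y ∈ K, ∃ f : X → Y, Function.Surjective f ∧ UMap 𝒰 f

/-- `X` is `K`-like. -/
def Like (K : Set TopCat.{v}) (X : Type u) [TopologicalSpace X] : Prop :=
  ∀ 𝒰 : Set (Set X), IsCover 𝒰 → LikeFor K 𝒰

/-- `X` is `n`-`K`-like. -/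
def NLike (n : ℕ) (K : Set TopCat.{v}) (X : Type u) [TopologicalSpace X] : Prop :=
  ∀ 𝒰 : Set (Set X), IsCover 𝒰 → 𝒰.encard ≤ n → LikeFor K 𝒰

variable {X : Type u} [TopologicalSpace X] {K : Set TopCat.{v}} {n k : ℕ}

lemma merge {ι : Type} [Fintype ι] (h : NLike n K X) (hn : Fintype.card ι ≤ n) (U : ι → Set X)
    (hU : ∀ i, IsOpen (U i)) (hc : ∀ x, ∃ i, x ∈ U i) :
    ∃ Y ∈ K, ∃ f : X → Y, Continuous f ∧ Function.Surjective f ∧ ∃ O : ι → Set Y,
      (∀ i, IsOpen (O i)) ∧ (∀ y, ∃ i, y ∈ O i) ∧ ∀ i, f ⁻¹' O i ⊆ U i := by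
  obtain ⟨Y, hY, f, sf, cf, 𝒱, ⟨o, c⟩, r⟩ := h (range U) ⟨forall_mem_range.2 hU, by
    rw [sUnion_range]; exact eq_univ_of_forall fun x => mem_iUnion.2 (hc x)⟩ (by
      rw [← image_univ]
      refine (encard_image_le _ _).trans ?_
      rw [encard_univ, ENat.card_eq_coe_fintype_card]
      exact_mod_cast hn)
  refine ⟨Y, hY, f, cf, sf, fun i => ⋃₀ {V ∈ 𝒱 | f ⁻¹' V ⊆ U i},
    fun i => isOpen_sUnion fun V hV => o V hV.1, fun y => ?_, ?_⟩
  · obtain ⟨V, hV, hy⟩ := mem_sUnion.1 (c.symm ▸ mem_univ y)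
    obtain ⟨_, ⟨i, rfl⟩, hi⟩ := r _ ⟨V, hV, rfl⟩
    exact ⟨i, V, ⟨hV, hi⟩, hy⟩
  · rintro i x ⟨V, hV, hx⟩
    exact hV.2 hx

lemma shrink {ι : Type} [Fintype ι] (hK : ∀ Y ∈ K, DimLE Y k) (h : NLike n K X) (hn : k + 2 ≤ n)
    (hι : Fintype.card ι = k + 2) (U : ι → Set X) (hU : ∀ i, IsOpen (U i))
    (hc : ∀ x, ∃ i, x ∈ U i) : ∃ W : ι → Set X, (∀ i, IsOpen (W i)) ∧ (∀ x, ∃ i, x ∈ W i) ∧
      (∀ i, W i ⊆ U i) ∧ ∀ x, ∃ i, x ∉ W i := by
  obtain ⟨Y, hY, f, cf, -, O, oO, cO, sO⟩ := merge h (hι ▸ hn) U hU hc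
  obtain ⟨𝒱, ⟨o, c⟩, r, ord⟩ := hK Y hY (range O) ⟨forall_mem_range.2 oO, by
    rw [sUnion_range]; exact eq_univ_of_forall fun x => mem_iUnion.2 (cO x)⟩
  have : ∀ V : 𝒱, ∃ i, V.1 ⊆ O i := fun V => by
    obtain ⟨_, ⟨i, rfl⟩, hi⟩ := r V V.2
    exact ⟨i, hi⟩
  choose a ha using this
  refine ⟨fun i => f ⁻¹' ⋃ V : {V : 𝒱 // a V = i}, V.1.1,
    fun i => (isOpen_iUnion fun V => o _ V.1.2).preimage cf, fun x => ?_, fun i x hx => ?_,
    fun x => ?_⟩
  · obtain ⟨V, hV, hy⟩ := mem_sUnion.1 (c.symm ▸ mem_univ (f x))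
    exact ⟨a ⟨V, hV⟩, mem_iUnion.2 ⟨⟨⟨V, hV⟩, rfl⟩, hy⟩⟩
  · obtain ⟨V, hV⟩ := mem_iUnion.1 hx
    exact sO i (V.2 ▸ ha V.1 hV)
  · by_contra hx
    push Not at hx
    choose V hV using fun i => mem_iUnion.1 (hx i)
    have inj : Function.Injective fun i => (V i).1.1 := fun i j hij =>
      (V i).2.symm.trans ((congrArg a (Subtype.ext hij)).trans (V j).2)
    have := ord (range fun i => (V i).1.1) (range_subset_iff.2 fun i => (V i).1.2)
      ⟨f x, by simpa using hV⟩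
    replace this := inj.encard_range.trans this
    rw [ENat.card_eq_coe_fintype_card, hι] at this
    have : k + 2 ≤ k + 1 := by exact_mod_cast this
    omega

lemma hem {ι : Type} [Fintype ι] (hK : ∀ Y ∈ K, DimLE Y k) (h : NLike n K X) (hn : k + 2 ≤ n)
    (U : ι → Set X) (hU : ∀ i, IsOpen (U i)) (hc : ∀ x, ∃ i, x ∈ U i) (T : Finset (Finset ι)) :
    ∃ W : ι → Set X, (∀ i, IsOpen (W i)) ∧ (∀ x, ∃ i, x ∈ W i) ∧ (∀ i, W i ⊆ U i) ∧
      ∀ S ∈ T, S.card = k + 2 → ∀ x, ∃ i ∈ S, x ∉ W i := by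
  classical
  induction T using Finset.induction_on with
  | empty => exact ⟨U, hU, hc, fun _ => subset_rfl, by simp⟩
  | insert S T _ ih =>
    obtain ⟨W, oW, cW, sW, hW⟩ := ih
    by_cases hS : S.card = k + 2
    swap
    · refine ⟨W, oW, cW, sW, fun S' hS' h' => ?_⟩
      rcases Finset.mem_insert.1 hS' with rfl | hS'
      · exact (hS h').elim
      · exact hW S' hS' h'
    obtain ⟨i₀, hi₀⟩ : S.Nonempty := Finset.card_pos.1 (by omega)
    obtain ⟨W', oW', cW', sW', e⟩ := shrink (ι := S) hK h hn (by simpa using hS)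
      (fun j => W j ∪ ⋃ i ∈ Sᶜ, W i) (fun j => (oW _).union (isOpen_biUnion fun i _ => oW i))
      (fun x => by
        obtain ⟨i, hi⟩ := cW x
        by_cases hiS : i ∈ S
        · exact ⟨⟨i, hiS⟩, Or.inl hi⟩
        · exact ⟨⟨i₀, hi₀⟩, Or.inr (mem_biUnion (Finset.mem_compl.2 hiS) hi)⟩)
    have sub : ∀ i, (if h : i ∈ S then W' ⟨i, h⟩ ∩ W i else W i) ⊆ W i := fun i => by
      split_ifs
      · exact inter_subset_right
      · exact subset_rfl
    refine ⟨fun i => if h : i ∈ S then W' ⟨i, h⟩ ∩ W i else W i, fun i => ?_, fun x => ?_,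
      fun i => (sub i).trans (sW i), fun S' hS' h' x => ?_⟩
    · dsimp only
      split_ifs
      · exact (oW' _).inter (oW _)
      · exact oW _
    · obtain ⟨j, hj⟩ := cW' x
      rcases sW' j hj with h1 | h1
      · exact ⟨j, by simp only [j.2, dif_pos]; exact ⟨hj, h1⟩⟩
      · obtain ⟨i, hi, hx⟩ := mem_iUnion₂.1 h1
        exact ⟨i, by simp only [Finset.mem_compl.1 hi, dif_neg, not_false_iff]; exact hx⟩
    · rcases Finset.mem_insert.1 hS' with rfl | hS'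
      · obtain ⟨j, hj⟩ := e x
        exact ⟨j, j.2, by simp only [j.2, dif_pos]; exact fun h => hj h.1⟩
      · obtain ⟨i, hi, hx⟩ := hW S' hS' h' x
        exact ⟨i, hi, fun h => hx (sub i h)⟩

lemma pou {ι : Type} [Fintype ι] {Y : Type*} [TopologicalSpace Y] [CompactSpace Y] [T2Space Y]
    (W : ι → Set Y) (oW : ∀ i, IsOpen (W i)) (cW : ∀ x, ∃ i, x ∈ W i) :
    ∃ φ : ι → Y → ℝ, (∀ i, Continuous (φ i)) ∧ (∀ i x, 0 ≤ φ i x) ∧ (∀ x, ∑ i, φ i x = 1) ∧
      ∀ i x, φ i x ≠ 0 → x ∈ W i := by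
  obtain ⟨φ, hφ⟩ := PartitionOfUnity.exists_isSubordinate isClosed_univ W oW
    fun x _ => mem_iUnion.2 (cW x)
  refine ⟨fun i => φ i, fun i => (φ i).continuous, fun i x => φ.nonneg i x, fun x => ?_,
    fun i x hx => hφ i (subset_tsupport _ hx)⟩
  rw [← finsum_eq_sum_of_fintype]
  exact φ.sum_eq_one (mem_univ x)

lemma vdm {ι : Type} [Fintype ι] (t : ι → ℝ) (ht : Function.Injective t) (c : ι → ℝ) (m : ℕ)
    (S : Finset ι) (hS : S.card ≤ m) (hc : ∀ i, c i ≠ 0 → i ∈ S)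
    (h : ∀ j < m, ∑ i, c i * t i ^ j = 0) (i₀ : ι) : c i₀ = 0 := by
  classical
  by_contra h0
  have hi := hc i₀ h0
  let P : Polynomial ℝ := ∏ i ∈ S.erase i₀, (Polynomial.X - Polynomial.C (t i))
  have hd : P.natDegree < m := by
    rw [Polynomial.natDegree_finsetProd_X_sub_C_eq_card, Finset.card_erase_of_mem hi]
    have := Finset.card_pos.2 ⟨i₀, hi⟩
    omega
  have h1 : ∑ i, c i * P.eval (t i) = 0 := by
    simp only [Polynomial.eval_eq_sum_range' hd, Finset.mul_sum]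
    rw [Finset.sum_comm]
    refine Finset.sum_eq_zero fun j hj => ?_
    have := h j (Finset.mem_range.1 hj)
    calc _ = P.coeff j * ∑ i, c i * t i ^ j := by
          rw [Finset.mul_sum]; exact Finset.sum_congr rfl fun i _ => by ring
      _ = 0 := by rw [this, mul_zero]
  rw [Finset.sum_eq_single i₀ (fun i _ hne => ?_) (by simp)] at h1
  · refine h0 ((mul_eq_zero.1 h1).resolve_right ?_)
    simp only [P, Polynomial.eval_prod, Polynomial.eval_sub, Polynomial.eval_X, Polynomial.eval_C]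
    exact Finset.prod_ne_zero_iff.2 fun i hi => sub_ne_zero.2 fun h =>
      (Finset.mem_erase.1 hi).1 (ht h).symm
  · by_cases hci : c i = 0
    · rw [hci, zero_mul]
    · simp only [P, Polynomial.eval_prod, Polynomial.eval_sub, Polynomial.eval_X, Polynomial.eval_C]
      rw [Finset.prod_eq_zero (Finset.mem_erase.2 ⟨hne, hc i hci⟩) (sub_self _), mul_zero]

lemma emb {ι : Type} [Fintype ι] [CompactSpace X] [T2Space X] (W : ι → Set X)
    (oW : ∀ i, IsOpen (W i)) (cW : ∀ x, ∃ i, x ∈ W i)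
    (hW : ∀ S : Finset ι, S.card = k + 2 → ∀ x, ∃ i ∈ S, x ∉ W i) :
    ∃ θ : Fin (2 * k + 2) → X → ℝ, (∀ j, Continuous (θ j)) ∧
      ∀ x, ∃ i, ∀ y, (∀ j, |θ j x - θ j y| < 4) → y ∈ W i := by
  classical
  obtain ⟨φ, cφ, pφ, sφ, wφ⟩ := pou W oW cW
  obtain ⟨t, ht⟩ : ∃ t : ι → ℝ, Function.Injective t :=
    ⟨fun i => ((Fintype.equivFin ι i : ℕ) : ℝ), fun i j h =>
      (Fintype.equivFin ι).injective (Fin.ext (Nat.cast_injective h))⟩
  obtain ⟨e, he⟩ : ∃ e : X → Fin (2 * k + 2) → ℝ, ∀ x j, e x j = ∑ i, φ i x * t i ^ (j : ℕ) :=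
    ⟨_, fun _ _ => rfl⟩
  have ce : Continuous e := continuous_pi fun j => by
    simp only [he]
    exact continuous_finsetSum _ fun i _ => (cφ i).mul continuous_const
  have card : ∀ x, (Finset.univ.filter fun i => x ∈ W i).card ≤ k + 1 := fun x => by
    by_contra hc
    obtain ⟨S, h1, h2⟩ := Finset.exists_subset_card_eq (n := k + 2) (not_le.1 hc)
    obtain ⟨i, hi, hx⟩ := hW S h2 x
    exact hx (Finset.mem_filter.1 (h1 hi)).2
  have inj : ∀ x y, e x = e y → ∀ i, φ i x = φ i y := fun x y h i => by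
    refine sub_eq_zero.1 (vdm t ht (fun i => φ i x - φ i y) (2 * k + 2)
      ((Finset.univ.filter fun i => x ∈ W i) ∪ (Finset.univ.filter fun i => y ∈ W i))
      ((Finset.card_union_le _ _).trans (by have := card x; have := card y; omega))
      (fun i hi => ?_) (fun j hj => ?_) i)
    · by_cases hx : φ i x = 0
      · exact Finset.mem_union_right _ (by simpa using wφ i y fun h => hi (by rw [hx, h, sub_self]))
      · exact Finset.mem_union_left _ (by simpa using wφ i x hx)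
    · simp only [sub_mul, Finset.sum_sub_distrib]
      exact sub_eq_zero.2 ((he x ⟨j, hj⟩).symm.trans ((congrFun h ⟨j, hj⟩).trans (he y ⟨j, hj⟩)))
  obtain ⟨η, hη⟩ : ∃ η : ℝ, η = 1 / Fintype.card ι := ⟨_, rfl⟩
  have hZ : IsClosed {p : X × X | ∃ i, η ≤ φ i p.1 - φ i p.2} := by
    rw [ofPred_exists]
    exact isClosed_iUnion_of_finite fun i => isClosed_le continuous_const
      (((cφ i).comp continuous_fst).sub ((cφ i).comp continuous_snd))
  rcases isEmpty_or_nonempty X with hX | ⟨⟨x₀⟩⟩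
  · exact ⟨fun _ _ => 0, fun _ => continuous_const, fun x => hX.elim x⟩
  have hι : (0 : ℝ) < Fintype.card ι := by
    obtain ⟨i, -⟩ := cW x₀
    exact_mod_cast Fintype.card_pos_iff.2 ⟨i⟩
  obtain ⟨δ, hδ, hd⟩ := hZ.isCompact.exists_forall_le' (f := fun p : X × X => dist (e p.1) (e p.2))
    (Continuous.continuousOn (by fun_prop)) (a := 0) (by
      rintro ⟨x, y⟩ ⟨i, hi⟩
      refine dist_pos.2 fun h => ?_
      simp only [inj x y h i, sub_self] at hi
      exact absurd hi (not_le.2 (hη ▸ one_div_pos.2 hι)))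
  refine ⟨fun j x => e x j * (4 / δ), fun j => ((continuous_apply j).comp ce).mul continuous_const,
    fun x => ?_⟩
  obtain ⟨i, hi⟩ : ∃ i, η ≤ φ i x := by
    by_contra hc
    push Not at hc
    obtain ⟨i, -⟩ := cW x
    have := Finset.sum_lt_sum_of_nonempty ⟨i, Finset.mem_univ i⟩ fun i _ => hc i
    rw [sφ, Finset.sum_const, Finset.card_univ, nsmul_eq_mul, hη, mul_one_div_cancel hι.ne'] at this
    exact lt_irrefl _ this
  refine ⟨i, fun y hy => wφ i y fun h0 => ?_⟩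
  have h1 := hd (x, y) ⟨i, by simpa [h0] using hi⟩
  refine absurd h1 (not_le.2 ((dist_pi_lt_iff hδ).2 fun j => ?_))
  have := hy j
  rw [← sub_mul, abs_mul, abs_of_pos (div_pos four_pos hδ), mul_div_assoc', div_lt_iff₀ hδ] at this
  rw [Real.dist_eq]
  linarith

lemma exists_log {Y : Type*} [TopologicalSpace Y] [ContractibleSpace Y] (g : Y → ℂ)
    (cg : Continuous g) (hg : ∀ y, g y ≠ 0) :
    ∃ L : Y → ℂ, Continuous L ∧ ∀ y, Complex.exp (L y) = g y := by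
  let G : C(Y, {z : ℂ // z ≠ 0}) := ⟨fun y => ⟨g y, hg y⟩, cg.subtype_mk _⟩
  obtain ⟨z, ⟨H⟩⟩ := (id_nullhomotopic Y).comp_right G
  let H' := Complex.isCoveringMap_exp.liftHomotopy H.symm.toContinuousMap
    (ContinuousMap.const Y (Complex.log z)) (fun a => Subtype.ext (by
      simp [Complex.exp_log z.2]))
  refine ⟨fun y => H' (1, y), H'.continuous.comp (by fun_prop), fun y => ?_⟩
  have := congrArg Subtype.val (congrFun (Complex.isCoveringMap_exp.liftHomotopy_lifts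
    H.symm.toContinuousMap (ContinuousMap.const Y (Complex.log z)) (fun a => Subtype.ext (by
      simp [Complex.exp_log z.2]))) (1, y))
  refine this.trans ?_
  simp [G]

noncomputable def cen : Fin 4 → ℂ := ![1, -1, Complex.I, -Complex.I]

lemma cen_ex {z : ℂ} (hz : z ≠ 0) : ∃ c, 0 < (cen c * z).re := by
  by_contra hc
  push Not at hc
  have h0 := hc 0
  have h1 := hc 1
  have h2 := hc 2
  have h3 := hc 3
  simp [cen] at h0 h1 h2 h3
  exact hz (Complex.ext (le_antisymm h0 h1) (le_antisymm h3 h2))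

lemma torus [ConnectedSpace X] (hK : ∀ Y ∈ K, Continuum Y ∧ ContractibleSpace Y) {m : ℕ}
    (h : NLike n K X) (hn : 4 ^ m ≤ n) (θ : Fin m → X → ℝ) (cθ : ∀ j, Continuous (θ j)) :
    ∃ Y ∈ K, ∃ f : X → Y, Continuous f ∧ Function.Surjective f ∧
      ∀ x y, f x = f y → ∀ j, |θ j x - θ j y| < 4 := by
  let z : Fin m → X → ℂ := fun j x => Complex.exp (-(θ j x * Complex.I))
  have cz : ∀ j, Continuous (z j) := fun j => by have := cθ j; fun_prop
  obtain ⟨Y, hY, f, cf, sf, O, oO, cO, sO⟩ := merge (ι := Fin m → Fin 4) h (by simpa using hn)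
    (fun c => ⋂ j, {x | 0 < (cen (c j) * z j x).re})
    (fun c => isOpen_iInter_of_finite fun j => isOpen_lt continuous_const
      (Complex.continuous_re.comp (continuous_const.mul (cz j))))
    (fun x => by
      choose c hc using fun j => cen_ex (Complex.exp_ne_zero (-(θ j x * Complex.I)))
      exact ⟨c, mem_iInter.2 hc⟩)
  obtain ⟨⟨_, _, _⟩, _⟩ := hK Y hY
  obtain ⟨ψ, cψ, pψ, sψ, wψ⟩ := pou O oO cO
  refine ⟨Y, hY, f, cf, sf, fun x y hxy j => ?_⟩
  let g : Y → ℂ := fun y => ∑ c, (ψ c y : ℂ) * cen (c j)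
  have cg : Continuous g := continuous_finsetSum _ fun c _ =>
    (Complex.continuous_ofReal.comp (cψ c)).mul continuous_const
  have pos : ∀ x, 0 < (g (f x) * z j x).re := fun x => by
    simp only [g, Finset.sum_mul, Complex.re_sum, mul_assoc, Complex.re_ofReal_mul]
    have hp : ∀ c, ψ c (f x) ≠ 0 → 0 < (cen (c j) * z j x).re := fun c hc =>
      mem_iInter.1 (sO c (wψ c _ hc)) j
    refine Finset.sum_pos' (fun c _ => ?_) ?_
    · by_cases hc : ψ c (f x) = 0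
      · rw [hc, zero_mul]
      · exact mul_nonneg (pψ _ _) (hp c hc).le
    · obtain ⟨c, -, hc⟩ := Finset.exists_ne_zero_of_sum_ne_zero (s := Finset.univ)
        (f := fun c => ψ c (f x)) (by rw [sψ]; exact one_ne_zero)
      exact ⟨c, Finset.mem_univ _, mul_pos ((pψ _ _).lt_of_ne' hc) (hp c hc)⟩
  have ne : ∀ x, g (f x) * z j x ≠ 0 := fun x h0 => by simpa [h0] using pos x
  obtain ⟨L, cL, hL⟩ := exists_log g cg fun y => by
    obtain ⟨x, rfl⟩ := sf y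
    exact left_ne_zero_of_mul (ne x)
  let D : X → ℂ := fun x => L (f x) + -(θ j x * Complex.I) - Complex.log (g (f x) * z j x)
  have cD : Continuous D := by
    have := cθ j
    refine Continuous.sub (by fun_prop) (((cg.comp cf).mul (cz j)).clog fun x => Or.inl (pos x))
  have eD : ∀ x, Complex.exp (D x) = 1 := fun x => by
    simp only [D]
    rw [Complex.exp_sub, Complex.exp_add, hL, Complex.exp_log (ne x), div_self (ne x)]
  have := congrArg Complex.im (Complex.isCoveringMap_exp.const_of_comp cD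
    (fun a a' => Subtype.ext ((eD a).trans (eD a').symm)) x y)
  simp only [D, hxy, Complex.sub_im, Complex.add_im, Complex.log_im, Complex.neg_im,
    Complex.mul_I_im, Complex.ofReal_re] at this
  have h1 := abs_lt.1 (Complex.abs_arg_lt_pi_div_two_iff.2 (Or.inl (pos x)))
  have h2 := abs_lt.1 (Complex.abs_arg_lt_pi_div_two_iff.2 (Or.inl (pos y)))
  rw [hxy] at h1
  have := Real.pi_le_four
  rw [abs_lt]
  constructor <;> linarith [h1.1, h1.2, h2.1, h2.2]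

theorem main (hK : ∀ Y ∈ K, Continuum Y ∧ ContractibleSpace Y ∧ DimLE Y k) (hX : Continuum X)
    (h : NLike (4 ^ (2 * k + 2)) K X) : Like K X := by
  obtain ⟨_, _, _⟩ := hX
  rintro 𝒰 ⟨o, c⟩
  obtain ⟨T, hT, fT, cT⟩ := isCompact_univ.elim_finite_subcover_image (b := 𝒰) (c := id) o
    (fun x _ => by simpa using (c.symm ▸ mem_univ x : x ∈ ⋃₀ 𝒰))
  obtain ⟨N, U, -, hU⟩ := fT.fin_param
  have hk : k + 2 ≤ 4 ^ (2 * k + 2) := by
    have := Nat.lt_pow_self (n := 2 * k + 2) (show 1 < 4 by norm_num)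
    omega
  have mU : ∀ i, U i ∈ 𝒰 := fun i => hT (hU ▸ mem_range_self i)
  obtain ⟨W, oW, cW, sW, hW⟩ := hem (fun Y hY => (hK Y hY).2.2) h hk U (fun i => o _ (mU i))
    (fun x => by
      obtain ⟨V, hV, hx⟩ := mem_iUnion₂.1 (cT (mem_univ x))
      obtain ⟨i, rfl⟩ := hU.symm ▸ hV
      exact ⟨i, hx⟩) Finset.univ
  obtain ⟨θ, cθ, hθ⟩ := emb W oW cW fun S => hW S (Finset.mem_univ _)
  obtain ⟨Y, hY, f, cf, sf, hf⟩ := torus (fun Y hY => ⟨(hK Y hY).1, (hK Y hY).2.1⟩) h le_rfl θ cθ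
  obtain ⟨_, _, _⟩ := (hK Y hY).1
  refine ⟨Y, hY, f, sf, cf, range fun i => (f '' (W i)ᶜ)ᶜ, ⟨forall_mem_range.2 fun i =>
    ((oW i).isClosed_compl.isCompact.image cf).isClosed.isOpen_compl, ?_⟩, ?_⟩
  · refine eq_univ_of_forall fun y => ?_
    obtain ⟨x, rfl⟩ := sf y
    obtain ⟨i, hi⟩ := hθ x
    exact ⟨_, ⟨i, rfl⟩, fun ⟨x', h1, h2⟩ => h1 (hi x' (hf x x' h2.symm))⟩
  · rintro _ ⟨_, ⟨i, rfl⟩, rfl⟩
    refine ⟨U i, mU i, fun x hx => sW i ?_⟩
    by_contra h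
    exact hx ⟨x, h, rfl⟩

end Pool.Agent.H84.KLike
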