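import Mathlib
import Pool.Agent.H84.Gen

set_option autoImplicit false
set_option linter.dupNamespace false

namespace Pool.Agent.H84.KProd

open Set Topology Filter Pool.Agent.H84.Gen
open Cardinal hiding univ

/-- iterated power sets of the naturals -/
def P : ℕ → Type
  | 0 => ℕ
  | k + 1 => Set (P k)

theorem mk_lt (k : ℕ) : #(P k) < #(P (k + 1)) := by
  show #(P k) < #(Set (P k))
  rw [mk_set]; exact cantor _

theorem mk_mono {k i : ℕ} (h : k ≤ i) : #(P k) ≤ #(P i) := by
  induction h with
  | refl => exact le_rfl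
  | step _ ih => exact ih.trans (mk_lt _).le

theorem aleph0_le (k : ℕ) : ℵ₀ ≤ #(P k) := by
  have : #(P 0) = ℵ₀ := mk_nat
  rw [← this]; exact mk_mono (Nat.zero_le k)

/-- the `k`-th factor -/
def X (k : ℕ) : Type := P (k + 1)

/-- small sets -/
def Small {α : Type} (k : ℕ) (s : Set α) : Prop := #s ≤ #(P k)

theorem Small.mono {α : Type} {k : ℕ} {s t : Set α} (h : Small k t) (hst : s ⊆ t) : Small k s :=
  (mk_le_mk_of_subset hst).trans h

theorem Small.union {α : Type} {k : ℕ} {s t : Set α} (h : Small k s) (h' : Small k t) :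
    Small k (s ∪ t) :=
  (mk_union_le s t).trans (by
    have := add_le_add h h'
    rwa [add_eq_self (aleph0_le k)] at this)

theorem small_empty {α : Type} (k : ℕ) : Small k (∅ : Set α) := by
  simp [Small]

theorem small_singleton {α : Type} (k : ℕ) (a : α) : Small k ({a} : Set α) := by
  simp only [Small, mk_fintype, Fintype.card_unique, Nat.cast_one]
  exact one_le_aleph0.trans (aleph0_le k)

theorem small_iUnion {α : Type} {k : ℕ} {s : ℕ → Set α} (h : ∀ n, Small k (s n)) :
    Small k (⋃ n, s n) := by
  have h1 := mk_iUnion_le_sum_mk (f := s)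
  refine h1.trans ?_
  have h2 : sum (fun n => #(s n)) ≤ sum (fun _ : ℕ => #(P k)) := sum_le_sum _ _ h
  refine h2.trans ?_
  rw [sum_const', mk_nat, mul_eq_right (aleph0_le k) (aleph0_le k) aleph0_ne_zero]

theorem Small.image {α β : Type} {k : ℕ} {s : Set α} (h : Small k s) (f : α → β) :
    Small k (f '' s) := mk_image_le.trans h

theorem not_small_univ (k : ℕ) : ¬ Small k (univ : Set (X k)) := by
  simp only [Small, mk_univ, not_le]; exact mk_lt k

theorem small_of_lt {k i : ℕ} (h : k < i) (s : Set (X k)) : Small i s :=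
  (mk_le_mk_of_subset (subset_univ s)).trans (by rw [mk_univ]; exact mk_mono h)

theorem exists_not_mem {k : ℕ} {s : Set (X k)} (h : Small k s) : ∃ x, x ∉ s := by
  by_contra hc
  push Not at hc
  exact not_small_univ k (h.mono fun x _ => hc x)

instance (k : ℕ) : Nonempty (X k) := by
  obtain ⟨x, _⟩ := exists_not_mem (small_empty (α := X k) k); exact ⟨x⟩

instance topX (k : ℕ) : TopologicalSpace (X k) where
  IsOpen U := U = ∅ ∨ Small k Uᶜ
  isOpen_univ := Or.inr (by simpa using small_empty k)
  isOpen_inter := by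
    rintro s t (rfl | hs) (rfl | ht)
    · left; simp
    · left; simp
    · left; simp
    · right; rw [compl_inter]; exact hs.union ht
  isOpen_sUnion := by
    intro S hS
    by_cases h : ∀ t ∈ S, t = ∅
    · left; simpa using h
    · push Not at h
      obtain ⟨t, ht, hne⟩ := h
      rcases hS t ht with h0 | h1
      · exact absurd h0 hne.ne_empty
      · right; exact h1.mono (compl_subset_compl.2 (subset_sUnion_of_mem ht))

theorem isOpenX {k : ℕ} {U : Set (X k)} : IsOpen U ↔ U = ∅ ∨ Small k Uᶜ := Iff.rfl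

theorem isClosedX {k : ℕ} {U : Set (X k)} : IsClosed U ↔ U = univ ∨ Small k U := by
  rw [← isOpen_compl_iff, isOpenX, compl_compl, compl_empty_iff]

instance (k : ℕ) : T1Space (X k) := ⟨fun x => isClosedX.2 (Or.inr (small_singleton k x))⟩

/-- the filter of co-small sets -/
def F (k : ℕ) : Filter (X k) where
  sets := {s | Small k sᶜ}
  univ_sets := by simpa using small_empty k
  sets_of_superset := fun h hst => Small.mono h (compl_subset_compl.2 hst)
  inter_sets := fun h h' => by
    simp only [mem_ofPred_eq, compl_inter]; exact Small.union h h'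

theorem mem_F {k : ℕ} {s : Set (X k)} : s ∈ F k ↔ Small k sᶜ := Iff.rfl

instance (k : ℕ) : (F k).NeBot := by
  refine ⟨fun h => ?_⟩
  have : (∅ : Set (X k)) ∈ F k := by rw [h]; exact mem_bot
  rw [mem_F, compl_empty] at this
  exact not_small_univ k this

theorem open_mem_F {k : ℕ} {U : Set (X k)} (hU : IsOpen U) (hne : U.Nonempty) : U ∈ F k := by
  rcases isOpenX.1 hU with h | h
  · exact absurd h hne.ne_empty
  · exact h

instance (k : ℕ) : IrreducibleSpace (X k) where
  isPreirreducible_univ := by
    intro u v hu hv h1 h2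
    rw [univ_inter] at h1 h2 ⊢
    exact (F k).nonempty_of_mem (inter_mem (open_mem_F hu h1) (open_mem_F hv h2))
  toNonempty := inferInstance

theorem tendsto_F {k : ℕ} {Y : Type*} [TopologicalSpace Y] {g : X k → Y} (hg : Continuous g)
    {y : Y} (hy : y ∈ closure (range g)) : Tendsto g (F k) (𝓝 y) := by
  rw [tendsto_nhds]
  intro U hU hyU
  obtain ⟨_, hz, x, rfl⟩ := mem_closure_iff.1 hy U hU hyU
  exact open_mem_F (hU.preimage hg) ⟨x, hz⟩

/-- the sobrification of the `k`-th factor -/
def R (k : ℕ) : Type := Option (X k)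

/-- the embedding -/
def eta (k : ℕ) : X k → R k := fun x => (some x : Option (X k))

/-- the added generic point -/
def top (k : ℕ) : R k := (none : Option (X k))

theorem eta_ne_top {k : ℕ} (x : X k) : eta k x ≠ top k := by
  simp [eta, top]

theorem eta_inj {k : ℕ} : Function.Injective (eta k) := fun _ _ h => Option.some_injective _ h

theorem cases_R {k : ℕ} (r : R k) : r = top k ∨ ∃ x, r = eta k x := by
  rcases r with _ | x
  · left; rfl
  · right; exact ⟨x, rfl⟩

instance topR (k : ℕ) : TopologicalSpace (R k) where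
  IsOpen U := U = ∅ ∨ (top k ∈ U ∧ Small k Uᶜ)
  isOpen_univ := Or.inr ⟨trivial, by simpa using small_empty k⟩
  isOpen_inter := by
    rintro s t (rfl | hs) (rfl | ht)
    · left; simp
    · left; simp
    · left; simp
    · right; rw [compl_inter]; exact ⟨⟨hs.1, ht.1⟩, hs.2.union ht.2⟩
  isOpen_sUnion := by
    intro S hS
    by_cases h : ∀ t ∈ S, t = ∅
    · left; simpa using h
    · push Not at h
      obtain ⟨t, ht, hne⟩ := h
      rcases hS t ht with h0 | h1
      · exact absurd h0 hne.ne_empty
      · right; exact ⟨⟨t, ht, h1.1⟩, h1.2.mono (compl_subset_compl.2 (subset_sUnion_of_mem ht))⟩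

theorem isOpenR {k : ℕ} {U : Set (R k)} : IsOpen U ↔ U = ∅ ∨ (top k ∈ U ∧ Small k Uᶜ) := Iff.rfl

theorem isClosedR {k : ℕ} {U : Set (R k)} (h : top k ∉ U) (h' : Small k U) : IsClosed U := by
  rw [← isOpen_compl_iff, isOpenR, compl_compl]; exact Or.inr ⟨h, h'⟩

theorem top_spec {k : ℕ} (r : R k) : top k ⤳ r := by
  rw [specializes_iff_forall_open]
  intro s hs hr
  rcases isOpenR.1 hs with h | h
  · rw [h] at hr; exact hr.elim
  · exact h.1

theorem eq_of_eta_spec {k : ℕ} {a : X k} {r : R k} (h : eta k a ⤳ r) : r = eta k a := by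
  have hc : IsClosed ({eta k a} : Set (R k)) :=
    isClosedR (fun h => eta_ne_top a (mem_singleton_iff.1 h).symm) (small_singleton k _)
  exact h.mem_closed hc rfl

instance (k : ℕ) : T0Space (R k) := by
  refine ⟨fun a b hab => ?_⟩
  rcases cases_R a with rfl | ⟨x, rfl⟩
  · rcases cases_R b with rfl | ⟨y, rfl⟩
    · rfl
    · exact eq_of_eta_spec hab.specializes'
  · exact (eq_of_eta_spec hab.specializes).symm

theorem small_preimage_eta {k : ℕ} {s : Set (R k)} (h : Small k s) : Small k (eta k ⁻¹' s) :=
  (mk_preimage_of_injective _ _ eta_inj).trans h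

theorem continuous_eta (k : ℕ) : Continuous (eta k) := by
  refine ⟨fun U hU => ?_⟩
  rcases isOpenR.1 hU with h | h
  · rw [h]; exact isOpen_empty
  · exact isOpenX.2 (Or.inr (small_preimage_eta h.2))

theorem gen_top (k : ℕ) : Gen (range (eta k)) (top k) := by
  refine ⟨fun a _ => top_spec a, mem_closure_iff.2 fun U hU hx => ?_⟩
  rcases isOpenR.1 hU with h | h
  · rw [h] at hx; exact hx.elim
  · obtain ⟨x, hx⟩ := exists_not_mem (small_preimage_eta h.2)
    exact ⟨eta k x, not_not.1 hx, x, rfl⟩

/-- If `g` maps into a small set avoiding the top, it is constant. -/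
theorem const_of_small {k i : ℕ} {g : X k → R i} (hg : Continuous g) {T : Set (R i)}
    (hT : top i ∉ T) (hs : Small i T) (hgT : ∀ x, g x ∈ T) : ∃ a, ∀ x, g x = eta i a := by
  obtain ⟨x0⟩ : Nonempty (X k) := inferInstance
  rcases cases_R (g x0) with h0 | ⟨a, ha⟩
  · exact absurd (h0 ▸ hgT x0) hT
  refine ⟨a, ?_⟩
  have hB : IsClosed (g ⁻¹' (T \ {eta i a})) :=
    (isClosedR (fun h => hT h.1) (hs.mono sdiff_subset)).preimage hg
  have hA : IsClosed (g ⁻¹' {eta i a}) :=
    (isClosedR (fun h => eta_ne_top a (mem_singleton_iff.1 h).symm)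
      (small_singleton i _)).preimage hg
  rcases isClosedX.1 hA with h | h
  · intro x
    have : x ∈ g ⁻¹' {eta i a} := by rw [h]; trivial
    exact this
  · rcases isClosedX.1 hB with h' | h'
    · have : x0 ∈ g ⁻¹' (T \ {eta i a}) := by rw [h']; trivial
      exact absurd ha this.2
    · refine absurd ((h.union h').mono fun x _ => ?_) (not_small_univ k)
      by_cases hx : g x = eta i a
      · left; exact hx
      · right; exact ⟨hgT x, hx⟩

theorem gen_R {k i : ℕ} {g : X k → R i} (hg : Continuous g) :
    (∃ a, ∀ x, g x = eta i a) ∨ Gen (range g) (top i) := by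
  by_cases h : ∃ a, ∀ x, g x = eta i a
  · exact Or.inl h
  right
  refine ⟨fun a _ => top_spec a, mem_closure_iff.2 fun U hU hx => ?_⟩
  rcases isOpenR.1 hU with h' | h'
  · rw [h'] at hx; exact hx.elim
  · by_contra hc
    refine h (const_of_small hg (T := Uᶜ) (fun h2 => h2 h'.1) h'.2 fun x hx => hc ⟨g x, hx, x, rfl⟩)

theorem top_mostly {k i : ℕ} (hki : k < i) {g : X k → R i} (hg : Continuous g)
    (h : ¬ ∃ a, ∀ x, g x = eta i a) : Small k {x | g x ≠ top i} := by
  have hT : Small i (range g \ {top i}) := by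
    have := (small_of_lt hki (univ : Set (X k))).image g
    rw [image_univ] at this
    exact this.mono sdiff_subset
  have hc : IsClosed (g ⁻¹' (range g \ {top i})) :=
    (isClosedR (fun h => h.2 rfl) hT).preimage hg
  rcases isClosedX.1 hc with h' | h'
  · refine absurd (const_of_small hg (T := range g \ {top i}) (fun h => h.2 rfl) hT fun x => ?_) h
    have : x ∈ g ⁻¹' (range g \ {top i}) := by rw [h']; trivial
    exact this
  · exact h'.mono fun x hx => ⟨⟨x, rfl⟩, hx⟩

/-- The class `K`: T0 spaces in which every continuous image of some `X k` has a generic point. -/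
def K (Y : Type) [TopologicalSpace Y] : Prop :=
  T0Space Y ∧ ∀ (k : ℕ) (g : X k → Y), Continuous g → ∃ y, Gen (range g) y

theorem K_sober (Y : Type) [TopologicalSpace Y] [T0Space Y] [QuasiSober Y] : K Y :=
  ⟨inferInstance, fun k g hg => gen_of_sober (by
    have := (IrreducibleSpace.isIrreducible_univ (X k)).image g hg.continuousOn
    rwa [image_univ] at this)⟩

theorem gen_const {k : ℕ} {Y : Type} [TopologicalSpace Y] {g : X k → Y} {y : Y}
    (h : ∀ x, g x = y) : Gen (range g) y := by
  have : range g = {y} := by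
    ext z
    constructor
    · rintro ⟨x, rfl⟩; exact h x
    · rintro rfl
      obtain ⟨x0⟩ : Nonempty (X k) := inferInstance
      exact ⟨x0, h x0⟩
  rw [this]; exact gen_singleton y

theorem K_R (i : ℕ) : K (R i) :=
  ⟨inferInstance, fun k g hg => by
    rcases gen_R hg with ⟨a, ha⟩ | h
    · exact ⟨_, gen_const ha⟩
    · exact ⟨_, h⟩⟩

theorem gen_pi {k : ℕ} {I : Type} {Y : I → Type} [∀ i, TopologicalSpace (Y i)]
    {g : X k → ∀ i, Y i} (hg : Continuous g) {y : ∀ i, Y i}
    (h : ∀ i, Gen (range fun x => g x i) (y i)) : Gen (range g) y := by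
  refine ⟨?_, ?_⟩
  · rintro _ ⟨x, rfl⟩
    exact specializes_pi.2 fun i => (h i).1 _ ⟨x, rfl⟩
  · have : Tendsto g (F k) (𝓝 y) :=
      tendsto_pi_nhds.2 fun i => tendsto_F ((continuous_apply i).comp hg) (h i).2
    exact mem_closure_of_tendsto this (Eventually.of_forall fun x => ⟨x, rfl⟩)

/-- points of the product with finitely many top coordinates -/
def S : Set (∀ k, R k) := {y | {k | y k = top k}.Finite}

theorem K_S : K S := by
  classical
  refine ⟨inferInstance, fun k g hg => ?_⟩
  let g' : X k → ∀ i, R i := fun x => (g x).1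
  have hg' : Continuous g' := continuous_subtype_val.comp hg
  have hgi : ∀ i, Continuous fun x => g' x i := fun i => (continuous_apply i).comp hg'
  let y : ∀ i, R i := fun i =>
    if h : ∃ a, ∀ x, g' x i = eta i a then eta i h.choose else top i
  have hy : ∀ i, Gen (range fun x => g' x i) (y i) := by
    intro i
    by_cases h : ∃ a, ∀ x, g' x i = eta i a
    · simp only [y, dif_pos h]; exact gen_const h.choose_spec
    · simp only [y, dif_neg h]; exact (gen_R (hgi i)).resolve_left h
  have hyS : y ∈ S := by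
    let s : ℕ → Set (X k) := fun i => if k < i ∧ y i = top i then {x | g' x i ≠ top i} else ∅
    have hs : ∀ i, Small k (s i) := by
      intro i
      by_cases h : k < i ∧ y i = top i
      · simp only [s, if_pos h]
        refine top_mostly h.1 (hgi i) fun hc => ?_
        have := h.2
        simp only [y, dif_pos hc] at this
        exact eta_ne_top _ this
      · simp only [s, if_neg h]; exact small_empty k
    obtain ⟨x, hx⟩ := exists_not_mem (small_iUnion hs)
    have hfin : {i | g' x i = top i}.Finite := (g x).2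
    refine ((finite_Iic k).union hfin).subset fun i hi => ?_
    by_cases hik : i ≤ k
    · left; exact hik
    · right
      by_contra hc
      refine hx (mem_iUnion.2 ⟨i, ?_⟩)
      have : k < i ∧ y i = top i := ⟨not_le.1 hik, hi⟩
      simp only [s, if_pos this]
      exact hc
  refine ⟨⟨y, hyS⟩, gen_of_inducing (f := (Subtype.val : S → ∀ i, R i)) IsInducing.subtypeVal ?_⟩
  rw [← range_comp]
  exact gen_pi hg' hy

/-- the natural map of the product of the `X k` into the product of the `R k` -/
def etaP : (∀ k, X k) → ∀ k, R k := fun x k => eta k (x k)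

theorem continuous_etaP : Continuous etaP :=
  continuous_pi fun k => (continuous_eta k).comp (continuous_apply k)

theorem etaP_mem (x : ∀ k, X k) : etaP x ∈ S := by
  have : {k | etaP x k = top k} = ∅ := by
    ext k; simp only [mem_ofPred_eq, mem_empty_iff_false, iff_false]; exact eta_ne_top _
  show {k | etaP x k = top k}.Finite
  rw [this]; exact finite_empty

/-- the natural map into `S` -/
def etaS : (∀ k, X k) → S := fun x => ⟨etaP x, etaP_mem x⟩

theorem continuous_etaS : Continuous etaS := continuous_etaP.subtype_mk _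

theorem no_upper (y : S) : ¬ ∀ x, y ⤳ etaS x := by
  classical
  intro h
  have hfin : {k | y.1 k = top k}.Finite := y.2
  obtain ⟨k, hk⟩ := hfin.infinite_compl.nonempty
  rcases cases_R (y.1 k) with h0 | ⟨a, ha⟩
  · exact hk h0
  obtain ⟨b, hb⟩ := exists_not_mem (small_singleton k a)
  let x : ∀ k, X k := Function.update (fun k => Classical.arbitrary (X k)) k b
  have h1 : y.1 k ⤳ etaP x k :=
    (h x).map ((continuous_apply k).comp continuous_subtype_val)
  rw [ha] at h1
  have h2 := eta_inj (eq_of_eta_spec h1)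
  simp only [x, Function.update_self] at h2
  exact hb h2

theorem irreducible_prod : IsIrreducible (univ : Set (∀ k, X k)) := by
  refine ⟨univ_nonempty, ?_⟩
  have key : ∀ u : Set (∀ k, X k), IsOpen u → u.Nonempty → u ∈ Filter.pi F := by
    rintro u hu ⟨x, hx⟩
    have h1 : Filter.pi F ≤ 𝓝 x := by
      rw [nhds_pi]
      refine Filter.pi_mono fun k => ?_
      intro s hs
      obtain ⟨t, hts, ht, hxt⟩ := mem_nhds_iff.1 hs
      exact mem_of_superset (open_mem_F ht ⟨_, hxt⟩) hts
    exact h1 (hu.mem_nhds hx)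
  intro u v hu hv h1 h2
  rw [univ_inter] at h1 h2 ⊢
  exact (Filter.pi F).nonempty_of_mem (inter_mem (key u hu h1) (key v hv h2))

theorem irr_closed_X {k : ℕ} {A : Set (X k)} (hA : IsIrreducible A) (hc : IsClosed A) :
    A = univ ∨ ∃ a, A = {a} := by
  rcases isClosedX.1 hc with h | h
  · exact Or.inl h
  right
  obtain ⟨a, ha⟩ := hA.nonempty
  refine ⟨a, ?_⟩
  have h1 : IsClosed (A \ {a}) := isClosedX.2 (Or.inr (h.mono sdiff_subset))
  have := isPreirreducible_iff_isClosed_union_isClosed.1 hA.isPreirreducible {a} (A \ {a})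
    isClosed_singleton h1 (fun x hx => by
      by_cases hxa : x = a
      · left; exact hxa
      · right; exact ⟨hx, hxa⟩)
  rcases this with h2 | h2
  · exact Subset.antisymm h2 (singleton_subset_iff.2 ha)
  · exact absurd rfl (h2 ha).2

/-- universal property of `eta` -/
theorem eta_univ (i : ℕ) (Z : Type) [TopologicalSpace Z] (hZ : K Z) (g : X i → Z)
    (hg : Continuous g) : ∃! h : R i → Z, Continuous h ∧ h ∘ eta i = g := by
  have := hZ.1
  obtain ⟨z, hz⟩ := hZ.2 i g hg
  let h : R i → Z := fun r => Option.elim r z g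
  have h1 : ∀ x, h (eta i x) = g x := fun x => rfl
  have h2 : h (top i) = z := rfl
  refine ⟨h, ⟨⟨fun U hU => ?_⟩, rfl⟩, ?_⟩
  · by_cases hzU : z ∈ U
    · obtain ⟨_, ⟨x, rfl⟩, hx⟩ := (hz.mem_open hU).1 hzU
      have h3 : Small i (g ⁻¹' U)ᶜ := open_mem_F (hU.preimage hg) ⟨x, hx⟩
      refine isOpenR.2 (Or.inr ⟨hzU, (h3.image (eta i)).mono fun r hr => ?_⟩)
      rcases cases_R r with rfl | ⟨x, rfl⟩
      · exact absurd hzU hr
      · exact ⟨x, hr, rfl⟩
    · refine isOpenR.2 (Or.inl ?_)
      ext r
      simp only [mem_preimage, mem_empty_iff_false, iff_false]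
      rcases cases_R r with rfl | ⟨x, rfl⟩
      · exact hzU
      · intro hx
        exact hzU ((hz.mem_open hU).2 ⟨g x, ⟨x, rfl⟩, hx⟩)
  · rintro h' ⟨hc, he⟩
    funext r
    rcases cases_R r with rfl | ⟨x, rfl⟩
    · have := (gen_top i).image hc
      rw [← range_comp, he] at this
      exact this.unique hz
    · exact congrFun he x

theorem K_homeo (Y Z : Type) [TopologicalSpace Y] [TopologicalSpace Z] (e : Y ≃ₜ Z) (h : K Y) :
    K Z := by
  have := h.1
  refine ⟨e.t0Space, fun k g hg => ?_⟩
  obtain ⟨y, hy⟩ := h.2 k (e.symm ∘ g) (e.symm.continuous.comp hg)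
  have := hy.image e.continuous
  rw [← range_comp] at this
  refine ⟨e y, ?_⟩
  convert this using 2
  funext x; simp

theorem mem_of_K_sub {Y : Type} [TopologicalSpace Y] [T0Space Y] {A : Set Y} (hA : K A) {k : ℕ}
    {g : X k → Y} (hg : Continuous g) (hgA : ∀ x, g x ∈ A) {y : Y} (hy : Gen (range g) y) :
    y ∈ A := by
  obtain ⟨a, ha⟩ := hA.2 k (fun x => ⟨g x, hgA x⟩) (hg.subtype_mk _)
  have := ha.image continuous_subtype_val
  rw [← range_comp] at this
  have h2 : y = a.1 := hy.unique this
  rw [h2]; exact a.2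

theorem K_sub_of {Y : Type} [TopologicalSpace Y] [T0Space Y] [QuasiSober Y] {A : Set Y}
    (h : ∀ k (g : X k → Y), Continuous g → (∀ x, g x ∈ A) → ∀ y, Gen (range g) y → y ∈ A) :
    K A := by
  refine ⟨inferInstance, fun k g hg => ?_⟩
  have hg' : Continuous (Subtype.val ∘ g) := continuous_subtype_val.comp hg
  obtain ⟨y, hy⟩ := (K_sober Y).2 k _ hg'
  refine ⟨⟨y, h k _ hg' (fun x => (g x).2) y hy⟩,
    gen_of_inducing (f := (Subtype.val : A → Y)) IsInducing.subtypeVal ?_⟩
  rw [← range_comp]
  exact hy

theorem K_sInter (Y : Type) [TopologicalSpace Y] [T0Space Y] [QuasiSober Y] (T : Set (Set Y))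
    (h : ∀ A ∈ T, K A) : K (⋂₀ T : Set Y) :=
  K_sub_of fun _ _ hg hgA _ hy A hA => mem_of_K_sub (h A hA) hg (fun x => hgA x A hA) hy

theorem K_preimage (Y Z : Type) [TopologicalSpace Y] [TopologicalSpace Z] [T0Space Y]
    [QuasiSober Y] [T0Space Z] (f : Y → Z) (hf : Continuous f) (B : Set Z) (hB : K B) :
    K (f ⁻¹' B : Set Y) :=
  K_sub_of fun _ g hg hgA y hy => by
    have := hy.image hf
    rw [← range_comp] at this
    exact mem_of_K_sub hB (hf.comp hg) hgA this

/-- the product map is not a reflection: no continuous map from the product of the `R k` to `S`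
extends the natural map. -/
theorem no_ext (h : (∀ k, R k) → S) (hc : Continuous h) (he : h ∘ etaP = etaS) : False := by
  refine no_upper (h fun k => top k) fun x => ?_
  rw [← he]
  exact (specializes_pi.2 fun k => top_spec (etaP x k)).map hc

end Pool.Agent.H84.KProd
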