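import Mathlib
import Pool.Agent.H84.KProd

set_option autoImplicit false
set_option linter.dupNamespace false

namespace Pool.Agent.H84.KProd

open Set Topology Filter Pool.Agent.H84.Gen

/-- closed `K`-determined sets -/
def KD (W : Type) [TopologicalSpace W] : Type :=
  {A : Set W // IsClosed A ∧ ∀ (Y : Type) [TopologicalSpace Y], K Y →
    ∀ f : W → Y, Continuous f → ∃! y : Y, closure (f '' A) = closure {y}}

instance topKD (W : Type) [TopologicalSpace W] : TopologicalSpace (KD W) :=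
  TopologicalSpace.generateFrom {S | ∃ U : Set W, IsOpen U ∧ S = {A | (A.1 ∩ U).Nonempty}}

theorem isOpen_dia {W : Type} [TopologicalSpace W] {U : Set W} (hU : IsOpen U) :
    IsOpen {A : KD W | (A.1 ∩ U).Nonempty} :=
  TopologicalSpace.isOpen_generateFrom_of_mem ⟨U, hU, rfl⟩

theorem spec_KD {W : Type} [TopologicalSpace W] {A B : KD W} (h : B.1 ⊆ A.1) : A ⤳ B := by
  rw [Specializes, TopologicalSpace.nhds_generateFrom (a := B)]
  simp only [le_iInf_iff, le_principal_iff]
  rintro s ⟨hB, U, hU, rfl⟩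
  exact (isOpen_dia hU).mem_nhds (hB.mono (inter_subset_inter_left _ h))

theorem subset_of_spec_KD {W : Type} [TopologicalSpace W] {A B : KD W} (h : A ⤳ B) :
    B.1 ⊆ A.1 := by
  intro x hx
  by_contra hc
  have h1 : B ∈ {C : KD W | (C.1 ∩ A.1ᶜ).Nonempty} := ⟨x, hx, hc⟩
  obtain ⟨z, hz, hz'⟩ := h.mem_open (isOpen_dia A.2.1.isOpen_compl) h1
  exact hz' hz

theorem K_KD (W : Type) [TopologicalSpace W] : K (KD W) := by
  refine ⟨⟨fun A B h => Subtype.ext
    (Subset.antisymm (subset_of_spec_KD h.specializes') (subset_of_spec_KD h.specializes))⟩,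
    fun k g hg => ?_⟩
  let A : Set W := closure (⋃ x, (g x).1)
  have hA : ∀ (Y : Type) [TopologicalSpace Y], K Y →
      ∀ f : W → Y, Continuous f → ∃! y : Y, closure (f '' A) = closure {y} := by
    intro Y _ hY f hf
    have := hY.1
    apply exists_unique_of_gen
    have h1 : ∀ B : KD W, ∃ y, Gen (f '' B.1) y := fun B => by
      obtain ⟨y, hy, -⟩ := B.2.2 Y hY f hf
      exact ⟨y, gen_iff.2 hy⟩
    choose fs hfs using h1
    have hc : Continuous fs := by
      refine ⟨fun U hU => ?_⟩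
      have : fs ⁻¹' U = {B : KD W | (B.1 ∩ f ⁻¹' U).Nonempty} := by
        ext B
        rw [mem_preimage, (hfs B).mem_open hU]
        constructor
        · rintro ⟨_, ⟨x, hx, rfl⟩, h2⟩; exact ⟨x, hx, h2⟩
        · rintro ⟨x, hx, h2⟩; exact ⟨f x, ⟨x, hx, rfl⟩, h2⟩
      rw [this]; exact isOpen_dia (hU.preimage hf)
    obtain ⟨y, hy⟩ := hY.2 k (fs ∘ g) (hc.comp hg)
    refine ⟨y, ?_, ?_⟩
    · rintro _ ⟨a, ha, rfl⟩
      have h2 : (⋃ x, (g x).1) ⊆ f ⁻¹' closure {y} := by
        intro w hw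
        obtain ⟨x, hx⟩ := mem_iUnion.1 hw
        have h3 : y ⤳ f w := (hy.1 _ ⟨x, rfl⟩).trans ((hfs (g x)).1 _ ⟨w, hx, rfl⟩)
        exact specializes_iff_mem_closure.1 h3
      exact specializes_iff_mem_closure.2 (closure_minimal h2 (isClosed_closure.preimage hf) ha)
    · refine closure_minimal ?_ isClosed_closure hy.2
      rintro _ ⟨x, rfl⟩
      exact closure_mono (image_mono ((subset_iUnion (fun x => (g x).1) x).trans subset_closure))
        (hfs (g x)).2
  refine ⟨⟨A, isClosed_closure, hA⟩, ?_, ?_⟩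
  · rintro _ ⟨x, rfl⟩
    exact spec_KD ((subset_iUnion (fun x => (g x).1) x).trans subset_closure)
  · have : Tendsto g (F k) (𝓝 (⟨A, isClosed_closure, hA⟩ : KD W)) := by
      rw [TopologicalSpace.tendsto_nhds_generateFrom_iff]
      rintro s ⟨U, hU, rfl⟩ ⟨w, hw, hwU⟩
      obtain ⟨v, hv, hv'⟩ := mem_closure_iff.1 hw U hU hwU
      obtain ⟨x, hx⟩ := mem_iUnion.1 hv'
      exact open_mem_F ((isOpen_dia hU).preimage hg) ⟨x, v, hx, hv⟩
    exact mem_closure_of_tendsto this (Eventually.of_forall fun x => ⟨x, rfl⟩)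

/-- No space `Z` with a map from the product through which the map to `S` factors is homeomorphic
to a space with a dense point; any product of reflections of the `X k` has a dense point. -/
theorem not_homeo (R' : ℕ → Type) [∀ i, TopologicalSpace (R' i)] (η : ∀ i, X i → R' i)
    (hη : ∀ i, Continuous (η i)) (hK : ∀ i, K (R' i))
    (hu : ∀ i, ∀ (Z : Type) [TopologicalSpace Z], K Z → ∀ g : X i → Z, Continuous g →
      ∃! h : R' i → Z, Continuous h ∧ h ∘ η i = g)
    (Z : Type) [TopologicalSpace Z] (μ : (∀ i, X i) → Z)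
    (hZ : ∀ (Y : Type) [TopologicalSpace Y], K Y → ∀ g : (∀ i, X i) → Y, Continuous g →
      ∃! h : Z → Y, Continuous h ∧ h ∘ μ = g) : IsEmpty (Z ≃ₜ ∀ i, R' i) := by
  refine ⟨fun e => ?_⟩
  have h1 : ∀ i, ∃ t : R' i, ∀ r, t ⤳ r := by
    intro i
    obtain ⟨a, ⟨ha, hae⟩, -⟩ := eta_univ i (R' i) (hK i) (η i) (hη i)
    obtain ⟨b, ⟨hb, hbe⟩, -⟩ := hu i (R i) (K_R i) (eta i) (continuous_eta i)
    obtain ⟨c, -, hc⟩ := hu i (R' i) (hK i) (η i) (hη i)
    have h2 : a ∘ b = c := hc _ ⟨ha.comp hb, by rw [Function.comp_assoc, hbe, hae]⟩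
    have h3 : id = c := hc _ ⟨continuous_id, rfl⟩
    refine ⟨a (top i), fun r => ?_⟩
    have h4 : a (b r) = r := congrFun (h2.trans h3.symm) r
    rw [← h4]
    exact (top_spec (b r)).map ha
  choose t ht using h1
  obtain ⟨h, ⟨hc, he⟩, -⟩ := hZ S K_S etaS continuous_etaS
  refine no_upper (h (e.symm t)) fun x => ?_
  have h5 : e.symm t ⤳ μ x := by
    have := (specializes_pi.2 fun i => ht i (e (μ x) i) : t ⤳ e (μ x)).map e.symm.continuous
    simpa using this
  rw [← he]
  exact h5.map hc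

/-- the canonical map into the closed `K`-determined sets -/
def muKD (W : Type) [TopologicalSpace W] : W → KD W := fun x =>
  ⟨closure {x}, isClosed_closure, fun Y _ hY f hf => by
    have := hY.1
    apply exists_unique_of_gen
    exact ⟨f x, (gen_closure.2 (gen_singleton x)).image hf⟩⟩

theorem continuous_muKD (W : Type) [TopologicalSpace W] : Continuous (muKD W) := by
  refine continuous_generateFrom_iff.2 ?_
  rintro s ⟨U, hU, rfl⟩
  have : muKD W ⁻¹' {A : KD W | (A.1 ∩ U).Nonempty} = U := by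
    ext x
    exact ((gen_closure.2 (gen_singleton x)).mem_open hU).symm
  rw [this]; exact hU

theorem gen_muKD {W : Type} [TopologicalSpace W] (B : KD W) : Gen (muKD W '' B.1) B := by
  obtain ⟨C, hC, -⟩ := B.2.2 (KD W) (K_KD W) (muKD W) (continuous_muKD W)
  have hC' := gen_iff.2 hC
  have : C = B := by
    refine Subtype.ext (Subset.antisymm ?_ ?_)
    · intro x hx
      by_contra hc
      obtain ⟨_, ⟨w, hw, rfl⟩, v, hv, hv'⟩ :=
        (hC'.mem_open (isOpen_dia B.2.1.isOpen_compl)).1 ⟨x, hx, hc⟩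
      exact hv' (closure_minimal (singleton_subset_iff.2 hw) B.2.1 hv)
    · intro x hx
      exact subset_of_spec_KD (hC'.1 _ ⟨x, hx, rfl⟩) (subset_closure rfl)
  rw [this] at hC'; exact hC'

theorem muKD_univ (W : Type) [TopologicalSpace W] (Y : Type) [TopologicalSpace Y] (hY : K Y)
    (f : W → Y) (hf : Continuous f) : ∃! h : KD W → Y, Continuous h ∧ h ∘ muKD W = f := by
  have := hY.1
  have h1 : ∀ B : KD W, ∃ y, Gen (f '' B.1) y := fun B => by
    obtain ⟨y, hy, -⟩ := B.2.2 Y hY f hf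
    exact ⟨y, gen_iff.2 hy⟩
  choose fs hfs using h1
  have hc : Continuous fs := by
    refine ⟨fun U hU => ?_⟩
    have : fs ⁻¹' U = {B : KD W | (B.1 ∩ f ⁻¹' U).Nonempty} := by
      ext B
      rw [mem_preimage, (hfs B).mem_open hU]
      constructor
      · rintro ⟨_, ⟨x, hx, rfl⟩, h2⟩; exact ⟨x, hx, h2⟩
      · rintro ⟨x, hx, h2⟩; exact ⟨f x, ⟨x, hx, rfl⟩, h2⟩
    rw [this]; exact isOpen_dia (hU.preimage hf)
  refine ⟨fs, ⟨hc, funext fun x => ?_⟩, ?_⟩
  · exact (hfs (muKD W x)).unique ((gen_closure.2 (gen_singleton x)).image hf)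
  · rintro h ⟨hh, he⟩
    funext B
    have h2 := (gen_muKD B).image hh
    rw [← image_comp, he] at h2
    exact h2.unique (hfs B)

end Pool.Agent.H84.KProd
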