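import Pool.Agent.H84.KfDefs

/-! Sakai's property (κ) and the `κ`-Fréchet property of `C_p`. -/

namespace Pool.Agent.H84.Kf

open Set Cardinal Topology Filter

/-- The sequence `F` has a subsequence with a point-finite open expansion. -/
def Good {T : Type} [TopologicalSpace T] (F : ℕ → Set T) : Prop :=
  ∃ A : Set ℕ, A.Infinite ∧ ∃ U : ℕ → Set T, (∀ n, IsOpen (U n)) ∧ (∀ n ∈ A, F n ⊆ U n) ∧
    ∀ x, {n | n ∈ A ∧ x ∈ U n}.Finite

theorem fin_pos {ι : Type} {I : Set ι} (hI : I.Finite) (d : ι → ℝ) (hd : ∀ i ∈ I, 0 < d i) :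
    ∃ δ > 0, ∀ i ∈ I, δ ≤ d i := by
  rcases I.eq_empty_or_nonempty with rfl | hne
  · exact ⟨1, one_pos, by simp⟩
  · obtain ⟨i, hi, h⟩ := Set.exists_min_image I d hI hne
    exact ⟨d i, hd i hi, h⟩

variable {T : Type} [MetricSpace T]

theorem basic {f : Cp T} {W : Set (Cp T)} (hW : W ∈ 𝓝 f) :
    ∃ G : Set T, G.Finite ∧ ∃ δ > 0, ∀ g : Cp T, (∀ x ∈ G, |g.1 x - f.1 x| < δ) → g ∈ W := by
  obtain ⟨V, hV, hVW⟩ := (mem_nhds_subtype _ _ _).1 hW
  rw [nhds_pi, Filter.mem_pi] at hV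
  obtain ⟨I, hI, t, ht, hIt⟩ := hV
  choose d hd hdt using fun i => Metric.mem_nhds_iff.1 (ht i)
  obtain ⟨δ, hδ, h⟩ := fin_pos hI d fun i _ => hd i
  exact ⟨I, hI, δ, hδ, fun g hg => hVW (hIt fun i hi => hdt i
    (by rw [Metric.mem_ball, Real.dist_eq]; exact (hg i hi).trans_le (h i hi)))⟩

theorem cont_ev (x : T) : Continuous fun g : Cp T => g.1 x :=
  (continuous_apply x).comp continuous_subtype_val

theorem kf_of (hT : ∀ F : ℕ → Set T, (∀ n, (F n).Finite) → Pairwise (Function.onFun Disjoint F) →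
    Good F) : KFrechet (Cp T) := by
  classical
  intro f U hU hf hfU
  have step : ∀ (G : Finset T) (n : ℕ), ∃ (g : Cp T) (H : Finset T),
      (∀ x ∈ G, |g.1 x - f.1 x| < 1 / ((n : ℝ) + 1)) ∧
      ∀ h : Cp T, (∀ x ∈ H, h.1 x = g.1 x) → h ∈ U := by
    intro G n
    have ho : IsOpen (⋂ x ∈ G, {g : Cp T | |g.1 x - f.1 x| < 1 / ((n : ℝ) + 1)}) :=
      isOpen_biInter_finset fun x _ =>
        isOpen_lt (((cont_ev x).sub continuous_const).abs) continuous_const
    obtain ⟨g, hg, hgU⟩ := mem_closure_iff.1 hf _ ho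
      (mem_iInter₂.2 fun x _ => by simpa using Nat.cast_add_one_pos (α := ℝ) n)
    obtain ⟨H, hH, δ, hδ, h⟩ := basic (hU.mem_nhds hgU)
    exact ⟨g, hH.toFinset, fun x hx => mem_iInter₂.1 hg x hx, fun k hk => h k fun x hx => by
      rw [hk x (hH.mem_toFinset.2 hx)]; simpa using hδ⟩
  choose g H hg hH using step
  obtain ⟨G, hG0⟩ : ∃ G : ℕ → Finset T, ∀ n, G (n + 1) = G n ∪ H (G n) n :=
    ⟨fun n => Nat.rec (motive := fun _ => Finset T) ∅ (fun n G => G ∪ H G n) n, fun _ => rfl⟩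
  have hG : Monotone G := monotone_nat_of_le_succ fun n => by
    rw [hG0]; exact Finset.subset_union_left
  let F : ℕ → Set T := fun n => {x | x ∈ H (G n) n ∧ x ∉ G n}
  have hFf : ∀ n, (F n).Finite := fun n => (H (G n) n).finite_toSet.subset fun _ h => h.1
  obtain ⟨A, hA, V, hVo, hFV, hV⟩ := hT F hFf (by
    refine pairwise_disjoint_on _ |>.2 fun m n hmn => disjoint_left.2 fun x hm hn => hn.2 ?_
    refine hG (Nat.succ_le_of_lt hmn) ?_
    rw [Nat.succ_eq_add_one, hG0]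
    exact Finset.mem_union_right _ hm.1)
  have h1 : ∀ n, ∃ h : Cp T, n ∈ A → h ∈ U ∧
      ∀ x ∉ V n, |h.1 x - f.1 x| ≤ 1 / ((n : ℝ) + 1) := by
    intro n
    by_cases hn : n ∈ A
    swap
    · exact ⟨f, fun h => absurd h hn⟩
    obtain ⟨θ, h0, h1, -⟩ := exists_continuous_zero_one_of_isClosed (hVo n).isClosed_compl
      (hFf n).isClosed
      (disjoint_left.2 fun x hx hx' => hx (hFV n hn hx'))
    set e : ℝ := 1 / ((n : ℝ) + 1) with he
    have he0 : 0 < e := Nat.one_div_pos_of_nat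
    set u : T → ℝ := fun x => (g (G n) n).1 x - f.1 x with hu
    have huc : Continuous u := (g (G n) n).2.sub f.2
    refine ⟨⟨fun x => f.1 x + (max (-e) (min e (u x)) * (1 - θ x) + u x * θ x), by
      have := f.2; fun_prop⟩, fun _ => ⟨hH (G n) n _ fun x hx => ?_, fun x hx => ?_⟩⟩
    · by_cases hxG : x ∈ G n
      · have := abs_lt.1 (hg (G n) n x hxG)
        have h2 : max (-e) (min e (u x)) = u x := by
          rw [min_eq_right this.2.le, max_eq_right this.1.le]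
        simp only [h2]
        simp only [hu]; ring
      · have h2 : θ x = 1 := h1 ⟨hx, hxG⟩
        simp only [h2, hu]; ring
    · have h2 : θ x = 0 := h0 hx
      simp only [h2, sub_zero, mul_one, mul_zero, add_zero, add_sub_cancel_left]
      exact abs_le.2 ⟨le_max_left _ _, max_le (by linarith) (min_le_left _ _)⟩
  choose h hh using h1
  have key : ∀ W ∈ 𝓝 f, {n | n ∈ A ∧ h n ∉ W}.Finite := by
    intro W hW
    obtain ⟨K, hK, δ, hδ, hKW⟩ := basic hW
    obtain ⟨N, hN⟩ := exists_nat_one_div_lt hδ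
    refine ((hK.biUnion fun x _ => hV x).union (finite_Iio N)).subset fun n hn => ?_
    by_contra hc
    simp only [mem_union, mem_iUnion, mem_setOf_eq, mem_Iio, not_or, not_exists, not_and,
      not_lt] at hc
    refine hn.2 (hKW _ fun x hx => ((hh n hn.1).2 x (hc.1 x hx hn.1)).trans_lt ?_)
    exact (Nat.one_div_le_one_div hc.2).trans_lt hN
  have hfB : f ∉ h '' A := fun ⟨n, hn, e⟩ => hfU (e ▸ (hh n hn).1)
  refine ⟨h '' A, by rintro _ ⟨n, hn, rfl⟩; exact (hh n hn).1, (to_countable A).image h,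
    fun hB => hA ((key _ (hB.isClosed.isOpen_compl.mem_nhds hfB)).subset fun n hn =>
      ⟨hn, fun h' => h' ⟨n, hn, rfl⟩⟩), hfB, fun W hW => ((key W hW).image h).subset ?_⟩
  rintro _ ⟨⟨n, hn, rfl⟩, hnW⟩
  exact ⟨n, ⟨hn, hnW⟩, rfl⟩

theorem good_of (hT : KFrechet (Cp T)) {F : ℕ → Set T} (hF : ∀ n, (F n).Finite)
    (hne : ∀ n, (F n).Nonempty) (hd : Pairwise (Function.onFun Disjoint F)) : Good F := by
  classical
  let o : Cp T := ⟨fun _ => 0, continuous_const⟩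
  obtain ⟨B, hBU, -, hBi, -, hB⟩ := hT o (⋃ n, ⋂ x ∈ F n, {g : Cp T | 1 < g.1 x})
    (isOpen_iUnion fun n => (hF n).isOpen_biInter fun x _ =>
      isOpen_lt continuous_const (cont_ev x)) (by
      refine mem_closure_iff_nhds.2 fun W hW => ?_
      obtain ⟨G, hG, δ, hδ, hGW⟩ := basic hW
      have h1 : (⋃ x ∈ G, {n | x ∈ F n}).Finite := hG.biUnion fun x _ =>
        Set.Subsingleton.finite fun m hm n hn => by
          by_contra hmn
          exact disjoint_left.1 (hd hmn) hm hn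
      obtain ⟨n, hn⟩ := h1.infinite_compl.nonempty
      obtain ⟨θ, h0, h1, -⟩ := exists_continuous_zero_one_of_isClosed hG.isClosed (hF n).isClosed
        (disjoint_left.2 fun x hx hx' => hn (mem_iUnion₂.2 ⟨x, hx, hx'⟩))
      refine ⟨⟨fun x => 2 * θ x, by fun_prop⟩, hGW _ fun x hx => ?_,
        mem_iUnion.2 ⟨n, mem_iInter₂.2 fun x hx => ?_⟩⟩
      · have : θ x = 0 := h0 hx
        simpa [this, o] using hδ
      · have : θ x = 1 := h1 hx
        simp [this]) (by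
      intro h
      obtain ⟨n, hn⟩ := mem_iUnion.1 h
      obtain ⟨x, hx⟩ := hne n
      have : (1 : ℝ) < 0 := mem_iInter₂.1 hn x hx
      linarith)
  have hx1 : ∀ x, {g | g ∈ B ∧ 1 < g.1 x}.Finite := fun x =>
    (hB {g | g.1 x < 1} ((isOpen_lt (cont_ev x) continuous_const).mem_nhds
      (show (0 : ℝ) < 1 from one_pos))).subset fun g hg => ⟨hg.1, fun h => lt_asymm hg.2 h⟩
  have h2 : ∀ g : Cp T, ∃ n, g ∈ B → ∀ x ∈ F n, 1 < g.1 x := fun g => by
    by_cases hg : g ∈ B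
    · obtain ⟨n, hn⟩ := mem_iUnion.1 (hBU hg)
      exact ⟨n, fun _ => mem_iInter₂.1 hn⟩
    · exact ⟨0, fun h => absurd h hg⟩
  choose ν hν using h2
  have h3 : ∀ n, ∃ g : Cp T, n ∈ ν '' B → g ∈ B ∧ ν g = n := fun n => by
    by_cases hn : n ∈ ν '' B
    · obtain ⟨g, hg⟩ := hn
      exact ⟨g, fun _ => hg⟩
    · exact ⟨o, fun h => absurd h hn⟩
  choose γ hγ using h3
  refine ⟨ν '' B, fun hA => hBi ?_, fun n => {x | 1 < (γ n).1 x},
    fun n => isOpen_lt continuous_const (γ n).2,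
    fun n hn x hx => hν _ (hγ n hn).1 x ((hγ n hn).2.symm ▸ hx), fun x => ?_⟩
  · refine (hA.biUnion fun n _ => hx1 (hne n).some).subset fun g hg => ?_
    exact mem_iUnion₂.2 ⟨ν g, ⟨g, hg, rfl⟩, hg, hν g hg _ (hne _).some_mem⟩
  · refine ((hx1 x).image ν).subset fun n hn => ⟨γ n, ⟨(hγ n hn.1).1, hn.2⟩, (hγ n hn.1).2⟩

end Pool.Agent.H84.Kf
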