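import Pool.Agent.H84.KfA

/-! Sets of size below `non(M)` have property (κ). -/

namespace Pool.Agent.H84.Kf

open Set Cardinal Topology Filter

theorem cyl {N : Set (ℕ → Bool)} (hN : IsOpen N) {z : ℕ → Bool} (hz : z ∈ N) :
    ∃ k, ∀ z', (∀ i < k, z' i = z i) → z' ∈ N := by
  obtain ⟨I, u, hu, hI⟩ := isOpen_pi_iff.1 hN z hz
  refine ⟨I.sup id + 1, fun z' h => hI fun i hi => ?_⟩
  rw [h i (Nat.lt_succ_of_le (Finset.le_sup (f := id) hi))]
  exact (hu i hi).2

theorem cyl_open (u : ℕ → Bool) (b : ℕ) : IsOpen {z : ℕ → Bool | ∀ i < b, z i = u i} := by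
  have : {z : ℕ → Bool | ∀ i < b, z i = u i} = ⋂ i ∈ Iio b, (fun z => z i) ⁻¹' {u i} := by
    ext z; simp
  rw [this]
  exact (finite_Iio b).isOpen_biInter fun i _ => (isOpen_discrete _).preimage (continuous_apply i)

theorem fin_meagre {Y : Set (ℕ → Bool)} (hY : Y.Finite) : IsMeagre Y := by
  refine residual_of_dense_open hY.isClosed.isOpen_compl (dense_iff_inter_open.2 ?_)
  rintro N hN ⟨z, hz⟩
  obtain ⟨k, hk⟩ := cyl hN hz
  have hinj : Function.Injective fun n : ℕ => Function.update z (k + n) (!z (k + n)) := by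
    intro m n hmn
    by_contra hne
    have := congrFun hmn (k + m)
    simp only [Function.update_self] at this
    rw [Function.update_of_ne (by omega)] at this
    simp at this
  obtain ⟨_, ⟨n, rfl⟩, hn⟩ := ((infinite_range_of_injective hinj).diff hY).nonempty
  exact ⟨_, hk _ fun i hi => Function.update_of_ne (by omega) _ _, hn⟩

theorem ext_dense {E : Set (ℕ → Bool)} (ho : IsOpen E) (hd : Dense E) (a : ℕ)
    (S : Finset (Fin a → Bool)) : ∃ (b : ℕ) (w : ℕ → Bool), ∀ z : ℕ → Bool,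
      (fun i : Fin a => z i) ∈ S → (∀ i, a ≤ i → i < b → z i = w i) → z ∈ E := by
  classical
  induction S using Finset.induction_on with
  | empty => exact ⟨0, fun _ => true, fun z h => absurd h (by simp)⟩
  | insert σ S _ ih =>
    obtain ⟨b, w, h⟩ := ih
    let u : ℕ → Bool := fun i => if hi : i < a then σ ⟨i, hi⟩ else w i
    obtain ⟨v, hv, hvE⟩ := hd.inter_open_nonempty _ (cyl_open u (a + b)) ⟨u, fun _ _ => rfl⟩
    obtain ⟨k, hk⟩ := cyl ho hvE
    refine ⟨b + k, v, fun z hz hzv => ?_⟩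
    rcases Finset.mem_insert.1 hz with hz | hz
    · refine hk z fun i hi => ?_
      by_cases hia : i < a
      · rw [hv i (by omega)]
        simp only [u, hia, dif_pos]
        exact congrFun hz ⟨i, hia⟩
      · exact hzv i (by omega) (by omega)
    · refine h z hz fun i hi hib => ?_
      rw [hzv i hi (by omega), hv i (by omega)]
      simp only [u, dif_neg (not_lt.2 hi)]

theorem normal_form {M : Set (ℕ → Bool)} (hM : IsMeagre M) :
    ∃ (r : ℕ → ℕ) (w : ℕ → ℕ → Bool), Monotone r ∧ ∀ z : ℕ → Bool,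
      {a | ∀ i, a ≤ i → i < r a → z i = w a i}.Infinite → z ∉ M := by
  classical
  obtain ⟨S, hSo, hSd, hSc, hS⟩ := mem_residual_iff.1 hM
  obtain ⟨D, hD⟩ := (hSc.insert Set.univ).exists_eq_range (insert_nonempty _ _)
  have hDo : ∀ j, IsOpen (D j) ∧ Dense (D j) := fun j => by
    rcases (hD ▸ mem_range_self j : D j ∈ insert Set.univ S) with h | h
    · rw [h]; exact ⟨isOpen_univ, dense_univ⟩
    · exact ⟨hSo _ h, hSd _ h⟩
  have h1 : ∀ a, ∃ (b : ℕ) (w : ℕ → Bool), ∀ z : ℕ → Bool,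
      (∀ i, a ≤ i → i < b → z i = w i) → z ∈ ⋂ j ∈ Iic a, D j := fun a => by
    obtain ⟨b, w, h⟩ := ext_dense ((finite_Iic a).isOpen_biInter fun j _ => (hDo j).1)
      (dense_biInter_of_isOpen (fun j _ => (hDo j).1) (to_countable _) fun j _ => (hDo j).2)
      a Finset.univ
    exact ⟨b, w, fun z => h z (Finset.mem_univ _)⟩
  choose b w h using h1
  refine ⟨fun a => (Finset.range (a + 1)).sup b, w, fun m n hmn =>
    Finset.sup_mono (Finset.range_mono (by omega)), fun z hz => hS fun t ht => ?_⟩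
  obtain ⟨j, rfl⟩ : t ∈ range D := hD ▸ mem_insert_of_mem _ ht
  obtain ⟨a, ha, hja⟩ := hz.exists_gt j
  exact mem_iInter₂.1 (h a z fun i hi hib => ha i hi (hib.trans_le
    (Finset.le_sup (f := b) (Finset.self_mem_range_succ a)))) j hja.le

theorem part (φ : ℕ → ℕ) : ∃ p : ℕ → ℕ, StrictMono p ∧ ∀ r : ℕ → ℕ, Monotone r →
    {n | r (r n) ≤ φ n}.Infinite → {l | r (p l) ≤ p (l + 1)}.Infinite := by
  let ψ : ℕ → ℕ := fun n => (Finset.range (n + 1)).sup φ + n + 1
  let p : ℕ → ℕ := fun l => ψ^[l] 0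
  have hp : ∀ l, p (l + 1) = ψ (p l) := fun l => Function.iterate_succ_apply' _ _ _
  have hm : StrictMono p := strictMono_nat_of_lt_succ fun l => by rw [hp]; simp only [ψ]; omega
  refine ⟨p, hm, fun r hr hn hl => ?_⟩
  obtain ⟨l0, hl0⟩ := hl.bddAbove
  obtain ⟨n, hn, hn0⟩ := hn.exists_gt (p (l0 + 1))
  have hex : ∃ l, n < p (l + 1) := ⟨n, (Nat.lt_succ_self n).trans_le hm.le_apply⟩
  set l := Nat.find hex with hl
  have h1 : n < p (l + 1) := Nat.find_spec hex
  have h2 : l0 < l := by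
    have := hm.lt_iff_lt.1 (hn0.trans h1)
    omega
  have h3 : p l ≤ n := by
    have := Nat.find_min hex (show l - 1 < Nat.find hex by omega)
    rw [show l - 1 + 1 = l by omega] at this
    omega
  have h4 : p (l + 1) < r (p l) := not_le.1 fun h => absurd (hl0 h) (by omega)
  have h5 : p (l + 1 + 1) < r (p (l + 1)) := not_le.1 fun h => absurd (hl0 h) (by omega)
  have h6 : φ n ≤ (Finset.range (p (l + 1) + 1)).sup φ :=
    Finset.le_sup (f := φ) (Finset.mem_range.2 (by omega))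
  have h7 := hr (h4.le.trans (hr h3))
  have h8 : r (r n) ≤ φ n := hn
  rw [hp (l + 1)] at h5
  simp only [ψ] at h5
  omega

theorem lower {T : Type} [MetricSpace T] {F : ℕ → Set T} (hF : ∀ n, (F n).Finite)
    (hd : Pairwise (Function.onFun Disjoint F)) (hbad : ¬ Good F) : nonM ≤ #T := by
  classical
  have bad : ∀ A : Set ℕ, A.Infinite → ∀ d : ℕ → ℝ, (∀ n, 0 < d n) →
      ∃ x, {n | n ∈ A ∧ ∃ y ∈ F n, dist x y < d n}.Infinite := by
    intro A hA d hd0
    by_contra! hc
    exact hbad ⟨A, hA, fun n => Metric.thickening (d n) (F n), fun _ => Metric.isOpen_thickening,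
      fun n _ => Metric.self_subset_thickening (hd0 n) _, fun x => by
        simpa only [Metric.mem_thickening_iff] using hc x⟩
  have h1 : ∀ (x : T) (n : ℕ), ∃ m : ℕ, x ∉ F n → ∀ y ∈ F n, 1 / ((m : ℝ) + 1) < dist x y := by
    intro x n
    by_cases hx : x ∈ F n
    · exact ⟨0, fun h => absurd hx h⟩
    obtain ⟨δ, hδ, h⟩ := fin_pos (hF n) (dist x) fun y hy => dist_pos.2 fun e => hx (e ▸ hy)
    obtain ⟨m, hm⟩ := exists_nat_one_div_lt hδ
    exact ⟨m, fun _ y hy => hm.trans_le (h y hy)⟩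
  choose φ hφ using h1
  have hunb : ∀ g : ℕ → ℕ, ∃ x, {n | g n ≤ φ x n}.Infinite := by
    intro g
    obtain ⟨x, hx⟩ := bad Set.univ infinite_univ (fun n => 1 / ((g n : ℝ) + 1))
      fun _ => Nat.one_div_pos_of_nat
    have hs : {n | x ∈ F n}.Finite := Set.Subsingleton.finite fun m hm n hn => by
      by_contra hmn
      exact disjoint_left.1 (hd hmn) hm hn
    refine ⟨x, (hx.diff hs).mono ?_⟩
    rintro n ⟨⟨-, y, hy, hxy⟩, hn⟩
    by_contra hlt
    exact ((hφ x n hn y hy).trans hxy).not_ge (Nat.one_div_le_one_div (not_le.1 hlt).le)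
  choose p hp hpr using fun x => part (φ x)
  let e : ℕ × Finset ℕ ≃ ℕ := Denumerable.eqv _
  have h2 : ∀ l k : ℕ, ∃ δ > 0, ∀ s ⊆ Finset.range k, ∀ t ⊆ Finset.range k, ∀ x : T,
      (∃ y ∈ F (e (l, s)), dist x y < δ) → (∃ y ∈ F (e (l, t)), dist x y < δ) → s = t := by
    intro l k
    have hK : (⋃ s ∈ (Finset.range k).powerset, F (e (l, s))).Finite :=
      (Finset.finite_toSet _).biUnion fun s _ => hF _
    obtain ⟨δ, hδ, h⟩ := fin_pos ((hK.prod hK).subset (inter_subset_left (t := {q : T × T | q.1 ≠ q.2})))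
      (fun q => dist q.1 q.2) fun q hq => dist_pos.2 hq.2
    refine ⟨δ / 2, by positivity, fun s hs t ht x ⟨y, hy, hxy⟩ ⟨y', hy', hxy'⟩ => ?_⟩
    by_contra hst
    have hne : y ≠ y' := fun h' => disjoint_left.1
      (hd fun h'' => hst (Prod.ext_iff.1 (e.injective h'')).2) hy (h' ▸ hy')
    have := h (y, y') ⟨⟨mem_iUnion₂.2 ⟨s, Finset.mem_powerset.2 hs, hy⟩,
      mem_iUnion₂.2 ⟨t, Finset.mem_powerset.2 ht, hy'⟩⟩, hne⟩
    have h3 := dist_triangle_left y y' x
    simp only at this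
    linarith
  choose δ hδ hsep using h2
  let z : T × T → ℕ → Bool := fun q i => decide (∃ l, p q.1 l ≤ i ∧ i < p q.1 (l + 1) ∧
    ∃ s ⊆ Finset.range (p q.1 (l + 1)), i ∈ s ∧
      ∃ y ∈ F (e (l, s)), dist q.2 y < δ l (p q.1 (l + 1)))
  have hz : ¬ IsMeagre (range z) := by
    intro hM
    obtain ⟨r, w, hr, hw⟩ := normal_form hM
    obtain ⟨x, hx⟩ := hunb fun n => r (r n)
    have hL := hpr x r hr hx
    let s : ℕ → Finset ℕ := fun l => (Finset.range (p x (l + 1))).filter fun i => w (p x l) i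
    have hi : Function.Injective fun l => e (l, s l) := fun l l' h =>
      (Prod.ext_iff.1 (e.injective h)).1
    obtain ⟨x', hx'⟩ := bad _ (hL.image hi.injOn)
      (fun n => δ (e.symm n).1 (p x ((e.symm n).1 + 1))) fun _ => hδ _ _
    refine hw (z (x, x')) ?_ ⟨_, rfl⟩
    have hx2 : {l | r (p x l) ≤ p x (l + 1) ∧
        ∃ y ∈ F (e (l, s l)), dist x' y < δ l (p x (l + 1))}.Infinite := by
      refine Set.Infinite.of_image (fun l => e (l, s l)) (hx'.mono ?_)
      rintro _ ⟨⟨l, hl, rfl⟩, h⟩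
      exact ⟨l, ⟨hl, by simpa using h⟩, rfl⟩
    refine (hx2.image (hp x).injective.injOn).mono ?_
    rintro _ ⟨l, ⟨hl, hy⟩, rfl⟩ i hi1 hi2
    have hi3 : i < p x (l + 1) := hi2.trans_le hl
    have hs : s l ⊆ Finset.range (p x (l + 1)) := Finset.filter_subset _ _
    rw [Bool.eq_iff_iff]
    simp only [z, decide_eq_true_eq]
    constructor
    · rintro ⟨l', h1, h2, t, ht, hit, hy'⟩
      obtain rfl : l = l' := by
        have a1 := (hp x).lt_iff_lt.1 (h1.trans_lt hi3)
        have a2 := (hp x).lt_iff_lt.1 (hi1.trans_lt h2)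
        omega
      rw [hsep _ _ t ht _ hs x' hy' hy] at hit
      exact (Finset.mem_filter.1 hit).2
    · exact fun h => ⟨l, hi1, hi3, s l, hs, Finset.mem_filter.2 ⟨Finset.mem_range.2 hi3, h⟩, hy⟩
  have hT : Infinite T := by
    by_contra hT
    rw [not_infinite_iff_finite] at hT
    exact hz (fin_meagre (finite_range z))
  have h9 : nonM ≤ #(range z) := csInf_le' ⟨range z, rfl, hz⟩
  refine h9.trans (mk_range_le.trans ?_)
  simp

end Pool.Agent.H84.Kf
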