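import Mathlib

/-! `κ`-Fréchet spaces, the function space `C_p(X)` and the uniformity of the meagre ideal. -/

namespace Pool.Agent.H84.Kf

open Set Cardinal Topology

/-- `Y` is `κ`-Fréchet: if `U` is open and `x ∈ closure U \ U`, then some countably infinite
subset of `U` converges to `x`. -/
def KFrechet (Y : Type) [TopologicalSpace Y] : Prop :=
  ∀ (x : Y) (U : Set Y), IsOpen U → x ∈ closure U → x ∉ U →
    ∃ B ⊆ U, B.Countable ∧ B.Infinite ∧ x ∉ B ∧ ∀ W ∈ 𝓝 x, (B \ W).Finite

/-- Continuous real functions on `T`, as a subspace of the Tychonoff power `T → ℝ`. -/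
abbrev Cp (T : Type) [TopologicalSpace T] : Type := {f : T → ℝ // Continuous f}

/-- `non(M)`: the least size of a non-meagre subset of the Cantor space. -/
noncomputable def nonM : Cardinal.{0} :=
  sInf {c | ∃ Y : Set (ℕ → Bool), #Y = c ∧ ¬ IsMeagre Y}

end Pool.Agent.H84.Kf
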