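import Pool.Agent.H84.KuDefs

/-! Kurepa families give closed sets without `(ω + 1)`-perfect parts. -/

namespace Pool.Agent.H84.Ku

open Set Cardinal Topology Pool.Agent.H84.KuDefs

instance : NoMaxOrder W := Cardinal.noMaxOrder (aleph0_le_aleph 1)

instance : Nontrivial W := one_lt_iff_nontrivial.1 (by
  rw [mk_ord_toType]; exact one_lt_aleph0.trans_le (aleph0_le_aleph 1))

theorem bound {S : Set W} (h : S.Countable) : ∃ γ, ∀ x ∈ S, x < γ := by
  by_contra! c
  have : (univ : Set W).Countable := (h.biUnion fun x _ => (show (Iio x).Countable from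
    le_aleph0_iff_set_countable.1 (lt_aleph_one_iff.1 (mk_Iio_toType_ord_lt x))).insert x).mono
      fun γ _ => (c γ).elim fun x r => mem_biUnion r.1 (r.2.eq_or_lt.imp id id)
  exact (aleph0_lt_aleph_one.trans_eq (mk_ord_toType _).symm).not_ge
    (mk_univ ▸ le_aleph0_iff_set_countable.2 this)

theorem opn {U : Set (W → W)} (h : ∀ x ∈ U, ∃ α, ∀ y, Agree α y x → y ∈ U) : IsOpen[bdd] U := by
  let := bdd
  refine isOpen_iff_forall_mem_open.2 fun x r => (h x r).elim fun α s =>
    ⟨_, s, TopologicalSpace.isOpen_generateFrom_of_mem ⟨x, α, rfl⟩, fun _ _ => rfl⟩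

theorem cls {U : Set (W → W)} (h : ∀ x, (∀ α, ∃ y ∈ U, Agree α y x) → x ∈ U) : IsClosed[bdd] U :=
  @IsClosed.mk _ bdd _ (opn fun x r => by_contra fun c => r (h x fun α => by_contra fun d =>
    c ⟨α, fun y s t => d ⟨y, t, s⟩⟩))

theorem cont {f : (W → W) → W → W} (h : ∀ α x y, Agree α x y → Agree α (f x) (f y)) :
    Continuous[bdd, bdd] f := by
  let := bdd
  refine continuous_generateFrom_iff.2 ?_
  rintro _ ⟨x, α, rfl⟩
  exact opn fun y r => ⟨α, fun z s β t => (h α z y s β t).trans (r β t)⟩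

theorem no_win {S : Set (W → W)} {x : W → W}
    (h : ∀ γ, ((fun (x : W → W) (β : Iio γ) => x β.1) '' S).Countable) : ¬ Wins S x := fun ⟨s, _, w⟩ => by
  classical
  choose up u1 u2 using fun a b : W => (exists_gt (max a b)).imp fun _ => max_lt_iff.1
  let d : List W → W := fun p => Classical.epsilon fun δ => s p.tail δ ≠ s p δ
  let m0 : List W → W := fun p => up (p.headD (d p)) (d p)
  let mv : Bool → List W → W := fun b p => if b then up (m0 p) (d (m0 p :: p)) else m0 p
  have v1 : ∀ b p, m0 p ≤ mv b p := fun b p => by cases b; exacts [le_rfl, (u1 _ _).le]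
  let P : List Bool → List W := fun l => l.rec [] fun b _ p => mv b p :: p
  let H : (ℕ → Bool) → ℕ → List Bool := fun z n => n.rec [] fun n l => z n :: l
  let a : (ℕ → Bool) → ℕ → W := fun z n => mv (z n) (P (H z n))
  have e : ∀ z n, hist (a z) n = P (H z n) := fun z n =>
    n.rec rfl fun n r => congrArg (a z n :: ·) r
  have a1 : ∀ z, StrictMono (a z) := fun z => strictMono_nat_of_lt_succ fun n =>
    (u1 _ _).trans_le (v1 (z (n + 1)) (P (H z (n + 1))))
  choose y y1 y2 using fun z => (w _ (a1 z)).2.2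
  obtain ⟨γ, hγ⟩ := bound (countable_range fun l : List Bool => d (m0 (P l) :: P l))
  have key : ∀ z z' n, H z n = H z' n → z n = false → z' n = true →
      (fun β : Iio γ => y z β) ≠ fun β : Iio γ => y z' β := fun z z' n r r0 r1 q => by
    have e0 : hist (a z) (n + 1) = m0 (P (H z n)) :: P (H z n) := by
      simp only [hist, e, a, mv, r0]; rfl
    have n0 : s (P (H z n)) _ ≠ s (m0 (P (H z n)) :: P (H z n)) _ :=
      Classical.epsilon_spec (p := fun δ => s (m0 (P (H z n)) :: P (H z n)).tail δ ≠ s _ δ)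
        (Function.ne_iff.1 (by
          have := ((w _ (a1 z)).2.1 n (n + 1) n.lt_succ_self).1
          rwa [e0, e] at this))
    have q0 := (y2 z (n + 1)).2 (d (m0 (P (H z n)) :: P (H z n))) (by
      rw [← e0, e]; exact (u2 _ _).trans_le (v1 _ _))
    have q1 := (y2 z' n).2 (d (m0 (P (H z n)) :: P (H z n))) (by
      simp only [a, mv, r1, ← r]; exact u2 _ _)
    rw [e0] at q0
    rw [e, ← r] at q1
    exact n0 (q1.symm.trans ((congrFun q ⟨_, hγ _ ⟨_, rfl⟩⟩).symm.trans q0))
  have inj : Function.Injective fun z => (⟨fun β : Iio γ => y z β, y z, y1 z, rfl⟩ :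
      (fun (x : W → W) (β : Iio γ) => x β.1) '' S) := fun z z' q => by_contra fun c => by
    have c := Function.ne_iff.1 c
    have r : ∀ n ≤ Nat.find c, H z n = H z' n := fun n => n.rec (fun _ => rfl) fun n ih t =>
      congrArg₂ List.cons (not_not.1 (Nat.find_min c t)) (ih (Nat.le_of_succ_le t))
    have t := Nat.find_spec c
    have q := congrArg Subtype.val q
    cases h0 : z (Nat.find c) <;> cases h1 : z' (Nat.find c)
    exacts [t (h0.trans h1.symm), key _ _ _ (r _ le_rfl) h0 h1 q,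
      key _ _ _ (r _ le_rfl).symm h1 h0 q.symm, t (h0.trans h1.symm)]
  have := (h γ).to_subtype
  have := mk_le_aleph0_iff.2 (inj.countable : Countable (ℕ → Bool))
  simp [aleph0_lt_continuum.not_ge] at this

/-- The closure of a family. -/
def Body (F : Set (W → W)) : Set (W → W) := {x | ∀ α, ∃ f ∈ F, Agree α f x}

theorem family (ch : continuum.{0} = aleph 1) (kh : KH) : ∃ F : Set (W → W),
    (∀ X, Few X → ∃ x ∈ F, x ∉ X) ∧ ∀ S ⊆ Body F, ∀ x, ¬ Wins S x := by
  classical
  obtain ⟨F, f1, f2⟩ := kh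
  obtain ⟨k, k', hk⟩ := exists_pair_ne W
  let χ : Set W → W → W := fun A β => if β ∈ A then k else k'
  have inj : χ.Injective := fun A B e => Set.ext fun β => by
    have := congrFun e β
    simp only [χ] at this
    split_ifs at this <;> simp_all
  refine ⟨χ '' F, fun X hX => not_subset.1 fun c => f1.not_ge ((mk_image_eq inj).ge.trans
    ((mk_le_mk_of_subset c).trans (hX.trans (powerlt_le.2 fun x r => ?_)))), fun S hS x =>
    no_win fun γ => ((f2 γ).image fun A (β : Iio γ) => χ A β).mono ?_⟩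
  · rw [← ch]
    exact (power_le_power_left continuum_ne_zero (lt_aleph_one_iff.1 r)).trans
      continuum_power_aleph0.le
  · rintro _ ⟨x, r, rfl⟩
    obtain ⟨_, ⟨A, a, rfl⟩, b⟩ := hS r γ
    exact ⟨_, ⟨A, a, rfl⟩, funext fun β => Eq.trans (by simp [χ]) (b β β.2)⟩

theorem retract (F : Set (W → W)) : ∃ r : (W → W) → W → W, Continuous[bdd, bdd] r ∧
    IsClosed[bdd] (range r) ∧ F ⊆ range r ∧ ∀ S ⊆ range r, ∀ x ∈ S, Wins S x → x ∈ Body F := by
  classical
  obtain ⟨k⟩ : Nonempty W := inferInstance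
  let L : (W → W) → W → Prop := fun y β => ∃ f ∈ F, Agree β f y
  let r : (W → W) → W → W := fun y β => if L y β then y β else k
  have l1 : ∀ y β γ, γ ≤ β → L y β → L y γ := fun y β γ h ⟨f, a, b⟩ =>
    ⟨f, a, fun δ c => b δ (c.trans_le h)⟩
  have l2 : ∀ x y β, Agree β x y → L x β → L y β := fun x y β h ⟨f, a, b⟩ =>
    ⟨f, a, fun δ c => (b δ c).trans (h δ c)⟩
  have l3 : ∀ α x y, Agree α x y → Agree α (r x) (r y) := fun α x y h β c =>
    if_congr ⟨l2 _ _ _ fun δ e => h δ (e.trans c), l2 _ _ _ fun δ e => (h δ (e.trans c)).symm⟩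
      (h β c) rfl
  have l4 : ∀ y β, L (r y) β → L y β := fun y β => wellFounded_lt.induction
    (C := fun β => L (r y) β → L y β) β fun β ih h =>
    l2 _ _ _ (fun δ c => if_pos (ih δ c (l1 _ _ _ c.le h))) h
  have l5 : ∀ x ∈ range r, r x = x := by
    rintro _ ⟨y, rfl⟩
    exact funext fun β => ite_eq_left_iff.2 fun c => (if_neg fun e => c
      (l2 _ _ _ (fun δ d => (if_pos (l1 _ _ _ d.le e)).symm) e)).symm
  refine ⟨r, cont l3, cls fun x h => ⟨x, funext fun β => ?_⟩,
    fun f h => ⟨f, funext fun β => if_pos ⟨f, h, fun _ _ => rfl⟩⟩, fun S hS x hx ⟨s, s0, w⟩ α => ?_⟩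
  · obtain ⟨α, c⟩ := exists_gt β
    obtain ⟨y, a, b⟩ := h α
    exact (l3 α y x b β c).symm.trans ((congrFun (l5 y a) β).trans (b β c))
  · obtain ⟨a, a1, a2⟩ := Nat.exists_strictMono' α
    obtain ⟨b1, b2, -⟩ := w a a1
    obtain ⟨c1, c2⟩ := b2 0 1 one_pos
    rw [a2, show s (hist a 0) = x from s0] at *
    refine by_contra fun e => c1 (funext fun β => (lt_or_ge β α).elim (fun t => (c2 β t).symm) fun t => ?_)
    rw [← l5 x (hS hx), ← l5 _ (hS (b1 0))]
    exact (if_neg fun q => e (l1 _ _ _ t q)).trans (if_neg fun q => e (l2 _ _ _ c2 (l1 _ _ _ t q))).symm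

theorem body_closed (F : Set (W → W)) : IsClosed[bdd] (Body F) :=
  cls fun _ h α => (h α).elim fun _ r => (r.1 α).imp fun _ s =>
    ⟨s.1, fun β t => (s.2 β t).trans (r.2 β t)⟩

theorem cover (F : Set (W → W)) : ∃ (D : Set (W → W)) (f : (W → W) → W → W), Perfect1 D ∧
    Continuous[bdd, bdd] f ∧ f '' D = Body F := by
  classical
  obtain ⟨e⟩ : Nonempty (W ≃ W × Bool) := Cardinal.eq.1 (by
    simpa using (mul_eq_left (aleph0_le_aleph 1) ((natCast_lt_aleph0 (n := 2)).le.trans
      (aleph0_le_aleph 1)) two_ne_zero).symm)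
  let f : (W → W) → W → W := fun y β => (e (y β)).1
  have c : Continuous[bdd, bdd] f := cont fun α x y h β t => congrArg (fun k => (e k).1) (h β t)
  let g : (W → W) → Set W → W → W := fun y A β =>
    if β ∈ A then e.symm ((e (y β)).1, !(e (y β)).2) else y β
  have g1 : ∀ y A, f (g y A) = f y := fun y A => funext fun β => by
    simp only [f, g]; split_ifs <;> simp
  have g2 : ∀ y (a : ℕ → W) (A : Set W) m, StrictMono a → a '' Iic m ⊆ A → A ⊆ range a →
      g y (a '' Iio m) ≠ g y A ∧ Agree (a m) (g y A) (g y (a '' Iio m)) := fun y a A m h p q =>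
    ⟨fun r => by
      have := congrArg (fun k => (e (k (a m))).2) r
      simp [g, p ⟨m, self_mem_Iic, rfl⟩, h.injective.eq_iff] at this, fun β t => if_congr
      ⟨fun r => (q r).elim fun i s => ⟨i, h.lt_iff_lt.1 (s ▸ t), s⟩,
        fun r => p (image_mono Iio_subset_Iic_self r)⟩ rfl rfl⟩
  have g3 : ∀ (a : ℕ → W) n, {β | β ∈ hist a n} = a '' Iio n := fun a n => by
    induction n with
    | zero => simp [hist]
    | succ n ih =>
      rw [show Iio (n + 1) = insert n (Iio n) from Set.ext fun _ => Nat.lt_succ_iff_lt_or_eq.trans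
        or_comm, image_insert_eq, ← ih]
      exact Set.ext fun _ => List.mem_cons
  refine ⟨f ⁻¹' Body F, f, ⟨@IsClosed.preimage _ _ bdd bdd _ c _ (body_closed F), fun y hy =>
    ⟨fun p => g y {β | β ∈ p}, funext fun β => if_neg (by simp), fun a h => ⟨fun n => ?_,
      fun m n r => ?_, g y (range a), ?_, fun m => ?_⟩⟩⟩, c, image_preimage_eq _ fun x =>
        ⟨fun β => e.symm (x β, true), funext fun β => by simp [f]⟩⟩
  · exact mem_preimage.2 ((g1 y _).symm ▸ hy)
  · simp only [g3]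
    exact g2 y a _ m h (image_mono fun i t => lt_of_le_of_lt t r) (image_subset_range _ _)
  · exact mem_preimage.2 ((g1 y _).symm ▸ hy)
  · simp only [g3]
    exact g2 y a _ m h (image_subset_range _ _) subset_rfl

theorem image_univ (ch : continuum.{0} = aleph 1) (kh : KH) : ∃ E : Set (W → W),
    IsClosed[bdd] E ∧ (∃ f : (W → W) → W → W, Continuous[bdd, bdd] f ∧ range f = E) ∧
      ∀ X ⊆ E, Few X → ¬ Perfect1 (E \ X) := by
  obtain ⟨F, a, b⟩ := family ch kh
  obtain ⟨r, c, d, e, g⟩ := retract F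
  exact ⟨_, d, ⟨r, c, rfl⟩, fun X _ h p => (a X h).elim fun x q => b _
    (fun y t => g _ sdiff_subset y t (p.2 y t)) x (p.2 x ⟨e q.1, q.2⟩)⟩

theorem image_perfect (ch : continuum.{0} = aleph 1) (kh : KH) : ∃ D E : Set (W → W),
    Perfect1 D ∧ IsClosed[bdd] E ∧
      (∃ f : (W → W) → W → W, Continuous[bdd, bdd] f ∧ f '' D = E) ∧
      ∀ X ⊆ E, Few X → (∃ x ∈ E \ X, ¬ Wins E x) ∧ ¬ Perfect1 (E \ X) := by
  obtain ⟨F, a, b⟩ := family ch kh
  obtain ⟨D, f, c, d, e⟩ := cover F
  exact ⟨D, _, c, body_closed F, ⟨f, d, e⟩, fun X _ h => (a X h).elim fun x q =>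
    have m : x ∈ Body F \ X := ⟨fun _ => ⟨x, q.1, fun _ _ => rfl⟩, q.2⟩
    ⟨⟨x, m, b _ subset_rfl x⟩, fun p => b _ sdiff_subset x (p.2 x m)⟩⟩

end Pool.Agent.H84.Ku
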