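import Mathlib

/-! The generalized Baire space of `ω₁`, Väänänen's game of length `ω + 1`, Kurepa families. -/

namespace Pool.Agent.H84.KuDefs

/-- The set of countable ordinals. -/
abbrev W : Type := (Cardinal.aleph 1).ord.ToType

/-- `x` and `y` have the same restriction to `α`. -/
def Agree (α : W) (x y : W → W) : Prop := ∀ β < α, x β = y β

/-- The bounded topology on the functions from `ω₁` to `ω₁`. -/
@[reducible] def bdd : TopologicalSpace (W → W) := .generateFrom {N | ∃ x α, N = {y | Agree α y x}}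

/-- The first `n` moves of Player I, the last one first. -/
def hist (a : ℕ → W) : ℕ → List W
  | 0 => []
  | n + 1 => a n :: hist a n

/-- Player II has a winning strategy in `G(E, x₀, ω + 1)`. Here `a n` is the move `α_{n+1}`,
`s (hist a n)` is `x_n` and `y` is `x_ω`. -/
def Wins (E : Set (W → W)) (x₀ : W → W) : Prop :=
  ∃ s : List W → W → W, s [] = x₀ ∧ ∀ a : ℕ → W, StrictMono a →
    (∀ n, s (hist a (n + 1)) ∈ E) ∧
    (∀ m n, m < n → s (hist a m) ≠ s (hist a n) ∧ Agree (a m) (s (hist a n)) (s (hist a m))) ∧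
    ∃ y ∈ E, ∀ m, s (hist a m) ≠ y ∧ Agree (a m) y (s (hist a m))

/-- `(ω + 1)`-perfect sets. -/
def Perfect1 (E : Set (W → W)) : Prop := @IsClosed _ bdd E ∧ ∀ x ∈ E, Wins E x

/-- The set has at most `ℵ₁ ^ {<ℵ₁}` elements. -/
def Few (X : Set (W → W)) : Prop :=
  Cardinal.mk X ≤ Cardinal.powerlt (Cardinal.aleph 1) (Cardinal.aleph 1)

/-- Kurepa's hypothesis: more than `ℵ₁` subsets of `ω₁` with countably many traces on each
countable ordinal. -/
def KH : Prop := ∃ F : Set (Set W), Cardinal.aleph 1 < Cardinal.mk F ∧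
  ∀ α : W, ((· ∩ Set.Iio α) '' F).Countable

end Pool.Agent.H84.KuDefs
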