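import Mathlib

set_option autoImplicit false

namespace Pool.Agent.H84.Lac

open Set Filter Topology

noncomputable def r (k : ℕ) : ℝ := (k + 1) / (k + 2)

theorem r_pos (k : ℕ) : 0 < r k := by unfold r; positivity

theorem r_lt_one (k : ℕ) : r k < 1 := by
  unfold r; rw [div_lt_one (by positivity)]; linarith

theorem r_lt (k : ℕ) : r k < r (k + 1) := by
  unfold r; rw [div_lt_div_iff₀ (by positivity) (by positivity)]; push_cast; nlinarith

theorem r_mono : Monotone r := (strictMono_nat_of_lt_succ r_lt).monotone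

theorem r_big {t : ℝ} (ht : t < 1) : ∃ k, t < r k := by
  obtain ⟨k, hk⟩ := exists_nat_one_div_lt (sub_pos.2 ht)
  refine ⟨k, ?_⟩
  have h1 : r k = 1 - 1 / ((k : ℝ) + 2) := by unfold r; field_simp; ring
  have h2 : 1 / ((k : ℝ) + 2) ≤ 1 / ((k : ℝ) + 1) :=
    one_div_le_one_div_of_le (by positivity) (by linarith)
  linarith

theorem exN (k : ℕ) (s : ℝ) : ∃ N : ℕ, (k + 2 + s) / (1 / 2) ^ k < (r (k + 1) / r k) ^ N :=
  pow_unbounded_of_one_lt _ ((one_lt_div (r_pos k)).2 (r_lt k))

noncomputable def S : ℕ → ℝ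
  | 0 => 0
  | k + 1 => S k + (1 / 2) ^ k / r k ^ (exN k (S k)).choose

noncomputable def n (k : ℕ) : ℕ := (exN k (S k)).choose

noncomputable def a (k : ℕ) : ℝ := (1 / 2) ^ k / r k ^ n k

theorem a_pos (k : ℕ) : 0 < a k := by unfold a; have := r_pos k; positivity

theorem S_eq (k : ℕ) : S k = ∑ j ∈ Finset.range k, a j := by
  induction k with
  | zero => simp [S]
  | succ k ih => rw [Finset.sum_range_succ, ← ih]; rfl

theorem big (k : ℕ) : k + 2 + S k ≤ a k * r (k + 1) ^ n k := by
  have h : (k + 2 + S k) / (1 / 2) ^ k < (r (k + 1) / r k) ^ n k := (exN k (S k)).choose_spec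
  rw [div_lt_iff₀ (by positivity), div_pow] at h
  refine h.le.trans (le_of_eq ?_)
  unfold a; ring

theorem small {k : ℕ} {t : ℝ} (h0 : 0 ≤ t) (ht : t ≤ r k) : a k * t ^ n k ≤ (1 / 2) ^ k := by
  have := r_pos k
  calc a k * t ^ n k ≤ a k * r k ^ n k := by have := a_pos k; gcongr
    _ = (1 / 2) ^ k := by unfold a; field_simp

noncomputable def term (i k : ℕ) (z : ℂ) : ℂ := if k % 2 = i then a k * z ^ n k else 0

noncomputable def h (i : ℕ) (z : ℂ) : ℂ := ∑' k, term i k z

theorem term_le (i k : ℕ) (z : ℂ) : ‖term i k z‖ ≤ a k * ‖z‖ ^ n k := by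
  unfold term; split_ifs
  · rw [norm_mul, norm_pow, Complex.norm_real, Real.norm_of_nonneg (a_pos k).le]
  · have := a_pos k; rw [norm_zero]; positivity

noncomputable def u (m k : ℕ) : ℝ := (if k < m then a k else 0) + (1 / 2) ^ k

theorem hasSum_u (m : ℕ) : HasSum (u m) (S m + 2) := by
  refine HasSum.add ?_ hasSum_geometric_two
  have : S m = ∑ j ∈ Finset.range m, if j < m then a j else 0 := by
    rw [S_eq]; exact Finset.sum_congr rfl fun j hj => (if_pos (Finset.mem_range.1 hj)).symm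
  rw [this]
  exact hasSum_sum_of_ne_finset_zero fun j hj => if_neg (by simpa using hj)

theorem term_le_a (i k : ℕ) {z : ℂ} (hz : ‖z‖ ≤ 1) : ‖term i k z‖ ≤ a k :=
  (term_le i k z).trans (mul_le_of_le_one_right (a_pos k).le (pow_le_one₀ (norm_nonneg _) hz))

theorem term_le_u (i m k : ℕ) {z : ℂ} (hz : ‖z‖ ≤ r m) : ‖term i k z‖ ≤ u m k := by
  unfold u; split_ifs with hk
  · exact (term_le_a i k (hz.trans (r_lt_one m).le)).trans (le_add_of_nonneg_right (by positivity))
  · rw [zero_add]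
    exact (term_le i k z).trans (small (norm_nonneg _) (hz.trans (r_mono (not_lt.1 hk))))

theorem h_an (i : ℕ) : AnalyticOnNhd ℂ (h i) (Metric.ball 0 1) := by
  intro z hz
  obtain ⟨m, hm⟩ := r_big (mem_ball_zero_iff.1 hz)
  have : DifferentiableOn ℂ (h i) (Metric.ball 0 (r m)) :=
    Complex.differentiableOn_tsum_of_summable_norm (hasSum_u m).summable (fun k => by
      unfold term; split_ifs <;> fun_prop) Metric.isOpen_ball
      fun k w hw => term_le_u i m k (mem_ball_zero_iff.1 hw).le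
  exact this.analyticOnNhd Metric.isOpen_ball z (mem_ball_zero_iff.2 hm)

theorem h_low {k : ℕ} {z : ℂ} (h1 : r (k + 1) ≤ ‖z‖) (h2 : ‖z‖ ≤ r (k + 2)) :
    (k : ℝ) ≤ ‖h (k % 2) z‖ := by
  have hs : Summable fun j => term (k % 2) j z :=
    .of_norm_bounded (hasSum_u (k + 2)).summable fun j => term_le_u _ _ j h2
  have e := hs.tsum_eq_add_tsum_ite k
  have b1 : ‖∑' j, if j = k then 0 else term (k % 2) j z‖ ≤ S k + 2 := by
    refine tsum_of_norm_bounded (hasSum_u k) fun j => ?_
    have h0 : 0 ≤ u k j := (norm_nonneg _).trans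
      (term_le_u 0 k j (z := 0) (by simpa using (r_pos k).le))
    split_ifs with hj
    · simpa using h0
    by_cases hjk : j < k
    · refine (term_le_a _ j (h2.trans (r_lt_one _).le)).trans ?_
      rw [u, if_pos hjk]; exact le_add_of_nonneg_right (by positivity)
    by_cases hj1 : j = k + 1
    · rw [term, if_neg (by omega)]; simpa using h0
    · rw [u, if_neg hjk, zero_add]
      exact (term_le _ j z).trans (small (norm_nonneg _) (h2.trans (r_mono (by omega))))
  have b2 : k + 2 + S k ≤ ‖term (k % 2) k z‖ := by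
    rw [term, if_pos rfl, norm_mul, norm_pow, Complex.norm_real, Real.norm_of_nonneg (a_pos k).le]
    refine (big k).trans ?_
    have := a_pos k
    have := r_pos (k + 1)
    gcongr
  have b3 : ‖term (k % 2) k z‖ ≤ ‖h (k % 2) z‖ + ‖∑' j, if j = k then 0 else term (k % 2) j z‖ := by
    have : term (k % 2) k z = h (k % 2) z - ∑' j, if j = k then 0 else term (k % 2) j z := by
      rw [h, e]; ring
    rw [this]; exact norm_sub_le _ _
  linarith

theorem grow (R : ℝ) : ∃ ρ < 1, ∀ z : ℂ, ρ < ‖z‖ → ‖z‖ < 1 → R < ‖h 0 z‖ ∨ R < ‖h 1 z‖ := by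
  obtain ⟨m, hm⟩ := exists_nat_gt R
  refine ⟨r (m + 1), r_lt_one _, fun z h1 h2 => ?_⟩
  have hex := r_big h2
  classical
  have h3 : m + 1 < Nat.find hex := by
    by_contra hc
    linarith [Nat.find_spec hex, r_mono (not_lt.1 hc)]
  obtain ⟨k, hk⟩ : ∃ k, Nat.find hex = k + 2 := ⟨Nat.find hex - 2, by omega⟩
  have h4 := Nat.find_spec hex
  have h5 := Nat.find_min hex (m := k + 1) (by omega)
  rw [hk] at h4
  have h6 := h_low (not_lt.1 h5) h4.le
  have h7 : (m : ℝ) ≤ k := by exact_mod_cast (by omega : m ≤ k)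
  rcases Nat.mod_two_eq_zero_or_one k with e | e <;> rw [e] at h6
  · left; linarith
  · right; linarith

end Pool.Agent.H84.Lac
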