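import Mathlib

namespace Pool.Agent.H84.LcpDefs

open Set Filter Topology

variable {X : Type} [MetricSpace X]

/-- piecewise continuity on `[0, τ]` -/
def PW (z : ℝ → X) (τ : ℝ) : Prop :=
  ∃ D : Finset ℝ, ∀ a b, 0 ≤ a → a < b → b ≤ τ → (∀ d ∈ D, d ∉ Ioo a b) →
    ∃ g : ℝ → X, ContinuousOn g (Icc a b) ∧ EqOn z g (Ioo a b)

/-- an `ε`-chain of the semi-flow `F` from `x` to `y` inside `K` of duration `τ` exists -/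
def FlowChain (F : ℝ → X → X) (K : Set X) (ε : ℝ) (x y : X) (τ : ℝ) : Prop :=
  1 ≤ τ ∧ ∃ z : ℝ → X, PW z τ ∧ z 0 = x ∧ z τ = y ∧ (∀ t ∈ Icc 0 τ, z t ∈ K) ∧
    ∀ t₀ t₁, 0 ≤ t₀ → t₀ < t₁ → t₁ ≤ τ → t₁ - t₀ ≤ 1 → dist (F (t₁ - t₀) (z t₀)) (z t₁) < ε

/-- an `ε`-chain of the map `g` from `x` to `y` inside `K` of duration `n` exists -/
def MapChain (g : X → X) (K : Set X) (ε : ℝ) (x y : X) (n : ℕ) : Prop :=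
  1 ≤ n ∧ ∃ z : ℕ → X, z 0 = x ∧ z n = y ∧ (∀ i ≤ n, z i ∈ K) ∧
    ∀ i < n, dist (g (z i)) (z (i + 1)) < ε

def FlowLimit (F : ℝ → X → X) (x y : X) : Prop :=
  ∃ K : Set X, IsCompact K ∧ ∃ T : ℝ → ℝ, Tendsto T (𝓝[>] 0) atTop ∧
    ∀ ε > 0, FlowChain F K ε x y (T ε)

def MapLimit (g : X → X) (x y : X) : Prop :=
  ∃ K : Set X, IsCompact K ∧ ∃ T : ℝ → ℕ, Tendsto T (𝓝[>] 0) atTop ∧
    ∀ ε > 0, MapChain g K ε x y (T ε)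

end Pool.Agent.H84.LcpDefs
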