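import Pool.Agent.H84.LcpDefs

namespace Pool.Agent.H84.LcpPf

open Set Filter Topology Pool.Agent.H84.LcpDefs

variable {X : Type} [MetricSpace X]

theorem lim_iff {α : Type} [Preorder α] (c : α → ℝ) (hc : ∀ M : α, ∃ r : ℝ, ∀ a, r ≤ c a → M ≤ a)
    (hc' : ∀ r : ℝ, ∃ M, ∀ a, M ≤ a → r ≤ c a)
    (P : ℝ → α → Prop) (hP : ∀ ε ε' a, ε ≤ ε' → P ε a → P ε' a) :
    (∃ T : ℝ → α, Tendsto T (𝓝[>] 0) atTop ∧ ∀ ε > 0, P ε (T ε)) ↔
      ∀ ε > 0, ∀ r : ℝ, ∃ a, r ≤ c a ∧ P ε a := by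
  constructor
  · rintro ⟨T, hT, h⟩ ε hε r
    obtain ⟨M, hM⟩ := hc' r
    obtain ⟨δ, h1, h2⟩ := ((tendsto_atTop.1 hT M).and (Ioc_mem_nhdsGT hε)).exists
    exact ⟨T δ, hM _ h1, hP _ _ _ h2.2 (h δ h2.1)⟩
  · intro h
    obtain ⟨a₀, -⟩ := h 1 one_pos 0
    have : ∀ ε : ℝ, ∃ a, 0 < ε → ε⁻¹ ≤ c a ∧ P ε a := fun ε => by
      by_cases hε : 0 < ε
      · obtain ⟨a, ha⟩ := h ε hε ε⁻¹
        exact ⟨a, fun _ => ha⟩
      · exact ⟨a₀, fun h => absurd h hε⟩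
    choose T hT using this
    refine ⟨T, tendsto_atTop.2 fun M => ?_, fun ε hε => (hT ε hε).2⟩
    obtain ⟨r, hr⟩ := hc M
    filter_upwards [tendsto_atTop.1 tendsto_inv_nhdsGT_zero r, self_mem_nhdsWithin] with ε h1 h2
    exact hr _ (h1.trans (hT ε h2).1)

theorem flow_iff (F : ℝ → X → X) (x y : X) : FlowLimit F x y ↔
    ∃ K, IsCompact K ∧ ∀ ε > 0, ∀ r : ℝ, ∃ τ, r ≤ τ ∧ FlowChain F K ε x y τ :=
  exists_congr fun K => and_congr_right fun _ => lim_iff id (fun M => ⟨M, fun _ h => h⟩)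
    (fun M => ⟨M, fun _ h => h⟩) (fun ε τ => FlowChain F K ε x y τ) (by
      rintro ε ε' τ h ⟨h1, z, h2, h3, h4, h5, h6⟩
      exact ⟨h1, z, h2, h3, h4, h5, fun a b c d e f => (h6 a b c d e f).trans_le h⟩)

theorem map_iff (g : X → X) (x y : X) : MapLimit g x y ↔
    ∃ K, IsCompact K ∧ ∀ ε > 0, ∀ r : ℝ, ∃ n : ℕ, r ≤ n ∧ MapChain g K ε x y n :=
  exists_congr fun K => and_congr_right fun _ => lim_iff (fun n : ℕ => (n : ℝ))
    (fun M => ⟨M, fun _ h => by exact_mod_cast h⟩)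
    (fun r => ⟨⌈r⌉₊, fun _ h => Nat.ceil_le.1 h⟩) (fun ε τ => MapChain g K ε x y τ) (by
      rintro ε ε' τ h ⟨h1, z, h3, h4, h5, h6⟩
      exact ⟨h1, z, h3, h4, h5, fun a b => (h6 a b).trans_le h⟩)

theorem uc {F : ℝ → X → X} (hF : ContinuousOn (Function.uncurry F) (Ici 0 ×ˢ univ)) {K : Set X}
    (hK : IsCompact K) (b : ℝ) {ε : ℝ} (hε : 0 < ε) : ∃ η > 0, ∀ s ∈ Icc 0 b, ∀ t, 0 ≤ t →
      ∀ u ∈ K, ∀ v, |s - t| < η → dist u v < η → dist (F s u) (F t v) < ε := by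
  have hG : Continuous fun p : ℝ × X => F (max p.1 0) p.2 :=
    hF.comp_continuous (f := fun p : ℝ × X => (max p.1 0, p.2)) (by fun_prop)
      fun p => ⟨le_max_right p.1 0, trivial⟩
  obtain ⟨η, hη, h⟩ := Metric.mem_uniformity_dist.1
    (((isCompact_Icc (a := 0) (b := b)).prod hK).uniformContinuousAt_of_continuousAt _
      (fun _ _ => hG.continuousAt) (Metric.dist_mem_uniformity hε))
  refine ⟨η, hη, fun s hs t ht u hu v h1 h2 => ?_⟩
  have := @h (s, u) (t, v) (by rw [Prod.dist_eq]; exact max_lt h1 h2) ⟨hs, hu⟩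
  simpa [max_eq_left hs.1, max_eq_left ht] using this

variable {F : ℝ → X → X} (hF : ContinuousOn (Function.uncurry F) (Ici 0 ×ˢ univ))
  (h0 : ∀ x, F 0 x = x) (ha : ∀ s t x, 0 ≤ s → 0 ≤ t → F (t + s) x = F t (F s x))
include hF h0 ha

theorem lemA {K : Set X} (hK : IsCompact K) (m : ℕ) : ∀ ε > 0, ∃ δ > 0, ∀ (z : ℝ → X) (τ : ℝ),
    (∀ t ∈ Icc 0 τ, z t ∈ K) →
    (∀ t₀ t₁, 0 ≤ t₀ → t₀ < t₁ → t₁ ≤ τ → t₁ - t₀ ≤ 1 → dist (F (t₁ - t₀) (z t₀)) (z t₁) < δ) →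
    ∀ t₀ t₁, 0 ≤ t₀ → t₀ ≤ t₁ → t₁ ≤ τ → t₁ - t₀ ≤ m → dist (F (t₁ - t₀) (z t₀)) (z t₁) < ε := by
  induction m with
  | zero =>
    intro ε hε
    refine ⟨1, one_pos, fun z τ _ _ a b _ h2 _ h4 => ?_⟩
    obtain rfl : a = b := by simp at h4; linarith
    simpa [h0] using hε
  | succ m ih =>
    intro ε hε
    obtain ⟨η, hη, h1⟩ := uc hF hK 1 (half_pos hε)
    obtain ⟨δ, hδ, h2⟩ := ih η hη
    refine ⟨min δ (ε / 2), lt_min hδ (half_pos hε), fun z τ hz h a b e1 e2 e3 e4 => ?_⟩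
    rcases e2.eq_or_lt with rfl | e2'
    · simpa [h0] using hε
    by_cases hab : b - a ≤ 1
    · exact (h a b e1 e2' e3 hab).trans_le ((min_le_right _ _).trans (by linarith))
    have e5 := h2 z τ hz (fun a b c d e f => (h a b c d e f).trans_le (min_le_left _ _)) a (b - 1)
      e1 (by linarith) (by linarith) (by push_cast at e4; linarith)
    have e6 := h1 1 ⟨zero_le_one, le_rfl⟩ 1 zero_le_one (z (b - 1))
      (hz _ ⟨by linarith, by linarith⟩) _ (by simpa using hη) (by rw [dist_comm]; exact e5)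
    have e7 := (h (b - 1) b (by linarith) (by linarith) e3 (by linarith)).trans_le
      (min_le_right _ _)
    rw [show b - (b - 1) = 1 by ring] at e7
    rw [show b - a = 1 + (b - 1 - a) by ring, ha _ _ _ (by linarith) zero_le_one]
    linarith [dist_triangle_left (F 1 (F (b - 1 - a) (z a))) (z b) (F 1 (z (b - 1)))]

theorem lemB {T : ℝ} (hT : 0 < T) {K : Set X} (hK : IsCompact K) (m : ℕ) : ∀ ε > 0, ∃ δ > 0,
    ∀ (z : ℕ → X) (n : ℕ), (∀ i ≤ n, z i ∈ K) → (∀ i < n, dist (F T (z i)) (z (i + 1)) < δ) →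
    ∀ i k, k ≤ m → i + k ≤ n → dist (F (k * T) (z i)) (z (i + k)) < ε := by
  induction m with
  | zero =>
    intro ε hε
    refine ⟨1, one_pos, fun z τ _ _ i k h _ => ?_⟩
    obtain rfl : k = 0 := by omega
    simpa [h0] using hε
  | succ m ih =>
    intro ε hε
    obtain ⟨η, hη, h1⟩ := uc hF hK T (half_pos hε)
    obtain ⟨δ, hδ, h2⟩ := ih η hη
    refine ⟨min δ (ε / 2), lt_min hδ (half_pos hε), fun z n hz h i k e1 e2 => ?_⟩
    rcases k with _ | k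
    · simpa [h0] using hε
    have e5 := h2 z n hz (fun a b => (h a b).trans_le (min_le_left _ _)) i k (by omega) (by omega)
    have e6 := h1 T ⟨hT.le, le_rfl⟩ T hT.le (z (i + k)) (hz _ (by omega)) _ (by simpa using hη)
      (by rw [dist_comm]; exact e5)
    have e7 := (h (i + k) (by omega)).trans_le (min_le_right _ _)
    rw [show ((k + 1 : ℕ) : ℝ) * T = T + k * T by push_cast; ring,
      ha _ _ _ (by positivity) hT.le, ← add_assoc]
    linarith [dist_triangle_left (F T (F (k * T) (z i))) (z (i + k + 1)) (F T (z (i + k)))]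

theorem fwd {T : ℝ} (hT : 0 < T) {x y : X} (h : FlowLimit F x y) : MapLimit (F T) x y := by
  obtain ⟨K, hK, h⟩ := (flow_iff F x y).1 h
  refine (map_iff _ x y).2 ⟨K, hK, fun ε hε r => ?_⟩
  obtain ⟨η, hη, h1⟩ := uc hF hK T (half_pos hε)
  obtain ⟨δ, hδ, h2⟩ := lemA hF h0 ha hK ⌈2 * T⌉₊ _ (half_pos hε)
  obtain ⟨N, hN⟩ := exists_nat_gt (max (max r 1) (T / η))
  obtain ⟨τ, hτ, -, z, -, z0, z1, hz, hc⟩ := h δ hδ (N * T)
  set n := ⌊τ / T⌋₊ with hn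
  have hNn : N ≤ n := Nat.le_floor ((le_div_iff₀ hT).2 hτ)
  have hN' : (N : ℝ) ≤ n := by exact_mod_cast hNn
  have hn1 : (1 : ℝ) < n := (((le_max_right _ _).trans (le_max_left _ _)).trans_lt hN).trans_le hN'
  have hn0 : (0 : ℝ) < n := by linarith
  have hτ0 : 0 ≤ τ := le_trans (by positivity) hτ
  have f1 : n * T ≤ τ := (le_div_iff₀ hT).1 (Nat.floor_le (by positivity))
  have f2 : τ < (n + 1) * T := (div_lt_iff₀ hT).1 (Nat.lt_floor_add_one _)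
  set s := τ / n with hs
  have hsn : n * s = τ := by rw [hs]; field_simp
  have s1 : T ≤ s := by rw [hs, le_div_iff₀ hn0]; linarith
  have s2 : s - T < η := by
    have : T < n * η := by
      have := (div_lt_iff₀ hη).1 (((le_max_right _ _).trans_lt hN).trans_le hN')
      linarith
    nlinarith
  have s3 : s ≤ 2 * T := by nlinarith
  have hle : ∀ i ≤ n, (i : ℝ) * s ≤ τ := fun i hi => by
    have : (i : ℝ) ≤ n := by exact_mod_cast hi
    nlinarith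
  have s0 : 0 ≤ s := by linarith
  refine ⟨n, ((le_max_left _ _).trans (le_max_left _ _)).trans (hN.le.trans hN'),
    by exact_mod_cast hn1.le, fun i => z (i * s), by simpa using z0, by simpa [hsn] using z1,
    fun i hi => hz _ ⟨by positivity, hle i hi⟩, fun i hi => ?_⟩
  have e1 := h2 z τ hz hc (i * s) ((i + 1 : ℕ) * s) (by positivity) (by push_cast; linarith)
    (hle _ hi) (by push_cast; linarith [Nat.le_ceil (2 * T)])
  rw [show ((i + 1 : ℕ) : ℝ) * s - i * s = s by push_cast; ring] at e1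
  have e2 := h1 T ⟨hT.le, le_rfl⟩ s s0 (z (i * s)) (hz _ ⟨by positivity, hle i hi.le⟩) (z (i * s))
    (by rw [abs_lt]; constructor <;> linarith) (by simpa using hη)
  linarith [dist_triangle (F T (z (i * s))) (F s (z (i * s))) (z ((i + 1 : ℕ) * s))]

theorem bwd {T : ℝ} (hT : 0 < T) {x y : X} (h : MapLimit (F T) x y) : FlowLimit F x y := by
  obtain ⟨K, hK, h⟩ := (map_iff _ x y).1 h
  refine (flow_iff F x y).2 ⟨Function.uncurry F '' (Icc 0 T ×ˢ K),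
    (isCompact_Icc.prod hK).image_of_continuousOn
      (hF.mono (prod_mono Icc_subset_Ici_self (subset_univ _))), fun ε hε r => ?_⟩
  obtain ⟨η, hη, h1⟩ := uc hF hK T hε
  obtain ⟨δ, hδ, h2⟩ := lemB hF h0 ha hT hK (⌈1 / T⌉₊ + 1) _ hη
  obtain ⟨n, hn, -, z, z0, z1, hz, hc⟩ := h δ hδ (max r 1 / T)
  rw [div_le_iff₀ hT] at hn
  have g1 : ∀ t, 0 ≤ t → ⌊t / T⌋₊ * T ≤ t := fun t ht =>
    (le_div_iff₀ hT).1 (Nat.floor_le (by positivity))
  have g2 : ∀ t : ℝ, t < (⌊t / T⌋₊ + 1) * T := fun t => (div_lt_iff₀ hT).1 (Nat.lt_floor_add_one _)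
  have g3 : ∀ t, t ≤ n * T → ⌊t / T⌋₊ ≤ n := fun t ht =>
    Nat.floor_le_of_le ((div_le_iff₀ hT).2 ht)
  have g4 : ⌊(n * T) / T⌋₊ = n := by rw [mul_div_cancel_right₀ _ hT.ne', Nat.floor_natCast]
  refine ⟨n * T, (le_max_left _ _).trans hn, (le_max_right _ _).trans hn,
    fun t => F (t - ⌊t / T⌋₊ * T) (z ⌊t / T⌋₊), ?_, by simp [h0, z0], by simp only [g4]; simp [h0, z1],
    fun t ht => ⟨(_, _), ⟨⟨by linarith [g1 t ht.1], by linarith [g2 t]⟩, hz _ (g3 t ht.2)⟩, rfl⟩,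
    fun a b e1 e2 e3 e4 => ?_⟩
  · refine ⟨(Finset.range (n + 1)).image fun i : ℕ => i * T, fun a b e1 e2 e3 e4 =>
      ⟨fun t => F (t - ⌊a / T⌋₊ * T) (z ⌊a / T⌋₊), hF.comp
        (f := fun t : ℝ => (t - ⌊a / T⌋₊ * T, z ⌊a / T⌋₊)) (by fun_prop)
        fun t ht => ⟨by have := g1 a e1; have := ht.1; simp only [mem_Ici]; linarith, trivial⟩,
        fun t ht => ?_⟩⟩
    have : ⌊t / T⌋₊ = ⌊a / T⌋₊ := by
      refine le_antisymm (not_lt.1 fun hl => ?_) (Nat.floor_mono (by gcongr; exact ht.1.le))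
      have hl' : (⌊a / T⌋₊ : ℝ) + 1 ≤ ⌊t / T⌋₊ := by exact_mod_cast hl
      refine e4 _ (Finset.mem_image.2 ⟨⌊t / T⌋₊, Finset.mem_range.2
        (Nat.lt_succ_of_le (g3 t (ht.2.le.trans e3))), rfl⟩) ⟨?_, ?_⟩
      · nlinarith [g2 a]
      · exact (g1 t (e1.trans ht.1.le)).trans_lt ht.2
    simp only [this]
  · obtain ⟨k, hk⟩ := Nat.exists_eq_add_of_le
      (Nat.floor_mono (show a / T ≤ b / T by gcongr) : ⌊a / T⌋₊ ≤ ⌊b / T⌋₊)
    have a1 := g1 a e1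
    have a2 := g2 a
    have b1 := g1 b (by linarith)
    have b2 := g2 b
    have b3 := g3 b e3
    beta_reduce
    rw [hk] at b1 b2 b3 ⊢
    push_cast at b1 b2 ⊢
    have hkm : k ≤ ⌈1 / T⌉₊ + 1 := by
      have : (k : ℝ) ≤ 1 / T + 1 := by
        rw [← sub_le_iff_le_add, le_div_iff₀ hT]; nlinarith
      exact_mod_cast this.trans (add_le_add_left (Nat.le_ceil _) 1)
    have e5 := h2 z n hz hc _ k hkm b3
    have e6 := h1 (b - (⌊a / T⌋₊ + k) * T) ⟨by linarith, by linarith⟩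
      (b - (⌊a / T⌋₊ + k) * T) (by linarith) _ (hz _ b3) _
      (by simpa using hη) (by rw [dist_comm]; exact e5)
    rw [← ha _ _ _ (by linarith) (by linarith), dist_comm,
      show b - a + (a - ⌊a / T⌋₊ * T) = b - (⌊a / T⌋₊ + k) * T + k * T by ring,
      ha _ _ _ (by positivity) (by linarith)]
    exact e6

end Pool.Agent.H84.LcpPf
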