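import Mathlib

set_option autoImplicit false
set_option linter.unusedSectionVars false

namespace Pool.Agent.H84.Levy

open MeasureTheory Filter Topology Set Real
open scoped RealInnerProductSpace

variable {V : Type} [NormedAddCommGroup V] [InnerProductSpace ℝ V] [FiniteDimensional ℝ V]
  [MeasurableSpace V] [BorelSpace V] {N : Seminorm ℝ V} {P : Measure V} [IsProbabilityMeasure P]

theorem cf (h : ∀ x, charFun P ((2 * π) • x) = (rexp (-N x) : ℝ)) (x : V) (t : ℝ) :
    charFun P (t • x) = (rexp (-(|t| / (2 * π) * N x)) : ℝ) := by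
  have := h ((t / (2 * π)) • x)
  rwa [smul_smul, mul_div_cancel₀ _ (by positivity), map_smul_eq_mul, Real.norm_eq_abs, abs_div,
    abs_of_pos (a := 2 * π) (by positivity)] at this

theorem tail (h : ∀ x, charFun P ((2 * π) • x) = (rexp (-N x) : ℝ)) (x : V) {r : ℝ} (hr : 0 < r) :
    P.real {ξ | r < |⟪x, ξ⟫|} ≤ N x / r := by
  refine (measureReal_abs_inner_gt_le_integral_charFun hr).trans ?_
  have hN := apply_nonneg N x
  have h1 : ‖∫ t in -2 * r⁻¹..2 * r⁻¹, 1 - charFun P (t • x)‖ ≤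
      (2 * r⁻¹ / 6 * N x) * |2 * r⁻¹ - -2 * r⁻¹| := by
    refine intervalIntegral.norm_integral_le_of_norm_le_const fun t ht => ?_
    have h0 : 0 < r⁻¹ := by positivity
    rw [uIoc_of_le (by linarith)] at ht
    have h2 : |t| ≤ 2 * r⁻¹ := abs_le.2 ⟨by linarith [ht.1], ht.2⟩
    have h3 : |t| / (2 * π) * N x ≤ 2 * r⁻¹ / 6 * N x := by
      gcongr; linarith [pi_gt_three]
    have h4 := add_one_le_exp (-(|t| / (2 * π) * N x))
    have h5 : rexp (-(|t| / (2 * π) * N x)) ≤ 1 := by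
      rw [exp_le_one_iff, neg_nonpos]; positivity
    rw [cf h, ← Complex.ofReal_one, ← Complex.ofReal_sub, Complex.norm_real,
      Real.norm_of_nonneg (by linarith)]
    linarith
  refine (mul_le_mul_of_nonneg_left h1 (by positivity)).trans ?_
  rw [abs_of_pos (by have : 0 < r⁻¹ := by positivity
                     linarith)]
  field_simp
  nlinarith

theorem norm_le_sum (ξ : V) : ‖ξ‖ ≤ ∑ i, |⟪stdOrthonormalBasis ℝ V i, ξ⟫| := by
  conv_lhs => rw [← (stdOrthonormalBasis ℝ V).sum_repr' ξ]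
  refine (norm_sum_le _ _).trans (le_of_eq (Finset.sum_congr rfl fun i _ => ?_))
  rw [norm_smul, (stdOrthonormalBasis ℝ V).orthonormal.1, mul_one, Real.norm_eq_abs]

theorem tailN (h : ∀ x, charFun P ((2 * π) • x) = (rexp (-N x) : ℝ)) :
    ∃ K : ℝ, ∀ R : ℝ, 0 < R → R * P.real {ξ | R < ‖ξ‖} ≤ K := by
  let b := stdOrthonormalBasis ℝ V
  let n : ℝ := Module.finrank ℝ V + 1
  have hn : 0 < n := by positivity
  refine ⟨∑ i, n * N (b i), fun R hR => ?_⟩
  have h1 : {ξ : V | R < ‖ξ‖} ⊆ ⋃ i, {ξ | R / n < |⟪b i, ξ⟫|} := fun ξ hξ => by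
    by_contra hc
    simp only [mem_iUnion, mem_ofPred_eq, not_exists, not_lt] at hc hξ
    have h2 := (norm_le_sum ξ).trans (Finset.sum_le_sum fun i _ => hc i)
    rw [Finset.sum_const, Finset.card_univ, Fintype.card_fin, nsmul_eq_mul] at h2
    have h3 : n * (R / n) = R := by field_simp
    have h4 : 0 < R / n := by positivity
    have h5 : n = Module.finrank ℝ V + 1 := rfl
    nlinarith
  have h2 := (measureReal_mono h1).trans (measureReal_iUnion_fintype_le (μ := P) _)
  refine (mul_le_mul_of_nonneg_left h2 hR.le).trans ?_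
  rw [Finset.mul_sum]
  refine Finset.sum_le_sum fun i _ => ?_
  refine (mul_le_mul_of_nonneg_left (tail h (b i) (by positivity)) hR.le).trans (le_of_eq ?_)
  field_simp

theorem cf_map (x : V) (t : ℝ) : charFun (P.map fun ξ => ⟪x, ξ⟫) t = charFun P (t • x) := by
  rw [charFun_apply_real, charFun_apply, integral_map (by fun_prop) (by fun_prop)]
  simp only [inner_smul_right, real_inner_comm x]; push_cast; rfl

theorem law (h : ∀ x, charFun P ((2 * π) • x) = (rexp (-N x) : ℝ)) {e : V} (he : N e = 1) (x : V)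
    {g : ℝ → ℝ} (hg : Continuous g) : ∫ ξ, g ⟪x, ξ⟫ ∂P = ∫ ξ, g (N x * ⟪e, ξ⟫) ∂P := by
  have : (P.map fun ξ => ⟪x, ξ⟫) = P.map fun ξ => ⟪N x • e, ξ⟫ := by
    refine Measure.ext_of_charFun (funext fun t => ?_)
    rw [cf_map, cf_map, cf h, cf h, map_smul_eq_mul, he, mul_one,
      Real.norm_of_nonneg (apply_nonneg N x)]
  rw [← integral_map (f := g) (by fun_prop) (by fun_prop), this,
    integral_map (by fun_prop) (by fun_prop)]
  simp only [real_inner_smul_left]

variable (P) in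
noncomputable def a (e : V) (R : ℝ) : ℝ := ∫ ξ, min |⟪e, ξ⟫| R ∂P

theorem int_min (x : V) {R : ℝ} (hR : 0 ≤ R) : Integrable (fun ξ => min |⟪x, ξ⟫| R) P :=
  (integrable_const R).mono' (by fun_prop) (.of_forall fun ξ => by
    rw [Real.norm_of_nonneg (by positivity)]; exact min_le_right _ _)

theorem a_mono (e : V) {R R' : ℝ} (hR : 0 ≤ R) (h : R ≤ R') : a P e R ≤ a P e R' :=
  integral_mono (int_min e hR) (int_min e (hR.trans h)) fun _ => min_le_min_left _ h

theorem a_diff (h : ∀ x, charFun P ((2 * π) • x) = (rexp (-N x) : ℝ)) {e : V} (he : N e = 1)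
    {R R' : ℝ} (hR : 0 < R) (h' : R ≤ R') : a P e R' - a P e R ≤ (R' - R) / R := by
  have hm : MeasurableSet {ξ : V | R < |⟪e, ξ⟫|} := measurableSet_lt (by fun_prop) (by fun_prop)
  rw [a, a, ← integral_sub (int_min e (by linarith)) (int_min e hR.le)]
  refine (integral_mono (g := {ξ : V | R < |⟪e, ξ⟫|}.indicator fun _ => R' - R)
    ((int_min e (by linarith)).sub (int_min e hR.le)) ((integrable_const _).indicator hm)
    fun ξ => ?_).trans ?_
  · by_cases hξ : R < |⟪e, ξ⟫|
    · rw [indicator_of_mem (show ξ ∈ {ξ : V | R < |⟪e, ξ⟫|} from hξ), Pi.sub_apply,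
        min_eq_right hξ.le]
      linarith [min_le_right |⟪e, ξ⟫| R']
    · rw [indicator_of_notMem (show ξ ∉ {ξ : V | R < |⟪e, ξ⟫|} from hξ), Pi.sub_apply,
        min_eq_left (not_lt.1 hξ), min_eq_left (by linarith)]
      simp
  · rw [integral_indicator_const _ hm, smul_eq_mul, div_eq_inv_mul]
    have := tail h e hR
    rw [he, one_div] at this
    exact mul_le_mul_of_nonneg_right this (by linarith)

theorem a_top (h : ∀ x, charFun P ((2 * π) • x) = (rexp (-N x) : ℝ)) {e : V} (he : N e = 1) :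
    Tendsto (fun k : ℕ => a P e k) atTop atTop := by
  refine tendsto_atTop_atTop_of_monotone
    (fun k l hkl => a_mono e (Nat.cast_nonneg _) (by exact_mod_cast hkl)) fun M => ?_
  by_contra hc
  push Not at hc
  have hi : Integrable (fun ξ => |⟪e, ξ⟫|) P := by
    refine ⟨by fun_prop, ?_⟩
    have l1 : ∫⁻ ξ, ‖|⟪e, ξ⟫|‖ₑ ∂P ≤
        liminf (fun k : ℕ => ∫⁻ ξ, ‖min |⟪e, ξ⟫| k‖ₑ ∂P) atTop := by
      refine le_trans (le_of_eq (lintegral_congr fun ξ => ?_))
        (lintegral_liminf_le fun k => by fun_prop)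
      have : Tendsto (fun k : ℕ => min |⟪e, ξ⟫| k) atTop (𝓝 |⟪e, ξ⟫|) :=
        tendsto_const_nhds.congr' (by
          filter_upwards [tendsto_natCast_atTop_atTop.eventually_ge_atTop |⟪e, ξ⟫|] with k hk
          exact (min_eq_left hk).symm)
      exact this.enorm.liminf_eq.symm
    refine l1.trans_lt (lt_of_le_of_lt (liminf_le_of_frequently_le' (x := ENNReal.ofReal M)
      (Frequently.of_forall fun k => ?_)) ENNReal.ofReal_lt_top)
    rw [← ofReal_integral_norm_eq_lintegral_enorm (int_min e (Nat.cast_nonneg k))]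
    refine ENNReal.ofReal_le_ofReal (le_trans (le_of_eq ?_) (hc k).le)
    exact integral_congr_ae (.of_forall fun ξ => Real.norm_of_nonneg (by positivity))
  have h1 : Tendsto (fun k : ℕ => ∫ ξ, ((k : ℝ) + 1) * (1 - cos (1 / (k + 1) * ⟪e, ξ⟫)) ∂P) atTop
      (𝓝 (∫ _, (0 : ℝ) ∂P)) := by
    refine tendsto_integral_of_dominated_convergence _ (fun k => by fun_prop) hi
      (fun k => .of_forall fun ξ => ?_) (.of_forall fun ξ => ?_)
    · have := abs_cos_sub_cos_le 0 (1 / (k + 1) * ⟪e, ξ⟫)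
      rw [cos_zero, zero_sub, abs_neg, abs_mul, abs_of_pos (a := 1 / ((k : ℝ) + 1)) (by positivity)]
        at this
      rw [norm_mul, Real.norm_of_nonneg (by positivity), Real.norm_eq_abs]
      refine (mul_le_mul_of_nonneg_left this (by positivity)).trans (le_of_eq ?_)
      field_simp
    · have := (tendsto_one_div_add_atTop_nhds_zero_nat (𝕜 := ℝ)).mul_const (⟪e, ξ⟫ ^ 2 / 2)
      rw [zero_mul] at this
      refine squeeze_zero (fun k => mul_nonneg (by positivity) (by linarith [cos_le_one (1 / (k + 1) * ⟪e, ξ⟫)]))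
        (fun k => ?_) this
      have h2 := one_sub_sq_div_two_le_cos (x := 1 / (k + 1) * ⟪e, ξ⟫)
      refine (mul_le_mul_of_nonneg_left (b := _) (c := (1 / (k + 1) * ⟪e, ξ⟫) ^ 2 / 2) (by linarith)
        (by positivity)).trans (le_of_eq ?_)
      field_simp
  rw [integral_zero] at h1
  obtain ⟨k, hk⟩ := (h1.eventually (gt_mem_nhds (show (0 : ℝ) < 1 / 16 by norm_num))).exists
  have h2 : ∫ ξ, cos (1 / (k + 1) * ⟪e, ξ⟫) ∂P = rexp (-(1 / (k + 1) / (2 * π))) := by
    have := congrArg Complex.re (cf h e (1 / (k + 1)))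
    rw [Complex.ofReal_re, he, mul_one, abs_of_pos (by positivity), charFun_apply] at this
    rw [← this]
    refine Eq.trans ?_ (integral_re ((integrable_const (1 : ℝ)).mono' (by fun_prop)
      (.of_forall fun ξ => (Complex.norm_exp_ofReal_mul_I _).le)))
    congr with ξ
    rw [inner_smul_right, real_inner_comm]
    exact (Complex.exp_ofReal_mul_I_re _).symm
  rw [integral_const_mul, integral_sub (integrable_const _) ((integrable_const (1 : ℝ)).mono'
    (by fun_prop) (.of_forall fun ξ => abs_cos_le_one _)), h2] at hk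
  simp only [integral_const, probReal_univ, smul_eq_mul, mul_one] at hk
  set u := 1 / ((k : ℝ) + 1) / (2 * π) with hu
  have k0 : (0 : ℝ) ≤ k := Nat.cast_nonneg k
  have h3 : (k + 1) * u * (2 * π) = 1 := by rw [hu]; field_simp
  have h4 : 0 < u := by positivity
  have h5 : rexp (-u) * (u + 1) ≤ 1 := by
    calc rexp (-u) * (u + 1) ≤ rexp (-u) * rexp u := by gcongr; exact add_one_le_exp u
      _ = 1 := by rw [← exp_add]; simp
  have h6 : 1 / 8 ≤ (k + 1) * u := by
    nlinarith [mul_le_mul_of_nonneg_left pi_le_four (by positivity : 0 ≤ (k + 1) * u)]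
  have h7 : u ≤ 1 := by
    nlinarith [mul_le_mul_of_nonneg_left pi_gt_three.le (by positivity : 0 ≤ (k + 1) * u),
      mul_nonneg k0 h4.le]
  have h8 : u / 2 ≤ 1 - rexp (-u) := by nlinarith [exp_pos (-u)]
  nlinarith

theorem close (h : ∀ x, charFun P ((2 * π) • x) = (rexp (-N x) : ℝ)) {e : V} (he : N e = 1)
    (hN : ∀ x, N x = 0 → x = 0) (x : V) : ∃ B : ℝ, ∀ R : ℝ, 0 < R →
      |∫ ξ in Metric.closedBall 0 R, |⟪x, ξ⟫| ∂P - N x * a P e R| ≤ B := by
  by_cases hx : x = 0
  · exact ⟨0, fun R _ => by simp [hx]⟩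
  have h0 : 0 < N x := (apply_nonneg N x).lt_of_ne' fun h => hx (hN x h)
  have h1 : 0 < ‖x‖ := norm_pos_iff.2 hx
  obtain ⟨K, hK⟩ := tailN h
  set l := ‖x‖ / N x with hl
  have l0 : 0 < l := by positivity
  refine ⟨‖x‖ * K + N x * (l + l⁻¹), fun R hR => ?_⟩
  have e1 : ∫ ξ, min |⟪x, ξ⟫| (‖x‖ * R) ∂P = N x * a P e (l * R) := by
    rw [law h he x (g := fun t => min |t| (‖x‖ * R)) (by fun_prop), a, ← integral_const_mul]
    congr with ξ
    rw [mul_min_of_nonneg _ _ h0.le, abs_mul, abs_of_pos h0, hl]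
    congr 1; field_simp
  have e2 : |a P e (l * R) - a P e R| ≤ l + l⁻¹ := by
    have : 0 < l⁻¹ := by positivity
    rcases le_total 1 l with h2 | h2
    · have h3 : R ≤ l * R := le_mul_of_one_le_left hR.le h2
      have h4 := a_diff h he hR h3
      have h5 : (l * R - R) / R = l - 1 := by field_simp
      rw [abs_of_nonneg (sub_nonneg.2 (a_mono e hR.le h3))]; linarith
    · have h3 : l * R ≤ R := mul_le_of_le_one_left hR.le h2
      have h4 := a_diff h he (by positivity) h3
      have h5 : (R - l * R) / (l * R) = l⁻¹ - 1 := by field_simp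
      rw [abs_of_nonpos (sub_nonpos.2 (a_mono e (by positivity) h3))]; linarith
  have e3 : |∫ ξ in Metric.closedBall 0 R, |⟪x, ξ⟫| ∂P - ∫ ξ, min |⟪x, ξ⟫| (‖x‖ * R) ∂P| ≤
      ‖x‖ * K := by
    have hm : MeasurableSet (Metric.closedBall (0 : V) R) := measurableSet_closedBall
    have : ∫ ξ in Metric.closedBall 0 R, |⟪x, ξ⟫| ∂P =
        ∫ ξ in Metric.closedBall 0 R, min |⟪x, ξ⟫| (‖x‖ * R) ∂P :=
      setIntegral_congr_fun hm fun ξ hξ => (min_eq_left ((abs_real_inner_le_norm x ξ).trans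
        (by gcongr; exact mem_closedBall_zero_iff.1 hξ))).symm
    rw [this, ← integral_add_compl hm (int_min (P := P) x (by positivity)), sub_add_cancel_left, abs_neg]
    rw [← Real.norm_eq_abs]
    refine (norm_setIntegral_le_of_norm_le_const (C := ‖x‖ * R) (measure_lt_top P _)
      fun ξ _ => ?_).trans ?_
    · rw [Real.norm_of_nonneg (by positivity)]; exact min_le_right _ _
    · have : (Metric.closedBall (0 : V) R)ᶜ = {ξ | R < ‖ξ‖} := by ext; simp
      rw [this, mul_assoc]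
      exact mul_le_mul_of_nonneg_left (hK R hR) h1.le
  have e4 : |N x * a P e (l * R) - N x * a P e R| ≤ N x * (l + l⁻¹) := by
    rw [← mul_sub, abs_mul, abs_of_pos h0]; gcongr
  rw [e1] at e3
  exact (abs_sub_le _ _ _).trans (add_le_add e3 e4)

theorem levy (h : ∀ x, charFun P ((2 * π) • x) = (rexp (-N x) : ℝ)) {e : V} (he : N e = 1)
    (hN : ∀ x, N x = 0 → x = 0) : ∃ (μ : ℕ → Measure V) (C : ℝ), (∀ k, IsFiniteMeasure (μ k)) ∧
      (∀ k, Integrable (fun ξ => ‖ξ‖) (μ k)) ∧ (∀ᶠ k in atTop, ∫ ξ, ‖ξ‖ ∂μ k ≤ C) ∧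
      ∀ x, Tendsto (fun k => ∫ ξ, |⟪x, ξ⟫| ∂μ k) atTop (𝓝 (N x)) := by
  let μ : ℕ → Measure V := fun k =>
    ENNReal.ofReal (a P e k)⁻¹ • P.restrict (Metric.closedBall 0 k)
  have i1 : ∀ k, Integrable (fun ξ => ‖ξ‖) (μ k) := fun k =>
    (continuous_norm.continuousOn.integrableOn_compact (isCompact_closedBall _ _)).smul_measure
      ENNReal.ofReal_ne_top
  have i2 : ∀ x, Tendsto (fun k => ∫ ξ, |⟪x, ξ⟫| ∂μ k) atTop (𝓝 (N x)) := fun x => by
    obtain ⟨B, hB⟩ := close h he hN x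
    have t1 := (a_top h he).inv_tendsto_atTop.mul_const B
    rw [zero_mul] at t1
    rw [tendsto_iff_norm_sub_tendsto_zero]
    refine squeeze_zero' (.of_forall fun k => norm_nonneg _) ?_ t1
    filter_upwards [(a_top h he).eventually_gt_atTop 0, eventually_gt_atTop 0] with k hk hk0
    rw [integral_smul_measure, ENNReal.toReal_ofReal (by positivity), smul_eq_mul, Pi.inv_apply]
    refine le_trans (le_of_eq ?_) (mul_le_mul_of_nonneg_left (hB k (by positivity)) (by positivity))
    rw [← abs_of_pos (inv_pos.2 hk), ← abs_mul, abs_of_pos (inv_pos.2 hk), Real.norm_eq_abs]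
    congr 1; field_simp
  refine ⟨μ, ∑ i, N (stdOrthonormalBasis ℝ V i) + 1, fun k => ⟨?_⟩, i1, ?_, i2⟩
  · exact ENNReal.mul_lt_top ENNReal.ofReal_lt_top (measure_lt_top _ _)
  · filter_upwards [(tendsto_finsetSum Finset.univ fun i _ =>
      i2 (stdOrthonormalBasis ℝ V i)).eventually (gt_mem_nhds (lt_add_one _))] with k hk
    have i3 : ∀ x : V, Integrable (fun ξ => |⟪x, ξ⟫|) (μ k) := fun x =>
      ((i1 k).const_mul ‖x‖).mono' (by fun_prop) (.of_forall fun ξ => by
        rw [Real.norm_of_nonneg (abs_nonneg _)]; exact abs_real_inner_le_norm x ξ)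
    rw [← integral_finsetSum _ fun i _ => i3 _] at hk
    exact (integral_mono (i1 k) (integrable_finsetSum _ fun i _ => i3 _) norm_le_sum).trans hk.le

end Pool.Agent.H84.Levy
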