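import Mathlib

namespace Pool.Agent.H84.LmpDefs

open MeasureTheory ProbabilityTheory

/-- labelled Markov processes with label set `L` -/
structure LMP (L : Type) where
  S : Type
  ms : MeasurableSpace S
  τ : L → Kernel S S
  sub : ∀ a s, τ a s Set.univ ≤ 1

attribute [instance] LMP.ms

/-- formulas of the logic -/
inductive Fm (L : Type) : Type
  | top : Fm L
  | and : Fm L → Fm L → Fm L
  | dia : L → {q : ℚ // 0 ≤ q ∧ q ≤ 1} → Fm L → Fm L

/-- the set of states satisfying a formula -/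
def sem {L : Type} (M : LMP L) : Fm L → Set M.S
  | Fm.top => Set.univ
  | Fm.and φ ψ => sem M φ ∩ sem M ψ
  | Fm.dia a q φ => {s | ENNReal.ofReal (q.1 : ℝ) ≤ M.τ a s (sem M φ)}

/-- sum-bisimulations -/
def IsSumBisim {L : Type} (M N : LMP L) (R : M.S ⊕ N.S → M.S ⊕ N.S → Prop) : Prop :=
  Equivalence R ∧ ∀ s t, R (Sum.inl s) (Sum.inr t) → ∀ (a : L) (A : Set (M.S ⊕ N.S)),
    MeasurableSet A → (∀ x ∈ A, ∀ y, R x y ∨ R y x → y ∈ A) →
    M.τ a s (Sum.inl ⁻¹' A) = N.τ a t (Sum.inr ⁻¹' A)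

end Pool.Agent.H84.LmpDefs
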