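import Pool.Agent.H84.LmpDefs
import Pool.Agent.H84.NCard

namespace Pool.Agent.H84.LmpEx

open MeasureTheory ProbabilityTheory Set Pool.Agent.H84.LmpDefs
open scoped Classical

noncomputable def ν : Measure ℝ := volume.restrict (Icc 0 1)

instance : IsProbabilityMeasure ν := ⟨by simp [ν]⟩

noncomputable def tr (Y : Set ℝ) : Measure Y :=
  (OuterMeasure.comap Subtype.val ν.toOuterMeasure).toMeasure (by
    rintro _ ⟨B, hB, rfl⟩ T
    simp only [OuterMeasure.comap_apply, Measure.coe_toOuterMeasure]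
    rw [← measure_inter_add_sdiff (Subtype.val '' T) hB, image_inter_preimage]
    congr 2
    ext x
    simp only [mem_sdiff, mem_image, mem_preimage]
    constructor
    · rintro ⟨⟨y, h1, rfl⟩, h2⟩; exact ⟨y, ⟨h1, h2⟩, rfl⟩
    · rintro ⟨y, ⟨h1, h2⟩, rfl⟩; exact ⟨⟨y, h1, rfl⟩, h2⟩)

def Full (Y : Set ℝ) : Prop := ∀ K : Set ℝ, IsClosed K → ¬ K.Countable → K ⊆ Icc 0 1 → ∃ x ∈ K, x ∈ Y

theorem tr_apply {Y : Set ℝ} (hY : Full Y) {B : Set ℝ} (hB : MeasurableSet B) :
    tr Y (Subtype.val ⁻¹' B) = ν B := by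
  rw [tr, toMeasure_apply _ _ (measurable_subtype_coe hB), OuterMeasure.comap_apply,
    Measure.coe_toOuterMeasure, Subtype.image_preimage_coe]
  refine le_antisymm (measure_mono inter_subset_right) ?_
  have hm := (hB.diff (measurableSet_toMeasurable ν (Y ∩ B))).inter (measurableSet_Icc (a := 0) (b := 1))
  have h0 : ν (B \ toMeasurable ν (Y ∩ B)) = 0 := by
    rw [ν, Measure.restrict_apply (hB.diff (measurableSet_toMeasurable _ _))]
    by_contra hc
    obtain ⟨K, hK, hKc, hK0⟩ := hm.exists_lt_isCompact (μ := volume) (pos_iff_ne_zero.2 hc)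
    obtain ⟨x, hx, hxY⟩ := hY K hKc.isClosed (fun h => hK0.ne' (h.measure_zero _))
      (fun z hz => (hK hz).2)
    exact (hK hx).1.2 (subset_toMeasurable _ _ ⟨hxY, (hK hx).1.1⟩)
  calc ν B ≤ ν (toMeasurable ν (Y ∩ B) ∪ B \ toMeasurable ν (Y ∩ B)) :=
        measure_mono (by intro z hz; by_cases h : z ∈ toMeasurable ν (Y ∩ B) <;> simp [h, hz])
    _ ≤ _ := measure_union_le _ _
    _ = _ := by rw [h0, add_zero, measure_toMeasurable]

theorem m1 (Y : Set ℝ) : MeasurableSet (Subtype.val ⁻¹' {2} : Set Y) :=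
  measurable_subtype_coe (measurableSet_singleton _)

theorem m2 (Y : Set ℝ) (q : ℚ) : MeasurableSet (Subtype.val ⁻¹' Iio (q : ℝ) : Set Y) :=
  measurable_subtype_coe measurableSet_Iio

noncomputable def ker (Y : Set ℝ) : Option ℚ → Kernel Y Y
  | none => Kernel.piecewise (m1 Y) (Kernel.const _ (tr Y)) 0
  | some q => Kernel.piecewise (m2 Y q) (Kernel.deterministic id measurable_id) 0

noncomputable def val (a : Option ℚ) (B : Set ℝ) (x : ℝ) : ENNReal :=
  match a with
  | none => if x = 2 then ν B else 0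
  | some q => if x < q then B.indicator 1 x else 0

theorem ker_apply {Y : Set ℝ} (hY : Full Y) (a : Option ℚ) (x : Y) {B : Set ℝ}
    (hB : MeasurableSet B) : ker Y a x (Subtype.val ⁻¹' B) = val a B x := by
  cases a with
  | none =>
    simp only [ker, val, Kernel.piecewise_apply, mem_preimage, mem_singleton_iff]
    split_ifs
    · rw [Kernel.const_apply, tr_apply hY hB]
    · simp
  | some q =>
    simp only [ker, val, Kernel.piecewise_apply, mem_preimage, mem_Iio]
    split_ifs
    · rw [Kernel.deterministic_apply' _ _ (measurable_subtype_coe hB)]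
      by_cases h : x.1 ∈ B <;> simp [h]
    · simp

theorem val_meas (a : Option ℚ) {B : Set ℝ} (hB : MeasurableSet B) : Measurable (val a B) := by
  cases a with
  | none => exact Measurable.ite (measurableSet_singleton 2) measurable_const measurable_const
  | some q =>
    exact Measurable.ite measurableSet_Iio (measurable_const.indicator hB) measurable_const

noncomputable def M (Y : Set ℝ) (hY : Full Y) : LMP (Option ℚ) where
  S := Y
  ms := inferInstance
  τ := ker Y
  sub a s := by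
    rw [← preimage_univ (f := Subtype.val), ker_apply hY _ _ MeasurableSet.univ]
    cases a <;> simp only [val] <;> split_ifs <;> simp

theorem sem_eq (φ : Fm (Option ℚ)) : ∃ B : Set ℝ, MeasurableSet B ∧
    ∀ Y hY, sem (M Y hY) φ = (Subtype.val ⁻¹' B : Set Y) := by
  induction φ with
  | top => exact ⟨univ, MeasurableSet.univ, fun _ _ => rfl⟩
  | and φ ψ h1 h2 =>
    obtain ⟨B, hB, h1⟩ := h1
    obtain ⟨C, hC, h2⟩ := h2
    exact ⟨B ∩ C, hB.inter hC, fun Y hY => by simp only [sem, h1, h2]; rfl⟩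
  | dia a q φ h =>
    obtain ⟨B, hB, h⟩ := h
    refine ⟨{x | ENNReal.ofReal (q.1 : ℝ) ≤ val a B x},
      measurableSet_le measurable_const (val_meas a hB), fun Y hY => ?_⟩
    ext x
    simp only [sem, h]
    show _ ≤ ker Y a x _ ↔ _
    rw [ker_apply hY _ _ hB]
    rfl

theorem main : ∃ (A B : LMP (Option ℚ)) (s : A.S) (t : B.S), (∀ φ, s ∈ sem A φ ↔ t ∈ sem B φ) ∧
    ¬ ∃ R, IsSumBisim A B R ∧ R (Sum.inl s) (Sum.inr t) := by
  obtain ⟨B, hB⟩ := Pool.Agent.H84.NCard.exists_joint
  let Y : ℕ → Set ℝ := fun c => insert 2 (B c)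
  have hY : ∀ c, Full (Y c) := fun c K h1 h2 _ => by
    obtain ⟨x, h1, h2⟩ := hB.meets c h1 h2
    exact ⟨x, h1, Or.inr h2⟩
  refine ⟨M (Y 0) (hY 0), M (Y 1) (hY 1), ⟨2, Or.inl rfl⟩, ⟨2, Or.inl rfl⟩, fun φ => ?_, ?_⟩
  · obtain ⟨C, -, h⟩ := sem_eq φ
    rw [h, h]
    rfl
  rintro ⟨R, ⟨hR, h⟩, hst⟩
  have cross : ∀ (x : Y 0) (y : Y 1), R (Sum.inl x) (Sum.inr y) → x.1 = y.1 := by
    intro x y hxy
    have key : ∀ q : ℚ, x.1 < q ↔ y.1 < q := fun q => by
      have := h x y hxy (some q) univ MeasurableSet.univ (fun _ _ _ _ => trivial)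
      change ker (Y 0) (some q) x (Subtype.val ⁻¹' univ) =
        ker (Y 1) (some q) y (Subtype.val ⁻¹' univ) at this
      rw [ker_apply (hY 0) _ _ MeasurableSet.univ, ker_apply (hY 1) _ _ MeasurableSet.univ] at this
      simp only [val] at this
      split_ifs at this with h1 h2 h2
      · exact iff_of_true h1 h2
      · simp at this
      · simp at this
      · exact iff_of_false h1 h2
    refine le_antisymm (not_lt.1 fun hl => ?_) (not_lt.1 fun hl => ?_)
    · obtain ⟨q, h1, h2⟩ := exists_rat_btwn hl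
      exact h2.not_gt ((key q).2 h1)
    · obtain ⟨q, h1, h2⟩ := exists_rat_btwn hl
      exact h2.not_gt ((key q).1 h1)
  have cross2 : ∀ (x : Y 0) (y : Y 1), R (Sum.inl x) (Sum.inr y) → x.1 = 2 := by
    intro x y hxy
    have e := cross x y hxy
    rcases x.2 with h1 | h1
    · exact h1
    rcases y.2 with h2 | h2
    · exact e.trans h2
    · exact absurd (e ▸ h2) (disjoint_left.1 (hB.1 0 1 (by simp)) h1)
  have hm : MeasurableSet ({2}ᶜ : Set ℝ) := (measurableSet_singleton _).compl
  have := h _ _ hst none (Sum.inl '' (Subtype.val ⁻¹' {2}ᶜ : Set (Y 0)))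
    ((measurable_subtype_coe hm).inl_image) (by
      rintro _ ⟨x, hx, rfl⟩ y hy
      replace hy : R (Sum.inl x) y := hy.elim id hR.symm
      rcases y with y | y
      · refine ⟨y, fun hy2 => hx (cross2 x ⟨2, Or.inl rfl⟩ (hR.trans hy ?_)), rfl⟩
        have : y = ⟨2, Or.inl rfl⟩ := Subtype.ext hy2
        rw [this]; exact hst
      · exact absurd (cross2 x y hy) hx)
  rw [preimage_image_eq _ Sum.inl_injective, preimage_inr_image_inl, measure_empty] at this
  change ker (Y 0) none _ (Subtype.val ⁻¹' _) = 0 at this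
  rw [ker_apply (hY 0) _ _ hm] at this
  simp only [val, if_true] at this
  rw [prob_compl_eq_zero_iff (measurableSet_singleton _)] at this
  simp [ν] at this

end Pool.Agent.H84.LmpEx
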