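import Mathlib

set_option autoImplicit false

namespace Pool.Agent.H84.LpDefs

/-- the `ℓ_p` norm on `ℝ³` -/
noncomputable def np (p : ℝ) (x : Fin 3 → ℝ) : ℝ := (∑ i, |x i| ^ p) ^ (1 / p)

/-- `M'` is an `ℓ_p`-isometric copy of `M` -/
def IsCopy (p : ℝ) (M M' : Set (Fin 3 → ℝ)) : Prop :=
  ∃ φ : (Fin 3 → ℝ) → (Fin 3 → ℝ), Set.BijOn φ M M' ∧
    ∀ x ∈ M, ∀ y ∈ M, np p (φ x - φ y) = np p (x - y)

/-- planes: affine subspaces of dimension two -/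
def IsPlane (P : AffineSubspace ℝ (Fin 3 → ℝ)) : Prop := Module.finrank ℝ P.direction = 2

end Pool.Agent.H84.LpDefs
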