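import Mathlib
import Pool.Agent.H84.LpDefs

set_option autoImplicit false

namespace Pool.Agent.H84.LpEx

open LpDefs Set

noncomputable def κ : ℝ := (2 : ℝ) ^ (1 / 3 : ℝ)

theorem κ_pos : 0 < κ := Real.rpow_pos_of_pos two_pos _

theorem κ3 : κ ^ 3 = 2 := by
  rw [κ, ← Real.rpow_natCast, ← Real.rpow_mul zero_le_two]; norm_num

noncomputable def a (t : ℝ) : Fin 3 → ℝ :=
  ![t - 2 / (t + 1) + 1 / t - 2 / (t - 1), κ * (t + 2 / (t + 1) - 1 / t + 2 / (t - 1)), 0]

noncomputable def b (t : ℝ) : Fin 3 → ℝ :=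
  ![t - 2 / (t + 1) - 1 / t + 2 / (t - 1), t + 2 / (t + 1) + 1 / t + 2 / (t - 1),
    t + 2 / (t + 1) - 1 / t - 2 / (t - 1)]

theorem diffs {s t : ℝ} (hs : 3 ≤ s) (ht : 3 ≤ t) : ∃ u v w : ℝ, 0 ≤ u ∧ u ≤ 1 / 16 ∧ 0 ≤ v ∧
    v ≤ 1 / 9 ∧ 0 ≤ w ∧ w ≤ 1 / 4 ∧ -2 * u * v + 4 * u * w - 2 * v * w + 4 * u * v * w = 0 ∧
    a t - a s = ![(t - s) * (1 + 2 * u - v + 2 * w), (t - s) * (κ * (1 - 2 * u + v - 2 * w)), 0] ∧
    b t - b s = ![(t - s) * (1 + 2 * u + v - 2 * w), (t - s) * (1 - 2 * u - v - 2 * w),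
      (t - s) * (1 - 2 * u + v + 2 * w)] := by
  have h1 : 0 < t + 1 := by linarith
  have h2 : 0 < s + 1 := by linarith
  have h3 : 0 < t := by linarith
  have h4 : 0 < s := by linarith
  have h5 : 0 < t - 1 := by linarith
  have h6 : 0 < s - 1 := by linarith
  refine ⟨1 / ((t + 1) * (s + 1)), 1 / (t * s), 1 / ((t - 1) * (s - 1)), by positivity,
    one_div_le_one_div_of_le (by norm_num) (by nlinarith), by positivity,
    one_div_le_one_div_of_le (by norm_num) (by nlinarith), by positivity,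
    one_div_le_one_div_of_le (by norm_num) (by nlinarith), ?_, ?_, ?_⟩
  · field_simp; ring
  · funext i; fin_cases i <;> simp [a] <;> field_simp <;> ring
  · funext i; fin_cases i <;> simp [b] <;> field_simp <;> ring

theorem iso {s t : ℝ} (hs : 3 ≤ s) (ht : 3 ≤ t) : np 3 (b t - b s) = np 3 (a t - a s) := by
  obtain ⟨u, v, w, u0, u1, v0, v1, w0, w1, h, ha, hb⟩ := diffs hs ht
  rw [ha, hb]
  unfold np
  congr 1
  have hk := κ_pos
  simp only [Fin.sum_univ_three, Matrix.cons_val_zero, Matrix.cons_val_one, Matrix.cons_val,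
    Real.rpow_ofNat, abs_mul, mul_pow, abs_zero]
  rw [abs_of_nonneg (a := 1 + 2 * u + v - 2 * w) (by linarith),
    abs_of_nonneg (a := 1 - 2 * u - v - 2 * w) (by linarith),
    abs_of_nonneg (a := 1 - 2 * u + v + 2 * w) (by linarith),
    abs_of_nonneg (a := 1 + 2 * u - v + 2 * w) (by linarith),
    abs_of_nonneg (a := 1 - 2 * u + v - 2 * w) (by linarith), abs_of_pos hk, κ3]
  linear_combination (-24 * |t - s| ^ 3) * h

theorem a_inj : Function.Injective fun n : ℕ => a (n + 3) := by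
  intro n m h
  obtain ⟨u, v, w, u0, u1, v0, v1, w0, w1, -, ha, -⟩ :=
    diffs (s := n + 3) (t := m + 3) (by simp) (by simp)
  have h1 := congrFun ha 0
  beta_reduce at h
  rw [h, sub_self] at h1
  simp only [Pi.zero_apply, Matrix.cons_val_zero] at h1
  rcases mul_eq_zero.1 h1.symm with h2 | h2
  · exact_mod_cast (by linarith : (n : ℝ) = m)
  · linarith

theorem b_inj : Function.Injective fun n : ℕ => b (n + 3) := by
  intro n m h
  obtain ⟨u, v, w, u0, u1, v0, v1, w0, w1, -, -, hb⟩ :=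
    diffs (s := n + 3) (t := m + 3) (by simp) (by simp)
  have h1 := congrFun hb 0
  beta_reduce at h
  rw [h, sub_self] at h1
  simp only [Pi.zero_apply, Matrix.cons_val_zero] at h1
  rcases mul_eq_zero.1 h1.symm with h2 | h2
  · exact_mod_cast (by linarith : (n : ℝ) = m)
  · linarith

def M : Set (Fin 3 → ℝ) := range fun n : ℕ => a (n + 3)
def M' : Set (Fin 3 → ℝ) := range fun n : ℕ => b (n + 3)

theorem copy : IsCopy 3 M M' := by
  have e : ∀ n : ℕ, Function.invFun (fun n : ℕ => a (n + 3)) (a (n + 3)) = n :=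
    Function.leftInverse_invFun a_inj
  refine ⟨fun x => b (Function.invFun (fun n : ℕ => a (n + 3)) x + 3), ⟨?_, ?_, ?_⟩, ?_⟩
  · rintro _ ⟨n, rfl⟩; exact ⟨_, rfl⟩
  · rintro _ ⟨n, rfl⟩ _ ⟨m, rfl⟩ h
    simp only [e] at h
    rw [b_inj h]
  · rintro _ ⟨n, rfl⟩; exact ⟨_, ⟨n, rfl⟩, by simp only [e]⟩
  · rintro _ ⟨n, rfl⟩ _ ⟨m, rfl⟩
    simp only [e]
    exact iso (by simp) (by simp)

open Polynomial in
theorem fin_lin {α β γ δ : ℝ} (h : ¬ (α = 0 ∧ β = 0 ∧ γ = 0)) :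
    {n : ℕ | α * b (n + 3) 0 + β * b (n + 3) 1 + γ * b (n + 3) 2 = δ}.Finite := by
  let P : ℝ[X] := C (α + β + γ) * (X ^ 2 * (X ^ 2 - 1)) + C (2 * (-α + β + γ)) * (X * (X - 1)) +
    C (-α + β - γ) * (X ^ 2 - 1) + C (2 * (α + β - γ)) * (X * (X + 1)) - C δ * (X * (X ^ 2 - 1))
  have hP : P ≠ 0 := fun h0 => by
    have h1 := congrArg (eval 0) h0
    have h2 := congrArg (eval 1) h0
    have h3 := congrArg (eval (-1)) h0
    simp only [P, eval_add, eval_sub, eval_mul, eval_C, eval_X, eval_pow, eval_one,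
      eval_zero] at h1 h2 h3
    exact h ⟨by linarith, by linarith, by linarith⟩
  refine ((finite_setOfPred_isRoot hP).preimage (f := fun n : ℕ => (n : ℝ) + 3)
    fun n _ m _ h => by simpa using h).subset fun n hn => ?_
  have h0 : (0 : ℝ) ≤ n := Nat.cast_nonneg n
  have h1 : (n : ℝ) + 3 + 1 ≠ 0 := by linarith
  have h2 : (n : ℝ) + 3 ≠ 0 := by linarith
  have h3 : (n : ℝ) + 3 - 1 ≠ 0 := by linarith
  simp only [mem_ofPred_eq, b, Matrix.cons_val_zero, Matrix.cons_val_one, Matrix.cons_val] at hn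
  simp only [mem_preimage, mem_ofPred_eq, IsRoot.def, P, eval_add, eval_sub, eval_mul, eval_C,
    eval_X, eval_pow, eval_one]
  rw [← hn]
  generalize (n : ℝ) + 3 = t at *
  field_simp; ring

theorem fin_plane (P : AffineSubspace ℝ (Fin 3 → ℝ)) (hP : IsPlane P) : (M' ∩ P).Finite := by
  rcases (M' ∩ P).eq_empty_or_nonempty with h | ⟨p, -, hp⟩
  · rw [h]; exact finite_empty
  have h1 : P.direction < ⊤ := lt_top_iff_ne_top.2 fun h => by
    have := hP
    rw [IsPlane, h] at this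
    simp at this
  obtain ⟨f, hf, hf'⟩ := Submodule.exists_le_ker_of_lt_top _ h1
  have e : ∀ x : Fin 3 → ℝ, f x = f (Pi.single 0 1) * x 0 + f (Pi.single 1 1) * x 1 +
      f (Pi.single 2 1) * x 2 := fun x => by
    rw [LinearMap.pi_apply_eq_sum_univ, Fin.sum_univ_three]
    have : ∀ i : Fin 3, (fun j => if i = j then (1 : ℝ) else 0) = Pi.single i 1 := fun i => by
      funext j; simp [Pi.single_apply, eq_comm]
    simp only [this, smul_eq_mul]; ring
  have h2 : ¬ (f (Pi.single 0 1) = 0 ∧ f (Pi.single 1 1) = 0 ∧ f (Pi.single 2 1) = 0) :=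
    fun ⟨a1, a2, a3⟩ => hf (LinearMap.ext fun x => by rw [e, a1, a2, a3]; simp)
  refine ((fin_lin (δ := f p) h2).image fun n : ℕ => b (n + 3)).subset ?_
  rintro _ ⟨⟨n, rfl⟩, hn⟩
  refine ⟨n, ?_, rfl⟩
  have := hf' (AffineSubspace.vsub_mem_direction hn hp)
  rw [LinearMap.mem_ker, vsub_eq_sub, map_sub, sub_eq_zero] at this
  rw [mem_ofPred_eq, ← e, this]

end Pool.Agent.H84.LpEx
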