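import Mathlib

/-! Luzin sets, and the Menger and Rothberger properties. -/

namespace Pool.Agent.H84.LuzDefs

open Set
open scoped Cardinal

/-- The least size of a family of meager subsets of the Cantor space that covers it. -/
noncomputable def covM : Cardinal.{0} :=
  sInf {κ | ∃ F : Set (Set (ℕ → Bool)), (∀ M ∈ F, IsMeagre M) ∧ ⋃₀ F = univ ∧ #F = κ}

/-- `κ`-Luzin sets. -/
def Luzin (κ : Cardinal.{0}) (X : Set (ℕ → Bool)) : Prop :=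
  κ ≤ #X ∧ ∀ M : Set (ℕ → Bool), IsMeagre M → #(X ∩ M : Set (ℕ → Bool)) < κ

/-- The Menger property. -/
def Menger (Z : Type) [TopologicalSpace Z] : Prop :=
  ∀ 𝒰 : ℕ → Set (Set Z), (∀ n, (∀ U ∈ 𝒰 n, IsOpen U) ∧ ⋃₀ 𝒰 n = univ) →
    ∃ ℱ : ℕ → Set (Set Z), (∀ n, (ℱ n).Finite ∧ ℱ n ⊆ 𝒰 n) ∧ ⋃ n, ⋃₀ ℱ n = univ

/-- The Rothberger property. -/
def Rothberger (Z : Type) [TopologicalSpace Z] : Prop :=
  ∀ 𝒰 : ℕ → Set (Set Z), (∀ n, (∀ U ∈ 𝒰 n, IsOpen U) ∧ ⋃₀ 𝒰 n = univ) →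
    ∃ U : ℕ → Set Z, (∀ n, U n ∈ 𝒰 n) ∧ ⋃ n, U n = univ

end Pool.Agent.H84.LuzDefs
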