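import Mathlib

set_option autoImplicit false

namespace Pool.Agent.H84.MagLin

open Matrix Finset MeasureTheory Filter Topology

variable {ι : Type*} [Fintype ι]

/-- quadratic form of a kernel -/
def Q (K : ι → ι → ℝ) (w : ι → ℝ) : ℝ := ∑ i, ∑ j, w i * w j * K i j

theorem Q_eq (K : Matrix ι ι ℝ) (w : ι → ℝ) : star w ⬝ᵥ K *ᵥ w = Q K w := by
  simp only [Q, dotProduct, mulVec, star_trivial, Finset.mul_sum]
  exact sum_congr rfl fun i _ => sum_congr rfl fun j _ => by ring

theorem psd_of {K : ι → ι → ℝ} (hs : ∀ i j, K i j = K j i) (h : ∀ w, 0 ≤ Q K w) :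
    (Matrix.of K).PosSemidef :=
  PosSemidef.of_dotProduct_mulVec_nonneg (by ext i j; simp [hs i j]) fun w => by
    rw [Q_eq]; exact h w

theorem pd_of {K : ι → ι → ℝ} (hs : ∀ i j, K i j = K j i) (h : ∀ w, w ≠ 0 → 0 < Q K w) :
    (Matrix.of K).PosDef :=
  PosDef.of_dotProduct_mulVec_pos (by ext i j; simp [hs i j]) fun w hw => by
    rw [Q_eq]; exact h w hw

theorem Q_nonneg {K : Matrix ι ι ℝ} (h : K.PosSemidef) (w : ι → ℝ) : 0 ≤ Q K w := by
  rw [← Q_eq]; exact h.dotProduct_mulVec_nonneg w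

theorem Q_mul {K L : ι → ι → ℝ} (hK : (Matrix.of K).PosSemidef) (hL : (Matrix.of L).PosSemidef)
    (w : ι → ℝ) : 0 ≤ Q (fun i j => K i j * L i j) w :=
  Q_nonneg (hK.hadamard hL) w

theorem Q_one (w : ι → ℝ) : Q (fun _ _ => 1) w = (∑ i, w i) ^ 2 := by
  simp [Q, sq, sum_mul_sum]

theorem psd_pow {G : ι → ι → ℝ} (hG : (Matrix.of G).PosSemidef) (k : ℕ) :
    (Matrix.of fun i j => G i j ^ k).PosSemidef := by
  induction k with
  | zero =>
    refine psd_of (fun _ _ => rfl) fun w => ?_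
    simp only [pow_zero]
    rw [Q_one]; positivity
  | succ k ih =>
    have : (Matrix.of fun i j => G i j ^ (k + 1)) =
        (Matrix.of fun i j => G i j ^ k) ⊙ Matrix.of G := by
      ext i j; simp [pow_succ]
    rw [this]; exact ih.hadamard hG

theorem hasSum_Q (K G : ι → ι → ℝ) (w : ι → ℝ) :
    HasSum (fun k : ℕ => Q (fun i j => K i j * G i j ^ k) w / k.factorial)
      (Q (fun i j => K i j * Real.exp (G i j)) w) := by
  simp only [Q, sum_div]
  refine hasSum_sum fun i _ => hasSum_sum fun j _ => ?_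
  have := ((NormedSpace.expSeries_div_hasSum_exp (G i j)).mul_left (K i j)).mul_left (w i * w j)
  rw [← Real.exp_eq_exp_ℝ] at this
  refine this.congr_fun fun k => ?_
  ring

/-- multiplying by the exponential of a semidefinite kernel increases the form -/
theorem Q_le_exp {K G : ι → ι → ℝ} (hK : (Matrix.of K).PosSemidef)
    (hG : (Matrix.of G).PosSemidef) (w : ι → ℝ) :
    Q K w ≤ Q (fun i j => K i j * Real.exp (G i j)) w := by
  have := le_hasSum (hasSum_Q K G w) 0 fun k _ =>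
    div_nonneg (Q_mul hK (psd_pow hG k) w) (Nat.cast_nonneg _)
  simpa using this

theorem Q_exp_pos {G : ι → ι → ℝ} (hG : (Matrix.of G).PosSemidef) {c : ℝ} (hc : 0 < c)
    (h1 : ∀ i, G i i = c) (h2 : ∀ i j, i ≠ j → |G i j| < c) {w : ι → ℝ} (hw : w ≠ 0) :
    0 < Q (fun i j => Real.exp (G i j)) w := by
  classical
  have h3 : Tendsto (fun k : ℕ => Q (fun i j => (G i j / c) ^ k) w) atTop
      (𝓝 (Q (fun i j => if i = j then 1 else 0) w)) := by
    refine tendsto_finsetSum _ fun i _ => tendsto_finsetSum _ fun j _ => Tendsto.const_mul _ ?_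
    beta_reduce
    split_ifs with h
    · subst h; simp [h1, hc.ne']
    · exact tendsto_pow_atTop_nhds_zero_of_abs_lt_one (by
        rw [abs_div, abs_of_pos hc, div_lt_one hc]; exact h2 i j h)
  have h4 : 0 < Q (fun i j => if i = j then 1 else 0) w := by
    obtain ⟨i, hi⟩ := Function.ne_iff.1 hw
    simp only [Q, mul_ite, mul_one, mul_zero, sum_ite_eq, mem_univ, if_true]
    exact sum_pos' (fun j _ => mul_self_nonneg _) ⟨i, mem_univ _, mul_self_pos.2 hi⟩
  obtain ⟨k, hk⟩ := (h3.eventually (lt_mem_nhds h4)).exists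
  have h5 : Q (fun i j => (G i j / c) ^ k) w = Q (fun i j => G i j ^ k) w / c ^ k := by
    simp only [Q, sum_div, div_pow, mul_div_assoc]
  rw [h5] at hk
  have h6 := hasSum_Q (fun _ _ => 1) G w
  simp only [one_mul] at h6
  refine lt_of_lt_of_le ?_ (le_hasSum h6 k fun k _ =>
    div_nonneg (Q_nonneg (psd_pow hG k) w) (Nat.cast_nonneg _))
  exact div_pos ((div_pos_iff_of_pos_right (pow_pos hc k)).1 hk) (by positivity)

open scoped symmDiff in
/-- cut kernels -/
theorem psd_cut {α : Type*} [MeasurableSpace α] (μ : Measure α) [IsFiniteMeasure μ]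
    (S : ι → Set α) (hS : ∀ i, MeasurableSet (S i)) :
    (Matrix.of fun i j => μ.real Set.univ / 2 - μ.real (S i ∆ S j)).PosSemidef := by
  refine psd_of (fun i j => by rw [symmDiff_comm]) fun w => ?_
  let σ : ι → α → ℝ := fun i a => 1 - 2 * (S i).indicator 1 a
  have h0 : ∀ i j, (fun a => σ i a * σ j a) = fun a => 1 - 2 * (S i ∆ S j).indicator 1 a := by
    intro i j; funext a
    by_cases h1 : a ∈ S i <;> by_cases h2 : a ∈ S j <;>
      simp [σ, Set.indicator, Set.mem_symmDiff, h1, h2] <;> norm_num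
  have hi : ∀ i j, Integrable ((S i ∆ S j).indicator (1 : α → ℝ)) μ := fun i j =>
    (integrable_const 1).indicator ((hS i).symmDiff (hS j))
  have h1 : ∀ i j, Integrable (fun a => σ i a * σ j a) μ := fun i j => by
    rw [h0]; exact (integrable_const 1).sub ((hi i j).const_mul 2)
  have h2 : ∀ i j, μ.real Set.univ / 2 - μ.real (S i ∆ S j) = (∫ a, σ i a * σ j a ∂μ) / 2 := by
    intro i j
    rw [h0, integral_sub (integrable_const 1) ((hi i j).const_mul 2), integral_const_mul,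
      integral_indicator_one ((hS i).symmDiff (hS j))]
    simp; ring
  have h3 : Q (fun i j => μ.real Set.univ / 2 - μ.real (S i ∆ S j)) w =
      (∫ a, (∑ i, w i * σ i a) ^ 2 ∂μ) / 2 := by
    simp only [Q, h2, sq, sum_mul_sum]
    rw [integral_finsetSum _ fun i _ => integrable_finsetSum _ fun j _ => by
      simpa only [mul_mul_mul_comm] using (h1 i j).const_mul (w i * w j), sum_div]
    refine sum_congr rfl fun i _ => ?_
    rw [integral_finsetSum _ fun j _ => by
      simpa only [mul_mul_mul_comm] using (h1 i j).const_mul (w i * w j), sum_div]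
    refine sum_congr rfl fun j _ => ?_
    simp only [mul_mul_mul_comm (w i), integral_const_mul]; ring
  rw [h3]
  exact div_nonneg (integral_nonneg fun a => sq_nonneg _) two_pos.le

variable [DecidableEq ι]

/-- sum of entries of the inverse -/
noncomputable def mag (Z : Matrix ι ι ℝ) : ℝ := ∑ i, ∑ j, Z⁻¹ i j

theorem exists_w {Z : Matrix ι ι ℝ} (hZ : Z.PosDef) :
    ∃ u : ι → ℝ, (∀ i, ∑ j, Z i j * u j = 1) ∧ ∑ i, u i = mag Z ∧ Q Z u = mag Z := by
  have h1 : Z *ᵥ (Z⁻¹ *ᵥ fun _ => 1) = fun _ => 1 := by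
    rw [mulVec_mulVec, mul_nonsing_inv _ ((isUnit_iff_isUnit_det _).1 hZ.isUnit), one_mulVec]
  have h2 : ∑ i, (Z⁻¹ *ᵥ fun _ => (1 : ℝ)) i = mag Z := by simp [mag, mulVec, dotProduct]
  refine ⟨Z⁻¹ *ᵥ fun _ => 1, fun i => congrFun h1 i, h2, ?_⟩
  rw [← Q_eq, h1, ← h2]; simp [dotProduct]

theorem le_mag {Z : Matrix ι ι ℝ} (hZ : Z.PosDef) (v : ι → ℝ) :
    2 * ∑ i, v i - Q Z v ≤ mag Z := by
  obtain ⟨u, h1, h2, h3⟩ := exists_w hZ
  have hs : ∀ i j, Z i j = Z j i := fun i j => by simpa using hZ.isHermitian.apply j i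
  have h4 := Q_nonneg hZ.posSemidef (v - u)
  have h5 : ∑ i, ∑ j, v i * u j * Z i j = ∑ i, v i := sum_congr rfl fun i _ => by
    conv_rhs => rw [← mul_one (v i), ← h1 i, mul_sum]
    exact sum_congr rfl fun j _ => by ring
  have h6 : ∑ i, ∑ j, u i * v j * Z i j = ∑ i, v i := by
    rw [sum_comm, ← h5]
    exact sum_congr rfl fun i _ => sum_congr rfl fun j _ => by rw [hs j i]; ring
  have h7 : Q Z (v - u) = Q Z v - ∑ i, ∑ j, v i * u j * Z i j - ∑ i, ∑ j, u i * v j * Z i j +
      Q Z u := by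
    simp only [Q, Pi.sub_apply, ← sum_sub_distrib, ← sum_add_distrib]
    exact sum_congr rfl fun i _ => sum_congr rfl fun j _ => by ring
  rw [h7, h5, h6, h3] at h4
  linarith

theorem mag_le {Z : Matrix ι ι ℝ} (hZ : Z.PosDef) {C : ℝ} (hC : 0 ≤ C)
    (h : ∀ w : ι → ℝ, (∑ i, w i) ^ 2 ≤ C * Q Z w) : mag Z ≤ C := by
  obtain ⟨u, -, h2, h3⟩ := exists_w hZ
  have := h u
  rw [h2, h3] at this
  by_contra hc
  nlinarith [not_le.1 hc]

omit [DecidableEq ι] in
/-- push forward of weights -/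
theorem push {κ : Type*} [Fintype κ] (y : κ → ι) (c : κ → ℝ) (K : ι → ι → ℝ) :
    ∃ v : ι → ℝ, ∑ i, v i = ∑ k, c k ∧ Q K v = Q (fun k l => K (y k) (y l)) c := by
  classical
  have key : ∀ f : ι → ℝ, ∑ i, (∑ k with y k = i, c k) * f i = ∑ k, c k * f (y k) := by
    intro f
    rw [← sum_fiberwise univ y]
    refine sum_congr rfl fun i _ => ?_
    rw [sum_mul]
    exact sum_congr rfl fun k hk => by rw [(mem_filter.1 hk).2]
  refine ⟨fun i => ∑ k with y k = i, c k, by simpa using key fun _ => 1, ?_⟩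
  simp only [Q, mul_assoc, ← mul_sum]
  rw [key]
  exact sum_congr rfl fun k _ => by rw [key]

end Pool.Agent.H84.MagLin
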