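import Mathlib
import Pool.Agent.H84.MagLin
import Pool.Agent.H84.Boch
import Pool.Agent.H84.Levy

set_option autoImplicit false
set_option linter.unusedSectionVars false

namespace Pool.Agent.H84.MagCont

open MeasureTheory Filter Topology Set Real MagLin
open scoped RealInnerProductSpace symmDiff

section lin
variable {ι : Type} [Fintype ι]

theorem Q_smul (K : ι → ι → ℝ) (t : ℝ) (u : ι → ℝ) : Q K (t • u) = t ^ 2 * Q K u := by
  simp only [Q, Pi.smul_apply, smul_eq_mul, Finset.mul_sum]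
  exact Finset.sum_congr rfl fun i _ => Finset.sum_congr rfl fun j _ => by ring

theorem Q_pos {Z : Matrix ι ι ℝ} (hZ : Z.PosDef) {u : ι → ℝ} (hu : u ≠ 0) : 0 < Q Z u := by
  rw [← Q_eq]; exact hZ.dotProduct_mulVec_pos hu

theorem sq_le_mag [DecidableEq ι] {Z : Matrix ι ι ℝ} (hZ : Z.PosDef) (v : ι → ℝ) :
    (∑ i, v i) ^ 2 ≤ mag Z * Q Z v := by
  by_cases hv : v = 0
  · simp [hv, Q]
  have h0 := Q_pos hZ hv
  have h1 := le_mag hZ (((∑ i, v i) / Q Z v) • v)
  rw [Q_smul] at h1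
  simp only [Pi.smul_apply, smul_eq_mul, ← Finset.mul_sum] at h1
  rw [← div_le_iff₀ h0]
  refine le_trans (le_of_eq ?_) h1
  field_simp; ring

theorem mag_nonneg [DecidableEq ι] {Z : Matrix ι ι ℝ} (hZ : Z.PosDef) : 0 ≤ mag Z := by
  simpa [Q] using le_mag hZ 0

theorem exists_lam {Z : Matrix ι ι ℝ} (hZ : Z.PosDef) :
    ∃ l : ℝ, 0 < l ∧ ∀ u : ι → ℝ, l * (∑ i, |u i|) ^ 2 ≤ Q Z u := by
  obtain ⟨c, hc, h⟩ := (isCompact_sphere (0 : ι → ℝ) 1).exists_forall_le' (f := Q Z) (a := 0)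
    (by unfold Q; fun_prop) fun u hu => Q_pos hZ (by rintro rfl; simp at hu)
  refine ⟨c / (Fintype.card ι ^ 2 + 1), by positivity, fun u => ?_⟩
  by_cases hu : u = 0
  · simp [hu, Q]
  have h0 : 0 < ‖u‖ := norm_pos_iff.2 hu
  have h1 := h (‖u‖⁻¹ • u) (by simp [norm_smul, h0.ne'])
  rw [Q_smul, inv_pow, le_inv_mul_iff₀ (by positivity)] at h1
  have h2 : ∑ i, |u i| ≤ Fintype.card ι * ‖u‖ := by
    refine (Finset.sum_le_sum fun i _ => norm_le_pi_norm u i).trans (le_of_eq ?_)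
    simp
  have h3 : (∑ i, |u i|) ^ 2 ≤ (Fintype.card ι ^ 2 + 1) * ‖u‖ ^ 2 := by
    refine (pow_le_pow_left₀ (by positivity) h2 2).trans ?_
    nlinarith [sq_nonneg ‖u‖]
  refine le_trans ?_ h1
  rw [div_mul_eq_mul_div, div_le_iff₀ (by positivity)]
  nlinarith

theorem Q_pert {K Z : ι → ι → ℝ} {ε : ℝ} (h : ∀ i j, |K i j - Z i j| ≤ ε) (u : ι → ℝ) :
    |Q K u - Q Z u| ≤ ε * (∑ i, |u i|) ^ 2 := by
  rw [sq, Finset.sum_mul_sum]
  simp only [Q, ← Finset.sum_sub_distrib, Finset.mul_sum]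
  refine (Finset.abs_sum_le_sum_abs _ _).trans (Finset.sum_le_sum fun i _ => ?_)
  refine (Finset.abs_sum_le_sum_abs _ _).trans (Finset.sum_le_sum fun j _ => ?_)
  rw [← mul_sub, abs_mul, abs_mul, mul_comm]
  exact mul_le_mul_of_nonneg_right (h i j) (by positivity)

theorem exp_lip {a b : ℝ} (ha : 0 ≤ a) (hb : 0 ≤ b) : |rexp (-a) - rexp (-b)| ≤ |a - b| := by
  have key : ∀ a b : ℝ, 0 ≤ a → rexp (-a) - rexp (-b) ≤ |a - b| := fun a b ha => by
    have h1 : rexp (-b) = rexp (-a) * rexp (a - b) := by rw [← exp_add]; congr 1; ring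
    have h2 : rexp (-a) ≤ 1 := exp_le_one_iff.2 (by linarith)
    have h3 := add_one_le_exp (a - b)
    have h4 := neg_abs_le (a - b)
    nlinarith [exp_pos (-a), abs_nonneg (a - b)]
  refine abs_sub_le_iff.2 ⟨key a b ha, ?_⟩
  rw [abs_sub_comm]; exact key b a hb

theorem cutQ {Ω : Type} [MeasurableSpace Ω] (ν : Measure Ω) (S : ι → Set Ω)
    (hS : ∀ i, MeasurableSet (S i)) {A : Set Ω} (hA : MeasurableSet A) (hA' : ν A ≠ ⊤)
    (hf : ∀ i j, ν (S i ∆ S j) ≠ ⊤)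
    (hK : (Matrix.of fun i j => rexp (-ν.real ((S i ∆ S j) \ A))).PosSemidef) (w : ι → ℝ) :
    Q (fun i j => rexp (-ν.real ((S i ∆ S j) \ A))) w ≤
      rexp (ν.real A / 2) * Q (fun i j => rexp (-ν.real (S i ∆ S j))) w := by
  have : IsFiniteMeasure (ν.restrict A) := isFiniteMeasure_restrict.2 hA'
  refine (Q_le_exp hK (psd_cut (ν.restrict A) S hS) w).trans (le_of_eq ?_)
  simp only [Q, Finset.mul_sum]
  refine Finset.sum_congr rfl fun i _ => Finset.sum_congr rfl fun j _ => ?_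
  rw [measureReal_restrict_apply ((hS i).symmDiff (hS j)), measureReal_restrict_apply_univ,
    ← measureReal_inter_add_sdiff (s := S i ∆ S j) hA (hf i j), mul_left_comm (rexp _), ← exp_add,
    ← exp_add]
  congr 2; ring

end lin

variable {V : Type} [NormedAddCommGroup V] [InnerProductSpace ℝ V] [FiniteDimensional ℝ V]
  [MeasurableSpace V] [BorelSpace V]

def S (x : V) : Set (V × ℝ) := {p | p.2 < ⟪x, p.1⟫}

theorem S_meas (x : V) : MeasurableSet (S x) := measurableSet_lt (by fun_prop) (by fun_prop)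

theorem prod_eq (μ : Measure V) {B : Set (V × ℝ)} (hB : MeasurableSet B) {g : V → ℝ}
    (hg : Integrable g μ) (h0 : ∀ ξ, 0 ≤ g ξ)
    (h : ∀ ξ, volume (Prod.mk ξ ⁻¹' B) = ENNReal.ofReal (g ξ)) :
    μ.prod volume B = ENNReal.ofReal (∫ ξ, g ξ ∂μ) := by
  rw [Measure.prod_apply hB, ofReal_integral_eq_lintegral_ofReal hg (.of_forall h0)]
  exact lintegral_congr h

theorem S_eq (μ : Measure V) (hμ : Integrable (fun ξ => ‖ξ‖) μ) (x y : V) :
    μ.prod volume (S x ∆ S y) = ENNReal.ofReal (∫ ξ, |⟪x - y, ξ⟫| ∂μ) := by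
  refine prod_eq μ ((S_meas x).symmDiff (S_meas y)) ((hμ.const_mul ‖x - y‖).mono' (by fun_prop)
    (.of_forall fun ξ => by
      rw [Real.norm_of_nonneg (abs_nonneg _)]; exact abs_real_inner_le_norm _ ξ))
    (fun _ => abs_nonneg _) fun ξ => ?_
  have : Prod.mk ξ ⁻¹' (S x ∆ S y) = Ico (min ⟪x, ξ⟫ ⟪y, ξ⟫) (max ⟪x, ξ⟫ ⟪y, ξ⟫) := by
    ext τ
    simp only [S, mem_preimage, Set.mem_symmDiff, mem_ofPred_eq, not_lt, mem_Ico, min_le_iff,
      lt_max_iff]
    grind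
  rw [this, Real.volume_Ico, max_sub_min_eq_abs', inner_sub_left]

def B (δ : ℝ) (x : V) : Set (V × ℝ) := {p | |p.2 - ⟪x, p.1⟫| ≤ δ * ‖p.1‖}

theorem B_meas (δ : ℝ) (x : V) : MeasurableSet (B δ x) :=
  measurableSet_le (by fun_prop) (by fun_prop)

theorem B_eq (μ : Measure V) (hμ : Integrable (fun ξ => ‖ξ‖) μ) {δ : ℝ} (hδ : 0 ≤ δ) (x : V) :
    μ.prod volume (B δ x) = ENNReal.ofReal (∫ ξ, 2 * (δ * ‖ξ‖) ∂μ) := by
  refine prod_eq μ (B_meas δ x) ((hμ.const_mul δ).const_mul 2) (fun _ => by positivity) fun ξ => ?_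
  have : Prod.mk ξ ⁻¹' B δ x = Metric.closedBall ⟪x, ξ⟫ (δ * ‖ξ‖) := rfl
  rw [this, Real.volume_closedBall]

theorem S_iff {δ : ℝ} {x y : V} (h : ‖y - x‖ ≤ δ) {p : V × ℝ} (hp : p ∉ B δ x) :
    p ∈ S y ↔ p ∈ S x := by
  have h1 : |⟪y, p.1⟫ - ⟪x, p.1⟫| ≤ δ * ‖p.1‖ := by
    rw [← inner_sub_left]
    exact (abs_real_inner_le_norm _ _).trans (by gcongr)
  simp only [B, mem_ofPred_eq, not_le, lt_abs, S] at hp ⊢
  rw [abs_le] at h1
  have : 0 ≤ δ * ‖p.1‖ := by linarith [h1.1, h1.2]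
  rcases hp with hp | hp <;> constructor <;> intro <;> linarith [h1.1, h1.2]

theorem upper {N : V → ℝ} {μ : ℕ → Measure V} {C : ℝ} (m1 : ∀ k, IsFiniteMeasure (μ k))
    (m2 : ∀ k, Integrable (fun ξ => ‖ξ‖) (μ k)) (m3 : ∀ᶠ k in atTop, ∫ ξ, ‖ξ‖ ∂μ k ≤ C)
    (m4 : ∀ x, Tendsto (fun k => ∫ ξ, |⟪x, ξ⟫| ∂μ k) atTop (𝓝 (N x)))
    {κ : Type} [Fintype κ] [DecidableEq κ] (x : κ → V)
    (hx : (Matrix.of fun k l => rexp (-N (x k - x l))).PosDef) {ε : ℝ} (hε : 0 < ε) :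
    ∃ δ : ℝ, 0 < δ ∧ ∀ (ι : Type) [Fintype ι] (y : ι → V) (p : ι → κ),
      (∀ i, ‖y i - x (p i)‖ ≤ δ) → ∀ w : ι → ℝ, (∑ i, w i) ^ 2 ≤
        (mag (Matrix.of fun k l => rexp (-N (x k - x l))) + ε) *
          Q (fun i j => rexp (-N (y i - y j))) w := by
  set Z := Matrix.of fun k l => rexp (-N (x k - x l)) with hZ
  obtain ⟨l, l0, hl⟩ := exists_lam hx
  have M0 := mag_nonneg hx
  have N0 : ∀ z, 0 ≤ N z := fun z =>
    ge_of_tendsto' (m4 z) fun k => integral_nonneg fun _ => abs_nonneg _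
  obtain ⟨η, ⟨e1, e2⟩, η0⟩ : ∃ η : ℝ, (mag Z * rexp (η / 2) < (mag Z + ε) * (1 - 2 * η / l) ∧
      0 < 1 - 2 * η / l) ∧ 0 < η := by
    have a1 : ∀ᶠ η in 𝓝 (0 : ℝ), mag Z * rexp (η / 2) < (mag Z + ε) * (1 - 2 * η / l) :=
      ContinuousAt.eventually_lt (by fun_prop) (by fun_prop) (by simpa)
    have a2 : ∀ᶠ η in 𝓝 (0 : ℝ), 0 < 1 - 2 * η / l :=
      ContinuousAt.eventually_lt (by fun_prop) (by fun_prop) (by simp)
    exact (((a1.and a2).filter_mono nhdsWithin_le_nhds).and self_mem_nhdsWithin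
      (f := 𝓝[>] (0 : ℝ))).exists
  set δ := η / (2 * (Fintype.card κ + 1) * (|C| + 1)) with hδ
  have δ0 : 0 < δ := by positivity
  refine ⟨δ, δ0, fun ι _ y p hp w => ?_⟩
  have lim : Tendsto (fun k => (mag Z + ε) * Q (fun i j => rexp (-∫ ξ, |⟪y i - y j, ξ⟫| ∂μ k)) w)
      atTop (𝓝 ((mag Z + ε) * Q (fun i j => rexp (-N (y i - y j))) w)) :=
    (tendsto_finsetSum _ fun i _ => tendsto_finsetSum _ fun j _ =>
      ((m4 _).neg.rexp.const_mul _)).const_mul _
  refine ge_of_tendsto lim ?_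
  have ev : ∀ᶠ k in atTop, ∀ a b, |∫ ξ, |⟪x a - x b, ξ⟫| ∂μ k - N (x a - x b)| < η :=
    eventually_all.2 fun a => eventually_all.2 fun b => Metric.tendsto_nhds.1 (m4 _) η η0
  filter_upwards [m3, ev] with k k1 k2
  let ν := (μ k).prod (volume : Measure ℝ)
  have r1 : ∀ a b : V, ν.real (S a ∆ S b) = ∫ ξ, |⟪a - b, ξ⟫| ∂μ k := fun a b => by
    rw [Measure.real, S_eq _ (m2 k), ENNReal.toReal_ofReal (integral_nonneg fun _ => abs_nonneg _)]
  have f1 : ∀ a b : V, ν (S a ∆ S b) ≠ ⊤ := fun a b => by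
    rw [S_eq _ (m2 k)]; exact ENNReal.ofReal_ne_top
  let A : Set (V × ℝ) := ⋃ a, B δ (x a)
  have A1 : MeasurableSet A := MeasurableSet.iUnion fun a => B_meas _ _
  have A2 : ν A ≠ ⊤ := ((measure_iUnion_fintype_le ν _).trans_lt (ENNReal.sum_lt_top.2 fun a _ => by
    rw [B_eq _ (m2 k) δ0.le]; exact ENNReal.ofReal_lt_top)).ne
  have A3 : ν.real A ≤ η := by
    refine (measureReal_iUnion_fintype_le _).trans ?_
    have : ∀ a, ν.real (B δ (x a)) ≤ 2 * (δ * (|C| + 1)) := fun a => by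
      rw [Measure.real, B_eq _ (m2 k) δ0.le,
        ENNReal.toReal_ofReal (integral_nonneg fun _ => by positivity), integral_const_mul,
        integral_const_mul]
      gcongr
      linarith [le_abs_self C]
    refine (Finset.sum_le_sum fun a _ => this a).trans ?_
    rw [Finset.sum_const, Finset.card_univ, nsmul_eq_mul]
    have e : (Fintype.card κ + 1) * (2 * (δ * (|C| + 1))) = η := by rw [hδ]; field_simp
    have : 0 ≤ 2 * (δ * (|C| + 1)) := by positivity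
    linarith
  let K : κ → κ → ℝ := fun a b => rexp (-ν.real ((S (x a) ∆ S (x b)) \ A))
  have K1 : ∀ a b, |K a b - Z a b| ≤ 2 * η := fun a b => by
    refine (exp_lip measureReal_nonneg (N0 _)).trans ?_
    have h1 := measureReal_inter_add_sdiff (s := S (x a) ∆ S (x b)) A1 (f1 _ _)
    have h2 : ν.real (S (x a) ∆ S (x b) ∩ A) ≤ ν.real A := measureReal_mono inter_subset_right A2
    have h3 : 0 ≤ ν.real (S (x a) ∆ S (x b) ∩ A) := measureReal_nonneg
    have h4 := abs_lt.1 (k2 a b)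
    rw [r1] at h1
    rw [abs_le]; constructor <;> linarith [h4.1, h4.2]
  have K2 : ∀ v, (1 - 2 * η / l) * Q Z v ≤ Q K v := fun v => by
    have h1 := (abs_le.1 (Q_pert K1 v)).1
    have h2 : 2 * η * (∑ i, |v i|) ^ 2 ≤ 2 * η / l * Q Z v := by
      refine le_trans (le_of_eq ?_) (mul_le_mul_of_nonneg_left (hl v) (by positivity))
      field_simp
    change _ ≤ Q K v - Q Z v at h1
    linarith
  have K3 : (Matrix.of K).PosSemidef := psd_of (fun a b => by simp only [K, symmDiff_comm])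
    fun v => (mul_nonneg e2.le (Q_nonneg hx.posSemidef v)).trans (K2 v)
  have K4 : (fun i j => rexp (-ν.real ((S (y i) ∆ S (y j)) \ A))) = fun i j => K (p i) (p j) := by
    funext i j
    simp only [K]
    congr 3
    ext q
    have : ∀ i, q ∉ A → (q ∈ S (y i) ↔ q ∈ S (x (p i))) := fun i hq =>
      S_iff (hp i) fun h => hq (mem_iUnion.2 ⟨_, h⟩)
    simp only [Set.mem_sdiff, Set.mem_symmDiff]
    exact and_congr_left fun hq => by rw [this i hq, this j hq]
  have K5 := cutQ ν (fun i => S (y i)) (fun i => S_meas _) A1 A2 (fun i j => f1 _ _)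
    (by rw [K4]; exact K3.submatrix p) w
  obtain ⟨v, v1, v2⟩ := push p w K
  simp only [r1] at K5
  rw [K4, ← v2] at K5
  set q := Q (fun i j => rexp (-∫ ξ, |⟪y i - y j, ξ⟫| ∂μ k)) w
  have q0 : 0 ≤ q := (mul_nonneg_iff_of_pos_left (exp_pos _)).1 ((Q_nonneg K3 v).trans K5)
  have h1 := sq_le_mag hx v
  have h2 : rexp (ν.real A / 2) * q ≤ rexp (η / 2) * q := by gcongr
  rw [← v1]
  refine le_of_mul_le_mul_left ?_ e2
  calc (1 - 2 * η / l) * (∑ i, v i) ^ 2 ≤ (1 - 2 * η / l) * (mag Z * Q Z v) := by gcongr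
    _ = mag Z * ((1 - 2 * η / l) * Q Z v) := by ring
    _ ≤ mag Z * (rexp (η / 2) * q) :=
        mul_le_mul_of_nonneg_left ((K2 v).trans (K5.trans h2)) M0
    _ = mag Z * rexp (η / 2) * q := by ring
    _ ≤ (mag Z + ε) * (1 - 2 * η / l) * q := by gcongr
    _ = _ := by ring

theorem int_exp {N : V → ℝ} (hN : Continuous N) {c : ℝ} (hc : 0 < c) (h : ∀ x, c * ‖x‖ ≤ N x) :
    Integrable fun x => rexp (-N x) := by
  set k := Module.finrank ℝ V + 1 with hk
  refine ((integrable_one_add_norm (E := V) (μ := volume) (r := k) (by simp [hk])).const_mul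
    (rexp c * k.factorial / c ^ k)).mono' (by fun_prop) (.of_forall fun x => ?_)
  have h1 := pow_div_factorial_le_exp (c * (1 + ‖x‖)) (by positivity) k
  rw [Real.norm_of_nonneg (exp_pos _).le, rpow_neg (by positivity), rpow_natCast]
  refine (exp_le_exp.2 (neg_le_neg (h x))).trans ?_
  rw [mul_add, mul_one, exp_add, ← mul_one_add, mul_pow, div_le_iff₀ (by positivity)] at h1
  rw [exp_neg]
  field_simp
  linarith

theorem main (U : Type) [NormedAddCommGroup U] [NormedSpace ℝ U] [FiniteDimensional ℝ U]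
    (h : ∀ X : Finset U, (Matrix.of fun (x y : X) => rexp (-‖(x : U) - (y : U)‖)).PosDef)
    (X : Finset U) [DecidableEq X] {ε : ℝ} (hε : 0 < ε) :
    ∃ δ : ℝ, 0 < δ ∧ ∀ (Y : Finset U) (p : Y → X), (∀ y : Y, ‖(y : U) - p y‖ ≤ δ) →
      ∀ w : Y → ℝ, (∑ i, w i) ^ 2 ≤
        (mag (Matrix.of fun (x y : X) => rexp (-‖(x : U) - (y : U)‖)) + ε) *
          Q (fun x y : Y => rexp (-‖(x : U) - (y : U)‖)) w := by
  classical
  let L := toEuclidean (E := U)
  let N : Seminorm ℝ (EuclideanSpace ℝ (Fin (Module.finrank ℝ U))) :=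
    (normSeminorm ℝ U).comp L.symm.toLinearEquiv.toLinearMap
  have hN : ∀ v, N v = ‖L.symm v‖ := fun _ => rfl
  have hN' : ∀ a b : U, N (L a - L b) = ‖a - b‖ := fun a b => by rw [hN, ← map_sub]; simp
  have c0 : 0 < ‖L.toContinuousLinearMap‖ + 1 := by positivity
  have hL : ∀ u, ‖L u‖ ≤ (‖L.toContinuousLinearMap‖ + 1) * ‖u‖ := fun u =>
    (L.toContinuousLinearMap.le_opNorm u).trans (by gcongr; linarith)
  have ex : ∃ (μ : ℕ → Measure (EuclideanSpace ℝ (Fin (Module.finrank ℝ U)))) (C : ℝ),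
      (∀ k, IsFiniteMeasure (μ k)) ∧ (∀ k, Integrable (fun ξ => ‖ξ‖) (μ k)) ∧
      (∀ᶠ k in atTop, ∫ ξ, ‖ξ‖ ∂μ k ≤ C) ∧
      ∀ x, Tendsto (fun k => ∫ ξ, |⟪x, ξ⟫| ∂μ k) atTop (𝓝 (N x)) := by
    rcases subsingleton_or_nontrivial U with hU | hU
    · exact ⟨0, 0, fun _ => by simp; infer_instance, by simp, by simp, fun x => by
        simp [hN, Subsingleton.elim (L.symm x) 0]⟩
    have cN : Continuous N := by
      change Continuous fun v => ‖L.symm v‖
      fun_prop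
    obtain ⟨P, hP, hP'⟩ := Boch.bochner (F := fun x => rexp (-N x)) (by fun_prop)
      (int_exp cN (inv_pos.2 c0) fun x => by
        rw [inv_mul_le_iff₀ c0, hN]; simpa using hL (L.symm x)) (C := 1)
      (fun x => by
        rw [abs_of_pos (exp_pos _), exp_le_one_iff, neg_nonpos]; exact apply_nonneg N x)
      (fun x => by simp only [map_neg_eq_map]) (fun A w => by
        have := Q_nonneg (h (A.map L.symm.toEquiv.toEmbedding)).posSemidef fun a => w (L a)
        simp only [Q, Matrix.of_apply] at this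
        rw [Finset.sum_coe_sort _ fun a => ∑ b : A.map L.symm.toEquiv.toEmbedding,
          w (L a) * w (L b) * rexp (-‖a - (b : U)‖), Finset.sum_map] at this
        refine this.trans_eq (Finset.sum_congr rfl fun a _ => ?_)
        rw [Finset.sum_coe_sort _ fun b => w (L (L.symm.toEquiv.toEmbedding a)) * w (L b) *
          rexp (-‖L.symm.toEquiv.toEmbedding a - b‖), Finset.sum_map]
        simp [hN])
    have : IsProbabilityMeasure P := by
      have := hP' 0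
      rw [smul_zero, charFun_zero, map_zero, neg_zero, exp_zero] at this
      exact isProbabilityMeasure_iff_real.2 (by exact_mod_cast this)
    obtain ⟨u, hu⟩ := exists_norm_eq U zero_le_one
    exact Levy.levy hP' (e := L u) (by simp [hN, hu]) fun x hx => by simpa [hN] using hx
  obtain ⟨μ, C, m1, m2, m3, m4⟩ := ex
  obtain ⟨δ, δ0, hδ⟩ := upper m1 m2 m3 m4 (fun x : X => L x) (by simpa only [hN'] using h X) hε
  refine ⟨δ / (‖L.toContinuousLinearMap‖ + 1), by positivity, fun Y p hp w => ?_⟩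
  have := hδ Y (fun y => L y) p (fun y => by
    rw [← map_sub]
    exact (hL _).trans ((le_div_iff₀' c0).1 (hp y))) w
  simpa only [hN'] using this

theorem near {U : Type} [NormedAddCommGroup U] {X Y : Finset U} (hX : X.Nonempty) (hY : Y.Nonempty)
    {δ : ℝ} (h : Metric.hausdorffDist (X : Set U) (Y : Set U) < δ) :
    ∃ p : X → Y, ∀ x : X, ‖(x : U) - p x‖ ≤ δ := by
  have : ∀ x : X, ∃ y : Y, ‖(x : U) - y‖ ≤ δ := fun x => by
    obtain ⟨y, hy, h'⟩ := Metric.exists_dist_lt_of_hausdorffDist_lt (Finset.mem_coe.2 x.2) h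
      (Metric.hausdorffEDist_ne_top_of_nonempty_of_bounded hX hY X.finite_toSet.isBounded
        Y.finite_toSet.isBounded)
    exact ⟨⟨y, hy⟩, by rw [← dist_eq_norm]; exact h'.le⟩
  choose p hp using this
  exact ⟨p, hp⟩

open Classical in
theorem final (U : Type) [NormedAddCommGroup U] [NormedSpace ℝ U] [FiniteDimensional ℝ U]
    (h : ∀ X : Finset U, (Matrix.of fun (x y : X) => rexp (-‖(x : U) - (y : U)‖)).PosDef)
    (X : Finset U) (hX : X.Nonempty) (ε : ℝ) (hε : 0 < ε) :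
    ∃ δ : ℝ, 0 < δ ∧ ∀ Y : Finset U, Y.Nonempty →
      Metric.hausdorffDist (X : Set U) (Y : Set U) < δ →
      |mag (Matrix.of fun (x y : Y) => rexp (-‖(x : U) - (y : U)‖)) -
        mag (Matrix.of fun (x y : X) => rexp (-‖(x : U) - (y : U)‖))| < ε := by
  obtain ⟨δ, δ0, hδ⟩ := main U h X (half_pos hε)
  obtain ⟨u, -, u1, u2⟩ := exists_w (h X)
  set s := (∑ i, |u i|) ^ 2 with hs
  have s0 : 0 ≤ s := sq_nonneg _
  refine ⟨min δ (ε / (4 * (s + 1))), by positivity, fun Y hY hd => ?_⟩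
  obtain ⟨p, hp⟩ := near hY hX (by rw [Metric.hausdorffDist_comm]; exact hd.trans_le (min_le_left _ _))
  obtain ⟨q, hq⟩ := near hX hY (hd.trans_le (min_le_right _ _))
  have h1 := mag_le (h Y) (add_nonneg (mag_nonneg (h X)) (half_pos hε).le) (hδ Y p hp)
  obtain ⟨v, v1, v2⟩ := push q u fun x y : Y => rexp (-‖(x : U) - (y : U)‖)
  have h2 := le_mag (h Y) v
  have h3 := Q_pert (K := fun k l : X => rexp (-‖(q k : U) - q l‖))
    (Z := fun k l : X => rexp (-‖(k : U) - l‖)) (ε := 2 * (ε / (4 * (s + 1)))) (fun k l => by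
      refine (exp_lip (norm_nonneg _) (norm_nonneg _)).trans ((abs_norm_sub_norm_le _ _).trans ?_)
      have : (q k : U) - q l - (k - l) = (l - q l) - (k - q k) := by abel
      rw [this]
      linarith [norm_sub_le ((l : U) - q l) (k - q k), hq k, hq l]) u
  have h4 : 2 * (ε / (4 * (s + 1))) * s ≤ ε / 2 := by
    rw [← mul_div_assoc, div_mul_eq_mul_div, div_le_div_iff₀ (by positivity) two_pos]
    nlinarith
  have h5 := (abs_le.1 h3).2
  change Q (Matrix.of fun (x y : Y) => rexp (-‖(x : U) - (y : U)‖)) v = _ at v2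
  change _ - Q (Matrix.of fun (x y : X) => rexp (-‖(x : U) - (y : U)‖)) u ≤ _ at h5
  rw [abs_lt]; constructor <;> linarith

end Pool.Agent.H84.MagCont
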