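import Mathlib

set_option autoImplicit false

namespace Pool.Agent.H84.MagDefs

open Classical

variable {X : Type} [MetricSpace X]

/-- the similarity matrix of a finite subset -/
noncomputable def simMat (A : Finset X) : Matrix A A ℝ :=
  Matrix.of fun x y => Real.exp (-dist (x : X) (y : X))

/-- magnitude of a finite subset: the sum of the entries of the inverse similarity matrix -/
noncomputable def magFin (A : Finset X) : ℝ := ∑ i, ∑ j, (simMat A)⁻¹ i j

/-- the magnitudes of the nonempty finite subsets of `K` -/
def magSet (K : Set X) : Set ℝ := {r | ∃ A : Finset X, A.Nonempty ∧ ↑A ⊆ K ∧ r = magFin A}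

/-- magnitude of a compact subset -/
noncomputable def magCmp (K : Set X) : ℝ := sSup (magSet K)

/-- tractable spaces: positive definite, Heine-Borel, closed balls of finite magnitude -/
def Tractable (X : Type) [MetricSpace X] : Prop :=
  (∀ A : Finset X, A.Nonempty → (simMat A).PosDef) ∧
  (∀ s : Set X, IsClosed s → Bornology.IsBounded s → IsCompact s) ∧
  ∀ (x : X) (r : ℝ), BddAbove (magSet (Metric.closedBall x r))

/-- continuity of magnitude on nonempty finite subsets for the Hausdorff distance -/
def ContFin (X : Type) [MetricSpace X] : Prop :=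
  ∀ A : Finset X, A.Nonempty → ∀ ε : ℝ, 0 < ε → ∃ δ : ℝ, 0 < δ ∧ ∀ B : Finset X, B.Nonempty →
    Metric.hausdorffDist (A : Set X) (B : Set X) < δ → |magFin B - magFin A| < ε

/-- continuity of magnitude on nonempty compact subsets for the Hausdorff distance -/
def ContCmp (X : Type) [MetricSpace X] : Prop :=
  ∀ K : Set X, K.Nonempty → IsCompact K → ∀ ε : ℝ, 0 < ε → ∃ δ : ℝ, 0 < δ ∧
    ∀ L : Set X, L.Nonempty → IsCompact L →
      Metric.hausdorffDist K L < δ → |magCmp L - magCmp K| < ε

/-- the space `L_1([0,1], ℝ)` -/
abbrev L1 : Type := MeasureTheory.Lp ℝ 1 (MeasureTheory.volume.restrict (Set.Icc (0 : ℝ) 1))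

end Pool.Agent.H84.MagDefs
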