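import Mathlib
import Pool.Agent.H84.MagDefs
import Pool.Agent.H84.MagLin

set_option autoImplicit false

namespace Pool.Agent.H84.MagEx

open Classical MagDefs MagLin MeasureTheory Set Filter Topology
open scoped symmDiff

theorem magFin_le {X : Type} [MetricSpace X] {A : Finset X} (hZ : (simMat A).PosDef) {C : ℝ}
    (hC : 0 ≤ C) (h : ∀ w : A → ℝ, (∑ i, w i) ^ 2 ≤ C * Q (simMat A) w) : magFin A ≤ C :=
  mag_le hZ hC h

theorem le_magFin {X : Type} [MetricSpace X] {A : Finset X} (hZ : (simMat A).PosDef) (v : A → ℝ) :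
    2 * ∑ i, v i - Q (simMat A) v ≤ magFin A :=
  le_mag hZ v

noncomputable abbrev μ : Measure ℝ := volume.restrict (Icc (0 : ℝ) 1)

noncomputable def S (p : ℕ × ℕ) : Set ℝ :=
  if p.2 < p.1 + 3 then Ico ((p.2 : ℝ) / (p.1 + 3)) ((p.2 + 1) / (p.1 + 3)) else ∅

theorem S_meas (p : ℕ × ℕ) : MeasurableSet (S p) := by
  unfold S; split_ifs
  · exact measurableSet_Ico
  · exact MeasurableSet.empty

theorem S_real (p : ℕ × ℕ) : μ.real (S p) = if p.2 < p.1 + 3 then 1 / ((p.1 : ℝ) + 3) else 0 := by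
  unfold S; split_ifs with h
  · have h0 : (0 : ℝ) < p.1 + 3 := by positivity
    have h1 : (p.2 : ℝ) + 1 ≤ p.1 + 3 := by exact_mod_cast h
    rw [measureReal_restrict_apply measurableSet_Ico, inter_eq_left.2, Real.volume_real_Ico_of_le]
    · ring
    · gcongr; linarith
    · intro a ha
      exact ⟨le_trans (by positivity) ha.1, ha.2.le.trans ((div_le_one h0).2 h1)⟩
  · simp

theorem S_le (p : ℕ × ℕ) : μ.real (S p) ≤ 1 / ((p.1 : ℝ) + 3) := by
  rw [S_real]; split_ifs
  · rfl
  · positivity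

noncomputable def x (p : ℕ × ℕ) : L1 := indicatorConstLp 1 (S_meas p) (measure_ne_top _ _) (1 : ℝ)

theorem dist_x (p q : ℕ × ℕ) : dist (x p) (x q) = μ.real (S p ∆ S q) := by
  unfold x
  rw [dist_indicatorConstLp_eq_norm, norm_indicatorConstLp (by simp) (by simp)]
  simp

theorem S0 : S (0, 3) = ∅ := by simp [S]

theorem dist_x0 (p : ℕ × ℕ) : dist (x p) (x (0, 3)) = μ.real (S p) := by
  rw [dist_x, S0]; simp [← bot_eq_empty]

def T : Set L1 := range x

theorem T_compact : IsCompact T := by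
  have h : Tendsto x cofinite (𝓝 (x (0, 3))) := by
    rw [Metric.tendsto_nhds]
    intro ε hε
    obtain ⟨M, hM⟩ := exists_nat_one_div_lt hε
    refine ((finite_Iio M).prod (finite_Iio (M + 3))).subset fun p hp => ?_
    simp only [mem_compl_iff, mem_ofPred_eq, dist_x0, S_real, not_lt] at hp
    split_ifs at hp with h
    · have h1 : p.1 < M := by
        by_contra hc
        have h2 : (M : ℝ) ≤ p.1 := by exact_mod_cast not_lt.1 hc
        have : 1 / ((p.1 : ℝ) + 3) ≤ 1 / (M + 1) := by gcongr; linarith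
        linarith
      exact ⟨h1, by simp only [mem_Iio]; omega⟩
    · linarith
  have := h.isCompact_insert_range_of_cofinite
  rwa [insert_eq_of_mem (mem_range_self _)] at this

instance : CompactSpace T := isCompact_iff_compactSpace.1 T_compact

theorem dist_lt (a b : T) : dist a b < 1 := by
  obtain ⟨_, p, rfl⟩ := a
  obtain ⟨_, q, rfl⟩ := b
  change dist (x p) (x q) < 1
  have h1 := dist_triangle_right (x p) (x q) (x (0, 3))
  rw [dist_x0, dist_x0] at h1
  have h2 : ∀ r : ℕ × ℕ, μ.real (S r) ≤ 1 / 3 := fun r => (S_le r).trans (by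
    gcongr; linarith [(Nat.cast_nonneg r.1 : (0 : ℝ) ≤ _)])
  linarith [h2 p, h2 q]

theorem G_psd (A : Finset T) :
    (Matrix.of fun a b : A => 1 / 2 - dist (a : T) (b : T)).PosSemidef := by
  have := psd_cut μ (fun a : A => S (a : T).2.choose) fun a => S_meas _
  have e : (fun a b : A => 1 / 2 - dist (a : T) (b : T)) = fun a b : A =>
      μ.real univ / 2 - μ.real (S (a : T).2.choose ∆ S (b : T).2.choose) := by
    funext a b
    rw [← dist_x, (a : T).2.choose_spec, (b : T).2.choose_spec]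
    simp [Subtype.dist_eq]
  rw [e]; exact this

theorem Q_sim (A : Finset T) (w : A → ℝ) :
    Q (simMat A) w =
      Real.exp (-(1 / 2)) * Q (fun a b : A => Real.exp (1 / 2 - dist (a : T) (b : T))) w := by
  simp only [Q, simMat, Matrix.of_apply, Finset.mul_sum]
  refine Finset.sum_congr rfl fun a _ => Finset.sum_congr rfl fun b _ => ?_
  rw [mul_left_comm, ← Real.exp_add]; congr 2; ring

theorem sim_pd (A : Finset T) : (simMat A).PosDef := by
  refine pd_of (fun a b => by rw [dist_comm]) fun w hw => ?_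
  change 0 < Q (simMat A) w
  rw [Q_sim]
  refine mul_pos (Real.exp_pos _) (Q_exp_pos (G_psd A) (c := 1 / 2) (by norm_num)
    (fun a => by simp) (fun a b hab => ?_) hw)
  have h1 := dist_lt (a : T) b
  have h2 : 0 < dist (a : T) b := dist_pos.2 fun h => hab (Subtype.ext h)
  rw [abs_lt]; constructor <;> linarith

theorem mag_bdd (A : Finset T) : magFin A ≤ Real.exp (1 / 2) := by
  refine magFin_le (sim_pd A) (Real.exp_pos _).le fun w => ?_
  have h1 : (Matrix.of fun _ _ : A => (1 : ℝ)).PosSemidef :=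
    psd_of (fun _ _ => rfl) fun w => by rw [Q_one]; positivity
  have := Q_le_exp h1 (G_psd A) w
  rw [Q_one] at this
  rw [Q_sim, ← mul_assoc, ← Real.exp_add]
  simpa using this

theorem magSet_bdd (K : Set T) : BddAbove (magSet K) :=
  ⟨Real.exp (1 / 2), by rintro _ ⟨A, -, -, rfl⟩; exact mag_bdd A⟩

theorem tract : Tractable T :=
  ⟨fun A _ => sim_pd A, fun _ hs _ => hs.isCompact, fun _ _ => magSet_bdd _⟩

noncomputable def o : T := ⟨x (0, 3), mem_range_self _⟩

theorem mag_o : magFin ({o} : Finset T) ≤ 1 := by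
  refine magFin_le (sim_pd _) zero_le_one fun w => ?_
  simp [Q, simMat, sq]

noncomputable def y (n : ℕ) : Option (Fin (n + 3)) → T
  | none => o
  | some j => ⟨x (n, j), mem_range_self _⟩

noncomputable def A (n : ℕ) : Finset T := Finset.univ.image (y n)

theorem dist_y0 (n : ℕ) (j : Fin (n + 3)) : dist (y n (some j)) o = 1 / ((n : ℝ) + 3) := by
  change dist (x (n, j)) (x (0, 3)) = _
  rw [dist_x0, S_real, if_pos j.2]

theorem dist_yy (n : ℕ) (j k : Fin (n + 3)) (h : j ≠ k) :
    dist (y n (some j)) (y n (some k)) = 2 * (1 / ((n : ℝ) + 3)) := by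
  change dist (x (n, j)) (x (n, k)) = _
  have hd : Disjoint (S (n, j)) (S (n, k)) := by
    have h0 : (0 : ℝ) < n + 3 := by positivity
    simp only [S, j.2, k.2, if_true]
    rw [Set.disjoint_left]
    rintro a ⟨h1, h2⟩ ⟨h3, h4⟩
    rw [div_le_iff₀ h0] at h1 h3
    rw [lt_div_iff₀ h0] at h2 h4
    have h5 : (j : ℕ) < k + 1 := by exact_mod_cast h1.trans_lt h4
    have h6 : (k : ℕ) < j + 1 := by exact_mod_cast h3.trans_lt h2
    exact h (Fin.ext (by omega))
  rw [dist_x, hd.symmDiff_eq_sup]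
  change μ.real (_ ∪ _) = _
  rw [measureReal_union hd (S_meas _), S_real, S_real,
    if_pos j.2, if_pos k.2]
  ring

theorem mag_A (n : ℕ) : 11 / 10 < magFin (A n) := by
  set N : ℝ := n + 3 with hN
  have hN3 : 3 ≤ N := by linarith [(Nat.cast_nonneg n : (0 : ℝ) ≤ _)]
  let c : Option (Fin (n + 3)) → ℝ := fun k => k.elim (1 - N / 2) fun _ => 1 / 2
  obtain ⟨v, h1, h2⟩ := push (fun k => (⟨y n k, Finset.mem_image_of_mem _ (Finset.mem_univ _)⟩ : A n))
    c (simMat (A n))
  have h3 := le_magFin (sim_pd (A n)) v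
  set u := Real.exp (-(1 / N)) with hu
  have h4 : ∑ k, c k = 1 := by
    simp [c, Fintype.sum_option, hN]; ring
  have h5 : ∀ j k : Fin (n + 3), Real.exp (-dist (y n (some j)) (y n (some k))) =
      u ^ 2 + if j = k then 1 - u ^ 2 else 0 := by
    intro j k
    split_ifs with h
    · simp [h]
    · rw [dist_yy n j k h, hu, ← Real.exp_nat_mul]; simp [hN]
  have h6 : Q (simMat (A n)) v = (1 - N / 2 * (1 - u)) ^ 2 + N / 4 * (1 - u ^ 2) := by
    rw [h2]
    have e1 : ∀ j, Real.exp (-dist (y n (some j)) (y n none)) = u := fun j => by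
      rw [hu, hN, ← dist_y0 n j]; rfl
    have e2 : ∀ j, Real.exp (-dist (y n none) (y n (some j))) = u := fun j => by
      rw [dist_comm, e1]
    simp only [Q, simMat, Matrix.of_apply, Fintype.sum_option, h5, e1, e2, c, Option.elim, mul_add,
      Finset.sum_add_distrib, mul_ite, mul_zero, Finset.sum_ite_eq, Finset.mem_univ, if_true,
      Finset.sum_const, Finset.card_univ, Fintype.card_fin, nsmul_eq_mul, dist_self, neg_zero,
      Real.exp_zero]
    push_cast
    rw [← hN]; ring
  have h7 : 1 - 1 / N ≤ u := by linarith [Real.add_one_le_exp (-(1 / N))]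
  have h8 : u * (1 / N + 1) ≤ 1 := by
    have := Real.add_one_le_exp (1 / N)
    calc u * (1 / N + 1) ≤ u * Real.exp (1 / N) := by gcongr
      _ = 1 := by rw [hu, ← Real.exp_add]; simp
  have hN0 : 0 < N := by linarith
  have h9 : N * (1 - u) ≤ 1 := by
    have : N * (1 / N) = 1 := by field_simp
    nlinarith
  have h10 : 3 / 4 ≤ N * (1 - u) := by
    have e : u * (N + 1) ≤ N := by
      have := mul_le_mul_of_nonneg_right h8 hN0.le
      have e' : u * (1 / N + 1) * N = u * (N + 1) := by field_simp; ring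
      linarith
    have : (1 - u) * (N + 1) ≥ 1 := by nlinarith
    by_contra hc
    push Not at hc
    nlinarith
  have hu0 : 0 < u := Real.exp_pos _
  have hu1 : u ≤ 1 := by nlinarith
  have h11 : N / 4 * (1 - u ^ 2) ≤ 1 / 2 := by nlinarith
  have h12 : (1 - N / 2 * (1 - u)) ^ 2 ≤ (5 / 8) ^ 2 := by
    apply pow_le_pow_left₀ <;> nlinarith
  rw [h1, h4, h6] at h3
  linarith

theorem hd_A (n : ℕ) : Metric.hausdorffDist ({o} : Set T) (A n : Set T) ≤ 1 / ((n : ℝ) + 3) := by
  refine Metric.hausdorffDist_le_of_mem_dist (by positivity) ?_ ?_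
  · rintro _ rfl
    exact ⟨y n none, by simp [A], by simp [y]; positivity⟩
  · intro b hb
    obtain ⟨k, -, rfl⟩ := Finset.mem_image.1 hb
    refine ⟨o, rfl, ?_⟩
    cases k with
    | none => simp [y]; positivity
    | some j => rw [dist_y0]

theorem A_ne (n : ℕ) : (A n).Nonempty := ⟨y n none, by simp [A]⟩

theorem small {δ : ℝ} (hδ : 0 < δ) : ∃ n, Metric.hausdorffDist ({o} : Set T) (A n : Set T) < δ := by
  obtain ⟨M, hM⟩ := exists_nat_one_div_lt hδ
  refine ⟨M, (hd_A M).trans_lt (lt_of_le_of_lt ?_ hM)⟩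
  gcongr; norm_num

theorem not_fin : ¬ ContFin T := by
  intro h
  obtain ⟨δ, hδ, h⟩ := h {o} (by simp) (1 / 10) (by norm_num)
  obtain ⟨n, hn⟩ := small hδ
  have := h (A n) (A_ne n) (by simpa using hn)
  linarith [mag_A n, mag_o, le_abs_self (magFin (A n) - magFin ({o} : Finset T))]

theorem not_cmp : ¬ ContCmp T := by
  intro h
  obtain ⟨δ, hδ, h⟩ := h {o} (by simp) isCompact_singleton (1 / 10) (by norm_num)
  obtain ⟨n, hn⟩ := small hδ
  have h1 := h (A n) (by simpa using A_ne n) (A n).finite_toSet.isCompact hn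
  have h2 : magFin (A n) ≤ magCmp (A n : Set T) :=
    le_csSup (magSet_bdd _) ⟨A n, A_ne n, subset_rfl, rfl⟩
  have h3 : magCmp ({o} : Set T) ≤ 1 := by
    refine Real.sSup_le ?_ zero_le_one
    rintro _ ⟨B, hB, hB', rfl⟩
    have : B = {o} := by
      rw [← Finset.coe_singleton, Finset.coe_subset] at hB'
      exact hB.subset_singleton_iff.1 hB'
    rw [this]; exact mag_o
  linarith [mag_A n, le_abs_self (magCmp (A n : Set T) - magCmp ({o} : Set T))]

end Pool.Agent.H84.MagEx
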