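import Pool.Agent.H84.MedDefs
import Pool.Agent.H42.HExt1

/-! No closed maximal eventually different family modulo the dual of a selective ultrafilter. -/

namespace Pool.Agent.H84.Med

open Set Filter Topology Pool.Agent.H84.MedDefs

variable {U : Ultrafilter ℕ} {E : Set (ℕ → ℕ)}

/-- The members of `E` that go through `X` on a set of the ultrafilter. -/
def D (U : Ultrafilter ℕ) (E : Set (ℕ → ℕ)) (X : ℕ → Set ℕ) : Set (ℕ → ℕ) :=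
  {f ∈ E | ∀ᶠ n in U, f n ∈ X n}

theorem D_mono {X Y : ℕ → Set ℕ} (h : ∀ᶠ n in U, Y n ⊆ X n) : D U E Y ⊆ D U E X :=
  fun _ r => ⟨r.1, r.2.mp (h.mono fun _ s t => s t)⟩

theorem minimal (hU : (U : Filter ℕ) ≤ cofinite) : ∃ X : ℕ → Set ℕ, (∀ n, (X n).Infinite) ∧
    ∀ Y : ℕ → Set ℕ, (∀ᶠ n in U, (Y n).Infinite) → (∀ n, Y n ⊆ X n) → ∀ f ∈ D U E X, ∀ m,
      ∃ f' ∈ D U E Y, ∀ i < m, f' i = f i := by
  classical
  obtain ⟨c, hc⟩ := exists_surjective_nat (Σ m : ℕ, Fin m → ℕ)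
  have : ∀ (j : ℕ) (X : ℕ → Set ℕ), ∃ X' : ℕ → Set ℕ, (∀ n, X' n ⊆ X n) ∧
      ((∀ᶠ n in U, (X n).Infinite) → ∀ᶠ n in U, (X' n).Infinite) ∧ ∀ Y : ℕ → Set ℕ,
        (∀ᶠ n in U, (Y n).Infinite ∧ Y n ⊆ X n) → (∃ f ∈ D U E X', ∀ i, f i.1 = (c j).2 i) →
          ∃ f ∈ D U E Y, ∀ i, f i.1 = (c j).2 i := fun j X => by
    by_cases h : ∃ Y : ℕ → Set ℕ, (∀ᶠ n in U, (Y n).Infinite ∧ Y n ⊆ X n) ∧
      ¬ ∃ f ∈ D U E Y, ∀ i, f i.1 = (c j).2 i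
    · obtain ⟨Y, a, b⟩ := h
      exact ⟨fun n => Y n ∩ X n, fun _ => inter_subset_right, fun _ => a.mono fun n r =>
        r.1.mono (subset_inter subset_rfl r.2), fun _ _ ⟨f, r, s⟩ => absurd
          ⟨f, D_mono (.of_forall fun _ => inter_subset_left) r, s⟩ b⟩
    · exact ⟨X, fun _ => subset_rfl, id, fun Y a _ => by_contra fun b => h ⟨Y, a, b⟩⟩
  choose st s1 s2 s3 using this
  let Z : ℕ → ℕ → Set ℕ := fun j => Nat.rec (fun _ => univ) st j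
  have z1 : ∀ n, Antitone fun j => Z j n := fun n => antitone_nat_of_succ_le fun j => s1 j _ n
  have z2 : ∀ j, ∀ᶠ n in U, (Z j n).Infinite := fun j =>
    Nat.rec (.of_forall fun _ => infinite_univ) (fun j => s2 j _) j
  have z3 : ∀ j, ∀ᶠ n in U, Z (Nat.findGreatest (fun j => (Z j n).Infinite) n) n ⊆ Z j n := fun j =>
    ((z2 j).and (hU (Nat.cofinite_eq_atTop ▸ eventually_ge_atTop j))).mono fun n r =>
      z1 n (Nat.le_findGreatest r.2 r.1)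
  refine ⟨fun n => Z (Nat.findGreatest (fun j => (Z j n).Infinite) n) n, fun n =>
    Nat.findGreatest_spec (P := fun j => (Z j n).Infinite) n.zero_le infinite_univ,
    fun Y a b f hf m => ?_⟩
  obtain ⟨j, e⟩ := hc ⟨m, fun i => f i⟩
  have := s3 j (Z j) Y (a.and ((z3 j).mono fun n r => (b n).trans r))
  rw [e] at this
  exact (this ⟨f, D_mono (z3 (j + 1)) hf, fun _ => rfl⟩).imp fun _ r => ⟨r.1, fun i s => r.2 ⟨i, s⟩⟩

theorem no_med (hU : Selective U) (hE : IsClosed E) : ¬ MED {A | A ∉ U} E := fun ⟨h1, h2⟩ => by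
  obtain ⟨X, x1, x2⟩ := minimal (E := E) hU.1
  have k1 : ∀ f ∈ D U E X, ∀ m, ∀ᶠ n in U,
      (X n \ {x | ∃ f' ∈ D U E X, (∀ i < m, f' i = f i) ∧ f' n = x}).Finite := fun f hf m =>
    by_contra fun c => by
      obtain ⟨f', a, b⟩ := x2 _ (Ultrafilter.eventually_not.2 c) (fun _ => sdiff_subset) f hf m
      obtain ⟨n, r⟩ := a.2.exists
      exact r.2 ⟨f', D_mono (.of_forall fun _ => sdiff_subset) a, b, rfl⟩
  let S := {s : (ℕ → ℕ) × (ℕ → ℕ) × ℕ // s.1 ∈ D U E X ∧ s.2.1 ∈ D U E X}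
  let P : S → ℕ → S → Prop := fun s n t => (∀ i < s.1.2.2, t.1.1 i = s.1.1 i ∧ t.1.2.1 i = s.1.2.1 i) ∧
    t.1.1 n = t.1.2.1 n ∧ t.1.2.2 = n + 1 ∧ s.1.2.2 ≤ n
  have k2 : ∀ s, ∀ᶠ n in U, ∃ t, P s n t := fun s =>
    (((k1 _ s.2.1 s.1.2.2).and (k1 _ s.2.2 s.1.2.2)).and
      (hU.1 (Nat.cofinite_eq_atTop ▸ eventually_ge_atTop s.1.2.2))).mono fun n r => by
      obtain ⟨x, a, b⟩ := ((x1 n).sdiff (r.1.1.union r.1.2)).nonempty
      obtain ⟨f, f1, f2, f3⟩ := not_not.1 fun q => b (.inl ⟨a, q⟩)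
      obtain ⟨g, g1, g2, g3⟩ := not_not.1 fun q => b (.inr ⟨a, q⟩)
      exact ⟨⟨(f, g, n + 1), f1, g1⟩, fun i q => ⟨f2 i q, g2 i q⟩, f3.trans g3.symm, rfl, r.2⟩
  have k3 : ∀ j, ∃ f ∈ D U E X, ∀ᶠ n in U, f n = Nat.nth (X n) j := fun j => by
    obtain ⟨f, a, b⟩ := h2 fun n => Nat.nth (X n) j
    exact ⟨f, ⟨a, mem_of_superset (not_not.1 b) fun n (r : f n = _) =>
      show f n ∈ X n from r ▸ Nat.nth_mem_of_infinite (x1 n) j⟩, not_not.1 b⟩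
  obtain ⟨f0, a0, b0⟩ := k3 0
  obtain ⟨g0, a1, b1⟩ := k3 1
  obtain ⟨i0, r0, r1⟩ := (b0.and b1).exists
  have ne : f0 i0 ≠ g0 i0 := r0 ▸ r1 ▸ (Nat.nth_injective (x1 i0)).ne zero_ne_one
  let s0 : S := ⟨(f0, g0, i0 + 1), a0, a1⟩
  let nx : S → ℕ → S := fun s n => @Classical.epsilon _ ⟨s0⟩ (P s n)
  let R : ℕ → Set S := fun k => Nat.rec {s0} (fun k T => T ∪ (nx · k) '' T) k
  have R1 : ∀ k, (R k).Finite := fun k =>
    Nat.rec (finite_singleton _) (fun _ r => r.union (r.image _)) k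
  have R2 : Monotone R := monotone_nat_of_le_succ fun _ => subset_union_left
  obtain ⟨A, A1, A2⟩ := hU.2 (fun k => {n | ∀ s ∈ R (k + 1), ∃ t, P s n t}) fun k =>
    show ∀ᶠ n in (U : Filter ℕ), ∀ s ∈ R (k + 1), ∃ t, P s n t from
      (eventually_all_finite (R1 (k + 1))).2 fun s _ => k2 s
  have B1 : A ∩ {n | ∃ t, P s0 n t} ∈ U := inter_mem A1 (k2 s0)
  have inf : (A ∩ {n | ∃ t, P s0 n t}).Infinite := fun q =>
    Ultrafilter.compl_mem_iff_notMem.1 (hU.1 q.compl_mem_cofinite) B1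
  obtain ⟨a, a1, a3⟩ : ∃ a : ℕ → ℕ, StrictMono a ∧ range a = A ∩ {n | ∃ t, P s0 n t} :=
    ⟨_, Nat.nth_strictMono inf, Nat.range_nth_of_infinite inf⟩
  have a2 := range_subset_iff.1 a3.le
  let σ : ℕ → S := fun j => Nat.rec s0 (fun j s => nx s (a j)) j
  have p1 : ∀ j, σ (j + 1) ∈ R (a j + 1) := fun j => Nat.rec (.inr ⟨_, R2 (zero_le) rfl, rfl⟩)
    (fun j r => .inr ⟨_, R2 (a1 j.lt_succ_self) r, rfl⟩) j
  have p2 : ∀ j, P (σ j) (a j) (σ (j + 1)) := fun j => Classical.epsilon_spec (p := P (σ j) (a j))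
    (j.casesOn (a2 0).2 fun j => A2 _ (a2 j).1 _ (a2 _).1 (a1 j.lt_succ_self) _ (p1 j))
  have p3 : ∀ j k, j ≤ k → (σ j).1.2.2 ≤ (σ k).1.2.2 ∧ ∀ i < (σ j).1.2.2,
      (σ k).1.1 i = (σ j).1.1 i ∧ (σ k).1.2.1 i = (σ j).1.2.1 i := fun j k h => by
    induction h with
    | refl => exact ⟨le_rfl, fun _ _ => ⟨rfl, rfl⟩⟩
    | @step k _ ih =>
      obtain ⟨q1, -, q2, q3⟩ := p2 k
      exact ⟨ih.1.trans (q3.trans (q2 ▸ Nat.le_succ _)), fun i r => ⟨(q1 i (r.trans_le ih.1)).1.trans (ih.2 i r).1,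
        (q1 i (r.trans_le ih.1)).2.trans (ih.2 i r).2⟩⟩
  have p4 : ∀ i j, i < (σ j).1.2.2 → (σ (i + 1)).1.1 i = (σ j).1.1 i ∧
      (σ (i + 1)).1.2.1 i = (σ j).1.2.1 i := fun i j r => by
    have q : i < (σ (i + 1)).1.2.2 := (p2 i).2.2.1 ▸ Nat.lt_succ_of_le (a1.id_le i)
    rcases le_total j (i + 1) with h | h
    exacts [(p3 _ _ h).2 i r, ((p3 _ _ h).2 i q).imp Eq.symm Eq.symm]
  have p5 : ∀ i, ∀ᶠ j in atTop, i < (σ j).1.2.2 := fun i => (eventually_ge_atTop (i + 1)).mono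
    fun j r => ((p2 i).2.2.1 ▸ Nat.lt_succ_of_le (a1.id_le i) : i < _).trans_le (p3 _ _ r).1
  refine h1 (fun i => (σ (i + 1)).1.1 i) (hE.mem_of_tendsto (tendsto_pi_nhds.2 fun i =>
    tendsto_const_nhds.congr' ((p5 i).mono fun j r => (p4 i j r).1)) (.of_forall fun j => (σ j).2.1.1))
    (fun i => (σ (i + 1)).1.2.1 i) (hE.mem_of_tendsto (tendsto_pi_nhds.2 fun i =>
    tendsto_const_nhds.congr' ((p5 i).mono fun j r => (p4 i j r).2)) (.of_forall fun j => (σ j).2.2.1))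
    (fun e => ne ?_) (mem_of_superset B1 fun n r => ?_)
  · exact (p4 i0 0 i0.lt_succ_self).1.symm.trans ((congrFun e i0).trans (p4 i0 0 i0.lt_succ_self).2)
  · obtain ⟨j, rfl⟩ : n ∈ range a := a3.ge r
    have q := p4 (a j) (j + 1) ((p2 j).2.2.1 ▸ Nat.lt_succ_self _)
    exact q.1.trans ((p2 j).2.1.trans q.2.symm)

theorem maximal (hU : (U : Filter ℕ) ≤ cofinite) : IsMaximal {A | A ∉ U} :=
  ⟨⟨fun _ a _ b c => a (mem_of_superset c b), fun _ a _ b c =>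
    (Ultrafilter.union_mem_iff.1 c).elim a b, fun a => a univ_mem, fun _ a =>
    Ultrafilter.compl_mem_iff_notMem.1 (hU a.compl_mem_cofinite)⟩, fun _ a b =>
    Subset.antisymm (fun A c d => a.2.2.1 (union_compl_self A ▸ a.2.1 A c _
      (b (Ultrafilter.compl_notMem_iff.2 d)))) b⟩

theorem of_ch (h : Cardinal.continuum.{0} = Cardinal.aleph 1) : ∃ U, Selective U :=
  (Pool.Agent.H42.HExt.sel h fun _ => pure 0).imp fun _ r => r.1

end Pool.Agent.H84.Med
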