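import Mathlib

/-! Maximal eventually different families modulo an ideal. -/

namespace Pool.Agent.H84.MedDefs

/-- A proper ideal on the integers that contains the finite sets. -/
def IsIdeal (I : Set (Set ℕ)) : Prop :=
  (∀ A ∈ I, ∀ B ⊆ A, B ∈ I) ∧ (∀ A ∈ I, ∀ B ∈ I, A ∪ B ∈ I) ∧ Set.univ ∉ I ∧
    ∀ A : Set ℕ, A.Finite → A ∈ I

/-- A maximal ideal. -/
def IsMaximal (I : Set (Set ℕ)) : Prop := IsIdeal I ∧ ∀ J, IsIdeal J → I ⊆ J → J = I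

/-- `E` is an `I`-maximal eventually different family. -/
def MED (I : Set (Set ℕ)) (E : Set (ℕ → ℕ)) : Prop :=
  (∀ f ∈ E, ∀ g ∈ E, f ≠ g → {n | f n = g n} ∈ I) ∧ ∀ h : ℕ → ℕ, ∃ f ∈ E, {n | f n = h n} ∉ I

/-- Selective ultrafilter: free, and every sequence of members has a diagonal member. -/
def Selective (U : Ultrafilter ℕ) : Prop := (U : Filter ℕ) ≤ Filter.cofinite ∧
  ∀ B : ℕ → Set ℕ, (∀ k, B k ∈ U) → ∃ A ∈ U, ∀ k ∈ A, ∀ n ∈ A, k < n → n ∈ B k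

end Pool.Agent.H84.MedDefs
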