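import Mathlib

set_option autoImplicit false

open Set

namespace Pool.Agent.H84.MeetA

inductive E : Type
  | base (s : List Bool) : E
  | node (x : List Bool → E) (s : List Bool) : E

open E

def up : E → Set E
  | base s => {e | ∃ t, t <:+ s ∧ e = base t}
  | node x s => {e | ∃ t, t <:+ s ∧ e = node x t} ∪ up (x s)

def Par (e e' : E) : Prop := ∃ x s, e' = node x s ∧ e = x s

noncomputable def rk : E → Ordinal.{0}
  | base _ => 0
  | node x _ => ⨆ t, Order.succ (rk (x t))

structure Good (x : List Bool → E) : Prop where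
  mono : ∀ a s, x s ∈ up (x (a :: s))
  strict : ∀ a s, x (a :: s) ∉ up (x s)
  meet : ∀ s u v, (true :: s) <:+ u → (false :: s) <:+ v → up (x u) ∩ up (x v) ⊆ up (x s)
  c2 : ∀ s v, s <:+ v → ∀ e'' e e', Par e'' e → Par e e' → e' ∈ up (x v) → e'' ∈ up (x s) →
    e ∈ up (x s)
  c3 : ∀ a s e, Par e (x (a :: s)) → e ∉ up (x s)
  c4 : ∀ s v, s <:+ v → ∀ γ w w', node γ w ∈ up (x s) → node γ w' ∈ up (x v) →
    node γ w' ∉ up (x s) → ∃ w'', node γ (true :: w'') ∈ up (x v) ∧ node γ (true :: w'') ∉ up (x s)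

def Valid : E → Prop
  | base _ => True
  | node x _ => (∀ t, Valid (x t)) ∧ Good x

/-! ### Lists -/

theorem suf_cons {u v : List Bool} (h : u <:+ v) (hne : u ≠ v) : ∃ b, b :: u <:+ v := by
  obtain ⟨l, rfl⟩ := h
  rcases List.eq_nil_or_concat l with rfl | ⟨l', b, rfl⟩
  · exact (hne rfl).elim
  · exact ⟨b, l', by simp⟩

theorem tri (u v : List Bool) : u <:+ v ∨ v <:+ u ∨
    ∃ s, ((true :: s) <:+ u ∧ (false :: s) <:+ v) ∨ ((false :: s) <:+ u ∧ (true :: s) <:+ v) := by
  induction u with
  | nil => exact Or.inl List.nil_suffix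
  | cons a u ih =>
    rcases ih with h | h | ⟨s, h | h⟩
    · by_cases e : u = v
      · subst e; exact Or.inr (Or.inl (List.suffix_cons _ _))
      · obtain ⟨b, hb⟩ := suf_cons h e
        cases a <;> cases b
        · exact Or.inl hb
        · exact Or.inr (Or.inr ⟨u, Or.inr ⟨List.suffix_rfl, hb⟩⟩)
        · exact Or.inr (Or.inr ⟨u, Or.inl ⟨List.suffix_rfl, hb⟩⟩)
        · exact Or.inl hb
    · exact Or.inr (Or.inl (h.trans (List.suffix_cons _ _)))
    · exact Or.inr (Or.inr ⟨s, Or.inl ⟨h.1.trans (List.suffix_cons _ _), h.2⟩⟩)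
    · exact Or.inr (Or.inr ⟨s, Or.inr ⟨h.1.trans (List.suffix_cons _ _), h.2⟩⟩)

theorem common {r s t w : List Bool} (h1 : (true :: r) <:+ s) (h2 : (false :: r) <:+ t)
    (h3 : w <:+ s) (h4 : w <:+ t) : w <:+ r := by
  by_cases h : w.length ≤ r.length
  · exact List.suffix_of_suffix_length_le h3 ((List.suffix_cons _ _).trans h1) h
  · have a1 : (true :: r) <:+ w := List.suffix_of_suffix_length_le h1 h3 (by simp; omega)
    have a2 : (true :: r) <:+ (false :: r) :=
      List.suffix_of_suffix_length_le (a1.trans h4) h2 (by simp)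
    have := a2.eq_of_length (by simp)
    simp at this

theorem suf_total {a b c : List Bool} (h1 : a <:+ c) (h2 : b <:+ c) : a <:+ b ∨ b <:+ a := by
  rcases le_total a.length b.length with h | h
  · exact Or.inl (List.suffix_of_suffix_length_le h1 h2 h)
  · exact Or.inr (List.suffix_of_suffix_length_le h2 h1 h)

theorem not_cons_suf {a : Bool} {s t : List Bool} (h : s <:+ t) : ¬ (a :: t) <:+ s := fun h' => by
  have := h.length_le
  have := h'.length_le
  simp at this
  omega

def br (s : List Bool) (n : ℕ) : List Bool := List.replicate n false ++ s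

theorem br_succ (s : List Bool) (n : ℕ) : br s (n + 1) = false :: br s n := rfl

theorem br_len (s : List Bool) (n : ℕ) : (br s n).length = n + s.length := by simp [br]

theorem br_mono (s : List Bool) {m n : ℕ} (h : m ≤ n) : br s m <:+ br s n := by
  induction h with
  | refl => exact List.suffix_rfl
  | step _ ih => exact ih.trans (List.suffix_cons _ _)

theorem true_suf {s w : List Bool} {n : ℕ} (h : (true :: w) <:+ br s n) : (true :: w) <:+ s := by
  induction n with
  | zero => exact h
  | succ n ih =>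
    rw [br_succ, List.suffix_cons_iff] at h
    rcases h with h | h
    · simp at h
    · exact ih h

theorem enc_le {t v : List Bool} (h : t <:+ v) : Encodable.encode t ≤ Encodable.encode v := by
  obtain ⟨l, rfl⟩ := h
  induction l with
  | nil => exact le_rfl
  | cons a l ih =>
    rw [List.cons_append, Encodable.encode_list_cons]
    exact ih.trans ((Nat.right_le_pair _ _).trans (Nat.le_succ _))

theorem enc_lt {t v : List Bool} (h : t <:+ v) (hne : t ≠ v) :
    Encodable.encode t < Encodable.encode v :=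
  lt_of_le_of_ne (enc_le h) fun e => hne (Encodable.encode_injective e)

/-! ### The order -/

theorem self_mem : ∀ e, e ∈ up e
  | base s => ⟨s, List.suffix_rfl, rfl⟩
  | node _ s => Or.inl ⟨s, List.suffix_rfl, rfl⟩

theorem rk_lt (x : List Bool → E) (s t : List Bool) : rk (x t) < rk (node x s) :=
  Order.succ_le_iff.1 (Ordinal.le_iSup (fun t => Order.succ (rk (x t))) t)

theorem rk_le : ∀ e e', e' ∈ up e → rk e' ≤ rk e
  | base _, _, ⟨_, _, h⟩ => by rw [h]; exact le_rfl
  | node _ _, _, Or.inl ⟨_, _, h⟩ => by rw [h]; exact le_rfl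
  | node x s, e', Or.inr h => (rk_le (x s) e' h).trans (rk_lt x s s).le

theorem node_not_mem (x : List Bool → E) (w s : List Bool) : node x w ∉ up (x s) := fun h =>
  absurd (rk_le _ _ h) (not_le.2 (rk_lt x w s))

theorem node_mem_node {x : List Bool →  E} {w s : List Bool} :
    node x w ∈ up (node x s) ↔ w <:+ s := by
  constructor
  · rintro (⟨t, ht, h⟩ | h)
    · injection h with _ h; rwa [h]
    · exact (node_not_mem _ _ _ h).elim
  · exact fun h => Or.inl ⟨w, h, rfl⟩

theorem chain_aux {x : List Bool → E} (hg : Good x)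
    (h : ∀ t, ∀ e' ∈ up (x t), up e' ⊆ up (x t)) {t s : List Bool} (hts : t <:+ s) :
    up (x t) ⊆ up (x s) := by
  obtain ⟨l, rfl⟩ := hts
  induction l with
  | nil => exact subset_rfl
  | cons a l ih => exact ih.trans (h _ _ (hg.mono a _))

theorem up_trans : ∀ e, Valid e → ∀ e' ∈ up e, Valid e' ∧ up e' ⊆ up e
  | base _, _, _, ⟨t, ht, h⟩ => by
    subst h
    exact ⟨trivial, fun _ ⟨r, hr, h⟩ => ⟨r, hr.trans ht, h⟩⟩
  | node x s, hv, _, Or.inl ⟨t, ht, h⟩ => by
    subst h
    refine ⟨hv, union_subset_union (fun _ ⟨r, hr, h⟩ => ⟨r, hr.trans ht, h⟩) ?_⟩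
    exact chain_aux hv.2 (fun t e' he' => (up_trans (x t) (hv.1 t) e' he').2) ht
  | node x s, hv, e', Or.inr h =>
    ⟨(up_trans (x s) (hv.1 s) e' h).1, (up_trans (x s) (hv.1 s) e' h).2.trans subset_union_right⟩

theorem chain {x : List Bool → E} (hv : ∀ t, Valid (x t)) (hg : Good x) {t s : List Bool}
    (hts : t <:+ s) : up (x t) ⊆ up (x s) :=
  chain_aux hg (fun t e' he' => (up_trans _ (hv t) e' he').2) hts

theorem chain_node {x : List Bool → E} (hv : ∀ t, Valid (x t)) (hg : Good x) {t s : List Bool}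
    (hts : t <:+ s) : up (node x t) ⊆ up (node x s) :=
  (up_trans (node x s) ⟨hv, hg⟩ _ (node_mem_node.2 hts)).2

theorem strict' {x : List Bool → E} (hv : ∀ t, Valid (x t)) (hg : Good x) {a : Bool}
    {r w : List Bool} (h : (a :: r) <:+ w) : x w ∉ up (x r) := fun h' =>
  hg.strict a r ((up_trans _ (hv r) _ h').2 (chain hv hg h (self_mem _)))

theorem suf_finite (s : List Bool) : {t | t <:+ s}.Finite := by
  refine (List.finite_toSet s.tails).subset fun t ht => ?_
  simpa using ht

theorem up_finite : ∀ e, (up e).Finite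
  | base s => ((suf_finite s).image base).subset fun _ ⟨t, ht, h⟩ => ⟨t, ht, h.symm⟩
  | node x s => by
    refine Finite.union (((suf_finite s).image (node x)).subset ?_) (up_finite (x s))
    rintro _ ⟨t, ht, h⟩
    exact ⟨t, ht, h.symm⟩

theorem comparable {γ : List Bool → E} {w w' : List Bool} :
    ∀ e, node γ w ∈ up e → node γ w' ∈ up e → w <:+ w' ∨ w' <:+ w
  | base _, ⟨_, _, h⟩, _ => by cases h
  | node x s, h1, h2 => by
    by_cases e : γ = x
    · subst e
      exact suf_total (node_mem_node.1 h1) (node_mem_node.1 h2)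
    · have key : ∀ w, node γ w ∈ up (node x s) → node γ w ∈ up (x s) := by
        rintro w (⟨t, -, h⟩ | h)
        · injection h with h; exact (e h).elim
        · exact h
      exact comparable (x s) (key _ h1) (key _ h2)

theorem antisymm : ∀ e, Valid e → ∀ e' ∈ up e, e ∈ up e' → e' = e
  | base _, _, _, ⟨t, ht, h⟩, h' => by
    subst h
    obtain ⟨r, hr, h⟩ := h'
    injection h with h
    subst h
    rw [ht.eq_of_length_le hr.length_le]
  | node x s, _, _, Or.inl ⟨t, ht, h⟩, h' => by
    subst h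
    rw [ht.eq_of_length_le (node_mem_node.1 h').length_le]
  | node x s, hv, e', Or.inr h, h' =>
    (node_not_mem _ _ _ ((up_trans _ (hv.1 s) _ h).2 h')).elim

theorem par_mem {e e' : E} (h : Par e e') : e ∈ up e' := by
  obtain ⟨x, s, rfl, rfl⟩ := h
  exact Or.inr (self_mem _)

def J (e e' : E) : Prop := (up e ∩ up e').Nonempty → ∃ m ∈ up e ∩ up e', up e ∩ up e' ⊆ up m

theorem J_symm {e e' : E} (h : J e e') : J e' e := by
  unfold J at *
  rwa [inter_comm]

theorem J_left {x : List Bool → E} {s : List Bool} {e' : E} (h : J (x s) e')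
    (hn : ∀ w, node x w ∉ up e') : J (node x s) e' := by
  have : up (node x s) ∩ up e' = up (x s) ∩ up e' := by
    ext a
    constructor
    · rintro ⟨⟨t, -, rfl⟩ | h, h'⟩
      · exact (hn _ h').elim
      · exact ⟨h, h'⟩
    · exact fun h => ⟨Or.inr h.1, h.2⟩
  unfold J at *
  rwa [this]

theorem J_of_sub {e e' : E} (h : up e ⊆ up e') : J e e' :=
  fun _ => ⟨e, ⟨self_mem e, h (self_mem e)⟩, inter_subset_left⟩

theorem J_base_split {r s t : List Bool} (h1 : (true :: r) <:+ s) (h2 : (false :: r) <:+ t) :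
    J (base s) (base t) := fun _ => by
  refine ⟨base r, ⟨⟨r, (List.suffix_cons _ _).trans h1, rfl⟩,
    ⟨r, (List.suffix_cons _ _).trans h2, rfl⟩⟩, ?_⟩
  rintro _ ⟨⟨w, hw, rfl⟩, ⟨w', hw', h⟩⟩
  injection h with h
  subst h
  exact ⟨w, common h1 h2 hw hw', rfl⟩

theorem J_node_split {x : List Bool → E} (hg : Good x) {r s t : List Bool}
    (h1 : (true :: r) <:+ s) (h2 : (false :: r) <:+ t) : J (node x s) (node x t) := fun _ => by
  refine ⟨node x r, ⟨node_mem_node.2 ((List.suffix_cons _ _).trans h1),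
    node_mem_node.2 ((List.suffix_cons _ _).trans h2)⟩, ?_⟩
  rintro a ⟨⟨w, hw, rfl⟩ | ha, hb⟩
  · exact node_mem_node.2 (common h1 h2 hw (node_mem_node.1 hb))
  · rcases hb with ⟨w, -, rfl⟩ | hb
    · exact (node_not_mem _ _ _ ha).elim
    · exact Or.inr (hg.meet r s t h1 h2 ⟨ha, hb⟩)

theorem join : ∀ e, Valid e → ∀ e', Valid e' → J e e' := by
  intro e
  induction e with
  | base s =>
    intro _ e'
    induction e' with
    | base t =>
      intro _
      rcases tri s t with h | h | ⟨r, h | h⟩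
      · exact J_of_sub (up_trans (base t) trivial _ ⟨s, h, rfl⟩).2
      · exact J_symm (J_of_sub (up_trans (base s) trivial _ ⟨t, h, rfl⟩).2)
      · exact J_base_split h.1 h.2
      · exact J_symm (J_base_split h.2 h.1)
    | node y t ih =>
      intro hv
      exact J_symm (J_left (J_symm (ih t (hv.1 t))) (by rintro w ⟨_, _, h⟩; cases h))
  | node x s ih =>
    intro hv e'
    induction e' with
    | base t =>
      intro hv'
      exact J_left (ih s (hv.1 s) _ hv') (by rintro w ⟨_, _, h⟩; cases h)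
    | node y t ih' =>
      intro hv'
      by_cases e : x = y
      · subst e
        rcases tri s t with h | h | ⟨r, h | h⟩
        · exact J_of_sub (chain_node hv.1 hv.2 h)
        · exact J_symm (J_of_sub (chain_node hv.1 hv.2 h))
        · exact J_node_split hv.2 h.1 h.2
        · exact J_symm (J_node_split hv.2 h.2 h.1)
      · by_cases hn : ∀ w, node x w ∉ up (node y t)
        · exact J_left (ih s (hv.1 s) _ hv') hn
        · refine J_symm (J_left (J_symm (ih' t (hv'.1 t))) ?_)
          push Not at hn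
          obtain ⟨w, ⟨_, _, h⟩ | hw⟩ := hn
          · injection h with h; exact (e h).elim
          · rintro w' (⟨_, _, h⟩ | hw')
            · injection h with h; exact e h.symm
            · have a1 : rk (node x s) < rk (node y t) := (rk_le _ _ hw).trans_lt (rk_lt y t t)
              have a2 : rk (node y t) < rk (node x s) := (rk_le _ _ hw').trans_lt (rk_lt x s s)
              exact absurd a1 (not_lt.2 a2.le)

theorem meet {e1 e2 c : E} (hc : Valid c) (h1 : e1 ∈ up c) (h2 : e2 ∈ up c) :
    ∃ m, Valid m ∧ e1 ∈ up m ∧ e2 ∈ up m ∧ ∀ d, Valid d → e1 ∈ up d → e2 ∈ up d → m ∈ up d := by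
  classical
  have hex : ∃ n, ∃ m, Valid m ∧ e1 ∈ up m ∧ e2 ∈ up m ∧ (up m).ncard = n := ⟨_, c, hc, h1, h2, rfl⟩
  obtain ⟨m, hm, a1, a2, hn⟩ := Nat.find_spec hex
  refine ⟨m, hm, a1, a2, fun d hd b1 b2 => ?_⟩
  obtain ⟨m', ⟨c1, c2⟩, hs⟩ := join m hm d hd ⟨e1, a1, b1⟩
  obtain ⟨v', hs'⟩ := up_trans m hm m' c1
  have hle : (up m).ncard ≤ (up m').ncard := by
    rw [hn]; exact Nat.find_min' hex ⟨m', v', hs ⟨a1, b1⟩, hs ⟨a2, b2⟩, rfl⟩
  have : up m' = up m := eq_of_subset_of_ncard_le hs' hle (up_finite m)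
  exact (up_trans d hd m' c2).2 (this ▸ self_mem m)

end Pool.Agent.H84.MeetA
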