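import Mathlib
import Pool.Agent.H84.MeetA

set_option autoImplicit false

open Set

namespace Pool.Agent.H84.MeetB

open MeetA E

def HF (x : List Bool → E) (s : List Bool) : Set E := ⋃ n, up (node x (br s n))

def IsH (F : Set E) : Prop := ∃ x s, (∀ t, Valid (x t)) ∧ Good x ∧ F = HF x s

structure VSeq (x : ℕ → List Bool → E) (u : List Bool) : Prop where
  valid : ∀ i t, Valid (x i t)
  good : ∀ i, Good (x i)
  step : ∀ i, x (i + 1) u = node (x i) u
  anc : ∀ i t, t <:+ u → t ≠ u → x i t = x 0 t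

def VF (x : ℕ → List Bool → E) (u : List Bool) : Set E := ⋃ i, up (x i u)

def IsV (F : Set E) : Prop := ∃ x u, VSeq x u ∧ F = VF x u

def Pt (F : Set E) : Prop := IsH F ∨ IsV F

theorem VSeq.par {x u} (h : VSeq x u) (i : ℕ) : Par (x i u) (x (i + 1) u) :=
  ⟨x i, u, h.step i, rfl⟩

theorem VSeq.mono {x u} (h : VSeq x u) : Monotone fun i => up (x i u) :=
  monotone_nat_of_le_succ fun i => (up_trans _ (h.valid _ _) _ (par_mem (h.par i))).2

theorem VSeq.inj {x u} (h : VSeq x u) : Function.Injective fun i => x i u := by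
  have : StrictMono fun i => rk (x i u) := strictMono_nat_of_lt_succ fun i => by
    show rk (x i u) < rk (x (i + 1) u)
    rw [h.step]; exact rk_lt _ _ _
  exact fun a b hab => this.injective (by simp only [show x a u = x b u from hab])

theorem VSeq.mem {x u} (h : VSeq x u) {e : E} {i : ℕ} (he : e ∈ up (x i u)) :
    e ∈ up (x 0 u) ∨ ∃ j t, t <:+ u ∧ e = node (x j) t := by
  induction i with
  | zero => exact Or.inl he
  | succ i ih =>
    rw [h.step] at he
    rcases he with ⟨t, ht, rfl⟩ | he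
    · exact Or.inr ⟨i, t, ht, rfl⟩
    · exact ih he

theorem Pt.chain {F : Set E} (h : Pt F) : ∃ c : ℕ → E, (∀ n, Valid (c n)) ∧
    Monotone (fun n => up (c n)) ∧ F = ⋃ n, up (c n) := by
  rcases h with ⟨x, s, hv, hg, rfl⟩ | ⟨x, u, h, rfl⟩
  · exact ⟨fun n => node x (br s n), fun n => ⟨hv, hg⟩,
      fun a b hab => chain_node hv hg (br_mono s hab), rfl⟩
  · exact ⟨fun i => x i u, fun i => h.valid _ _, h.mono, rfl⟩

theorem Pt.valid {F : Set E} (h : Pt F) {e : E} (he : e ∈ F) : Valid e ∧ up e ⊆ F := by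
  obtain ⟨c, hc, -, rfl⟩ := h.chain
  obtain ⟨n, hn⟩ := mem_iUnion.1 he
  exact ⟨(up_trans _ (hc n) _ hn).1, (up_trans _ (hc n) _ hn).2.trans (subset_iUnion (fun n => up (c n)) n)⟩

theorem Pt.two {F : Set E} (h : Pt F) {e e' : E} (he : e ∈ F) (he' : e' ∈ F) :
    ∃ c ∈ F, Valid c ∧ e ∈ up c ∧ e' ∈ up c := by
  obtain ⟨c, hc, hm, rfl⟩ := h.chain
  obtain ⟨n, hn⟩ := mem_iUnion.1 he
  obtain ⟨m, hm'⟩ := mem_iUnion.1 he'
  exact ⟨c (n + m), mem_iUnion.2 ⟨_, self_mem _⟩, hc _, hm (Nat.le_add_right n m) hn,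
    hm (Nat.le_add_left m n) hm'⟩

theorem Pt.nonempty {F : Set E} (h : Pt F) : F.Nonempty := by
  obtain ⟨c, -, -, rfl⟩ := h.chain
  exact ⟨c 0, mem_iUnion.2 ⟨0, self_mem _⟩⟩

theorem V_not_H {y u x s} (h : VSeq y u) (hv : ∀ t, Valid (x t)) (hg : Good x) :
    ¬ VF y u ⊆ HF x s := by
  intro hs
  have h1 : ∀ i, ∃ n, y i u ∈ up (x (br s n)) := by
    intro i
    obtain ⟨n, hn⟩ := mem_iUnion.1 (hs (mem_iUnion.2 ⟨i + 1, self_mem _⟩))
    refine ⟨n, ?_⟩
    rcases hn with ⟨t, ht, e⟩ | hn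
    · rw [h.step] at e
      injection e with e1 e2
      rw [e1, e2]
      exact chain hv hg ht (self_mem _)
    · exact (up_trans _ (hv _) _ hn).2 (par_mem (h.par i))
  obtain ⟨n0, h0⟩ := h1 0
  have h2 : ∀ i, y i u ∈ up (x (br s n0)) := by
    intro i
    induction i with
    | zero => exact h0
    | succ i ih =>
      obtain ⟨m, hm⟩ := h1 (i + 2)
      exact hg.c2 _ (br s (n0 + m)) (br_mono s (Nat.le_add_right _ _)) _ _ _ (h.par i)
        (h.par (i + 1)) (chain hv hg (br_mono s (Nat.le_add_left _ _)) hm) ih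
  exact infinite_of_injective_forall_mem h.inj h2 (up_finite _)

theorem node_br_inj (γ : List Bool → E) (w : List Bool) :
    Function.Injective fun n => node γ (br w n) := by
  intro a b hab
  injection hab with _ h
  have := congrArg List.length h
  simpa [br_len] using this

theorem H_H {γ w0 x s} (hv : ∀ t, Valid (x t))
    (hg : Good x) (hs : HF γ w0 ⊆ HF x s) : HF x s ⊆ HF γ w0 := by
  have h1 : ∀ n, ∃ m, node γ (br w0 n) ∈ up (node x (br s m)) := fun n =>
    mem_iUnion.1 (hs (mem_iUnion.2 ⟨n, self_mem _⟩))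
  by_cases e : γ = x
  · subst e
    refine iUnion_subset fun m => ?_
    obtain ⟨m', hm'⟩ := h1 (m + s.length)
    have : br s m <:+ br w0 (m + s.length) :=
      List.suffix_of_suffix_length_le (br_mono s (Nat.le_add_right m m'))
        ((node_mem_node.1 hm').trans (br_mono s (Nat.le_add_left m' m))) (by simp [br_len])
    exact (chain_node hv hg this).trans (subset_iUnion (fun n => up (node γ (br w0 n))) _)
  · exfalso
    have h2 : ∀ n, ∃ m, node γ (br w0 n) ∈ up (x (br s m)) := fun n => by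
      obtain ⟨m, ⟨t, -, h⟩ | h⟩ := h1 n
      · injection h with h; exact (e h).elim
      · exact ⟨m, h⟩
    obtain ⟨n0, h0⟩ := h2 0
    obtain ⟨n, hn⟩ : ∃ n, node γ (br w0 n) ∉ up (x (br s n0)) := by
      by_contra hc
      push Not at hc
      exact infinite_of_injective_forall_mem (node_br_inj γ w0) hc (up_finite _)
    obtain ⟨m, hm⟩ := h2 n
    obtain ⟨w, a1, a2⟩ := hg.c4 _ (br s (n0 + m)) (br_mono s (Nat.le_add_right _ _)) γ _ _ h0
      (chain hv hg (br_mono s (Nat.le_add_left _ _)) hm) hn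
    obtain ⟨m', hm'⟩ := h2 (w.length + 1)
    have hc := comparable _ (chain hv hg (br_mono s (Nat.le_add_right (n0 + m) m')) a1)
      (chain hv hg (br_mono s (Nat.le_add_left m' (n0 + m))) hm')
    have : (true :: w) <:+ br w0 (w.length + 1) := by
      rcases hc with h | h
      · exact h
      · rw [h.eq_of_length_le (by simp [br_len])]
    exact a2 ((up_trans _ (hv _) _ h0).2 (node_mem_node.2 (true_suf this)))

theorem H_not_V {γ w0 y u} (h : VSeq y u) : ¬ HF γ w0 ⊆ VF y u := by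
  intro hs
  refine infinite_of_injective_forall_mem (s := up (y 0 u))
    (f := fun n => node γ (br w0 (n + (u.length + 1))))
    (fun a b hab => by simpa using node_br_inj γ w0 hab) (fun n => ?_) (up_finite _)
  obtain ⟨i, hi⟩ := mem_iUnion.1 (hs (mem_iUnion.2 ⟨n + (u.length + 1), self_mem _⟩))
  rcases h.mem hi with h1 | ⟨j, t, ht, e⟩
  · exact h1
  · injection e with _ e
    have := ht.length_le
    rw [← e, br_len] at this
    omega

theorem V_V {y u y' u'} (h : VSeq y u) (h' : VSeq y' u') (hs : VF y u ⊆ VF y' u') :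
    VF y' u' ⊆ VF y u := by
  obtain ⟨i0, hi0⟩ : ∃ i, y i u ∉ up (y' 0 u') := by
    by_contra hc
    push Not at hc
    exact infinite_of_injective_forall_mem h.inj hc (up_finite _)
  have h1 : ∀ i, y (i0 + i) u ∉ up (y' 0 u') := fun i hi =>
    hi0 ((up_trans _ (h'.valid _ _) _ hi).2 (h.mono (Nat.le_add_right i0 i) (self_mem _)))
  have h2 : ∀ i, ∃ j, y (i0 + i + 1) u = y' (j + 1) u' := by
    intro i
    obtain ⟨k, hk⟩ := mem_iUnion.1 (hs (mem_iUnion.2 ⟨i0 + i + 1, self_mem _⟩))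
    rcases h'.mem hk with h3 | ⟨j, t, ht, e⟩
    · exact (h1 (i + 1) h3).elim
    · by_cases htu : t = u'
      · exact ⟨j, by rw [e, htu, h'.step]⟩
      · exfalso
        rw [h.step] at e
        injection e with e1 e2
        apply h1 i
        rw [e1, e2, h'.anc j t ht htu]
        exact chain (h'.valid 0) (h'.good 0) ht (self_mem _)
  choose j hj using h2
  have hinj : Function.Injective j := fun a b hab => by
    have := h.inj (show y (i0 + a + 1) u = y (i0 + b + 1) u by rw [hj, hj, hab])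
    omega
  refine iUnion_subset fun k => ?_
  obtain ⟨i, hi⟩ := (hinj.nat_tendsto_atTop.eventually_ge_atTop k).exists
  refine (h'.mono (show k ≤ j i + 1 by omega)).trans ?_
  show up (y' (j i + 1) u') ⊆ _
  rw [← hj]
  exact subset_iUnion (fun i => up (y i u)) _

theorem Pt.eq_of_subset {F G : Set E} (hF : Pt F) (hG : Pt G) (h : F ⊆ G) : F = G := by
  refine Subset.antisymm h ?_
  rcases hF with ⟨x, s, hv, hg, rfl⟩ | ⟨x, u, hx, rfl⟩ <;>
    rcases hG with ⟨y, t, hv', hg', rfl⟩ | ⟨y, t, hy, rfl⟩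
  · exact H_H hv' hg' h
  · exact (H_not_V hy h).elim
  · exact (V_not_H hx hv' hg' h).elim
  · exact V_V hx hy h

theorem Pt.other {F : Set E} (hF : Pt F) {e : E} (he : e ∈ F) : ∃ G, Pt G ∧ e ∈ G ∧ G ≠ F := by
  rcases hF with ⟨x, s, hv, hg, rfl⟩ | ⟨x, u, hx, rfl⟩
  · obtain ⟨n, hn⟩ := mem_iUnion.1 he
    refine ⟨HF x (true :: br s n), Or.inl ⟨x, _, hv, hg, rfl⟩,
      mem_iUnion.2 ⟨0, chain_node hv hg (List.suffix_cons _ _) hn⟩, fun h => ?_⟩
    have : node x (true :: br s n) ∈ HF x s := h ▸ mem_iUnion.2 ⟨0, self_mem _⟩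
    obtain ⟨m, hm⟩ := mem_iUnion.1 this
    have := (true_suf (node_mem_node.1 hm)).length_le
    simp only [br_len, List.length_cons] at this
    omega
  · obtain ⟨i, hi⟩ := mem_iUnion.1 he
    refine ⟨HF (x i) u, Or.inl ⟨x i, u, hx.valid i, hx.good i, rfl⟩,
      mem_iUnion.2 ⟨0, Or.inr hi⟩, fun h => H_not_V hx h.subset⟩

/-! ### Thinning -/

theorem exists_tau (Q : List Bool → Prop) (u0 : List Bool) (h0 : Q u0)
    (hd : ∀ w, u0 <:+ w → ∃ w', w <:+ w' ∧ Q w') :
    ∃ τ : List Bool → List Bool, (∀ v, ¬ u0 <:+ v → τ v = v) ∧ τ u0 = u0 ∧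
      (∀ a v, (a :: τ v) <:+ τ (a :: v)) ∧
      (∀ a v, u0 <:+ v → (true :: a :: τ v) <:+ τ (a :: v)) ∧ ∀ v, u0 <:+ v → Q (τ v) := by
  classical
  choose! pick hp1 hp2 using hd
  let τ : List Bool → List Bool := fun v =>
    List.rec [] (fun a v r => if u0 <:+ v then pick (true :: a :: r) else a :: v) v
  have hc : ∀ a v, τ (a :: v) = if u0 <:+ v then pick (true :: a :: τ v) else a :: v :=
    fun _ _ => rfl
  have h1 : ∀ v, ¬ u0 <:+ v → τ v = v := by
    intro v hv
    cases v with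
    | nil => rfl
    | cons a v => rw [hc, if_neg fun h => hv (h.trans (List.suffix_cons _ _))]
  have h2 : τ u0 = u0 := by
    cases hu : u0 with
    | nil => rfl
    | cons a v => rw [hc, if_neg]; rw [hu]; exact not_cons_suf List.suffix_rfl
  have h3 : ∀ v, u0 <:+ v → u0 <:+ τ v := by
    intro v
    induction v with
    | nil => exact id
    | cons a v ih =>
      intro hv
      rw [hc]
      split_ifs with h
      · have : u0 <:+ true :: a :: τ v :=
          (ih h).trans ((List.suffix_cons _ _).trans (List.suffix_cons _ _))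
        exact this.trans (hp1 _ this)
      · exact hv
  have h4 : ∀ a v, u0 <:+ v → (true :: a :: τ v) <:+ τ (a :: v) := by
    intro a v h
    rw [hc, if_pos h]
    exact hp1 _ ((h3 v h).trans ((List.suffix_cons _ _).trans (List.suffix_cons _ _)))
  refine ⟨τ, h1, h2, fun a v => ?_, h4, fun v hv => ?_⟩
  · by_cases h : u0 <:+ v
    · exact (List.suffix_cons _ _).trans (h4 a v h)
    · rw [hc, if_neg h, h1 v h]
  · by_cases e : u0 = v
    · rw [← e, h2]; exact h0
    · cases v with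
      | nil => exact (e (List.suffix_nil.1 hv)).elim
      | cons a v =>
        have h : u0 <:+ v := (List.suffix_cons_iff.1 hv).resolve_left e
        rw [hc, if_pos h]
        exact hp2 _ ((h3 v h).trans ((List.suffix_cons _ _).trans (List.suffix_cons _ _)))

theorem tau_mono {τ : List Bool → List Bool} (h : ∀ a v, (a :: τ v) <:+ τ (a :: v))
    {s v : List Bool} (hs : s <:+ v) : τ s <:+ τ v := by
  obtain ⟨l, rfl⟩ := hs
  induction l with
  | nil => exact List.suffix_rfl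
  | cons a l ih => exact ih.trans ((List.suffix_cons _ _).trans (h a _))

theorem start (R : E → Prop) (s0 : List Bool)
    (hd : ∀ w, s0 <:+ w → ∃ w', w <:+ w' ∧ R (base w')) :
    ∃ x : List Bool → E, (∀ t, Valid (x t) ∧ R (x t)) ∧ Good x := by
  obtain ⟨u0, hu, h0⟩ := hd s0 List.suffix_rfl
  obtain ⟨τ, -, -, t3, -, t5⟩ := exists_tau (fun w => R (base w)) u0 h0
    fun w hw => hd w (hu.trans hw)
  have hm : ∀ {s v : List Bool}, s <:+ v → τ (s ++ u0) <:+ τ (v ++ u0) := by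
    rintro s v ⟨l, rfl⟩
    exact tau_mono t3 ⟨l, by simp⟩
  refine ⟨fun t => base (τ (t ++ u0)), fun t => ⟨trivial, t5 _ (List.suffix_append _ _)⟩,
    fun a s => ⟨_, hm (List.suffix_cons _ _), rfl⟩, ?_, ?_, ?_, ?_, ?_⟩
  · rintro a s ⟨t, ht, e⟩
    injection e with e
    exact not_cons_suf (a := a) List.suffix_rfl ((t3 a (s ++ u0)).trans (e ▸ ht))
  · rintro s u v hu hv _ ⟨⟨w, hw, rfl⟩, ⟨w', hw', e⟩⟩
    injection e with e
    subst e
    exact ⟨w, common ((t3 true _).trans (hm hu)) ((t3 false _).trans (hm hv)) hw hw', rfl⟩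
  · rintro s v - e'' e _ - ⟨x, w, rfl, -⟩ ⟨_, -, h⟩
    cases h
  · rintro a s e ⟨x, w, h, -⟩
    cases h
  · rintro s v - γ w w' ⟨_, -, h⟩
    cases h

theorem modify (R : E → Prop) {x : List Bool → E} (hx : ∀ t, Valid (x t) ∧ R (x t)) (hg : Good x)
    (u0 : List Bool) (h0 : R (node x u0)) (hd : ∀ w, ∃ w', w <:+ w' ∧ R (node x w')) :
    ∃ z : List Bool → E, (∀ t, Valid (z t) ∧ R (z t)) ∧ Good z ∧ z u0 = node x u0 ∧
      ∀ t, ¬ u0 <:+ t → z t = x t := by
  classical
  have hv : ∀ t, Valid (x t) := fun t => (hx t).1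
  obtain ⟨τ, t1, t2, t3, t4, t5⟩ := exists_tau (fun w => R (node x w)) u0 h0 fun w _ => hd w
  let z : List Bool → E := fun v => if u0 <:+ v then node x (τ v) else x v
  have z1 : ∀ v, u0 <:+ v → z v = node x (τ v) := fun v h => if_pos h
  have z2 : ∀ v, ¬ u0 <:+ v → z v = x v := fun v h => if_neg h
  have hz : ∀ v e, e ∈ up (z v) ↔
      e ∈ up (x (τ v)) ∨ (u0 <:+ v ∧ ∃ w, w <:+ τ v ∧ e = node x w) := by
    intro v e
    by_cases h : u0 <:+ v
    · rw [z1 v h]
      simp only [h, true_and]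
      exact or_comm
    · rw [z2 v h, t1 v h]
      simp [h]
  have hzn : ∀ v w, node x w ∈ up (z v) ↔ u0 <:+ v ∧ w <:+ τ v := by
    intro v w
    rw [hz]
    constructor
    · rintro (h | ⟨h, w', h', e⟩)
      · exact (node_not_mem _ _ _ h).elim
      · injection e with _ e
        exact ⟨h, e ▸ h'⟩
    · exact fun h => Or.inr ⟨h.1, w, h.2, rfl⟩
  have hold : ∀ v e t, e ∈ up (x t) → e ∈ up (z v) → e ∈ up (x (τ v)) := by
    intro v e t h1 h2
    rcases (hz v e).1 h2 with h | ⟨-, w, -, rfl⟩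
    · exact h
    · exact (node_not_mem _ _ _ h1).elim
  refine ⟨z, fun t => ?_, ⟨?_, ?_, ?_, ?_, ?_, ?_⟩, by rw [z1 _ List.suffix_rfl, t2], z2⟩
  · by_cases h : u0 <:+ t
    · rw [z1 t h]; exact ⟨⟨hv, hg⟩, t5 t h⟩
    · rw [z2 t h]; exact hx t
  · intro a s
    have hm := tau_mono t3 (List.suffix_cons a s)
    by_cases h : u0 <:+ s
    · rw [z1 s h, hzn]
      exact ⟨h.trans (List.suffix_cons _ _), hm⟩
    · rw [z2 s h, hz]
      rw [t1 s h] at hm
      exact Or.inl (chain hv hg hm (self_mem _))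
  · intro a s
    by_cases h : u0 <:+ a :: s
    · rw [z1 _ h, hzn]
      exact fun h' => not_cons_suf (a := a) List.suffix_rfl ((t3 a s).trans h'.2)
    · rw [z2 _ h, z2 s fun h' => h (h'.trans (List.suffix_cons _ _))]
      exact hg.strict a s
  · rintro s u v hu hv' e ⟨h1, h2⟩
    have a1 := (t3 true s).trans (tau_mono t3 hu)
    have a2 := (t3 false s).trans (tau_mono t3 hv')
    rcases (hz u e).1 h1 with h | ⟨h, w, hw, rfl⟩
    · exact (hz s e).2 (Or.inl (hg.meet _ _ _ a1 a2 ⟨h, hold v e _ h h2⟩))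
    · obtain ⟨b1, b2⟩ := (hzn v w).1 h2
      exact (hzn s w).2 ⟨common hu hv' h b1, common a1 a2 hw b2⟩
  · intro s v hs e'' e e' p1 p2 h1 h2
    have hm := tau_mono t3 hs
    rcases (hz v e').1 h1 with h | ⟨h, w, hw, rfl⟩
    · have b1 : e ∈ up (x (τ v)) := (up_trans _ (hv _) _ h).2 (par_mem p2)
      have b2 : e'' ∈ up (x (τ v)) := (up_trans _ (hv _) _ b1).2 (par_mem p1)
      exact (hz s e).2 (Or.inl (hg.c2 _ _ hm _ _ _ p1 p2 h (hold s _ _ b2 h2)))
    · obtain ⟨y, t, e1, rfl⟩ := p2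
      injection e1 with e1 e2
      subst e1 e2
      have b2 := hold s _ _ (par_mem p1) h2
      by_cases hc : w <:+ τ s
      · exact (hz s _).2 (Or.inl (chain hv hg hc (self_mem _)))
      · exfalso
        have b3 : τ s <:+ w := (suf_total hm hw).resolve_right hc
        cases w with
        | nil => exact hc List.nil_suffix
        | cons a w =>
          have b4 : τ s <:+ w := (List.suffix_cons_iff.1 b3).resolve_left fun h => hc (h ▸ List.suffix_rfl)
          exact hg.c3 a w _ p1 (chain hv hg b4 b2)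
  · intro a s e p
    by_cases h : u0 <:+ a :: s
    · rw [z1 _ h] at p
      obtain ⟨y, t, e1, rfl⟩ := p
      injection e1 with e1 e2
      subst e1 e2
      exact fun h' => strict' hv hg (t3 a s) (hold s _ _ (self_mem _) h')
    · rw [z2 _ h] at p
      rw [z2 s fun h' => h (h'.trans (List.suffix_cons _ _))]
      exact hg.c3 a s e p
  · intro s v hs γ w w' h1 h2 h3
    by_cases e : γ = x
    · subst e
      obtain ⟨b1, -⟩ := (hzn _ _).1 h1
      obtain ⟨a, ha⟩ := suf_cons hs (by rintro rfl; exact h3 h2)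
      refine ⟨a :: τ s, (hzn _ _).2 ⟨b1.trans hs, (t4 a s b1).trans (tau_mono t3 ha)⟩, fun h => ?_⟩
      exact not_cons_suf (List.suffix_cons a (τ s)) ((hzn _ _).1 h).2
    · have key : ∀ v w, node γ w ∈ up (z v) ↔ node γ w ∈ up (x (τ v)) := by
        intro v w
        rw [hz]
        constructor
        · rintro (h | ⟨-, w', -, h⟩)
          · exact h
          · injection h with h; exact (e h).elim
        · exact Or.inl
      simp only [key] at h1 h2 h3 ⊢
      exact hg.c4 _ _ (tau_mono t3 hs) γ w w' h1 h2 h3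

theorem main (R B : E → Prop) (hdis : ∀ e, R e → B e → False)
    (hR : ∀ F, Pt F → ∀ p ∈ F, ∃ e ∈ F, p ∈ up e ∧ R e)
    (hB : ∀ F, Pt F → ∀ p ∈ F, ∃ e ∈ F, p ∈ up e ∧ B e)
    (x0 : List Bool → E) (hx0 : ∀ t, Valid (x0 t) ∧ R (x0 t)) (hg0 : Good x0) : False := by
  let S := {x : List Bool → E // (∀ t, Valid (x t) ∧ R (x t)) ∧ Good x}
  let A : S → ℕ → S → Prop := fun y n x => ∀ t, Encodable.encode t < n → x.1 t = y.1 t
  have step : ∀ (y : S) (n : ℕ), ∃ y' : S, A y n y' ∧ ∀ u, Encodable.encode u = n →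
      ∀ x'' x' : S, A y n x'' → A y n x' → x''.1 u = y'.1 u → x'.1 u ≠ node x''.1 u := by
    intro y n
    by_cases hu : ∃ u : List Bool, Encodable.encode u = n
    swap
    · exact ⟨y, fun _ _ => rfl, fun u h => (hu ⟨u, h⟩).elim⟩
    obtain ⟨u, hu⟩ := hu
    by_contra hc
    push Not at hc
    have hc' : ∀ y' : {y' : S // A y n y'}, ∃ (x'' : S) (x' : {y' : S // A y n y'}),
        A y n x'' ∧ x''.1 u = y'.1.1 u ∧ x'.1.1 u = node x''.1 u := by
      intro y'
      obtain ⟨u', hu', x'', x', a1, a2, a3, a4⟩ := hc y'.1 y'.2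
      obtain rfl : u' = u := Encodable.encode_injective (hu'.trans hu.symm)
      exact ⟨x'', ⟨x', a2⟩, a1, a3, a4⟩
    choose f g a1 a2 a3 using hc'
    let Y : ℕ → {y' : S // A y n y'} := fun i => Nat.rec ⟨y, fun _ _ => rfl⟩ (fun _ y' => g y') i
    have hV : VSeq (fun i => (f (Y i)).1) u :=
      ⟨fun i t => ((f (Y i)).2.1 t).1, fun i => (f (Y i)).2.2,
        fun i => (a2 (Y (i + 1))).trans (a3 (Y i)), fun i t ht hne => by
          have := hu ▸ enc_lt ht hne
          exact (a1 _ t this).trans (a1 _ t this).symm⟩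
    obtain ⟨e, he, hp, hb⟩ := hB _ (Or.inr ⟨_, u, hV, rfl⟩) ((f (Y 0)).1 u)
      (mem_iUnion.2 ⟨0, self_mem _⟩)
    obtain ⟨i, hi⟩ := mem_iUnion.1 he
    suffices ∃ j, e = (f (Y j)).1 u by
      obtain ⟨j, rfl⟩ := this
      exact hdis _ ((f (Y j)).2.1 u).2 hb
    induction i with
    | zero => exact ⟨0, antisymm _ (hV.valid 0 u) _ hi hp⟩
    | succ i ih =>
      have hi' : e ∈ up (node (f (Y i)).1 u) := by rw [← hV.step i]; exact hi
      rcases hi' with ⟨t, ht, rfl⟩ | hi'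
      · by_cases htu : t = u
        · exact ⟨i + 1, by rw [htu]; exact (hV.step i).symm⟩
        · exfalso
          rcases hp with ⟨t', -, h⟩ | hp
          · exact node_not_mem _ t' u (h ▸ hV.mono (Nat.zero_le i) (self_mem _))
          · obtain ⟨a, ha⟩ := suf_cons ht htu
            have := hV.anc i t ht htu
            rw [this] at hp
            exact strict' (hV.valid 0) (hV.good 0) ha hp
      · exact ih hi'
  choose nx s1 s2 using step
  let Y : ℕ → S := fun n => Nat.rec ⟨x0, hx0, hg0⟩ (fun n y => nx y n) n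
  have hag : ∀ n m, n ≤ m → A (Y n) n (Y m) := by
    intro n m h
    induction h with
    | refl => exact fun _ _ => rfl
    | step h ih => exact fun t ht => (s1 _ _ t (ht.trans_le h)).trans (ih t ht)
  let x : List Bool → E := fun t => (Y (Encodable.encode t + 1)).1 t
  have hx : ∀ n t, Encodable.encode t < n → x t = (Y n).1 t := fun n t h =>
    (hag _ n h t (Nat.lt_succ_self _)).symm
  have lim : ∀ s u v, ∃ y : S, x s = y.1 s ∧ x u = y.1 u ∧ x v = y.1 v := by
    intro s u v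
    obtain ⟨N, h1, h2, h3⟩ : ∃ N, Encodable.encode s < N ∧ Encodable.encode u < N ∧
        Encodable.encode v < N :=
      ⟨Encodable.encode s + Encodable.encode u + Encodable.encode v + 1, by omega, by omega,
        by omega⟩
    exact ⟨Y N, hx N s h1, hx N u h2, hx N v h3⟩
  have hxv : ∀ t, Valid (x t) ∧ R (x t) := fun t => (Y (Encodable.encode t + 1)).2.1 t
  have hxg : Good x := by
    refine ⟨fun a s => ?_, fun a s => ?_, fun s u v => ?_, fun s v => ?_, fun a s => ?_,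
      fun s v => ?_⟩
    · obtain ⟨y, h1, h2, -⟩ := lim s (a :: s) s
      rw [h1, h2]; exact y.2.2.mono a s
    · obtain ⟨y, h1, h2, -⟩ := lim s (a :: s) s
      rw [h1, h2]; exact y.2.2.strict a s
    · obtain ⟨y, h1, h2, h3⟩ := lim s u v
      rw [h1, h2, h3]; exact y.2.2.meet s u v
    · obtain ⟨y, h1, h2, -⟩ := lim s v s
      rw [h1, h2]; exact y.2.2.c2 s v
    · obtain ⟨y, h1, h2, -⟩ := lim s (a :: s) s
      rw [h1, h2]; exact y.2.2.c3 a s
    · obtain ⟨y, h1, h2, -⟩ := lim s v s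
      rw [h1, h2]; exact y.2.2.c4 s v
  have hd : ∀ w, ∃ w', w <:+ w' ∧ R (node x w') := by
    intro w
    obtain ⟨e, he, hp, hr⟩ := hR _ (Or.inl ⟨x, w, fun t => (hxv t).1, hxg, rfl⟩) (node x w)
      (mem_iUnion.2 ⟨0, self_mem _⟩)
    obtain ⟨n, ⟨t, -, rfl⟩ | hn⟩ := mem_iUnion.1 he
    · exact ⟨t, node_mem_node.1 hp, hr⟩
    · exact (node_not_mem _ _ _ ((up_trans _ (hxv _).1 _ hn).2 hp)).elim
  obtain ⟨u0, -, h0⟩ := hd []
  obtain ⟨z, z1, z2, z3, z4⟩ := modify R hxv hxg u0 h0 hd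
  exact s2 (Y (Encodable.encode u0)) _ u0 rfl ⟨x, hxv, hxg⟩ ⟨z, z1, z2⟩ (fun t ht => hx _ t ht)
    (fun t ht => (z4 t fun h => absurd (enc_le h) (not_le.2 ht)).trans (hx _ t ht)) rfl z3

/-! ### The space -/

def X : Type := {F : Set E // Pt F}

def U (e : E) : Set X := {F | e ∈ F.1}

def BB : Set (Set X) := {W | W = ∅ ∨ ∃ e, Valid e ∧ W = U e}

instance : TopologicalSpace X := TopologicalSpace.generateFrom BB

theorem U_inter (e1 e2 : E) : U e1 ∩ U e2 = ∅ ∨
    ∃ m, Valid m ∧ e1 ∈ up m ∧ e2 ∈ up m ∧ U e1 ∩ U e2 = U m := by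
  rcases (U e1 ∩ U e2).eq_empty_or_nonempty with h | ⟨F, h1, h2⟩
  · exact Or.inl h
  obtain ⟨c, -, hc, a1, a2⟩ := F.2.two h1 h2
  obtain ⟨m, hm, b1, b2, b3⟩ := meet hc a1 a2
  refine Or.inr ⟨m, hm, b1, b2, Subset.antisymm ?_ ?_⟩
  · rintro G ⟨g1, g2⟩
    obtain ⟨d, hd, hv, c1, c2⟩ := G.2.two g1 g2
    exact (G.2.valid hd).2 (b3 d hv c1 c2)
  · exact fun G hG => ⟨(G.2.valid hG).2 b1, (G.2.valid hG).2 b2⟩

theorem BB_inter : ∀ V ∈ BB, ∀ W ∈ BB, V ∩ W ∈ BB := by
  rintro _ (rfl | ⟨e1, -, rfl⟩) _ (rfl | ⟨e2, -, rfl⟩)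
  · exact Or.inl (by simp)
  · exact Or.inl (by simp)
  · exact Or.inl (by simp)
  · rcases U_inter e1 e2 with h | ⟨m, hm, -, -, h⟩
    · exact Or.inl h
    · exact Or.inr ⟨m, hm, h⟩

theorem basis : TopologicalSpace.IsTopologicalBasis BB := by
  refine ⟨fun V hV W hW x hx => ⟨_, BB_inter V hV W hW, hx, subset_rfl⟩, ?_, rfl⟩
  refine eq_univ_of_forall fun F => ?_
  obtain ⟨e, he⟩ := F.2.nonempty
  exact ⟨U e, Or.inr ⟨e, (F.2.valid he).1, rfl⟩, he⟩

theorem t1 : T1Space X := by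
  refine t1Space_iff_exists_open.2 fun F G hFG => ?_
  have : ¬ F.1 ⊆ G.1 := fun h => hFG (Subtype.ext (F.2.eq_of_subset G.2 h))
  obtain ⟨e, h1, h2⟩ := not_subset.1 this
  exact ⟨U e, basis.isOpen (Or.inr ⟨e, (F.2.valid h1).1, rfl⟩), h1, h2⟩

theorem no_isolated (F : X) : ¬ IsOpen ({F} : Set X) := by
  intro h
  obtain ⟨_, rfl | ⟨e, -, rfl⟩, h1, h2⟩ := basis.exists_subset_of_mem_open (mem_singleton F) h
  · exact h1
  · obtain ⟨G, hG, g1, g2⟩ := F.2.other h1
    exact g2 (congrArg Subtype.val (h2 (show (⟨G, hG⟩ : X) ∈ U e from g1)))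

theorem cof {B : Set (Set X)} (hB : TopologicalSpace.IsTopologicalBasis B) (hs : B ⊆ BB) :
    ∀ F, Pt F → ∀ p ∈ F, ∃ e ∈ F, p ∈ up e ∧ U e ∈ B := by
  intro F hF p hp
  obtain ⟨W, hW, h1, h2⟩ := hB.exists_subset_of_mem_open (show (⟨F, hF⟩ : X) ∈ U p from hp)
    (basis.isOpen (Or.inr ⟨p, (hF.valid hp).1, rfl⟩))
  rcases hs hW with rfl | ⟨e, -, rfl⟩
  · exact h1.elim
  rcases U_inter e p with h | ⟨m, -, -, b2, h⟩
  · exact (h.subset ⟨h1, h2 h1⟩).elim
  · rw [inter_eq_left.2 h2] at h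
    exact ⟨m, (h.subset h1 :), b2, h ▸ hW⟩

theorem not_resolvable (B0 B1 : Set (Set X)) (hu : B0 ∪ B1 = BB) (hd : Disjoint B0 B1)
    (h0 : TopologicalSpace.IsTopologicalBasis B0) (h1 : TopologicalSpace.IsTopologicalBasis B1) :
    False := by
  have c0 := cof h0 (hu ▸ subset_union_left)
  have c1 := cof h1 (hu ▸ subset_union_right)
  by_cases h : ∀ w, [] <:+ w → ∃ w', w <:+ w' ∧ U (base w') ∈ B0
  · obtain ⟨x, hx, hg⟩ := start (fun e => U e ∈ B0) [] h
    exact main _ _ (fun e a b => disjoint_left.1 hd a b) c0 c1 x hx hg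
  · push Not at h
    obtain ⟨s0, -, h⟩ := h
    obtain ⟨x, hx, hg⟩ := start (fun e => U e ∈ B1) s0 fun w hw => ⟨w, List.suffix_rfl, by
      have : U (base w) ∈ B0 ∪ B1 := hu ▸ Or.inr ⟨base w, trivial, rfl⟩
      exact this.resolve_left (h w hw)⟩
    exact main _ _ (fun e a b => disjoint_left.1 hd b a) c1 c0 x hx hg

end Pool.Agent.H84.MeetB
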