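import Mathlib

open Set Filter Topology unitInterval

namespace Pool.Agent.H84.MetAn

universe u v

/-- `(M, m₀, q)` is a metric analog of the based space `(X, x₀)`. -/
def IsAnalog {X M : Type u} [TopologicalSpace X] [MetricSpace M] (x₀ : X) (m₀ : M) (q : M → X) :
    Prop :=
  IsOpenQuotientMap q ∧ q m₀ = x₀ ∧ ∀ (A : Type v) [MetricSpace A] (a₀ : A),
    (∀ f : A → X, Continuous f → f a₀ = x₀ → ∃ g : A → M, Continuous g ∧ g a₀ = m₀ ∧ q ∘ g = f) ∧
    ∀ f g : A → M, Continuous f → Continuous g → f a₀ = m₀ → g a₀ = m₀ → q ∘ f = q ∘ g →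
      ∃ F : A × I → M, Continuous F ∧ (∀ a, F (a, 0) = f a) ∧ (∀ a, F (a, 1) = g a) ∧
        (∀ s, F (a₀, s) = m₀) ∧ ∀ a s t, q (F (a, s)) = q (F (a, t))

/-- The based space `(X, x₀)` has a metric analog. -/
def HasAnalog {X : Type u} [TopologicalSpace X] (x₀ : X) : Prop :=
  ∃ (M : Type u) (_ : MetricSpace M) (m₀ : M) (q : M → X), IsAnalog.{u, v} x₀ m₀ q

/-- The topology of `X` is induced by a quasimetric. -/
def Quasimetrizable (X : Type u) [TopologicalSpace X] : Prop :=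
  ∃ d : X → X → ℝ, (∀ x y, 0 ≤ d x y) ∧ (∀ x, d x x = 0) ∧ (∀ x y z, d x z ≤ d x y + d y z) ∧
    TopologicalSpace.IsTopologicalBasis {B | ∃ x, ∃ r > 0, B = {y | d x y < r}}

variable {X : Type u}

abbrev E (X : Type u) := lp (fun _ : X => ℝ) ⊤

noncomputable def e (B : Set X) : E X :=
  ⟨B.indicator 1, memℓp_infty ⟨1, by
    rintro _ ⟨x, rfl⟩
    by_cases h : x ∈ B <;> simp [h]⟩⟩

lemma e_mem {B : Set X} {x : X} (h : x ∈ B) : e B x = 1 := indicator_of_mem h _

lemma e_not {B : Set X} {x : X} (h : x ∉ B) : e B x = 0 := indicator_of_notMem h _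

variable [TopologicalSpace X]

def Good (x : X) (l : ℕ → E X) : Prop :=
  (∀ n, ∀ᶠ y in 𝓝 x, l n y = 1) ∧ ∀ O ∈ 𝓝 x, ∀ᶠ n in atTop, ∀ y ∉ O, l n y = 0

lemma Good.near {x : X} {l : ℕ → E X} (h : Good x l) {O : Set X} (hO : O ∈ 𝓝 x) :
    ∀ᶠ m in 𝓝 l, ∀ y, Good y m → y ∈ O := by
  obtain ⟨n, hn⟩ := (h.2 O hO).exists
  filter_upwards [(continuous_apply n).continuousAt.eventually (Metric.ball_mem_nhds (l n) one_pos)]
    with m hm y hy
  by_contra hy'
  have := (lp.norm_apply_le_norm ENNReal.top_ne_zero (m n - l n) y).trans_lt (mem_ball_iff_norm.1 hm)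
  simp [hn y hy', (hy.1 n).self_of_nhds] at this

lemma Good.uniq [T0Space X] {x y : X} {l : ℕ → E X} (h : Good x l) (h' : Good y l) : x = y :=
  (inseparable_iff_forall_isOpen.2 fun _ hU =>
    ⟨fun hx => (h.near (hU.mem_nhds hx)).self_of_nhds y h',
      fun hy => (h'.near (hU.mem_nhds hy)).self_of_nhds x h⟩).eq

variable (X) in
def M : Type u := {l : ℕ → E X // ∃ x, Good x l}

noncomputable instance : MetricSpace (M X) :=
  haveI : TopologicalSpace.MetrizableSpace {l : ℕ → E X // ∃ x, Good x l} :=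
    IsEmbedding.subtypeVal.metrizableSpace
  TopologicalSpace.metrizableSpaceMetric {l : ℕ → E X // ∃ x, Good x l}

noncomputable def q (l : M X) : X := l.2.choose

def val (l : M X) : ℕ → E X := l.1

lemma emb : IsEmbedding (val : M X → ℕ → E X) := IsEmbedding.subtypeVal

theorem analog [T0Space X] (G : ℕ → X → Set X) (ho : ∀ n x, IsOpen (G n x)) (hm : ∀ n x, x ∈ G n x)
    (hC : ∀ x, ∀ O ∈ 𝓝 x, ∃ W ∈ 𝓝 x, ∀ᶠ n in atTop, ∀ y ∈ W, x ∈ G n y → G n y ⊆ O) (x₀ : X) :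
    HasAnalog.{u, v} x₀ := by
  have gq : ∀ l : M X, Good (q l) l.1 := fun l => l.2.choose_spec
  have g0 : ∀ x, Good x fun n => e (G n x) := fun x =>
    ⟨fun n => mem_of_superset ((ho n x).mem_nhds (hm n x)) fun _ => e_mem, fun O hO => by
      obtain ⟨W, hW, h⟩ := hC x O hO
      exact h.mono fun n hn y hy => e_not fun h' => hy (hn x (mem_of_mem_nhds hW) (hm n x) h')⟩
  refine ⟨M X, inferInstance, ⟨_, x₀, g0 x₀⟩, q, ⟨fun x => ⟨⟨_, x, g0 x⟩, (gq _).uniq (g0 x)⟩, ?_, ?_⟩,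
    (gq _).uniq (g0 x₀), fun A _ a₀ => ⟨fun f hf h0 => ?_, fun f g hf hg f0 g0' h => ?_⟩⟩
  · refine continuous_iff_continuousAt.2 fun l O hO => ?_
    exact (emb.continuous.continuousAt.eventually ((gq l).near hO)).mono fun m h => h _ (gq m)
  · refine isOpenMap_iff_nhds_le.2 fun l U hU => ?_
    rw [mem_map, emb.isInducing.nhds_eq_comap, nhds_pi, mem_comap] at hU
    obtain ⟨V, hV, hU⟩ := hU
    obtain ⟨N, hN, t, ht, hV⟩ := mem_pi.1 hV
    filter_upwards [(eventually_all_finite hN).2 fun n _ => ((gq l).1 n).eventually_nhds] with y hy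
    classical
    have : Good y fun n => if n ∈ N then l.1 n else e (G n y) :=
      ⟨fun n => by
        by_cases h : n ∈ N
        · simpa only [if_pos h] using hy n h
        · simpa only [if_neg h] using (g0 y).1 n, fun O hO => by
        filter_upwards [(g0 y).2 O hO, Nat.cofinite_eq_atTop ▸ hN.compl_mem_cofinite] with n h1 h2
        simpa only [if_neg h2] using h1⟩
    have := hU (show (⟨_, y, this⟩ : M X) ∈ _ from hV fun n hn => by
      simp only [val, if_pos hn]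
      exact mem_of_mem_nhds (ht n))
    rwa [mem_preimage, (gq _).uniq ‹Good y _›] at this
  · let U : ℕ → A → Set A := fun n a =>
      f ⁻¹' G n (f a) ∩ Metric.ball a (1 / (n + 1)) ∩ {b | b = a₀ → a = a₀}
    have hU : ∀ n a, IsOpen (U n a) := fun n a => (((ho n _).preimage hf).inter Metric.isOpen_ball).inter (by
      by_cases h : a = a₀
      · simp [h]
      · simpa [h] using isOpen_ne)
    choose θ hθ using fun n => PartitionOfUnity.exists_isSubordinate isClosed_univ (U n) (hU n)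
      fun a _ => mem_iUnion.2 ⟨a, ⟨hm n _, Metric.mem_ball_self (by positivity)⟩, id⟩
    have sup : ∀ n a, ∀ b ∈ (θ n).finsupport a, a ∈ U n b := fun n a b hb =>
      hθ n b (subset_tsupport _ ((θ n).mem_finsupport a |>.1 hb))
    let l : A → ℕ → E X := fun a n => ∑ᶠ b, θ n b a • e (G n (f b))
    have ev : ∀ a n y, l a n y = ∑ b ∈ (θ n).finsupport a, θ n b a * e (G n (f b)) y := fun a n y => by
      simp only [l]
      rw [← (θ n).sum_finsupport_smul_eq_finsum (fun b _ => e (G n (f b))), lp.coeFn_sum, Finset.sum_apply]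
      rfl
    have gl : ∀ a, Good (f a) (l a) := fun a => ⟨fun n => by
      filter_upwards [(eventually_all_finset ((θ n).finsupport a)).2 fun b hb =>
        (ho n _).mem_nhds (sup n a b hb).1.1] with y hy
      rw [ev, ← (θ n).sum_finsupport (mem_univ a)]
      exact Finset.sum_congr rfl fun b hb => by rw [e_mem (hy b hb), mul_one], fun O hO => by
      obtain ⟨W, hW, h⟩ := hC _ O hO
      obtain ⟨δ, hδ, h'⟩ := Metric.mem_nhds_iff.1 (hf.continuousAt hW)
      filter_upwards [h, tendsto_one_div_add_atTop_nhds_zero_nat.eventually (gt_mem_nhds hδ)]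
        with n h1 h2 y hy
      rw [ev]
      refine Finset.sum_eq_zero fun b hb => ?_
      have := sup n a b hb
      rw [e_not fun hy' => hy (h1 _ (h' (Metric.ball_subset_ball h2.le (Metric.mem_ball_comm.1 this.1.2)))
        this.1.1 hy'), mul_zero]⟩
    refine ⟨fun a => ⟨l a, _, gl a⟩, emb.continuous_iff.2 (continuous_pi fun n =>
      (θ n).continuous_finsum_smul fun _ _ _ => continuousAt_const), Subtype.ext (funext fun n => ?_),
      funext fun a => (gq _).uniq (gl a)⟩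
    refine lp.ext (funext fun y => ?_)
    change l a₀ n y = e (G n x₀) y
    rw [ev, ← one_mul (e (G n x₀) y), ← (θ n).sum_finsupport (mem_univ a₀), Finset.sum_mul]
    exact Finset.sum_congr rfl fun b hb => by rw [(sup n a₀ b hb).2 rfl, h0]
  · have gl : ∀ p : A × I, Good (q (f p.1)) fun n => (1 - (p.2 : ℝ)) • (f p.1).1 n + (p.2 : ℝ) • (g p.1).1 n :=
      fun p => by
        have h1 := gq (f p.1)
        have h2 := gq (g p.1)
        rw [← show q (f p.1) = q (g p.1) from congrFun h p.1] at h2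
        refine ⟨fun n => ?_, fun O hO => ?_⟩
        · filter_upwards [h1.1 n, h2.1 n] with y a b
          simp [a, b]
        · filter_upwards [h1.2 O hO, h2.2 O hO] with n a b y hy
          simp [a y hy, b y hy]
    refine ⟨fun p => ⟨_, _, gl p⟩, emb.continuous_iff.2 (continuous_pi fun n => ?_),
      fun a => Subtype.ext (by simp), fun a => Subtype.ext (by simp), fun s => Subtype.ext ?_,
      fun a s t => ((gq _).uniq (gl (a, s))).trans ((gq _).uniq (gl (a, t))).symm⟩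
    · have h1 := (continuous_apply n).comp (emb.continuous.comp hf)
      have h2 := (continuous_apply n).comp (emb.continuous.comp hg)
      exact ((continuous_const.sub (continuous_subtype_val.comp continuous_snd)).smul (h1.comp continuous_fst)).add
        ((continuous_subtype_val.comp continuous_snd).smul (h2.comp continuous_fst))
    · funext n
      simp only [f0, g0', ← add_smul, sub_add_cancel, one_smul]

lemma qm_nhds {d : X → X → ℝ} (h0 : ∀ x, d x x = 0) (ht : ∀ x y z, d x z ≤ d x y + d y z)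
    (hb : TopologicalSpace.IsTopologicalBasis {B | ∃ x, ∃ r > 0, B = {y | d x y < r}}) (x : X) :
    (𝓝 x).HasBasis (fun r : ℝ => 0 < r) fun r => {y | d x y < r} := ⟨fun O => by
  refine ⟨fun h => ?_, fun ⟨r, hr, h⟩ => mem_of_superset
    ((hb.isOpen ⟨x, r, hr, rfl⟩).mem_nhds (by simpa [h0])) h⟩
  obtain ⟨_, ⟨z, r, -, rfl⟩, h1, h2⟩ := hb.mem_nhds_iff.1 h
  exact ⟨r - d z x, sub_pos.2 h1, fun y hy => h2 (by
    simp only [mem_ofPred_eq] at hy ⊢; linarith [ht z x y])⟩⟩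

theorem qm_analog [T0Space X] (h : Quasimetrizable X) (x₀ : X) : HasAnalog.{u, v} x₀ := by
  obtain ⟨d, -, h0, ht, hb⟩ := h
  refine analog (fun n x => {y | d x y < 1 / (n + 1)}) (fun n x => hb.isOpen ⟨x, _, by positivity, rfl⟩)
    (fun n x => by simpa [h0] using by positivity) (fun x O hO => ?_) x₀
  obtain ⟨r, hr, h⟩ := (qm_nhds h0 ht hb x).mem_iff.1 hO
  refine ⟨_, (qm_nhds h0 ht hb x).mem_of_mem (half_pos hr), ?_⟩
  filter_upwards [tendsto_one_div_add_atTop_nhds_zero_nat.eventually (gt_mem_nhds (half_pos hr))]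
    with n hn y hy _ z hz
  refine h ?_
  simp only [mem_ofPred_eq] at hy hz ⊢
  linarith [ht x y z]

/-! The example. -/

def Y : Type := (ℕ × ℕ∞) ⊕ (ℕ → ℕ)

def G (n : ℕ) : Y → Set Y
  | Sum.inl (m, i) => {y | ∃ j, y = Sum.inl (m, j) ∧ (j = i ∨ i = ⊤ ∧ (n : ℕ∞) ≤ j)}
  | Sum.inr φ => {y | y = Sum.inr φ ∨ ∃ k ≥ n, ∃ j, y = Sum.inl (k, j) ∧ (φ k : ℕ∞) ≤ j}

lemma G_anti (x : Y) : Antitone fun n => G n x := fun n n' h => by
  rcases x with ⟨m, i⟩ | φ
  · rintro _ ⟨j, rfl, h'⟩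
    exact ⟨j, rfl, h'.imp_right fun h' => ⟨h'.1, (Nat.cast_le.2 h).trans h'.2⟩⟩
  · exact fun y hy => hy.imp_right fun ⟨k, hk, h'⟩ => ⟨k, h.trans hk, h'⟩

instance : TopologicalSpace Y where
  IsOpen U := ∀ x ∈ U, ∃ n, G n x ⊆ U
  isOpen_univ _ _ := ⟨0, subset_univ _⟩
  isOpen_inter U V hU hV x hx := by
    obtain ⟨n, hn⟩ := hU x hx.1
    obtain ⟨m, hm⟩ := hV x hx.2
    exact ⟨max n m, subset_inter ((G_anti x (le_max_left _ _)).trans hn)
      ((G_anti x (le_max_right _ _)).trans hm)⟩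
  isOpen_sUnion S h x := fun ⟨U, hU, hx⟩ =>
    (h U hU x hx).imp fun _ hn => hn.trans (subset_sUnion_of_mem hU)

lemma G_mem (n : ℕ) (x : Y) : x ∈ G n x := by
  rcases x with ⟨m, i⟩ | φ
  · exact ⟨i, rfl, Or.inl rfl⟩
  · exact Or.inl rfl

lemma G_open (n : ℕ) (x : Y) : IsOpen (G n x) := by
  rcases x with ⟨m, i⟩ | φ
  · rintro _ ⟨j, rfl, h⟩
    refine ⟨n, ?_⟩
    rintro _ ⟨j', rfl, rfl | ⟨rfl, h'⟩⟩
    · exact ⟨_, rfl, h⟩
    · exact ⟨_, rfl, Or.inr ⟨h.elim Eq.symm And.left, h'⟩⟩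
  · rintro _ (rfl | ⟨k, hk, j, rfl, h⟩)
    · exact ⟨n, subset_rfl⟩
    · refine ⟨φ k, ?_⟩
      rintro _ ⟨j', rfl, rfl | ⟨-, h'⟩⟩
      · exact Or.inr ⟨k, hk, _, rfl, h⟩
      · exact Or.inr ⟨k, hk, _, rfl, h'⟩

lemma G_nhds {x : Y} {O : Set Y} (h : O ∈ 𝓝 x) : ∃ n, G n x ⊆ O := by
  obtain ⟨U, h1, h2, h3⟩ := mem_nhds_iff.1 h
  exact (h2 x h3).imp fun _ h => h.trans h1

lemma Y_t1 : T1Space Y := t1Space_iff_exists_open.2 fun x y h => by
  suffices ∃ n, y ∉ G n x from this.elim fun n hn => ⟨_, G_open n x, G_mem n x, hn⟩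
  rcases x with ⟨m, i⟩ | φ
  · rcases y with ⟨m', j⟩ | ψ
    · refine ⟨j.toNat + 1, ?_⟩
      rintro ⟨j', e, rfl | ⟨rfl, h'⟩⟩
      · exact h e.symm
      · obtain ⟨rfl, rfl⟩ := Prod.ext_iff.1 (Sum.inl.inj e)
        induction j using ENat.recTopCoe with
        | top => exact h rfl
        | coe a => exact absurd (Nat.cast_le.1 (show ((a + 1 : ℕ) : ℕ∞) ≤ a from h')) (by omega)
    · exact ⟨0, fun ⟨_, e, _⟩ => by cases e⟩
  · rcases y with ⟨m', j⟩ | ψ
    · refine ⟨m' + 1, ?_⟩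
      rintro (e | ⟨k, hk, _, e, -⟩) <;> cases e
      omega
    · refine ⟨0, ?_⟩
      rintro (e | ⟨k, hk, _, e, -⟩) <;> cases e
      exact h rfl

theorem Y_analog (x₀ : Y) : HasAnalog.{0, v} x₀ := by
  have := Y_t1
  refine analog G G_open G_mem (fun x O hO => ?_) x₀
  obtain ⟨N, hN⟩ := G_nhds hO
  refine ⟨G 0 x, (G_open 0 x).mem_nhds (G_mem 0 x), (eventually_ge_atTop N).mono fun n hn y h1 h2 => ?_⟩
  suffices y = x from this ▸ (G_anti x hn).trans hN
  rcases x with ⟨m, i⟩ | φ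
  · obtain ⟨j, rfl, rfl | ⟨rfl, -⟩⟩ := h1
    · rfl
    · obtain ⟨_, e, rfl | ⟨rfl, -⟩⟩ := h2
      · exact e.symm
      · rfl
  · rcases y with ⟨m', j⟩ | ψ
    · obtain ⟨_, e, -⟩ := h2
      cases e
    · rcases h2 with e | ⟨_, _, _, e, -⟩
      · exact e.symm
      · cases e

theorem Y_not : ¬ Quasimetrizable Y := by
  rintro ⟨d, -, h0, ht, hb⟩
  have B := qm_nhds h0 ht hb
  choose h hh using fun (n m : ℕ) => G_nhds ((B (Sum.inl (m, ⊤))).mem_of_mem
    (show (0 : ℝ) < 1 / (n + 1) by positivity))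
  let s : ℕ → ℕ := fun m => (Finset.range (m + 1)).sup fun n => h n m
  obtain ⟨r, hr, hU⟩ := (B (Sum.inr fun m => s m + 1)).mem_iff.1
    ((G_open 0 _).mem_nhds (G_mem 0 _))
  obtain ⟨N, hN⟩ := G_nhds ((B (Sum.inr fun m => s m + 1)).mem_of_mem (half_pos hr))
  obtain ⟨n, hn⟩ := exists_nat_one_div_lt (half_pos hr)
  have p1 := hN (Or.inr ⟨max N n, le_max_left _ _, ⊤, rfl, le_top⟩)
  have p2 := hh n (max N n) (show Sum.inl (max N n, (s (max N n) : ℕ∞)) ∈ _ from
    ⟨_, rfl, Or.inr ⟨rfl, Nat.cast_le.2 (Finset.le_sup (f := fun n' => h n' (max N n))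
      (Finset.mem_range.2 (Nat.lt_succ_of_le (le_max_right _ _))))⟩⟩)
  simp only [mem_ofPred_eq] at p1 p2
  rcases hU (show Sum.inl (max N n, (s (max N n) : ℕ∞)) ∈ {y | _} from
    (ht _ _ _).trans_lt (by linarith)) with e | ⟨k, -, j, e, h'⟩ <;> cases e
  exact absurd (by exact_mod_cast h' : s (max N n) + 1 ≤ s (max N n)) (by omega)

end Pool.Agent.H84.MetAn
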