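import Pool.Agent.H84.MkDefs

/-! An existential-universal definition of timelike from lightlike relatedness. -/

namespace Pool.Agent.H84.Mk

open Pool.Agent.H84.MkDefs

universe u

variable {F : Type u} [Field F] {d : ℕ}

/-- The Minkowski bilinear form. -/
def B : (Fin (d + 1) → F) →ₗ[F] (Fin (d + 1) → F) →ₗ[F] F :=
  LinearMap.mk₂ F (fun a b => a 0 * b 0 - ∑ i : Fin d, a i.succ * b i.succ)
    (fun _ _ _ => by simp [add_mul, Finset.sum_add_distrib]; ring)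
    (fun _ _ _ => by simp [mul_sub, Finset.mul_sum, mul_assoc])
    (fun _ _ _ => by simp [mul_add, Finset.sum_add_distrib]; ring)
    (fun _ _ _ => by simp [mul_sub, Finset.mul_sum, mul_left_comm])

theorem B_def (a b : Fin (d + 1) → F) : B a b = a 0 * b 0 - ∑ i : Fin d, a i.succ * b i.succ := rfl

theorem B_comm (a b : Fin (d + 1) → F) : B a b = B b a := by simp [B_def, mul_comm]

theorem mu_eq (x y : Fin (d + 1) → F) : mu x y = B (y - x) (y - x) := by
  simp only [mu, B_def, Pi.sub_apply]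
  congr 1
  · ring
  · exact Finset.sum_congr rfl fun _ _ => by ring

theorem mu_self (x : Fin (d + 1) → F) : mu x x = 0 := by simp [mu]

theorem null_iff (x y : Fin (d + 1) → F) : x = y ∨ Lightlike x y ↔ mu x y = 0 :=
  ⟨fun h => h.elim (fun e => e ▸ mu_self x) (·.1), fun h => or_iff_not_imp_left.2 fun e => ⟨h, e⟩⟩

variable [LinearOrder F] [IsStrictOrderedRing F]

theorem time0 {a : Fin (d + 1) → F} (h : a 0 = 0) : B a a ≤ 0 ∧ (B a a = 0 → a = 0) := by
  have e : ∀ i ∈ Finset.univ, 0 ≤ a (Fin.succ i) * a i.succ := fun i _ => mul_self_nonneg _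
  rw [B_def, h]
  refine ⟨by simpa using Finset.sum_nonneg e, fun c => funext fun i => ?_⟩
  refine Fin.cases h (fun j => ?_) i
  exact mul_self_eq_zero.1 ((Finset.sum_eq_zero_iff_of_nonneg e).1 (by simpa using c) j
    (Finset.mem_univ _))

theorem orth {a c : Fin (d + 1) → F} (h0 : a ≠ 0) (h1 : B a a = 0) (h2 : B a c = 0) :
    B c c ≤ 0 ∧ (B c c = 0 → ∃ t : F, c = t • a) := by
  have h3 : a 0 ≠ 0 := fun e => h0 ((time0 e).2 h1)
  have h4 := time0 (a := c - (c 0 / a 0) • a) (by simp [h3])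
  have h5 : B (c - (c 0 / a 0) • a) (c - (c 0 / a 0) • a) = B c c := by
    simp [h1, h2, B_comm c a]
  rw [h5] at h4
  exact ⟨h4.1, fun e => ⟨_, sub_eq_zero.1 (h4.2 e)⟩⟩

theorem col {x u w : Fin (d + 1) → F} (h : Lightlike x u) (h1 : mu x w = 0) (h2 : mu u w = 0) :
    ∃ t : F, w = x + t • (u - x) := by
  have h3 := h.1
  rw [mu_eq] at h1 h2 h3
  rw [show w - u = (w - x) - (u - x) by abel] at h2
  generalize hN : u - x = N at *
  simp only [map_sub (B (F := F) (d := d)) (w - x), LinearMap.sub_apply,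
    map_sub _ (w - x) N, h1, h3, B_comm (w - x) N] at h2
  obtain ⟨t, e⟩ := (orth (c := w - x) (hN ▸ sub_ne_zero.2 h.2.symm) h3 (by linarith)).2 h1
  exact ⟨t, by rw [← e]; abel⟩

/-- No point of the light line through `x` and `u` is at quadrance zero from `q`. -/
def Hyp (x u q : Fin (d + 1) → F) : Prop := ∀ w, ¬ (mu x w = 0 ∧ mu u w = 0 ∧ mu q w = 0)

theorem hyp_iff {x u q : Fin (d + 1) → F} (h : Lightlike x u) :
    Hyp x u q ↔ B (u - x) (q - x) = 0 ∧ B (q - x) (q - x) ≠ 0 := by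
  have h3 := h.1
  rw [mu_eq] at h3
  have e : ∀ t : F, mu q (x + t • (u - x)) = B (q - x) (q - x) - 2 * t * B (u - x) (q - x) :=
    fun t => by
      rw [mu_eq, show x + t • (u - x) - q = t • (u - x) - (q - x) by abel]
      generalize u - x = N at *
      generalize q - x = Q at *
      simp [h3, B_comm Q N]
      ring
  refine ⟨fun H => ?_, fun H w ⟨a, b, c⟩ => ?_⟩
  · have f : ∀ t : F, B (q - x) (q - x) - 2 * t * B (u - x) (q - x) ≠ 0 := fun t c =>
      H (x + t • (u - x)) ⟨by simp only [mu_eq, add_sub_cancel_left, map_smul,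
        LinearMap.smul_apply, h3, smul_zero], by
        rw [mu_eq, show x + t • (u - x) - u = (t - 1) • (u - x) by module]
        simp only [map_smul, LinearMap.smul_apply, h3, smul_zero], e t ▸ c⟩
    exact ⟨by_contra fun c => f (B (q - x) (q - x) / (2 * B (u - x) (q - x))) (by field_simp; ring),
      by simpa using f 0⟩
  · obtain ⟨t, rfl⟩ := col h a b
    rw [e, H.1] at c
    exact H.2 (by simpa using c)

/-- The configuration that witnesses timelike relatedness. -/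
def Conf (x y u v z q0 q1 q2 r0 r1 r2 : Fin (d + 1) → F) : Prop :=
  (Lightlike x u ∧ Lightlike x v ∧ Lightlike u v ∧ Lightlike u y ∧ Lightlike y z ∧
    Lightlike q0 q1 ∧ Lightlike q0 q2 ∧ Lightlike q1 q2 ∧ Lightlike r0 r1 ∧ Lightlike r0 r2 ∧
    Lightlike r1 r2 ∧ Lightlike q0 r0 ∧ Lightlike x q1 ∧ Lightlike q1 r1 ∧ Lightlike u r1 ∧
    Lightlike u q2 ∧ Lightlike q2 r2 ∧ Lightlike v r2) ∧ Hyp x u q0 ∧ Hyp x u r0 ∧ Hyp y z v

theorem sound {x y u v z q0 q1 q2 r0 r1 r2 : Fin (d + 1) → F}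
    (h : Conf x y u v z q0 q1 q2 r0 r1 r2) : 0 < mu x y := by
  obtain ⟨⟨a1, a2, a3, a4, a5, a6, a7, a8, a9, a10, a11, a12, ⟨b1, -⟩, ⟨b2, -⟩, ⟨b3, -⟩, ⟨b4, -⟩,
    ⟨b5, -⟩, b6, -⟩, c1, c2, c3⟩ := h
  obtain ⟨c, rfl⟩ := col a1 a2.1 a3.1
  obtain ⟨s, rfl⟩ := col a6 a7.1 a8.1
  obtain ⟨t, rfl⟩ := col a9 a10.1 a11.1
  rw [hyp_iff a1] at c1 c2
  rw [hyp_iff a5] at c3
  obtain ⟨N, rfl⟩ : ∃ N, u = x + N := ⟨u - x, by abel⟩
  obtain ⟨Q, rfl⟩ : ∃ Q, q0 = x + Q := ⟨q0 - x, by abel⟩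
  obtain ⟨G, rfl⟩ : ∃ G, r0 = x + Q + G := ⟨r0 - x - Q, by abel⟩
  obtain ⟨M, rfl⟩ : ∃ M, q1 = x + Q + M := ⟨q1 - x - Q, by abel⟩
  obtain ⟨K, rfl⟩ : ∃ K, r1 = x + Q + G + K := ⟨r1 - x - Q - G, by abel⟩
  obtain ⟨R, rfl⟩ : ∃ R, y = x + N + R := ⟨y - x - N, by abel⟩
  obtain ⟨Z, rfl⟩ : ∃ Z, z = x + N + R + Z := ⟨z - x - N - R, by abel⟩
  simp only [Lightlike, mu_eq, add_sub_cancel_left, ne_eq, left_eq_add] at a1 a4 a5 a6 a9 a12 c1 c3
  obtain ⟨γ, rfl⟩ := (orth (c := G) a1.2 a1.1 (by simpa [add_assoc, c1.1] using c2.1)).2 a12.1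
  have m0 : B N M ≠ 0 := fun e => by
    obtain ⟨k, rfl⟩ := (orth a1.2 a1.1 e).2 a6.1
    simp [mu_eq, add_assoc, a1.1, c1.1, B_comm Q N, c1.2] at b1
  have k0 : B N K ≠ 0 := fun e => by
    obtain ⟨k, rfl⟩ := (orth a1.2 a1.1 e).2 a9.1
    simp [mu_eq, add_assoc, a1.1, c1.1, B_comm Q N, c1.2] at b3
  have g0 : γ ≠ 0 := fun e => a12.2 (by simp [e])
  have := lt_of_le_of_ne (orth a5.2 a5.1 c3.1).1 c3.2
  simp only [mu_eq, add_assoc, add_sub_cancel_left, add_sub_add_left_eq_sub, map_add, map_sub,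
    map_smul, LinearMap.add_apply, LinearMap.sub_apply, LinearMap.smul_apply, smul_eq_mul,
    a1.1, a4.1, a6.1, a9.1, c1.1, B_comm Q N, B_comm M N, B_comm K N, B_comm M Q, B_comm K Q,
    B_comm K M, B_comm R N] at b1 b2 b3 b4 b5 b6 this ⊢
  have e : c = 2 := by
    have q0 := c1.2
    generalize B Q Q = q at *
    generalize B N M = m at *
    generalize B N K = k at *
    have e1 : s * (q + 2 * m) = q := by linear_combination s * b1 - b4
    have e2 : t * (q + 2 * (c - 1) * k) = q := by linear_combination t * b3 - b6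
    have e3 : t * k - s * m = s * t * (k - m) := mul_left_cancel₀ (mul_ne_zero two_ne_zero g0)
      (by linear_combination b5 - s * t * b2)
    have s0 : s ≠ 0 := fun e => q0 (by rw [← e1, e, zero_mul])
    have t0 : t ≠ 0 := fun e => q0 (by rw [← e2, e, zero_mul])
    refine mul_left_cancel₀ (mul_ne_zero (mul_ne_zero (mul_ne_zero s0 t0) (mul_ne_zero m0 k0))
      two_ne_zero) ?_
    linear_combination -q * e3 - t * k * e1 + s * m * e2
  subst e
  linarith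

theorem frame (hF : ∀ a : F, 0 ≤ a → ∃ b, b * b = a) (T : Fin (d + 3) → F) (h : 0 < B T T) :
    ∃ S U : Fin (d + 3) → F, B T S = 0 ∧ B T U = 0 ∧ B S U = 0 ∧ B S S = -B T T ∧
      B U U = -B T T := by
  let e1 : Fin (d + 3) → F := Fin.cons 0 (Fin.cons 1 0)
  let e2 : Fin (d + 3) → F := Fin.cons 0 (Fin.cons 0 (Fin.cons 1 0))
  have a1 : B e1 e1 = -1 := by simp [B_def, e1, Fin.sum_univ_succ]
  have a2 : B e2 e2 = -1 := by simp [B_def, e2, Fin.sum_univ_succ]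
  have a3 : B e1 e2 = 0 := by simp [B_def, e1, e2, Fin.sum_univ_succ]
  have c1 := B_comm e1 T
  have c2 := B_comm e2 T
  have c3 := B_comm e2 e1
  generalize hτ : B T T = τ at *
  generalize hb : B T e1 = b at *
  generalize hc : B T e2 = c at *
  have p1 : 0 < τ + b * b := by nlinarith [mul_self_nonneg b]
  have p2 : 0 < τ + b * b + c * c := by nlinarith [mul_self_nonneg c]
  obtain ⟨α, hα⟩ := hF (1 / (τ + b * b)) (by positivity)
  obtain ⟨β, hβ⟩ := hF (τ / ((τ + b * b) * (τ + b * b + c * c))) (by positivity)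
  refine ⟨α • (τ • e1 - b • T), β • ((τ + b * b) • e2 - (b * c) • e1 - c • T), ?_⟩
  simp only [map_sub, map_smul, LinearMap.sub_apply, LinearMap.smul_apply, smul_eq_mul, a1, a2, a3,
    c1, c2, c3, hτ, hb, hc]
  rw [eq_div_iff (by positivity)] at hα hβ
  exact ⟨by ring, by ring, by ring, by linear_combination -τ * hα, by linear_combination -hβ⟩

theorem complete (hF : ∀ a : F, 0 ≤ a → ∃ b, b * b = a) {x y : Fin (d + 3) → F} (h : 0 < mu x y) :
    ∃ u v z q0 q1 q2 r0 r1 r2, Conf x y u v z q0 q1 q2 r0 r1 r2 := by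
  rw [mu_eq] at h
  obtain ⟨T, rfl⟩ : ∃ T, y = x + T := ⟨y - x, by abel⟩
  rw [add_sub_cancel_left] at h
  obtain ⟨S, U, a1, a2, a3, a4, a5⟩ := frame hF T h
  let p : F → F → F → Fin (d + 3) → F := fun a b c => x + (a • T + b • S + c • U)
  have e : ∀ a b c a' b' c' a'' b'' c'' : F, B (p a' b' c' - p a b c) (p a'' b'' c'' - p a b c) =
      ((a' - a) * (a'' - a) - (b' - b) * (b'' - b) - (c' - c) * (c'' - c)) * B T T := by
    intros
    simp only [p, add_sub_add_left_eq_sub, map_add, map_sub, map_smul, LinearMap.add_apply,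
      LinearMap.sub_apply, LinearMap.smul_apply, smul_eq_mul, a1, a2, a3, a4, a5, B_comm S T,
      B_comm U T, B_comm U S]
    ring
  have l : ∀ a b c a' b' c' : F, (a' - a) * (a' - a) - (b' - b) * (b' - b) - (c' - c) * (c' - c) = 0 →
      a' ≠ a → Lightlike (p a b c) (p a' b' c') := fun a b c a' b' c' u v =>
    ⟨by rw [mu_eq, e, u, zero_mul], fun w => by
      have := e a b c a' b' c' (a + 1) b c
      rw [← w] at this
      simp [h.ne', sub_eq_zero, v] at this⟩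
  have ex : x = p 0 0 0 := by simp [p]
  have ey : x + T = p 1 0 0 := by simp [p]
  refine ⟨p (1 / 2) (1 / 2) 0, p 1 1 0, p 2 0 1, p 1 1 1, p (5 / 4) (3 / 4) 1, p (3 / 2) (1 / 2) 1,
    p (3 / 2) (3 / 2) 1, p (7 / 4) (5 / 4) 1, p 2 1 1, ?_⟩
  rw [ey]
  nth_rewrite 1 [ex]
  refine ⟨by
    refine ⟨?_, ?_, ?_, ?_, ?_, ?_, ?_, ?_, ?_, ?_, ?_, ?_, ?_, ?_, ?_, ?_, ?_, ?_⟩ <;>
      exact l _ _ _ _ _ _ (by norm_num) (by norm_num), ?_, ?_, ?_⟩
  all_goals rw [hyp_iff (l _ _ _ _ _ _ (by norm_num) (by norm_num)), e, e]; simp [h.ne']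

/-- Quadrance zero, as a formula. -/
def nul {V : Type} (a b : V) : QF V := .or (.eq a b) (.rel a b)

/-- The matrix of `Hyp`. -/
def hyp {V : Type} (x u q w : V) : QF V := .not (.and (nul x w) (.and (nul u w) (nul q w)))

/-- A finite conjunction of lightlike relations and a last formula. -/
def conj {V : Type} : List (V × V) → QF V → QF V
  | [], p => p
  | a :: l, p => .and (.rel a.1 a.2) (conj l p)

/-- The quantifier-free matrix of the definition. -/
def psi {V : Type} (x y u v z q0 q1 q2 r0 r1 r2 w : V) : QF V :=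
  conj [(x, u), (x, v), (u, v), (u, y), (y, z), (q0, q1), (q0, q2), (q1, q2), (r0, r1), (r0, r2),
    (r1, r2), (q0, r0), (x, q1), (q1, r1), (u, r1), (u, q2), (q2, r2), (v, r2)]
    (.and (hyp x u q0 w) (.and (hyp x u r0 w) (hyp y z v w)))

theorem main : ∃ (k m : ℕ) (ψ : QF (Fin 2 ⊕ Fin k ⊕ Fin m)), ∀ (d : ℕ) (F : Type u) [Field F]
    [LinearOrder F] [IsStrictOrderedRing F], (∀ a : F, 0 ≤ a → ∃ b, b * b = a) →
    ∀ x y : Fin (d + 3) → F, 0 < mu x y ↔ ∃ u : Fin k → Fin (d + 3) → F,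
      ∀ v : Fin m → Fin (d + 3) → F, ψ.Holds Lightlike (Sum.elim ![x, y] (Sum.elim u v)) := by
  refine ⟨9, 1, psi (.inl 0) (.inl 1) (.inr (.inl 0)) (.inr (.inl 1)) (.inr (.inl 2))
    (.inr (.inl 3)) (.inr (.inl 4)) (.inr (.inl 5)) (.inr (.inl 6)) (.inr (.inl 7)) (.inr (.inl 8))
    (.inr (.inr 0)), fun d F _ _ _ hF x y => ?_⟩
  have key : ∀ u : Fin 9 → Fin (d + 3) → F, (∀ v : Fin 1 → Fin (d + 3) → F,
      (psi (.inl 0) (.inl 1) (.inr (.inl 0)) (.inr (.inl 1)) (.inr (.inl 2)) (.inr (.inl 3))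
        (.inr (.inl 4)) (.inr (.inl 5)) (.inr (.inl 6)) (.inr (.inl 7)) (.inr (.inl 8))
        (.inr (.inr 0)) : QF (Fin 2 ⊕ Fin 9 ⊕ Fin 1)).Holds Lightlike
        (Sum.elim ![x, y] (Sum.elim u v))) ↔
      Conf x y (u 0) (u 1) (u 2) (u 3) (u 4) (u 5) (u 6) (u 7) (u 8) := fun u => by
    simp only [psi, conj, hyp, nul, QF.Holds, Sum.elim_inl, Sum.elim_inr, Matrix.cons_val_zero,
      Matrix.cons_val_one, null_iff, forall_and, forall_const, Conf, Hyp, and_assoc]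
    have f : ∀ a b c : Fin (d + 3) → F, (∀ w : Fin 1 → Fin (d + 3) → F, ¬ (mu a (w 0) = 0 ∧
        mu b (w 0) = 0 ∧ mu c (w 0) = 0)) ↔ ∀ w, ¬ (mu a w = 0 ∧ mu b w = 0 ∧ mu c w = 0) :=
      fun a b c => ⟨fun h w => h fun _ => w, fun h w => h _⟩
    simp only [f]
  simp only [key]
  refine ⟨fun h => ?_, fun ⟨u, h⟩ => sound h⟩
  obtain ⟨u, v, z, q0, q1, q2, r0, r1, r2, h⟩ := complete hF h
  exact ⟨![u, v, z, q0, q1, q2, r0, r1, r2], h⟩

end Pool.Agent.H84.Mk
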