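import Mathlib

/-! Minkowski spacetime over ordered fields and quantifier-free formulas. -/

namespace Pool.Agent.H84.MkDefs

/-- Quantifier-free formulas with equality and one binary relation symbol. -/
inductive QF (V : Type) : Type
  | eq : V → V → QF V
  | rel : V → V → QF V
  | not : QF V → QF V
  | and : QF V → QF V → QF V
  | or : QF V → QF V → QF V

/-- Truth of a formula when the symbol is read as `R` and the variables as `v`. -/
def QF.Holds {V : Type} {M : Type*} (R : M → M → Prop) (v : V → M) : QF V → Prop
  | .eq a b => v a = v b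
  | .rel a b => R (v a) (v b)
  | .not p => ¬ p.Holds R v
  | .and p q => p.Holds R v ∧ q.Holds R v
  | .or p q => p.Holds R v ∨ q.Holds R v

variable {F : Type*} [Field F] {d : ℕ}

/-- The Minkowski quadrance in dimension `d + 1`; coordinate `0` is time. -/
def mu (x y : Fin (d + 1) → F) : F :=
  (x 0 - y 0) ^ 2 - ∑ i : Fin d, (x i.succ - y i.succ) ^ 2

/-- Lightlike relatedness. -/
def Lightlike (x y : Fin (d + 1) → F) : Prop := mu x y = 0 ∧ x ≠ y

end Pool.Agent.H84.MkDefs
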