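import Pool.Agent.H84.NCard

/-! Lindelöf pieces in finite products of Michael-line-like refinements. -/

namespace Pool.Agent.H84.NPow

open Set Topology Filter Metric Pool.Agent.H84.NCard

def box {n : ℕ} (N : Fin n → Set ℝ) (x : Fin n → ℝ) (ε : ℝ) : Set (Fin n → ℝ) :=
  {y | ∀ p, dist (y p) (x p) < ε ∧ (x p ∉ N p → y p = x p)}

def RelClosed {n : ℕ} (N X : Fin n → Set ℝ) (F : Set (Fin n → ℝ)) : Prop :=
  (∀ x ∈ F, ∀ p, x p ∈ X p) ∧ ∀ x, (∀ p, x p ∈ X p) → x ∉ F → ∃ ε > 0, Disjoint (box N x ε) F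

def Cov {n : ℕ} (N : Fin n → Set ℝ) (ε : (Fin n → ℝ) → ℝ) (F A : Set (Fin n → ℝ)) : Prop :=
  ∃ t ⊆ F, t.Countable ∧ A ⊆ ⋃ x ∈ t, box N x (ε x)

def Col {n : ℕ} (B : ℕ → Set ℝ) (N X : Fin n → Set ℝ) (S : Set ℝ) (F : Set (Fin n → ℝ)) : Prop :=
  ∀ x ∈ F, ∀ p, x p ∈ S ∨ ∃ c, ∀ q, x q = x p → B c ⊆ N q ∩ X q

theorem Cov.iUnion {n : ℕ} {N : Fin n → Set ℝ} {ε : (Fin n → ℝ) → ℝ} {F : Set (Fin n → ℝ)}
    {J : Type} [Countable J] {A : J → Set (Fin n → ℝ)} (h : ∀ j, Cov N ε F (A j)) :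
    Cov N ε F (⋃ j, A j) := by
  choose t h1 h2 h3 using h
  refine ⟨⋃ j, t j, iUnion_subset h1, countable_iUnion h2, iUnion_subset fun j => (h3 j).trans ?_⟩
  exact biUnion_subset_biUnion_left (subset_iUnion t j)

theorem Cov.union {n : ℕ} {N : Fin n → Set ℝ} {ε : (Fin n → ℝ) → ℝ} {F A A' : Set (Fin n → ℝ)}
    (h : Cov N ε F A) (h' : Cov N ε F A') : Cov N ε F (A ∪ A') := by
  obtain ⟨t, h1, h2, h3⟩ := h
  obtain ⟨t', h1', h2', h3'⟩ := h'
  refine ⟨t ∪ t', union_subset h1 h1', h2.union h2', union_subset (h3.trans ?_) (h3'.trans ?_)⟩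
  · exact biUnion_subset_biUnion_left subset_union_left
  · exact biUnion_subset_biUnion_left subset_union_right

theorem Cov.mono {n : ℕ} {N : Fin n → Set ℝ} {ε : (Fin n → ℝ) → ℝ} {F A A' : Set (Fin n → ℝ)}
    (h : Cov N ε F A) (h' : A' ⊆ A) : Cov N ε F A' := by
  obtain ⟨t, h1, h2, h3⟩ := h
  exact ⟨t, h1, h2, h'.trans h3⟩

theorem pull {n n' : ℕ} {N X : Fin n → Set ℝ} {N' X' : Fin n' → Set ℝ} {F : Set (Fin n → ℝ)}
    (i : (Fin n' → ℝ) → (Fin n → ℝ))
    (hbox : ∀ y ε, 0 < ε → ∀ z ∈ box N' y ε, i z ∈ box N (i y) ε)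
    (hX : ∀ y, i y ∈ F → ∀ p, y p ∈ X' p)
    (hX' : ∀ y, (∀ p, y p ∈ X' p) → (∀ p, i y p ∈ X p) ∨ i ⁻¹' F = ∅)
    (hF : RelClosed N X F) : RelClosed N' X' (i ⁻¹' F) := by
  refine ⟨fun y hy => hX y hy, fun y hy hyF => ?_⟩
  rcases hX' y hy with h | h
  · obtain ⟨ε, hε, hd⟩ := hF.2 (i y) h hyF
    exact ⟨ε, hε, disjoint_left.2 fun z hz hzF => disjoint_left.1 hd (hbox y ε hε z hz) hzF⟩
  · exact ⟨1, one_pos, by rw [h]; exact disjoint_empty _⟩

theorem push {n n' : ℕ} {N : Fin n → Set ℝ} {N' : Fin n' → Set ℝ} {F : Set (Fin n → ℝ)}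
    (i : (Fin n' → ℝ) → (Fin n → ℝ))
    (hbox : ∀ y ε, 0 < ε → ∀ z ∈ box N' y ε, i z ∈ box N (i y) ε)
    {ε : (Fin n → ℝ) → ℝ} (hε : ∀ x, 0 < ε x)
    (h : Cov N' (ε ∘ i) (i ⁻¹' F) (i ⁻¹' F)) : Cov N ε F (F ∩ range i) := by
  obtain ⟨t, h1, h2, h3⟩ := h
  refine ⟨i '' t, image_subset_iff.2 h1, h2.image _, ?_⟩
  rintro _ ⟨hx, y, rfl⟩
  obtain ⟨z, hz, hyz⟩ := mem_iUnion₂.1 (h3 hx)
  exact mem_biUnion (mem_image_of_mem i hz) (hbox z _ (hε _) y hyz)

theorem cov_main {B : ℕ → Set ℝ} (hB : Joint B) (n : ℕ) :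
    ∀ (N X : Fin n → Set ℝ) (S : Set ℝ) (F : Set (Fin n → ℝ)), S.Countable → RelClosed N X F →
      Col B N X S F → ∀ ε : (Fin n → ℝ) → ℝ, (∀ x, 0 < ε x) → Cov N ε F F := by
  classical
  induction n with
  | zero =>
    intro N X S F _ _ _ ε _
    exact ⟨F, Subset.rfl, to_countable _, fun x hx => mem_biUnion hx fun p => p.elim0⟩
  | succ n ih =>
    intro N X S F hS hF hC ε hε
    -- hyperplanes
    have hyp : ∀ (p : Fin (n + 1)) (s : ℝ), Cov N ε F (F ∩ {x | x p = s}) := by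
      intro p s
      let i : (Fin n → ℝ) → (Fin (n + 1) → ℝ) := fun y => Fin.insertNth (α := fun _ => ℝ) p s y
      have hi1 : ∀ y, i y p = s := fun y => by simp [i]
      have hi2 : ∀ y j, i y (p.succAbove j) = y j := fun y j => by simp [i]
      have hbox : ∀ y ε, 0 < ε → ∀ z ∈ box (fun j => N (p.succAbove j)) y ε,
          i z ∈ box N (i y) ε := by
        intro y ε hε z hz q
        refine Fin.succAboveCases p ?_ (fun j => ?_) q
        · simp [hi1, hε]
        · rw [hi2, hi2]; exact hz j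
      have hcl : RelClosed (fun j => N (p.succAbove j)) (fun j => X (p.succAbove j)) (i ⁻¹' F) := by
        refine pull i hbox (fun y hy j => ?_) (fun y hy => ?_) hF
        · have := hF.1 _ hy (p.succAbove j)
          rwa [hi2] at this
        · by_cases hs : s ∈ X p
          · left
            intro q
            refine Fin.succAboveCases p ?_ (fun j => ?_) q
            · rw [hi1]; exact hs
            · rw [hi2]; exact hy j
          · right
            refine eq_empty_of_forall_notMem fun z hz => hs ?_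
            have := hF.1 _ hz p
            rwa [hi1] at this
      have hcol : Col B (fun j => N (p.succAbove j)) (fun j => X (p.succAbove j)) S (i ⁻¹' F) := by
        intro y hy j
        rcases hC _ hy (p.succAbove j) with h | ⟨c, h⟩
        · left; rwa [hi2] at h
        · right
          exact ⟨c, fun q hq => h (p.succAbove q) (by rw [hi2, hi2, hq])⟩
      refine (push i hbox hε (ih _ _ S _ hS hcl hcol _ fun x => hε _)).mono ?_
      rintro x ⟨hx, hxp⟩
      refine ⟨hx, fun j => x (p.succAbove j), ?_⟩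
      funext q
      refine Fin.succAboveCases p ?_ (fun j => ?_) q
      · rw [hi1]; exact hxp.symm
      · rw [hi2]
    -- diagonals
    have diag : ∀ (p : Fin (n + 1)) (j₀ : Fin n),
        Cov N ε F (F ∩ {x | x p = x (p.succAbove j₀)}) := by
      intro p j₀
      let i : (Fin n → ℝ) → (Fin (n + 1) → ℝ) := fun y =>
        Fin.insertNth (α := fun _ => ℝ) p (y j₀) y
      have hi1 : ∀ y, i y p = y j₀ := fun y => by simp [i]
      have hi2 : ∀ y j, i y (p.succAbove j) = y j := fun y j => by simp [i]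
      let N' : Fin n → Set ℝ := fun j => {t | t ∈ N (p.succAbove j) ∧ (j = j₀ → t ∈ N p)}
      let X' : Fin n → Set ℝ := fun j => {t | t ∈ X (p.succAbove j) ∧ (j = j₀ → t ∈ X p)}
      have hbox : ∀ y ε, 0 < ε → ∀ z ∈ box N' y ε, i z ∈ box N (i y) ε := by
        intro y ε hε z hz q
        refine Fin.succAboveCases p ?_ (fun j => ?_) q
        · rw [hi1, hi1]
          exact ⟨(hz j₀).1, fun h => (hz j₀).2 fun h' => h (h'.2 rfl)⟩
        · rw [hi2, hi2]
          exact ⟨(hz j).1, fun h => (hz j).2 fun h' => h h'.1⟩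
      have hcl : RelClosed N' X' (i ⁻¹' F) := by
        refine pull i hbox (fun y hy j => ⟨?_, ?_⟩) (fun y hy => Or.inl fun q => ?_) hF
        · have := hF.1 _ hy (p.succAbove j)
          rwa [hi2] at this
        · rintro rfl
          have := hF.1 _ hy p
          rwa [hi1] at this
        · refine Fin.succAboveCases p ?_ (fun j => ?_) q
          · rw [hi1]; exact (hy j₀).2 rfl
          · rw [hi2]; exact (hy j).1
      have hcol : Col B N' X' S (i ⁻¹' F) := by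
        intro y hy j
        rcases hC _ hy (p.succAbove j) with h | ⟨c, h⟩
        · left; rwa [hi2] at h
        · right
          refine ⟨c, fun q hq t ht => ?_⟩
          have h1 := h (p.succAbove q) (by rw [hi2, hi2, hq]) ht
          refine ⟨⟨h1.1, ?_⟩, h1.2, ?_⟩
          · rintro rfl
            exact (h p (by rw [hi1, hi2, hq]) ht).1
          · rintro rfl
            exact (h p (by rw [hi1, hi2, hq]) ht).2
      refine (push i hbox hε (ih _ _ S _ hS hcl hcol _ fun x => hε _)).mono ?_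
      rintro x ⟨hx, hxp⟩
      refine ⟨hx, fun j => x (p.succAbove j), ?_⟩
      funext q
      refine Fin.succAboveCases p ?_ (fun j => ?_) q
      · exact (hi1 (fun j => x (p.succAbove j))).trans hxp.symm
      · exact hi2 (fun j => x (p.succAbove j)) j
    have hyps : ∀ S' : Set ℝ, S'.Countable → Cov N ε F (F ∩ {x | ∃ p, x p ∈ S'}) := by
      intro S' hS'
      have := hS'.to_subtype
      refine (Cov.iUnion (J := Fin (n + 1) × S') fun j => hyp j.1 j.2).mono ?_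
      rintro x ⟨hx, p, hp⟩
      exact mem_iUnion.2 ⟨(p, ⟨x p, hp⟩), hx, rfl⟩
    have diags : Cov N ε F (F ∩ {x | ∃ p q, p ≠ q ∧ x p = x q}) := by
      refine (Cov.iUnion (J := Fin (n + 1) × Fin n) fun j => diag j.1 j.2).mono ?_
      rintro x ⟨hx, p, q, hpq, h⟩
      obtain ⟨j, rfl⟩ := Fin.exists_succAbove_eq hpq.symm
      exact mem_iUnion.2 ⟨(p, j), hx, h⟩
    by_cases hex : ∃ x ∈ F, ∀ p, x p ∉ S
    swap
    · push Not at hex
      exact (hyps S hS).mono fun x hx => ⟨hx, hex x hx⟩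
    obtain ⟨x₀, hx₀, hx₀S⟩ := hex
    have hσ : ∀ p, ∃ c, B c ⊆ N p ∩ X p := fun p =>
      ((hC x₀ hx₀ p).resolve_left (hx₀S p)).imp fun c h => h p rfl
    choose σ hσ using hσ
    let A : Set (Fin (n + 1) → ℝ) := {x | ∀ p, x p ∈ N p ∩ X p}
    have hδ : ∀ x, ∃ δ > 0, x ∈ A → (x ∈ F ∧ δ = ε x) ∨ Disjoint (box N x δ) F := by
      intro x
      by_cases hxF : x ∈ F
      · exact ⟨ε x, hε x, fun _ => Or.inl ⟨hxF, rfl⟩⟩
      by_cases hxA : x ∈ A
      · obtain ⟨δ, h1, h2⟩ := hF.2 x (fun p => (hxA p).2) hxF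
        exact ⟨δ, h1, fun _ => Or.inr h2⟩
      · exact ⟨1, one_pos, fun h => absurd h hxA⟩
    choose δ hδ0 hδ using hδ
    obtain ⟨t, htA, htc, hcov⟩ := TopologicalSpace.countable_cover_nhdsWithin (s := A)
      (f := fun x => ball x (δ x))
      (fun x _ => mem_nhdsWithin_of_mem_nhds (ball_mem_nhds _ (hδ0 x)))
    have hW : IsOpen (⋃ x ∈ t, ball x (δ x)) := isOpen_biUnion fun _ _ => isOpen_ball
    obtain ⟨S', hS', hG⟩ := hB.2 (n + 1) σ _ hW.isClosed_compl (by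
      intro x hx
      by_contra hc
      push Not at hc
      exact hx (hcov fun p => hσ p (hc p)))
    have hWc : Cov N ε F (F ∩ ⋃ x ∈ t, ball x (δ x)) := by
      refine ⟨t ∩ F, inter_subset_right, htc.mono inter_subset_left, ?_⟩
      rintro y ⟨hy, hyW⟩
      obtain ⟨x, hx, hyx⟩ := mem_iUnion₂.1 hyW
      have hb : y ∈ box N x (δ x) := fun p =>
        ⟨(dist_le_pi_dist y x p).trans_lt hyx, fun h => absurd (htA hx p).1 h⟩
      rcases hδ x (htA hx) with ⟨h1, h2⟩ | h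
      · exact mem_biUnion ⟨hx, h1⟩ (h2 ▸ hb)
      · exact absurd hy (disjoint_left.1 h hb)
    refine ((hWc.union (hyps S' hS')).union diags).mono fun y hy => ?_
    by_cases hyW : y ∈ ⋃ x ∈ t, ball x (δ x)
    · exact Or.inl (Or.inl ⟨hy, hyW⟩)
    · rcases hG y hyW with h | h
      · exact Or.inl (Or.inr ⟨hy, h⟩)
      · exact Or.inr ⟨hy, h⟩

/-- a regular space partitioned into open Lindelöf fibres is paracompact -/
theorem paracompact_of_fibres {X : Type} [TopologicalSpace X] [RegularSpace X] {W : Type}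
    (w : X → W) (ho : ∀ a, IsOpen (w ⁻¹' {a})) (hl : ∀ a, IsLindelof (w ⁻¹' {a})) :
    ParacompactSpace X := by
  classical
  refine ⟨fun α s hso hsc => ?_⟩
  have h1 : ∀ x : X, ∃ a, ∃ V : Set X, V ∈ 𝓝 x ∧ IsClosed V ∧ V ⊆ s a := by
    intro x
    obtain ⟨a, ha⟩ := iUnion_eq_univ_iff.1 hsc x
    obtain ⟨V, h1, h2, h3⟩ := exists_mem_nhds_isClosed_subset ((hso a).mem_nhds ha)
    exact ⟨a, V, h1, h2, h3⟩
  choose a V hV1 hV2 hV3 using h1
  have h2 : ∀ b : range w, ∃ e : ℕ → X, w ⁻¹' {b.1} ⊆ ⋃ k, interior (V (e k)) := by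
    rintro ⟨_, x, rfl⟩
    obtain ⟨t, htc, -, ht⟩ := (hl (w x)).elim_nhds_subcover (fun y => interior (V y))
      (fun y _ => interior_mem_nhds.2 (hV1 y))
    have hne : t.Nonempty := by
      obtain ⟨y, hy, -⟩ := mem_iUnion₂.1 (ht (show x ∈ w ⁻¹' {w x} from rfl))
      exact ⟨y, hy⟩
    obtain ⟨e, rfl⟩ := htc.exists_eq_range hne
    exact ⟨e, by simpa using ht⟩
  choose e he using h2
  refine ⟨range w × ℕ, fun j => (w ⁻¹' {j.1.1} ∩ s (a (e j.1 j.2))) \ ⋃ k ∈ Iio j.2, V (e j.1 k),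
    fun j => ?_, ?_, ?_, fun j => ⟨a (e j.1 j.2), fun x hx => hx.1.2⟩⟩
  · exact ((ho _).inter (hso _)).sdiff ((finite_Iio _).isClosed_biUnion fun k _ => hV2 _)
  · refine eq_univ_of_forall fun x => ?_
    let b : range w := ⟨w x, x, rfl⟩
    have hex : ∃ k, x ∈ V (e b k) := by
      obtain ⟨k, hk⟩ := mem_iUnion.1 (he b (show x ∈ w ⁻¹' {b.1} from rfl))
      exact ⟨k, interior_subset hk⟩
    refine mem_iUnion.2 ⟨(b, Nat.find hex), ⟨rfl, hV3 _ (Nat.find_spec hex)⟩, fun h => ?_⟩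
    obtain ⟨k, hk, hxk⟩ := mem_iUnion₂.1 h
    exact Nat.find_min hex hk hxk
  · intro x
    let b : range w := ⟨w x, x, rfl⟩
    obtain ⟨k, hk⟩ := mem_iUnion.1 (he b (show x ∈ w ⁻¹' {b.1} from rfl))
    refine ⟨w ⁻¹' {w x} ∩ interior (V (e b k)),
      inter_mem ((ho _).mem_nhds rfl) (isOpen_interior.mem_nhds hk), ?_⟩
    refine ((finite_singleton b).prod (finite_Iic k)).subset ?_
    rintro ⟨b', j⟩ ⟨y, ⟨⟨hy1, -⟩, hy2⟩, hy3, hy4⟩
    have hb : b' = b := Subtype.ext ((show w y = b'.1 from hy1).symm.trans hy3)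
    subst hb
    refine ⟨rfl, ?_⟩
    by_contra hj
    exact hy2 (mem_biUnion (mem_Iio.2 (not_le.1 (show ¬ j ≤ k from hj))) (interior_subset hy4))

end Pool.Agent.H84.NPow
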