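import Pool.Agent.H84.NPow

/-! The spaces with prescribed paracompact and Lindelöf powers. -/

namespace Pool.Agent.H84.NSp

open Set Topology Filter Metric Pool.Agent.H84.NCard Pool.Agent.H84.NPow

abbrev T := ℕ ⊕ ℕ

structure Sp (N X : T → Set ℝ) where
  t : T
  v : ℝ
  mem : v ∈ X t

variable {N X : T → Set ℝ}

theorem Sp.ext' {x y : Sp N X} (h1 : x.t = y.t) (h2 : x.v = y.v) : x = y := by
  cases x; cases y; simp only at h1 h2; subst h1; subst h2; rfl

def nb (x : Sp N X) (ε : ℝ) : Set (Sp N X) :=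
  {y | y.t = x.t ∧ dist y.v x.v < ε ∧ (x.v ∉ N x.t → y.v = x.v)}

theorem nb_mono (x : Sp N X) {ε δ : ℝ} (h : ε ≤ δ) : nb x ε ⊆ nb x δ :=
  fun _ hy => ⟨hy.1, hy.2.1.trans_le h, hy.2.2⟩

theorem mem_nb (x : Sp N X) {ε : ℝ} (h : 0 < ε) : x ∈ nb x ε := ⟨rfl, by simpa, fun _ => rfl⟩

instance : TopologicalSpace (Sp N X) where
  IsOpen U := ∀ x ∈ U, ∃ ε > 0, nb x ε ⊆ U
  isOpen_univ := fun _ _ => ⟨1, one_pos, subset_univ _⟩
  isOpen_inter := fun U V hU hV x hx => by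
    obtain ⟨ε, h1, h2⟩ := hU x hx.1
    obtain ⟨δ, h3, h4⟩ := hV x hx.2
    exact ⟨min ε δ, lt_min h1 h3, subset_inter ((nb_mono x (min_le_left _ _)).trans h2)
      ((nb_mono x (min_le_right _ _)).trans h4)⟩
  isOpen_sUnion := fun S hS x ⟨U, hU, hx⟩ => by
    obtain ⟨ε, h1, h2⟩ := hS U hU x hx
    exact ⟨ε, h1, h2.trans (subset_sUnion_of_mem hU)⟩

theorem isOpen_nb (x : Sp N X) (ε : ℝ) : IsOpen (nb x ε) := by
  intro y hy
  refine ⟨ε - dist y.v x.v, sub_pos.2 hy.2.1, fun z hz => ⟨hz.1.trans hy.1, ?_, fun h => ?_⟩⟩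
  · have := dist_triangle z.v y.v x.v
    linarith [hz.2.1]
  · have h1 := hy.2.2 h
    exact (hz.2.2 (by rw [h1, hy.1]; exact h)).trans h1

theorem hasBasis (x : Sp N X) : (𝓝 x).HasBasis (fun ε : ℝ => 0 < ε) (nb x) := by
  refine ⟨fun U => ⟨fun hU => ?_, fun ⟨ε, h1, h2⟩ =>
    mem_of_superset ((isOpen_nb x ε).mem_nhds (mem_nb x h1)) h2⟩⟩
  obtain ⟨V, h1, h2, h3⟩ := mem_nhds_iff.1 hU
  obtain ⟨ε, h4, h5⟩ := h2 x h3
  exact ⟨ε, h4, h5.trans h1⟩

theorem cont_v : Continuous (Sp.v : Sp N X → ℝ) := by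
  refine continuous_iff_continuousAt.2 fun x => ?_
  refine ((hasBasis x).tendsto_iff nhds_basis_ball).2 fun ε hε => ⟨ε, hε, fun y hy => hy.2.1⟩

theorem cont_t : Continuous (Sp.t : Sp N X → T) := by
  refine continuous_iff_continuousAt.2 fun x => ?_
  refine tendsto_const_nhds.congr' ?_
  exact (hasBasis x).eventually_iff.2 ⟨1, one_pos, fun y hy => hy.1.symm⟩

instance : T2Space (Sp N X) :=
  T2Space.of_injective_continuous (f := fun x : Sp N X => (x.t, x.v))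
    (fun _ _ h => Sp.ext' (congrArg Prod.fst h) (congrArg Prod.snd h)) (cont_t.prodMk cont_v)

instance : RegularSpace (Sp N X) := by
  refine RegularSpace.of_exists_mem_nhds_isClosed_subset fun x U hU => ?_
  obtain ⟨ε, hε, h⟩ := (hasBasis x).mem_iff.1 hU
  refine ⟨{y | y.t = x.t ∧ dist y.v x.v ≤ ε / 2 ∧ (x.v ∉ N x.t → y.v = x.v)}, ?_, ?_, ?_⟩
  · exact (hasBasis x).mem_iff.2 ⟨ε / 2, by positivity, fun y hy => ⟨hy.1, hy.2.1.le, hy.2.2⟩⟩
  · refine (isClosed_eq cont_t continuous_const).inter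
      ((isClosed_le (cont_v.dist continuous_const) continuous_const).inter ?_)
    change IsClosed {y : Sp N X | x.v ∉ N x.t → y.v = x.v}
    by_cases hx : x.v ∈ N x.t
    · simp [hx]
    · simpa [hx] using isClosed_eq (cont_v (N := N) (X := X)) (continuous_const (y := x.v))
  · exact fun y hy => h ⟨hy.1, by linarith [hy.2.1], hy.2.2⟩

theorem mem_nhds_pi {n : ℕ} (x : Fin n → Sp N X) (U : Set (Fin n → Sp N X)) :
    U ∈ 𝓝 x ↔ ∃ ε > 0, ∀ y : Fin n → Sp N X, (∀ p, y p ∈ nb (x p) ε) → y ∈ U := by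
  constructor
  · intro hU
    rw [nhds_pi, Filter.mem_pi] at hU
    obtain ⟨I, -, V, hV, hU⟩ := hU
    choose ε hε hεV using fun p => (hasBasis (x p)).mem_iff.1 (hV p)
    obtain ⟨δ, h1, h2⟩ := (finite_range ε).isCompact.exists_forall_le'
      (f := id) continuousOn_id (a := 0) (by rintro _ ⟨p, rfl⟩; exact hε p)
    exact ⟨δ, h1, fun y hy => hU fun p _ => hεV p (nb_mono _ (h2 _ ⟨p, rfl⟩) (hy p))⟩
  · rintro ⟨ε, hε, h⟩
    have : ∀ᶠ y in 𝓝 x, ∀ p, y p ∈ nb (x p) ε :=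
      eventually_all.2 fun p => (continuous_apply p).continuousAt.eventually
        ((isOpen_nb _ _).mem_nhds (mem_nb _ hε))
    exact this.mono h

theorem lindelof_piece {B : ℕ → Set ℝ} (hB : Joint B) {n : ℕ} (σ : Fin n → T) (S : Set ℝ)
    (hS : S.Countable) (F : Set (Fin n → Sp N X)) (hF : IsClosed F)
    (hσ : ∀ x ∈ F, ∀ p, (x p).t = σ p)
    (hC : ∀ x ∈ F, ∀ p, (x p).v ∈ S ∨ ∃ c, ∀ q, (x q).v = (x p).v → B c ⊆ N (σ q) ∩ X (σ q)) :
    IsLindelof F := by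
  classical
  let π : (Fin n → Sp N X) → (Fin n → ℝ) := fun x p => (x p).v
  have hinj : ∀ x ∈ F, ∀ y ∈ F, π x = π y → x = y := fun x hx y hy h =>
    funext fun p => Sp.ext' ((hσ x hx p).trans (hσ y hy p).symm) (congrFun h p)
  have hcl : RelClosed (N ∘ σ) (X ∘ σ) (π '' F) := by
    constructor
    · rintro _ ⟨x, hx, rfl⟩ p
      have := (x p).mem
      rwa [hσ x hx p] at this
    · intro y hy hyF
      let x : Fin n → Sp N X := fun p => ⟨σ p, y p, hy p⟩
      have hx : x ∉ F := fun h => hyF ⟨x, h, rfl⟩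
      obtain ⟨ε, hε, h⟩ := (mem_nhds_pi x _).1 (hF.isOpen_compl.mem_nhds hx)
      refine ⟨ε, hε, disjoint_left.2 ?_⟩
      rintro _ hz ⟨z, hzF, rfl⟩
      exact h z (fun p => ⟨hσ z hzF p, (hz p).1, (hz p).2⟩) hzF
  have hcol : Col B (N ∘ σ) (X ∘ σ) S (π '' F) := by
    rintro _ ⟨x, hx, rfl⟩ p
    exact hC x hx p
  refine isLindelof_of_countable_subcover fun {J} U hUo hUc => ?_
  have h1 : ∀ y : Fin n → ℝ, ∃ ε > 0, ∀ x ∈ F, π x = y →
      ∃ j, ∀ z : Fin n → Sp N X, (∀ p, z p ∈ nb (x p) ε) → z ∈ U j := by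
    intro y
    by_cases hy : y ∈ π '' F
    · obtain ⟨x, hx, rfl⟩ := hy
      obtain ⟨j, hj⟩ := mem_iUnion.1 (hUc hx)
      obtain ⟨ε, hε, h⟩ := (mem_nhds_pi x _).1 ((hUo j).mem_nhds hj)
      refine ⟨ε, hε, fun x' hx' he => ?_⟩
      rw [hinj x' hx' x hx he]
      exact ⟨j, h⟩
    · exact ⟨1, one_pos, fun x hx he => absurd ⟨x, hx, he⟩ hy⟩
  choose ε hε hεU using h1
  obtain ⟨t, ht1, ht2, ht3⟩ := cov_main hB n _ _ S _ hS hcl hcol ε hε
  choose! x hx hxy using ht1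
  choose j hj using fun y : t => hεU y (x y.2) (hx y.2) (hxy y.2)
  have := ht2.to_subtype
  refine ⟨range j, countable_range j, fun z hz => ?_⟩
  obtain ⟨y, hy, hzy⟩ := mem_iUnion₂.1 (ht3 (mem_image_of_mem π hz))
  refine mem_biUnion (mem_range_self (⟨y, hy⟩ : t)) (hj ⟨y, hy⟩ z fun p => ?_)
  have h2 : (x hy p).v = y p := congrFun (hxy hy) p
  have h3 := hσ _ (hx hy) p
  refine ⟨(hσ z hz p).trans h3.symm, ?_, ?_⟩
  · rw [h2]; exact (hzy p).1
  · rw [h2, h3]; exact (hzy p).2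

theorem pigeon {n : ℕ} (σ : Fin n → T) (f : ℕ → T) (hf : f.Injective) {k : ℕ∞} (h : (n : ℕ∞) < k) :
    ∃ i : ℕ, (i : ℕ∞) < k ∧ ∀ p, σ p ≠ f i := by
  by_contra hc
  push Not at hc
  have h1 : ∀ i : Fin (n + 1), ∃ p, σ p = f i := fun i =>
    hc i (lt_of_le_of_lt (by exact_mod_cast Nat.lt_succ_iff.1 i.2) h)
  choose g hg using h1
  have : g.Injective := fun a b hab => Fin.ext (hf (by rw [← hg, ← hg, hab]))
  have := Fintype.card_le_of_injective g this
  simp at this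

section Main

variable (B : ℕ → Set ℝ) (k m : ℕ∞)

def NN : T → Set ℝ
  | .inl i => {t | ∃ i' : ℕ, (i' : ℕ∞) < k ∧ i' ≠ i ∧ t ∈ B (2 * i' + 2)}
  | .inr j => {t | (∃ j' : ℕ, (j' : ℕ∞) < m ∧ j' ≠ j ∧ t ∈ B (2 * j' + 3)) ∨ (j = 0 ∧ t ∈ B 1)}

def XX : T → Set ℝ
  | .inl i => {t | (i : ℕ∞) < k ∧
      ((∃ i' : ℕ, (i' : ℕ∞) < k ∧ i' ≠ i ∧ t ∈ B (2 * i' + 2)) ∨ t ∈ B 0)}
  | .inr j => {t | (j : ℕ∞) < m ∧
      ((∃ j' : ℕ, (j' : ℕ∞) < m ∧ j' ≠ j ∧ t ∈ B (2 * j' + 3)) ∨ t ∈ B 1)}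

abbrev Y := Sp (NN B k m) (XX B k m)

variable {B k m}

theorem col_eq (hB : Joint B) {c d : ℕ} {t : ℝ} (h1 : t ∈ B c) (h2 : t ∈ B d) : c = d := by
  by_contra h
  exact disjoint_left.1 (hB.1 c d h) h1 h2

theorem mixed (hB : Joint B) {i j : ℕ} {t : ℝ} (h1 : t ∈ XX B k m (.inl i))
    (h2 : t ∈ XX B k m (.inr j)) : False := by
  rcases h1.2 with ⟨a, -, -, h1⟩ | h1 <;> rcases h2.2 with ⟨b, -, -, h2⟩ | h2 <;>
    have := col_eq hB h1 h2 <;> omega

def bad {n : ℕ} (x : Fin n → Y B k m) (p : Fin n) : Prop :=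
  (∃ i, (x p).t = .inl i) ∧ ∀ i : ℕ, (i : ℕ∞) < k → ∃ q, (x q).t = .inl i ∧ (x q).v = (x p).v

theorem bad_mem (hB : Joint B) {n : ℕ} {x : Fin n → Y B k m} {p : Fin n} (h : bad x p) :
    (x p).v ∈ B 0 := by
  obtain ⟨⟨i, hi⟩, h⟩ := h
  have h1 := (x p).mem
  rw [hi] at h1
  rcases h1.2 with ⟨a, ha, -, h1⟩ | h1
  · obtain ⟨q, hq, hv⟩ := h a ha
    have h2 := (x q).mem
    rw [hq, hv] at h2
    rcases h2.2 with ⟨b, -, hb, h2⟩ | h2
    · have := col_eq hB h1 h2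
      omega
    · exact h2
  · exact h1

theorem iso0 (hB : Joint B) {x : Y B k m} (h : x.v ∈ B 0) : x.v ∉ NN B k m x.t := by
  intro h1
  cases ht : x.t with
  | inl i =>
    rw [ht] at h1
    obtain ⟨a, -, -, h1⟩ := h1
    have := col_eq hB h h1
    omega
  | inr j =>
    rw [ht] at h1
    rcases h1 with ⟨a, -, -, h1⟩ | ⟨-, h1⟩ <;> have := col_eq hB h h1 <;> omega

theorem good_col (hB : Joint B) {n : ℕ} (hn : (n : ℕ∞) < m) {x : Fin n → Y B k m} {p : Fin n}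
    (h : ¬ bad x p) :
    ∃ c, ∀ q, (x q).v = (x p).v → B c ⊆ NN B k m (x q).t ∩ XX B k m (x q).t := by
  have hp := (x p).mem
  cases ht : (x p).t with
  | inl i =>
    rw [ht] at hp
    have : ∃ i : ℕ, (i : ℕ∞) < k ∧ ∀ q, (x q).t = .inl i → (x q).v ≠ (x p).v := by
      by_contra hc
      push Not at hc
      exact h ⟨⟨i, ht⟩, hc⟩
    obtain ⟨a, ha, h⟩ := this
    refine ⟨2 * a + 2, fun q hq t htB => ?_⟩
    have h2 := (x q).mem
    cases hqt : (x q).t with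
    | inl b =>
      rw [hqt] at h2
      have hab : a ≠ b := fun e => h q (by rw [hqt, e]) hq
      exact ⟨⟨a, ha, hab, htB⟩, h2.1, Or.inl ⟨a, ha, hab, htB⟩⟩
    | inr b =>
      rw [hqt, hq] at h2
      exact (mixed hB hp h2).elim
  | inr j =>
    rw [ht] at hp
    obtain ⟨a, ha, h⟩ := pigeon (fun q => (x q).t) Sum.inr Sum.inr_injective hn
    refine ⟨2 * a + 3, fun q hq t htB => ?_⟩
    have h2 := (x q).mem
    cases hqt : (x q).t with
    | inl b =>
      rw [hqt, hq] at h2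
      exact (mixed hB h2 hp).elim
    | inr b =>
      rw [hqt] at h2
      have hab : a ≠ b := fun e => h q (by rw [hqt, e])
      exact ⟨Or.inl ⟨a, ha, hab, htB⟩, h2.1, Or.inl ⟨a, ha, hab, htB⟩⟩

theorem closed_type {n : ℕ} (σ : Fin n → T) :
    IsClosed {x : Fin n → Sp N X | ∀ p, (x p).t = σ p} := by
  simp only [ofPred_forall]
  exact isClosed_iInter fun p => isClosed_eq (cont_t.comp (continuous_apply p)) continuous_const

theorem lind (hB : Joint B) (hkm : k ≤ m) {n : ℕ} (hn : (n : ℕ∞) < k) :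
    LindelofSpace (Fin n → Y B k m) := by
  refine ⟨?_⟩
  have : (univ : Set (Fin n → Y B k m)) = ⋃ σ : Fin n → T, {x | ∀ p, (x p).t = σ p} :=
    (eq_univ_of_forall fun x => mem_iUnion.2 ⟨fun p => (x p).t, by intro _; rfl⟩).symm
  rw [this]
  refine isLindelof_iUnion fun σ => lindelof_piece hB σ ∅ countable_empty _ (closed_type σ)
    (fun x hx => hx) fun x hx p => Or.inr ?_
  have hb : ¬ bad x p := by
    intro h
    obtain ⟨a, ha, h'⟩ := pigeon (fun q => (x q).t) Sum.inl Sum.inl_injective hn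
    obtain ⟨q, hq, -⟩ := h.2 a ha
    exact h' q hq
  obtain ⟨c, hc⟩ := good_col hB (hn.trans_le hkm) hb
  exact ⟨c, fun q hq => by rw [← hx q]; exact hc q hq⟩

theorem para (hB : Joint B) {n : ℕ} (hn : (n : ℕ∞) < m) :
    ParacompactSpace (Fin n → Y B k m) := by
  classical
  let w : (Fin n → Y B k m) → (Fin n → T × Option ℝ) := fun x p =>
    ((x p).t, if bad x p then some (x p).v else none)
  have hloc : ∀ x, ∀ᶠ y in 𝓝 x, w y = w x := by
    intro x
    have h1 : ∀ᶠ y in 𝓝 x, ∀ p, y p ∈ nb (x p) 1 :=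
      (mem_nhds_pi x _).2 ⟨1, one_pos, fun y hy => hy⟩
    have h2 : ∀ᶠ y : Fin n → Y B k m in 𝓝 x, ∀ p q, (x p).v ≠ (x q).v → (y p).v ≠ (y q).v := by
      refine eventually_all.2 fun p => eventually_all.2 fun q => ?_
      by_cases h : (x p).v = (x q).v
      · exact Eventually.of_forall fun y h' => absurd h h'
      · have ho : IsOpen {y : Fin n → Y B k m | (y p).v ≠ (y q).v} :=
          isOpen_ne_fun (cont_v.comp (continuous_apply p)) (cont_v.comp (continuous_apply q))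
        exact mem_of_superset (ho.mem_nhds h) fun y hy _ => hy
    filter_upwards [h1, h2] with y hy1 hy2
    funext p
    refine Prod.ext (hy1 p).1 ?_
    by_cases hb : bad x p
    · have hv := bad_mem hB hb
      have hv' : ∀ q, (x q).v = (x p).v → (y q).v = (x p).v := fun q hq =>
        ((hy1 q).2.2 (iso0 hB (by rw [hq]; exact hv))).trans hq
      have hb' : bad y p := by
        refine ⟨hb.1.imp fun i hi => (hy1 p).1.trans hi, fun i hi => ?_⟩
        obtain ⟨q, h3, h4⟩ := hb.2 i hi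
        exact ⟨q, (hy1 q).1.trans h3, (hv' q h4).trans (hv' p rfl).symm⟩
      simp only [w, if_pos hb, if_pos hb', hv' p rfl]
    · have hb' : ¬ bad y p := by
        intro h
        refine hb ⟨h.1.imp fun i hi => (hy1 p).1.symm.trans hi, fun i hi => ?_⟩
        obtain ⟨q, h3, h4⟩ := h.2 i hi
        refine ⟨q, (hy1 q).1.symm.trans h3, ?_⟩
        by_contra hne
        exact hy2 q p hne h4
      simp only [w, if_neg hb, if_neg hb']
  have hlc : IsLocallyConstant w := (IsLocallyConstant.iff_eventually_eq w).2 hloc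
  refine paracompact_of_fibres w (fun a => hlc _) fun a => ?_
  refine lindelof_piece hB (fun p => (a p).1) {t | ∃ p, (a p).2 = some t} ?_ _
    (hlc.isClosed_fiber a) (fun x hx p => congrArg Prod.fst (congrFun hx p)) fun x hx p => ?_
  · refine ((countable_range fun p => (a p).2).preimage_of_injOn
      (f := some) (Option.some_injective _).injOn).mono ?_
    rintro t ⟨p, hp⟩
    exact ⟨p, hp⟩
  · by_cases hb : bad x p
    · left
      refine ⟨p, ?_⟩
      have := congrArg Prod.snd (congrFun hx p)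
      simp only [w, if_pos hb] at this
      exact this.symm
    · right
      obtain ⟨c, hc⟩ := good_col hB hn hb
      refine ⟨c, fun q hq => ?_⟩
      have : (x q).t = (a q).1 := congrArg Prod.fst (congrFun hx q)
      rw [← this]
      exact hc q hq

theorem closed_diag {n : ℕ} (σ : Fin n → T) :
    IsClosed {x : Fin n → Sp N X | (∀ p, (x p).t = σ p) ∧ ∀ p q, (x p).v = (x q).v} := by
  refine (closed_type σ).inter ?_
  change IsClosed {x : Fin n → Sp N X | ∀ p q, (x p).v = (x q).v}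
  simp only [ofPred_forall]
  exact isClosed_iInter fun p => isClosed_iInter fun q =>
    isClosed_eq (cont_v.comp (continuous_apply p)) (cont_v.comp (continuous_apply q))

theorem not_lind (hB : Joint B) (hk : 1 ≤ k) {n : ℕ} (hn : k ≤ n) :
    ¬ LindelofSpace (Fin n → Y B k m) := by
  classical
  intro hL
  have hk0 : ((0 : ℕ) : ℕ∞) < k := by simpa using Order.one_le_iff_pos.1 hk
  have hn0 : 0 < n := by exact_mod_cast hk0.trans_le hn
  let s : Fin n → ℕ := fun p => if ((p : ℕ) : ℕ∞) < k then p else 0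
  have hs : ∀ p, (s p : ℕ∞) < k := fun p => by
    by_cases h : ((p : ℕ) : ℕ∞) < k
    · simp [s, h]
    · simpa [s, h] using hk0
  let Δ := {x : Fin n → Y B k m | (∀ p, (x p).t = .inl (s p)) ∧ ∀ p q, (x p).v = (x q).v}
  have hΔ : IsClosed Δ := closed_diag _
  have hiso : ∀ x ∈ Δ, {x} ∈ 𝓝 x := by
    intro x hx
    refine (mem_nhds_pi x _).2 ⟨1, one_pos, fun y hy => funext fun p => Sp.ext' (hy p).1 ?_⟩
    refine (hy p).2.2 (iso0 hB (bad_mem hB ⟨⟨_, hx.1 p⟩, fun i hi => ?_⟩))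
    have hin : i < n := by exact_mod_cast hi.trans_le hn
    exact ⟨⟨i, hin⟩, by rw [hx.1]; simp [s, hi], hx.2 _ _⟩
  obtain ⟨t, htc, -, ht⟩ := hΔ.isLindelof.elim_nhds_subcover (fun x => {x}) hiso
  refine hB.unc 0 ((htc.image fun x => (x ⟨0, hn0⟩).v).mono fun d hd => ?_)
  let x : Fin n → Y B k m := fun p => ⟨.inl (s p), d, hs p, Or.inr hd⟩
  obtain ⟨y, hy, hxy⟩ := mem_iUnion₂.1 (ht (show x ∈ Δ from ⟨fun _ => rfl, fun _ _ => rfl⟩))
  exact ⟨y, hy, by rw [← (show x = y from hxy)]⟩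

theorem not_para (hB : Joint B) (hm : 2 ≤ m) {n : ℕ} (hn : m ≤ n) :
    ¬ ParacompactSpace (Fin n → Y B k m) := by
  classical
  intro hP
  have hm1 : ((1 : ℕ) : ℕ∞) < m := lt_of_lt_of_le (by norm_num) hm
  have hm0 : ((0 : ℕ) : ℕ∞) < m := lt_of_lt_of_le (by norm_num) hm
  have hn0 : 0 < n := by exact_mod_cast hm0.trans_le hn
  let p₀ : Fin n := ⟨0, hn0⟩
  let s : Fin n → ℕ := fun p => if ((p : ℕ) : ℕ∞) < m then p else 1
  have hs : ∀ p, (s p : ℕ∞) < m := fun p => by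
    by_cases h : ((p : ℕ) : ℕ∞) < m
    · simp [s, h]
    · simpa [s, h] using hm1
  have hs0 : ∀ p, p ≠ p₀ → s p ≠ 0 := fun p hp => by
    by_cases h : ((p : ℕ) : ℕ∞) < m
    · simp only [s, h, if_true]
      exact fun e => hp (Fin.ext e)
    · simp [s, h]
  have hsp : s p₀ = 0 := by simp only [s, p₀]; rw [if_pos hm0]
  let Δ := {x : Fin n → Y B k m | (∀ p, (x p).t = .inr (s p)) ∧ ∀ p q, (x p).v = (x q).v}
  have hΔ : IsClosed Δ := closed_diag _
  have hΔv : ∀ x ∈ Δ, ∀ p, (x p).v ∈ B 1 := by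
    intro x hx p
    have h1 := (x p).mem
    rw [hx.1] at h1
    rcases h1.2 with ⟨a, ha, -, h1⟩ | h1
    · have han : a < n := by exact_mod_cast ha.trans_le hn
      have h2 := (x ⟨a, han⟩).mem
      rw [hx.1, hx.2 _ p] at h2
      rcases h2.2 with ⟨b, -, hb, h2⟩ | h2
      · have := col_eq hB h1 h2
        have h3 : s ⟨a, han⟩ = a := by simp [s, ha]
        omega
      · exact h2
    · exact h1
  have hiso : ∀ p, p ≠ p₀ → ∀ e ∈ B 1, e ∉ NN B k m (.inr (s p)) := by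
    rintro p hp e he (⟨a, -, -, h⟩ | ⟨h, -⟩)
    · have := col_eq hB he h
      omega
    · exact hs0 p hp h
  let p₁ : Fin n := ⟨1, by exact_mod_cast hm1.trans_le hn⟩
  have hp₁ : p₁ ≠ p₀ := fun h => by simpa [p₁, p₀] using congrArg Fin.val h
  let O : ℝ → Set (Fin n → Y B k m) := fun e =>
    {x | e ∈ B 1 ∧ ∀ p, p ≠ p₀ → (x p).t = .inr (s p) ∧ (x p).v = e}
  have hO : ∀ e, IsOpen (O e) := by
    intro e
    refine isOpen_iff_mem_nhds.2 fun x hx => (mem_nhds_pi x _).2 ⟨1, one_pos, fun y hy => ?_⟩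
    refine ⟨hx.1, fun p hp => ⟨(hy p).1.trans (hx.2 p hp).1, ?_⟩⟩
    refine ((hy p).2.2 ?_).trans (hx.2 p hp).2
    rw [(hx.2 p hp).1, (hx.2 p hp).2]
    exact hiso p hp e hx.1
  obtain ⟨V, hVo, hVc, hVl, hVO⟩ := precise_refinement_set hΔ O hO (by
    intro x hx
    exact mem_iUnion.2 ⟨(x p₀).v, hΔv x hx _, fun p _ => ⟨hx.1 p, hx.2 _ _⟩⟩)
  let pt : ∀ e ∈ B 1, ∀ e' ∈ B 1, Fin n → Y B k m := fun e he e' he' p =>
    if p = p₀ then ⟨.inr (s p), e', hs p, Or.inr he'⟩ else ⟨.inr (s p), e, hs p, Or.inr he⟩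
  have hpt : ∀ e he e' he' p, (pt e he e' he' p).t = .inr (s p) := by
    intro e he e' he' p
    by_cases h : p = p₀ <;> simp [pt, h]
  have hpv0 : ∀ e he e' he', (pt e he e' he' p₀).v = e' := by
    intro e he e' he'
    simp [pt]
  have hpv : ∀ e he e' he' p, p ≠ p₀ → (pt e he e' he' p).v = e := by
    intro e he e' he' p h
    simp [pt, h]
  have hV : ∀ e (he : e ∈ B 1), ∃ j : ℕ, ∀ e' (he' : e' ∈ B 1), dist e' e < 1 / ((j : ℝ) + 1) →
      pt e he e' he' ∈ V e := by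
    intro e he
    have h1 : pt e he e he ∈ Δ := by
      refine ⟨hpt e he e he, ?_⟩
      have : ∀ p, (pt e he e he p).v = e := fun p => by
        by_cases h : p = p₀
        · rw [h, hpv0 e he e he]
        · exact hpv e he e he p h
      intro p q
      rw [this, this]
    obtain ⟨e₁, h2⟩ := mem_iUnion.1 (hVc h1)
    have h3 : e₁ = e := ((hVO e₁ h2).2 p₁ hp₁).2.symm.trans (hpv e he e he _ hp₁)
    subst h3
    obtain ⟨ε, hε, h⟩ := (mem_nhds_pi _ _).1 ((hVo e₁).mem_nhds h2)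
    obtain ⟨j, hj⟩ := exists_nat_one_div_lt hε
    refine ⟨j, fun e' he' hd => h _ fun p =>
      ⟨by rw [hpt e₁ he e' he', hpt e₁ he e₁ he], ?_, ?_⟩⟩
    · by_cases hp : p = p₀
      · rw [hp, hpv0 e₁ he e' he', hpv0 e₁ he e₁ he]; exact hd.trans hj
      · rw [hpv e₁ he e' he' p hp, hpv e₁ he e₁ he p hp]; simpa using hε
    · by_cases hp : p = p₀
      · rw [hp, hpv0 e₁ he e₁ he, hpt e₁ he e₁ he, hsp]
        exact fun h => absurd (Or.inr ⟨rfl, he⟩) h
      · rw [hpv e₁ he e' he' p hp, hpv e₁ he e₁ he p hp]; exact fun _ => rfl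
  choose! j hj using hV
  obtain ⟨J, hJ⟩ : ∃ J : ℕ, ¬ {e ∈ B 1 | j e = J}.Countable := by
    by_contra hc
    push Not at hc
    exact hB.unc 1 ((countable_iUnion hc).mono fun e he => mem_iUnion.2 ⟨j e, by exact ⟨he, rfl⟩⟩)
  set E := {e ∈ B 1 | j e = J} with hE
  have hD : ¬ (derivedSet E).Countable := by
    intro hc
    refine hJ ((hc.union (countable_setOfPred_isolated_right_within (s := E))).mono fun e he => ?_)
    by_cases h : 𝓝[E ∩ Ioi e] e = ⊥
    · exact Or.inr ⟨he, h⟩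
    · left
      rw [mem_derivedSet, AccPt]
      refine (neBot_iff.2 h).mono ?_
      rw [nhdsWithin, nhdsWithin, inf_assoc, inf_principal]
      exact inf_le_inf_left _ (principal_mono.2 fun y hy => ⟨ne_of_gt hy.2, hy.1⟩)
  obtain ⟨b, hb, hbB⟩ := hB.meets 3 (isClosed_derivedSet E) hD
  have hinf : ∀ ε > 0, (ball b ε ∩ E).Infinite := fun ε hε =>
    Set.Infinite.of_accPt (AccPt.nhds_inter hb (ball_mem_nhds b hε))
  have hJ0 : (0 : ℝ) < 1 / ((J : ℝ) + 1) / 2 := by positivity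
  obtain ⟨e', he'b, he'E⟩ := (hinf _ hJ0).nonempty
  let y : Fin n → Y B k m := fun p =>
    if h : p = p₀ then ⟨.inr (s p), e', hs p, Or.inr he'E.1⟩
    else ⟨.inr (s p), b, hs p, Or.inl ⟨0, hm0, (hs0 p h).symm, hbB⟩⟩
  obtain ⟨U, hU, hfin⟩ := hVl y
  obtain ⟨ε, hε, hεU⟩ := (mem_nhds_pi y _).1 hU
  refine hinf (min ε (1 / ((J : ℝ) + 1) / 2)) (lt_min hε hJ0) (hfin.subset ?_)
  rintro e ⟨heb, heE⟩
  have h1 : dist e b < ε := lt_of_lt_of_le heb (min_le_left _ _)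
  have h2 : dist e b < 1 / ((J : ℝ) + 1) / 2 := lt_of_lt_of_le heb (min_le_right _ _)
  refine ⟨pt e heE.1 e' he'E.1, hj e heE.1 e' he'E.1 ?_, hεU _ fun p => ?_⟩
  · rw [heE.2]
    have := dist_triangle_right e' e b
    have h3 : dist e' b < 1 / ((J : ℝ) + 1) / 2 := he'b
    linarith
  · have q1 := hpt e heE.1 e' he'E.1 p
    have q2 := hpv0 e heE.1 e' he'E.1
    by_cases hp : p = p₀
    · subst hp
      refine ⟨by simp [y, q1], ?_, fun _ => ?_⟩
      · simp [y, q2, hε]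
      · simp [y, q2]
    · have q3 := hpv e heE.1 e' he'E.1 p hp
      refine ⟨by simp [y, hp, q1], ?_, fun h => ?_⟩
      · simpa [y, hp, q3] using h1
      · refine absurd ?_ h
        simp only [y, dif_neg hp]
        exact Or.inl ⟨0, hm0, (hs0 p hp).symm, hbB⟩

end Main

theorem main (k m : ℕ∞) (hk : 1 ≤ k) (hkm : k ≤ m) :
    ∃ (X : Type) (_ : TopologicalSpace X), T2Space X ∧ RegularSpace X ∧ ∀ n : ℕ, 0 < n →
      (ParacompactSpace (Fin n → X) ↔ (n : ℕ∞) < m) ∧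
      (LindelofSpace (Fin n → X) ↔ (n : ℕ∞) < k) := by
  obtain ⟨B, hB⟩ := exists_joint
  by_cases hm : 2 ≤ m
  · refine ⟨Y B k m, inferInstance, inferInstance, inferInstance, fun n _ => ⟨⟨fun h => ?_,
      para hB⟩, fun h => ?_, lind hB hkm⟩⟩
    · by_contra hc
      exact not_para hB hm (not_lt.1 hc) h
    · by_contra hc
      exact not_lind hB hk (not_lt.1 hc) h
  · have hm1 : m ≤ 1 := by
      have : m < 1 + 1 := by simpa [one_add_one_eq_two] using not_le.1 hm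
      exact (ENat.lt_add_one_iff (by simp)).1 this
    refine ⟨Fin 2 → Y B 1 2, inferInstance, inferInstance, inferInstance, fun n hn => ?_⟩
    have hn1 : (1 : ℕ∞) ≤ n := by exact_mod_cast hn
    have : Nonempty (Fin n) := ⟨⟨0, hn⟩⟩
    have hce : IsClosedEmbedding (Function.const (Fin n) : (Fin 2 → Y B 1 2) → _) :=
      (Function.LeftInverse.isClosedEmbedding (f := fun x => x ⟨0, hn⟩) (fun _ => rfl)
        (continuous_apply _) (continuous_pi fun _ => continuous_id))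
    refine ⟨⟨fun h => ?_, fun h => absurd (hm1.trans hn1) h.not_ge⟩,
      fun h => ?_, fun h => absurd ((hkm.trans hm1).trans hn1) h.not_ge⟩
    · exact absurd hce.paracompactSpace (not_para hB le_rfl (by norm_num))
    · exact absurd hce.LindelofSpace (not_lind hB le_rfl (by norm_num))

end Pool.Agent.H84.NSp
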