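import Pool.Agent.H84.NstDefs
import Pool.Agent.H84.Ku

/-! The restrictions of the nonstationary ideal are tree ideals. -/

namespace Pool.Agent.H84.Nst

open Set Cardinal Pool.Agent.H84.NstDefs

noncomputable instance : OrderBot W := WellFoundedLT.toOrderBot W

theorem bound {S : Set W} (h : S.Countable) : ∃ γ, ∀ x ∈ S, x < γ := Ku.bound h

theorem cIio (a : W) : (Iio a).Countable :=
  le_aleph0_iff_set_countable.1 (lt_aleph_one_iff.1 (mk_Iio_toType_ord_lt a))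

theorem cIic (a : W) : (Iic a).Countable := by
  rw [← Iio_insert]; exact (cIio a).insert a

theorem clubg (g : W → W) : IsClub {α | ⊥ < α ∧ ∀ β < α, g β < α} := by
  refine ⟨fun d hd ⟨x, hx⟩ _ a ha => ⟨(hd hx).1.trans_le (ha.1 hx), fun β hβ => ?_⟩, fun γ => ?_⟩
  · obtain ⟨y, hy, r⟩ := (lt_isLUB_iff ha).1 hβ
    exact ((hd hy).2 β r).trans_le (ha.1 hy)
  · choose b hb using fun c : W => bound (((cIic c).image g).insert c)
    let c : ℕ → W := fun n => b^[n] γ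
    have hc : ∀ n, c (n + 1) = b (c n) := fun n => Function.iterate_succ_apply' b n γ
    obtain ⟨u, hu⟩ := bound (countable_range c)
    have ne : (upperBounds (range c)).Nonempty := ⟨u, fun x hx => (hu x hx).le⟩
    have h1 := wellFounded_lt.min_mem _ ne
    refine ⟨_, ⟨?_, fun β hβ => ?_⟩, h1 ⟨0, rfl⟩⟩
    · exact (bot_le.trans_lt (hb γ γ (mem_insert _ _))).trans_le (h1 ⟨1, rfl⟩)
    · obtain ⟨n, hn⟩ : ∃ n, β ≤ c n := by
        by_contra! h
        exact wellFounded_lt.not_lt_min _ (show β ∈ upperBounds (range c) by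
          rintro _ ⟨n, rfl⟩; exact (h n).le) hβ
      exact (hb _ _ (mem_insert_of_mem _ ⟨β, hn, rfl⟩)).trans_le (h1 ⟨n + 1, hc n⟩)

theorem lim {C : Set W} (hC : IsClub C) {α : W} (h0 : ⊥ < α)
    (h : ∀ β < α, ∃ γ ∈ C, β < γ ∧ γ < α) : α ∈ C :=
  hC.isLUB_mem (t := C ∩ Iio α) inter_subset_left
    ((h _ h0).imp fun _ r => ⟨r.1, r.2.2⟩) ⟨fun _ r => r.2.le, fun β hβ => not_lt.1 fun r =>
      (h β r).elim fun _ s => (hβ ⟨s.1, s.2.2⟩).not_gt s.2.1⟩

/-- Functions on a countable ordinal all of whose closure points lie in `S`. -/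
def Nd (S : Set W) : Type := {p : W × (W → W) // (∀ β, p.1 ≤ β → p.2 β = β) ∧
  ∀ η ≤ p.1, ⊥ < η → (∀ β < η, p.2 β < η) → η ∈ S}

variable {S : Set W}

theorem Nd.ext' {p q : Nd S} (h : p.1.1 = q.1.1) (h' : ∀ β < p.1.1, p.1.2 β = q.1.2 β) : p = q :=
  Subtype.ext (Prod.ext h (funext fun β => (lt_or_ge β p.1.1).elim (h' β) fun r =>
    (p.2.1 β r).trans (q.2.1 β (h ▸ r)).symm))

instance : PartialOrder (Nd S) where
  le p q := p.1.1 ≤ q.1.1 ∧ ∀ β < p.1.1, p.1.2 β = q.1.2 β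
  le_refl _ := ⟨le_rfl, fun _ _ => rfl⟩
  le_trans _ _ _ a b := ⟨a.1.trans b.1, fun β r => (a.2 β r).trans (b.2 β (r.trans_le a.1))⟩
  le_antisymm _ _ a b := Nd.ext' (a.1.antisymm b.1) a.2

noncomputable instance : OrderBot (Nd S) where
  bot := ⟨(⊥, id), fun _ _ => rfl, fun _ r s => absurd s r.not_gt⟩
  bot_le _ := ⟨bot_le, fun _ r => absurd r not_lt_bot⟩

theorem le_of {p q t : Nd S} (a : p ≤ t) (b : q ≤ t) (h : p.1.1 ≤ q.1.1) : p ≤ q :=
  ⟨h, fun β r => (a.2 β r).trans (b.2 β (r.trans_le h)).symm⟩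

theorem smono : StrictMono fun p : Nd S => p.1.1 := fun _ _ h =>
  h.le.1.lt_of_ne fun e => h.ne (Nd.ext' e h.le.2)

theorem lt_of {p q : Nd S} (a : p ≤ q) (h : p.1.1 < q.1.1) : p < q :=
  a.lt_of_ne fun e => h.ne (e ▸ rfl)

theorem res (t : Nd S) {β : W} (h : β < t.1.1) : ∃ s < t, s.1.1 = β := by
  classical
  refine ⟨⟨(β, fun γ => if γ < β then t.1.2 γ else γ), fun γ r => if_neg r.not_gt,
    fun η a b c => t.2.2 η (a.trans h.le) b fun γ r => ?_⟩,
    lt_of ⟨h.le, fun γ r => if_pos r⟩ h, rfl⟩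
  simpa [r.trans_le a] using c γ r

theorem extd (p : Nd S) (γ : W) : ∃ q, p ≤ q ∧ γ < q.1.1 := by
  classical
  obtain ⟨δ, hδ⟩ := bound ((countable_singleton γ).insert p.1.1)
  have h1 : p.1.1 < δ := hδ _ (by simp)
  refine ⟨⟨(δ, fun β => if β < p.1.1 then p.1.2 β else if β < δ then δ else β), fun β r => ?_,
    fun η a b c => ?_⟩, ⟨h1.le, fun β r => (if_pos r).symm⟩, hδ _ (by simp)⟩
  · simp [r.not_gt, (h1.le.trans r).not_gt]
  · rcases le_or_gt η p.1.1 with r | r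
    · exact p.2.2 η r b fun β s => by simpa [s.trans_le r] using c β s
    · exact absurd (by simpa [h1] using c _ r) a.not_gt

theorem tree : IsTree (Nd S) fun p => p.1.1 :=
  ⟨fun _ p a q b _ => (le_total p.1.1 q.1.1).imp (le_of a.le b.le) (le_of b.le a.le), smono,
    fun t _ => res t, fun β => (extd ⊥ β).elim fun q r => (res q r.2).imp fun _ s => s.2⟩

theorem small {X : Set W} (h : ¬ IsStationary (X ∩ S)) : NST ((fun p : Nd S => p.1.1) ⁻¹' X) := by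
  classical
  obtain ⟨C, hC, hd⟩ := not_isStationary_iff.1 h
  have : ∀ β : W, ∃ γ ∈ C, β < γ := fun β => (bound (countable_singleton β)).elim fun δ r =>
    (hC.isCofinal δ).imp fun _ s => ⟨s.1, (r β rfl).trans_le s.2⟩
  choose c c1 c2 using this
  choose g hg using fun s : Nd S => bound (((cIio s.1.1).image s.1.2).insert (c s.1.1))
  have : ∀ t : Nd S, ∃ s, t.1.1 ∈ X → (t ≠ ⊥ → s < t) ∧ t.1.1 ≤ g s := fun t => by
    by_cases h0 : t = ⊥
    · exact ⟨⊥, fun _ => ⟨fun r => absurd h0 r, by rw [h0]; exact bot_le⟩⟩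
    by_contra! k
    have k1 : ∀ s < t, g s < t.1.1 := fun s r => (k s).2 fun _ => r
    have k0 : ⊥ < t.1.1 := smono (bot_lt_iff_ne_bot.2 h0)
    have k2 : ∀ β < t.1.1, c β < t.1.1 := fun β r => by
      obtain ⟨s, a, rfl⟩ := res t r
      exact (hg s _ (mem_insert _ _)).trans (k1 s a)
    refine disjoint_left.1 hd ⟨(k t).1, t.2.2 _ le_rfl k0 fun β r => ?_⟩
      (lim hC k0 fun β r => ⟨_, c1 β, c2 β, k2 β r⟩)
    obtain ⟨s, a, e⟩ := res t (k2 β r)
    have b : β < s.1.1 := e ▸ c2 β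
    exact (hg s _ (mem_insert_of_mem _ ⟨β, b, a.le.2 β b⟩)).trans (k1 s a)
  choose f hf using this
  refine ⟨f, fun t r => (hf t r).1, fun s => ?_⟩
  obtain ⟨e, he⟩ := (cIic (g s)).exists_eq_range ⟨g s, self_mem_Iic⟩
  refine ⟨fun n => {t | (t.1.1 ∈ X ∧ f t = s) ∧ t.1.1 = e n}, fun n p a q b r u =>
    r (Nd.ext' (a.2.trans b.2.symm) u.2), Subset.antisymm (fun t r => ?_) ?_⟩
  · obtain ⟨n, hn⟩ : t.1.1 ∈ range e := he ▸ (r.2 ▸ (hf t r.1).2 : t.1.1 ≤ g s)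
    exact mem_iUnion.2 ⟨n, r, hn.symm⟩
  · exact iUnion_subset fun n t r => r.1

theorem big {X : Set W} (h : IsStationary (X ∩ S)) :
    ¬ NST ((fun p : Nd S => p.1.1) ⁻¹' X) := fun ⟨f, hf, hs⟩ => by
  classical
  choose A hA hU using hs
  have : ∀ (p : Nd S) (x : W × ℕ), ∃ q, p ≤ q ∧ x.1 < q.1.1 ∧
      ∀ t, q < t → ∀ s ≤ t, s.1.1 = x.1 → t ∉ A s x.2 := fun p x => by
    obtain ⟨p', a, b⟩ := extd p x.1
    obtain ⟨s₀, c, d⟩ := res p' b
    have u : ∀ t, p' ≤ t → ∀ s ≤ t, s.1.1 = x.1 → s = s₀ := fun t r s v w =>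
      (le_of v (c.le.trans r) (w.trans d.symm).le).antisymm
        (le_of (c.le.trans r) v (d.trans w.symm).le)
    by_cases k : ∃ q, p' ≤ q ∧ q ∈ A s₀ x.2
    · obtain ⟨q, k1, k2⟩ := k
      exact ⟨q, a.trans k1, b.trans_le k1.1, fun t r s v w z =>
        hA _ _ k2 (u t (k1.trans r.le) s v w ▸ z) r.ne r.le⟩
    · exact ⟨p', a, b, fun t r s v w z => k ⟨t, r.le, u t r.le s v w ▸ z⟩⟩
  choose st s1 s2 s3 using this
  let G : List (W × ℕ) → Nd S := fun l => l.rec ⊥ fun x _ p => st p x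
  have : ∀ γ : W, ∃ δ, ∀ l : List (W × ℕ), (∀ x ∈ l, x.1 ≤ γ) → (G l).1.1 < δ := fun γ => by
    have : Countable (Iic γ ×ˢ (Set.univ : Set ℕ)) := (cIic γ).prod countable_univ
    obtain ⟨δ, r⟩ := bound ((countable_range (List.map ((↑) : Iic γ ×ˢ (Set.univ : Set ℕ) → _))).image
      fun l => (G l).1.1)
    rw [range_list_map_coe] at r
    exact ⟨δ, fun l a => r _ ⟨l, fun x b => ⟨a x b, trivial⟩, rfl⟩⟩
  choose g hg using this
  obtain ⟨α, ⟨hX, hS⟩, h0, hα⟩ := h (clubg g)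
  obtain ⟨e, he⟩ := ((cIio α).prod (countable_univ (α := ℕ))).exists_eq_range
    ⟨(⊥, 0), h0, trivial⟩
  let l : ℕ → List (W × ℕ) := fun n => n.rec [] fun n l => e n :: l
  have pm : Monotone fun n => G (l n) := monotone_nat_of_le_succ fun n => s1 _ _
  have lb : ∀ n, ∃ γ < α, ∀ x ∈ l n, x.1 ≤ γ := fun n => by
    induction n with
    | zero => exact ⟨⊥, h0, fun _ r => absurd r List.not_mem_nil⟩
    | succ n ih =>
      obtain ⟨γ, a, b⟩ := ih
      refine ⟨max γ (e n).1, max_lt a (he ▸ mem_range_self n : e n ∈ Iio α ×ˢ Set.univ).1,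
        fun x r => (List.mem_cons.1 r).elim (fun r => r ▸ le_max_right _ _) fun r =>
          (b x r).trans (le_max_left _ _)⟩
  have pl : ∀ n, (G (l n)).1.1 < α := fun n => (lb n).elim fun γ r =>
    (hg γ _ r.2).trans (hα γ r.1)
  have en : ∀ β < α, ∀ n, ∃ m, e m = (β, n) := fun β r n =>
    (he ▸ ⟨r, trivial⟩ : (β, n) ∈ range e)
  have : ∀ β, ∃ m, β < α → β < (G (l m)).1.1 := fun β => by
    by_cases r : β < α
    · obtain ⟨m, a⟩ := en β r 0
      exact ⟨m + 1, fun _ => (congrArg Prod.fst a).ge.trans_lt (s2 (G (l m)) (e m))⟩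
    · exact ⟨0, fun s => absurd s r⟩
  choose k hk using this
  let τ : W → W := fun β => if β < α then (G (l (k β))).1.2 β else β
  have ag : ∀ n, ∀ β < (G (l n)).1.1, (G (l n)).1.2 β = τ β := fun n β r => by
    have b := r.trans (pl n)
    simp only [τ, if_pos b]
    exact ((pm (le_max_left n (k β))).2 β r).trans
      ((pm (le_max_right n (k β))).2 β (hk β b)).symm
  let t : Nd S := ⟨(α, τ), fun β r => if_neg r.not_gt, fun η a b c => a.lt_or_eq.elim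
    (fun r => (G (l (k η))).2.2 η (hk η r).le b fun β s =>
      ag _ β (s.trans (hk η r)) ▸ c β s) fun r => r ▸ hS⟩
  have pt : ∀ n, G (l n) < t := fun n => lt_of ⟨(pl n).le, ag n⟩ (pl n)
  have ft := hf t hX (bot_le.trans_lt (pt 0)).ne'
  obtain ⟨n, hn⟩ := mem_iUnion.1 (hU (f t) ▸ ⟨hX, rfl⟩ : t ∈ ⋃ n, A (f t) n)
  obtain ⟨m, hm⟩ := en _ (smono ft) n
  exact s3 (G (l m)) (e m) t (pt (m + 1)) _ ft.le (hm ▸ rfl) (hm ▸ hn)

theorem realised (S : Set W) : Realised {X | ¬ IsStationary (X ∩ S)} :=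
  ⟨Nd S, inferInstance, inferInstance, _, tree, fun _ => ⟨small, fun h r => big r h⟩⟩

end Pool.Agent.H84.Nst
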