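import Pool.Agent.H84.NstA

/-! Under saturation every normal ideal is a restriction of the nonstationary ideal. -/

namespace Pool.Agent.H84.Nst

open Set Cardinal Pool.Agent.H84.NstDefs

variable {I : Set (Set W)}

theorem fin (hI : Normal I) {F : Set W} (h : F.Finite) : F ∈ I :=
  h.induction_on F (hI.mono _ (hI.sing ⊥) _ (empty_subset _)) fun {a _} _ _ r =>
    hI.union _ (hI.sing a) _ r

theorem iic (hI : Normal I) (γ : W) : Iic γ ∈ I := by
  obtain ⟨i, hi⟩ := countable_iff_exists_injOn.1 (cIic γ)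
  have f : ∀ n, {β | β ≤ γ ∧ i β ≤ n}.Finite := fun n =>
    (finite_Iic n).of_injOn (fun _ r => r.2) (hi.mono fun _ r => r.1)
  refine hI.mono _ (hI.union _ (hI.sing ⊥) _ (hI.diag
    (fun α => {β | β ≤ γ ∧ i β ≤ i α} ∪ {β | IsLeast (Ioi α) β}) fun α => fin hI ((f _).union
      (Subsingleton.finite fun _ a _ b => a.unique b)))) _ fun β r => ?_
  by_contra k
  simp only [mem_union, mem_singleton_iff, mem_setOf_eq, not_or, not_exists, not_and] at k
  obtain ⟨α, a, b⟩ := exists_max_image (Iio β) id ((f (i β)).subset fun α s =>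
    ⟨s.le.trans r, not_lt.1 fun u => (k.2 α s).1 r u.le⟩) ⟨⊥, bot_lt_iff_ne_bot.2 k.1⟩
  exact (k.2 α a).2 ⟨a, fun δ s => not_lt.1 fun u => (b δ u).not_gt s⟩

theorem ns (hI : Normal I) {X : Set W} (h : ¬ IsStationary X) : X ∈ I := by
  obtain ⟨C, hC, hd⟩ := not_isStationary_iff.1 h
  have : ∀ β : W, ∃ γ ∈ C, β < γ := fun β => (bound (countable_singleton β)).elim fun δ r =>
    (hC.isCofinal δ).imp fun _ s => ⟨s.1, (r β rfl).trans_le s.2⟩
  choose c c1 c2 using this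
  refine hI.mono _ (hI.union _ (hI.sing ⊥) _ (hI.diag (fun α => Iic (c α)) fun α => iic hI _))
    _ fun β r => ?_
  by_contra k
  simp only [mem_union, mem_singleton_iff, mem_setOf_eq, not_or, not_exists, not_and,
    mem_Iic, not_le] at k
  exact disjoint_left.1 hd r (lim hC (bot_lt_iff_ne_bot.2 k.1) fun α s => ⟨_, c1 α, c2 α, k.2 α s⟩)

theorem restr (hs : Saturated) (hI : Normal I) : ∃ S, I = {X | ¬ IsStationary (X ∩ S)} := by
  obtain ⟨𝒜, ⟨h1, h2⟩, h3⟩ := zorn_subset {𝒜 : Set (Set W) | (∀ A ∈ 𝒜, A ∈ I ∧ IsStationary A) ∧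
      𝒜.Pairwise fun A B => ¬ IsStationary (A ∩ B)} fun c hc ch =>
    ⟨⋃₀ c, ⟨fun A ⟨_, a, b⟩ => (hc a).1 A b,
      (pairwise_sUnion ch.directedOn).2 fun _ a => (hc a).2⟩, fun _ => subset_sUnion_of_mem⟩
  obtain ⟨j⟩ : Nonempty (𝒜 ↪ W) := (Cardinal.le_def _ _).1
    ((hs 𝒜 (fun A a => (h1 A a).2) h2).trans_eq (mk_ord_toType _).symm)
  let A : W → Set W := Function.extend j Subtype.val fun _ => ∅
  have hA : ∀ α, A α ∈ I := fun α => by
    by_cases k : ∃ a, j a = α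
    · obtain ⟨a, rfl⟩ := k
      simp only [A, j.injective.extend_apply]
      exact (h1 _ a.2).1
    · simp only [A, Function.extend_apply' _ _ _ k]
      exact fin hI finite_empty
  refine ⟨{β | ∃ α < β, β ∈ A α}ᶜ, ext fun X => ⟨fun hX hY => ?_, fun hX => ?_⟩⟩
  · set Y := X ∩ {β | ∃ α < β, β ∈ A α}ᶜ
    have d : ∀ B ∈ 𝒜, ¬ IsStationary (Y ∩ B) := fun B b r => by
      obtain ⟨δ, ⟨u, v⟩, w, z⟩ := r (clubg fun _ => j ⟨B, b⟩)
      exact u.2 ⟨_, z _ w, by simpa only [A, j.injective.extend_apply] using v⟩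
    have : Y ∈ 𝒜 := h3 (y := insert Y 𝒜) ⟨forall_mem_insert.2
      ⟨⟨hI.mono _ hX _ inter_subset_left, hY⟩, h1⟩, h2.insert fun B b _ =>
        ⟨d B b, inter_comm Y B ▸ d B b⟩⟩ (subset_insert _ _) (mem_insert _ _)
    exact d Y this (by rwa [inter_self])
  · refine hI.mono _ (hI.union _ (hI.diag A hA) _ (ns hI hX)) _ fun β r => ?_
    by_cases k : ∃ α < β, β ∈ A α
    exacts [Or.inl k, Or.inr ⟨r, k⟩]

end Pool.Agent.H84.Nst
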