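import Mathlib

/-! Trees of height `ω₁`, their nonstationary ideals, and normal ideals on `ω₁`. -/

namespace Pool.Agent.H84.NstDefs

open Set

/-- The set of countable ordinals. -/
abbrev W : Type := (Cardinal.aleph 1).ord.ToType

/-- `T` is a tree of height `ω₁` with height function `ht`: the predecessors of `t` form a chain
which `ht` maps increasingly onto the ordinals below `ht t`, and every height occurs. -/
structure IsTree (T : Type) [PartialOrder T] (ht : T → W) : Prop where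
  chain : ∀ t : T, IsChain (· ≤ ·) (Iio t)
  mono : StrictMono ht
  onto : ∀ t β, β < ht t → ∃ s < t, ht s = β
  surj : Function.Surjective ht

/-- A union of countably many antichains. -/
def Special {T : Type} [PartialOrder T] (U : Set T) : Prop :=
  ∃ A : ℕ → Set T, (∀ n, IsAntichain (· ≤ ·) (A n)) ∧ U = ⋃ n, A n

/-- The ideal `NS^T`. -/
def NST {T : Type} [PartialOrder T] [OrderBot T] (B : Set T) : Prop :=
  ∃ f : T → T, (∀ t ∈ B, t ≠ ⊥ → f t < t) ∧ ∀ s, Special {t ∈ B | f t = s}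

/-- Normal ideals on `ω₁`. -/
structure Normal (I : Set (Set W)) : Prop where
  mono : ∀ X ∈ I, ∀ Y ⊆ X, Y ∈ I
  union : ∀ X ∈ I, ∀ Y ∈ I, X ∪ Y ∈ I
  proper : univ ∉ I
  sing : ∀ α, {α} ∈ I
  diag : ∀ X : W → Set W, (∀ α, X α ∈ I) → {β | ∃ α < β, β ∈ X α} ∈ I

/-- `I` is `NS_T` for a tree `T` of height `ω₁` with a root. -/
def Realised (I : Set (Set W)) : Prop :=
  ∃ (T : Type) (_ : PartialOrder T) (_ : OrderBot T) (ht : T → W), IsTree T ht ∧
    ∀ X, X ∈ I ↔ NST (ht ⁻¹' X)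

/-- The nonstationary ideal on `ω₁` is `ℵ₂`-saturated. -/
def Saturated : Prop :=
  ∀ 𝒜 : Set (Set W), (∀ A ∈ 𝒜, IsStationary A) →
    (𝒜.Pairwise fun A B => ¬ IsStationary (A ∩ B)) → Cardinal.mk 𝒜 ≤ Cardinal.aleph 1

end Pool.Agent.H84.NstDefs
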