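import Mathlib

/-! A Hausdorff metacompact space that is not an open compact image of a paracompact space. -/

namespace Pool.Agent.H84.OpenCpt

open Set Topology Filter

abbrev K := ℝ → Bool

def o : K := fun _ => false

def Y := Option (ℕ × K)

def inc (n : ℕ) (x : K) : Y := some (n, x)

def top : Y := none

instance : TopologicalSpace Y where
  IsOpen U := (∀ n, IsOpen (inc n ⁻¹' U)) ∧ (top ∈ U → ∃ m, ∀ n ≥ m, ∀ x ≠ o, inc n x ∈ U)
  isOpen_univ := ⟨fun _ => isOpen_univ, fun _ => ⟨0, fun _ _ _ _ => trivial⟩⟩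
  isOpen_inter := fun U V hU hV => ⟨fun n => (hU.1 n).inter (hV.1 n), fun h => by
    obtain ⟨m, hm⟩ := hU.2 h.1
    obtain ⟨m', hm'⟩ := hV.2 h.2
    exact ⟨max m m', fun n hn x hx => ⟨hm n (le_of_max_le_left hn) x hx,
      hm' n (le_of_max_le_right hn) x hx⟩⟩⟩
  isOpen_sUnion := fun S hS => ⟨fun n => by
    rw [sUnion_eq_biUnion, preimage_iUnion₂]
    exact isOpen_biUnion fun U hU => (hS U hU).1 n, fun ⟨U, hU, h⟩ => by
    obtain ⟨m, hm⟩ := (hS U hU).2 h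
    exact ⟨m, fun n hn x hx => ⟨U, hU, hm n hn x hx⟩⟩⟩

theorem isOpen_iff {U : Set Y} : IsOpen U ↔
    (∀ n, IsOpen (inc n ⁻¹' U)) ∧ (top ∈ U → ∃ m, ∀ n ≥ m, ∀ x ≠ o, inc n x ∈ U) := Iff.rfl

theorem inc_eq {n m : ℕ} {x y : K} : inc n x = inc m y ↔ n = m ∧ x = y := by
  constructor
  · intro h
    exact Prod.ext_iff.1 (Option.some_injective _ h)
  · rintro ⟨rfl, rfl⟩
    rfl

theorem inc_ne (n : ℕ) (x : K) : inc n x ≠ top := Option.some_ne_none _

theorem cases' (y : Y) : y = top ∨ ∃ n x, y = inc n x := by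
  rcases y with _ | ⟨n, x⟩
  · exact Or.inl rfl
  · exact Or.inr ⟨n, x, rfl⟩

theorem inc_cont (n : ℕ) : Continuous (inc n) := ⟨fun _ h => h.1 n⟩

theorem inc_open (n : ℕ) : IsOpenMap (inc n) := by
  intro U hU
  refine ⟨fun m => ?_, fun ⟨x, _, h⟩ => absurd h (inc_ne n x)⟩
  by_cases h : n = m
  · subst h
    rwa [preimage_image_eq _ fun x y h => (inc_eq.1 h).2]
  · convert isOpen_empty
    exact eq_empty_of_forall_notMem fun x ⟨y, _, h'⟩ => h (inc_eq.1 h').1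

def tail (m : ℕ) : Set Y := {y | ∀ n x, y = inc n x → m ≤ n ∧ x ≠ o}

theorem tail_open (m : ℕ) : IsOpen (tail m) := by
  refine ⟨fun n => ?_, fun _ => ⟨m, fun n hn x hx n' x' h => ?_⟩⟩
  · by_cases h : m ≤ n
    · convert isOpen_compl_singleton (x := o)
      ext x
      simp [tail, inc_eq, h]
    · convert isOpen_empty
      ext x
      simp [tail, inc_eq, h]
  · obtain ⟨rfl, rfl⟩ := inc_eq.1 h
    exact ⟨hn, hx⟩

theorem top_tail (m : ℕ) : top ∈ tail m := fun n x h => absurd h.symm (inc_ne n x)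

theorem range_closed (n : ℕ) : IsClosed (range (inc n)) := by
  refine ⟨⟨fun m => ?_, fun _ => ⟨n + 1, fun k hk x _ ⟨y, h⟩ => ?_⟩⟩⟩
  · by_cases h : n = m
    · convert isOpen_empty
      ext x
      simp [h]
    · convert isOpen_univ
      ext x
      simp [inc_eq, h]
  · have := (inc_eq.1 h).1
    omega

instance : T2Space Y := by
  have key : ∀ n x, ∃ U V : Set Y, IsOpen U ∧ IsOpen V ∧ top ∈ U ∧ inc n x ∈ V ∧ Disjoint U V :=
    fun n x => ⟨(range (inc n))ᶜ, range (inc n), (range_closed n).isOpen_compl,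
      (inc_open n).isOpen_range, fun ⟨y, h⟩ => inc_ne _ _ h, ⟨x, rfl⟩, disjoint_compl_left⟩
  refine ⟨fun a b hab => ?_⟩
  rcases cases' a with rfl | ⟨n, x, rfl⟩ <;> rcases cases' b with rfl | ⟨m, y, rfl⟩
  · exact absurd rfl hab
  · exact key m y
  · obtain ⟨U, V, h1, h2, h3, h4, h5⟩ := key n x
    exact ⟨V, U, h2, h1, h4, h3, h5.symm⟩
  · by_cases h : n = m
    · subst h
      obtain ⟨U, V, h1, h2, h3, h4, h5⟩ := t2_separation (show x ≠ y from fun h => hab (h ▸ rfl))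
      exact ⟨_, _, inc_open n U h1, inc_open n V h2, mem_image_of_mem _ h3, mem_image_of_mem _ h4,
        (disjoint_image_iff fun x y h => (inc_eq.1 h).2).2 h5⟩
    · exact ⟨range (inc n), (range (inc n))ᶜ, (inc_open n).isOpen_range,
        (range_closed n).isOpen_compl, ⟨x, rfl⟩, fun ⟨y, h'⟩ => h (inc_eq.1 h').1,
        disjoint_compl_right⟩

theorem metacompact (𝒰 : Set (Set Y)) (ho : ∀ U ∈ 𝒰, IsOpen U) (hc : ⋃₀ 𝒰 = univ) :
    ∃ 𝒱 : Set (Set Y), (∀ V ∈ 𝒱, IsOpen V) ∧ ⋃₀ 𝒱 = univ ∧ (∀ V ∈ 𝒱, ∃ U ∈ 𝒰, V ⊆ U) ∧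
      ∀ y, {V ∈ 𝒱 | y ∈ V}.Finite := by
  obtain ⟨U₀, h0, h0'⟩ := sUnion_eq_univ_iff.1 hc top
  have : ∀ n, ∃ t ⊆ 𝒰, t.Finite ∧ range (inc n) ⊆ ⋃ U ∈ t, U := fun n =>
    (isCompact_range (inc_cont n)).elim_finite_subcover_image ho (by
      rw [← sUnion_eq_biUnion, hc]; exact subset_univ _)
  choose t ht1 ht2 ht3 using this
  refine ⟨insert U₀ (⋃ n, (fun U => U ∩ range (inc n)) '' t n), ?_, ?_, ?_, fun y => ?_⟩
  · rintro V (rfl | hV)
    · exact ho _ h0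
    · obtain ⟨n, U, hU, rfl⟩ := mem_iUnion.1 hV
      exact (ho U (ht1 n hU)).inter (inc_open n).isOpen_range
  · refine eq_univ_of_forall fun y => ?_
    rcases cases' y with rfl | ⟨n, x, rfl⟩
    · exact ⟨U₀, Or.inl rfl, h0'⟩
    · obtain ⟨U, hU, h⟩ := mem_iUnion₂.1 (ht3 n ⟨x, rfl⟩)
      exact ⟨_, Or.inr (mem_iUnion.2 ⟨n, U, hU, rfl⟩), h, x, rfl⟩
  · rintro V (rfl | hV)
    · exact ⟨_, h0, Subset.rfl⟩
    · obtain ⟨n, U, hU, rfl⟩ := mem_iUnion.1 hV
      exact ⟨U, ht1 n hU, inter_subset_left⟩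
  · rcases cases' y with rfl | ⟨n, x, rfl⟩
    · refine (finite_singleton U₀).subset ?_
      rintro V ⟨rfl | hV, h⟩
      · rfl
      · obtain ⟨n, U, hU, rfl⟩ := mem_iUnion.1 hV
        obtain ⟨x, hx⟩ := h.2
        exact absurd hx (inc_ne n x)
    · refine (((ht2 n).image fun U => U ∩ range (inc n)).insert U₀).subset ?_
      rintro V ⟨rfl | hV, h⟩
      · exact Or.inl rfl
      · obtain ⟨m, U, hU, rfl⟩ := mem_iUnion.1 hV
        obtain ⟨y, hy⟩ := h.2
        obtain ⟨rfl, -⟩ := inc_eq.1 hy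
        exact Or.inr ⟨U, hU, rfl⟩

theorem not_pf (G : ℝ → Set K) (hG : ∀ i, G i ∈ 𝓝 (fun j => decide (j = i) : K)) :
    ∃ x : K, {i | x ∈ G i}.Infinite := by
  classical
  have h1 : ∀ i, ∃ q : ℚ × ℚ, (q.1 : ℝ) < i ∧ i < q.2 ∧ ∀ x : K, x i = true →
      (∀ j, j ≤ (q.1 : ℝ) ∨ (q.2 : ℝ) ≤ j → x j = false) → x ∈ G i := by
    intro i
    have := hG i
    rw [nhds_pi, Filter.mem_pi] at this
    obtain ⟨F, hF, t, ht, h⟩ := this
    have h2 : (F \ {i})ᶜ ∈ 𝓝 i := (hF.subset sdiff_subset).isClosed.isOpen_compl.mem_nhds (by simp)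
    obtain ⟨a, b, hab, h3⟩ := mem_nhds_iff_exists_Ioo_subset.1 h2
    obtain ⟨q₁, k1, k2⟩ := exists_rat_btwn hab.1
    obtain ⟨q₂, k3, k4⟩ := exists_rat_btwn hab.2
    refine ⟨(q₁, q₂), k2, k3, fun x hx hx' => h fun j hj => ?_⟩
    have : x j = decide (j = i) := by
      by_cases hji : j = i
      · simp [hji, hx]
      · rw [hx' j]
        · simp [hji]
        · by_contra hc
          push Not at hc
          exact h3 ⟨k1.trans hc.1, hc.2.trans k4⟩ ⟨hj, hji⟩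
    rw [this]
    exact mem_of_mem_nhds (ht j)
  choose q h1 h2 h3 using h1
  obtain ⟨r, hr⟩ : ∃ r, (q ⁻¹' {r}).Infinite := by
    by_contra hc
    push Not at hc
    exact Cardinal.not_countable_real ((countable_iUnion fun r => (hc r).countable).mono
      fun i _ => mem_iUnion.2 ⟨q i, rfl⟩)
  refine ⟨fun j => decide ((r.1 : ℝ) < j ∧ j < r.2), hr.mono fun i hi => h3 i _ ?_ ?_⟩
  · rw [← (show q i = r from hi)]
    simp [h1 i, h2 i]
  · rw [show q i = r from hi]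
    rintro j (hj | hj)
    · simp [hj.not_gt]
    · simp [hj.not_gt]

universe u

theorem not_image (X : Type u) [TopologicalSpace X] [T2Space X] [ParacompactSpace X] (f : X → Y)
    (hf : Continuous f) (hs : Function.Surjective f) (ho : IsOpenMap f)
    (hc : ∀ y, IsCompact (f ⁻¹' {y})) : False := by
  classical
  obtain ⟨x₀, hx₀⟩ := hs top
  obtain ⟨C, hC1, hC2, hC3⟩ := exists_mem_nhds_isClosed_subset
    (((tail_open 0).preimage hf).mem_nhds (show x₀ ∈ f ⁻¹' tail 0 by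
      rw [mem_preimage, hx₀]; exact top_tail 0))
  obtain ⟨n, hn⟩ := (ho _ (isOpen_interior (s := C))).2 ⟨x₀, mem_interior_iff_mem_nhds.2 hC1, hx₀⟩
  let U : ℝ → Set X := fun i => f ⁻¹' (inc n '' {x | x i = true})
  obtain ⟨T, h1, h2, h3, h4⟩ := precise_refinement_set
    (hC2.inter ((range_closed n).preimage hf)) U
    (fun i => (inc_open n {x | x i = true}
      ((isOpen_discrete ({true} : Set Bool)).preimage
        (continuous_apply (A := fun _ : ℝ => Bool) i))).preimage hf)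
    (by
      rintro x ⟨hx, y, hy⟩
      have : y ≠ o := (hC3 hx n y hy.symm).2
      obtain ⟨i, hi⟩ := Function.ne_iff.1 this
      exact mem_iUnion.2 ⟨i, y, by simpa [o] using hi, hy⟩)
  obtain ⟨x, hx⟩ := not_pf (fun i => inc n ⁻¹' (f '' T i)) (by
    intro i
    refine ((ho _ (h1 i)).1 n).mem_nhds ?_
    obtain ⟨z, hz, hz'⟩ := hn n le_rfl (fun j => decide (j = i))
      (fun h => by simpa [o] using congrFun h i)
    obtain ⟨j, hj⟩ := mem_iUnion.1 (h2 ⟨interior_subset hz, _, hz'.symm⟩)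
    obtain ⟨y, hy, hy'⟩ := h4 j hj
    obtain ⟨-, rfl⟩ := inc_eq.1 (hy'.trans hz')
    have : j = i := by simpa using hy
    exact ⟨z, this ▸ hj, hz'⟩)
  refine hx ((h3.finite_nonempty_inter_compact (hc (inc n x))).subset ?_)
  rintro i ⟨z, hz, hz'⟩
  exact ⟨z, hz, hz'⟩

end Pool.Agent.H84.OpenCpt
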