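import Mathlib

set_option autoImplicit false

namespace Pool.Agent.H84.PMDefs

/-- `(M, d)` is a projective-metric space of straight type in affine `m`-space, moreover complete
in the sense that every trace of a line is isometric to the real line. -/
structure IsStraightPM {m : ℕ} (M : Set (EuclideanSpace ℝ (Fin m)))
    (d : EuclideanSpace ℝ (Fin m) → EuclideanSpace ℝ (Fin m) → ℝ) : Prop where
  nonempty : M.Nonempty
  isOpen : IsOpen M
  convex : Convex ℝ M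
  eq_zero : ∀ x ∈ M, ∀ y ∈ M, (d x y = 0 ↔ x = y)
  symm : ∀ x ∈ M, ∀ y ∈ M, d x y = d y x
  triangle : ∀ x ∈ M, ∀ y ∈ M, ∀ z ∈ M, d x z ≤ d x y + d y z
  topology : ∀ x ∈ M, ∀ V : Set (EuclideanSpace ℝ (Fin m)),
    (V ∈ nhdsWithin x M ↔ ∃ r : ℝ, 0 < r ∧ ∀ y ∈ M, d x y < r → y ∈ V)
  between : ∀ x ∈ M, ∀ y ∈ M, ∀ z ∈ M, x ≠ y → y ≠ z → x ≠ z →
    (d x y + d y z = d x z ↔ y ∈ openSegment ℝ x z)
  line : ∀ p ∈ M, ∀ v : EuclideanSpace ℝ (Fin m), v ≠ 0 →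
    ∃ f : ℝ → EuclideanSpace ℝ (Fin m), (∀ s t : ℝ, d (f s) (f t) = |s - t|) ∧
      Set.range f = {x | x ∈ M ∧ ∃ t : ℝ, x = p + t • v}

/-- the regular polygon property: vertices are indexed by `ZMod n`. -/
def RegularPolygonProperty {E : Type} (M : Set E) (d : E → E → ℝ) : Prop :=
  ∀ n : ℕ, 3 ≤ n → ∀ A ∈ M, ∀ B ∈ M, A ≠ B →
    ∃ P : ZMod n → E, Function.Injective P ∧ (∀ i, P i ∈ M) ∧
      (∀ i j h, d (P (i + h)) (P (j + h)) = d (P i) (P j)) ∧ P 0 = A ∧ P 1 = B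

/-- `(M, d)` embeds isometrically in some Euclidean space. -/
def EmbedsEuclidean {E : Type} (M : Set E) (d : E → E → ℝ) : Prop :=
  ∃ (k : ℕ) (φ : E → EuclideanSpace ℝ (Fin k)), ∀ x ∈ M, ∀ y ∈ M, dist (φ x) (φ y) = d x y

/-- `(M, d)` embeds isometrically in some hyperbolic space of curvature `-c < 0` (hyperboloid
model, a point of the upper sheet being given by its space part `u`, with time part
`sqrt (1 + |u|^2)`). -/
def EmbedsHyperbolic {E : Type} (M : Set E) (d : E → E → ℝ) : Prop :=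
  ∃ (k : ℕ) (c : ℝ) (φ : E → EuclideanSpace ℝ (Fin k)), 0 < c ∧ ∀ x ∈ M, ∀ y ∈ M,
    Real.cosh (Real.sqrt c * d x y) =
      Real.sqrt (1 + ‖φ x‖ ^ 2) * Real.sqrt (1 + ‖φ y‖ ^ 2) - inner ℝ (φ x) (φ y)

end Pool.Agent.H84.PMDefs
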