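import Mathlib
import Pool.Agent.H84.PMDefs

set_option autoImplicit false

namespace Pool.Agent.H84.PMPoly

open Set Pool.Agent.H84.PMDefs

abbrev E := EuclideanSpace ℝ (Fin 4)

/-- first complex coordinate -/
noncomputable def z1 : E →ₗ[ℝ] ℂ where
  toFun x := ⟨x 0, x 1⟩
  map_add' x y := by apply Complex.ext <;> simp
  map_smul' c x := by apply Complex.ext <;> simp

/-- second complex coordinate -/
noncomputable def z2 : E →ₗ[ℝ] ℂ where
  toFun x := ⟨x 2, x 3⟩
  map_add' x y := by apply Complex.ext <;> simp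
  map_smul' c x := by apply Complex.ext <;> simp

/-- inverse coordinates -/
noncomputable def mk (a b : ℂ) : E := !₂[a.re, a.im, b.re, b.im]

theorem z1_mk (a b : ℂ) : z1 (mk a b) = a := by apply Complex.ext <;> simp [z1, mk]
theorem z2_mk (a b : ℂ) : z2 (mk a b) = b := by apply Complex.ext <;> simp [z2, mk]

theorem ext' {x y : E} (h1 : z1 x = z1 y) (h2 : z2 x = z2 y) : x = y := by
  have a := congrArg Complex.re h1
  have b := congrArg Complex.im h1
  have c := congrArg Complex.re h2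
  have e := congrArg Complex.im h2
  simp only [z1, z2, LinearMap.coe_mk, AddHom.coe_mk] at a b c e
  ext i; fin_cases i <;> assumption

theorem norm_sq (x : E) : ‖x‖ ^ 2 = ‖z1 x‖ ^ 2 + ‖z2 x‖ ^ 2 := by
  rw [EuclideanSpace.norm_sq_eq, Complex.sq_norm, Complex.sq_norm, Complex.normSq_apply,
    Complex.normSq_apply]
  simp [Fin.sum_univ_four, z1, z2]; ring

theorem z1_le (x : E) : ‖z1 x‖ ≤ ‖x‖ :=
  (pow_le_pow_iff_left₀ (norm_nonneg _) (norm_nonneg _) two_ne_zero).1
    (by rw [norm_sq]; nlinarith [sq_nonneg ‖z2 x‖])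

/-- the norm -/
noncomputable def N (x : E) : ℝ := ‖x‖ + ‖z1 x‖

/-- the metric -/
noncomputable def d (x y : E) : ℝ := N (x - y)

theorem N_smul (t : ℝ) (x : E) : N (t • x) = |t| * N x := by
  simp only [N, map_smul, norm_smul, Real.norm_eq_abs]; ring

theorem N_add (x y : E) : N (x + y) ≤ N x + N y := by
  simp only [N, map_add]
  linarith [norm_add_le x y, norm_add_le (z1 x) (z1 y)]

theorem N_pos {x : E} (h : x ≠ 0) : 0 < N x :=
  add_pos_of_pos_of_nonneg (norm_pos_iff.2 h) (norm_nonneg _)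

theorem N_rot {u : ℂ} (hu : ‖u‖ = 1) {x y : E} (h1 : z1 y = u * z1 x) (h2 : z2 y = u * z2 x) :
    N y = N x := by
  have h3 : ‖z1 y‖ = ‖z1 x‖ := by rw [h1, norm_mul, hu, one_mul]
  have h4 : ‖z2 y‖ = ‖z2 x‖ := by rw [h2, norm_mul, hu, one_mul]
  have h5 : ‖y‖ = ‖x‖ :=
    (pow_left_inj₀ (norm_nonneg _) (norm_nonneg _) two_ne_zero).1
      (by rw [norm_sq, norm_sq, h3, h4])
  rw [N, N, h3, h5]

theorem isPM : IsStraightPM (univ : Set E) d where
  nonempty := univ_nonempty
  isOpen := isOpen_univ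
  convex := convex_univ
  eq_zero x _ y _ := ⟨fun h => by
      by_contra h1
      exact (N_pos (sub_ne_zero.2 h1)).ne' h, fun h => by simp [d, N, h]⟩
  symm x _ y _ := by
    rw [d, d, ← neg_sub, ← neg_one_smul ℝ, N_smul]; simp
  triangle x _ y _ z _ := by
    have := N_add (x - y) (y - z)
    rwa [sub_add_sub_cancel] at this
  topology x _ V := by
    rw [nhdsWithin_univ, Metric.mem_nhds_iff]
    constructor
    · rintro ⟨r, hr, h⟩
      refine ⟨r, hr, fun y _ hy => h ?_⟩
      rw [Metric.mem_ball, dist_comm, dist_eq_norm]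
      exact lt_of_le_of_lt (le_add_of_nonneg_right (norm_nonneg _)) hy
    · rintro ⟨r, hr, h⟩
      refine ⟨r / 2, half_pos hr, fun y hy => h y trivial ?_⟩
      rw [Metric.mem_ball, dist_comm, dist_eq_norm] at hy
      have := z1_le (x - y)
      simp only [d, N]; linarith
  between x _ y _ z _ hxy hyz _ := by
    constructor
    · intro h
      have h1 : dist x y + dist y z = dist x z := by
        simp only [d, N] at h
        have h2 := norm_add_le (x - y) (y - z)
        have h3 := norm_add_le (z1 (x - y)) (z1 (y - z))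
        rw [← map_add] at h3
        rw [sub_add_sub_cancel] at h2 h3
        simp only [dist_eq_norm]; linarith
      have h2 : y ∈ segment ℝ x z := mem_segment_iff_wbtw.2 (dist_add_dist_eq_iff.1 h1)
      exact mem_openSegment_of_ne_left_right hxy hyz.symm h2
    · rintro ⟨a, b, ha, hb, hab, rfl⟩
      have h1 : x - (a • x + b • z) = b • (x - z) := by
        rw [show a = 1 - b by linarith]; module
      have h2 : a • x + b • z - z = a • (x - z) := by
        rw [show b = 1 - a by linarith]; module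
      simp only [d]
      rw [h1, h2, N_smul, N_smul, abs_of_pos ha, abs_of_pos hb, ← add_mul, add_comm, hab, one_mul]
  line p _ v hv := by
    have h := N_pos hv
    refine ⟨fun s => p + (s / N v) • v, fun s t => ?_, ?_⟩
    · have : p + (s / N v) • v - (p + (t / N v) • v) = ((s - t) / N v) • v := by
        rw [sub_div]; module
      simp only [d]
      rw [this, N_smul, abs_div, abs_of_pos h, div_mul_cancel₀ _ h.ne']
    · ext x
      simp only [mem_range, mem_univ, true_and, mem_ofPred_eq]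
      exact ⟨fun ⟨s, hs⟩ => ⟨_, hs.symm⟩, fun ⟨t, ht⟩ =>
        ⟨t * N v, by rw [mul_div_cancel_right₀ _ h.ne', ht]⟩⟩

theorem poly : RegularPolygonProperty (univ : Set E) d := by
  intro n hn A _ B _ hAB
  have : NeZero n := ⟨by omega⟩
  have : Fact (1 < n) := ⟨by omega⟩
  let e : ZMod n → ℂ := fun j => ZMod.stdAddChar j
  have e0 : e 0 = 1 := by simp [e]
  have eadd : ∀ i j, e (i + j) = e i * e j := fun i j => AddChar.map_add_eq_mul _ i j
  have einj : Function.Injective e := ZMod.injective_stdAddChar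
  have enorm : ∀ i, ‖e i‖ = 1 := fun i => by simp [e, ZMod.stdAddChar_apply]
  have e1 : 1 - e 1 ≠ 0 := fun h => by
    have : e 0 = e 1 := by rw [e0]; linear_combination h
    exact zero_ne_one (einj this)
  let c1 : ℂ := (z1 B - e 1 * z1 A) / (1 - e 1)
  let c2 : ℂ := (z2 B - e 1 * z2 A) / (1 - e 1)
  have hc1 : c1 + e 1 * (z1 A - c1) = z1 B := by simp only [c1]; field_simp; ring
  have hc2 : c2 + e 1 * (z2 A - c2) = z2 B := by simp only [c2]; field_simp; ring
  refine ⟨fun j => mk (c1 + e j * (z1 A - c1)) (c2 + e j * (z2 A - c2)), fun i j h => ?_,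
    fun _ => trivial, fun i j h => ?_, ?_, ?_⟩
  · have h1 := congrArg z1 h
    have h2 := congrArg z2 h
    simp only [z1_mk, z2_mk, add_right_inj] at h1 h2
    by_contra hij
    have h3 : e i - e j ≠ 0 := fun h3 => hij (einj (sub_eq_zero.1 h3))
    have h4 : z1 A - c1 = 0 := (mul_eq_zero.1 (show (e i - e j) * (z1 A - c1) = 0 by
      linear_combination h1)).resolve_left h3
    have h5 : z2 A - c2 = 0 := (mul_eq_zero.1 (show (e i - e j) * (z2 A - c2) = 0 by
      linear_combination h2)).resolve_left h3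
    refine hAB (ext' ?_ ?_)
    · rw [← hc1, h4]; linear_combination h4
    · rw [← hc2, h5]; linear_combination h5
  · refine N_rot (enorm h) ?_ ?_
    · simp only [map_sub, z1_mk, eadd]; ring
    · simp only [map_sub, z2_mk, eadd]; ring
  · exact ext' (by simp [z1_mk, e0]) (by simp [z2_mk, e0])
  · exact ext' (by rw [z1_mk, hc1]) (by rw [z2_mk, hc2])

theorem N_mk {a b r : ℝ} (hr : 0 ≤ r) (h : r ^ 2 = a ^ 2 + b ^ 2) : N (mk a b) = r + |a| := by
  have h1 : ‖mk a b‖ = r := (pow_left_inj₀ (norm_nonneg _) hr two_ne_zero).1 (by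
    rw [norm_sq, z1_mk, z2_mk, h]; simp)
  rw [N, h1, z1_mk]; simp

theorem mk_sub (a b a' b' : ℝ) : mk a b - mk a' b' = mk ((a - a' : ℝ) : ℂ) ((b - b' : ℝ) : ℂ) :=
  ext' (by simp [z1_mk]) (by simp [z2_mk])

theorem config {t : ℝ} (ht : 0 < t) : ∃ x y z m : E, d x m = 6 * t ∧ d y m = 6 * t ∧
    d x y = 12 * t ∧ d z x = 8 * t ∧ d z y = 8 * t ∧ d z m = 4 * t := by
  refine ⟨mk ((3 * t : ℝ) : ℂ) ((0 : ℝ) : ℂ), mk ((-3 * t : ℝ) : ℂ) ((0 : ℝ) : ℂ),
    mk ((0 : ℝ) : ℂ) ((4 * t : ℝ) : ℂ), mk ((0 : ℝ) : ℂ) ((0 : ℝ) : ℂ), ?_, ?_, ?_, ?_, ?_, ?_⟩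
  all_goals simp only [d, mk_sub]
  · rw [N_mk (r := 3 * t) (by positivity) (by ring), abs_of_pos (by linarith)]; ring
  · rw [N_mk (r := 3 * t) (by positivity) (by ring), abs_of_neg (by linarith)]; ring
  · rw [N_mk (r := 6 * t) (by positivity) (by ring), abs_of_pos (by linarith)]; ring
  · rw [N_mk (r := 5 * t) (by positivity) (by ring), abs_of_neg (by linarith)]; ring
  · rw [N_mk (r := 5 * t) (by positivity) (by ring), abs_of_pos (by linarith)]; ring
  · rw [N_mk (r := 4 * t) (by positivity) (by ring)]; simp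

theorem d_self (x : E) : d x x = 0 := by simp [d, N]

theorem not_eucl : ¬ EmbedsEuclidean (univ : Set E) d := by
  rintro ⟨k, φ, h⟩
  obtain ⟨x, y, z, m, h1, h2, h3, h4, h5, h6⟩ := config one_pos
  rw [← h _ trivial _ trivial] at h1 h2 h3 h4 h5 h6
  have h7 : φ m = midpoint ℝ (φ x) (φ y) :=
    eq_midpoint_of_dist_eq_half (by rw [h1, h3]; norm_num) (by rw [dist_comm, h2, h3]; norm_num)
  have h8 := EuclideanGeometry.dist_sq_add_dist_sq_eq_two_mul_dist_midpoint_sq_add_half_dist_sq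
    (φ z) (φ x) (φ y)
  rw [← h7, h3, h4, h5, h6] at h8
  norm_num at h8

theorem hyp_mid {k : ℕ} {x y z m : EuclideanSpace ℝ (Fin k)} {x0 y0 z0 m0 c : ℝ}
    (hx : x0 ^ 2 = 1 + ‖x‖ ^ 2) (hy : y0 ^ 2 = 1 + ‖y‖ ^ 2) (hm : m0 ^ 2 = 1 + ‖m‖ ^ 2)
    (h1 : x0 * m0 - inner ℝ x m = c) (h2 : y0 * m0 - inner ℝ y m = c)
    (h3 : x0 * y0 - inner ℝ x y = 2 * c ^ 2 - 1) :
    (z0 * x0 - inner ℝ z x) + (z0 * y0 - inner ℝ z y) = 2 * c * (z0 * m0 - inner ℝ z m) := by
  set v := x + y - (2 * c) • m with hv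
  set v0 := x0 + y0 - 2 * c * m0 with hv0
  have h4 : inner ℝ v m = v0 * m0 := by
    rw [hv, inner_sub_left, inner_add_left, real_inner_smul_left, real_inner_self_eq_norm_sq, hv0]
    linear_combination -h1 - h2 + 2 * c * hm
  have h5 : ‖v‖ ^ 2 = v0 ^ 2 := by
    rw [hv, norm_sub_sq_real, norm_add_sq_real, real_inner_smul_right, inner_add_left, norm_smul,
      mul_pow, Real.norm_eq_abs, sq_abs, hv0]
    linear_combination -hx - hy - 4 * c ^ 2 * hm - 2 * h3 + 4 * c * h1 + 4 * c * h2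
  have h6 : (v0 * m0) ^ 2 ≤ ‖v‖ ^ 2 * ‖m‖ ^ 2 := by
    rw [← h4, ← mul_pow, ← sq_abs]
    exact pow_le_pow_left₀ (abs_nonneg _) (abs_real_inner_le_norm v m) 2
  have h7 : v0 = 0 := by
    rw [mul_pow, h5, hm] at h6
    exact pow_eq_zero_iff two_ne_zero |>.1 (le_antisymm (by linarith) (sq_nonneg _))
  have h8 : v = 0 := by
    rw [h7] at h5; simpa using h5
  have h9 : inner ℝ z v = 0 := by rw [h8, inner_zero_right]
  rw [hv, inner_sub_right, inner_add_right, real_inner_smul_right] at h9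
  linear_combination z0 * h7 - h9 - z0 * hv0

theorem not_hyp : ¬ EmbedsHyperbolic (univ : Set E) d := by
  rintro ⟨k, c, φ, hc, h⟩
  have hs := Real.sqrt_pos.2 hc
  have hl := Real.log_pos one_lt_two
  obtain ⟨x, y, z, m, h1, h2, h3, h4, h5, h6⟩ := config (div_pos hl hs)
  have hc' : ∀ j : ℕ, Real.cosh (Real.sqrt c * (j * (Real.log 2 / Real.sqrt c))) =
      (2 ^ j + (2 ^ j)⁻¹) / 2 := fun j => by
    rw [show Real.sqrt c * (j * (Real.log 2 / Real.sqrt c)) = Real.log (2 ^ j) by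
      rw [Real.log_pow]; field_simp, Real.cosh_log (by positivity)]
  have sq : ∀ u : E, Real.sqrt (1 + ‖φ u‖ ^ 2) ^ 2 = 1 + ‖φ u‖ ^ 2 := fun u =>
    Real.sq_sqrt (by positivity)
  have a6 := hc' 6
  have a12 := hc' 12
  have a8 := hc' 8
  have a4 := hc' 4
  simp only [Nat.cast_ofNat] at a6 a12 a8 a4
  have := hyp_mid (z := φ z) (z0 := Real.sqrt (1 + ‖φ z‖ ^ 2)) (c := (2 ^ 6 + (2 ^ 6)⁻¹) / 2)
    (sq x) (sq y) (sq m) (by rw [← h _ trivial _ trivial, h1, a6])
    (by rw [← h _ trivial _ trivial, h2, a6]) (by rw [← h _ trivial _ trivial, h3, a12]; norm_num)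
  rw [← h _ trivial _ trivial, ← h _ trivial _ trivial, ← h _ trivial _ trivial, h4, h5, h6, a8,
    a4] at this
  norm_num at this

end Pool.Agent.H84.PMPoly
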