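import Mathlib

set_option autoImplicit false

namespace Pool.Agent.H84.PPDefs

/-- distance to the third coordinate axis -/
noncomputable def dG (x : EuclideanSpace ℝ (Fin 3)) : ℝ := Real.sqrt (x 0 ^ 2 + x 1 ^ 2)

/-- the point pair function -/
noncomputable def pG (x y : EuclideanSpace ℝ (Fin 3)) : ℝ :=
  ‖x - y‖ / Real.sqrt (‖x - y‖ ^ 2 + 4 * dG x * dG y)

/-- the complement of the third coordinate axis -/
def G : Set (EuclideanSpace ℝ (Fin 3)) := {x | ¬ (x 0 = 0 ∧ x 1 = 0)}

end Pool.Agent.H84.PPDefs
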