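import Mathlib
import Pool.Agent.H84.PPDefs

set_option autoImplicit false

namespace Pool.Agent.H84.PPEx

open PPDefs

theorem dG_pos {x : EuclideanSpace ℝ (Fin 3)} (hx : x ∈ G) : 0 < dG x := by
  refine Real.sqrt_pos.2 ?_
  by_contra h
  exact hx ⟨by nlinarith [sq_nonneg (x 0), sq_nonneg (x 1)],
    by nlinarith [sq_nonneg (x 0), sq_nonneg (x 1)]⟩

theorem dG_sq (x : EuclideanSpace ℝ (Fin 3)) : dG x ^ 2 = x 0 ^ 2 + x 1 ^ 2 :=
  Real.sq_sqrt (by positivity)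

noncomputable def r (z : EuclideanSpace ℝ (Fin 3)) : EuclideanSpace ℝ (Fin 3) :=
  !₂[-z 0, -z 1, z 2]

theorem nsq (x y : EuclideanSpace ℝ (Fin 3)) :
    ‖x - y‖ ^ 2 = (x 0 - y 0) ^ 2 + (x 1 - y 1) ^ 2 + (x 2 - y 2) ^ 2 := by
  rw [EuclideanSpace.real_norm_sq_eq]; simp [Fin.sum_univ_three]

theorem r1 (z : EuclideanSpace ℝ (Fin 3)) : ‖z - r z‖ = 2 * dG z := by
  have h0 : 0 ≤ dG z := Real.sqrt_nonneg _
  rw [← sq_eq_sq₀ (norm_nonneg _) (by positivity), nsq, mul_pow, dG_sq]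
  simp [r]; ring

theorem r2 (y z : EuclideanSpace ℝ (Fin 3)) :
    ‖y - r z‖ ≤ Real.sqrt (‖y - z‖ ^ 2 + 4 * dG y * dG z) := by
  refine Real.le_sqrt_of_sq_le ?_
  have h : y 0 * z 0 + y 1 * z 1 ≤ dG y * dG z := by
    refine le_trans (le_abs_self _) (abs_le_of_sq_le_sq ?_
      (mul_nonneg (Real.sqrt_nonneg _) (Real.sqrt_nonneg _)))
    rw [mul_pow, dG_sq, dG_sq]
    nlinarith [sq_nonneg (y 0 * z 1 - y 1 * z 0)]
  rw [nsq, nsq]
  simp [r]; nlinarith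

theorem alg {u v w U V W a b c : ℝ} (hu : 0 ≤ u) (hv : 0 ≤ v) (hw : 0 ≤ w) (ha : 0 < a)
    (hb : 0 < b) (hc : 0 < c) (hU0 : 0 < U) (hV0 : 0 < V) (hW0 : 0 < W)
    (hU : U ^ 2 = u ^ 2 + 4 * a * c) (hV : V ^ 2 = v ^ 2 + 4 * c * b)
    (hW : W ^ 2 = w ^ 2 + 4 * a * b) (h : w * (2 * c) ≤ u * V + v * U) :
    w / W ≤ u / U + v / V := by
  rw [div_add_div _ _ hU0.ne' hV0.ne', div_le_div_iff₀ hW0 (by positivity)]
  have h1 : (w * (2 * c)) ^ 2 ≤ (u * V + v * U) ^ 2 := by gcongr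
  have h2 : (U * V + u * v) ^ 2 = (u * V + v * U) ^ 2 + 16 * a * b * c ^ 2 := by
    have : (U * V + u * v) ^ 2 = (u * V + v * U) ^ 2 + (U ^ 2 - u ^ 2) * (V ^ 2 - v ^ 2) := by ring
    rw [this, hU, hV]; ring
  have h3 : w * (U * V + u * v) ≤ (u * V + v * U) * W := by
    refine le_trans (le_abs_self _) (abs_le_of_sq_le_sq ?_ (by positivity))
    rw [mul_pow, mul_pow, h2, hW]
    have := mul_le_mul_of_nonneg_left h1 (by positivity : 0 ≤ 4 * a * b)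
    nlinarith
  have : 0 ≤ w * (u * v) := by positivity
  nlinarith

theorem main {x y z : EuclideanSpace ℝ (Fin 3)} (hx : x ∈ G) (hy : y ∈ G) (hz : z ∈ G) :
    pG x y ≤ pG x z + pG z y := by
  have a := dG_pos hx
  have b := dG_pos hy
  have c := dG_pos hz
  refine alg (norm_nonneg _) (norm_nonneg _) (norm_nonneg _) a b c (by positivity) (by positivity)
    (by positivity) (Real.sq_sqrt (by positivity)) (Real.sq_sqrt (by positivity))
    (Real.sq_sqrt (by positivity)) ?_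
  have := EuclideanGeometry.mul_dist_le_mul_dist_add_mul_dist x z y (r z)
  simp only [dist_eq_norm] at this
  rw [r1] at this
  have h1 := r2 y z
  have h2 := r2 x z
  rw [norm_sub_rev y z, mul_right_comm] at h1
  refine this.trans ?_
  gcongr

end Pool.Agent.H84.PPEx
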