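import Mathlib

/-! A co-analytic relation with a clique of size `ℵ₁` and no larger one. -/

namespace Pool.Agent.H84.Pack

open Set Cardinal Ordinal

abbrev Z := ℕ → Bool

def r (x : Z) (m n : ℕ) : Prop := x (Nat.pair m n) = true

def Ill (x u : Z) : Prop := (∃ n, u n = true) ∧ ∀ n, u n = true → ∃ m, u m = true ∧ r x m n

def Sim (x y u : Z) : Prop := u (Nat.pair 0 0) = true ∧
  ∀ m n m', u (Nat.pair m n) = true → r x m' m → ∃ n', r y n' n ∧ u (Nat.pair m' n') = true

def N0 (x y u v : Z) : Prop := Ill x u ∨ Ill y u ∨ (Sim x y u ∧ Sim y x v)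

def N (x y : Z) : Prop := ∃ u v, N0 x y u v

theorem N.symm {x y : Z} : N x y → N y x
  | ⟨u, v, Or.inl h⟩ => ⟨u, v, Or.inr (Or.inl h)⟩
  | ⟨u, v, Or.inr (Or.inl h)⟩ => ⟨u, v, Or.inl h⟩
  | ⟨u, v, Or.inr (Or.inr h)⟩ => ⟨v, u, Or.inr (Or.inr h.symm)⟩

theorem N.refl (x : Z) : N x x := by
  have : Sim x x fun k => decide (k.unpair.1 = k.unpair.2) := by
    refine ⟨by simp, fun m n m' h h' => ⟨m', ?_, by simp⟩⟩
    simp only [Nat.unpair_pair, decide_eq_true_eq] at h
    exact h ▸ h'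
  exact ⟨_, _, Or.inr (Or.inr ⟨this, this⟩)⟩

theorem wf_of {x : Z} (h : ∀ u, ¬ Ill x u) : WellFounded (r x) := by
  classical
  refine WellFounded.wellFounded_iff_has_min.2 fun s hs => by_contra fun hn => ?_
  push Not at hn
  refine h (fun n => decide (n ∈ s)) ⟨hs.imp fun n hn => by simpa using hn, fun n hn' => ?_⟩
  simpa using hn n (by simpa using hn')

theorem rank_lt (x : Z) [IsWellFounded ℕ (r x)] (n : ℕ) : IsWellFounded.rank (r x) n < ω₁ := by
  induction n using IsWellFounded.induction (r x) with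
  | ind n ih =>
    rw [IsWellFounded.rank_eq]
    refine Ordinal.iSup_lt_omega_one fun b => ?_
    exact (isSuccLimit_omega 1).succ_lt (ih b.1 b.2)

theorem sim_of (x y : Z) [IsWellFounded ℕ (r x)] [IsWellFounded ℕ (r y)]
    (h : IsWellFounded.rank (r x) 0 ≤ IsWellFounded.rank (r y) 0) : ∃ u, Sim x y u := by
  classical
  refine ⟨fun k => decide (IsWellFounded.rank (r x) k.unpair.1 ≤
    IsWellFounded.rank (r y) k.unpair.2), by simpa using h, fun m n m' h1 h2 => ?_⟩
  simp only [Nat.unpair_pair, decide_eq_true_eq] at h1 ⊢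
  have := (IsWellFounded.rank_lt_of_rel h2).trans_le h1
  rw [IsWellFounded.rank_eq (r y) n] at this
  obtain ⟨b, hb⟩ := Ordinal.lt_iSup_iff.1 this
  exact ⟨b.1, b.2, Order.lt_succ_iff.1 hb⟩

theorem exists_rho : ∃ ρ : Z → (ω₁ : Ordinal.{0}).ToType, ∀ x y, ρ x = ρ y → N x y := by
  classical
  refine ⟨fun x => ToType.mk (if h : WellFounded (r x) then
    ⟨@IsWellFounded.rank _ (r x) ⟨h⟩ 0, @rank_lt x ⟨h⟩ 0⟩ else ⟨0, omega_pos 1⟩),
    fun x y h => by_contra fun hn => ?_⟩
  have hx : WellFounded (r x) := wf_of fun u hu => hn ⟨u, u, Or.inl hu⟩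
  have hy : WellFounded (r y) := wf_of fun u hu => hn ⟨u, u, Or.inr (Or.inl hu)⟩
  have h' := ToType.mk.injective h
  rw [dif_pos hx, dif_pos hy, Subtype.mk.injEq] at h'
  obtain ⟨u, hu⟩ := @sim_of x y ⟨hx⟩ ⟨hy⟩ h'.le
  obtain ⟨v, hv⟩ := @sim_of y x ⟨hy⟩ ⟨hx⟩ h'.ge
  exact hn ⟨u, v, Or.inr (Or.inr ⟨hu, hv⟩)⟩

theorem exists_clique : ∃ w : (ω₁ : Ordinal.{0}).ToType → Z, ∀ a b, N (w a) (w b) → a = b := by
  classical
  have hg : ∀ a : (ω₁ : Ordinal.{0}).ToType, ∃ g : ℕ → (ω₁ : Ordinal.{0}).ToType,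
      g 0 = a ∧ (∀ n, g n ≤ a) ∧ ∀ b ≤ a, ∃ n, g n = b := by
    intro a
    have hc : (Iic a).Countable := by
      rw [← Iio_insert]
      refine Countable.insert _ ?_
      rw [← Cardinal.le_aleph0_iff_set_countable, ← Order.lt_succ_iff, succ_aleph0]
      have := Cardinal.mk_Iio_lt a (by simp)
      simpa using this
    obtain ⟨g, hg⟩ := hc.exists_eq_range nonempty_Iic
    refine ⟨fun n => n.casesOn a g, rfl, fun n => ?_, fun b hb => ?_⟩
    · cases n
      · exact le_rfl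
      · exact (hg ▸ mem_range_self _ : g _ ∈ Iic a)
    · obtain ⟨n, hn⟩ : b ∈ range g := hg ▸ hb
      exact ⟨n + 1, hn⟩
  choose g h0 h1 h2 using hg
  let w : (ω₁ : Ordinal.{0}).ToType → Z := fun a k => decide (g a k.unpair.1 < g a k.unpair.2)
  have hr : ∀ a m n, r (w a) m n ↔ g a m < g a n := by simp [r, w]
  have hI : ∀ a u, ¬ Ill (w a) u := by
    rintro a u ⟨hn, h⟩
    obtain ⟨n, hn, hm⟩ := (InvImage.wf (g a) wellFounded_lt).has_min {n | u n = true} hn
    obtain ⟨m, hm1, hm2⟩ := h n hn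
    exact hm m hm1 ((hr _ _ _).1 hm2)
  have hS : ∀ a b u, Sim (w a) (w b) u → a ≤ b := by
    rintro a b u ⟨h3, h4⟩
    have : ∀ n m, u (Nat.pair m n) = true → g a m ≤ g b n := by
      intro n
      induction n using (InvImage.wf (g b) wellFounded_lt).induction with
      | _ n ih =>
        intro m hm
        by_contra hlt
        rw [not_le] at hlt
        obtain ⟨m', hm'⟩ := h2 a (g b n) (hlt.le.trans (h1 a m))
        obtain ⟨n', h5, h6⟩ := h4 m n m' hm ((hr _ _ _).2 (hm' ▸ hlt))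
        rw [hr] at h5
        exact absurd ((ih n' h5 m' h6).trans_lt h5) (by rw [hm']; exact lt_irrefl _)
    simpa [h0] using this 0 0 h3
  refine ⟨w, ?_⟩
  rintro a b ⟨u, v, h | h | h⟩
  exacts [absurd h (hI _ _), absurd h (hI _ _), (hS _ _ _ h.1).antisymm (hS _ _ _ h.2)]

abbrev Ω := Fin 4 × ℕ → Bool

def co (p : Ω) (i : Fin 4) : Z := fun k => p (i, k)

theorem meas_N0 : MeasurableSet {p : Ω | N0 (co p 0) (co p 1) (co p 2) (co p 3)} := by
  have h : ∀ i, Measurable fun p : Ω => p i = true := fun i =>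
    Measurable.eq_const (f := fun p : Ω => p i) (measurable_pi_apply i) true
  rw [measurableSet_setOf]
  simp only [N0, Ill, Sim, r, co]
  refine Measurable.or ?_ (Measurable.or ?_ (Measurable.and ?_ ?_))
  · exact (Measurable.exists fun _ => h _).and (Measurable.forall fun _ => (h _).imp
      (Measurable.exists fun _ => (h _).and (h _)))
  · exact (Measurable.exists fun _ => h _).and (Measurable.forall fun _ => (h _).imp
      (Measurable.exists fun _ => (h _).and (h _)))
  all_goals exact (h _).and (Measurable.forall fun _ => Measurable.forall fun _ =>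
      Measurable.forall fun _ => (h _).imp ((h _).imp (Measurable.exists fun _ =>
        (h _).and (h _))))

/-- An almost disjoint coding. -/
theorem exists_ad : ∃ A : Z → Z, Continuous A ∧
    ∀ (x : Z) (F : Set Z), F.Finite → ∃ j, ∀ y ∈ F, (A y j = true ↔ y = x) := by
  classical
  obtain ⟨c, hc⟩ := exists_surjective_nat (Σ n, Fin n → Bool)
  refine ⟨fun x j => decide ((fun i : Fin (c j).1 => x i) = (c j).2), continuous_pi fun j =>
    (continuous_of_discreteTopology (f := fun s : Fin (c j).1 → Bool => decide (s = (c j).2))).comp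
      (continuous_pi fun i => continuous_apply _), fun x F hF => ?_⟩
  have h1 : ∀ y : Z, ∃ i, y ≠ x → y i ≠ x i := fun y => by
    by_cases h : y = x
    · exact ⟨0, fun h' => absurd h h'⟩
    · exact (Function.ne_iff.1 h).imp fun i hi _ => hi
  choose g hg using h1
  obtain ⟨n, hn⟩ := (hF.image g).bddAbove
  obtain ⟨j, hj⟩ := hc ⟨n + 1, fun i => x i⟩
  refine ⟨j, fun y hy => ?_⟩
  simp only [decide_eq_true_eq]
  rw [hj]
  refine ⟨fun h => by_contra fun hne => hg y hne
    (congrFun h ⟨g y, Nat.lt_succ_of_le (hn ⟨y, hy, rfl⟩)⟩), fun h => h ▸ rfl⟩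

end Pool.Agent.H84.Pack
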