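import Pool.Agent.H84.PackA

/-! A Borel set of reals with exactly `ℵ₁` many pairwise disjoint translates. -/

namespace Pool.Agent.H84.Pack

open Set Cardinal Ordinal Real

theorem uniq (d : ℕ → ℤ) (hd : ∀ j, |d j| ≤ 25)
    (h : HasSum (fun j => (d j : ℝ) * ((27 : ℝ) ^ (j + 1))⁻¹) 0) (j : ℕ) : d j = 0 := by
  induction j using Nat.strong_induction_on with
  | _ j ih =>
    have h1 := (hasSum_nat_add_iff' (j + 1)).2 h
    rw [Finset.sum_range_succ, Finset.sum_eq_zero fun i hi => by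
      rw [ih i (Finset.mem_range.1 hi)]; simp] at h1
    have h2 : HasSum (fun i : ℕ => (25 : ℝ) * ((27 : ℝ) ^ (j + 1))⁻¹ * (1 / 27) * (1 / 27) ^ i)
        ((25 : ℝ) * ((27 : ℝ) ^ (j + 1))⁻¹ * (1 / 27) * (1 - 1 / 27)⁻¹) :=
      (hasSum_geometric_of_lt_one (by norm_num) (by norm_num)).mul_left _
    have h3 := h1.norm_le_of_bounded h2 fun i => by
      have : |(d (i + (j + 1)) : ℝ)| ≤ 25 := by exact_mod_cast hd _
      rw [norm_mul, Real.norm_eq_abs, Real.norm_eq_abs, abs_of_pos (a := (_ : ℝ)⁻¹) (by positivity)]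
      refine (mul_le_mul_of_nonneg_right this (by positivity)).trans (le_of_eq ?_)
      rw [one_div, inv_pow]
      field_simp
      ring
    have hp : (0 : ℝ) < ((27 : ℝ) ^ (j + 1))⁻¹ := by positivity
    rw [zero_add, _root_.zero_sub, norm_neg, norm_mul, Real.norm_eq_abs, Real.norm_eq_abs,
      abs_of_pos hp] at h3
    have h4 : |(d j : ℝ)| < 1 := by
      refine lt_of_mul_lt_mul_right (h3.trans_lt ?_) hp.le
      nlinarith
    exact Int.abs_lt_one_iff.1 (by exact_mod_cast h4)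

abbrev D := ℕ → Fin 27

noncomputable abbrev O (u : D) : ℝ := Real.ofDigits u

theorem hsO (u : D) : HasSum (fun j => ((u j : ℕ) : ℝ) * ((27 : ℝ) ^ (j + 1))⁻¹) (O u) := by
  have h : HasSum (ofDigitsTerm u) (O u) := (summable_ofDigitsTerm (digits := u)).hasSum
  convert h using 2
  simp [ofDigitsTerm]

theorem O_zero : O 0 = 0 := (hsO 0).unique (by simp)

theorem O_add {u v w : D} (h : ∀ j, (u j : ℕ) + v j = w j) : O u + O v = O w := by
  refine ((hsO u).add (hsO v)).unique ?_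
  convert hsO w using 2 with j
  rw [← h]; push_cast; ring

theorem comb {u1 u2 u3 u4 v1 v2 v3 v4 : D}
    (h : O u1 + O u2 + O u3 + O u4 = O v1 + O v2 + O v3 + O v4)
    (hb : ∀ j, (u1 j : ℕ) + u2 j + u3 j + u4 j ≤ v1 j + v2 j + v3 j + v4 j + 25 ∧
      (v1 j : ℕ) + v2 j + v3 j + v4 j ≤ u1 j + u2 j + u3 j + u4 j + 25) (j : ℕ) :
    (u1 j : ℕ) + u2 j + u3 j + u4 j = v1 j + v2 j + v3 j + v4 j := by
  have h1 := ((((hsO u1).add (hsO u2)).add (hsO u3)).add (hsO u4)).sub
    ((((hsO v1).add (hsO v2)).add (hsO v3)).add (hsO v4))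
  rw [h, _root_.sub_self] at h1
  have := uniq (fun j => ((u1 j : ℕ) + (u2 j : ℕ) + (u3 j : ℕ) + (u4 j : ℕ) : ℤ) -
    ((v1 j : ℕ) + (v2 j : ℕ) + (v3 j : ℕ) + (v4 j : ℕ))) (fun j => by
      have := hb j; rw [abs_le]; omega) (h1.congr_fun fun j => by push_cast; ring) j
  omega

/-- A sequence of bits as digits `0`, `c`. -/
def bt (c : Fin 27) (a : Z) : D := fun j => if a j = true then c else 0

theorem bt_val (c : Fin 27) (a : Z) (j : ℕ) : (bt c a j : ℕ) = 0 ∨ (bt c a j : ℕ) = c := by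
  unfold bt; split_ifs <;> simp

theorem bt_inj {c : Fin 27} (hc : (c : ℕ) ≠ 0) {a b : Z} (h : ∀ j, (bt c a j : ℕ) = bt c b j) :
    a = b := funext fun j => by
  have := h j
  unfold bt at this
  cases ha : a j <;> cases hb : b j <;> simp only [ha, hb] at this <;> simp at this ⊢ <;> omega

theorem cont_bt (c : Fin 27) : Continuous (bt c) := continuous_pi fun j =>
  (continuous_of_discreteTopology (f := fun b : Bool => if b = true then c else 0)).comp
    (continuous_apply j)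

section
variable {A : Z → Z} (hA : ∀ (x : Z) (F : Set Z), F.Finite → ∃ j, ∀ y ∈ F, (A y j = true ↔ y = x))

noncomputable def φ (A : Z → Z) (x : Z) : ℝ := O (bt 4 (A x))

def T (A : Z → Z) : Set ℝ := {s | ∃ x y, ¬ N x y ∧ s = φ A x - φ A y}

theorem T_neg {s : ℝ} (h : s ∈ T A) : -s ∈ T A :=
  let ⟨x, y, h1, h2⟩ := h; ⟨y, x, fun h => h1 h.symm, by rw [h2, neg_sub]⟩

theorem T_abs {s : ℝ} (h : s ∈ T A) : |s| ≤ 1 := by
  obtain ⟨x, y, -, rfl⟩ := h
  rw [abs_le]
  constructor <;> linarith [ofDigits_nonneg (bt 4 (A x)), ofDigits_le_one (bt 4 (A x)),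
    ofDigits_nonneg (bt 4 (A y)), ofDigits_le_one (bt 4 (A y)), show φ A x = O _ from rfl,
    show φ A y = O _ from rfl]

include hA in
theorem six {a b c d e f : Z} (h : φ A a - φ A b - (φ A c - φ A d) = φ A e - φ A f)
    (h1 : a ≠ b) (h3 : e ≠ f) (h2 : c ≠ d ∨ (c = a ∧ d = a)) :
    (a = c ∧ d = e ∧ b = f ∧ c ≠ d) ∨ (b = d ∧ a = e ∧ c = f) ∨ (c = d ∧ a = e ∧ b = f) := by
  classical
  have key : ∀ w, (if a = w then 1 else 0) + (if d = w then 1 else 0) + (if f = w then 1 else 0) =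
      (if b = w then 1 else 0) + (if c = w then 1 else 0) + (if e = w then 1 else 0) := by
    intro w
    obtain ⟨j, hj⟩ := hA w {a, b, c, d, e, f} (toFinite _)
    have := comb (u1 := bt 4 (A a)) (u2 := bt 4 (A d)) (u3 := bt 4 (A f)) (u4 := 0)
      (v1 := bt 4 (A b)) (v2 := bt 4 (A c)) (v3 := bt 4 (A e)) (v4 := 0)
      (by simp only [φ] at h; linarith) (fun j => by
        have := bt_val 4 (A a) j; have := bt_val 4 (A b) j; have := bt_val 4 (A c) j
        have := bt_val 4 (A d) j; have := bt_val 4 (A e) j; have := bt_val 4 (A f) j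
        simp only [Pi.zero_apply, Fin.coe_ofNat_eq_mod] at *
        omega) j
    simp only [bt, hj a (by simp), hj b (by simp), hj c (by simp), hj d (by simp), hj e (by simp),
      hj f (by simp), Pi.zero_apply] at this
    split_ifs at this ⊢ <;> simp_all
  have := key a; have := key b; have := key c; have := key d; have := key e; have := key f
  grind

include hA in
theorem two {a b e f : Z} (h : φ A a - φ A b = φ A e - φ A f) (h3 : e ≠ f) : a = e ∧ b = f := by
  have hab : a ≠ b := by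
    rintro rfl
    have := six hA (a := e) (b := f) (c := e) (d := e) (e := f) (f := e) (by linarith) h3 h3.symm
      (Or.inr ⟨rfl, rfl⟩)
    grind
  have := six hA (a := a) (b := b) (c := a) (d := a) (e := e) (f := f) (by linarith) hab h3
    (Or.inr ⟨rfl, rfl⟩)
  grind

include hA in
theorem clique {X : Set ℝ} (hX : X.Pairwise fun x y => x - y ∈ T A) : #X ≤ ℵ₁ := by
  rcases X.eq_empty_or_nonempty with rfl | ⟨x0, h0⟩
  · simp
  obtain ⟨ρ, hρ⟩ := exists_rho
  have hne : ∀ {a b : Z}, ¬ N a b → a ≠ b := fun h h' => h (h' ▸ N.refl _)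
  choose a b hab he using fun x : (X \ {x0} : Set ℝ) => hX x.2.1 h0 x.2.2
  have h1 : #(X \ {x0} : Set ℝ) ≤ #((ω₁ : Ordinal.{0}).ToType × (ω₁ : Ordinal.{0}).ToType) := by
    refine mk_le_of_injective (f := fun x => (ρ (a x), ρ (b x))) fun x y hxy => by_contra fun hn => ?_
    obtain ⟨e, f, hef, h⟩ := hX x.2.1 y.2.1 fun h => hn (Subtype.ext h)
    rw [Prod.mk.injEq] at hxy
    rcases six hA (a := a x) (b := b x) (c := a y) (d := b y) (e := e) (f := f)
      (by linarith [he x, he y]) (hne (hab x)) (hne hef) (Or.inl (hne (hab y))) with h | h | h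
    · exact hef (h.2.1 ▸ h.2.2.1 ▸ hρ _ _ hxy.2.symm)
    · exact hef (h.2.1 ▸ h.2.2 ▸ hρ _ _ hxy.1)
    · exact hne (hab y) h.1
  rw [← insert_diff_self_of_mem h0]
  refine mk_insert_le.trans ?_
  simp only [mk_prod, mk_toType, card_omega, Cardinal.lift_id] at h1
  rw [mul_eq_self (aleph0_le_aleph 1)] at h1
  exact (add_le_add h1 (one_le_aleph0.trans (aleph0_le_aleph 1))).trans
    (add_eq_self (aleph0_le_aleph 1)).le

end

end Pool.Agent.H84.Pack
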