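import Pool.Agent.H84.PackB

/-! The Borel set whose difference set is, near `0`, the complement of `T`. -/

namespace Pool.Agent.H84.Pack

open Set Cardinal Real

variable {A : Z → Z} (hc : Continuous A)
  (hA : ∀ (x : Z) (F : Set Z), F.Finite → ∃ j, ∀ y ∈ F, (A y j = true ↔ y = x))

include hA in
theorem A_inj {x y : Z} (h : A x = A y) : x = y := by
  obtain ⟨j, hj⟩ := hA y {x, y} (toFinite _)
  exact (hj x (by simp)).1 (h ▸ (hj y (by simp)).2 rfl)

include hc in
theorem cont_φ : Continuous (φ A) := continuous_ofDigits.comp ((cont_bt 4).comp hc)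

theorem φ_mem (x : Z) : φ A x ∈ Icc (0 : ℝ) 1 := ⟨ofDigits_nonneg _, ofDigits_le_one _⟩

/-- A good piece. -/
def Good (A : Z → Z) (P : Set ℝ) : Prop :=
  MeasurableSet P ∧ P ⊆ Icc (-1) 2 ∧ ∀ b ∈ P, ∀ b' ∈ P, b - b' ∉ T A

include hc hA in
theorem piece1 : ∃ P, Good A P ∧ ∀ x y, N x y → ∃ b ∈ P, ∃ b' ∈ P, φ A x - φ A y = b - b' := by
  obtain ⟨c, hcs⟩ := exists_surjective_nat (Fin 4 × ℕ)
  let ψ : Fin 4 → Ω → ℝ := fun i p => O (bt 1 fun j => p (c j)) + φ A (co p i) - φ A (co p 1)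
  have key : ∀ i i' p p' a b, ψ i p - ψ i' p' = φ A a - φ A b → p = p' := by
    intro i i' p p' a b h
    have := comb (u1 := bt 1 fun j => p (c j)) (u2 := bt 4 (A (co p i))) (u3 := bt 4 (A (co p' 1)))
      (u4 := bt 4 (A b)) (v1 := bt 1 fun j => p' (c j)) (v2 := bt 4 (A (co p' i')))
      (v3 := bt 4 (A (co p 1))) (v4 := bt 4 (A a)) (by simp only [ψ, φ] at h; linarith)
    have hv := fun (z : Z) j => bt_val 4 (A z) j
    have hw := fun (z : Z) j => bt_val 1 z j
    simp only [Fin.coe_ofNat_eq_mod, Nat.reduceMod] at hv hw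
    have h1 := this fun j => by
      have := hw (fun j => p (c j)) j; have := hw (fun j => p' (c j)) j
      have := hv (co p i) j; have := hv (co p' 1) j; have := hv b j
      have := hv (co p' i') j; have := hv (co p 1) j; have := hv a j
      omega
    have h2 := bt_inj (c := 1) (by simp) (a := fun j => p (c j)) (b := fun j => p' (c j)) fun j => by
      have := h1 j
      have := hw (fun j => p (c j)) j; have := hw (fun j => p' (c j)) j
      have := hv (co p i) j; have := hv (co p' 1) j; have := hv b j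
      have := hv (co p' i') j; have := hv (co p 1) j; have := hv a j
      omega
    funext k
    obtain ⟨j, rfl⟩ := hcs k
    exact congrFun h2 j
  have hψ : ∀ i, Continuous (ψ i) := fun i => by
    have h1 : ∀ i, Continuous fun p : Ω => φ A (co p i) := fun i =>
      (cont_φ hc).comp (continuous_pi fun k => continuous_apply _)
    exact ((continuous_ofDigits.comp ((cont_bt 1).comp
      (continuous_pi fun k => continuous_apply _))).add (h1 i)).sub (h1 1)
  let F := {p : Ω | N0 (co p 0) (co p 1) (co p 2) (co p 3)}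
  have hm : ∀ i, MeasurableSet (ψ i '' F) := fun i => meas_N0.image_of_measurable_injOn
    (hψ i).measurable fun p _ p' _ h => key i i p p' 0 0 (by rw [h, sub_self, sub_self])
  have hb : ∀ i, ψ i '' F ⊆ Icc (-1) 2 := by
    rintro i _ ⟨p, -, rfl⟩
    have := φ_mem (A := A) (co p i); have := φ_mem (A := A) (co p 1)
    have := ofDigits_nonneg (bt 1 fun j => p (c j))
    have := ofDigits_le_one (bt 1 fun j => p (c j))
    simp only [ψ, mem_Icc] at *
    constructor <;> linarith
  refine ⟨ψ 0 '' F ∪ ψ 1 '' F, ⟨(hm 0).union (hm 1), union_subset (hb 0) (hb 1), ?_⟩,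
    fun x y ⟨u, v, h⟩ => ?_⟩
  · have h0 : ∀ i i' : Fin 4, ∀ p ∈ F, ∀ p' ∈ F, (i = 0 ∨ i = 1) → (i' = 0 ∨ i' = 1) →
        ψ i p - ψ i' p' ∉ T A := by
      rintro i i' p hp p' - hi hi' ⟨a, b, hab, h⟩
      obtain rfl := key _ _ _ _ _ _ h
      obtain ⟨rfl, rfl⟩ := two hA (a := co p i) (b := co p i') (e := a) (f := b)
        (by simp only [ψ] at h; linarith) fun h' => hab (h' ▸ N.refl _)
      have hN : N (co p 0) (co p 1) := ⟨_, _, hp⟩
      rcases hi with rfl | rfl <;> rcases hi' with rfl | rfl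
      exacts [hab (N.refl _), hab hN, hab hN.symm, hab (N.refl _)]
    rintro _ (⟨p, hp, rfl⟩ | ⟨p, hp, rfl⟩) _ (⟨p', hp', rfl⟩ | ⟨p', hp', rfl⟩) <;>
      exact h0 _ _ p hp p' hp' (by simp) (by simp)
  · let p : Ω := fun k => ![x, y, u, v] k.1 k.2
    exact ⟨_, Or.inl ⟨p, h, rfl⟩, _, Or.inr ⟨p, h, rfl⟩, by
      simp only [ψ]; rw [show co p 0 = x from rfl, show co p 1 = y from rfl]; ring⟩

def DE (n : Σ m, Fin m → Fin 27) : Set D :=
  {u | (∀ j : Fin n.1, u j = n.2 j) ∧ ∀ j, n.1 ≤ j → (u j : ℕ) / 3 % 3 = 0}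

def DO (m : ℕ) : Set D :=
  {u | ∀ j, (j < m → (u j : ℕ) = 0) ∧ ((u j : ℕ) = 0 ∨ (u j : ℕ) = 3 ∨ (u j : ℕ) = 6)}

theorem closed_co (j : ℕ) (q : Fin 27 → Prop) : IsClosed {u : D | q (u j)} :=
  (isClosed_discrete {k | q k}).preimage (continuous_apply j)

include hA in
theorem indep {u v : D} (h : ∀ j, (u j : ℕ) ≤ v j + 20 ∧ (v j : ℕ) ≤ u j + 20 ∧
    (u j : ℕ) ≠ v j + 4 ∧ (v j : ℕ) ≠ u j + 4) : O u - O v ∉ T A := by
  rintro ⟨a, b, hab, he⟩
  have hv := fun (z : Z) j => bt_val 4 (A z) j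
  simp only [Fin.coe_ofNat_eq_mod, Nat.reduceMod] at hv
  have := comb (u1 := u) (u2 := bt 4 (A b)) (u3 := 0) (u4 := 0) (v1 := v) (v2 := bt 4 (A a))
    (v3 := 0) (v4 := 0) (by simp only [φ] at he; linarith) fun j => by
      have := hv a j; have := hv b j; have := h j
      omega
  have hab' : a = b := A_inj hA (bt_inj (c := 4) (by simp) fun j => by
    have := this j; have := hv a j; have := hv b j; have := h j
    simp only [Pi.zero_apply, Fin.val_zero] at *
    omega)
  exact hab (hab' ▸ N.refl a)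

include hc hA in
theorem piece2 : ∃ P : (Σ m, Fin m → Fin 27) → Set ℝ, (∀ n, Good A (P n)) ∧
    ∀ s ∈ Ico (0 : ℝ) 1, (∀ x y, s ≠ φ A x - φ A y) → ∃ n, ∃ b ∈ P n, ∃ b' ∈ P n, s = b - b' := by
  classical
  refine ⟨fun n => if ∀ u ∈ DE n, ∀ v ∈ DO n.1, O u + O v ∉ T A then
    O '' DE n ∪ (fun v => -O v) '' DO n.1 else ∅, fun n => ?_, fun s hs hK => ?_⟩
  · beta_reduce
    split_ifs with h
    swap
    · exact ⟨MeasurableSet.empty, empty_subset _, by simp⟩
    have c1 : IsClosed (DE n) := by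
      simp only [DE, setOf_and, setOf_forall]
      exact (isClosed_iInter fun j : Fin n.1 => closed_co j (· = n.2 j)).inter (isClosed_iInter fun j =>
        isClosed_iInter fun _ => closed_co j fun k => (k : ℕ) / 3 % 3 = 0)
    have c2 : IsClosed (DO n.1) := by
      simp only [DO, setOf_forall]
      exact isClosed_iInter fun j => closed_co j fun k =>
        (j < n.1 → (k : ℕ) = 0) ∧ ((k : ℕ) = 0 ∨ (k : ℕ) = 3 ∨ (k : ℕ) = 6)
    refine ⟨((c1.isCompact.image continuous_ofDigits).union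
      (c2.isCompact.image continuous_ofDigits.neg)).measurableSet, ?_, ?_⟩
    · rintro _ (⟨u, -, rfl⟩ | ⟨u, -, rfl⟩) <;> constructor <;>
        linarith [ofDigits_nonneg u, ofDigits_le_one u]
    · rintro _ (⟨u, hu, rfl⟩ | ⟨u, hu, rfl⟩) _ (⟨v, hv, rfl⟩ | ⟨v, hv, rfl⟩)
      · refine indep hA fun j => ?_
        by_cases hj : j < n.1
        · have := (hu.1 ⟨j, hj⟩).trans (hv.1 ⟨j, hj⟩).symm
          simp only at this
          rw [this]
          omega
        · have := hu.2 j (not_lt.1 hj); have := hv.2 j (not_lt.1 hj)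
          have := (u j).2; have := (v j).2
          omega
      · simpa using h u hu v hv
      · exact fun h' => h v hv u hu (by convert T_neg h' using 1; ring)
      · rw [neg_sub_neg]
        exact indep hA fun j => by have := (hu j).2; have := (hv j).2; omega
  · have hK' : IsClosed (range fun p : Z × Z => φ A p.1 - φ A p.2) :=
      (isCompact_range (((cont_φ hc).comp continuous_fst).sub
        ((cont_φ hc).comp continuous_snd))).isClosed
    obtain ⟨ε, hε, hb⟩ := Metric.isOpen_iff.1 hK'.isOpen_compl s fun ⟨p, hp⟩ => hK _ _ hp.symm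
    obtain ⟨m, hm⟩ := exists_pow_lt_of_lt_one hε (show (27 : ℝ)⁻¹ < 1 by norm_num)
    set t := digits s 27
    have ht : O t = s := ofDigits_digits (by norm_num) hs
    refine ⟨⟨m, fun j => t j⟩, ?_⟩
    beta_reduce
    rw [if_pos]
    · let v : D := fun j => if j < m then 0 else ⟨3 * (t j / 3 % 3), by omega⟩
      let u : D := fun j => ⟨t j - v j, by have := (t j).2; omega⟩
      have hv : ∀ j, (j < m ∧ (v j : ℕ) = 0) ∨ (m ≤ j ∧ (v j : ℕ) = 3 * (t j / 3 % 3)) := by
        intro j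
        by_cases hj : j < m
        · exact Or.inl ⟨hj, by simp [v, hj]⟩
        · exact Or.inr ⟨not_lt.1 hj, by simp [v, hj]⟩
      refine ⟨_, Or.inl ⟨u, ⟨fun j => Fin.ext ?_, fun j hj => ?_⟩, rfl⟩, _,
        Or.inr ⟨v, fun j => ?_, rfl⟩, ?_⟩
      · have := hv j; have := j.2
        simp only [u] at *
        omega
      · have := hv j
        simp only [u] at *
        omega
      · have := hv j
        simp only at *
        omega
      · rw [sub_neg_eq_add, O_add (w := t), ht]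
        intro j
        have := hv j
        simp only [u]
        omega
    · rintro u hu v hv ⟨a, b, -, h⟩
      let w : D := fun j => ⟨u j + v j, by
        have := hv j; have := hu.2 j; have := (u j).2
        simp only at *
        omega⟩
      rw [O_add (w := w) fun _ => rfl] at h
      refine hb (show O w ∈ _ from ?_) ⟨(a, b), h.symm⟩
      rw [Metric.mem_ball, Real.dist_eq, ← ht]
      refine (abs_ofDigits_sub_ofDigits_le (n := m) fun j hj => Fin.ext ?_).trans_lt
        (by simpa using hm)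
      have := (hv j).1 hj
      have := congrArg Fin.val (hu.1 ⟨j, hj⟩)
      simp only [w] at *
      omega

include hc hA in
theorem exists_B : ∃ B : Set ℝ, MeasurableSet B ∧ (∀ b ∈ B, ∀ b' ∈ B, b - b' ∉ T A) ∧
    ∀ s ∈ Ico (0 : ℝ) 1, s ∉ T A → ∃ b ∈ B, ∃ b' ∈ B, s = b - b' := by
  obtain ⟨P1, h1, h1'⟩ := piece1 hc hA
  obtain ⟨P2, h2, h2'⟩ := piece2 hc hA
  obtain ⟨κ, hκ⟩ := exists_injective_nat (Option (Σ m, Fin m → Fin 27))
  let P : Option (Σ m, Fin m → Fin 27) → Set ℝ := fun i => i.elim P1 P2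
  have hP : ∀ i, Good A (P i) := by
    rintro (_ | n)
    exacts [h1, h2 n]
  refine ⟨⋃ i, (fun x => x - 5 * κ i) ⁻¹' P i, MeasurableSet.iUnion fun i =>
    (hP i).1.preimage (by fun_prop), fun b hb b' hb' hT => ?_, fun s hs hT => ?_⟩
  · obtain ⟨i, hi⟩ := mem_iUnion.1 hb
    obtain ⟨i', hi'⟩ := mem_iUnion.1 hb'
    have h3 := (hP i).2.1 hi
    have h4 := (hP i').2.1 hi'
    have h5 := abs_le.1 (T_abs hT)
    simp only [mem_Icc] at h3 h4
    have h6 : κ i < κ i' + 1 := by
      have : (κ i : ℝ) < κ i' + 1 := by linarith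
      exact_mod_cast this
    have h7 : κ i' < κ i + 1 := by
      have : (κ i' : ℝ) < κ i + 1 := by linarith
      exact_mod_cast this
    obtain rfl : i = i' := hκ (by omega)
    exact (hP i).2.2 _ hi _ hi' (by simpa using hT)
  · have : ∃ i, ∃ b ∈ P i, ∃ b' ∈ P i, s = b - b' := by
      by_cases h : ∃ x y, s = φ A x - φ A y
      · obtain ⟨x, y, h⟩ := h
        exact ⟨none, h ▸ h1' x y (by_contra fun hn => hT ⟨x, y, hn, h⟩)⟩
      · push Not at h
        exact (h2' s hs h).elim fun n hn => ⟨some n, hn⟩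
    obtain ⟨i, b, hb, b', hb', h⟩ := this
    exact ⟨b + 5 * κ i, mem_iUnion.2 ⟨i, by simpa using hb⟩, b' + 5 * κ i,
      mem_iUnion.2 ⟨i, by simpa using hb'⟩, by rw [h]; ring⟩

theorem main : ∃ B : Set ℝ, MeasurableSet B ∧
    (∃ X : Set ℝ, ¬ X.Countable ∧
      X.Pairwise fun x y => Disjoint ((· + x) '' B) ((· + y) '' B)) ∧
    ∀ X : Set ℝ, (X.Pairwise fun x y => Disjoint ((· + x) '' B) ((· + y) '' B)) → #X ≤ ℵ₁ := by
  obtain ⟨A, hc, hA⟩ := exists_ad
  obtain ⟨B, hB, h1, h2⟩ := exists_B hc hA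
  obtain ⟨w, hw⟩ := exists_clique
  refine ⟨B, hB, ⟨range fun a => φ A (w a), fun h => ?_, ?_⟩, fun X hX => ?_⟩
  · have hi : Function.Injective fun a => φ A (w a) := fun a b hab => by
      have h0 : w a = w b := by_contra fun hn =>
        hn (two hA (a := w a) (b := w a) (e := w a) (f := w b)
          (by simp only at hab; rw [hab]) hn).2
      exact hw a b (h0 ▸ N.refl (w a))
    rw [← le_aleph0_iff_set_countable, mk_range_eq _ hi] at h
    simp at h
  · rintro _ ⟨a, rfl⟩ _ ⟨b, rfl⟩ hne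
    refine disjoint_left.2 ?_
    rintro _ ⟨x, hx, rfl⟩ ⟨y, hy, h⟩
    exact h1 y hy x hx ⟨w a, w b, fun hN => hne (by rw [hw a b hN]), by
      simp only at h; linarith⟩
  · have h3 : ∀ x ∈ X, ∀ y ∈ X, y < x → x - y < 1 → x - y ∈ T A := by
      intro x hx y hy hlt hlt'
      by_contra hT
      obtain ⟨b, hb, b', hb', h⟩ := h2 _ ⟨by linarith, hlt'⟩ hT
      exact disjoint_left.1 (hX hx hy hlt.ne') ⟨b', hb', rfl⟩ ⟨b, hb, by simp only; linarith⟩
    have h4 : X = ⋃ k : ℤ, X ∩ Ico (k : ℝ) (k + 1) := by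
      rw [← inter_iUnion, iUnion_Ico_intCast, inter_univ]
    rw [h4]
    refine (mk_iUnion_le _).trans ((mul_le_mul' (le_of_eq mk_int |>.trans (aleph0_le_aleph 1))
      (ciSup_le fun k => clique hA ?_)).trans (mul_eq_self (aleph0_le_aleph 1)).le)
    rintro x ⟨hx, hx1, hx2⟩ y ⟨hy, hy1, hy2⟩ hne
    rcases lt_or_gt_of_ne hne with h | h
    · simpa using T_neg (h3 y hy x hx h (by linarith))
    · exact h3 x hx y hy h (by linarith)

end Pool.Agent.H84.Pack
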