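import Pool.Agent.H84.PackA

/-! Boundedness, and a Borel subset of the Cantor group with uncountably many but no perfect set
of pairwise disjoint translates. -/

namespace Pool.Agent.H84.Pack

open Set Filter

def res (x : Z) (k : ℕ) : List Bool := (List.range k).map x

theorem res_eq {x y : Z} {k k' : ℕ} (h : res x k = res y k') : k = k' ∧ ∀ j < k, x j = y j := by
  obtain rfl : k = k' := by simpa [res] using congrArg List.length h
  exact ⟨rfl, fun j hj => List.map_inj_left.1 h j (List.mem_range.2 hj)⟩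

def Pr (K : Set Z) (p q : List Bool × ℕ) : Prop :=
  ∃ x ∈ K, ∃ k k', q.1 = res x k ∧ p.1 = res x k' ∧ k < k' ∧ Nat.pair p.2 q.2 < k' ∧ r x p.2 q.2

theorem wf_Pr {K : Set Z} (hK : IsClosed K) (hw : ∀ x ∈ K, WellFounded (r x)) :
    WellFounded (Pr K) := by
  refine wellFounded_iff_isEmpty_descending_chain.2 ⟨fun ⟨f, hf⟩ => ?_⟩
  choose x hx k k' h1 h2 h3 h4 h5 using hf
  have h6 := fun i => res_eq ((h2 i).symm.trans (h1 (i + 1)))
  have hm : StrictMono k' := strictMono_nat_of_lt_succ fun i => (h6 i).1.trans_lt (h3 _)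
  have h7 : ∀ i i', i ≤ i' → ∀ j < k' i, x i j = x i' j := by
    intro i i' h j hj
    induction i', h using Nat.le_induction with
    | base => rfl
    | succ n hn ih => exact ih.trans ((h6 n).2 j (hj.trans_le (hm.monotone hn)))
  have h8 : ∀ j, j < k' (j + 1) := fun j => hm.le_apply
  have h9 : ∀ i, ∀ j < k' i, x (j + 1) j = x i j := fun i j hj => by
    rcases le_total i (j + 1) with h | h
    exacts [(h7 _ _ h j hj).symm, h7 _ _ h j (h8 j)]
  have hy : (fun j => x (j + 1) j) ∈ K := by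
    refine hK.mem_of_tendsto (b := atTop) (tendsto_pi_nhds.2 fun j => tendsto_const_nhds.congr' ?_)
      (Eventually.of_forall hx)
    exact eventually_atTop.2 ⟨j + 1, fun i hi => h7 _ _ hi j (h8 j)⟩
  exact (wellFounded_iff_isEmpty_descending_chain.1 (hw _ hy)).false
    ⟨fun i => (f i).2, fun i => (h9 i _ (h4 i)).trans (h5 i)⟩

theorem closed_clique {K : Set Z} (hK : IsClosed K) (h : K.Pairwise fun x y => ¬ N x y) :
    K.Countable := by
  classical
  rcases K.subsingleton_or_nontrivial with h0 | h0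
  · exact h0.countable
  have hw : ∀ x ∈ K, WellFounded (r x) := fun x hx => by
    obtain ⟨y, hy, hne⟩ := h0.exists_ne x
    exact wf_of fun u hu => h hx hy hne.symm ⟨u, u, Or.inl hu⟩
  haveI : IsWellFounded _ (Pr K) := ⟨wf_Pr hK hw⟩
  have key : ∀ x (hx : x ∈ K) n k, @IsWellFounded.rank _ (r x) ⟨hw x hx⟩ n ≤
      IsWellFounded.rank (Pr K) (res x k, n) := by
    intro x hx n
    induction n using (hw x hx).induction with
    | _ n ih =>
      intro k
      rw [IsWellFounded.rank_eq]
      refine Ordinal.iSup_le fun b => Order.succ_le_of_lt ((ih b.1 b.2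
        (k + Nat.pair b.1 n + 1)).trans_lt (IsWellFounded.rank_lt_of_rel ?_))
      exact ⟨x, hx, _, _, rfl, rfl, by omega, by simp only; omega, b.2⟩
  refine MapsTo.countable_of_injOn (f := fun x => if hx : x ∈ K then
    @IsWellFounded.rank _ (r x) ⟨hw x hx⟩ 0 else 0) (fun x hx => ?_) (fun x hx y hy he => ?_)
    (countable_range (IsWellFounded.rank (Pr K)))
  · simp only [dif_pos hx]
    exact IsWellFounded.mem_range_rank_of_le (key x hx 0 0)
  · simp only [dif_pos hx, dif_pos hy] at he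
    obtain ⟨u, hu⟩ := @sim_of x y ⟨hw x hx⟩ ⟨hw y hy⟩ he.le
    obtain ⟨v, hv⟩ := @sim_of y x ⟨hw y hy⟩ ⟨hw x hx⟩ he.ge
    exact by_contra fun hne => h hx hy hne ⟨u, v, Or.inr (Or.inr ⟨hu, hv⟩)⟩

end Pool.Agent.H84.Pack
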