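import Pool.Agent.H84.PackD

/-! A Borel subset of the Cantor group whose sum set is the complement of `T2`. -/

namespace Pool.Agent.H84.Pack

open Set

abbrev G := ℕ → ZMod 2
abbrev Tt := Σ F : Finset ℕ, F → ZMod 2
abbrev I := (Bool × ℕ) ⊕ ((Tt × Bool) × (Tt × Bool)) ⊕ (Fin 4 × ℕ)

def bz (b : Bool) : ZMod 2 := if b = true then 1 else 0

theorem bz_inj {a b : Bool} (h : bz a = bz b) : a = b := by
  revert a b; decide

theorem aa (u : G) : u + u = 0 := funext fun _ => CharTwo.add_self_eq_zero _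

variable (e : ℕ ≃ I) (A : Z → Z)

def φ2 (x : Z) : G := fun j => Sum.elim (fun q => bz (A x q.2)) (fun _ => 0) (e j)

def g2 (p : Ω) : G :=
  fun j => Sum.elim (fun _ => 0) (Sum.elim (fun _ => 0) fun q => bz (p q)) (e j)

open Classical in
noncomputable def sd (t : Tt) (j : ℕ) : Bool :=
  Sum.elim (fun q => q.1) (Sum.elim (fun q => if t = q.1.1 then q.1.2 else q.2.2) fun _ => false)
    (e j)

open Classical in
noncomputable def vl (t : Tt) (j : ℕ) : ZMod 2 :=
  Sum.elim (fun _ => 0) (Sum.elim (fun q => if t = q.1.1 then 1 else 0) fun _ => 0) (e j)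

def T2 : Set G := {s | ∃ x y, ¬ N x y ∧ s = φ2 e A x + φ2 e A y}

def H2 (t : Tt) (b : Bool) : Set G :=
  {u | (∀ j, sd e t j = b → u j = vl e t j) ∧ ∀ j : t.1, sd e t j ≠ b → u j = vl e t j + t.2 j}

variable {e A} (hc : Continuous A)
  (hA : ∀ (x : Z) (F : Set Z), F.Finite → ∃ j, ∀ y ∈ F, (A y j = true ↔ y = x))

theorem T_lab {s : G} (h : s ∈ T2 e A) (q) : s (e.symm (Sum.inr q)) = 0 := by
  obtain ⟨x, y, -, rfl⟩ := h
  simp [φ2]

include hA in
open Classical in
theorem ev (w : Z) (F : Set Z) (hF : F.Finite) (b : Bool) :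
    ∃ k, ∀ y ∈ F, φ2 e A y (e.symm (Sum.inl (b, k))) = if y = w then 1 else 0 :=
  (hA w F hF).imp fun k hk y hy => by simp [φ2, bz, hk y hy]

include hA in
theorem odd {a b c d x y : Z} (h : φ2 e A a + φ2 e A b + (φ2 e A c + φ2 e A d) =
    φ2 e A x + φ2 e A y) : a = b ∨ a = c ∨ a = d ∨ a = x ∨ a = y := by
  by_contra hn
  push Not at hn
  obtain ⟨k, hk⟩ := ev (e := e) hA a {a, b, c, d, x, y} (toFinite _) false
  have := congrFun h (e.symm (Sum.inl (false, k)))
  simp [hk, hn.1.symm, hn.2.1.symm, hn.2.2.1.symm, hn.2.2.2.1.symm, hn.2.2.2.2.symm] at this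

include hA in
theorem four {a b x y : Z} (h : φ2 e A a + φ2 e A b = φ2 e A x + φ2 e A y) (hn : ¬ N x y) :
    ¬ N a b := by
  have h0 : ∀ {x y}, φ2 e A a + φ2 e A b = φ2 e A x + φ2 e A y → x ≠ y → x = a ∨ x = b := by
    intro x y h hne
    by_contra hn
    push Not at hn
    obtain ⟨k, hk⟩ := ev (e := e) hA x {a, b, x, y} (toFinite _) false
    have := congrFun h (e.symm (Sum.inl (false, k)))
    simp [hk, hn.1.symm, hn.2.symm, hne.symm] at this
  have hne : x ≠ y := fun h => hn (h ▸ N.refl x)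
  rcases h0 h hne with rfl | rfl <;> rcases h0 (h.trans (add_comm _ _)) hne.symm with rfl | rfl
  exacts [absurd rfl hne, hn, fun h => hn h.symm, absurd rfl hne]

include hA in
theorem φ2_inj : Function.Injective (φ2 e A) := fun a b hab => by_contra fun hn => by
  obtain ⟨k, hk⟩ := ev (e := e) hA a {a, b} (toFinite _) false
  have := congrFun hab (e.symm (Sum.inl (false, k)))
  simp [hk, Ne.symm hn] at this

theorem cont_bz {X : Type} [TopologicalSpace X] {f : X → Bool} (hf : Continuous f) :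
    Continuous fun x => bz (f x) := (continuous_of_discreteTopology (f := bz)).comp hf

include hc in
theorem cont_φ2 : Continuous (φ2 e A) := continuous_pi fun j => by
  unfold φ2
  rcases e j with q | q
  exacts [cont_bz ((continuous_apply _).comp hc), continuous_const]

theorem cont_g2 : Continuous (g2 e) := continuous_pi fun j => by
  unfold g2
  rcases e j with q | q | q
  exacts [continuous_const, continuous_const, cont_bz (continuous_apply _)]

theorem closed_H2 (t : Tt) (b : Bool) : IsClosed (H2 e t b) := by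
  simp only [H2, setOf_and, setOf_forall]
  exact (isClosed_iInter fun j => isClosed_iInter fun _ =>
    isClosed_eq (continuous_apply j) continuous_const).inter
    (isClosed_iInter fun j : t.1 => isClosed_iInter fun _ =>
      isClosed_eq (continuous_apply (j : ℕ)) continuous_const)

include hc hA in
theorem exists_B2 : ∃ B : Set G, MeasurableSet B ∧ (∀ b ∈ B, ∀ b' ∈ B, b + b' ∉ T2 e A) ∧
    ∀ s, s ∉ T2 e A → ∃ b ∈ B, ∃ b' ∈ B, s = b + b' := by
  classical
  let ψ : Fin 4 → Ω → G := fun i p => g2 e p + φ2 e A (co p i)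
  let F := {p : Ω | N0 (co p 0) (co p 1) (co p 2) (co p 3)}
  let P : Set G := ψ 0 '' F ∪ ψ 1 '' F
  let Gd : Tt → Prop := fun t => ∀ w : G, (∀ j : t.1, w j = t.2 j) → w ∉ T2 e A
  have hψ : ∀ i, Continuous (ψ i) := fun i =>
    cont_g2.add ((cont_φ2 hc).comp (continuous_pi fun k => continuous_apply _))
  have key : ∀ i i' p p', (∀ q, (ψ i p + ψ i' p') (e.symm (Sum.inr q)) = 0) → p = p' := by
    intro i i' p p' h
    funext q
    have := h (Sum.inr q)
    simp only [ψ, g2, φ2, Pi.add_apply, Equiv.apply_symm_apply, Sum.elim_inr, add_zero] at this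
    exact bz_inj (CharTwo.add_eq_zero.1 this)
  have hm : ∀ i, MeasurableSet (ψ i '' F) := fun i => meas_N0.image_of_measurable_injOn
    (hψ i).measurable fun p _ p' _ h => key i i p p' fun q => by rw [h, aa]; rfl
  have hP : ∀ u ∈ P, ∃ i p, p ∈ F ∧ (i = 0 ∨ i = 1) ∧ u = ψ i p := by
    rintro _ (⟨p, hp, rfl⟩ | ⟨p, hp, rfl⟩)
    exacts [⟨0, p, hp, Or.inl rfl, rfl⟩, ⟨1, p, hp, Or.inr rfl, rfl⟩]
  have hPH : ∀ u ∈ P, ∀ t b, ∀ v ∈ H2 e t b, u + v ∉ T2 e A := by
    intro u hu t b v hv hT
    obtain ⟨i, p, -, -, rfl⟩ := hP u hu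
    have h1 := T_lab hT (Sum.inl ((t, b), (t, b)))
    have h2 := hv.1 (e.symm (Sum.inr (Sum.inl ((t, b), (t, b))))) (by simp [sd])
    simp [ψ, g2, φ2, h2, vl] at h1
  refine ⟨P ∪ ⋃ t, ⋃ _ : Gd t, ⋃ b, H2 e t b, ((hm 0).union (hm 1)).union
    (MeasurableSet.iUnion fun t => MeasurableSet.iUnion fun _ => MeasurableSet.iUnion fun b =>
      (closed_H2 t b).measurableSet), ?_, fun s hs => ?_⟩
  · simp only [mem_union (a := P), mem_iUnion]
    rintro u (hu | ⟨t, ht, b, hu⟩) v (hv | ⟨t', ht', b', hv⟩) hT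
    · obtain ⟨i, p, hp, hi, rfl⟩ := hP u hu
      obtain ⟨i', p', -, hi', rfl⟩ := hP v hv
      obtain rfl := key _ _ _ _ (T_lab hT)
      obtain ⟨a, b, hab, h⟩ := hT
      have hN : N (co p 0) (co p 1) := ⟨_, _, hp⟩
      refine four (e := e) hA (a := co p i) (b := co p i')
        (by simp only [ψ] at h; linear_combination h - aa (g2 e p)) hab ?_
      rcases hi with rfl | rfl <;> rcases hi' with rfl | rfl
      exacts [N.refl _, hN, hN.symm, N.refl _]
    · exact hPH u hu _ _ v hv hT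
    · exact hPH v hv _ _ u hu (add_comm u v ▸ hT)
    · by_cases htt : t = t'
      · subst htt
        by_cases hb : b = b'
        · subst hb
          obtain ⟨x, y, hn, h⟩ := hT
          have hne : y ≠ x := fun h => hn (h ▸ N.refl _)
          obtain ⟨k, hk⟩ := ev (e := e) hA x {x, y} (toFinite _) b
          have h1 := congrFun h (e.symm (Sum.inl (b, k)))
          rw [Pi.add_apply, hu.1 _ (by simp [sd]), hv.1 _ (by simp [sd]),
            CharTwo.add_self_eq_zero] at h1
          simp [hk, hne] at h1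
        · refine ht _ (fun j => ?_) hT
          by_cases hj : sd e t j = b
          · rw [Pi.add_apply, hu.1 _ hj, hv.2 _ (hj ▸ hb), ← add_assoc, CharTwo.add_self_eq_zero,
              zero_add]
          · have hj' : sd e t j = b' := by
              revert hj hb; cases sd e t j <;> cases b <;> cases b' <;> simp
            rw [Pi.add_apply, hu.2 _ hj, hv.1 _ hj', add_right_comm, CharTwo.add_self_eq_zero,
              zero_add]
      · have h1 := T_lab hT (Sum.inl ((t, b), (t', b')))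
        have h2 := hu.1 (e.symm (Sum.inr (Sum.inl ((t, b), (t', b'))))) (by simp [sd])
        have h3 := hv.1 (e.symm (Sum.inr (Sum.inl ((t, b), (t', b'))))) (by simp [sd, Ne.symm htt])
        simp [h2, h3, vl, Ne.symm htt] at h1
  · by_cases h : ∃ x y, s = φ2 e A x + φ2 e A y
    · obtain ⟨x, y, h⟩ := h
      obtain ⟨u, v, hN⟩ : N x y := by_contra fun hn => hs ⟨x, y, hn, h⟩
      let p : Ω := fun k => ![x, y, u, v] k.1 k.2
      refine ⟨_, Or.inl (Or.inl ⟨p, hN, rfl⟩), _, Or.inl (Or.inr ⟨p, hN, rfl⟩), ?_⟩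
      simp only [ψ]
      rw [show co p 0 = x from rfl, show co p 1 = y from rfl]
      linear_combination h - aa (g2 e p)
    · have hK : IsClosed (range fun p : Z × Z => φ2 e A p.1 + φ2 e A p.2) :=
        (isCompact_range (((cont_φ2 hc).comp continuous_fst).add
          ((cont_φ2 hc).comp continuous_snd))).isClosed
      obtain ⟨J, U, h1, h2⟩ := isOpen_pi_iff.1 hK.isOpen_compl s fun ⟨p, hp⟩ => h ⟨_, _, hp.symm⟩
      let t : Tt := ⟨J, fun j => s j⟩
      have ht : Gd t := fun w hw ⟨x, y, _, hT⟩ =>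
        h2 (fun j hj => (hw ⟨j, hj⟩).symm ▸ (h1 j hj).2) ⟨(x, y), hT.symm⟩
      have hH : ∀ b, (fun j => if sd e t j = b then vl e t j else vl e t j + s j) ∈
          P ∪ ⋃ t, ⋃ _ : Gd t, ⋃ b, H2 e t b := fun b => Or.inr (mem_iUnion.2 ⟨t, mem_iUnion.2
        ⟨ht, mem_iUnion.2 ⟨b, fun j hj => if_pos hj, fun j hj => if_neg hj⟩⟩⟩)
      refine ⟨_, hH false, _, hH true, funext fun j => ?_⟩
      have := CharTwo.add_self_eq_zero (vl e t j)
      cases hj : sd e t j <;> simp only [Pi.add_apply, hj, Bool.false_eq_true, Bool.true_eq_false,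
        if_true, if_false] <;> linear_combination -this

include hc hA in
theorem closed_T2 {X : Set G} (hX : IsClosed X) (h : X.Pairwise fun x y => x + y ∈ T2 e A) :
    X.Countable := by
  rcases X.subsingleton_or_nontrivial with h0 | ⟨x0, h0, x1, h1, h01⟩
  · exact h0.countable
  have hK : ∀ c, ((fun o => φ2 e A o + φ2 e A c + x0) ''
      ((fun o => φ2 e A o + φ2 e A c + x0) ⁻¹' X)).Countable := fun c => by
    refine (closed_clique (K := (fun o => φ2 e A o + φ2 e A c + x0) ⁻¹' X)
      (hX.preimage (((cont_φ2 hc).add continuous_const).add continuous_const))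
      fun o ho o' ho' hne => ?_).image _
    obtain ⟨x, y, hn, he⟩ := h ho ho' fun he =>
      hne (φ2_inj hA (add_right_cancel (add_right_cancel he)))
    exact four (e := e) hA (by linear_combination he - aa (φ2 e A c + x0)) hn
  obtain ⟨c, d, hcd, h2⟩ := h h1 h0 h01.symm
  refine ((((hK c).union (hK d)).insert x0).insert x1).mono fun x hx => ?_
  by_cases hx1 : x = x1
  · exact Or.inl hx1
  by_cases hx0 : x = x0
  · exact Or.inr (Or.inl hx0)
  obtain ⟨a, b, hab, h3⟩ := h hx h0 hx0
  obtain ⟨u, v, huv, h4⟩ := h hx h1 hx1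
  have hm : ∀ a b : Z, x + x0 = φ2 e A a + φ2 e A b → x ∈ (fun o => φ2 e A o + φ2 e A b + x0) ''
      ((fun o => φ2 e A o + φ2 e A b + x0) ⁻¹' X) := fun a b h => by
    have : φ2 e A a + φ2 e A b + x0 = x := by linear_combination -h + aa x0
    exact ⟨a, by rw [mem_preimage, this]; exact hx, this⟩
  have h5 : φ2 e A a + φ2 e A b + (φ2 e A c + φ2 e A d) = φ2 e A u + φ2 e A v := by
    linear_combination h4 - h3 - h2 + aa x0
  have hne : ∀ {a b : Z}, ¬ N a b → a ≠ b := fun h h' => h (h' ▸ N.refl _)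
  have : a = c ∨ a = d ∨ b = c ∨ b = d := by
    have := odd (e := e) hA h5
    have := odd (e := e) hA (a := b) (b := a) (c := c) (d := d) (x := u) (y := v)
      (by linear_combination h5)
    have := odd (e := e) hA (a := c) (b := a) (c := b) (d := d) (x := u) (y := v)
      (by linear_combination h5)
    have := hne hab; have := hne hcd
    grind
  refine Or.inr (Or.inr ?_)
  rcases this with rfl | rfl | rfl | rfl
  exacts [Or.inl (hm _ _ (h3.trans (add_comm _ _))), Or.inr (hm _ _ (h3.trans (add_comm _ _))),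
    Or.inl (hm _ _ h3), Or.inr (hm _ _ h3)]

theorem main2 : ∃ B : Set G, MeasurableSet B ∧
    (∃ X : Set G, ¬ X.Countable ∧
      X.Pairwise fun x y => Disjoint ((· + x) '' B) ((· + y) '' B)) ∧
    ∀ X : Set G, IsClosed X →
      (X.Pairwise fun x y => Disjoint ((· + x) '' B) ((· + y) '' B)) → X.Countable := by
  obtain ⟨A, hc, hA⟩ := exists_ad
  obtain ⟨e⟩ : Nonempty (ℕ ≃ I) := nonempty_equiv_of_countable
  obtain ⟨B, hB, h1, h2⟩ := exists_B2 (e := e) hc hA
  obtain ⟨w, hw⟩ := exists_clique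
  refine ⟨B, hB, ⟨range fun a => φ2 e A (w a), fun h => ?_, ?_⟩, fun X hX hX' => ?_⟩
  · have hi : Function.Injective fun a => φ2 e A (w a) := fun a b hab => by
      have h0 : w a = w b := φ2_inj hA hab
      exact hw a b (h0 ▸ N.refl (w a))
    rw [← Cardinal.le_aleph0_iff_set_countable, Cardinal.mk_range_eq _ hi] at h
    simp at h
  · rintro _ ⟨a, rfl⟩ _ ⟨b, rfl⟩ hne
    refine disjoint_left.2 ?_
    rintro _ ⟨x, hx, rfl⟩ ⟨y, hy, h⟩
    exact h1 y hy x hx ⟨w a, w b, fun hN => hne (by rw [hw a b hN]), by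
      simp only at h; linear_combination h + aa x - aa (φ2 e A (w b))⟩
  · refine closed_T2 (e := e) hc hA hX fun x hx y hy hne => by_contra fun hT => ?_
    obtain ⟨b, hb, b', hb', h⟩ := h2 _ hT
    exact disjoint_left.1 (hX' hx hy hne) ⟨b', hb', rfl⟩
      ⟨b, hb, by simp only; linear_combination aa y - aa b' - h⟩

end Pool.Agent.H84.Pack
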