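import Mathlib

set_option autoImplicit false

open Set Topology Filter Metric TopologicalSpace

namespace Pool.Agent.H84.Peak

variable {X : Type} [MetricSpace X]

/-- `α` can be injected in `S` with uniformly separated image. -/
def Emb (α : Type) (S : Set X) : Prop :=
  ∃ (f : α → X) (δ : ℝ), 0 < δ ∧ (∀ a, f a ∈ S) ∧ ∀ a b, a ≠ b → δ ≤ dist (f a) (f b)

def Le (Q P : Set X) : Prop := ∀ α : Type, Emb α Q → Emb α P

theorem Emb.of_inj {α β : Type} {S : Set X} (h : Emb β S) (g : α → β)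
    (hg : Function.Injective g) : Emb α S := by
  obtain ⟨f, δ, hδ, h1, h2⟩ := h
  exact ⟨f ∘ g, δ, hδ, fun a => h1 _, fun a b hab => h2 _ _ (hg.ne hab)⟩

theorem Emb.mono {α : Type} {S S' : Set X} (h : Emb α S) (hS : S ⊆ S') : Emb α S' := by
  obtain ⟨f, δ, hδ, h1, h2⟩ := h
  exact ⟨f, δ, hδ, fun a => hS (h1 a), h2⟩

theorem le_total' (Q P : Set X) : Le Q P ∨ Le P Q := by
  by_contra hc
  push Not at hc
  obtain ⟨h1, h2⟩ := hc
  simp only [Le, not_forall] at h1 h2
  obtain ⟨α, ha, ha'⟩ := h1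
  obtain ⟨β, hb, hb'⟩ := h2
  rcases Function.Embedding.total α β with ⟨⟨g⟩⟩ | ⟨⟨g⟩⟩
  · exact ha' (hb.of_inj g g.injective)
  · exact hb' (ha.of_inj g g.injective)

theorem Emb.double {α : Type} {Q : Set X} (hQ : Q.Infinite) (h : Emb α Q) : Emb (α ⊕ α) Q := by
  cases finite_or_infinite α with
  | inr hα =>
    have : Cardinal.mk (α ⊕ α) = Cardinal.mk α := by
      simp [Cardinal.add_eq_self (Cardinal.aleph0_le_mk α)]
    obtain ⟨g⟩ := Cardinal.eq.1 this
    exact h.of_inj g g.injective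
  | inl hα =>
    obtain ⟨g, hg⟩ := exists_injective_nat (α ⊕ α)
    let f : α ⊕ α → X := fun a => (hQ.natEmbedding Q (g a) : X)
    have hf : Function.Injective f := fun a b hab =>
      hg ((hQ.natEmbedding Q).injective (Subtype.ext hab))
    have hfin : (range (fun p : {p : (α ⊕ α) × (α ⊕ α) // p.1 ≠ p.2} =>
        dist (f p.1.1) (f p.1.2))).Finite := finite_range _
    obtain ⟨δ, hδ, hle⟩ : ∃ δ : ℝ, 0 < δ ∧ ∀ x ∈ (range
        (fun p : {p : (α ⊕ α) × (α ⊕ α) // p.1 ≠ p.2} => dist (f p.1.1) (f p.1.2))), δ ≤ x := by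
      rcases (range (fun p : {p : (α ⊕ α) × (α ⊕ α) // p.1 ≠ p.2} =>
        dist (f p.1.1) (f p.1.2))).eq_empty_or_nonempty with he | hne
      · exact ⟨1, one_pos, by simp [he]⟩
      · obtain ⟨m, hm, hmin⟩ := hfin.exists_minimal hne
        refine ⟨m, ?_, fun x hx => ?_⟩
        · obtain ⟨p, rfl⟩ := hm
          exact dist_pos.2 (hf.ne p.2)
        · by_contra hlt
          push Not at hlt
          exact absurd (hmin hx hlt.le) (not_le.2 hlt)
    exact ⟨f, δ, hδ, fun a => (hQ.natEmbedding Q (g a)).2, fun a b hab => hle _ ⟨⟨(a, b), hab⟩, rfl⟩⟩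

theorem Emb.split {α : Type} {S1 S2 : Set X} (h : Emb (α ⊕ α) (S1 ∪ S2)) :
    Emb α S1 ∨ Emb α S2 := by
  obtain ⟨f, δ, hδ, h1, h2⟩ := h
  have key : ∀ S : Set X, Cardinal.mk α ≤ Cardinal.mk (f ⁻¹' S) → Emb α S := by
    intro S hS
    obtain ⟨g⟩ := (Cardinal.le_def _ _).1 hS
    exact ⟨fun a => f (g a).1, δ, hδ, fun a => (g a).2, fun a b hab =>
      h2 _ _ (fun h => hab (g.injective (Subtype.ext h)))⟩
  by_contra hc
  push Not at hc
  have a1 : Cardinal.mk (f ⁻¹' S1) < Cardinal.mk α := not_le.1 fun h => hc.1 (key _ h)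
  have a2 : Cardinal.mk (f ⁻¹' S2) < Cardinal.mk α := not_le.1 fun h => hc.2 (key _ h)
  have a3 : Cardinal.mk α + Cardinal.mk α ≤ Cardinal.mk (f ⁻¹' S1) + Cardinal.mk (f ⁻¹' S2) := by
    have : (f ⁻¹' S1 ∪ f ⁻¹' S2 : Set (α ⊕ α)) = univ := by
      rw [← preimage_union]; exact eq_univ_of_forall h1
    have h4 := Cardinal.mk_union_le (f ⁻¹' S1) (f ⁻¹' S2)
    rw [this] at h4
    simpa using h4
  cases finite_or_infinite α with
  | inr hα =>
    rw [Cardinal.add_eq_self (Cardinal.aleph0_le_mk α)] at a3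
    exact absurd (Cardinal.add_lt_of_lt (Cardinal.aleph0_le_mk α) a1 a2) (not_lt.2 a3)
  | inl hα =>
    obtain ⟨n, hn⟩ := Cardinal.lt_aleph0.1 (Cardinal.lt_aleph0_of_finite α)
    obtain ⟨a, ha⟩ := Cardinal.lt_aleph0.1 (a1.trans (Cardinal.lt_aleph0_of_finite α))
    obtain ⟨b, hb⟩ := Cardinal.lt_aleph0.1 (a2.trans (Cardinal.lt_aleph0_of_finite α))
    rw [hn, ha] at a1
    rw [hn, hb] at a2
    rw [hn, ha, hb] at a3
    norm_cast at a1 a2 a3
    omega

theorem Le.split {Q S1 S2 : Set X} (hQ : Q.Infinite) (h : Le Q (S1 ∪ S2)) :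
    Le Q S1 ∨ Le Q S2 := by
  by_contra hc
  push Not at hc
  obtain ⟨h1, h2⟩ := hc
  simp only [Le, not_forall] at h1 h2
  obtain ⟨α, ha, ha'⟩ := h1
  obtain ⟨β, hb, hb'⟩ := h2
  rcases Function.Embedding.total α β with ⟨⟨g⟩⟩ | ⟨⟨g⟩⟩
  · rcases (h _ (hb.double hQ)).split with h3 | h3
    · exact ha' (h3.of_inj g g.injective)
    · exact hb' h3
  · rcases (h _ (ha.double hQ)).split with h3 | h3
    · exact ha' h3
    · exact hb' (h3.of_inj g g.injective)

theorem step {Q R : Set X} (hQ : Q.Infinite) (h : Le Q R) (α : Type) (hα : Emb α Q) :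
    ∃ (f : α → X) (δ : ℝ) (R' : Set X), 0 < δ ∧ (∀ a, f a ∈ R) ∧
      (∀ a b, a ≠ b → δ ≤ dist (f a) (f b)) ∧ R' ⊆ R ∧ Le Q R' ∧
      ∀ z ∈ R', ∀ a, δ ≤ dist z (f a) := by
  obtain ⟨f, δ, hδ, h1, h2⟩ := h _ (hα.double hQ)
  have hcov : R ⊆ {z ∈ R | ∀ a, δ / 2 ≤ dist z (f (Sum.inl a))} ∪
      {z ∈ R | ∀ a, δ / 2 ≤ dist z (f (Sum.inr a))} := by
    intro z hz
    by_contra hc
    simp only [mem_union, mem_ofPred_eq, hz, true_and, not_or, not_forall, not_le] at hc
    obtain ⟨⟨a, ha⟩, ⟨b, hb⟩⟩ := hc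
    have := h2 (Sum.inl a) (Sum.inr b) (by simp)
    have := dist_triangle_left (f (Sum.inl a)) (f (Sum.inr b)) z
    linarith
  rcases Le.split hQ (fun β hβ => (h β hβ).mono hcov) with h3 | h3
  · exact ⟨fun a => f (Sum.inl a), δ / 2, _, half_pos hδ, fun a => h1 _, fun a b hab =>
      (half_le_self hδ.le).trans (h2 _ _ (by simpa using hab)), sep_subset _ _, h3,
      fun z hz => hz.2⟩
  · exact ⟨fun a => f (Sum.inr a), δ / 2, _, half_pos hδ, fun a => h1 _, fun a b hab =>
      (half_le_self hδ.le).trans (h2 _ _ (by simpa using hab)), sep_subset _ _, h3,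
      fun z hz => hz.2⟩

theorem discrete_family {Q P : Set X} (hQ : Q.Infinite) (h : Le Q P) (C : ℕ → Type)
    (hC : ∀ n, Emb (C n) Q) :
    ∃ (y : (Σ n, C n) → X) (H : ℕ → ℝ), (∀ n, 0 < H n) ∧ (∀ t, y t ∈ P) ∧
      ∀ t t', t ≠ t' → H t'.1 ≤ dist (y t) (y t') := by
  have key : ∀ (R : {R : Set X // Le Q R}) (n : ℕ), ∃ (f : C n → X) (δ : ℝ)
      (R' : {R : Set X // Le Q R}), 0 < δ ∧ (∀ a, f a ∈ R.1) ∧
      (∀ a b, a ≠ b → δ ≤ dist (f a) (f b)) ∧ R'.1 ⊆ R.1 ∧ ∀ z ∈ R'.1, ∀ a, δ ≤ dist z (f a) := by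
    intro R n
    obtain ⟨f, δ, R', a1, a2, a3, a4, a5, a6⟩ := step hQ R.2 (C n) (hC n)
    exact ⟨f, δ, ⟨R', a5⟩, a1, a2, a3, a4, a6⟩
  choose f δ nx a1 a2 a3 a4 a5 using key
  let R : ℕ → {R : Set X // Le Q R} := fun n => Nat.rec ⟨P, h⟩ (fun n R => nx R n) n
  have hanti : Antitone (fun n => (R n).1) := antitone_nat_of_succ_le fun n => a4 _ _
  let H : ℕ → ℝ := fun n => Nat.rec (δ (R 0) 0) (fun n H => min H (δ (R (n + 1)) (n + 1))) n
  have hH : ∀ n, 0 < H n := by
    intro n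
    induction n with
    | zero => exact a1 _ _
    | succ n ih => exact lt_min ih (a1 _ _)
  have hHa : Antitone H := antitone_nat_of_succ_le fun n => min_le_left _ _
  have hHd : ∀ n, H n ≤ δ (R n) n := by
    intro n
    cases n with
    | zero => exact le_rfl
    | succ n => exact min_le_right _ _
  refine ⟨fun t => f (R t.1) t.1 t.2, H, hH, fun t => hanti (Nat.zero_le t.1) (a2 _ _ _), ?_⟩
  rintro ⟨n, a⟩ ⟨m, b⟩ hne
  rcases lt_trichotomy n m with hlt | rfl | hlt
  · have := a5 (R n) n _ (hanti (show n + 1 ≤ m from hlt) (a2 (R m) m b)) a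
    rw [dist_comm]
    exact ((hHa hlt.le).trans (hHd n)).trans this
  · exact (hHd n).trans (a3 _ _ _ _ fun hab => hne (congrArg (Sigma.mk n) hab))
  · exact (hHd m).trans (a5 (R m) m _ (hanti (show m + 1 ≤ n from hlt) (a2 (R n) n a)) b)

theorem exists_net (Q : Set X) {δ : ℝ} (hδ : 0 < δ) :
    ∃ C ⊆ Q, (∀ a ∈ C, ∀ b ∈ C, a ≠ b → δ ≤ dist a b) ∧ ∀ x ∈ Q, ∃ c ∈ C, dist x c < δ := by
  obtain ⟨C, hC⟩ := zorn_subset {C : Set X | C ⊆ Q ∧ ∀ a ∈ C, ∀ b ∈ C, a ≠ b → δ ≤ dist a b} (by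
    intro c hc hch
    refine ⟨⋃₀ c, ⟨sUnion_subset fun s hs => (hc hs).1, ?_⟩, fun s hs => subset_sUnion_of_mem hs⟩
    rintro a ⟨s, hs, ha⟩ b ⟨s', hs', hb⟩ hab
    rcases hch.total hs hs' with h | h
    · exact (hc hs').2 a (h ha) b hb hab
    · exact (hc hs).2 a ha b (h hb) hab)
  refine ⟨C, hC.1.1, hC.1.2, fun x hx => ?_⟩
  by_contra hc
  push Not at hc
  have : insert x C ⊆ C := hC.2 ⟨insert_subset hx hC.1.1, by
    rintro a (rfl | ha) b (rfl | hb) hab
    · exact (hab rfl).elim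
    · exact hc b hb
    · rw [dist_comm]; exact hc a ha
    · exact hC.1.2 a ha b hb hab⟩ (subset_insert _ _)
  have := hc x (this (mem_insert _ _))
  simp at this
  linarith

/-- The peak metric. -/
theorem exists_dist (x0 : X) {r : ℝ} (hr : 0 < r) (hQ : (ball x0 r).Infinite)
    (h : Le (ball x0 r) (ball x0 (4 * r))ᶜ) :
    ∃ d : X → X → ℝ, (∀ a b, d a b = d b a) ∧ (∀ a b c, d a c ≤ d a b + d b c) ∧
      (∀ a b, d a b ≤ dist a b) ∧ (∀ a b, min (dist a b) r ≤ d a b) ∧
      ∀ x ∈ ball x0 r, ∀ ε > 0, ∃ y, r < d y x ∧ ∀ z, r < d y z → dist z x < ε := by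
  have hpos : ∀ n : ℕ, 0 < r / (n + 1) := fun n => by positivity
  have hle : ∀ n : ℕ, r / (n + 1) ≤ r := fun n => div_le_self hr.le (by simp)
  choose C hCQ hCs hCn using fun n : ℕ => exists_net (ball x0 r) (half_pos (hpos n))
  obtain ⟨y, H, hH, hyP, hsep⟩ := discrete_family hQ h (fun n => C n) (fun n =>
    ⟨Subtype.val, _, half_pos (hpos n), fun a => hCQ n a.2, fun a b hab =>
      hCs n _ a.2 _ b.2 (fun h => hab (Subtype.ext h))⟩)
  let T := Σ n, C n
  let E : T → ℝ := fun t => r / (t.1 + 1)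
  let G : T → ℝ := fun t => min (H t.1) (E t)
  have hE : ∀ t, 0 < E t := fun t => hpos _
  have hG : ∀ t, 0 < G t := fun t => lt_min (hH _) (hE t)
  have hGE : ∀ t, G t / E t ≤ 1 := fun t => (div_le_one (hE t)).2 (min_le_right _ _)
  have hGE0 : ∀ t, 0 < G t / E t := fun t => div_pos (hG t) (hE t)
  let pk : T → X → ℝ := fun t z => G t - G t / E t * dist z t.2.1
  have pk_le : ∀ t z, pk t z ≤ G t := fun t z => by
    have := mul_nonneg (hGE0 t).le (dist_nonneg (x := z) (y := t.2.1))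
    simp only [pk]; linarith
  have pk_lip : ∀ t z z', pk t z ≤ pk t z' + dist z z' := fun t z z' => by
    have h1 : dist z' t.2.1 ≤ dist z z' + dist z t.2.1 := dist_triangle_left _ _ _
    have h2 := mul_le_mul_of_nonneg_left h1 (hGE0 t).le
    have h3 := mul_le_mul_of_nonneg_right (hGE t) (dist_nonneg (x := z) (y := z'))
    simp only [pk]; nlinarith
  have pk_far : ∀ t z, E t ≤ dist z t.2.1 → pk t z ≤ 0 := fun t z hz => by
    have h2 := mul_le_mul_of_nonneg_left hz (hGE0 t).le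
    rw [div_mul_cancel₀ _ (hE t).ne'] at h2
    simp only [pk]; linarith
  have pk_near : ∀ t z, dist z t.2.1 < E t → 0 < pk t z := fun t z hz => by
    have h2 := mul_lt_mul_of_pos_left hz (hGE0 t)
    rw [div_mul_cancel₀ _ (hE t).ne'] at h2
    simp only [pk]; linarith
  have hGr : ∀ t, G t ≤ r := fun t => (min_le_right _ _).trans (hle _)
  let ψ : X → X → ℝ := fun a z => ⨆ t, max 0 (pk t z - dist a (y t))
  have hterm : ∀ a z t, max 0 (pk t z - dist a (y t)) ≤ r := fun a z t => max_le hr.le (by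
    have := pk_le t z; have := hGr t; have := dist_nonneg (x := a) (y := y t); linarith)
  have hbdd : ∀ a z, BddAbove (range fun t => max 0 (pk t z - dist a (y t))) :=
    fun a z => ⟨r, by rintro _ ⟨t, rfl⟩; exact hterm a z t⟩
  have ψ0 : ∀ a z, 0 ≤ ψ a z := fun a z => Real.iSup_nonneg fun t => le_max_left _ _
  have ψr : ∀ a z, ψ a z ≤ r := fun a z => Real.iSup_le (hterm a z) hr.le
  have ψge : ∀ a z t, pk t z - dist a (y t) ≤ ψ a z := fun a z t =>
    (le_max_right _ _).trans (le_ciSup (hbdd a z) t)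
  have ψlip : ∀ a z a' z', ψ a z ≤ ψ a' z' + dist a a' + dist z z' := by
    intro a z a' z'
    have h0 : 0 ≤ ψ a' z' + dist a a' + dist z z' := by
      have := ψ0 a' z'; positivity
    refine Real.iSup_le (fun t => max_le h0 ?_) h0
    have := ψge a' z' t
    have := pk_lip t z z'
    have := dist_triangle_left a' (y t) a
    linarith
  let φ : X → X → ℝ := fun a b => max (ψ a b) (ψ b a)
  have φ0 : ∀ a b, 0 ≤ φ a b := fun a b => (ψ0 a b).trans (le_max_left _ _)
  have φr : ∀ a b, φ a b ≤ r := fun a b => max_le (ψr _ _) (ψr _ _)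
  have φc : ∀ a b, φ a b = φ b a := fun a b => max_comm _ _
  have φlip : ∀ a b c, φ a c ≤ dist a b + φ b c := by
    intro a b c
    have h1 := ψlip a c b c
    have h2 := ψlip c a c b
    have h3 : ψ b c ≤ φ b c := le_max_left _ _
    have h4 : ψ c b ≤ φ b c := le_max_right _ _
    simp only [dist_self] at h1 h2
    exact max_le (by linarith) (by linarith)
  refine ⟨fun a b => min (dist a b) (r + φ a b), fun a b => by simp only [dist_comm a b, φc a b],
    ?_, fun a b => min_le_left _ _, fun a b => min_le_min le_rfl (by linarith [φ0 a b]), ?_⟩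
  · intro a b c
    have m1 : min (dist a c) (r + φ a c) ≤ dist a c := min_le_left _ _
    have m2 : min (dist a c) (r + φ a c) ≤ r + φ a c := min_le_right _ _
    have t1 := dist_triangle a b c
    have t2 := φlip a b c
    have t3 := φlip c b a
    rw [φc c a, φc b a, dist_comm c b] at t3
    have := φ0 a b; have := φ0 b c; have := φr a c
    rcases min_choice (dist a b) (r + φ a b) with h1 | h1 <;>
      rcases min_choice (dist b c) (r + φ b c) with h2 | h2 <;>
      simp only [h1, h2] <;> linarith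
  · intro x hx ε hε
    obtain ⟨n, hn⟩ : ∃ n : ℕ, r / (n + 1) < ε / 2 := by
      obtain ⟨n, hn⟩ := exists_nat_one_div_lt (show 0 < ε / 2 / r by positivity)
      refine ⟨n, ?_⟩
      rw [lt_div_iff₀ hr] at hn
      calc r / (n + 1) = 1 / (n + 1) * r := by ring
        _ < ε / 2 := hn
    obtain ⟨c, hc, hxc⟩ := hCn n x hx
    let t : T := ⟨n, ⟨c, hc⟩⟩
    have hEt : E t = r / (n + 1) := rfl
    have hyx : ∀ t', 4 * r ≤ dist (y t') x0 := fun t' => by simpa using hyP t'
    refine ⟨y t, lt_min ?_ ?_, fun z hz => ?_⟩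
    · have := dist_triangle (y t) x x0
      have := mem_ball.1 hx
      have := hyx t
      linarith
    · have h1 := ψge (y t) x t
      have h2 := pk_near t x (by
        show dist x c < r / (n + 1)
        linarith [hpos n])
      have h3 : ψ (y t) x ≤ φ (y t) x := le_max_left _ _
      simp only [dist_self] at h1
      linarith
    · by_contra hfar
      push Not at hfar
      have hzc : E t ≤ dist z c := by
        have := dist_triangle_right z x c
        rw [hEt]
        linarith [hpos n]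
      have a1 : ψ (y t) z ≤ 0 := by
        refine Real.iSup_le (fun t' => max_le le_rfl ?_) le_rfl
        by_cases ht : t = t'
        · subst ht
          have := pk_far t z hzc
          simpa using this
        · have := hsep t t' ht
          have := pk_le t' z
          have : G t' ≤ H t'.1 := min_le_left _ _
          linarith
      have a2 : ψ z (y t) ≤ 0 := by
        refine Real.iSup_le (fun t' => max_le le_rfl ?_) le_rfl
        have := pk_far t' (y t) (by
          have h1 := dist_triangle (y t) t'.2.1 x0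
          have h2 := mem_ball.1 (hCQ _ t'.2.2)
          have h3 := hyx t
          have h4 : E t' ≤ r := hle _
          linarith)
        have := dist_nonneg (x := z) (y := y t')
        linarith
      have a3 : φ (y t) z ≤ 0 := max_le a1 a2
      have := (lt_min_iff.1 hz).2
      linarith

theorem exists_bad [hX : Nonempty X] : ∃ p : X, ∀ x : X, x ≠ p →
    ∃ r > 0, Le (ball x r) (ball x (4 * r))ᶜ := by
  by_cases hall : ∀ x : X, ∃ r > 0, Le (ball x r) (ball x (4 * r))ᶜ
  · exact ⟨hX.some, fun x _ => hall x⟩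
  · obtain ⟨p, hp⟩ := not_forall.1 hall
    refine ⟨p, fun x hx => ?_⟩
    have hxp : 0 < dist x p := dist_pos.2 hx
    set r := dist x p / 5 with hr
    have hr0 : 0 < r := by positivity
    rcases le_total' (ball x r) (ball p r) with h | h
    · refine ⟨r, hr0, fun α hα => (h α hα).mono fun z hz hz' => ?_⟩
      have := dist_triangle_left x p z
      have := mem_ball.1 hz
      have := mem_ball.1 hz'
      linarith
    · refine (hp ⟨r, hr0, fun α hα => (h α hα).mono fun z hz hz' => ?_⟩).elim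
      have := dist_triangle_left x p z
      have := mem_ball.1 hz
      have := mem_ball.1 hz'
      linarith

end Pool.Agent.H84.Peak
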