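import Mathlib

open Set Filter Topology

namespace Pool.Agent.H84.Pre

universe u

variable {X : Type u}

/-- `r` is a preorder (reflexive and transitive). -/
def IsPre (r : X → X → Prop) : Prop := (∀ x, r x x) ∧ ∀ x y z, r x y → r y z → r x z

/-- `f` is increasing for `r`. -/
def Incr (r : X → X → Prop) (f : X → ℝ) : Prop := ∀ x y, r x y → f x ≤ f y

/-- `D` is a decreasing set. -/
def DecSet (r : X → X → Prop) (D : Set X) : Prop := ∀ z x, r z x → x ∈ D → z ∈ D

/-- `D` is an increasing set. -/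
def IncSet (r : X → X → Prop) (D : Set X) : Prop := ∀ z x, r x z → x ∈ D → z ∈ D

variable [TopologicalSpace X]

/-- `r` is a closed subset of `X × X`. -/
def IsClosedRel (r : X → X → Prop) : Prop := IsClosed {p : X × X | r p.1 p.2}

/-- Weak continuity: strict pairs are strictly separated by continuous increasing functions. -/
def WeaklyCont (r : X → X → Prop) : Prop :=
  ∀ x y, r x y → ¬ r y x → ∃ f : X → ℝ, Continuous f ∧ Incr r f ∧ f x < f y

/-- Continuous multi-utility representation. -/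
def MultiUtility (r : X → X → Prop) : Prop :=
  ∃ F : Set (X → ℝ), (∀ f ∈ F, Continuous f ∧ Incr r f) ∧ ∀ x y, r x y ↔ ∀ f ∈ F, f x ≤ f y

/-- Normal preorder in the sense of Nachbin. -/
def NormalRel (r : X → X → Prop) : Prop :=
  ∀ A B : Set X, IsClosed A → DecSet r A → IsClosed B → IncSet r B → Disjoint A B →
    ∃ U V : Set X, IsOpen U ∧ DecSet r U ∧ IsOpen V ∧ IncSet r V ∧ A ⊆ U ∧ B ⊆ V ∧ Disjoint U V

variable (X) in
/-- Every closed preorder on `X` is weakly continuous. -/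
def AllWC : Prop := ∀ r : X → X → Prop, IsPre r → IsClosedRel r → WeaklyCont r

variable (X) in
/-- Every closed preorder on `X` is normal. -/
def AllNormal : Prop := ∀ r : X → X → Prop, IsPre r → IsClosedRel r → NormalRel r

variable (X) in
/-- Every closed preorder on `X` has a continuous multi-utility representation. -/
def AllMU : Prop := ∀ r : X → X → Prop, IsPre r → IsClosedRel r → MultiUtility r

lemma nachbin {r : X → X → Prop} (hn : NormalRel r) {A B : Set X} (hA : IsClosed A)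
    (dA : DecSet r A) (hB : IsClosed B) (iB : IncSet r B) (hd : Disjoint A B) :
    ∃ f : X → ℝ, Continuous f ∧ Incr r f ∧ (∀ a ∈ A, f a = 0) ∧ ∀ b ∈ B, f b = 1 := by
  let P : Set X → Set X → Prop := fun c u =>
    DecSet r u ∧ ∃ c', IsClosed c' ∧ DecSet r c' ∧ c ⊆ c' ∧ c' ⊆ u
  let c : Urysohns.CU P :=
    { C := A
      U := Bᶜ
      P_C_U := ⟨fun z x h hx hz => hx (iB x z h hz), A, hA, dA, subset_rfl,
        hd.subset_compl_right⟩
      closed_C := hA
      open_U := hB.isOpen_compl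
      subset := hd.subset_compl_right
      hP := by
        rintro c u - ⟨du, c', hc', dc', h1, h2⟩ hu -
        obtain ⟨U, V, oU, dU, oV, iV, s1, s2, dj⟩ := hn c' uᶜ hc' dc' hu.isClosed_compl
          (fun z x h hx hz => hx (du x z h hz)) (disjoint_compl_right_iff_subset.2 h2)
        have hcl : closure U ⊆ Vᶜ := closure_minimal dj.subset_compl_right oV.isClosed_compl
        have hVu : Vᶜ ⊆ u := compl_subset_comm.1 s2
        exact ⟨U, oU, h1.trans s1, hcl.trans hVu, ⟨dU, c', hc', dc', h1, s1⟩,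
          du, Vᶜ, oV.isClosed_compl, fun z x h hx hz => hx (iV x z h hz), hcl, hVu⟩ }
  have key : ∀ n (c : Urysohns.CU P) x y, r x y → c.approx n x ≤ c.approx n y := by
    intro n
    induction n with
    | zero =>
      intro c x y h
      by_cases hy : y ∈ c.U
      · have hx : x ∈ c.U := c.P_C_U.1 x y h hy
        simp [Urysohns.CU.approx, hx, hy]
      · rw [c.approx_of_notMem_U 0 hy]; exact c.approx_le_one 0 x
    | succ n ih =>
      intro c x y h
      simp only [Urysohns.CU.approx]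
      exact midpoint_le_midpoint (ih _ x y h) (ih _ x y h)
  refine ⟨c.lim, c.continuous_lim, fun x y h => ?_, fun a ha => c.lim_of_mem_C a ha,
    fun b hb => c.lim_of_notMem_U b (fun h => h hb)⟩
  exact ciSup_le fun n => (key n c x y h).trans (c.approx_le_lim y n)

lemma closed_left {r : X → X → Prop} (h : IsClosedRel r) (y : X) : IsClosed {z | r z y} :=
  h.preimage (f := fun z => (z, y)) (by fun_prop)

lemma closed_right {r : X → X → Prop} (h : IsClosedRel r) (x : X) : IsClosed {z | r x z} :=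
  h.preimage (f := fun z => (x, z)) (by fun_prop)

lemma mu_of_normal (h : AllNormal X) : AllMU X := by
  intro r hp hc
  refine ⟨{f | Continuous f ∧ Incr r f}, fun f hf => hf, fun x y => ⟨fun hr f hf => hf.2 x y hr,
    fun hf => ?_⟩⟩
  by_contra hr
  obtain ⟨f, cf, mf, h0, h1⟩ := nachbin (h r hp hc) (closed_left hc y)
    (fun z w h1 h2 => hp.2 _ _ _ h1 h2) (closed_right hc x) (fun z w h1 h2 => hp.2 _ _ _ h2 h1)
    (disjoint_left.2 fun z h1 h2 => hr (hp.2 _ _ _ h2 h1))
  have := hf f ⟨cf, mf⟩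
  rw [h0 y (hp.1 y), h1 x (hp.1 x)] at this
  norm_num at this

lemma wc_of_mu (h : AllMU X) : AllWC X := by
  intro r hp hc x y _ hyx
  obtain ⟨F, hF, hr⟩ := h r hp hc
  rw [hr] at hyx
  push Not at hyx
  obtain ⟨f, hf, hlt⟩ := hyx
  exact ⟨f, (hF f hf).1, (hF f hf).2, hlt⟩

lemma normal_of_wc (h : AllWC X) : AllNormal X := by
  intro r hp hc A B hA dA hB iB hd
  rcases A.eq_empty_or_nonempty with rfl | ⟨a, ha⟩
  · exact ⟨∅, univ, isOpen_empty, dA, isOpen_univ, fun _ _ _ _ => trivial, subset_rfl,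
      subset_univ _, by simp⟩
  rcases B.eq_empty_or_nonempty with rfl | ⟨b, hb⟩
  · exact ⟨univ, ∅, isOpen_univ, fun _ _ _ _ => trivial, isOpen_empty, iB, subset_univ _,
      subset_rfl, by simp⟩
  let s : X → X → Prop := fun z w => r z w ∨ z ∈ A ∨ w ∈ B
  have sp : IsPre s := by
    refine ⟨fun x => Or.inl (hp.1 x), ?_⟩
    rintro x y z (h1 | h1 | h1) (h2 | h2 | h2)
    · exact Or.inl (hp.2 _ _ _ h1 h2)
    · exact Or.inr (Or.inl (dA _ _ h1 h2))
    · exact Or.inr (Or.inr h2)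
    · exact Or.inr (Or.inl h1)
    · exact Or.inr (Or.inl h1)
    · exact Or.inr (Or.inl h1)
    · exact Or.inr (Or.inr (iB _ _ h2 h1))
    · exact (disjoint_left.1 hd h2 h1).elim
    · exact Or.inr (Or.inr h2)
  have sc : IsClosedRel s :=
    IsClosed.union hc ((hA.preimage continuous_fst).union (hB.preimage continuous_snd))
  obtain ⟨f, cf, mf, hlt⟩ := h s sp sc a b (Or.inr (Or.inl ha)) (by
    rintro (h1 | h1 | h1)
    · exact disjoint_left.1 hd (dA _ _ h1 ha) hb
    · exact disjoint_left.1 hd h1 hb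
    · exact disjoint_left.1 hd ha h1)
  refine ⟨{z | f z < (f a + f b) / 2}, {z | (f a + f b) / 2 < f z}, isOpen_lt cf continuous_const,
    fun z x h1 h2 => lt_of_le_of_lt (mf _ _ (Or.inl h1)) h2, isOpen_lt continuous_const cf,
    fun z x h1 h2 => lt_of_lt_of_le h2 (mf _ _ (Or.inl h1)), fun z hz => ?_, fun z hz => ?_,
    disjoint_left.2 fun z (h1 : f z < _) (h2 : _ < f z) => lt_asymm h1 h2⟩
  · have := mf z a (Or.inr (Or.inl hz))
    show f z < _
    linarith
  · have := mf b z (Or.inr (Or.inr hz))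
    show _ < f z
    linarith

/-! ### Sufficiency -/

/-- the decreasing hull -/
def dn (r : X → X → Prop) (S : Set X) : Set X := {z | ∃ w ∈ S, r z w}

lemma closed_dn {r : X → X → Prop} (hc : IsClosedRel r) {S : Set X} (hS : IsCompact S) :
    IsClosed (dn r S) := by
  rw [← isOpen_compl_iff, isOpen_iff_forall_mem_open]
  intro z hz
  obtain ⟨u, v, ou, -, zu, Sv, huv⟩ := generalized_tube_lemma (isCompact_singleton (x := z)) hS
    hc.isOpen_compl (by
      rintro ⟨z', w⟩ ⟨rfl, hw⟩ hr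
      exact hz ⟨w, hw, hr⟩)
  exact ⟨u, fun y hy ⟨w, hw, hr⟩ => huv (mk_mem_prod hy (Sv hw)) hr, ou, zu rfl⟩

/-- one enlargement step is possible along the set `K` -/
def Step (K : Set X) : Prop :=
  ∀ r : X → X → Prop, IsPre r → IsClosedRel r → ∀ A B : Set X, IsClosed A → DecSet r A →
    IsClosed B → IncSet r B → Disjoint A B →
    ∃ A', IsClosed A' ∧ DecSet r A' ∧ Disjoint A' B ∧ A ⊆ A' ∧ A ∩ K ⊆ interior A'

lemma step_lc [LocallyCompactSpace X] {K : Set X} (hK : IsCompact K) : Step K := by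
  intro r hp hc A B hA dA hB iB hd
  obtain ⟨N, cN, h1, h2⟩ := exists_compact_between (hK.inter_left hA) hB.isOpen_compl
    (inter_subset_left.trans hd.subset_compl_right)
  refine ⟨A ∪ dn r N, hA.union (closed_dn hc cN), ?_, ?_, subset_union_left,
    h1.trans (interior_mono fun z hz => Or.inr ⟨z, hz, hp.1 z⟩)⟩
  · rintro z x h (hx | ⟨w, hw, hr⟩)
    · exact Or.inl (dA _ _ h hx)
    · exact Or.inr ⟨w, hw, hp.2 _ _ _ h hr⟩
  · refine disjoint_left.2 ?_
    rintro z (hz | ⟨w, hw, hr⟩) hb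
    · exact disjoint_left.1 hd hz hb
    · exact h2 hw (iB _ _ hr hb)

lemma isOpen_of_not_der {x : X} (h : x ∉ derivedSet (univ : Set X)) : IsOpen ({x} : Set X) := by
  rw [mem_derivedSet, AccPt, principal_univ, inf_top_eq, not_neBot] at h
  exact (isOpen_singleton_iff_punctured_nhds x).2 h

lemma mem_der_iff {x : X} : x ∈ derivedSet (univ : Set X) ↔ ¬ IsOpen ({x} : Set X) := by
  rw [mem_derivedSet, AccPt, principal_univ, inf_top_eq, isOpen_singleton_iff_punctured_nhds,
    neBot_iff]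

lemma closed_der : IsClosed (derivedSet (univ : Set X)) := by
  rw [← isOpen_compl_iff, isOpen_iff_forall_mem_open]
  intro x hx
  exact ⟨{x}, by simpa using hx, isOpen_of_not_der hx, rfl⟩

lemma step_cpt (hK : IsCompact (derivedSet (univ : Set X))) : Step (derivedSet (univ : Set X)) := by
  intro r hp hc A B hA dA hB iB hd
  set K := derivedSet (univ : Set X)
  obtain ⟨u, v, ou, ov, Bu, Av, huv⟩ := generalized_tube_lemma (hK.inter_left hB)
    (hK.inter_left hA) hc.isOpen_compl (by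
      rintro ⟨z, w⟩ ⟨hz, hw⟩ hr
      exact disjoint_left.1 hd (dA _ _ hr hw.1) hz.1)
  set W := v ∩ Bᶜ
  have oW : IsOpen W := ov.inter hB.isOpen_compl
  set D := closure (dn r W) ∩ K
  have cD : IsCompact D := hK.inter_left isClosed_closure
  have hu : closure (dn r W) ⊆ uᶜ :=
    closure_minimal (fun z ⟨w, hw, hr⟩ hz => huv (mk_mem_prod hz hw.1) hr) ou.isClosed_compl
  refine ⟨A ∪ (closure (dn r W) ∪ dn r D), hA.union (isClosed_closure.union (closed_dn hc cD)),
    ?_, ?_, subset_union_left, ?_⟩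
  · have hcl : ∀ x ∈ closure (dn r W), x ∈ dn r W ∨ x ∈ D := by
      intro x hx
      by_cases hk : x ∈ K
      · exact Or.inr ⟨hx, hk⟩
      · obtain ⟨y, rfl, hy⟩ := mem_closure_iff.1 hx {x} (isOpen_of_not_der hk) rfl
        exact Or.inl hy
    rintro z x h (hx | hx | ⟨w, hw, hr⟩)
    · exact Or.inl (dA _ _ h hx)
    · rcases hcl x hx with ⟨w, hw, hr⟩ | hx
      · exact Or.inr (Or.inl (subset_closure ⟨w, hw, hp.2 _ _ _ h hr⟩))
      · exact Or.inr (Or.inr ⟨x, hx, h⟩)
    · exact Or.inr (Or.inr ⟨w, hw, hp.2 _ _ _ h hr⟩)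
  · refine disjoint_left.2 ?_
    rintro z (hz | hz | ⟨w, hw, hr⟩) hb
    · exact disjoint_left.1 hd hz hb
    · by_cases hk : z ∈ K
      · exact hu hz (Bu ⟨hb, hk⟩)
      · obtain ⟨y, rfl, w, hw, hr⟩ := mem_closure_iff.1 hz {z} (isOpen_of_not_der hk) rfl
        exact hw.2 (iB _ _ hr hb)
    · exact hu hw.1 (Bu ⟨iB _ _ hr hb, hw.2⟩)
  · intro z hz
    refine mem_interior.2 ⟨W, fun y hy => Or.inr (Or.inl (subset_closure ⟨y, hy, hp.1 y⟩)), oW,
      Av hz, disjoint_left.1 hd hz.1⟩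

lemma normal_of_step (K : ℕ → Set X) (hm : Monotone K) (hS : ∀ n, Step (K n))
    (hcov : derivedSet (univ : Set X) ⊆ ⋃ n, K n) : AllNormal X := by
  intro r hp hc A B hA dA hB iB hd
  let G := {p : Set X × Set X // IsClosed p.1 ∧ DecSet r p.1 ∧ IsClosed p.2 ∧ IncSet r p.2 ∧
    Disjoint p.1 p.2}
  have hp' : IsPre (fun x y => r y x) := ⟨hp.1, fun x y z h1 h2 => hp.2 _ _ _ h2 h1⟩
  have hc' : IsClosedRel (fun x y => r y x) := hc.preimage continuous_swap
  have st : ∀ (n : ℕ) (p : G), ∃ q : G, p.1.1 ⊆ q.1.1 ∧ p.1.1 ∩ K n ⊆ interior q.1.1 ∧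
      p.1.2 ⊆ q.1.2 ∧ p.1.2 ∩ K n ⊆ interior q.1.2 := by
    rintro n ⟨⟨A, B⟩, hA, dA, hB, iB, hd⟩
    obtain ⟨A', cA', dA', dj, s1, s2⟩ := hS n r hp hc A B hA dA hB iB hd
    obtain ⟨B', cB', dB', dj', t1, t2⟩ := hS n _ hp' hc' B A' hB iB cA' dA' dj.symm
    exact ⟨⟨(A', B'), cA', dA', cB', dB', dj'.symm⟩, s1, s2, t1, t2⟩
  choose nx h1 h2 h3 h4 using st
  let s : ℕ → G := fun n => Nat.rec ⟨(A, B), hA, dA, hB, iB, hd⟩ (fun n p => nx n p) n
  have m1 : Monotone fun n => (s n).1.1 := monotone_nat_of_le_succ fun n => h1 n (s n)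
  have m2 : Monotone fun n => (s n).1.2 := monotone_nat_of_le_succ fun n => h3 n (s n)
  have op : ∀ T : ℕ → Set X, Monotone T → (∀ n, T n ∩ K n ⊆ interior (T (n + 1))) →
      IsOpen (⋃ n, T n) := by
    intro T mT hT
    rw [isOpen_iff_forall_mem_open]
    intro x hx
    obtain ⟨n, hn⟩ := mem_iUnion.1 hx
    by_cases hk : x ∈ derivedSet (univ : Set X)
    · obtain ⟨m, hm'⟩ := mem_iUnion.1 (hcov hk)
      exact ⟨interior (T (max n m + 1)), interior_subset.trans (subset_iUnion _ _),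
        isOpen_interior, hT _ ⟨mT (le_max_left _ _) hn, hm (le_max_right _ _) hm'⟩⟩
    · exact ⟨{x}, by simpa using ⟨n, hn⟩, isOpen_of_not_der hk, rfl⟩
  refine ⟨⋃ n, (s n).1.1, ⋃ n, (s n).1.2, op _ m1 fun n => h2 n (s n), ?_,
    op _ m2 fun n => h4 n (s n), ?_, subset_iUnion (fun n => (s n).1.1) 0,
    subset_iUnion (fun n => (s n).1.2) 0, ?_⟩
  · intro z x h hx
    obtain ⟨n, hn⟩ := mem_iUnion.1 hx
    exact mem_iUnion.2 ⟨n, (s n).2.2.1 _ _ h hn⟩
  · intro z x h hx
    obtain ⟨n, hn⟩ := mem_iUnion.1 hx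
    exact mem_iUnion.2 ⟨n, (s n).2.2.2.2.1 _ _ h hn⟩
  · refine disjoint_left.2 fun z h1 h2 => ?_
    obtain ⟨n, hn⟩ := mem_iUnion.1 h1
    obtain ⟨m, hm⟩ := mem_iUnion.1 h2
    exact disjoint_left.1 (s (max n m)).2.2.2.2.2 (m1 (le_max_left _ _) hn)
      (m2 (le_max_right _ _) hm)

lemma suff (h : IsCompact (derivedSet (univ : Set X)) ∨
    (LocallyCompactSpace X ∧ IsSigmaCompact (derivedSet (univ : Set X)))) : AllNormal X := by
  rcases h with h | ⟨_, K, hK, hU⟩
  · exact normal_of_step (fun _ => derivedSet univ) monotone_const (fun _ => step_cpt h)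
      (subset_iUnion (fun _ : ℕ => derivedSet (univ : Set X)) 0)
  · refine normal_of_step (accumulate K) monotone_accumulate
      (fun n => step_lc (isCompact_accumulate hK n)) ?_
    rw [iUnion_accumulate, hU]

end Pool.Agent.H84.Pre
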