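import Mathlib
import Pool.Agent.H84.PreA

open Set Filter Topology

namespace Pool.Agent.H84.Pre

universe u

variable {X : Type u} [TopologicalSpace X]

lemma bad [T2Space X] (h : AllNormal X) {R : Set (X × X)} (hR : IsClosed R)
    (hch : ∀ x y z, (x, y) ∈ R → (y, z) ∈ R → False) {A B : Set X} (hA : IsClosed A)
    (hB : IsClosed B) (hd : Disjoint A B) (hAR : ∀ z, ∀ a ∈ A, (z, a) ∉ R)
    (hBR : ∀ z, ∀ b ∈ B, (b, z) ∉ R) :
    ∃ U V : Set X, IsOpen U ∧ IsOpen V ∧ A ⊆ U ∧ B ⊆ V ∧ ∀ z w, (z, w) ∈ R → w ∈ U → z ∉ V := by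
  let r : X → X → Prop := fun z w => z = w ∨ (z, w) ∈ R
  have hp : IsPre r := by
    refine ⟨fun x => Or.inl rfl, ?_⟩
    rintro x y z (rfl | h1) (rfl | h2)
    · exact Or.inl rfl
    · exact Or.inr h2
    · exact Or.inr h1
    · exact (hch _ _ _ h1 h2).elim
  have hc : IsClosedRel r := IsClosed.union (isClosed_eq continuous_fst continuous_snd) hR
  obtain ⟨U, V, oU, dU, oV, -, s1, s2, dj⟩ := h r hp hc A B hA (by
      rintro z x (rfl | h1) hx
      · exact hx
      · exact (hAR _ _ hx h1).elim) hB (by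
      rintro z x (rfl | h1) hx
      · exact hx
      · exact (hBR _ _ hx h1).elim) hd
  exact ⟨U, V, oU, oV, s1, s2, fun z w h1 h2 => disjoint_left.1 dj (dU _ _ (Or.inr h1) h2)⟩

/-- a discretely expandable set of points -/
def Exp (S : Set X) (G : S → Set X) : Prop :=
  (∀ s, IsOpen (G s) ∧ s.1 ∈ G s) ∧ Pairwise (fun s t => Disjoint (G s) (G t)) ∧ LocallyFinite G

lemma disc [T2Space X] [ParacompactSpace X] {C : Set X} (hC : IsClosed C) {ι : Type*}
    (U : ι → Set X) (hU : ∀ i, IsOpen (U i)) (hcov : C ⊆ ⋃ i, U i) :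
    ∃ S ⊆ C, ∃ G : S → Set X, Exp S G ∧ ∃ F : S → Set ι, (∀ s, (F s).Finite) ∧
      C ⊆ ⋃ s, ⋃ i ∈ F s, U i := by
  obtain ⟨V, oV, cV, lV, sV⟩ := precise_refinement_set hC U hU hcov
  obtain ⟨S, hS⟩ := zorn_subset {S : Set X | S ⊆ C ∧ ∀ s ∈ S, ∀ t ∈ S, ∀ i, s ∈ V i → t ∈ V i → s = t}
    (by
      intro c hc hch
      refine ⟨⋃₀ c, ⟨sUnion_subset fun S hS => (hc hS).1, ?_⟩, fun S hS => subset_sUnion_of_mem hS⟩
      rintro s ⟨S, hS, hs⟩ t ⟨T, hT, ht⟩ i h1 h2
      rcases hch.total hS hT with h | h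
      · exact (hc hT).2 s (h hs) t ht i h1 h2
      · exact (hc hS).2 s hs t (h ht) i h1 h2)
  have hex : ∀ s : S, ∃ i, s.1 ∈ V i := fun s => mem_iUnion.1 (cV (hS.prop.1 s.2))
  choose j hj using hex
  have jinj : Function.Injective j := fun s t h =>
    Subtype.ext (hS.prop.2 s s.2 t t.2 (j s) (hj s) (h ▸ hj t))
  have lO : LocallyFinite (fun s => V (j s)) := lV.comp_injective jinj
  have hN : ∀ s : S, ∃ N ∈ 𝓝 s.1, IsClosed N ∧ N ⊆ V (j s) := fun s =>
    exists_mem_nhds_isClosed_subset ((oV _).mem_nhds (hj s))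
  choose N N1 N2 N3 using hN
  have lN : LocallyFinite N := lO.subset N3
  refine ⟨S, hS.prop.1, fun s => interior (N s) \ ⋃ t : {t : S // t ≠ s}, N t, ⟨fun s => ⟨?_, ?_⟩, ?_,
    lN.subset fun s => sdiff_subset.trans interior_subset⟩, fun s => {i | s.1 ∈ V i},
    fun s => lV.point_finite _, ?_⟩
  · exact isOpen_interior.sdiff ((lN.comp_injective Subtype.val_injective).isClosed_iUnion
      fun t => N2 _)
  · refine ⟨mem_interior_iff_mem_nhds.2 (N1 s), fun h => ?_⟩
    obtain ⟨t, ht⟩ := mem_iUnion.1 h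
    exact t.2 (Subtype.ext (hS.prop.2 _ t.1.2 _ s.2 _ (hj _) (N3 _ ht)))
  · intro s t hst
    exact disjoint_left.2 fun z h1 h2 => h2.2 (mem_iUnion.2 ⟨⟨s, hst⟩, interior_subset h1.1⟩)
  · intro x hx
    by_contra hn
    have hx' : ∀ s ∈ S, ∀ i, s ∈ V i → x ∉ V i := fun s hs i h1 h2 =>
      hn (mem_iUnion.2 ⟨⟨s, hs⟩, mem_biUnion h1 (sV i h2)⟩)
    have : insert x S ⊆ S := hS.le_of_ge (y := insert x S) ⟨insert_subset hx hS.prop.1, by
      rintro s (rfl | hs) t (rfl | ht) i h1 h2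
      · rfl
      · exact (hx' _ ht i h2 h1).elim
      · exact (hx' _ hs i h1 h2).elim
      · exact hS.prop.2 s hs t ht i h1 h2⟩ (subset_insert _ _)
    obtain ⟨i, hi⟩ := mem_iUnion.1 (cV hx)
    exact hx' x (this (mem_insert _ _)) i hi hi

lemma disc_inf [T2Space X] [ParacompactSpace X] {C : Set X} (hC : IsClosed C)
    (h : ¬ IsCompact C) : ∃ S ⊆ C, ∃ G : S → Set X, Exp S G ∧ S.Infinite := by
  rw [isCompact_iff_finite_subcover] at h
  push Not at h
  obtain ⟨ι, U, hU, hcov, hno⟩ := h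
  obtain ⟨S, hS, G, hG, F, hF, hc⟩ := disc hC U hU hcov
  refine ⟨S, hS, G, hG, fun hf => ?_⟩
  have := hf.to_subtype
  have : (⋃ s, F s).Finite := finite_iUnion hF
  refine hno this.toFinset fun x hx => ?_
  obtain ⟨s, hs⟩ := mem_iUnion.1 (hc hx)
  obtain ⟨i, hi, hx⟩ := mem_iUnion₂.1 hs
  exact mem_iUnion₂.2 ⟨i, this.mem_toFinset.2 (mem_iUnion.2 ⟨s, hi⟩), hx⟩

lemma disc_unc [T2Space X] [ParacompactSpace X] [LocallyCompactSpace X] {C : Set X}
    (hC : IsClosed C) (h : ¬ IsSigmaCompact C) :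
    ∃ S ⊆ C, ∃ G : S → Set X, Exp S G ∧ ¬ S.Countable := by
  choose K hK hx using fun x : X => exists_compact_mem_nhds x
  obtain ⟨S, hS, G, hG, F, hF, hc⟩ := disc hC (fun x => interior (K x)) (fun _ => isOpen_interior)
    fun x _ => mem_iUnion.2 ⟨x, mem_interior_iff_mem_nhds.2 (hx x)⟩
  refine ⟨S, hS, G, hG, fun hf => h ?_⟩
  have := hf.to_subtype
  have : C = ⋃ s, (⋃ i ∈ F s, K i) ∩ C := by
    refine Subset.antisymm (fun x hx => ?_) (iUnion_subset fun s => inter_subset_right)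
    obtain ⟨s, hs⟩ := mem_iUnion.1 (hc hx)
    obtain ⟨i, hi, hx'⟩ := mem_iUnion₂.1 hs
    exact mem_iUnion.2 ⟨s, mem_iUnion₂.2 ⟨i, hi, interior_subset hx'⟩, hx⟩
  rw [this]
  exact isSigmaCompact_iUnion_of_isCompact _ fun s =>
    ((hF s).isCompact_biUnion fun i _ => hK i).inter_right hC

lemma seq_in [FirstCountableTopology X] {x : X} (hx : x ∈ derivedSet (univ : Set X)) {G : Set X}
    (hG : IsOpen G) (hxG : x ∈ G) :
    ∃ y : ℕ → X, (∀ n, y n ∈ G ∧ y n ≠ x) ∧ Tendsto y atTop (𝓝 x) := by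
  have : x ∈ closure (G \ {x}) := by
    rw [mem_closure_iff_nhds]
    intro t ht
    rw [mem_derivedSet, accPt_iff_nhds] at hx
    obtain ⟨y, hy, hne⟩ := hx (t ∩ G) (inter_mem ht (hG.mem_nhds hxG))
    exact ⟨y, hy.1.1, hy.1.2, hne⟩
  obtain ⟨y, hy, ht⟩ := mem_closure_iff_seq_limit.1 this
  exact ⟨y, fun n => ⟨(hy n).1, (hy n).2⟩, ht⟩

lemma lf_prod {ι κ : Type*} {G : ι → Set X} {H : κ → Set X} (hG : LocallyFinite G)
    (hH : LocallyFinite H) : LocallyFinite fun p : ι × κ => G p.1 ×ˢ H p.2 := by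
  rintro ⟨x, y⟩
  obtain ⟨u, hu, fu⟩ := hG x
  obtain ⟨v, hv, fv⟩ := hH y
  refine ⟨u ×ˢ v, prod_mem_nhds hu hv, (fu.prod fv).subset ?_⟩
  rintro ⟨i, k⟩ ⟨⟨a, b⟩, ⟨h1, h2⟩, h3, h4⟩
  exact ⟨⟨a, h1, h3⟩, ⟨b, h2, h4⟩⟩

lemma not_unc [T2Space X] [FirstCountableTopology X] (h : AllNormal X) {S : Set X}
    (hS : S ⊆ derivedSet univ) {G : S → Set X} (hG : Exp S G) : S.Countable := by
  by_contra hunc
  obtain ⟨h1, h2, h3⟩ := hG
  let T := (Ordinal.omega.{u} 1).ToType
  have cT : Cardinal.mk T = Cardinal.aleph 1 := by simp [T]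
  have uT : ¬ (univ : Set T).Countable := by
    rw [← Cardinal.le_aleph0_iff_set_countable, Cardinal.mk_univ, cT, not_le]
    exact Cardinal.aleph0_lt_aleph_one
  have cI : ∀ b : T, (Iio b).Countable := fun b => by
    rw [← Cardinal.le_aleph0_iff_set_countable, ← Order.lt_succ_iff, Cardinal.succ_aleph0]
    have := Cardinal.mk_Iio_lt b (by simp [T])
    rwa [cT] at this
  have hle : Cardinal.mk (T × ULift.{u} Bool) ≤ Cardinal.mk S := by
    rw [← Cardinal.le_aleph0_iff_set_countable, not_le, ← Order.succ_le_iff,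
      Cardinal.succ_aleph0] at hunc
    refine le_trans (le_of_eq ?_) hunc
    rw [Cardinal.mk_prod, Cardinal.lift_id, Cardinal.lift_id, cT]
    refine Cardinal.mul_eq_left (Cardinal.aleph0_le_aleph 1) ?_ (by simp)
    exact (Cardinal.lt_aleph0_of_finite _).le.trans (Cardinal.aleph0_le_aleph 1)
  obtain ⟨φ⟩ := hle
  choose y hy ty using fun s : S => seq_in (hS s.2) (h1 s).1 (h1 s).2
  choose e he using fun b : T => countable_iff_exists_injOn.1 (cI b)
  let a : T → S := fun t => φ (t, ⟨false⟩)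
  let b : T → S := fun t => φ (t, ⟨true⟩)
  have ia : Function.Injective a := fun s t h => (Prod.ext_iff.1 (φ.injective h)).1
  have ib : Function.Injective b := fun s t h => (Prod.ext_iff.1 (φ.injective h)).1
  have ab : ∀ s t, a s ≠ b t := fun s t h => by simpa using (Prod.ext_iff.1 (φ.injective h)).2
  have same : ∀ s t z, z ∈ G s → z ∈ G t → s = t := fun s t z p q => by
    by_contra hne
    exact disjoint_left.1 (h2 hne) p q
  let P := {p : T × T // p.2 < p.1}
  let pt : P → X × X := fun p => (y (b p.1.1) (e p.1.1 p.1.2), y (a p.1.2) (e p.1.1 p.1.2))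
  have cR : IsClosed (⋃ p : P, ({pt p} : Set (X × X))) := by
    refine LocallyFinite.isClosed_iUnion ?_ fun _ => isClosed_singleton
    refine ((lf_prod (h3.comp_injective ib) (h3.comp_injective ia)).comp_injective
      (Subtype.val_injective (p := fun p : T × T => p.2 < p.1))).subset fun p => ?_
    exact singleton_subset_iff.2 ⟨(hy _ _).1, (hy _ _).1⟩
  have cl : ∀ c : T → S, Function.Injective c → IsClosed (⋃ t, ({(c t).1} : Set X)) := fun c hc =>
    ((h3.comp_injective hc).subset fun t => singleton_subset_iff.2 (h1 _).2).isClosed_iUnion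
      fun _ => isClosed_singleton
  obtain ⟨U, V, oU, oV, sU, sV, hUV⟩ := bad h cR (by
      intro x z w p q
      obtain ⟨p, hp⟩ := mem_iUnion.1 p
      obtain ⟨q, hq⟩ := mem_iUnion.1 q
      have e1 : z = y _ _ := (Prod.ext_iff.1 hp).2
      have e2 : z = y _ _ := (Prod.ext_iff.1 hq).1
      exact ab _ _ (same _ _ z (e1 ▸ (hy _ _).1) (e2 ▸ (hy _ _).1))) (cl a ia) (cl b ib) (by
      refine disjoint_left.2 fun z p q => ?_
      obtain ⟨p, hp⟩ := mem_iUnion.1 p
      obtain ⟨q, hq⟩ := mem_iUnion.1 q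
      exact ab p q (Subtype.ext (hp.symm.trans hq))) (by
      intro z x p q
      obtain ⟨p, hp⟩ := mem_iUnion.1 p
      obtain ⟨q, hq⟩ := mem_iUnion.1 q
      have e1 : x = y _ _ := (Prod.ext_iff.1 hq).2
      have e2 : x = _ := hp
      have := same _ _ x (e1 ▸ (hy _ _).1) (e2 ▸ (h1 _).2)
      exact (hy _ _).2 (e1.symm.trans (e2.trans (congrArg Subtype.val this.symm)))) (by
      intro z x p q
      obtain ⟨p, hp⟩ := mem_iUnion.1 p
      obtain ⟨q, hq⟩ := mem_iUnion.1 q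
      have e1 : x = y _ _ := (Prod.ext_iff.1 hq).1
      have e2 : x = _ := hp
      have := same _ _ x (e1 ▸ (hy _ _).1) (e2 ▸ (h1 _).2)
      exact (hy _ _).2 (e1.symm.trans (e2.trans (congrArg Subtype.val this.symm))))
  have hm : ∀ t : T, ∃ n, ∀ m ≥ n, y (a t) m ∈ U ∧ y (b t) m ∈ V := fun t =>
    eventually_atTop.1 (((ty _).eventually (oU.mem_nhds (sU (mem_iUnion.2 ⟨t, rfl⟩)))).and
      ((ty _).eventually (oV.mem_nhds (sV (mem_iUnion.2 ⟨t, rfl⟩)))))
  choose g hg using hm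
  obtain ⟨n, hn⟩ : ∃ n, ¬ {t | g t = n}.Countable := by
    by_contra hc
    push Not at hc
    exact uT ((countable_iUnion hc).mono fun t _ => mem_iUnion.2 ⟨g t, rfl⟩)
  obtain ⟨M, hM, cM, iM⟩ := (show {t | g t = n}.Infinite from fun hf => hn hf.countable).exists_subset_countable_infinite
  obtain ⟨β, hβ, hb⟩ : ∃ β, g β = n ∧ ∀ α ∈ M, α < β := by
    by_contra hc
    push Not at hc
    refine hn ((cM.biUnion fun α _ => (cI α).insert α).mono fun t ht => ?_)
    obtain ⟨α, h1, h2⟩ := hc t ht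
    exact mem_biUnion h1 (h2.eq_or_lt)
  obtain ⟨α, hα, hle⟩ : ∃ α ∈ M, n ≤ e β α := by
    by_contra hc
    push Not at hc
    exact iM (Finite.of_injOn (f := e β) (t := Iio n) hc ((he β).mono hb) (finite_Iio n))
  exact hUV _ _ (mem_iUnion.2 ⟨⟨(β, α), hb α hα⟩, rfl⟩) (hg α _ ((hM hα).le.trans hle)).1
    (hg β _ (hβ.le.trans hle)).2

lemma lc_of [T2Space X] [ParacompactSpace X] [FirstCountableTopology X] (h : AllNormal X)
    (hK : ¬ IsCompact (derivedSet (univ : Set X))) : LocallyCompactSpace X := by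
  suffices WeaklyLocallyCompactSpace X from inferInstance
  refine ⟨fun p => ?_⟩
  by_contra hp
  push Not at hp
  obtain ⟨S, hS, G, ⟨h1, h2, h3⟩, iS⟩ := disc_inf closed_der hK
  obtain ⟨O, hO, fO⟩ := h3 p
  have := iS.to_subtype
  let x : ℕ ↪ S := (fO.infinite_compl.natEmbedding _).trans (Function.Embedding.subtype _)
  have xO : ∀ k z, z ∈ G (x k) → z ∉ O := fun k z p q =>
    (fO.infinite_compl.natEmbedding _ k).2 ⟨z, p, q⟩
  obtain ⟨Bs, hBs⟩ := (𝓝 p).exists_antitone_basis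
  have hW : ∀ k, ∃ w : ℕ → X, (∀ j, w j ∈ Bs k ∩ O ∧ w j ≠ p) ∧
      LocallyFinite fun j => ({w j} : Set X) := by
    intro k
    obtain ⟨W, W1, W2, W3⟩ := exists_mem_nhds_isClosed_subset (inter_mem (hBs.mem k) hO)
    obtain ⟨S', hS', G', ⟨g1, -, g3⟩, iS'⟩ := disc_inf W2 fun hc => hp W hc W1
    have := iS'.to_subtype
    have : {s : S' | s.1 = p}.Finite := Subsingleton.finite fun s hs t ht => Subtype.ext (hs.trans ht.symm)
    let w : ℕ ↪ S' := (this.infinite_compl.natEmbedding _).trans (Function.Embedding.subtype _)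
    refine ⟨fun j => w j, fun j => ⟨W3 (hS' (w j).2), (this.infinite_compl.natEmbedding _ j).2⟩, ?_⟩
    exact (g3.comp_injective w.injective).subset fun j => singleton_subset_iff.2 (g1 _).2
  choose w hw lw using hW
  choose y hy ty using fun s : S => seq_in (hS s.2) (h1 s).1 (h1 s).2
  have same : ∀ s t z, z ∈ G s → z ∈ G t → s = t := fun s t z p q => by
    by_contra hne
    exact disjoint_left.1 (h2 hne) p q
  have cR : IsClosed (⋃ k, ⋃ j, ({(y (x k) j, w k j)} : Set (X × X))) := by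
    refine LocallyFinite.isClosed_iUnion ?_ fun k => LocallyFinite.isClosed_iUnion ?_
      fun _ => isClosed_singleton
    · refine ((h3.comp_injective x.injective).preimage_continuous continuous_fst).subset fun k => ?_
      exact iUnion_subset fun j => singleton_subset_iff.2 (hy _ _).1
    · exact ((lw k).preimage_continuous continuous_snd).subset fun j => singleton_subset_iff.2 rfl
  have cl : IsClosed (⋃ k, ({(x k).1} : Set X)) :=
    ((h3.comp_injective x.injective).subset fun t => singleton_subset_iff.2 (h1 _).2).isClosed_iUnion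
      fun _ => isClosed_singleton
  obtain ⟨U, V, oU, oV, sU, sV, hUV⟩ := bad h cR (by
      intro a z c p q
      simp only [mem_iUnion, mem_singleton_iff, Prod.mk.injEq] at p q
      obtain ⟨k, j, -, e1⟩ := p
      obtain ⟨k', j', e2, -⟩ := q
      exact xO k' z (e2 ▸ (hy _ _).1) (e1 ▸ (hw _ _).1.2)) (isClosed_singleton (x := p)) cl (by
      refine disjoint_left.2 fun z p q => ?_
      obtain ⟨k, hk⟩ := mem_iUnion.1 q
      have e1 : z = _ := hk
      have e2 : z = _ := p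
      exact xO k z (e1 ▸ (h1 _).2) (e2 ▸ mem_of_mem_nhds hO)) (by
      intro z a p q
      simp only [mem_iUnion, mem_singleton_iff, Prod.mk.injEq] at p q
      obtain ⟨k, j, -, e1⟩ := q
      exact (hw k j).2 (e1.symm.trans p)) (by
      intro z a p q
      simp only [mem_iUnion, mem_singleton_iff, Prod.mk.injEq] at p q
      obtain ⟨k, j, e1, -⟩ := q
      obtain ⟨l, e2⟩ := p
      have := same _ _ a (e1 ▸ (hy _ _).1) (e2 ▸ (h1 _).2)
      exact (hy _ _).2 (e1.symm.trans (e2.trans (congrArg Subtype.val this.symm))))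
  obtain ⟨k, hk⟩ := hBs.mem_iff.1 (oU.mem_nhds (sU rfl))
  obtain ⟨j, hj⟩ := ((ty (x k)).eventually (oV.mem_nhds (sV (mem_iUnion.2 ⟨k, rfl⟩)))).exists
  exact hUV _ _ (mem_iUnion.2 ⟨k, mem_iUnion.2 ⟨j, rfl⟩⟩) (hk (hw k j).1.1) hj

lemma nec [T2Space X] [ParacompactSpace X] [FirstCountableTopology X] (h : AllNormal X) :
    IsCompact (derivedSet (univ : Set X)) ∨
      (LocallyCompactSpace X ∧ IsSigmaCompact (derivedSet (univ : Set X))) := by
  by_cases hK : IsCompact (derivedSet (univ : Set X))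
  · exact Or.inl hK
  have := lc_of h hK
  refine Or.inr ⟨this, ?_⟩
  by_contra hs
  obtain ⟨S, hS, G, hG, hu⟩ := disc_unc closed_der hs
  exact hu (not_unc h hS hG)

end Pool.Agent.H84.Pre
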