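import Pool.Agent.H84.PrettyDefs

set_option autoImplicit false

namespace Pool.Agent.H84.Pretty
open Set Filter Topology TopologicalSpace

/-- A family of subsets of `S` closed under finite intersections and countable unions and
containing the singletons. -/
structure SLat (S : Type) where
  L : Set (Set S)
  inter : ∀ a ∈ L, ∀ b ∈ L, a ∩ b ∈ L
  sUnion : ∀ C ⊆ L, C.Countable → ⋃₀ C ∈ L
  single : ∀ s, {s} ∈ L

variable {S : Type}

/-- Maximal filters of the lattice. -/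
@[ext] structure Pt (Λ : SLat S) where
  F : Filter S
  ne : F.NeBot
  basis : ∀ s ∈ F, ∃ a ∈ Λ.L, a ∈ F ∧ a ⊆ s
  dec : ∀ a ∈ Λ.L, a ∈ F ∨ aᶜ ∈ F

variable {Λ : SLat S}

lemma SLat.empty_mem (Λ : SLat S) : ∅ ∈ Λ.L := by
  simpa using Λ.sUnion ∅ (empty_subset _) countable_empty

lemma SLat.countable_mem (Λ : SLat S) {c : Set S} (hc : c.Countable) : c ∈ Λ.L := by
  have h := Λ.sUnion ((fun s => ({s} : Set S)) '' c)
    (by rintro _ ⟨s, -, rfl⟩; exact Λ.single s) (hc.image _)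
  simpa using h

instance (p : Pt Λ) : p.F.NeBot := p.ne

def O (Λ : SLat S) (s : Set S) : Set (Pt Λ) := {p | s ∈ p.F}

lemma mem_O {s : Set S} {p : Pt Λ} : p ∈ O Λ s ↔ s ∈ p.F := Iff.rfl

lemma O_inter (s t : Set S) : O Λ (s ∩ t) = O Λ s ∩ O Λ t := by
  ext p; simp [mem_O]

lemma O_univ : O Λ univ = univ := by ext p; simp [mem_O]

lemma O_mono {s t : Set S} (h : s ⊆ t) : O Λ s ⊆ O Λ t := fun _ hp => mem_of_superset hp h

instance : TopologicalSpace (Pt Λ) := generateFrom (range (O Λ))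

lemma basis_range : IsTopologicalBasis (range (O Λ)) := by
  refine ⟨?_, ?_, rfl⟩
  · rintro _ ⟨s, rfl⟩ _ ⟨t, rfl⟩ p hp
    exact ⟨_, ⟨s ∩ t, rfl⟩, by rwa [O_inter], by rw [O_inter]⟩
  · exact sUnion_eq_univ_iff.2 fun p => ⟨_, ⟨univ, rfl⟩, univ_mem⟩

lemma isOpen_O (s : Set S) : IsOpen (O Λ s) := basis_range.isOpen ⟨s, rfl⟩

lemma mem_nhds_iff' {p : Pt Λ} {U : Set (Pt Λ)} : U ∈ 𝓝 p ↔ ∃ s ∈ p.F, O Λ s ⊆ U := by
  rw [basis_range.mem_nhds_iff]
  constructor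
  · rintro ⟨_, ⟨s, rfl⟩, h1, h2⟩; exact ⟨s, h1, h2⟩
  · rintro ⟨s, h1, h2⟩; exact ⟨_, ⟨s, rfl⟩, h1, h2⟩

lemma O_mem_nhds {p : Pt Λ} {s : Set S} (h : s ∈ p.F) : O Λ s ∈ 𝓝 p :=
  mem_nhds_iff'.2 ⟨s, h, Subset.rfl⟩

lemma basis_L : IsTopologicalBasis (O Λ '' Λ.L) := by
  refine isTopologicalBasis_of_isOpen_of_nhds ?_ ?_
  · rintro _ ⟨a, -, rfl⟩; exact isOpen_O a
  · intro p U hp hU
    obtain ⟨s, hs, hsU⟩ := mem_nhds_iff'.1 (hU.mem_nhds hp)
    obtain ⟨a, ha, hap, has⟩ := p.basis s hs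
    exact ⟨_, ⟨a, ha, rfl⟩, hap, (O_mono has).trans hsU⟩

lemma not_both (p : Pt Λ) {s : Set S} (h : s ∈ p.F) (h' : sᶜ ∈ p.F) : False := by
  have := inter_mem h h'
  rw [inter_compl_self] at this
  exact empty_notMem p.F this

lemma isClopen_O_of_dec {s : Set S} (h : ∀ p : Pt Λ, s ∈ p.F ∨ sᶜ ∈ p.F) : IsClopen (O Λ s) := by
  refine ⟨?_, isOpen_O s⟩
  have : (O Λ s)ᶜ = O Λ sᶜ := by
    ext p
    constructor
    · intro hp; exact (h p).resolve_left hp
    · intro hp hq; exact not_both p hq hp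
  rw [← isOpen_compl_iff, this]; exact isOpen_O _

lemma isClopen_O {a : Set S} (ha : a ∈ Λ.L) : IsClopen (O Λ a) :=
  isClopen_O_of_dec fun p => p.dec a ha

lemma basis_clopen : IsTopologicalBasis {s : Set (Pt Λ) | IsClopen s} := by
  refine isTopologicalBasis_of_isOpen_of_nhds (fun _ h => h.isOpen) ?_
  intro p U hp hU
  obtain ⟨_, ⟨a, ha, rfl⟩, h1, h2⟩ := basis_L.exists_subset_of_mem_open hp hU
  exact ⟨_, isClopen_O ha, h1, h2⟩

instance : T0Space (Pt Λ) := by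
  refine (t0Space_iff_inseparable _).2 fun p q h => ?_
  ext s
  exact (inseparable_iff_forall_isOpen.1 h) _ (isOpen_O s)

instance : CompletelyRegularSpace (Pt Λ) :=
  CompletelyRegularSpace.of_isTopologicalBasis_clopens basis_clopen

instance : T35Space (Pt Λ) := {}

/-- principal points -/
def ι (Λ : SLat S) (x : S) : Pt Λ where
  F := pure x
  ne := inferInstance
  basis := fun s hs => ⟨{x}, Λ.single x, by simp, by simpa using hs⟩
  dec := fun a _ => by simpa using em (x ∈ a)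

@[simp] lemma ι_mem_O {x : S} {s : Set S} : ι Λ x ∈ O Λ s ↔ x ∈ s := by simp [mem_O, ι]

lemma tendsto_ι (p : Pt Λ) : Tendsto (ι Λ) p.F (𝓝 p) := by
  intro U hU
  obtain ⟨s, hs, hsU⟩ := mem_nhds_iff'.1 hU
  exact mem_map.2 (mem_of_superset hs fun x hx => hsU (ι_mem_O.2 hx))

lemma disjoint_O {s t : Set S} : Disjoint (O Λ s) (O Λ t) ↔ Disjoint s t := by
  constructor
  · intro h
    exact disjoint_left.2 fun x hx hx' => disjoint_left.1 h (ι_mem_O.2 hx) (ι_mem_O.2 hx')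
  · intro h
    refine disjoint_left.2 fun p hp hq => ?_
    have := inter_mem hp hq
    rw [h.inter_eq] at this
    exact empty_notMem p.F this

lemma preimage_mem_of_isOpen {U : Set (Pt Λ)} (hU : IsOpen U) {p : Pt Λ} (hp : p ∈ U) :
    ι Λ ⁻¹' U ∈ p.F := tendsto_ι p (hU.mem_nhds hp)

lemma mem_closure_open {U : Set (Pt Λ)} (hU : IsOpen U) {p : Pt Λ} :
    p ∈ closure U ↔ (ι Λ ⁻¹' U)ᶜ ∉ p.F := by
  constructor
  · intro h h'
    obtain ⟨q, hq1, hq2⟩ := mem_closure_iff_nhds.1 h _ (O_mem_nhds h')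
    exact not_both q (preimage_mem_of_isOpen hU hq2) hq1
  · intro h
    refine mem_closure_iff_nhds.2 fun V hV => ?_
    by_contra hne
    apply h
    refine mem_of_superset (tendsto_ι p hV) fun x hx hxU => hne ⟨_, hx, hxU⟩

lemma exists_extend {Y : Type*} [TopologicalSpace Y] [T3Space Y] (g : S → Y)
    (hg : ∀ p : Pt Λ, ∃ y, Tendsto g p.F (𝓝 y)) :
    ∃ G : Pt Λ → Y, Continuous G ∧ ∀ p : Pt Λ, Tendsto g p.F (𝓝 (G p)) := by
  choose G hG using hg
  refine ⟨G, continuous_iff_continuousAt.2 fun p => ?_, hG⟩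
  refine ((closed_nhds_basis (G p)).tendsto_right_iff).2 ?_
  rintro W ⟨hW, hWc⟩
  filter_upwards [O_mem_nhds (hG p hW)] with q hq
  exact hWc.mem_of_tendsto (hG q) hq

lemma extend_ι {Y : Type*} [TopologicalSpace Y] [T2Space Y] {g : S → Y} {G : Pt Λ → Y}
    (hG : ∀ p : Pt Λ, Tendsto g p.F (𝓝 (G p))) (x : S) : G (ι Λ x) = g x :=
  tendsto_nhds_unique (hG (ι Λ x)) (tendsto_pure_nhds g x)

lemma exists_pt [Nonempty S] {C : Set (Set S)} (hC : C ⊆ Λ.L)
    (hf : ∀ t ⊆ C, t.Finite → (⋂₀ t).Nonempty) : ∃ p : Pt Λ, ∀ a ∈ C, a ∈ p.F := by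
  let Φ : Set (Set (Set S)) := {x | x ⊆ Λ.L ∧ ∀ t ⊆ x, t.Finite → (⋂₀ t).Nonempty}
  have hΦ : Order.IsOfFiniteCharacter Φ := by
    intro x
    constructor
    · rintro ⟨h1, h2⟩ y hy _
      exact ⟨hy.trans h1, fun t ht => h2 t (ht.trans hy)⟩
    · intro h
      refine ⟨fun a ha => (h {a} (by simpa using ha) (finite_singleton a)).1 rfl, ?_⟩
      intro t ht htf
      exact (h t ht htf).2 t Subset.rfl htf
  obtain ⟨m, hCm, hm⟩ := hΦ.exists_maximal (x := C) ⟨hC, hf⟩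
  have hne : (generate m).NeBot := generate_neBot_iff.2 hm.1.2
  have hdec : ∀ a ∈ Λ.L, a ∈ generate m ∨ aᶜ ∈ generate m := by
    intro a ha
    by_contra hcon
    push Not at hcon
    have h1 : insert a m ∈ Φ := by
      refine ⟨insert_subset ha hm.1.1, ?_⟩
      rw [← generate_neBot_iff, insert_eq, generate_union, generate_singleton, inf_comm]
      exact inf_principal_neBot_iff.2 fun U hU => by
        by_contra hU'
        apply hcon.2
        refine mem_of_superset hU fun x hx hxa => hU' ⟨x, hx, hxa⟩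
    have h2 := hm.2 h1 (subset_insert a m)
    exact hcon.1 (mem_generate_of_mem (h2 (mem_insert a m)))
  have hex : ∃ a ∈ Λ.L, a ∈ generate m := by
    by_contra hcon
    push Not at hcon
    have hm0 : m = ∅ := by
      ext a
      simp only [mem_empty_iff_false, iff_false]
      intro ha
      exact hcon a (hm.1.1 ha) (mem_generate_of_mem ha)
    obtain ⟨x⟩ := ‹Nonempty S›
    have := (hdec _ (Λ.single x)).resolve_left (hcon _ (Λ.single x))
    rw [hm0, generate_empty, mem_top_iff_forall] at this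
    exact this x rfl
  refine ⟨⟨generate m, hne, ?_, hdec⟩, fun a ha => mem_generate_of_mem (hCm ha)⟩
  intro s hs
  induction hs with
  | basic h => exact ⟨_, hm.1.1 h, mem_generate_of_mem h, Subset.rfl⟩
  | univ => obtain ⟨a, h1, h2⟩ := hex; exact ⟨a, h1, h2, subset_univ _⟩
  | superset _ h2 ih => obtain ⟨a, h3, h4, h5⟩ := ih; exact ⟨a, h3, h4, h5.trans h2⟩
  | inter _ _ ih1 ih2 =>
    obtain ⟨a, h3, h4, h5⟩ := ih1
    obtain ⟨b, h6, h7, h8⟩ := ih2
    exact ⟨a ∩ b, Λ.inter a h3 b h6, inter_mem h4 h7, inter_subset_inter h5 h8⟩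

theorem isPrettyBase (Λ : SLat S) : IsPrettyBase (O Λ '' Λ.L) := by
  refine ⟨basis_L, ?_, ?_⟩
  · rintro _ ⟨a, ha, rfl⟩; exact isClopen_O ha
  · intro C D hC hCc hD hdis
    choose! a ha hOa using hC
    refine ⟨O Λ (⋃₀ (a '' C)), ⟨_, Λ.sUnion _ ?_ (hCc.image a), rfl⟩, ?_, ?_⟩
    · rintro _ ⟨U, hU, rfl⟩; exact ha hU
    · intro U hU
      rw [← hOa hU]
      exact O_mono (subset_sUnion_of_mem (mem_image_of_mem a hU))
    · intro V hV
      obtain ⟨e, -, rfl⟩ := hD hV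
      rw [disjoint_O, disjoint_sUnion_left]
      rintro _ ⟨U, hU, rfl⟩
      rw [← disjoint_O (Λ := Λ), hOa hU]
      exact hdis U hU _ hV

theorem isCocompactBase [Nonempty S] (Λ : SLat S) : IsCocompactBase (O Λ '' Λ.L) := by
  refine @compactSpace_generateFrom _ (generateFrom _) _ rfl ?_
  intro P hP hcov
  have hP' : ∀ U ∈ P, ∃ a ∈ Λ.L, U = (O Λ a)ᶜ := by
    intro U hU
    obtain ⟨_, ⟨a, ha, rfl⟩, rfl⟩ := hP hU
    exact ⟨a, ha, by simp only [(isClopen_O ha).isClosed.closure_eq]⟩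
  choose! a ha hOa using hP'
  by_contra hcon
  push Not at hcon
  obtain ⟨p, hp⟩ := exists_pt (Λ := Λ) (C := a '' P) (by rintro _ ⟨U, hU, rfl⟩; exact ha U hU) (by
    intro t ht htf
    obtain ⟨Q, hQ, hQf, rfl⟩ := htf.exists_subset_finite_image_eq ht
    have h1 := hcon Q hQ hQf
    obtain ⟨q, hq⟩ := (ne_univ_iff_exists_notMem _).1 h1
    refine q.ne.nonempty_of_mem ((sInter_mem htf).2 ?_)
    rintro _ ⟨U, hU, rfl⟩
    by_contra hq'
    apply hq
    refine ⟨U, hU, ?_⟩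
    rw [hOa U (hQ hU)]
    exact hq')
  have : p ∈ ⋃₀ P := by rw [hcov]; trivial
  obtain ⟨U, hU, hpU⟩ := this
  rw [hOa U hU] at hpU
  exact hpU (hp _ (mem_image_of_mem a hU))

theorem hasCocompactPrettyBase [Nonempty S] (Λ : SLat S) : HasCocompactPrettyBase (Pt Λ) :=
  ⟨_, isPrettyBase Λ, isCocompactBase Λ⟩

end Pool.Agent.H84.Pretty
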