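import Pool.Agent.H84.Pretty

set_option autoImplicit false

namespace Pool.Agent.H84.Pretty
open Set Filter Topology TopologicalSpace

variable {S : Type}

/-- countable sets together with the members of a filter -/
def filLat (𝓕 : Filter S) : SLat S where
  L := {a | a.Countable ∨ a ∈ 𝓕}
  inter := by
    rintro a (ha | ha) b (hb | hb)
    · exact Or.inl (ha.mono inter_subset_left)
    · exact Or.inl (ha.mono inter_subset_left)
    · exact Or.inl (hb.mono inter_subset_right)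
    · exact Or.inr (inter_mem ha hb)
  sUnion := by
    intro C hC hCc
    by_cases h : ∃ a ∈ C, a ∈ 𝓕
    · obtain ⟨a, ha, haF⟩ := h
      exact Or.inr (mem_of_superset haF (subset_sUnion_of_mem ha))
    · push Not at h
      exact Or.inl (hCc.sUnion fun a ha => (hC ha).resolve_right (h a ha))
  single := fun s => Or.inl (countable_singleton s)

/-- the distinguished point -/
def pt (𝓕 : Filter S) [h : 𝓕.NeBot] (hc : 𝓕 ≤ cocountable) : Pt (filLat 𝓕) where
  F := 𝓕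
  ne := h
  basis := fun s hs => ⟨s, Or.inr hs, hs, Subset.rfl⟩
  dec := by
    rintro a (ha | ha)
    · exact Or.inr (hc (by simpa using ha))
    · exact Or.inl ha

lemma dec_of_countable {Λ : SLat S} (q : Pt Λ) {c : Set S} (hc : c.Countable) (hq : c ∈ q.F)
    (s : Set S) : s ∈ q.F ∨ sᶜ ∈ q.F := by
  rcases q.dec (c ∩ s) (Λ.countable_mem (hc.mono inter_subset_left)) with h | h
  · exact Or.inl (mem_of_superset h inter_subset_right)
  · refine Or.inr (mem_of_superset (inter_mem hq h) ?_)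
    rintro x ⟨h1, h2⟩ h3
    exact h2 ⟨h1, h3⟩

variable {𝓕 : Filter S} [𝓕.NeBot] (hc : 𝓕 ≤ cocountable)

lemma eq_pt_or (q : Pt (filLat 𝓕)) : q = pt 𝓕 hc ∨ ∃ c : Set S, c.Countable ∧ c ∈ q.F := by
  by_cases h : ∃ c : Set S, c.Countable ∧ c ∈ q.F
  · exact Or.inr h
  push Not at h
  left
  have h1 : ∀ s ∈ q.F, s ∈ 𝓕 := by
    intro s hs
    obtain ⟨a, ha | ha, haq, has⟩ := q.basis s hs
    · exact absurd haq (h a ha)
    · exact mem_of_superset ha has
  ext s
  refine ⟨h1 s, fun hs => ?_⟩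
  rcases q.dec s (Or.inr hs) with h2 | h2
  · exact h2
  · exact (not_both (pt 𝓕 hc) hs (h1 _ h2)).elim

lemma exists_split {α : Type} {A : Set α} (hA : ¬ A.Countable) :
    ∃ B ⊆ A, ¬ B.Countable ∧ ¬ (A \ B).Countable := by
  have hinf : Infinite A := by
    by_contra h
    rw [not_infinite_iff_finite] at h
    exact hA (Set.toFinite A).countable
  have : Cardinal.mk (A ⊕ A) = Cardinal.mk A := by
    simp [Cardinal.add_eq_self (Cardinal.aleph0_le_mk A)]
  obtain ⟨e⟩ := Cardinal.eq.1 this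
  have key : ∀ f : A → α, Function.Injective f → ¬ (range f).Countable := by
    intro f hf h
    apply hA
    have : Countable (range f) := h.to_subtype
    have : Countable A := (Equiv.ofInjective f hf).countable_iff.2 this
    exact countable_coe_iff.1 this
  refine ⟨range (fun x => (e (Sum.inl x) : α)), ?_, key _ ?_, ?_⟩
  · rintro _ ⟨x, rfl⟩; exact (e _).2
  · intro x y hxy
    simpa using e.injective (Subtype.ext hxy)
  · intro h
    refine key (fun x => (e (Sum.inr x) : α)) ?_ (h.mono ?_)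
    · intro x y hxy
      simpa using e.injective (Subtype.ext hxy)
    · rintro _ ⟨x, rfl⟩
      refine ⟨(e _).2, ?_⟩
      rintro ⟨y, hy⟩
      simpa using e.injective (Subtype.ext hy)

lemma compact_subset {K : Set (Pt (filLat 𝓕))} (hK : IsCompact K) (hp : pt 𝓕 hc ∉ K) :
    ∃ c : Set S, c.Countable ∧ K ⊆ O _ c := by
  refine hK.induction_on (p := fun K => ∃ c : Set S, c.Countable ∧ K ⊆ O _ c)
    ⟨∅, countable_empty, empty_subset _⟩ ?_ ?_ ?_
  · rintro s t hst ⟨c, h1, h2⟩; exact ⟨c, h1, hst.trans h2⟩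
  · rintro s t ⟨c, h1, h2⟩ ⟨d, h3, h4⟩
    exact ⟨c ∪ d, h1.union h3, union_subset (h2.trans (O_mono subset_union_left))
      (h4.trans (O_mono subset_union_right))⟩
  · intro q hq
    rcases eq_pt_or hc q with rfl | ⟨c, h1, h2⟩
    · exact absurd hq hp
    · exact ⟨O _ c, mem_nhdsWithin_of_mem_nhds (O_mem_nhds h2), c, h1, Subset.rfl⟩

/-- For an ultrafilter the distinguished point is isolated in every compact set. -/
lemma isolated_in_compact (hu : ∀ s : Set S, s ∈ 𝓕 ∨ sᶜ ∈ 𝓕) {K : Set (Pt (filLat 𝓕))}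
    (hK : IsCompact K) : ∃ c : Set S, c.Countable ∧ ∀ q ∈ K, q ≠ pt 𝓕 hc → c ∈ q.F := by
  have hall : ∀ (q : Pt (filLat 𝓕)) (s : Set S), s ∈ q.F ∨ sᶜ ∈ q.F := by
    intro q s
    rcases eq_pt_or hc q with rfl | ⟨c, h1, h2⟩
    · exact hu s
    · exact dec_of_countable q h1 h2 s
  let Φ : Set (Set (Set S)) :=
    {A | A ⊆ {c | c.Countable ∧ ∃ q ∈ K, c ∈ q.F} ∧ A.PairwiseDisjoint id}
  have hΦ : Order.IsOfFiniteCharacter Φ := by
    intro x
    constructor
    · rintro ⟨h1, h2⟩ y hy _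
      exact ⟨hy.trans h1, h2.subset hy⟩
    · intro h
      refine ⟨fun a ha => (h {a} (by simpa using ha) (finite_singleton a)).1 rfl, ?_⟩
      intro a ha b hb hab
      exact (h {a, b} (by simp [insert_subset_iff, ha, hb]) (toFinite _)).2 (by simp) (by simp) hab
  obtain ⟨A, -, hA⟩ := hΦ.exists_maximal (x := ∅) ⟨empty_subset _, pairwiseDisjoint_empty⟩
  have hAc : A.Countable := by
    by_contra hAc
    have main : ∀ B ⊆ A, ∀ s : Set S, sᶜ ∈ 𝓕 → (∀ c ∈ B, c ⊆ s) → B.Countable := by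
      intro B hB s hs hBs
      obtain ⟨d, hd, hKd⟩ := compact_subset hc
        (hK.inter_right (isClopen_O_of_dec (fun q => hall q s)).isClosed)
        (fun h => not_both (pt 𝓕 hc) h.2 hs)
      have : ∀ c ∈ B, ∃ x ∈ d, x ∈ c := by
        intro c hcB
        obtain ⟨-, q, hqK, hq⟩ := hA.1.1 (hB hcB)
        have h1 : d ∈ q.F := hKd ⟨hqK, mem_of_superset hq (hBs c hcB)⟩
        exact q.ne.nonempty_of_mem (inter_mem h1 hq)
      have hne : Nonempty S := 𝓕.nonempty_of_neBot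
      choose! x hxd hxc using this
      refine MapsTo.countable_of_injOn (f := x) (t := d) hxd ?_ hd
      intro a ha b hb hab
      by_contra hne
      exact disjoint_left.1 (hA.1.2 (hB ha) (hB hb) hne) (hxc a ha) (hab ▸ hxc b hb)
    obtain ⟨B, hBA, hB1, hB2⟩ := exists_split hAc
    rcases hu (⋃₀ B) with h | h
    · refine hB2 (main _ sdiff_subset (⋃₀ B)ᶜ (by simpa using h) ?_)
      rintro c ⟨hcA, hcB⟩ x hx ⟨b, hb, hxb⟩
      exact disjoint_left.1 (hA.1.2 hcA (hBA hb) (fun h => hcB (h ▸ hb))) hx hxb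
    · exact hB1 (main B hBA _ h fun c hcB => subset_sUnion_of_mem hcB)
  refine ⟨⋃₀ A, hAc.sUnion fun c hcA => (hA.1.1 hcA).1, fun q hq hne => ?_⟩
  rcases eq_pt_or hc q with h | ⟨c, h1, h2⟩
  · exact absurd h hne
  refine (hall q _).resolve_right fun h3 => ?_
  have h4 : c ∩ (⋃₀ A)ᶜ ∈ q.F := inter_mem h2 h3
  have h5 : insert (c ∩ (⋃₀ A)ᶜ) A ∈ Φ := by
    refine ⟨insert_subset ⟨h1.mono inter_subset_left, q, hq, h4⟩ hA.1.1, ?_⟩
    refine hA.1.2.insert fun b hb _ => ?_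
    exact disjoint_left.2 fun x hx hxb => hx.2 ⟨b, hb, hxb⟩
  have h6 := hA.2 h5 (subset_insert _ _) (mem_insert _ _)
  obtain ⟨x, hx⟩ := q.ne.nonempty_of_mem h4
  exact hx.2 ⟨_, h6, hx⟩

lemma pt_mem_closure : pt 𝓕 hc ∈ closure ({pt 𝓕 hc}ᶜ : Set (Pt (filLat 𝓕))) := by
  refine mem_closure_iff_nhds.2 fun V hV => ?_
  obtain ⟨x, hx⟩ := Filter.nonempty_of_mem (f := 𝓕) (tendsto_ι _ hV)
  refine ⟨_, hx, fun h => ?_⟩
  have h1 : ({x} : Set S) ∈ (pt 𝓕 hc).F := by
    rw [← mem_singleton_iff.1 h]; simp [ι]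
  exact not_both (pt 𝓕 hc) h1 (hc (by simp))

lemma kclosed (hu : ∀ s : Set S, s ∈ 𝓕 ∨ sᶜ ∈ 𝓕) {K : Set (Pt (filLat 𝓕))}
    (hK : IsCompact K) : IsClosed (K ∩ {pt 𝓕 hc}ᶜ) := by
  obtain ⟨c, h1, h2⟩ := isolated_in_compact hc hu hK
  have : K ∩ {pt 𝓕 hc}ᶜ = K ∩ O _ c := by
    ext q
    constructor
    · rintro ⟨h3, h4⟩; exact ⟨h3, h2 q h3 h4⟩
    · rintro ⟨h3, h4⟩
      refine ⟨h3, fun h5 => ?_⟩
      rw [mem_singleton_iff.1 h5] at h4
      exact not_both (pt 𝓕 hc) h4 (hc (by simpa using h1))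
  rw [this]
  exact hK.isClosed.inter (isClopen_O (Or.inl h1)).isClosed

lemma not_isClosed_compl : ¬ IsClosed ({pt 𝓕 hc}ᶜ : Set (Pt (filLat 𝓕))) := fun h => by
  have := pt_mem_closure hc
  rw [h.closure_eq] at this
  exact this rfl

lemma no_compact_nhds (hu : ∀ s : Set S, s ∈ 𝓕 ∨ sᶜ ∈ 𝓕) {K : Set (Pt (filLat 𝓕))}
    (hK : IsCompact K) : K ∉ 𝓝 (pt 𝓕 hc) := by
  intro h
  have h1 : pt 𝓕 hc ∈ closure (K ∩ {pt 𝓕 hc}ᶜ) := by
    refine mem_closure_iff_nhds.2 fun V hV => ?_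
    obtain ⟨q, hq1, hq2⟩ := mem_closure_iff_nhds.1 (pt_mem_closure hc) _ (inter_mem hV h)
    exact ⟨q, hq1.1, hq1.2, hq2⟩
  rw [(kclosed hc hu hK).closure_eq] at h1
  exact h1.2 rfl

include hc in
lemma extremallyDisconnected (hu : ∀ s : Set S, s ∈ 𝓕 ∨ sᶜ ∈ 𝓕) :
    ExtremallyDisconnected (Pt (filLat 𝓕)) := by
  refine ⟨fun U hU => ?_⟩
  have : closure U = O _ (ι _ ⁻¹' U) := by
    ext q
    rw [mem_closure_open hU, mem_O]
    have hall : ι _ ⁻¹' U ∈ q.F ∨ (ι _ ⁻¹' U)ᶜ ∈ q.F := by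
      rcases eq_pt_or hc q with rfl | ⟨c, h1, h2⟩
      · exact hu _
      · exact dec_of_countable q h1 h2 _
    exact ⟨fun h => hall.resolve_right h, fun h h' => not_both q h h'⟩
  rw [this]; exact isOpen_O _

instance : (cocountable : Filter ℝ).NeBot := by
  refine forall_mem_nonempty_iff_neBot.1 fun s hs => ?_
  by_contra h
  rw [not_nonempty_iff_eq_empty] at h
  subst h
  exact Cardinal.not_countable_real (by rw [mem_cocountable, compl_empty] at hs; exact hs)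

/-- a uniform ultrafilter on the reals -/
noncomputable def 𝓤 : Ultrafilter ℝ := Ultrafilter.of cocountable

lemma 𝓤_le : (𝓤 : Filter ℝ) ≤ cocountable := Ultrafilter.of_le _

theorem exists_space : ∃ (X : Type) (_ : TopologicalSpace X), T35Space X ∧
    HasCocompactPrettyBase X ∧ ExtremallyDisconnected X ∧
    ∃ p : X, (∀ K, IsCompact K → K ∉ 𝓝 p) ∧ (∀ K, IsCompact K → IsClosed (K ∩ {p}ᶜ)) ∧
      ¬ IsClosed ({p}ᶜ : Set X) :=
  ⟨Pt (filLat (𝓤 : Filter ℝ)), inferInstance, inferInstance, hasCocompactPrettyBase _,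
    extremallyDisconnected 𝓤_le 𝓤.mem_or_compl_mem, pt _ 𝓤_le,
    fun _ hK => no_compact_nhds 𝓤_le 𝓤.mem_or_compl_mem hK,
    fun _ hK => kclosed 𝓤_le 𝓤.mem_or_compl_mem hK, not_isClosed_compl 𝓤_le⟩

end Pool.Agent.H84.Pretty
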