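import Pool.Agent.H84.PrettyA

set_option autoImplicit false

namespace Pool.Agent.H84.Pretty
open Set Filter Topology TopologicalSpace

abbrev SB := Option ℕ × ℝ

instance : (cocountable : Filter SB).NeBot := by
  refine forall_mem_nonempty_iff_neBot.1 fun s hs => ?_
  by_contra h
  rw [not_nonempty_iff_eq_empty] at h
  subst h
  rw [mem_cocountable, compl_empty] at hs
  have : Countable SB := countable_univ_iff.1 hs
  have h2 : Function.Injective (fun x : ℝ => ((none, x) : SB)) := fun x y h => by simpa using h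
  exact Cardinal.not_countable_real (countable_univ_iff.2 h2.countable)

lemma exists_notMem (o : Option ℕ) {s : Set SB} (hs : s ∈ (cocountable : Filter SB)) :
    ∃ x : ℝ, (o, x) ∈ s := by
  by_contra h
  push Not at h
  rw [mem_cocountable] at hs
  have h2 : Function.Injective (fun x : ℝ => ((o, x) : SB)) := fun x y h => by simpa using h
  exact Cardinal.not_countable_real ((hs.preimage_of_injOn h2.injOn).mono fun x _ => h x)

noncomputable def H0 : Filter SB := cocountable ⊓ comap Prod.fst (map some atTop)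

instance : H0.NeBot := by
  refine inf_neBot_iff.2 fun s hs t ht => ?_
  obtain ⟨u, hu, hut⟩ := mem_comap.1 ht
  obtain ⟨n, hn⟩ := (mem_map.1 hu : _ ∈ (atTop : Filter ℕ)) |> Filter.nonempty_of_mem
  obtain ⟨x, hx⟩ := exists_notMem (some n) hs
  exact ⟨_, hx, hut hn⟩

noncomputable def UB : Ultrafilter SB := Ultrafilter.of H0

noncomputable def GB : Filter SB := cocountable ⊓ 𝓟 {x | x.1 = none}

noncomputable def FB : Filter SB := (UB : Filter SB) ⊔ GB

lemma UB_le : (UB : Filter SB) ≤ H0 := Ultrafilter.of_le _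

instance : FB.NeBot := (inferInstance : (UB : Filter SB).NeBot).mono le_sup_left

lemma FB_le : FB ≤ cocountable := sup_le (UB_le.trans inf_le_left) inf_le_left

instance : CountableInterFilter (cocountable : Filter SB) :=
  ⟨fun C hC h => by
    rw [mem_cocountable, compl_sInter]
    refine (hC.image _).sUnion ?_
    rintro _ ⟨s, hs, rfl⟩
    exact mem_cocountable.1 (h s hs)⟩

instance : CountableInterFilter GB := by unfold GB; infer_instance

abbrev XB := Pt (filLat FB)

lemma an_compl (n : ℕ) : {x : SB | x.1 = some n}ᶜ ∈ FB := by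
  refine mem_sup.2 ⟨UB_le (mem_inf_of_right (mem_comap.2 ⟨{some n}ᶜ, ?_, fun x hx => hx⟩)), ?_⟩
  · refine mem_map.2 ?_
    filter_upwards [eventually_gt_atTop n] with m hm
    simpa using hm.ne'
  · exact mem_inf_of_right (fun x (hx : x.1 = none) h => by simp [hx] at h)

lemma some_mem : {x : SB | ∃ n, x.1 = some n} ∈ (UB : Filter SB) :=
  UB_le (mem_inf_of_right (mem_comap.2 ⟨range some, mem_map.2 (by simp), fun _ ⟨n, hn⟩ =>
    ⟨n, hn.symm⟩⟩))

lemma an_clopen (n : ℕ) : IsClopen (O (filLat FB) {x : SB | x.1 = some n}) := by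
  refine isClopen_O_of_dec fun q => ?_
  rcases eq_pt_or FB_le q with rfl | ⟨c, h1, h2⟩
  · exact Or.inr (an_compl n)
  · exact dec_of_countable q h1 h2 _

lemma not_open : ¬ IsOpen (closure (⋃ n, O (filLat FB) {x : SB | x.1 = some n})) := by
  intro h
  have hU : IsOpen (⋃ n, O (filLat FB) {x : SB | x.1 = some n}) :=
    isOpen_iUnion fun n => isOpen_O _
  have hpre : ι (filLat FB) ⁻¹' (⋃ n, O (filLat FB) {x : SB | x.1 = some n}) =
      {x : SB | ∃ n, x.1 = some n} := by
    ext x; simp
  have h1 : pt FB FB_le ∈ closure (⋃ n, O (filLat FB) {x : SB | x.1 = some n}) := by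
    rw [mem_closure_open hU, hpre]
    intro h2
    have h3 := inter_mem some_mem (mem_sup.1 h2).1
    rw [inter_compl_self] at h3
    exact empty_notMem _ h3
  have h2 := (mem_sup.1 (preimage_mem_of_isOpen h h1)).2
  obtain ⟨x, hx⟩ := exists_notMem none (mem_inf_principal.1 h2)
  have h3 := hx rfl
  rw [mem_preimage, mem_closure_open hU, hpre] at h3
  simp [ι] at h3

lemma fspace (f : XB → ℝ) (hf : Continuous f) (g : {y : XB // f y ≠ 0} → ℝ) (hg : Continuous g)
    (hM : ∃ M : ℝ, ∀ y, |g y| ≤ M) : ∃ h : XB → ℝ, Continuous h ∧ (∃ M : ℝ, ∀ y, |h y| ≤ M) ∧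
      ∀ y : {y : XB // f y ≠ 0}, h y.1 = g y := by
  classical
  obtain ⟨M, hM⟩ := hM
  let ext : ℝ → XB → ℝ := fun κ x => if h : f x ≠ 0 then g ⟨x, h⟩ else κ
  have hb : ∀ κ ∈ Icc (-|M|) |M|, ∀ x, ext κ x ∈ Icc (-|M|) |M| := by
    intro κ hκ x
    by_cases h : f x ≠ 0
    · simp only [ext, dif_pos h]
      exact abs_le.1 ((hM _).trans (le_abs_self M))
    · simp only [ext, dif_neg h]; exact hκ
  have hlim : ∀ κ ∈ Icc (-|M|) |M|, ∀ U : Ultrafilter SB,
      ∃ y ∈ Icc (-|M|) |M|, Tendsto (ext κ ∘ ι _) U (𝓝 y) := by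
    intro κ hκ U
    obtain ⟨y, hy, h⟩ := (isCompact_Icc (a := -|M|) (b := |M|)).ultrafilter_le_nhds
      (U.map (ext κ ∘ ι _)) (by
        rw [le_principal_iff, Ultrafilter.coe_map, mem_map]
        exact univ_mem' fun x => hb κ hκ _)
    exact ⟨y, hy, h⟩
  obtain ⟨κ, hκ, hκU⟩ := hlim 0 ⟨by simp, abs_nonneg M⟩ UB
  have hcont : ∀ y : {y : XB // f y ≠ 0}, Tendsto (ext κ ∘ ι _) y.1.F (𝓝 (g y)) := by
    intro y
    have hop : IsOpen {y : XB | f y ≠ 0} := isOpen_ne_fun hf continuous_const
    have h1 : ContinuousAt (ext κ) y.1 := by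
      rw [← hop.isOpenEmbedding_subtypeVal.continuousAt_iff]
      have : ext κ ∘ (Subtype.val : {y : XB | f y ≠ 0} → XB) = g := by
        ext z; simp only [ext, Function.comp]; exact dif_pos z.2
      rw [this]; exact hg.continuousAt
    have h2 : ext κ y.1 = g y := dif_pos y.2
    rw [← h2]
    exact h1.tendsto.comp (tendsto_ι y.1)
  have hall : ∀ q : XB, ∃ y, Tendsto (ext κ ∘ ι _) q.F (𝓝 y) := by
    intro q
    rcases eq_pt_or FB_le q with rfl | ⟨c, h1, h2⟩
    · by_cases h0 : f (pt FB FB_le) ≠ 0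
      · exact ⟨_, hcont ⟨_, h0⟩⟩
      push Not at h0
      refine ⟨κ, tendsto_sup.2 ⟨?_, ?_⟩⟩
      · rcases UB.mem_or_compl_mem {x | f (ι _ x) ≠ 0} with h | h
        · refine hκU.congr' ?_
          filter_upwards [h] with x hx
          simp only [ext, Function.comp, dif_pos hx]
        · refine tendsto_const_nhds.congr' ?_
          filter_upwards [h] with x hx
          simp only [ext, Function.comp]
          rw [dif_neg (show ¬ f (ι _ x) ≠ 0 from hx)]
      · have h1 : Tendsto (f ∘ ι _) GB (𝓝 0) := by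
          have := (hf.tendsto _).comp (tendsto_ι (pt FB FB_le))
          rw [h0] at this
          exact this.mono_left le_sup_right
        have h2 : ∀ᶠ x in GB, ∀ n : ℕ, |f (ι _ x)| < 1 / ((n : ℝ) + 1) := by
          refine eventually_countable_forall.2 fun n => ?_
          have := h1.abs.eventually (gt_mem_nhds (show |(0:ℝ)| < 1 / ((n : ℝ) + 1) by
            simpa using Nat.cast_add_one_pos n))
          exact this
        refine tendsto_const_nhds.congr' ?_
        filter_upwards [h2] with x hx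
        have h3 : ¬ f (ι _ x) ≠ 0 := by
          intro h
          obtain ⟨n, hn⟩ := exists_nat_one_div_lt (abs_pos.2 h)
          exact (hx n).not_gt hn
        simp only [ext, Function.comp]
        rw [dif_neg h3]
    · obtain ⟨y, -, hy⟩ := hlim κ hκ (Ultrafilter.ofComplNotMemIff q.F fun s =>
        ⟨fun h => (dec_of_countable q h1 h2 s).resolve_right h, fun h h' => not_both q h h'⟩)
      exact ⟨y, hy⟩
  obtain ⟨G, hG, hGl⟩ := exists_extend _ hall
  refine ⟨G, hG, ⟨|M|, fun y => abs_le.2 ?_⟩, fun y => tendsto_nhds_unique (hGl y.1) (hcont y)⟩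
  exact isClosed_Icc.mem_of_tendsto (hGl y) (univ_mem' fun x => hb κ hκ _)

end Pool.Agent.H84.Pretty
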