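import Pool.Agent.H84.Pretty

set_option autoImplicit false

namespace Pool.Agent.H84.Pretty
open Set Filter Topology TopologicalSpace Cardinal unitInterval

lemma mk_I : #I = 𝔠 := by
  simp [unitInterval, Cardinal.mk_Icc_real (show (0:ℝ) < 1 by norm_num)]

/-- A large almost disjoint family. -/
lemma exists_ad : ∃ (T : Type) (E : Set (T × I) → Set T),
    (∀ a, ¬ #(E a) ≤ 𝔠) ∧ ∀ a a', a ≠ a' → #(E a ∩ E a' : Set T) ≤ 𝔠 := by
  let κ : Cardinal.{0} := Order.succ 𝔠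
  let J := κ.ord.ToType
  have hJ : #J = κ := by simp [J]
  have hκ : ℵ₀ ≤ κ := aleph0_le_continuum.trans (Order.le_succ _)
  have : NoMaxOrder J := Cardinal.noMaxOrder hκ
  have hIio : ∀ j : J, #(Iio j) ≤ 𝔠 := fun j => Order.lt_succ_iff.1 (mk_Iio_toType_ord_lt j)
  let μ : J → Cardinal.{0} := fun j => beth (1 + Ordinal.typein (α := J) (· < ·) j)
  have hμc : ∀ j, 𝔠 ≤ μ j := fun j => by
    have : beth 1 ≤ μ j := beth_mono le_self_add
    simpa using this
  have hμs : ∀ j k, j < k → 2 ^ μ j ≤ μ k := fun j k h => by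
    rw [← beth_succ]
    refine beth_mono (Order.succ_le_of_lt ?_)
    exact (add_lt_add_iff_left _).2 ((Ordinal.typein_lt_typein _).2 h)
  let W := Σ j : J, (μ j).out
  have hμW : ∀ j, μ j ≤ #W := fun j => by
    rw [← mk_out (μ j)]
    exact mk_le_of_injective (f := fun x => (⟨j, x⟩ : W)) fun x y h => eq_of_heq (Sigma.mk.inj h).2
  have hκW : κ ≤ #W := by
    rw [← hJ]
    refine mk_le_of_surjective (f := Sigma.fst) fun j => ?_
    have : Nonempty (μ j).out := by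
      rw [← mk_ne_zero_iff, mk_out]
      exact (lt_of_lt_of_le continuum_pos (hμc j)).ne'
    exact ⟨⟨j, this.some⟩, rfl⟩
  have hW : ℵ₀ ≤ #W := hκ.trans hκW
  let Wj : J → Set W := fun j => {w | w.1 < j}
  have hWj : ∀ j, #(Wj j) ≤ μ j := fun j => by
    have h1 : Wj j ⊆ ⋃ k : Iio j, range (fun x => (⟨k.1, x⟩ : W)) := by
      rintro ⟨k, x⟩ hk
      exact mem_iUnion.2 ⟨⟨k, hk⟩, x, rfl⟩
    refine (mk_le_mk_of_subset h1).trans ((mk_iUnion_le _).trans ?_)
    have h2 : ⨆ k : Iio j, #(range (fun x => (⟨k.1, x⟩ : W))) ≤ μ j := by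
      refine ciSup_le' fun k => mk_range_le.trans ?_
      rw [mk_out]
      exact (cantor _).le.trans (hμs _ _ k.2)
    calc _ ≤ μ j * μ j := mul_le_mul' ((hIio j).trans (hμc j)) h2
      _ = μ j := mul_eq_self (aleph0_le_continuum.trans (hμc j))
  let T := Σ j : J, Set (Wj j)
  have hT : #(T × I) ≤ #W := by
    have h1 : #T ≤ #W := by
      rw [mk_sigma]
      refine (sum_le_sum _ (fun _ => #W) fun j => ?_).trans ?_
      · obtain ⟨k, hk⟩ := exists_gt j
        rw [mk_set]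
        exact (power_le_power_left two_ne_zero (hWj j)).trans ((hμs _ _ hk).trans (hμW k))
      · rw [sum_const', hJ]
        exact (mul_le_mul' hκW le_rfl).trans (mul_eq_self hW).le
    rw [mk_prod, lift_id, lift_id, mk_I]
    exact (mul_le_mul' h1 ((Order.le_succ _).trans hκW)).trans (mul_eq_self hW).le
  obtain ⟨φ⟩ := (Cardinal.le_def _ _).1 hT
  let e : Set (T × I) → J → T := fun a j => ⟨j, Subtype.val ⁻¹' (φ '' a)⟩
  have he : ∀ a, Function.Injective (e a) := fun a j k h => congrArg Sigma.fst h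
  refine ⟨T, fun a => range (e a), fun a => ?_, fun a a' h => ?_⟩
  · rw [mk_range_eq _ (he a), hJ]
    exact (Order.lt_succ _).not_ge
  · have h1 : ∃ w : W, ¬ (w ∈ φ '' a ↔ w ∈ φ '' a') := by
      by_contra h2
      push Not at h2
      exact h (image_injective.2 φ.injective (Set.ext h2))
    obtain ⟨w, hw⟩ := h1
    obtain ⟨k, hk⟩ := exists_gt w.1
    have h2 : range (e a) ∩ range (e a') ⊆ e a '' Iio k := by
      rintro _ ⟨⟨j, rfl⟩, ⟨j', hj'⟩⟩
      have h3 : j' = j := congrArg Sigma.fst hj'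
      subst h3
      refine ⟨j', ?_, rfl⟩
      by_contra h4
      have h5 : w ∈ Wj j' := hk.trans_le (not_lt.1 h4)
      have h6 := eq_of_heq (Sigma.mk.inj hj').2
      exact hw (Set.ext_iff.1 h6 ⟨w, h5⟩).symm
    exact (mk_le_mk_of_subset h2).trans (mk_image_le.trans (hIio k))

section
variable {T : Type}

/-- complements of sets of size at most continuum -/
def cosmall (T : Type) : Filter T where
  sets := {s | #(sᶜ : Set T) ≤ 𝔠}
  univ_sets := by simp
  sets_of_superset := fun h1 h2 => by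
    simp only [mem_ofPred_eq] at *
    exact (mk_le_mk_of_subset (compl_subset_compl.2 h2)).trans h1
  inter_sets := fun h1 h2 => by
    simp only [mem_ofPred_eq, compl_inter] at *
    exact (mk_union_le _ _).trans ((add_le_add h1 h2).trans (add_eq_self aleph0_le_continuum).le)

lemma mem_cosmall {s : Set T} : s ∈ cosmall T ↔ #(sᶜ : Set T) ≤ 𝔠 := by
  rw [← Filter.mem_sets]; simp only [cosmall, mem_ofPred_eq]

lemma small_biUnion {α : Type} {N : Set α} (hN : #N ≤ 𝔠) {c : α → Set T}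
    (hc : ∀ i ∈ N, #(c i) ≤ 𝔠) : #(⋃ i ∈ N, c i) ≤ 𝔠 := by
  rw [biUnion_eq_iUnion]
  refine (mk_iUnion_le _).trans ?_
  exact (mul_le_mul' hN (ciSup_le' fun i : N => hc i i.2)).trans (mul_eq_self aleph0_le_continuum).le

lemma small_of_countable {α : Type} {N : Set α} (hN : N.Countable) : #N ≤ 𝔠 :=
  (le_aleph0_iff_set_countable.2 hN).trans aleph0_le_continuum

variable {A : Type} (E : A → Set T) (y : A → I)

noncomputable def FF (i : A) : Filter (T × I) := (cosmall T ⊓ 𝓟 (E i)) ×ˢ 𝓝 (y i)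

variable (h1 : ∀ a, ¬ #(E a) ≤ 𝔠) (h2 : ∀ a a', a ≠ a' → #(E a ∩ E a' : Set T) ≤ 𝔠)

def Wit (a : Set (T × I)) (N : Set A) (c : Set T) : Prop :=
  N.Countable ∧ #c ≤ 𝔠 ∧ (∀ i ∈ N, a ∈ FF E y i) ∧ ∀ s ∈ a, s.1 ∈ c ∨ ∃ i ∈ N, s.1 ∈ E i

include h2 in
lemma small_aux {N : Set A} (hN : N.Countable) {i : A} (hi : i ∉ N) :
    #(⋃ j ∈ N, E i ∩ E j) ≤ 𝔠 :=
  small_biUnion (small_of_countable hN) fun j hj => h2 i j fun h => hi (h ▸ hj)

def cLat : SLat (T × I) where
  L := {a | ∃ N c, Wit E y a N c}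
  inter := by
    rintro a ⟨N, c, hN, hc, hF, hs⟩ a' ⟨N', c', hN', hc', hF', hs'⟩
    refine ⟨N ∩ N', (c ∪ c') ∪ ⋃ i ∈ N \ N', ⋃ j ∈ N', E i ∩ E j, hN.mono inter_subset_left, ?_,
      fun i hi => inter_mem (hF i hi.1) (hF' i hi.2), ?_⟩
    · refine (mk_union_le _ _).trans ((add_le_add ((mk_union_le _ _).trans
        ((add_le_add hc hc').trans (add_eq_self aleph0_le_continuum).le)) ?_).trans
        (add_eq_self aleph0_le_continuum).le)
      exact small_biUnion (small_of_countable (hN.mono sdiff_subset))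
        fun i hi => small_aux E h2 hN' hi.2
    · rintro s ⟨hs1, hs2⟩
      rcases hs s hs1 with h | ⟨i, hi, h⟩
      · exact Or.inl (Or.inl (Or.inl h))
      rcases hs' s hs2 with h' | ⟨j, hj, h'⟩
      · exact Or.inl (Or.inl (Or.inr h'))
      by_cases hi' : i ∈ N'
      · exact Or.inr ⟨i, ⟨hi, hi'⟩, h⟩
      · exact Or.inl (Or.inr (mem_biUnion (show i ∈ N \ N' from ⟨hi, hi'⟩)
          (mem_biUnion hj ⟨h, h'⟩)))
  sUnion := by
    intro C hC hCc
    have hC' : ∀ a ∈ C, ∃ N c, Wit E y a N c := hC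
    choose! N c hw using hC'
    refine ⟨⋃ a ∈ C, N a, ⋃ a ∈ C, c a, hCc.biUnion fun a ha => (hw a ha).1,
      small_biUnion (small_of_countable hCc) fun a ha => (hw a ha).2.1, ?_, ?_⟩
    · intro i hi
      obtain ⟨a, ha, hi⟩ := mem_iUnion₂.1 hi
      exact mem_of_superset ((hw a ha).2.2.1 i hi) (subset_sUnion_of_mem ha)
    · rintro s ⟨a, ha, hs⟩
      rcases (hw a ha).2.2.2 s hs with h | ⟨i, hi, h⟩
      · exact Or.inl (mem_biUnion ha h)
      · exact Or.inr ⟨i, mem_biUnion ha hi, h⟩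
  single := fun s => ⟨∅, {s.1}, countable_empty, by simpa using one_le_aleph0.trans aleph0_le_continuum,
    by simp, by simp⟩

include h1 in
lemma FF_neBot (i : A) : (FF E y i).NeBot := by
  have : (cosmall T ⊓ 𝓟 (E i)).NeBot := by
    refine inf_principal_neBot_iff.2 fun U hU => ?_
    by_contra h
    refine h1 i ((mk_le_mk_of_subset ?_).trans (mem_cosmall.1 hU))
    intro x hx hxU
    exact h ⟨x, hxU, hx⟩
  unfold FF; infer_instance

include h2 in
lemma compl_mem_FF {a : Set (T × I)} {N : Set A} {c : Set T} (hw : Wit E y a N c) {i : A}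
    (hi : i ∉ N) : aᶜ ∈ FF E y i := by
  obtain ⟨hN, hc, -, hs⟩ := hw
  refine mem_prod_iff.2 ⟨(c ∪ ⋃ j ∈ N, E i ∩ E j)ᶜ ∩ E i, inter_mem_inf ?_ (mem_principal_self _),
    univ, univ_mem, ?_⟩
  · rw [mem_cosmall, compl_compl]
    exact (mk_union_le _ _).trans ((add_le_add hc (small_aux E h2 hN hi)).trans
      (add_eq_self aleph0_le_continuum).le)
  · rintro s ⟨⟨h3, h4⟩, -⟩ hsa
    rcases hs s hsa with h | ⟨j, hj, h⟩
    · exact h3 (Or.inl h)
    · exact h3 (Or.inr (mem_biUnion hj ⟨h4, h⟩))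

lemma E_mem_FF (i : A) : {s : T × I | s.1 ∈ E i} ∈ FF E y i :=
  mem_prod_iff.2 ⟨E i, mem_inf_of_right (mem_principal_self _), univ, univ_mem, fun _ h => h.1⟩

lemma snd_mem_FF (i : A) {V : Set I} (hV : V ∈ 𝓝 (y i)) : Prod.snd ⁻¹' V ∈ FF E y i :=
  mem_prod_iff.2 ⟨univ, univ_mem, V, hV, fun _ h => h.2⟩

noncomputable def ptC (i : A) : Pt (cLat E y h2) where
  F := FF E y i
  ne := FF_neBot E y h1 i
  basis := fun s hs => ⟨s ∩ {s | s.1 ∈ E i}, ⟨{i}, ∅, countable_singleton i, by simp,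
    by simpa using ⟨hs, E_mem_FF E y i⟩, fun s hs => Or.inr ⟨i, rfl, hs.2⟩⟩,
    inter_mem hs (E_mem_FF E y i), inter_subset_left⟩
  dec := by
    rintro a ⟨N, c, hw⟩
    by_cases hi : i ∈ N
    · exact Or.inl (hw.2.2.1 i hi)
    · exact Or.inr (compl_mem_FF E y h2 hw hi)

include h1 in
lemma cover_dec (p : Pt (cLat E y h2)) {V V' : Set I} (hV : IsOpen V) (hV' : IsOpen V')
    (hcov : ∀ x, x ∈ V ∨ x ∈ V') : Prod.snd ⁻¹' V ∈ p.F ∨ Prod.snd ⁻¹' V' ∈ p.F := by
  obtain ⟨a, ⟨N, c, hw⟩, hap, -⟩ := p.basis univ univ_mem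
  let aV : Set I → Set (T × I) := fun V =>
    a ∩ Prod.snd ⁻¹' V ∩ {s | ∃ i ∈ N, y i ∈ V ∧ s.1 ∈ E i}
  have haF : ∀ V, IsOpen V → ∀ i ∈ N, y i ∈ V → aV V ∈ FF E y i := fun V hV i hi hy =>
    inter_mem (inter_mem (hw.2.2.1 i hi) (snd_mem_FF E y i (hV.mem_nhds hy)))
      (mem_of_superset (E_mem_FF E y i) fun s hs => ⟨i, hi, hy, hs⟩)
  have haL : ∀ V, IsOpen V → aV V ∈ (cLat E y h2).L := fun V hV =>
    ⟨{i ∈ N | y i ∈ V}, ∅, hw.1.mono (sep_subset _ _), by simp,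
      fun i hi => haF V hV i hi.1 hi.2, fun s ⟨_, i, hi, hy, hs⟩ => Or.inr ⟨i, ⟨hi, hy⟩, hs⟩⟩
  rcases p.dec _ (haL V hV) with h3 | h3
  · exact Or.inl (mem_of_superset h3 fun s hs => hs.1.2)
  rcases p.dec _ (haL V' hV') with h4 | h4
  · exact Or.inr (mem_of_superset h4 fun s hs => hs.1.2)
  obtain ⟨b, ⟨M, d, hb⟩, hbp, hbs⟩ := p.basis _ (inter_mem hap (inter_mem h3 h4))
  have hM : ∀ i, i ∉ M := by
    intro i hi
    have hbF := hb.2.2.1 i hi
    have hiN : i ∈ N := by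
      by_contra hiN
      exact not_both (ptC E y h1 h2 i) (mem_of_superset hbF fun s hs => (hbs hs).1)
        (compl_mem_FF E y h2 hw hiN)
    rcases hcov (y i) with h | h
    · exact not_both (ptC E y h1 h2 i) (haF V hV i hiN h)
        (mem_of_superset hbF fun s hs => (hbs hs).2.1)
    · exact not_both (ptC E y h1 h2 i) (haF V' hV' i hiN h)
        (mem_of_superset hbF fun s hs => (hbs hs).2.2)
  have h5 : b ∩ Prod.snd ⁻¹' V ∈ (cLat E y h2).L :=
    ⟨∅, d, countable_empty, hb.2.1, by simp, fun s hs => Or.inl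
      ((hb.2.2.2 s hs.1).resolve_right fun ⟨i, hi, _⟩ => hM i hi)⟩
  rcases p.dec _ h5 with h6 | h6
  · exact Or.inl (mem_of_superset h6 inter_subset_right)
  · refine Or.inr (mem_of_superset (inter_mem hbp h6) fun s hs => ?_)
    exact (hcov s.2).resolve_left fun h => hs.2 ⟨hs.1, h⟩

include h1 in
lemma snd_conv (p : Pt (cLat E y h2)) : ∃ z, Tendsto Prod.snd p.F (𝓝 z) := by
  obtain ⟨z, hz⟩ := exists_clusterPt_of_compactSpace (map Prod.snd p.F)
  refine ⟨z, le_nhds_of_unique_clusterPt fun z' hz' => ?_⟩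
  by_contra hne
  obtain ⟨U, hU, U', hU', hd⟩ := exists_nhds_disjoint_closure hne
  rcases cover_dec E y h1 h2 p (isClosed_closure (s := U)).isOpen_compl
    (isClosed_closure (s := U')).isOpen_compl (fun x => by
      by_contra h
      push Not at h
      exact disjoint_left.1 hd (not_not.1 h.1) (not_not.1 h.2)) with h | h
  · obtain ⟨x, hx1, hx2⟩ := clusterPt_iff_nonempty.1 hz' hU (mem_map.2 h)
    exact hx2 (subset_closure hx1)
  · obtain ⟨x, hx1, hx2⟩ := clusterPt_iff_nonempty.1 hz hU' (mem_map.2 h)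
    exact hx2 (subset_closure hx1)
end

theorem exists_spaceC : ∃ (X : Type) (_ : TopologicalSpace X), T35Space X ∧
    HasCocompactPrettyBase X ∧ ∃ f : X → I, Continuous f ∧
      ∀ C : Set X, IsClopen C → (∀ x, f x = 0 → x ∈ C) → ∃ x ∈ C, f x = 1 := by
  obtain ⟨T, E, h1, h2⟩ := exists_ad
  have hy : ∀ a : Set (T × I), ∃ y : I, (∀ t, (t, 0) ∈ a ∧ (t, 1) ∉ a) →
      ¬ #{t | t ∈ E a ∧ y ∈ frontier {x | (t, x) ∈ a}} ≤ 𝔠 := by
    intro a
    by_contra h
    push Not at h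
    have h3 : E a ⊆ ⋃ y ∈ (univ : Set I), {t | t ∈ E a ∧ y ∈ frontier {x | (t, x) ∈ a}} := by
      intro t ht
      have h4 : (frontier {x | (t, x) ∈ a}).Nonempty := by
        by_contra h5
        rw [not_nonempty_iff_eq_empty, ← isClopen_iff_frontier_eq_empty, isClopen_iff] at h5
        rcases h5 with h5 | h5
        · exact (Set.ext_iff.1 h5 0).1 ((h 0).1 t).1
        · exact ((h 0).1 t).2 ((Set.ext_iff.1 h5 1).2 trivial)
      obtain ⟨y, hy⟩ := h4
      exact mem_biUnion (mem_univ y) ⟨ht, hy⟩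
    exact h1 a ((mk_le_mk_of_subset h3).trans (small_biUnion (by simp [mk_I]) fun y _ => (h y).2))
  choose y hy using hy
  have hne : Nonempty (T × I) := (FF_neBot E y h1 ∅).nonempty
  obtain ⟨f, hf, hfl⟩ := exists_extend (Λ := cLat E y h2) Prod.snd (snd_conv E y h1 h2)
  refine ⟨Pt (cLat E y h2), inferInstance, inferInstance, hasCocompactPrettyBase _, f, hf, ?_⟩
  intro C hC h0
  by_contra hcon
  push Not at hcon
  let a : Set (T × I) := ι _ ⁻¹' C
  have ha : ∀ t, (t, 0) ∈ a ∧ (t, 1) ∉ a := fun t =>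
    ⟨h0 _ (extend_ι hfl _), fun h => hcon _ h (extend_ι hfl _)⟩
  have key : ∀ b ∈ FF E y a, ∃ t, y a ∈ frontier {x | (t, x) ∈ a} ∧ {x | (t, x) ∈ b} ∈ 𝓝 (y a) := by
    intro b hb
    obtain ⟨B, hB, V, hV, hBV⟩ := mem_prod_iff.1 hb
    by_contra h
    push Not at h
    refine hy a ha ((mk_le_mk_of_subset ?_).trans (mem_cosmall.1 (mem_inf_principal.1 hB)))
    rintro t ⟨ht1, ht2⟩ ht3
    exact h t ht2 (mem_of_superset hV fun x hx => hBV (mk_mem_prod (ht3 ht1) hx))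
  by_cases hp : ptC E y h1 h2 a ∈ C
  · obtain ⟨t, h3, h4⟩ := key a (preimage_mem_of_isOpen hC.isOpen hp)
    exact h3.2 (mem_interior_iff_mem_nhds.2 h4)
  · obtain ⟨t, h3, h4⟩ := key aᶜ (preimage_mem_of_isOpen hC.compl.isOpen hp)
    rw [← frontier_compl] at h3
    exact h3.2 (mem_interior_iff_mem_nhds.2 h4)

end Pool.Agent.H84.Pretty
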