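import Mathlib

set_option autoImplicit false

namespace Pool.Agent.H84.Pretty

/-- `𝓑` is a pretty base of `X`: a base of clopen sets such that countably many members, each
disjoint from every member of an arbitrary subfamily, are contained in one member that is disjoint
from all members of that subfamily. -/
def IsPrettyBase {X : Type} [TopologicalSpace X] (𝓑 : Set (Set X)) : Prop :=
  TopologicalSpace.IsTopologicalBasis 𝓑 ∧ (∀ B ∈ 𝓑, IsClopen B) ∧
    ∀ C D : Set (Set X), C ⊆ 𝓑 → C.Countable → D ⊆ 𝓑 → (∀ U ∈ C, ∀ V ∈ D, Disjoint U V) →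
      ∃ W ∈ 𝓑, (∀ U ∈ C, U ⊆ W) ∧ ∀ V ∈ D, Disjoint W V

/-- `𝓑` is cocompact: `X` is compact in the cotopology, generated by the complements of the
closures of the members of `𝓑`. -/
def IsCocompactBase {X : Type} [TopologicalSpace X] (𝓑 : Set (Set X)) : Prop :=
  @CompactSpace X (TopologicalSpace.generateFrom ((fun B : Set X => (closure B)ᶜ) '' 𝓑))

/-- `X` has a cocompact pretty base. -/
def HasCocompactPrettyBase (X : Type) [TopologicalSpace X] : Prop :=
  ∃ 𝓑 : Set (Set X), IsPrettyBase 𝓑 ∧ IsCocompactBase 𝓑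

end Pool.Agent.H84.Pretty
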