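import Mathlib

/-! Countably compact bases in locally pseudocompact spaces of weight at most the continuum. -/

namespace Pool.Agent.H84.PsCC

open Set Cardinal Topology TopologicalSpace

universe u

/-- Every continuous real function is bounded. -/
def Pseudocompact (X : Type u) [TopologicalSpace X] : Prop :=
  ∀ f : X → ℝ, Continuous f → ∃ M : ℝ, ∀ x, |f x| ≤ M

/-- Every point has an open neighbourhood whose closure is pseudocompact. -/
def LocPseudocompact (X : Type u) [TopologicalSpace X] : Prop :=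
  ∀ x : X, ∃ U : Set X, IsOpen U ∧ x ∈ U ∧ Pseudocompact (closure U)

/-- Every decreasing sequence of members has nonempty intersection. -/
def CCFamily {X : Type u} (F : Set (Set X)) : Prop :=
  ∀ s : ℕ → Set X, (∀ n, s n ∈ F) → (∀ n, s (n + 1) ⊆ s n) → (⋂ n, s n).Nonempty

/-- A family of nonempty open sets such that every nonempty open set contains a member. -/
def OpenPseudobase {X : Type u} [TopologicalSpace X] (B : Set (Set X)) : Prop :=
  (∀ b ∈ B, IsOpen b ∧ b.Nonempty) ∧ ∀ U : Set X, IsOpen U → U.Nonempty → ∃ b ∈ B, b ⊆ U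

/-- The open set `V` has pi-weight at most the continuum. -/
def SmallPiWeight {X : Type u} [TopologicalSpace X] (V : Set X) : Prop :=
  ∃ P : Set (Set X), #P ≤ continuum ∧ (∀ b ∈ P, IsOpen b ∧ b.Nonempty ∧ b ⊆ V) ∧
    ∀ U : Set X, IsOpen U → U.Nonempty → U ⊆ V → ∃ b ∈ P, b ⊆ U

/-- The open set `V` has a pi-base such that each nonempty open set lies in fewer than continuum
many members (pi-Noetherian type at most the continuum). -/
def SmallPiNt {X : Type u} [TopologicalSpace X] (V : Set X) : Prop :=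
  ∃ P : Set (Set X), (∀ b ∈ P, IsOpen b ∧ b.Nonempty ∧ b ⊆ V) ∧
    (∀ U : Set X, IsOpen U → U.Nonempty → U ⊆ V → ∃ b ∈ P, b ⊆ U) ∧
    ∀ O : Set X, IsOpen O → O.Nonempty → #{b : P // O ⊆ b.1} < continuum

/-- Every nonempty G-delta set inside `V` has nonempty interior. -/
def AlmostP {X : Type u} [TopologicalSpace X] (V : Set X) : Prop :=
  ∀ Z : Set X, IsGδ Z → Z.Nonempty → Z ⊆ V → (interior Z).Nonempty

def Telgarsky (X : Type u) [TopologicalSpace X] : Prop :=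
  ∃ B : Set (Set X), IsTopologicalBasis B ∧ CCFamily B

def Oxtoby (X : Type u) [TopologicalSpace X] : Prop :=
  ∃ B : Set (Set X), OpenPseudobase B ∧ CCFamily B

variable {X : Type u} [TopologicalSpace X]

theorem core {I : Type u} (r : I → I → Prop) (wo : IsWellOrder I r) (f : I → X → ℝ)
    (hf : ∀ i, Continuous (f i))
    (hs : ∀ i, #{j // r j i ∧ {x | 1 < f i x} ⊆ {x | 0 < f j x}} < continuum) :
    ∃ t : I → ℝ, (∀ i, t i ∈ Ioo (0 : ℝ) 1) ∧
      ∀ i j, r j i → {x | t i < f i x} ⊆ {x | t j < f j x} →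
        closure {x | t i < f i x} ⊆ {x | t j < f j x} := by
  classical
  have hex : ∀ (i : I) (g : ∀ j, r j i → ℝ), ∃ u ∈ Ioo (0 : ℝ) 1, ∀ j h, 0 < g j h →
      {x | u < f i x} ⊆ {x | g j h < f j x} → closure {x | u < f i x} ⊆ {x | g j h < f j x} := by
    intro i g
    by_contra hn
    push Not at hn
    choose k h h0 h1 h2 using hn
    let K : Ioo (0 : ℝ) 1 → {j // r j i ∧ {x | 1 < f i x} ⊆ {x | 0 < f j x}} := fun u =>
      ⟨k u.1 u.2, h u.1 u.2, fun x hx =>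
        lt_trans (h0 u.1 u.2) (h1 u.1 u.2 (lt_trans u.2.2 hx))⟩
    have key : ∀ u v : Ioo (0 : ℝ) 1, u.1 < v.1 → K u ≠ K v := by
      intro u v huv he
      have e2 : {x | g (k u.1 u.2) (h u.1 u.2) < f (k u.1 u.2) x} =
          {x | g (k v.1 v.2) (h v.1 v.2) < f (k v.1 v.2) x} :=
        congrArg (fun z : {j // r j i ∧ {x | 1 < f i x} ⊆ {x | 0 < f j x}} =>
          {x | g z.1 z.2.1 < f z.1 x}) he
      apply h2 v.1 v.2
      rw [← e2]
      refine Subset.trans ?_ (h1 u.1 u.2)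
      refine (closure_lt_subset_le continuous_const (hf i)).trans fun x hx => ?_
      exact lt_of_lt_of_le huv hx
    have hinj : Function.Injective K := by
      intro u v huv
      rcases lt_trichotomy u.1 v.1 with hh | hh | hh
      · exact absurd huv (key u v hh)
      · exact Subtype.ext hh
      · exact absurd huv.symm (key v u hh)
    have h3 := Cardinal.lift_mk_le_lift_mk_of_injective hinj
    rw [Cardinal.mk_Ioo_real zero_lt_one, lift_continuum, lift_uzero] at h3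
    exact absurd ((hs i).trans_le h3) (lt_irrefl _)
  choose F hF hF' using hex
  let t : I → ℝ := wo.wf.fix F
  have ht : ∀ i, t i = F i fun j _ => t j := fun i => wo.wf.fix_eq F i
  have ht' : ∀ i, t i ∈ Ioo (0 : ℝ) 1 := fun i => ht i ▸ hF _ _
  refine ⟨t, ht', fun i j hij => ?_⟩
  have := hF' i (fun j _ => t j) j hij (ht' j).1
  rw [← ht i] at this
  exact this

theorem small_wo {I : Type u} (hI : #I ≤ continuum) :
    ∃ (r : I → I → Prop) (_ : IsWellOrder I r), ∀ (i : I) (q : I → Prop),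
      #{j // r j i ∧ q j} < continuum := by
  obtain ⟨r, wo, hr⟩ := Cardinal.exists_ord_eq I
  refine ⟨r, wo, fun i q => ?_⟩
  have h4 : #{j // r j i} < #I := card_typein_lt i hr
  exact (mk_subtype_mono fun j hj => hj.1).trans_lt (h4.trans_le hI)

theorem bump [CompletelyRegularSpace X] {a : X} {W : Set X} (hW : IsOpen W) (ha : a ∈ W) :
    ∃ φ : X → ℝ, Continuous φ ∧ 1 < φ a ∧ ∀ x, 0 < φ x → x ∈ W := by
  obtain ⟨f, hf, hfa, hfK⟩ :=
    CompletelyRegularSpace.completely_regular a Wᶜ hW.isClosed_compl (fun h => h ha)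
  refine ⟨fun x => 2 - 2 * (f x : ℝ), by fun_prop, by simp [hfa], fun x hx => ?_⟩
  by_contra hxW
  have : f x = 1 := hfK hxW
  simp [this] at hx

theorem feeble {G : Set X} (hG : Pseudocompact (closure G)) (h : ℕ → X → ℝ)
    (hc : ∀ n, Continuous (h n)) (hne : ∀ n, ∃ x ∈ G, 0 < h n x)
    {s : ℕ → Set X} (hsub : ∀ n x, 0 < h n x → x ∈ s n)
    (hdec : Antitone s) : (⋂ n, closure (s n)).Nonempty := by
  by_contra hn
  choose p hp hp' using hne
  let g : ℕ → X → ℝ := fun n x => (n / h n (p n)) * max (h n x) 0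
  have hsupp : ∀ n, Function.support (g n) ⊆ {x | 0 < h n x} := by
    intro n x hx
    by_contra hx'
    apply hx
    have : max (h n x) 0 = 0 := max_eq_right (not_lt.1 hx')
    simp [g, this]
  have hlf : LocallyFinite fun n => Function.support (g n) := by
    intro x
    have : ∃ n, x ∉ closure (s n) := by
      by_contra hx
      push Not at hx
      exact hn ⟨x, mem_iInter.2 hx⟩
    obtain ⟨n, hx⟩ := this
    refine ⟨(closure (s n))ᶜ, isClosed_closure.isOpen_compl.mem_nhds hx, ?_⟩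
    refine (finite_lt_nat n).subset fun m hm => ?_
    by_contra hmn
    obtain ⟨y, hy1, hy2⟩ := hm
    exact hy2 (subset_closure (hdec (not_lt.1 hmn) (hsub m y (hsupp m hy1))))
  have hgc : ∀ n, Continuous (g n) := fun n =>
    continuous_const.mul ((hc n).max continuous_const)
  have hcont : Continuous fun x => ∑ᶠ n, g n x := continuous_finsum hgc hlf
  obtain ⟨M, hM⟩ := hG (fun x => ∑ᶠ n, g n x.1) (hcont.comp continuous_subtype_val)
  obtain ⟨n, hnM⟩ := exists_nat_gt M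
  have h1 := hM ⟨p n, subset_closure (hp n)⟩
  have h0 : ∀ m, 0 ≤ g m (p n) := fun m =>
    mul_nonneg (div_nonneg (Nat.cast_nonneg m) (hp' m).le) (le_max_right _ _)
  have h2 : g n (p n) ≤ ∑ᶠ m, g m (p n) :=
    single_le_finsum n (hlf.point_finite (p n)) h0
  have h3 : g n (p n) = n := by
    have := hp' n
    simp only [g, max_eq_left this.le]
    field_simp
  have h4 := le_abs_self (∑ᶠ m, g m (p n))
  simp only at h1
  linarith

theorem cc {I : Type u} (r : I → I → Prop) (wo : IsWellOrder I r) (f : I → X → ℝ)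
    (hf : ∀ i, Continuous (f i))
    (hsm : ∀ i, #{j // r j i ∧ {x | 1 < f i x} ⊆ {x | 0 < f j x}} < continuum)
    (hne : ∀ i, ∃ x, 1 ≤ f i x)
    (hG : ∀ i, ∃ G : Set X, Pseudocompact (closure G) ∧ ∀ x, 0 < f i x → x ∈ G) :
    ∃ t : I → ℝ, (∀ i, t i ∈ Ioo (0 : ℝ) 1) ∧ CCFamily (range fun i => {x | t i < f i x}) := by
  obtain ⟨t, ht, hr⟩ := core r wo f hf hsm
  refine ⟨t, ht, fun s hs hdec => ?_⟩
  choose a ha using hs
  beta_reduce at ha
  have hanti : Antitone s := antitone_nat_of_succ_le hdec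
  have hsne : ∀ n, (s n).Nonempty := fun n => by
    obtain ⟨x, hx⟩ := hne (a n)
    exact ⟨x, ha n ▸ lt_of_lt_of_le (ht _).2 hx⟩
  by_cases hev : ∃ n, ∀ m, n ≤ m → s m = s n
  · obtain ⟨n, hn⟩ := hev
    obtain ⟨x, hx⟩ := hsne n
    refine ⟨x, mem_iInter.2 fun m => ?_⟩
    rcases le_total n m with h | h
    · rw [hn m h]; exact hx
    · exact hanti h hx
  push Not at hev
  have hcl : ∀ n, ∃ m, closure (s m) ⊆ s n := by
    intro n
    obtain ⟨i, ⟨m0, hm0, rfl⟩, hmin⟩ :=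
      wo.wf.has_min (a '' {m | n ≤ m}) ⟨a n, n, le_refl n, rfl⟩
    obtain ⟨m, hm, hne'⟩ := hev m0
    refine ⟨m, Subset.trans ?_ (hanti hm0)⟩
    rcases trichotomous_of r (a m0) (a m) with h | h | h
    · have := hr (a m) (a m0) h (by rw [ha m, ha m0]; exact hanti hm)
      rw [ha m, ha m0] at this
      exact this
    · exact absurd (by rw [← ha m, ← ha m0, h]) hne'
    · exact absurd h (hmin _ ⟨m, le_trans hm0 hm, rfl⟩)
  obtain ⟨G, hG1, hG2⟩ := hG (a 0)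
  have hs' : ∀ n, {x | 0 < f (a n) x - t (a n)} = s n := fun n => by
    rw [← ha n]; ext x; simp
  obtain ⟨x, hx⟩ := feeble hG1 (fun n x => f (a n) x - t (a n))
    (fun n => (hf _).sub continuous_const)
    (fun n => by
      obtain ⟨x, hx⟩ := hsne n
      refine ⟨x, hG2 x ?_, ?_⟩
      · have h0 : x ∈ s 0 := hanti (Nat.zero_le n) hx
        rw [← ha 0] at h0
        exact lt_trans (ht _).1 h0
      · rw [← hs' n] at hx
        exact hx)
    (fun n x hx => hs' n ▸ hx) hanti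
  refine ⟨x, mem_iInter.2 fun n => ?_⟩
  obtain ⟨m, hm⟩ := hcl n
  exact hm (mem_iInter.1 hx m)

theorem telgarsky [CompletelyRegularSpace X] (hX : LocPseudocompact X) {W : Set (Set X)}
    (hW : IsTopologicalBasis W) (hc : #W ≤ continuum) : Telgarsky X := by
  let I := {p : W × W // p.1.1.Nonempty ∧ ∃ f : X → ℝ, Continuous f ∧ (∀ x ∈ p.1.1, 1 ≤ f x) ∧
    (∀ x, 0 < f x → x ∈ p.2.1) ∧ ∃ G : Set X, Pseudocompact (closure G) ∧ p.2.1 ⊆ G}
  have hI : #I ≤ continuum := by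
    refine (mk_subtype_le _).trans ?_
    rw [mk_prod, lift_id]
    exact (mul_le_mul' hc hc).trans continuum_mul_self.le
  have hI2 : ∀ i : I, ∃ f : X → ℝ, Continuous f ∧ (∀ x ∈ i.1.1.1, 1 ≤ f x) ∧
    (∀ x, 0 < f x → x ∈ i.1.2.1) ∧ ∃ G : Set X, Pseudocompact (closure G) ∧ i.1.2.1 ⊆ G :=
    fun i => i.2.2
  choose f hf h1 h2 h3 using hI2
  obtain ⟨r, wo, hr⟩ := small_wo hI
  obtain ⟨t, ht, hcc⟩ := cc r wo f hf (fun i => hr i _) (fun i => by
      obtain ⟨x, hx⟩ := i.2.1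
      exact ⟨x, h1 i x hx⟩)
    (fun i => by
      obtain ⟨G, hG, hG'⟩ := h3 i
      exact ⟨G, hG, fun x hx => hG' (h2 i x hx)⟩)
  refine ⟨_, isTopologicalBasis_of_isOpen_of_nhds ?_ ?_, hcc⟩
  · rintro _ ⟨i, rfl⟩
    exact isOpen_lt continuous_const (hf i)
  · intro a U haU hU
    obtain ⟨G, hGo, haG, hG⟩ := hX a
    obtain ⟨w, hw, haw, hwU⟩ := hW.exists_subset_of_mem_open (mem_inter haU haG) (hU.inter hGo)
    obtain ⟨φ, hφ, hφa, hφw⟩ := bump (hW.isOpen hw) haw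
    obtain ⟨v, hv, hav, hvφ⟩ := hW.exists_subset_of_mem_open
      (show a ∈ {x | 1 < φ x} from hφa) (isOpen_lt continuous_const hφ)
    let i : I := ⟨(⟨v, hv⟩, ⟨w, hw⟩), ⟨a, hav⟩, φ, hφ, fun x hx => le_of_lt (hvφ hx), hφw, G, hG,
      fun x hx => (hwU hx).2⟩
    refine ⟨_, ⟨i, rfl⟩, lt_of_lt_of_le (ht i).2 (h1 i a hav), fun x hx => ?_⟩
    exact (hwU (h2 i x (lt_trans (ht i).1 hx))).1

theorem loc_aux [CompletelyRegularSpace X] (hX : LocPseudocompact X) {V : Set X}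
    {P : Set (Set X)} (hP1 : ∀ b ∈ P, IsOpen b ∧ b.Nonempty ∧ b ⊆ V)
    (hP2 : ∀ U : Set X, IsOpen U → U.Nonempty → U ⊆ V → ∃ b ∈ P, b ⊆ U)
    (r : P → P → Prop) (wo : IsWellOrder P r)
    (hr : ∀ (i : P) (O : Set X), IsOpen O → O.Nonempty → #{j // r j i ∧ O ⊆ j.1} < continuum) :
    ∃ B : Set (Set X), (∀ b ∈ B, IsOpen b ∧ b.Nonempty ∧ b ⊆ V) ∧
      (∀ U : Set X, IsOpen U → U.Nonempty → U ⊆ V → ∃ b ∈ B, b ⊆ U) ∧ CCFamily B := by
  have hI2 : ∀ i : P, ∃ f : X → ℝ, Continuous f ∧ (∃ x, 1 < f x) ∧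
      (∀ x, 0 < f x → x ∈ i.1) ∧
      ∃ G : Set X, Pseudocompact (closure G) ∧ ∀ x, 0 < f x → x ∈ G := by
    intro i
    obtain ⟨ho, ⟨a, ha⟩, -⟩ := hP1 i.1 i.2
    obtain ⟨G, hGo, haG, hG⟩ := hX a
    obtain ⟨φ, hφ, hφa, hφw⟩ := bump (ho.inter hGo) (mem_inter ha haG)
    exact ⟨φ, hφ, ⟨a, hφa⟩, fun x hx => (hφw x hx).1, G, hG, fun x hx => (hφw x hx).2⟩
  choose f hf h1 h2 h3 using hI2
  obtain ⟨t, ht, hcc⟩ := cc r wo f hf
    (fun i => (mk_subtype_mono fun j hj => ⟨hj.1, fun x hx => h2 j x (hj.2 hx)⟩).trans_lt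
      (hr i {x | 1 < f i x} (isOpen_lt continuous_const (hf i)) (h1 i)))
    (fun i => (h1 i).imp fun x hx => hx.le) h3
  refine ⟨_, ?_, fun U hU hne hUV => ?_, hcc⟩
  · rintro _ ⟨i, rfl⟩
    obtain ⟨x, hx⟩ := h1 i
    exact ⟨isOpen_lt continuous_const (hf i), ⟨x, lt_trans (ht i).2 hx⟩,
      fun y hy => (hP1 i.1 i.2).2.2 (h2 i y (lt_trans (ht i).1 hy))⟩
  · obtain ⟨b, hb, hbU⟩ := hP2 U hU hne hUV
    exact ⟨_, ⟨⟨b, hb⟩, rfl⟩, fun x hx => hbU (h2 ⟨b, hb⟩ x (lt_trans (ht _).1 hx))⟩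

theorem loc_ap [CompletelyRegularSpace X] (hX : LocPseudocompact X) {V : Set X}
    (hV : AlmostP V) : ∃ B : Set (Set X), (∀ b ∈ B, IsOpen b ∧ b.Nonempty ∧ b ⊆ V) ∧
      (∀ U : Set X, IsOpen U → U.Nonempty → U ⊆ V → ∃ b ∈ B, b ⊆ U) ∧ CCFamily B := by
  refine ⟨{b | b.Nonempty ∧ ∃ Z G : Set X, IsClosed Z ∧ IsGδ Z ∧ Z ⊆ V ∧ Z ⊆ G ∧
    Pseudocompact (closure G) ∧ b = interior Z}, ?_, fun U hU hne hUV => ?_, fun s hs hdec => ?_⟩
  · rintro b ⟨hne, Z, G, -, -, hZV, -, -, rfl⟩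
    exact ⟨isOpen_interior, hne, interior_subset.trans hZV⟩
  · obtain ⟨a, ha⟩ := hne
    obtain ⟨G, hGo, haG, hG⟩ := hX a
    obtain ⟨φ, hφ, hφa, hφw⟩ := bump (hU.inter hGo) (mem_inter ha haG)
    have hZ : φ ⁻¹' Ici 1 ⊆ U ∩ G := fun x hx => hφw x (lt_of_lt_of_le one_pos hx)
    refine ⟨interior (φ ⁻¹' Ici 1), ⟨⟨a, ?_⟩, φ ⁻¹' Ici 1, G, isClosed_Ici.preimage hφ,
      isClosed_Ici.isGδ.preimage hφ, fun x hx => hUV (hZ hx).1, fun x hx => (hZ hx).2, hG, rfl⟩,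
      fun x hx => (hZ (interior_subset hx)).1⟩
    exact mem_interior.2 ⟨{x | 1 < φ x}, fun x hx => show 1 ≤ φ x from le_of_lt hx,
      isOpen_lt continuous_const hφ, hφa⟩
  · choose hne Z G hZc hZd hZV hZG hG hsZ using hs
    choose p hp using hne
    have hanti : Antitone s := antitone_nat_of_succ_le hdec
    choose φ hφ hφa hφw using fun n => bump (show IsOpen (s n) from hsZ n ▸ isOpen_interior) (hp n)
    obtain ⟨x, hx⟩ := feeble (hG 0) φ hφ
      (fun n => ⟨p n, hZG 0 (interior_subset (hsZ 0 ▸ hanti (Nat.zero_le n) (hp n))),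
        lt_trans one_pos (hφa n)⟩) hφw hanti
    have hxZ : x ∈ ⋂ n, Z n := mem_iInter.2 fun n =>
      closure_minimal (show s n ⊆ Z n from hsZ n ▸ interior_subset) (hZc n) (mem_iInter.1 hx n)
    obtain ⟨y, hy⟩ := hV _ (IsGδ.iInter hZd) ⟨x, hxZ⟩ ((iInter_subset Z 0).trans (hZV 0))
    exact ⟨y, mem_iInter.2 fun n => hsZ n ▸ interior_mono (iInter_subset Z n) hy⟩

theorem oxtoby_loc [CompletelyRegularSpace X] (hX : LocPseudocompact X) {V : Set X}
    (hV : SmallPiWeight V ∨ SmallPiNt V ∨ AlmostP V) :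
    ∃ B : Set (Set X), (∀ b ∈ B, IsOpen b ∧ b.Nonempty ∧ b ⊆ V) ∧
      (∀ U : Set X, IsOpen U → U.Nonempty → U ⊆ V → ∃ b ∈ B, b ⊆ U) ∧ CCFamily B := by
  rcases hV with ⟨P, hc, hP1, hP2⟩ | ⟨P, hP1, hP2, hP3⟩ | hV
  · obtain ⟨r, wo, hr⟩ := small_wo hc
    exact loc_aux hX hP1 hP2 r wo fun i O _ _ => hr i _
  · exact loc_aux hX hP1 hP2 WellOrderingRel inferInstance fun i O h1 h2 =>
      (mk_subtype_mono fun j hj => hj.2).trans_lt (hP3 O h1 h2)
  · exact loc_ap hX hV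

theorem oxtoby [CompletelyRegularSpace X] (hX : LocPseudocompact X)
    (hs : ∀ U : Set X, IsOpen U → U.Nonempty →
      ∃ V : Set X, IsOpen V ∧ V.Nonempty ∧ V ⊆ U ∧
        (SmallPiWeight V ∨ SmallPiNt V ∨ AlmostP V)) : Oxtoby X := by
  let S : Set (Set (Set X)) := {F | (∀ V ∈ F, IsOpen V ∧ V.Nonempty ∧
    (SmallPiWeight V ∨ SmallPiNt V ∨ AlmostP V)) ∧
    F.PairwiseDisjoint id}
  obtain ⟨F, hF⟩ : ∃ F, Maximal (· ∈ S) F := by
    refine zorn_subset S fun c hcS hc => ⟨⋃₀ c, ⟨?_, ?_⟩, fun s hs => subset_sUnion_of_mem hs⟩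
    · rintro V ⟨G, hG, hV⟩
      exact (hcS hG).1 V hV
    · rintro V ⟨G, hG, hV⟩ V' ⟨G', hG', hV'⟩ hne
      rcases hc.total hG hG' with h | h
      · exact (hcS hG').2 (h hV) hV' hne
      · exact (hcS hG).2 hV (h hV') hne
  have hFS : F ∈ S := hF.prop
  choose B hB1 hB2 hB3 using fun V : F => oxtoby_loc hX (hFS.1 V.1 V.2).2.2
  refine ⟨⋃ V, B V, ⟨fun b hb => ?_, fun U hU hne => ?_⟩, fun s hs' hdec => ?_⟩
  · obtain ⟨V, hV⟩ := mem_iUnion.1 hb
    exact ⟨(hB1 V b hV).1, (hB1 V b hV).2.1⟩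
  · have : ∃ V ∈ F, (U ∩ V).Nonempty := by
      by_contra hn
      push Not at hn
      obtain ⟨V, hVo, hVne, hVU, hVs⟩ := hs U hU hne
      have hdis : ∀ V' ∈ F, Disjoint V V' := fun V' hV' =>
        disjoint_left.2 fun x hx hx' => by
          have : x ∈ U ∩ V' := ⟨hVU hx, hx'⟩
          rw [hn V' hV'] at this
          exact this
      have hin : insert V F ∈ S := by
        refine ⟨?_, hFS.2.insert fun V' hV' _ => hdis V' hV'⟩
        rintro V' (rfl | hV')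
        · exact ⟨hVo, hVne, hVs⟩
        · exact hFS.1 V' hV'
      have hVF : V ∈ F := hF.2 hin (subset_insert V F) (mem_insert V F)
      obtain ⟨x, hx⟩ := hVne
      exact disjoint_left.1 (hdis V hVF) hx hx
    obtain ⟨V, hV, hUV⟩ := this
    obtain ⟨b, hb, hbU⟩ := hB2 ⟨V, hV⟩ (U ∩ V) (hU.inter (hFS.1 V hV).1) hUV inter_subset_right
    exact ⟨b, mem_iUnion.2 ⟨_, hb⟩, hbU.trans inter_subset_left⟩
  · choose V hV using fun n => mem_iUnion.1 (hs' n)
    have hanti : Antitone s := antitone_nat_of_succ_le hdec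
    have hVe : ∀ n, V n = V 0 := fun n => by
      by_contra hne
      obtain ⟨x, hx⟩ := (hB1 _ _ (hV n)).2.1
      have hd := hFS.2 (V n).2 (V 0).2 fun h => hne (Subtype.ext h)
      exact disjoint_left.1 hd ((hB1 _ _ (hV n)).2.2 hx)
        ((hB1 _ _ (hV 0)).2.2 (hanti (Nat.zero_le n) hx))
    exact hB3 (V 0) s (fun n => hVe n ▸ hV n) hdec

end Pool.Agent.H84.PsCC
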