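import Pool.Agent.H84.PsCC

/-! Countably compact bases from cozero bases of Noetherian type at most the continuum. -/

namespace Pool.Agent.H84.PsCC

open Set Cardinal Topology TopologicalSpace

universe u

/-- A base of cozero sets such that each nonempty open set lies in fewer than continuum many
members. -/
def SmallNtCozero (X : Type u) [TopologicalSpace X] : Prop :=
  ∃ W : Set (Set X), IsTopologicalBasis W ∧
    (∀ w ∈ W, ∃ f : X → ℝ, Continuous f ∧ w = {x | 0 < f x}) ∧
    ∀ O : Set X, IsOpen O → O.Nonempty → #{b : W // O ⊆ b.1} < continuum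

variable {X : Type u} [TopologicalSpace X]

theorem telgarsky2 (hX : LocPseudocompact X) (h : SmallNtCozero X) : Telgarsky X := by
  obtain ⟨W, hW, hz, hs⟩ := h
  choose φ hφ hφw using fun w : W => hz w.1 w.2
  let I := {p : W × ℕ // (∃ x, 1 < ((p.2 : ℝ) + 1) * φ p.1 x) ∧
    ∃ G : Set X, Pseudocompact (closure G) ∧ p.1.1 ⊆ G}
  let f : I → X → ℝ := fun i x => ((i.1.2 : ℝ) + 1) * φ i.1.1 x
  have hf : ∀ i, Continuous (f i) := fun i => continuous_const.mul (hφ _)
  have h2 : ∀ i x, 0 < f i x → x ∈ i.1.1.1 := fun i x hx => by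
    rw [hφw]
    exact (pos_iff_pos_of_mul_pos hx).1 (by positivity)
  obtain ⟨t, ht, hcc⟩ := cc WellOrderingRel inferInstance f hf (fun i => by
      have h0 := hs {x | 1 < f i x} (isOpen_lt continuous_const (hf i)) i.2.1
      have h1 : #{j // WellOrderingRel j i ∧ {x | 1 < f i x} ⊆ {x | 0 < f j x}} ≤
          #({b : W // {x | 1 < f i x} ⊆ b.1} × ULift.{u} ℕ) :=
        mk_le_of_injective (f := fun j => (⟨j.1.1.1, fun x hx => h2 j.1 x (j.2.2 hx)⟩, ⟨j.1.1.2⟩))
          fun a b e => Subtype.ext (Subtype.ext (Prod.ext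
            (congrArg (fun z => z.1.1) e) (congrArg (fun z => z.2.down) e)))
      refine h1.trans_lt ?_
      rw [mk_prod, lift_id, lift_id]
      exact mul_lt_of_lt aleph0_le_continuum h0 (by simpa using aleph0_lt_continuum))
    (fun i => i.2.1.imp fun x hx => hx.le)
    (fun i => by
      obtain ⟨G, hG, hG'⟩ := i.2.2
      exact ⟨G, hG, fun x hx => hG' (h2 i x hx)⟩)
  refine ⟨_, isTopologicalBasis_of_isOpen_of_nhds ?_ ?_, hcc⟩
  · rintro _ ⟨i, rfl⟩
    exact isOpen_lt continuous_const (hf i)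
  · intro a U haU hU
    obtain ⟨G, hGo, haG, hG⟩ := hX a
    obtain ⟨w, hw, haw, hwU⟩ := hW.exists_subset_of_mem_open (mem_inter haU haG) (hU.inter hGo)
    have hpos : 0 < φ ⟨w, hw⟩ a := by
      have := hφw ⟨w, hw⟩
      simp only at this
      rw [this] at haw
      exact haw
    obtain ⟨n, hn⟩ := exists_nat_gt (1 / φ ⟨w, hw⟩ a)
    have h1 : 1 < ((n : ℝ) + 1) * φ ⟨w, hw⟩ a := by
      rw [div_lt_iff₀ hpos] at hn
      nlinarith
    let i : I := ⟨(⟨w, hw⟩, n), ⟨a, h1⟩, G, hG, fun x hx => (hwU hx).2⟩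
    exact ⟨_, ⟨i, rfl⟩, lt_trans (ht i).2 h1, fun x hx => (hwU (h2 i x (lt_trans (ht i).1 hx))).1⟩

end Pool.Agent.H84.PsCC
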