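import Pool.Agent.H84.QcfDefs

/-! A free Suslin tree with the wedge topology. -/

namespace Pool.Agent.H84.Qcf

open Set Filter Topology TopologicalSpace Pool.Agent.H84.QcfDefs

theorem cfin {α : Type} {C : Set α} (hC : C.Countable) : {F : Finset α | ↑F ⊆ C}.Countable :=
  ((countable_ofPred_finite_subset hC).preimage Finset.coe_injective).mono fun F hF => by
    exact ⟨F.finite_toSet, hF⟩

theorem exists_closed {α : Type} (Φ : Finset α → Set α) (hΦ : ∀ F, (Φ F).Countable) (A : Set α)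
    (hA : A.Countable) :
    ∃ C : Set α, C.Countable ∧ A ⊆ C ∧ ∀ F : Finset α, (F : Set α) ⊆ C → Φ F ⊆ C := by
  let c : ℕ → Set α := fun n => Nat.rec A (fun _ B => B ∪ ⋃ F ∈ {F : Finset α | ↑F ⊆ B}, Φ F) n
  have h1 : ∀ n, (c n).Countable := fun n => by
    induction n with
    | zero => exact hA
    | succ n ih => exact ih.union ((cfin ih).biUnion fun F _ => hΦ F)
  have h2 : Monotone c := monotone_nat_of_le_succ fun n => subset_union_left
  refine ⟨⋃ n, c n, countable_iUnion h1, subset_iUnion c 0, fun F hF => ?_⟩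
  obtain ⟨n, hn⟩ := (h2.directed_le.exists_mem_subset_of_finset_subset_biUnion hF)
  exact (subset_union_of_subset_right (subset_biUnion_of_mem (u := Φ) hn) _).trans
    (subset_iUnion c (n + 1))

variable {T : Type} [PartialOrder T]

/-- The topology generated by cones and their complements. -/
@[reducible] def wedge (T : Type) [PartialOrder T] : TopologicalSpace T :=
  generateFrom (range Ici ∪ range fun t => (Ici t)ᶜ)

attribute [local instance 10] wedge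

theorem clopen_Ici (t : T) : IsClopen (Ici t) :=
  ⟨⟨isOpen_generateFrom_of_mem (Or.inr ⟨t, rfl⟩)⟩, isOpen_generateFrom_of_mem (Or.inl ⟨t, rfl⟩)⟩

theorem exists_clopen {x : T} {U : Set T} (hU : IsOpen U) (hx : x ∈ U) :
    ∃ V, IsClopen V ∧ x ∈ V ∧ V ⊆ U := by
  obtain ⟨_, ⟨F, ⟨f1, f2⟩, rfl⟩, a⟩ :=
    (isTopologicalBasis_of_subbasis rfl).exists_subset_of_mem_open hx hU
  refine ⟨⋂₀ F, ?_, a⟩
  rw [sInter_eq_biInter]
  refine f1.isClopen_biInter fun s hs => ?_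
  rcases f2 hs with ⟨t, rfl⟩ | ⟨t, rfl⟩
  exacts [clopen_Ici t, (clopen_Ici t).compl]

variable (h : FreeSuslin T)

include h

theorem tot {a b c : T} (ha : a ≤ c) (hb : b ≤ c) : a ≤ b ∨ b ≤ a := (h.tree c).total ha hb

theorem cov_eq {x a b c : T} (ha : x ⋖ a) (hb : x ⋖ b) (h1 : a ≤ c) (h2 : b ≤ c) : a = b := by
  rcases tot h h1 h2 with e | e
  exacts [(hb.eq_or_eq ha.le e).resolve_left ha.ne', ((ha.eq_or_eq hb.le e).resolve_left hb.ne').symm]

theorem exists_cov {x y : T} (hxy : x < y) : ∃ s, x ⋖ s ∧ s ≤ y := by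
  have := h.wf
  obtain ⟨s, hs⟩ := exists_minimal_of_wellFoundedLT (fun s => x < s ∧ s ≤ y) ⟨y, hxy, le_rfl⟩
  exact ⟨s, ⟨hs.1.1, fun c c1 c2 => c2.not_ge (hs.2 ⟨c1, c2.le.trans hs.1.2⟩ c2.le)⟩, hs.1.2⟩

theorem nhds_cov {x : T} {U : Set T} (hU : U ∈ 𝓝 x) : ∀ᶠ s in cofinite, x ⋖ s → Ici s ⊆ U := by
  rw [nhds_generateFrom] at hU
  refine Filter.iInf_sets_induct (f := fun s : {s | x ∈ s ∧ s ∈ range Ici ∪
    range fun t : T => (Ici t)ᶜ} => 𝓟 s.1) (p := fun U => ∀ᶠ s in cofinite, x ⋖ s → Ici s ⊆ U)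
    (by rwa [iInf_subtype]) (by simp) ?_
  rintro ⟨_, a, ⟨t, rfl⟩ | ⟨t, rfl⟩⟩ s1 s2 h1 h2
  · exact h2.mono fun s hs c => subset_inter (fun y hy => h1 (le_trans a (c.le.trans hy))) (hs c)
  · have : {s | x ⋖ s ∧ s ≤ t}.Subsingleton := fun a ha b hb => cov_eq h ha.1 hb.1 ha.2 hb.2
    filter_upwards [h2, this.finite.compl_mem_cofinite] with s hs e c
    refine subset_inter (fun y hy => h1 fun z => ?_) (hs c)
    rcases tot h hy z with g | g
    · exact e ⟨c, g⟩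
    · rcases tot h c.le g with k | k
      · exact (c.eq_or_eq k g).elim (fun k => a k.le) fun k => e ⟨c, k.ge⟩
      · exact a k

theorem exists_cone {U : Set T} (hU : IsOpen U) (hn : U.Nonempty) : ∃ s, Ici s ⊆ U := by
  obtain ⟨x, hx⟩ := hn
  obtain ⟨s, s1, s2⟩ := ((frequently_cofinite_iff_infinite.2 (h.branch x)).and_eventually
    (nhds_cov h (hU.mem_nhds hx))).exists
  exact ⟨s, s2 s1⟩

theorem whyburn : OpenWhyburn T := by
  classical
  intro A hA x hx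
  have : ∀ s : {s | x ⋖ s ∧ (Ici s ∩ A).Nonempty}, ∃ t, Ici t ⊆ Ici s.1 ∩ A := fun s =>
    exists_cone h ((clopen_Ici _).2.inter hA) s.2.2
  choose t ht using this
  refine ⟨⋃ s, Ici (t s), isOpen_iUnion fun s => (clopen_Ici _).2,
    iUnion_subset fun s => (ht s).trans inter_subset_right, subset_antisymm (fun y hy => ?_) ?_⟩
  · by_contra c
    by_cases e : x ≤ y
    · obtain ⟨s, s1, s2⟩ := exists_cov h (e.lt_of_ne' c)
      obtain ⟨z, z1, z2⟩ := mem_closure_iff.1 hy.1 _ (clopen_Ici s).2 s2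
      obtain ⟨r, hr⟩ := mem_iUnion.1 z2
      obtain ⟨w, w1, w2⟩ := mem_closure_iff.1 hy.1 _ ((clopen_Ici s).2.inter
        (clopen_Ici (t r)).compl.2) ⟨s2, fun a => hy.2 (ht r a).2⟩
      obtain ⟨q, hq⟩ := mem_iUnion.1 w2
      have : q = r := Subtype.ext ((cov_eq h q.2.1 s1 (ht q hq).1 w1.1).trans
        (cov_eq h s1 r.2.1 z1 (ht r hr).1))
      exact w1.2 (this ▸ hq)
    · obtain ⟨z, z1, z2⟩ := mem_closure_iff.1 hy.1 _ (clopen_Ici x).compl.2 e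
      obtain ⟨r, hr⟩ := mem_iUnion.1 z2
      exact z1 (r.2.1.le.trans (ht r hr).1)
  · rintro _ rfl
    refine ⟨mem_closure_iff_nhds.2 fun U hU => ?_, hx.2⟩
    have hF := nhds_cov h hU
    obtain ⟨y, ⟨y1, y2⟩, y3⟩ := mem_closure_iff_nhds.1 hx.1 _ (inter_mem
      ((clopen_Ici _).2.mem_nhds le_rfl) ((biInter_mem hF).2 fun s hs =>
        (clopen_Ici s).compl.2.mem_nhds (Classical.not_imp.1 hs).1.lt.not_ge))
    obtain ⟨s, s1, s2⟩ := exists_cov h (lt_of_le_of_ne y1 fun e => hx.2 (e ▸ y3))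
    have : Ici s ⊆ U := by_contra fun c => mem_iInter₂.1 y2 s (fun a => c (a s1)) s2
    exact ⟨t ⟨s, s1, y, s2, y3⟩, this (ht ⟨s, s1, y, s2, y3⟩ le_rfl).1,
      mem_iUnion_of_mem ⟨s, s1, y, s2, y3⟩ le_rfl⟩

theorem low (c : T) : {x | Iio x ⊆ Iio c}.Countable := by
  have := h.wf
  refine ((h.chain _ (h.tree c)).biUnion (t := fun d _ => {x | Iio x = Iio d}) fun d _ =>
    h.anti _ fun a ha b hb e g => ?_).mono fun x hx => ?_
  · have : a ∈ Iio b := g.lt_of_ne e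
    rw [hb, ← ha] at this
    exact lt_irrefl a this
  · obtain ⟨d, hd⟩ := exists_minimal_of_wellFoundedLT (fun d => d ≤ c ∧ ¬ d < x)
      ⟨c, le_rfl, fun a => lt_irrefl c (hx a)⟩
    refine mem_biUnion hd.1.1 (subset_antisymm (fun y hy => ?_) fun y hy => by_contra fun a =>
      hy.not_ge (hd.2 ⟨hy.le.trans hd.1.1, a⟩ hy.le))
    rcases tot h (hx hy).le hd.1.1 with e | e
    · exact e.lt_of_ne fun a => hd.1.2 (a ▸ hy)
    · exact absurd (e.trans_lt hy) hd.1.2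

theorem cover {ι : Type} (G : ι → Set T) (hG : ∀ (F U : Finset T) (v : U → T),
    ∃ i, ↑F ⊆ G i ∧ ∀ u, ∃ s, v u ≤ s ∧ Ici s ⊆ G i) :
    ∃ I : Set ι, I.Countable ∧ ∀ F : Finset T, ∃ i ∈ I, ↑F ⊆ G i := by
  classical
  have := h.wf
  have h1 : ∀ F U : Finset T, ∃ S : Set (U → T), S.Countable ∧ (∀ s ∈ S, ∃ i, ↑F ⊆ G i ∧
      ∀ u, Ici (s u) ⊆ G i) ∧ (IsAntichain (· ≤ ·) (U : Set T) → ∀ v : U → T, (∀ u : U, u.1 ≤ v u) →
        ∃ s ∈ S, ∀ u, ∃ w, v u ≤ w ∧ (s u ≤ w ∨ w ≤ s u)) := fun F U => by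
    by_cases hU : IsAntichain (· ≤ ·) (U : Set T)
    swap
    · exact ⟨∅, countable_empty, by simp, fun a => absurd a hU⟩
    obtain ⟨S, hS⟩ := zorn_subset {S : Set (U → T) | (∀ s ∈ S, (∀ u : U, u.1 ≤ s u) ∧
      ∃ i, ↑F ⊆ G i ∧ ∀ u, Ici (s u) ⊆ G i) ∧
        S.Pairwise fun s s' => ∃ u, ¬(s u ≤ s' u ∨ s' u ≤ s u)} fun c c1 c2 =>
      ⟨⋃₀ c, ⟨fun s ⟨S, a, b⟩ => (c1 a).1 s b, c2.pairwise_sUnion.2 fun S a => (c1 a).2⟩,
        fun _ => subset_sUnion_of_mem⟩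
    refine ⟨S, h.free U hU S (fun s a => (hS.1.1 s a).1) hS.1.2, fun s a => (hS.1.1 s a).2,
      fun _ v hv => ?_⟩
    obtain ⟨i, i1, i2⟩ := hG F U v
    choose w w1 w2 using i2
    by_contra c
    push Not at c
    have : w ∈ S := hS.2 (y := insert w S) ⟨forall_mem_insert.2 ⟨⟨fun u => (hv u).trans (w1 u),
      i, i1, w2⟩, hS.1.1⟩, hS.1.2.insert fun s hs _ =>
        ⟨(c s hs).imp fun u a b => Or.elim b (a _ (w1 u)).2 (a _ (w1 u)).1,
          (c s hs).imp fun u a b => Or.elim b (a _ (w1 u)).1 (a _ (w1 u)).2⟩⟩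
      (subset_insert _ _) (mem_insert _ _)
    obtain ⟨u, hu⟩ := c w this
    exact (hu _ (w1 u)).1 le_rfl
  choose S s1 s2 s3 using h1
  have : Nonempty ι := ⟨(hG ∅ ∅ fun u => u).choose⟩
  choose! g g1 g2 using s2
  obtain ⟨C, c1, c2, c3⟩ := exists_closed (fun F => (⋃ c ∈ F, {x | Iio x ⊆ Iio c}) ∪
      ⋃ F' ∈ F.powerset, ⋃ U ∈ F.powerset, ⋃ s ∈ S F' U, range s) (fun F =>
    (F.countable_toSet.biUnion fun c _ => low h c).union (F.powerset.countable_toSet.biUnion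
      fun F' _ => F.powerset.countable_toSet.biUnion fun U _ => (s1 F' U).biUnion
        fun s _ => countable_range s)) {x | Iio x = ∅} (h.anti _ fun a _ b hb e g =>
          (hb ▸ (g.lt_of_ne e : a ∈ Iio b) : a ∈ (∅ : Set T)))
  have c4 : ∀ c ∈ C, ∀ x, Iio x ⊆ Iio c → x ∈ C := fun c hc x hx =>
    c3 {c} (by simpa) (Or.inl (by simpa))
  have c5 : ∀ c ∈ C, ∀ x ≤ c, x ∈ C := fun c hc x hx => c4 c hc x (Iio_subset_Iio hx)
  have cf := cfin c1
  refine ⟨⋃ F ∈ {F : Finset T | ↑F ⊆ C}, ⋃ U ∈ {F : Finset T | ↑F ⊆ C}, g F U '' S F U,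
    cf.biUnion fun F _ => cf.biUnion fun U _ => (s1 F U).image _, fun F => ?_⟩
  have h2 : ∀ b : Set T, (∃ t ∉ C, b = Iic t ∩ C) → ∃ c ∈ b, ∀ t ∈ F, t ∉ C →
      Iic t ∩ C ≠ b → ¬ c ≤ t := by
    rintro _ ⟨t, ht, rfl⟩
    obtain ⟨x, hx⟩ := exists_minimal_of_wellFoundedLT (fun x => x ≤ t ∧ x ∉ C) ⟨t, le_rfl, ht⟩
    have hx' : ∀ y < x, y ∈ Iic t ∩ C := fun y hy => ⟨hy.le.trans hx.1.1, by_contra fun a =>
      hy.not_ge (hx.2 ⟨hy.le.trans hx.1.1, a⟩ hy.le)⟩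
    induction F using Finset.induction_on with
    | empty =>
      obtain ⟨y, hy⟩ := nonempty_iff_ne_empty.2 fun a => hx.1.2 (c2 a)
      exact ⟨y, hx' y hy, by simp⟩
    | insert r F _ ih =>
      obtain ⟨c, a1, a2⟩ := ih
      by_cases e : Iic t ∩ C ⊆ Iic r
      · refine ⟨c, a1, Finset.forall_mem_insert _ _ _ |>.2 ⟨fun _ a _ => a (subset_antisymm
          (fun d hd => by_contra fun b => hx.1.2 (c4 d hd.2 x fun y hy => ?_))
          fun d hd => ⟨e hd, hd.2⟩), a2⟩⟩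
        rcases tot h (e (hx' y hy)) hd.1 with k | k
        · exact k.lt_of_ne fun k => b (k ▸ hx' y hy)
        · exact absurd ⟨k.trans (hx' y hy).1, hd.2⟩ b
      · obtain ⟨d, d1, d2⟩ := not_subset.1 e
        rcases tot h a1.1 d1.1 with k | k
        · exact ⟨d, d1, Finset.forall_mem_insert _ _ _ |>.2 ⟨fun _ _ => d2,
            fun s hs b1 b2 b3 => a2 s hs b1 b2 (k.trans b3)⟩⟩
        · exact ⟨c, a1, Finset.forall_mem_insert _ _ _ |>.2 ⟨fun _ _ b => d2 (k.trans b), a2⟩⟩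
  have : Nonempty T := (h.card ▸ Cardinal.aleph0_lt_aleph_one : _ < Cardinal.mk T).ne_bot
    |> Cardinal.mk_ne_zero_iff.1
  choose! π p1 p2 using h2
  set U := (F.filter (· ∉ C)).image fun t => π (Iic t ∩ C) with hU
  have u1 : ∀ u : U, ∃ t, t ∈ F ∧ t ∉ C ∧ π (Iic t ∩ C) = u := fun u => by
    obtain ⟨t, a, b⟩ := Finset.mem_image.1 u.2
    exact ⟨t, (Finset.mem_filter.1 a).1, (Finset.mem_filter.1 a).2, b⟩
  choose v v1 v2 v3 using u1
  have u2 : ∀ u : U, u.1 ∈ Iic (v u) ∩ C := fun u => v3 u ▸ p1 _ ⟨_, v2 u, rfl⟩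
  have u3 : ∀ (u : U), ∀ t ∈ F, t ∉ C → u.1 ≤ t → Iic t ∩ C = Iic (v u) ∩ C :=
    fun u t t1 t2 t3 => by_contra fun a => p2 _ ⟨_, v2 u, rfl⟩ t t1 t2 a (v3 u ▸ t3)
  obtain ⟨s, hs, s4⟩ := s3 (F.filter (· ∈ C)) U (fun a ha b hb e k => e (by
    have := u3 ⟨a, ha⟩ _ (v1 ⟨b, hb⟩) (v2 _) (k.trans (u2 ⟨b, hb⟩).1)
    exact (v3 ⟨a, ha⟩).symm.trans (this ▸ v3 ⟨b, hb⟩))) v fun u => (u2 u).1
  have f1 : ((F.filter (· ∈ C) : Finset T) : Set T) ⊆ C := fun t ht => (Finset.mem_filter.1 ht).2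
  have f2 : (U : Set T) ⊆ C := fun u hu => (u2 ⟨u, hu⟩).2
  refine ⟨_, mem_biUnion f1 (mem_biUnion f2 (mem_image_of_mem _ hs)), fun t ht => ?_⟩
  by_cases e : t ∈ C
  · exact g1 _ _ s hs (Finset.mem_filter.2 ⟨ht, e⟩)
  · let u : U := ⟨_, Finset.mem_image_of_mem _ (Finset.mem_filter.2 ⟨ht, e⟩)⟩
    have a : s u ∈ C := c3 (F.filter (· ∈ C) ∪ U) (by rw [Finset.coe_union]; exact union_subset f1 f2) (Or.inr (mem_biUnion
      (Finset.mem_powerset.2 Finset.subset_union_left) (mem_biUnion (Finset.mem_powerset.2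
        Finset.subset_union_right) (mem_biUnion hs (mem_range_self u)))))
    obtain ⟨w, w1, w2⟩ := s4 u
    have b : s u ≤ v u := (tot h (w2.resolve_right fun k => v2 u (c5 _ a _ (w1.trans k))) w1).resolve_right
      fun k => v2 u (c5 _ a _ k)
    have : s u ∈ Iic t ∩ C := u3 u t ht e (p1 _ ⟨t, e, rfl⟩).1 ▸ ⟨b, a⟩
    exact g2 _ _ s hs u this.1

theorem frechet (hp : PBig) : FrechetUrysohnSpace {f : T → ℝ // QuasiCont f} := by
  refine ⟨fun A f hf => ?_⟩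
  have h0 : ∀ (F : Finset T) (ε : ℝ), 0 < ε → ∃ g ∈ A, ∀ t ∈ F, dist (g.1 t) (f.1 t) < ε :=
    fun F ε hε => (mem_closure_iff_frequently.1 hf |>.and_eventually ((eventually_all_finset F).2
      fun t _ => Metric.tendsto_nhds.1 (((continuous_apply t).comp
        continuous_subtype_val).tendsto f) ε hε)).exists
  have hq : ∀ (g : {f : T → ℝ // QuasiCont f}) (x : T) (ε : ℝ), 0 < ε →
      ∃ s, x ≤ s ∧ ∀ y, s ≤ y → dist (g.1 y) (g.1 x) < ε := fun g x ε hε => by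
    obtain ⟨W, w1, w2, w3, w4⟩ := g.2 x _ _ (clopen_Ici x).2 le_rfl Metric.isOpen_ball
      (Metric.mem_ball_self hε)
    obtain ⟨s, hs⟩ := exists_cone h w1 w2
    exact ⟨s, w3 (hs le_rfl), fun y hy => w4 (hs hy)⟩
  have h1 : ∀ k : ℕ, ∃ I : Set A, I.Countable ∧ ∀ F : Finset T, ∃ i ∈ I,
      ↑F ⊆ {t | dist (i.1.1 t) (f.1 t) < 1 / (k + 1)} := fun k => cover h _ fun F U v => by
    classical
    have e : (0 : ℝ) < 1 / (k + 1) / 4 := by positivity
    choose w w1 w2 using fun u => hq f (v u) _ e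
    obtain ⟨g, g1, g2⟩ := h0 (F ∪ Finset.univ.image w) _ e
    refine ⟨⟨g, g1⟩, fun t ht => (g2 t (Finset.mem_union_left _ ht)).trans (by linarith),
      fun u => ?_⟩
    obtain ⟨s, s1, s2⟩ := hq g (w u) _ e
    refine ⟨s, (w1 u).trans s1, fun y hy => ?_⟩
    have a := s2 y hy
    have b := g2 (w u) (by simp)
    have c := w2 u _ le_rfl
    have d := w2 u y (s1.trans hy)
    simp only [mem_ofPred_eq, Real.dist_eq, abs_lt] at *
    constructor <;> linarith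
  choose I i1 i2 using h1
  obtain ⟨g, hg⟩ := (countable_iUnion i1).exists_eq_range
    (let ⟨i, a, _⟩ := i2 0 ∅; ⟨i, mem_iUnion_of_mem 0 a⟩)
  set S : T × ℕ → Set ℕ := fun p =>
    {n | dist ((g n.unpair.1).1.1 p.1) (f.1 p.1) < 1 / (p.2 + 1)} with hS
  obtain ⟨B, b1, b2⟩ := hp (range S) (Cardinal.mk_range_le.trans_eq (by simp [h.card])) fun G g1 g2 => by
    classical
    obtain ⟨P, -, e⟩ := Finset.subset_set_image_iff.1
      (show (g2.toFinset : Set (Set ℕ)) ⊆ S '' univ by simpa using g1)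
    obtain rfl : G = S '' P := by rw [← g2.coe_toFinset, ← e, Finset.coe_image]
    obtain ⟨i, a1, a2⟩ := i2 (P.sup Prod.snd) (P.image Prod.fst)
    obtain ⟨n, rfl⟩ : i ∈ range g := hg ▸ mem_iUnion_of_mem _ a1
    refine infinite_of_injective_forall_mem (f := Nat.pair n)
      (fun _ _ e => (Nat.pair_eq_pair.1 e).2) fun m => sInter_image _ _ ▸ mem_iInter₂.2 fun p hp => ?_
    simp only [hS, mem_ofPred_eq, Nat.unpair_pair]
    exact lt_of_lt_of_le (a2 (Finset.mem_image_of_mem _ hp))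
      (Nat.one_div_le_one_div (Finset.le_sup (f := Prod.snd) hp))
  refine ⟨fun j => (g (Nat.nth (· ∈ B) j).unpair.1).1, fun j => (g _).2,
    tendsto_subtype_rng.2 (tendsto_pi_nhds.2 fun t => Metric.tendsto_nhds.2 fun ε hε => ?_)⟩
  obtain ⟨k, hk⟩ := exists_nat_one_div_lt hε
  have := (Nat.nth_injective b1).tendsto_cofinite.eventually
    (b2 _ (mem_range_self (t, k))).compl_mem_cofinite
  rw [Nat.cofinite_eq_atTop] at this
  exact this.mono fun j hj => lt_trans (by_contra fun c => hj ⟨Nat.nth_mem_of_infinite b1 j, c⟩) hk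

theorem main (hp : PBig) : ∃ (X : Type) (_ : TopologicalSpace X), Uncountable X ∧ T2Space X ∧
    SemiRegular X ∧ OpenWhyburn X ∧ FrechetUrysohnSpace {f : X → ℝ // QuasiCont f} := by
  refine ⟨T, wedge T, Cardinal.aleph0_lt_mk_iff.1 (h.card ▸ Cardinal.aleph0_lt_aleph_one),
    ⟨fun x y e => ?_⟩, isTopologicalBasis_of_isOpen_of_nhds (fun U hU => hU ▸ isOpen_interior)
      fun x U hx hU => ?_, whyburn h, frechet h hp⟩
  · by_cases c : x ≤ y
    · exact ⟨_, _, (clopen_Ici y).compl.2, (clopen_Ici y).2, fun a => e (c.antisymm a), le_rfl,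
        disjoint_compl_left⟩
    · exact ⟨_, _, (clopen_Ici x).2, (clopen_Ici x).compl.2, le_rfl, c, disjoint_compl_right⟩
  · obtain ⟨V, v1, v2⟩ := exists_clopen hU hx
    exact ⟨V, by rw [mem_ofPred_eq, v1.1.closure_eq, v1.2.interior_eq], v2⟩

end Pool.Agent.H84.Qcf
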