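import Mathlib

/-! Quasicontinuous functions, open Whyburn spaces, free Suslin trees. -/

namespace Pool.Agent.H84.QcfDefs

open Set TopologicalSpace

/-- Quasicontinuous real functions. -/
def QuasiCont {X : Type} [TopologicalSpace X] (f : X → ℝ) : Prop :=
  ∀ x U V, IsOpen U → x ∈ U → IsOpen V → f x ∈ V →
    ∃ W, IsOpen W ∧ W.Nonempty ∧ W ⊆ U ∧ MapsTo f W V

/-- The regular open sets form a base. -/
def SemiRegular (X : Type) [TopologicalSpace X] : Prop :=
  IsTopologicalBasis {U : Set X | interior (closure U) = U}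

/-- Open Whyburn spaces. -/
def OpenWhyburn (X : Type) [TopologicalSpace X] : Prop :=
  ∀ A : Set X, IsOpen A → ∀ x ∈ closure A \ A, ∃ B, IsOpen B ∧ B ⊆ A ∧ closure B \ A = {x}

/-- An infinitely branching free Suslin tree: a tree of size `ℵ₁` without uncountable chains or
antichains, in which the product of the cones above finitely many pairwise incomparable nodes
has no uncountable family of pairwise incompatible tuples. -/
structure FreeSuslin (T : Type) [PartialOrder T] : Prop where
  wf : WellFoundedLT T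
  tree : ∀ t : T, IsChain (· ≤ ·) (Iic t)
  card : Cardinal.mk T = Cardinal.aleph 1
  chain : ∀ C : Set T, IsChain (· ≤ ·) C → C.Countable
  anti : ∀ A : Set T, IsAntichain (· ≤ ·) A → A.Countable
  branch : ∀ t : T, {s | t ⋖ s}.Infinite
  free : ∀ U : Finset T, IsAntichain (· ≤ ·) (U : Set T) → ∀ S : Set (U → T),
    (∀ s ∈ S, ∀ u : U, u.1 ≤ s u) →
      (S.Pairwise fun s s' => ∃ u, ¬(s u ≤ s' u ∨ s' u ≤ s u)) → S.Countable

/-- The pseudo-intersection number exceeds `ℵ₁`. -/
def PBig : Prop :=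
  ∀ F : Set (Set ℕ), Cardinal.mk F ≤ Cardinal.aleph 1 →
    (∀ G ⊆ F, G.Finite → (⋂₀ G).Infinite) → ∃ B : Set ℕ, B.Infinite ∧ ∀ A ∈ F, (B \ A).Finite

end Pool.Agent.H84.QcfDefs
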