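import Pool.Agent.H84.RaiDefs

namespace Pool.Agent.H84.Rai

open Set Filter Pool.Agent.H84.RaiDefs Pool.Agent.H84.BeqDefs

/-- The partition adapted to `f`. -/
def dd (f : ℕ → ℕ) : ℕ → ℕ
  | 0 => 0
  | m + 1 => dd f m + 1 +
      (Finset.range (2 ^ dd f m) ×ˢ Finset.range m).sup fun p => f (Nat.pair m (Nat.pair p.1 p.2))

theorem sub : R ⊆ SN := by
  classical
  intro X hX f
  obtain ⟨B, hB, hx⟩ := hX (dd f) (strictMono_nat_of_lt_succ fun m => by
    simp only [dd]; omega) rfl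
  let g : ℕ → ℕ → ℕ → ℕ → Bool := fun m a b i => if h : i ∈ Ico (dd f m) (dd f (m + 1)) then
    (B m).toList.getD b (fun _ => false) ⟨i, h⟩ else a.testBit i
  refine ⟨fun n => g n.unpair.1 n.unpair.2.unpair.1 n.unpair.2.unpair.2, fun x hxX => ?_⟩
  obtain ⟨m, hm⟩ := (hx x hxX).exists
  obtain ⟨b, hb, hbx⟩ := List.getElem_of_mem (Finset.mem_toList.2 hm)
  have hbm : b < m := lt_of_lt_of_le (by simpa using hb) (hB m)
  set a := Nat.ofBits fun i : Fin (dd f m) => x i with ha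
  refine ⟨Nat.pair m (Nat.pair a b), fun i hi => ?_⟩
  have hle : f (Nat.pair m (Nat.pair a b)) ≤ dd f (m + 1) := by
    have : f (Nat.pair m (Nat.pair a b)) ≤ _ :=
      Finset.le_sup (f := fun p : ℕ × ℕ => f (Nat.pair m (Nat.pair p.1 p.2)))
      (s := Finset.range (2 ^ dd f m) ×ˢ Finset.range m) (b := (a, b))
      (by simp [hbm, ha, Nat.ofBits_lt_two_pow])
    simp only [dd]; omega
  simp only [Nat.unpair_pair, g]
  split_ifs with h
  · rw [List.getD_eq_getElem _ _ hb, hbx]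
  · have : i < dd f m := by
      simp only [mem_Ico, not_and, not_lt] at h
      by_contra hc
      have := h (not_lt.1 hc); omega
    rw [ha, Nat.testBit_ofBits_lt _ _ this]

theorem sing (x : ℕ → Bool) : {x} ∈ R := by
  classical
  intro d _ _
  refine ⟨fun m => if m = 0 then ∅ else {fun i : Ico (d m) (d (m + 1)) => x i}, fun m => ?_, ?_⟩
  · dsimp only
    split_ifs with h
    · simp
    · simp; omega
  · rintro _ rfl
    filter_upwards [eventually_gt_atTop 0] with m hm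
    simp [hm.ne']

theorem cov_le : cov SN ≤ cov R := by
  refine csInf_le_csInf' ⟨_, range fun x : ℕ → Bool => ({x} : Set _), ?_, ?_, rfl⟩ ?_
  · rintro _ ⟨x, rfl⟩; exact sing x
  · exact eq_univ_of_forall fun x => ⟨{x}, ⟨x, rfl⟩, rfl⟩
  · rintro _ ⟨S, hS, hU, rfl⟩
    exact ⟨S, hS.trans sub, hU, rfl⟩

end Pool.Agent.H84.Rai
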