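import Pool.Agent.H84.BeqDefs

/-! The Raisonnier ideal, strong measure zero sets, and cofinality of an ideal. -/

namespace Pool.Agent.H84.RaiDefs

open Set Filter

/-- The Raisonnier ideal: for every partitioning real `d` the set goes through a `d`-binary
slalom. -/
def R : Set (Set (ℕ → Bool)) :=
  {X | ∀ d : ℕ → ℕ, StrictMono d → d 0 = 0 →
    ∃ B : (m : ℕ) → Finset (Ico (d m) (d (m + 1)) → Bool), (∀ m, (B m).card ≤ m) ∧
      ∀ x ∈ X, ∀ᶠ m in atTop, (fun i : Ico (d m) (d (m + 1)) => x i) ∈ B m}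

/-- Strong measure zero subsets of the Cantor space: for every `f` the set is covered by
cylinders whose `n`-th one has length `f n`. -/
def SN : Set (Set (ℕ → Bool)) :=
  {X | ∀ f : ℕ → ℕ, ∃ σ : ℕ → ℕ → Bool, ∀ x ∈ X, ∃ n, ∀ i < f n, x i = σ n i}

/-- Cofinality of an ideal. -/
noncomputable def cof (I : Set (Set (ℕ → Bool))) : Cardinal :=
  sInf {c | ∃ S ⊆ I, (∀ A ∈ I, ∃ B ∈ S, A ⊆ B) ∧ Cardinal.mk S = c}

end Pool.Agent.H84.RaiDefs
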