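import Mathlib

set_option autoImplicit false

namespace Pool.Agent.H84.Rudin

open Set Topology Filter
open Cardinal hiding univ

/-- the initial ordinal of the continuum -/
abbrev W : Type := (Cardinal.continuum.{0}).ord.ToType

theorem exists_surj : ∃ e : W → ℝ, Function.Surjective e := by
  have : #ℝ = #W := by rw [mk_real, mk_ord_toType]
  obtain ⟨e⟩ := Cardinal.eq.1 this
  exact ⟨e.symm, e.symm.surjective⟩

/-- an enumeration of the reals -/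
noncomputable def e : W → ℝ := exists_surj.choose

theorem e_surj : Function.Surjective e := exists_surj.choose_spec

theorem bdd_of_countable {s : Set W} (hs : s.Countable) : ∃ x, ∀ y ∈ s, y < x := by
  rw [← not_isCofinal_iff]
  intro h
  have h1 := Order.cof_le h
  rw [Ordinal.cof_toType] at h1
  have h2 := lt_cof_ord_power (a := ℵ₀) (b := 2) le_rfl one_lt_two
  rw [two_power_aleph0] at h2
  exact absurd (h2.trans_le h1) (not_lt.2 (le_aleph0_iff_set_countable.2 hs))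

theorem exists_gt' (a : W) : ∃ b, a < b := by
  obtain ⟨x, hx⟩ := bdd_of_countable (countable_singleton a)
  exact ⟨x, hx a rfl⟩

theorem exists_good (δ : W) {a b : ℝ} (hab : a < b) :
    ∃ z, a < z ∧ z < b ∧ ∀ β ≤ δ, e β ≠ z := by
  obtain ⟨δ', hδ⟩ := exists_gt' δ
  by_contra hc
  push Not at hc
  have h1 : Ioo a b ⊆ e '' Iio δ' := fun z hz => by
    obtain ⟨β, hβ, h⟩ := hc z hz.1 hz.2
    exact ⟨β, hβ.trans_lt hδ, h⟩
  have h2 := (mk_le_mk_of_subset h1).trans mk_image_le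
  rw [mk_Ioo_real hab] at h2
  exact absurd (mk_Iio_toType_ord_lt δ') (not_lt.2 h2)

/-- the example -/
def X : Type := {p : W × ℝ // ∀ β ≤ p.1, e β ≠ p.2}

/-- basic open sets -/
def B (β : WithBot W) (α γ : W) (a : ℝ) : Set X :=
  {p | ((β < p.1.1 ∧ p.1.1 ≤ α) ∨ γ < p.1.1) ∧ a < p.1.2}

theorem B_mono {β β' : WithBot W} {α γ γ' : W} {a a' : ℝ} (h1 : β ≤ β') (h2 : γ ≤ γ')
    (h3 : a ≤ a') : B β' α γ' a' ⊆ B β α γ a := fun _ hp =>
  ⟨hp.1.imp (fun h => ⟨h1.trans_lt h.1, h.2⟩) fun h => h2.trans_lt h, h3.trans_lt hp.2⟩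

instance : TopologicalSpace X where
  IsOpen U := ∀ p ∈ U, ∃ (β : WithBot W) (γ : W) (a : ℝ), β < p.1.1 ∧ a < p.1.2 ∧ B β p.1.1 γ a ⊆ U
  isOpen_univ := fun p _ => ⟨⊥, p.1.1, p.1.2 - 1, WithBot.bot_lt_coe _, sub_one_lt _, subset_univ _⟩
  isOpen_inter := by
    intro s t hs ht p hp
    obtain ⟨β, γ, a, h1, h2, h3⟩ := hs p hp.1
    obtain ⟨β', γ', a', h4, h5, h6⟩ := ht p hp.2
    exact ⟨max β β', max γ γ', max a a', max_lt h1 h4, max_lt h2 h5, subset_inter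
      ((B_mono (le_max_left _ _) (le_max_left _ _) (le_max_left _ _)).trans h3)
      ((B_mono (le_max_right _ _) (le_max_right _ _) (le_max_right _ _)).trans h6)⟩
  isOpen_sUnion := by
    rintro S hS p ⟨t, ht, hp⟩
    obtain ⟨β, γ, a, h1, h2, h3⟩ := hS t ht p hp
    exact ⟨β, γ, a, h1, h2, h3.trans (subset_sUnion_of_mem ht)⟩

theorem isOpen_B (β : WithBot W) (α γ : W) (a : ℝ) : IsOpen (B β α γ a) := by
  rintro p ⟨h1 | h1, h2⟩
  · exact ⟨β, γ, a, h1.1, h2, fun q hq =>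
      ⟨hq.1.imp (fun h => ⟨h.1, h.2.trans h1.2⟩) id, hq.2⟩⟩
  · exact ⟨γ, γ, a, WithBot.coe_lt_coe.2 h1, h2, fun q hq =>
      ⟨Or.inr (hq.1.elim (fun h => WithBot.coe_lt_coe.1 h.1) id), hq.2⟩⟩

theorem isOpen_snd (a : ℝ) : IsOpen {p : X | a < p.1.2} := fun p hp =>
  ⟨⊥, p.1.1, a, WithBot.bot_lt_coe _, hp, fun _ hq => hq.2⟩

theorem isOpen_fst (γ : W) : IsOpen {p : X | γ < p.1.1} := fun p hp =>
  ⟨γ, γ, p.1.2 - 1, WithBot.coe_lt_coe.2 hp, sub_one_lt _, fun _ hq =>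
    hq.1.elim (fun h => WithBot.coe_lt_coe.1 h.1) id⟩

instance : T0Space X := by
  refine t0Space_iff_inseparable X |>.2 fun p q h => ?_
  rw [inseparable_iff_forall_isOpen] at h
  have key : ∀ p q : X, (∀ s, IsOpen s → p ∈ s → q ∈ s) → ¬ p.1.1 < q.1.1 ∧ p.1.2 ≤ q.1.2 := by
    intro p q h
    refine ⟨fun h1 => ?_, le_of_forall_lt fun c hc => h _ (isOpen_snd c) hc⟩
    rcases (h _ (isOpen_B ⊥ p.1.1 q.1.1 (p.1.2 - 1))
      ⟨Or.inl ⟨WithBot.bot_lt_coe _, le_rfl⟩, sub_one_lt _⟩).1 with h2 | h2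
    · exact absurd h1 (not_lt.2 h2.2)
    · exact lt_irrefl _ h2
  have h1 := key p q fun s hs => (h s hs).1
  have h2 := key q p fun s hs => (h s hs).2
  exact Subtype.ext (Prod.ext (le_antisymm (not_lt.1 h2.1) (not_lt.1 h1.1)) (le_antisymm h1.2 h2.2))

theorem exists_pt (δ : W) (a : ℝ) : ∃ p : X, p.1.1 = δ ∧ a < p.1.2 := by
  obtain ⟨z, h1, -, h2⟩ := exists_good δ (lt_add_one a)
  exact ⟨⟨(δ, z), h2⟩, rfl, h1⟩

theorem irreducible_univ : IsIrreducible (univ : Set X) := by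
  constructor
  · obtain ⟨δ, -⟩ := e_surj 0
    obtain ⟨p, -⟩ := exists_pt δ 0
    exact ⟨p, trivial⟩
  · rintro u v hu hv ⟨p, -, hp⟩ ⟨q, -, hq⟩
    obtain ⟨β, γ, a, -, -, h3⟩ := hu p hp
    obtain ⟨β', γ', a', -, -, h6⟩ := hv q hq
    obtain ⟨δ, hδ⟩ := exists_gt' (max γ γ')
    obtain ⟨r, h7, h8⟩ := exists_pt δ (max a a')
    rw [← h7] at hδ
    exact ⟨r, trivial, h3 ⟨Or.inr ((le_max_left _ _).trans_lt hδ), (le_max_left _ _).trans_lt h8⟩,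
      h6 ⟨Or.inr ((le_max_right _ _).trans_lt hδ), (le_max_right _ _).trans_lt h8⟩⟩

theorem fin_cover (β : WithBot W) (l : W → WithBot W) (hl : ∀ δ : W, l δ < δ) (α : W) :
    ∃ t : Finset W, (∀ ε ∈ t, β < ε ∧ ε ≤ α) ∧
      ∀ δ : W, β < δ → δ ≤ α → ∃ ε ∈ t, l ε < δ ∧ δ ≤ ε := by
  classical
  induction α using WellFoundedLT.induction with
  | ind α ih =>
    by_cases hα : β < α
    · rcases h : l α with _ | ε
      · refine ⟨{α}, fun ε hε => ?_, fun δ _ h2 => ⟨α, Finset.mem_singleton_self _, ?_, h2⟩⟩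
        · rw [Finset.mem_singleton.1 hε]; exact ⟨hα, le_rfl⟩
        · rw [h]; exact WithBot.bot_lt_coe δ
      · have h1 : ε < α := by
          have := hl α
          rw [h] at this
          exact WithBot.coe_lt_coe.1 this
        obtain ⟨t, ht1, ht2⟩ := ih ε h1
        refine ⟨insert α t, fun η hη => ?_, fun δ h2 h3 => ?_⟩
        · rcases Finset.mem_insert.1 hη with rfl | h4
          · exact ⟨hα, le_rfl⟩
          · exact ⟨(ht1 η h4).1, (ht1 η h4).2.trans h1.le⟩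
        · by_cases h4 : δ ≤ ε
          · obtain ⟨η, hη, h5⟩ := ht2 δ h2 h4
            exact ⟨η, Finset.mem_insert_of_mem hη, h5⟩
          · refine ⟨α, Finset.mem_insert_self _ _, ?_, h3⟩
            rw [h]; exact WithBot.coe_lt_coe.2 (not_le.1 h4)
    · exact ⟨∅, by simp, fun δ h1 h2 =>
        absurd (h1.trans_le (WithBot.coe_le_coe.2 h2)) hα⟩

theorem coreCompact (U : Set X) (hU : IsOpen U) (x : X) (hx : x ∈ U) :
    ∃ V : Set X, IsOpen V ∧ x ∈ V ∧ V ⊆ U ∧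
      ∀ 𝒰 : Set (Set X), (∀ O ∈ 𝒰, IsOpen O) → U ⊆ ⋃₀ 𝒰 →
        ∃ 𝒱 ⊆ 𝒰, 𝒱.Finite ∧ V ⊆ ⋃₀ 𝒱 := by
  classical
  obtain ⟨β, γ, a, h1, h2, h3⟩ := hU x hx
  obtain ⟨a', ha, ha'⟩ := exists_between h2
  refine ⟨B β x.1.1 γ a', isOpen_B _ _ _ _, ⟨Or.inl ⟨h1, le_rfl⟩, ha'⟩,
    (B_mono le_rfl le_rfl ha.le).trans h3, fun 𝒰 h𝒰 hc => ?_⟩
  have key : ∀ δ : W, ∃ (l : WithBot W) (g : W) (O : Set X), l < δ ∧
      (((β < δ ∧ δ ≤ x.1.1) ∨ γ < δ) → O ∈ 𝒰 ∧ B l δ g a' ⊆ O) := by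
    intro δ
    by_cases hδ : (β < δ ∧ δ ≤ x.1.1) ∨ γ < δ
    · obtain ⟨z, h4, h5, h6⟩ := exists_good δ ha
      obtain ⟨O, hO, h7⟩ := hc (h3 (show (⟨(δ, z), h6⟩ : X) ∈ B β x.1.1 γ a from ⟨hδ, h4⟩))
      obtain ⟨l, g, b, h8, h9, h10⟩ := h𝒰 O hO _ h7
      exact ⟨l, g, O, h8, fun _ => ⟨hO, (B_mono le_rfl le_rfl (h9.trans h5).le).trans h10⟩⟩
    · exact ⟨⊥, δ, ∅, WithBot.bot_lt_coe _, fun h => absurd h hδ⟩
  choose l g O hl hO using key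
  obtain ⟨t1, ht1, ht1'⟩ := fin_cover β l hl x.1.1
  obtain ⟨δ0, hδ0⟩ := exists_gt' γ
  obtain ⟨t2, ht2, ht2'⟩ := fin_cover γ l hl (g δ0)
  refine ⟨O '' (insert δ0 (t1 ∪ t2 : Finset W)), ?_,
    (((t1 ∪ t2).finite_toSet).insert δ0).image O, ?_⟩
  · rintro _ ⟨δ, hδ | hδ, rfl⟩
    · rw [hδ]; exact (hO δ0 (Or.inr hδ0)).1
    · rcases Finset.mem_union.1 hδ with h | h
      · exact (hO δ (Or.inl (ht1 δ h))).1
      · exact (hO δ (Or.inr (WithBot.coe_lt_coe.1 (ht2 δ h).1))).1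
  · rintro p ⟨h4 | h4, h5⟩
    · obtain ⟨ε, hε, h6⟩ := ht1' _ h4.1 h4.2
      exact ⟨O ε, ⟨ε, Or.inr (Finset.mem_union_left _ hε), rfl⟩,
        (hO ε (Or.inl (ht1 ε hε))).2 ⟨Or.inl h6, h5⟩⟩
    · by_cases h6 : p.1.1 ≤ g δ0
      · obtain ⟨ε, hε, h7⟩ := ht2' _ (WithBot.coe_lt_coe.2 h4) h6
        exact ⟨O ε, ⟨ε, Or.inr (Finset.mem_union_right _ hε), rfl⟩,
          (hO ε (Or.inr (WithBot.coe_lt_coe.1 (ht2 ε hε).1))).2 ⟨Or.inl h7, h5⟩⟩
      · exact ⟨O δ0, ⟨δ0, Or.inl rfl, rfl⟩, (hO δ0 (Or.inr hδ0)).2 ⟨Or.inr (not_le.1 h6), h5⟩⟩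

theorem not_dense {K : Set X} (hK : IsCompact K) : closure K ≠ univ := by
  intro hd
  have h1 : ∀ β : W, ∃ p ∈ K, β < p.1.1 := by
    intro β
    obtain ⟨δ, hδ⟩ := exists_gt' β
    obtain ⟨p, hp, -⟩ := exists_pt δ 0
    obtain ⟨q, hq, hqK⟩ := mem_closure_iff.1 (show p ∈ closure K by rw [hd]; trivial) _
      (isOpen_fst β) (show β < p.1.1 by rw [hp]; exact hδ)
    exact ⟨q, hqK, hq⟩
  obtain ⟨N, hN⟩ := hK.elim_directed_cover (fun n : ℕ => {p : X | -(n : ℝ) < p.1.2})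
    (fun n => isOpen_snd _)
    (fun p _ => by
      obtain ⟨n, hn⟩ := exists_nat_gt (-p.1.2)
      exact mem_iUnion.2 ⟨n, by simp only [mem_ofPred_eq]; linarith⟩)
    (Monotone.directed_le fun m n hmn p hp => by
      have : (m : ℝ) ≤ n := Nat.cast_le.2 hmn
      simp only [mem_ofPred_eq] at hp ⊢; linarith)
  let Q : Set ℚ := {q | ∀ β : W, ∃ p ∈ K, β < p.1.1 ∧ p.1.2 < q}
  have h2 : ∀ q : ℚ, ∃ β : W, q ∉ Q → ∀ p ∈ K, β < p.1.1 → (q : ℝ) ≤ p.1.2 := by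
    intro q
    by_cases hq : q ∈ Q
    · obtain ⟨δ, -⟩ := e_surj 0
      exact ⟨δ, fun h => absurd hq h⟩
    · simp only [Q, mem_ofPred_eq, not_forall, not_exists, not_and, not_lt] at hq
      obtain ⟨β, hβ⟩ := hq
      exact ⟨β, fun _ => hβ⟩
  choose b hb using h2
  obtain ⟨β0, hβ0⟩ := bdd_of_countable (countable_range b)
  have h3 : ∀ p ∈ K, β0 < p.1.1 → ∀ q : ℚ, p.1.2 < q → q ∈ Q := by
    intro p hp h q hq
    by_contra hc
    exact absurd hq (not_lt.2 (hb q hc p hp ((hβ0 _ ⟨q, rfl⟩).trans h)))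
  let Q' : Set ℝ := (fun q : ℚ => (q : ℝ)) '' Q
  have hne : Q'.Nonempty := by
    obtain ⟨p, hp, h⟩ := h1 β0
    obtain ⟨q, hq⟩ := exists_rat_gt p.1.2
    exact ⟨q, q, h3 p hp h q hq, rfl⟩
  have hbdd : BddBelow Q' := by
    refine ⟨-(N : ℝ), ?_⟩
    rintro _ ⟨q, hq, rfl⟩
    obtain ⟨p, hp, -, h⟩ := hq β0
    exact ((hN hp).trans h).le
  let m := sInf Q'
  obtain ⟨β1, hβ1⟩ := e_surj m
  have h4 : ∀ n : ℕ, ∃ p ∈ K, max β0 β1 < p.1.1 ∧ p.1.2 < m + 1 / ((n : ℝ) + 1) := by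
    intro n
    obtain ⟨_, ⟨q, hq, rfl⟩, h⟩ := exists_lt_of_csInf_lt hne
      (show m < m + 1 / ((n : ℝ) + 1) from lt_add_of_pos_right _ Nat.one_div_pos_of_nat)
    obtain ⟨p, hp, h5, h6⟩ := hq (max β0 β1)
    exact ⟨p, hp, h5, h6.trans h⟩
  choose p hpK hp1 hp2 using h4
  obtain ⟨α, hα⟩ := bdd_of_countable (countable_range fun n => (p n).1.1)
  obtain ⟨n, hn⟩ := hK.elim_directed_cover
    (fun n : ℕ => {r : X | r.1.1 ≤ max β0 β1 ∨ α < r.1.1 ∨ m + 1 / ((n : ℝ) + 1) < r.1.2})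
    (fun n r hr => by
      rcases hr with h | h | h
      · exact ⟨⊥, α, r.1.2 - 1, WithBot.bot_lt_coe _, sub_one_lt _, fun s hs =>
          hs.1.elim (fun h' => Or.inl (h'.2.trans h)) fun h' => Or.inr (Or.inl h')⟩
      · exact ⟨α, α, r.1.2 - 1, WithBot.coe_lt_coe.2 h, sub_one_lt _, fun s hs =>
          Or.inr (Or.inl (hs.1.elim (fun h' => WithBot.coe_lt_coe.1 h'.1) id))⟩
      · exact ⟨⊥, α, _, WithBot.bot_lt_coe _, h, fun s hs => Or.inr (Or.inr hs.2)⟩)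
    (fun r hr => by
      by_cases h5 : r.1.1 ≤ max β0 β1
      · exact mem_iUnion.2 ⟨0, Or.inl h5⟩
      · have h6 := not_le.1 h5
        have h7 : m ≤ r.1.2 := by
          refine le_of_forall_gt fun c hc => ?_
          obtain ⟨q, h8, h9⟩ := exists_rat_btwn hc
          exact (csInf_le hbdd ⟨q, h3 r hr ((le_max_left _ _).trans_lt h6) q h8, rfl⟩).trans_lt h9
        have h8 : m ≠ r.1.2 := by
          rw [← hβ1]; exact r.2 β1 ((le_max_right _ _).trans h6.le)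
        obtain ⟨n, hn⟩ := exists_nat_one_div_lt (sub_pos.2 (lt_of_le_of_ne h7 h8))
        exact mem_iUnion.2 ⟨n, Or.inr (Or.inr (by linarith))⟩)
    (Monotone.directed_le fun k n hkn r hr => by
      refine hr.imp id (Or.imp id fun h => lt_of_le_of_lt ?_ h)
      have := Nat.one_div_le_one_div (α := ℝ) hkn
      linarith)
  rcases hn (hpK n) with h | h | h
  · exact absurd (hp1 n) (not_lt.2 h)
  · exact lt_asymm h (hα _ ⟨n, rfl⟩)
  · exact lt_asymm h (hp2 n)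

end Pool.Agent.H84.Rudin
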