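import Pool.Agent.H84.RvDefs

/-! An `ℵ₁`-dense set that is neither reversible nor good. -/

namespace Pool.Agent.H84.Rv

open Set Pool.Agent.H84.RvDefs
open scoped Cardinal

theorem unc {S : Set ℝ} : ¬ S.Countable ↔ ℵ₁ ≤ Cardinal.mk S := by
  rw [← Cardinal.le_aleph0_iff_set_countable, not_le, ← Cardinal.succ_aleph0, Order.succ_le_iff]

theorem nogood {G S : Set ℝ} (hG : Good G) (h1 : ¬ S.Countable) (h2 : S ⊆ G) {g : ℝ → ℝ}
    (h3 : MapsTo g S G) (h4 : StrictAntiOn g S) : False := by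
  obtain ⟨r, hr⟩ := hG
  have key : ∀ (T : Set S) (u v : S → G), (∀ x ∈ T, r.symm (u x) < r.symm (v x)) →
      (∀ x y, u x ≤ u y → v x ≤ v y → x = y) → T.Countable := fun T u v a b => by
    by_contra c
    rw [← Cardinal.le_aleph0_iff_set_countable, not_le, ← Order.succ_le_iff,
      Cardinal.succ_aleph0] at c
    obtain ⟨e⟩ : Nonempty (W1 ↪ T) := (Cardinal.le_def _ _).1 (by rwa [Cardinal.mk_ord_toType])
    obtain ⟨α, β, d, f⟩ := hr 2 fun α => OrderEmbedding.ofStrictMono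
      ![r.symm (u (e α)), r.symm (v (e α))] (Fin.strictMono_iff_lt_succ.2 fun i => by
        fin_cases i; exact a _ (e α).2)
    exact d.ne (e.injective (Subtype.ext (b _ _ (by simpa using f 0) (by simpa using f 1))))
  have b : ∀ x y : S, x.1 ≤ y.1 → g x ≤ g y → x = y := fun x y a b =>
    Subtype.ext (a.eq_or_lt.resolve_right fun c => (h4 x.2 y.2 c).not_ge b)
  have c1 := key {x | r.symm ⟨x, h2 x.2⟩ < r.symm ⟨g x, h3 x.2⟩} _ _ (fun _ h => h) b
  have c2 := key {x | r.symm ⟨g x, h3 x.2⟩ < r.symm ⟨x, h2 x.2⟩} _ _ (fun _ h => h)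
    fun x y a c => b x y c a
  have c3 : {x : S | g x = x}.Subsingleton := fun x hx y hy => by
    rw [mem_ofPred_eq] at hx hy
    rcases le_total x.1 y.1 with c | c
    exacts [b x y c (by rwa [hx, hy]), (b y x c (by rwa [hx, hy])).symm]
  refine h1 (countable_coe_iff.1 (countable_univ_iff.1
    (((c1.union c2).union c3.countable).mono fun x _ => ?_)))
  rcases lt_trichotomy (r.symm ⟨x, h2 x.2⟩) (r.symm ⟨g x, h3 x.2⟩) with c | c | c
  exacts [.inl (.inl c), .inr (congrArg Subtype.val (r.symm.injective c)).symm, .inl (.inr c)]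

theorem rev {A : Set ℝ} (h : Reversible A) :
    ∃ f : ℝ → ℝ, StrictAntiOn f A ∧ MapsTo f A A ∧ SurjOn f A A := by
  classical
  obtain ⟨φ⟩ := h
  refine ⟨fun x => if h : x ∈ A then -(φ ⟨x, h⟩).1 else 0, fun x hx y hy c => ?_,
    fun x hx => ?_, fun y hy => ?_⟩
  · simpa [hx, hy] using c
  · obtain ⟨y, a, b⟩ := (φ ⟨x, hx⟩).2
    simpa [hx, ← b] using a
  · exact ⟨φ.symm ⟨-y, y, hy, rfl⟩, (φ.symm _).2, by simp⟩

theorem low {A : Set ℝ} {f : ℝ → ℝ} (f1 : StrictAntiOn f A) (f3 : SurjOn f A A) {p q : ℝ}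
    (hp : p ∈ A) (hq : q ∈ A) : ∃ z ∈ A, z ≤ p ∧ q ≤ f z := by
  obtain ⟨w, a, rfl⟩ := f3 hq
  rcases le_total p w with c | c
  exacts [⟨p, hp, le_rfl, f1.antitoneOn hp a c⟩, ⟨w, a, c, le_rfl⟩]

theorem of_good {G : Set ℝ} (h1 : Aleph1Dense G) (h2 : Good G) :
    ∃ A, Aleph1Dense A ∧ ¬ Reversible A ∧ ¬ Good A := by
  have c : Cardinal.mk G = ℵ₁ := let ⟨r, _⟩ := h2; (Cardinal.mk_congr r).symm.trans (by simp)
  have d : ∀ a ∈ G, ∀ b ∈ G, a < b → ¬ (G ∩ Ioo a b).Countable := fun a x b y z =>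
    unc.2 (h1 a x b y z).ge
  obtain ⟨a, ha, b, hb, ab⟩ : ∃ a ∈ G, ∃ b ∈ G, a < b := by
    obtain ⟨a, x, b, y, z⟩ := (not_subsingleton_iff.1 fun s => unc.2 c.ge s.countable)
    rcases z.lt_or_gt with z | z
    exacts [⟨a, x, b, y, z⟩, ⟨b, y, a, x, z⟩]
  let A : Set ℝ := {x | x ∈ G ∩ Ioo a b ∨ 2 * b - x ∈ G ∩ Ioo a b ∨ x - 2 * (b - a) ∈ G ∩ Ioo a b}
  have i2 : Function.Injective fun x : ℝ => 2 * b - x := sub_right_injective
  have i3 : Function.Injective fun x : ℝ => x + 2 * (b - a) := add_left_injective _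
  refine ⟨A, fun x hx y hy xy => le_antisymm ?_ (unc.1 fun s => ?_), fun h => ?_, fun h =>
    nogood h (d a ha b hb ab) (fun _ => .inl) (g := fun x => 2 * b - x)
      (fun x hx => .inr (.inl (by simpa using hx))) fun _ _ _ _ h => sub_lt_sub_left h _⟩
  · have : A ∩ Ioo x y ⊆ G ∪ ((fun x => 2 * b - x) '' G ∪ (fun x => x + 2 * (b - a)) '' G) := by
      rintro z ⟨h | h | h, -⟩
      exacts [.inl h.1, .inr (.inl ⟨_, h.1, by ring⟩), .inr (.inr ⟨_, h.1, by ring⟩)]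
    refine (Cardinal.mk_le_mk_of_subset this).trans ((Cardinal.mk_union_le _ _).trans ?_)
    refine (add_le_add le_rfl ((Cardinal.mk_union_le _ _).trans
      (add_le_add Cardinal.mk_image_le Cardinal.mk_image_le))).trans ?_
    simp [c]
  · rcases hx with ⟨p, p1, p2⟩ | ⟨p, p1, p2⟩ | ⟨p, p1, p2⟩
    · rcases hy with ⟨q, q1, q2⟩ | ⟨q, q1, q2⟩ | ⟨q, q1, q2⟩
      · exact d _ p _ q xy (s.mono fun z ⟨u, v, w⟩ => by
          exact ⟨.inl ⟨u, by linarith, by linarith⟩, v, w⟩)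
      all_goals exact d _ p _ hb p2 (s.mono fun z ⟨u, v, w⟩ => by
        exact ⟨.inl ⟨u, by linarith, w⟩, v, by linarith⟩)
    · rcases hy with ⟨q, q1, q2⟩ | ⟨q, q1, q2⟩ | ⟨q, q1, q2⟩
      · linarith
      · exact d _ q _ p (by linarith) ((s.preimage i2).mono fun z ⟨u, v, w⟩ => by
          exact ⟨.inr (.inl ⟨by simpa, by linarith, by linarith⟩), by linarith, by linarith⟩)
      · exact d _ ha _ p p1 ((s.preimage i2).mono fun z ⟨u, v, w⟩ => by
          exact ⟨.inr (.inl ⟨by simpa, by linarith, by linarith⟩), by linarith, by linarith⟩)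
    · rcases hy with ⟨q, q1, q2⟩ | ⟨q, q1, q2⟩ | ⟨q, q1, q2⟩
      · linarith
      · linarith
      · exact d _ p _ q (by linarith) ((s.preimage i3).mono fun z ⟨u, v, w⟩ => by
          exact ⟨.inr (.inr ⟨by simpa, by linarith, by linarith⟩), by linarith, by linarith⟩)
  · obtain ⟨f, f1, f2, f3⟩ := rev h
    obtain ⟨p, hp⟩ : (G ∩ Ioo a b).Nonempty := nonempty_iff_ne_empty.2 fun e =>
      d a ha b hb ab (e ▸ countable_empty)
    obtain ⟨z, z1, z2, z3⟩ := low f1 f3 (p := p) (q := p + 2 * (b - a)) (.inl hp)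
      (.inr (.inr (by simpa using hp)))
    have p1 := hp.2.1
    have p2 := hp.2.2
    have z4 : z ∈ G ∩ Ioo a b := z1.elim id fun h => h.elim (fun h => by linarith [h.2.2])
      fun h => by linarith [h.2.1]
    have s : G ∩ Ioo a z ⊆ A := fun x h => .inl ⟨h.1, h.2.1, h.2.2.trans z4.2.2⟩
    refine nogood h2 (d a ha z z4.1 z4.2.1) inter_subset_left (g := fun x => f x - 2 * (b - a))
      (fun x hx => ?_) fun x hx y hy c => sub_lt_sub_right (f1 (s hx) (s hy) c) _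
    have := f1 (s hx) z1 hx.2.2
    rcases f2 (s hx) with h | h | h
    exacts [by linarith [h.2.2], by linarith [h.2.1], h.1]

theorem of_ch (ch : Cardinal.continuum.{0} = ℵ₁) :
    ∃ A, Aleph1Dense A ∧ ¬ Reversible A ∧ ¬ Good A := by
  have d : ∀ a b : ℝ, a < b → ¬ (Ioo a b).Countable := fun a b h =>
    unc.2 (by rw [Cardinal.mk_Ioo_real h, ch])
  let A : Set ℝ := {x | 0 < x ∧ x < 2 ∧ (x < 1 ∨ Irrational x)}
  refine ⟨A, fun x hx y hy xy => le_antisymm ?_ (unc.1 fun s => ?_), fun h => ?_, fun h =>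
    nogood h (d 0 1 one_pos) (fun x h => ⟨h.1, by linarith [h.2], .inl h.2⟩) (g := fun x => 1 - x)
      (fun x h => ⟨by linarith [h.2], by linarith [h.1], .inl (by linarith [h.1])⟩)
      fun _ _ _ _ h => sub_lt_sub_left h _⟩
  · exact (Cardinal.mk_set_le _).trans (by rw [Cardinal.mk_real, ch])
  · refine d x y xy ((s.union (countable_range ((↑) : ℚ → ℝ))).mono fun z hz =>
      or_iff_not_imp_right.2 fun c => ⟨⟨hx.1.trans hz.1, hz.2.trans hy.2.1, .inr c⟩, hz⟩)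
  · obtain ⟨f, f1, f2, f3⟩ := rev h
    obtain ⟨q, q1, q2, q3⟩ := exists_irrational_btwn (one_lt_two (α := ℝ))
    obtain ⟨z, z1, z2, z3⟩ := low f1 f3 (p := 1 / 2) (q := q)
      ⟨by norm_num, by norm_num, .inl (by norm_num)⟩ ⟨by linarith, q3, .inr q1⟩
    obtain ⟨ρ, r1, r2⟩ := exists_rat_btwn (f2 z1).2.1
    have e : ∀ u v : ℝ, 0 ≤ u → u < v → v ≤ 2 → ∃ x ∈ A, u < f x ∧ f x < v := fun u v a b c => by
      obtain ⟨w, w1, w2, w3⟩ := exists_irrational_btwn b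
      obtain ⟨x, x1, rfl⟩ := f3 (⟨by linarith, by linarith, .inr w1⟩ : w ∈ A)
      exact ⟨x, x1, w2, w3⟩
    have bd : ∀ x ∈ {x ∈ A | ρ < f x}, x ≤ z := fun x h => le_of_not_gt fun c => by
      linarith [f1 z1 h.1 c, h.2]
    obtain ⟨x, x1, x2, -⟩ := e ρ 2 (by linarith) r2 le_rfl
    have ne : {x ∈ A | ρ < f x}.Nonempty := ⟨x, x1, x2⟩
    have s1 := csSup_le ne bd
    have s2 := fun y => le_csSup (a := y) ⟨z, bd⟩
    have s3 : sSup {x ∈ A | ρ < f x} ∈ A :=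
      ⟨x1.1.trans_le (s2 x ⟨x1, x2⟩), by linarith, .inl (by linarith)⟩
    rcases lt_trichotomy (f (sSup {x ∈ A | ρ < f x})) ρ with c | c | c
    · obtain ⟨y, y1, y2, y3⟩ := e _ _ (f2 s3).1.le c r2.le
      obtain ⟨u, u1, u2⟩ := exists_lt_of_lt_csSup ne ((f1.lt_iff_gt s3 y1).1 y2)
      linarith [f1 y1 u1.1 u2, u1.2]
    · rcases (f2 s3).2.2 with g | g
      · linarith
      · exact g ⟨ρ, c.symm⟩
    · obtain ⟨y, y1, y2, y3⟩ := e _ _ (by linarith) c (f2 s3).2.1.le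
      exact ((f1.lt_iff_gt y1 s3).1 y3).not_ge (s2 y ⟨y1, y2⟩)

theorem ma_of_ch (ch : Cardinal.continuum.{0} = ℵ₁) : MA := fun P _ _ _ 𝒟 h1 h2 => by
  rw [ch, Cardinal.lt_aleph_one_iff, Cardinal.le_aleph0_iff_set_countable] at h1
  obtain ⟨T, hT⟩ := (h1.insert univ).exists_eq_range (insert_nonempty _ _)
  choose g g1 g2 using fun n p => show ∃ q ∈ T n, q ≤ p from
    (hT ▸ mem_range_self n : T n ∈ insert univ 𝒟).elim (fun e => ⟨p, e ▸ trivial, le_rfl⟩)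
      fun e => h2 _ e p
  let s : ℕ → P := fun n => Nat.rec (Classical.arbitrary P) g n
  have a : Antitone s := antitone_nat_of_succ_le fun n => g2 n _
  refine ⟨{p | ∃ n, s n ≤ p}, fun p ⟨n, h⟩ q c => ⟨n, h.trans c⟩, fun p ⟨n, h⟩ q ⟨m, c⟩ =>
    ⟨s (max n m), ⟨_, le_rfl⟩, (a (le_max_left _ _)).trans h, (a (le_max_right _ _)).trans c⟩,
    fun D hD => ?_⟩
  obtain ⟨n, rfl⟩ : D ∈ range T := hT ▸ .inr hD
  exact ⟨s (n + 1), ⟨n + 1, le_rfl⟩, g1 n _⟩

end Pool.Agent.H84.Rv
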