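import Mathlib

/-! Reversible and good sets of reals. -/

namespace Pool.Agent.H84.RvDefs

open Set

/-- The set of countable ordinals. -/
abbrev W1 : Type := (Cardinal.aleph 1).ord.ToType

/-- Between any two points of `A` there are exactly `ℵ₁` points of `A`. -/
def Aleph1Dense (A : Set ℝ) : Prop :=
  ∀ a ∈ A, ∀ b ∈ A, a < b → Cardinal.mk ↥(A ∩ Ioo a b) = Cardinal.aleph 1

/-- `A` is order isomorphic to its reverse `{-r : r ∈ A}`. -/
def Reversible (A : Set ℝ) : Prop := Nonempty (A ≃o ↥((fun r : ℝ => -r) '' A))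

/-- `A` has a bijective enumeration in type `ω₁` for which every `ω₁`-sequence of `n`-element
sets of indices has two coordinatewise increasing members. -/
def Good (A : Set ℝ) : Prop :=
  ∃ r : W1 ≃ A, ∀ (n : ℕ) (a : W1 → Fin n ↪o W1), ∃ α β, α < β ∧ ∀ i, r (a α i) ≤ r (a β i)

/-- MA: for every ccc poset and every family of fewer than continuum many dense sets
there is a filter meeting all of them. -/
def MA : Prop :=
  ∀ (P : Type) [PartialOrder P] [Nonempty P],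
    (∀ A : Set P, (A.Pairwise fun p q => ¬ ∃ r, r ≤ p ∧ r ≤ q) → A.Countable) →
    ∀ 𝒟 : Set (Set P), Cardinal.mk 𝒟 < Cardinal.continuum → (∀ D ∈ 𝒟, ∀ p, ∃ q ∈ D, q ≤ p) →
    ∃ G : Set P, (∀ p ∈ G, ∀ q, p ≤ q → q ∈ G) ∧ (∀ p ∈ G, ∀ q ∈ G, ∃ r ∈ G, r ≤ p ∧ r ≤ q) ∧
      ∀ D ∈ 𝒟, (G ∩ D).Nonempty

end Pool.Agent.H84.RvDefs
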