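import Mathlib

set_option autoImplicit false

namespace Pool.Agent.H84.ScDefs

universe u

variable {Y : Type u} [TopologicalSpace Y]

/-- `D` is (nonempty and) directed in the specialization order `a ≤ b ↔ a ∈ closure {b}`. -/
def SDirected (D : Set Y) : Prop := D.Nonempty ∧ DirectedOn (fun a b => a ∈ closure {b}) D

/-- `s` is the supremum of `D` in the specialization order. -/
def SSup (D : Set Y) (s : Y) : Prop :=
  (∀ d ∈ D, d ∈ closure {s}) ∧ ∀ t : Y, (∀ d ∈ D, d ∈ closure {t}) → s ∈ closure {t}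

/-- `U` is Scott open for the specialization order. -/
def SScottOpen (U : Set Y) : Prop :=
  (∀ a ∈ U, ∀ b : Y, a ∈ closure {b} → b ∈ U) ∧
    ∀ (D : Set Y) (s : Y), SDirected D → SSup D s → s ∈ U → (D ∩ U).Nonempty

/-- Scott spaces. -/
def ScottSpace (Y : Type u) [TopologicalSpace Y] : Prop :=
  T0Space Y ∧ (∀ D : Set Y, SDirected D → ∃ s, SSup D s) ∧ ∀ U : Set Y, IsOpen U ↔ SScottOpen U

/-- Monotone convergence spaces. -/
def MonConv (Y : Type u) [TopologicalSpace Y] : Prop :=
  T0Space Y ∧ (∀ D : Set Y, SDirected D → ∃ s, SSup D s) ∧ ∀ U : Set Y, IsOpen U → SScottOpen U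

/-- `d`-closed subsets. -/
def DClosed (A : Set Y) : Prop := ∀ (D : Set Y) (s : Y), D ⊆ A → SDirected D → SSup D s → s ∈ A

/-- Scott completions. -/
def IsScottCompletion {X : Type u} [TopologicalSpace X] (i : X → Y) : Prop :=
  ScottSpace Y ∧ Continuous i ∧ ∀ (Z : Type u) [TopologicalSpace Z], ScottSpace Z →
    ∀ g : X → Z, Continuous g → ∃! h : Y → Z, Continuous h ∧ g = h ∘ i

/-- D-completions. -/
def IsDCompletion {X : Type u} [TopologicalSpace X] (j : X → Y) : Prop :=
  MonConv Y ∧ Topology.IsEmbedding j ∧ ∀ A : Set Y, DClosed A → Set.range j ⊆ A → A = Set.univ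

end Pool.Agent.H84.ScDefs
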