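import Mathlib
import Pool.Agent.H84.ScDefs
import Pool.Agent.H84.Cons

set_option autoImplicit false

namespace Pool.Agent.H84.ScComp

open Set Topology Filter Pool.Agent.H84.ScDefs Pool.Agent.H84.Cons

universe u

theorem scott_closure {P : Type u} [PartialOrder P] (a b : P) :
    a ∈ @closure P (Topology.scott P univ) {b} ↔ a ≤ b := by
  let _ := Topology.scott P univ
  have : IsScott P univ := ⟨rfl⟩
  rw [IsScott.closure_singleton]; rfl

theorem scottSpace_of_dcpo {P : Type u} [PartialOrder P]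
    (h : ∀ D : Set P, D.Nonempty → DirectedOn (· ≤ ·) D → ∃ s, IsLUB D s) :
    @ScottSpace P (Topology.scott P univ) := by
  let _ := Topology.scott P univ
  have : IsScott P univ := ⟨rfl⟩
  have h1 : ∀ (D : Set P) s, SSup D s ↔ IsLUB D s := fun D s => by
    simp only [SSup, scott_closure]; rfl
  have h2 : ∀ D : Set P, SDirected D ↔ D.Nonempty ∧ DirectedOn (· ≤ ·) D := fun D => by
    simp only [SDirected, scott_closure]
  refine ⟨inferInstance, fun D hD => ?_, fun U => ?_⟩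
  · simp only [h1]; exact h D ((h2 D).1 hD).1 ((h2 D).1 hD).2
  · rw [scott_open_iff]
    simp only [SScottOpen, h1, h2, scott_closure]
    exact ⟨fun hU => ⟨fun a ha b hab => hU.1 hab ha, fun D s hD hs hsU => hU.2 hD.1 hD.2 hs hsU⟩,
      fun hU => ⟨fun a b hab ha => hU.1 a ha b hab, fun D h3 h4 s hs hsU => hU.2 D s ⟨h3, h4⟩ hs hsU⟩⟩

theorem scott_prop : @ScottSpace (ULift.{u} Prop) (Topology.scott (ULift.{u} Prop) univ) :=
  scottSpace_of_dcpo fun D _ _ => ⟨sSup D, isLUB_sSup D⟩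

theorem cont_chi {X : Type u} [TopologicalSpace X] {V : Set X} (hV : IsOpen V) :
    @Continuous X (ULift.{u} Prop) _ (Topology.scott _ univ) (fun x => ⟨x ∈ V⟩) := by
  let _ := Topology.scott (ULift.{u} Prop) univ
  refine ⟨fun U hU => ?_⟩
  have h1 := ((scott_open_iff U).1 hU).1
  by_cases hF : (⟨False⟩ : ULift.{u} Prop) ∈ U
  · convert isOpen_univ
    exact eq_univ_of_forall fun x => h1 (show (⟨False⟩ : ULift.{u} Prop) ≤ ⟨x ∈ V⟩ from
      fun h => h.elim) hF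
  · by_cases hT : (⟨True⟩ : ULift.{u} Prop) ∈ U
    · convert hV using 1
      ext x
      by_cases hx : x ∈ V
      · simp only [mem_preimage, hx, hT]
      · simp only [mem_preimage, hx, hF]
    · convert isOpen_empty
      refine eq_empty_of_forall_notMem fun x => ?_
      by_cases hx : x ∈ V
      · simp only [mem_preimage, hx, hT, not_false_iff]
      · simp only [mem_preimage, hx, hF, not_false_iff]

theorem open_true : IsOpen[Topology.scott (ULift.{u} Prop) univ] {p : ULift.{u} Prop | p.down} := by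
  rw [scott_open_iff]
  refine ⟨fun a b hab ha => hab ha, fun D _ _ s hs hsU => ?_⟩
  by_contra hc
  have h1 : s ≤ ⟨False⟩ := hs.2 fun d hd h => hc ⟨d, hd, h⟩
  exact h1 hsU

variable {X Y : Type u} [TopologicalSpace X] [TopologicalSpace Y] {i : X → Y}

theorem open_ext (h : IsScottCompletion i) {V : Set X} (hV : IsOpen V) :
    ∃ U : Set Y, IsOpen U ∧ i ⁻¹' U = V := by
  let _ := Topology.scott (ULift.{u} Prop) univ
  obtain ⟨g, ⟨hg, hge⟩, -⟩ := h.2.2 (ULift.{u} Prop) scott_prop _ (cont_chi hV)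
  refine ⟨g ⁻¹' {p | p.down}, open_true.preimage hg, ?_⟩
  ext x
  show (g (i x)).down ↔ x ∈ V
  rw [show g (i x) = ⟨x ∈ V⟩ from (congrFun hge x).symm]

theorem open_inj (h : IsScottCompletion i) {U W : Set Y} (hU : IsOpen U) (hW : IsOpen W)
    (he : i ⁻¹' U = i ⁻¹' W) : U = W := by
  let _ := Topology.scott (ULift.{u} Prop) univ
  obtain ⟨g, -, hg⟩ := h.2.2 (ULift.{u} Prop) scott_prop _ (cont_chi (hU.preimage h.2.1))
  have h1 := hg _ ⟨cont_chi hU, rfl⟩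
  have h2 := hg _ ⟨cont_chi hW, by rw [he]; rfl⟩
  ext y
  have := congrArg ULift.down (congrFun (h1.trans h2.symm) y)
  exact iff_of_eq this

theorem embedding [T0Space X] (h : IsScottCompletion i) : IsEmbedding i := by
  have h1 : IsInducing i := by
    refine ⟨le_antisymm h.2.1.le_induced fun V hV => ?_⟩
    exact isOpen_induced_iff.2 (open_ext h hV)
  exact h1.isEmbedding

theorem bdense (h : IsScottCompletion i) (w : Y) : w ∈ closure (range i ∩ closure {w}) := by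
  have h1 : (closure (range i ∩ closure {w}))ᶜ = (closure {w})ᶜ := by
    refine open_inj h isClosed_closure.isOpen_compl isClosed_closure.isOpen_compl ?_
    ext x
    simp only [mem_preimage, mem_compl_iff]
    refine not_iff_not.2 ⟨fun h2 => ?_, fun h2 => subset_closure ⟨⟨x, rfl⟩, h2⟩⟩
    exact closure_minimal inter_subset_right isClosed_closure h2
  rw [compl_inj_iff.1 h1]; exact subset_closure rfl

/-- the auxiliary dcpo -/
structure Z {P : Type u} (A : Set P) : Type u where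
  /-- first coordinate -/
  x : P
  /-- second coordinate -/
  j : P
  /-- the second coordinate lies in `A` -/
  hj : j ∈ A

instance {P : Type u} [PartialOrder P] (A : Set P) : PartialOrder (Z A) where
  le a b := a.x ≤ b.x ∧ (a.j = b.j ∨ (a.x ≤ b.j ∧ b.j ≤ b.x))
  le_refl a := ⟨le_rfl, Or.inl rfl⟩
  le_trans a b c h1 h2 := ⟨h1.1.trans h2.1, by
    rcases h2.2 with h3 | h3
    · rcases h1.2 with h4 | h4
      · exact Or.inl (h4.trans h3)
      · exact Or.inr ⟨h3 ▸ h4.1, h3 ▸ h4.2.trans h2.1⟩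
    · exact Or.inr ⟨h1.1.trans h3.1, h3.2⟩⟩
  le_antisymm a b h1 h2 := by
    obtain ⟨ax, aj, ha⟩ := a
    obtain ⟨bx, bj, hb⟩ := b
    have h3 : ax = bx := le_antisymm h1.1 h2.1
    subst h3
    have h4 : aj = bj := by
      rcases h1.2 with h | h
      · exact h
      · rcases h2.2 with h' | h'
        · exact h'.symm
        · exact (le_antisymm h'.2 h'.1).trans (le_antisymm h.1 h.2)
    subst h4; rfl

theorem Z_le {P : Type u} [PartialOrder P] {A : Set P} {a b : Z A} :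
    a ≤ b ↔ a.x ≤ b.x ∧ (a.j = b.j ∨ (a.x ≤ b.j ∧ b.j ≤ b.x)) := Iff.rfl

theorem lub_column {P : Type u} [PartialOrder P] {A : Set P} {E : Set P} (hE : E.Nonempty) {s j : P}
    (hj : j ∈ A) (hs : IsLUB E s) : IsLUB ((fun x => (⟨x, j, hj⟩ : Z A)) '' E) ⟨s, j, hj⟩ := by
  constructor
  · rintro _ ⟨x, hx, rfl⟩; exact ⟨hs.1 hx, Or.inl rfl⟩
  · intro u hu
    refine ⟨hs.2 fun x hx => (hu ⟨x, hx, rfl⟩).1, ?_⟩
    by_cases h : j = u.j
    · exact Or.inl h
    · obtain ⟨x0, hx0⟩ := hE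
      exact Or.inr ⟨hs.2 fun x hx => ((hu ⟨x, hx, rfl⟩).2.resolve_left h).1,
        ((hu ⟨x0, hx0, rfl⟩).2.resolve_left h).2⟩

theorem Z_dcpo {P : Type u} [PartialOrder P] {A : Set P}
    (h : ∀ D : Set P, D.Nonempty → DirectedOn (· ≤ ·) D → ∃ s, IsLUB D s)
    (hA : ∀ D ⊆ A, D.Nonempty → DirectedOn (· ≤ ·) D → ∀ s, IsLUB D s → s ∈ A)
    (D : Set (Z A)) (hne : D.Nonempty) (hd : DirectedOn (· ≤ ·) D) :
    ∃ s, IsLUB D s ∧ IsLUB (Z.x '' D) s.x := by
  by_cases h1 : ∀ d ∈ D, ∃ e ∈ D, d.x ≤ e.j ∧ e.j ≤ e.x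
  · let E : Set P := {y | ∃ e ∈ D, e.j ≤ e.x ∧ y = e.j}
    have hE1 : E.Nonempty := by
      obtain ⟨d, hd⟩ := hne
      obtain ⟨e, he, -, h2⟩ := h1 d hd
      exact ⟨e.j, e, he, h2, rfl⟩
    have hE2 : DirectedOn (· ≤ ·) E := by
      rintro _ ⟨a, ha, h2, rfl⟩ _ ⟨b, hb, h3, rfl⟩
      obtain ⟨c, hc, h4, h5⟩ := hd a ha b hb
      obtain ⟨e, he, h6, h7⟩ := h1 c hc
      exact ⟨e.j, ⟨e, he, h7, rfl⟩, (h2.trans h4.1).trans h6, (h3.trans h5.1).trans h6⟩
    obtain ⟨y, hy⟩ := h E hE1 hE2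
    have hyA : y ∈ A := hA E (by rintro _ ⟨e, _, _, rfl⟩; exact e.hj) hE1 hE2 y hy
    have h2 : ∀ d ∈ D, d.x ≤ y := fun d hd => by
      obtain ⟨e, he, h3, h4⟩ := h1 d hd
      exact h3.trans (hy.1 ⟨e, he, h4, rfl⟩)
    refine ⟨⟨y, y, hyA⟩, ⟨fun d hd => ⟨h2 d hd, Or.inr ⟨h2 d hd, le_rfl⟩⟩, fun u hu => ?_⟩,
      ⟨by rintro _ ⟨d, hd, rfl⟩; exact h2 d hd, fun u hu => hy.2 ?_⟩⟩
    · have h3 : y ≤ u.j := hy.2 (by
        rintro _ ⟨e, he, h4, rfl⟩
        rcases (hu he).2 with h5 | h5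
        · exact h5.le
        · exact h4.trans h5.1)
      have h4 : u.j ≤ u.x := by
        obtain ⟨_, e, he, h5, rfl⟩ := hE1
        rcases (hu he).2 with h6 | h6
        · exact h6 ▸ h5.trans (hu he).1
        · exact h6.2
      exact ⟨h3.trans h4, Or.inr ⟨h3, h4⟩⟩
    · rintro _ ⟨e, he, h4, rfl⟩
      exact h4.trans (hu ⟨e, he, rfl⟩)
  · push Not at h1
    obtain ⟨d0, hd0, h2⟩ := h1
    have h3 : ∀ e ∈ D, d0 ≤ e → e.j = d0.j := fun e he h4 => by
      rcases h4.2 with h5 | h5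
      · exact h5.symm
      · exact absurd h5.2 (h2 e he h5.1)
    obtain ⟨s, hs⟩ := h (Z.x '' D) (hne.image _) (by
      rintro _ ⟨a, ha, rfl⟩ _ ⟨b, hb, rfl⟩
      obtain ⟨c, hc, h4, h5⟩ := hd a ha b hb
      exact ⟨c.x, ⟨c, hc, rfl⟩, h4.1, h5.1⟩)
    refine ⟨⟨s, d0.j, d0.hj⟩, ⟨fun d hd1 => ?_, fun u hu => ?_⟩, hs⟩
    · obtain ⟨c, hc, h4, h5⟩ := hd d hd1 d0 hd0
      exact h4.trans ⟨hs.1 ⟨c, hc, rfl⟩, Or.inl (h3 c hc h5)⟩
    · refine ⟨hs.2 (by rintro _ ⟨d, hd1, rfl⟩; exact (hu hd1).1), ?_⟩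
      by_cases h4 : d0.j = u.j
      · exact Or.inl h4
      · refine Or.inr ⟨hs.2 ?_, ((hu hd0).2.resolve_left h4).2⟩
        rintro _ ⟨d, hd1, rfl⟩
        obtain ⟨c, hc, h5, h6⟩ := hd d hd1 d0 hd0
        exact h5.1.trans ((hu hc).2.resolve_left fun h7 => h4 ((h3 c hc h6).symm.trans h7)).1

theorem ddense (h : IsScottCompletion i) (A : Set Y) (hA : DClosed A) (hiA : range i ⊆ A) :
    A = univ := by
  have := h.1.1
  let _ : PartialOrder Y := specializationOrder Y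
  have hle : ∀ a b : Y, a ∈ closure {b} ↔ a ≤ b := fun a b => specializes_iff_mem_closure.symm
  have h1 : ∀ (D : Set Y) s, SSup D s ↔ IsLUB D s := fun D s => by
    simp only [SSup, hle]; rfl
  have h2 : ∀ D : Set Y, SDirected D ↔ D.Nonempty ∧ DirectedOn (· ≤ ·) D := fun D => by
    simp only [SDirected, hle]
  have hY : ∀ D : Set Y, D.Nonempty → DirectedOn (· ≤ ·) D → ∃ s, IsLUB D s := fun D a b => by
    obtain ⟨s, hs⟩ := h.1.2.1 D ((h2 D).2 ⟨a, b⟩); exact ⟨s, (h1 D s).1 hs⟩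
  have hA' : ∀ D ⊆ A, D.Nonempty → DirectedOn (· ≤ ·) D → ∀ s, IsLUB D s → s ∈ A :=
    fun D hD a b s hs => hA D s hD ((h2 D).2 ⟨a, b⟩) ((h1 D s).2 hs)
  let tZ : TopologicalSpace (Z A) := Topology.scott (Z A) univ
  have hZ : ScottSpace (Z A) := scottSpace_of_dcpo fun D a b => by
    obtain ⟨s, hs, -⟩ := Z_dcpo hY hA' D a b; exact ⟨s, hs⟩
  let g : X → Z A := fun x => ⟨i x, i x, hiA ⟨x, rfl⟩⟩
  have hg : Continuous g := by
    refine ⟨fun U hU => ?_⟩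
    have hU' := (scott_open_iff U).1 hU
    have h3 : IsOpen (Z.x '' U) := by
      refine (h.1.2.2 _).2 ⟨?_, ?_⟩
      · rintro _ ⟨a, ha, rfl⟩ b hb
        exact ⟨⟨b, a.j, a.hj⟩, hU'.1 (show a ≤ ⟨b, a.j, a.hj⟩ from
          ⟨(hle _ _).1 hb, Or.inl rfl⟩) ha, rfl⟩
      · rintro D _ hD hs ⟨a, ha, rfl⟩
        obtain ⟨_, ⟨x, hx, rfl⟩, h4⟩ := hU'.2 (((h2 D).1 hD).1.image _) (by
          rintro _ ⟨p, hp, rfl⟩ _ ⟨q, hq, rfl⟩
          obtain ⟨r, hr, h4, h5⟩ := ((h2 D).1 hD).2 p hp q hq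
          exact ⟨_, ⟨r, hr, rfl⟩, ⟨h4, Or.inl rfl⟩, ⟨h5, Or.inl rfl⟩⟩)
          (lub_column ((h2 D).1 hD).1 a.hj ((h1 D _).1 hs)) ha
        exact ⟨x, hx, _, h4, rfl⟩
    convert h3.preimage h.2.1 using 1
    ext x
    constructor
    · intro hx; exact ⟨g x, hx, rfl⟩
    · rintro ⟨a, ha, h4⟩
      exact hU'.1 (show a ≤ g x from ⟨h4.le, Or.inr ⟨h4.le, le_rfl⟩⟩) ha
  obtain ⟨k, ⟨hk, hke⟩, -⟩ := h.2.2 (Z A) hZ g hg
  refine eq_univ_of_forall fun w => ?_
  have h3 : ∀ x, i x ≤ w → i x ≤ (k w).j ∧ (k w).j ≤ (k w).x := by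
    intro x hx
    have h4 : k w ⤳ k (i x) := Specializes.map hx hk
    have h5 : g x ≤ k w := by
      rw [hke]; exact (scott_closure _ _).1 (specializes_iff_mem_closure.1 h4)
    rcases h5.2 with h6 | h6
    · exact ⟨h6.le, h6 ▸ h5.1⟩
    · exact h6
  have h4 : w ≤ (k w).j := (hle _ _).1 (closure_minimal (by
    rintro _ ⟨⟨x, rfl⟩, hx⟩
    exact (hle _ _).2 (h3 x ((hle _ _).1 hx)).1) isClosed_closure (bdense h w))
  have h5 : (k w).j ≤ (k w).x := by
    obtain ⟨_, ⟨x, rfl⟩, hx⟩ := closure_nonempty_iff.1 ⟨w, bdense h w⟩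
    exact (h3 x ((hle _ _).1 hx)).2
  have h6 : IsClosed {z : Z A | z.x ≤ w} := by
    rw [← isOpen_compl_iff, scott_open_iff]
    refine ⟨fun a b hab ha hb => ha (hab.1.trans hb), fun D a b s hs hsw => ?_⟩
    obtain ⟨s', hs', hs''⟩ := Z_dcpo hY hA' D a b
    rw [hs.unique hs'] at hsw
    by_contra hc
    refine hsw (hs''.2 ?_)
    rintro _ ⟨d, hd, rfl⟩
    by_contra h7
    exact hc ⟨d, hd, h7⟩
  have h7 : (k w).x ≤ w := closure_minimal (t := k ⁻¹' {z : Z A | z.x ≤ w}) (by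
    rintro _ ⟨⟨x, rfl⟩, hx⟩
    show (k (i x)).x ≤ w
    rw [show k (i x) = g x from (congrFun hke x).symm]
    exact (hle _ _).1 hx) (h6.preimage hk) (bdense h w)
  rw [le_antisymm h4 (h5.trans h7)]
  exact (k w).hj

theorem main [T0Space X] (h : IsScottCompletion i) : IsDCompletion i :=
  ⟨⟨h.1.1, h.1.2.1, fun U hU => (h.1.2.2 U).1 hU⟩, embedding h, ddense h⟩

end Pool.Agent.H84.ScComp
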