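import Pool.Agent.H84.SccDefs

/-! Compact convex sets of scatteredly continuous functions. -/

namespace Pool.Agent.H84.Scc

open Set Filter Topology TopologicalSpace Pool.Agent.H84.SccDefs
open scoped Cardinal

/-- The positive part of the unit ball of `ℓ¹`. -/
def ball (Γ : Type) : Set (Γ → ℝ) := {f | (∀ x, 0 ≤ f x) ∧ ∀ F : Finset Γ, ∑ x ∈ F, f x ≤ 1}

variable {Γ : Type}

theorem ball_convex : Convex ℝ (ball Γ) := fun f hf g hg a b ha hb e =>
  ⟨fun x => add_nonneg (mul_nonneg ha (hf.1 x)) (mul_nonneg hb (hg.1 x)), fun F => by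
    simp only [Pi.add_apply, Pi.smul_apply, smul_eq_mul, Finset.sum_add_distrib, ← Finset.mul_sum]
    nlinarith [hf.2 F, hg.2 F]⟩

theorem ball_compact : IsCompact (ball Γ) := by
  refine (isCompact_univ_pi fun _ : Γ => isCompact_Icc (a := (0 : ℝ)) (b := 1)).of_isClosed_subset
    ?_ fun f hf x _ => ⟨hf.1 x, by simpa using hf.2 {x}⟩
  simp only [ball, ofPred_and, ofPred_forall]
  exact (isClosed_iInter fun x => isClosed_le continuous_const (continuous_apply x)).inter
    (isClosed_iInter fun F => isClosed_le (continuous_finsetSum _ fun x _ => continuous_apply x)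
      continuous_const)

theorem fin_gt {f : Γ → ℝ} (hf : f ∈ ball Γ) {ε : ℝ} (hε : 0 < ε) : {x | ε ≤ f x}.Finite := by
  simpa using (summable_of_sum_le hf.1 hf.2).tendsto_cofinite_zero.eventually (gt_mem_nhds hε)

theorem le_weight : Cardinal.mk Γ ≤ weight (ball Γ) := by
  classical
  refine le_max_of_le_right (le_csInf ⟨_, _, isTopologicalBasis_opens, rfl⟩ ?_)
  rintro _ ⟨B, hB, rfl⟩
  have m : ∀ x : Γ, Pi.single x 1 ∈ ball Γ := fun x => ⟨fun y => by
    rw [Pi.single_apply]; split_ifs <;> norm_num, fun F => by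
    rw [Finset.sum_pi_single']; split_ifs <;> norm_num⟩
  have : ∀ x : Γ, ∃ v ∈ B, (⟨_, m x⟩ : ball Γ) ∈ v ∧ v ⊆ {f | 0 < f.1 x} := fun x =>
    hB.exists_subset_of_mem_open (by simp) (isOpen_lt continuous_const
      ((continuous_apply x).comp continuous_subtype_val))
  choose v v1 v2 v3 using this
  refine Cardinal.mk_le_of_injective (f := fun x => (⟨v x, v1 x⟩ : B)) fun x y e => ?_
  have e : v x = v y := congrArg Subtype.val e
  by_contra h
  have := v3 y (e ▸ v2 x)
  simp [Pi.single_eq_of_ne' h] at this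

theorem scat {X : Type} [TopologicalSpace X] {f : X → ℝ}
    (h : ∀ x, ∀ᶠ y in 𝓝 x, y ≠ x → f y = 0) : ScatCont f := by
  intro A ⟨a, ha⟩
  by_cases c : ∃ b ∈ A, f b = 0
  · obtain ⟨b, b1, b2⟩ := c
    refine ⟨⟨b, b1⟩, continuousAt_const.congr (f := fun _ => (0 : ℝ))
      ((continuous_subtype_val.tendsto (⟨b, b1⟩ : A)).eventually (h b) |>.mono fun y hy => ?_)⟩
    by_cases e : y.1 = b
    · exact (e ▸ b2 : f y = 0).symm
    · exact (hy e).symm
  · refine ⟨⟨a, ha⟩, continuousAt_const.congr (f := fun _ => f a)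
      ((continuous_subtype_val.tendsto (⟨a, ha⟩ : A)).eventually (h a) |>.mono fun y hy => ?_)⟩
    by_cases e : y.1 = a
    · exact (congrArg f e).symm
    · exact absurd ⟨y, y.2, hy e⟩ c

/-- Cylinders with countable domain. -/
def cyl : Set (Set (ℝ → Bool)) := {C | ∃ S : Set ℝ, S.Countable ∧ ∃ x, C = {y | EqOn y x S}}

theorem cyl_basis : @IsTopologicalBasis _ (generateFrom cyl) cyl := by
  refine @IsTopologicalBasis.mk _ (generateFrom cyl) _ ?_ ?_ rfl
  · rintro _ ⟨S, hS, x, rfl⟩ _ ⟨T, hT, y, rfl⟩ z hz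
    exact ⟨_, ⟨S ∪ T, hS.union hT, z, rfl⟩, fun _ _ => rfl, fun w hw =>
      ⟨(hw.mono subset_union_left).trans hz.1, (hw.mono subset_union_right).trans hz.2⟩⟩
  · exact eq_univ_of_forall fun x => ⟨_, ⟨∅, countable_empty, x, rfl⟩, eqOn_empty _ _⟩

theorem cyl_card : Cardinal.mk cyl ≤ Cardinal.continuum := by
  have : cyl ⊆ range fun s : ℕ → Option (ℝ × Bool) =>
      {y : ℝ → Bool | ∀ n p, s n = some p → y p.1 = p.2} := by
    rintro _ ⟨S, hS, x, rfl⟩
    rcases S.eq_empty_or_nonempty with rfl | hne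
    · exact ⟨fun _ => none, by ext; simp⟩
    · obtain ⟨g, rfl⟩ := hS.exists_eq_range hne
      exact ⟨fun n => some (g n, x (g n)), by ext; simp [EqOn]⟩
  refine (Cardinal.mk_le_mk_of_subset this).trans (Cardinal.mk_range_le.trans_eq ?_)
  simp [Cardinal.mk_real, Cardinal.add_one_eq Cardinal.aleph0_le_continuum]

theorem main1 : ∃ (X : Type) (_ : TopologicalSpace X), T35Space X ∧ ∃ K : Set (X → ℝ),
    (∀ f ∈ K, ScatCont f) ∧ IsCompact K ∧ Convex ℝ K ∧ netWeight X < weight K := by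
  let := generateFrom cyl
  have hn : ∀ (x : ℝ → Bool) (S : Set ℝ), S.Countable → {y | EqOn y x S} ∈ 𝓝 x := fun x S hS =>
    cyl_basis.mem_nhds ⟨S, hS, x, rfl⟩ fun _ _ => rfl
  have hc : ∀ C ∈ cyl, IsClopen C := by
    rintro _ ⟨S, hS, x, rfl⟩
    exact ⟨⟨isOpen_iff_mem_nhds.2 fun y hy => mem_of_superset (hn y S hS) fun z hz c =>
      hy (hz.symm.trans c)⟩, cyl_basis.isOpen ⟨S, hS, x, rfl⟩⟩
  have : T0Space (ℝ → Bool) := ⟨fun x y h => funext fun r =>
    (h.mem_open_iff (cyl_basis.isOpen ⟨{r}, countable_singleton r, y, rfl⟩)).2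
      (fun _ _ => rfl) rfl⟩
  have : CompletelyRegularSpace (ℝ → Bool) := ⟨fun x K hK hx => by
    classical
    obtain ⟨C, c1, c2, c3⟩ := cyl_basis.exists_subset_of_mem_open hx hK.isOpen_compl
    refine ⟨fun y => if y ∈ C then 0 else 1, ?_, if_pos c2, fun y hy => if_neg fun c => c3 c hy⟩
    exact continuous_if (by simp [(hc C c1).frontier_eq]) continuousOn_const continuousOn_const⟩
  refine ⟨ℝ → Bool, this.1 |> fun _ => generateFrom cyl, ⟨⟩, ball _, fun f hf => scat fun x => ?_,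
    ball_compact, ball_convex, lt_of_lt_of_le ?_ le_weight⟩
  · have h1 : {y | y ≠ x ∧ f y ≠ 0}.Countable :=
      (summable_of_sum_le hf.1 hf.2).countable_support.mono fun y hy => hy.2
    have : ∀ y : {y | y ≠ x ∧ f y ≠ 0}, ∃ r, y.1 r ≠ x r := fun y => Function.ne_iff.1 y.2.1
    choose r hr using this
    have := h1.to_subtype
    filter_upwards [hn x _ (countable_range r)] with y hy h
    by_contra c
    exact hr ⟨y, h, c⟩ (hy ⟨_, rfl⟩)
  · refine lt_of_le_of_lt (max_le Cardinal.aleph0_le_continuum ((csInf_le' (by exact ⟨cyl, fun z U hU hz =>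
      cyl_basis.exists_subset_of_mem_open hz hU, rfl⟩)).trans cyl_card)) ?_
    simpa [Cardinal.mk_real] using Cardinal.cantor Cardinal.continuum

theorem main2 : ∃ K : Set ((ℕ → ℕ) → ℝ), (∀ f ∈ K, ScatCont f) ∧ IsCompact K ∧
    (∃ C : Set (ℝ → ℝ), IsCompact C ∧ Convex ℝ C ∧ Nonempty (K ≃ₜ C)) ∧ ¬ MetrizableSpace K := by
  obtain ⟨e⟩ : Nonempty ((ℕ → ℕ) ≃ ℝ) := by
    rw [← Cardinal.eq]
    simp [Cardinal.mk_real]
  let Φ : ball ℝ → (ℕ → ℕ) → ℝ := fun f x => max (f.1 (e fun n => x (n + 1)) - 1 / (x 0 + 1)) 0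
  have h1 : Continuous Φ := continuous_pi fun x => ((((continuous_apply _).comp
    continuous_subtype_val).sub continuous_const).max continuous_const)
  have h2 : ∀ (f : ball ℝ) (r : ℝ), Tendsto (fun n : ℕ => Φ f fun k => Nat.rec n
      (fun k _ => e.symm r k) k) atTop (𝓝 (f.1 r)) := fun f r => by
    have := ((tendsto_const_nhds (x := f.1 r)).sub tendsto_one_div_add_atTop_nhds_zero_nat).max
      (tendsto_const_nhds (x := (0 : ℝ)))
    rw [sub_zero, max_eq_left (f.2.1 r)] at this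
    simpa [Φ] using this
  have h3 : Function.Injective Φ := fun f g h => Subtype.ext (funext fun r =>
    tendsto_nhds_unique (h2 f r) (h ▸ h2 g r))
  have := isCompact_iff_compactSpace.1 (ball_compact (Γ := ℝ))
  have h4 := (h1.isClosedEmbedding h3).isEmbedding.toHomeomorph
  refine ⟨range Φ, ?_, isCompact_range h1, ⟨_, ball_compact, ball_convex, ⟨h4.symm⟩⟩, fun h => ?_⟩
  · rintro _ ⟨f, rfl⟩
    refine scat fun x => ?_
    have a : {y : ℕ → ℕ | y ≠ x ∧ y 0 = x 0 ∧ Φ f y ≠ 0}.Finite := by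
      refine ((fin_gt f.2 (show (0 : ℝ) < 1 / (x 0 + 1) by positivity)).image
        fun r k => Nat.rec (x 0) (fun k _ => e.symm r k) k).subset fun y hy =>
          ⟨e fun n => y (n + 1), ?_, funext fun k => ?_⟩
      · by_contra c
        exact hy.2.2 (max_eq_right (by rw [hy.2.1]; exact sub_nonpos.2 (not_le.1 c).le))
      · cases k
        exacts [hy.2.1.symm, by simp]
    filter_upwards [a.isClosed.isOpen_compl.mem_nhds fun c => c.1 rfl,
      ((continuous_apply 0).tendsto x).eventually (show ∀ᶠ n in 𝓝 (x 0), n = x 0 by simp)]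
      with y y1 y2 y3
    by_contra c
    exact y1 ⟨y3, y2, c⟩
  · have := h4.isEmbedding.metrizableSpace
    let := metrizableSpaceMetric (ball ℝ)
    have a : weight (ball ℝ) ≤ ℵ₀ := max_le le_rfl ((csInf_le'
      (by exact ⟨_, isBasis_countableBasis _, rfl⟩)).trans
      (Cardinal.le_aleph0_iff_set_countable.2 (countable_countableBasis (ball ℝ))))
    have := le_weight.trans a
    rw [Cardinal.mk_real] at this
    exact this.not_gt Cardinal.aleph0_lt_continuum

end Pool.Agent.H84.Scc
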