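import Mathlib

/-! Scatteredly continuous functions, weight and network weight. -/

namespace Pool.Agent.H84.SccDefs

open Set TopologicalSpace

/-- Every restriction to a nonempty subset has a point of continuity. -/
def ScatCont {X : Type} [TopologicalSpace X] (f : X → ℝ) : Prop :=
  ∀ A : Set X, A.Nonempty → ∃ a : A, ContinuousAt (fun x : A => f x) a

/-- The weight: the least size of a base, but at least `ℵ₀`. -/
noncomputable def weight (Z : Type) [TopologicalSpace Z] : Cardinal :=
  max Cardinal.aleph0 (sInf {c | ∃ B : Set (Set Z), IsTopologicalBasis B ∧ Cardinal.mk B = c})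

/-- The network weight: the least size of a network, but at least `ℵ₀`. -/
noncomputable def netWeight (Z : Type) [TopologicalSpace Z] : Cardinal :=
  max Cardinal.aleph0 (sInf {c | ∃ N : Set (Set Z),
    (∀ z U, IsOpen U → z ∈ U → ∃ M ∈ N, z ∈ M ∧ M ⊆ U) ∧ Cardinal.mk N = c})

end Pool.Agent.H84.SccDefs
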