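import Mathlib
import Pool.Agent.H51.LebN

open Set Filter Topology Metric unitInterval

namespace Pool.Agent.H84.Sec0

/-- `ind_x X ≤ n`: arbitrarily small open neighbourhoods whose boundaries have small inductive
dimension `< n`. -/
def IndAtLE {X : Type} [TopologicalSpace X] (x : X) (n : ℕ) : Prop :=
  ∀ V ∈ 𝓝 x, ∃ U, IsOpen U ∧ x ∈ U ∧ U ⊆ V ∧ HasSmallInductiveDimensionLT (frontier U) n

lemma sub {Z : Type} [TopologicalSpace Z] {n : ℕ} (h : HasSmallInductiveDimensionLT Z n) :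
    ∀ (Y : Type) [TopologicalSpace Y] (e : Y → Z), IsInducing e →
      HasSmallInductiveDimensionLT Y n := by
  induction h with
  | zero => intro Y _ e _; have := e.isEmpty; exact .zero
  | succ n s hs _ ih =>
    intro Y _ e he
    refine .succ n _ (hs.isInducing he) ?_
    rintro _ ⟨U, hU, rfl⟩
    exact ih U hU _ (fun y => ⟨e y, he.continuous.frontier_preimage_subset U y.2⟩)
      (IsInducing.codRestrict (he.comp IsInducing.subtypeVal) _)

lemma fr_ball {Y : Type} [MetricSpace Y] {n : ℕ} {p : Y} {r : ℝ}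
    (h : HasSmallInductiveDimensionLT (sphere p r) n) :
    HasSmallInductiveDimensionLT (frontier (ball p r)) n :=
  sub h _ (inclusion frontier_ball_subset_sphere) (IsEmbedding.inclusion _).isInducing

lemma met {Y : Type} [MetricSpace Y] {n : ℕ}
    (h : ∀ p : Y, ∃ B : Set ℝ, B.Countable ∧ ∀ r ∉ B, HasSmallInductiveDimensionLT (sphere p r) n) :
    HasSmallInductiveDimensionLT Y (n + 1) := by
  refine .succ n {U | IsOpen U ∧ HasSmallInductiveDimensionLT (frontier U) n}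
    (TopologicalSpace.isTopologicalBasis_of_isOpen_of_nhds (fun _ h => h.1) fun p V hp hV => ?_)
    fun _ h => h.2
  obtain ⟨ε, hε, hs⟩ := Metric.isOpen_iff.1 hV p hp
  obtain ⟨B, hB, hr⟩ := h p
  obtain ⟨r, h1, h2⟩ := (hB.dense_compl ℝ).inter_open_nonempty _ isOpen_Ioo (nonempty_Ioo.2 hε)
  exact ⟨ball p r, ⟨isOpen_ball, fr_ball (hr r h2)⟩, mem_ball_self h1.1,
    (ball_subset_ball h1.2.le).trans hs⟩

lemma cnt {Y : Type} [MetricSpace Y] [Countable Y] : HasSmallInductiveDimensionLT Y 1 :=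
  met fun p => ⟨range fun y => dist y p, countable_range _, fun r hr => by
    have : IsEmpty (sphere p r) := ⟨fun y => hr ⟨y, y.2⟩⟩
    exact .zero⟩

lemma sph (p : ℝ × ℝ) (r : ℝ) : HasSmallInductiveDimensionLT (sphere p r) 2 := by
  refine met fun q => ⟨{|p.1 + r - q.1.1|, |p.1 - r - q.1.1|, |p.2 + r - q.1.2|, |p.2 - r - q.1.2|},
    (toFinite _).countable, fun s hs => ?_⟩
  have : (sphere q s).Countable := by
    refine ((toFinite (({p.1 + r, p.1 - r} ×ˢ {q.1.2 + s, q.1.2 - s}) ∪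
      ({q.1.1 + s, q.1.1 - s} ×ˢ {p.2 + r, p.2 - r}) : Set (ℝ × ℝ))).countable.preimage
        Subtype.val_injective).mono ?_
    rintro ⟨⟨x, y⟩, h1⟩ h2
    simp only [mem_insert_iff, mem_singleton_iff, not_or] at hs
    obtain ⟨a1, a2, a3, a4⟩ := hs
    have k : ∀ u c t : ℝ, |u - c| = t → u = c + t ∨ u = c - t := fun u c t h => by
      rcases abs_cases (u - c) with h' | h'
      · left; linarith [h'.1]
      · right; linarith [h'.1]
    rw [mem_sphere, Subtype.dist_eq, Prod.dist_eq, Real.dist_eq, Real.dist_eq] at h2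
    rw [mem_sphere, Prod.dist_eq, Real.dist_eq, Real.dist_eq] at h1
    simp only [mem_preimage, mem_union, mem_prod, mem_insert_iff, mem_singleton_iff] at h1 h2 ⊢
    rcases max_eq_iff.1 h1 with ⟨h1, -⟩ | ⟨h1, -⟩ <;> rcases max_eq_iff.1 h2 with ⟨h2, -⟩ | ⟨h2, -⟩
    · rcases k _ _ _ h1 with rfl | rfl
      · exact (a1 h2.symm).elim
      · exact (a2 h2.symm).elim
    · exact Or.inl ⟨k _ _ _ h1, k _ _ _ h2⟩
    · exact Or.inr ⟨k _ _ _ h2, k _ _ _ h1⟩
    · rcases k _ _ _ h1 with rfl | rfl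
      · exact (a3 h2.symm).elim
      · exact (a4 h2.symm).elim
  have := this.to_subtype
  exact cnt

lemma upper (X : Set (ℝ × ℝ)) (x : X) : IndAtLE x 2 := by
  intro V hV
  obtain ⟨ε, hε, hs⟩ := Metric.mem_nhds_iff.1 hV
  refine ⟨ball x ε, isOpen_ball, mem_ball_self hε, hs, fr_ball ?_⟩
  exact sub (sph x.1 ε) _ _ (IsInducing.codRestrict (e := fun y : sphere x ε => y.1.1)
      (s := sphere x.1 ε) (IsInducing.subtypeVal.comp IsInducing.subtypeVal) fun y => y.2)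

lemma sq {X : Type} [MetricSpace X] [CompactSpace X] (β : I × I → X) (cβ : Continuous β)
    (hβ : ∀ a a', β (a, 0) ≠ β (a', 1)) {U : Set X} (h0 : ∀ b, β (0, b) ∈ U)
    (h1 : ∀ b, β (1, b) ∉ U) : ¬ HasSmallInductiveDimensionLT (frontier U) 1 := by
  intro h
  rw [hasSmallInductiveDimensionLT_one_iff] at h
  let A := range fun a => β (a, 0)
  let B := range fun a => β (a, 1)
  have cA : IsClosed A := (isCompact_range (by fun_prop)).isClosed
  have cB : IsClosed B := (isCompact_range (by fun_prop)).isClosed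
  have dAB : ∀ z ∈ A, z ∉ B := by
    rintro _ ⟨a, rfl⟩ ⟨a', h⟩
    exact hβ a a' h.symm
  have : CompactSpace (frontier U) := isCompact_iff_compactSpace.1 isClosed_frontier.isCompact
  have hx : ∀ z : frontier U, z.1 ∈ A → ∃ C, IsClopen C ∧ z ∈ C ∧ C ⊆ Subtype.val ⁻¹' Bᶜ :=
    fun z hz => by
      obtain ⟨C, h1, h2, h3⟩ := h.exists_subset_of_mem_open (u := Subtype.val ⁻¹' Bᶜ) (dAB _ hz)
        (cB.isOpen_compl.preimage continuous_subtype_val)
      exact ⟨C, h1, h2, h3⟩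
  choose! C C1 C2 C3 using hx
  obtain ⟨t, ht, hc⟩ := (cA.preimage continuous_subtype_val).isCompact.elim_nhds_subcover C
    fun z hz => (C1 z hz).isOpen.mem_nhds (C2 z hz)
  have cD : IsClopen (⋃ z ∈ t, C z) := isClopen_biUnion_finset fun z hz => C1 z (ht z hz)
  set D := ⋃ z ∈ t, C z
  have dB : ∀ z ∈ D, z.1 ∉ B := fun z hz => by
    obtain ⟨w, hw, hz⟩ := mem_iUnion₂.1 hz
    exact C3 w (ht w hw) hz
  let P := A ∪ Subtype.val '' D
  let Q := B ∪ Subtype.val '' Dᶜ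
  have cP : IsClosed P := cA.union (cD.isClosed.isCompact.image continuous_subtype_val).isClosed
  have cQ : IsClosed Q :=
    cB.union (cD.compl.isClosed.isCompact.image continuous_subtype_val).isClosed
  have dPQ : ∀ z ∈ P, z ∉ Q := by
    rintro z (h1 | ⟨w, hw, rfl⟩) (h2 | ⟨w', hw', h2⟩)
    · exact dAB z h1 h2
    · exact hw' (hc (show w'.1 ∈ A from h2 ▸ h1))
    · exact dB w hw h2
    · exact hw' (Subtype.ext h2 ▸ hw)
  let γ : (Fin 2 → ℝ) → X := fun u => β (projIcc 0 1 zero_le_one (u 0), projIcc 0 1 zero_le_one (u 1))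
  have cγ : Continuous γ := cβ.comp ((continuous_projIcc.comp (continuous_apply 0)).prodMk
    (continuous_projIcc.comp (continuous_apply 1)))
  obtain ⟨u, -, hu⟩ := Pool.Agent.H51.LebN.miranda 2 1 one_pos
    (fun u => ![infDist (γ u) U - infDist (γ u) Uᶜ, infDist (γ u) P - infDist (γ u) Q])
    (by
      refine continuous_pi fun i => ?_
      fin_cases i
      · exact ((continuous_infDist_pt U).comp cγ).sub ((continuous_infDist_pt Uᶜ).comp cγ)
      · exact ((continuous_infDist_pt P).comp cγ).sub ((continuous_infDist_pt Q).comp cγ))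
    (fun u i hu => by
      fin_cases i
      · have : γ u ∈ U := by
          have hu' : u 0 = 0 := hu
          simpa [γ, hu'] using h0 _
        simp [infDist_zero_of_mem this, infDist_nonneg]
      · have : γ u ∈ P := Or.inl ⟨_, by
          have hu' : u 1 = 0 := hu
          simp only [γ, hu', projIcc_left]; rfl⟩
        simp [infDist_zero_of_mem this, infDist_nonneg])
    (fun u i hu => by
      fin_cases i
      · have : γ u ∈ Uᶜ := by
          have hu' : u 0 = 1 := hu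
          simpa [γ, hu'] using h1 _
        simp [infDist_zero_of_mem this, infDist_nonneg]
      · have : γ u ∈ Q := Or.inl ⟨_, by
          have hu' : u 1 = 1 := hu
          simp only [γ, hu', projIcc_right]; rfl⟩
        simp [infDist_zero_of_mem this, infDist_nonneg])
  have key : ∀ S T : Set X, S.Nonempty → T.Nonempty → γ u ∈ S ∪ T →
      infDist (γ u) S - infDist (γ u) T = 0 → γ u ∈ closure S ∩ closure T := by
    intro S T hS hT h e
    rw [mem_inter_iff, mem_closure_iff_infDist_zero hS, mem_closure_iff_infDist_zero hT]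
    rcases h with h | h <;> have := infDist_zero_of_mem h <;> constructor <;> linarith
  have e1 := key U Uᶜ ⟨_, h0 0⟩ ⟨_, h1 0⟩ (by simp) (congrFun hu 0)
  rw [← frontier_eq_closure_inter_closure] at e1
  have e2 := key P Q ⟨_, Or.inl ⟨0, rfl⟩⟩ ⟨_, Or.inl ⟨0, rfl⟩⟩ (by
    by_cases hD : (⟨_, e1⟩ : frontier U) ∈ D
    · exact Or.inl (Or.inr ⟨_, hD, rfl⟩)
    · exact Or.inr (Or.inr ⟨_, hD, rfl⟩)) (congrFun hu 1)
  rw [cP.closure_eq, cQ.closure_eq] at e2
  exact dPQ _ e2.1 e2.2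

noncomputable def pt (p : ℝ × ℝ) : ℝ × ℝ := (p.1, Real.sin p.1⁻¹ + p.1 * p.2)

def S : Set (ℝ × ℝ) := pt '' (Ioc 0 1 ×ˢ Icc 0 1)

/-- the thickened `sin (1/x)` continuum -/
def X : Set (ℝ × ℝ) := closure S

lemma S_sub : S ⊆ Icc 0 1 ×ˢ Icc (-1) 2 := by
  rintro _ ⟨⟨t, s⟩, ⟨⟨h1, h2⟩, h3, h4⟩, rfl⟩
  refine ⟨⟨h1.le, h2⟩, ?_, ?_⟩ <;> simp only [pt] <;>
    nlinarith [Real.neg_one_le_sin t⁻¹, Real.sin_le_one t⁻¹]

lemma X_sub : X ⊆ Icc 0 1 ×ˢ Icc (-1) 2 := closure_minimal S_sub (isClosed_Icc.prod isClosed_Icc)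

lemma X_cpt : IsCompact X :=
  (isCompact_Icc.prod isCompact_Icc).of_isClosed_subset isClosed_closure X_sub

lemma pt_cont {p : ℝ × ℝ} (h : p.1 ≠ 0) : ContinuousAt pt p := by
  unfold pt
  fun_prop (disch := exact h)

lemma X_conn : IsConnected X :=
  (((isConnected_Ioc one_pos).prod (isConnected_Icc zero_le_one)).image pt
    fun _ hp => (pt_cont hp.1.1.ne').continuousWithinAt).closure

lemma fib {p : ℝ × ℝ} (hp : p ∈ X) (h : 0 < p.1) : |p.2 - Real.sin p.1⁻¹| ≤ p.1 := by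
  by_contra hc
  have : ∀ᶠ q in 𝓝 p, q.1 < |q.2 - Real.sin q.1⁻¹| :=
    ContinuousAt.eventually_lt continuousAt_fst (by fun_prop (disch := exact h.ne')) (not_le.1 hc)
  obtain ⟨_, h1, ⟨⟨t, s⟩, ⟨⟨a, -⟩, b, c⟩, rfl⟩⟩ := mem_closure_iff_nhds.1 hp _ this
  simp only [pt, mem_ofPred_eq, add_sub_cancel_left] at h1 a b c
  rw [abs_of_nonneg (mul_nonneg a.le b)] at h1
  nlinarith

lemma lim {K : Set (ℝ × ℝ)} (hK : IsClosed K)
    (h : ∀ t ∈ Ioc (0 : ℝ) 1, ∃ y, (t, y) ∈ K ∧ |y - Real.sin t⁻¹| ≤ t) {y : ℝ}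
    (hy : y ∈ Icc (-1 : ℝ) 1) : (0, y) ∈ K := by
  let θ : ℕ → ℝ := fun n => Real.arcsin y + ((n + 1 : ℕ) : ℝ) * (2 * Real.pi)
  have hθ : ∀ n : ℕ, (n : ℝ) + 1 ≤ θ n := fun n => by
    have := Real.neg_pi_div_two_le_arcsin y
    have := Real.pi_gt_three
    have : (0 : ℝ) ≤ n := n.cast_nonneg
    simp only [θ]; push_cast; nlinarith
  have h1 : ∀ n, 1 ≤ θ n := fun n => le_trans (by simp) (hθ n)
  choose z hz hz' using fun n => h (θ n)⁻¹ ⟨inv_pos.2 (one_pos.trans_le (h1 n)),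
    inv_le_one_of_one_le₀ (h1 n)⟩
  have t0 : Tendsto (fun n => (θ n)⁻¹) atTop (𝓝 0) := tendsto_inv_atTop_zero.comp
    (tendsto_atTop_mono hθ (tendsto_atTop_add_const_right _ _ tendsto_natCast_atTop_atTop))
  refine hK.mem_of_tendsto (t0.prodMk_nhds ?_) (Eventually.of_forall hz)
  rw [tendsto_iff_dist_tendsto_zero]
  refine squeeze_zero (fun _ => dist_nonneg) (fun n => ?_) t0
  have := hz' n
  rwa [inv_inv, Real.sin_add_nat_mul_two_pi, Real.sin_arcsin hy.1 hy.2] at this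

lemma ptX {t s : ℝ} (ht : t ∈ Ioc (0 : ℝ) 1) (hs : s ∈ Icc (0 : ℝ) 1) : pt (t, s) ∈ X :=
  subset_closure ⟨(t, s), ⟨ht, hs⟩, rfl⟩

noncomputable def f (x : X) : I := ⟨x.1.1, (X_sub x.2).1⟩

lemma f_cont : Continuous f := by unfold f; fun_prop

lemma f_surj : Function.Surjective f := by
  rintro ⟨t, h0, h1⟩
  rcases h0.eq_or_lt with rfl | h0'
  · refine ⟨⟨(0, 0), lim isClosed_closure (fun t ht => ⟨_, ptX ht ⟨le_rfl, zero_le_one⟩, ?_⟩)
      (by simp)⟩, rfl⟩
    simpa using ht.1.le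
  · exact ⟨⟨_, ptX ⟨h0', h1⟩ ⟨le_rfl, zero_le_one⟩⟩, rfl⟩

lemma no_sec {K : Set X} (hK : IsClosed K) (h : f '' K = univ) : ¬ IsTotallyDisconnected K := by
  intro hd
  have cK : IsClosed (Subtype.val '' K) := isClosed_closure.isClosedMap_subtype_val _ hK
  have hl : ∀ y ∈ Icc (-1 : ℝ) 1, ((0 : ℝ), y) ∈ Subtype.val '' K := fun y hy => lim cK (fun t ht => by
    obtain ⟨⟨⟨a, b⟩, hx⟩, h1, h2⟩ := h.symm ▸ mem_univ (⟨t, ht.1.le, ht.2⟩ : I)
    obtain rfl : a = t := congrArg Subtype.val h2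
    exact ⟨b, ⟨_, h1, rfl⟩, fib hx ht.1⟩) hy
  have := (IsEmbedding.subtypeVal.isTotallyDisconnected_image.2 hd) ((fun y => ((0 : ℝ), y)) '' Icc (-1) 1)
    (by rintro _ ⟨y, hy, rfl⟩; exact hl y hy) (isPreconnected_Icc.image _ (by fun_prop))
    ⟨0, by simp, rfl⟩ ⟨1, by simp, rfl⟩
  simp at this

lemma lower (x : X) : ¬ IndAtLE x 1 := by
  intro h
  obtain ⟨U, oU, xU, sU, hU⟩ := h _ (ball_mem_nhds x (show (0 : ℝ) < 1 / 10 by norm_num))
  have := isCompact_iff_compactSpace.1 X_cpt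
  obtain ⟨O, oO, rfl⟩ := isOpen_induced_iff.1 oU
  obtain ⟨_, hO, ⟨t₀, s₀⟩, ⟨ht₀, hs₀⟩, rfl⟩ := mem_closure_iff.1 x.2 O oO xU
  obtain ⟨δ, hδ, hb⟩ := Metric.mem_nhds_iff.1 ((pt_cont ht₀.1.ne') (oO.mem_nhds hO))
  obtain ⟨t₁, ht₁, hf⟩ : ∃ t₁ ∈ Ioc (0 : ℝ) 1, 1 / 10 ≤ |t₁ - x.1.1| := by
    by_cases hx : x.1.1 < 3 / 4
    · exact ⟨1, by simp, le_abs.2 (Or.inl (by linarith))⟩
    · exact ⟨1 / 2, by norm_num, le_abs.2 (Or.inr (by linarith))⟩
  obtain ⟨s₁, hs₁, hne, hd⟩ : ∃ s₁ ∈ Icc (0 : ℝ) 1, s₁ ≠ s₀ ∧ |s₁ - s₀| < δ := by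
    have hm : 0 < min (δ / 2) (1 / 2) := by positivity
    have h1 := min_le_left (δ / 2) (1 / 2)
    have h2 := min_le_right (δ / 2) (1 / 2)
    simp only [mem_Icc] at hs₀
    by_cases hx : s₀ < 1 / 2
    · exact ⟨s₀ + min (δ / 2) (1 / 2), ⟨by linarith, by linarith⟩, by linarith,
        abs_lt.2 ⟨by linarith, by linarith⟩⟩
    · exact ⟨s₀ - min (δ / 2) (1 / 2), ⟨by linarith, by linarith⟩, by linarith,
        abs_lt.2 ⟨by linarith, by linarith⟩⟩
  have mt : ∀ a : I, t₀ + a * (t₁ - t₀) ∈ Ioc (0 : ℝ) 1 := fun a => by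
    have := (convex_Ioc (𝕜 := ℝ) (0 : ℝ) 1).add_smul_sub_mem ht₀ ht₁ a.2
    simpa using this
  have ms : ∀ a : I, s₀ + a * (s₁ - s₀) ∈ Icc (0 : ℝ) 1 := fun a => by
    have := (convex_Icc (𝕜 := ℝ) (0 : ℝ) 1).add_smul_sub_mem hs₀ hs₁ a.2
    simpa using this
  refine sq (fun p : I × I => (⟨_, ptX (mt p.1) (ms p.2)⟩ : X)) ?_ ?_ ?_ ?_ hU
  · refine Continuous.subtype_mk (continuous_iff_continuousAt.2 fun p => ?_) _
    exact ContinuousAt.comp (f := fun p : I × I => (t₀ + p.1 * (t₁ - t₀), s₀ + p.2 * (s₁ - s₀)))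
      (pt_cont (mt p.1).1.ne') (by fun_prop)
  · intro a a' h
    have := congrArg Subtype.val h
    simp only [pt, Prod.mk.injEq] at this
    obtain ⟨e1, e2⟩ := this
    rw [← e1, add_right_inj, mul_right_inj' (mt a).1.ne'] at e2
    apply hne
    simp at e2
    exact e2.symm
  · intro b
    refine hb ?_
    rw [mem_ball, Prod.dist_eq]
    simp only [Icc.coe_zero, zero_mul, add_zero, dist_self, dist_self_add_left, Real.norm_eq_abs,
      abs_mul, max_lt_iff]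
    refine ⟨hδ, lt_of_le_of_lt ?_ hd⟩
    rw [abs_of_nonneg b.2.1]
    exact mul_le_of_le_one_left (abs_nonneg _) b.2.2
  · intro b hb'
    have := sU hb'
    rw [mem_ball, Subtype.dist_eq, Prod.dist_eq, max_lt_iff, Real.dist_eq] at this
    have h1 := this.1
    simp only [pt, Icc.coe_one, one_mul, add_sub_cancel] at h1
    linarith

end Pool.Agent.H84.Sec0
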