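import Mathlib

set_option autoImplicit false

namespace Pool.Agent.H84.SeifDefs

/-- signature of an integer matrix: positive index minus negative index of inertia of the real
quadratic form `x ↦ xᵀ S x` -/
noncomputable def sgn {k : ℕ} (S : Matrix (Fin k) (Fin k) ℤ) : ℤ :=
  (sigPos (Matrix.toQuadraticForm' (S.map fun z : ℤ => (z : ℝ))) : ℤ) -
    (sigNeg (Matrix.toQuadraticForm' (S.map fun z : ℤ => (z : ℝ))) : ℤ)

end Pool.Agent.H84.SeifDefs
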