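import Mathlib
import Pool.Agent.H84.SeifDefs

set_option autoImplicit false

namespace Pool.Agent.H84.Seif

open Matrix SeifDefs NumberTheorySymbols

theorem prime_case {p : ℕ} (hp : p.Prime) (h4 : p % 4 = 1) : ∃ a w b c : ℤ, 0 < 4 * a - 1 ∧
    0 < b * (4 * a - 1) - w ^ 2 ∧ 4 * (b * (4 * a - 1) - w ^ 2) * c - (4 * a - 1) = p := by
  have := Fact.mk hp
  obtain ⟨g, hg⟩ := FiniteField.exists_nonsquare (F := ZMod p) (by
    rw [ZMod.ringChar_zmod_n]; omega)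
  set e : ℕ := g.val + p * (3 * g.val + 1) with he
  have e4 : e % 4 = 1 := by
    rw [he, Nat.add_mod, Nat.mul_mod, h4]; omega
  have e1 : J(e | p) = -1 := by
    rw [ZMod.nonsquare_iff_jacobiSym_eq_neg_one, he]; simpa using hg
  have eo : Odd e := Nat.odd_iff.2 (by omega)
  have po : Odd p := Nat.odd_iff.2 (by omega)
  have cop : IsCoprime (-(p : ℤ)) ((4 * e : ℕ) : ℤ) := by
    refine IsCoprime.neg_left (Nat.isCoprime_iff_coprime.2 (Nat.Coprime.mul_right ?_ ?_))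
    · exact (Nat.Coprime.pow_right 2 (Nat.coprime_two_right.2 po) :)
    · rw [hp.coprime_iff_not_dvd]
      intro h
      have : J(e | p) = 0 := by
        rw [jacobiSym.mod_left, Int.emod_eq_zero_of_dvd (by exact_mod_cast h),
          jacobiSym.zero_left hp.one_lt]
      omega
  obtain ⟨r, -, hr, hr'⟩ := Nat.forall_exists_prime_gt_and_zmodEq 0 (q := 4 * e) (by omega) cop
  have := Fact.mk hr
  obtain ⟨c, hc⟩ := hr'.symm.dvd
  push_cast at hc
  have r4 : r % 4 = 3 := by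
    have : (r : ℤ) + p = 4 * (e * c) := by linarith
    omega
  have ro : Odd r := Nat.odd_iff.2 (by omega)
  have j1 : J(-(e : ℤ) | r) = 1 := by
    have : (r : ℤ) % e = (-p) % e := by
      rw [show (r : ℤ) = -p + e * (4 * c) by linarith, Int.add_mul_emod_self_left]
    rw [jacobiSym.neg _ ro, jacobiSym.quadratic_reciprocity_one_mod_four e4 ro,
      jacobiSym.mod_left' this, jacobiSym.neg _ eo,
      jacobiSym.quadratic_reciprocity_one_mod_four h4 eo, e1, ZMod.χ₄_nat_three_mod_four r4,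
      ZMod.χ₄_nat_one_mod_four e4]
    norm_num
  obtain ⟨w, hw⟩ := ZMod.isSquare_of_jacobiSym_eq_one j1
  obtain ⟨w, rfl⟩ := ZMod.intCast_surjective w
  obtain ⟨b, hb⟩ := (ZMod.intCast_eq_intCast_iff_dvd_sub (-(e : ℤ)) (w * w) r).1 (by
    push_cast at hw ⊢; exact hw)
  have ha : 4 * ((r / 4 + 1 : ℕ) : ℤ) - 1 = r := by omega
  have hb' : b * r - w ^ 2 = e := by linarith
  refine ⟨(r / 4 + 1 : ℕ), w, b, c, ?_, ?_, ?_⟩ <;> rw [ha]
  · omega
  · omega
  · rw [hb']; linarith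

theorem params {n : ℕ} (h5 : 5 ≤ n) (h4 : n % 4 = 1) : ∃ a w b c d : ℤ, 0 < 4 * a - 1 ∧
    0 < b * (4 * a - 1) - w ^ 2 ∧ 0 < 4 * (b * (4 * a - 1) - w ^ 2) * c - (4 * a - 1) ∧
    0 < 4 * d + 1 ∧ (4 * (b * (4 * a - 1) - w ^ 2) * c - (4 * a - 1)) * (4 * d + 1) = n := by
  obtain ⟨p, hp, m, rfl⟩ := Nat.exists_prime_and_dvd (n := n) (by omega)
  have h1 : p % 4 = 1 ∧ m % 4 = 1 ∨ p % 4 = 3 ∧ m % 4 = 3 := by
    rw [Nat.mul_mod] at h4
    have a1 := Nat.mod_lt p four_pos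
    have a2 := Nat.mod_lt m four_pos
    generalize p % 4 = x at *
    generalize m % 4 = y at *
    interval_cases x <;> interval_cases y <;> simp_all
  rcases h1 with ⟨h1, h2⟩ | ⟨h1, h2⟩
  · obtain ⟨a, w, b, c, k1, k2, k3⟩ := prime_case hp h1
    have : 4 * ((m / 4 : ℕ) : ℤ) + 1 = m := by omega
    exact ⟨a, w, b, c, (m / 4 : ℕ), k1, k2, by rw [k3]; exact_mod_cast hp.pos, by omega,
      by rw [k3, this]; simp⟩
  · have k1 : 4 * ((p / 4 + 1 : ℕ) : ℤ) - 1 = p := by omega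
    have k2 : 4 * ((m / 4 + 1 : ℕ) : ℤ) - 1 = m := by omega
    have k3 : 4 * (1 * (p : ℤ) - 0 ^ 2) * (m / 4 + 1 : ℕ) - p = p * m := by
      conv_rhs => rw [← k2]
      ring
    refine ⟨(p / 4 + 1 : ℕ), 0, 1, (m / 4 + 1 : ℕ), 0, ?_, ?_, ?_, by norm_num, ?_⟩ <;> rw [k1]
    · omega
    · omega
    · rw [k3]; exact mul_pos (by omega) (by omega)
    · rw [k3]; simp

def V (a w b c d : ℤ) : Matrix (Fin 6) (Fin 6) ℤ :=
  !![1, 1, 0, 0, 0, 0; 0, a, w, 0, 0, 0; 0, 0, b, 1, 0, 0; 0, 0, 0, c, 0, 0;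
    0, 0, 0, 0, -1, 1; 0, 0, 0, 0, 0, d]

def U (x y z t : ℝ) (s : ℝ) : Matrix (Fin 6) (Fin 6) ℝ :=
  !![1, x, s, 0, 0, 0; 0, 1, y, 0, 0, 0; 0, 0, 1, z, 0, 0; 0, 0, 0, 1, 0, 0;
    0, 0, 0, 0, 1, t; 0, 0, 0, 0, 0, 1]

theorem Vt (a w b c d : ℤ) : (V a w b c d)ᵀ =
    !![1, 0, 0, 0, 0, 0; 1, a, 0, 0, 0, 0; 0, w, b, 0, 0, 0; 0, 0, 1, c, 0, 0;
      0, 0, 0, 0, -1, 0; 0, 0, 0, 0, 1, d] := by
  ext i j; fin_cases i <;> fin_cases j <;> rfl

theorem Ut (x y z t s : ℝ) : (U x y z t s)ᵀ =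
    !![1, 0, 0, 0, 0, 0; x, 1, 0, 0, 0, 0; s, y, 1, 0, 0, 0; 0, 0, z, 1, 0, 0;
      0, 0, 0, 0, 1, 0; 0, 0, 0, 0, t, 1] := by
  ext i j; fin_cases i <;> fin_cases j <;> rfl

theorem det_U (x y z t s : ℝ) : (U x y z t s).det = 1 := by
  rw [det_of_isUpperTriangular]
  · simp [U, Fin.prod_univ_succ]
  · intro i j h
    fin_cases i <;> fin_cases j <;> first | rfl | exact absurd h (by decide)

theorem detJ : (V 0 0 0 0 0 - (V 0 0 0 0 0)ᵀ).det = 1 := by
  decide +kernel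

theorem det_sub (a w b c d : ℤ) : (V a w b c d - (V a w b c d)ᵀ).det = 1 := by
  have h : (V a w b c d - (V a w b c d)ᵀ).map (Int.castRingHom ℝ) =
      (U 0 0 0 0 (-w))ᵀ * (V 0 0 0 0 0 - (V 0 0 0 0 0)ᵀ).map (Int.castRingHom ℝ) *
        U 0 0 0 0 (-w) := by
    rw [Vt, Vt, Ut]
    ext i j
    simp only [Matrix.mul_apply, Fin.sum_univ_six, Matrix.map_apply, Matrix.sub_apply]
    fin_cases i <;> fin_cases j <;> simp [V, U]
  have h2 := congrArg det h
  rw [det_mul, det_mul, det_transpose, det_U, ← RingHom.mapMatrix_apply, ← RingHom.map_det,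
    ← RingHom.mapMatrix_apply, ← RingHom.map_det, detJ] at h2
  simpa using h2

theorem sgn_of {k : ℕ} (S : Matrix (Fin k) (Fin k) ℤ) (L : Matrix (Fin k) (Fin k) ℝ)
    (hL : L.det = 1) (u : Fin k → ℝ) (h : S.map (fun z : ℤ => (z : ℝ)) = Lᵀ * diagonal u * L) :
    (S.det : ℝ) = ∏ i, u i ∧ sgn S = ({i | 0 < u i}.ncard : ℤ) - {i | u i < 0}.ncard := by
  constructor
  · have h2 := congrArg det h
    rw [det_mul, det_mul, det_transpose, hL, det_diagonal, one_mul, mul_one] at h2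
    rw [← h2]
    exact (Int.castRingHom ℝ).map_det S
  · have e : QuadraticMap.Equivalent (Matrix.toQuadraticForm' (S.map fun z : ℤ => (z : ℝ)))
        (QuadraticMap.weightedSumSquares ℝ u) := by
      refine ⟨⟨Matrix.toLinearEquiv' L (invertibleOfIsUnitDet L (by simp [hL])), fun x => ?_⟩⟩
      change QuadraticMap.weightedSumSquares ℝ u (L *ᵥ x) = _
      rw [h, QuadraticMap.weightedSumSquares_apply, Matrix.toQuadraticForm',
        LinearMap.BilinMap.toQuadraticMap_apply, Matrix.toLinearMap₂'_apply', ← mulVec_mulVec,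
        ← mulVec_mulVec, dotProduct_mulVec, vecMul_transpose]
      simp only [dotProduct, mulVec_diagonal, smul_eq_mul]
      exact Finset.sum_congr rfl fun i _ => by ring
    rw [sgn, e.sigPos_eq, e.sigNeg_eq, QuadraticForm.sigPos_weightedSumSquares,
      QuadraticForm.sigNeg_weightedSumSquares]

theorem main {n : ℕ} (h5 : 5 ≤ n) (h4 : n % 4 = 1) : ∃ (k : ℕ) (V : Matrix (Fin k) (Fin k) ℤ),
    (V - Vᵀ).det = 1 ∧ |(V + Vᵀ).det| = n ∧ sgn (V + Vᵀ) = 4 := by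
  obtain ⟨a, w, b, c, d, k1, k2, k3, k4, k5⟩ := params h5 h4
  have r1 : (0 : ℝ) < 4 * a - 1 := by exact_mod_cast k1
  have r2 : (0 : ℝ) < b * (4 * a - 1) - w ^ 2 := by exact_mod_cast k2
  have r3 : (0 : ℝ) < 4 * (b * (4 * a - 1) - w ^ 2) * c - (4 * a - 1) := by exact_mod_cast k3
  have r4 : (0 : ℝ) < 4 * d + 1 := by exact_mod_cast k4
  set r : ℝ := 4 * a - 1 with hr
  set e : ℝ := b * r - w ^ 2 with he
  have ha : (a : ℝ) = (r + 1) / 4 := by linarith
  have hb : (b : ℝ) = (e + w ^ 2) / r := by rw [he]; field_simp; ring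
  obtain ⟨h1, h2⟩ := sgn_of (V a w b c d + (V a w b c d)ᵀ)
    (U (1 / 2) (2 * w / r) (r / (2 * e)) (-1 / 2) 0) (det_U ..)
    ![2, r / 2, 2 * e / r, (4 * e * c - r) / (2 * e), -2, (4 * d + 1) / 2] (by
      clear_value r e
      rw [Vt, Ut]
      ext i j
      rw [Matrix.mul_apply]
      simp only [mul_diagonal, Fin.sum_univ_six, Matrix.map_apply, Matrix.add_apply]
      fin_cases i <;> fin_cases j <;> simp [V, U, ha, hb] <;> field_simp <;> ring)
  refine ⟨6, V a w b c d, det_sub .., ?_, ?_⟩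
  · have : ((V a w b c d + (V a w b c d)ᵀ).det : ℝ) = -(n : ℝ) := by
      have k6 : (4 * e * c - r) * (4 * d + 1) = n := by rw [he, hr]; exact_mod_cast k5
      rw [h1, ← k6]
      simp [Fin.prod_univ_succ]
      field_simp
    have : (V a w b c d + (V a w b c d)ᵀ).det = -(n : ℤ) := by exact_mod_cast this
    rw [this]; simp
  · have p1 : 0 < r / 2 := by positivity
    have p2 : 0 < 2 * e / r := by positivity
    have p3 : 0 < (4 * e * c - r) / (2 * e) := by positivity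
    have p4 : (0 : ℝ) < (4 * d + 1) / 2 := by positivity
    have s1 : {i | 0 < (![2, r / 2, 2 * e / r, (4 * e * c - r) / (2 * e), -2, (4 * d + 1) / 2] :
        Fin 6 → ℝ) i} = ({0, 1, 2, 3, 5} : Finset (Fin 6)) := by
      ext i; fin_cases i <;> simp [p1, p2, p3, p4]
    have s2 : {i | (![2, r / 2, 2 * e / r, (4 * e * c - r) / (2 * e), -2, (4 * d + 1) / 2] :
        Fin 6 → ℝ) i < 0} = ({4} : Finset (Fin 6)) := by
      ext i; fin_cases i <;> simp [p1.le, p2.le, p3.le, p4.le]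
    rw [h2, s1, s2, Set.ncard_coe_finset, Set.ncard_coe_finset]
    rfl

end Pool.Agent.H84.Seif
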