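import Pool.Agent.H84.SelaDefs

/-! The almost disjoint family of branches coded by a Q-set has property (a). -/

namespace Pool.Agent.H84.Sela

open Set Cardinal Filter TopologicalSpace

/-- The node of length `k` on the branch `x`. -/
def node (x : ℕ → Bool) (k : ℕ) : ℕ := Encodable.encode ((List.range k).map x)

theorem node_eq {x y : ℕ → Bool} {k l : ℕ} :
    node x k = node y l ↔ k = l ∧ ∀ i < k, x i = y i := by
  constructor
  · intro h
    have h1 : (List.range k).map x = (List.range l).map y := Encodable.encode_injective h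
    have h2 : k = l := by simpa using congrArg List.length h1
    subst h2
    exact ⟨rfl, fun i hi => List.map_inj_left.1 h1 i (List.mem_range.2 hi)⟩
  · rintro ⟨rfl, h⟩
    unfold node
    congr 1
    exact List.map_inj_left.2 fun i hi => h i (List.mem_range.1 hi)

theorem node_inj (x : ℕ → Bool) : Function.Injective (node x) := fun _ _ h => (node_eq.1 h).1

theorem br_inter {x y : ℕ → Bool} (h : x ≠ y) : (range (node x) ∩ range (node y)).Finite := by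
  obtain ⟨i, hi⟩ := Function.ne_iff.1 h
  refine ((finite_Iic i).image (node x)).subset ?_
  rintro _ ⟨⟨k, rfl⟩, ⟨l, hl⟩⟩
  refine ⟨k, ?_, rfl⟩
  by_contra hk
  exact hi ((node_eq.1 hl.symm).2 i (not_le.1 hk))

theorem br_inj : Function.Injective fun x : ℕ → Bool => range (node x) := by
  intro x y h
  by_contra hne
  have h1 := br_inter hne
  have h2 : range (node x) = range (node y) := h
  rw [← h2, inter_self] at h1
  exact infinite_range_of_injective (node_inj x) h1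

/-- A code of the reals by branches with continuous inverse. -/
theorem exists_code : ∃ φ : ℝ → ℕ → Bool, ∀ x : ℝ, ∀ U : Set ℝ, IsOpen U → x ∈ U →
    ∃ i, ∀ y, φ y i = φ x i → y ∈ U := by
  classical
  obtain ⟨B, hBc, -, hB⟩ := exists_countable_basis ℝ
  obtain ⟨B0, hB0, -⟩ := hB.exists_subset_of_mem_open (mem_univ (0 : ℝ)) isOpen_univ
  obtain ⟨b, rfl⟩ := hBc.exists_eq_range ⟨B0, hB0⟩
  refine ⟨fun x i => decide (x ∈ b i), fun x U hU hx => ?_⟩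
  obtain ⟨_, ⟨i, rfl⟩, hxi, hiU⟩ := hB.exists_subset_of_mem_open hx hU
  refine ⟨i, fun y hy => hiU ?_⟩
  simpa [hxi] using hy

/-- The combinatorial core. -/
theorem core {X : Set ℝ} (hX : QSet X) {φ : ℝ → ℕ → Bool}
    (hφ : ∀ x : ℝ, ∀ U : Set ℝ, IsOpen U → x ∈ U → ∃ i, ∀ y, φ y i = φ x i → y ∈ U)
    (h : ℝ → ℕ) : ∃ P : Set ℕ, ∀ x ∈ X, (P ∩ range (node (φ x))).Finite ∧
      ∃ k, h x ≤ k ∧ node (φ x) k ∈ P := by
  classical
  have h1 : ∀ m : ℕ, ∃ U : ℕ → Set ℝ, (∀ n, IsOpen (U n)) ∧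
      {x | x ∈ X ∧ h x ≠ m} = (⋂ n, U n) ∩ X := by
    intro m
    obtain ⟨G, hG, hY⟩ := hX {x | x ∈ X ∧ h x ≠ m} fun _ hx => hx.1
    obtain ⟨U, hU, rfl⟩ := hG.eq_iInter_nat
    exact ⟨U, hU, hY⟩
  choose U hUo hU using h1
  set V : ℕ → Set ℝ := fun j => U j.unpair.1 j.unpair.2 with hV
  have hVo : ∀ j, IsOpen (V j) := fun j => hUo _ _
  have hVh : ∀ j, ∀ x ∈ X, x ∉ V j → h x = j.unpair.1 := by
    intro j x hx hxV
    by_contra hne
    have : x ∈ (⋂ n, U j.unpair.1 n) ∩ X := hU _ ▸ (⟨hx, hne⟩ : x ∈ {x | x ∈ X ∧ h x ≠ _})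
    exact hxV (mem_iInter.1 this.1 _)
  have hex : ∀ x ∈ X, ∃ j, x ∉ V j := by
    intro x hx
    have : x ∉ (⋂ n, U (h x) n) ∩ X := hU _ ▸ fun h' : x ∈ {y | y ∈ X ∧ h y ≠ h x} => h'.2 rfl
    have h2 : ¬ ∀ n, x ∈ U (h x) n := fun h' => this ⟨mem_iInter.2 h', hx⟩
    obtain ⟨n, hn⟩ := not_forall.1 h2
    exact ⟨Nat.pair (h x) n, by simpa [hV] using hn⟩
  let Sep : ℕ → ℝ → ℕ → Prop := fun j x k =>
    j.unpair.1 ≤ k ∧ ∀ i < j, ∀ z, (∀ t < k, φ z t = φ x t) → z ∈ V i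
  have hsep : ∀ j x, (∀ i < j, x ∈ V i) → ∃ k, Sep j x k := by
    intro j x hx
    have h2 : ∀ i, ∃ t, i < j → ∀ y, φ y t = φ x t → y ∈ V i := by
      intro i
      by_cases hi : i < j
      · obtain ⟨t, ht⟩ := hφ x (V i) (hVo i) (hx i hi)
        exact ⟨t, fun _ => ht⟩
      · exact ⟨0, fun h' => absurd h' hi⟩
    choose t ht using h2
    obtain ⟨M, hM⟩ := ((finite_Iio j).image t).bddAbove
    refine ⟨max j.unpair.1 (M + 1), le_max_left _ _, fun i hi z hz => ht i hi z (hz _ ?_)⟩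
    exact lt_max_of_lt_right (Nat.lt_succ_of_le (hM ⟨i, hi, rfl⟩))
  have hcongr : ∀ j x y k k', k' ≤ k → (∀ t < k, φ x t = φ y t) → Sep j x k' → Sep j y k' :=
    fun j x y k k' hk hxy hs => ⟨hs.1, fun i hi z hz => hs.2 i hi z fun t ht =>
      (hz t ht).trans (hxy t (ht.trans_le hk)).symm⟩
  refine ⟨{s | ∃ x j k, s = node (φ x) k ∧ Sep j x k ∧ ∀ k' < k, ¬ Sep j x k'}, fun y hy => ?_⟩
  constructor
  · obtain ⟨j0, hj0⟩ := hex y hy
    have hfin : (⋃ j ∈ Iic j0, {k | Sep j y k ∧ ∀ k' < k, ¬ Sep j y k'}).Finite := by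
      refine (finite_Iic j0).biUnion fun j _ => Set.Subsingleton.finite ?_
      intro k hk l hl
      rcases lt_trichotomy k l with h' | h' | h'
      · exact absurd hk.1 (hl.2 k h')
      · exact h'
      · exact absurd hl.1 (hk.2 l h')
    refine (hfin.image (node (φ y))).subset ?_
    rintro _ ⟨⟨x, j, k, rfl, hs, hmin⟩, ⟨l, hl⟩⟩
    obtain ⟨rfl, hyx⟩ := node_eq.1 hl
    refine ⟨l, mem_iUnion₂.2 ⟨j, ?_, hcongr j x y l l le_rfl (fun t ht => (hyx t ht).symm) hs,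
      fun k' hk' hs' => hmin k' hk' (hcongr j y x l k' hk'.le hyx hs')⟩, hl⟩
    by_contra hj
    exact hj0 (hs.2 j0 (not_le.1 hj) y hyx)
  · have hj := Nat.find_spec (hex y hy)
    have hs := hsep (Nat.find (hex y hy)) y fun i hi => not_not.1 (Nat.find_min (hex y hy) hi)
    refine ⟨Nat.find hs, ?_, y, _, _, rfl, Nat.find_spec hs, fun k' hk' => Nat.find_min hs hk'⟩
    rw [hVh _ y hy hj]
    exact (Nat.find_spec hs).1

theorem isOpen_psi {𝓐 : Set (Set ℕ)} {U : Set (Psi 𝓐)} :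
    IsOpen U ↔ ∀ A : 𝓐, Sum.inr A ∈ U → {n | n ∈ A.1 ∧ Sum.inl n ∉ U}.Finite := Iff.rfl

theorem PropA.selA {X : Type} [TopologicalSpace X] (h : PropA X) : SelA X := by
  intro 𝓤 h𝓤 D hD
  choose F hF using fun n => h (𝓤 n) (h𝓤 n) D hD
  refine ⟨F, fun n => ⟨(hF n).1, (hF n).2.1, (hF n).2.2.1⟩, eq_univ_of_forall fun x => ?_⟩
  exact mem_iUnion.2 ⟨0, (hF 0).2.2.2 ▸ mem_univ x⟩

theorem main {X : Set ℝ} (hX : QSet X) :
    ∃ 𝓐 : Set (Set ℕ), AD 𝓐 ∧ #𝓐 = #X ∧ PropA (Psi 𝓐) := by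
  classical
  obtain ⟨φ, hφ⟩ := exists_code
  have hφi : Function.Injective φ := by
    intro x y hxy
    by_contra hne
    obtain ⟨i, hi⟩ := hφ x {y}ᶜ isOpen_compl_singleton hne
    exact hi y (by rw [hxy]) rfl
  set br : ℝ → Set ℕ := fun x => range (node (φ x)) with hbr
  have hbi : Function.Injective br := br_inj.comp hφi
  refine ⟨br '' X, ⟨?_, ?_⟩, mk_image_eq hbi, ?_⟩
  · rintro _ ⟨x, -, rfl⟩
    exact infinite_range_of_injective (node_inj _)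
  · rintro _ ⟨x, -, rfl⟩ _ ⟨y, -, rfl⟩ hne
    exact br_inter fun h => hne (by simp only [hbr, h])
  intro 𝓤 h𝓤 D hD
  have hiso : ∀ n : ℕ, IsOpen ({Sum.inl n} : Set (Psi (br '' X))) := fun n =>
    isOpen_psi.2 fun A hA => by cases hA
  have hcov : ∀ p : Psi (br '' X), ∃ U ∈ 𝓤, p ∈ U := fun p =>
    mem_sUnion.1 (h𝓤.2 ▸ mem_univ p)
  have h1 : ∀ x : ℝ, ∃ (u : Set (Psi (br '' X))) (m : ℕ), ∀ hx : x ∈ X, u ∈ 𝓤 ∧
      Sum.inr ⟨br x, mem_image_of_mem _ hx⟩ ∈ u ∧ ∀ k, m ≤ k → Sum.inl (node (φ x) k) ∈ u := by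
    intro x
    by_cases hx : x ∈ X
    · obtain ⟨u, hu, hxu⟩ := hcov (Sum.inr ⟨br x, mem_image_of_mem _ hx⟩)
      have hfin := isOpen_psi.1 (h𝓤.1 u hu) _ hxu
      obtain ⟨M, hM⟩ := (hfin.preimage (node_inj (φ x)).injOn).bddAbove
      refine ⟨u, M + 1, fun _ => ⟨hu, hxu, fun k hk => ?_⟩⟩
      by_contra hku
      have : k ≤ M := hM (show k ∈ node (φ x) ⁻¹' _ from ⟨⟨k, rfl⟩, hku⟩)
      omega
    · exact ⟨∅, 0, fun h => absurd h hx⟩
  choose u h hu using h1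
  obtain ⟨P, hP⟩ := core hX hφ h
  set R : Set ℕ := {n | ∀ x ∈ X, Sum.inl n ∉ u x} with hR
  have hstar : ∀ x ∈ X, u x ⊆ St (Sum.inl '' (P ∪ R) : Set (Psi (br '' X))) 𝓤 := by
    intro x hx p hp
    obtain ⟨k, hk, hkP⟩ := (hP x hx).2
    exact ⟨u x, ⟨(hu x hx).1, _, (hu x hx).2.2 k hk, _, Or.inl hkP, rfl⟩, hp⟩
  refine ⟨Sum.inl '' (P ∪ R), ?_, ?_, ?_, eq_univ_of_forall ?_⟩
  · rintro _ ⟨n, -, rfl⟩
    obtain ⟨p, hp, hpD⟩ := hD.inter_open_nonempty _ (hiso n) (singleton_nonempty _)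
    exact (mem_singleton_iff.1 hp) ▸ hpD
  · refine isOpen_compl_iff.1 (isOpen_psi.2 ?_)
    rintro ⟨_, x, hx, rfl⟩ -
    have hfin := isOpen_psi.1 (h𝓤.1 _ (hu x hx).1) _ (hu x hx).2.1
    refine ((hP x hx).1.union hfin).subset ?_
    rintro n ⟨hn, hn'⟩
    obtain ⟨m, hm, hmn⟩ := not_not.1 hn'
    obtain rfl : m = n := Sum.inl_injective hmn
    exact hm.imp (fun h' => ⟨h', hn⟩) fun h' => ⟨hn, h' x hx⟩
  · refine isDiscrete_iff_forall_mem_exists_isOpen.2 ?_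
    rintro _ ⟨n, hn, rfl⟩
    exact ⟨{Sum.inl n}, hiso n, inter_eq_left.2 (singleton_subset_iff.2 ⟨n, hn, rfl⟩)⟩
  · rintro (n | ⟨_, x, hx, rfl⟩)
    · by_cases hn : n ∈ R
      · obtain ⟨U, hU, hnU⟩ := hcov (Sum.inl n)
        exact ⟨U, ⟨hU, _, hnU, n, Or.inr hn, rfl⟩, hnU⟩
      · simp only [hR, mem_setOf_eq, not_forall, not_not] at hn
        obtain ⟨x, hx, hnx⟩ := hn
        exact hstar x hx hnx
    · exact hstar x hx (hu x hx).2.1

end Pool.Agent.H84.Sela
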