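import Mathlib

/-! Isbell–Mrówka spaces, property (a), selectively (a), Q-sets and the dominating number. -/

namespace Pool.Agent.H84.Sela

open Set Cardinal Filter

/-- Almost disjoint family of infinite subsets of `ω`. -/
def AD (𝓐 : Set (Set ℕ)) : Prop :=
  (∀ A ∈ 𝓐, A.Infinite) ∧ ∀ A ∈ 𝓐, ∀ B ∈ 𝓐, A ≠ B → (A ∩ B).Finite

/-- The underlying set `ω ∪ 𝓐` of the `Ψ`-space. -/
def Psi (𝓐 : Set (Set ℕ)) : Type := ℕ ⊕ 𝓐

/-- The topology of `Ψ(𝓐)`: a set is open iff with each point `A ∈ 𝓐` it contains all but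
finitely many elements of `A` (so the points of `ω` are isolated and the sets `{A} ∪ (A \ F)`,
`F` finite, form a neighbourhood base at `A`). -/
instance (𝓐 : Set (Set ℕ)) : TopologicalSpace (Psi 𝓐) where
  IsOpen U := ∀ A : 𝓐, Sum.inr A ∈ U → {n | n ∈ A.1 ∧ Sum.inl n ∉ U}.Finite
  isOpen_univ := fun _ _ => finite_empty.subset fun _ h => h.2 trivial
  isOpen_inter := fun _ _ hU hV A hA => ((hU A hA.1).union (hV A hA.2)).subset fun _ h =>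
    (not_and_or.1 h.2).imp (fun h' => ⟨h.1, h'⟩) fun h' => ⟨h.1, h'⟩
  isOpen_sUnion := fun _ hS A ⟨U, hU, hA⟩ => (hS U hU A hA).subset fun _ h =>
    ⟨h.1, fun h' => h.2 ⟨U, hU, h'⟩⟩

/-- The star of `F` with respect to the family `𝓤`. -/
def St {X : Type} (F : Set X) (𝓤 : Set (Set X)) : Set X :=
  ⋃₀ {U | U ∈ 𝓤 ∧ (U ∩ F).Nonempty}

/-- `𝓤` is an open cover of `X`. -/
def OpenCover {X : Type} [TopologicalSpace X] (𝓤 : Set (Set X)) : Prop :=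
  (∀ U ∈ 𝓤, IsOpen U) ∧ ⋃₀ 𝓤 = Set.univ

/-- Property (a) of Matveev. -/
def PropA (X : Type) [TopologicalSpace X] : Prop :=
  ∀ 𝓤 : Set (Set X), OpenCover 𝓤 → ∀ D : Set X, Dense D →
    ∃ F : Set X, F ⊆ D ∧ IsClosed F ∧ IsDiscrete F ∧ St F 𝓤 = Set.univ

/-- Selectively (a). -/
def SelA (X : Type) [TopologicalSpace X] : Prop :=
  ∀ 𝓤 : ℕ → Set (Set X), (∀ n, OpenCover (𝓤 n)) → ∀ D : Set X, Dense D →
    ∃ F : ℕ → Set X, (∀ n, F n ⊆ D ∧ IsClosed (F n) ∧ IsDiscrete (F n)) ∧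
      ⋃ n, St (F n) (𝓤 n) = Set.univ

/-- Every subset of the set of reals `X` is a relative `G_δ`. -/
def QSet (X : Set ℝ) : Prop := ∀ Y ⊆ X, ∃ G : Set ℝ, IsGδ G ∧ Y = G ∩ X

/-- The dominating number. -/
noncomputable def domNum : Cardinal.{0} :=
  sInf {c | ∃ D : Set (ℕ → ℕ), #D = c ∧ ∀ f : ℕ → ℕ, ∃ g ∈ D, ∀ᶠ n in atTop, f n ≤ g n}

end Pool.Agent.H84.Sela
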