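import Pool.Agent.H84.SemiA

/-! Aposyndesis from the semicontinuum hypothesis. -/

namespace Pool.Agent.H84.SemiB

open Set Topology Filter Metric Pool.Agent.H84.SemiA

variable {X : Type*} [MetricSpace X] [CompactSpace X]

def W (F : Set X) (y : X) : Set X :=
  {x | ∃ K, K ⊆ Fᶜ ∧ IsCompact K ∧ IsConnected K ∧ y ∈ K ∧ x ∈ K}

omit [CompactSpace X] in
theorem W_sub {F : Set X} {y x : X} (h : x ∈ W F y) : x ∉ F := by
  obtain ⟨K, h1, -, -, -, h2⟩ := h
  exact h1 h2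

omit [CompactSpace X] in
theorem W_mono {F F' : Set X} (h : F ⊆ F') (y : X) : W F' y ⊆ W F y := by
  rintro x ⟨K, h1, h2⟩
  exact ⟨K, h1.trans (compl_subset_compl.2 h), h2⟩

omit [CompactSpace X] in
theorem W_self {F : Set X} {y : X} (h : y ∉ F) : y ∈ W F y :=
  ⟨{y}, singleton_subset_iff.2 h, isCompact_singleton, isConnected_singleton, rfl, rfl⟩

omit [CompactSpace X] in
theorem W_SC (F : Set X) (y : X) : SC (W F y) := by
  rintro x ⟨K, h1, h2, h3, h4, h5⟩ z ⟨L, g1, g2, g3, g4, g5⟩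
  have hc := h3.union ⟨y, h4, g4⟩ g3
  exact ⟨K ∪ L, fun v hv => ⟨K ∪ L, union_subset h1 g1, h2.union g2, hc, Or.inl h4, hv⟩,
    h2.union g2, hc, Or.inl h5, Or.inr g5⟩

omit [CompactSpace X] in
theorem W_le {F : Set X} {y y' x : X} (h : x ∈ W F y) (h' : x ∈ W F y') : W F y ⊆ W F y' := by
  obtain ⟨K, h1, h2, h3, h4, h5⟩ := h
  obtain ⟨L, g1, g2, g3, g4, g5⟩ := h'
  rintro z ⟨M, f1, f2, f3, f4, f5⟩
  exact ⟨(K ∪ L) ∪ M, union_subset (union_subset h1 g1) f1, (h2.union g2).union f2,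
    (h3.union ⟨x, h5, g5⟩ g3).union ⟨y, Or.inl h4, f4⟩ f3, Or.inl (Or.inr g4), Or.inr f5⟩

theorem W_Fs {F : Set X} (hF : IsClosed F) (y : X) : Fs (W F y) := by
  refine ⟨fun j => connectedComponentIn (thickening (1 / ((j : ℝ) + 1)) F)ᶜ y,
    fun j => comp_closed isOpen_thickening.isClosed_compl y, subset_antisymm ?_ ?_⟩
  · rintro x ⟨K, h1, h2, h3, h4, h5⟩
    obtain ⟨δ, hδ, hd⟩ := (subset_compl_iff_disjoint_right.1 h1).exists_thickenings h2 hF
    obtain ⟨j, hj⟩ := exists_nat_one_div_lt hδ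
    refine mem_iUnion.2 ⟨j, h3.isPreconnected.subset_connectedComponentIn h4 ?_ h5⟩
    intro z hz hz'
    exact disjoint_left.1 hd (self_subset_thickening hδ _ hz) (thickening_mono hj.le _ hz')
  · refine iUnion_subset fun j x hx => ?_
    have hy := connectedComponentIn_nonempty_iff.1 ⟨x, hx⟩
    exact ⟨_, (connectedComponentIn_subset _ _).trans (compl_subset_compl.2
      (self_subset_thickening Nat.one_div_pos_of_nat _)),
      (comp_closed isOpen_thickening.isClosed_compl y).isCompact,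
      isConnected_connectedComponentIn_iff.2 hy, mem_connectedComponentIn hy, hx⟩

theorem W_cl {F : Set X} (hF : IsClosed F) {B : Set X} (hB : IsClosed B)
    (hBc : IsPreconnected B) {y w : X} (hyB : y ∈ B) (hy : y ∉ F) (hwB : w ∈ B) (hw : w ∈ F) :
    ∃ a ∈ closure (W F y), a ∈ B ∧ a ∈ F := by
  by_contra hc
  push Not at hc
  obtain ⟨U, V, hU, hV, h1, h2, hUV⟩ := normal_separation (isClosed_closure.inter hB) hF
    (disjoint_left.2 fun a ha => hc a ha.1 ha.2)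
  have hUV' : U ⊆ Vᶜ := fun z hz => disjoint_left.1 hUV hz
  have hyV : y ∈ Vᶜ := hUV' (h1 ⟨subset_closure (W_self hy), hyB⟩)
  obtain ⟨z, hz, hzU⟩ := bump hB hBc hV.isClosed_compl hU hUV' hyB hyV hwB
    (fun h => disjoint_left.1 hUV h (h2 hw))
  have hsub := connectedComponentIn_subset (B ∩ Vᶜ) y
  exact hzU (h1 ⟨subset_closure ⟨_, fun v hv hv' => (hsub hv).2 (h2 hv'),
    (comp_closed (hB.inter hV.isClosed_compl) y).isCompact,
    isConnected_connectedComponentIn_iff.2 ⟨hyB, hyV⟩, mem_connectedComponentIn ⟨hyB, hyV⟩, hz⟩,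
    (hsub hz).1⟩)

theorem edge (h : Hyp X) {F : Set X} (hF : IsClosed F) {y a : X} (hy : y ∉ F)
    (ha : a ∈ closure (W F y)) :
    ∃ E, E ⊆ insert a (W F y) ∧ IsCompact E ∧ IsConnected E ∧ y ∈ E ∧ a ∈ E :=
  h _ (W_Fs hF y) (W_SC F y) a ha y (Or.inr (W_self hy)) a (Or.inl rfl)

structure Sq (p q : X) (y : ℕ → X) : Prop where
  lim : Tendsto y atTop (𝓝 p)
  far : ∀ (m : ℕ) (K : Set X), IsCompact K → IsConnected K → p ∈ K → y m ∈ K →
    (K ∩ ball q (1 / ((m : ℝ) + 1))).Nonempty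
  ne : ∀ m, y m ∉ ({p, q} : Set X)

omit [CompactSpace X] in
theorem ball_le (q : X) {m n : ℕ} (h : m ≤ n) :
    ball q (1 / ((n : ℝ) + 1)) ⊆ ball q (1 / ((m : ℝ) + 1)) :=
  ball_subset_ball (Nat.one_div_le_one_div h)

omit [CompactSpace X] in
theorem Sq.sub {p q : X} {y : ℕ → X} (h : Sq p q y) {φ : ℕ → ℕ} (hφ : StrictMono φ) :
    Sq p q (y ∘ φ) :=
  ⟨h.lim.comp hφ.tendsto_atTop, fun m K h1 h2 h3 h4 =>
    (h.far (φ m) K h1 h2 h3 h4).mono (inter_subset_inter_right _ (ball_le q (hφ.id_le m))),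
    fun m => h.ne (φ m)⟩

theorem exists_Sq {p q : X} (hpq : p ≠ q)
    (h : ¬ ∃ K : Set X, IsCompact K ∧ IsConnected K ∧ p ∈ interior K ∧ q ∉ K) :
    ∃ y, Sq p q y := by
  let r : ℕ → ℝ := fun m => min (1 / ((m : ℝ) + 1)) (dist p q)
  have hr : ∀ m, 0 < r m := fun m => lt_min Nat.one_div_pos_of_nat (dist_pos.2 hpq)
  have hp : ∀ m, p ∈ (ball q (r m))ᶜ := fun m hm => (mem_ball.1 hm).not_ge (min_le_right _ _)
  have : ∀ m, ∃ y ∈ ball p (r m), y ∉ connectedComponentIn (ball q (r m))ᶜ p := by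
    intro m
    by_contra hc
    push Not at hc
    exact h ⟨_, (comp_closed isOpen_ball.isClosed_compl p).isCompact,
      isConnected_connectedComponentIn_iff.2 (hp m),
      mem_interior_iff_mem_nhds.2 (mem_of_superset (ball_mem_nhds p (hr m)) hc),
      fun hq => connectedComponentIn_subset _ _ hq (mem_ball_self (hr m))⟩
  choose y h1 h2 using this
  refine ⟨y, ?_, fun m K hK hKc hpK hyK => ?_, fun m hm => ?_⟩
  · rw [tendsto_iff_dist_tendsto_zero]
    exact squeeze_zero (fun _ => dist_nonneg) (fun m => (h1 m).le.trans (min_le_left _ _))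
      tendsto_one_div_add_atTop_nhds_zero_nat
  · by_contra hc
    exact h2 m (hKc.isPreconnected.subset_connectedComponentIn hpK
      (fun z hz hz' => hc ⟨z, hz, ball_subset_ball (min_le_left _ _) hz'⟩) hyK)
  · rcases hm with hm | hm
    · exact h2 m (by rw [hm]; exact mem_connectedComponentIn (hp m))
    · have := mem_ball.1 (h1 m)
      rw [mem_singleton_iff.1 hm, dist_comm] at this
      exact this.not_ge (min_le_right _ _)

omit [CompactSpace X] in
theorem cl_of {S : Set X} {q : X} (h : ∀ n : ℕ, (S ∩ ball q (1 / ((n : ℝ) + 1))).Nonempty) :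
    q ∈ closure S := by
  rw [Metric.mem_closure_iff]
  intro ε hε
  obtain ⟨n, hn⟩ := exists_nat_one_div_lt hε
  obtain ⟨z, hz, hz'⟩ := h n
  exact ⟨z, hz, by rw [dist_comm]; exact (mem_ball.1 hz').trans hn⟩

theorem fan (h : Hyp X) {a b : X} (hab : a ≠ b) (E : ℕ → Set X) (hE : ∀ n, IsCompact (E n))
    (hc : ∀ n, IsConnected (E n)) (ha : ∀ n, a ∈ E n) (hb : ∀ n, b ∉ E n)
    (hd : ∀ i j x, x ≠ a → x ∈ E i → x ∈ E j → i = j) (hcl : b ∈ closure (⋃ n, E n)) : False := by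
  refine final h E (fun n => (hE n).isClosed) hb isOpen_compl_singleton hab.symm hd ?_ hcl
  intro x hx y hy
  obtain ⟨i, hi⟩ := mem_iUnion.1 hx
  obtain ⟨j, hj⟩ := mem_iUnion.1 hy
  exact ⟨E i ∪ E j, union_subset (subset_iUnion E i) (subset_iUnion E j), (hE i).union (hE j),
    (hc i).union ⟨a, ha i, ha j⟩ (hc j), Or.inl hi, Or.inr hj⟩

theorem case1 (h : Hyp X) {p q : X} (hpq : p ≠ q) {y : ℕ → X} (hy : Sq p q y)
    (hd : ∀ i j, i < j → W {p, q} (y i) ≠ W {p, q} (y j)) {a : X} (ha : a = p ∨ a = q)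
    (hcl : ∀ m, a ∈ closure (W {p, q} (y m))) : False := by
  have hF : IsClosed ({p, q} : Set X) := (toFinite _).isClosed
  choose E h1 h2 h3 h4 h5 using fun m => edge h hF (hy.ne m) (hcl m)
  have hd' : ∀ i j x, x ≠ a → x ∈ E i → x ∈ E j → i = j := fun i j x hx hi hj => by
    have e1 := (h1 i hi).resolve_left hx
    have e2 := (h1 j hj).resolve_left hx
    have e := subset_antisymm (W_le e1 e2) (W_le e2 e1)
    rcases lt_trichotomy i j with h | h | h
    · exact absurd e (hd i j h)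
    · exact h
    · exact absurd e.symm (hd j i h)
  rcases ha with rfl | rfl
  · refine fan h hpq E h2 h3 h5 (fun n hn => ?_) hd' (cl_of fun n => ?_)
    · exact W_sub ((h1 n hn).resolve_left hpq.symm) (Or.inr rfl)
    · exact (hy.far n _ (h2 n) (h3 n) (h5 n) (h4 n)).mono
        (inter_subset_inter_left _ (subset_iUnion E n))
  · refine fan h hpq.symm E h2 h3 h5 (fun n hn => ?_) hd' ?_
    · exact W_sub ((h1 n hn).resolve_left hpq) (Or.inl rfl)
    · exact mem_closure_of_tendsto hy.lim (Eventually.of_forall fun n => mem_iUnion.2 ⟨n, h4 n⟩)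

def Good (p q g : X) (T : Set X) : Prop :=
  IsCompact T ∧ IsConnected T ∧ g ∈ T ∧ p ∉ T ∧ q ∉ T

def Att (p q : X) (y : ℕ → X) (T : Set X) (m : ℕ) : Set X :=
  closure (W (T ∪ {p, q}) (y m)) ∩ T

theorem edges (h : Hyp X) {p q g : X} (hpq : p ≠ q) {y : ℕ → X} (hy : Sq p q y)
    (hg : ∀ m, y m ∈ W {p, q} g) {T : Set X} (hT : Good p q g T) :
    ∀ᶠ m in atTop, (Att p q y T m).Nonempty ∧ ∀ a ∈ Att p q y T m, ∃ E, IsClosed E ∧
      Good p q g (T ∪ E) ∧ (∀ x ∈ E, x ∈ T → x = a) ∧ y m ∈ E ∧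
      (E ∩ ball q (1 / ((m : ℝ) + 1))).Nonempty := by
  have hF : IsClosed ({p, q} : Set X) := (toFinite _).isClosed
  obtain ⟨hT1, hT2, hgT, hpT, hqT⟩ := hT
  have hg0 : g ∉ ({p, q} : Set X) := by
    rintro (rfl | rfl)
    · exact hpT hgT
    · exact hqT hgT
  obtain ⟨J, j1, j2, j3, j4, j5⟩ := edge h hF hg0
    (mem_closure_of_tendsto hy.lim (Eventually.of_forall hg))
  have hqJ : q ∉ T ∪ J := by
    rintro (hq | hq)
    · exact hqT hq
    · exact W_sub ((j1 hq).resolve_left hpq.symm) (Or.inr rfl)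
  obtain ⟨δ, hδ, hδs⟩ := Metric.isOpen_iff.1 (hT1.union j2).isClosed.isOpen_compl q hqJ
  obtain ⟨N, hN⟩ := exists_nat_one_div_lt hδ
  have hF' : IsClosed (T ∪ {p, q}) := hT1.isClosed.union hF
  filter_upwards [hy.lim.eventually (hT1.isClosed.isOpen_compl.mem_nhds hpT),
    eventually_ge_atTop N] with m hm hmN
  have hyF : y m ∉ T ∪ {p, q} := fun h => h.elim hm (hy.ne m)
  constructor
  · obtain ⟨B, b1, b2, b3, b4, b5⟩ := hg m
    obtain ⟨a, a1, a2, a3⟩ := W_cl hF' b2.isClosed b3.isPreconnected b5 hyF b4 (Or.inl hgT)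
    exact ⟨a, a1, a3.resolve_right (b1 a2)⟩
  · rintro a ⟨a1, a2⟩
    obtain ⟨E, e1, e2, e3, e4, e5⟩ := edge h hF' hyF a1
    have hc := hT2.union ⟨a, a2, e5⟩ e3
    have hn : ∀ x ∈ E, x ∈ T ∪ {p, q} → x = a := fun x hx hx' => by
      by_contra hne
      exact W_sub ((e1 hx).resolve_left hne) hx'
    refine ⟨E, e2.isClosed, ⟨hT1.union e2, hc, Or.inl hgT, ?_, ?_⟩,
      fun x hx hx' => hn x hx (Or.inl hx'), e4, ?_⟩
    · rintro (hp | hp)
      · exact hpT hp
      · exact hpT (hn p hp (Or.inr (Or.inl rfl)) ▸ a2)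
    · rintro (hp | hp)
      · exact hqT hp
      · exact hqT (hn q hp (Or.inr (Or.inr rfl)) ▸ a2)
    · obtain ⟨z, hz, hz'⟩ := hy.far m ((T ∪ E) ∪ J) ((hT1.union e2).union j2)
        (hc.union ⟨g, Or.inl hgT, j4⟩ j3) (Or.inr j5) (Or.inl (Or.inr e4))
      have hz2 : z ∉ T ∪ J := hδs (ball_subset_ball hN.le (ball_le q hmN hz'))
      rcases hz with (hz | hz) | hz
      · exact absurd (Or.inl hz) hz2
      · exact ⟨z, hz, hz'⟩
      · exact absurd (Or.inr hz) hz2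

theorem case2 (h : Hyp X) {p q g : X} (hpq : p ≠ q) {y : ℕ → X} (hy : Sq p q y)
    (hg0 : g ∉ ({p, q} : Set X)) (hg : ∀ m, y m ∈ W {p, q} g) : False := by
  obtain ⟨U, V, hU, hV, hpU, hqV, hUV⟩ := t2_separation hpq
  let Fo : Set X → Prop := fun T => ∀ᶠ m in atTop, Att p q y T m ⊆ U
  have step : ∀ T : {T // Good p q g T}, ∀ M : ℕ, ∃ (T' : {T // Good p q g T}) (m : ℕ)
      (E : Set X) (a : X), M ≤ m ∧ T'.1 = T.1 ∪ E ∧ IsClosed E ∧ a ∈ Att p q y T.1 m ∧
      (∀ x ∈ E, x ∈ T.1 → x = a) ∧ y m ∈ E ∧ (E ∩ ball q (1 / ((m : ℝ) + 1))).Nonempty ∧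
      (Fo T.1 → ∀ m', m ≤ m' → Att p q y T.1 m' ⊆ U) ∧ (¬ Fo T.1 → a ∉ U) := by
    rintro ⟨T, hT⟩ M
    have he := (edges h hpq hy hg hT).and (eventually_ge_atTop M)
    by_cases hFo : Fo T
    · obtain ⟨m, ⟨⟨⟨a, ha⟩, h2⟩, h3⟩, h4⟩ := (he.and (eventually_forall_ge_atTop.2 hFo)).exists
      obtain ⟨E, e1, e2, e3, e4, e5⟩ := h2 a ha
      exact ⟨⟨_, e2⟩, m, E, a, h3, rfl, e1, ha, e3, e4, e5, fun _ => h4, fun h => absurd hFo h⟩
    · obtain ⟨m, h4, ⟨-, h2⟩, h3⟩ := ((not_eventually.1 hFo).and_eventually he).exists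
      obtain ⟨a, ha, haU⟩ := not_subset.1 h4
      obtain ⟨E, e1, e2, e3, e4, e5⟩ := h2 a ha
      exact ⟨⟨_, e2⟩, m, E, a, h3, rfl, e1, ha, e3, e4, e5, fun h => absurd h hFo, fun _ => haU⟩
  choose f μ ε α s1 s2 s3 s4 s5 s6 s7 s8 s9 using step
  let S : ℕ → {T // Good p q g T} × ℕ := fun n => Nat.rec
    (⟨{g}, isCompact_singleton, isConnected_singleton, rfl,
      fun e => hg0 (Or.inl (mem_singleton_iff.1 e).symm),
      fun e => hg0 (Or.inr (mem_singleton_iff.1 e).symm)⟩, 0)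
    (fun _ c => (f c.1 c.2, μ c.1 c.2 + 1)) n
  let T : ℕ → Set X := fun n => (S n).1.1
  let m : ℕ → ℕ := fun n => μ (S n).1 (S n).2
  let E : ℕ → Set X := fun n => ε (S n).1 (S n).2
  let a : ℕ → X := fun n => α (S n).1 (S n).2
  have hm : StrictMono m := strictMono_nat_of_lt_succ fun n => s1 (S (n + 1)).1 (S (n + 1)).2
  have hT : ∀ n, T (n + 1) = T n ∪ E n := fun n => s2 (S n).1 (S n).2
  have hmono : Monotone T := monotone_nat_of_le_succ fun n => hT n ▸ subset_union_left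
  have hET : ∀ n, E n ⊆ ⋃ k, T k := fun n x hx => mem_iUnion.2 ⟨n + 1, hT n ▸ Or.inr hx⟩
  have main : ∀ (s : ℕ → ℕ), StrictMono s → ∀ z, (∀ n, z ∉ T n) → z ∈ closure (⋃ k, T k) →
      ∀ O, IsOpen O → z ∈ O → (∀ k n, s k ≤ n → n < s (k + 1) → ∀ x ∈ O, x ∈ E n → x ∉ T (s k)) →
      False := by
    intro s hs z hz hcl O hO hzO hd
    refine final' h (T ∘ s) (fun n => (S _).1.2.1.isClosed) (fun n => (S _).1.2.2.1)
      (hmono.comp hs.monotone) (fun n => hz _) hO hzO (fun k => ?_)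
      (closure_mono (iUnion_subset fun k => (hmono (hs.id_le k)).trans
        (subset_iUnion (T ∘ s) k)) hcl)
    have : ∀ n, s k ≤ n → n ≤ s (k + 1) →
        ∃ H, IsClosed H ∧ T n ⊆ T (s k) ∪ H ∧ ∀ x ∈ O, x ∈ H → x ∉ T (s k) := by
      intro n hn
      induction n, hn using Nat.le_induction with
      | base => exact fun _ => ⟨∅, isClosed_empty, subset_union_left, fun x _ h => h.elim⟩
      | succ n hn ih =>
        intro hn'
        obtain ⟨H, h1, h2, h3⟩ := ih (by omega)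
        refine ⟨H ∪ E n, h1.union (s3 _ _), ?_, fun x hx hx' => hx'.elim (h3 x hx)
          (hd k n hn (by omega) x hx)⟩
        rw [hT, ← union_assoc]
        exact union_subset_union_left _ h2
    exact this _ (hs.monotone (Nat.le_succ k)) le_rfl
  by_cases hc : ∃ᶠ n in atTop, Fo (T n)
  · obtain ⟨s, hs, hs'⟩ := extraction_of_frequently_atTop hc
    refine main s hs q (fun n => (S n).1.2.2.2.2.2) (cl_of fun n => ?_) V hV hqV
      (fun k n hkn _ x hxV hxE hxT => ?_)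
    · exact (s7 (S n).1 (S n).2).mono (inter_subset_inter (hET n) (ball_le q (hm.id_le n)))
    · have e : x = a n := s5 _ _ x hxE (hmono hkn hxT)
      have h1 : x ∈ Att p q y (T n) (m n) := e ▸ s4 _ _
      exact disjoint_left.1 hUV (s8 (S (s k)).1 (S (s k)).2 (hs' k) (m n) (hm.monotone hkn)
        ⟨closure_mono (W_mono (union_subset_union_left _ (hmono hkn)) _) h1.1, hxT⟩) hxV
  · obtain ⟨N, hN⟩ := eventually_atTop.1 (not_frequently.1 hc)
    refine main (fun k => N + k) (fun i j h => by simpa using h) p (fun n => (S n).1.2.2.2.2.1)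
      (mem_closure_of_tendsto (hy.lim.comp hm.tendsto_atTop)
        (Eventually.of_forall fun n => hET n (s6 _ _))) U hU hpU
      (fun k n hkn _ x hxU hxE hxT => ?_)
    have e : x = a n := s5 _ _ x hxE (hmono hkn hxT)
    exact s9 (S n).1 (S n).2 (hN n (le_trans (Nat.le_add_right _ _) hkn)) (e ▸ hxU :)

theorem apos [ConnectedSpace X] (h : Hyp X) {p q : X} (hpq : p ≠ q) :
    ∃ K : Set X, IsCompact K ∧ IsConnected K ∧ p ∈ interior K ∧ q ∉ K := by
  by_contra hc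
  obtain ⟨y, hy⟩ := exists_Sq hpq hc
  have hF : IsClosed ({p, q} : Set X) := (toFinite _).isClosed
  obtain ⟨φ, hφ | hφ⟩ := exists_increasing_or_nonincreasing_subseq (· = ·)
    (fun m => W {p, q} (y m))
  · refine case2 h hpq (hy.sub φ.strictMono) (hy.ne (φ 0)) fun m => ?_
    have : W {p, q} (y (φ 0)) = W {p, q} (y (φ m)) := by
      induction m with
      | zero => rfl
      | succ m ih => exact ih.trans (hφ m _ (Nat.lt_succ_self m))
    rw [this]
    exact W_self (hy.ne _)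
  · have hy' := hy.sub φ.strictMono
    by_cases hp : ∃ᶠ m in atTop, p ∈ closure (W {p, q} (y (φ m)))
    · obtain ⟨s, hs, hs'⟩ := extraction_of_frequently_atTop hp
      exact case1 h hpq (hy'.sub hs) (fun i j hij => hφ _ _ (hs hij)) (Or.inl rfl) hs'
    · obtain ⟨s, hs, hs'⟩ := extraction_of_eventually_atTop (not_frequently.1 hp)
      refine case1 h hpq (hy'.sub hs) (fun i j hij => hφ _ _ (hs hij)) (Or.inr rfl) fun m => ?_
      obtain ⟨a, a1, -, a2⟩ := W_cl hF isClosed_univ isPreconnected_univ (mem_univ _)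
        (hy.ne (φ (s m))) (mem_univ p) (Or.inl rfl)
      rcases a2 with rfl | rfl
      · exact absurd a1 (hs' m)
      · exact a1

end Pool.Agent.H84.SemiB
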