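import Pool.Agent.H84.BpA

/-! Analytic partitions of the line into additive semigroups. -/

namespace Pool.Agent.H84.Sgp

open Set Filter Topology TopologicalSpace MeasureTheory Cardinal Bp

theorem nsmul_mem {A : Set ℝ} (hA : ∀ a ∈ A, ∀ b ∈ A, a + b ∈ A) {a : ℝ} (ha : a ∈ A) (n : ℕ) :
    ((n : ℝ) + 1) * a ∈ A := by
  induction n with
  | zero => simpa using ha
  | succ n ih => have := hA _ ih _ ha; convert this using 1; push_cast; ring

/-- A non-meagre analytic semigroup of positive reals meets the multiples of each `x > 0`. -/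
theorem pettis {A : Set ℝ} (hA : ∀ a ∈ A, ∀ b ∈ A, a + b ∈ A) (han : AnalyticSet A)
    (hm : ¬ IsMeagre (A ∩ Ioi 0)) {x : ℝ} (hx : 0 < x) : ∃ n : ℕ, ((n : ℝ) + 1) * x ∈ A := by
  obtain ⟨U, hU, h⟩ := bp han
  obtain ⟨u, huU, hu⟩ : (U ∩ Ioi 0).Nonempty := by
    by_contra hn
    exact hm ((diff_meagre h).mono fun y hy => And.intro hy.1 fun hy' => hn ⟨y, hy', hy.2⟩)
  obtain ⟨p, q, ⟨hp, hq⟩, hpq⟩ := mem_nhds_iff_exists_Ioo_subset.1
    ((hU.inter isOpen_Ioi).mem_nhds ⟨huU, hu⟩)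
  have h2 : ∀ t ∈ Ioo p q, 2 * t ∈ A := by
    intro t ht
    have h3 : {y | A (2 * t - y) = U (2 * t - y)} ∈ residual ℝ :=
      tendsto_residual_of_isOpenMap (Homeomorph.subLeft (2 * t)).continuous
        (Homeomorph.subLeft (2 * t)).isOpenMap h
    obtain ⟨y, ⟨hy1, hy2⟩, hy3, hy4⟩ := (dense_of_mem_residual (inter_mem h h3)).inter_open_nonempty
      _ (hU.inter (hU.preimage (continuous_const.sub continuous_id : Continuous fun y => 2 * t - y)))
      ⟨t, (hpq ht).1, by simpa [two_mul] using (hpq ht).1⟩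
    simpa using hA _ (Eq.mpr hy3 hy1) _ (Eq.mpr hy4 hy2)
  obtain ⟨m, hm⟩ := exists_nat_gt (x / (q - u))
  have hqu : 0 < q - u := by linarith
  have hm' : x < (m + 1) * (q - u) := by
    rw [div_lt_iff₀ hqu] at hm
    nlinarith
  have hu0 : (0 : ℝ) < u := hu
  have hc : 0 ≤ 2 * ((m + 1) * u) / x := by positivity
  refine ⟨⌊2 * ((m + 1) * u) / x⌋₊, ?_⟩
  set n := ⌊2 * ((m + 1) * u) / x⌋₊
  have h4 : (n : ℝ) * x ≤ 2 * ((m + 1) * u) := (le_div_iff₀ hx).1 (Nat.floor_le hc)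
  have h5 : 2 * ((m + 1) * u) < (n + 1) * x := (div_lt_iff₀ hx).1 (Nat.lt_floor_add_one _)
  have hm0 : (0 : ℝ) < 2 * (m + 1) := by positivity
  have := nsmul_mem hA (h2 ((n + 1) * x / (2 * (m + 1))) ⟨hp.trans ((lt_div_iff₀ hm0).2
    (by linarith)), (div_lt_iff₀ hm0).2 (by nlinarith)⟩) m
  convert this using 1
  field_simp

theorem half {E : ℝ → ℝ → Prop} (hE : Equivalence E) (hS : ∀ x a b, E x a → E x b → E x (a + b))
    (han : AnalyticSet {p : ℝ × ℝ | E p.1 p.2}) :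
    (∀ x, 0 < x → E 1 x) ∨ ∃ θ : (ℕ → Bool) → ℝ, ∀ α β, E (θ α) (θ β) → α = β := by
  by_cases h : ∃ x, ¬ IsMeagre ({y | E x y} ∩ Ioi 0)
  · obtain ⟨z, hz⟩ := h
    have key : ∀ x, 0 < x → E z x := by
      intro x hx
      obtain ⟨n, hn⟩ := pettis (A := {y | E z y}) (fun a ha b hb => hS z a b ha hb)
        (han.preimage (Continuous.prodMk_right z)) hz hx
      exact hE.trans hn (hE.symm (nsmul_mem (A := {y | E x y}) (fun a ha b hb => hS x a b ha hb)
        (hE.refl x) n))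
    exact Or.inl fun x hx => hE.trans (hE.symm (key 1 one_pos)) (key x hx)
  · push Not at h
    have hc : Continuous fun p : ℝ × ℝ => (Real.exp p.1, Real.exp p.2) := by fun_prop
    obtain ⟨θ, hθ⟩ := mycielski (ku' (han.preimage hc) fun x =>
      ((h (Real.exp x)).preimage_of_isOpenMap Real.continuous_exp Real.isOpenEmbedding_exp.isOpenMap).mono
        fun y hy => And.intro hy (Real.exp_pos y))
    exact Or.inr ⟨fun α => Real.exp (θ α), hθ⟩

theorem main (E : Setoid ℝ) (hS : ∀ x a b, E x a → E x b → E x (a + b))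
    (han : AnalyticSet {p : ℝ × ℝ | E p.1 p.2}) : #(Quotient E) ≤ 3 ∨ #(Quotient E) = 𝔠 := by
  have big : ∀ θ : (ℕ → Bool) → ℝ, (∀ α β, E (θ α) (θ β) → α = β) → #(Quotient E) = 𝔠 := by
    intro θ hθ
    refine le_antisymm (mk_quotient_le.trans mk_real.le) ?_
    have := mk_le_of_injective (f := fun α => Quotient.mk E (θ α))
      fun α β h => hθ α β (Quotient.exact h)
    simpa using this
  rcases half E.iseqv hS han with h1 | ⟨θ, hθ⟩
  swap
  · exact Or.inr (big θ hθ)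
  have hc : Continuous fun p : ℝ × ℝ => (-p.1, -p.2) := by fun_prop
  rcases half (E := fun x y => E (-x) (-y)) ⟨fun _ => E.refl _, E.symm, E.trans⟩
    (fun x a b ha hb => by simpa [add_comm] using hS _ _ _ ha hb) (han.preimage hc) with
    h2 | ⟨θ, hθ⟩
  swap
  · exact Or.inr (big (fun α => -θ α) hθ)
  left
  have : #(Quotient E) ≤ #(Fin 3) := mk_le_of_surjective
    (f := fun i => Quotient.mk E (![1, -1, 0] i)) (by
      rintro ⟨x⟩
      rcases lt_trichotomy 0 x with h | rfl | h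
      · exact ⟨0, Quotient.sound (h1 x h)⟩
      · exact ⟨2, rfl⟩
      · exact ⟨1, Quotient.sound (by simpa using h2 (-x) (by linarith))⟩)
  simpa using this

end Pool.Agent.H84.Sgp
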