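import Pool.Agent.H84.SklDefs
import Pool.Agent.H84.Qcf
import Pool.Agent.H84.Luz

/-! Retractional skeletons can be indexed by their ranges. -/

namespace Pool.Agent.H84.Skl

open Set Filter Topology TopologicalSpace Pool.Agent.H84.SklDefs
open scoped BoundedContinuousFunction

variable {K Γ : Type} [TopologicalSpace K] [CompactSpace K] [T2Space K] [PartialOrder Γ]
  {r : Γ → K → K} (h : Skeleton r)

include h

omit [CompactSpace K] in
theorem closed_range (s : Γ) : IsClosed (range (r s)) := by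
  have : range (r s) = {x | r s x = x} :=
    subset_antisymm (by rintro _ ⟨x, rfl⟩; exact h.idem s x) fun x hx => ⟨x, hx⟩
  exact this ▸ isClosed_eq (h.cont s) continuous_id

omit [CompactSpace K] [T2Space K] in
theorem fix {s t : Γ} (e : s ≤ t) {x : K} (hx : x ∈ range (r s)) : r t x = x := by
  obtain ⟨x, rfl⟩ := hx
  exact (h.comm s t e x).2

omit [CompactSpace K] in
theorem eq_lim {s : ℕ → Γ} (hs : Monotone s) {t : Γ} (ht : IsLUB (range s) t) {x y : K}
    (e : ∀ n, r (s n) x = r (s n) y) : r t x = r t y :=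
  tendsto_nhds_unique (h.lim s hs t ht x) (by simpa only [e] using h.lim s hs t ht y)

theorem exists_sep (s : Γ) : ∃ e : K → ℕ →ᵇ ℝ, Continuous e ∧ ∀ x y, e x = e y → r s x = r s y := by
  have := h.metr s
  have := isCompact_iff_compactSpace.1 (closed_range h s).isCompact
  let := metrizableSpaceMetric (range (r s))
  obtain ⟨f, hf⟩ := exists_embedding_l_infty (range (r s))
  exact ⟨fun x => f ⟨r s x, x, rfl⟩, hf.continuous.comp ((h.cont s).subtype_mk _),
    fun x y e => congrArg Subtype.val (hf.injective e)⟩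

theorem unif {M : Type} [MetricSpace M] {g : K → M} (hg : Continuous g) {s : ℕ → Γ}
    (hs : Monotone s) (x : ℕ → K) {ε : ℝ} (hε : 0 < ε) :
    ∃ n, dist (g (r (s (n + 1)) (x n))) (g (r (s n) (x n))) ≤ ε := by
  by_contra c
  push Not at c
  obtain ⟨t, ht⟩ := h.sup s hs
  obtain ⟨⟨y, z⟩, hp⟩ := exists_clusterPt_of_compactSpace
    (map (fun n => (r (s (n + 1)) (x n), r (s n) (x n))) atTop)
  have a : ∀ {C : Set (K × K)}, IsClosed C →
      (∀ᶠ n in atTop, (r (s (n + 1)) (x n), r (s n) (x n)) ∈ C) → (y, z) ∈ C := fun hC e =>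
    isClosed_iff_clusterPt.1 hC _ (hp.mono (le_principal_iff.2 e))
  have a1 : ε ≤ dist (g y) (g z) := a (isClosed_le continuous_const
    ((hg.comp continuous_fst).dist (hg.comp continuous_snd))) (.of_forall fun n => (c n).le)
  have a2 : r t y = y := a (isClosed_eq ((h.cont t).comp continuous_fst) continuous_fst)
    (.of_forall fun n => fix h (ht.1 ⟨_, rfl⟩) ⟨_, rfl⟩)
  have a3 : r t z = z := a (isClosed_eq ((h.cont t).comp continuous_snd) continuous_snd)
    (.of_forall fun n => fix h (ht.1 ⟨_, rfl⟩) ⟨_, rfl⟩)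
  have a4 := eq_lim h hs ht (x := y) (y := z) fun m => a (isClosed_eq
    ((h.cont _).comp continuous_fst) ((h.cont _).comp continuous_snd))
    ((eventually_ge_atTop m).mono fun n hn => (h.comm _ _ (hs (hn.trans n.le_succ)) _).1.trans
      (h.comm _ _ (hs hn) _).1.symm)
  rw [a2, a3] at a4
  simp [a4, hε.not_ge] at a1

omit [CompactSpace K] [T2Space K] in
theorem exists_phi : ∃ φ : Finset K → Γ, Monotone φ ∧
    ∀ a, ∀ x ∈ a, x ∈ ⋃ s, range (r s) → x ∈ range (r (φ a)) := by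
  classical
  have := h.ne
  have : IsDirectedOrder Γ := ⟨h.dir⟩
  have h1 : ∀ x : K, ∃ s, x ∈ ⋃ s, range (r s) → x ∈ range (r s) := fun x => by
    by_cases c : x ∈ ⋃ s, range (r s)
    · exact (mem_iUnion.1 c).imp fun s a _ => a
    · exact ⟨Classical.arbitrary _, fun a => absurd a c⟩
  choose t ht using h1
  choose u hu using fun S : Finset Γ => S.finite_toSet.bddAbove
  let φ : Finset K → Γ := Finset.strongInduction fun a ih =>
    u (a.image t ∪ a.ssubsets.attach.image fun b => ih b.1 (Finset.mem_ssubsets.1 b.2))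
  have e : ∀ a, φ a = u (a.image t ∪ a.ssubsets.attach.image fun b => φ b.1) := fun a =>
    Finset.strongInduction_eq _ a
  refine ⟨φ, fun a b hab => ?_, fun a x hx c => ⟨x, fix h ?_ (ht x c)⟩⟩
  · rcases hab.eq_or_lt with rfl | c
    · rfl
    · rw [e b]
      exact hu _ (Finset.mem_union_right _ (Finset.mem_image.2
        ⟨⟨a, Finset.mem_ssubsets.2 c⟩, Finset.mem_attach _ _, rfl⟩))
  · rw [e a]
    exact hu _ (Finset.mem_union_left _ (Finset.mem_image_of_mem _ hx))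

theorem main : ∃ (𝓕 : Set (Set K)) (ρ : 𝓕 → K → K), (∀ F ∈ 𝓕, IsCompact F) ∧
    (∀ F : ℕ → 𝓕, Monotone F → ∃ G : 𝓕, G.1 = closure (⋃ n, (F n).1) ∧ IsLUB (range F) G) ∧
    (∀ F : 𝓕, range (ρ F) = F) ∧ Skeleton ρ ∧ ⋃ F, range (ρ F) = ⋃ s, range (r s) := by
  classical
  have := h.ne
  have : IsDirectedOrder Γ := ⟨h.dir⟩
  obtain ⟨φ, p1, p2⟩ := exists_phi h
  have h1 : ∀ C : Set K, C.Countable → ∃ t, IsLUB (φ '' {a | ↑a ⊆ C}) t ∧ ∃ a : ℕ → Finset K,
      Monotone a ∧ (∀ n, ↑(a n) ⊆ C) ∧ IsLUB (range (φ ∘ a)) t := fun C hC => by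
    obtain ⟨b, hb⟩ := (Qcf.cfin hC).exists_eq_range ⟨∅, by simp⟩
    have b1 : ∀ n, ↑(b n) ⊆ C := fun n => (hb ▸ mem_range_self n : b n ∈ {a : Finset K | ↑a ⊆ C})
    have a1 : Monotone fun n => (Finset.range n).biUnion b := fun _ _ e =>
      Finset.biUnion_subset_biUnion_of_subset_left _ (Finset.range_mono e)
    have a2 : ∀ n, ↑((Finset.range n).biUnion b) ⊆ C := fun n => by simp [b1]
    obtain ⟨t, ht⟩ := h.sup _ (p1.comp a1)
    refine ⟨t, ⟨?_, fun u hu => ht.2 (forall_mem_range.2 fun n => hu ⟨_, a2 n, rfl⟩)⟩, _, a1, a2, ht⟩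
    rw [hb]
    rintro _ ⟨_, ⟨n, rfl⟩, rfl⟩
    exact (p1 (Finset.subset_biUnion_of_mem b (Finset.self_mem_range_succ n))).trans (ht.1 ⟨_, rfl⟩)
  choose! σ s1 a a1 a2 a3 using h1
  have s2 : ∀ C : Set K, C.Countable → ∀ b : Finset K, ↑b ⊆ C → φ b ≤ σ C := fun C c b e =>
    (s1 C c).1 ⟨b, e, rfl⟩
  have s3 : ∀ {C C' : Set K}, C'.Countable → C ⊆ C' → σ C ≤ σ C' := fun c e =>
    (s1 _ (c.mono e)).mono (s1 _ c) (image_mono fun _ b => subset_trans b e)
  have s4 : ∀ C : ℕ → Set K, (∀ n, (C n).Countable) → Monotone C →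
      IsLUB (range fun n => σ (C n)) (σ (⋃ n, C n)) := fun C c m =>
    ⟨forall_mem_range.2 fun n => s3 (countable_iUnion c) (subset_iUnion C n), fun u hu =>
      (s1 _ (countable_iUnion c)).2 (forall_mem_image.2 fun b hb =>
        let ⟨n, hn⟩ := m.directed_le.exists_mem_subset_of_finset_subset_biUnion hb
        (s2 _ (c n) b hn).trans (hu ⟨n, rfl⟩))⟩
  set R : Set K → Set K := fun Y => closure (⋃ b ∈ {b : Finset K | ↑b ⊆ Y}, range (r (φ b))) with hR
  have r1 : ∀ {Y Y'}, Y ⊆ Y' → R Y ⊆ R Y' := fun e =>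
    closure_mono (biUnion_subset_biUnion_left fun _ b => subset_trans b e)
  have r2 : ∀ C : Set K, C.Countable → ∀ x, r (σ C) x ∈ R C := fun C c x =>
    mem_closure_of_tendsto (h.lim _ (p1.comp (a1 C c)) _ (a3 C c) x)
      (.of_forall fun n => mem_biUnion (a2 C c n) ⟨_, rfl⟩)
  have U : ∀ {M : Type} [MetricSpace M] (g : K → M), Continuous g → ∀ Y : Set K, ∃ W ⊆ Y,
      W.Countable ∧ ∀ C, C.Countable → W ⊆ C → C ⊆ Y → ∀ y ∈ R Y, g (r (σ C) y) = g y := by
    intro M _ g hg Y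
    have e : ∀ k : ℕ, ∃ W ⊆ Y, W.Countable ∧ ∀ C, C.Countable → W ⊆ C → C ⊆ Y →
        ∀ x, dist (g (r (σ C) x)) (g (r (σ W) x)) ≤ 1 / (k + 1) := fun k => by
      by_contra c
      push Not at c
      choose! nx n1 n2 n3 x n4 using c
      have i : ∀ n, nx^[n] ∅ ⊆ Y ∧ (nx^[n] ∅).Countable := fun n => by
        induction n with
        | zero => exact ⟨empty_subset _, countable_empty⟩
        | succ n ih =>
          rw [Function.iterate_succ_apply']
          exact ⟨n3 _ ih.1 ih.2, n1 _ ih.1 ih.2⟩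
      obtain ⟨n, hn⟩ := unif h hg (s := fun n => σ (nx^[n] ∅)) (monotone_nat_of_le_succ fun n =>
        s3 (i _).2 (by rw [Function.iterate_succ_apply']; exact n2 _ (i n).1 (i n).2))
        (fun n => x _ (i n).1 (i n).2) (Nat.one_div_pos_of_nat (n := k))
      rw [Function.iterate_succ_apply'] at hn
      exact hn.not_gt (n4 _ (i n).1 (i n).2)
    choose W w1 w2 w3 using e
    refine ⟨⋃ k, W k, iUnion_subset w1, countable_iUnion w2, fun C c1 c2 c3 =>
      closure_minimal (iUnion₂_subset fun b hb y hy => ?_) (isClosed_eq (hg.comp (h.cont _)) hg)⟩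
    have c4 := c1.union b.countable_toSet
    refine (eq_of_forall_dist_le fun ε hε => ?_).trans
      (congrArg g (fix h (s2 _ c4 b subset_union_right) hy))
    obtain ⟨k, hk⟩ := exists_nat_one_div_lt (half_pos hε)
    have := dist_triangle_right (g (r (σ C) y)) (g (r (σ (C ∪ b)) y)) (g (r (σ (W k)) y))
    linarith [w3 k C c1 ((subset_iUnion W k).trans c2) c3 y, w3 k _ c4 (((subset_iUnion W k).trans
      c2).trans subset_union_left) (union_subset c3 hb) y]
  obtain ⟨_, _⟩ := exists_wellFoundedLT K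
  obtain ⟨f, hf⟩ := Luz.wf_rec (I := K) (α := Prop) (fun x f p => p ↔ x ∈ ⋃ s, range (r s) ∧
    x ∉ R {y | y < x ∧ f y}) (fun x f f' p e i => by
      rwa [← show {y | y < x ∧ f y} = {y | y < x ∧ f' y} from
        Set.ext fun y => and_congr_right fun c => by rw [e y c]]) fun _ _ => ⟨_, Iff.rfl⟩
  have d1 : ∀ Y ⊆ {y | f y}, ∀ x ∈ Y, x ∈ R Y := fun Y e x hx => subset_closure (mem_biUnion
    (show ↑({x} : Finset K) ⊆ Y by simpa) (p2 _ x (by simp) ((hf x).1 (e hx)).1))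
  have d2 : ∀ x, x ∈ R {y | f y} := fun x => isClosed_closure.mem_of_tendsto (h.conv x)
    (.of_forall fun s => by_contra fun c => c (d1 _ le_rfl _ ((hf _).2
      ⟨mem_iUnion_of_mem s ⟨x, rfl⟩, fun i => c (r1 (fun _ b => b.2) i)⟩)))
  choose e e1 e2 using exists_sep h
  choose W w1 w2 w3 using fun s => U (e s) (e1 s)
  set Φ : Finset K → Set K := fun F => W (φ F) {y | f y} ∪ ⋃ η ∈ F, W (φ F) {y | y < η ∧ f y}
  set 𝒞 := {C : Set K | C.Countable ∧ C ⊆ {y | f y} ∧ ∀ F : Finset K, ↑F ⊆ C → Φ F ⊆ C}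
  have c1 : ∀ A ⊆ {y | f y}, A.Countable → ∃ C ∈ 𝒞, A ⊆ C := fun A b c => by
    obtain ⟨C, i1, i2, i3⟩ := Qcf.exists_closed Φ (fun F => (w2 _ _).union
      (F.countable_toSet.biUnion fun _ _ => w2 _ _)) A c
    exact ⟨C ∩ {y | f y}, ⟨i1.mono inter_subset_left, inter_subset_right, fun F hF => subset_inter
      (i3 F (hF.trans inter_subset_left)) (union_subset (w1 _ _) (iUnion₂_subset fun _ _ =>
        (w1 _ _).trans fun _ b => b.2))⟩, subset_inter i2 b⟩
  have c2 : ∀ C : ℕ → Set K, (∀ n, C n ∈ 𝒞) → Monotone C → ⋃ n, C n ∈ 𝒞 := fun C c m =>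
    ⟨countable_iUnion fun n => (c n).1, iUnion_subset fun n => (c n).2.1, fun F hF =>
      let ⟨n, hn⟩ := m.directed_le.exists_mem_subset_of_finset_subset_biUnion hF
      ((c n).2.2 F hn).trans (subset_iUnion C n)⟩
  have c3 : ∀ C ∈ 𝒞, {y | f y} ∩ range (r (σ C)) = C := by
    refine fun C hC => subset_antisymm (fun x hx => by_contra fun c => ?_) fun x hx =>
      ⟨hC.2.1 hx, x, fix h (s2 C hC.1 {x} (by simpa)) (p2 _ x (by simp) ((hf x).1 (hC.2.1 hx)).1)⟩
    obtain ⟨Y, y1, y2, y3, y4⟩ : ∃ Y ⊆ {y | f y}, x ∈ Y ∧ (∀ y ∈ C ∩ Y, y < x) ∧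
        ∀ b : Finset K, ↑b ⊆ C → ∃ F, b ⊆ F ∧ W (φ F) Y ⊆ C := by
      by_cases i : ∃ η, η ∈ C ∧ x < η
      · obtain ⟨η, hη⟩ := exists_minimal_of_wellFoundedLT _ i
        refine ⟨{y | y < η ∧ f y}, fun _ b => b.2, ⟨hη.1.2, hx.1⟩, fun y hy => ?_, fun b hb =>
          ⟨insert η b, Finset.subset_insert _ _, subset_trans ?_ (hC.2.2 (insert η b)
            (by simp [insert_subset_iff, hη.1.1, hb]))⟩⟩
        · by_contra j
          exact hy.2.1.not_ge (hη.le ⟨hy.1, (not_lt.1 j).lt_of_ne fun k => c (k ▸ hy.1)⟩)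
        · exact subset_union_of_subset_right (subset_biUnion_of_mem
            (u := fun η => W _ {y | y < η ∧ f y}) (Finset.mem_insert_self η b)) _
      · exact ⟨_, le_rfl, hx.1, fun y hy => (not_lt.1 fun j => i ⟨y, hy.1, j⟩).lt_of_ne
          fun k => c (k ▸ hy.1), fun b hb => ⟨b, le_rfl, subset_union_left.trans (hC.2.2 b hb)⟩⟩
    have i := hC.1.mono (inter_subset_left (t := Y))
    have j := eq_lim h (p1.comp (a1 C hC.1)) (a3 C hC.1) (x := r (σ (C ∩ Y)) x) (y := x) fun n => by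
      obtain ⟨F, f1, f2⟩ := y4 _ (a2 C hC.1 n)
      have := congrArg (r (φ (a C n))) (e2 _ _ _ (w3 (φ F) Y _ i (subset_inter f2 (w1 _ _))
        inter_subset_right x (d1 Y y1 x y2)))
      rwa [(h.comm _ _ (p1 f1) _).1, (h.comm _ _ (p1 f1) _).1] at this
    rw [(h.comm _ _ (s3 hC.1 inter_subset_left) _).2, fix h le_rfl hx.2] at j
    exact ((hf x).1 hx.1).2 (r1 (fun y hy => by exact ⟨y3 y hy, y1 hy.2⟩) (j ▸ r2 _ i x))
  set 𝓕 := (fun C => range (r (σ C))) '' 𝒞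
  set c : 𝓕 → Set K := fun F => {y | f y} ∩ F.1 with hc
  have f1 : ∀ F : 𝓕, c F ∈ 𝒞 ∧ range (r (σ (c F))) = F := by
    rintro ⟨_, C, hC, rfl⟩
    simp only [hc, c3 C hC, hC, and_self]
  have f2 : ∀ {F G : 𝓕}, F ≤ G → σ (c F) ≤ σ (c G) := fun e =>
    s3 (f1 _).1.1 (inter_subset_inter_right _ e)
  have f3 : ∀ C ∈ 𝒞, ∃ F : 𝓕, c F = C := fun C hC => ⟨⟨_, C, hC, rfl⟩, c3 C hC⟩
  have f4 : ∀ {F G : 𝓕}, c F ⊆ c G → F ≤ G := fun {F G} i => by
    show F.1 ⊆ G.1
    rw [← (f1 F).2, ← (f1 G).2]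
    exact fun x hx => ⟨x, fix h (s3 (f1 G).1.1 i) hx⟩
  have f5 : ∀ F : 𝓕, IsClosed F.1 := fun F => (f1 F).2 ▸ closed_range h _
  have f6 : ∀ F : ℕ → 𝓕, Monotone F → ∃ G : 𝓕, (G.1 = closure (⋃ n, (F n).1) ∧
      IsLUB (range F) G) ∧ ∀ x, Tendsto (fun n => r (σ (c (F n))) x) atTop (𝓝 (r (σ (c G)) x)) := by
    intro F m
    have m' : Monotone fun n => c (F n) := fun _ _ i => inter_subset_inter_right _ (m i)
    obtain ⟨G, hG⟩ := f3 _ (c2 _ (fun n => (f1 (F n)).1) m')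
    have i := h.lim _ (fun _ _ i => f2 (m i)) _ (s4 _ (fun n => (f1 (F n)).1.1) m')
    have j : ∀ n, F n ≤ G := fun n => f4 (hG ▸ subset_iUnion (fun n => c (F n)) n)
    have k : G.1 = closure (⋃ n, (F n).1) := by
      refine subset_antisymm ?_ (closure_minimal (iUnion_subset j) (f5 G))
      rw [← (f1 G).2, hG]
      rintro _ ⟨x, rfl⟩
      exact mem_closure_of_tendsto (i x) (.of_forall fun n => mem_iUnion_of_mem n
        ((f1 (F n)).2 ▸ ⟨x, rfl⟩))
    exact ⟨G, ⟨k, forall_mem_range.2 j, fun H hH => k.trans_subset (closure_minimal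
      (iUnion_subset fun n => hH ⟨n, rfl⟩) (f5 H))⟩, hG ▸ i⟩
  have f7 : ∀ A ⊆ {y | f y}, A.Countable → ∃ F : 𝓕, A ⊆ c F := fun A i j =>
    let ⟨C, i1, i2⟩ := c1 A i j
    let ⟨F, hF⟩ := f3 C i1
    ⟨F, hF ▸ i2⟩
  refine ⟨𝓕, fun F => r (σ (c F)), fun F hF => (f5 ⟨F, hF⟩).isCompact,
    fun F m => (f6 F m).imp fun _ i => i.1, fun F => (f1 F).2, ⟨⟨(f7 ∅ (by simp) (by simp)).choose⟩,
      fun F G => (f7 _ (union_subset (f1 F).1.2.1 (f1 G).1.2.1) ((f1 F).1.1.union (f1 G).1.1)).imp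
        fun H i => ⟨f4 (subset_union_left.trans i), f4 (subset_union_right.trans i)⟩,
      fun F m => (f6 F m).imp fun _ i => i.1.2, fun F => h.cont _, fun F => h.idem _,
      fun F => h.metr _, fun F G i => h.comm _ _ (f2 i), fun F m G hG => ?_, fun x O hO => ?_⟩,
    subset_antisymm (iUnion_subset fun F => subset_iUnion (fun s => range (r s)) _)
      (iUnion_subset fun t x hx => ?_)⟩
  · obtain ⟨H, i, j⟩ := f6 F m
    exact hG.unique i.2 ▸ j
  · obtain ⟨g, g1, g2, -⟩ := exists_continuous_zero_one_of_isClosed isClosed_singleton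
      isOpen_interior.isClosed_compl (disjoint_compl_right_iff_subset.2
        (singleton_subset_iff.2 (mem_interior_iff_mem_nhds.2 hO)))
    obtain ⟨A, i1, i2, i3⟩ := U g g.continuous {y | f y}
    obtain ⟨F, hF⟩ := f7 A i1 i2
    refine mem_map.2 (mem_of_superset (Ici_mem_atTop F) fun G hG => interior_subset (s := O)
      (by_contra fun j => ?_))
    have := i3 _ (f1 G).1.1 (hF.trans (inter_subset_inter_right _ hG)) inter_subset_left x (d2 x)
    rw [g1 rfl, g2 j] at this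
    simp at this
  · have i : ∀ p : Γ × 𝓕, ∃ q : Γ × 𝓕, p ≤ q ∧ σ (c p.2) ≤ q.1 ∧ W p.1 {y | f y} ⊆ c q.2 :=
      fun p => by
        obtain ⟨u, u1, u2⟩ := h.dir p.1 (σ (c p.2))
        obtain ⟨F, hF⟩ := f7 _ (union_subset (f1 p.2).1.2.1 (w1 p.1 _)) ((f1 _).1.1.union (w2 _ _))
        exact ⟨(u, F), ⟨u1, f4 (subset_union_left.trans hF)⟩, u2, subset_union_right.trans hF⟩
    choose nx n1 n2 n3 using i
    let p : ℕ → Γ × 𝓕 := fun n => nx^[n] (t, (f7 ∅ (by simp) (by simp)).choose)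
    have q1 : ∀ n, p (n + 1) = nx (p n) := fun n => Function.iterate_succ_apply' _ _ _
    have q2 : Monotone p := monotone_nat_of_le_succ fun n => q1 n ▸ n1 _
    obtain ⟨u, hu⟩ := h.sup _ (monotone_fst.comp q2)
    obtain ⟨G, i, j⟩ := f6 _ (monotone_snd.comp q2)
    have k := eq_lim h (monotone_fst.comp q2) hu (x := r (σ (c G)) x) (y := x) fun n =>
      e2 _ _ _ (w3 _ _ _ (f1 G).1.1 ((n3 (p n)).trans (inter_subset_inter_right _
        (i.2.1 ⟨n + 1, congrArg Prod.snd (q1 n)⟩))) inter_subset_left x (d2 x))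
    rw [fix h (hu.1 ⟨0, rfl⟩) hx, fix h le_rfl ((closed_range h u).mem_of_tendsto (j x)
      (.of_forall fun n => ⟨_, fix h ((n2 (p n)).trans (hu.1 ⟨n + 1, congrArg Prod.fst (q1 n)⟩))
        ⟨x, rfl⟩⟩))] at k
    exact mem_iUnion_of_mem G ⟨x, k⟩

end Pool.Agent.H84.Skl
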