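import Mathlib

/-! Retractional skeletons. -/

namespace Pool.Agent.H84.SklDefs

open Set Filter Topology TopologicalSpace

/-- A retractional skeleton on `K` indexed by `Γ`. -/
structure Skeleton {K Γ : Type} [TopologicalSpace K] [PartialOrder Γ] (r : Γ → K → K) : Prop where
  ne : Nonempty Γ
  dir : ∀ s t : Γ, ∃ u, s ≤ u ∧ t ≤ u
  sup : ∀ s : ℕ → Γ, Monotone s → ∃ t, IsLUB (range s) t
  cont : ∀ s, Continuous (r s)
  idem : ∀ s x, r s (r s x) = r s x
  metr : ∀ s, MetrizableSpace (range (r s))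
  comm : ∀ s t, s ≤ t → ∀ x, r s (r t x) = r s x ∧ r t (r s x) = r s x
  lim : ∀ s : ℕ → Γ, Monotone s → ∀ t, IsLUB (range s) t →
    ∀ x, Tendsto (fun n => r (s n) x) atTop (𝓝 (r t x))
  conv : ∀ x, Tendsto (fun s => r s x) atTop (𝓝 x)

end Pool.Agent.H84.SklDefs
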