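import Pool.Agent.H84.SnDefs

/-! Tools, and the bound on the dimension from a finite representation. -/

namespace Pool.Agent.H84.SnA

open Set TopologicalSpace Filter Topology Metric Pool.Agent.H84.SnDefs
open scoped Cardinal

universe u

theorem dimLE_idx {X : Type u} [TopologicalSpace X] {n : ℕ} (h : DimLE X n) {ι : Type*}
    [Finite ι] (U : ι → Set X) (hU : ∀ i, IsOpen (U i)) (hc : ⋃ i, U i = univ) :
    ∃ V : ι → Set X, (∀ i, IsOpen (V i)) ∧ (∀ i, V i ⊆ U i) ∧ (∀ x, ∃ i, x ∈ V i) ∧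
      ∀ x, {i | x ∈ V i}.ncard ≤ n + 1 := by
  classical
  obtain ⟨𝒱, h1, h2, h3, h4, h5⟩ := h (range U) (finite_range U)
    (by rintro _ ⟨i, rfl⟩; exact hU i) (by rwa [sUnion_range])
  have h6 : ∀ V : 𝒱, ∃ i, V.1 ⊆ U i := fun V => by
    obtain ⟨_, ⟨i, rfl⟩, hi⟩ := h4 V.1 V.2
    exact ⟨i, hi⟩
  choose φ hφ using h6
  refine ⟨fun i => ⋃ (W : 𝒱) (_ : φ W = i), W.1, fun i =>
    isOpen_iUnion fun W => isOpen_iUnion fun _ => h2 _ W.2, fun i => iUnion₂_subset fun W hW =>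
      hW ▸ hφ W, fun x => ?_, fun x => ?_⟩
  · obtain ⟨W, hW, hx⟩ := mem_sUnion.1 (h3 ▸ mem_univ x : x ∈ ⋃₀ 𝒱)
    exact ⟨φ ⟨W, hW⟩, mem_iUnion₂.2 ⟨⟨W, hW⟩, rfl, hx⟩⟩
  · have : Finite 𝒱 := h1
    have e : {W : 𝒱 | x ∈ W.1}.ncard = {V | V ∈ 𝒱 ∧ x ∈ V}.ncard := by
      rw [← ncard_image_of_injective _ Subtype.val_injective]
      congr 1
      ext V
      simp only [mem_image, mem_ofPred_eq, Subtype.exists, exists_and_right, exists_eq_right]
      exact ⟨fun ⟨a, b⟩ => ⟨a, b⟩, fun ⟨a, b⟩ => ⟨a, b⟩⟩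
    refine le_trans ?_ (h5 x)
    rw [← e]
    refine le_trans (ncard_le_ncard (t := φ '' {W : 𝒱 | x ∈ W.1}) ?_) ncard_image_le
    intro i hi
    obtain ⟨W, hW, hx⟩ := mem_iUnion₂.1 hi
    exact ⟨W, hx, hW⟩

theorem dimLE_of_idx {X : Type u} [TopologicalSpace X] {n : ℕ}
    (h : ∀ (ι : Type u) [Finite ι] (U : ι → Set X), (∀ i, IsOpen (U i)) → ⋃ i, U i = univ →
      ∃ V : ι → Set X, (∀ i, IsOpen (V i)) ∧ (∀ i, V i ⊆ U i) ∧ (∀ x, ∃ i, x ∈ V i) ∧
        ∀ x, {i | x ∈ V i}.ncard ≤ n + 1) : DimLE X n := by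
  intro 𝒰 h1 h2 h3
  have : Finite 𝒰 := h1
  obtain ⟨V, g1, g2, g3, g4⟩ := h 𝒰 Subtype.val (fun U => h2 _ U.2)
    (by rw [← h3, sUnion_eq_iUnion])
  refine ⟨range V, finite_range V, by rintro _ ⟨i, rfl⟩; exact g1 i, ?_,
    by rintro _ ⟨i, rfl⟩; exact ⟨i.1, i.2, g2 i⟩, fun x => ?_⟩
  · rw [sUnion_range]
    exact eq_univ_of_forall fun x => mem_iUnion.2 (g3 x)
  · refine le_trans (le_trans (ncard_le_ncard (t := V '' {i | x ∈ V i}) ?_) ncard_image_le) (g4 x)
    rintro _ ⟨⟨i, rfl⟩, hx⟩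
    exact ⟨i, hx, rfl⟩

theorem dim0_map {X : Type u} [TopologicalSpace X] (h : DimLE X 0) {ι : Type*}
    [Finite ι] (U : ι → Set X) (hU : ∀ i, IsOpen (U i)) (hc : ⋃ i, U i = univ) :
    ∃ f : X → ι, (∀ x, x ∈ U (f x)) ∧ ∀ j, IsOpen (f ⁻¹' {j}) := by
  obtain ⟨V, h1, h2, h3, h4⟩ := dimLE_idx h U hU hc
  choose f hf using h3
  refine ⟨f, fun x => h2 _ (hf x), fun j => ?_⟩
  have : f ⁻¹' {j} = V j := by
    ext x
    refine ⟨fun hx => (mem_singleton_iff.1 hx) ▸ hf x, fun hx => ?_⟩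
    exact (ncard_le_one (toFinite _)).1 (h4 x) (f x) (hf x) j hx
  rw [this]
  exact h1 j

theorem chain_cover {X : Type u} [PseudoEMetricSpace X] {V : Type*} [Finite V] (F : V → Set X)
    (hF : ∀ v, IsClosed (F v)) :
    ∃ W : Set V → Set X, (∀ S, IsOpen (W S)) ∧ (∀ x, x ∈ W {v | x ∈ F v}) ∧
      ∀ S S' x, x ∈ W S → x ∈ W S' → S ⊆ S' ∨ S' ⊆ S := by
  refine ⟨fun S => ⋂ v ∈ S, ⋂ w ∈ Sᶜ, {x | infEDist x (F v) < infEDist x (F w)}, fun S => ?_,
    fun x => ?_, fun S S' x h h' => ?_⟩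
  · exact (toFinite S).isOpen_biInter fun v _ => (toFinite Sᶜ).isOpen_biInter fun w _ =>
      isOpen_lt continuous_infEDist continuous_infEDist
  · refine mem_iInter₂.2 fun v hv => mem_iInter₂.2 fun w hw => ?_
    have h0 := (mem_iff_infEDist_zero_of_closed (hF v)).1 hv
    have h1 : infEDist x (F w) ≠ 0 := fun e => hw ((mem_iff_infEDist_zero_of_closed (hF w)).2 e)
    show infEDist x (F v) < infEDist x (F w)
    rw [h0]
    exact pos_iff_ne_zero.2 h1
  · by_contra hc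
    rw [not_or, not_subset, not_subset] at hc
    obtain ⟨⟨v, hv, hv'⟩, ⟨w, hw, hw'⟩⟩ := hc
    have a := mem_iInter₂.1 (mem_iInter₂.1 h v hv) w hw'
    have b := mem_iInter₂.1 (mem_iInter₂.1 h' w hw) v hv'
    exact lt_asymm (a := infEDist x (F v)) (b := infEDist x (F w)) a b

section comb

variable {I ι : Type*}

/-- `T` meets the graph of every member of `S`. -/
def Tr (T : Finset (I × ι)) (S : Set (I → ι)) : Prop := ∀ v ∈ S, ∃ i, (i, v i) ∈ T

open Classical in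
/-- The tree of candidate transversals. -/
noncomputable def tree (g : Finset (I × ι) → I → ι) : List I → Finset (I × ι)
  | [] => ∅
  | i :: w => insert (i, g (tree g w) i) (tree g w)

/-- The label read at a node of the tree. -/
noncomputable def lab (g : Finset (I × ι) → I → ι) (j₀ : ι) : List I → ι
  | [] => j₀
  | i :: w => g (tree g w) i

theorem tree_lab (g : Finset (I × ι) → I → ι) (j₀ : ι) (w : List I) :
    ∀ p ∈ tree g w, ∃ w' : List I, w'.length ≤ w.length ∧ lab g j₀ w' = p.2 := by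
  classical
  induction w with
  | nil => intro p hp; simp [tree] at hp
  | cons i w ih =>
    intro p hp
    simp only [tree, Finset.mem_insert] at hp
    rcases hp with rfl | hp
    · exact ⟨i :: w, le_rfl, rfl⟩
    · obtain ⟨w', h1, h2⟩ := ih p hp
      exact ⟨w', h1.trans (by simp), h2⟩

theorem comb [Finite I] [Finite ι] [Nonempty ι] (m : ℕ) :
    ∃ l : Set (I → ι) → ι,
      (∀ S : Set (I → ι), S.Nonempty → (∃ T, Tr T S) → ∃ v ∈ S, ∃ i, l S = v i) ∧
      ∀ C : Set (Set (I → ι)), IsChain (· ⊆ ·) C →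
        (∀ S ∈ C, S.Nonempty ∧ ∃ T, Tr T S ∧ T.card ≤ m) →
          (l '' C).ncard ≤ {w : List I | w.length ≤ m}.ncard := by
  classical
  obtain ⟨j₀⟩ := ‹Nonempty ι›
  have h1 : ∀ S : Set (I → ι), ∃ (T : Finset (I × ι)) (j : ι), S.Nonempty → (∃ T, Tr T S) →
      Tr T S ∧ (∀ T', Tr T' S → T.card ≤ T'.card) ∧ ∃ i, (i, j) ∈ T := by
    intro S
    by_cases h : ∃ T, Tr T S
    · obtain ⟨T, hT, hm⟩ := exists_minimalFor_of_wellFoundedLT (fun T => Tr T S) Finset.card h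
      by_cases hS : S.Nonempty
      · obtain ⟨v, hv⟩ := hS
        obtain ⟨i, hi⟩ := hT v hv
        exact ⟨T, v i, fun _ _ => ⟨hT, fun T' h' => by
          by_contra hc
          exact hc (hm h' (not_le.1 hc).le), i, hi⟩⟩
      · exact ⟨∅, j₀, fun h' => absurd h' hS⟩
    · exact ⟨∅, j₀, fun _ h' => absurd h' h⟩
  choose T l hT using h1
  refine ⟨l, fun S hS h => ?_, fun C hC h => ?_⟩
  · obtain ⟨a, b, i, hi⟩ := hT S hS h
    by_contra hc
    push Not at hc
    have : Tr ((T S).erase (i, l S)) S := fun v hv => by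
      obtain ⟨k, hk⟩ := a v hv
      refine ⟨k, Finset.mem_erase.2 ⟨fun e => ?_, hk⟩⟩
      exact hc v hv k (congrArg Prod.snd e).symm
    have h2 := b _ this
    rw [Finset.card_erase_of_mem hi] at h2
    have := Finset.card_pos.2 ⟨_, hi⟩
    omega
  · have h2 : ∀ T' : Finset (I × ι), ∃ v : I → ι, ∀ S ∈ C, ¬ Tr T' S →
        v ∈ S ∧ ∀ i, (i, v i) ∉ T' := by
      intro T'
      by_cases hc : ∃ S, S ∈ C ∧ ¬ Tr T' S
      · obtain ⟨S, ⟨hS, hn⟩, hm⟩ := exists_minimal_of_wellFoundedLT _ hc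
        unfold Tr at hn
        push Not at hn
        obtain ⟨v, hv, hv'⟩ := hn
        refine ⟨v, fun S' hS' hn' => ⟨?_, hv'⟩⟩
        rcases hC.total hS hS' with e | e
        · exact e hv
        · exact hm ⟨hS', hn'⟩ e hv
      · exact ⟨fun _ => j₀, fun S hS hn => absurd ⟨S, hS, hn⟩ hc⟩
    choose g hg using h2
    refine le_trans (ncard_le_ncard (t := lab g j₀ '' {w : List I | w.length ≤ m}) ?_)
      (ncard_image_le (List.finite_length_le I m))
    rintro _ ⟨S, hS, rfl⟩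
    obtain ⟨hne, T', hT', hm⟩ := h S hS
    obtain ⟨a, b, i, hi⟩ := hT S hne ⟨T', hT'⟩
    have h3 : ∀ k ≤ (T S).card, ∃ w : List I, w.length = k ∧ tree g w ⊆ T S ∧
        (tree g w).card = k := by
      intro k
      induction k with
      | zero => exact fun _ => ⟨[], rfl, by simp [tree], by simp [tree]⟩
      | succ k ih =>
        intro hk
        obtain ⟨w, w1, w2, w3⟩ := ih (by omega)
        have hn : ¬ Tr (tree g w) S := fun e => by
          have := b _ e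
          omega
        obtain ⟨g1, g2⟩ := hg _ S hS hn
        obtain ⟨i', hi'⟩ := a _ g1
        refine ⟨i' :: w, by simp [w1], ?_, ?_⟩
        · intro p hp
          simp only [tree, Finset.mem_insert] at hp
          rcases hp with rfl | hp
          · exact hi'
          · exact w2 hp
        · simp only [tree]
          convert (Finset.card_insert_of_notMem (g2 i')).trans (congrArg (· + 1) w3)
    obtain ⟨w, w1, w2, w3⟩ := h3 _ le_rfl
    have e : tree g w = T S := Finset.eq_of_subset_of_card_le w2 w3.ge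
    obtain ⟨w', v1, v2⟩ := tree_lab g j₀ w (i, l S) (e ▸ hi)
    exact ⟨w', by have := b _ hT'; show w'.length ≤ m; omega, v2⟩

end comb

theorem nhds_agree {X : Type u} [τ : TopologicalSpace X] [T2Space X] [FirstCountableTopology X]
    {I ι : Type*} [Nonempty I] (t : I → TopologicalSpace X) (hle : ∀ i U, IsOpen U → IsOpen[t i] U)
    (hint : ∀ U, (∀ i, IsOpen[t i] U) → IsOpen U) (f : I → X → ι)
    (hf : ∀ i j, IsOpen[t i] (f i ⁻¹' {j})) (x : X) : ∀ᶠ y in 𝓝 x, ∃ i, f i y = f i x := by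
  by_contra hc
  obtain ⟨s, hs, hs'⟩ := exists_seq_forall_of_frequently (not_eventually.1 hc)
  have h1 : IsOpen (insert x (range s))ᶜ := hs.isCompact_insert_range.isClosed.isOpen_compl
  have h2 : IsOpen (range s)ᶜ := by
    refine hint _ fun i => ?_
    have : (range s)ᶜ = (insert x (range s))ᶜ ∪ f i ⁻¹' {f i x} := by
      ext y
      constructor
      · intro hy
        by_cases e : y = x
        · exact Or.inr (by simp [e])
        · exact Or.inl fun h => h.elim e hy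
      · rintro (hy | hy) ⟨n, rfl⟩
        · exact hy (Or.inr ⟨n, rfl⟩)
        · exact hs' n ⟨i, hy⟩
    rw [this]
    exact @IsOpen.union X _ _ (t i) (hle i _ h1) (hf i _)
  by_cases hx : x ∈ range s
  · obtain ⟨n, hn⟩ := hx
    obtain ⟨i⟩ := ‹Nonempty I›
    exact hs' n ⟨i, by rw [hn]⟩
  · obtain ⟨n, hn⟩ := (hs.eventually (h2.mem_nhds hx)).exists
    exact hn ⟨n, rfl⟩

theorem dim_of_finite {X : Type u} [τ : TopologicalSpace X] [MetrizableSpace X] [Nonempty X]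
    {I : Type*} [Finite I] [Nonempty I] (t : I → TopologicalSpace X)
    (hle : ∀ i U, IsOpen U → IsOpen[t i] U) (hint : ∀ U, (∀ i, IsOpen[t i] U) → IsOpen U)
    (hd : ∀ i, @DimLE X (t i) 0) : ∃ n, DimLE X n := by
  classical
  let := Fintype.ofFinite I
  let : MetricSpace X := metrizableSpaceMetric X
  refine ⟨{w : List I | w.length ≤ Fintype.card I}.ncard, dimLE_of_idx fun ι _ U hU hc => ?_⟩
  obtain ⟨U', c1, c2, c3⟩ := exists_iUnion_eq_closure_subset hU (fun _ => toFinite _) hc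
  have h1 : ∀ i, ∃ f : X → ι, (∀ x, x ∈ U' (f x)) ∧ ∀ j, IsOpen[t i] (f ⁻¹' {j}) := fun i =>
    @dim0_map X (t i) (hd i) ι _ U' (fun j => hle i _ (c2 j)) c1
  choose f f1 f2 using h1
  have : Nonempty ι := ⟨f (Classical.arbitrary I) (Classical.arbitrary X)⟩
  have hN := nhds_agree t hle hint f f2
  set F : (I → ι) → Set X := fun v => closure {x | ∀ i, f i x = v i} with hF
  obtain ⟨W, w1, w2, w3⟩ := chain_cover F fun v => isClosed_closure
  obtain ⟨l, l1, l2⟩ := comb (I := I) (ι := ι) (Fintype.card I)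
  have hS : ∀ y, {v | y ∈ F v}.Nonempty ∧ ∃ T, Tr T {v | y ∈ F v} ∧ T.card ≤ Fintype.card I := by
    intro y
    refine ⟨⟨fun i => f i y, subset_closure fun _ => rfl⟩,
      Finset.univ.image fun i => (i, f i y), fun v hv => ?_, Finset.card_image_le⟩
    obtain ⟨z, ⟨i, hi⟩, hz⟩ := mem_closure_iff_nhds.1 hv _ (hN y)
    exact ⟨i, Finset.mem_image.2 ⟨i, Finset.mem_univ _, by rw [← hz i, hi]⟩⟩
  refine ⟨fun j => ⋃ (y : X) (_ : l {v | y ∈ F v} = j), W {v | y ∈ F v} ∩ U j, fun j =>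
    isOpen_iUnion fun y => isOpen_iUnion fun _ => (w1 _).inter (hU j), fun j =>
      iUnion₂_subset fun _ _ => inter_subset_right, fun y => ⟨l {v | y ∈ F v},
        mem_iUnion₂.2 ⟨y, rfl, w2 y, ?_⟩⟩, fun z => ?_⟩
  · obtain ⟨hne, T, hT, -⟩ := hS y
    obtain ⟨v, hv, i, hi⟩ := l1 _ hne ⟨T, hT⟩
    rw [hi]
    refine c3 _ (closure_mono (fun x hx => ?_) hv)
    rw [← hx i]
    exact f1 i x
  · have := l2 {S | (∃ y, S = {v | y ∈ F v}) ∧ z ∈ W S}
      (fun S h S' h' _ => w3 S S' z h.2 h'.2) (by rintro _ ⟨⟨y, rfl⟩, -⟩; exact hS y)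
    refine le_trans (le_trans (ncard_le_ncard ?_) this) (Nat.le_succ _)
    intro j hj
    obtain ⟨y, h1, h2, -⟩ := mem_iUnion₂.1 hj
    exact ⟨_, ⟨⟨y, rfl⟩, h2⟩, h1⟩

end Pool.Agent.H84.SnA
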