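import Pool.Agent.H84.SnA

/-! Building extensions from sequences of partitions. -/

namespace Pool.Agent.H84.SnB

open Set TopologicalSpace Filter Topology Metric Pool.Agent.H84.SnDefs Pool.Agent.H84.SnA
open scoped Cardinal

universe u

section build

variable {X : Type u} {D : Type*} [TopologicalSpace D] [DiscreteTopology D]

theorem cyl_open (g : X → ℕ → D) (x : X) (n : ℕ) :
    IsOpen[induced g inferInstance] {y | ∀ m < n, g y m = g x m} := by
  refine isOpen_induced_iff.2 ⟨⋂ m ∈ Iio n, {z | z m = g x m}, ?_, ?_⟩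
  · exact (finite_lt_nat n).isOpen_biInter fun m _ =>
      (isOpen_discrete {g x m}).preimage (continuous_apply (A := fun _ : ℕ => D) m)
  · ext y
    simp

omit [DiscreteTopology D] in
theorem cyl_small (g : X → ℕ → D) (x : X) {U : Set X} (hU : IsOpen[induced g inferInstance] U)
    (hx : x ∈ U) : ∃ n, {y | ∀ m < n, g y m = g x m} ⊆ U := by
  obtain ⟨O, hO, rfl⟩ := isOpen_induced_iff.1 hU
  obtain ⟨s, v, h1, h2⟩ := isOpen_pi_iff.1 hO _ hx
  obtain ⟨n, hn⟩ := s.bddAbove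
  refine ⟨n + 1, fun y hy => h2 fun m hm => ?_⟩
  rw [hy m (Nat.lt_succ_of_le (hn hm))]
  exact (h1 m hm).2

theorem cyl_closed (g : X → ℕ → D) (x : X) (n : ℕ) :
    IsClosed[induced g inferInstance] {y | ∀ m < n, g y m = g x m} := by
  let := induced g inferInstance
  refine ⟨isOpen_iff_forall_mem_open.2 fun y hy => ⟨_, fun z hz hz' => hy fun m hm => ?_,
    cyl_open g y n, fun _ _ => rfl⟩⟩
  rw [← hz m hm, hz' m hm]

theorem dim0_induced (g : X → ℕ → D) : @DimLE X (induced g inferInstance) 0 := by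
  classical
  let := induced g inferInstance
  refine dimLE_of_idx fun ι _ U hU hc => ?_
  set C : X → ℕ → Set X := fun x n => {y | ∀ m < n, g y m = g x m} with hC
  have h1 : ∀ x, ∃ n, ∃ i, C x n ⊆ U i := fun x => by
    obtain ⟨i, hi⟩ := mem_iUnion.1 (hc ▸ mem_univ x : x ∈ ⋃ i, U i)
    obtain ⟨n, hn⟩ := cyl_small g x (hU i) hi
    exact ⟨n, i, hn⟩
  have h2 : ∀ x y n k, y ∈ C x n → k ≤ n → C y k = C x k := by
    intro x y n k hy hk
    ext z
    exact forall₂_congr fun m hm => by rw [hy m (hm.trans_le hk)]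
  have h3 : ∀ x y, y ∈ C x (Nat.find (h1 x)) → Nat.find (h1 y) = Nat.find (h1 x) := by
    intro x y hy
    refine (Nat.find_eq_iff _).2 ⟨?_, fun k hk => ?_⟩
    · rw [h2 x y _ _ hy le_rfl]
      exact Nat.find_spec (h1 x)
    · rw [h2 x y _ _ hy hk.le]
      exact Nat.find_min (h1 x) hk
  have h4 : ∀ S : {S : Set X // ∃ i, S ⊆ U i}, ∃ i, S.1 ⊆ U i := fun S => S.2
  choose c hc' using h4
  set κ : X → ι := fun x => c ⟨C x (Nat.find (h1 x)), Nat.find_spec (h1 x)⟩ with hκ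
  refine ⟨fun i => κ ⁻¹' {i}, fun i => isOpen_iff_forall_mem_open.2 fun x hx =>
    ⟨C x (Nat.find (h1 x)), fun y hy => ?_, cyl_open g x _, fun _ _ => rfl⟩, fun i x hx => ?_,
      fun x => ⟨κ x, rfl⟩, fun x => ?_⟩
  · refine Eq.trans (congrArg c (Subtype.ext ?_)) hx
    show C y (Nat.find (h1 y)) = C x (Nat.find (h1 x))
    rw [h3 x y hy, h2 x y _ _ hy le_rfl]
  · rw [← mem_singleton_iff.1 hx]
    exact hc' _ fun _ _ => rfl
  · refine (ncard_le_one (toFinite _)).2 fun a ha b hb => ?_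
    exact (mem_singleton_iff.1 ha).symm.trans hb

theorem ind0_induced [Nonempty X] (g : X → ℕ → D) : @Ind0 X (induced g inferInstance) := by
  let := induced g inferInstance
  refine ⟨inferInstance, fun x U hU hx => ?_⟩
  obtain ⟨n, hn⟩ := cyl_small g x hU hx
  exact ⟨_, cyl_open g x n, fun _ _ => rfl, hn,
    IsClopen.frontier_eq ⟨cyl_closed g x n, cyl_open g x n⟩⟩

variable [τ : TopologicalSpace X]

theorem ext_of_fine (g : X → ℕ → D)
    (h : ∀ x U, IsOpen U → x ∈ U → ∃ k, {y | g y k = g x k} ⊆ U) (U : Set X) (hU : IsOpen U) :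
    IsOpen[induced g inferInstance] U := by
  refine (@isOpen_iff_forall_mem_open X (induced g inferInstance) U).2 fun x hx => ?_
  obtain ⟨k, hk⟩ := h x U hU hx
  exact ⟨{y | ∀ m < k + 1, g y m = g x m}, fun y hy => hk (hy k (Nat.lt_succ_self k)),
    cyl_open g x (k + 1), fun _ _ => rfl⟩

theorem metr_of_fine [T1Space X] (g : X → ℕ → D)
    (h : ∀ x U, IsOpen U → x ∈ U → ∃ k, {y | g y k = g x k} ⊆ U) :
    @MetrizableSpace X (induced g inferInstance) := by
  have hi : Function.Injective g := fun x y e => by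
    by_contra hne
    obtain ⟨k, hk⟩ := h x {y}ᶜ isOpen_compl_singleton hne
    exact hk (show g y k = g x k by rw [e]) rfl
  let := induced g inferInstance
  exact IsEmbedding.metrizableSpace (f := g) ⟨⟨rfl⟩, hi⟩

omit [DiscreteTopology D] in
theorem open_of_all {I : Type*} (g : I → X → ℕ → D)
    (h : ∀ x, ∃ i, ∀ k, ∀ᶠ y in 𝓝 x, g i y k = g i x k) (U : Set X)
    (hU : ∀ i, IsOpen[induced (g i) inferInstance] U) : IsOpen U := by
  refine isOpen_iff_mem_nhds.2 fun x hx => ?_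
  obtain ⟨i, hi⟩ := h x
  obtain ⟨n, hn⟩ := cyl_small (g i) x (hU i) hx
  refine mem_of_superset ?_ hn
  exact (eventually_all_finite (finite_lt_nat n)).2 fun k _ => hi k

end build

theorem small_map {Y : Type u} [MetricSpace Y] (h : DimLE Y 0) {ε : ℝ} (hε : 0 < ε) :
    ∃ q : Y → Y, (∀ y, dist y (q y) < ε) ∧ ∀ y, ∀ᶠ z in 𝓝 y, q z = q y := by
  classical
  obtain ⟨V, v1, v2, v3, v4⟩ := precise_refinement (fun a : Y => ball a ε) (fun _ => isOpen_ball)
    (eq_univ_of_forall fun y => mem_iUnion.2 ⟨y, mem_ball_self hε⟩)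
  obtain ⟨F, f1, f2, f3⟩ := exists_iUnion_eq_closed_subset v1 v3.point_finite v2
  have h1 : ∀ a, ∃ C, IsClopen C ∧ F a ⊆ C ∧ C ⊆ V a := by
    intro a
    obtain ⟨f, g1, g2⟩ := dim0_map h (fun b : Bool => cond b (V a) (F a)ᶜ)
      (fun b => by cases b; exacts [(f2 a).isOpen_compl, v1 a])
      (eq_univ_of_forall fun y => by
        by_cases hy : y ∈ F a
        · exact mem_iUnion.2 ⟨true, f3 a hy⟩
        · exact mem_iUnion.2 ⟨false, hy⟩)
    refine ⟨f ⁻¹' {true}, ⟨⟨?_⟩, g2 _⟩, fun y hy => ?_, fun y hy => ?_⟩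
    · convert g2 false using 1
      ext y
      simp
    · by_contra hc
      have e : f y = false := by simpa using hc
      have := g1 y
      rw [e] at this
      exact this hy
    · have := g1 y
      rw [mem_singleton_iff.1 hy] at this
      exact this
  choose C c1 c2 c3 using h1
  have hl : LocallyFinite C := v3.subset c3
  have hne : ∀ y, {a | y ∈ C a}.Nonempty := fun y => by
    obtain ⟨a, ha⟩ := mem_iUnion.1 (f1 ▸ mem_univ y : y ∈ iUnion F)
    exact ⟨a, c2 a ha⟩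
  refine ⟨fun y => (hne y).some, fun y => v4 _ (c3 _ (hne y).some_mem), fun y => ?_⟩
  have e1 : ∀ᶠ z in 𝓝 y, ∀ a ∈ {a | y ∈ C a}, z ∈ C a :=
    (eventually_all_finite (hl.point_finite y)).2 fun a ha => (c1 a).2.mem_nhds ha
  filter_upwards [e1, hl.iInter_compl_mem_nhds (fun a => (c1 a).1) y] with z hz hz'
  have e : {a | z ∈ C a} = {a | y ∈ C a} := by
    ext a
    refine ⟨fun ha => ?_, hz a⟩
    by_contra hc
    exact mem_iInter₂.1 hz' a hc ha
  simp only [e]

theorem ext_map {X : Type u} [MetricSpace X] (A : Set X) (h : DimLE A 0) {ε : ℝ} (hε : 0 < ε) :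
    ∃ p : X → X ⊕ X, (∀ x y, p y = p x → dist y x < 2 * ε) ∧
      ∀ x ∈ A, ∀ᶠ y in 𝓝 x, p y = p x := by
  classical
  obtain ⟨q, q1, q2⟩ := small_map h hε
  set V : A → Set X := fun a => {x | infEDist x (Subtype.val '' (q ⁻¹' {a})) <
    infEDist x (Subtype.val '' (q ⁻¹' {a})ᶜ)} ∩ ball a.1 ε with hV
  have h1 : ∀ a, IsOpen (V a) := fun a =>
    (isOpen_lt continuous_infEDist continuous_infEDist).inter isOpen_ball
  have h2 : ∀ a b x, x ∈ V a → x ∈ V b → a = b := by
    intro a b x ha hb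
    by_contra hne
    have s1 : Subtype.val '' (q ⁻¹' {a}) ⊆ Subtype.val '' (q ⁻¹' {b})ᶜ :=
      image_mono fun y hy hy' => hne ((mem_singleton_iff.1 hy).symm.trans hy')
    have s2 : Subtype.val '' (q ⁻¹' {b}) ⊆ Subtype.val '' (q ⁻¹' {a})ᶜ :=
      image_mono fun y hy hy' => hne ((mem_singleton_iff.1 hy').symm.trans hy)
    exact lt_irrefl _ ((((infEDist_anti s1).trans_lt ha.1).trans_le (infEDist_anti s2)).trans hb.1)
  have h3 : ∀ y : A, y.1 ∈ V (q y) := by
    intro y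
    refine ⟨?_, q1 y⟩
    show infEDist y.1 _ < infEDist y.1 _
    rw [infEDist_zero_of_mem (mem_image_of_mem Subtype.val (show y ∈ q ⁻¹' {q y} from rfl)),
      pos_iff_ne_zero]
    intro e
    have := IsEmbedding.subtypeVal.isInducing.closure_eq_preimage_closure_image (q ⁻¹' {q y})ᶜ
    have hy : y ∈ closure (q ⁻¹' {q y})ᶜ := by
      rw [this]
      exact mem_closure_iff_infEDist_zero.2 e
    obtain ⟨z, hz, hz'⟩ := mem_closure_iff_nhds.1 hy _ (q2 y)
    exact hz' hz
  set p : X → X ⊕ X := fun x => if h : ∃ a, x ∈ V a then Sum.inl h.choose.1 else Sum.inr x with hp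
  have h4 : ∀ a x, x ∈ V a → p x = Sum.inl a.1 := by
    intro a x hx
    have hh : ∃ a, x ∈ V a := ⟨a, hx⟩
    simp only [hp, dif_pos hh]
    rw [h2 _ _ x hh.choose_spec hx]
  have h5 : ∀ x, (¬ ∃ a, x ∈ V a) → p x = Sum.inr x := fun x hx => by simp only [hp, dif_neg hx]
  refine ⟨p, fun x y e => ?_, fun x hx => ?_⟩
  · by_cases hx : ∃ a, x ∈ V a <;> by_cases hy : ∃ a, y ∈ V a
    · obtain ⟨a, ha⟩ := hx
      obtain ⟨b, hb⟩ := hy
      rw [h4 a x ha, h4 b y hb] at e
      have e' := Sum.inl.inj e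
      have := dist_triangle_right y x a.1
      have a1 : dist x a.1 < ε := ha.2
      have a2 : dist y a.1 < ε := e' ▸ hb.2
      linarith
    · obtain ⟨a, ha⟩ := hx
      rw [h4 a x ha, h5 y hy] at e
      cases e
    · obtain ⟨b, hb⟩ := hy
      rw [h5 x hx, h4 b y hb] at e
      cases e
    · rw [h5 x hx, h5 y hy] at e
      rw [Sum.inr.inj e, dist_self]
      linarith
  · filter_upwards [(h1 _).mem_nhds (h3 ⟨x, hx⟩)] with y hy
    rw [h4 _ y hy, h4 _ x (h3 ⟨x, hx⟩)]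

/-- A discrete copy of a type. -/
def Disc (α : Type u) : Type u := α

instance (α : Type u) : TopologicalSpace (Disc α) := ⊥

instance (α : Type u) : DiscreteTopology (Disc α) := ⟨rfl⟩

theorem rep_aleph0 {X : Type u} [τ : TopologicalSpace X] [MetrizableSpace X] [Nonempty X]
    (h : CountableDim X) : Rep M0 τ ℵ₀ := by
  let : MetricSpace X := metrizableSpaceMetric X
  obtain ⟨A, hA, hd⟩ := h
  have h1 : ∀ k n : ℕ, ∃ p : X → Disc (X ⊕ X), (∀ x y, p y = p x → dist y x < 2 * (1 / (n + 1))) ∧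
      ∀ x ∈ A k, ∀ᶠ y in 𝓝 x, p y = p x := fun k n => ext_map (A k) (hd k) Nat.one_div_pos_of_nat
  choose p p1 p2 using h1
  set g : ULift.{u} ℕ → X → ℕ → Disc (X ⊕ X) := fun k x n => p k.down n x with hg
  have hf : ∀ k x U, IsOpen U → x ∈ U → ∃ n, {y | g k y n = g k x n} ⊆ U := by
    intro k x U hU hx
    obtain ⟨δ, hδ, hb⟩ := Metric.isOpen_iff.1 hU x hx
    obtain ⟨n, hn⟩ := exists_nat_one_div_lt (half_pos hδ)
    refine ⟨n, fun y hy => hb ?_⟩
    have := p1 _ _ x y hy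
    rw [mem_ball]
    linarith
  refine ⟨ULift ℕ, fun k => induced (g k) inferInstance, inferInstance, by simp, fun k =>
    ⟨ext_of_fine (g k) (hf k), metr_of_fine (g k) (hf k), inferInstance, dim0_induced _,
      fun m hm => absurd hm (Nat.not_lt_zero m)⟩, fun U =>
        ⟨fun hU k => ext_of_fine (g k) (hf k) U hU, open_of_all g (fun x => ?_) U⟩⟩
  obtain ⟨k, hk⟩ := mem_iUnion.1 (hA ▸ mem_univ x : x ∈ ⋃ k, A k)
  exact ⟨⟨k⟩, fun n => p2 k n x hk⟩

theorem sn_aleph0 (X : Type u) [τ : TopologicalSpace X] [MetrizableSpace X]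
    (h : CountableDim X) (hi : DimInf X) :
    Sn M0 τ = ((ℵ₀ : Cardinal.{u}) : WithTop Cardinal.{u}) := by
  have : Nonempty X := by
    by_contra hc
    rw [not_nonempty_iff] at hc
    refine hi 0 (dimLE_of_idx fun ι _ U hU _ => ⟨U, hU, fun _ => subset_rfl, hc.elim, hc.elim⟩)
  have h1 := rep_aleph0 h
  unfold Sn
  rw [if_pos ⟨_, h1⟩]
  congr 1
  refine le_antisymm (csInf_le' h1) (le_csInf ⟨_, h1⟩ ?_)
  rintro κ ⟨I, t, hne, rfl, h2, h3⟩
  by_contra hc
  have : Finite I := Cardinal.lt_aleph0_iff_finite.1 (not_le.1 hc)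
  obtain ⟨n, hn⟩ := dim_of_finite t (fun i => (h2 i).1) (fun U => (h3 U).2)
    fun i => (h2 i).2.2.2.1
  exact hi n hn

end Pool.Agent.H84.SnB
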