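import Pool.Agent.H84.SnB

/-! Separable zero-dimensional extensions. -/

namespace Pool.Agent.H84.SnC

open Set TopologicalSpace Filter Topology Metric Pool.Agent.H84.SnDefs Pool.Agent.H84.SnA
  Pool.Agent.H84.SnB
open scoped Cardinal BoundedContinuousFunction

universe u

theorem rep_of_sets {X : Type u} [τ : TopologicalSpace X] [T1Space X] [Nonempty X] {n : ℕ}
    {K : Type*} [Countable K] [Nonempty K] (B : Fin (n + 1) → K → Set X)
    (h1 : ∀ i x U, IsOpen U → x ∈ U → ∃ k, x ∈ B i k ∧ B i k ⊆ U)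
    (h2 : ∀ x, ∃ i, ∀ k, B i k ∈ 𝓝 x ∨ (B i k)ᶜ ∈ 𝓝 x) :
    Rep SM0 τ ((n + 1 : ℕ) : Cardinal.{u}) := by
  classical
  obtain ⟨e, he⟩ := exists_surjective_nat K
  set g : ULift.{u} (Fin (n + 1)) → X → ℕ → Bool := fun i x k => decide (x ∈ B i.down (e k))
    with hg
  have hf : ∀ i x U, IsOpen U → x ∈ U → ∃ k, {y | g i y k = g i x k} ⊆ U := by
    intro i x U hU hx
    obtain ⟨k, hk, hk'⟩ := h1 i.down x U hU hx
    obtain ⟨k, rfl⟩ := he k
    refine ⟨k, fun y hy => hk' ?_⟩
    simpa [hg, hk] using hy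
  refine ⟨ULift (Fin (n + 1)), fun i => induced (g i) inferInstance, inferInstance, by simp,
    fun i => ⟨ext_of_fine (g i) (hf i), ?_, metr_of_fine (g i) (hf i), ind0_induced _⟩, fun U =>
      ⟨fun hU k => ext_of_fine (g k) (hf k) U hU, open_of_all g (fun x => ?_) U⟩⟩
  · let := induced (g i) inferInstance
    have : SecondCountableTopology X := IsInducing.secondCountableTopology (f := g i) ⟨rfl⟩
    infer_instance
  · obtain ⟨i, hi⟩ := h2 x
    refine ⟨⟨i⟩, fun k => ?_⟩
    rcases hi (e k) with h | h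
    · filter_upwards [h] with y hy
      simp [hg, hy, mem_of_mem_nhds h]
    · have hx : x ∉ B i (e k) := mem_of_mem_nhds h
      filter_upwards [h] with y hy
      have hy' : y ∉ B i (e k) := hy
      simp [hg, hy', hx]

theorem partitions {X : Type u} [MetricSpace X] {n : ℕ} (h : DimLE X n)
    (φ : Fin (n + 1) → X → ℝ) (hφ : ∀ i, Continuous (φ i)) {ε : ℝ} (hε : 0 < ε) :
    ∃ ψ : Fin (n + 1) → X → ℝ, (∀ i, Continuous (ψ i)) ∧ (∀ i x, |ψ i x| ≤ 2 * ε) ∧
      ∀ x, ∃ i, ε ≤ |φ i x + ψ i x| := by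
  classical
  set P : Fin (n + 1) → Bool → Set X := fun i b => cond b {x | -ε < φ i x} {x | φ i x < ε}
    with hP
  have hPo : ∀ i b, IsOpen (P i b) := fun i b => by
    cases b
    exacts [isOpen_lt (hφ i) continuous_const, isOpen_lt continuous_const (hφ i)]
  obtain ⟨V, v1, v2, v3, v4⟩ := dimLE_idx h (fun s : Fin (n + 1) → Bool => ⋂ i, P i (s i))
    (fun s => isOpen_iInter_of_finite fun i => hPo i _) (eq_univ_of_forall fun x =>
      mem_iUnion.2 ⟨fun i => decide (-ε < φ i x), mem_iInter.2 fun i => by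
        by_cases hx : -ε < φ i x
        · simp [hP, hx]
        · simp only [hP, hx, decide_false, cond_false, mem_ofPred_eq]
          linarith [not_lt.1 hx]⟩)
  obtain ⟨W, w1, w2, w3⟩ := chain_cover (fun s => (V s)ᶜ) fun s => (v1 s).isClosed_compl
  have h1 : ∀ S : Set (Fin (n + 1) → Bool), ∃ s, S.Nonempty → s ∈ S := fun S => by
    by_cases hS : S.Nonempty
    · exact ⟨hS.some, fun _ => hS.some_mem⟩
    · exact ⟨fun _ => true, fun h => absurd h hS⟩
  choose c hc using h1
  set O : Fin (n + 1) × Bool → Set X := fun p => ⋃ (y : X) (_ : {s | y ∈ V s}.ncard = p.1.1 + 1 ∧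
    c {s | y ∈ V s} p.1 = p.2), W {s | y ∈ (V s)ᶜ} ∩ V (c {s | y ∈ V s}) with hO
  have o1 : ∀ p, IsOpen (O p) := fun p =>
    isOpen_iUnion fun _ => isOpen_iUnion fun _ => (w1 _).inter (v1 _)
  have o2 : ∀ p, O p ⊆ P p.1 p.2 := fun p => iUnion₂_subset fun y hy z hz => by
    rw [← hy.2]
    exact mem_iInter.1 (v2 _ hz.2) p.1
  have o3 : ∀ i z, z ∈ O (i, false) → z ∉ O (i, true) := by
    intro i z ha hb
    obtain ⟨y, ⟨a1, a2⟩, a3, -⟩ := mem_iUnion₂.1 ha
    obtain ⟨y', ⟨b1, b2⟩, b3, -⟩ := mem_iUnion₂.1 hb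
    have e : {s | y ∈ V s} = {s | y' ∈ V s} := by
      rcases w3 _ _ z a3 b3 with e | e
      · exact (eq_of_subset_of_ncard_le (fun s hs => by_contra fun hn => e hn hs)
          (a1.trans b1.symm).le).symm
      · exact eq_of_subset_of_ncard_le (fun s hs => by_contra fun hn => e hn hs)
          (b1.trans a1.symm).le
    rw [e, b2] at a2
    cases a2
  have o4 : ⋃ p, O p = univ := eq_univ_of_forall fun y => by
    have hne : {s | y ∈ V s}.Nonempty := v3 y
    have h0 := (ncard_pos (toFinite _)).2 hne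
    have h1 := v4 y
    set i : Fin (n + 1) := ⟨{s | y ∈ V s}.ncard - 1, by omega⟩ with hi
    exact mem_iUnion.2 ⟨(i, c {s | y ∈ V s} i), mem_iUnion₂.2 ⟨y, ⟨by
      show _ = {s | y ∈ V s}.ncard - 1 + 1
      omega, rfl⟩, w2 y, hc _ hne⟩⟩
  obtain ⟨C, c1, c2, c3⟩ := exists_iUnion_eq_closed_subset o1 (fun _ => toFinite _) o4
  have h2 : ∀ i, ∃ f : C(X, ℝ), EqOn f 0 ({x | φ i x ≤ -ε} ∪ C (i, false)) ∧
      EqOn f 1 ({x | ε ≤ φ i x} ∪ C (i, true)) ∧ ∀ x, f x ∈ Icc (0 : ℝ) 1 := by
    intro i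
    refine exists_continuous_zero_one_of_isClosed
      ((isClosed_le (hφ i) continuous_const).union (c2 _))
      ((isClosed_le continuous_const (hφ i)).union (c2 _)) (disjoint_left.2 ?_)
    rintro x (a | a) (b | b)
    · have a' : φ i x ≤ -ε := a
      have b' : ε ≤ φ i x := b
      linarith
    · have a' : φ i x ≤ -ε := a
      have b' : -ε < φ i x := o2 _ (c3 _ b)
      linarith
    · have a' : φ i x < ε := o2 _ (c3 _ a)
      have b' : ε ≤ φ i x := b
      linarith
    · exact o3 i x (c3 _ a) (c3 _ b)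
  choose f f1 f2 f3 using h2
  refine ⟨fun i x => ε * (2 * f i x - 1) - max (-ε) (min (φ i x) ε), fun i => ?_, fun i x => ?_,
    fun x => ?_⟩
  · have := hφ i
    fun_prop
  · have a := f3 i x
    have b : max (-ε) (min (φ i x) ε) ≤ ε := max_le (by linarith) (min_le_right _ _)
    have b' : -ε ≤ max (-ε) (min (φ i x) ε) := le_max_left _ _
    have a1 := mul_nonneg hε.le a.1
    have a2 := mul_le_mul_of_nonneg_left a.2 hε.le
    rw [abs_le]
    constructor <;> linarith
  · obtain ⟨⟨i, b⟩, hx⟩ := mem_iUnion.1 (c1 ▸ mem_univ x : x ∈ iUnion C)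
    refine ⟨i, ?_⟩
    cases b
    · have a : f i x = 0 := f1 i (Or.inr hx)
      have a' : φ i x < ε := o2 _ (c3 _ hx)
      simp only [a, min_eq_left a'.le]
      rw [le_abs]
      right
      linarith [le_max_right (-ε) (φ i x)]
    · have a : f i x = 1 := f2 i (Or.inr hx)
      have a' : -ε < φ i x := o2 _ (c3 _ hx)
      simp only [a, max_eq_right (le_min a'.le (by linarith) : -ε ≤ min (φ i x) ε)]
      rw [le_abs]
      left
      linarith [min_le_left (φ i x) ε]

theorem rep_of_dim {X : Type u} [τ : TopologicalSpace X] [MetrizableSpace X] [SeparableSpace X]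
    [Nonempty X] {n : ℕ} (h : DimLE X n) : Rep SM0 τ ((n + 1 : ℕ) : Cardinal.{u}) := by
  classical
  let : MetricSpace X := metrizableSpaceMetric X
  set J := Fin (n + 1) × ℕ × ℕ with hJ
  set D : (Fin (n + 1) → ℕ × ℕ) → Set (X × J →ᵇ ℝ) := fun k =>
    {F | ∃ δ > 0, ∀ x, ∃ i, δ ≤ |F (x, i, k i)|} with hD
  have d1 : ∀ k, IsOpen (D k) := by
    intro k
    refine Metric.isOpen_iff.2 ?_
    rintro F ⟨δ, hδ, hF⟩
    refine ⟨δ / 2, half_pos hδ, fun G hG => ⟨δ / 2, half_pos hδ, fun x => ?_⟩⟩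
    obtain ⟨i, hi⟩ := hF x
    have := (BoundedContinuousFunction.dist_coe_le_dist (f := G) (g := F) (x, i, k i)).trans_lt hG
    rw [Real.dist_eq] at this
    have h2 := abs_sub_abs_le_abs_sub (F (x, i, k i)) (G (x, i, k i))
    rw [abs_sub_comm] at h2
    exact ⟨i, by linarith⟩
  have d2 : ∀ k, Dense (D k) := by
    intro k
    refine Metric.dense_iff.2 fun F r hr => ?_
    obtain ⟨ψ, p1, p2, p3⟩ := partitions h (fun i x => F (x, i, k i))
      (fun i => F.continuous.comp (continuous_id.prodMk continuous_const)) (ε := r / 4) (by linarith)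
    set H : X × J →ᵇ ℝ := BoundedContinuousFunction.ofNormedAddCommGroup
      (fun z => if z.2.2 = k z.2.1 then ψ z.2.1 z.1 else 0)
      (continuous_prod_of_discrete_right.2 fun j => by
        by_cases e : j.2 = k j.1
        · simpa [e] using p1 j.1
        · simpa [e] using continuous_const)
      (2 * (r / 4)) (fun z => by
        by_cases e : z.2.2 = k z.2.1
        · simpa [e] using p2 z.2.1 z.1
        · simp only [e, if_false, norm_zero]
          linarith) with hH
    refine ⟨F + H, ?_, r / 4, by linarith, fun x => ?_⟩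
    · rw [mem_ball, dist_eq_norm, add_sub_cancel_left]
      exact (BoundedContinuousFunction.norm_ofNormedAddCommGroup_le _ (by linarith) _).trans_lt
        (by linarith)
    · obtain ⟨i, hi⟩ := p3 x
      refine ⟨i, ?_⟩
      simpa [hH] using hi
  set G : X × J →ᵇ ℝ := BoundedContinuousFunction.ofNormedAddCommGroup
    (fun z => min 1 ((z.2.2.2 + 1) * dist z.1 (denseSeq X z.2.2.1)) - 1 / 2)
    (continuous_prod_of_discrete_right.2 fun j => by
      show Continuous fun x => min 1 (((j.2.2 : ℝ) + 1) * dist x (denseSeq X j.2.1)) - 1 / 2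
      fun_prop) 1 (fun z => by
      have a : 0 ≤ min 1 (((z.2.2.2 : ℝ) + 1) * dist z.1 (denseSeq X z.2.2.1)) := by positivity
      have b := min_le_left 1 (((z.2.2.2 : ℝ) + 1) * dist z.1 (denseSeq X z.2.2.1))
      rw [Real.norm_eq_abs, abs_le]
      constructor <;> linarith) with hG
  obtain ⟨F, hF1, hF2⟩ := Metric.dense_iff.1 (dense_iInter_of_isOpen d1 d2) G (1 / 4) (by norm_num)
  have hF : ∀ x i a m, |F (x, i, a, m) - (min 1 (((m : ℝ) + 1) * dist x (denseSeq X a)) - 1 / 2)|
      < 1 / 4 := fun x i a m =>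
    (BoundedContinuousFunction.dist_coe_le_dist (f := F) (g := G) (x, i, a, m)).trans_lt hF1
  have hc : ∀ j, Continuous fun x => F (x, j) := fun j =>
    F.continuous.comp (continuous_id.prodMk continuous_const)
  refine rep_of_sets (fun i k => {x | F (x, i, k) < 0}) (fun i x U hU hx => ?_) fun x => ?_
  · obtain ⟨δ, hδ, hb⟩ := Metric.isOpen_iff.1 hU x hx
    obtain ⟨m, hm⟩ := exists_nat_one_div_lt hδ
    have hm0 : (0 : ℝ) < m + 1 := by positivity
    obtain ⟨a, ha⟩ := (denseRange_denseSeq X).exists_dist_lt x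
      (show (0 : ℝ) < 1 / (4 * (m + 1)) by positivity)
    have ha' : ((m : ℝ) + 1) * dist x (denseSeq X a) < 1 / 4 := by
      rw [lt_div_iff₀ (by positivity)] at ha
      linarith
    refine ⟨(a, m), ?_, fun y hy => hb ?_⟩
    · have := (abs_lt.1 (hF x i a m)).2
      have b := min_le_right 1 (((m : ℝ) + 1) * dist x (denseSeq X a))
      show F (x, i, a, m) < 0
      linarith
    · have := (abs_lt.1 (hF y i a m)).1
      have hy' : F (y, i, a, m) < 0 := hy
      have b : min 1 (((m : ℝ) + 1) * dist y (denseSeq X a)) < 3 / 4 := by linarith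
      have b' : ((m : ℝ) + 1) * dist y (denseSeq X a) < 3 / 4 :=
        (min_lt_iff.1 b).resolve_left (by norm_num)
      have t := mul_le_mul_of_nonneg_left (dist_triangle_right y x (denseSeq X a)) hm0.le
      rw [mem_ball]
      refine lt_trans ?_ hm
      rw [lt_div_iff₀ hm0]
      linarith
  · by_contra hn
    push Not at hn
    choose k hk using hn
    obtain ⟨δ, hδ, hx⟩ := mem_iInter.1 hF2 k
    obtain ⟨i, hi⟩ := hx x
    rcases lt_trichotomy (F (x, i, k i)) 0 with e | e | e
    · exact (hk i).1 ((isOpen_lt (hc _) continuous_const).mem_nhds e)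
    · rw [e, abs_zero] at hi
      linarith
    · exact (hk i).2 (mem_of_superset ((isOpen_lt continuous_const (hc _)).mem_nhds e)
        fun y hy hy' => lt_asymm (a := (0 : ℝ)) hy hy')

theorem rep_euclid (n : ℕ) :
    Rep SM0 (inferInstance : TopologicalSpace (EuclideanSpace ℝ (Fin n))) ((n + 1 : ℕ) : Cardinal) := by
  classical
  set s : Fin (n + 1) → ℝ := fun i => i.1 * √2 with hs
  refine rep_of_sets (K := Fin n → ℚ × ℚ)
    (fun i k => {x | ∀ j, x j ∈ Ioo ((k j).1 + s i) ((k j).2 + s i)}) (fun i x U hU hx => ?_)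
    fun x => ?_
  · have e := (EuclideanSpace.equiv (Fin n) ℝ).symm.continuous
    have h1 := hU.preimage e
    obtain ⟨δ, hδ, hb⟩ := Metric.isOpen_iff.1 h1 (EuclideanSpace.equiv (Fin n) ℝ x) (by simpa using hx)
    have h2 : ∀ j, ∃ k : ℚ × ℚ, x j - δ < k.1 + s i ∧ k.1 + s i < x j ∧ x j < k.2 + s i ∧
        k.2 + s i < x j + δ := fun j => by
      obtain ⟨a, a1, a2⟩ := exists_rat_btwn (show x j - δ - s i < x j - s i by linarith)
      obtain ⟨b, b1, b2⟩ := exists_rat_btwn (show x j - s i < x j + δ - s i by linarith)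
      exact ⟨(a, b), by linarith, by linarith, by linarith, by linarith⟩
    choose k k1 k2 k3 k4 using h2
    refine ⟨k, fun j => ⟨k2 j, k3 j⟩, fun y hy => ?_⟩
    have := hb (a := EuclideanSpace.equiv (Fin n) ℝ y) ((dist_pi_lt_iff hδ).2 fun j => by
      have := hy j
      show dist (y j) (x j) < δ
      rw [Real.dist_eq, abs_lt]
      constructor <;> linarith [this.1, this.2, k1 j, k4 j])
    simpa using this
  · have h1 : ∃ i, ∀ j (q : ℚ), x j ≠ q + s i := by
      by_contra hn
      push Not at hn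
      choose j q hq using hn
      obtain ⟨a, b, hab, e⟩ := Fintype.exists_ne_map_eq_of_card_lt j (by simp)
      have e1 : ((a.1 : ℝ) - b.1) * √2 = q b - q a := by
        have := hq a
        rw [e, hq b] at this
        simp only [hs] at this
        linarith
      have e2 : ((a.1 : ℝ) - b.1) ≠ 0 := by
        rw [sub_ne_zero]
        exact fun h => hab (Fin.ext (by exact_mod_cast h))
      refine irrational_sqrt_two ⟨(q b - q a) / (a.1 - b.1), ?_⟩
      push_cast
      rw [div_eq_iff e2]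
      linarith
    obtain ⟨i, hi⟩ := h1
    refine ⟨i, fun k => ?_⟩
    have hc : ∀ j, Continuous fun y : EuclideanSpace ℝ (Fin n) => y j := fun j => by fun_prop
    by_cases hx : ∀ j, x j ∈ Ioo ((k j).1 + s i) ((k j).2 + s i)
    · exact Or.inl (eventually_all.2 fun j => (isOpen_Ioo.preimage (hc j)).mem_nhds (hx j))
    · right
      push Not at hx
      obtain ⟨j, hj⟩ := hx
      have : x j ∈ (Icc ((k j).1 + s i) ((k j).2 + s i))ᶜ := fun h =>
        hj ⟨lt_of_le_of_ne h.1 (hi j _).symm, lt_of_le_of_ne h.2 (hi j _)⟩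
      exact mem_of_superset ((isClosed_Icc.isOpen_compl.preimage (hc j)).mem_nhds this)
        fun y hy hy' => hy (Ioo_subset_Icc_self (hy' j))

theorem sn_le {A : (X : Type u) → TopologicalSpace X → Prop} {X : Type u} {τ : TopologicalSpace X}
    {κ : Cardinal.{u}} (h : Rep A τ κ) : Sn A τ ≤ (κ : WithTop Cardinal.{u}) := by
  unfold Sn
  rw [if_pos ⟨_, h⟩]
  exact WithTop.coe_le_coe.2 (csInf_le' h)

end Pool.Agent.H84.SnC
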