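import Mathlib

/-! Definitions for the structural number of a topology. -/

namespace Pool.Agent.H84.SnDefs

open Set TopologicalSpace
open scoped Cardinal

universe u

/-- Covering dimension at most `n`: every finite open cover has a finite open refinement
such that every point lies in at most `n + 1` of its members. -/
def DimLE (X : Type u) [TopologicalSpace X] (n : ℕ) : Prop :=
  ∀ 𝒰 : Set (Set X), 𝒰.Finite → (∀ U ∈ 𝒰, IsOpen U) → ⋃₀ 𝒰 = univ →
    ∃ 𝒱 : Set (Set X), 𝒱.Finite ∧ (∀ V ∈ 𝒱, IsOpen V) ∧ ⋃₀ 𝒱 = univ ∧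
      (∀ V ∈ 𝒱, ∃ U ∈ 𝒰, V ⊆ U) ∧ ∀ x, {V | V ∈ 𝒱 ∧ x ∈ V}.ncard ≤ n + 1

/-- Covering dimension equal to `n`. -/
def DimEq (X : Type u) [TopologicalSpace X] (n : ℕ) : Prop :=
  Nonempty X ∧ DimLE X n ∧ ∀ m < n, ¬ DimLE X m

/-- Infinite covering dimension. -/
def DimInf (X : Type u) [TopologicalSpace X] : Prop := ∀ n, ¬ DimLE X n

/-- Small inductive dimension zero: nonempty, and every point has arbitrarily small open
neighbourhoods with empty boundary. -/
def Ind0 (X : Type u) [TopologicalSpace X] : Prop :=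
  Nonempty X ∧ ∀ (x : X) (U : Set X), IsOpen U → x ∈ U →
    ∃ V, IsOpen V ∧ x ∈ V ∧ V ⊆ U ∧ frontier V = ∅

/-- A countable union of subspaces of covering dimension at most zero. -/
def CountableDim (X : Type u) [TopologicalSpace X] : Prop :=
  ∃ A : ℕ → Set X, ⋃ k, A k = univ ∧ ∀ k, DimLE (A k) 0

/-- Metrizable spaces of covering dimension zero. -/
def M0 (X : Type u) (t : TopologicalSpace X) : Prop :=
  @MetrizableSpace X t ∧ @DimEq X t 0

/-- Separable metrizable spaces of small inductive dimension zero. -/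
def SM0 (X : Type u) (t : TopologicalSpace X) : Prop :=
  @SeparableSpace X t ∧ @MetrizableSpace X t ∧ @Ind0 X t

/-- `τ` is the intersection of a family, of size `κ`, of extensions of `τ` in the class `A`. -/
def Rep (A : (X : Type u) → TopologicalSpace X → Prop) {X : Type u} (τ : TopologicalSpace X)
    (κ : Cardinal.{u}) : Prop :=
  ∃ (I : Type u) (t : I → TopologicalSpace X), Nonempty I ∧ #I = κ ∧
    (∀ i, (∀ U, @IsOpen X τ U → @IsOpen X (t i) U) ∧ A X (t i)) ∧
    ∀ U, @IsOpen X τ U ↔ ∀ i, @IsOpen X (t i) U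

open Classical in
/-- The structural number: the least such `κ`, and the top element if there is none. -/
noncomputable def Sn (A : (X : Type u) → TopologicalSpace X → Prop) {X : Type u}
    (τ : TopologicalSpace X) : WithTop Cardinal.{u} :=
  if ∃ κ, Rep A τ κ then ((sInf {κ | Rep A τ κ} : Cardinal.{u}) : WithTop Cardinal.{u}) else ⊤

end Pool.Agent.H84.SnDefs
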