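import Pool.Agent.H84.NCard

/-! The orders omega_1 and c^+, and countably many disjoint stationary classes. -/

namespace Pool.Agent.H84.Stat

open Set Cardinal Pool.Agent.H84.NCard

def Om : Type := (ℵ_ 1).ord.ToType

noncomputable instance : LinearOrder Om := inferInstanceAs (LinearOrder (ℵ_ 1).ord.ToType)
instance : WellFoundedLT Om := inferInstanceAs (WellFoundedLT (ℵ_ 1).ord.ToType)

theorem mk_Om : #Om = ℵ_ 1 := mk_ord_toType _

instance : Uncountable Om := by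
  rw [← aleph0_lt_mk_iff, mk_Om]; exact aleph0_lt_aleph_one

noncomputable instance : OrderBot Om := WellFoundedLT.toOrderBot Om

theorem Om_le : #Om ≤ 𝔠 := by rw [mk_Om]; exact aleph_one_le_continuum

theorem countable_Iio (a : Om) : (Iio a).Countable := by
  rw [← le_aleph0_iff_set_countable, ← Order.lt_succ_iff, succ_aleph0]
  exact mk_Iio_toType_ord_lt (c := ℵ_ 1) a

theorem countable_Iic (a : Om) : (Iic a).Countable := by
  rw [← Iio_insert]; exact (countable_Iio a).insert a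

theorem Om_bound {S : Set Om} (hS : S.Countable) : ∃ b, ∀ a ∈ S, a < b := by
  by_contra h
  push Not at h
  refine not_countable_univ ((hS.biUnion fun a _ => countable_Iic a).mono fun b _ => ?_)
  obtain ⟨a, ha, hb⟩ := h b
  exact mem_biUnion ha hb

def La : Type := (Order.succ 𝔠).ord.ToType

noncomputable instance : LinearOrder La := inferInstanceAs (LinearOrder (Order.succ 𝔠).ord.ToType)
instance : WellFoundedLT La := inferInstanceAs (WellFoundedLT (Order.succ 𝔠).ord.ToType)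

theorem mk_La : #La = Order.succ 𝔠 := mk_ord_toType _

instance : Nonempty La := by
  rw [← mk_ne_zero_iff, mk_La]
  exact ((zero_le).trans_lt (Order.lt_succ _)).ne'

noncomputable instance : OrderBot La := WellFoundedLT.toOrderBot La

theorem mk_Iio_La (a : La) : #(Iio a) ≤ 𝔠 := Order.lt_succ_iff.1 (mk_Iio_toType_ord_lt a)

theorem mk_Iic_La (a : La) : #(Iic a) ≤ 𝔠 := by
  rw [← Iio_insert]
  exact mk_insert_le.trans (add_le_of_le aleph0_le_continuum (mk_Iio_La a)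
    (one_le_aleph0.trans aleph0_le_continuum))

theorem La_bound {S : Set La} (hS : #S ≤ 𝔠) : ∃ b, ∀ a ∈ S, a < b := by
  by_contra h
  push Not at h
  have h1 : (univ : Set La) ⊆ ⋃ a ∈ S, Iic a := fun b _ => by
    obtain ⟨a, ha, hb⟩ := h b
    exact mem_biUnion ha hb
  have h2 := (mk_le_mk_of_subset h1).trans (mk_biUnion_le _ _)
  rw [mk_univ, mk_La] at h2
  have h3 : #S * ⨆ x : S, #(Iic x.1) ≤ 𝔠 :=
    (mul_le_mul' hS (ciSup_le' fun x => mk_Iic_La _)).trans (by simp)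
  exact (Order.lt_succ _).not_ge (h2.trans h3)

theorem La_bound_fun {K : Type} (hK : #K ≤ 𝔠) (f : K → La) : ∃ b, ∀ k, f k < b := by
  obtain ⟨b, hb⟩ := La_bound (S := range f) (mk_range_le.trans hK)
  exact ⟨b, fun k => hb _ ⟨k, rfl⟩⟩

theorem La_bound_ctbl {S : Set La} (hS : S.Countable) : ∃ b, ∀ a ∈ S, a < b :=
  La_bound ((le_aleph0_iff_set_countable.2 hS).trans aleph0_le_continuum)

instance : NoMaxOrder La := ⟨fun a => by
  obtain ⟨b, hb⟩ := La_bound_ctbl (countable_singleton a)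
  exact ⟨b, hb a rfl⟩⟩

/-- `γ` is the limit of an increasing `ω₁`-sequence -/
def W1 (γ : La) : Prop :=
  ∃ c : Om → La, StrictMono c ∧ (∀ i, c i < γ) ∧ ∀ η < γ, ∃ i, η ≤ c i

/-- uncountable cofinality -/
def Ucof (γ : La) : Prop := ∀ E : Set La, E.Countable → (∀ e ∈ E, e < γ) → ∃ η < γ, ∀ e ∈ E, e < η

theorem W1.ucof {γ : La} (h : W1 γ) : Ucof γ := by
  obtain ⟨c, h1, h2, h3⟩ := h
  intro E hE hEγ
  choose! i hi using h3
  obtain ⟨b, hb⟩ := Om_bound (hE.image i)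
  exact ⟨c b, h2 b, fun e he => (hi e (hEγ e he)).trans_lt (h1 (hb _ ⟨e, he, rfl⟩))⟩

def St (T : Set La) : Prop := ∀ g : La → La, ∃ γ ∈ T, ∀ β < γ, g β < γ

theorem St.mono {T T' : Set La} (h : St T) (h' : T ⊆ T') : St T' := fun g =>
  (h g).imp fun _ hγ => ⟨h' hγ.1, hγ.2⟩

theorem st_W1 : St {γ | W1 γ} := by
  intro g
  have h1 : ∀ S : Set La, S.Countable → ∃ b, ∀ e ∈ S, e < b ∧ ∀ β ≤ e, g β < b := by
    intro S hS
    have hc : #(⋃ e ∈ S, Iic e : Set La) ≤ 𝔠 := by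
      refine (mk_biUnion_le _ _).trans ?_
      exact (mul_le_mul' ((le_aleph0_iff_set_countable.2 hS).trans
        aleph0_le_continuum) (ciSup_le' fun x => mk_Iic_La _)).trans (by simp)
    obtain ⟨b₁, hb₁⟩ := La_bound hc
    obtain ⟨b₂, hb₂⟩ := La_bound (S := g '' ⋃ e ∈ S, Iic e) (mk_image_le.trans hc)
    exact ⟨max b₁ b₂, fun e he => ⟨lt_max_of_lt_left (hb₁ _ (mem_biUnion he (le_refl e))),
      fun β hβ => lt_max_of_lt_right (hb₂ _ ⟨β, mem_biUnion he hβ, rfl⟩)⟩⟩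
  have h1' : ∀ (S : Set La), ∃ b, S.Countable → ∀ e ∈ S, e < b ∧ ∀ β ≤ e, g β < b := by
    intro S
    by_cases hS : S.Countable
    · exact (h1 S hS).imp fun b hb _ => hb
    · exact ⟨⊥, fun h => absurd h hS⟩
  choose st hst using h1'
  obtain ⟨c, hc⟩ := exists_rec (T := Om) (⊥ : La) (fun i c => st (c '' Iio i))
    (fun i f f' h => congrArg st (image_congr fun j hj => h j hj))
  have hc' : ∀ i j, j < i → c j < c i ∧ ∀ β ≤ c j, g β < c i := by
    intro i j hj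
    rw [hc i]
    exact hst _ ((countable_Iio i).image c) _ ⟨j, hj, rfl⟩
  obtain ⟨b, hb⟩ := La_bound_fun Om_le c
  have hne : {b | ∀ i, c i < b}.Nonempty := ⟨b, hb⟩
  have hmin := wellFounded_lt.min_mem _ hne
  have hcof : ∀ η < wellFounded_lt.min _ hne, ∃ i, η ≤ c i := by
    intro η hη
    by_contra h
    push Not at h
    exact wellFounded_lt.not_lt_min _ (show η ∈ {b | ∀ i, c i < b} from h) hη
  refine ⟨_, ⟨c, fun j i hj => (hc' i j hj).1, hmin, hcof⟩, fun β hβ => ?_⟩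
  obtain ⟨i, hi⟩ := hcof β hβ
  obtain ⟨j, hj⟩ := Om_bound (countable_singleton i)
  exact ((hc' j i (hj i rfl)).2 β hi).trans (hmin j)

theorem St.union {K : Type} (hK : #K ≤ 𝔠) {T : K → Set La} (h : St (⋃ k, T k)) :
    ∃ k, St (T k) := by
  by_contra hc
  simp only [St] at hc
  push Not at hc
  choose g hg using hc
  choose G hG using fun β => La_bound_fun hK fun k => g k β
  obtain ⟨γ, hγ, h'⟩ := h G
  obtain ⟨k, hk⟩ := mem_iUnion.1 hγ
  obtain ⟨β, h1, h2⟩ := hg k γ hk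
  exact (h2.trans_lt ((hG β k).trans (h' β h1))).false

theorem St.fodor {T : Set La} (h : St T) (r : La → La) (hr : ∀ γ ∈ T, r γ < γ) :
    ∃ v, St {γ ∈ T | r γ = v} := by
  by_contra hc
  simp only [St] at hc
  push Not at hc
  choose g hg using hc
  have h1 : ∀ β : La, ∃ b, ∀ k : Iic β × Iic β, g k.1 k.2 < b := fun β =>
    La_bound_fun (by
      rw [mk_prod, lift_id]
      exact (mul_le_mul' (mk_Iic_La β) (mk_Iic_La β)).trans (by simp)) _
  choose G hG using h1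
  obtain ⟨γ, hγ, h'⟩ := h G
  obtain ⟨β, h1, h2⟩ := hg (r γ) γ ⟨hγ, rfl⟩
  have h3 := hG (max (r γ) β) (⟨r γ, mem_Iic.2 (le_max_left _ _)⟩, ⟨β, mem_Iic.2 (le_max_right _ _)⟩)
  exact (h2.trans_lt (h3.trans (h' _ (max_lt (hr γ hγ) h1)))).false

theorem exists_cls : ∃ cls : La → ℕ, ∀ k, St {γ | W1 γ ∧ cls γ = k} := by
  classical
  have h0 : ∀ γ, ∃ c : Om → La, W1 γ → (∀ i, c i < γ) ∧ ∀ η < γ, ∃ i, η ≤ c i := by
    intro γ
    by_cases h : W1 γ
    · obtain ⟨c, -, h⟩ := h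
      exact ⟨c, fun _ => h⟩
    · exact ⟨fun _ => ⊥, fun h' => absurd h' h⟩
  choose c hc using h0
  obtain ⟨i, hi⟩ : ∃ i, ∀ η, St {γ | W1 γ ∧ η ≤ c γ i} := by
    by_contra hcon
    push Not at hcon
    choose η hη using hcon
    obtain ⟨b, hb⟩ := La_bound_fun Om_le η
    have : St (⋃ i, {γ | W1 γ ∧ η i ≤ c γ i}) := by
      intro g
      obtain ⟨γ, hγ, h⟩ := st_W1 fun β => max (g β) b
      have hpos : ⊥ < γ := bot_le.trans_lt ((hc γ hγ).1 ⊥)
      have hbγ : b < γ := (le_max_right _ _).trans_lt (h ⊥ hpos)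
      obtain ⟨i, hi⟩ := (hc γ hγ).2 b hbγ
      exact ⟨γ, mem_iUnion.2 ⟨i, hγ, (hb i).le.trans hi⟩,
        fun β hβ => (le_max_left _ _).trans_lt (h β hβ)⟩
    obtain ⟨i, hi⟩ := this.union Om_le
    exact hη i hi
  have h2 : ∀ η, ∃ v, η < v ∧ St {γ | W1 γ ∧ c γ i = v} := by
    intro η
    obtain ⟨η', hη'⟩ := exists_gt η
    obtain ⟨v, hv⟩ := (hi η').fodor (fun γ => c γ i) fun γ hγ => (hc γ hγ.1).1 i
    obtain ⟨γ, hγ, -⟩ := hv id
    exact ⟨v, hη'.trans_le (hγ.2 ▸ hγ.1.2), hv.mono fun γ hγ => ⟨hγ.1.1, hγ.2⟩⟩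
  choose nx h3 h4 using h2
  let v : ℕ → La := fun k => Nat.rec (nx ⊥) (fun _ w => nx w) k
  have hv : StrictMono v := strictMono_nat_of_lt_succ fun k => h3 _
  have hv' : ∀ k, St {γ | W1 γ ∧ c γ i = v k} := fun k => by
    cases k with
    | zero => exact h4 _
    | succ k => exact h4 _
  have h5 : ∀ γ, ∃ k : ℕ, ∀ k', c γ i = v k' → k = k' := by
    intro γ
    rcases em (∃ k : ℕ, c γ i = v k) with h | h
    · obtain ⟨k, hk⟩ := h
      exact ⟨k, fun k' hk' => hv.injective (hk.symm.trans hk')⟩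
    · exact ⟨0, fun k' hk' => absurd ⟨k', hk'⟩ h⟩
  choose cl hcl using h5
  exact ⟨cl, fun k => (hv' k).mono fun γ hγ => ⟨hγ.1, hcl γ k hγ.2⟩⟩

noncomputable def cls : La → ℕ := exists_cls.choose

theorem cls_st (k : ℕ) : St {γ | W1 γ ∧ cls γ = k} := exists_cls.choose_spec k

end Pool.Agent.H84.Stat
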