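import Pool.Agent.H84.StkDefs

/-! No weakly universal function under the stick principle and the failure of CH. -/

namespace Pool.Agent.H84.Stk

open Set Pool.Agent.H84.StkDefs
open scoped Cardinal

theorem card_W1 : Cardinal.mk W1 = ℵ₁ := Cardinal.mk_ord_toType _

theorem main (hs : Stick) (hc : ℵ₁ < Cardinal.continuum.{0}) (U : Sym2 W1 → ℕ) :
    ¬ WeaklyUniv U := by
  classical
  intro hU
  obtain ⟨S, s1, s2, s3⟩ := hs
  obtain ⟨p⟩ : Nonempty (W1 ≃ W1 × W1) := by
    rw [← Cardinal.eq]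
    simp
  obtain ⟨q⟩ : Nonempty (W1 ≃ S × W1) := by
    rw [← Cardinal.eq]
    simp [s1]
  have unc : ¬ (univ : Set W1).Countable := by
    rw [← Cardinal.le_aleph0_iff_set_countable, Cardinal.mk_univ, card_W1, not_le]
    exact Cardinal.aleph0_lt_aleph_one
  have hlt : ∀ i : W1, (Iic i).Countable := fun i => by
    rw [← Iio_insert]
    exact (Cardinal.le_aleph0_iff_set_countable.1 (Cardinal.lt_aleph_one_iff.1
      ((Cardinal.mk_Iio_lt i (by simp)).trans_eq card_W1))).insert i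
  have h1 : ∀ s : S, ∃ φ : Set s.1, ∀ (γ : W1) (t : Finset ℕ),
      φ ≠ {x : s.1 | U s((p x).2, γ) ∈ t} := fun s => by
    have := (s2 s s.2).1.to_subtype
    have := (s2 s s.2).2.to_subtype
    by_contra c
    push Not at c
    have := Cardinal.mk_le_of_surjective (f := fun a : W1 × Finset ℕ =>
      {x : s.1 | U s((p x).2, a.1) ∈ a.2}) fun φ => let ⟨γ, t, e⟩ := c φ; ⟨(γ, t), e.symm⟩
    simp [hc.not_ge] at this
  choose φ hφ using h1
  let G : W1 → W1 → ℕ := fun β α => if ∃ x ∈ φ (q α).1, (p x).1 = β then 1 else 0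
  obtain ⟨h, e, -, e2, e3⟩ := hU (Sym2.lift ⟨fun a b => G (min a b) (max a b), fun a b => by
    simp only [min_comm a b, max_comm a b]⟩)
  obtain ⟨s, s4, s5⟩ := s3 (range fun a => p.symm (a, h a)) fun c => unc (by
    simpa [← range_comp, Function.comp_def] using c.image fun x => (p x).1)
  have s6 : ∀ x : s, (p x).2 = h (p x).1 := fun x => by
    obtain ⟨a, ha⟩ := s5 x.2
    simp [← ha]
  obtain ⟨α, a1, a2⟩ : ∃ α, (q α).1 = ⟨s, s4⟩ ∧ ∀ x ∈ s, (p x).1 < α := by
    by_contra c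
    push Not at c
    refine unc ((((s2 s s4).1.biUnion fun x _ => hlt (p x).1).image fun α => (q α).2).mono
      fun b _ => ?_)
    exact ⟨q.symm (⟨s, s4⟩, b), mem_iUnion₂.2 (by simpa using c _ (by simp)), by simp⟩
  refine hφ ⟨s, s4⟩ (h α) (e2 1).toFinset (Set.ext fun x => ?_)
  have := e3 _ _ (a2 x x.2).ne
  simp only [Sym2.lift_mk] at this
  rw [min_eq_left (a2 x x.2).le, max_eq_right (a2 x x.2).le] at this
  simp only [G] at this
  rw [a1] at this
  simp only [mem_ofPred_eq, Finite.mem_toFinset, mem_preimage, mem_singleton_iff, s6, ← this,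
    ite_eq_left_iff, zero_ne_one, imp_false, not_not]
  exact ⟨fun a => ⟨x, a, rfl⟩, fun ⟨y, a, b⟩ => (Subtype.ext (p.injective (Prod.ext b
    (by rw [s6, s6, b]))) : y = x) ▸ a⟩

end Pool.Agent.H84.Stk
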