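import Mathlib

/-! The stick principle and weakly universal functions. -/

namespace Pool.Agent.H84.StkDefs

/-- The set of countable ordinals. -/
abbrev W1 : Type := (Cardinal.aleph 1).ord.ToType

/-- The stick principle: `ℵ₁` many countably infinite sets such that every uncountable set
contains one of them. -/
def Stick : Prop :=
  ∃ S : Set (Set W1), Cardinal.mk S = Cardinal.aleph 1 ∧ (∀ s ∈ S, s.Countable ∧ s.Infinite) ∧
    ∀ X : Set W1, ¬ X.Countable → ∃ s ∈ S, s ⊆ X

/-- `(1, ω)`-weakly universal functions on unordered pairs (values on the diagonal are ignored). -/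
def WeaklyUniv (U : Sym2 W1 → ℕ) : Prop :=
  ∀ F : Sym2 W1 → ℕ, ∃ (h : W1 → W1) (e : ℕ → ℕ), Function.Injective h ∧
    (∀ n, (e ⁻¹' {n}).Finite) ∧ ∀ α β, α ≠ β → F s(α, β) = e (U s(h α, h β))

end Pool.Agent.H84.StkDefs
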