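import Mathlib
import Pool.Agent.H84.Lac

set_option autoImplicit false

namespace Pool.Agent.H84.Stoll

open Set Filter Topology Lac

abbrev E : Type := EuclideanSpace ℂ (Fin 3)

noncomputable def T (c : ℝ) (p : E) : E :=
  p + (c : ℂ) • (h 0 (p 0) • EuclideanSpace.single 1 1 + h 1 (p 0) • EuclideanSpace.single 2 1)

theorem T0 (c : ℝ) (p : E) : T c p 0 = p 0 := by simp [T]
theorem T1 (c : ℝ) (p : E) : T c p 1 = p 1 + c * h 0 (p 0) := by simp [T]
theorem T2 (c : ℝ) (p : E) : T c p 2 = p 2 + c * h 1 (p 0) := by simp [T]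

theorem T_add (c d : ℝ) (p : E) : T c (T d p) = T (c + d) p := by
  conv_lhs => rw [T, T0]
  simp only [T]; push_cast; module

theorem T_zero (p : E) : T 0 p = p := by simp [T]

def D : Set E := {p | ‖p 0‖ < 1}

theorem D_open : IsOpen D := isOpen_lt (by fun_prop) continuous_const

theorem T_an (c : ℝ) : AnalyticOnNhd ℂ (T c) D := by
  intro p hp
  have h0 : AnalyticAt ℂ (fun q : E => q 0) p :=
    (EuclideanSpace.proj (𝕜 := ℂ) (0 : Fin 3)).analyticAt p
  have h1 : ∀ i, AnalyticAt ℂ (fun q : E => h i (q 0)) p := fun i =>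
    (h_an i (p 0) (mem_ball_zero_iff.2 hp)).comp_of_eq h0 rfl
  exact analyticAt_id.add ((analyticAt_const (v := (c : ℂ))).smul
    (((h1 0).smul analyticAt_const).add ((h1 1).smul analyticAt_const)))

structure M where
  a : ℝ
  p : E
  ha : p ∈ D → a = 0

open Classical in
noncomputable def ι (a : ℝ) (p : E) : M :=
  if hp : p ∈ D then ⟨0, T a p, fun _ => rfl⟩ else ⟨a, p, fun h => (hp h).elim⟩

theorem T_mem {c : ℝ} {p : E} : T c p ∈ D ↔ p ∈ D := by simp [D, T0]

theorem ι_eq {a b : ℝ} {p q : E} :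
    ι a p = ι b q ↔ (a = b ∧ p = q) ∨ (p ∈ D ∧ q = T (a - b) p) := by
  unfold ι
  by_cases hp : p ∈ D <;> by_cases hq : q ∈ D <;> simp only [hp, hq, dite_true, dite_false,
    M.mk.injEq, true_and, false_and, or_false]
  · constructor
    · intro h; right
      rw [sub_eq_neg_add, ← T_add, h, T_add, neg_add_cancel, T_zero]
    · rintro (⟨rfl, rfl⟩ | rfl)
      · rfl
      · rw [T_add, add_sub_cancel]
  · constructor
    · rintro ⟨-, rfl⟩; exact (hq (T_mem.2 hp)).elim
    · rintro (⟨rfl, rfl⟩ | rfl)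
      · exact (hq hp).elim
      · exact (hq (T_mem.2 hp)).elim
  · constructor
    · rintro ⟨-, rfl⟩; exact (hp (T_mem.2 hq)).elim
    · rintro ⟨rfl, rfl⟩; exact (hp hq).elim

theorem ι_self (m : M) : ι m.a m.p = m := by
  obtain ⟨a, p, ha⟩ := m
  unfold ι
  split_ifs with hp
  · obtain rfl := ha hp
    simp [T_zero]
  · rfl

noncomputable instance : TopologicalSpace M := ⨆ a, TopologicalSpace.coinduced (ι a) inferInstance

theorem open_iff {U : Set M} : IsOpen U ↔ ∀ a, IsOpen (ι a ⁻¹' U) := by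
  rw [isOpen_iSup_iff]; rfl

theorem ι_inj (a : ℝ) : Function.Injective (ι a) := fun p q h => by
  rcases ι_eq.1 h with h | h
  · exact h.2
  · rw [h.2, sub_self, T_zero]

theorem ι_emb (a : ℝ) : IsOpenEmbedding (ι a) := by
  refine .of_continuous_injective_isOpenMap ⟨fun U hU => open_iff.1 hU a⟩ (ι_inj a) fun U hU => ?_
  refine open_iff.2 fun b => ?_
  by_cases hab : b = a
  · subst hab; rwa [preimage_image_eq _ (ι_inj b)]
  have : ι b ⁻¹' (ι a '' U) = D ∩ T (b - a) ⁻¹' U := by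
    ext q
    constructor
    · rintro ⟨p, hp, h⟩
      rcases ι_eq.1 h.symm with h | h
      · exact (hab h.1).elim
      · exact ⟨h.1, by rw [mem_preimage, ← h.2]; exact hp⟩
    · rintro ⟨h1, h2⟩
      exact ⟨_, h2, (ι_eq.2 (Or.inr ⟨h1, rfl⟩)).symm⟩
  rw [this]
  exact (T_an _).continuousOn.isOpen_inter_preimage D_open hU

noncomputable def ch (a : ℝ) : OpenPartialHomeomorph M E :=
  ((ι_emb a).toOpenPartialHomeomorph (ι a)).symm

theorem ch_ι (a : ℝ) (p : E) : ch a (ι a p) = p :=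
  (ι_emb a).toOpenPartialHomeomorph_left_inv

theorem ch_source (a : ℝ) : (ch a).source = range (ι a) := by simp [ch]

noncomputable instance : ChartedSpace E M where
  atlas := range ch
  chartAt m := ch m.a
  mem_chart_source m := by rw [ch_source]; exact ⟨m.p, ι_self m⟩
  chart_mem_atlas m := mem_range_self _

theorem man : IsManifold (modelWithCornersSelf ℂ E) (⊤ : WithTop ℕ∞) M := by
  refine isManifold_of_contDiffOn _ _ _ ?_
  rintro _ _ ⟨a, rfl⟩ ⟨b, rfl⟩
  have e1 : ∀ p, ((ch a).symm.trans (ch b)) p = ch b (ι a p) := fun p => rfl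
  have e2 : ((ch a).symm.trans (ch b)).source ⊆ ι a ⁻¹' range (ι b) := fun p hp => by
    have := hp.2
    rwa [mem_preimage, ch_source] at this
  simp only [modelWithCornersSelf_coe, modelWithCornersSelf_coe_symm, Function.id_comp,
    Function.comp_id, preimage_id, range_id, inter_univ]
  by_cases hab : a = b
  · subst hab
    exact contDiffOn_id.congr fun p _ => by rw [e1, ch_ι]; rfl
  have e3 : ∀ p ∈ ((ch a).symm.trans (ch b)).source, p ∈ D ∧ ch b (ι a p) = T (a - b) p := by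
    intro p hp
    obtain ⟨q, hq⟩ := e2 hp
    rcases ι_eq.1 hq.symm with h | h
    · exact (hab h.1).elim
    · exact ⟨h.1, by rw [← hq, ch_ι, h.2]⟩
  refine (((T_an (a - b)).contDiffOn D_open.uniqueDiffOn).mono fun p hp => (e3 p hp).1).congr
    fun p hp => (e3 p hp).2

theorem closed (a b : ℝ) : IsClosed {z : E × E | ι a z.1 = ι b z.2} := by
  by_cases hab : a = b
  · subst hab
    simp only [(ι_inj a).eq_iff]
    exact isClosed_eq continuous_fst continuous_snd
  simp only [ι_eq, hab, false_and, false_or]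
  rw [← isOpen_compl_iff, isOpen_iff_mem_nhds]
  rintro ⟨p, q⟩ hpq
  by_cases hp : p ∈ D
  · have h1 : q ≠ T (a - b) p := fun h => hpq ⟨hp, h⟩
    have h2 : ContinuousAt (fun z : E × E => T (a - b) z.1) (p, q) :=
      ((T_an _ p hp).continuousAt).comp_of_eq continuousAt_fst rfl
    filter_upwards [(continuousAt_snd.ne_iff_eventually_ne h2).1 h1] with z hz h using hz h.2
  have hc : 0 < |a - b| := abs_pos.2 (sub_ne_zero.2 hab)
  obtain ⟨ρ, hρ, H⟩ := grow ((‖q - p‖ + 1) / |a - b|)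
  have h1 : ∀ᶠ z : E × E in 𝓝 (p, q), ρ < ‖z.1 0‖ :=
    ContinuousAt.eventually_lt continuousAt_const (by fun_prop) (hρ.trans_le (not_lt.1 hp))
  have h2 : ∀ᶠ z : E × E in 𝓝 (p, q), ‖z.2 - z.1‖ < ‖q - p‖ + 1 :=
    ContinuousAt.eventually_lt (by fun_prop) continuousAt_const (lt_add_one _)
  filter_upwards [h1, h2] with z a1 a2 ⟨a3, a4⟩
  have b1 := PiLp.norm_apply_le (z.2 - z.1) 1
  have b2 := PiLp.norm_apply_le (z.2 - z.1) 2
  have c1 : z.2 1 = z.1 1 + (a - b : ℝ) * h 0 (z.1 0) := by rw [← T1, ← a4]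
  have c2 : z.2 2 = z.1 2 + (a - b : ℝ) * h 1 (z.1 0) := by rw [← T2, ← a4]
  rw [PiLp.sub_apply, c1, add_sub_cancel_left, norm_mul, Complex.norm_real, Real.norm_eq_abs] at b1
  rw [PiLp.sub_apply, c2, add_sub_cancel_left, norm_mul, Complex.norm_real, Real.norm_eq_abs] at b2
  rcases H _ a1 a3 with h | h <;> rw [div_lt_iff₀' hc] at h <;> linarith

theorem t2 : T2Space M := by
  refine ⟨fun m m' hm => ?_⟩
  have h1 : (m.p, m'.p) ∈ {z : E × E | ι m.a z.1 = ι m'.a z.2}ᶜ := by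
    simpa [ι_self] using hm
  obtain ⟨U, V, hU, hV, h2, h3, h4⟩ := isOpen_prod_iff.1 (closed m.a m'.a).isOpen_compl _ _ h1
  refine ⟨_, _, (ι_emb m.a).isOpenMap U hU, (ι_emb m'.a).isOpenMap V hV, ⟨_, h2, ι_self m⟩,
    ⟨_, h3, ι_self m'⟩, Set.disjoint_left.2 ?_⟩
  rintro _ ⟨p, hp, rfl⟩ ⟨q, hq, h⟩
  exact h4 (mk_mem_prod hp hq) h.symm

theorem conn : ConnectedSpace M := by
  have h0 : (0 : E) ∈ D := by simp [D]
  have h1 : IsPreconnected (⋃ a, range (ι a)) :=
    isPreconnected_iUnion ⟨ι 0 0, mem_iInter.2 fun a => ⟨_, (ι_eq.2 (Or.inr ⟨h0, rfl⟩)).symm⟩⟩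
      fun a => isPreconnected_range (ι_emb a).continuous
  have h2 : ⋃ a, range (ι a) = univ := eq_univ_of_forall fun m => mem_iUnion.2 ⟨_, _, ι_self m⟩
  rw [h2] at h1
  exact { toPreconnectedSpace := ⟨h1⟩, toNonempty := ⟨ι 0 0⟩ }

theorem nsep : ¬ TopologicalSpace.SeparableSpace M := by
  intro hs
  have : Countable ℝ := by
    refine Pairwise.countable_of_isOpen_disjoint (s := fun a => ι a '' {p | 1 < ‖p 0‖}) ?_
      (fun a => (ι_emb a).isOpenMap _ (isOpen_lt continuous_const (by fun_prop)))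
      fun a => ⟨_, EuclideanSpace.single 0 2, by simp, rfl⟩
    intro a b hab
    refine Set.disjoint_left.2 ?_
    rintro _ ⟨p, hp, rfl⟩ ⟨q, hq, h⟩
    rcases ι_eq.1 h with h | h
    · exact hab h.1.symm
    · exact lt_asymm (show 1 < ‖q 0‖ from hq) h.1
  exact not_countable this

end Pool.Agent.H84.Stoll
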