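import Mathlib

/-! Three types of charged balls on a circle: the cyclic arrangement minimizes the energy. -/

namespace Pool.Agent.H84.Tern

open Finset

/-- An arrangement: among the balls `1, …, 3 n` each type occurs exactly `n` times. -/
def IsArr (n : ℕ) (i : ℕ → Fin 3) : Prop :=
  ∀ t, ((range (3 * n)).filter fun k => i (k + 1) = t).card = n

/-- The types with the convention `i 0 = i (3 n)`. -/
def idx (n : ℕ) (i : ℕ → Fin 3) (k : ℕ) : Fin 3 := if k = 0 then i (3 * n) else i k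

/-- The centres. -/
noncomputable def xs (n : ℕ) (ω : Fin 3 → ℝ) (i : ℕ → Fin 3) : ℕ → ℝ
  | 0 => 0
  | k + 1 => xs n ω i k + (ω (idx n i k) + ω (i (k + 1))) / (2 * n)

/-- The periodic Green's function. -/
noncomputable def G (x y : ℝ) : ℝ := 1 / 2 * |x - y| ^ 2 - 1 / 2 * |x - y| + 1 / 12

/-- The energy. -/
noncomputable def U (n : ℕ) (f : Matrix (Fin 3) (Fin 3) ℝ) (ω : Fin 3 → ℝ) (i : ℕ → Fin 3) : ℝ :=
  1 / 2 * ∑ k ∈ range (3 * n), ∑ m ∈ range (3 * n),
    f (i (k + 1)) (i (m + 1)) * G (xs n ω i (k + 1)) (xs n ω i (m + 1))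

/-- The cyclic arrangement: balls `1, 2, 3, 4, …` have types `0, 1, 2, 0, …`. -/
def cyc (k : ℕ) : Fin 3 := ⟨(k + 2) % 3, Nat.mod_lt _ (by norm_num)⟩

theorem cyc_arr (n : ℕ) : IsArr n cyc := by
  intro t
  induction n with
  | zero => simp
  | succ n ih =>
    have e : ∀ r, cyc (3 * n + r + 1) = cyc (r + 1) := fun r => Fin.ext (by simp only [cyc]; omega)
    rw [card_filter] at ih ⊢
    rw [show 3 * (n + 1) = 3 * n + 2 + 1 by ring, sum_range_succ, sum_range_succ, sum_range_succ,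
      ih, e 2, e 1]
    have := e 0
    rw [add_zero] at this
    rw [this]
    fin_cases t <;> simp [cyc]

theorem sum_type {n : ℕ} {i : ℕ → Fin 3} (h : IsArr n i) {M : Type*} [AddCommMonoid M]
    (g : Fin 3 → M) : ∑ k ∈ range (3 * n), g (i (k + 1)) = n • ∑ t, g t := by
  rw [← sum_fiberwise (range (3 * n)) (fun k => i (k + 1)), smul_sum]
  refine sum_congr rfl fun t _ => ?_
  rw [sum_congr rfl (g := fun _ => g t) fun k hk => by rw [(mem_filter.1 hk).2], sum_const, h t]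

theorem dsq {N : ℕ} (p u : ℕ → ℝ) (h : ∑ k ∈ range N, p k = 0) :
    ∑ k ∈ range N, ∑ m ∈ range N, p k * p m * (u k - u m) ^ 2 =
      -2 * (∑ k ∈ range N, p k * u k) ^ 2 := by
  have : ∀ k m, p k * p m * (u k - u m) ^ 2 =
      p k * u k ^ 2 * p m + p k * (p m * u m ^ 2) - 2 * (p k * u k) * (p m * u m) :=
    fun k m => by ring
  simp only [this, sum_sub_distrib, sum_add_distrib, ← mul_sum, ← sum_mul, h]
  ring

/-- Partial sums of the charges. -/
def SS {M : Type*} [AddCommMonoid M] (q : Fin 3 → M) (i : ℕ → Fin 3) (k : ℕ) : M :=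
  ∑ j ∈ range k, q (i (j + 1))

theorem SS_succ {M : Type*} [AddCommMonoid M] (q : Fin 3 → M) (i : ℕ → Fin 3) (k : ℕ) :
    SS q i (k + 1) = SS q i k + q (i (k + 1)) := sum_range_succ _ _

theorem SS_end {n : ℕ} {i : ℕ → Fin 3} (h : IsArr n i) {M : Type*} [AddCommMonoid M]
    {q : Fin 3 → M} (hq : ∑ t, q t = 0) : SS q i (3 * n) = 0 := by
  rw [SS, sum_type h, hq, smul_zero]

/-- The gaps between consecutive centres. -/
noncomputable def ll (n : ℕ) (ω : Fin 3 → ℝ) (i : ℕ → Fin 3) (k : ℕ) : ℝ :=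
  (ω (idx n i k) + ω (i (k + 1))) / (2 * n)

theorem xs_eq (n : ℕ) (ω : Fin 3 → ℝ) (i : ℕ → Fin 3) (k : ℕ) :
    xs n ω i k = ∑ j ∈ range k, ll n ω i j := by
  induction k with
  | zero => rfl
  | succ k ih => rw [sum_range_succ, ← ih]; rfl

theorem sum_ind {N k : ℕ} (hk : k < N) (l : ℕ → ℝ) :
    ∑ j ∈ range (k + 1), l j = ∑ j ∈ range N, l j * if j ≤ k then 1 else 0 := by
  simp only [mul_ite, mul_one, mul_zero, ← sum_filter]
  congr 1
  ext j
  simp only [mem_range, mem_filter]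
  omega

variable {n : ℕ} {i : ℕ → Fin 3} {ω q : Fin 3 → ℝ}

theorem energy (h : IsArr n i) (hω : ∀ t, 0 < ω t) (hq : ∑ t, q t = 0) :
    ∑ k ∈ range (3 * n), ∑ m ∈ range (3 * n),
      q (i (k + 1)) * q (i (m + 1)) * G (xs n ω i (k + 1)) (xs n ω i (m + 1)) =
      ∑ j ∈ range (3 * n), ll n ω i j * SS q i j ^ 2 -
        (∑ j ∈ range (3 * n), ll n ω i j * SS q i j) ^ 2 := by
  have h0 : ∑ k ∈ range (3 * n), q (i (k + 1)) = 0 := SS_end h hq
  have hl : ∀ j, 0 ≤ ll n ω i j := fun j => by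
    have := hω (idx n i j)
    have := hω (i (j + 1))
    unfold ll
    positivity
  have h1 : ∀ j ∈ range (3 * n), ∑ k ∈ range (3 * n),
      q (i (k + 1)) * (if j ≤ k then (1 : ℝ) else 0) = -SS q i j := by
    intro j hj
    have := sum_filter_add_sum_filter_not (range (3 * n)) (fun k => j ≤ k) fun k => q (i (k + 1))
    have e : (range (3 * n)).filter (fun k => ¬ j ≤ k) = range j := by
      ext k
      simp only [mem_range, mem_filter] at hj ⊢
      omega
    rw [e, h0] at this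
    simp only [mul_ite, mul_one, mul_zero, ← sum_filter]
    rw [SS]
    linarith
  have h2 : ∀ k ∈ range (3 * n), ∀ m ∈ range (3 * n), |xs n ω i (k + 1) - xs n ω i (m + 1)| =
      ∑ j ∈ range (3 * n), ll n ω i j *
        ((if j ≤ k then (1 : ℝ) else 0) - if j ≤ m then 1 else 0) ^ 2 := by
    intro k hk m hm
    rw [xs_eq, xs_eq, sum_ind (mem_range.1 hk), sum_ind (mem_range.1 hm), ← sum_sub_distrib]
    rcases le_total k m with e | e
    · rw [abs_of_nonpos (sum_nonpos fun j _ => by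
        have := hl j
        split_ifs <;> first | omega | linarith), ← sum_neg_distrib]
      refine sum_congr rfl fun j _ => ?_
      split_ifs <;> first | omega | ring
    · rw [abs_of_nonneg (sum_nonneg fun j _ => by
        have := hl j
        split_ifs <;> first | omega | linarith)]
      refine sum_congr rfl fun j _ => ?_
      split_ifs <;> first | omega | ring
  have h3 : ∑ k ∈ range (3 * n), q (i (k + 1)) * xs n ω i (k + 1) =
      -∑ j ∈ range (3 * n), ll n ω i j * SS q i j := by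
    rw [sum_congr rfl fun k hk => by rw [xs_eq, sum_ind (mem_range.1 hk), mul_sum], sum_comm,
      ← sum_neg_distrib]
    refine sum_congr rfl fun j hj => ?_
    rw [← mul_neg, ← h1 j hj, mul_sum]
    exact sum_congr rfl fun k _ => by ring
  have h4 : ∑ k ∈ range (3 * n), ∑ m ∈ range (3 * n), q (i (k + 1)) * q (i (m + 1)) *
      |xs n ω i (k + 1) - xs n ω i (m + 1)| =
      -2 * ∑ j ∈ range (3 * n), ll n ω i j * SS q i j ^ 2 := by
    rw [sum_congr rfl fun k hk => (sum_congr rfl fun m hm => by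
      rw [h2 k hk m hm, mul_sum]).trans sum_comm, sum_comm, mul_sum]
    refine sum_congr rfl fun j hj => ?_
    have := dsq (fun k => q (i (k + 1))) (fun k => if j ≤ k then (1 : ℝ) else 0) h0
    rw [h1 j hj, neg_sq] at this
    rw [mul_left_comm, ← this, mul_sum]
    refine sum_congr rfl fun k _ => ?_
    rw [mul_sum]
    exact sum_congr rfl fun m _ => by ring
  have h5 := dsq (fun k => q (i (k + 1))) (fun k => xs n ω i (k + 1)) h0
  rw [h3, neg_sq] at h5
  have h6 : ∀ k m, q (i (k + 1)) * q (i (m + 1)) * G (xs n ω i (k + 1)) (xs n ω i (m + 1)) =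
      1 / 2 * (q (i (k + 1)) * q (i (m + 1)) * (xs n ω i (k + 1) - xs n ω i (m + 1)) ^ 2) -
      1 / 2 * (q (i (k + 1)) * q (i (m + 1)) * |xs n ω i (k + 1) - xs n ω i (m + 1)|) +
      1 / 12 * q (i (k + 1)) * q (i (m + 1)) := fun k m => by
    rw [G, sq_abs]
    ring
  simp only [h6, sum_add_distrib, sum_sub_distrib, ← mul_sum, h0, h4, h5]
  simp only [mul_zero, sum_const_zero]
  ring

theorem regroup (h : IsArr n i) (hq : ∑ t, q t = 0) (φ : ℝ → ℝ) :
    ∑ j ∈ range (3 * n), ll n ω i j * φ (SS q i j) =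
      ∑ k ∈ range (3 * n), ω (i (k + 1)) / (2 * n) * (φ (SS q i k) + φ (SS q i (k + 1))) := by
  have h1 := sum_range_succ' (fun j => ω (idx n i j) / (2 * n) * φ (SS q i j)) (3 * n)
  rw [sum_range_succ] at h1
  have e : idx n i (3 * n) = idx n i 0 := by simp [idx]
  have e0 : SS q i 0 = 0 := rfl
  rw [e, SS_end h hq, e0, add_left_inj] at h1
  simp only [ll, add_div, add_mul, mul_add, sum_add_distrib, h1]
  rw [add_comm]
  rfl

theorem ll_sum (h : IsArr n i) (hn : 0 < n) (hω : ∑ t, ω t = 1) :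
    ∑ j ∈ range (3 * n), ll n ω i j = 1 := by
  have := regroup (ω := ω) (q := 0) h (by simp) fun _ => 1
  simp only [mul_one] at this
  rw [this, sum_type h fun t => ω t / (2 * n) * (1 + 1), ← sum_mul, ← sum_div, hω, nsmul_eq_mul]
  have : (n : ℝ) ≠ 0 := by positivity
  field_simp
  norm_num

/-- The mean square deviation of the midpoints of the steps of one type. -/
noncomputable def RR (n : ℕ) (q : Fin 3 → ℝ) (i : ℕ → Fin 3) (c : ℝ) (t : Fin 3) : ℝ :=
  ∑ k ∈ (range (3 * n)).filter fun k => i (k + 1) = t, (SS q i k + q t / 2 - c) ^ 2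

theorem var_eq (h : IsArr n i) (hq : ∑ t, q t = 0) (c : ℝ) :
    ∑ j ∈ range (3 * n), ll n ω i j * (SS q i j - c) ^ 2 =
      ∑ t, ω t / (2 * n) * (2 * RR n q i c t + n * (q t ^ 2 / 2)) := by
  rw [regroup h hq fun s => (s - c) ^ 2, ← sum_fiberwise (range (3 * n)) fun k => i (k + 1)]
  refine sum_congr rfl fun t _ => ?_
  have := h t
  rw [RR, mul_sum, ← nsmul_eq_mul, ← congrArg (· • (q t ^ 2 / 2)) this, ← sum_const,
    ← sum_add_distrib, mul_sum]
  refine sum_congr rfl fun k hk => ?_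
  rw [SS_succ, (mem_filter.1 hk).2]
  ring

theorem exists_prim (ψ : ℤ → ℝ) : ∃ Ψ : ℤ → ℝ, ∀ h, Ψ (h + 1) - Ψ h = ψ h := by
  refine ⟨fun h => ∑ j ∈ range h.toNat, ψ j - ∑ j ∈ range (-h).toNat, ψ (-(j + 1)), fun h => ?_⟩
  rcases le_or_gt 0 h with e | e
  · obtain ⟨m, rfl⟩ := Int.eq_ofNat_of_zero_le e
    have a : (-((m : ℤ) + 1)).toNat = 0 := by omega
    have b : (-(m : ℤ)).toNat = 0 := by omega
    have c : ((m : ℤ) + 1).toNat = m + 1 := by omega
    simp only [a, b, c, Int.toNat_natCast, sum_range_succ]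
    ring
  · obtain ⟨m, rfl⟩ : ∃ m : ℕ, h = -(m + 1) := ⟨(-h - 1).toNat, by omega⟩
    have a : (-((m : ℤ) + 1) + 1).toNat = 0 := by omega
    have b : (-((m : ℤ) + 1)).toNat = 0 := by omega
    have c : (-(-((m : ℤ) + 1) + 1)).toNat = m := by omega
    have d : (-(-((m : ℤ) + 1))).toNat = m + 1 := by omega
    simp only [a, b, c, d, sum_range_succ]
    ring

theorem pair (h : IsArr n i) {s t : Fin 3} (hst : s ≠ t) (e b : Fin 3 → ℤ) (es : e s = 1)
    (et : e t = -1) (eo : ∀ u, u ≠ s → u ≠ t → e u = 0) (e0 : ∑ u, e u = 0)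
    (hq : ∀ u, q u = e u * q s + b u * (q s + q t)) (c : ℝ) :
    |q s + q t| / 2 * √n ≤ √(RR n q i c s) + √(RR n q i c t) := by
  set δ := |q s + q t| / 2 with hδ
  have hδ0 : 0 ≤ δ := by positivity
  have h1 : ∀ k, SS q i k = (SS e i k : ℤ) * q s + (SS b i k : ℤ) * (q s + q t) := by
    intro k
    induction k with
    | zero => simp [SS]
    | succ k ih =>
      rw [SS_succ, SS_succ, SS_succ, ih, hq (i (k + 1))]
      push_cast
      ring
  have h2 : ∀ k k', SS e i k' - 1 = SS e i k →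
      δ ≤ |SS q i k' + q t / 2 - c| + |SS q i k + q s / 2 - c| := by
    intro k k' hk
    refine le_trans ?_ (abs_sub _ _)
    have : SS q i k' + q t / 2 - c - (SS q i k + q s / 2 - c) =
        ((2 * (SS b i k' - SS b i k) + 1 : ℤ) : ℝ) * ((q s + q t) / 2) := by
      rw [h1 k, h1 k', ← hk]
      push_cast
      ring
    rw [this, abs_mul, abs_div, abs_two, ← Int.cast_abs]
    refine le_mul_of_one_le_left hδ0 ?_
    exact_mod_cast Int.one_le_abs (by omega)
  have h3 : ∀ v : ℤ, ∃ a, 0 ≤ a ∧ a ≤ δ ∧ (∀ k ∈ range (3 * n), SS e i k = v →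
      a ≤ |SS q i k + q s / 2 - c|) ∧ ∀ k ∈ range (3 * n), i (k + 1) = t → SS e i k - 1 = v →
        δ - a ≤ |SS q i k + q t / 2 - c| := by
    intro v
    rcases ((range (3 * n)).filter fun k => SS e i k = v).eq_empty_or_nonempty with g | g
    · exact ⟨δ, hδ0, le_rfl, fun k hk hv => absurd (mem_filter.2 ⟨hk, hv⟩) (g ▸ notMem_empty k),
        fun k _ _ _ => by simp⟩
    · obtain ⟨k₀, g1, g2⟩ := exists_min_image _ (fun k => |SS q i k + q s / 2 - c|) g
      refine ⟨min δ |SS q i k₀ + q s / 2 - c|, le_min hδ0 (abs_nonneg _), min_le_left _ _,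
        fun k hk hv => (min_le_right _ _).trans (g2 k (mem_filter.2 ⟨hk, hv⟩)),
        fun k _ _ hv => ?_⟩
      have := h2 k₀ k (hv.trans (mem_filter.1 g1).2.symm)
      rcases min_cases δ |SS q i k₀ + q s / 2 - c| with g3 | g3
      · rw [g3.1, sub_self]
        exact abs_nonneg _
      · rw [g3.1]
        linarith
  choose a a0 a1 a2 a3 using h3
  obtain ⟨Ψ, hΨ⟩ := exists_prim fun v => (δ - a v) ^ 2
  have h4 : ∑ k ∈ (range (3 * n)).filter fun k => i (k + 1) = s, (δ - a (SS e i k)) ^ 2 =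
      ∑ k ∈ (range (3 * n)).filter fun k => i (k + 1) = t, (δ - a (SS e i k - 1)) ^ 2 := by
    have := sum_range_sub (fun k => Ψ (SS e i k)) (3 * n)
    have e1 : SS e i 0 = 0 := rfl
    rw [SS_end h e0, e1, sub_self] at this
    rw [sum_filter, sum_filter, ← sub_eq_zero, ← sum_sub_distrib]
    refine Eq.trans (sum_congr rfl fun k _ => ?_) this
    rw [SS_succ]
    by_cases g : i (k + 1) = s
    · rw [if_pos g, if_neg (g ▸ hst), g, es, hΨ, sub_zero]
    · by_cases g' : i (k + 1) = t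
      · rw [if_neg g, if_pos g', g', et, ← hΨ, sub_add_cancel, ← sub_eq_add_neg]
        ring
      · rw [if_neg g, if_neg g', eo _ g g', add_zero]
        ring
  set T := (range (3 * n)).filter fun k => i (k + 1) = s with hT
  have h5 : ∑ k ∈ T, a (SS e i k) ^ 2 ≤ RR n q i c s := sum_le_sum fun k hk => by
    rw [← sq_abs (SS q i k + q s / 2 - c)]
    exact pow_le_pow_left₀ (a0 _) (a2 _ k (mem_filter.1 hk).1 rfl) 2
  have h6 : ∑ k ∈ T, (δ - a (SS e i k)) ^ 2 ≤ RR n q i c t := h4.trans_le (sum_le_sum fun k hk => by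
    rw [← sq_abs (SS q i k + q t / 2 - c)]
    exact pow_le_pow_left₀ (sub_nonneg.2 (a1 _))
      (a3 _ k (mem_filter.1 hk).1 (mem_filter.1 hk).2 rfl) 2)
  have h7 := Real.sum_mul_le_sqrt_mul_sqrt T (fun k => a (SS e i k)) fun k => δ - a (SS e i k)
  have h8 : ∑ k ∈ T, a (SS e i k) ^ 2 + 2 * ∑ k ∈ T, a (SS e i k) * (δ - a (SS e i k)) +
      ∑ k ∈ T, (δ - a (SS e i k)) ^ 2 = δ ^ 2 * n := by
    rw [mul_sum, ← sum_add_distrib, ← sum_add_distrib,
      sum_congr rfl (g := fun _ => δ ^ 2) fun k _ => by ring, sum_const, h s, nsmul_eq_mul, mul_comm]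
  refine le_trans ?_ (add_le_add (Real.sqrt_le_sqrt h5) (Real.sqrt_le_sqrt h6))
  refine abs_le_of_sq_le_sq' ?_ (by positivity) |>.2
  rw [mul_pow, add_sq, Real.sq_sqrt (by positivity), Real.sq_sqrt (sum_nonneg fun _ _ => sq_nonneg _),
    Real.sq_sqrt (sum_nonneg fun _ _ => sq_nonneg _)]
  linarith

theorem SS_cyc (hq : q 0 + q 1 + q 2 = 0) (k : ℕ) :
    SS q cyc k = ![0, q 0, q 0 + q 1] (cyc (k + 1)) := by
  induction k with
  | zero => rfl
  | succ k ih =>
    rw [SS_succ, ih]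
    have : (cyc (k + 1) = 0 ∧ cyc (k + 1 + 1) = 1) ∨ (cyc (k + 1) = 1 ∧ cyc (k + 1 + 1) = 2) ∨
        (cyc (k + 1) = 2 ∧ cyc (k + 1 + 1) = 0) := by
      simp only [cyc, Fin.ext_iff]
      simp
      omega
    rcases this with g | g | g <;> rw [g.1, g.2] <;> simp
    exact hq

theorem rank_one (h : IsArr n i) (hn : 0 < n) (hω : ∀ t, 0 < ω t) (hω1 : ∑ t, ω t = 1)
    (hq : ∑ t, q t = 0) :
    ∑ k ∈ range (3 * n), ∑ m ∈ range (3 * n),
      q (cyc (k + 1)) * q (cyc (m + 1)) * G (xs n ω cyc (k + 1)) (xs n ω cyc (m + 1)) ≤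
    ∑ k ∈ range (3 * n), ∑ m ∈ range (3 * n),
      q (i (k + 1)) * q (i (m + 1)) * G (xs n ω i (k + 1)) (xs n ω i (m + 1)) := by
  have hv : ∀ i, IsArr n i → ∀ c, ∑ j ∈ range (3 * n), ll n ω i j * (SS q i j - c) ^ 2 =
      ∑ j ∈ range (3 * n), ll n ω i j * SS q i j ^ 2 -
        2 * c * ∑ j ∈ range (3 * n), ll n ω i j * SS q i j + c ^ 2 := by
    intro i h c
    have : ∀ j, ll n ω i j * (SS q i j - c) ^ 2 = ll n ω i j * SS q i j ^ 2 -
        2 * c * (ll n ω i j * SS q i j) + c ^ 2 * ll n ω i j := fun j => by ring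
    simp only [this, sum_add_distrib, sum_sub_distrib, ← mul_sum, ll_sum h hn hω1, mul_one]
  rw [energy h hω hq, energy (cyc_arr n) hω hq]
  set c := ∑ j ∈ range (3 * n), ll n ω i j * SS q i j with hc
  have hq' : q 0 + q 1 + q 2 = 0 := by rwa [Fin.sum_univ_three] at hq
  have sn : 0 < √(n : ℝ) := by positivity
  set r : Fin 3 → ℝ := fun t => √(RR n q i c t) / √n with hr
  have r0 : ∀ t, 0 ≤ r t := fun t => by positivity
  have p : ∀ s t, |q s + q t| / 2 * √n ≤ √(RR n q i c s) + √(RR n q i c t) →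
      -(r s + r t) ≤ (q s + q t) / 2 ∧ (q s + q t) / 2 ≤ r s + r t := fun s t g => by
    rw [← abs_le, abs_div, abs_two, hr, ← add_div, le_div_iff₀ sn]
    exact g
  have p01 := p 0 1 (pair h (by decide) ![1, -1, 0] ![0, 1, -1] rfl rfl (by decide) (by decide)
    (fun u => by fin_cases u <;> simp; linarith) c)
  have p12 := p 1 2 (pair h (by decide) ![0, 1, -1] ![-1, 0, 1] rfl rfl (by decide) (by decide)
    (fun u => by fin_cases u <;> simp; linarith) c)
  have p20 := p 2 0 (pair h (by decide) ![-1, 0, 1] ![1, -1, 0] rfl rfl (by decide) (by decide)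
    (fun u => by fin_cases u <;> simp; linarith) c)
  set μ : Fin 3 → ℝ := fun t => ![0, q 0, q 0 + q 1] t + q t / 2 with hμ
  obtain ⟨c', hc'⟩ : ∃ c', ∀ t, |μ t - c'| ≤ r t := by
    obtain ⟨s, -, hs⟩ := exists_max_image univ (fun t => μ t - r t) univ_nonempty
    refine ⟨μ s - r s, fun t => abs_le.2 ⟨?_, by linarith [hs t (mem_univ t)]⟩⟩
    have a0 := r0 0
    have a1 := r0 1
    have a2 := r0 2
    fin_cases s <;> fin_cases t <;> simp [hμ] <;> linarith [p01.1, p01.2, p12.1, p12.2, p20.1, p20.2]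
  have h1 : ∀ t, RR n q cyc c' t ≤ RR n q i c t := by
    intro t
    have a : RR n q cyc c' t = n * (μ t - c') ^ 2 := by
      rw [RR, sum_congr rfl (g := fun _ => (μ t - c') ^ 2) fun k hk => by
        rw [SS_cyc hq', (mem_filter.1 hk).2], sum_const, cyc_arr n t, nsmul_eq_mul]
    have b := pow_le_pow_left₀ (abs_nonneg _) (hc' t) 2
    rw [sq_abs, hr, div_pow, Real.sq_sqrt (show 0 ≤ RR n q i c t from sum_nonneg fun _ _ => sq_nonneg _),
      Real.sq_sqrt (by positivity), le_div_iff₀ (by positivity)] at b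
    rw [a, mul_comm]
    exact b
  have h2 : ∑ j ∈ range (3 * n), ll n ω cyc j * (SS q cyc j - c') ^ 2 ≤
      ∑ j ∈ range (3 * n), ll n ω i j * (SS q i j - c) ^ 2 := by
    rw [var_eq (cyc_arr n) hq, var_eq h hq]
    exact sum_le_sum fun t _ => mul_le_mul_of_nonneg_left (by linarith [h1 t])
      (by have := hω t; positivity)
  rw [hv _ (cyc_arr n), hv _ h, ← hc] at h2
  nlinarith [sq_nonneg (c' - ∑ j ∈ range (3 * n), ll n ω cyc j * SS q cyc j)]

theorem main (hn : 0 < n) (f : Matrix (Fin 3) (Fin 3) ℝ) (hf : f.PosSemidef)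
    (h1 : f.mulVec (fun _ => 1) = 0) (hω : ∀ t, 0 < ω t) (hω1 : ∑ t, ω t = 1) (h : IsArr n i) :
    U n f ω cyc ≤ U n f ω i := by
  obtain ⟨m, v, rfl⟩ := Matrix.posSemidef_iff_eq_sum_vecMulVec.1 hf
  have e : ∀ s t, (∑ l, Matrix.vecMulVec (v l) (star (v l))) s t = ∑ l, v l s * v l t :=
    fun s t => by simp [Matrix.sum_apply, Matrix.vecMulVec_apply]
  have h2 : ∑ l, (∑ t, v l t) ^ 2 = 0 := by
    have : ∑ s, ∑ t, ∑ l, v l s * v l t = 0 := sum_eq_zero fun s _ => by
      have := congrFun h1 s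
      simp only [Matrix.mulVec, dotProduct, e, mul_one] at this
      exact this
    rw [← this, sum_congr rfl fun s _ => sum_comm, sum_comm]
    exact sum_congr rfl fun l _ => by rw [sq, sum_mul_sum]
  have h3 : ∀ l, ∑ t, v l t = 0 := fun l =>
    pow_eq_zero_iff two_ne_zero |>.1
      ((sum_eq_zero_iff_of_nonneg fun _ _ => sq_nonneg _).1 h2 l (mem_univ l))
  have h4 : ∀ i : ℕ → Fin 3, U n (∑ l, Matrix.vecMulVec (v l) (star (v l))) ω i =
      1 / 2 * ∑ l, ∑ k ∈ range (3 * n), ∑ m ∈ range (3 * n),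
        v l (i (k + 1)) * v l (i (m + 1)) * G (xs n ω i (k + 1)) (xs n ω i (m + 1)) := fun i => by
    simp only [U, e, sum_mul]
    rw [sum_congr rfl fun k _ => sum_comm, sum_comm]
  rw [h4, h4]
  exact mul_le_mul_of_nonneg_left (sum_le_sum fun l _ => rank_one h hn hω hω1 (h3 l)) (by norm_num)

end Pool.Agent.H84.Tern
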