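import Pool.Agent.H84.Luz

/-! Triangle-free colourings from Luzin sets. -/

namespace Pool.Agent.H84.TriFree

open Set Filter Topology Cardinal Pool.Agent.H84.Luz

/-- The countable ordinals. -/
abbrev W := {o : Ordinal.{0} // o < (Cardinal.aleph 1).ord}

def code (z : ℕ → Bool) (n : ℕ) : List Bool := (List.range n).map z

theorem code_eq {z z' : ℕ → Bool} {n : ℕ} : code z n = code z' n ↔ ∀ i < n, z i = z' i := by
  simp [code, List.map_inj_left]

def M (p : (ℕ → Bool) × (List Bool → Bool)) : Set (ℕ → Bool) :=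
  {z | ∀ n, p.1 n = true → z n = p.2 (code z n)}

theorem cyl (z : ℕ → Bool) (n : ℕ) : ∀ᶠ z' in 𝓝 z, ∀ i < n, z' i = z i :=
  (eventually_all_finite (finite_lt_nat n)).2 fun i _ =>
    IsOpen.mem_nhds (s := (fun z' : ℕ → Bool => z' i) ⁻¹' {z i})
      ((isOpen_discrete {z i}).preimage (continuous_apply i)) rfl

theorem M_meagre (p : (ℕ → Bool) × (List Bool → Bool)) (hp : {n | p.1 n = true}.Infinite) :
    IsMeagre (M p) := by
  classical
  have hsub : M p ⊆ {z | ¬ ∃ᶠ n in atTop, p.1 n = true ∧ z n ≠ p.2 (code z n)} := by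
    intro z hz hf
    obtain ⟨n, hn⟩ := hf.exists
    exact hn.2 (hz n hn.1)
  refine IsMeagre.mono hsub
    (generic (fun n z => p.1 n = true ∧ z n ≠ p.2 (code z n)) (fun n => ?_) fun z l N => ?_)
  · refine isOpen_iff_mem_nhds.2 fun z hz => mem_of_superset (cyl z (n + 1)) fun z' hz' => ?_
    refine ⟨hz.1, ?_⟩
    rw [hz' n (Nat.lt_succ_self n), code_eq.2 fun i hi => hz' i (Nat.lt_succ_of_lt hi)]
    exact hz.2
  · obtain ⟨n, hn, hlt⟩ := hp.exists_gt (max l N)
    refine ⟨Function.update z n (!p.2 (code z n)), n, ((le_max_right _ _).trans hlt.le), ⟨hn, ?_⟩,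
      fun i hi => Function.update_of_ne (hi.trans ((le_max_left _ _).trans_lt hlt)).ne _ _⟩
    have : code (Function.update z n (!p.2 (code z n))) n = code z n :=
      code_eq.2 fun i hi => Function.update_of_ne hi.ne _ _
    rw [Function.update_self, this]
    simp

theorem M_closed (p : (ℕ → Bool) × (List Bool → Bool)) : IsClosed (M p) := by
  refine isOpen_compl_iff.1 (isOpen_iff_mem_nhds.2 fun z hz => ?_)
  simp only [M, mem_compl_iff, mem_setOf_eq, not_forall] at hz
  obtain ⟨n, hn, hz⟩ := hz
  refine mem_of_superset (cyl z (n + 1)) fun z' hz' hm => hz ?_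
  rw [← hz' n (Nat.lt_succ_self n), ← code_eq.2 fun i hi => hz' i (Nat.lt_succ_of_lt hi)]
  exact hm n hn

theorem of_ch (ch : continuum.{0} = aleph 1) : ∃ A : Set (ℕ → Bool), ¬ A.Countable ∧
    ∀ p : (ℕ → Bool) × (List Bool → Bool), {n | p.1 n = true}.Infinite → (A ∩ M p).Countable := by
  classical
  obtain ⟨e⟩ : Nonempty (((ℕ → Bool) × (List Bool → Bool)) ≃ (aleph.{0} 1).ord.ToType) := by
    rw [← Cardinal.eq, Cardinal.mk_ord_toType, ← ch]
    simp
  set I := (aleph.{0} 1).ord.ToType
  have hlt : ∀ i : I, (Iio i).Countable := fun i =>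
    Cardinal.le_aleph0_iff_set_countable.1 (Cardinal.lt_aleph_one_iff.1
      ((Cardinal.mk_Iio_lt i (by simp [I])).trans_eq (Cardinal.mk_ord_toType _)))
  have hle : ∀ i : I, (Iic i).Countable := fun i => by
    rw [← Iio_insert]
    exact (hlt i).insert i
  obtain ⟨f, hf⟩ := wf_rec (I := I) (α := ℕ → Bool) (fun g f a => (∀ h < g, f h ≠ a) ∧
      ∀ h ≤ g, {n | (e.symm h).1 n = true}.Infinite → a ∉ M (e.symm h))
    (fun g f f' a hf h => ⟨fun k hk => hf k hk ▸ h.1 k hk, h.2⟩)
    (fun g f => by
      have h1 : IsMeagre (⋃ h ∈ Iio g, M (fun _ => true, fun l => f h l.length)) :=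
        isMeagre_biUnion (hlt g) fun h _ => M_meagre _ (by simpa using infinite_univ)
      have h2 : IsMeagre (⋃ h ∈ {h | h ≤ g ∧ {n | (e.symm h).1 n = true}.Infinite},
          M (e.symm h)) :=
        isMeagre_biUnion ((hle g).mono fun h hh => hh.1) fun h hh => M_meagre _ hh.2
      obtain ⟨a, ha⟩ := (dense_of_mem_residual (h1.union h2)).nonempty
      refine ⟨a, fun h hh he => ha (Or.inl (mem_biUnion hh ?_)),
        fun h hh hi hm => ha (Or.inr (mem_biUnion (show h ∈ {h | _} from ⟨hh, hi⟩) hm))⟩
      intro n _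
      simp [code, he])
  have hinj : Function.Injective f := fun a b hab => by
    rcases lt_trichotomy a b with h | h | h
    · exact absurd hab ((hf b).1 a h)
    · exact h
    · exact absurd hab.symm ((hf a).1 b h)
  refine ⟨range f, fun hc => ?_, fun p hp => ((hlt (e p)).image f).mono ?_⟩
  · rw [← Cardinal.le_aleph0_iff_set_countable, Cardinal.mk_range_eq f hinj,
      Cardinal.mk_ord_toType] at hc
    exact absurd hc aleph0_lt_aleph_one.not_ge
  · rintro _ ⟨⟨g, rfl⟩, hm⟩
    refine ⟨g, ?_, rfl⟩
    by_contra hg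
    exact (hf g).2 (e p) (not_lt.1 hg) (by simpa using hp) (by simpa using hm)

theorem colour {A : Set (ℕ → Bool)} (hA : ¬ A.Countable)
    (h : ∀ p : (ℕ → Bool) × (List Bool → Bool), {n | p.1 n = true}.Infinite → (A ∩ M p).Countable) :
    ∃ c : Sym2 W → ℕ,
      (∀ a b d : W, a ≠ b → b ≠ d → a ≠ d → ¬ (c s(a, b) = c s(b, d) ∧ c s(b, d) = c s(a, d))) ∧
      ∀ X : Set W, ¬ X.Countable →
        {n : ℕ | ¬ ∃ a ∈ X, ∃ b ∈ X, a ≠ b ∧ c s(a, b) = n}.Finite := by
  classical
  obtain ⟨r0⟩ : Nonempty (W ↪ A) := by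
    rw [← Cardinal.lift_mk_le']
    have : #W = lift.{1} (aleph.{0} 1) := by
      have := Ordinal.mk_Iio_ordinal (aleph.{0} 1).ord
      rw [Cardinal.card_ord] at this
      exact this
    rw [this, lift_lift]
    refine Cardinal.lift_le.2 ?_
    rw [← Cardinal.le_aleph0_iff_set_countable, not_le] at hA
    rw [← succ_aleph0]
    exact Order.succ_le_of_lt hA
  let r : W → ℕ → Bool := fun a => (r0 a).1
  have hr : Function.Injective r := Subtype.val_injective.comp r0.injective
  have hmem : ∀ a b, a ≠ b → r a (sInf {n | r a n ≠ r b n}) ≠ r b (sInf {n | r a n ≠ r b n}) :=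
    fun a b hab => Nat.sInf_mem (s := {n | r a n ≠ r b n}) (Function.ne_iff.1 (hr.ne hab))
  refine ⟨Sym2.lift ⟨fun a b => sInf {n | r a n ≠ r b n}, fun a b => by simp only [ne_comm]⟩,
    fun a b d h1 h2 h3 hh => ?_, fun X hX => ?_⟩
  · simp only [Sym2.lift_mk] at hh
    have k1 := hmem a b h1
    have k2 := hmem b d h2
    have k3 := hmem a d h3
    rw [hh.1] at k1
    rw [← hh.2] at k3
    revert k1 k2 k3
    generalize sInf {n | r b n ≠ r d n} = m
    cases r a m <;> cases r b m <;> cases r d m <;> simp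
  · by_contra hinf
    simp only [Sym2.lift_mk] at hinf
    let q : List Bool → Bool := fun l =>
      if hl : ∃ b ∈ X, code (r b) l.length = l then r hl.choose l.length else false
    have hc := h (fun n => decide (¬ ∃ a ∈ X, ∃ b ∈ X, a ≠ b ∧ sInf {n | r a n ≠ r b n} = n), q)
      (by simp only [decide_eq_true_eq]; exact hinf)
    refine hX ((hc.preimage_of_injOn hr.injOn).mono ?_)
    intro a ha
    refine ⟨(r0 a).2, fun n hn => ?_⟩
    have hlen : (code (r a) n).length = n := by simp [code]
    have hl : ∃ b ∈ X, code (r b) (code (r a) n).length = code (r a) n := ⟨a, ha, by rw [hlen]⟩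
    obtain ⟨hb, hbe⟩ := hl.choose_spec
    show r a n = q (code (r a) n)
    simp only [q, dif_pos hl]
    generalize hl.choose = b at hb hbe
    rw [hlen] at hbe ⊢
    by_contra hne
    simp only [decide_eq_true_eq] at hn
    refine hn ⟨a, ha, b, hb, fun e => hne (e ▸ rfl), le_antisymm (Nat.sInf_le hne) ?_⟩
    by_contra hlt
    exact hmem a b (fun e => hne (e ▸ rfl)) (code_eq.1 hbe _ (not_le.1 hlt)).symm

open MeasureTheory ProbabilityTheory in
/-- The fair coin measure on Cantor space. -/
noncomputable def coin : Measure (ℕ → Bool) := Measure.infinitePi fun _ => uniformOn univ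

open MeasureTheory ProbabilityTheory in
theorem M_null (p : (ℕ → Bool) × (List Bool → Bool)) (hp : {n | p.1 n = true}.Infinite) :
    coin (M p) = 0 := by
  classical
  have : IsProbabilityMeasure (uniformOn (univ : Set Bool)) :=
    isProbabilityMeasure_uniformOn finite_univ univ_nonempty
  have : IsProbabilityMeasure coin := by unfold coin; infer_instance
  have hcl : IsClosed (M p) := M_closed p
  let g : ℕ → ℕ → Bool → Bool := fun n i b => if i = n then !b else b
  let F : ℕ → (ℕ → Bool) → ℕ → Bool := fun n z i => g n i (z i)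
  have hFm : ∀ n, Measurable (F n) := fun n =>
    measurable_pi_lambda _ fun i => (measurable_of_finite (g n i)).comp (measurable_pi_apply i)
  have hu : ∀ n i, (uniformOn (univ : Set Bool)).map (g n i) = uniformOn univ := by
    intro n i
    by_cases h : i = n
    · refine Measure.ext_of_singleton fun b => ?_
      rw [Measure.map_apply (measurable_of_finite _) (measurableSet_singleton b)]
      have : g n i ⁻¹' {b} = {!b} := by
        ext c
        cases b <;> cases c <;> simp [g, h]
      rw [this, uniformOn_univ, uniformOn_univ]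
      simp
    · have : g n i = id := by
        ext c
        simp [g, h]
      rw [this, Measure.map_id]
  have hF : ∀ n, coin (F n ⁻¹' M p) = coin (M p) := fun n => by
    rw [← Measure.map_apply (hFm n) hcl.measurableSet, coin,
      Measure.infinitePi_map_pi _ fun i => measurable_of_finite (g n i)]
    simp only [hu]
  have key : ∀ n m : ℕ, p.1 n = true → n < m → Disjoint (F n ⁻¹' M p) (F m ⁻¹' M p) := by
    intro n m hn hnm
    refine disjoint_left.2 fun z h1 h2 => ?_
    have e1 := h1 n hn
    have e2 := h2 n hn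
    have e3 : code (F n z) n = code (F m z) n := code_eq.2 fun i hi => by
      simp [F, g, hi.ne, (hi.trans hnm).ne]
    rw [e3, ← e2] at e1
    simp [F, g, hnm.ne] at e1
  have : Infinite {n | p.1 n = true} := hp.to_subtype
  have hd : Pairwise (Function.onFun Disjoint fun n : {n | p.1 n = true} => F n.1 ⁻¹' M p) := by
    intro n m hne
    rcases lt_or_gt_of_ne (Subtype.val_injective.ne hne) with h | h
    · exact key _ _ n.2 h
    · exact (key _ _ m.2 h).symm
  have h1 := measure_iUnion (μ := coin) hd fun n => hFm n.1 hcl.measurableSet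
  simp only [hF] at h1
  by_contra h0
  rw [ENNReal.tsum_const_eq_top_of_ne_zero h0] at h1
  exact measure_ne_top _ _ h1

end Pool.Agent.H84.TriFree
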