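import Mathlib

open Set Filter Topology

namespace Pool.Agent.H84.Tuk

/-- `S` is cofinal: every element lies below a member of `S`. -/
def Cofinal {P : Type*} (le : P → P → Prop) (S : Set P) : Prop := ∀ p, ∃ s ∈ S, le p s

/-- `P ≤_T Q`: some map `Q → P` sends cofinal subsets of `Q` to cofinal subsets of `P`. -/
def TukeyLE {P Q : Type*} (leP : P → P → Prop) (leQ : Q → Q → Prop) : Prop :=
  ∃ f : Q → P, ∀ S, Cofinal leQ S → Cofinal leP (f '' S)

/-- Members of a filter ordered by reverse inclusion. -/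
def revIncl {Y : Type*} (F : Filter Y) : {s // s ∈ F} → {s // s ∈ F} → Prop :=
  fun s t => t.1 ⊆ s.1

/-- The coordinatewise order on sequences. -/
def seqLE {P : Type*} (le : P → P → Prop) : (ℕ → P) → (ℕ → P) → Prop :=
  fun a b => ∀ n, le (a n) (b n)

/-- `ω`-narrow uniform spaces. -/
def Narrow (X : Type*) [UniformSpace X] : Prop :=
  ∀ U ∈ uniformity X, ∃ A : Set X, A.Countable ∧ ∀ y, ∃ a ∈ A, (a, y) ∈ U

/-- `t` is a group topology on the free group for which the canonical map is uniformly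
continuous for the two-sided uniformity. -/
def Adm (X : Type*) [UniformSpace X] (t : TopologicalSpace (FreeGroup X)) : Prop :=
  @IsTopologicalGroup (FreeGroup X) t _ ∧ ∀ V ∈ @nhds _ t 1,
    {p : X × X | (FreeGroup.of p.1)⁻¹ * FreeGroup.of p.2 ∈ V ∧
      FreeGroup.of p.1 * (FreeGroup.of p.2)⁻¹ ∈ V} ∈ uniformity X

/-- `t` is the finest admissible topology: the topology of the free topological group. -/
def IsFreeTop (X : Type*) [UniformSpace X] (t : TopologicalSpace (FreeGroup X)) : Prop :=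
  Adm X t ∧ ∀ t', Adm X t' → ∀ s, @IsOpen _ t' s → @IsOpen _ t s

lemma exists_free (X : Type*) [UniformSpace X] : ∃ t, IsFreeTop X t := by
  refine ⟨sInf {t | Adm X t}, ⟨topologicalGroup_sInf fun t ht => ht.1, ?_⟩,
    fun t' ht' s hs => (sInf_le (s := {t | Adm X t}) ht') s hs⟩
  have key : ∀ g : X × X → FreeGroup X, (∀ t, Adm X t → Tendsto g (uniformity X) (@nhds _ t 1)) →
      Tendsto g (uniformity X) (@nhds _ (sInf {t | Adm X t}) 1) := by
    intro g hg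
    rw [nhds_sInf]
    simp only [tendsto_iInf]
    exact hg
  intro V hV
  exact inter_mem (key (fun p => (FreeGroup.of p.1)⁻¹ * FreeGroup.of p.2)
    (fun t ht W hW => mem_map.2 (mem_of_superset (ht.2 W hW) fun p hp => hp.1)) hV)
    (key (fun p => FreeGroup.of p.1 * (FreeGroup.of p.2)⁻¹)
    (fun t ht W hW => mem_map.2 (mem_of_superset (ht.2 W hW) fun p hp => hp.2)) hV)

/-! ### The example -/

def X : Type := Option (ℝ ⊕ ℕ)

def T (A : Set ℝ) (n : ℕ) : X → Prop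
  | none => True
  | some (.inl i) => i ∉ A
  | some (.inr m) => n ≤ m

lemma T_mono {A B : Set ℝ} {n m : ℕ} (h : A ⊆ B) (h' : n ≤ m) : ∀ x, T B m x → T A n x
  | none, _ => trivial
  | some (.inl _), hx => fun hi => hx (h hi)
  | some (.inr _), hx => h'.trans hx

def E (A : Set ℝ) (n : ℕ) : Set (X × X) := {p | p.1 = p.2 ∨ (T A n p.1 ∧ T A n p.2)}

lemma E_mono {A B : Set ℝ} {n m : ℕ} (h : A ⊆ B) (h' : n ≤ m) : E B m ⊆ E A n :=
  fun _ hp => hp.imp id fun q => ⟨T_mono h h' _ q.1, T_mono h h' _ q.2⟩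

def bs : FilterBasis (X × X) where
  sets := {s | ∃ A n, A.Countable ∧ s = E A n}
  nonempty := ⟨_, ∅, 0, countable_empty, rfl⟩
  inter_sets := by
    rintro _ _ ⟨A, n, hA, rfl⟩ ⟨B, m, hB, rfl⟩
    exact ⟨_, ⟨A ∪ B, max n m, hA.union hB, rfl⟩, subset_inter
      (E_mono subset_union_left (le_max_left _ _)) (E_mono subset_union_right (le_max_right _ _))⟩

instance : UniformSpace X := UniformSpace.ofCore (UniformSpace.Core.mkOfBasis bs
  (by rintro _ ⟨A, n, -, rfl⟩ x; exact Or.inl rfl)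
  (by
    rintro _ ⟨A, n, hA, rfl⟩
    exact ⟨_, ⟨A, n, hA, rfl⟩, fun p hp => hp.imp Eq.symm And.symm⟩)
  (by
    rintro _ ⟨A, n, hA, rfl⟩
    refine ⟨_, ⟨A, n, hA, rfl⟩, ?_⟩
    rintro ⟨x, z⟩ ⟨y, h1 | h1, h2 | h2⟩
    · exact Or.inl (h1.trans h2)
    · exact Or.inr ⟨(show x = y from h1) ▸ h2.1, h2.2⟩
    · exact Or.inr ⟨h1.1, (show y = z from h2) ▸ h1.2⟩
    · exact Or.inr ⟨h1.1, h2.2⟩))

lemma mem_unif {U : Set (X × X)} : U ∈ uniformity X ↔ ∃ A n, A.Countable ∧ E A n ⊆ U := by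
  constructor
  · rintro ⟨_, ⟨A, n, hA, rfl⟩, h⟩
    exact ⟨A, n, hA, h⟩
  · rintro ⟨A, n, hA, h⟩
    exact ⟨_, ⟨A, n, hA, rfl⟩, h⟩

lemma t2 : T2Space X := by
  have : T0Space X := by
    rw [t0Space_iff_uniformity]
    intro x y h
    by_contra hne
    have key : ∀ x : X, x ≠ none → ∃ A n, A.Countable ∧ ¬ T A n x := by
      rintro (_ | i | m) hx
      · exact (hx rfl).elim
      · exact ⟨{i}, 0, countable_singleton i, fun h => h rfl⟩
      · exact ⟨∅, m + 1, countable_empty, fun h : m + 1 ≤ m => by omega⟩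
    by_cases hx : x = none
    · obtain ⟨A, n, hA, hT⟩ := key y (fun hy => hne (hx.trans hy.symm))
      exact (h _ (mem_unif.2 ⟨A, n, hA, subset_rfl⟩)).elim hne fun q => hT q.2
    · obtain ⟨A, n, hA, hT⟩ := key x hx
      exact (h _ (mem_unif.2 ⟨A, n, hA, subset_rfl⟩)).elim hne fun q => hT q.1
  infer_instance

lemma narrow : Narrow X := by
  intro U hU
  obtain ⟨A, n, hA, h⟩ := mem_unif.1 hU
  refine ⟨insert none ((fun i => some (.inl i)) '' A ∪ range fun m => some (.inr m)),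
    ((hA.image _).union (countable_range _)).insert _, ?_⟩
  rintro (_ | i | m)
  · exact ⟨none, Or.inl rfl, h (Or.inl rfl)⟩
  · by_cases hi : i ∈ A
    · exact ⟨_, Or.inr (Or.inl ⟨i, hi, rfl⟩), h (Or.inl rfl)⟩
    · exact ⟨none, Or.inl rfl, h (Or.inr ⟨trivial, hi⟩)⟩
  · exact ⟨_, Or.inr (Or.inr ⟨m, rfl⟩), h (Or.inl rfl)⟩

/-- the test words -/
def w (i : ℝ) (n : ℕ) : FreeGroup X :=
  FreeGroup.of (α := X) (some (.inl i)) * (FreeGroup.of (α := X) (some (.inr n)) *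
    (FreeGroup.of (α := X) none)⁻¹) * (FreeGroup.of (α := X) (some (.inl i)))⁻¹

lemma w_ev {t : TopologicalSpace (FreeGroup X)} (ht : Adm X t) (i : ℝ) {V : Set (FreeGroup X)}
    (hV : V ∈ @nhds _ t 1) : ∃ M, ∀ n ≥ M, w i n ∈ V := by
  have := ht.1
  have hc : Continuous fun x : FreeGroup X => FreeGroup.of (α := X) (some (.inl i)) * x *
    (FreeGroup.of (α := X) (some (.inl i)))⁻¹ := by fun_prop
  have h1 := hc.continuousAt (x := 1) (by simpa using hV)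
  obtain ⟨A, n, -, h⟩ := mem_unif.1 (ht.2 _ h1)
  exact ⟨n, fun m hm => (h (show ((some (.inr m), none) : X × X) ∈ E A n from
    Or.inr ⟨hm, trivial⟩)).2⟩

def sh (k : ℤ) : Equiv.Perm (ℤ × ℕ) := (Equiv.addRight k).prodCongr (Equiv.refl ℕ)

open Classical in
noncomputable def gen (A : Set ℝ) (e : ℝ → ℕ) : X → Equiv.Perm (ℤ × ℕ)
  | none => 1
  | some (.inl i) => if i ∈ A then sh (e i) else 1
  | some (.inr m) => Equiv.swap (0, m) (0, m + 1)

def Col : Subgroup (Equiv.Perm (ℤ × ℕ)) where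
  carrier := {σ | ∃ k : ℤ, ∀ x, (σ x).1 = x.1 + k}
  one_mem' := ⟨0, by simp⟩
  mul_mem' := by
    rintro a b ⟨k, hk⟩ ⟨l, hl⟩
    exact ⟨l + k, fun x => by rw [Equiv.Perm.mul_apply, hk, hl, add_assoc]⟩
  inv_mem' := by
    rintro a ⟨k, hk⟩
    refine ⟨-k, fun x => ?_⟩
    have := hk (a⁻¹ x)
    simp only [Equiv.Perm.coe_inv, Equiv.apply_symm_apply] at this ⊢
    omega

lemma lift_col (A : Set ℝ) (e : ℝ → ℕ) (g : FreeGroup X) : FreeGroup.lift (gen A e) g ∈ Col := by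
  refine FreeGroup.range_lift_le (f := gen A e) (s := Col) ?_ ⟨g, rfl⟩
  rintro _ ⟨_ | i | m, rfl⟩
  · exact Col.one_mem
  · by_cases hi : i ∈ A
    · exact ⟨e i, fun x => by simp [gen, hi, sh]⟩
    · simp [gen, hi, Col.one_mem]
  · refine ⟨0, fun x => ?_⟩
    simp only [gen, Equiv.swap_apply_def]
    split_ifs with h1 h2
    · simp [h1]
    · simp [h2]
    · simp

def J (D : Set (ℤ × ℕ)) : Prop := ∀ k, {x ∈ D | x.1 = k}.Finite

def St (A : Set ℝ) (e : ℝ → ℕ) (D : Set (ℤ × ℕ)) : Set (FreeGroup X) :=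
  {g | ∀ x ∈ D, FreeGroup.lift (gen A e) g x = x}

lemma St_inv {A e D} {g : FreeGroup X} (h : g ∈ St A e D) : g⁻¹ ∈ St A e D := fun x hx => by
  rw [map_inv, Equiv.Perm.inv_eq_iff_eq, h x hx]

lemma St_mul {A e D} {g g' : FreeGroup X} (h : g ∈ St A e D) (h' : g' ∈ St A e D) :
    g * g' ∈ St A e D := fun x hx => by
  rw [map_mul, Equiv.Perm.mul_apply, h' x hx, h x hx]

@[instance_reducible]
def gb (A : Set ℝ) (e : ℝ → ℕ) : GroupFilterBasis (FreeGroup X) where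
  sets := {s | ∃ D, J D ∧ s = St A e D}
  nonempty := ⟨_, ∅, fun k => by simp, rfl⟩
  inter_sets := by
    rintro _ _ ⟨D, hD, rfl⟩ ⟨D', hD', rfl⟩
    refine ⟨_, ⟨D ∪ D', fun k => ((hD k).union (hD' k)).subset ?_, rfl⟩,
      fun g hg => ⟨fun x hx => hg x (Or.inl hx), fun x hx => hg x (Or.inr hx)⟩⟩
    rintro x ⟨h | h, h'⟩
    · exact Or.inl ⟨h, h'⟩
    · exact Or.inr ⟨h, h'⟩
  one' := by
    rintro _ ⟨D, hD, rfl⟩ x _
    simp
  mul' := by
    rintro _ ⟨D, hD, rfl⟩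
    refine ⟨_, ⟨D, hD, rfl⟩, ?_⟩
    rintro _ ⟨a, ha, b, hb, rfl⟩
    exact St_mul ha hb
  inv' := by
    rintro _ ⟨D, hD, rfl⟩
    exact ⟨_, ⟨D, hD, rfl⟩, fun g hg => St_inv hg⟩
  conj' := by
    rintro g₀ _ ⟨D, hD, rfl⟩
    obtain ⟨k, hk⟩ := lift_col A e g₀⁻¹
    refine ⟨_, ⟨FreeGroup.lift (gen A e) g₀⁻¹ '' D, fun l => ?_, rfl⟩, fun g hg x hx => ?_⟩
    · refine ((hD (l - k)).image (FreeGroup.lift (gen A e) g₀⁻¹)).subset ?_
      rintro _ ⟨⟨x, hx, rfl⟩, h⟩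
      refine ⟨x, ⟨hx, ?_⟩, rfl⟩
      rw [hk] at h
      omega
    · rw [map_mul, map_mul, Equiv.Perm.mul_apply, Equiv.Perm.mul_apply, hg _ ⟨x, hx, rfl⟩, map_inv]
      simp

lemma gb_adm {A : Set ℝ} (hA : A.Countable) (e : ℝ → ℕ) : Adm X (gb A e).topology := by
  refine ⟨(gb A e).isTopologicalGroup, fun V hV => ?_⟩
  obtain ⟨_, ⟨D, hD, rfl⟩, hs⟩ := (gb A e).nhds_one_hasBasis.mem_iff.1 hV
  obtain ⟨N, hN⟩ := ((hD 0).image Prod.snd).bddAbove
  have key : ∀ x : X, T A (N + 1) x → FreeGroup.of x ∈ St A e D := by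
    rintro (_ | i | m) hx y hy
    · simp [gen]
    · have : i ∉ A := hx
      simp [gen, this]
    · have hm : N + 1 ≤ m := hx
      rw [FreeGroup.lift_apply_of]
      refine Equiv.swap_apply_of_ne_of_ne ?_ ?_ <;> rintro rfl
      · have := hN ⟨_, ⟨hy, rfl⟩, rfl⟩
        simp at this; omega
      · have := hN ⟨_, ⟨hy, rfl⟩, rfl⟩
        simp at this; omega
  refine mem_unif.2 ⟨A, N + 1, hA, ?_⟩
  rintro ⟨x, y⟩ (h | h)
  · have : x = y := h
    subst this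
    have : (1 : FreeGroup X) ∈ V := hs fun x _ => by simp
    simpa using this
  · exact ⟨hs (St_mul (St_inv (key _ h.1)) (key _ h.2)), hs (St_mul (key _ h.1) (St_inv (key _ h.2)))⟩

lemma sep {t : TopologicalSpace (FreeGroup X)} (ht : IsFreeTop X t) {A : Set ℝ} (hA : A.Countable)
    (e : ℝ → ℕ) : ∃ V ∈ @nhds _ t 1, ∀ i ∈ A, w i (e i) ∉ V := by
  have hJ : J {x | x.1 = (x.2 : ℤ)} := fun k => (finite_singleton (k, k.toNat)).subset (by
    rintro ⟨a, b⟩ ⟨h1, h2⟩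
    simp only [mem_ofPred_eq] at h1 h2
    simp only [mem_singleton_iff, Prod.mk.injEq]
    omega)
  refine ⟨St A e {x | x.1 = (x.2 : ℤ)}, ?_, fun i hi h => ?_⟩
  · exact nhds_mono (t₂ := (gb A e).topology) (ht.2 _ (gb_adm hA e))
      ((gb A e).mem_nhds_one ⟨_, hJ, rfl⟩)
  · have := h ((e i : ℤ), e i) rfl
    simp only [w, map_mul, map_inv, FreeGroup.lift_apply_of] at this
    simp [gen, hi, sh, Equiv.Perm.mul_apply, Equiv.Perm.inv_def] at this

theorem not_le {t : TopologicalSpace (FreeGroup X)} (ht : IsFreeTop X t) :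
    ¬ TukeyLE (revIncl (@nhds _ t 1)) (seqLE (revIncl (uniformity X))) := by
  rintro ⟨f, hf⟩
  let Q := ℕ → {s // s ∈ uniformity X}
  let le : Q → Q → Prop := seqLE (revIncl (uniformity X))
  have conv : ∀ V : {s // s ∈ @nhds _ t 1}, ∃ q₀, ∀ q, le q₀ q → (f q).1 ⊆ V.1 := by
    intro V
    by_contra hc
    push Not at hc
    obtain ⟨_, ⟨q, hq, rfl⟩, h⟩ := hf {q | ¬ (f q).1 ⊆ V.1} (fun p => by
      obtain ⟨q, h1, h2⟩ := hc p
      exact ⟨q, h2, h1⟩) V
    exact hq h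
  let P : ℝ → Q → ℕ → Prop := fun i q M => ∃ q', le q q' ∧ ∀ n ≥ M, w i n ∈ (f q').1
  have Pm : ∀ i q q' M, le q q' → P i q' M → P i q M := fun i q q' M h ⟨r, h1, h2⟩ =>
    ⟨r, fun n => (h1 n).trans (h n), h2⟩
  have Pn : ∀ i q M M', M ≤ M' → P i q M → P i q M' := fun i q M M' h ⟨r, h1, h2⟩ =>
    ⟨r, h1, fun n hn => h2 n (h.trans hn)⟩
  have Pe : ∀ i q, ∃ M, P i q M := fun i q => by
    obtain ⟨M, hM⟩ := w_ev ht.1 i (f q).2
    exact ⟨M, q, fun n => subset_rfl, hM⟩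
  let q : {A : Set ℝ // A.Countable} → (ℕ → ℕ) → Q := fun A h n =>
    ⟨E A.1 (h n), mem_unif.2 ⟨_, _, A.2, subset_rfl⟩⟩
  let S : (Σ n, Fin n → ℕ) × ℕ → Set ℝ := fun c =>
    {i | ∀ A h, (∀ j : Fin c.1.1, h j ≤ c.1.2 j) → P i (q A h) c.2}
  have c1 : ∀ (h : ℕ → ℕ) i, ∃ n, i ∈ S (⟨n, fun j => h j⟩, n) := by
    intro h i
    by_contra hc
    simp only [S, mem_ofPred_eq, not_exists, not_forall] at hc
    choose A g hg hP using hc
    let H : ℕ → ℕ := fun j => max (h j) ((Finset.range (j + 1)).sup fun n => g n j)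
    obtain ⟨M, hM⟩ := Pe i (q ⟨⋃ n, (A n).1, countable_iUnion fun n => (A n).2⟩ H)
    refine hP M (Pm _ _ _ _ (fun j => ?_) hM)
    refine E_mono (subset_iUnion (fun n => (A n).1) M) (?_ : g M j ≤ H j)
    by_cases hj : j < M
    · exact (hg M ⟨j, hj⟩).trans (le_max_left _ _)
    · exact (Finset.le_sup (f := fun n => g n j) (Finset.mem_range.2 (by omega))).trans
        (le_max_right _ _)
  have c2 : ∀ c, ∃ C : Set ℝ, C ⊆ S c ∧ C.Countable ∧ ((S c).Infinite → C.Infinite) := fun c => by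
    by_cases h : (S c).Infinite
    · obtain ⟨C, h1, h2, h3⟩ := h.exists_subset_countable_infinite
      exact ⟨C, h1, h2, fun _ => h3⟩
    · exact ⟨∅, empty_subset _, countable_empty, fun h' => (h h').elim⟩
  choose C C1 C2 C3 using c2
  have hA : (⋃ c, C c).Countable := countable_iUnion C2
  obtain ⟨e, he⟩ := countable_iff_exists_injOn.1 hA
  obtain ⟨V, hV, hw⟩ := sep ht hA e
  obtain ⟨q₀, hq₀⟩ := conv ⟨V, hV⟩
  choose B h hB hE using fun n => mem_unif.1 (q₀ n).2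
  have hle : le q₀ (q ⟨⋃ n, B n, countable_iUnion hB⟩ h) := fun n =>
    (E_mono (subset_iUnion B n) le_rfl).trans (hE n)
  obtain ⟨n, hn⟩ : ∃ n, (S (⟨n, fun j => h j⟩, n)).Infinite := by
    by_contra hc
    push Not at hc
    exact Cardinal.not_countable_real ((countable_iUnion fun n => (hc n).countable).mono
      fun i _ => mem_iUnion.2 (c1 h i))
  obtain ⟨i, hi, hle'⟩ : ∃ i ∈ C (⟨n, fun j => h j⟩, n), n ≤ e i := by
    by_contra hc
    push Not at hc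
    exact C3 _ hn (Finite.of_injOn (f := e) (t := Iio n) hc (he.mono (subset_iUnion C _))
      (finite_Iio n))
  obtain ⟨q', h1, h2⟩ := Pm _ _ _ _ hle (C1 _ hi _ h fun j => le_rfl)
  exact hw i (mem_iUnion.2 ⟨_, hi⟩) (hq₀ q' h1 (h2 _ hle'))

end Pool.Agent.H84.Tuk
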