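import Mathlib

set_option autoImplicit false

namespace Pool.Agent.H84.UqDefs

/-- Gromov-Hausdorff distance of arbitrary metric spaces, with values in `[0, ∞]` -/
noncomputable def ghE (X Y : Type) [MetricSpace X] [MetricSpace Y] : ENNReal :=
  ⨅ (Z : Type) (_ : MetricSpace Z) (f : X → Z) (g : Y → Z) (_ : Isometry f) (_ : Isometry g),
    Metric.hausdorffEDist (Set.range f) (Set.range g)

/-- the distance set -/
def distSet (X : Type) [MetricSpace X] : Set ℝ := {r | ∃ x y : X, r = dist x y}

end Pool.Agent.H84.UqDefs
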