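import Mathlib
import Pool.Agent.H84.UqDefs

set_option autoImplicit false

namespace Pool.Agent.H84.UqEx

open UqDefs Set Metric Filter Topology

noncomputable def w (s k n : ℕ) : ℝ := if k = n + s then 1 / ((n : ℝ) + 2) else 0

theorem w0 (s k n : ℕ) : 0 ≤ w s k n := by unfold w; split_ifs <;> positivity

theorem w1 (s k n : ℕ) : w s k n ≤ 1 / ((n : ℝ) + 2) := by
  unfold w; split_ifs
  · rfl
  · positivity

theorem w2 (s k n : ℕ) : w s k n ≤ 1 / 2 := (w1 s k n).trans (by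
  gcongr; linarith [(Nat.cast_nonneg n : (0 : ℝ) ≤ n)])

noncomputable def d (s : ℕ) : ℕ ⊕ ℕ → ℕ ⊕ ℕ → ℝ
  | .inl k, .inl j => if k = j then 0 else 1
  | .inl k, .inr n => n + 2 + w s k n
  | .inr n, .inl k => n + 2 + w s k n
  | .inr n, .inr m => if n = m then 0 else n + m + 4

def X (_ : ℕ) : Type := ℕ ⊕ ℕ

noncomputable instance (s : ℕ) : MetricSpace (X s) where
  dist := d s
  dist_self := by rintro (k | k) <;> simp [d]
  dist_comm := by rintro (k | k) (j | j) <;> simp [d, eq_comm, add_comm]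
  dist_triangle := by
    rintro (k | k) (j | j) (l | l) <;> simp only [d] <;>
      have := (Nat.cast_nonneg k : (0 : ℝ) ≤ k) <;> have := (Nat.cast_nonneg j : (0 : ℝ) ≤ j) <;>
      have := (Nat.cast_nonneg l : (0 : ℝ) ≤ l)
    · split_ifs <;> first | linarith | omega
    · split_ifs with h
      · subst h; linarith
      · linarith [w0 s j l, w2 s k l]
    · split_ifs <;> linarith [w0 s k j, w0 s l j]
    · split_ifs with h
      · subst h; linarith
      · linarith [w0 s k j, w2 s k l]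
    · split_ifs with h
      · subst h; linarith
      · linarith [w0 s j k, w2 s l k]
    · split_ifs <;> linarith [w0 s j k, w0 s j l]
    · split_ifs with h
      · subst h; linarith
      · linarith [w0 s l j, w2 s l k]
    · split_ifs <;> first | linarith | omega | (subst_vars; linarith)
  eq_of_dist_eq_zero := by
    rintro (k | k) (j | j) <;> simp only [d] <;>
      have := (Nat.cast_nonneg k : (0 : ℝ) ≤ k) <;> have := (Nat.cast_nonneg j : (0 : ℝ) ≤ j) <;>
      intro h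
    · split_ifs at h with h'
      · rw [h']
      · norm_num at h
    · linarith [w0 s k j]
    · linarith [w0 s j k]
    · split_ifs at h with h'
      · rw [h']
      · linarith

theorem dX (s : ℕ) (a b : X s) : dist a b = d s a b := rfl

theorem fin (R : ℝ) : (distSet (X 0) ∩ Iio R).Finite := by
  obtain ⟨M, hM⟩ := exists_nat_gt R
  refine (((finite_Iio M).image fun n : ℕ => (n : ℝ)).union
    ((finite_Iio M).image fun n : ℕ => (n : ℝ) + 2 + 1 / ((n : ℝ) + 2))).subset ?_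
  have k1 : ∀ n : ℕ, (n : ℝ) < R → (n : ℝ) ∈ (fun n : ℕ => (n : ℝ)) '' Iio M := fun n hn =>
    ⟨n, by exact_mod_cast hn.trans hM, rfl⟩
  have k2 : ∀ k n : ℕ, (n : ℝ) + 2 + w 0 k n < R → (n : ℝ) + 2 + w 0 k n ∈
      (fun n : ℕ => (n : ℝ)) '' Iio M ∪ (fun n : ℕ => (n : ℝ) + 2 + 1 / ((n : ℝ) + 2)) '' Iio M := by
    intro k n h
    have h0 := w0 0 k n
    unfold w at h h0 ⊢
    split_ifs at h h0 ⊢
    · exact Or.inr ⟨n, by exact_mod_cast (by linarith : (n : ℝ) < M), rfl⟩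
    · left; have := k1 (n + 2) (by push_cast; linarith)
      simpa using this
  rintro _ ⟨⟨k | k, j | j, rfl⟩, h⟩ <;> simp only [dX, d, mem_Iio] at h ⊢
  · split_ifs at h ⊢
    · left; simpa using k1 0 (by simpa using h)
    · left; simpa using k1 1 (by simpa using h)
  · exact k2 _ _ h
  · exact k2 _ _ h
  · split_ifs at h ⊢
    · left; simpa using k1 0 (by simpa using h)
    · left; simpa using k1 (k + j + 4) (by simpa using h)

theorem cd : IsClosed (distSet (X 0)) ∧ IsDiscrete (distSet (X 0)) := by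
  rw [isClosed_and_discrete_iff]
  intro x
  rw [disjoint_principal_right, mem_nhdsWithin_iff_eventually]
  have h1 : ((distSet (X 0) ∩ Iio (x + 1)) \ {x})ᶜ ∈ 𝓝 x :=
    ((fin (x + 1)).sdiff.isClosed.isOpen_compl).mem_nhds (by simp)
  filter_upwards [h1, Iio_mem_nhds (lt_add_one x)] with y hy hy' hyx hS
  exact hy ⟨⟨hS, hy'⟩, hyx⟩

theorem notint (n : ℕ) (m : ℕ) : (n : ℝ) + 2 + 1 / ((n : ℝ) + 2) ≠ m := by
  intro h
  have h0 : (0 : ℝ) < 1 / ((n : ℝ) + 2) := by positivity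
  have h1 : 1 / ((n : ℝ) + 2) ≤ 1 / 2 := by
    gcongr; linarith [(Nat.cast_nonneg n : (0 : ℝ) ≤ n)]
  have h2 : n + 2 < m := by exact_mod_cast (by linarith : (n : ℝ) + 2 < m)
  have h3 : m < n + 3 := by exact_mod_cast (by linarith : (m : ℝ) < n + 3)
  omega

theorem noIso : IsEmpty (X 0 ≃ᵢ X 1) := by
  refine ⟨fun e => ?_⟩
  let o : X 1 := Sum.inl 0
  have h1 : ∀ y : X 1, ∃ m : ℕ, dist o y = m := by
    rintro (k | k) <;> simp only [o, dX, d]
    · split_ifs
      · exact ⟨0, by simp⟩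
      · exact ⟨1, by simp⟩
    · exact ⟨k + 2, by simp [w]⟩
  have h2 : ∀ x : X 0, ∃ y : X 0, ∃ n : ℕ, dist x y = n + 2 + 1 / ((n : ℝ) + 2) := by
    rintro (k | k)
    · exact ⟨.inr k, k, by simp [dX, d, w]⟩
    · exact ⟨.inl k, k, by simp [dX, d, w]⟩
  obtain ⟨y, n, h⟩ := h2 (e.symm o)
  obtain ⟨m, hm⟩ := h1 (e y)
  rw [← e.dist_eq, e.apply_symm_apply, hm] at h
  exact notint n m h.symm

def σ (N k : ℕ) : ℕ := if k < N then k + 1 else if k = N then 0 else k

theorem σ_inj (N k j : ℕ) : σ N k = σ N j ↔ k = j := by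
  unfold σ; constructor
  · split_ifs <;> intro h <;> first | omega | (exfalso; omega)
  · rintro rfl; rfl

theorem σ_surj (N j : ℕ) : ∃ k, σ N k = j := by
  by_cases h : j = 0
  · exact ⟨N, by simp [σ, h]⟩
  by_cases h' : j ≤ N
  · exact ⟨j - 1, by unfold σ; split_ifs <;> omega⟩
  · exact ⟨j, by unfold σ; split_ifs <;> omega⟩

theorem wσ (N k n : ℕ) : |w 0 k n - w 1 (σ N k) n| ≤ 1 / ((N : ℝ) + 1) := by
  by_cases h : n + 1 < N
  · have : w 0 k n = w 1 (σ N k) n := by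
      have : k = n + 0 ↔ σ N k = n + 1 := by
        rw [← σ_inj N]; unfold σ; rw [if_pos (show n + 0 < N by omega)]
      simp only [w, this]
    rw [this, sub_self, abs_zero]; positivity
  · have h1 : (N : ℝ) ≤ n + 1 := by exact_mod_cast not_lt.1 h
    have h2 : 1 / ((n : ℝ) + 2) ≤ 1 / ((N : ℝ) + 1) := one_div_le_one_div_of_le (by positivity) (by linarith)
    rw [abs_le]; constructor <;>
      linarith [w0 0 k n, w1 0 k n, w0 1 (σ N k) n, w1 1 (σ N k) n]

def Ψ (N : ℕ) : X 0 → X 1 := Sum.map (σ N) id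

theorem dΨ (N : ℕ) (p q : X 0) : |dist p q - dist (Ψ N p) (Ψ N q)| ≤ 2 * (1 / ((N : ℝ) + 1)) := by
  have h0 : (0 : ℝ) < 1 / ((N : ℝ) + 1) := by positivity
  rcases p with k | k <;> rcases q with j | j <;>
    simp only [dX, d, Ψ, Sum.map_inl, Sum.map_inr, id, σ_inj, sub_self, abs_zero,
      add_sub_add_left_eq_sub]
  · positivity
  · linarith [wσ N k j]
  · linarith [wσ N j k]
  · positivity

theorem gh0 : ghE (X 0) (X 1) = 0 := by
  refine le_antisymm (ENNReal.le_of_forall_pos_le_add fun ε hε _ => ?_) zero_le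
  obtain ⟨N, hN⟩ := exists_nat_one_div_lt (NNReal.coe_pos.2 hε)
  have : Nonempty (X 0) := ⟨.inl 0⟩
  let m : MetricSpace (X 0 ⊕ X 1) :=
    glueMetricApprox id (Ψ N) (1 / ((N : ℝ) + 1)) (by positivity) (dΨ N)
  have Il : Isometry (Sum.inl : X 0 → X 0 ⊕ X 1) := Isometry.of_dist_eq fun x y => rfl
  have Ir : Isometry (Sum.inr : X 1 → X 0 ⊕ X 1) := Isometry.of_dist_eq fun x y => rfl
  unfold ghE
  refine iInf_le_of_le (X 0 ⊕ X 1) ?_
  refine iInf_le_of_le m ?_
  refine iInf_le_of_le Sum.inl ?_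
  refine iInf_le_of_le Sum.inr ?_
  refine iInf_le_of_le Il ?_
  refine iInf_le_of_le Ir ?_
  have key : ∀ p : X 0, edist (Sum.inl p : X 0 ⊕ X 1) (Sum.inr (Ψ N p)) ≤ ε := fun p => by
    have : dist (Sum.inl p : X 0 ⊕ X 1) (Sum.inr (Ψ N p)) = 1 / ((N : ℝ) + 1) :=
      glueDist_glued_points id (Ψ N) _ p
    rw [edist_dist, this, ENNReal.ofReal_le_coe]
    exact hN.le
  rw [zero_add]
  refine hausdorffEDist_le_of_mem_edist ?_ ?_
  · rintro _ ⟨p, rfl⟩; exact ⟨_, ⟨_, rfl⟩, key p⟩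
  · rintro _ ⟨q, rfl⟩
    obtain ⟨p, rfl⟩ : ∃ p, Ψ N p = q := by
      rcases q with j | j
      · obtain ⟨k, rfl⟩ := σ_surj N j; exact ⟨.inl k, rfl⟩
      · exact ⟨.inr j, rfl⟩
    exact ⟨_, ⟨p, rfl⟩, by rw [edist_comm]; exact key p⟩

end Pool.Agent.H84.UqEx
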