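import Mathlib
import Pool.Agent.H84.Smyth

set_option autoImplicit false

namespace Pool.Agent.H84.Viet

open Set Topology Filter Pool.Agent.H84.PowDefs Pool.Agent.H84.Smyth

/-- the points of the example -/
inductive X : Type
  | c : unitInterval → X
  | d : unitInterval → ℕ → X

open X

/-- projection -/
def p : X → unitInterval
  | c x => x
  | d x _ => x

/-- basic neighbourhoods -/
def V (x : unitInterval) (ε : ℝ) : Set X := {z | dist (p z) x < ε ∧ ∀ n, z ≠ d x n}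

theorem V_mono (x : unitInterval) {ε δ : ℝ} (h : ε ≤ δ) : V x ε ⊆ V x δ :=
  fun _ hz => ⟨hz.1.trans_le h, hz.2⟩

instance : TopologicalSpace X where
  IsOpen U := ∀ x, c x ∈ U → ∃ ε > 0, V x ε ⊆ U
  isOpen_univ := fun _ _ => ⟨1, one_pos, subset_univ _⟩
  isOpen_inter := by
    intro s t hs ht x hx
    obtain ⟨ε, h1, h2⟩ := hs x hx.1
    obtain ⟨δ, h3, h4⟩ := ht x hx.2
    exact ⟨min ε δ, lt_min h1 h3, subset_inter ((V_mono x (min_le_left _ _)).trans h2)
      ((V_mono x (min_le_right _ _)).trans h4)⟩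
  isOpen_sUnion := by
    rintro S hS x ⟨t, ht, hx⟩
    obtain ⟨ε, h1, h2⟩ := hS t ht x hx
    exact ⟨ε, h1, h2.trans (subset_sUnion_of_mem ht)⟩

theorem mem_V {x : unitInterval} {ε : ℝ} (h : 0 < ε) : c x ∈ V x ε :=
  ⟨by simpa [p] using h, fun _ h => nomatch h⟩

theorem isOpen_V (x : unitInterval) (ε : ℝ) : IsOpen (V x ε) := by
  intro y hy
  by_cases h : y = x
  · subst h
    exact ⟨ε, lt_of_le_of_lt dist_nonneg hy.1, Subset.rfl⟩
  · have h1 : dist y x < ε := hy.1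
    refine ⟨min (ε - dist y x) (dist y x), lt_min (sub_pos.2 h1) (dist_pos.2 h), fun z hz => ?_⟩
    have h2 := hz.1.trans_le (min_le_left _ _)
    have h3 := hz.1.trans_le (min_le_right _ _)
    refine ⟨by linarith [dist_triangle (p z) y x], ?_⟩
    rintro n rfl
    simp only [p, dist_comm] at h3
    exact lt_irrefl _ h3

theorem isOpen_d (x : unitInterval) (n : ℕ) : IsOpen ({d x n} : Set X) :=
  fun _ h => nomatch h

theorem isOpen_off (x : unitInterval) (S : Set X) (hS : ∀ z, (∀ n, z ≠ d x n) → z ∈ S) :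
    IsOpen S := by
  intro y _
  by_cases h : y = x
  · subst h; exact ⟨1, one_pos, fun z hz => hS z hz.2⟩
  · refine ⟨dist y x, dist_pos.2 h, fun z hz => hS z ?_⟩
    rintro n rfl
    have h3 := hz.1
    simp only [p, dist_comm] at h3
    exact lt_irrefl _ h3

theorem continuous_p : Continuous p := by
  refine ⟨fun U hU x hx => ?_⟩
  obtain ⟨ε, h1, h2⟩ := Metric.isOpen_iff.1 hU x hx
  exact ⟨ε, h1, fun z hz => h2 hz.1⟩

theorem continuous_c : Continuous c := by
  refine ⟨fun U hU => Metric.isOpen_iff.2 fun x hx => ?_⟩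
  obtain ⟨ε, h1, h2⟩ := hU x hx
  exact ⟨ε, h1, fun y hy => h2 ⟨hy, fun _ h => nomatch h⟩⟩

instance : T2Space X := by
  refine ⟨fun z w hzw => ?_⟩
  by_cases h : p z = p w
  · have key : ∀ x n (w : X), w ≠ d x n → ∃ u v : Set X, IsOpen u ∧ IsOpen v ∧ d x n ∈ u ∧ w ∈ v ∧
        Disjoint u v := fun x n w hw =>
      ⟨{d x n}, {d x n}ᶜ, isOpen_d x n, isOpen_off x _ fun z hz => hz n, rfl, hw,
        disjoint_compl_right⟩
    rcases z with x | ⟨x, n⟩
    · rcases w with y | ⟨y, m⟩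
      · exact absurd (congrArg c h) hzw
      · obtain ⟨u, v, h1, h2, h3, h4, h5⟩ := key y m _ hzw
        exact ⟨v, u, h2, h1, h4, h3, h5.symm⟩
    · exact key x n w hzw.symm
  · exact separated_by_continuous continuous_p h

instance : FirstCountableTopology X := by
  refine ⟨fun z => ?_⟩
  rcases z with x | ⟨x, n⟩
  · have : (𝓝 (c x)).HasBasis (fun _ : ℕ => True) fun n => V x (1 / ((n : ℝ) + 1)) := by
      refine ⟨fun t => ⟨fun ht => ?_, fun ⟨n, _, h⟩ => mem_of_superset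
        ((isOpen_V x _).mem_nhds (mem_V Nat.one_div_pos_of_nat)) h⟩⟩
      obtain ⟨u, h1, h2, h3⟩ := mem_nhds_iff.1 ht
      obtain ⟨ε, h4, h5⟩ := h2 x h3
      obtain ⟨n, hn⟩ := exists_nat_one_div_lt h4
      exact ⟨n, trivial, ((V_mono x hn.le).trans h5).trans h1⟩
    exact this.isCountablyGenerated
  · rw [(isOpen_singleton_iff_nhds_eq_pure _).1 (isOpen_d x n)]
    infer_instance

theorem exists_finite {U : Set X} (hU : IsOpen U) (h : range c ⊆ U) :
    ∃ F : Finset unitInterval, ∀ x ∉ F, ∀ n, d x n ∈ U := by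
  have h1 : ∀ x, ∃ ε > 0, V x ε ⊆ U := fun x => hU x (h ⟨x, rfl⟩)
  choose ε hε hV using h1
  obtain ⟨t, ht⟩ := isCompact_univ.elim_finite_subcover (fun x => Metric.ball x (ε x))
    (fun x => Metric.isOpen_ball) fun x _ => mem_iUnion.2 ⟨x, Metric.mem_ball_self (hε x)⟩
  refine ⟨t, fun y hy n => ?_⟩
  obtain ⟨x, hx, h2⟩ := mem_iUnion₂.1 (ht (mem_univ y))
  refine hV x ⟨h2, fun m hm => hy ?_⟩
  cases hm; exact hx

theorem isCompact_c : IsCompact (range c) := isCompact_range continuous_c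

theorem isCompact_of {L : Set X} (h1 : range c ⊆ L) (h2 : ∀ x, {n | d x n ∈ L}.Finite) :
    IsCompact L := by
  classical
  refine isCompact_of_finite_subcover fun U hU hc => ?_
  obtain ⟨t, ht⟩ := isCompact_c.elim_finite_subcover U hU (h1.trans hc)
  obtain ⟨F, hF⟩ := exists_finite (isOpen_biUnion fun i _ => hU i) ht
  have h3 : (⋃ x ∈ F, d x '' {n | d x n ∈ L}).Finite :=
    F.finite_toSet.biUnion fun x _ => (h2 x).image _
  obtain ⟨s, hs⟩ := h3.isCompact.elim_finite_subcover U hU (Subset.trans (by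
    intro z hz
    obtain ⟨x, _, n, hn, rfl⟩ := mem_iUnion₂.1 hz
    exact hn) hc)
  refine ⟨t ∪ s, fun z hz => ?_⟩
  rw [Finset.set_biUnion_union]
  rcases z with x | ⟨x, n⟩
  · exact Or.inl (ht ⟨x, rfl⟩)
  · by_cases hx : x ∈ F
    · exact Or.inr (hs (mem_iUnion₂.2 ⟨x, hx, n, hz, rfl⟩))
    · exact Or.inl (hF x hx n)

theorem fibre_bdd {L : Set X} (hL : IsCompact L) (x : unitInterval) :
    ∃ N, ∀ n ≥ N, d x n ∉ L := by
  obtain ⟨N, hN⟩ := hL.elim_directed_cover (fun m : ℕ => {z | ∀ n ≥ m, z ≠ d x n})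
    (fun m => isOpen_off x _ fun z hz n _ => hz n)
    (fun z _ => by
      rcases z with y | ⟨y, k⟩
      · exact mem_iUnion.2 ⟨0, fun _ _ h => nomatch h⟩
      · refine mem_iUnion.2 ⟨k + 1, fun n hn h => ?_⟩
        cases h
        exact absurd hn (by simp))
    (Monotone.directed_le fun m n hmn z hz k hk => hz k (hmn.trans hk))
  exact ⟨N, fun n hn h => hN h n hn rfl⟩

theorem exists_infinite {L : Set X} (hL : IsCompact L) :
    ∃ N, {x | ∀ n ≥ N, d x n ∉ L}.Infinite := by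
  by_contra hc
  push Not at hc
  have h1 : (univ : Set unitInterval).Countable :=
    (countable_iUnion fun N => (hc N).countable).mono fun x _ => mem_iUnion.2 (fibre_bdd hL x)
  have h2 : (Icc (0 : ℝ) 1).Countable := by
    have := h1.image Subtype.val
    rwa [image_univ, Subtype.range_coe] at this
  have h3 := Cardinal.le_aleph0_iff_set_countable.2 h2
  rw [Cardinal.mk_Icc_real zero_lt_one] at h3
  exact absurd Cardinal.aleph0_lt_continuum (not_lt.2 h3)

/-- missing points at level `n` -/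
def E (L : Set X) (n : ℕ) : Set unitInterval := {x | d x n ∉ L}

theorem E_anti {L M : Set X} (h : L ⊆ M) (n : ℕ) : E M n ⊆ E L n := fun _ hx hc => hx (h hc)

/-- the Scott-open family -/
def 𝒮 : Set (Smyth X) := {L | ∀ n : ℕ, ¬ (E L.1 n).encard ≤ n}

theorem upper_S (K : Smyth X) (hK : K ∈ 𝒮) (L : Smyth X) (h : L.1 ⊆ K.1) : L ∈ 𝒮 :=
  fun n hn => hK n ((encard_le_encard (E_anti h n)).trans hn)

theorem sat_of_t1 (M : Set X) (x : X) (h : ∀ U : Set X, IsOpen U → M ⊆ U → x ∈ U) : x ∈ M := by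
  by_contra hc
  exact h {x}ᶜ isOpen_compl_singleton (subset_compl_singleton_iff.2 hc) rfl

theorem scott_S (𝒟 : Set (Smyth X)) (hne : 𝒟.Nonempty)
    (hd : DirectedOn (fun A B : Smyth X => B.1 ⊆ A.1) 𝒟) (L : Smyth X)
    (h1 : ∀ K ∈ 𝒟, L.1 ⊆ K.1) (h2 : ∀ M : Smyth X, (∀ K ∈ 𝒟, M.1 ⊆ K.1) → M.1 ⊆ L.1)
    (hL : L ∈ 𝒮) : ∃ K ∈ 𝒟, K ∈ 𝒮 := by
  by_contra hc
  push Not at hc
  obtain ⟨K0, hK0⟩ := hne
  have h3 : (⋂ K ∈ 𝒟, K.1) ⊆ L.1 := h2 ⟨⋂ K ∈ 𝒟, K.1, L.2.1.mono (subset_iInter₂ h1),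
    K0.2.2.1.of_isClosed_subset (isClosed_biInter fun K _ => K.2.2.1.isClosed)
      (biInter_subset_of_mem hK0), sat_of_t1 _⟩ fun K hK => biInter_subset_of_mem hK
  obtain ⟨N, hN⟩ := exists_infinite K0.2.2.1
  have h4 : ∃ n : ℕ, ∀ K ∈ 𝒟, (E K.1 n).encard ≤ n := by
    by_contra h5
    push Not at h5
    obtain ⟨K, hK, h6⟩ := DirectedOn.exists_mem_subset_of_finset_subset_biUnion
      (f := fun K : Smyth X => {n : ℕ | (n : ℕ∞) < (E K.1 n).encard}) ⟨K0, hK0⟩
      (hd.mono' fun A _ B _ h n hn => lt_of_lt_of_le hn (encard_le_encard (E_anti h n)))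
      (s := Finset.range N) fun n _ => by
        obtain ⟨K, hK, h⟩ := h5 n
        exact mem_iUnion₂.2 ⟨K, hK, h⟩
    obtain ⟨M, hM, h7, h8⟩ := hd K hK K0 hK0
    refine hc M hM fun n hn => ?_
    by_cases h9 : n < N
    · exact absurd ((encard_le_encard (E_anti h7 n)).trans hn)
        (not_le.2 (h6 (Finset.mem_coe.2 (Finset.mem_range.2 h9))))
    · have h10 : {x | ∀ n ≥ N, d x n ∉ K0.1} ⊆ E M.1 n :=
        fun x hx => E_anti h8 n (hx n (not_lt.1 h9))
      exact hN (finite_of_encard_le_coe ((encard_le_encard h10).trans hn))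
  obtain ⟨n, hn⟩ := h4
  obtain ⟨T, hT, hT'⟩ := exists_subset_encard_eq
    (show ((n + 1 : ℕ) : ℕ∞) ≤ (E L.1 n).encard from by
      rw [Nat.cast_add_one]; exact Order.add_one_le_of_lt (not_le.1 (hL n)))
  have hTf : T.Finite := finite_of_encard_eq_coe hT'
  obtain ⟨K, hK, h6⟩ := DirectedOn.exists_mem_subset_of_finset_subset_biUnion
    (f := fun K : Smyth X => E K.1 n) ⟨K0, hK0⟩
    (hd.mono' fun A _ B _ h => E_anti h n) (s := hTf.toFinset) fun x hx => by
      have h7 : d x n ∉ ⋂ K ∈ 𝒟, K.1 := fun h => hT (hTf.mem_toFinset.1 hx) (h3 h)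
      simp only [mem_iInter, not_forall] at h7
      obtain ⟨K, hK, h⟩ := h7
      exact mem_iUnion₂.2 ⟨K, hK, h⟩
  rw [hTf.coe_toFinset] at h6
  have h7 := (encard_le_encard h6).trans (hn K hK)
  rw [hT'] at h7
  exact absurd (Nat.cast_le.1 h7) (by simp)

theorem not_open_S : ¬ IsOpen 𝒮 := by
  classical
  intro h
  have h0 : (⟨range c, range_nonempty c, isCompact_c, sat_of_t1 _⟩ : Smyth X) ∈ 𝒮 := by
    intro n hn
    have : E (range c) n = univ := eq_univ_of_forall fun x ⟨_, h⟩ => nomatch h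
    rw [this] at hn
    have : Infinite unitInterval := (Set.Icc_infinite (zero_lt_one' ℝ)).to_subtype
    exact infinite_univ (finite_of_encard_le_coe hn)
  obtain ⟨U, hU, h1, h2⟩ := exists_box h h0
  obtain ⟨F, hF⟩ := exists_finite hU h1
  let L : Set X := range c ∪ (fun x => d x F.card) '' {x | x ∉ F}
  have hL : IsCompact L := isCompact_of subset_union_left fun x =>
    (finite_singleton F.card).subset (by
      rintro n (⟨_, h⟩ | ⟨y, _, h⟩)
      · exact nomatch h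
      · cases h; rfl)
  have h3 : (⟨L, (range_nonempty c).mono subset_union_left, hL, sat_of_t1 _⟩ : Smyth X) ∈ 𝒮 :=
    h2 (union_subset h1 (by rintro _ ⟨x, hx, rfl⟩; exact hF x hx _))
  refine h3 F.card ?_
  rw [← encard_coe_eq_coe_finsetCard]
  refine encard_le_encard fun x hx => ?_
  by_contra hc
  exact hx (Or.inr ⟨x, hc, rfl⟩)

theorem wf_X (𝒦 : Set (Set X)) (hne : 𝒦.Nonempty) (hc : ∀ K ∈ 𝒦, IsCompact K)
    (hd : DirectedOn (fun A B : Set X => B ⊆ A) 𝒦) (U : Set X) (hU : IsOpen U)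
    (h : ⋂₀ 𝒦 ⊆ U) : ∃ K ∈ 𝒦, K ⊆ U := by
  have : Nonempty 𝒦 := hne.to_subtype
  obtain ⟨K, hK⟩ := exists_subset_nhds_of_isCompact' (V := fun K : 𝒦 => K.1)
    (directedOn_iff_directed.1 hd) (fun K => hc K K.2) (fun K => (hc K K.2).isClosed)
    (U := U) fun x hx => hU.mem_nhds (h (by rwa [sInter_eq_iInter]))
  exact ⟨K, K.2, hK⟩

end Pool.Agent.H84.Viet
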