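import Mathlib

set_option autoImplicit false

namespace Pool.Agent.H84.WFDefs

/-- well-filtered T0 spaces -/
def WF (Y : Type) [TopologicalSpace Y] : Prop :=
  T0Space Y ∧ ∀ (𝒦 : Set (Set Y)) (U : Set Y),
    (∀ K ∈ 𝒦, IsCompact K ∧ ∀ y : Y, (∀ V : Set Y, IsOpen V → K ⊆ V → y ∈ V) → y ∈ K) →
    𝒦.Nonempty → (∀ K₁ ∈ 𝒦, ∀ K₂ ∈ 𝒦, ∃ K₃ ∈ 𝒦, K₃ ⊆ K₁ ∩ K₂) →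
    IsOpen U → ⋂₀ 𝒦 ⊆ U → ∃ K ∈ 𝒦, K ⊆ U

end Pool.Agent.H84.WFDefs
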