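import Mathlib
import Pool.Agent.H84.WFDefs
import Pool.Agent.H84.Gen
import Pool.Agent.H84.Smyth

set_option autoImplicit false

namespace Pool.Agent.H84.WF

open Set Topology Filter TopologicalSpace Pool.Agent.H84.PowDefs Pool.Agent.H84.Smyth
open Pool.Agent.H84.WFDefs Pool.Agent.H84.Gen

variable {Y : Type} [TopologicalSpace Y]

theorem gen_of_directed (hY : WF Y) {D : Set Y} (hne : D.Nonempty)
    (hd : ∀ a ∈ D, ∀ b ∈ D, ∃ c ∈ D, c ⤳ a ∧ c ⤳ b) : ∃ y, Gen D y := by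
  by_contra hc
  obtain ⟨_, ⟨d, hd, rfl⟩, h⟩ := hY.2 ((fun d => sat {d}) '' D) (closure D)ᶜ
    (by rintro _ ⟨d, _, rfl⟩; exact ⟨isCompact_sat isCompact_singleton, sat_sat _⟩)
    (hne.image _)
    (by
      rintro _ ⟨a, ha, rfl⟩ _ ⟨b, hb, rfl⟩
      obtain ⟨c, hc, h1, h2⟩ := hd a ha b hb
      refine ⟨_, ⟨c, hc, rfl⟩, fun z hz => ?_⟩
      obtain ⟨_, rfl, hz'⟩ := mem_sat_iff.1 hz
      exact ⟨mem_sat_iff.2 ⟨a, rfl, hz'.trans h1⟩, mem_sat_iff.2 ⟨b, rfl, hz'.trans h2⟩⟩)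
    isClosed_closure.isOpen_compl
    (fun y hy hyD => hc ⟨y, fun a ha => by
      obtain ⟨_, rfl, h⟩ := mem_sat_iff.1 (hy _ ⟨a, ha, rfl⟩); exact h, hyD⟩)
  exact h (subset_sat _ rfl) (subset_closure hd)

theorem wf_of_compact_finite [T0Space Y] (h : ∀ K : Set Y, IsCompact K → K.Finite) : WF Y := by
  refine ⟨inferInstance, fun 𝒦 U h1 hne hf _ hU => ?_⟩
  obtain ⟨K, hK, hmin⟩ := exists_min_image' 𝒦 hne
  refine ⟨K, hK, Subset.trans (show K ⊆ ⋂₀ 𝒦 from fun x hx L hL => ?_) hU⟩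
  obtain ⟨M, hM, hML⟩ := hf K hK L hL
  have : M = K := eq_of_subset_of_ncard_le (hML.trans inter_subset_left) (hmin M hM)
    (h K (h1 K hK).1)
  exact (hML (this ▸ hx)).2
where
  exists_min_image' (𝒦 : Set (Set Y)) (hne : 𝒦.Nonempty) :
      ∃ K ∈ 𝒦, ∀ L ∈ 𝒦, K.ncard ≤ L.ncard := by
    classical
    have h : ∃ n, ∃ K ∈ 𝒦, K.ncard = n := by
      obtain ⟨K, hK⟩ := hne; exact ⟨_, K, hK, rfl⟩
    obtain ⟨K, hK, hn⟩ := Nat.find_spec h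
    exact ⟨K, hK, fun L hL => hn ▸ Nat.find_min' h ⟨L, hL, rfl⟩⟩

/-- A minimal closed set meeting every member of a family of compact sets. -/
theorem exists_minimal {𝒦 : Set (Set Y)} (hc : ∀ K ∈ 𝒦, IsCompact K) {C : Set Y}
    (hC : IsClosed C) (hm : ∀ K ∈ 𝒦, (K ∩ C).Nonempty) :
    ∃ A ⊆ C, IsClosed A ∧ (∀ K ∈ 𝒦, (K ∩ A).Nonempty) ∧
      ∀ B ⊆ A, IsClosed B → (∀ K ∈ 𝒦, (K ∩ B).Nonempty) → B = A := by
  obtain ⟨A, hAC, hA⟩ := zorn_superset_nonempty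
    {A : Set Y | IsClosed A ∧ ∀ K ∈ 𝒦, (K ∩ A).Nonempty} (fun c hcS hchain hne => by
      refine ⟨⋂₀ c, ⟨isClosed_sInter fun t ht => (hcS ht).1, fun K hK => ?_⟩,
        fun s hs => sInter_subset_of_mem hs⟩
      by_contra h0
      have : Nonempty c := hne.to_subtype
      obtain ⟨t, ht⟩ := (hc K hK).elim_directed_family_closed (fun t : c => t.1)
        (fun t => (hcS t.2).1)
        (by rw [← sInter_eq_iInter]; exact not_nonempty_iff_eq_empty.1 h0)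
        (fun s t => by
          rcases hchain.total s.2 t.2 with h | h
          · exact ⟨s, Subset.rfl, h⟩
          · exact ⟨t, h, Subset.rfl⟩)
      exact ((hcS t.2).2 K hK).ne_empty ht) C ⟨hC, hm⟩
  exact ⟨A, hAC, hA.prop.1, hA.prop.2, fun B hBA hB hB' =>
    Subset.antisymm hBA (hA.2 (y := B) ⟨hB, hB'⟩ hBA)⟩

theorem wf_elim (hY : WF Y) {ι : Type*} [Nonempty ι] {K : ι → Set Y} (hc : ∀ i, IsCompact (K i))
    (hd : ∀ i j, ∃ k, K k ⊆ K i ∩ K j) {C : Set Y} (hC : IsClosed C)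
    (hm : ∀ i, (K i ∩ C).Nonempty) : ∃ y ∈ C, ∀ i, ∃ z ∈ K i, y ⤳ z := by
  by_contra hcon
  obtain ⟨_, ⟨i, rfl⟩, h⟩ := hY.2 (range fun i => sat (K i)) Cᶜ
    (by rintro _ ⟨i, rfl⟩; exact ⟨isCompact_sat (hc i), sat_sat _⟩)
    (range_nonempty _)
    (by
      rintro _ ⟨i, rfl⟩ _ ⟨j, rfl⟩
      obtain ⟨k, hk⟩ := hd i j
      refine ⟨_, ⟨k, rfl⟩, fun z hz => ?_⟩
      obtain ⟨w, hw, hz'⟩ := mem_sat_iff.1 hz
      exact ⟨mem_sat_iff.2 ⟨w, (hk hw).1, hz'⟩, mem_sat_iff.2 ⟨w, (hk hw).2, hz'⟩⟩)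
    hC.isOpen_compl
    (fun y hy hyC => hcon ⟨y, hyC, fun i => mem_sat_iff.1 (hy _ ⟨i, rfl⟩)⟩)
  obtain ⟨z, hz, hzC⟩ := hm i
  exact h (subset_sat _ hz) hzC

/-- A criterion for well-filteredness: every minimal closed set meeting a filtered family of
compact sets has a point specializing to all its points. -/
theorem wf_of_minimal [T0Space Y]
    (h : ∀ (𝒦 : Set (Set Y)) (A : Set Y), (∀ K ∈ 𝒦, IsCompact K) → 𝒦.Nonempty →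
      (∀ K₁ ∈ 𝒦, ∀ K₂ ∈ 𝒦, ∃ K₃ ∈ 𝒦, K₃ ⊆ K₁ ∩ K₂) → IsClosed A →
      (∀ K ∈ 𝒦, (K ∩ A).Nonempty) →
      (∀ B ⊆ A, IsClosed B → (∀ K ∈ 𝒦, (K ∩ B).Nonempty) → B = A) → ∃ y, Gen A y) : WF Y := by
  refine ⟨inferInstance, fun 𝒦 U h1 hne hf hU hsub => ?_⟩
  by_contra hc
  push Not at hc
  obtain ⟨A, hAU, hA, hm, hmin⟩ := exists_minimal (fun K hK => (h1 K hK).1) hU.isClosed_compl
    (fun K hK => by
      obtain ⟨x, hx, hxU⟩ := not_subset.1 (hc K hK); exact ⟨x, hx, hxU⟩)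
  obtain ⟨y, hy⟩ := h 𝒦 A (fun K hK => (h1 K hK).1) hne hf hA hm hmin
  have hyA : y ∈ A := hA.closure_eq ▸ hy.2
  refine hAU hyA (hsub fun K hK => ?_)
  obtain ⟨z, hz, hzA⟩ := hm K hK
  exact (h1 K hK).2 y fun V hV hKV => (hy.1 z hzA).mem_open hV (hKV hz)

theorem irreducible_of_minimal {𝒦 : Set (Set Y)} {A : Set Y} (hne : 𝒦.Nonempty)
    (hf : ∀ K₁ ∈ 𝒦, ∀ K₂ ∈ 𝒦, ∃ K₃ ∈ 𝒦, K₃ ⊆ K₁ ∩ K₂) (hA : IsClosed A)
    (hm : ∀ K ∈ 𝒦, (K ∩ A).Nonempty)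
    (hmin : ∀ B ⊆ A, IsClosed B → (∀ K ∈ 𝒦, (K ∩ B).Nonempty) → B = A) : IsIrreducible A := by
  obtain ⟨K0, hK0⟩ := hne
  refine ⟨(hm K0 hK0).mono inter_subset_right, ?_⟩
  have key : ∀ u, IsOpen u → (A ∩ u).Nonempty → ∃ K ∈ 𝒦, K ∩ A ⊆ u := by
    rintro u hu ⟨x, hxA, hxu⟩
    by_contra hc
    push Not at hc
    have := hmin (A ∩ uᶜ) inter_subset_left (hA.inter hu.isClosed_compl) fun K hK => by
      obtain ⟨z, hz, hzu⟩ := not_subset.1 (hc K hK); exact ⟨z, hz.1, hz.2, hzu⟩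
    rw [← this] at hxA
    exact hxA.2 hxu
  intro u v hu hv h1 h2
  obtain ⟨K1, hK1, h3⟩ := key u hu h1
  obtain ⟨K2, hK2, h4⟩ := key v hv h2
  obtain ⟨K3, hK3, h5⟩ := hf K1 hK1 K2 hK2
  obtain ⟨z, hz, hzA⟩ := hm K3 hK3
  exact ⟨z, hzA, h3 ⟨(h5 hz).1, hzA⟩, h4 ⟨(h5 hz).2, hzA⟩⟩

theorem wf_of_sober [T0Space Y] [QuasiSober Y] : WF Y :=
  wf_of_minimal fun _ _ _ hne hf hA hm hmin =>
    gen_of_sober (irreducible_of_minimal hne hf hA hm hmin)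

/-- the image of a minimal closed set in a well-filtered space has a generic point -/
theorem gen_image_of_minimal {Z : Type} [TopologicalSpace Z] (hZ : WF Z) {f : Y → Z}
    (hfc : Continuous f) {𝒦 : Set (Set Y)} {A : Set Y} (hc : ∀ K ∈ 𝒦, IsCompact K)
    (hne : 𝒦.Nonempty) (hf : ∀ K₁ ∈ 𝒦, ∀ K₂ ∈ 𝒦, ∃ K₃ ∈ 𝒦, K₃ ⊆ K₁ ∩ K₂) (hA : IsClosed A)
    (hm : ∀ K ∈ 𝒦, (K ∩ A).Nonempty)
    (hmin : ∀ B ⊆ A, IsClosed B → (∀ K ∈ 𝒦, (K ∩ B).Nonempty) → B = A) :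
    ∃ y, Gen (f '' A) y := by
  have : Nonempty 𝒦 := hne.to_subtype
  obtain ⟨y, hy, h⟩ := wf_elim hZ (K := fun K : 𝒦 => f '' (K.1 ∩ A))
    (fun K => ((hc K K.2).inter_right hA).image hfc)
    (fun K L => by
      obtain ⟨M, hM, h⟩ := hf K K.2 L L.2
      refine ⟨⟨M, hM⟩, ?_⟩
      rintro _ ⟨z, hz, rfl⟩
      exact ⟨⟨z, ⟨(h hz.1).1, hz.2⟩, rfl⟩, ⟨z, ⟨(h hz.1).2, hz.2⟩, rfl⟩⟩)
    (isClosed_closure (s := f '' A))
    (fun K => by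
      obtain ⟨z, hz⟩ := hm K K.2
      exact ⟨f z, ⟨z, hz, rfl⟩, subset_closure ⟨z, hz.2, rfl⟩⟩)
  refine ⟨y, ?_, hy⟩
  have h2 := hmin (A ∩ f ⁻¹' closure {y}) inter_subset_left
    (hA.inter (isClosed_closure.preimage hfc)) fun K hK => by
      obtain ⟨_, ⟨z, hz, rfl⟩, h3⟩ := h ⟨K, hK⟩
      exact ⟨z, hz.1, hz.2, specializes_iff_mem_closure.1 h3⟩
  rintro _ ⟨a, ha, rfl⟩
  rw [← h2] at ha
  exact specializes_iff_mem_closure.2 ha.2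

theorem wf_smyth (hY : WF Y) : WF (Smyth Y) := by
  refine wf_of_minimal fun 𝒦 A hc hne hf hA hm hmin => ?_
  let G : 𝒦 → Set Y := fun K => ⋃ L ∈ K.1 ∩ A, L.1
  have : Nonempty 𝒦 := hne.to_subtype
  have hG : ∀ K, IsCompact (G K) := fun K => isCompact_sUnion ((hc K K.2).inter_right hA)
  have hGs : ∀ K x, (∀ U, IsOpen U → G K ⊆ U → x ∈ U) → x ∈ G K := by
    intro K x hx
    obtain ⟨s, hs, h⟩ := mem_sat_iff.1 hx
    obtain ⟨L, hL, hs⟩ := mem_iUnion₂.1 hs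
    exact mem_iUnion₂.2 ⟨L, hL, mem_of_spec hs h⟩
  have hGd : ∀ K L, ∃ M, G M ⊆ G K ∩ G L := by
    intro K L
    obtain ⟨M, hM, h⟩ := hf K K.2 L L.2
    refine ⟨⟨M, hM⟩, fun z hz => ?_⟩
    obtain ⟨N, hN, hz⟩ := mem_iUnion₂.1 hz
    exact ⟨mem_iUnion₂.2 ⟨N, ⟨(h hN.1).1, hN.2⟩, hz⟩, mem_iUnion₂.2 ⟨N, ⟨(h hN.1).2, hN.2⟩, hz⟩⟩
  have key : ∀ U, IsOpen U → (⋂ K, G K) ⊆ U → ∃ K, G K ⊆ U := by
    intro U hU h
    obtain ⟨_, ⟨K, rfl⟩, h2⟩ := hY.2 (range G) U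
      (by rintro _ ⟨K, rfl⟩; exact ⟨hG K, hGs K⟩) (range_nonempty _)
      (by
        rintro _ ⟨K, rfl⟩ _ ⟨L, rfl⟩
        obtain ⟨M, hM⟩ := hGd K L
        exact ⟨_, ⟨M, rfl⟩, hM⟩) hU (by rwa [sInter_range])
    exact ⟨K, h2⟩
  have hGne : ∀ K, (G K).Nonempty := fun K => by
    obtain ⟨L, hL⟩ := hm K K.2
    obtain ⟨z, hz⟩ := L.2.1
    exact ⟨z, mem_iUnion₂.2 ⟨L, hL, hz⟩⟩
  let Q : Smyth Y := ⟨⋂ K, G K, by
      by_contra h0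
      obtain ⟨K, hK⟩ := key ∅ isOpen_empty (not_nonempty_iff_eq_empty.1 h0).subset
      exact (hGne K).not_subset_empty hK, by
      refine isCompact_of_finite_subcover fun U hU hcov => ?_
      obtain ⟨K, hK⟩ := key _ (isOpen_iUnion hU) hcov
      obtain ⟨t, ht⟩ := (hG K).elim_finite_subcover U hU hK
      exact ⟨t, (iInter_subset G K).trans ht⟩,
    fun x hx => mem_iInter.2 fun K => hGs K x fun U hU h => hx U hU ((iInter_subset G K).trans h)⟩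
  refine ⟨Q, fun L hL => spec_iff.2 fun x hx => ?_, mem_closure_iff.2 fun O hO hQ => ?_⟩
  · have h1 : IsClosed {M : Smyth Y | x ∈ M.1} := by
      rw [← isOpen_compl_iff]
      convert isOpen_box (isClosed_closure (s := {x})).isOpen_compl using 1
      ext M
      constructor
      · intro h z hz hzx
        exact h (mem_of_spec hz (specializes_iff_mem_closure.2 hzx))
      · intro h hx; exact h hx (subset_closure rfl)
    have h2 := hmin (A ∩ {M : Smyth Y | x ∈ M.1}) inter_subset_left (hA.inter h1) fun K hK => by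
      obtain ⟨M, hM, h3⟩ := mem_iUnion₂.1 (mem_iInter.1 hx ⟨K, hK⟩)
      exact ⟨M, hM.1, hM.2, h3⟩
    rw [← h2] at hL
    exact hL.2
  · obtain ⟨U, hU, h1, h2⟩ := exists_box hO hQ
    obtain ⟨K, hK⟩ := key U hU h1
    obtain ⟨L, hL⟩ := hm K K.2
    exact ⟨L, h2 fun z hz => hK (mem_iUnion₂.2 ⟨L, hL, hz⟩), hL.2⟩

end Pool.Agent.H84.WF
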