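import Mathlib
import Pool.Agent.H84.WF

set_option autoImplicit false

namespace Pool.Agent.H84.WDEx

open Set Topology Filter TopologicalSpace Pool.Agent.H84.PowDefs Pool.Agent.H84.Smyth
open Pool.Agent.H84.WFDefs Pool.Agent.H84.Gen Pool.Agent.H84.WF

/-- The points of the example. -/
inductive X : Type
  | f : ℕ → Finset ℝ → X
  | a : ℝ → X
  | t : X

open X

instance topX : TopologicalSpace X where
  IsOpen U := (∀ n s s', s ⊆ s' → f n s ∈ U → f n s' ∈ U) ∧
    (∀ α, a α ∈ U → t ∈ U ∧ ∀ᶠ n in atTop, f n {α} ∈ U) ∧ (t ∈ U → {α | a α ∉ U}.Countable)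
  isOpen_univ := ⟨fun _ _ _ _ _ => trivial, fun _ _ => ⟨trivial, Eventually.of_forall fun _ => trivial⟩,
    fun _ => by simp⟩
  isOpen_inter := by
    rintro s u ⟨s1, s2, s3⟩ ⟨t1, t2, t3⟩
    refine ⟨fun n m m' h hm => ⟨s1 n m m' h hm.1, t1 n m m' h hm.2⟩, fun α h =>
      ⟨⟨(s2 α h.1).1, (t2 α h.2).1⟩, (s2 α h.1).2.and (t2 α h.2).2⟩, fun h => ?_⟩
    refine ((s3 h.1).union (t3 h.2)).mono fun α hα => ?_
    by_contra hc
    simp only [mem_union, mem_ofPred_eq, not_or, not_not] at hc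
    exact hα hc
  isOpen_sUnion := by
    intro S hS
    refine ⟨?_, ?_, ?_⟩
    · rintro n m m' h ⟨u, ht, hm⟩; exact ⟨u, ht, (hS u ht).1 n m m' h hm⟩
    · rintro α ⟨u, ht, hx⟩
      obtain ⟨h1, h2⟩ := (hS u ht).2.1 α hx
      exact ⟨⟨u, ht, h1⟩, h2.mono fun n hn => ⟨u, ht, hn⟩⟩
    · rintro ⟨u, ht, hf⟩
      exact ((hS u ht).2.2 hf).mono fun α hα hc => hα ⟨u, ht, hc⟩

/-- the set described by three pieces of data -/
def mk (D : ℕ → Finset ℝ → Prop) (B : ℝ → Prop) (p : Prop) : Set X := fun z =>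
  match z with
  | f n s => D n s
  | a α => B α
  | t => p

@[simp] theorem t_mem {p : Prop} {D : ℕ → Finset ℝ → Prop} {B : ℝ → Prop} :
    t ∈ mk D B p ↔ p := Iff.rfl
@[simp] theorem f_mem {p : Prop} {D : ℕ → Finset ℝ → Prop} {B : ℝ → Prop} {n : ℕ} {s : Finset ℝ} :
    f n s ∈ mk D B p ↔ D n s := Iff.rfl
@[simp] theorem a_mem {p : Prop} {D : ℕ → Finset ℝ → Prop} {B : ℝ → Prop} {α : ℝ} :
    a α ∈ mk D B p ↔ B α := Iff.rfl

theorem isOpen_up (n : ℕ) (s : Finset ℝ) :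
    IsOpen (mk (fun m r => m = n ∧ s ⊆ r) (fun _ => False) False) :=
  ⟨fun _ _ _ h h' => ⟨h'.1, h'.2.trans h⟩, fun _ h => h.elim, fun h => h.elim⟩

theorem isOpen_coc {V : Set ℝ} (hV : Vᶜ.Countable) :
    IsOpen (mk (fun _ _ => True) (fun α => α ∈ V) True) :=
  ⟨fun _ _ _ _ _ => trivial, fun _ _ => ⟨trivial, Eventually.of_forall fun _ => trivial⟩,
    fun _ => hV⟩

theorem isOpen_allf : IsOpen (mk (fun _ _ => True) (fun _ => False) False) :=
  ⟨fun _ _ _ _ _ => trivial, fun _ h => h.elim, fun h => h.elim⟩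

theorem isOpen_off (n : ℕ) : IsOpen (mk (fun m _ => m ≠ n) (fun _ => True) True) :=
  ⟨fun _ _ _ _ h => h, fun _ _ => ⟨trivial, eventually_ne_atTop n⟩, fun _ => by simp⟩

instance : T0Space X := by
  refine t0Space_iff_inseparable X |>.2 fun p q h => ?_
  rw [inseparable_iff_forall_isOpen] at h
  have h1 := h _ isOpen_allf
  have h2 := fun n s => h _ (isOpen_up n s)
  have h3 := fun α : ℝ => h _ (isOpen_coc (V := {α}ᶜ) (by simp))
  rcases p with ⟨n, s⟩ | α | _ <;> rcases q with ⟨m, r⟩ | β | _ <;>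
    simp only [t_mem, f_mem, a_mem, iff_true, iff_false, true_iff, false_iff, not_true,
      not_false_iff, mem_compl_iff, mem_singleton_iff] at h1 h2 h3 ⊢
  · have h4 := (h2 n s).1 ⟨rfl, Finset.Subset.refl _⟩
    have h5 := (h2 m r).2 ⟨rfl, Finset.Subset.refl _⟩
    rw [h4.1, Finset.Subset.antisymm h4.2 h5.2]
  · by_contra hc
    exact (h3 α).2 (fun h => hc (by rw [h])) rfl
  · exact (h3 α rfl).elim
  · exact (h3 β rfl).elim

theorem wd_X {A : Set X} (hc : IsClosed A) (hA : IsIrreducible A) {Y : Type} [TopologicalSpace Y]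
    (hY : WF Y) {g : X → Y} (hg : Continuous g) : ∃ y, Gen (g '' A) y := by
  classical
  by_cases h1 : ∃ n s, f n s ∈ A
  · obtain ⟨n, s, hs⟩ := h1
    have h2 : ∀ z ∈ A, ∃ r, z = f n r := by
      intro z hz
      by_contra h3
      obtain ⟨w, _, h4, h5⟩ := hA.2 _ _ (isOpen_up n ∅) (isOpen_off n)
        ⟨_, hs, rfl, Finset.empty_subset _⟩ ⟨z, hz, by
          rcases z with ⟨m, r⟩ | α | _
          · rintro rfl; exact h3 ⟨r, rfl⟩
          · trivial
          · trivial⟩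
      rcases w with ⟨m, r⟩ | α | _
      · exact h5 h4.1
      · exact h4
      · exact h4
    refine gen_of_directed hY (hA.nonempty.image g) ?_
    rintro _ ⟨p, hp, rfl⟩ _ ⟨q, hq, rfl⟩
    obtain ⟨r, rfl⟩ := h2 p hp
    obtain ⟨r', rfl⟩ := h2 q hq
    obtain ⟨w, hw, h4, h5⟩ := hA.2 _ _ (isOpen_up n r) (isOpen_up n r')
      ⟨_, hp, rfl, Finset.Subset.refl _⟩ ⟨_, hq, rfl, Finset.Subset.refl _⟩
    obtain ⟨u, rfl⟩ := h2 w hw
    refine ⟨_, ⟨_, hw, rfl⟩, Specializes.map ?_ hg, Specializes.map ?_ hg⟩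
    · exact specializes_iff_forall_open.2 fun U hU h => hU.1 _ _ _ h4.2 h
    · exact specializes_iff_forall_open.2 fun U hU h => hU.1 _ _ _ h5.2 h
  push Not at h1
  by_cases h2 : t ∈ A
  · refine ⟨g t, Gen.image ⟨fun z hz => ?_, subset_closure h2⟩ hg⟩
    rcases z with ⟨m, r⟩ | α | _
    · exact absurd hz (h1 m r)
    · exact specializes_iff_forall_open.2 fun U hU h => (hU.2.1 α h).1
    · exact specializes_rfl
  have h3 : {α | a α ∉ Aᶜ}.Countable := hc.isOpen_compl.2.2 h2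
  obtain ⟨p, hp⟩ := hA.nonempty
  refine ⟨g p, Gen.image ⟨fun z hz => ?_, subset_closure hp⟩ hg⟩
  have h4 : ∀ α, IsOpen (mk (fun _ _ => True) (fun β => β ∈ {β | a β ∉ A ∨ β = α}) True) :=
    fun α => isOpen_coc (h3.mono fun β hβ => fun h => hβ (Or.inl h))
  rcases p with ⟨m, r⟩ | α | _
  · exact absurd hp (h1 m r)
  · rcases z with ⟨m, r⟩ | β | _
    · exact absurd hz (h1 m r)
    · obtain ⟨w, hw, h5, h6⟩ := hA.2 _ _ (h4 α) (h4 β) ⟨_, hp, Or.inr rfl⟩ ⟨_, hz, Or.inr rfl⟩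
      rcases w with ⟨m, r⟩ | γ | _
      · exact absurd hw (h1 m r)
      · have h7 : γ = α := Or.resolve_left h5 (not_not.2 hw)
        have h8 : γ = β := Or.resolve_left h6 (not_not.2 hw)
        rw [← h7, ← h8]
      · exact absurd hw h2
    · exact absurd hz h2
  · exact absurd hp h2

theorem finite_of_cover {S : Set ℝ}
    (h : ∀ V : ℕ → Set ℝ, (∀ m, (V m)ᶜ.Countable) → Monotone V → (∀ α, ∃ m, α ∈ V m) →
      ∃ m, S ⊆ V m) : S.Finite := by
  by_contra hS
  let u : ℕ → ℝ := fun n => (Set.Infinite.natEmbedding S hS n).1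
  have hu : Function.Injective u := fun m n hmn =>
    (Set.Infinite.natEmbedding S hS).injective (Subtype.ext hmn)
  obtain ⟨m, hm⟩ := h (fun m => (u '' Ici m)ᶜ)
    (fun m => by rw [compl_compl]; exact (to_countable _).image _)
    (fun m n hmn => compl_subset_compl.2 (image_mono (Ici_subset_Ici.2 hmn)))
    (fun α => by
      by_cases hα : ∃ n, u n = α
      · obtain ⟨n, rfl⟩ := hα
        refine ⟨n + 1, ?_⟩
        rintro ⟨k, hk, h2⟩
        rw [show k = n from hu h2] at hk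
        exact absurd hk (by simp)
      · exact ⟨0, fun ⟨k, _, h2⟩ => hα ⟨k, h2⟩⟩)
  exact hm (Set.Infinite.natEmbedding S hS m).2 ⟨m, le_refl m, rfl⟩

theorem finite_trace {K : Set X} (hK : IsCompact K) : {α | a α ∈ K}.Finite := by
  refine finite_of_cover fun V hV hm hc => ?_
  obtain ⟨m, h⟩ := hK.elim_directed_cover
    (fun m => mk (fun _ _ => True) (fun α => α ∈ V m) True) (fun m => isOpen_coc (hV m))
    (by
      rintro (⟨n, s⟩ | α | _) _
      · exact mem_iUnion.2 ⟨0, trivial⟩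
      · obtain ⟨m, h⟩ := hc α; exact mem_iUnion.2 ⟨m, h⟩
      · exact mem_iUnion.2 ⟨0, trivial⟩)
    (Monotone.directed_le fun m n hmn => by
      rintro (⟨n, s⟩ | α | _) h
      · trivial
      · exact hm hmn h
      · trivial)
  exact ⟨m, fun α hα => h hα⟩

theorem trace_nonempty {K : Set X} (hK : IsCompact K) (h : ∀ n, ∃ s, f n s ∈ K) :
    ∃ α, a α ∈ K := by
  by_contra hc
  push Not at hc
  choose s hs using h
  obtain ⟨m, hm⟩ := hK.elim_directed_cover
    (fun m => mk (fun n r => n < m ∨ ¬ r ⊆ s n) (fun α => ∀ n, α ∉ s n) True)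
    (fun m => ⟨fun n r r' h1 h2 => Or.imp id (fun h3 h4 => h3 (h1.trans h4)) h2,
      fun α hα => ⟨trivial, Eventually.of_forall fun n =>
        Or.inr fun h1 => hα n (h1 (Finset.mem_singleton_self α))⟩,
      fun _ => (countable_iUnion fun n => (s n).countable_toSet).mono fun α hα => by
        simp only [a_mem, mem_ofPred_eq, not_forall, not_not] at hα
        exact mem_iUnion.2 hα⟩)
    (by
      rintro (⟨n, r⟩ | α | _) hz
      · exact mem_iUnion.2 ⟨n + 1, Or.inl (Nat.lt_succ_self n)⟩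
      · exact absurd hz (hc α)
      · exact mem_iUnion.2 ⟨0, trivial⟩)
    (Monotone.directed_le fun m n hmn => by
      rintro (⟨k, r⟩ | α | _) h
      · exact Or.imp (fun h1 => lt_of_lt_of_le h1 hmn) id h
      · exact h
      · trivial)
  rcases hm (hs m) with h1 | h1
  · exact lt_irrefl _ h1
  · exact h1 (Finset.Subset.refl _)

/-- compact saturated sets meeting every fibre -/
def A0 : Set (Smyth X) := {K | ∀ n, ∃ s, f n s ∈ K.1}

theorem isOpen_compl_A0 : IsOpen A0ᶜ := by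
  have : A0ᶜ = ⋃ n, box (mk (fun m _ => m ≠ n) (fun _ => True) True) := by
    ext K
    simp only [A0, mem_compl_iff, mem_ofPred_eq, not_forall, not_exists, mem_iUnion]
    refine exists_congr fun n => ⟨fun h => ?_, fun h s hs => h hs rfl⟩
    rintro (⟨k, r⟩ | α | _) hz
    · rintro rfl; exact h r hz
    · trivial
    · trivial
  rw [this]
  exact isOpen_iUnion fun n => isOpen_box (isOpen_off n)

theorem exists_A0 {W : Set X} (hW : IsOpen W) (h1 : ∀ n, ∃ s, f n s ∈ W) (h2 : t ∈ W) :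
    ∃ K ∈ A0, K.1 ⊆ W := by
  classical
  obtain ⟨α, hα⟩ : ∃ α, a α ∈ W := by
    by_contra hc
    push Not at hc
    have := hW.2.2 h2
    rw [eq_univ_of_forall (s := {α | a α ∉ W}) hc] at this
    exact not_countable_univ this
  choose s hs using h1
  let r : ℕ → Finset ℝ := fun n => if f n {α} ∈ W then {α} else s n
  have hr : Tendsto (fun n => f n (r n)) atTop (𝓝 (a α)) := by
    rw [tendsto_nhds]
    intro U hU hαU
    filter_upwards [(hU.2.1 α hαU).2, (hW.2.1 α hα).2] with n h3 h4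
    simp only [mem_preimage, r, if_pos h4]; exact h3
  refine ⟨toSmyth _ (insert_nonempty _ _) hr.isCompact_insert_range,
    fun n => ⟨r n, subset_sat _ (Or.inr ⟨n, rfl⟩)⟩, (toSmyth_mem_box hW).2 ?_⟩
  rintro _ (rfl | ⟨n, rfl⟩)
  · exact hα
  · by_cases h4 : f n {α} ∈ W
    · simp only [r, if_pos h4]; exact h4
    · simp only [r, if_neg h4]; exact hs n

theorem irreducible_A0 : IsIrreducible A0 := by
  classical
  refine ⟨?_, ?_⟩
  · obtain ⟨K, hK, -⟩ := exists_A0 isOpen_univ (fun _ => ⟨∅, trivial⟩) trivial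
    exact ⟨K, hK⟩
  rintro u v hu hv ⟨K, hK, hKu⟩ ⟨L, hL, hLv⟩
  obtain ⟨U, hU, h1, h2⟩ := exists_box hu hKu
  obtain ⟨V, hV, h3, h4⟩ := exists_box hv hLv
  obtain ⟨α, hα⟩ := trace_nonempty K.2.2.1 hK
  obtain ⟨β, hβ⟩ := trace_nonempty L.2.2.1 hL
  obtain ⟨M, hM, h5⟩ := exists_A0 (hU.inter hV) (fun n => by
    obtain ⟨s, hs⟩ := hK n
    obtain ⟨r, hr⟩ := hL n
    exact ⟨s ∪ r, hU.1 _ _ _ Finset.subset_union_left (h1 hs),
      hV.1 _ _ _ Finset.subset_union_right (h3 hr)⟩) ⟨(hU.2.1 α (h1 hα)).1, (hV.2.1 β (h3 hβ)).1⟩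
  exact ⟨M, hM, h2 (h5.trans inter_subset_left), h4 (h5.trans inter_subset_right)⟩

/-- the target space: finite sets of reals -/
def T : Type := {F : Set ℝ // F.Finite}

instance : TopologicalSpace T :=
  generateFrom {S | ∃ V : Set ℝ, (V = ∅ ∨ Vᶜ.Countable) ∧ S = {F | F.1 ⊆ V}}

theorem isOpen_T {V : Set ℝ} (h : V = ∅ ∨ Vᶜ.Countable) : IsOpen {F : T | F.1 ⊆ V} :=
  isOpen_generateFrom_of_mem ⟨V, h, rfl⟩

instance : T0Space T := by
  refine t0Space_iff_inseparable T |>.2 fun p q h => ?_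
  rw [inseparable_iff_forall_isOpen] at h
  refine Subtype.ext (Set.ext fun α => ?_)
  have := h _ (isOpen_T (V := {α}ᶜ) (Or.inr (by simp)))
  simp only [mem_ofPred_eq, subset_compl_singleton_iff] at this
  exact not_iff_not.1 this

theorem wf_T : WF T := by
  refine wf_of_compact_finite fun K hK => ?_
  have h1 : (⋃ F ∈ K, F.1).Finite := by
    refine finite_of_cover fun V hV hm hc => ?_
    obtain ⟨m, h⟩ := hK.elim_directed_cover (fun m => {F : T | F.1 ⊆ V m})
      (fun m => isOpen_T (Or.inr (hV m)))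
      (fun F _ => by
        choose g hg using hc
        obtain ⟨N, hN⟩ := (F.2.image g).bddAbove
        exact mem_iUnion.2 ⟨N, fun α hα => hm (hN ⟨α, hα, rfl⟩) (hg α)⟩)
      (Monotone.directed_le fun m n hmn F hF => Subset.trans hF (hm hmn))
    exact ⟨m, iUnion₂_subset fun F hF => h hF⟩
  refine Finite.of_finite_image (f := fun F : T => F.1) (h1.finite_subsets.subset ?_)
    Subtype.val_injective.injOn
  rintro _ ⟨F, hF, rfl⟩
  exact subset_biUnion_of_mem (u := fun F : T => F.1) hF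

open Classical in
/-- the trace map -/
noncomputable def φ (K : Smyth X) : T :=
  if K ∈ A0 then ⟨{α | a α ∈ K.1}, finite_trace K.2.2.1⟩ else ⟨∅, finite_empty⟩

theorem φ_pos {K : Smyth X} (h : K ∈ A0) : (φ K).1 = {α | a α ∈ K.1} := by
  simp only [φ, if_pos h]

theorem φ_neg {K : Smyth X} (h : K ∉ A0) : (φ K).1 = ∅ := by
  simp only [φ, if_neg h]

theorem continuous_φ : Continuous φ := by
  refine continuous_generateFrom_iff.2 ?_
  rintro _ ⟨V, hV | hV, rfl⟩
  · convert isOpen_compl_A0 using 1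
    ext K
    by_cases hK : K ∈ A0
    · refine iff_of_false (fun h => ?_) (not_not.2 hK)
      obtain ⟨α, hα⟩ := trace_nonempty K.2.2.1 hK
      have h2 : (φ K).1 ⊆ V := h
      rw [φ_pos hK, hV] at h2
      exact h2 hα
    · refine iff_of_true ?_ hK
      show (φ K).1 ⊆ V
      rw [φ_neg hK]; exact empty_subset _
  · convert isOpen_compl_A0.union (isOpen_box (isOpen_coc hV)) using 1
    ext K
    by_cases hK : K ∈ A0
    · show (φ K).1 ⊆ V ↔ _
      rw [φ_pos hK]
      constructor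
      · intro h
        right
        rintro (⟨k, r⟩ | α | _) hz
        · trivial
        · exact h hz
        · trivial
      · rintro (h | h)
        · exact absurd hK h
        · intro α hα; exact h hα
    · refine iff_of_true ?_ (Or.inl hK)
      show (φ K).1 ⊆ V
      rw [φ_neg hK]; exact empty_subset _

theorem no_gen (F : T) : ¬ Gen (φ '' A0) F := by
  intro h
  rcases F.1.eq_empty_or_nonempty with h0 | ⟨γ, hγ⟩
  · obtain ⟨_, ⟨K, hK, rfl⟩, h1⟩ := (h.mem_open (isOpen_T (V := ∅) (Or.inl rfl))).1 h0.subset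
    obtain ⟨α, hα⟩ := trace_nonempty K.2.2.1 hK
    have h2 : (φ K).1 ⊆ ∅ := h1
    rw [φ_pos hK] at h2
    exact h2 hα
  · obtain ⟨K, hK, h1⟩ := exists_A0 (isOpen_coc (V := {γ}ᶜ) (by simp)) (fun _ => ⟨∅, trivial⟩) trivial
    refine (h.mem_open (isOpen_T (V := {γ}ᶜ) (Or.inr (by simp)))).2 ⟨_, ⟨K, hK, rfl⟩, ?_⟩ hγ rfl
    show (φ K).1 ⊆ {γ}ᶜ
    rw [φ_pos hK]
    intro α hα
    exact h1 hα

/-- closed well-filtered determined sets -/
def WD (W : Type) [TopologicalSpace W] : Type :=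
  {A : Set W // IsClosed A ∧ ∀ (Y : Type) [TopologicalSpace Y], WF Y →
    ∀ g : W → Y, Continuous g → ∃! y : Y, closure (g '' A) = closure {y}}

instance topWD (W : Type) [TopologicalSpace W] : TopologicalSpace (WD W) :=
  generateFrom {S | ∃ U : Set W, IsOpen U ∧ S = {A | (A.1 ∩ U).Nonempty}}

theorem isOpen_dia {W : Type} [TopologicalSpace W] {U : Set W} (hU : IsOpen U) :
    IsOpen {A : WD W | (A.1 ∩ U).Nonempty} :=
  isOpen_generateFrom_of_mem ⟨U, hU, rfl⟩

theorem spec_WD {W : Type} [TopologicalSpace W] {A B : WD W} (h : B.1 ⊆ A.1) : A ⤳ B := by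
  rw [Specializes, nhds_generateFrom (a := B)]
  simp only [le_iInf_iff, le_principal_iff]
  rintro s ⟨hB, U, hU, rfl⟩
  exact (isOpen_dia hU).mem_nhds (hB.mono (inter_subset_inter_left _ h))

theorem subset_of_spec_WD {W : Type} [TopologicalSpace W] {A B : WD W} (h : A ⤳ B) :
    B.1 ⊆ A.1 := by
  intro x hx
  by_contra hc
  have h1 : B ∈ {C : WD W | (C.1 ∩ A.1ᶜ).Nonempty} := ⟨x, hx, hc⟩
  obtain ⟨z, hz, hz'⟩ := h.mem_open (isOpen_dia A.2.1.isOpen_compl) h1
  exact hz' hz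

instance (W : Type) [TopologicalSpace W] : T0Space (WD W) :=
  ⟨fun _ _ h => Subtype.ext
    (Subset.antisymm (subset_of_spec_WD h.specializes') (subset_of_spec_WD h.specializes))⟩

theorem wf_WD (W : Type) [TopologicalSpace W] : WF (WD W) := by
  refine wf_of_minimal fun 𝒦 𝒜 hc hne hf hA hm hmin => ?_
  have hirr := irreducible_of_minimal hne hf hA hm hmin
  let A : Set W := closure (⋃ B ∈ 𝒜, B.1)
  have hsub : ∀ B ∈ 𝒜, B.1 ⊆ A := fun B hB =>
    (subset_biUnion_of_mem (u := fun B : WD W => B.1) hB).trans subset_closure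
  have hA' : ∀ (Y : Type) [TopologicalSpace Y], WF Y →
      ∀ g : W → Y, Continuous g → ∃! y : Y, closure (g '' A) = closure {y} := by
    intro Y _ hY g hg
    have := hY.1
    apply exists_unique_of_gen
    have h1 : ∀ B : WD W, ∃ y, Gen (g '' B.1) y := fun B => by
      obtain ⟨y, hy, -⟩ := B.2.2 Y hY g hg
      exact ⟨y, gen_iff.2 hy⟩
    choose fs hfs using h1
    have hcs : Continuous fs := by
      refine ⟨fun U hU => ?_⟩
      have : fs ⁻¹' U = {B : WD W | (B.1 ∩ g ⁻¹' U).Nonempty} := by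
        ext B
        rw [mem_preimage, (hfs B).mem_open hU]
        constructor
        · rintro ⟨_, ⟨x, hx, rfl⟩, h2⟩; exact ⟨x, hx, h2⟩
        · rintro ⟨x, hx, h2⟩; exact ⟨g x, ⟨x, hx, rfl⟩, h2⟩
      rw [this]; exact isOpen_dia (hU.preimage hg)
    obtain ⟨y, hy⟩ := gen_image_of_minimal hY hcs hc hne hf hA hm hmin
    refine ⟨y, ?_, ?_⟩
    · rintro _ ⟨w, hw, rfl⟩
      have h2 : (⋃ B ∈ 𝒜, B.1) ⊆ g ⁻¹' closure {y} := by
        intro w hw
        obtain ⟨B, hB, hx⟩ := mem_iUnion₂.1 hw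
        have h3 : y ⤳ g w := (hy.1 _ ⟨B, hB, rfl⟩).trans ((hfs B).1 _ ⟨w, hx, rfl⟩)
        exact specializes_iff_mem_closure.1 h3
      exact specializes_iff_mem_closure.2 (closure_minimal h2 (isClosed_closure.preimage hg) hw)
    · refine closure_minimal ?_ isClosed_closure hy.2
      rintro _ ⟨B, hB, rfl⟩
      exact closure_mono (image_mono (hsub B hB)) (hfs B).2
  refine ⟨⟨A, isClosed_closure, hA'⟩, fun B hB => spec_WD (hsub B hB), ?_⟩
  refine mem_closure_iff.2 fun O hO hAO => ?_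
  have hO' : GenerateOpen {S | ∃ U : Set W, IsOpen U ∧ S = {A : WD W | (A.1 ∩ U).Nonempty}} O := hO
  clear hO
  induction hO' with
  | basic s hs =>
    obtain ⟨U, hU, rfl⟩ := hs
    obtain ⟨w, hw, hwU⟩ := hAO
    obtain ⟨v, hv, hv'⟩ := mem_closure_iff.1 hw U hU hwU
    obtain ⟨B, hB, hx⟩ := mem_iUnion₂.1 hv'
    exact ⟨B, ⟨v, hx, hv⟩, hB⟩
  | univ => rw [univ_inter]; exact hirr.nonempty
  | inter s u hs hu ihs ihu =>
    rw [inter_comm]
    exact hirr.2 s u hs hu (by rw [inter_comm]; exact ihs hAO.1) (by rw [inter_comm]; exact ihu hAO.2)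
  | sUnion S _ ih =>
    obtain ⟨s, hs, h1⟩ := hAO
    exact (ih s hs h1).mono (inter_subset_inter_left _ (subset_sUnion_of_mem hs))

theorem not_wd_A0 : ¬ ∀ (Y : Type) [TopologicalSpace Y], WF Y → ∀ g : Smyth X → Y, Continuous g →
    ∃! y : Y, closure (g '' A0) = closure {y} := by
  intro h
  obtain ⟨y, hy, -⟩ := h T wf_T φ continuous_φ
  exact no_gen y (gen_iff.2 hy)

theorem irreducible_of_wd {W : Type} [TopologicalSpace W] {A : Set W}
    (h : ∀ (Y : Type) [TopologicalSpace Y], WF Y → ∀ g : W → Y, Continuous g →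
      ∃! y : Y, closure (g '' A) = closure {y}) : IsIrreducible A := by
  let μ : W → WD W := fun x => ⟨closure {x}, isClosed_closure, fun Y _ hY g hg => by
    have := hY.1
    exact exists_unique_of_gen ⟨g x, (gen_closure.2 (gen_singleton x)).image hg⟩⟩
  have hμ : ∀ U, IsOpen U → μ ⁻¹' {B : WD W | (B.1 ∩ U).Nonempty} = U := fun U hU => by
    ext x
    exact ((gen_closure.2 (gen_singleton x)).mem_open hU).symm
  have hc : Continuous μ := continuous_generateFrom_iff.2 (by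
    rintro s ⟨U, hU, rfl⟩
    rw [hμ U hU]; exact hU)
  obtain ⟨C, hC, -⟩ := h (WD W) (wf_WD W) μ hc
  have hC' := gen_iff.2 hC
  have key : ∀ U, IsOpen U → (C ∈ {B : WD W | (B.1 ∩ U).Nonempty} ↔ (A ∩ U).Nonempty) := by
    intro U hU
    rw [hC'.mem_open (isOpen_dia hU)]
    constructor
    · rintro ⟨_, ⟨x, hx, rfl⟩, h2⟩
      exact ⟨x, hx, (hμ U hU).subset h2⟩
    · rintro ⟨x, hx, h2⟩
      exact ⟨μ x, ⟨x, hx, rfl⟩, (hμ U hU).symm.subset h2⟩
  refine ⟨?_, fun u v hu hv h1 h2 => ?_⟩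
  · obtain ⟨_, ⟨x, hx, rfl⟩, -⟩ := (hC'.mem_open isOpen_univ).1 trivial
    exact ⟨x, hx⟩
  · obtain ⟨_, ⟨x, hx, rfl⟩, h3, h4⟩ := (hC'.mem_open ((isOpen_dia hu).inter (isOpen_dia hv))).1
      ⟨(key u hu).2 h1, (key v hv).2 h2⟩
    exact ⟨x, hx, (hμ u hu).subset h3, (hμ v hv).subset h4⟩

theorem wd_iff (A : Set X) : (IsClosed A ∧ IsIrreducible A) ↔
    (IsClosed A ∧ ∀ (Y : Type) [TopologicalSpace Y], WF Y → ∀ g : X → Y, Continuous g →
      ∃! y : Y, closure (g '' A) = closure {y}) :=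
  ⟨fun h => ⟨h.1, fun Y _ hY g hg => by
    have := hY.1
    exact exists_unique_of_gen (wd_X h.1 h.2 hY hg)⟩, fun h => ⟨h.1, irreducible_of_wd h.2⟩⟩

end Pool.Agent.H84.WDEx
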