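import Mathlib

/-! A tree of copies of an uncountable cube glued along pairs of points. -/

namespace Pool.Agent.H84.Wcut

open Set Topology Filter unitInterval

abbrev X := ℝ → I
abbrev A := Finset ℝ × X × ℕ

open Classical in
noncomputable def pt (α : A) (c : I) : X := fun ξ => if ξ ∈ α.1 then α.2.1 ξ else c

noncomputable def g : List A → ℝ → ℝ → X → ℝ
  | [], _, _, _ => 0
  | α :: _, ξ, η, x => ((x ξ : ℝ) - pt α 0 ξ) * ((x η : ℝ) - pt α 1 η)

def W (l : List A) (x : X) : Prop := ∀ ξ η, g l ξ η x = 0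

theorem W_cons {α : A} {l : List A} {x : X} : W (α :: l) x ↔ x = pt α 0 ∨ x = pt α 1 := by
  constructor
  · intro h
    by_contra hc
    push Not at hc
    obtain ⟨ξ, h1⟩ := Function.ne_iff.1 hc.1
    obtain ⟨η, h2⟩ := Function.ne_iff.1 hc.2
    rcases mul_eq_zero.1 (h ξ η) with h | h
    · exact h1 (Subtype.ext (sub_eq_zero.1 h))
    · exact h2 (Subtype.ext (sub_eq_zero.1 h))
  · rintro (rfl | rfl) ξ η <;> simp [g]

theorem cont_g (l : List A) (ξ η : ℝ) : Continuous (g l ξ η) := by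
  cases l
  · exact continuous_const
  · unfold g; fun_prop

def SS : Set (List A → Bool) := {s | s [] = true ∧ (∀ α l, s (α :: l) = true → s l = true) ∧
  ∀ l l', s l = true → s l' = true → l.length = l'.length → l = l'}

theorem closed_SS : IsClosed SS := by
  simp only [SS, ofPred_and, ofPred_forall]
  refine (isClosed_eq (continuous_apply _) continuous_const).inter (IsClosed.inter
    (isClosed_iInter fun α => isClosed_iInter fun l => ?_)
    (isClosed_iInter fun l => isClosed_iInter fun l' => ?_))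
  · have : (⋂ (_ : True), {s : List A → Bool | s (α :: l) = true → s l = true}) =
      (fun s : List A → Bool => (s (α :: l), s l)) ⁻¹' {w | w.1 = true → w.2 = true} := by
      ext s; simp
    have h := this ▸ (isClosed_discrete {w : Bool × Bool | w.1 = true → w.2 = true}).preimage
      (f := fun s : List A → Bool => (s (α :: l), s l)) (by fun_prop)
    convert h using 1
    ext s; simp
  · have h := (isClosed_discrete {w : Bool × Bool | w.1 = true → w.2 = true →
      l.length = l'.length → l = l'}).preimage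
      (f := fun s : List A → Bool => (s l, s l')) (by fun_prop)
    convert h using 1
    ext s; simp

instance : CompactSpace SS := isCompact_iff_compactSpace.1 closed_SS.isCompact

theorem down (s : SS) {l l' : List A} (h : l <:+ l') (h' : s.1 l' = true) : s.1 l = true := by
  obtain ⟨t, rfl⟩ := h
  induction t with
  | nil => exact h'
  | cons a t ih => exact ih (s.2.2.1 _ _ h')

theorem chain (s : SS) {l l' : List A} (h : s.1 l = true) (h' : s.1 l' = true)
    (hl : l.length ≤ l'.length) : l <:+ l' := by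
  have := s.2.2.2 _ _ h (down s (List.drop_suffix (l'.length - l.length) l') h')
    (by simp; omega)
  rw [this]
  exact List.drop_suffix _ _

open Classical in
noncomputable def path (ρ : List A) : SS := ⟨fun l => decide (l <:+ ρ), by simp,
  fun α l h => by
    simp only [decide_eq_true_eq] at h ⊢
    exact (List.suffix_cons α l).trans h,
  fun l l' h h' e => by
    simp only [decide_eq_true_eq] at h h'
    exact (List.suffix_of_suffix_length_le h h' e.le).eq_of_length e⟩

theorem path_iff {ρ l : List A} : (path ρ).1 l = true ↔ l <:+ ρ := by simp [path]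

def trunc (s : SS) (n : ℕ) : SS := ⟨fun l => s.1 l && decide (l.length ≤ n), by simp [s.2.1],
  fun α l h => by
    simp only [Bool.and_eq_true, decide_eq_true_eq, List.length_cons] at h ⊢
    exact ⟨s.2.2.1 _ _ h.1, by omega⟩,
  fun l l' h h' e => by
    simp only [Bool.and_eq_true] at h h'
    exact s.2.2.2 _ _ h.1 h'.1 e⟩

theorem trunc_tendsto (s : SS) : Tendsto (trunc s) atTop (𝓝 s) := by
  refine tendsto_subtype_rng.2 (tendsto_pi_nhds.2 fun l => tendsto_const_nhds.congr' ?_)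
  filter_upwards [eventually_ge_atTop l.length] with n hn
  simp [trunc, hn]

noncomputable def Φ (p : X × SS) : X × (List A → ℝ → ℝ → ℝ) :=
  (p.1, fun l ξ η => if p.2.1 l = true then g l ξ η p.1 else 0)

theorem cont_ev (l : List A) : Continuous fun p : X × SS => p.2.1 l :=
  (continuous_apply l).comp (continuous_subtype_val.comp continuous_snd)

theorem cont_Φ : Continuous Φ := by
  refine continuous_fst.prodMk (continuous_pi fun l => continuous_pi fun ξ =>
    continuous_pi fun η => ?_)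
  have h1 : Continuous fun p : X × SS => p.2.1 l := cont_ev l
  have h2 := (continuous_of_discreteTopology
    (f := fun b : Bool => if b = true then (1 : ℝ) else 0)).comp h1
  convert h2.mul ((cont_g l ξ η).comp continuous_fst) using 2 with p
  simp

def M : Type := range Φ

instance : TopologicalSpace M := inferInstanceAs (TopologicalSpace (range Φ))
instance : T2Space M := inferInstanceAs (T2Space (range Φ))
instance : CompactSpace M := isCompact_iff_compactSpace.1 (isCompact_range cont_Φ)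

noncomputable def π (p : X × SS) : M := ⟨Φ p, p, rfl⟩

theorem cont_π : Continuous π := cont_Φ.subtype_mk _

theorem surj_π (m : M) : ∃ x s, m = π (x, s) := by
  obtain ⟨_, ⟨x, s⟩, rfl⟩ := m
  exact ⟨x, s, rfl⟩

theorem π_eq {x x' : X} {s s' : SS} :
    π (x, s) = π (x', s') ↔ x = x' ∧ ∀ l, s.1 l ≠ s'.1 l → W l x := by
  constructor
  · intro h
    have h' : Φ (x, s) = Φ (x', s') := congrArg Subtype.val h
    obtain rfl : x = x' := congrArg Prod.fst h'
    refine ⟨rfl, fun l hl ξ η => ?_⟩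
    have := congrFun (congrFun (congrFun (congrArg Prod.snd h') l) ξ) η
    simp only [Φ] at this
    cases h1 : s.1 l <;> cases h2 : s'.1 l <;> simp_all
  · rintro ⟨rfl, h⟩
    refine Subtype.ext (Prod.ext rfl (funext fun l => funext fun ξ => funext fun η => ?_))
    simp only [π, Φ]
    by_cases hl : s.1 l = s'.1 l
    · rw [hl]
    · simp [h l hl ξ η]

def KK (C : Set X) (t : SS) : Set M := π '' (C ×ˢ insert t (range (trunc t)))

theorem KK_closed {C : Set X} (hC : IsClosed C) (t : SS) : IsClosed (KK C t) :=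
  ((hC.isCompact.prod (trunc_tendsto t).isCompact_insert_range).image cont_π).isClosed

theorem KK_root {C : Set X} {c : X} (hc : c ∈ C) (t : SS) : π (c, path []) ∈ KK C t := by
  refine ⟨(c, trunc t 0), ⟨hc, Or.inr ⟨0, rfl⟩⟩, π_eq.2 ⟨rfl, fun l hl => ?_⟩⟩
  cases l with
  | nil => exact fun _ _ => rfl
  | cons a l => simp [trunc, path] at hl

theorem KK_conn {C : Set X} (hC : IsConnected C) (t : SS)
    (h : ∀ l, t.1 l = true → ∃ c ∈ C, W l c) : IsConnected (KK C t) := by
  have h1 : IsConnected (⋃ n, (fun c => π (c, trunc t n)) '' C) := by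
    refine IsConnected.iUnion_of_chain (fun n => hC.image _ (cont_π.comp (by fun_prop)).continuousOn)
      fun n => ?_
    obtain ⟨c, hc, hW⟩ : ∃ c ∈ C, ∀ l, t.1 l = true → l.length = n + 1 → W l c := by
      by_cases h' : ∃ l, t.1 l = true ∧ l.length = n + 1
      · obtain ⟨l, h1, h2⟩ := h'
        obtain ⟨c, hc, hW⟩ := h l h1
        exact ⟨c, hc, fun l' h3 h4 => t.2.2.2 _ _ h1 h3 (h2.trans h4.symm) ▸ hW⟩
      · obtain ⟨c, hc⟩ := hC.nonempty
        exact ⟨c, hc, fun l h1 h2 => absurd ⟨l, h1, h2⟩ h'⟩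
    refine ⟨π (c, trunc t n), ⟨c, hc, rfl⟩, c, hc, π_eq.2 ⟨rfl, fun l hl => ?_⟩⟩
    simp only [trunc, Order.succ_eq_add_one] at hl
    cases h1 : t.1 l
    · simp [h1] at hl
    · refine hW l h1 ?_
      simp only [h1, Bool.true_and, ne_eq, decide_eq_decide] at hl
      omega
  refine h1.subset_closure ?_ ?_
  · refine iUnion_subset fun n => ?_
    rintro _ ⟨c, hc, rfl⟩
    exact ⟨(c, trunc t n), ⟨hc, Or.inr ⟨n, rfl⟩⟩, rfl⟩
  · rintro _ ⟨⟨c, s⟩, ⟨hc, rfl | ⟨n, rfl⟩⟩, rfl⟩
    · exact mem_closure_of_tendsto ((cont_π.tendsto _).comp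
        (tendsto_const_nhds.prodMk_nhds (trunc_tendsto _)))
        (Eventually.of_forall fun n => mem_iUnion.2 ⟨n, c, hc, rfl⟩)
    · exact subset_closure (mem_iUnion.2 ⟨n, c, hc, rfl⟩)

instance : ConnectedSpace M := by
  refine connectedSpace_iff_univ.2 ⟨⟨π (0, path []), trivial⟩, isPreconnected_of_forall (π (0, path []))
    fun m _ => ?_⟩
  obtain ⟨x, s, rfl⟩ := surj_π m
  refine ⟨KK univ s, subset_univ _, KK_root (mem_univ _) s, ⟨(x, s), ⟨trivial, Or.inl rfl⟩, rfl⟩,
    (KK_conn isConnected_univ s fun l _ => ?_).2⟩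
  cases l with
  | nil => exact ⟨0, trivial, fun _ _ => rfl⟩
  | cons a l => exact ⟨_, trivial, W_cons.2 (Or.inl rfl)⟩

def used (t : SS) : Set ℝ := ⋃ l ∈ {l | t.1 l = true}, ⋃ α ∈ l, (α.1 : Set ℝ)

theorem used_countable (t : SS) : (used t).Countable := by
  refine Countable.biUnion ?_ fun l _ => l.finite_toSet.countable.biUnion fun α _ =>
    α.1.countable_toSet
  exact countable_of_injective_of_countable_image (f := List.length)
    (fun l h l' h' e => t.2.2.2 _ _ h h' e) (to_countable _)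

theorem arm {x y : X} {s t : SS} (h : π (y, t) ≠ π (x, s)) {ξ : ℝ} (h1 : ξ ∉ used t)
    (h2 : y ≠ x → ∃ η, η ≠ ξ ∧ y η ≠ x η) {c : I} (hc : c = 0 ∨ c = 1) (hx : x ξ ≠ c) :
    ∃ K : Set M, IsClosed K ∧ IsConnected K ∧ π (y, t) ∈ K ∧ π (fun _ => c, path []) ∈ K ∧
      π (x, s) ∉ K := by
  classical
  have hZ : IsConnected {u : X | u ξ = c} := by
    have : {u : X | u ξ = c} = range fun u : X => Function.update u ξ c := by
      ext u
      refine ⟨fun h => ⟨u, by rw [← show u ξ = c from h]; simp⟩, ?_⟩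
      rintro ⟨v, rfl⟩; simp
    rw [this]
    exact isConnected_range (by fun_prop)
  have hc2 : Continuous fun r : I => π (Function.update y ξ r, t) := cont_π.comp (by fun_prop)
  refine ⟨range (fun r : I => π (Function.update y ξ r, t)) ∪ KK {u | u ξ = c} t,
    (isCompact_range hc2).isClosed.union
      (KK_closed (isClosed_eq (continuous_apply ξ) continuous_const) t),
    IsConnected.union ⟨π (Function.update y ξ c, t), ⟨c, rfl⟩,
      (_, t), ⟨by simp, Or.inl rfl⟩, rfl⟩ (isConnected_range hc2) (KK_conn hZ t fun l hl => ?_),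
    Or.inl ⟨y ξ, by simp⟩, Or.inr (KK_root (C := {u | u ξ = c}) rfl t), ?_⟩
  · cases l with
    | nil => exact ⟨fun _ => c, rfl, fun _ _ => rfl⟩
    | cons α l =>
      have : ξ ∉ α.1 := fun h => h1 (mem_iUnion₂.2 ⟨_, hl, mem_iUnion₂.2 ⟨α, by simp, h⟩⟩)
      refine ⟨pt α c, by simp [pt, this], W_cons.2 ?_⟩
      rcases hc with rfl | rfl
      · exact Or.inl rfl
      · exact Or.inr rfl
  · rintro (⟨r, hr⟩ | ⟨⟨u, s'⟩, ⟨hu, -⟩, hr⟩)
    · have e := (π_eq.1 hr).1
      by_cases hy : y = x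
      · subst hy
        exact h (by simp only [e] at hr; exact hr)
      · obtain ⟨η, h3, h4⟩ := h2 hy
        exact h4 (by rw [← e]; simp [h3])
    · exact hx ((π_eq.1 hr).1 ▸ hu)

theorem no_cut (P Y Z : M) (hY : Y ≠ P) (hZ : Z ≠ P) :
    ∃ K : Set M, IsClosed K ∧ IsConnected K ∧ Y ∈ K ∧ Z ∈ K ∧ P ∉ K := by
  obtain ⟨x, s, rfl⟩ := surj_π P
  obtain ⟨y, t, rfl⟩ := surj_π Y
  obtain ⟨z, u, rfl⟩ := surj_π Z
  have h : ∀ y : X, ∃ η, y ≠ x → y η ≠ x η := fun y => by
    by_cases h : y = x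
    · exact ⟨0, fun h' => absurd h h'⟩
    · obtain ⟨η, h⟩ := Function.ne_iff.1 h
      exact ⟨η, fun _ => h⟩
  obtain ⟨η, hη⟩ := h y
  obtain ⟨ζ, hζ⟩ := h z
  obtain ⟨ξ, hξ⟩ : ∃ ξ, ξ ∉ insert η (insert ζ (used t ∪ used u)) := by
    by_contra hc
    push Not at hc
    exact not_countable_univ (((((used_countable t).union (used_countable u)).insert ζ).insert
      η).mono fun ξ _ => hc ξ)
  simp only [mem_insert_iff, mem_union, not_or] at hξ
  obtain ⟨c, hc, hx⟩ : ∃ c : I, (c = 0 ∨ c = 1) ∧ x ξ ≠ c := by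
    by_cases h : x ξ = 0
    · exact ⟨1, Or.inr rfl, by rw [h]; exact zero_ne_one⟩
    · exact ⟨0, Or.inl rfl, h⟩
  obtain ⟨K, a1, a2, a3, a4, a5⟩ :=
    arm hY hξ.2.2.1 (fun h => ⟨η, Ne.symm hξ.1, hη h⟩) hc hx
  obtain ⟨L, b1, b2, b3, b4, b5⟩ :=
    arm hZ hξ.2.2.2 (fun h => ⟨ζ, Ne.symm hξ.2.1, hζ h⟩) hc hx
  exact ⟨K ∪ L, a1.union b1, a2.union ⟨_, a4, b4⟩ b2, Or.inl a3, Or.inr b3,
    fun h => h.elim a5 b5⟩

theorem not_slc (P : M) : ∃ U : Set M, IsOpen U ∧ P ∈ U ∧ ∀ V : Set M, IsOpen V → P ∈ V → V ⊆ U →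
    {C : Set M | ∃ x ∈ Vᶜ, C = connectedComponentIn Vᶜ x}.Infinite := by
  classical
  obtain ⟨x, s, rfl⟩ := surj_π P
  obtain ⟨y, hy⟩ := exists_ne x
  refine ⟨{m | m.1.1 ≠ y}, isOpen_ne_fun (continuous_fst.comp continuous_subtype_val)
    continuous_const, hy.symm, fun V hV hP hVU => ?_⟩
  obtain ⟨O, hO, N, hN, hON⟩ := mem_nhds_prod_iff.1 ((hV.preimage cont_π).mem_nhds hP)
  obtain ⟨G, hG⟩ : ∃ G : Finset ℝ, ∀ u : X, (∀ ξ ∈ G, u ξ = x ξ) → u ∈ O := by
    rw [nhds_pi, Filter.mem_pi'] at hO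
    obtain ⟨G, t, h1, h2⟩ := hO
    exact ⟨G, fun u hu => h2 fun ξ hξ => hu ξ hξ ▸ mem_of_mem_nhds (h1 ξ)⟩
  obtain ⟨F, hF⟩ : ∃ F : Finset (List A), ∀ s' : SS, (∀ l ∈ F, s'.1 l = s.1 l) → s' ∈ N := by
    obtain ⟨N', h0, h3⟩ := (mem_nhds_subtype _ _ _).1 hN
    rw [nhds_pi, Filter.mem_pi'] at h0
    obtain ⟨F, t, h1, h2⟩ := h0
    exact ⟨F, fun u hu => h3 (h2 fun l hl => hu l hl ▸ mem_of_mem_nhds (h1 l))⟩
  obtain ⟨ρ, hρ1, hρ2⟩ := ((insert [] F).filter fun l => s.1 l = true).exists_max_image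
    List.length ⟨[], by simp [s.2.1]⟩
  simp only [Finset.mem_filter] at hρ1 hρ2
  let τ : ℕ → List A := fun n => (G, x, n) :: ρ
  have hτ : Function.Injective τ := fun m n h => by simpa [τ] using h
  have hB : (τ ⁻¹' F)ᶜ.Infinite := (F.finite_toSet.preimage hτ.injOn).infinite_compl
  have hN' : ∀ n, τ n ∉ F → path (τ n) ∈ N := by
    intro n hn
    refine hF _ fun l hl => Bool.eq_iff_iff.2 ⟨fun h => ?_, fun h => path_iff.2 ?_⟩
    · rcases List.suffix_cons_iff.1 (path_iff.1 h) with h | h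
      · exact absurd (show (G, x, n) :: ρ ∈ F from h ▸ hl) hn
      · exact down s h hρ1.2
    · exact (chain s h hρ1.2 (hρ2 l ⟨Finset.mem_insert_of_mem hl, h⟩)).trans
        (List.suffix_cons _ _)
  have hQ : ∀ n, π (y, path (τ n)) ∈ Vᶜ := fun n h => hVU h rfl
  refine infinite_of_injOn_mapsTo (f := fun n => connectedComponentIn Vᶜ (π (y, path (τ n))))
    (fun m hm n _ hmn => ?_) (fun n _ => ⟨_, hQ n, rfl⟩) hB
  by_contra hne
  have hcl : ∀ b, IsClosed (π '' {p | p.2.1 (τ m) = b}) := fun b =>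
    ((isClosed_eq (cont_ev _) continuous_const).isCompact.image cont_π).isClosed
  obtain ⟨w, hw, ⟨⟨z, s₁⟩, h1, rfl⟩, ⟨z', s₂⟩, h2, h3⟩ :=
    isPreconnected_closed_iff.1 (isPreconnected_connectedComponentIn (F := Vᶜ)
      (x := π (y, path (τ m)))) _ _ (hcl true) (hcl false)
      (fun w _ => by
        obtain ⟨z, s', rfl⟩ := surj_π w
        cases h : s'.1 (τ m)
        · exact Or.inr ⟨_, h, rfl⟩
        · exact Or.inl ⟨_, h, rfl⟩)
      ⟨_, mem_connectedComponentIn (hQ m), _, path_iff.2 (List.suffix_refl _), rfl⟩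
      ⟨π (y, path (τ n)), by
        have := mem_connectedComponentIn (hQ n)
        simp only at hmn
        rwa [hmn], _, by
        simp only [mem_ofPred_eq, ← Bool.not_eq_true, path_iff]
        exact fun h => hne (hτ (h.eq_of_length rfl)), rfl⟩
  simp only [mem_ofPred_eq] at h1 h2
  obtain ⟨-, h4⟩ := π_eq.1 h3.symm
  have h5 : π (z, s₁) = π (z, path (τ m)) := by
    refine π_eq.2 ⟨rfl, fun l hl => h4 l fun e => hl ?_⟩
    refine Bool.eq_iff_iff.2 ⟨fun h => path_iff.2 ?_, fun h => down s₁ (path_iff.1 h) h1⟩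
    rcases le_total l.length (τ m).length with h' | h'
    · exact chain s₁ h h1 h'
    · have := down s₂ (chain s₁ h1 h h') (e ▸ h)
      rw [h2] at this
      exact absurd this (by simp)
  refine connectedComponentIn_subset _ _ hw (h5 ▸ hON (mk_mem_prod (hG z fun ξ hξ => ?_)
    (hN' m hm)))
  rcases W_cons.1 (h4 (τ m) (by rw [h1, h2]; simp)) with rfl | rfl <;> simp [pt, hξ]

end Pool.Agent.H84.Wcut
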