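import Mathlib

set_option autoImplicit false

open Set TopologicalSpace

namespace Pool.Agent.H84.WijDefs

universe u

/-- The nonempty closed subsets of `X`. -/
def Hyp (X : Type u) [TopologicalSpace X] : Type u := {A : Set X // IsClosed A ∧ A.Nonempty}

/-- The Wijsman topology: the weakest topology making all maps `A ↦ d(x,A)` continuous. -/
noncomputable instance wijsman (X : Type u) [MetricSpace X] : TopologicalSpace (Hyp X) :=
  ⨅ x : X, TopologicalSpace.induced (fun A : Hyp X => Metric.infDist x A.1) inferInstance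

def IsPiBase {Y : Type u} [TopologicalSpace Y] (P : Set (Set Y)) : Prop :=
  (∀ V ∈ P, IsOpen V ∧ V.Nonempty) ∧ ∀ U : Set Y, IsOpen U → U.Nonempty → ∃ V ∈ P, V ⊆ U

def QuasiRegular (Y : Type u) [TopologicalSpace Y] : Prop :=
  ∀ U : Set Y, IsOpen U → U.Nonempty → ∃ V : Set Y, IsOpen V ∧ V.Nonempty ∧ closure V ⊆ U

def Pseudocomplete (Y : Type u) [TopologicalSpace Y] : Prop :=
  QuasiRegular Y ∧ ∃ P : ℕ → Set (Set Y), (∀ n, IsPiBase (P n)) ∧
    ∀ V : ℕ → Set Y, (∀ n, V n ∈ P n) → (∀ n, closure (V (n + 1)) ⊆ V n) → (⋂ n, V n).Nonempty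

/-- A filter base: a nonempty, downward directed family of nonempty sets. -/
def IsFilterBase {Y : Type u} (F : Set (Set Y)) : Prop :=
  F.Nonempty ∧ (∀ A ∈ F, A.Nonempty) ∧ ∀ A ∈ F, ∀ A' ∈ F, ∃ C ∈ F, C ⊆ A ∩ A'

def Subcompact (Y : Type u) [TopologicalSpace Y] : Prop :=
  RegularSpace Y ∧ ∃ B : Set (Set Y), IsTopologicalBasis B ∧
    ∀ F ⊆ B, IsFilterBase F → (∀ A ∈ F, ∃ G ∈ F, closure G ⊆ A) → (⋂₀ F).Nonempty

/-- A centered family: a nonempty family whose nonempty finite subfamilies have a common point. -/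
def Centered {Y : Type u} (C : Set (Set Y)) : Prop :=
  C.Nonempty ∧ ∀ T ⊆ C, T.Finite → T.Nonempty → (⋂₀ T).Nonempty

def BaseCompact (Y : Type u) [TopologicalSpace Y] : Prop :=
  RegularSpace Y ∧ ∃ B : Set (Set Y), IsTopologicalBasis B ∧
    ∀ C ⊆ B, Centered C → (⋂ A ∈ C, closure A).Nonempty

end Pool.Agent.H84.WijDefs
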