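import Mathlib
import Pool.Agent.H84.WijDefs
import Pool.Agent.H84.Choquet

set_option autoImplicit false

open Set Topology Filter Metric TopologicalSpace

namespace Pool.Agent.H84.WijA

open WijDefs

universe u

variable {X : Type u} [MetricSpace X]

theorem cont (y : X) : Continuous (fun A : Hyp X => infDist y A.1) :=
  continuous_iInf_dom continuous_induced_dom

theorem regular : RegularSpace (Hyp X) :=
  regularSpace_iInf fun _ => regularSpace_induced _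

theorem t3 : T3Space (Hyp X) := by
  have := regular (X := X)
  have : T0Space (Hyp X) := by
    refine ⟨fun A B hAB => Subtype.ext ?_⟩
    have h : ∀ x, infDist x A.1 = infDist x B.1 := fun x => (hAB.map (cont x)).eq
    ext x
    rw [A.2.1.mem_iff_infDist_zero A.2.2, B.2.1.mem_iff_infDist_zero B.2.2, h]
  exact {}

theorem nb {A0 : Hyp X} {U : Set (Hyp X)} (hU : U ∈ 𝓝 A0) :
    ∃ F : Set X, F.Finite ∧ F.Nonempty ∧ ∃ ε > 0,
      ∀ A : Hyp X, (∀ x ∈ F, |infDist x A.1 - infDist x A0.1| < ε) → A ∈ U := by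
  obtain ⟨x0, -⟩ := A0.2.2
  let G : Filter (Hyp X) :=
    { sets := {U | ∃ F : Set X, F.Finite ∧ F.Nonempty ∧ ∃ ε > 0,
        ∀ A : Hyp X, (∀ x ∈ F, |infDist x A.1 - infDist x A0.1| < ε) → A ∈ U}
      univ_sets := ⟨{x0}, finite_singleton _, singleton_nonempty _, 1, one_pos, fun _ _ => trivial⟩
      sets_of_superset := by
        rintro s t ⟨F, h1, h2, ε, hε, h⟩ hst
        exact ⟨F, h1, h2, ε, hε, fun A hA => hst (h A hA)⟩
      inter_sets := by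
        rintro s t ⟨F, h1, h2, ε, hε, h⟩ ⟨F', h1', -, ε', hε', h'⟩
        exact ⟨F ∪ F', h1.union h1', h2.inl, min ε ε', lt_min hε hε', fun A hA =>
          ⟨h A fun x hx => (hA x (Or.inl hx)).trans_le (min_le_left _ _),
           h' A fun x hx => (hA x (Or.inr hx)).trans_le (min_le_right _ _)⟩⟩ }
  have : G ≤ 𝓝 A0 := by
    unfold wijsman
    rw [nhds_iInf]
    refine le_iInf fun x => ?_
    rw [nhds_induced]
    rintro s ⟨t, ht, hts⟩
    obtain ⟨ε, hε, hb⟩ := Metric.mem_nhds_iff.1 ht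
    exact ⟨{x}, finite_singleton _, singleton_nonempty _, ε, hε, fun A hA =>
      hts (hb (by simpa [Real.dist_eq] using hA))⟩
  exact this hU

theorem nb2 {A0 : Hyp X} {U : Set (Hyp X)} (hU : U ∈ 𝓝 A0) :
    ∃ C ⊆ A0.1, C.Finite ∧ C.Nonempty ∧ ∃ ε > 0, ∀ A : Hyp X,
      (∀ c ∈ C, ∃ a ∈ A.1, dist a c < ε) → (∀ a ∈ A.1, ∃ z ∈ A0.1, dist a z < ε) → A ∈ U := by
  obtain ⟨F, hF, hFn, ε, hε, h⟩ := nb hU
  have : ∀ x, ∃ c ∈ A0.1, dist x c < infDist x A0.1 + ε / 2 := fun x =>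
    (infDist_lt_iff A0.2.2).1 (by linarith)
  choose c hc1 hc2 using this
  refine ⟨c '' F, by rintro _ ⟨x, -, rfl⟩; exact hc1 x, hF.image _, hFn.image _, ε / 2,
    half_pos hε, fun A h1 h2 => h A fun x hx => ?_⟩
  rw [abs_lt]
  constructor
  · have : infDist x A0.1 - ε / 2 ≤ infDist x A.1 := by
      refine (le_infDist A.2.2).2 fun a ha => ?_
      obtain ⟨z, hz, haz⟩ := h2 a ha
      have := infDist_le_dist_of_mem (x := x) hz
      have := dist_triangle x a z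
      linarith
    linarith
  · obtain ⟨a, ha, hac⟩ := h1 _ ⟨x, hx, rfl⟩
    have := infDist_le_dist_of_mem (x := x) ha
    have := dist_triangle_right x a (c x)
    have := hc2 x
    linarith

def allowed (M : Set (X × ℝ)) : Set X := {z | ∀ q ∈ M, q.2 < dist q.1 z}

def N (H : Set (Set X)) (M : Set (X × ℝ)) : Set (Hyp X) :=
  {A | (∀ W ∈ H, (A.1 ∩ W).Nonempty) ∧ ∀ q ∈ M, q.2 < infDist q.1 A.1}

theorem allowed_open {M : Set (X × ℝ)} (hM : M.Finite) : IsOpen (allowed M) := by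
  have : allowed M = ⋂ q ∈ M, {z | q.2 < dist q.1 z} := by ext z; simp [allowed]
  rw [this]
  exact hM.isOpen_biInter fun q _ => isOpen_lt continuous_const (by fun_prop)

theorem hit_open {W : Set X} (hW : IsOpen W) : IsOpen {A : Hyp X | (A.1 ∩ W).Nonempty} := by
  rw [isOpen_iff_mem_nhds]
  rintro A ⟨x, hxA, hxW⟩
  obtain ⟨ε, hε, hb⟩ := Metric.isOpen_iff.1 hW x hxW
  have : {B : Hyp X | infDist x B.1 < ε} ∈ 𝓝 A :=
    (isOpen_lt (cont x) continuous_const).mem_nhds (by simpa [infDist_zero_of_mem hxA] using hε)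
  filter_upwards [this] with B hB
  obtain ⟨z, hz, hxz⟩ := (infDist_lt_iff B.2.2).1 hB
  exact ⟨z, hz, hb (by rwa [mem_ball, dist_comm])⟩

theorem N_open {H : Set (Set X)} {M : Set (X × ℝ)} (hH : H.Finite) (hM : M.Finite)
    (ho : ∀ W ∈ H, IsOpen W) : IsOpen (N H M) := by
  have : N H M = (⋂ W ∈ H, {A : Hyp X | (A.1 ∩ W).Nonempty}) ∩
      ⋂ q ∈ M, {A : Hyp X | q.2 < infDist q.1 A.1} := by ext A; simp [N]
  rw [this]
  exact (hH.isOpen_biInter fun W hW => hit_open (ho W hW)).inter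
    (hM.isOpen_biInter fun q _ => isOpen_lt continuous_const (cont _))

def fin (C : Set X) (h : C.Finite) (hn : C.Nonempty) : Hyp X := ⟨C, h.isClosed, hn⟩

theorem fin_mem {H : Set (Set X)} {M : Set (X × ℝ)} {C : Set X} (h : C.Finite) (hn : C.Nonempty)
    (hC : C ⊆ allowed M) (hH : ∀ W ∈ H, (C ∩ W).Nonempty) : fin C h hn ∈ N H M := by
  refine ⟨hH, fun q hq => ?_⟩
  obtain ⟨z, hz, e⟩ := h.isCompact.exists_infDist_eq_dist hn q.1
  show q.2 < infDist q.1 C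
  rw [e]
  exact hC hz q hq

/-- Tidy data. -/
def Tidy (H : Set (Set X)) (M : Set (X × ℝ)) : Prop :=
  H.Finite ∧ H.Nonempty ∧ M.Finite ∧ ∀ W ∈ H, IsOpen W ∧ W.Nonempty ∧ W ⊆ allowed M

theorem Tidy.isOpen {H : Set (Set X)} {M : Set (X × ℝ)} (h : Tidy H M) : IsOpen (N H M) :=
  N_open h.1 h.2.2.1 fun W hW => (h.2.2.2 W hW).1

theorem Tidy.sel {H : Set (Set X)} {M : Set (X × ℝ)} (h : Tidy H M) (a : Set X → X)
    (ha : ∀ W ∈ H, a W ∈ W) : fin (a '' H) (h.1.image _) (h.2.1.image _) ∈ N H M :=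
  fin_mem _ _ (by rintro _ ⟨W, hW, rfl⟩; exact (h.2.2.2 W hW).2.2 (ha W hW))
    fun W hW => ⟨a W, ⟨W, hW, rfl⟩, ha W hW⟩

theorem Tidy.nonempty {H : Set (Set X)} {M : Set (X × ℝ)} (h : Tidy H M) : (N H M).Nonempty := by
  obtain ⟨W0, hW0⟩ := h.2.1
  have : Nonempty X := ⟨(h.2.2.2 W0 hW0).2.1.some⟩
  choose! a ha using fun W hW => (h.2.2.2 W hW).2.1
  exact ⟨_, h.sel a ha⟩

theorem Tidy.refine {H H' : Set (Set X)} {M M' : Set (X × ℝ)} (h : Tidy H' M')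
    (hs : N H' M' ⊆ N H M) :
    (∀ W ∈ H, ∃ W' ∈ H', W' ⊆ W) ∧ ∀ W' ∈ H', W' ⊆ allowed M := by
  classical
  obtain ⟨W0, hW0⟩ := h.2.1
  have : Nonempty X := ⟨(h.2.2.2 W0 hW0).2.1.some⟩
  constructor
  · intro W hW
    by_contra hc
    push Not at hc
    choose! a ha1 ha2 using fun W' hW' => not_subset.1 (hc W' hW')
    obtain ⟨_, ⟨W', hW', rfl⟩, hz⟩ := (hs (h.sel a ha1)).1 W hW
    exact ha2 W' hW' hz
  · intro W' hW' z hz q hq
    choose! a ha using fun W hW => (h.2.2.2 W hW).2.1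
    have := (hs (h.sel (Function.update a W' z) (fun W hW => by
      by_cases e : W = W'
      · subst e; simpa using hz
      · simpa [e] using ha W hW))).2 q hq
    exact this.trans_le (infDist_le_dist_of_mem ⟨W', hW', by simp⟩)

theorem mem_closure_N {H : Set (Set X)} {M : Set (X × ℝ)} (hH : H.Finite) (A0 : Hyp X)
    (h1 : ∀ a ∈ A0.1, a ∈ closure (allowed M))
    (h2 : ∀ W ∈ H, ∃ a ∈ A0.1, a ∈ closure (W ∩ allowed M)) : A0 ∈ closure (N H M) := by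
  rw [mem_closure_iff_nhds]
  intro U hU
  obtain ⟨C, hCA, hC, hCn, ε, hε, h⟩ := nb2 hU
  have : Nonempty X := ⟨hCn.some⟩
  choose! p hp1 hp2 using fun a ha => Metric.mem_closure_iff.1 (h1 a ha) ε hε
  choose! a ha1 ha2 using h2
  choose! q hq1 hq2 using fun W hW => Metric.mem_closure_iff.1 (ha2 W hW) ε hε
  refine ⟨fin (p '' C ∪ q '' H) ((hC.image _).union (hH.image _)) (hCn.image _).inl, h _ ?_ ?_,
    fin_mem _ _ ?_ ?_⟩
  · intro c hc
    exact ⟨p c, Or.inl ⟨c, hc, rfl⟩, by rw [dist_comm]; exact hp2 c (hCA hc)⟩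
  · rintro _ (⟨c, hc, rfl⟩ | ⟨W, hW, rfl⟩)
    · exact ⟨c, hCA hc, by rw [dist_comm]; exact hp2 c (hCA hc)⟩
    · exact ⟨a W, ha1 W hW, by rw [dist_comm]; exact hq2 W hW⟩
  · rintro _ (⟨c, hc, rfl⟩ | ⟨W, hW, rfl⟩)
    · exact hp1 c (hCA hc)
    · exact (hq1 W hW).2
  · intro W hW
    exact ⟨q W, Or.inr ⟨W, hW, rfl⟩, (hq1 W hW).1⟩

theorem base {A0 : Hyp X} {U : Set (Hyp X)} (hU : U ∈ 𝓝 A0) :
    ∃ (F : Set X) (M : Set (X × ℝ)) (O : X → Set X), F.Finite ∧ F.Nonempty ∧ M.Finite ∧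
      (∀ x, IsOpen (O x) ∧ (A0.1 ∩ O x).Nonempty ∧ O x ⊆ allowed M) ∧
      (∀ q ∈ M, q.2 < infDist q.1 A0.1) ∧
      ∀ W : X → Set X, (∀ x, W x ⊆ O x) → N (W '' F) M ⊆ U := by
  obtain ⟨F, hF, hFn, ε, hε, h⟩ := nb hU
  let M : Set (X × ℝ) := (fun x => (x, infDist x A0.1 - ε)) '' F
  have hM : ∀ q ∈ M, q.2 < infDist q.1 A0.1 := by
    rintro _ ⟨x, -, rfl⟩
    simpa using hε
  refine ⟨F, M, fun x => ball x (infDist x A0.1 + ε) ∩ allowed M, hF, hFn, hF.image _,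
    fun x => ⟨isOpen_ball.inter (allowed_open (hF.image _)), ?_, inter_subset_right⟩, hM, ?_⟩
  · obtain ⟨c, hc, hxc⟩ := (infDist_lt_iff A0.2.2).1
      (show infDist x A0.1 < infDist x A0.1 + ε by linarith)
    exact ⟨c, hc, by rwa [mem_ball, dist_comm],
      fun q hq => (hM q hq).trans_le (infDist_le_dist_of_mem hc)⟩
  · intro W hW A hA
    refine h A fun x hx => ?_
    obtain ⟨z, hz, hzW⟩ := hA.1 _ ⟨x, hx, rfl⟩
    have h1 := mem_ball.1 (hW x hzW).1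
    have h2 := infDist_le_dist_of_mem (x := x) hz
    have h3 := hA.2 _ ⟨x, hx, rfl⟩
    rw [dist_comm] at h1
    rw [abs_lt]
    constructor <;> simp only at h3 <;> linarith

/-! ### Part (a) -/

theorem cellular {Y : Type u} [TopologicalSpace Y] {P : Set (Set Y)} (hP : IsPiBase P) :
    ∃ U ⊆ P, (∀ V ∈ U, ∀ V' ∈ U, (V ∩ V').Nonempty → V = V') ∧
      ∀ O : Set Y, IsOpen O → O.Nonempty → ∃ V ∈ U, (O ∩ V).Nonempty := by
  obtain ⟨U, hU⟩ := zorn_subset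
    {U : Set (Set Y) | U ⊆ P ∧ ∀ V ∈ U, ∀ V' ∈ U, (V ∩ V').Nonempty → V = V'} (by
    intro c hc hch
    refine ⟨⋃₀ c, ⟨sUnion_subset fun s hs => (hc hs).1, ?_⟩, fun s hs => subset_sUnion_of_mem hs⟩
    rintro a ⟨s, hs, ha⟩ b ⟨s', hs', hb⟩ hab
    rcases hch.total hs hs' with h | h
    · exact (hc hs').2 a (h ha) b hb hab
    · exact (hc hs).2 a ha b (h hb) hab)
  refine ⟨U, hU.1.1, hU.1.2, fun O hO hOn => ?_⟩
  by_contra hc
  push Not at hc
  obtain ⟨V, hV, hVO⟩ := hP.2 O hO hOn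
  have hd : ∀ V' ∈ U, ¬ (V ∩ V').Nonempty := fun V' hV' h => by
    have := h.mono (inter_subset_inter_left _ hVO)
    rw [hc V' hV'] at this
    exact not_nonempty_empty this
  have : insert V U ⊆ U := hU.2 ⟨insert_subset hV hU.1.1, by
    rintro a (rfl | ha) b (rfl | hb) hab
    · rfl
    · exact (hd b hb hab).elim
    · exact (hd a ha (by rwa [inter_comm])).elim
    · exact hU.1.2 a ha b hb hab⟩ (subset_insert _ _)
  exact hd V (this (mem_insert _ _)) (by simpa using (hP.1 V hV).2)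

theorem good_pi (h : Pseudocomplete X) : ∃ R : ℕ → Set (Set X), (∀ n, IsPiBase (R n)) ∧
    (∀ m n, m ≤ n → R n ⊆ R m) ∧
    ∀ W : ℕ → Set X, (∀ n, W n ∈ R n) → Antitone W → ∃ a, ∀ n, a ∈ closure (W n) := by
  obtain ⟨hq, P, hP, hlim⟩ := h
  let D : Set (Set X) → Prop := fun U => (∀ V ∈ U, IsOpen V) ∧
    ∀ O : Set X, IsOpen O → O.Nonempty → ∃ V ∈ U, (O ∩ V).Nonempty
  have key : ∀ (U : {U // D U}) (n : ℕ), ∃ U' : {U // D U}, U'.1 ⊆ P n ∧
      (∀ V ∈ U'.1, ∀ V' ∈ U'.1, (V ∩ V').Nonempty → V = V') ∧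
      ∀ V ∈ U'.1, (∃ V' ∈ U.1, closure V ⊆ V') ∧ ∃ x, V ⊆ ball x (1 / (n + 1)) := by
    intro U n
    obtain ⟨U', h1, h2, h3⟩ := cellular (P := {V ∈ P n | (∃ V' ∈ U.1, closure V ⊆ V') ∧
        ∃ x, V ⊆ ball x (1 / (n + 1))}) ⟨fun V hV => (hP n).1 V hV.1, by
      intro O hO hOn
      obtain ⟨V', hV', x, hx⟩ := U.2.2 O hO hOn
      obtain ⟨O', hO', hO'n, hcl⟩ := hq (O ∩ V' ∩ ball x (1 / (n + 1)))
        ((hO.inter (U.2.1 V' hV')).inter isOpen_ball) ⟨x, hx, mem_ball_self (by positivity)⟩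
      obtain ⟨V, hV, hVO⟩ := (hP n).2 O' hO' hO'n
      have : closure V ⊆ O ∩ V' ∩ ball x (1 / (n + 1)) := (closure_mono hVO).trans hcl
      exact ⟨V, ⟨hV, ⟨V', hV', fun z hz => (this hz).1.2⟩, x,
        fun z hz => (this (subset_closure hz)).2⟩, fun z hz => (this (subset_closure hz)).1.1⟩⟩
    exact ⟨⟨U', fun V hV => ((hP n).1 V (h1 hV).1).1, h3⟩, fun V hV => (h1 hV).1, h2,
      fun V hV => (h1 hV).2⟩
  choose nx k1 k2 k3 using key
  let U0 : {U // D U} := ⟨{univ}, by simp, fun O _ hO => ⟨univ, rfl, by simpa using hO⟩⟩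
  let U : ℕ → {U // D U} := fun n => Nat.rec (nx U0 0) (fun n U => nx U (n + 1)) n
  have u1 : ∀ n, (U n).1 ⊆ P n := fun n => by cases n <;> exact k1 _ _
  have u2 : ∀ n, ∀ V ∈ (U n).1, ∀ V' ∈ (U n).1, (V ∩ V').Nonempty → V = V' := fun n => by
    cases n <;> exact k2 _ _
  have u3 : ∀ n, ∀ V ∈ (U n).1, ∃ x, V ⊆ ball x (1 / (n + 1)) := fun n => by
    cases n with
    | zero => exact fun V hV => (k3 _ _ V hV).2
    | succ n => exact fun V hV => (k3 _ _ V hV).2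
  have u4 : ∀ n, ∀ V ∈ (U (n + 1)).1, ∃ V' ∈ (U n).1, closure V ⊆ V' :=
    fun n V hV => (k3 _ _ V hV).1
  have u5 : ∀ n, ∀ V ∈ (U n).1, ∀ m ≤ n, ∃ V' ∈ (U m).1, V ⊆ V' := by
    intro n
    induction n with
    | zero => intro V hV m hm; obtain rfl := Nat.le_zero.1 hm; exact ⟨V, hV, subset_rfl⟩
    | succ n ih =>
      intro V hV m hm
      rcases Nat.le_succ_iff.1 hm with hm | rfl
      · obtain ⟨V', hV', hc⟩ := u4 n V hV
        obtain ⟨V'', hV'', hc'⟩ := ih V' hV' m hm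
        exact ⟨V'', hV'', subset_closure.trans (hc.trans hc')⟩
      · exact ⟨V, hV, subset_rfl⟩
  refine ⟨fun n => {W | IsOpen W ∧ W.Nonempty ∧ ∀ m ≤ n, ∃ V ∈ (U m).1, W ⊆ V},
    fun n => ⟨fun W hW => ⟨hW.1, hW.2.1⟩, fun O hO hOn => ?_⟩,
    fun m n hmn W hW => ⟨hW.1, hW.2.1, fun k hk => hW.2.2 k (hk.trans hmn)⟩, ?_⟩
  · obtain ⟨V, hV, hne⟩ := (U n).2.2 O hO hOn
    refine ⟨O ∩ V, ⟨hO.inter ((U n).2.1 V hV), hne, fun m hm => ?_⟩, inter_subset_left⟩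
    obtain ⟨V', hV', hc⟩ := u5 n V hV m hm
    exact ⟨V', hV', inter_subset_right.trans hc⟩
  · intro W hW hanti
    choose V hV1 hV2 using fun n => (hW n).2.2 n le_rfl
    obtain ⟨a, ha⟩ := hlim V (fun n => u1 n (hV1 n)) (fun n => by
      obtain ⟨V', hV', hc⟩ := u4 n _ (hV1 (n + 1))
      obtain ⟨z, hz⟩ := (hW (n + 1)).2.1
      rwa [← u2 n V' hV' _ (hV1 n) ⟨z, hc (subset_closure (hV2 _ hz)),
        hV2 n (hanti (Nat.le_succ n) hz)⟩])
    refine ⟨a, fun k => Metric.mem_closure_iff.2 fun ε hε => ?_⟩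
    obtain ⟨n, hn⟩ := exists_nat_one_div_lt (half_pos hε)
    obtain ⟨z, hz⟩ := (hW (n + k)).2.1
    obtain ⟨x, hx⟩ := u3 (n + k) _ (hV1 (n + k))
    refine ⟨z, hanti (Nat.le_add_left k n) hz, ?_⟩
    have h1 := mem_ball.1 (hx (hV2 _ hz))
    have h2 := mem_ball.1 (hx (mem_iInter.1 ha (n + k)))
    have h3 := dist_triangle_right a z x
    have h4 : (1 : ℝ) / ((n + k : ℕ) + 1) ≤ 1 / (n + 1) :=
      one_div_le_one_div_of_le (by positivity) (by push_cast; linarith [Nat.cast_nonneg (α := ℝ) k])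
    linarith

theorem partA (h : Pseudocomplete X) : Pseudocomplete (Hyp X) := by
  have := regular (X := X)
  obtain ⟨R, hR, hmono, hlim⟩ := good_pi h
  refine ⟨fun U hU ⟨A, hA⟩ => ?_, fun n => {V | ∃ H M, V = N H M ∧ Tidy H M ∧ H ⊆ R n},
    fun n => ⟨?_, ?_⟩, ?_⟩
  · obtain ⟨K, hK, hKc, hKU⟩ := exists_mem_nhds_isClosed_subset (hU.mem_nhds hA)
    exact ⟨interior K, isOpen_interior, ⟨A, mem_interior_iff_mem_nhds.2 hK⟩,
      (closure_minimal interior_subset hKc).trans hKU⟩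
  · rintro _ ⟨H, M, rfl, hT, -⟩
    exact ⟨hT.isOpen, hT.nonempty⟩
  · rintro U hU ⟨A, hA⟩
    obtain ⟨F, M, O, hF, hFn, hM, hO, -, hN⟩ := base (hU.mem_nhds hA)
    choose W hW1 hW2 using fun x => (hR n).2 (O x) (hO x).1 ((hO x).2.1.mono inter_subset_right)
    refine ⟨_, ⟨W '' F, M, rfl, ⟨hF.image _, hFn.image _, hM, ?_⟩, ?_⟩, hN W hW2⟩
    · rintro _ ⟨x, -, rfl⟩
      exact ⟨((hR n).1 _ (hW1 x)).1, ((hR n).1 _ (hW1 x)).2, (hW2 x).trans (hO x).2.2⟩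
    · rintro _ ⟨x, -, rfl⟩
      exact hW1 x
  · intro V hV hcl
    choose H M e hT hH using hV
    have hanti : Antitone V := antitone_nat_of_succ_le fun n => subset_closure.trans (hcl n)
    have href : ∀ m n, m ≤ n → (∀ W ∈ H m, ∃ W' ∈ H n, W' ⊆ W) ∧ ∀ W' ∈ H n, W' ⊆ allowed (M m) :=
      fun m n hmn => (hT n).refine (by rw [← e, ← e]; exact hanti hmn)
    have key : ∀ m, ∀ W ∈ H m, ∃ a, ∀ n, a ∈ closure (W ∩ allowed (M n)) := by
      intro m W hW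
      choose! f hf1 hf2 using fun n => (href n (n + 1) (Nat.le_succ n)).1
      let s : ℕ → Set X := fun k => Nat.rec W (fun k W => f (m + k) W) k
      have hs : ∀ k, s k ∈ H (m + k) := by
        intro k
        induction k with
        | zero => exact hW
        | succ k ih => exact hf1 _ _ ih
      have hsa : Antitone s := antitone_nat_of_succ_le fun k => hf2 _ _ (hs k)
      obtain ⟨a, ha⟩ := hlim s (fun k => hmono _ _ (Nat.le_add_left k m) (hH _ (hs k))) hsa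
      refine ⟨a, fun n => closure_mono ?_ (ha n)⟩
      exact subset_inter (hsa (Nat.zero_le n)) ((href n _ (Nat.le_add_left n m)).2 _ (hs n))
    obtain ⟨W0, hW0⟩ := (hT 0).2.1
    obtain ⟨a0, ha0⟩ := key 0 W0 hW0
    let A0 : Hyp X := ⟨⋂ n, closure (allowed (M n)), isClosed_iInter fun _ => isClosed_closure,
      a0, mem_iInter.2 fun n => closure_mono inter_subset_right (ha0 n)⟩
    refine ⟨A0, mem_iInter.2 fun n => hcl n ?_⟩
    rw [e]
    refine mem_closure_N (hT _).1 A0 (fun a ha => mem_iInter.1 ha _) fun W hW => ?_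
    obtain ⟨a, ha⟩ := key _ W hW
    exact ⟨a, mem_iInter.2 fun n => closure_mono inter_subset_right (ha n), ha _⟩

/-! ### Part (b) -/

theorem complete_of_subcompact (h : Subcompact X) : IsCompletelyMetrizableSpace X := by
  obtain ⟨-, B, hB, hlim⟩ := h
  refine Choquet.complete_of_sieve (S := Set X) (V := interior)
    (R := fun s s' => s' ∈ B ∧ s'.Nonempty ∧ closure s' ⊆ s) (s0 := univ)
    ⟨fun _ => isOpen_interior, ?_, ?_⟩ interior_univ
  · intro s x hx U hU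
    obtain ⟨K, hK, hKc, hKU⟩ := exists_mem_nhds_isClosed_subset
      (inter_mem hU (mem_interior_iff_mem_nhds.1 hx))
    obtain ⟨s', hs', hxs, hsK⟩ := hB.mem_nhds_iff.1 hK
    refine ⟨s', ⟨hs', ⟨x, hxs⟩, (closure_minimal hsK hKc).trans fun z hz => (hKU hz).2⟩, ?_,
      fun z hz => (hKU (hsK (interior_subset hz))).1⟩
    rwa [(hB.isOpen hs').interior_eq]
  · intro s _ hR
    have hanti : Antitone s := antitone_nat_of_succ_le fun n => subset_closure.trans (hR n).2.2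
    obtain ⟨x, hx⟩ := hlim (range fun n => s (n + 1)) (by rintro _ ⟨n, rfl⟩; exact (hR n).1)
      ⟨range_nonempty _, by rintro _ ⟨n, rfl⟩; exact (hR n).2.1, by
        rintro _ ⟨n, rfl⟩ _ ⟨m, rfl⟩
        exact ⟨_, ⟨n + m, rfl⟩, subset_inter (hanti (by omega)) (hanti (by omega))⟩⟩ (by
        rintro _ ⟨n, rfl⟩
        exact ⟨_, ⟨n + 1, rfl⟩, (hR (n + 1)).2.2⟩)
    refine ⟨x, mem_iInter.2 fun n => ?_⟩
    exact interior_maximal (hanti (Nat.le_succ n)) (hB.isOpen (hR n).1) (hx _ ⟨n, rfl⟩)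

theorem good_base (Y : Type u) [TopologicalSpace Y] [IsCompletelyMetrizableSpace Y] :
    ∃ B : Set (Set Y), (∀ W ∈ B, IsOpen W) ∧ (∀ y, ∀ U ∈ 𝓝 y, ∃ W ∈ B, y ∈ W ∧ W ⊆ U) ∧
      ∀ W : ℕ → Set Y, (∀ n, W n ∈ B) → StrictAnti W → ∃ a, ∀ U ∈ 𝓝 a, ∃ n, W n ⊆ U := by
  let _ := upgradeIsCompletelyMetrizable Y
  have key : ∀ n : ℕ, ∃ V : Set (Set Y), (∀ W ∈ V, IsOpen W ∧ ∃ x, W ⊆ ball x (1 / (n + 1))) ∧
      (∀ y, ∃ W ∈ V, y ∈ W) ∧ ∀ W ∈ V, ∀ W' ∈ V, W ⊆ W' → W' ⊆ W := by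
    intro n
    obtain ⟨v, vo, vc, vf, vu⟩ := precise_refinement (fun x : Y => ball x (1 / (n + 1 : ℝ)))
      (fun _ => isOpen_ball) (eq_univ_of_forall fun x => mem_iUnion.2 ⟨x, mem_ball_self
        (by positivity)⟩)
    refine ⟨{W ∈ range v | ∀ W' ∈ range v, W ⊆ W' → W' ⊆ W}, ?_, ?_,
      fun W hW W' hW' h => hW.2 W' hW'.1 h⟩
    · rintro _ ⟨⟨x, rfl⟩, -⟩
      exact ⟨vo x, x, vu x⟩
    · intro y
      have hne : (v '' {i | y ∈ v i}).Nonempty := by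
        have : y ∈ ⋃ i, v i := by rw [vc]; trivial
        obtain ⟨i, hi⟩ := mem_iUnion.1 this
        exact ⟨_, i, hi, rfl⟩
      obtain ⟨W, ⟨i, hi, rfl⟩, hmax⟩ := ((vf.point_finite y).image v).exists_maximal hne
      refine ⟨v i, ⟨⟨i, rfl⟩, ?_⟩, hi⟩
      rintro _ ⟨j, rfl⟩ hij
      exact hmax ⟨j, hij hi, rfl⟩ hij
  choose V h1 h2 h3 using key
  refine ⟨⋃ n, V n, ?_, ?_, ?_⟩
  · intro W hW
    obtain ⟨n, hn⟩ := mem_iUnion.1 hW
    exact (h1 n W hn).1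
  · intro y U hU
    obtain ⟨ε, hε, hb⟩ := Metric.mem_nhds_iff.1 hU
    obtain ⟨n, hn⟩ := exists_nat_one_div_lt (half_pos hε)
    obtain ⟨W, hW, hy⟩ := h2 n y
    obtain ⟨x, hx⟩ := (h1 n W hW).2
    refine ⟨W, mem_iUnion.2 ⟨n, hW⟩, hy, fun z hz => hb ?_⟩
    have := mem_ball.1 (hx hy)
    have := mem_ball.1 (hx hz)
    have := dist_triangle_right z y x
    rw [mem_ball]; linarith
  · intro W hW hanti
    choose k hk using fun n => mem_iUnion.1 (hW n)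
    have hinj : Function.Injective k := by
      intro a b hab
      by_contra hne
      rcases lt_or_gt_of_ne hne with h | h
      · exact (hanti h).2 (h3 (k b) _ (hk b) _ (hab ▸ hk a) (hanti h).1)
      · exact (hanti h).2 (h3 (k a) _ (hk a) _ (hab ▸ hk b) (hanti h).1)
    have hne : ∀ n, (W n).Nonempty := fun n => by
      obtain ⟨z, hz, -⟩ := not_subset.1 (hanti (Nat.lt_succ_self n)).2
      exact ⟨z, hz⟩
    choose w hw using hne
    have hd : ∀ n, ∀ a ∈ W n, ∀ b ∈ W n, dist a b ≤ 2 * (1 / (k n + 1 : ℝ)) := by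
      intro n a ha b hb
      obtain ⟨x, hx⟩ := (h1 _ _ (hk n)).2
      have := mem_ball.1 (hx ha)
      have := mem_ball.1 (hx hb)
      have := dist_triangle_right a b x
      linarith
    have ht : Tendsto (fun n => 2 * (1 / (k n + 1 : ℝ))) atTop (𝓝 0) := by
      have := (tendsto_one_div_add_atTop_nhds_zero_nat (𝕜 := ℝ)).comp hinj.nat_tendsto_atTop
      simpa using this.const_mul 2
    obtain ⟨a, ha⟩ := cauchySeq_tendsto_of_complete (cauchySeq_of_le_tendsto_0' (s := w) _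
      (fun n m hnm => hd n _ (hw n) _ (hanti.antitone hnm (hw m))) ht)
    refine ⟨a, fun U hU => ?_⟩
    obtain ⟨ε, hε, hb⟩ := Metric.mem_nhds_iff.1 hU
    obtain ⟨n, hn1, hn2⟩ := ((ht.eventually (gt_mem_nhds (half_pos hε))).and
      (ha.eventually (ball_mem_nhds a (half_pos hε)))).exists
    refine ⟨n, fun z hz => hb ?_⟩
    have := hd n z hz _ (hw n)
    have := dist_triangle z (w n) a
    rw [mem_ball]
    linarith

theorem partB (h : Subcompact X) : Subcompact (Hyp X) := by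
  have := complete_of_subcompact h
  obtain ⟨B, hBo, hBn, hlim⟩ := good_base X
  refine ⟨regular, {V | ∃ H M, V = N H M ∧ Tidy H M ∧ H ⊆ B}, ?_, ?_⟩
  · refine isTopologicalBasis_of_isOpen_of_nhds ?_ ?_
    · rintro _ ⟨H, M, rfl, hT, -⟩
      exact hT.isOpen
    · intro A U hA hU
      obtain ⟨F, M, O, hF, hFn, hM, hO, hMA, hN⟩ := base (hU.mem_nhds hA)
      choose c hc1 hc2 using fun x => (hO x).2.1
      choose W hW1 hW2 hW3 using fun x => hBn (c x) (O x) ((hO x).1.mem_nhds (hc2 x))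
      refine ⟨_, ⟨W '' F, M, rfl, ⟨hF.image _, hFn.image _, hM, ?_⟩, ?_⟩, ⟨?_, hMA⟩, hN W hW3⟩
      · rintro _ ⟨x, -, rfl⟩
        exact ⟨hBo _ (hW1 x), ⟨_, hW2 x⟩, (hW3 x).trans (hO x).2.2⟩
      · rintro _ ⟨x, -, rfl⟩
        exact hW1 x
      · rintro _ ⟨x, -, rfl⟩
        exact ⟨c x, hc1 x, hW2 x⟩
  · intro F hF ⟨⟨G0, hG0⟩, _, hdir⟩ hreg
    have hF' : ∀ G, G ∈ F → ∃ H M, G = N H M ∧ Tidy H M ∧ H ⊆ B := fun G hG => hF hG
    choose! H M e hT hH using hF'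
    let 𝒲 : Set (Set X) := {W | ∃ G ∈ F, W ∈ H G}
    have hW : ∀ W ∈ 𝒲, ∀ G ∈ F, ∃ W' ∈ 𝒲, W' ⊆ W ∩ allowed (M G) := by
      rintro W ⟨G', hG', hW⟩ G hG
      obtain ⟨C, hC, hCs⟩ := hdir G' hG' G hG
      obtain ⟨W', hW', h1⟩ := ((hT _ hC).refine (H := H G') (M := M G') (by
        rw [← e _ hC, ← e _ hG']; exact hCs.trans inter_subset_left)).1 W hW
      exact ⟨W', ⟨C, hC, hW'⟩, subset_inter h1 (((hT _ hC).refine (H := H G) (M := M G) (by
        rw [← e _ hC, ← e _ hG]; exact hCs.trans inter_subset_right)).2 W' hW')⟩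
    have hWn : ∀ W ∈ 𝒲, W.Nonempty := fun W ⟨G, hG, hW⟩ => ((hT _ hG).2.2.2 W hW).2.1
    have key : ∀ W ∈ 𝒲, ∃ a, ∀ G ∈ F, a ∈ closure (W ∩ allowed (M G)) := by
      intro W hW0
      by_cases hmin : ∃ W' ∈ 𝒲, W' ⊆ W ∧ ∀ W'' ∈ 𝒲, W'' ⊆ W' → W' ⊆ W''
      · obtain ⟨W', h1, h2, h3⟩ := hmin
        obtain ⟨a, ha⟩ := hWn W' h1
        refine ⟨a, fun G hG => subset_closure ⟨h2 ha, ?_⟩⟩
        obtain ⟨W'', h4, h5⟩ := hW W' h1 G hG
        exact (h5 (h3 W'' h4 (h5.trans inter_subset_left) ha)).2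
      · push Not at hmin
        choose! f hf1 hf2 hf3 using hmin
        let s : ℕ → Set X := fun k => Nat.rec W (fun _ W => f W) k
        have hs : ∀ k, s k ∈ 𝒲 ∧ s k ⊆ W := by
          intro k
          induction k with
          | zero => exact ⟨hW0, subset_rfl⟩
          | succ k ih => exact ⟨hf1 _ ih.1 ih.2, (hf2 _ ih.1 ih.2).trans ih.2⟩
        obtain ⟨a, ha⟩ := hlim s (fun k => by
          obtain ⟨G, hG, hW⟩ := (hs k).1
          exact hH _ hG hW) (strictAnti_nat_of_succ_lt fun k =>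
            ⟨hf2 _ (hs k).1 (hs k).2, hf3 _ (hs k).1 (hs k).2⟩)
        refine ⟨a, fun G hG => mem_closure_iff_nhds.2 fun U hU => ?_⟩
        obtain ⟨n, hn⟩ := ha U hU
        obtain ⟨W', h1, h2⟩ := hW _ (hs n).1 G hG
        obtain ⟨z, hz⟩ := hWn W' h1
        exact ⟨z, hn (h2 hz).1, (hs n).2 (h2 hz).1, (h2 hz).2⟩
    obtain ⟨W0, hW0⟩ := (hT _ hG0).2.1
    obtain ⟨a0, ha0⟩ := key W0 ⟨G0, hG0, hW0⟩
    let A0 : Hyp X := ⟨⋂ G ∈ F, closure (allowed (M G)),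
      isClosed_biInter fun _ _ => isClosed_closure,
      a0, mem_iInter₂.2 fun G hG => closure_mono inter_subset_right (ha0 G hG)⟩
    refine ⟨A0, fun G' hG' => ?_⟩
    obtain ⟨G, hG, hcl⟩ := hreg G' hG'
    apply hcl
    rw [e _ hG]
    refine mem_closure_N (hT _ hG).1 A0 (fun a ha => mem_iInter₂.1 ha G hG) fun W hW => ?_
    obtain ⟨a, ha⟩ := key W ⟨G, hG, hW⟩
    exact ⟨a, mem_iInter₂.2 fun G hG => closure_mono inter_subset_right (ha G hG), ha G hG⟩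

end Pool.Agent.H84.WijA
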