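import Mathlib
import Pool.Agent.H84.WijA

set_option autoImplicit false

open Set Topology Filter Metric TopologicalSpace

namespace Pool.Agent.H84.WijC

open WijDefs WijA

inductive XX : Type
  | hub (i : ℝ) : XX
  | pt (i : ℝ) (l k : ℕ) : XX
  | y (l : ℕ) (g : ℝ → ℕ) : XX

open XX

noncomputable def ρ (l : ℕ) : ℝ := 1 / (l + 2)

theorem ρ_pos (l : ℕ) : 0 < ρ l := by unfold ρ; positivity

theorem ρ_le (l : ℕ) : ρ l ≤ 1 / 2 :=
  one_div_le_one_div_of_le (by norm_num) (by linarith [Nat.cast_nonneg (α := ℝ) l])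

def col : XX → Option ℝ
  | hub i => some i
  | pt i _ _ => some i
  | y _ _ => none

noncomputable def w : XX → ℝ
  | hub _ => 0
  | pt _ l _ => ρ l
  | y _ _ => 0

def Near (a b : XX) : Prop := ∃ i, col a = some i ∧ col b = some i

def In (a b : XX) : Prop := ∃ i l k g, a = pt i l k ∧ b = y l g ∧ g i ≤ k

open Classical in
noncomputable def χ (a b : XX) : ℝ := if In a b then w a else if In b a then w b else 0

open Classical in
noncomputable def D (a b : XX) : ℝ :=
  if a = b then 0 else if Near a b then max (w a) (w b) else 1 + χ a b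

theorem w0 (a : XX) : 0 ≤ w a := by
  cases a <;> simp [w, (ρ_pos _).le]

theorem w1 (a : XX) : w a ≤ 1 / 2 := by
  cases a <;> simp only [w, ρ_le] <;> norm_num

theorem χ0 (a b : XX) : 0 ≤ χ a b := by
  unfold χ; split_ifs <;> simp [w0]

theorem χ1 (a b : XX) : χ a b ≤ 1 / 2 := by
  unfold χ; split_ifs
  · exact w1 _
  · exact w1 _
  · norm_num

theorem not_in_in {a b : XX} (h : In a b) : ¬ In b a := by
  obtain ⟨i, l, k, g, rfl, rfl, -⟩ := h
  rintro ⟨i, l, k, g, h, -⟩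
  cases h

theorem χc (a b : XX) : χ a b = χ b a := by
  unfold χ
  by_cases h : In a b
  · simp [h, not_in_in h]
  · by_cases h' : In b a <;> simp [h, h']

theorem Near.symm {a b : XX} (h : Near a b) : Near b a := let ⟨i, h1, h2⟩ := h; ⟨i, h2, h1⟩

theorem Near.trans {a b c : XX} (h : Near a b) (h' : Near b c) : Near a c := by
  obtain ⟨i, h1, h2⟩ := h
  obtain ⟨j, h3, h4⟩ := h'
  rw [h2] at h3
  exact ⟨i, h1, h3 ▸ h4⟩

theorem χ_near {a b : XX} (h : Near a b) (c : XX) : χ a c ≤ w a := by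
  unfold χ
  split_ifs with h1 h2
  · exact le_rfl
  · obtain ⟨i, l, k, g, -, rfl, -⟩ := h2
    obtain ⟨i, h, -⟩ := h
    cases h
  · exact w0 a

theorem Dc (a b : XX) : D a b = D b a := by
  unfold D
  by_cases h : a = b
  · simp [h]
  · by_cases h' : Near a b
    · simp [h, Ne.symm h, h', h'.symm, max_comm]
    · simp [h, Ne.symm h, h', show ¬ Near b a from fun h => h' h.symm, χc a b]

theorem D_near {a b : XX} (h : a ≠ b) (h' : Near a b) : D a b = max (w a) (w b) := by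
  simp [D, h, h']

theorem D_far {a b : XX} (h : a ≠ b) (h' : ¬ Near a b) : D a b = 1 + χ a b := by
  simp [D, h, h']

theorem D_ge {a b : XX} (h : a ≠ b) : w a ≤ D a b := by
  by_cases h' : Near a b
  · rw [D_near h h']; exact le_max_left _ _
  · rw [D_far h h']; linarith [w1 a, χ0 a b]

theorem D0 (a b : XX) : 0 ≤ D a b := by
  by_cases h : a = b
  · simp [D, h]
  · exact (w0 a).trans (D_ge h)

theorem D_self (a : XX) : D a a = 0 := by simp [D]

theorem D_tri (a b c : XX) : D a c ≤ D a b + D b c := by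
  by_cases hab : a = b
  · simp [hab, D_self]
  by_cases hbc : b = c
  · simp [hbc, D_self]
  by_cases hac : a = c
  · rw [hac, D_self]; linarith [D0 c b, D0 b c]
  have h1 := D_ge hab
  have h2 := D_ge (Ne.symm hbc)
  rw [Dc c b] at h2
  by_cases n : Near a c
  · rw [D_near hac n]
    exact max_le (by linarith [w0 c]) (by linarith [w0 a])
  rw [D_far hac n]
  by_cases n1 : Near a b
  · rw [D_far hbc (fun h => n (n1.trans h))]
    linarith [χ_near n1 c, χ0 b c]
  by_cases n2 : Near b c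
  · rw [D_far hab n1]
    have := χ_near n2.symm a
    rw [χc] at this
    linarith [χ0 a b]
  · rw [D_far hab n1, D_far hbc n2]
    linarith [χ1 a c, χ0 a b, χ0 b c]

theorem D_eq {a b : XX} (h : D a b = 0) : a = b := by
  by_contra hab
  by_cases n : Near a b
  · rw [D_near hab n] at h
    have h1 : w a ≤ 0 := h ▸ le_max_left _ _
    have h2 : w b ≤ 0 := h ▸ le_max_right _ _
    obtain ⟨i, e1, e2⟩ := n
    have key : ∀ c, col c = some i → w c ≤ 0 → c = hub i := by
      intro c hc hw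
      cases c with
      | hub j => cases hc; rfl
      | pt j l k => exact absurd (ρ_pos l) (not_lt.2 hw)
      | y l g => cases hc
    exact hab ((key a e1 h1).trans (key b e2 h2).symm)
  · rw [D_far hab n] at h
    linarith [χ0 a b]

noncomputable instance : MetricSpace XX where
  dist := D
  dist_self := D_self
  dist_comm := Dc
  dist_triangle := D_tri
  eq_of_dist_eq_zero := D_eq

theorem dist_def (a b : XX) : dist a b = D a b := rfl

theorem near_of_lt {a b : XX} (h : dist a b < 1) : a = b ∨ Near a b := by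
  by_contra hc
  push Not at hc
  rw [dist_def, D_far hc.1 hc.2] at h
  linarith [χ0 a b]

theorem col_of_lt {a : XX} {i : ℝ} (h : dist a (hub i) < 1) : col a = some i := by
  rcases near_of_lt h with rfl | ⟨j, h1, h2⟩
  · rfl
  · rw [h1, ← h2]; rfl

theorem dist_pt_hub (i : ℝ) (l k : ℕ) : dist (pt i l k) (hub i) = ρ l := by
  rw [dist_def, D_near (by simp) ⟨i, rfl, rfl⟩]
  simp [w, (ρ_pos l).le]

theorem dist_y_pt {i : ℝ} {l k : ℕ} {g : ℝ → ℕ} (h : g i ≤ k) :
    dist (y l g) (pt i l k) = 1 + ρ l := by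
  rw [dist_comm, dist_def, D_far (by simp) (by rintro ⟨j, -, h⟩; cases h)]
  simp [χ, show In (pt i l k) (y l g) from ⟨i, l, k, g, rfl, rfl, h⟩, w]

theorem in_of_gt {a : XX} {l : ℕ} {g : ℝ → ℕ} (h : 1 < dist (y l g) a) :
    ∃ i k, a = pt i l k ∧ g i ≤ k := by
  by_contra hc
  have h1 : ¬ In a (y l g) := by
    rintro ⟨i, l', k, g', rfl, e, hk⟩
    cases e
    exact hc ⟨i, k, rfl, hk⟩
  have h2 : ¬ In (y l g) a := by
    rintro ⟨i, l', k, g', e, -⟩
    cases e
  by_cases e : y l g = a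
  · rw [e, dist_self] at h; linarith
  · rw [dist_def, D_far e (by rintro ⟨j, h, -⟩; cases h)] at h
    simp [χ, h1, h2] at h

theorem iso {a : XX} (h : ∀ i, a ≠ hub i) : IsOpen ({a} : Set XX) := by
  rw [Metric.isOpen_singleton_iff]
  cases a with
  | hub i => exact (h i rfl).elim
  | pt i l k =>
    refine ⟨ρ l, ρ_pos l, fun b hb => ?_⟩
    by_contra hne
    have := D_ge (Ne.symm hne)
    rw [dist_comm, dist_def] at hb
    exact absurd this (not_le.2 hb)
  | y l g =>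
    refine ⟨1, one_pos, fun b hb => ?_⟩
    rcases near_of_lt hb with h | ⟨j, -, h⟩
    · exact h
    · cases h

theorem baseCompact : BaseCompact XX := by
  refine ⟨inferInstance, {U | (∃ z, U = {z} ∧ IsOpen U) ∨
    ∃ i δ, 0 < δ ∧ δ ≤ 1 ∧ U = ball (hub i) δ}, ?_, ?_⟩
  · refine isTopologicalBasis_of_isOpen_of_nhds ?_ ?_
    · rintro _ (⟨z, -, h⟩ | ⟨i, δ, -, -, rfl⟩)
      · exact h
      · exact isOpen_ball
    · intro a U ha hU
      by_cases h : ∀ i, a ≠ hub i
      · exact ⟨{a}, Or.inl ⟨a, rfl, iso h⟩, rfl, singleton_subset_iff.2 ha⟩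
      · push Not at h
        obtain ⟨i, rfl⟩ := h
        obtain ⟨ε, hε, hb⟩ := Metric.isOpen_iff.1 hU _ ha
        exact ⟨_, Or.inr ⟨i, min ε 1, lt_min hε one_pos, min_le_right _ _, rfl⟩,
          mem_ball_self (lt_min hε one_pos), (ball_subset_ball (min_le_left _ _)).trans hb⟩
  · rintro C hC ⟨⟨U0, hU0⟩, hcen⟩
    have pair : ∀ U ∈ C, ∀ V ∈ C, (U ∩ V).Nonempty := fun U hU V hV => by
      simpa using hcen {U, V} (insert_subset hU (singleton_subset_iff.2 hV)) (toFinite _)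
        (insert_nonempty _ _)
    by_cases h : ∃ z, {z} ∈ C
    · obtain ⟨z, hz⟩ := h
      refine ⟨z, mem_iInter₂.2 fun U hU => subset_closure ?_⟩
      simpa using pair _ hz U hU
    · have h' : ∀ U ∈ C, ∃ i δ, 0 < δ ∧ δ ≤ 1 ∧ U = ball (hub i) δ := fun U hU =>
        (hC hU).resolve_left (by rintro ⟨z, rfl, -⟩; exact h ⟨z, hU⟩)
      obtain ⟨i, δ, -, h1, rfl⟩ := h' U0 hU0
      refine ⟨hub i, mem_iInter₂.2 fun U hU => subset_closure ?_⟩
      obtain ⟨j, δ', h0, h2, rfl⟩ := h' U hU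
      obtain ⟨z, hz1, hz2⟩ := pair _ hU0 _ hU
      have e1 := col_of_lt ((mem_ball.1 hz1).trans_le h1)
      have e2 := col_of_lt ((mem_ball.1 hz2).trans_le h2)
      rw [e1] at e2
      cases e2
      exact mem_ball_self h0

theorem closed_of_sep {S : Set XX} {δ : ℝ} (hδ : 0 < δ)
    (h : ∀ a ∈ S, ∀ b ∈ S, a ≠ b → δ ≤ dist a b) : IsClosed S :=
  isClosed_of_pairwise_le_dist hδ h

def P0 : Hyp XX := ⟨range hub, closed_of_sep one_pos (by
  rintro _ ⟨i, rfl⟩ _ ⟨j, rfl⟩ hne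
  by_contra hlt
  have := col_of_lt (not_le.1 hlt)
  cases this
  exact hne rfl), range_nonempty _⟩

def UU (l : ℕ) (g : ℝ → ℕ) : Hyp XX := ⟨{a | ∃ i k, a = pt i l k ∧ g i ≤ k},
  closed_of_sep (ρ_pos l) (by
    rintro _ ⟨i, k, rfl, -⟩ b - hne
    exact D_ge hne), ⟨_, 0, g 0, rfl, le_rfl⟩⟩

theorem not_baseCompact : ¬ BaseCompact (Hyp XX) := by
  classical
  rintro ⟨-, B, hB, hlim⟩
  have hF : ∀ i : ℝ, ∃ F ∈ B, P0 ∈ F ∧ F ⊆ {A : Hyp XX | infDist (hub i) A.1 < 3 / 4} :=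
    fun i => hB.mem_nhds_iff.1 ((isOpen_lt (cont _) continuous_const).mem_nhds (by
      show infDist (hub i) (range hub) < 3 / 4
      rw [infDist_zero_of_mem (mem_range_self i)]; norm_num))
  choose F hFB hFP hFs using hF
  choose CF hCF1 hCF2 hCF3 ε hε hCF4 using fun i => nb2 ((hB.isOpen (hFB i)).mem_nhds (hFP i))
  have hL : ∀ i, ∃ l, ρ l < ε i := fun i => by
    obtain ⟨n, hn⟩ := exists_nat_one_div_lt (hε i)
    exact ⟨n, lt_of_le_of_lt (one_div_le_one_div_of_le (by positivity) (by linarith)) hn⟩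
  choose L hL using hL
  obtain ⟨l, hl⟩ : ∃ l, {i | L i = l}.Infinite := by
    by_contra hc
    push Not at hc
    have : (⋃ l, {i | L i = l}).Countable := countable_iUnion fun l => (hc l).countable
    exact not_countable_univ (this.mono fun i _ => mem_iUnion.2 ⟨L i, rfl⟩)
  let j : ℕ → ℝ := fun n => hl.natEmbedding _ n
  have hj : Function.Injective j := fun a b h => (hl.natEmbedding _).injective (Subtype.ext h)
  have hjl : ∀ n, L (j n) = l := fun n => (hl.natEmbedding _ n).2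
  let ex : (ℕ → ℕ) → ℝ → ℕ := fun g => Function.extend j g 0
  have hex : ∀ g n, ex g (j n) = g n := fun g n => hj.extend_apply _ _ _
  have hex' : ∀ g i, i ∉ range j → ex g i = 0 := fun g i hi => Function.extend_apply' _ _ _ hi
  have hG : ∀ g : ℕ → ℕ, ∃ G ∈ B, UU l (ex g) ∈ G ∧
      G ⊆ {A : Hyp XX | 1 + ρ l / 2 < infDist (y l (ex g)) A.1} :=
    fun g => hB.mem_nhds_iff.1 ((isOpen_lt continuous_const (cont _)).mem_nhds (by
      have : 1 + ρ l ≤ infDist (y l (ex g)) (UU l (ex g)).1 := by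
        refine (le_infDist (UU l (ex g)).2.2).2 ?_
        rintro _ ⟨i, k, rfl, hk⟩
        rw [dist_y_pt hk]
      show 1 + ρ l / 2 < _
      linarith [ρ_pos l]))
  choose G hGB hGU hGs using hG
  choose CG hCG1 hCG2 hCG3 η hη hCG4 using fun g => nb2 ((hB.isOpen (hGB g)).mem_nhds (hGU g))
  have hRfin : ∀ g, {q : ℕ × ℕ | pt (j q.1) l q.2 ∈ CG g}.Finite := fun g =>
    (hCG2 g).preimage (f := fun q : ℕ × ℕ => pt (j q.1) l q.2) (fun a _ b _ h => by
      injection h with h1 _ h2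
      exact Prod.ext (hj h1) h2)
  let R : (ℕ → ℕ) → Finset (ℕ × ℕ) := fun g => (hRfin g).toFinset
  obtain ⟨R0, n, hunb⟩ : ∃ (R0 : Finset (ℕ × ℕ)) (n : ℕ), ∀ b, ∃ g, R g = R0 ∧ b < g n := by
    by_contra hc
    push Not at hc
    choose b hb using hc
    obtain ⟨e, he⟩ := exists_surjective_nat (Finset (ℕ × ℕ))
    obtain ⟨n, hn⟩ := he (R fun n => b (e n) n + 1)
    have := hb (e n) n _ hn.symm
    simp at this
  have hcomp : ∀ g g', R g = R0 → R g' = R0 → CG g ⊆ (UU l (ex g')).1 := by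
    intro g g' h h' a ha
    obtain ⟨i, k, rfl, hk⟩ := hCG1 g ha
    by_cases hi : i ∈ range j
    · obtain ⟨m, rfl⟩ := hi
      have : (m, k) ∈ R g' := by
        rw [h', ← h]
        simpa [R] using ha
      exact hCG1 g' (by simpa [R] using this)
    · exact ⟨i, k, rfl, by rw [hex' _ _ hi]; exact Nat.zero_le _⟩
  obtain ⟨A, hA⟩ := hlim (insert (F (j n)) (G '' {g | R g = R0})) (by
    rintro _ (rfl | ⟨g, -, rfl⟩)
    · exact hFB _
    · exact hGB _) ⟨insert_nonempty _ _, by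
    intro T hT hTf _
    obtain ⟨Γ, hΓ, hΓf, hTΓ⟩ := Finite.exists_subset_finite_image_eq
      (hTf.subset sdiff_subset)
      (show T \ {F (j n)} ⊆ G '' {g | R g = R0} from fun U hU => (hT hU.1).resolve_left hU.2)
    have hK : ∀ i, ∃ K, ∀ g ∈ Γ, ex g i ≤ K := fun i => by
      obtain ⟨K, hK⟩ := (hΓf.image fun g => ex g i).bddAbove
      exact ⟨K, fun g hg => hK ⟨g, hg, rfl⟩⟩
    choose K hK using hK
    let I0 : Set ℝ := hub ⁻¹' CF (j n)
    have hI0 : I0.Finite := (hCF2 _).preimage (fun a _ b _ h => by injection h)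
    have hI0n : I0.Nonempty := by
      obtain ⟨c, hc⟩ := hCF3 (j n)
      obtain ⟨i, rfl⟩ := hCF1 _ hc
      exact ⟨i, hc⟩
    let S : Set XX := (fun i => pt i l (K i)) '' I0 ∪ ⋃ g ∈ Γ, CG g
    have hS : S.Finite := (hI0.image _).union (hΓf.biUnion fun g _ => hCG2 g)
    have hεl : ρ l < ε (j n) := by rw [← hjl n]; exact hL _
    refine ⟨fin S hS (hI0n.image _).inl, fun U hU => ?_⟩
    by_cases hUF : U = F (j n)
    · subst hUF
      refine hCF4 _ _ (fun c hc => ?_) ?_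
      · obtain ⟨i, rfl⟩ := hCF1 _ hc
        exact ⟨_, Or.inl ⟨i, hc, rfl⟩, by rwa [dist_pt_hub]⟩
      · rintro a (⟨i, -, rfl⟩ | ha)
        · exact ⟨_, ⟨i, rfl⟩, by rwa [dist_pt_hub]⟩
        · obtain ⟨g, -, ha⟩ := mem_iUnion₂.1 ha
          obtain ⟨i, k, rfl, -⟩ := hCG1 g ha
          exact ⟨_, ⟨i, rfl⟩, by rwa [dist_pt_hub]⟩
    · have : U ∈ G '' Γ := by rw [hTΓ]; exact ⟨hU, hUF⟩
      obtain ⟨g, hg, rfl⟩ := this
      refine hCG4 _ _ (fun c hc => ⟨c, Or.inr (mem_iUnion₂.2 ⟨g, hg, hc⟩), by simpa using hη g⟩)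
        (fun a ha => ⟨a, ?_, by simpa using hη g⟩)
      rcases ha with ⟨i, -, rfl⟩ | ha
      · exact ⟨i, _, rfl, hK i g hg⟩
      · obtain ⟨g', hg', ha⟩ := mem_iUnion₂.1 ha
        exact hcomp g' g (hΓ hg') (hΓ hg) ha⟩
  have h1 : infDist (hub (j n)) A.1 ≤ 3 / 4 :=
    closure_minimal (fun B hB => le_of_lt (hFs _ hB)) (isClosed_le (cont _) continuous_const)
      (mem_iInter₂.1 hA _ (mem_insert _ _))
  obtain ⟨a, ha, hlt⟩ := (infDist_lt_iff A.2.2).1 (h1.trans_lt (show (3 : ℝ) / 4 < 1 by norm_num))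
  rw [dist_comm] at hlt
  have hcol := col_of_lt hlt
  have h2 : ∀ g, R g = R0 → ∃ k, a = pt (j n) l k ∧ g n ≤ k := by
    intro g hg
    have h3 : 1 + ρ l / 2 ≤ infDist (y l (ex g)) A.1 :=
      closure_minimal (fun B hB => le_of_lt (hGs _ hB)) (isClosed_le continuous_const (cont _))
        (mem_iInter₂.1 hA _ (Or.inr ⟨g, hg, rfl⟩))
    obtain ⟨i, k, rfl, hk⟩ := in_of_gt (a := a) (l := l) (g := ex g) (by
      have := infDist_le_dist_of_mem (x := y l (ex g)) ha
      linarith [ρ_pos l])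
    cases hcol
    exact ⟨k, rfl, by rwa [hex] at hk⟩
  obtain ⟨g0, hg0, -⟩ := hunb 0
  obtain ⟨k, rfl, -⟩ := h2 g0 hg0
  obtain ⟨g, hg, hk⟩ := hunb k
  obtain ⟨k', e, hk'⟩ := h2 g hg
  injection e with _ _ e
  omega

end Pool.Agent.H84.WijC
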