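import Mathlib
import Pool.Agent.H84.Choquet
import Pool.Agent.H84.Peak

set_option autoImplicit false

open Set Topology Filter Metric TopologicalSpace

namespace Pool.Agent.H84.WijChoquet

open Choquet

abbrev Hyp (X : Type) [TopologicalSpace X] := {A : Set X // IsClosed A ∧ A.Nonempty}

def Wins {Y : Type} (τ : TopologicalSpace Y) : Prop :=
  ∃ σ : List (Y × Set Y) → Set Y,
    (∀ (h : List (Y × Set Y)) (y : Y) (U : Set Y), y ∈ U → @IsOpen _ τ U →
      @IsOpen _ τ (σ (h ++ [(y, U)])) ∧ y ∈ σ (h ++ [(y, U)]) ∧ σ (h ++ [(y, U)]) ⊆ U) ∧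
    ∀ p : ℕ → (Y × Set Y), (∀ n, (p n).1 ∈ (p n).2 ∧ @IsOpen _ τ (p n).2) →
      (∀ n, (p (n + 1)).2 ⊆ σ (List.ofFn (fun i : Fin (n + 1) => p i.val))) →
      (⋂ n, σ (List.ofFn (fun i : Fin (n + 1) => p i.val))).Nonempty

theorem simulate {X : Type} [TopologicalSpace X] {Y : Type} [τ : TopologicalSpace Y]
    (hw : Wins τ) (sing : X → Y) (hs : Continuous sing) (val : Y → Set X)
    (hval : ∀ y, (val y).Nonempty) (Q : Set X) (hQ : IsOpen Q)
    (hloc : ∀ x ∈ Q, ∀ U ∈ 𝓝 x, ∃ O : Set Y, IsOpen O ∧ sing x ∈ O ∧ ∀ A ∈ O, val A ⊆ U) :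
    ∃ (V : List (Y × Set Y) × Set X → Set X) (R : _ → _ → Prop) (s0 : _),
      Sieve V R s0 ∧ V s0 = Q := by
  classical
  obtain ⟨σ, h1, h2⟩ := hw
  let σ' : List (Y × Set Y) → Set Y := fun h => if h = [] then univ else σ h
  have hσ' : ∀ h q, σ' (h ++ [q]) = σ (h ++ [q]) := fun h q => by simp [σ']
  let V : List (Y × Set Y) × Set X → Set X :=
    fun s => interior s.2 ∩ Q ∩ sing ⁻¹' interior (σ' s.1)
  have hVo : ∀ s, IsOpen (V s) := fun s =>
    (isOpen_interior.inter hQ).inter (isOpen_interior.preimage hs)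
  refine ⟨V, fun s s' => ∃ q : Y × Set Y, s'.1 = s.1 ++ [q] ∧ q.1 ∈ q.2 ∧ IsOpen q.2 ∧
    q.2 ⊆ σ' s.1 ∧ ∀ A ∈ q.2, val A ⊆ V s, ([], univ), ⟨hVo, ?_, ?_⟩, by simp [V, σ']⟩
  · intro s x hx U hU
    obtain ⟨O, hO, hxO, hOU⟩ := hloc x hx.1.2 _ ((hVo s).mem_nhds hx)
    have hmem : sing x ∈ interior (σ' s.1) ∩ O := ⟨hx.2, hxO⟩
    have hop : IsOpen (interior (σ' s.1) ∩ O) := isOpen_interior.inter hO
    obtain ⟨a, b, -⟩ := h1 s.1 _ _ hmem hop
    refine ⟨(s.1 ++ [(sing x, interior (σ' s.1) ∩ O)], U), ⟨_, rfl, hmem, hop,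
      fun A hA => interior_subset hA.1, fun A hA => hOU A hA.2⟩,
      ⟨⟨mem_interior_iff_mem_nhds.2 hU, hx.1.2⟩, ?_⟩, fun z hz => interior_subset hz.1.1⟩
    show sing x ∈ interior (σ' _)
    rw [hσ', a.interior_eq]
    exact b
  · intro s hs0 hR
    choose p e1 e2 e3 e4 e5 using hR
    have hh : ∀ n, (s n).1 = List.ofFn (fun i : Fin n => p i.val) := by
      intro n
      induction n with
      | zero => simp [hs0]
      | succ n ih => rw [e1, ih, List.ofFn_succ_last]; simp
    obtain ⟨A, hA⟩ := h2 p (fun n => ⟨e2 n, e3 n⟩) (fun n => by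
      have := e4 (n + 1)
      rw [e1, hσ', ← e1, hh] at this
      exact this)
    obtain ⟨x, hx⟩ := hval A
    refine ⟨x, mem_iInter.2 fun n => e5 n A ?_ hx⟩
    have := mem_iInter.1 hA n
    rw [← hh, e1] at this
    exact (h1 (s n).1 (p n).1 (p n).2 (e2 n) (e3 n)).2.2 this

@[reducible] noncomputable def wij (X : Type) [MetricSpace X] : TopologicalSpace (Hyp X) :=
  ⨅ x : X, TopologicalSpace.induced (fun A : Hyp X => infEDist x A.1) inferInstance

theorem local_sieve {X : Type} [MetricSpace X] (hw : Wins (wij X)) (Q : Set X) (hQ : IsOpen Q)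
    (hloc : ∀ x ∈ Q, ∀ U ∈ 𝓝 x, ∃ y r, r < dist y x ∧ ∀ z, r < dist y z → z ∈ U) :
    ∃ (V : List (Hyp X × Set (Hyp X)) × Set X → Set X) (R : _ → _ → Prop) (s0 : _),
      Sieve V R s0 ∧ V s0 = Q := by
  let _ := wij X
  have hc : ∀ y : X, Continuous (fun A : Hyp X => infEDist y A.1) := fun y =>
    continuous_iInf_dom continuous_induced_dom
  refine simulate hw (fun x => ⟨{x}, isClosed_singleton, singleton_nonempty x⟩) ?_
    (fun A => A.1) (fun A => A.2.2) Q hQ ?_
  · refine continuous_iInf_rng.2 fun y => continuous_induced_rng.2 ?_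
    simp only [Function.comp_def, infEDist_singleton]
    fun_prop
  · intro x hx U hU
    obtain ⟨y, r, hr, hz⟩ := hloc x hx U hU
    by_cases hr0 : r < 0
    · refine ⟨univ, isOpen_univ, trivial, fun A _ z _ => hz z (hr0.trans_le dist_nonneg)⟩
    push Not at hr0
    refine ⟨{A | ENNReal.ofReal r < infEDist y A.1}, isOpen_lt continuous_const (hc y), ?_, ?_⟩
    · simp only [mem_ofPred_eq, infEDist_singleton, edist_dist]
      exact (ENNReal.ofReal_lt_ofReal_iff (hr0.trans_lt hr)).2 hr
    · intro A hA z hzA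
      apply hz
      have := lt_of_lt_of_le hA (infEDist_le_edist_of_mem hzA)
      rw [edist_dist] at this
      exact (ENNReal.ofReal_lt_ofReal_iff_of_nonneg hr0).1 this

theorem main (X : Type) [m0 : MetricSpace X]
    (h : ∀ (m : MetricSpace X) (e : m.toUniformSpace.toTopologicalSpace =
        m0.toUniformSpace.toTopologicalSpace),
      Wins (⨅ x : X, TopologicalSpace.induced
        (fun A : Hyp X => @infEDist X m.toPseudoEMetricSpace x A.1)
          (inferInstance : TopologicalSpace ENNReal))) :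
    IsCompletelyMetrizableSpace X := by
  cases isEmpty_or_nonempty X with
  | inl hX => infer_instance
  | inr hX =>
  obtain ⟨p, hp⟩ := Peak.exists_bad (X := X)
  obtain ⟨V, R, s0, h1, h2⟩ := glue (S := List (Hyp X × Set (Hyp X)) × Set X) p (by
    intro x hx
    obtain ⟨r, hr, hle⟩ := hp x hx
    by_cases hfin : (ball x r).Finite
    · have hop : IsOpen ({x} : Set X) := by
        have : ({x} : Set X) = ball x r \ (ball x r \ {x}) := by
          ext z
          simp only [mem_singleton_iff, Set.mem_sdiff, not_and, not_not]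
          constructor
          · rintro rfl; exact ⟨mem_ball_self hr, fun _ => rfl⟩
          · intro hz; exact hz.2 hz.1
        rw [this]
        exact isOpen_ball.sdiff (hfin.subset sdiff_subset).isClosed
      exact ⟨fun _ => {x}, fun _ _ => True, ([], univ), ⟨fun _ => hop, fun s z hz U hU =>
        ⟨s, trivial, hz, by
          rw [mem_singleton_iff.1 hz] at hU
          exact singleton_subset_iff.2 (mem_of_mem_nhds hU)⟩,
        fun _ _ _ => ⟨x, mem_iInter.2 fun _ => rfl⟩⟩, rfl⟩
    · obtain ⟨d, d1, d2, d3, d4, d5⟩ := Peak.exists_dist x hr hfin hle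
      have d0 : ∀ a b, 0 ≤ d a b := fun a b => (le_min dist_nonneg hr.le).trans (d4 a b)
      have hloc : ∀ z ∈ ball x r, ∀ U ∈ 𝓝 z, ∃ y s, s < d y z ∧ ∀ w, s < d y w → w ∈ U := by
        intro z hz U hU
        obtain ⟨ε, hε, hb⟩ := Metric.mem_nhds_iff.1 hU
        obtain ⟨y, hy1, hy2⟩ := d5 z hz ε hε
        exact ⟨y, r, hy1, fun w hw => hb (hy2 w hw)⟩
      have hQo : IsOpen (ball x r) := isOpen_ball
      have hxQ : x ∈ ball x r := mem_ball_self hr
      generalize ball x r = Q at hloc hQo hxQ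
      let m : MetricSpace X := MetricSpace.ofDistTopology d
        (fun a => le_antisymm (by simpa using d3 a a) (d0 a a)) d1 d2
        (fun s => by
          rw [Metric.isOpen_iff]
          refine forall₂_congr fun a _ => ⟨?_, ?_⟩
          · rintro ⟨ε, hε, hb⟩
            refine ⟨min ε r, lt_min hε hr, fun z hz => hb ?_⟩
            have := (d4 a z).trans_lt hz
            rw [mem_ball, dist_comm]
            rcases min_choice (dist a z) r with h | h <;> rw [h] at this
            · exact this.trans_le (min_le_left _ _)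
            · exact absurd (min_le_right ε r) (not_le.2 this)
          · rintro ⟨ε, hε, hb⟩
            exact ⟨ε, hε, fun z hz => hb z ((d3 a z).trans_lt (by rwa [mem_ball, dist_comm] at hz))⟩)
        (fun a b hab => by
          have := d4 a b
          rw [hab] at this
          rcases min_choice (dist a b) r with h | h <;> rw [h] at this
          · exact dist_le_zero.1 this
          · exact absurd hr (not_lt.2 this))
      obtain ⟨V, R, s0, h1, h2⟩ := @local_sieve X m (h m rfl) Q hQo hloc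
      exact ⟨V, R, s0, h1, h2 ▸ hxQ⟩)
  exact complete_of_sieve h1 h2

end Pool.Agent.H84.WijChoquet
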