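import Mathlib

/-! Weakly pseudocompact neighbourhoods in subgroups of locally compact groups. -/

namespace Pool.Agent.H84.Wpc

open Set Topology Filter MeasureTheory
open scoped Pointwise

universe u v

/-- Every continuous real function is bounded. -/
def Pseudocompact (X : Type u) [TopologicalSpace X] : Prop :=
  ∀ f : X → ℝ, Continuous f → ∃ M, ∀ x, |f x| ≤ M

/-- `X` has a Hausdorff compactification in which it meets every nonempty `Gδ` set. -/
def WeaklyPseudocompact (X : Type u) [TopologicalSpace X] : Prop :=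
  ∃ (K : Type v) (_ : TopologicalSpace K) (_ : CompactSpace K) (_ : T2Space K) (e : X → K),
    IsDenseEmbedding e ∧ ∀ S : Set K, IsGδ S → S.Nonempty → ∃ x, e x ∈ S

theorem strat {X : Type u} [TopologicalSpace X] (hw : WeaklyPseudocompact.{u, v} X)
    {H : Type*} [TopologicalSpace H] {j : X → H} (hj : IsInducing j) :
    ∃ R : Set H → Set H → Prop, (∀ P' P Q, R P' P → P ⊆ Q → R P' Q) ∧
      (∀ P, IsOpen P → (∃ x, j x ∈ P) → ∃ P', IsOpen P' ∧ (∃ x, j x ∈ P') ∧ P' ⊆ P ∧ R P' P) ∧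
      ∀ P : ℕ → Set H, (∀ n, R (P (n + 1)) (P n)) → (∀ n, ∃ x, j x ∈ P n) →
        ∃ x, ∀ n, j x ∈ P n := by
  obtain ⟨K, _, _, _, e, he, hG⟩ := hw
  refine ⟨fun P' P => ∃ O, IsOpen O ∧ closure (e '' (j ⁻¹' P')) ⊆ O ∧ e ⁻¹' O ⊆ j ⁻¹' P,
    fun P' P Q ⟨O, h1, h2, h3⟩ h => ⟨O, h1, h2, h3.trans (preimage_mono h)⟩, ?_, ?_⟩
  · rintro P hP ⟨x, hx⟩
    obtain ⟨O, hO, h1⟩ := he.isInducing.isOpen_iff.1 (hP.preimage hj.continuous)
    obtain ⟨C, c1, c2, c3⟩ := exists_mem_nhds_isClosed_subset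
      (hO.mem_nhds (show x ∈ e ⁻¹' O from h1 ▸ hx))
    obtain ⟨P₀, p1, p2⟩ := hj.isOpen_iff.1 (isOpen_interior (s := C).preimage he.continuous)
    refine ⟨P₀ ∩ P, p1.inter hP, ⟨x, show x ∈ j ⁻¹' P₀ from p2 ▸ mem_interior_iff_mem_nhds.2 c1,
      hx⟩, inter_subset_right, O, hO, (closure_minimal ?_ c2).trans c3, h1.subset⟩
    rintro _ ⟨y, hy, rfl⟩
    exact interior_subset (show y ∈ e ⁻¹' interior C from p2 ▸ hy.1)
  · intro P hR hne
    choose O h1 h2 h3 using hR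
    have h4 : ∀ n, j ⁻¹' P (n + 1) ⊆ j ⁻¹' P n := fun n x hx =>
      h3 n (h2 n (subset_closure ⟨x, hx, rfl⟩))
    obtain ⟨z, hz⟩ := IsCompact.nonempty_iInter_of_sequence_nonempty_isCompact_isClosed
      (fun n => closure (e '' (j ⁻¹' P (n + 1)))) (fun n => closure_mono (image_mono (h4 _)))
      (fun n => by
        obtain ⟨x, hx⟩ := hne (n + 1)
        exact ⟨e x, subset_closure ⟨x, hx, rfl⟩⟩)
      isClosed_closure.isCompact fun _ => isClosed_closure
    obtain ⟨x, hx⟩ := hG _ (IsGδ.iInter_of_isOpen h1)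
      ⟨z, mem_iInter.2 fun n => h2 n (mem_iInter.1 hz n)⟩
    exact ⟨x, fun n => h3 n (mem_iInter.1 hx n)⟩

variable {H : Type*} [Group H] [TopologicalSpace H] [IsTopologicalGroup H]

theorem two_games {X : Type u} [TopologicalSpace X] (hw : WeaklyPseudocompact.{u, v} X)
    {j : X → H} (hj : IsInducing j) {U : Set H} (hU : IsOpen U) (h1 : (1 : H) ∈ U)
    (hd : ∀ P, IsOpen P → P.Nonempty → P ⊆ U → ∃ x, j x ∈ P) {h : H} (hh : h ∈ U)
    (W : ℕ → Set H) (hW : ∀ n, W n ∈ 𝓝 1) : ∃ x y, ∀ n, (j x)⁻¹ * j y * h⁻¹ ∈ W n := by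
  obtain ⟨R, r1, r2, r3⟩ := strat hw hj
  let S := {p : Set H × Set H // IsOpen p.1 ∧ IsOpen p.2 ∧ p.1 ⊆ U ∧ p.2 ⊆ U ∧
    ∃ a ∈ p.1, a * h ∈ p.2}
  have step : ∀ (n : ℕ) (p : S), ∃ q : S, R q.1.1 p.1.1 ∧ R q.1.2 p.1.2 ∧
      ∀ x ∈ q.1.1, ∀ y ∈ q.1.2, x⁻¹ * y * h⁻¹ ∈ W n := by
    rintro n ⟨⟨P, Q⟩, hP, hQ, hPU, hQU, a, ha, ha'⟩
    have hc : ContinuousAt (fun z : H × H => z.1⁻¹ * z.2) (a, a) := by fun_prop
    obtain ⟨T₁, T₂, t1, t2, t3, t4, t5⟩ := mem_nhds_prod_iff'.1 (hc.preimage_mem_nhds (t := W n)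
      (by simpa using hW n))
    have o1 : IsOpen (T₁ ∩ T₂ ∩ P ∩ (· * h) ⁻¹' Q) :=
      ((t1.inter t3).inter hP).inter (hQ.preimage (continuous_mul_const h))
    obtain ⟨P', p1, ⟨x, p2⟩, p3, p4⟩ := r2 _ o1 (hd _ o1 ⟨a, ⟨⟨t2, t4⟩, ha⟩, ha'⟩
      fun z hz => hPU hz.1.2)
    have o2 : IsOpen ((· * h⁻¹) ⁻¹' P') := p1.preimage (continuous_mul_const _)
    have s2 : (· * h⁻¹) ⁻¹' P' ⊆ Q := fun z hz => by simpa using (p3 hz).2
    obtain ⟨Q', q1, ⟨y, q2⟩, q3, q4⟩ := r2 _ o2 (hd _ o2 ⟨j x * h, by simpa using p2⟩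
      (s2.trans hQU))
    refine ⟨⟨(P', Q'), p1, q1, fun z hz => hPU (p3 hz).1.2, q3.trans (s2.trans hQU),
      j y * h⁻¹, q3 q2, by simpa using q2⟩, r1 _ _ _ p4 fun z hz => hz.1.2, r1 _ _ _ q4 s2,
      fun x hx y hy => ?_⟩
    have := t5 (a := (x, y * h⁻¹)) ⟨(p3 hx).1.1.1, (p3 (q3 hy)).1.1.2⟩
    simpa [mul_assoc] using this
  choose f f1 f2 f3 using step
  let s : ℕ → S := fun n => Nat.rec ⟨(U, U), hU, hU, subset_rfl, subset_rfl, 1, h1, by simpa⟩
    (fun n p => f n p) n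
  obtain ⟨x, hx⟩ := r3 (fun n => (s n).1.1) (fun n => f1 n (s n)) fun n => by
    obtain ⟨a, b, c, d, z, hz, -⟩ := (s n).2
    exact hd _ a ⟨z, hz⟩ c
  obtain ⟨y, hy⟩ := r3 (fun n => (s n).1.2) (fun n => f2 n (s n)) fun n => by
    obtain ⟨a, b, c, d, z, -, hz⟩ := (s n).2
    exact hd _ b ⟨_, hz⟩ d
  exact ⟨x, y, fun n => f3 n (s n) _ (hx (n + 1)) _ (hy (n + 1))⟩

theorem haar_lemma [T2Space H] [LocallyCompactSpace H] {O : Set H} (hO : IsOpen O)
    (hc : IsCompact (closure O)) : ∃ W : ℕ → Set H, (∀ n, W n ∈ 𝓝 1) ∧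
      ∀ w, (∀ n, w ∈ W n) → ∀ x ∈ closure O, w * x ∈ closure O := by
  borelize H
  let μ : Measure H := Measure.haar
  have h1 : μ O ≠ ⊤ := ((measure_mono subset_closure).trans_lt hc.measure_lt_top).ne
  have h2 : ∀ n : ℕ, ∃ K ⊆ O, IsCompact K ∧ μ (O \ K) < (n : ENNReal)⁻¹ := fun n =>
    hO.measurableSet.exists_isCompact_sdiff_lt h1 (by simp)
  choose K k1 k2 k3 using h2
  choose W w1 w2 using fun n => compact_open_separated_mul_left (k2 n) hO (k1 n)
  have h3 : O ⊆ closure (⋃ n, K n) := by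
    rw [← sdiff_eq_empty, ← (hO.sdiff isClosed_closure).measure_eq_zero_iff μ]
    by_contra h0
    obtain ⟨n, hn⟩ := ENNReal.exists_inv_nat_lt h0
    exact lt_asymm hn ((measure_mono (sdiff_subset_sdiff_right
      ((subset_iUnion K n).trans subset_closure))).trans_lt (k3 n))
  refine ⟨W, w1, fun w hw x hx => ?_⟩
  refine map_mem_closure (continuous_const_mul w) (closure_minimal h3 isClosed_closure hx) ?_
  intro y hy
  obtain ⟨n, hn⟩ := mem_iUnion.1 hy
  exact w2 n (mul_mem_mul (hw n) hn)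

theorem dense_case [T2Space H] [LocallyCompactSpace H] {G : Type u} [Group G] [TopologicalSpace G]
    (ι : G →* H) (hι : IsInducing ι) (hd : DenseRange ι) {U : Set G} (hU : IsOpen U)
    (h1 : (1 : G) ∈ U) (hw : WeaklyPseudocompact.{u, v} (closure U)) :
    ∃ V : Set G, IsOpen V ∧ (1 : G) ∈ V ∧ Pseudocompact (closure V) := by
  obtain ⟨U', u1, rfl⟩ := hι.isOpen_iff.1 hU
  have u2 : (1 : H) ∈ U' := by simpa using h1
  obtain ⟨V', v1, v2, v3, v4⟩ := exists_open_between_and_isCompact_closure isCompact_singleton u1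
    (singleton_subset_iff.2 u2)
  refine ⟨ι ⁻¹' V', v1.preimage hι.continuous, by simpa using v2, fun f hf => ?_⟩
  by_contra hb
  push Not at hb
  have hj : IsInducing (ι ∘ (Subtype.val : closure (ι ⁻¹' V') → G)) :=
    hι.comp IsInducing.subtypeVal
  set j := ι ∘ (Subtype.val : closure (ι ⁻¹' V') → G) with hjd
  have hcl : ∀ P, IsOpen P → P ⊆ V' → closure P ⊆ closure (j '' (j ⁻¹' P)) := by
    intro P hP hPV
    refine closure_minimal ((hd.subset_closure_image_preimage_of_isOpen hP).trans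
      (closure_mono ?_)) isClosed_closure
    rintro _ ⟨g, hg, rfl⟩
    exact ⟨⟨g, subset_closure (hPV hg)⟩, hg, rfl⟩
  set O : ℕ → Set H := fun n => (closure (j '' {y | |f y| ≤ n}))ᶜ ∩ V' with hO
  have o1 : ∀ n, IsOpen (O n) := fun n => isClosed_closure.isOpen_compl.inter v1
  have o2 : ∀ n, (O n).Nonempty := by
    intro n
    obtain ⟨y, hy⟩ := hb n
    have a : j y ∈ (closure (j '' {y | |f y| ≤ n}))ᶜ := fun h => by
      have : y ∈ closure {y | |f y| ≤ n} := by rwa [hj.closure_eq_preimage_closure_image]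
      rw [(isClosed_le hf.abs continuous_const).closure_eq] at this
      exact lt_irrefl _ (hy.trans_le this)
    have b : j y ∈ closure V' := map_mem_closure (f := ι) hι.continuous y.2 fun _ h => h
    exact mem_closure_iff.1 b _ isClosed_closure.isOpen_compl a
  have o3 : ∀ n, IsCompact (closure (O n)) := fun n =>
    v4.of_isClosed_subset isClosed_closure (closure_mono inter_subset_right)
  obtain ⟨x, hx⟩ := IsCompact.nonempty_iInter_of_sequence_nonempty_isCompact_isClosed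
    (fun n => closure (O n)) (fun n => closure_mono (inter_subset_inter_left _
      (compl_subset_compl.2 (closure_mono (image_mono fun y (hy : |f y| ≤ n) => by
        show |f y| ≤ ((n + 1 : ℕ) : ℝ)
        push_cast
        linarith))))) (fun n => (o2 n).closure) (o3 0) fun _ => isClosed_closure
  rw [mem_iInter] at hx
  choose W w1 w2 using fun n => haar_lemma (o1 n) (o3 n)
  obtain ⟨a, b, hab⟩ := two_games hw (hι.comp IsInducing.subtypeVal) u1 u2 (fun P hP hne hPU => by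
    obtain ⟨g, hg⟩ := hd.exists_mem_open hP hne
    exact ⟨⟨g, subset_closure (hPU hg)⟩, hg⟩) (v3 (closure_mono inter_subset_right (hx 0)))
    (fun k => W k.unpair.1 k.unpair.2) fun k => w1 _ _
  have h2 : ∀ n, ι (a.1⁻¹ * b.1) ∈ closure (O n) := fun n => by
    have := w2 n _ (fun m => by simpa using hab (Nat.pair n m)) x (hx n)
    simpa using this
  have h3 : a.1⁻¹ * b.1 ∈ closure (ι ⁻¹' V') := by
    rw [hι.closure_eq_preimage_closure_image]
    exact closure_minimal (hd.subset_closure_image_preimage_of_isOpen v1) isClosed_closure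
      (closure_mono inter_subset_right (h2 0))
  obtain ⟨n, hn⟩ := exists_nat_gt |f ⟨_, h3⟩|
  have h4 : (⟨_, h3⟩ : closure (ι ⁻¹' V')) ∈ closure (j ⁻¹' O n) := by
    rw [hj.closure_eq_preimage_closure_image]
    exact hcl _ (o1 n) inter_subset_right (h2 n)
  obtain ⟨y, y1, y2⟩ := mem_closure_iff.1 h4 _ (isOpen_lt hf.abs continuous_const) hn
  exact y2.1 (subset_closure ⟨y, show |f y| ≤ n from le_of_lt y1, rfl⟩)

theorem main {H : Type u} [Group H] [TopologicalSpace H] [IsTopologicalGroup H] [T2Space H]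
    [LocallyCompactSpace H] (G : Subgroup H) (U : Set G) (hU : IsOpen U) (h1 : (1 : G) ∈ U)
    (hw : WeaklyPseudocompact.{u, v} (closure U)) :
    ∃ V : Set G, IsOpen V ∧ (1 : G) ∈ V ∧ Pseudocompact (closure V) := by
  have : LocallyCompactSpace G.topologicalClosure :=
    G.isClosed_topologicalClosure.locallyCompactSpace
  exact dense_case (Subgroup.inclusion G.le_topologicalClosure)
    (IsEmbedding.inclusion G.le_topologicalClosure).isInducing
    ((denseRange_inclusion_iff G.le_topologicalClosure).2 subset_rfl) hU h1 hw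

end Pool.Agent.H84.Wpc
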