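import Mathlib

/-! The binary tree on the integers and martingale-like sums of differences. -/

namespace Pool.Agent.H84.Wsb

open Set Filter Topology BoundedContinuousFunction

/-- Bounded sequences. -/
abbrev L : Type := ℕ →ᵇ ℝ

/-- The parent of a node. -/
def p (u : ℕ) : ℕ := (u - 1) / 2

/-- `i` is an ancestor of `u`. -/
def anc (i u : ℕ) : Prop := ∃ k, p^[k] u = i

theorem p_le (u : ℕ) : p u ≤ u := by unfold p; omega
theorem p_lt {u : ℕ} (h : u ≠ 0) : p u < u := by unfold p; omega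
theorem anc_refl (u : ℕ) : anc u u := ⟨0, rfl⟩
theorem anc_par (u : ℕ) : anc (p u) u := ⟨1, rfl⟩

theorem anc.trans {i j u : ℕ} : anc i j → anc j u → anc i u := by
  rintro ⟨k, rfl⟩ ⟨l, rfl⟩; exact ⟨k + l, Function.iterate_add_apply _ _ _ _⟩

theorem anc.le {i u : ℕ} : anc i u → i ≤ u := by
  rintro ⟨k, rfl⟩
  induction k with
  | zero => rfl
  | succ k ih => rw [Function.iterate_succ_apply']; exact (p_le _).trans ih

theorem anc.par {i u : ℕ} : anc i u → i ≠ u → anc i (p u) := by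
  rintro ⟨_ | k, rfl⟩ h
  exacts [absurd rfl h, ⟨k, rfl⟩]

theorem anc_zero (u : ℕ) : anc 0 u := by
  induction u using Nat.strong_induction_on with
  | _ u ih =>
    rcases eq_or_ne u 0 with rfl | h
    exacts [anc_refl 0, (ih _ (p_lt h)).trans (anc_par u)]

theorem anc.cmp {i j u : ℕ} (a : anc i u) (b : anc j u) (h : i ≤ j) : anc i j := by
  obtain ⟨k, rfl⟩ := a
  obtain ⟨l, rfl⟩ := b
  rcases le_total l k with r | r <;> obtain ⟨c, rfl⟩ := Nat.exists_eq_add_of_le' r
  · exact ⟨c, (Function.iterate_add_apply _ _ _ _).symm⟩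
  · exact h.antisymm (anc.le ⟨c, (Function.iterate_add_apply _ _ _ _).symm⟩) ▸ anc_refl _

open Classical in
/-- The last ancestor with index at most `N`. -/
noncomputable def π (N u : ℕ) : ℕ := Nat.findGreatest (anc · u) N

theorem π_le (N u : ℕ) : π N u ≤ N := by classical exact Nat.findGreatest_le N
theorem π_anc (N u : ℕ) : anc (π N u) u := by
  classical exact Nat.findGreatest_spec (P := (anc · u)) N.zero_le (anc_zero u)
theorem le_π {N u i : ℕ} (a : anc i u) (h : i ≤ N) : i ≤ π N u := by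
  classical exact Nat.le_findGreatest h a
theorem anc_π {N u i : ℕ} (a : anc i u) (h : i ≤ N) : anc i (π N u) :=
  a.cmp (π_anc N u) (le_π a h)
theorem π_self {N u : ℕ} (h : u ≤ N) : π N u = u := (π_anc N u).le.antisymm (le_π (anc_refl u) h)
theorem π_p {N u : ℕ} (h : N < u) : π N (p u) = π N u :=
  (le_π ((π_anc _ _).trans (anc_par u)) (π_le _ _)).antisymm
    (le_π ((π_anc N u).par ((π_le _ _).trans_lt h).ne) (π_le _ _))
theorem π_π {n m : ℕ} (h : n ≤ m) (u : ℕ) : π n (π m u) = π n u :=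
  (le_π ((π_anc _ _).trans (π_anc _ _)) (π_le _ _)).antisymm
    (le_π (anc_π (π_anc n u) ((π_le _ _).trans h)) (π_le _ _))

/-- Indicator functions. -/
noncomputable def χ (s : Set ℕ) : L := indicator s (isClopen_discrete s)

open Classical in
theorem χ_apply (s : Set ℕ) (u : ℕ) : χ s u = if u ∈ s then 1 else 0 := Set.indicator_apply _ _ _

theorem norm_χ (s : Set ℕ) : ‖χ s‖ ≤ 1 :=
  (norm_le zero_le_one).2 fun u => by rw [χ_apply]; split_ifs <;> simp

theorem χ_mul (s t : Set ℕ) : χ s * χ t = χ (t ∩ s) := by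
  ext u; simp only [mul_apply, χ_apply, mem_inter_iff]; split_ifs <;> simp_all

/-- Composition with `π N`. -/
noncomputable def P (N : ℕ) (x : L) : L := x.compContinuous ⟨π N, continuous_of_discreteTopology⟩

theorem P_apply (N : ℕ) (x : L) (u : ℕ) : P N x u = x (π N u) := rfl
theorem norm_P (N : ℕ) (x : L) : ‖P N x‖ ≤ ‖x‖ := norm_compContinuous_le _ _

/-- The difference between a node and its parent. -/
noncomputable def φ (i : ℕ) : L →L[ℝ] ℝ :=
  evalCLM ℝ i - if i = 0 then 0 else evalCLM ℝ (p i)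

theorem φ_apply (i : ℕ) (x : L) : φ i x = x i - if i = 0 then 0 else x (p i) := by
  unfold φ; split_ifs <;> simp

/-- Partial sums. -/
noncomputable def S (a : ℕ → ℝ) (N : ℕ) : L →L[ℝ] ℝ := ∑ i ∈ Finset.range (N + 1), a i • φ i

theorem S_apply (a : ℕ → ℝ) (N : ℕ) (x : L) :
    S a N x = ∑ i ∈ Finset.range (N + 1), a i * φ i x := by simp [S]

theorem tele (N : ℕ) (x : L) : P N x = ∑ i ∈ Finset.range (N + 1), φ i x • χ {u | anc i u} := by
  ext u
  simp only [P_apply, coe_sum, Finset.sum_apply, BoundedContinuousFunction.smul_apply, χ_apply,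
    smul_eq_mul]
  induction N with
  | zero => simp [φ_apply, anc_zero, Nat.le_zero.1 (π_le 0 u)]
  | succ N ih =>
    rw [Finset.sum_range_succ, ← ih]
    split_ifs with h
    · have : π N u = p (N + 1) := (anc.le ((anc.cmp (π_anc N u) h ((π_le _ _).trans N.le_succ)).par
        (Nat.lt_succ_of_le (π_le _ _)).ne)).antisymm
        (le_π ((anc_par _).trans h) (Nat.lt_succ_iff.1 (p_lt N.succ_ne_zero)))
      rw [this, (π_le _ _).antisymm (le_π h le_rfl)]; simp [φ_apply]
    · have : π (N + 1) u = π N u := (le_π (π_anc _ _) (Nat.lt_succ_iff.1 ((π_le _ _).lt_of_ne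
        fun e : π (N + 1) u = N + 1 => h (show anc (N + 1) u from e ▸ π_anc (N + 1) u)))).antisymm
          (le_π (π_anc _ _) ((π_le _ _).trans N.le_succ))
      simp [this]

theorem loc (a : ℕ → ℝ) {N : ℕ} {x y : L} (h : ∀ u ≤ N, x u = y u) : S a N x = S a N y := by
  simp only [S_apply, φ_apply]
  refine Finset.sum_congr rfl fun i r => ?_
  have := Nat.lt_succ_iff.1 (Finset.mem_range.1 r)
  rw [h i this, h _ ((p_le i).trans this)]

theorem mart (a : ℕ → ℝ) {n N : ℕ} (h : n ≤ N) (x : L) : S a N (P n x) = S a n x := by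
  induction N, h using Nat.le_induction with
  | base => exact loc a fun u r => by rw [P_apply, π_self r]
  | succ N h ih =>
    rw [S_apply, Finset.sum_range_succ, ← S_apply, ih]
    simp [φ_apply, P_apply, π_p (Nat.lt_succ_of_le h)]

theorem S_cone (a : ℕ → ℝ) {t N : ℕ} (h : t ≤ N) : S a N (χ {u | anc t u}) = a t := by
  rw [S_apply, Finset.sum_eq_single t (fun i _ r => ?_) fun r => by simp at r; omega]
  · have : t ≠ 0 → ¬ anc t (p t) := fun r s => s.le.not_gt (p_lt r)
    by_cases k : t = 0 <;> simp [φ_apply, χ_apply, anc_refl, k, this]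
  · by_cases k : i = 0
    · have : ¬ anc t 0 := fun s => r (k.trans (Nat.le_zero.1 s.le).symm)
      simp [φ_apply, χ_apply, k, this]
    · have : anc t i ↔ anc t (p i) := ⟨fun s => s.par r.symm, fun s => s.trans (anc_par i)⟩
      by_cases c : anc t i <;> simp [φ_apply, χ_apply, k, ← this, c]

/-- The partial sums are bounded. -/
def Bd (a : ℕ → ℝ) : Prop := ∃ M, ∀ N (g : L), ‖g‖ ≤ 1 → S a N g ≤ M

/-- The set `B` does not see `a`. -/
def Nul (a : ℕ → ℝ) (B : Set ℕ) : Prop :=
  ∀ t, Tendsto (fun N => S a N (χ (B ∩ {u | anc t u}))) atTop (𝓝 0)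

/-- The variation of `a` on `D` is at most `ε`. -/
def Sm (a : ℕ → ℝ) (D : Set ℕ) (ε : ℝ) : Prop :=
  ∀ N (g : L), ‖g‖ ≤ 1 → (∀ u ∉ D, g u = 0) → S a N g ≤ ε

variable {a : ℕ → ℝ}

theorem small₁ (ha : Bd a) {B : Set ℕ} (h : Nul a B) {ε : ℝ} (hε : 0 < ε) (k : ℕ) :
    ∃ m, k ≤ m ∧ Sm a {u | m ≤ u ∧ π m u ∈ B} ε := by
  obtain ⟨M, hM⟩ := ha
  let Z := {z | ∃ N, ∃ g : L, ‖g‖ ≤ 1 ∧ S a N g = z}
  have bz : BddAbove Z := ⟨M, by rintro _ ⟨N, g, r, rfl⟩; exact hM N g r⟩
  obtain ⟨_, ⟨n, σ, s1, rfl⟩, s2⟩ := exists_lt_of_lt_csSup (s := Z) ⟨_, 0, 0, by simp, rfl⟩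
    (sub_lt_self _ (half_pos hε))
  have : Tendsto (fun m => S a m (P n σ * χ B)) atTop (𝓝 0) := by
    simpa [tele n σ, Finset.sum_mul, smul_mul_assoc, χ_mul] using tendsto_finset_sum (Finset.range (n + 1))
      fun i _ => (h i).const_mul (φ i σ)
  obtain ⟨m, ⟨m1, m2⟩, m3⟩ := (((this.eventually (gt_mem_nhds (half_pos hε))).and
    (eventually_ge_atTop n)).and (eventually_ge_atTop k)).exists
  refine ⟨m, m3, fun N g g1 g2 => ?_⟩
  rcases lt_or_ge N m with r | r
  · rw [loc a (y := 0) fun u s => g2 u fun v => by have := v.1; omega]; simp [hε.le]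
  have : S a N (P n σ - P m (P n σ * χ B) + g) ≤ sSup Z := le_csSup bz ⟨N, _,
    (norm_le zero_le_one).2 fun u => by
      by_cases c : π m u ∈ B
      · simpa [P_apply, χ_apply, c, π_π m2] using (g.norm_coe_le_norm u).trans g1
      · simpa [P_apply, χ_apply, c, g2 u fun v => c v.2] using (σ.norm_coe_le_norm _).trans s1, rfl⟩
  rw [map_add, map_sub, mart a r, mart a (m2.trans r)] at this
  linarith

theorem small₂ (ha : Bd a) (s : ℕ) {ε : ℝ} (hε : 0 < ε) : ∃ t, anc s t ∧ Sm a {u | anc t u} ε := by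
  obtain ⟨M, hM⟩ := ha
  have : ∀ k : ℕ, ∃ t, anc s t ∧ Sm a {u | anc t u} (M * (1 / 2) ^ k) := fun k => by
    induction k with
    | zero => exact ⟨s, anc_refl s, fun N g r _ => by simpa using hM N g r⟩
    | succ k ih =>
      obtain ⟨t, t1, t2⟩ := ih
      have c1 : anc t (2 * t + 1) := ⟨1, by simp [p]⟩
      have c2 : anc t (2 * t + 2) := ⟨1, by simp [p]; omega⟩
      by_contra! z
      simp only [Sm, not_forall, not_le] at z
      obtain ⟨N, g, g1, g2, g3⟩ := z _ (t1.trans c1)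
      obtain ⟨N', g', h1, h2, h3⟩ := z _ (t1.trans c2)
      have e : ∀ u, ¬ anc (2 * t + 1) u → P N g u = 0 := fun u r => g2 _ fun v => r (v.trans (π_anc _ _))
      have e' : ∀ u, ¬ anc (2 * t + 2) u → P N' g' u = 0 := fun u r =>
        h2 _ fun v => r (v.trans (π_anc _ _))
      have := t2 (max N N') (P N g + P N' g') ((norm_le zero_le_one).2 fun u => by
        by_cases c : anc (2 * t + 1) u
        · have : ¬ anc (2 * t + 2) u := fun v => by
            have := ((c.cmp v (by omega)).par (by omega)).le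
            unfold p at this; omega
          simpa [e' u this, P_apply] using (g.norm_coe_le_norm _).trans g1
        · simpa [e u c, P_apply] using (g'.norm_coe_le_norm _).trans h1) fun u r => by
          simp [e u fun v => r (c1.trans v), e' u fun v => r (c2.trans v)]
      rw [map_add, mart a (le_max_left _ _), mart a (le_max_right _ _)] at this
      rw [pow_succ] at g3 h3
      linarith
  obtain ⟨k, r⟩ := ((((tendsto_pow_atTop_nhds_zero_of_lt_one (r := (1 / 2 : ℝ)) (by norm_num)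
    (by norm_num)).const_mul M).eventually (gt_mem_nhds (by simpa using hε)))).exists
  exact (this k).imp fun t v => ⟨v.1, fun N g b c => (v.2 N g b c).trans r.le⟩

theorem Sm.union {D D' : Set ℕ} {ε ε' : ℝ} (h : Sm a D ε) (h' : Sm a D' ε') :
    Sm a (D ∪ D') (ε + ε') := fun N g g1 g2 => by
  have n : ∀ s, ‖g * χ s‖ ≤ 1 := fun s =>
    (norm_mul_le _ _).trans (mul_le_one₀ g1 (norm_nonneg _) (norm_χ s))
  have e : g = g * χ D + g * χ Dᶜ := by
    ext u; by_cases c : u ∈ D <;> simp [χ_apply, c]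
  rw [e, map_add]
  refine add_le_add (h N _ (n _) fun u r => by simp [χ_apply, r]) (h' N _ (n _) fun u r => ?_)
  by_cases c : u ∈ D
  · simp [χ_apply, c]
  · simp [g2 u (not_or.2 ⟨c, r⟩)]

end Pool.Agent.H84.Wsb
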