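import Mathlib

/-! Bases and weak-star bases. -/

namespace Pool.Agent.H84.WsbDefs

open Filter Topology

/-- The continuum hypothesis. -/
def CH : Prop := Cardinal.continuum.{0} = Cardinal.aleph 1

variable (E : Type) [NormedAddCommGroup E] [NormedSpace ℝ E]

/-- `E` has a basis. -/
def HasBasis : Prop := ∃ e : ℕ → E, ∀ x : E, ∃! a : ℕ → ℝ,
  Tendsto (fun n => ∑ i ∈ Finset.range n, a i • e i) atTop (𝓝 x)

/-- The dual of `E` has a weak-star basis. -/
def HasWeakStarBasis : Prop := ∃ e : ℕ → E →L[ℝ] ℝ, ∀ f : E →L[ℝ] ℝ, ∃! a : ℕ → ℝ,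
  ∀ x, Tendsto (fun n => ∑ i ∈ Finset.range n, a i * e i x) atTop (𝓝 (f x))

end Pool.Agent.H84.WsbDefs
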