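import Pool.Agent.H84.WsbA
import Pool.Agent.H84.WsbDefs
import Pool.Agent.H84.NstA
import Pool.Agent.H84.Luz

/-! An almost disjoint family of nowhere dense subtrees seeing every measure. -/

namespace Pool.Agent.H84.Wsb

open Set Filter Topology BoundedContinuousFunction Pool.Agent.H84.WsbDefs

/-- Closed under parents. -/
def PC (T : Set ℕ) : Prop := ∀ u ∈ T, p u ∈ T

/-- Nowhere dense. -/
def ND (T : Set ℕ) : Prop := ∀ s, ∃ t, anc s t ∧ t ∉ T

theorem PC.anc {T : Set ℕ} (h : PC T) {i u : ℕ} (a : anc i u) (r : u ∈ T) : i ∈ T := by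
  obtain ⟨k, rfl⟩ := a
  induction k with
  | zero => exact r
  | succ k ih => rw [Function.iterate_succ_apply']; exact h _ ih

theorem build {a : ℕ → ℝ} (ha : Bd a) (h0 : a ≠ 0) (B : ℕ → Set ℕ) (h : ∀ k, Nul a (B k)) :
    ∃ T, PC T ∧ ND T ∧ (∀ k, PC (B k) → (T ∩ B k).Finite) ∧ ¬ Nul a T := by
  obtain ⟨t, ht⟩ := Function.ne_iff.1 h0
  have e0 : 0 < |a t| / 8 := by have := abs_pos.2 ht; positivity
  have e1 : ∀ k : ℕ, 0 < |a t| / 8 * (1 / 2) ^ k := fun k => by positivity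
  choose m m1 m2 using fun k => small₁ ha (h k) (e1 k) k
  choose s s1 s2 using fun k => small₂ ha k (e1 k)
  let D : ℕ → Set ℕ := fun k => {u | m k ≤ u ∧ π (m k) u ∈ B k} ∪ {u | anc (s k) u}
  have un : ∀ K, Sm a {u | ∃ k < K, u ∈ D k} (|a t| / 2 * (1 - (1 / 2) ^ K)) := fun K => by
    induction K with
    | zero => exact fun N g _ r => by rw [show g = 0 from ext fun u => r u (by simp)]; simp
    | succ K ih =>
      refine fun N g r v => ((ih.union ((m2 K).union (s2 K))) N g r fun u w => v u ?_).trans_eq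
        (by ring)
      rintro ⟨k, b, c⟩
      rcases (Nat.lt_succ_iff.1 b).lt_or_eq with b | rfl
      exacts [w (Or.inl ⟨k, b, c⟩), w (Or.inr c)]
  refine ⟨{u | ∀ k, u ∉ D k}, fun u r k v => r k ?_, fun k => ⟨s k, s1 k, fun r =>
    r k (Or.inr (anc_refl _))⟩, fun k r => (finite_Iio (m k)).subset fun u v => not_le.1 fun w =>
      v.1 k (Or.inl ⟨w, r.anc (π_anc _ _) v.2⟩), fun r => ?_⟩
  · rcases eq_or_ne u 0 with rfl | z
    · exact v
    rcases v with ⟨w, w'⟩ | w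
    exacts [Or.inl ⟨w.trans (p_le u), π_p (w.trans_lt (p_lt z)) ▸ w'⟩,
      Or.inr (anc.trans w (anc_par u))]
  obtain ⟨N, n1, n2⟩ := (((r t).abs.eventually (gt_mem_nhds (a := |a t| / 2)
    (by rw [abs_zero]; linarith))).and (eventually_ge_atTop t)).exists
  let g := χ ({u | ∃ k < N + 1, u ∈ D k} ∩ {u | anc t u})
  have g1 : ∀ u ∉ {u | ∃ k < N + 1, u ∈ D k}, g u = 0 := fun u v => by
    simp only [g, χ_apply, mem_inter_iff, v, false_and, if_false]
  have b1 := un (N + 1) N g (norm_χ _) g1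
  have b2 := un (N + 1) N (-g) (by simpa using norm_χ _) fun u v => by simp [g1 u v]
  have : S a N (χ {u | anc t u}) = S a N (g + χ ({u | ∀ k, u ∉ D k} ∩ {u | anc t u})) :=
    loc a fun u v => by
      have : (∃ k < N + 1, u ∈ D k) ↔ ¬ ∀ k, u ∉ D k := ⟨fun ⟨k, _, b⟩ c => c k b, fun b => by
        obtain ⟨k, b⟩ := not_forall_not.1 b
        exact ⟨k, b.elim (fun c => by have := m1 k; have := c.1; omega) fun c => by
          have := (s1 k).le; have := anc.le c; omega, b⟩⟩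
      by_cases c : anc t u <;> by_cases d : ∀ k, u ∉ D k <;>
        simp only [g, BoundedContinuousFunction.add_apply, χ_apply, mem_inter_iff, mem_ofPred_eq,
          this, c, d] <;> simp [c, d]
  rw [S_cone a n2, map_add] at this
  rw [map_neg] at b2
  have := abs_add_le (S a N g) (S a N (χ ({u | ∀ k, u ∉ D k} ∩ {u | anc t u})))
  have : |S a N g| ≤ |a t| / 2 := by
    have : (0 : ℝ) < (1 / 2) ^ (N + 1) := by positivity
    rw [abs_le]; constructor <;> nlinarith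
  simp_all only
  linarith

theorem family (h : CH) : ∃ 𝒯 : Set (Set ℕ), (∀ T ∈ 𝒯, PC T ∧ ND T) ∧
    (∀ T ∈ 𝒯, ∀ T' ∈ 𝒯, T = T' ∨ (T ∩ T').Finite) ∧
    ∀ a, Bd a → (∀ T ∈ 𝒯, Nul a T) → a = 0 := by
  obtain ⟨e⟩ : Nonempty (NstDefs.W ≃ (ℕ → ℝ)) := Cardinal.eq.1 (by
    rw [Cardinal.mk_ord_toType, ← h]; simp [Cardinal.mk_real])
  obtain ⟨f, hf⟩ := Luz.wf_rec (I := NstDefs.W) (fun g f (T : Set ℕ) => PC T ∧ ND T ∧
      (∀ k < g, PC (f k) → (T ∩ f k).Finite) ∧
        (Bd (e g) → (∀ k < g, Nul (e g) (f k)) → Nul (e g) T → e g = 0))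
    (fun g f f' T r v => ⟨v.1, v.2.1, fun k b => r k b ▸ v.2.2.1 k b,
      fun b c => v.2.2.2 b fun k d => (r k d).symm ▸ c k d⟩) fun g f => by
      by_cases k : Bd (e g) ∧ (∀ k < g, Nul (e g) (f k)) ∧ e g ≠ 0
      · obtain ⟨B, hB⟩ := (((Nst.cIio g).image f).insert ∅).exists_eq_range (insert_nonempty _ _)
        obtain ⟨T, t1, t2, t3, t4⟩ := build k.1 k.2.2 B fun j => by
          rcases (hB ▸ mem_range_self j : B j ∈ insert ∅ (f '' Iio g)) with r | ⟨i, r, v⟩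
          · intro t
            simp [r, show χ ∅ = 0 from ext fun u => by simp [χ_apply]]
          · exact v ▸ k.2.1 i r
        refine ⟨T, t1, t2, fun i r => ?_, fun _ _ r => absurd r t4⟩
        obtain ⟨j, v⟩ := (hB ▸ Or.inr ⟨i, r, rfl⟩ : f i ∈ range B)
        exact v ▸ t3 j
      · exact ⟨∅, fun _ => id, fun s => ⟨s, anc_refl s, id⟩, by simp,
          fun b c _ => by_contra fun d => k ⟨b, c, d⟩⟩
  refine ⟨range f, forall_mem_range.2 fun g => ⟨(hf g).1, (hf g).2.1⟩, ?_, fun a b c => ?_⟩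
  · rintro _ ⟨g, rfl⟩ _ ⟨k, rfl⟩
    rcases lt_trichotomy k g with r | rfl | r
    exacts [Or.inr ((hf g).2.2.1 k r (hf k).1), Or.inl rfl,
      Or.inr (inter_comm _ _ ▸ (hf k).2.2.1 g r (hf g).1)]
  · obtain ⟨g, rfl⟩ := e.surjective a
    exact (hf g).2.2.2 b (fun k _ => c _ ⟨k, rfl⟩) (c _ ⟨g, rfl⟩)

theorem unc {𝒯 : Set (Set ℕ)} (h1 : ∀ T ∈ 𝒯, PC T ∧ ND T)
    (h2 : ∀ a, Bd a → (∀ T ∈ 𝒯, Nul a T) → a = 0) : ¬ 𝒯.Countable := fun h => by
  classical
  obtain ⟨B, hB⟩ := (h.insert ∅).exists_eq_range (insert_nonempty _ _)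
  have : ∀ k s, ∃ t, anc (2 * s + 1) t ∧ t ∉ B k := fun k s => by
    rcases (hB ▸ mem_range_self k : B k ∈ insert ∅ 𝒯) with r | r
    exacts [⟨_, anc_refl _, by simp [r]⟩, (h1 _ r).2 _]
  choose c c1 c2 using this
  let b : ℕ → ℕ := fun n => n.rec 0 c
  have b1 : ∀ n, n ≤ b n := fun n => n.rec le_rfl fun n r => by
    have := (c1 n (b n)).le
    change n + 1 ≤ c n (b n); omega
  have b2 : ∀ m n, m ≤ n → anc (b m) (b n) := fun m n r => by
    induction n, r using Nat.le_induction with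
    | base => exact anc_refl _
    | succ n _ ih => exact ih.trans (anc.trans ⟨1, by simp [p]⟩ (c1 n (b n)))
  have e : ∀ N (x : L), S (fun i => if ∃ k, anc i (b k) then 1 else 0) N x = x (π N (b N)) :=
    fun N x => by
      rw [← P_apply, tele, S_apply]
      simp only [coe_sum, Finset.sum_apply, BoundedContinuousFunction.smul_apply, χ_apply,
        smul_eq_mul]
      refine Finset.sum_congr rfl fun i r => ?_
      have : (∃ k, anc i (b k)) ↔ anc i (b N) := ⟨fun ⟨k, v⟩ => (le_total k N).elim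
        (fun w => v.trans (b2 _ _ w)) fun w => v.cmp (b2 _ _ w)
          ((Nat.lt_succ_iff.1 (Finset.mem_range.1 r)).trans (b1 N)), fun v => ⟨N, v⟩⟩
      by_cases k : anc i (b N) <;> simp [this, k]
  have := congrFun (h2 _ ⟨1, fun N g r => e N g ▸ (g.apply_le_norm _).trans r⟩ fun T r t => by
    obtain ⟨k, rfl⟩ := (hB ▸ Or.inr r : T ∈ range B)
    refine tendsto_const_nhds.congr' ((eventually_ge_atTop (b (k + 1))).mono fun N v => ?_)
    simp only [e, χ_apply]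
    rw [if_neg fun w => c2 k (b k) ((h1 _ r).1.anc
      (anc_π (b2 (k + 1) N ((b1 _).trans v)) v) w.1)]) 0
  simp [anc_zero] at this

end Pool.Agent.H84.Wsb
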