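import Pool.Agent.H84.WsbB

/-! Under CH a nonseparable Banach space whose dual has a weak-star basis. -/

namespace Pool.Agent.H84.Wsb

open Set Filter Topology BoundedContinuousFunction Pool.Agent.H84.WsbDefs

theorem agree {A B : Set ℕ} (hA : PC A) (hB : PC B) (h : A = B ∨ (A ∩ B).Finite) (t : ℕ) :
    ∀ᶠ N in atTop, ∀ u ∈ B, χ (A ∩ {u | anc t u}) (π N u) = χ (A ∩ {u | anc t u}) u := by
  rcases h with rfl | h
  · filter_upwards [eventually_ge_atTop t] with N r u v
    have : anc t (π N u) ↔ anc t u := ⟨fun w => w.trans (π_anc _ _), fun w => anc_π w r⟩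
    by_cases c : anc t u <;> simp [χ_apply, v, hA.anc (π_anc N u) v, this, c]
  · obtain ⟨n, hn⟩ := h.bddAbove
    filter_upwards [eventually_ge_atTop (2 * n + 2)] with N r u v
    rcases le_or_gt u N with w | w
    · rw [π_self w]
    have b : π N u ∉ A := fun c => by
      have l : π N u ≤ n := hn ⟨c, hB.anc (π_anc _ _) v⟩
      obtain ⟨k, e⟩ := π_anc N u
      induction k generalizing u with
      | zero => simp at e; omega
      | succ k ih =>
        rcases le_or_gt (p u) N with z | z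
        · have := le_π (anc_par u) z
          unfold p at this; omega
        · rw [← π_p w] at c l e
          exact ih (p u) (hB u v) z c l e
    have : u ∉ A := fun c => by have := hn ⟨c, v⟩; omega
    simp [χ_apply, b, this]

theorem exist {𝒜 : Set (Set ℕ)} (h1 : ∀ A ∈ 𝒜, PC A)
    (h2 : ∀ A ∈ 𝒜, ∀ B ∈ 𝒜, A = B ∨ (A ∩ B).Finite) (F : L →L[ℝ] ℝ) :
    ∃ a : ℕ → ℝ, (∀ N x, ‖S a N x‖ ≤ ‖F‖ * ‖x‖) ∧ ∀ A ∈ 𝒜, ∀ t,
      Tendsto (fun N => S a N (χ (A ∩ {u | anc t u}))) atTop (𝓝 (F (χ (A ∩ {u | anc t u})))) := by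
  let Q : Set ℕ → Prop := fun R => ∀ A ∈ 𝒜, ∀ t, ∀ᶠ N in atTop, ∀ u ∈ R,
    χ (A ∩ {u | anc t u}) (π N u) = χ (A ∩ {u | anc t u}) u
  have qu : ∀ R R', Q R → Q R' → Q (R ∪ R') := fun R R' a b A r t =>
    ((a A r t).and (b A r t)).mono fun N v u w => w.elim (v.1 u) (v.2 u)
  let Z := {z | ∃ R, Q R ∧ ∃ g : L, ‖g‖ ≤ 1 ∧ (∀ u ∉ R, g u = 0) ∧ F g = z}
  have bz : BddAbove Z := ⟨‖F‖, by
    rintro _ ⟨R, -, g, r, -, rfl⟩
    exact (le_abs_self _).trans (F.unit_le_opNorm g r)⟩
  have q0 : Q ∅ := fun _ _ _ => .of_forall fun _ _ r => r.elim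
  have : ∀ k : ℕ, ∃ z ∈ Z, sSup Z - 1 / (k + 1) < z := fun k =>
    exists_lt_of_lt_csSup ⟨_, ∅, q0, 0, by simp, by simp, rfl⟩ (sub_lt_self _ (by positivity))
  choose z z1 z2 using this
  choose R' r1 g g1 g2 g3 using z1
  let R : ℕ → Set ℕ := fun k => k.rec (R' 0) fun k D => D ∪ R' (k + 1)
  have rq : ∀ k, Q (R k) := fun k => k.rec (r1 0) fun k ih => qu _ _ ih (r1 _)
  have rm : Monotone R := monotone_nat_of_le_succ fun k => subset_union_left
  have rs : ∀ k, R' k ⊆ R k := fun k => k.rec Subset.rfl fun k _ => subset_union_right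
  have t0 : ∀ k D, Q D → ∀ y : L, ‖y‖ ≤ 1 → (∀ u, u ∉ D ∨ u ∈ R k → y u = 0) →
      F y ≤ 1 / (k + 1) := fun k D q y y1 y2 => by
    have : F (g k + y) ≤ sSup Z := le_csSup bz ⟨_, qu _ _ (r1 k) q, _, (norm_le zero_le_one).2
      fun u => by
        by_cases c : u ∈ R' k
        · simpa [y2 u (Or.inr (rs k c))] using ((g k).norm_coe_le_norm u).trans (g1 k)
        · simpa [g2 k u c] using (y.norm_coe_le_norm u).trans y1,
      fun u r => by simp [g2 k u fun c => r (Or.inl c), y2 u (Or.inl fun c => r (Or.inr c))], rfl⟩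
    rw [map_add, g3] at this
    linarith [z2 k]
  have t1 : ∀ k D, Q D → ∀ y : L, ‖y‖ ≤ 1 → (∀ u, u ∉ D ∨ u ∈ R k → y u = 0) →
      |F y| ≤ 1 / (k + 1) := fun k D q y y1 y2 => abs_le.2 ⟨by
    have := t0 k D q (-y) (by simpa) fun u r => by simp [y2 u r]
    rw [map_neg] at this; linarith, t0 k D q y y1 y2⟩
  have n1 : ∀ s t : Set ℕ, ‖χ s - χ t‖ ≤ 1 := fun s t => (norm_le zero_le_one).2 fun u => by
    simp only [BoundedContinuousFunction.sub_apply, χ_apply]; split_ifs <;> simp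
  have : ∀ t, ∃ c, Tendsto (fun k => F (χ {u | anc t u} * χ (R k))) atTop (𝓝 c) := fun t =>
    cauchySeq_tendsto_of_complete (cauchySeq_of_le_tendsto_0' (fun k : ℕ => 1 / ((k : ℝ) + 1))
      (fun k l r => by
        rw [Real.dist_eq, ← map_sub, χ_mul, χ_mul]
        refine t1 k _ (rq l) _ (n1 _ _) fun u v => ?_
        have : u ∈ R k ↔ u ∈ R l := ⟨fun w => rm r w, fun w => v.resolve_left (not_not.2 w)⟩
        by_cases c : u ∈ R l <;> by_cases d : anc t u <;> simp [χ_apply, this, c, d]) tendsto_one_div_add_atTop_nhds_zero_nat)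
  choose a ha using this
  have hS : ∀ N x, Tendsto (fun k => F (P N x * χ (R k))) atTop (𝓝 (S a N x)) := fun N x => by
    simpa [tele N x, Finset.sum_mul, smul_mul_assoc, S_apply, mul_comm] using
      tendsto_finsetSum (Finset.range (N + 1)) fun i _ => (ha i).const_mul (φ i x)
  refine ⟨a, fun N x => le_of_tendsto' (hS N x).norm fun k => (F.le_opNorm _).trans
    (mul_le_mul_of_nonneg_left ((norm_mul_le _ _).trans ((mul_le_of_le_one_right (norm_nonneg _)
      (norm_χ _)).trans (norm_P N x))) (norm_nonneg _)), fun A r t =>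
    Metric.tendsto_nhds.2 fun ε hε => ?_⟩
  obtain ⟨j, hj⟩ := exists_nat_one_div_lt hε
  filter_upwards [rq j A r t] with N v
  refine (le_of_tendsto ((hS N _).dist tendsto_const_nhds) ((eventually_ge_atTop j).mono
    fun k w => ?_)).trans_lt hj
  rw [Real.dist_eq, ← map_sub]
  refine t1 j _ (qu _ _ (rq k) fun B b t => agree (h1 B b) (h1 A r) (h2 B b A r) t) _
    ((norm_le zero_le_one).2 fun u => ?_) fun u c => ?_
  · have c : ∀ s u, χ s u = 0 ∨ χ s u = 1 := fun s u => by rw [χ_apply]; split_ifs <;> simp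
    simp only [BoundedContinuousFunction.sub_apply, BoundedContinuousFunction.mul_apply, P_apply]
    rcases c (A ∩ {u | anc t u}) (π N u) with c1 | c1 <;> rcases c (R k) u with c2 | c2 <;>
      rcases c (A ∩ {u | anc t u}) u with c3 | c3 <;> simp [c1, c2, c3]
  · rcases c with c | c
    · simp [χ_apply, (not_or.1 c).1, (not_or.1 c).2]
    · simp [P_apply, v u c, χ_apply (R k), rm w c]

theorem sep {E : Type} [NormedAddCommGroup E] [NormedSpace ℝ E] : HasBasis E →
    TopologicalSpace.SeparableSpace E := fun ⟨e, he⟩ => TopologicalSpace.isSeparable_univ_iff.1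
  (((countable_range e).isSeparable.span (R := ℝ)).closure.mono fun x _ =>
    (he x).exists.elim fun _ r => mem_closure_of_tendsto r (.of_forall fun _ =>
      Submodule.sum_mem _ fun i _ => Submodule.smul_mem _ _ (Submodule.subset_span ⟨i, rfl⟩)))

theorem main (h : CH) : ∃ E : Submodule ℝ L, IsClosed (E : Set L) ∧ HasWeakStarBasis E ∧
    ¬ HasBasis E := by
  obtain ⟨𝒯, t1, t2, t3⟩ := family h
  let 𝒜 := 𝒯 ∪ range Iic
  have a1 : ∀ A ∈ 𝒜, PC A := by
    rintro _ (r | ⟨n, rfl⟩)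
    exacts [(t1 _ r).1, fun u v => (p_le u).trans v]
  have a2 : ∀ A ∈ 𝒜, ∀ B ∈ 𝒜, A = B ∨ (A ∩ B).Finite := by
    rintro _ (r | ⟨n, rfl⟩) _ (v | ⟨m, rfl⟩)
    exacts [t2 _ r _ v, Or.inr ((finite_Iic m).inter_of_right _),
      Or.inr ((finite_Iic n).inter_of_left _), Or.inr ((finite_Iic n).inter_of_left _)]
  let G := {x : L | ∃ A ∈ 𝒜, ∃ t, χ (A ∩ {u | anc t u}) = x}
  let E := (Submodule.span ℝ G).topologicalClosure
  have gE : ∀ A ∈ 𝒜, ∀ t, χ (A ∩ {u | anc t u}) ∈ E := fun A r t =>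
    subset_closure (Submodule.subset_span ⟨A, r, t, rfl⟩)
  refine ⟨E, isClosed_closure, ⟨fun i => φ i ∘L E.subtypeL, fun f => ?_⟩, fun he => ?_⟩
  · obtain ⟨F, f1, -⟩ := exists_extension_norm_eq E f
    obtain ⟨a, b1, b2⟩ := exist a1 a2 F
    have sh : ∀ (a : ℕ → ℝ) (x : E) c, Tendsto (fun n => ∑ i ∈ Finset.range n,
        a i * (φ i ∘L E.subtypeL) x) atTop (𝓝 c) ↔ Tendsto (fun N => S a N x) atTop (𝓝 c) :=
      fun a x c => by rw [← tendsto_add_atTop_iff_nat 1]; simp [S_apply]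
    have ex : ∀ x : E, Tendsto (fun N => S a N x) atTop (𝓝 (F x)) := fun x =>
      closure_minimal (t := {x | Tendsto (fun N => S a N x) atTop (𝓝 (F x))})
        (fun y r => Submodule.span_induction (fun _ ⟨A, r, t, e⟩ => e ▸ b2 A r t) (by simp)
          (fun _ _ _ _ u v => by simpa using u.add v)
          (fun c _ _ u => by simpa using u.const_mul c) r)
        ((LipschitzWith.uniformEquicontinuous (fun N => S a N) ‖F‖₊ fun N =>
          (S a N).lipschitz.weaken ((S a N).opNorm_le_bound (norm_nonneg _)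
            (b1 N))).equicontinuous.isClosed_setOf_tendsto F.continuous) x.2
    refine ⟨a, fun x => (sh a x _).2 (f1 x ▸ ex x), fun a' ha => sub_eq_zero.1 ?_⟩
    have z : ∀ x : E, Tendsto (fun N => S (a' - a) N x) atTop (𝓝 0) := fun x => by
      simpa [S_apply, sub_mul, f1] using ((sh a' x _).1 (ha x)).sub (ex x)
    obtain ⟨M, hM⟩ := banach_steinhaus (g := fun N => S (a' - a) N ∘L E.subtypeL) fun x =>
      (z x).norm.bddAbove_range.imp fun C r N => r ⟨N, rfl⟩
    replace hM := fun N y r =>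
      (ContinuousLinearMap.unit_le_opNorm _ y r).trans (hM N)
    refine t3 _ ⟨M, fun N g r => ?_⟩ fun T r t => z ⟨_, gE T (Or.inl r) t⟩
    have m : P N g * χ (Iic N) ∈ E := by
      simpa [tele N g, Finset.sum_mul, smul_mul_assoc, χ_mul] using
        E.sum_mem fun i (_ : i ∈ Finset.range (N + 1)) =>
          E.smul_mem (φ i g) (gE _ (Or.inr ⟨N, rfl⟩) i)
    rw [loc _ (y := P N g * χ (Iic N)) fun u v => by simp [P_apply, χ_apply, v, π_self v]]
    have n : ‖(⟨_, m⟩ : E)‖ ≤ 1 := (norm_mul_le (P N g) (χ (Iic N))).trans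
      (mul_le_one₀ ((norm_P N g).trans r) (norm_nonneg _) (norm_χ _))
    have := hM N _ n
    simp only [ContinuousLinearMap.comp_apply, Submodule.subtypeL_apply] at this
    exact (le_abs_self _).trans this
  · have := sep he
    refine unc t1 t3 (Pairwise.countable_of_isOpen_disjoint (s := fun T : 𝒯 =>
      Metric.ball (⟨_, gE T (Or.inl T.2) 0⟩ : E) (1 / 2)) (fun T T' r => Metric.ball_disjoint_ball ?_)
      (fun _ => Metric.isOpen_ball) fun _ => Metric.nonempty_ball.2 one_half_pos)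
    obtain ⟨u, v⟩ := not_forall.1 fun v => r (Subtype.ext (Set.ext v))
    refine le_of_eq_of_le ?_ (dist_coe_le_dist u)
    by_cases c : u ∈ T.1 <;> by_cases d : u ∈ T'.1 <;> simp_all [χ_apply, anc_zero] <;> norm_num

end Pool.Agent.H84.Wsb
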