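import Pool.Agent.H84.WsbDefs

/-! Weak-star Schauder bases. -/

namespace Pool.Agent.H84.WsbDefs

open Filter Topology

/-- The dual of `E` has a weak-star basis `e` whose coefficient functionals are the evaluations
at points `x n` of `E`. -/
def HasWeakStarSchauderBasis (E : Type) [NormedAddCommGroup E] [NormedSpace ℝ E] : Prop :=
  ∃ (e : ℕ → E →L[ℝ] ℝ) (x : ℕ → E),
    (∀ (f : E →L[ℝ] ℝ) y, Tendsto (fun n => ∑ i ∈ Finset.range n, f (x i) * e i y) atTop (𝓝 (f y))) ∧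
    ∀ (f : E →L[ℝ] ℝ) (a : ℕ → ℝ),
      (∀ y, Tendsto (fun n => ∑ i ∈ Finset.range n, a i * e i y) atTop (𝓝 (f y))) →
        ∀ i, a i = f (x i)

end Pool.Agent.H84.WsbDefs
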