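import Pool.Agent.H84.WsbC
import Pool.Agent.H84.WsbDefs2

/-! Under CH a dual space with a weak-star basis and no weak-star Schauder basis. -/

namespace Pool.Agent.H84.Wsb

open Set Filter Topology BoundedContinuousFunction Pool.Agent.H84.WsbDefs

theorem sep' {E : Type} [NormedAddCommGroup E] [NormedSpace ℝ E] : HasWeakStarSchauderBasis E →
    TopologicalSpace.SeparableSpace E := fun ⟨e, x, he, _⟩ =>
  TopologicalSpace.isSeparable_univ_iff.1
    (((countable_range x).isSeparable.span (R := ℝ)).closure.mono fun y _ => by_contra fun r => by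
      obtain ⟨f, u, f1, f2⟩ := geometric_hahn_banach_closed_point
        (Submodule.span ℝ (range x)).convex.closure isClosed_closure r
      have z : ∀ n, f (x n) = 0 := fun n => by_contra fun k => by
        simpa [k] using f1 ((u / f (x n)) • x n) (subset_closure (Submodule.smul_mem _ _
          (Submodule.subset_span ⟨n, rfl⟩)))
      have : f y = 0 := tendsto_nhds_unique (he f y) (by simp [z])
      have := f1 0 (subset_closure (Submodule.zero_mem _))
      simp_all only [map_zero]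
      linarith)

theorem main' (h : CH) : ∃ E : Submodule ℝ L, IsClosed (E : Set L) ∧ HasWeakStarBasis E ∧
    ¬ TopologicalSpace.SeparableSpace E := by
  obtain ⟨𝒯, t1, t2, t3⟩ := family h
  let 𝒜 := 𝒯 ∪ range Iic
  have a1 : ∀ A ∈ 𝒜, PC A := by
    rintro _ (r | ⟨n, rfl⟩)
    exacts [(t1 _ r).1, fun u v => (p_le u).trans v]
  have a2 : ∀ A ∈ 𝒜, ∀ B ∈ 𝒜, A = B ∨ (A ∩ B).Finite := by
    rintro _ (r | ⟨n, rfl⟩) _ (v | ⟨m, rfl⟩)
    exacts [t2 _ r _ v, Or.inr ((finite_Iic m).inter_of_right _),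
      Or.inr ((finite_Iic n).inter_of_left _), Or.inr ((finite_Iic n).inter_of_left _)]
  let G := {x : L | ∃ A ∈ 𝒜, ∃ t, χ (A ∩ {u | anc t u}) = x}
  let E := (Submodule.span ℝ G).topologicalClosure
  have gE : ∀ A ∈ 𝒜, ∀ t, χ (A ∩ {u | anc t u}) ∈ E := fun A r t =>
    subset_closure (Submodule.subset_span ⟨A, r, t, rfl⟩)
  refine ⟨E, isClosed_closure, ⟨fun i => φ i ∘L E.subtypeL, fun f => ?_⟩, fun he => ?_⟩
  · obtain ⟨F, f1, -⟩ := exists_extension_norm_eq E f
    obtain ⟨a, b1, b2⟩ := exist a1 a2 F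
    have sh : ∀ (a : ℕ → ℝ) (x : E) c, Tendsto (fun n => ∑ i ∈ Finset.range n,
        a i * (φ i ∘L E.subtypeL) x) atTop (𝓝 c) ↔ Tendsto (fun N => S a N x) atTop (𝓝 c) :=
      fun a x c => by rw [← tendsto_add_atTop_iff_nat 1]; simp [S_apply]
    have ex : ∀ x : E, Tendsto (fun N => S a N x) atTop (𝓝 (F x)) := fun x =>
      closure_minimal (t := {x | Tendsto (fun N => S a N x) atTop (𝓝 (F x))})
        (fun y r => Submodule.span_induction (fun _ ⟨A, r, t, e⟩ => e ▸ b2 A r t) (by simp)
          (fun _ _ _ _ u v => by simpa using u.add v)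
          (fun c _ _ u => by simpa using u.const_mul c) r)
        ((LipschitzWith.uniformEquicontinuous (fun N => S a N) ‖F‖₊ fun N =>
          (S a N).lipschitz.weaken ((S a N).opNorm_le_bound (norm_nonneg _)
            (b1 N))).equicontinuous.isClosed_setOf_tendsto F.continuous) x.2
    refine ⟨a, fun x => (sh a x _).2 (f1 x ▸ ex x), fun a' ha => sub_eq_zero.1 ?_⟩
    have z : ∀ x : E, Tendsto (fun N => S (a' - a) N x) atTop (𝓝 0) := fun x => by
      simpa [S_apply, sub_mul, f1] using ((sh a' x _).1 (ha x)).sub (ex x)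
    obtain ⟨M, hM⟩ := banach_steinhaus (g := fun N => S (a' - a) N ∘L E.subtypeL) fun x =>
      (z x).norm.bddAbove_range.imp fun C r N => r ⟨N, rfl⟩
    replace hM := fun N y r =>
      (ContinuousLinearMap.unit_le_opNorm _ y r).trans (hM N)
    refine t3 _ ⟨M, fun N g r => ?_⟩ fun T r t => z ⟨_, gE T (Or.inl r) t⟩
    have m : P N g * χ (Iic N) ∈ E := by
      simpa [tele N g, Finset.sum_mul, smul_mul_assoc, χ_mul] using
        E.sum_mem fun i (_ : i ∈ Finset.range (N + 1)) =>
          E.smul_mem (φ i g) (gE _ (Or.inr ⟨N, rfl⟩) i)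
    rw [loc _ (y := P N g * χ (Iic N)) fun u v => by simp [P_apply, χ_apply, v, π_self v]]
    have n : ‖(⟨_, m⟩ : E)‖ ≤ 1 := (norm_mul_le (P N g) (χ (Iic N))).trans
      (mul_le_one₀ ((norm_P N g).trans r) (norm_nonneg _) (norm_χ _))
    have := hM N _ n
    simp only [ContinuousLinearMap.comp_apply, Submodule.subtypeL_apply] at this
    exact (le_abs_self _).trans this
  · refine unc t1 t3 (Pairwise.countable_of_isOpen_disjoint (s := fun T : 𝒯 =>
      Metric.ball (⟨_, gE T (Or.inl T.2) 0⟩ : E) (1 / 2)) (fun T T' r => Metric.ball_disjoint_ball ?_)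
      (fun _ => Metric.isOpen_ball) fun _ => Metric.nonempty_ball.2 one_half_pos)
    obtain ⟨u, v⟩ := not_forall.1 fun v => r (Subtype.ext (Set.ext v))
    refine le_of_eq_of_le ?_ (dist_coe_le_dist u)
    by_cases c : u ∈ T.1 <;> by_cases d : u ∈ T'.1 <;> simp_all [χ_apply, anc_zero] <;> norm_num

end Pool.Agent.H84.Wsb
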