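import Pool.Agent.H84.ZDefs

/-! Basic facts, and a non-compatible supremum. -/

namespace Pool.Agent.H84.ZA

open Set Filter TopologicalSpace Topology Pool.Agent.H84.ZDefs

theorem basis_uc (S : Set UnitAddCircle) (x : ℤ) :
    (@nhds ℤ (uc S) x).HasBasis (fun ε : ℝ => 0 < ε) fun ε => {y | ∀ s ∈ S, ‖(y - x) • s‖ ≤ ε} := by
  have hb : ∀ x : ℤ, (⨅ ε > (0 : ℝ), 𝓟 {y : ℤ | ∀ s ∈ S, ‖(y - x) • s‖ ≤ ε}).HasBasis
      (fun ε : ℝ => 0 < ε) fun ε => {y | ∀ s ∈ S, ‖(y - x) • s‖ ≤ ε} := fun x =>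
    hasBasis_biInf_principal (fun a ha b hb => ⟨min a b, show (0 : ℝ) < min a b from lt_min ha hb,
      fun y hy s hs => (hy s hs).trans (min_le_left _ _),
      fun y hy s hs => (hy s hs).trans (min_le_right _ _)⟩) ⟨1, show (0 : ℝ) < 1 from one_pos⟩
  unfold uc
  rw [nhds_mkOfNhds_of_hasBasis hb (fun a ε hε s _ => by simpa using hε.le)]
  · exact hb x
  · intro a ε hε
    refine (hb a).mem_iff.2 ⟨ε / 2, half_pos hε, fun y hy =>
      (hb y).mem_iff.2 ⟨ε / 2, half_pos hε, fun z hz s hs => ?_⟩⟩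
    have : (z - a) • s = (z - y) • s + (y - a) • s := by rw [← add_smul]; congr 1; ring
    rw [this]
    linarith [norm_add_le ((z - y) • s) ((y - a) • s), hy s hs, hz s hs]

theorem D_dvd {b : ℕ → ℕ} (hb : IsD b) {m n : ℕ} (h : m ≤ n) : b m ∣ b n := by
  induction h with
  | refl => exact dvd_rfl
  | step _ ih => exact ih.trans (hb.2 _).2.1

theorem basis_pre {b : ℕ → ℕ} (hb : IsD b) (x : ℤ) :
    (⨅ n, 𝓟 {y : ℤ | (b n : ℤ) ∣ y - x}).HasBasis (fun _ => True)
      fun n => {y | (b n : ℤ) ∣ y - x} :=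
  hasBasis_iInf_principal fun m n => ⟨max m n,
    fun _ hy => (Int.natCast_dvd_natCast.2 (D_dvd hb (le_max_left _ _))).trans hy,
    fun _ hy => (Int.natCast_dvd_natCast.2 (D_dvd hb (le_max_right _ _))).trans hy⟩

theorem basis_lam {b : ℕ → ℕ} (hb : IsD b) (x : ℤ) :
    (@nhds ℤ (lam b) x).HasBasis (fun _ => True) fun n => {y | (b n : ℤ) ∣ y - x} := by
  unfold lam
  rw [nhds_mkOfNhds_of_hasBasis (basis_pre hb) (fun a n _ => by simp)]
  · exact basis_pre hb x
  · intro a n _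
    refine (basis_pre hb a).mem_iff.2 ⟨n, trivial, fun y hy =>
      (basis_pre hb y).mem_iff.2 ⟨n, trivial, fun z hz => ?_⟩⟩
    have := dvd_add hz hy
    simpa using this

theorem lam_eq {b c : ℕ → ℕ} (hb : IsD b) (hc : IsD c) (h1 : ∀ n, ∃ m, b n ∣ c m)
    (h2 : ∀ n, ∃ m, c n ∣ b m) : lam c = lam b := by
  refine TopologicalSpace.ext_nhds fun x => (basis_lam hc x).ext (basis_lam hb x) ?_ ?_
  · intro n _
    obtain ⟨m, hm⟩ := h2 n
    exact ⟨m, trivial, fun y hy => (Int.natCast_dvd_natCast.2 hm).trans hy⟩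
  · intro n _
    obtain ⟨m, hm⟩ := h1 n
    exact ⟨m, trivial, fun y hy => (Int.natCast_dvd_natCast.2 hm).trans hy⟩

theorem dvd_of_lam_eq {b c : ℕ → ℕ} (hb : IsD b) (hc : IsD c) (h : lam c = lam b) (n : ℕ) :
    ∃ m, c n ∣ b m := by
  have h1 := (basis_lam hc 0).mem_of_mem (i := n) trivial
  rw [h] at h1
  obtain ⟨m, -, hm⟩ := (basis_lam hb 0).mem_iff.1 h1
  have := hm (a := b m) (by simp)
  exact ⟨m, Int.natCast_dvd_natCast.1 (by simpa using this)⟩

theorem mem_dual {t : TopologicalSpace ℤ} {χ : UnitAddCircle}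
    (h : ∀ x : ℤ, ∀ δ > (0 : ℝ), {y | ‖(y - x) • χ‖ ≤ δ} ∈ @nhds ℤ t x) : χ ∈ dual t := by
  refine continuous_iff_continuousAt.2 fun x => Metric.tendsto_nhds.2 fun δ hδ => ?_
  filter_upwards [h x (δ / 2) (half_pos hδ)] with y hy
  rw [dist_eq_norm, ← sub_smul]
  linarith

theorem norm_two {y : UnitAddCircle} (h : ‖y‖ ≤ 1 / 4) : ‖(2 : ℤ) • y‖ = 2 * ‖y‖ := by
  obtain ⟨r, rfl⟩ := QuotientAddGroup.mk_surjective y
  have e : ((r - round r : ℝ) : UnitAddCircle) = r := by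
    rw [AddCircle.coe_sub, (AddCircle.coe_eq_zero_iff 1 (x := (round r : ℝ))).2 ⟨round r, by simp⟩,
      sub_zero]
  rw [UnitAddCircle.norm_eq] at h ⊢
  rw [← e, ← AddCircle.coe_zsmul, (AddCircle.norm_coe_eq_abs_iff 1 one_ne_zero).2]
  · simp [abs_mul]
  · simp only [zsmul_eq_mul, abs_mul, abs_one]
    norm_num
    linarith

theorem norm_pow {y : UnitAddCircle} (L : ℕ) (h : ∀ t < L, ‖(2 ^ t : ℤ) • y‖ ≤ 1 / 4) :
    ‖(2 ^ L : ℤ) • y‖ = 2 ^ L * ‖y‖ := by
  induction L with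
  | zero => simp
  | succ L ih =>
    rw [pow_succ', mul_smul, norm_two (h L (Nat.lt_succ_self L)),
      ih fun t ht => h t (ht.trans (Nat.lt_succ_self L))]
    ring

/-- The backward recursion. -/
def AB (n : ℕ) : ℕ → ℕ × ℕ
  | 0 => (n + 2, n + 1)
  | t + 1 => ((AB n t).1 * ((AB n t).2 + 2), (AB n t).2 * ((AB n t).1 + 2))

theorem AB_ge (n t : ℕ) : n + 1 ≤ (AB n t).1 ∧ n + 1 ≤ (AB n t).2 := by
  induction t with
  | zero => simp [AB]
  | succ t ih => simp only [AB]; constructor <;> nlinarith [ih.1, ih.2]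

theorem AB_sub (n t : ℕ) : (AB n t).1 = (AB n t).2 + 2 ^ t := by
  induction t with
  | zero => simp [AB]
  | succ t ih => simp only [AB]; rw [ih]; ring

theorem AB_dvd (n : ℕ) {s t : ℕ} (h : s ≤ t) :
    (AB n s).1 ∣ (AB n t).1 ∧ (AB n s).2 ∣ (AB n t).2 := by
  induction h with
  | refl => exact ⟨dvd_rfl, dvd_rfl⟩
  | step _ ih => exact ⟨ih.1.mul_right _, ih.2.mul_right _⟩

/-- The common multiples. -/
def MM : ℕ → ℕ
  | 0 => 2 * ((AB 0 1).1 * (AB 0 1).2)
  | n + 1 => MM n * (n + 3) * ((AB (n + 1) (n + 2)).1 * (AB (n + 1) (n + 2)).2)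

theorem MM_pos (n : ℕ) : 0 < MM n := by
  induction n with
  | zero => simp [MM, AB]
  | succ n ih =>
    have := AB_ge (n + 1) (n + 2)
    simp only [MM]
    exact Nat.mul_pos (Nat.mul_pos ih (by omega)) (Nat.mul_pos (by omega) (by omega))

theorem MM_dvd (n : ℕ) : (AB n (n + 1)).1 * (AB n (n + 1)).2 ∣ MM n := by
  cases n
  · exact Dvd.intro_left _ rfl
  · exact Dvd.intro_left _ rfl

theorem MM_fact (n : ℕ) : (n + 2).factorial ∣ MM n := by
  induction n with
  | zero => exact Dvd.intro _ rfl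
  | succ n ih =>
    simp only [MM]
    rw [Nat.factorial_succ, mul_comm]
    exact (Nat.mul_dvd_mul_right ih _).mul_right _

/-- The positions `(n, t)`, with `t` running down from `n + 1` to `0`. -/
def pos : ℕ → ℕ × ℕ
  | 0 => (0, 1)
  | i + 1 => if (pos i).2 = 0 then ((pos i).1 + 1, (pos i).1 + 2) else ((pos i).1, (pos i).2 - 1)

theorem pos_le (i : ℕ) : (pos i).2 ≤ (pos i).1 + 1 := by
  induction i with
  | zero => simp [pos]
  | succ i ih => simp only [pos]; split_ifs <;> (simp; try omega)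

theorem pos_down {i n s : ℕ} (h : pos i = (n, s)) : ∀ t ≤ s, ∃ j, pos j = (n, t) := by
  induction s generalizing i with
  | zero => intro t ht; exact ⟨i, by rw [h, Nat.le_zero.1 ht]⟩
  | succ s ih =>
    intro t ht
    rcases ht.eq_or_lt with rfl | ht
    · exact ⟨i, h⟩
    · exact ih (i := i + 1) (by simp [pos, h]) t (by omega)

theorem pos_surj (n t : ℕ) (ht : t ≤ n + 1) : ∃ j, pos j = (n, t) := by
  induction n generalizing t with
  | zero => exact pos_down (i := 0) rfl t ht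
  | succ n ih =>
    obtain ⟨j, hj⟩ := ih 0 (by omega)
    exact pos_down (i := j + 1) (by simp [pos, hj]) t ht

theorem pos_mono : Monotone fun i => (pos i).1 :=
  monotone_nat_of_le_succ fun i => by simp only [pos]; split_ifs <;> simp

theorem pos_tendsto : Tendsto (fun i => (pos i).1) atTop atTop :=
  tendsto_atTop_atTop_of_monotone pos_mono fun n => by
    obtain ⟨j, hj⟩ := pos_surj n 0 (by omega)
    exact ⟨j, by simp [hj]⟩

/-- One of the two components. -/
def sel (e : Bool) (p : ℕ × ℕ) : ℕ := cond e p.1 p.2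

theorem sel_ge (e : Bool) (n t : ℕ) : n + 1 ≤ sel e (AB n t) := by
  cases e
  exacts [(AB_ge n t).2, (AB_ge n t).1]

theorem sel_dvd (e : Bool) {n t : ℕ} (h : t ≤ n + 1) : sel e (AB n t) ∣ MM n := by
  cases e
  exacts [((AB_dvd n h).2.mul_left _).trans (MM_dvd n), ((AB_dvd n h).1.mul_right _).trans (MM_dvd n)]

theorem sel_succ (e : Bool) (n t : ℕ) :
    sel e (AB n (t + 1)) = sel e (AB n t) * (sel (!e) (AB n t) + 2) := by
  cases e <;> rfl

theorem sel_mul (e : Bool) (p : ℕ × ℕ) : p.1 * p.2 = sel e p * sel (!e) p := by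
  cases e
  · exact mul_comm _ _
  · rfl

/-- The two chains. -/
def cc (e : Bool) : ℕ → ℕ
  | 0 => 1
  | i + 1 => MM (pos i).1 / sel e (AB (pos i).1 (pos i).2)

theorem cc_mul (e : Bool) (i : ℕ) :
    cc e (i + 1) * sel e (AB (pos i).1 (pos i).2) = MM (pos i).1 :=
  Nat.div_mul_cancel (sel_dvd e (pos_le i))

theorem cc_pos (e : Bool) (i : ℕ) : 0 < cc e i := by
  cases i with
  | zero => exact one_pos
  | succ i =>
    have := cc_mul e i
    have h := MM_pos (pos i).1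
    rw [← this] at h
    exact Nat.pos_of_mul_pos_right h

theorem cc_top (e : Bool) {i n : ℕ} (h : pos i = (n + 1, n + 2)) :
    cc e (i + 1) = MM n * (n + 3) * sel (!e) (AB (n + 1) (n + 2)) := by
  have h1 := cc_mul e i
  rw [h] at h1
  simp only [MM] at h1
  rw [sel_mul e] at h1
  have h2 := sel_ge e (n + 1) (n + 2)
  refine Nat.eq_of_mul_eq_mul_right (show 0 < sel e (AB (n + 1) (n + 2)) by omega) ?_
  rw [h1]
  ring

theorem cc_ratio (e : Bool) (i : ℕ) :
    ∃ r, (pos i).1 + 2 ≤ r ∧ cc e (i + 2) = cc e (i + 1) * r := by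
  have h1 := cc_mul e i
  by_cases h : (pos i).2 = 0
  · have h2 : pos (i + 1) = ((pos i).1 + 1, (pos i).1 + 2) := by simp [pos, h]
    refine ⟨sel e (AB (pos i).1 (pos i).2) * ((pos i).1 + 3) *
      sel (!e) (AB ((pos i).1 + 1) ((pos i).1 + 2)), ?_, ?_⟩
    · have a := sel_ge e (pos i).1 (pos i).2
      have b := sel_ge (!e) ((pos i).1 + 1) ((pos i).1 + 2)
      exact le_trans b (Nat.le_mul_of_pos_left _ (Nat.mul_pos (by omega) (by omega)))
    · rw [cc_top e h2, ← h1]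
      ring
  · obtain ⟨t, ht⟩ := Nat.exists_eq_succ_of_ne_zero h
    have h2 : pos (i + 1) = ((pos i).1, t) := by simp [pos, ht]
    have h3 := cc_mul e (i + 1)
    rw [h2] at h3
    rw [ht, sel_succ] at h1
    have a := sel_ge e (pos i).1 t
    refine ⟨sel (!e) (AB (pos i).1 t) + 2, by have := sel_ge (!e) (pos i).1 t; omega, ?_⟩
    refine Nat.eq_of_mul_eq_mul_right (show 0 < sel e (AB (pos i).1 t) by omega) ?_
    rw [h3, ← h1]
    ring

theorem cc_D (e : Bool) : IsDinf (cc e) := by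
  refine ⟨⟨rfl, fun n => ⟨cc_pos e n, ?_⟩⟩, ?_⟩
  · cases n with
    | zero => cases e <;> decide
    | succ i =>
      obtain ⟨r, h1, h2⟩ := cc_ratio e i
      have := cc_pos e (i + 1)
      exact ⟨⟨r, h2⟩, by rw [h2]; nlinarith⟩
  · rw [← tendsto_add_atTop_iff_nat 1]
    refine tendsto_atTop_mono (fun i => ?_) (tendsto_natCast_atTop_atTop.comp pos_tendsto)
    obtain ⟨r, h1, h2⟩ := cc_ratio e i
    have : (0 : ℝ) < cc e (i + 1) := by exact_mod_cast cc_pos e (i + 1)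
    show (((pos i).1 : ℕ) : ℝ) ≤ (cc e (i + 2) : ℝ) / cc e (i + 1)
    rw [h2, Nat.cast_mul, mul_div_cancel_left₀ _ this.ne']
    exact_mod_cast (by omega : (pos i).1 ≤ r)

/-- The sequence `(n + 1)!`. -/
def bb (n : ℕ) : ℕ := (n + 1).factorial

theorem bb_D : IsD bb :=
  ⟨rfl, fun n => ⟨Nat.factorial_pos _, Nat.factorial_dvd_factorial (by omega),
    ((Nat.factorial_lt (by omega)).2 (by omega)).ne⟩⟩

theorem cc_lam (e : Bool) : lam (cc e) = lam bb := by
  refine lam_eq bb_D (cc_D e).1 (fun n => ?_) fun n =>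
    ⟨cc e n, Nat.dvd_factorial (cc_pos e n) (Nat.le_succ _)⟩
  obtain ⟨j, hj⟩ := pos_surj (n + 1) (n + 2) le_rfl
  refine ⟨j + 1, ?_⟩
  rw [cc_top e hj]
  exact (((Nat.factorial_dvd_factorial (Nat.le_succ _)).trans (MM_fact n)).mul_right _).mul_right _

theorem diff {i n t : ℕ} (h : pos i = (n, t)) :
    (1 / cc true (i + 1) : ℝ) - 1 / cc false (i + 1) = (2 ^ t : ℤ) • (1 / MM n : ℝ) := by
  have a := cc_mul true i
  have b := cc_mul false i
  rw [h] at a b
  simp only [sel, cond_true, cond_false] at a b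
  rw [AB_sub] at a
  have a' : (cc true (i + 1) : ℝ) * ((AB n t).2 + 2 ^ t) = MM n := by exact_mod_cast a
  have b' : (cc false (i + 1) : ℝ) * (AB n t).2 = MM n := by exact_mod_cast b
  have p1 : (0 : ℝ) < cc true (i + 1) := by exact_mod_cast cc_pos true _
  have p2 : (0 : ℝ) < cc false (i + 1) := by exact_mod_cast cc_pos false _
  have p3 : (0 : ℝ) < MM n := by exact_mod_cast MM_pos n
  have e1 : (1 / cc true (i + 1) : ℝ) = ((AB n t).2 + 2 ^ t) / MM n := by
    rw [div_eq_div_iff p1.ne' p3.ne']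
    linarith
  have e2 : (1 / cc false (i + 1) : ℝ) = (AB n t).2 / MM n := by
    rw [div_eq_div_iff p2.ne' p3.ne']
    linarith
  rw [e1, e2, zsmul_eq_mul]
  push_cast
  ring

theorem MM_grow (n k : ℕ) : MM n * 3 ^ k ≤ MM (n + k) := by
  induction k with
  | zero => simp
  | succ k ih =>
    have a := AB_ge (n + k + 1) (n + k + 2)
    show _ ≤ MM (n + k) * (n + k + 3) * _
    refine le_trans ?_ (Nat.le_mul_of_pos_right _ (Nat.mul_pos (Nat.zero_lt_of_lt a.1)
      (Nat.zero_lt_of_lt a.2)))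
    rw [pow_succ, ← mul_assoc]
    exact Nat.mul_le_mul ih (by omega)

theorem MM_dvd_le {m n : ℕ} (h : m ≤ n) : MM m ∣ MM n := by
  induction h with
  | refl => exact dvd_rfl
  | step _ ih => exact (ih.mul_right _).mul_right _

theorem inv_le (n k : ℕ) : (1 / MM (n + k) : ℝ) ≤ 1 / MM n * (1 / 3) ^ k := by
  have a : (MM n : ℝ) * 3 ^ k ≤ MM (n + k) := by exact_mod_cast MM_grow n k
  have p : (0 : ℝ) < MM n := by exact_mod_cast MM_pos n
  rw [one_div_pow, one_div_mul_one_div]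
  exact one_div_le_one_div_of_le (by positivity) a

theorem geo : HasSum (fun k : ℕ => (1 / 3 : ℝ) ^ k) (3 / 2) := by
  convert hasSum_geometric_of_lt_one (r := 1 / 3) (by norm_num) (by norm_num) using 1
  norm_num

theorem summ : Summable fun n => (1 / MM n : ℝ) :=
  Summable.of_nonneg_of_le (fun _ => by positivity)
    (fun k => by have := inv_le 0 k; rwa [zero_add] at this)
    (geo.summable.mul_left (1 / MM 0 : ℝ))

/-- The extra character. -/
noncomputable def xx : ℝ := ∑' n, (1 / MM n : ℝ)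

theorem xx_not : (xx : UnitAddCircle) ∉ HH bb := by
  rintro ⟨k, n, h⟩
  obtain ⟨z, hz⟩ := (AddCircle.coe_eq_zero_iff 1).1
    (show ((xx - k / bb n : ℝ) : UnitAddCircle) = 0 by rw [AddCircle.coe_sub, h, sub_self])
  obtain ⟨q, hq⟩ : bb n ∣ MM n := (Nat.factorial_dvd_factorial (Nat.le_succ _)).trans (MM_fact n)
  have p : (0 : ℝ) < MM n := by exact_mod_cast MM_pos n
  have pb : (0 : ℝ) < bb n := by exact_mod_cast (bb_D.2 n).1
  have h1 : (MM n : ℝ) * xx = (MM n * z + q * k : ℤ) := by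
    have : xx = z + k / bb n := by
      simp only [zsmul_eq_mul, mul_one] at hz
      linarith
    rw [this]
    push_cast
    rw [hq]
    push_cast
    field_simp
  have h2 : ∃ w : ℤ, (MM n : ℝ) * ∑ i ∈ Finset.range (n + 1), (1 / MM i : ℝ) = w := by
    refine ⟨∑ i ∈ Finset.range (n + 1), (MM n / MM i : ℕ), ?_⟩
    rw [Finset.mul_sum]
    push_cast
    refine Finset.sum_congr rfl fun i hi => ?_
    have pi : (MM i : ℝ) ≠ 0 := by exact_mod_cast (MM_pos i).ne'
    obtain ⟨c, hc⟩ := MM_dvd_le (Nat.lt_succ_iff.1 (Finset.mem_range.1 hi))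
    have pj : (MM i : ℤ) ≠ 0 := by exact_mod_cast (MM_pos i).ne'
    rw [hc]
    push_cast
    rw [Int.mul_ediv_cancel_left _ pj]
    push_cast
    field_simp
  obtain ⟨w, hw⟩ := h2
  have h3 := summ.sum_add_tsum_nat_add (n + 1)
  have s2 : Summable fun i => (1 / MM (i + (n + 1)) : ℝ) := (summable_nat_add_iff (n + 1)).2 summ
  have h4 : 0 < ∑' i, (1 / MM (i + (n + 1)) : ℝ) :=
    s2.tsum_pos (fun _ => by positivity) 0 (by have := MM_pos (0 + (n + 1)); positivity)
  have h5 : ∑' i, (1 / MM (i + (n + 1)) : ℝ) ≤ 1 / MM n * (1 / 3) * (3 / 2) := by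
    refine hasSum_le (fun i => ?_) s2.hasSum (geo.mul_left _)
    have := inv_le n (i + 1)
    rw [pow_succ', ← mul_assoc] at this
    rwa [show i + (n + 1) = n + (i + 1) by ring]
  have h6 : (MM n : ℝ) * ∑' i, (1 / MM (i + (n + 1)) : ℝ) = ((MM n * z + q * k - w : ℤ) : ℝ) := by
    rw [Int.cast_sub, ← h1, ← hw, xx, ← h3]
    ring
  have h7 := mul_pos p h4
  have h8 := mul_le_mul_of_nonneg_left h5 p.le
  rw [h6] at h7 h8
  have h9 : (MM n : ℝ) * (1 / MM n * (1 / 3) * (3 / 2)) = 1 / 2 := by field_simp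
  rw [h9] at h8
  have a : (0 : ℤ) < MM n * z + q * k - w := by exact_mod_cast h7
  have b : ((MM n * z + q * k - w : ℤ) : ℝ) < 1 := by linarith
  have b' : MM n * z + q * k - w < (1 : ℤ) := by exact_mod_cast b
  omega

theorem xx_small (k : ℤ) {ε : ℝ} (hε : ε ≤ 1 / 8)
    (h : ∀ e i, ‖k • ((1 / cc e (i + 1) : ℝ) : UnitAddCircle)‖ ≤ ε) :
    ‖k • (xx : UnitAddCircle)‖ ≤ 2 * ε := by
  have h1 : ∀ n t, t ≤ n + 1 → ‖(2 ^ t : ℤ) • k • ((1 / MM n : ℝ) : UnitAddCircle)‖ ≤ 2 * ε := by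
    intro n t ht
    obtain ⟨i, hi⟩ := pos_surj n t ht
    rw [smul_comm, ← AddCircle.coe_zsmul, ← diff hi, AddCircle.coe_sub, smul_sub]
    linarith [norm_sub_le (k • ((1 / cc true (i + 1) : ℝ) : UnitAddCircle))
      (k • ((1 / cc false (i + 1) : ℝ) : UnitAddCircle)), h true i, h false i]
  have h2 : ∀ n, ‖k • ((1 / MM n : ℝ) : UnitAddCircle)‖ ≤ ε * (1 / 2) ^ n := by
    intro n
    have := h1 n (n + 1) le_rfl
    rw [norm_pow (n + 1) fun t ht => (h1 n t ht.le).trans (by linarith)] at this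
    rw [one_div_pow, mul_one_div, le_div_iff₀ (by positivity)]
    rw [pow_succ] at this
    linarith
  have h3 := (summ.hasSum.map (QuotientAddGroup.mk' (AddSubgroup.zmultiples (1 : ℝ)))
    (AddCircle.continuous_mk' 1)).const_smul k
  have h4 := h3.norm_le_of_bounded (hasSum_geometric_two.mul_left ε) h2
  rw [mul_comm]
  exact h4

theorem xx_mem : (xx : UnitAddCircle) ∈ dual (sup bb) := by
  refine mem_dual fun x δ hδ => ?_
  have h1 : ∀ e, {y : ℤ | ∀ i, ‖(y - x) • ((1 / cc e (i + 1) : ℝ) : UnitAddCircle)‖ ≤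
      min (δ / 2) (1 / 8)} ∈ @nhds ℤ (sup bb) x := fun e => by
    have hle : sup bb ≤ tau (cc e) := sInf_le ⟨cc e, cc_D e, cc_lam e, rfl⟩
    refine _root_.nhds_mono hle ?_
    exact (basis_uc _ x).mem_iff.2 ⟨_, lt_min (half_pos hδ) (by norm_num), fun y hy i =>
      hy _ ⟨i + 1, by omega, rfl⟩⟩
  filter_upwards [h1 true, h1 false] with y a b
  have := xx_small (y - x) (min_le_right (δ / 2) (1 / 8)) fun e => by cases e; exacts [b, a]
  linarith [min_le_left (δ / 2) (1 / 8)]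

end Pool.Agent.H84.ZA
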