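import Pool.Agent.H84.ZA

/-! For powers of two the supremum is compatible but is not the Mackey topology. -/

namespace Pool.Agent.H84.ZB

open Set Filter TopologicalSpace Topology Pool.Agent.H84.ZDefs Pool.Agent.H84.ZA

/-- The character `1 / 2 ^ a`. -/
noncomputable def ee (a : ℕ) : UnitAddCircle := ((1 / 2 ^ a : ℝ) : UnitAddCircle)

theorem ee_zero {a g : ℕ} (h : a ≤ g) : (2 ^ g : ℤ) • ee a = 0 := by
  obtain ⟨d, rfl⟩ := Nat.exists_eq_add_of_le h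
  rw [ee, ← AddCircle.coe_zsmul]
  refine (AddCircle.coe_eq_zero_iff 1).2 ⟨2 ^ d, ?_⟩
  simp only [zsmul_eq_mul]
  push_cast
  rw [pow_add]
  field_simp

theorem ee_small {k : ℤ} {g l a : ℕ} (hk : |k| ≤ 2 ^ g) (h : g + l ≤ a) :
    ‖k • ee a‖ ≤ (1 / 2) ^ l := by
  rw [ee, ← AddCircle.coe_zsmul]
  refine QuotientAddGroup.norm_mk_le_norm.trans ?_
  have hk' : |(k : ℝ)| ≤ 2 ^ g := by exact_mod_cast hk
  have h2 : (2 : ℝ) ^ g * 2 ^ l ≤ 2 ^ a := by
    rw [← pow_add]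
    exact pow_le_pow_right₀ one_le_two h
  rw [zsmul_eq_mul, Real.norm_eq_abs, abs_mul, abs_of_pos (show (0 : ℝ) < 1 / 2 ^ a by positivity),
    one_div_pow, mul_one_div, div_le_div_iff₀ (by positivity) (by positivity), one_mul]
  exact (mul_le_mul_of_nonneg_right hk' (by positivity)).trans h2

theorem exists_rep (y : UnitAddCircle) : ∃ r : ℝ, (r : UnitAddCircle) = y ∧ |r| = ‖y‖ := by
  obtain ⟨r, rfl⟩ := QuotientAddGroup.mk_surjective y
  refine ⟨r - round r, ?_, UnitAddCircle.norm_eq.symm⟩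
  rw [AddCircle.coe_sub, (AddCircle.coe_eq_zero_iff 1 (x := (round r : ℝ))).2 ⟨round r, by simp⟩,
    sub_zero]

theorem norm_add_or {y z : UnitAddCircle} (hy : ‖y‖ ≤ 1 / 4) (hz : ‖z‖ ≤ 1 / 4) :
    ‖y‖ + ‖z‖ ≤ ‖y + z‖ ∨ ‖y‖ + ‖z‖ ≤ ‖y - z‖ := by
  obtain ⟨r, rfl, hr⟩ := exists_rep y
  obtain ⟨s, rfl, hs⟩ := exists_rep z
  rw [← hr] at hy
  rw [← hs] at hz
  rw [← hr, ← hs, ← AddCircle.coe_add, ← AddCircle.coe_sub,
    (AddCircle.norm_coe_eq_abs_iff 1 one_ne_zero).2 (by rw [abs_one]; linarith [abs_add_le r s]),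
    (AddCircle.norm_coe_eq_abs_iff 1 one_ne_zero).2 (by rw [abs_one]; linarith [abs_sub r s])]
  rcases le_total 0 r with a | a <;> rcases le_total 0 s with b | b
  · left
    rw [abs_of_nonneg a, abs_of_nonneg b]
    exact le_abs_self _
  · right
    rw [abs_of_nonneg a, abs_of_nonpos b]
    linarith [le_abs_self (r - s)]
  · right
    rw [abs_of_nonpos a, abs_of_nonneg b]
    linarith [neg_le_abs (r - s)]
  · left
    rw [abs_of_nonpos a, abs_of_nonpos b]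
    linarith [neg_le_abs (r + s)]

/-- Long gaps occur in every far window of bounded length. -/
def Gap (A : Set ℕ) : Prop :=
  ∀ l, ∃ W N, ∀ p, N ≤ p → ∃ g, p ≤ g + W ∧ g ≤ p ∧ ∀ a ∈ A, a ≤ g ∨ g + l ≤ a

/-- The sequence of powers of two. -/
def b2 (n : ℕ) : ℕ := 2 ^ n

theorem b2_D : IsD b2 :=
  ⟨rfl, fun n => ⟨Nat.two_pow_pos n, pow_dvd_pow 2 (Nat.le_succ n),
    (Nat.pow_lt_pow_right one_lt_two (Nat.lt_succ_self n)).ne⟩⟩

theorem dyadic {A : Set ℕ} (hA : Gap A) {ε : ℝ} (hε : 0 < ε) {χ : UnitAddCircle}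
    (h : ∀ k : ℤ, (∀ a ∈ A, ‖k • ee a‖ ≤ ε) → ‖k • χ‖ ≤ 1 / 4) : χ ∈ HH b2 := by
  by_contra hn
  have h1 : ∀ n : ℕ, (2 ^ n : ℤ) • χ ≠ 0 := by
    intro n h0
    obtain ⟨r, rfl⟩ := QuotientAddGroup.mk_surjective χ
    rw [← AddCircle.coe_zsmul] at h0
    obtain ⟨z, hz⟩ := (AddCircle.coe_eq_zero_iff 1).1 h0
    refine hn ⟨z, n, ?_⟩
    simp only [zsmul_eq_mul, mul_one] at hz
    rw [hz, b2]
    push_cast
    rw [mul_div_cancel_left₀ _ (by positivity)]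
  have h2 : ∀ M : ℕ, ∃ p, M ≤ p ∧ 1 / 4 < ‖(2 ^ p : ℤ) • χ‖ := by
    intro M
    by_contra hc
    push Not at hc
    have h3 : ∀ t : ℕ, ‖(2 ^ t : ℤ) • (2 ^ M : ℤ) • χ‖ ≤ 1 / 4 := fun t => by
      rw [← mul_smul, ← pow_add]
      exact hc _ (by omega)
    have h4 := norm_pos_iff.2 (h1 M)
    obtain ⟨L, hL⟩ := pow_unbounded_of_one_lt (1 / 4 / ‖(2 ^ M : ℤ) • χ‖) (one_lt_two (α := ℝ))
    have := h3 L
    rw [norm_pow L fun t _ => h3 t] at this
    rw [div_lt_iff₀ h4] at hL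
    linarith
  obtain ⟨l, hl⟩ := exists_pow_lt_of_lt_one hε (show (1 / 2 : ℝ) < 1 by norm_num)
  obtain ⟨W, N, hW⟩ := hA (l + 1)
  have h3 : ∀ G, ∃ g, G ≤ g ∧ (∀ a ∈ A, a ≤ g ∨ g + (l + 1) ≤ a) ∧
      1 / 4 / 2 ^ W ≤ ‖(2 ^ g : ℤ) • χ‖ := by
    intro G
    obtain ⟨p, hp, hp'⟩ := h2 (N + G + W)
    obtain ⟨g, g1, g2, g3⟩ := hW p (by omega)
    refine ⟨g, by omega, g3, ?_⟩
    obtain ⟨d, rfl⟩ := Nat.exists_eq_add_of_le g2
    rw [pow_add, mul_comm, mul_smul] at hp'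
    have a := hp'.trans_le (norm_zsmul_le _ _)
    have b : ‖(2 ^ d : ℤ)‖ ≤ 2 ^ W := by
      rw [Int.norm_eq_abs]
      push_cast
      rw [abs_of_pos (by positivity)]
      exact pow_le_pow_right₀ one_le_two (show d ≤ W by omega)
    rw [div_le_iff₀ (by positivity), mul_comm]
    exact a.le.trans (mul_le_mul_of_nonneg_right b (norm_nonneg _))
  have h4 : ∀ (k : ℤ) (g : ℕ), |k| ≤ 2 ^ g → (∀ a ∈ A, ‖k • ee a‖ ≤ ε) →
      (∀ a ∈ A, a ≤ g ∨ g + (l + 1) ≤ a) →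
        (|k + 2 ^ g| ≤ 2 ^ (g + 1) ∧ ∀ a ∈ A, ‖(k + 2 ^ g) • ee a‖ ≤ ε) ∧
        (|k - 2 ^ g| ≤ 2 ^ (g + 1) ∧ ∀ a ∈ A, ‖(k - 2 ^ g) • ee a‖ ≤ ε) := by
    intro k g hk h1 h2
    have p : (0 : ℤ) < 2 ^ g := by positivity
    have e1 : |k + 2 ^ g| ≤ 2 ^ (g + 1) := by
      rw [abs_le] at hk ⊢
      rw [pow_succ]
      constructor <;> linarith [hk.1, hk.2]
    have e2 : |k - 2 ^ g| ≤ 2 ^ (g + 1) := by
      rw [abs_le] at hk ⊢
      rw [pow_succ]
      constructor <;> linarith [hk.1, hk.2]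
    refine ⟨⟨e1, fun a ha => ?_⟩, e2, fun a ha => ?_⟩
    · rcases h2 a ha with e | e
      · rw [add_smul, ee_zero e, add_zero]
        exact h1 a ha
      · exact (ee_small e1 (by omega)).trans hl.le
    · rcases h2 a ha with e | e
      · rw [sub_smul, ee_zero e, sub_zero]
        exact h1 a ha
      · exact (ee_small e2 (by omega)).trans hl.le
  have h5 : ∀ j : ℕ, ∃ (k : ℤ) (G : ℕ), |k| ≤ 2 ^ G ∧ (∀ a ∈ A, ‖k • ee a‖ ≤ ε) ∧
      j * (1 / 4 / 2 ^ W) ≤ ‖k • χ‖ := by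
    intro j
    induction j with
    | zero => exact ⟨0, 0, by simp, fun a _ => by simpa using hε.le, by simp⟩
    | succ j ih =>
      obtain ⟨k, G, k1, k2, k3⟩ := ih
      obtain ⟨g, g1, g2, g3⟩ := h3 G
      have k4 : |k| ≤ 2 ^ g := k1.trans (pow_le_pow_right₀ one_le_two g1)
      have a := h _ (h4 0 g (by simp) (fun a _ => by simpa using hε.le) g2).1.2
      rw [zero_add] at a
      obtain ⟨b, c⟩ := h4 k g k4 k2 g2
      rcases norm_add_or (h k k2) a with e | e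
      · refine ⟨_, _, b.1, b.2, ?_⟩
        rw [add_smul]
        push_cast
        linarith
      · refine ⟨_, _, c.1, c.2, ?_⟩
        rw [sub_smul]
        push_cast
        linarith
  obtain ⟨j, hj⟩ := exists_nat_gt (2 ^ W : ℝ)
  obtain ⟨k, G, -, k2, k3⟩ := h5 j
  have := k3.trans (h k k2)
  rw [← mul_div_assoc, div_le_iff₀ (by positivity)] at this
  linarith

/-- Far windows of any given length hold a bounded number of points. -/
def Thin (A : Set ℕ) : Prop := ∃ r, ∀ D, ∃ N, ∀ p, N ≤ p → (A ∩ Ico p (p + D)).ncard ≤ r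

theorem Thin.union {A B : Set ℕ} (hA : Thin A) (hB : Thin B) : Thin (A ∪ B) := by
  obtain ⟨r, hr⟩ := hA
  obtain ⟨s, hs⟩ := hB
  refine ⟨r + s, fun D => ?_⟩
  obtain ⟨N, hN⟩ := hr D
  obtain ⟨M, hM⟩ := hs D
  refine ⟨N + M, fun p hp => ?_⟩
  rw [union_inter_distrib_right]
  exact (ncard_union_le _ _).trans (add_le_add (hN p (by omega)) (hM p (by omega)))

theorem pigeon {A : Set ℕ} {r p D l : ℕ} (h : (A ∩ Ico p (p + D)).ncard ≤ r) (f : ℕ → ℕ)
    (h1 : ∀ i j, i < j → f i + l ≤ f j) (h2 : p ≤ f 0) (h3 : f (r + 1) ≤ p + D) :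
    ∃ i, i ≤ r ∧ ∀ a ∈ A, a < f i ∨ f i + l ≤ a := by
  by_contra hc
  push Not at hc
  choose! a a1 a2 a3 using hc
  have h4 : ∀ i j, i < j → j ≤ r → a i < a j := fun i j hij hj =>
    ((a3 i (by omega)).trans_le (h1 i j hij)).trans_le (a2 j hj)
  have h5 : (Iic r).ncard ≤ (A ∩ Ico p (p + D)).ncard := by
    refine ncard_le_ncard_of_injOn a (fun i hi => ⟨a1 i hi, ?_, ?_⟩) (fun i hi j hj e => ?_)
      ((finite_Ico _ _).subset inter_subset_right)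
    · rcases Nat.eq_zero_or_pos i with rfl | h0
      · exact h2.trans (a2 0 hi)
      · have := h1 0 i h0
        have := a2 i hi
        omega
    · have := h1 i (r + 1) (Nat.lt_succ_of_le hi)
      have := a3 i hi
      omega
    · rcases lt_trichotomy i j with e' | e' | e'
      · exact absurd e (h4 i j e' hj).ne
      · exact e'
      · exact absurd e (h4 j i e' hi).ne'
  rw [← Finset.coe_Iic, ncard_coe_finset, Nat.card_Iic] at h5
  omega

theorem Thin.gap {A : Set ℕ} (hA : Thin A) : Gap A := by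
  obtain ⟨r, hr⟩ := hA
  intro l
  obtain ⟨N, hN⟩ := hr ((r + 1) * l)
  refine ⟨(r + 1) * l, N + (r + 1) * l, fun p hp => ?_⟩
  obtain ⟨q, rfl⟩ := Nat.exists_eq_add_of_le' (show (r + 1) * l ≤ p by omega)
  obtain ⟨i, hi, h⟩ := pigeon (l := l) (hN q (by omega)) (fun i => q + i * l)
    (fun i j hij => by
      have := Nat.mul_le_mul_right l (Nat.succ_le_of_lt hij)
      rw [Nat.succ_mul] at this
      omega) (by simp) le_rfl
  refine ⟨q + i * l, by omega, ?_, fun a ha => (h a ha).imp le_of_lt id⟩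
  have := Nat.mul_le_mul_right l (show i ≤ r + 1 by omega)
  omega

theorem thin_of {c : ℕ → ℕ} (hc : IsDinf c) : Thin {a | ∃ n, c n = 2 ^ a} := by
  refine ⟨1, fun D => ?_⟩
  obtain ⟨m, hm⟩ := eventually_atTop.1 (hc.2.eventually_ge_atTop (2 ^ D))
  have h1 : ∀ a a', c m ≤ a → a < a' → (∃ n, c n = 2 ^ a) → (∃ n, c n = 2 ^ a') → a + D ≤ a' := by
    rintro a a' h h' ⟨n, hn⟩ ⟨n', hn'⟩
    have e1 : m ≤ n := by
      by_contra e
      have := Nat.le_of_dvd (hc.1.2 m).1 (D_dvd hc.1 (not_le.1 e).le)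
      have := @Nat.lt_two_pow_self a
      omega
    have e2 : n < n' := by
      by_contra e
      have := Nat.le_of_dvd (hc.1.2 n).1 (D_dvd hc.1 (not_lt.1 e))
      have := Nat.pow_lt_pow_right one_lt_two h'
      omega
    have e3 := Nat.le_of_dvd (hc.1.2 n').1 (D_dvd hc.1 (Nat.succ_le_of_lt e2))
    have e4 := hm n e1
    rw [le_div_iff₀ (by exact_mod_cast (hc.1.2 n).1)] at e4
    have e5 : 2 ^ D * c n ≤ c (n + 1) := by exact_mod_cast e4
    rw [hn, ← pow_add] at e5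
    have := (Nat.pow_le_pow_iff_right one_lt_two).1 (e5.trans (e3.trans hn'.le))
    omega
  refine ⟨c m, fun p hp => (ncard_le_one ((finite_Ico _ _).subset inter_subset_right)).2 ?_⟩
  rintro a ⟨a1, a2, a3⟩ a' ⟨b1, b2, b3⟩
  rcases lt_trichotomy a a' with e | e | e
  · have := h1 a a' (by omega) e a1 b1
    omega
  · exact e
  · have := h1 a' a (by omega) e b1 a1
    omega

theorem nhds_sup {U : Set ℤ} (hU : U ∈ @nhds ℤ (sup b2) 0) :
    ∃ A, Thin A ∧ ∃ ε > (0 : ℝ), ∀ k : ℤ, (∀ a ∈ A, ‖k • ee a‖ ≤ ε) → k ∈ U := by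
  rw [sup, nhds_sInf, iInf_subtype'] at hU
  refine iInf_sets_induct hU (p := fun U => ∃ A, Thin A ∧ ∃ ε > (0 : ℝ), ∀ k : ℤ,
    (∀ a ∈ A, ‖k • ee a‖ ≤ ε) → k ∈ U) ⟨∅, ⟨0, fun _ => ⟨0, by simp⟩⟩, 1, one_pos, by simp⟩ ?_
  rintro ⟨_, c, hc, hl, rfl⟩ s₁ s₂ h1 ⟨A, hA, ε, hε, h2⟩
  obtain ⟨δ, hδ, h3⟩ := (basis_uc _ 0).mem_iff.1 h1
  refine ⟨A ∪ _, hA.union (thin_of hc), min ε δ, lt_min hε hδ, fun k hk =>
    ⟨h3 ?_, h2 k fun a ha => (hk a (Or.inl ha)).trans (min_le_left _ _)⟩⟩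
  rintro _ ⟨n, -, rfl⟩
  obtain ⟨m, hm⟩ := dvd_of_lam_eq b2_D hc.1 hl n
  obtain ⟨a, -, ha⟩ := (Nat.dvd_prime_pow Nat.prime_two).1 hm
  have := (hk a (Or.inr ⟨n, ha⟩)).trans (min_le_right _ _)
  rw [sub_zero, ha]
  push_cast
  exact this

theorem dual_nhds {t : TopologicalSpace ℤ} {χ : UnitAddCircle} (h : χ ∈ dual t) :
    {k : ℤ | ‖k • χ‖ ≤ 1 / 4} ∈ @nhds ℤ t 0 := by
  have := Metric.tendsto_nhds.1 (@Continuous.tendsto _ _ t _ _ h 0) (1 / 4) (by norm_num)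
  filter_upwards [this] with k hk
  rw [zero_smul, dist_zero_right] at hk
  exact hk.le

theorem smul_mem {t : TopologicalSpace ℤ} {χ : UnitAddCircle} (h : χ ∈ dual t) (m : ℤ) :
    m • χ ∈ dual t := by
  have := @Continuous.const_smul ℤ _ _ _ _ _ t _ h m
  refine @Continuous.congr _ _ t _ _ _ this fun k => smul_comm m k χ

theorem mem_uc {S : Set UnitAddCircle} {s : UnitAddCircle} (h : s ∈ S) : s ∈ dual (uc S) :=
  mem_dual fun x δ hδ => (basis_uc S x).mem_iff.2 ⟨δ, hδ, fun _ hy => hy s h⟩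

theorem HH_sub {t : TopologicalSpace ℤ} (h : ∀ n, ∃ a, n ≤ a ∧ ee a ∈ dual t) :
    HH b2 ⊆ dual t := by
  rintro _ ⟨k, n, rfl⟩
  obtain ⟨a, ha, h⟩ := h n
  obtain ⟨d, rfl⟩ := Nat.exists_eq_add_of_le ha
  convert smul_mem h (k * 2 ^ d) using 1
  rw [ee, ← AddCircle.coe_zsmul, b2, zsmul_eq_mul]
  congr 1
  push_cast
  rw [pow_add]
  field_simp

theorem sq_D : IsDinf fun n => 2 ^ (n ^ 2) := by
  refine ⟨⟨rfl, fun n => ⟨Nat.two_pow_pos _, pow_dvd_pow 2 (Nat.pow_le_pow_left (Nat.le_succ n) 2),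
    (Nat.pow_lt_pow_right one_lt_two (Nat.pow_lt_pow_left (Nat.lt_succ_self n) two_ne_zero)).ne⟩⟩, ?_⟩
  refine tendsto_atTop_mono (fun n => ?_) tendsto_natCast_atTop_atTop
  rw [le_div_iff₀ (by positivity)]
  have : n * 2 ^ (n ^ 2) ≤ 2 ^ ((n + 1) ^ 2) :=
    (Nat.mul_le_mul_right _ (@Nat.lt_two_pow_self n).le).trans (by
      rw [← pow_add]
      exact Nat.pow_le_pow_right two_pos (by nlinarith))
  exact_mod_cast this

theorem dual_sup : dual (sup b2) = HH b2 := by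
  refine Subset.antisymm (fun χ h => ?_) (HH_sub fun n => ⟨(n + 1) ^ 2, by nlinarith, ?_⟩)
  · obtain ⟨A, hA, ε, hε, h⟩ := nhds_sup (dual_nhds h)
    exact dyadic hA.gap hε h
  · have hle : sup b2 ≤ tau fun n => 2 ^ (n ^ 2) := sInf_le ⟨_, sq_D, lam_eq b2_D sq_D.1
      (fun n => ⟨n, pow_dvd_pow 2 (by nlinarith)⟩) fun n => ⟨n ^ 2, dvd_rfl⟩, rfl⟩
    exact continuous_le_dom hle (mem_uc ⟨n + 1, by omega, by simp [ee]⟩)

/-- Sums of two powers of two. -/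
def A2 : Set ℕ := {a | ∃ n j, a = 2 ^ n + 2 ^ j}

theorem pow_split (l n : ℕ) : ∃ u x, 2 ^ n = 8 * 2 ^ l * u + x ∧ (x = 4 * 2 ^ l ∨ x ≤ 2 * 2 ^ l) := by
  rcases le_or_gt (l + 3) n with h | h
  · obtain ⟨d, rfl⟩ := Nat.exists_eq_add_of_le h
    exact ⟨2 ^ d, 0, by ring, Or.inr (Nat.zero_le _)⟩
  · refine ⟨0, 2 ^ n, by simp, ?_⟩
    rcases (show n = l + 2 ∨ n ≤ l + 1 by omega) with rfl | h
    · exact Or.inl (by ring)
    · exact Or.inr ((Nat.pow_le_pow_right two_pos h).trans_eq (by ring))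

theorem gap_A2 : Gap A2 := by
  intro l
  have hl := @Nat.lt_two_pow_self l
  refine ⟨16 * 2 ^ l, 8 * 2 ^ l, fun p hp => ?_⟩
  have hM : 0 < 8 * 2 ^ l := by positivity
  obtain ⟨q, hq⟩ := Nat.exists_eq_succ_of_ne_zero (Nat.div_pos hp hM).ne'
  have e1 := Nat.div_add_mod p (8 * 2 ^ l)
  have e2 := Nat.mod_lt p hM
  rw [hq, Nat.mul_succ] at e1
  refine ⟨8 * 2 ^ l * q + 7 * 2 ^ l, by omega, by omega, ?_⟩
  rintro _ ⟨n, j, rfl⟩
  obtain ⟨u, x, h1, h2⟩ := pow_split l n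
  obtain ⟨v, y, h3, h4⟩ := pow_split l j
  rw [h1, h3]
  rcases lt_trichotomy (u + v) q with e | e | e
  · have := Nat.mul_le_mul_left (8 * 2 ^ l) (Nat.succ_le_of_lt e)
    rw [Nat.mul_succ, mul_add] at this
    omega
  · rw [← e, mul_add]
    omega
  · have := Nat.mul_le_mul_left (8 * 2 ^ l) (Nat.succ_le_of_lt e)
    rw [Nat.mul_succ, mul_add] at this
    omega

theorem dual_A2 : dual (uc (ee '' A2)) = HH b2 := by
  refine Subset.antisymm (fun χ h => ?_) (HH_sub fun n => ⟨2 ^ n + 2 ^ 0, ?_,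
    mem_uc ⟨_, ⟨n, 0, rfl⟩, rfl⟩⟩)
  · obtain ⟨ε, hε, h⟩ := (basis_uc _ 0).mem_iff.1 (dual_nhds h)
    refine dyadic gap_A2 hε fun k hk => h ?_
    rintro _ ⟨a, ha, rfl⟩
    rw [sub_zero]
    exact hk a ha
  · have := @Nat.lt_two_pow_self n
    omega

theorem not_le : ¬ sup b2 ≤ uc (ee '' A2) := by
  intro h
  obtain ⟨A, ⟨r, hr⟩, ε, hε, h1⟩ := nhds_sup (_root_.nhds_mono h
    ((basis_uc (ee '' A2) 0).mem_of_mem (i := 1 / 4) (by norm_num)))
  obtain ⟨l, hl⟩ := exists_pow_lt_of_lt_one hε (show (1 / 2 : ℝ) < 1 by norm_num)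
  obtain ⟨N, hN⟩ := hr (2 ^ (l + (r + 1)))
  obtain ⟨i, -, hi⟩ := pigeon (l := l) (hN (2 ^ N) (@Nat.lt_two_pow_self N).le)
    (fun i => 2 ^ N + 2 ^ (l + i)) (fun i j hij => by
      have a := @Nat.lt_two_pow_self (l + i)
      have b := Nat.pow_le_pow_right two_pos (show l + i + 1 ≤ l + j by omega)
      rw [pow_succ] at b
      omega) (Nat.le_add_right _ _) le_rfl
  obtain ⟨g, hg⟩ := Nat.exists_eq_succ_of_ne_zero (show 2 ^ N + 2 ^ (l + i) ≠ 0 by positivity)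
  have h2 := h1 (2 ^ g) (fun a ha => by
    rcases hi a ha with e | e
    · rw [ee_zero (by omega), norm_zero]
      exact hε.le
    · exact (ee_small (g := g) (by simp) (by omega)).trans hl.le) _ ⟨_, ⟨N, l + i, rfl⟩, rfl⟩
  rw [sub_zero, hg, ee, ← AddCircle.coe_zsmul, zsmul_eq_mul] at h2
  have e : ((2 ^ g : ℤ) : ℝ) * (1 / 2 ^ g.succ) = 1 / 2 := by
    push_cast
    rw [pow_succ]
    field_simp
  rw [e, (AddCircle.norm_coe_eq_abs_iff 1 one_ne_zero).2 (by norm_num)] at h2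
  norm_num at h2

theorem group_uc (S : Set UnitAddCircle) : @IsTopologicalAddGroup ℤ (uc S) _ := by
  let := uc S
  have h : Continuous fun p : ℤ × ℤ => p.1 - p.2 := by
    refine continuous_iff_continuousAt.2 fun p => ?_
    rw [ContinuousAt, nhds_prod_eq]
    refine (((basis_uc S p.1).prod (basis_uc S p.2)).tendsto_iff (basis_uc S _)).2 fun ε hε =>
      ⟨(ε / 2, ε / 2), ⟨half_pos hε, half_pos hε⟩, fun q hq s hs => ?_⟩
    have : (q.1 - q.2 - (p.1 - p.2)) • s = (q.1 - p.1) • s - (q.2 - p.2) • s := by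
      rw [← sub_smul]
      congr 1
      ring
    rw [this]
    linarith [norm_sub_le ((q.1 - p.1) • s) ((q.2 - p.2) • s), hq.1 s hs, hq.2 s hs]
  have hn : Continuous fun x : ℤ => -x := by
    exact (h.comp (continuous_const.prodMk continuous_id :
      Continuous fun x : ℤ => ((0 : ℤ), x))).congr fun x => zero_sub x
  exact { continuous_add := (h.comp (continuous_fst.prodMk (hn.comp continuous_snd) :
              Continuous fun p : ℤ × ℤ => (p.1, -p.2))).congr fun p => sub_neg_eq_add p.1 p.2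
          continuous_neg := hn }

theorem lqc_uc (S : Set UnitAddCircle) : LQC (uc S) := by
  intro U hU
  obtain ⟨ε, hε, h⟩ := (basis_uc S 0).mem_iff.1 hU
  obtain ⟨L, hL⟩ := pow_unbounded_of_one_lt (1 / 4 / ε) (one_lt_two (α := ℝ))
  have h1 : 1 / 4 / 2 ^ L ≤ ε := by
    rw [div_lt_iff₀ hε] at hL
    rw [div_le_iff₀ (by positivity)]
    linarith
  refine ⟨_, (basis_uc S 0).mem_of_mem (i := 1 / 4 / 2 ^ L) (by positivity),
    fun k hk => h fun s hs => (hk s hs).trans h1, fun x hx => ?_⟩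
  simp only [mem_ofPred_eq, sub_zero] at hx
  push Not at hx
  obtain ⟨s, hs, hx⟩ := hx
  have h2 : ∃ t ≤ L, 1 / 4 < ‖(2 ^ t : ℤ) • x • s‖ := by
    by_contra hc
    push Not at hc
    have := hc L le_rfl
    rw [norm_pow L fun t ht => hc t ht.le] at this
    rw [div_lt_iff₀ (by positivity)] at hx
    linarith
  obtain ⟨t, ht, h2⟩ := h2
  refine ⟨(2 ^ t : ℤ) • s, smul_mem (mem_uc hs) _, fun a ha => ?_, ?_⟩
  · have a1 := ha s hs
    rw [sub_zero, le_div_iff₀ (by positivity)] at a1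
    have b : ‖(2 ^ t : ℤ)‖ ≤ 2 ^ L := by
      rw [Int.norm_eq_abs]
      push_cast
      rw [abs_of_pos (by positivity)]
      exact pow_le_pow_right₀ one_le_two ht
    rw [smul_comm]
    refine (norm_zsmul_le _ _).trans ((mul_le_mul_of_nonneg_right b (norm_nonneg _)).trans ?_)
    linarith
  · rw [smul_comm]
    exact _root_.not_le.2 h2

end Pool.Agent.H84.ZB
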