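import Pool.Agent.H84.ZDefs

/-! Precompact and Mackey group topologies on the integers. -/

namespace Pool.Agent.H84.ZMDefs

open Pool.Agent.H84.ZDefs

/-- Finitely many translates of each neighbourhood of zero cover the group. -/
def Precompact (t : TopologicalSpace ℤ) : Prop :=
  ∀ U ∈ @nhds ℤ t 0, ∃ F : Finset ℤ, ∀ x : ℤ, ∃ f ∈ F, ∃ u ∈ U, x = f + u

/-- Locally quasi-convex, and finer than every locally quasi-convex group topology with the same
characters. -/
def Mackey (t : TopologicalSpace ℤ) : Prop :=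
  LQC t ∧ ∀ s : TopologicalSpace ℤ, @IsTopologicalAddGroup ℤ s _ → LQC s → dual s = dual t →
    ∀ U, @IsOpen ℤ s U → @IsOpen ℤ t U

end Pool.Agent.H84.ZMDefs
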