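import Pool.Agent.H84.ZB
import Pool.Agent.H84.ZMDefs

/-! No metrizable precompact group topology on the integers is Mackey. -/

namespace Pool.Agent.H84.ZC

open Set Filter TopologicalSpace Topology Pool.Agent.H84.ZDefs Pool.Agent.H84.ZA
  Pool.Agent.H84.ZB Pool.Agent.H84.ZMDefs
open scoped Pointwise

theorem norm_coe_le (k : ℤ) (r : ℝ) : ‖k • (r : UnitAddCircle)‖ ≤ |k * r| := by
  rw [← AddCircle.coe_zsmul, zsmul_eq_mul]
  exact QuotientAddGroup.norm_mk_le_norm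

theorem norm_coe_eq {k : ℤ} {r : ℝ} (h : |k * r| ≤ 1 / 2) :
    ‖k • (r : UnitAddCircle)‖ = |k * r| := by
  rw [← AddCircle.coe_zsmul, zsmul_eq_mul]
  exact (AddCircle.norm_coe_eq_abs_iff 1 one_ne_zero).2 (by simpa using h)

theorem lemR {W : Set ℤ} {L R δ s : ℝ} (hW : ∀ x : ℝ, ∃ k ∈ W, |k - x| ≤ L)
    (h : ∀ k ∈ W, |(k : ℝ)| ≤ R → ‖k • (s : UnitAddCircle)‖ ≤ δ) (hδ : δ ≤ 1 / 8)
    (hs : |s| * L < 1 / 8) (hR : 4 * L ≤ R) : |s| * R ≤ 2 * δ := by
  have hL : 0 ≤ L := by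
    obtain ⟨k, -, hk⟩ := hW 0
    exact (abs_nonneg _).trans hk
  have h0 := abs_nonneg s
  have key : ∀ x : ℝ, L ≤ x → x + L ≤ R → |s| * (x + L) ≤ 1 / 2 → |s| * (x - L) ≤ δ := by
    intro x x1 x2 x3
    obtain ⟨k, k1, k2⟩ := hW x
    rw [abs_le] at k2
    have k3 : |(k : ℝ)| = k := abs_of_nonneg (by linarith [k2.1])
    have a := mul_le_mul_of_nonneg_left (show (k : ℝ) ≤ x + L by linarith [k2.2]) h0
    have b := mul_le_mul_of_nonneg_left (show x - L ≤ (k : ℝ) by linarith [k2.1]) h0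
    have c := h k k1 (by linarith [k2.2])
    rw [norm_coe_eq (by rw [abs_mul, k3]; linarith), abs_mul, k3] at c
    linarith
  by_cases hc : |s| * R ≤ 1 / 2
  · have := key (R - L) (by linarith) (by linarith) (by rwa [sub_add_cancel])
    have b := mul_le_mul_of_nonneg_left hR h0
    linarith
  · exfalso
    have hp : 0 < |s| := by
      rcases h0.eq_or_lt with e | e
      · rw [← e] at hc
        norm_num at hc
      · exact e
    have e : |s| * (1 / (4 * |s|)) = 1 / 4 := by field_simp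
    have := key (1 / (4 * |s|)) (le_of_mul_le_mul_left (by linarith) hp)
      (le_of_mul_le_mul_left (by linarith) hp) (by linarith)
    linarith

theorem near_polar (V : Set ℤ) {η : ℝ} (hη : 0 < η) : ∃ R : ℕ, ∀ χ : UnitAddCircle,
    (∀ k ∈ V, |k| ≤ R → ‖k • χ‖ ≤ 1 / 4) →
      ∃ f : UnitAddCircle, (∀ k ∈ V, ‖k • f‖ ≤ 1 / 4) ∧ ‖χ - f‖ < η := by
  by_contra hc
  push Not at hc
  set C : ℕ → Set UnitAddCircle := fun R => (⋂ k ∈ {k ∈ V | |k| ≤ R}, {χ | ‖k • χ‖ ≤ 1 / 4}) ∩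
    ⋂ f ∈ {f : UnitAddCircle | ∀ k ∈ V, ‖k • f‖ ≤ 1 / 4}, {χ | η ≤ ‖χ - f‖} with hC
  have h1 : ∀ R, IsClosed (C R) := fun R =>
    (isClosed_biInter fun k _ => isClosed_le (by fun_prop) continuous_const).inter
      (isClosed_biInter fun f _ => isClosed_le continuous_const (by fun_prop))
  obtain ⟨χ, hχ⟩ := IsCompact.nonempty_iInter_of_sequence_nonempty_isCompact_isClosed C
    (fun R => inter_subset_inter_left _ (biInter_subset_biInter_left fun k hk =>
      ⟨hk.1, hk.2.trans (by push_cast; linarith)⟩))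
    (fun R => by
      obtain ⟨χ, a, b⟩ := hc R
      exact ⟨χ, mem_iInter₂.2 fun k hk => a k hk.1 hk.2, mem_iInter₂.2 b⟩) (h1 0).isCompact h1
  rw [mem_iInter] at hχ
  have h2 := mem_iInter₂.1 (hχ 0).2 χ fun k hk =>
    mem_iInter₂.1 (hχ k.natAbs).1 k ⟨hk, by simp⟩
  simp only [mem_ofPred_eq, sub_self, norm_zero] at h2
  linarith

theorem half {y : UnitAddCircle} {j : ℕ} (h : ∀ i ≤ j, ‖(2 ^ i : ℤ) • y‖ ≤ 1 / 4) :
    ‖y‖ ≤ (1 / 2) ^ j / 4 := by
  have := h j le_rfl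
  rw [norm_pow j fun i hi => h i hi.le] at this
  rw [one_div_pow, div_div, le_div_iff₀ (by positivity)]
  linarith

/-- Strong recursion. -/
noncomputable def sq {α : Type*} (c : (n : ℕ) → (Fin n → α) → α) (n : ℕ) : α :=
  c n fun i => sq c i
termination_by n
decreasing_by exact i.2

/-- Bohr-type neighbourhoods. -/
def BB (U : ℕ → Set ℤ) (a : ℕ) {n : ℕ} (g : Fin n → ℝ) : Set ℤ :=
  {k | k ∈ U a ∧ ∀ i, ‖k • (g i : UnitAddCircle)‖ ≤ (1 / 2) ^ a}

section main

variable {U : ℕ → Set ℤ} (u0 : ∀ a, 0 ∈ U a) (u1 : ∀ a, ∀ k ∈ U a, -k ∈ U a)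
  (u2 : ∀ a, ∀ k ∈ U (a + 1), ∀ l ∈ U (a + 1), k + l ∈ U a)

include u0 u2 in
theorem U_anti {a b : ℕ} (h : a ≤ b) : U b ⊆ U a := by
  induction h with
  | refl => exact subset_rfl
  | step _ ih => exact fun k hk => ih (by simpa using u2 _ k hk 0 (u0 _))

include u0 u2 in
theorem BB_anti {a b n : ℕ} (g : Fin n → ℝ) (h : a ≤ b) : BB U b g ⊆ BB U a g := fun _ hk =>
  ⟨U_anti u0 u2 h hk.1, fun i => (hk.2 i).trans (pow_le_pow_of_le_one (by norm_num) (by norm_num) h)⟩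

include u2 in
theorem BB_pow {a n : ℕ} (g : Fin n → ℝ) (i : ℕ) {k : ℤ} (h : k ∈ BB U (a + i) g) :
    2 ^ i * k ∈ BB U a g := by
  induction i generalizing k with
  | zero => simpa using h
  | succ i ih =>
    have : k + k ∈ BB U (a + i) g := by
      refine ⟨u2 _ k h.1 k h.1, fun j => ?_⟩
      have := h.2 j
      rw [← add_assoc, pow_succ] at this
      rw [add_smul]
      linarith [norm_add_le (k • (g j : UnitAddCircle)) (k • (g j : UnitAddCircle))]
    convert ih this using 1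
    ring

include u0 u2 in
theorem BB_half {a n : ℕ} (g : Fin n → ℝ) {f : UnitAddCircle}
    (hf : ∀ k ∈ BB U a g, ‖k • f‖ ≤ 1 / 4) (j : ℕ) {k : ℤ} (h : k ∈ BB U (a + j) g) :
    ‖k • f‖ ≤ (1 / 2) ^ j / 4 :=
  half fun i hi => by
    rw [← mul_smul]
    exact hf _ (BB_pow u2 g i (BB_anti u0 u2 g (by omega) h))

/-- The condition on the next term of the null sequence. -/
def Good (U : ℕ → Set ℤ) (N : ℕ) (g : Fin N → ℝ) (t : ℝ) : Prop :=
  t ≤ (1 / 2) ^ N ∧ (∀ i, t ≤ (1 / 2) ^ N / 8 * g i) ∧ ∃ L : ℝ,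
    (∀ x : ℝ, ∃ k ∈ BB U (2 * N + 3) g, |k - x| ≤ L) ∧ L * t ≤ (1 / 2) ^ (2 * N + 3) ∧
    ∀ χ : UnitAddCircle, (∀ k ∈ BB U (N + 1) g, |(k : ℝ)| * t ≤ (1 / 2) ^ N → ‖k • χ‖ ≤ 1 / 4) →
      ∃ (f : UnitAddCircle) (s : ℝ), (∀ k ∈ BB U (N + 1) g, ‖k • f‖ ≤ 1 / 4) ∧ χ = f + s ∧
        |s| * L < 1 / 8

variable {t : ℕ → ℝ} (t0 : ∀ n, 0 < t n) (hG : ∀ N, Good U N (fun i => t i) (t N))

include t0 hG in
theorem t_step (n : ℕ) : t (n + 1) ≤ t n / 8 := by
  have := (hG (n + 1)).2.1 ⟨n, Nat.lt_succ_self n⟩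
  have h : (1 / 2 : ℝ) ^ (n + 1) ≤ 1 := pow_le_one₀ (by norm_num) (by norm_num)
  have h0 := t0 n
  simp only at this
  nlinarith

include t0 hG in
theorem t_anti : Antitone t :=
  antitone_nat_of_succ_le fun n => (t_step t0 hG n).trans (by linarith [t0 n])

include u0 u1 u2 t0 hG in
theorem improve {χ : UnitAddCircle} {m : ℕ} {ε : ℝ} (hε : 0 < ε)
    (h : ∀ k ∈ U m, (∀ n, ‖k • (t n : UnitAddCircle)‖ ≤ ε) → ‖k • χ‖ ≤ 1 / 4) {δ : ℝ}
    (hδ : 0 < δ) : ∃ N₀, ∀ N, N₀ ≤ N → ∀ k ∈ BB U (N + 1) (fun i : Fin N => t i),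
      |(k : ℝ)| * t N ≤ ε / 2 → ‖k • χ‖ ≤ δ := by
  by_contra hc
  push Not at hc
  obtain ⟨l, hl⟩ := exists_pow_lt_of_lt_one (show 0 < ε / 2 by linarith)
    (show (1 / 2 : ℝ) < 1 by norm_num)
  let P : ℤ → ℕ → Prop := fun S N => l ≤ N ∧ (∀ u ∈ U N, S + u ∈ U m) ∧
    (∀ n < N, ‖S • (t n : UnitAddCircle)‖ ≤ ε - (1 / 2) ^ N) ∧ |(S : ℝ)| * t N ≤ ε / 4
  have p1 : ∀ S N, P S N → ‖S • χ‖ ≤ 1 / 4 := by
    rintro S N ⟨-, a, b, c⟩
    refine h S (by simpa using a 0 (u0 _)) fun n => ?_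
    rcases lt_or_ge n N with e | e
    · exact (b n e).trans (sub_le_self _ (by positivity))
    · refine (norm_coe_le _ _).trans ?_
      rw [abs_mul, abs_of_pos (t0 n)]
      have := mul_le_mul_of_nonneg_left (t_anti t0 hG e) (abs_nonneg (S : ℝ))
      linarith
  have p2 : ∀ S N N' k, P S N → N ≤ N' → k ∈ BB U (N' + 1) (fun i : Fin N' => t i) →
      |(k : ℝ)| * t N' ≤ ε / 2 → P (S + k) (N' + 1) := by
    rintro S N N' k ⟨a0, a, b, c⟩ hN ⟨k1, k2⟩ k3
    have g1 : (1 / 2 : ℝ) ^ N' ≤ (1 / 2) ^ N := pow_le_pow_of_le_one (by norm_num) (by norm_num) hN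
    have g2 : (1 / 2 : ℝ) ^ N ≤ (1 / 2) ^ l := pow_le_pow_of_le_one (by norm_num) (by norm_num) a0
    have g3 : ∀ n, N ≤ n → |(S : ℝ)| * t n ≤ ε / 4 := fun n e =>
      (mul_le_mul_of_nonneg_left (t_anti t0 hG e) (abs_nonneg (S : ℝ))).trans c
    have g4 : ∀ n, N ≤ n → ‖S • (t n : UnitAddCircle)‖ ≤ ε / 4 := fun n e =>
      (norm_coe_le _ _).trans (by rw [abs_mul, abs_of_pos (t0 n)]; exact g3 n e)
    refine ⟨by omega, fun u hu => ?_, fun n hn => ?_, ?_⟩
    · rw [add_assoc]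
      exact a _ (U_anti u0 u2 hN (u2 _ k k1 u hu))
    · rw [add_smul, pow_succ]
      refine (norm_add_le _ _).trans ?_
      rcases (Nat.lt_succ_iff.1 hn).eq_or_lt with rfl | e
      · have := (norm_coe_le k (t n)).trans_eq (by rw [abs_mul, abs_of_pos (t0 n)])
        linarith [g4 n hN]
      · have := k2 ⟨n, e⟩
        rw [pow_succ] at this
        simp only at this
        rcases lt_or_ge n N with e' | e'
        · linarith [b n e']
        · linarith [g4 n e']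
    · have a1 : |((S + k : ℤ) : ℝ)| * t N' ≤ 3 * ε / 4 := by
        push_cast
        have := mul_le_mul_of_nonneg_right (abs_add_le (S : ℝ) k) (t0 N').le
        linarith [g3 N' hN]
      have := mul_le_mul_of_nonneg_left (t_step t0 hG N') (abs_nonneg ((S + k : ℤ) : ℝ))
      linarith
  have p0 : P 0 (l + m) := ⟨by omega, fun u hu => by simpa using U_anti u0 u2 (by omega) hu,
    fun n _ => by
      have : (1 / 2 : ℝ) ^ (l + m) ≤ (1 / 2) ^ l :=
        pow_le_pow_of_le_one (by norm_num) (by norm_num) (by omega)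
      rw [zero_smul, norm_zero]
      linarith, by simpa using by linarith⟩
  have p3 : ∀ j : ℕ, ∃ S N, l + m ≤ N ∧ P S N ∧ j * δ ≤ ‖S • χ‖ := by
    intro j
    induction j with
    | zero => exact ⟨0, _, le_rfl, p0, by simp⟩
    | succ j ih =>
      obtain ⟨S, N, a0, a, b⟩ := ih
      obtain ⟨N', hN, k, k1, k2, k3⟩ := hc N
      have k4 : -k ∈ BB U (N' + 1) (fun i : Fin N' => t i) :=
        ⟨u1 _ _ k1.1, fun i => by rw [neg_smul, norm_neg]; exact k1.2 i⟩
      have c := p1 _ _ (p2 0 _ N' k p0 (by omega) k1 k2)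
      rw [zero_add] at c
      rcases norm_add_or (p1 _ _ a) c with e | e
      · refine ⟨_, _, by omega, p2 S N N' k a hN k1 k2, ?_⟩
        rw [add_smul]
        push_cast
        linarith
      · refine ⟨_, _, by omega, p2 S N N' (-k) a hN k4 (by simpa using k2), ?_⟩
        rw [add_smul, neg_smul, ← sub_eq_add_neg]
        push_cast
        linarith
  obtain ⟨j, hj⟩ := exists_nat_gt (1 / 4 / δ)
  obtain ⟨S, N, -, a, b⟩ := p3 j
  rw [div_lt_iff₀ hδ] at hj
  linarith [p1 _ _ a]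

include u0 u1 u2 t0 hG in
theorem polar_of {χ : UnitAddCircle} {m : ℕ} {ε : ℝ} (hε : 0 < ε) (hε1 : ε ≤ 1)
    (h : ∀ k ∈ U m, (∀ n, ‖k • (t n : UnitAddCircle)‖ ≤ ε) → ‖k • χ‖ ≤ 1 / 4) :
    ∃ N, ∀ k ∈ BB U (N + 1) (fun i : Fin N => t i), ‖k • χ‖ ≤ 1 / 4 := by
  obtain ⟨N₀, h0⟩ := improve u0 u1 u2 t0 hG hε h (δ := ε / 128) (by linarith)
  obtain ⟨l, hl⟩ := exists_pow_lt_of_lt_one (show 0 < ε / 32 by linarith)
    (show (1 / 2 : ℝ) < 1 by norm_num)
  set N := N₀ + l with hN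
  have g1 : ∀ M, N ≤ M → (1 / 2 : ℝ) ^ M ≤ ε / 32 := fun M hM =>
    (pow_le_pow_of_le_one (by norm_num) (by norm_num) (by omega)).trans hl.le
  obtain ⟨-, -, L, l1, l2, l3⟩ := hG N
  obtain ⟨f, s, f1, rfl, f3⟩ := l3 χ fun k hk hk' =>
    (h0 N (by omega) k hk (by linarith [g1 N le_rfl])).trans (by linarith)
  have q : ∀ M, N ≤ M → ∀ k ∈ BB U (2 * M + 1) (fun i : Fin M => t i),
      |(k : ℝ)| ≤ ε / (2 * t M) → ‖k • (s : UnitAddCircle)‖ ≤ ε / 64 := by
    intro M hM k hk hk'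
    rw [le_div_iff₀ (by linarith [t0 M])] at hk'
    have a := h0 M (by omega) k (BB_anti u0 u2 _ (by omega) hk) (by linarith)
    have hk2 := BB_anti u0 u2 _ (show N + 1 + N ≤ 2 * M + 1 by omega) hk
    have b := BB_half u0 u2 _ f1 N ⟨hk2.1, fun i => hk2.2 ⟨i, i.2.trans_le hM⟩⟩
    have c : k • (s : UnitAddCircle) = k • (f + s) - k • f := by rw [smul_add]; abel
    rw [c]
    linarith [norm_sub_le (k • (f + s)) (k • f), g1 N le_rfl]
  have r : ∀ M, N ≤ M → |s| * (ε / (2 * t M)) ≤ 2 * (ε / 64) := by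
    intro M hM
    induction M, hM using Nat.le_induction with
    | base =>
      refine lemR (fun x => ?_) (q N le_rfl) (by linarith) f3 ?_
      · obtain ⟨k, k1, k2⟩ := l1 x
        exact ⟨k, BB_anti u0 u2 _ (by omega) k1, k2⟩
      · rw [le_div_iff₀ (by linarith [t0 N])]
        linarith [g1 (2 * N + 3) (by omega)]
    | succ M hM ih =>
      obtain ⟨-, -, L', m1, m2, -⟩ := hG M
      have tM := t0 M
      refine lemR (L := 1 / t M) (fun x => ?_) (q (M + 1) (by omega)) (by linarith) ?_ ?_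
      · obtain ⟨k, k1, k2⟩ := m1 (round (x * t M) / t M)
        have e1 : |k * t M - round (x * t M)| ≤ (1 / 2) ^ (2 * M + 3) := by
          have : k * t M - round (x * t M) = (k - round (x * t M) / t M) * t M := by field_simp
          rw [this, abs_mul, abs_of_pos tM]
          exact (mul_le_mul_of_nonneg_right k2 tM.le).trans m2
        refine ⟨k, ⟨k1.1, fun i => ?_⟩, ?_⟩
        · rcases (Nat.lt_succ_iff.1 i.2).eq_or_lt with e | e
          · show ‖k • (t i : UnitAddCircle)‖ ≤ _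
            rw [e, ← AddCircle.coe_zsmul, zsmul_eq_mul, UnitAddCircle.norm_eq]
            exact (round_le _ _).trans e1
          · exact k1.2 ⟨i, e⟩
        · have e2 := abs_sub_round (x * t M)
          have e3 : (1 / 2 : ℝ) ^ (2 * M + 3) ≤ (1 / 2) ^ 1 :=
            pow_le_pow_of_le_one (by norm_num) (by norm_num) (by omega)
          rw [le_div_iff₀ tM, ← abs_of_pos tM, ← abs_mul]
          have := abs_sub_le (k * t M) (round (x * t M)) (x * t M)
          rw [abs_sub_comm] at e2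
          rw [sub_mul]
          linarith
      · have e : |s| * (ε / (2 * t M)) = |s| * (1 / t M) * (ε / 2) := by field_simp
        rw [e] at ih
        by_contra hc
        have := mul_le_mul_of_nonneg_right (not_lt.1 hc) (show 0 ≤ ε / 2 by linarith)
        linarith
      · have a := (hG (M + 1)).2.1 ⟨M, Nat.lt_succ_self M⟩
        have b := mul_le_mul_of_nonneg_right (g1 (M + 1) (by omega)) tM.le
        simp only at a
        rw [le_div_iff₀ (by linarith [t0 (M + 1)]), ← mul_div_assoc, div_mul_eq_mul_div,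
          div_le_iff₀ tM]
        have := mul_pos hε tM
        linarith
  have hs : s = 0 := by
    by_contra hne
    obtain ⟨M, hM⟩ := exists_pow_lt_of_lt_one (abs_pos.2 hne) (show (1 / 2 : ℝ) < 1 by norm_num)
    have a := r (N + M) (by omega)
    have b := (hG (N + M)).1.trans
      (pow_le_pow_of_le_one (by norm_num) (by norm_num) (show M ≤ N + M by omega))
    have tM := t0 (N + M)
    rw [← mul_div_assoc, div_le_iff₀ (by linarith)] at a
    nlinarith
  exact ⟨N, by simpa [hs] using f1⟩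

end main

theorem syndetic {τ : TopologicalSpace ℤ} (hp : Precompact τ) {V : Set ℤ} (hV : V ∈ @nhds ℤ τ 0) :
    ∃ L : ℝ, 0 < L ∧ ∀ x : ℝ, ∃ k ∈ V, |k - x| ≤ L := by
  obtain ⟨F, hF⟩ := hp V hV
  obtain ⟨b, hb⟩ := (F.image fun f : ℤ => |(f : ℝ)|).bddAbove
  refine ⟨|b| + 1, by positivity, fun x => ?_⟩
  obtain ⟨f, hf, u, hu, e⟩ := hF (round x)
  have a : |(f : ℝ)| ≤ b := hb (Finset.mem_coe.2 (Finset.mem_image_of_mem _ hf))
  have c := abs_sub_round x
  have e' : ((round x : ℤ) : ℝ) = f + u := by exact_mod_cast e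
  refine ⟨u, hu, ?_⟩
  rw [e'] at c
  rw [abs_le] at a c ⊢
  constructor <;> linarith [a.1, a.2, c.1, c.2, le_abs_self b]

theorem small_char {τ : TopologicalSpace ℤ} (h1 : @T1Space ℤ τ) (hq : LQC τ) {η : ℝ}
    (hη : 0 < η) : ∃ r : ℝ, 0 < r ∧ r ≤ η ∧ (r : UnitAddCircle) ∈ dual τ := by
  by_contra hc
  push Not at hc
  obtain ⟨M, hM⟩ := exists_nat_one_div_lt hη
  have h2 : ∀ χ ∈ dual τ, (((M + 1).factorial : ℕ) : ℤ) • χ = 0 := by
    intro χ hχ
    obtain ⟨j, hj, hj'⟩ := AddCircle.exists_norm_nsmul_le χ (Nat.succ_pos M)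
    have h3 : (j : ℤ) • χ = 0 := by
      obtain ⟨r, r1, r2⟩ := exists_rep ((j : ℤ) • χ)
      have r3 : |r| ≤ η := by
        rw [r2, natCast_zsmul]
        refine hj'.trans (le_trans ?_ hM.le)
        exact one_div_le_one_div_of_le (by positivity) (by push_cast; linarith)
      have r4 : (r : UnitAddCircle) ∈ dual τ := r1 ▸ smul_mem hχ j
      rcases lt_trichotomy r 0 with e | e | e
      · refine absurd ?_ (hc (-r) (by linarith) (by rwa [abs_of_neg e] at r3))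
        simpa using smul_mem r4 (-1)
      · rw [← r1, e]
        simp
      · exact absurd r4 (hc r e (by rwa [abs_of_pos e] at r3))
    obtain ⟨c, hc⟩ := Nat.dvd_factorial hj.1 hj.2
    rw [hc, mul_comm, Nat.cast_mul, mul_smul, h3, smul_zero]
  obtain ⟨A, -, a1, a2⟩ := hq {(((M + 1).factorial : ℕ) : ℤ)}ᶜ
    (@compl_singleton_mem_nhds ℤ τ h1 _ _ (by exact_mod_cast (Nat.factorial_ne_zero _).symm))
  obtain ⟨χ, x1, -, x2⟩ := a2 _ fun h => a1 h rfl
  rw [h2 χ x1] at x2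
  norm_num at x2

theorem dual_of_polar {τ : TopologicalSpace ℤ} (hg : @IsTopologicalAddGroup ℤ τ _)
    {f : UnitAddCircle} (h : ∀ δ > (0 : ℝ), {k : ℤ | ‖k • f‖ ≤ δ} ∈ @nhds ℤ τ 0) : f ∈ dual τ := by
  refine mem_dual fun x δ hδ => ?_
  have : Tendsto (fun y => y - x) (@nhds ℤ τ x) (@nhds ℤ τ 0) := by
    simpa using (continuous_sub_right x).tendsto x
  exact this (h δ hδ)

theorem not_mackey (τ : TopologicalSpace ℤ) (hg : @IsTopologicalAddGroup ℤ τ _)
    (hm : @MetrizableSpace ℤ τ) (hp : Precompact τ) : ¬ Mackey τ := by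
  rintro ⟨hq, hM⟩
  obtain ⟨u, hu, hu'⟩ := @IsTopologicalAddGroup.exists_antitone_basis_nhds_zero ℤ τ _ hg
    inferInstance
  set U : ℕ → Set ℤ := fun a => {k | k ∈ u a ∧ -k ∈ u a} with hU
  have un : ∀ a, U a ∈ @nhds ℤ τ 0 := fun a =>
    inter_mem (hu.mem a) (neg_mem_nhds_zero ℤ (hu.mem a))
  have u0 : ∀ a, 0 ∈ U a := fun a => mem_of_mem_nhds (un a)
  have u1 : ∀ a, ∀ k ∈ U a, -k ∈ U a := fun a k hk => ⟨hk.2, by simpa using hk.1⟩
  have u2 : ∀ a, ∀ k ∈ U (a + 1), ∀ l ∈ U (a + 1), k + l ∈ U a := fun a k hk l hl =>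
    ⟨hu' a (add_mem_add hk.1 hl.1), by rw [neg_add]; exact hu' a (add_mem_add hk.2 hl.2)⟩
  have hB : ∀ a n (g : Fin n → ℝ), (∀ i, (g i : UnitAddCircle) ∈ dual τ) →
      BB U a g ∈ @nhds ℤ τ 0 := fun a n g h => inter_mem (un a) (eventually_all.2 fun i => by
    have := Metric.tendsto_nhds.1 ((h i).tendsto 0) ((1 / 2) ^ a) (by positivity)
    filter_upwards [this] with k hk
    rw [zero_smul, dist_zero_right] at hk
    exact hk.le)
  have step : ∀ N (g : Fin N → ℝ), ∃ t : ℝ, (∀ i, 0 < g i ∧ (g i : UnitAddCircle) ∈ dual τ) →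
      (0 < t ∧ (t : UnitAddCircle) ∈ dual τ) ∧ Good U N g t := by
    intro N g
    by_cases h : ∀ i, 0 < g i ∧ (g i : UnitAddCircle) ∈ dual τ
    swap
    · exact ⟨0, fun h' => absurd h' h⟩
    obtain ⟨L, l0, l1⟩ := syndetic hp (hB (2 * N + 3) N g fun i => (h i).2)
    obtain ⟨R, hR⟩ := near_polar (BB U (N + 1) g) (η := 1 / 8 / L) (by positivity)
    have e : ∀ c : ℝ, 0 < c → ∀ᶠ η in 𝓝[>] (0 : ℝ), η ≤ c := fun c hc =>
      mem_of_superset (Ioc_mem_nhdsGT hc) fun _ h => h.2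
    obtain ⟨η, η0, η1, η2, η3, η4⟩ := (eventually_mem_nhdsWithin.and
      ((e ((1 / 2) ^ N) (by positivity)).and ((eventually_all.2 fun i =>
        e ((1 / 2) ^ N / 8 * g i) (by have := (h i).1; positivity)).and
        ((e ((1 / 2) ^ (2 * N + 3) / L) (by positivity)).and
          (e ((1 / 2) ^ N / (R + 1)) (by positivity)))))).exists
    obtain ⟨r, r0, r1, r2⟩ := small_char inferInstance hq η0
    refine ⟨r, fun _ => ⟨⟨r0, r2⟩, r1.trans η1, fun i => r1.trans (η2 i), L, l1, ?_,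
      fun χ hχ => ?_⟩⟩
    · have := r1.trans η3
      rw [le_div_iff₀ l0] at this
      linarith
    · obtain ⟨f, f1, f2⟩ := hR χ fun k hk hk' => hχ k hk (by
        have a := r1.trans η4
        rw [le_div_iff₀ (by positivity)] at a
        have b : |(k : ℝ)| ≤ R := by exact_mod_cast hk'
        nlinarith)
      obtain ⟨s, s1, s2⟩ := exists_rep (χ - f)
      refine ⟨f, s, f1, by rw [s1]; abel, ?_⟩
      rw [← s2, lt_div_iff₀ l0] at f2
      exact f2
  choose c hc using step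
  set t := sq c with ht
  have h1 : ∀ n, 0 < t n ∧ (t n : UnitAddCircle) ∈ dual τ := by
    intro n
    induction n using Nat.strong_induction_on with
    | _ n ih =>
      rw [ht, sq]
      exact (hc n _ fun i => ih i i.2).1
  have hG : ∀ N, Good U N (fun i => t i) (t N) := fun N => by
    have := (hc N (fun i => t i) fun i => h1 i).2
    rwa [ht, sq]
  set S : Set UnitAddCircle := range fun n => (t n : UnitAddCircle) with hS
  have hd : dual (τ ⊓ uc S) = dual τ := by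
    refine Subset.antisymm (fun χ hχ => ?_) fun χ hχ => continuous_le_dom inf_le_left hχ
    have a := dual_nhds hχ
    rw [nhds_inf] at a
    obtain ⟨A, hA, B, hB', e⟩ := mem_inf_iff.1 a
    obtain ⟨m, hm⟩ := hu.mem_iff.1 hA
    obtain ⟨ε, hε, h2⟩ := (basis_uc S 0).mem_iff.1 hB'
    obtain ⟨N, hN⟩ := polar_of u0 u1 u2 (fun n => (h1 n).1) hG (χ := χ) (m := m)
      (lt_min hε one_pos) (min_le_right ε 1) fun k hk hk' => by
        have : k ∈ A ∩ B := ⟨hm hk.1, h2 (by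
          rintro _ ⟨n, rfl⟩
          rw [sub_zero]
          exact (hk' n).trans (min_le_left _ _))⟩
        rw [← e] at this
        exact this
    refine dual_of_polar hg fun δ hδ => ?_
    obtain ⟨j, hj⟩ := exists_pow_lt_of_lt_one hδ (show (1 / 2 : ℝ) < 1 by norm_num)
    filter_upwards [hB (N + 1 + j) N (fun i => t i) fun i => (h1 i).2] with k hk
    have : (0 : ℝ) < (1 / 2) ^ j := by positivity
    linarith [BB_half u0 u2 _ hN j hk]
  have hl : LQC (τ ⊓ uc S) := by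
    intro V hV
    rw [nhds_inf] at hV ⊢
    obtain ⟨A, hA, B, hB', rfl⟩ := mem_inf_iff.1 hV
    obtain ⟨A', a1, a2, a3⟩ := hq A hA
    obtain ⟨B', b1, b2, b3⟩ := lqc_uc S B hB'
    refine ⟨A' ∩ B', inter_mem_inf a1 b1, inter_subset_inter a2 b2, fun x hx => ?_⟩
    rcases not_and_or.1 hx with hx | hx
    · obtain ⟨χ, x1, x2, x3⟩ := a3 x hx
      exact ⟨χ, continuous_le_dom inf_le_left x1, fun a ha => x2 a ha.1, x3⟩
    · obtain ⟨χ, x1, x2, x3⟩ := b3 x hx
      exact ⟨χ, continuous_le_dom inf_le_right x1, fun a ha => x2 a ha.2, x3⟩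
  have hle : τ ≤ uc S := le_trans (hM _ (topologicalAddGroup_inf hg (group_uc S)) hl hd)
    inf_le_right
  obtain ⟨L, l0, l1⟩ := syndetic hp (_root_.nhds_mono hle
    ((basis_uc S 0).mem_of_mem (i := 1 / 8) (by norm_num)))
  obtain ⟨n, hn⟩ := exists_pow_lt_of_lt_one (show 0 < 1 / 8 / L by positivity)
    (show (1 / 2 : ℝ) < 1 by norm_num)
  have a := (hG n).1.trans_lt hn
  have tn := (h1 n).1
  rw [lt_div_iff₀ l0] at a
  have := lemR (s := t n) (R := 4 * L + 1 / t n) (δ := 1 / 8) l1 (fun k hk _ => by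
    simpa using hk _ ⟨n, rfl⟩) le_rfl (by rwa [abs_of_pos tn]) (by
      have : 0 < 1 / t n := by positivity
      linarith)
  rw [abs_of_pos tn, mul_add, mul_one_div_cancel tn.ne'] at this
  nlinarith

end Pool.Agent.H84.ZC
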