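import Mathlib

/-! Group topologies on the integers attached to D-sequences. -/

namespace Pool.Agent.H84.ZDefs

open Set Filter TopologicalSpace Topology

/-- D-sequences. -/
def IsD (b : ℕ → ℕ) : Prop := b 0 = 1 ∧ ∀ n, 0 < b n ∧ b n ∣ b (n + 1) ∧ b n ≠ b (n + 1)

/-- D-sequences whose consecutive ratios tend to infinity. -/
def IsDinf (b : ℕ → ℕ) : Prop :=
  IsD b ∧ Tendsto (fun n => (b (n + 1) : ℝ) / b n) atTop atTop

/-- The topology in which `U` is open iff each `x ∈ U` has some `x + b n ℤ` inside `U`. -/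
def lam (b : ℕ → ℕ) : TopologicalSpace ℤ :=
  TopologicalSpace.mkOfNhds fun x => ⨅ n, 𝓟 {y | (b n : ℤ) ∣ y - x}

/-- Uniform convergence on a set `S` of characters (a character is its value at `1`): `U` is open
iff each `x ∈ U` has some `x + {k | ∀ s ∈ S, ‖k s‖ ≤ ε}` with `ε > 0` inside `U`. -/
noncomputable def uc (S : Set UnitAddCircle) : TopologicalSpace ℤ :=
  TopologicalSpace.mkOfNhds fun x => ⨅ ε > (0 : ℝ), 𝓟 {y | ∀ s ∈ S, ‖(y - x) • s‖ ≤ ε}

/-- Uniform convergence on the characters `1 / c n`, `n ≥ 1`. -/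
noncomputable def tau (c : ℕ → ℕ) : TopologicalSpace ℤ :=
  uc {s | ∃ n, 1 ≤ n ∧ s = ((1 / c n : ℝ) : UnitAddCircle)}

/-- The coarsest topology finer than every `tau c` with `c` in `D∞` and `lam c = lam b`
(in Mathlib's order finer topologies are smaller, so this is an infimum). -/
noncomputable def sup (b : ℕ → ℕ) : TopologicalSpace ℤ :=
  sInf {t | ∃ c, IsDinf c ∧ lam c = lam b ∧ t = tau c}

/-- The continuous characters of `(ℤ, t)`, each identified with its value at `1`. -/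
def dual (t : TopologicalSpace ℤ) : Set UnitAddCircle :=
  {χ | Continuous[t, _] fun k : ℤ => k • χ}

/-- The group of all `k / b n` modulo one. -/
def HH (b : ℕ → ℕ) : Set UnitAddCircle :=
  {χ | ∃ (k : ℤ) (n : ℕ), χ = ((k / b n : ℝ) : UnitAddCircle)}

/-- Locally quasi-convex: zero has a base of quasi-convex neighbourhoods. -/
def LQC (t : TopologicalSpace ℤ) : Prop :=
  ∀ U ∈ @nhds ℤ t 0, ∃ A ∈ @nhds ℤ t 0, A ⊆ U ∧
    ∀ x ∉ A, ∃ χ ∈ dual t, (∀ a ∈ A, ‖a • χ‖ ≤ 1 / 4) ∧ ¬ ‖x • χ‖ ≤ 1 / 4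

end Pool.Agent.H84.ZDefs
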